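import Mathlib

/- Helper62.MVC2.FirstMom -/
section
/-!
MV-C2-3a. First moment method and scaling of one coordinate.

Proofs. `exists_first_moment`: suppose not: `J := ∫_S G (O ∘ g) > I * O l` for all `l ∈ [0,L]`, `I = ∫_S G`. Then
`k(u) = G(u) (J - I * O (g u)) ≥ 0` on `S` (it is zero if `G u = 0`), integrable on `S`, with `∫_S k = I J - I J = 0`, so `k = 0`
a.e. on `S`, so `G = 0` a.e. on `S` (where `G ≠ 0`, `J - I O(g u) > 0`), so `J = 0 = I`, contradicting `J > I * O 0 = 0`.
`integral_halve`: substitution `x ↦ Function.update x e₀ (x e₀ / 2)`, a linear map with determinant `1/2` which maps the orthant onto itself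
(`Real.map_linearMap_volume_pi_eq_smul_volume_pi`, or `Real.map_matrix_volume_pi_eq_smul_volume_pi` with a diagonal matrix, or
`MeasureTheory.Measure.integral_comp_...`, or Fubini for the coordinate `e₀`: `MeasureTheory.integral_comp_mul_left_Ioi`).
No integrability is needed (both sides are integrals over measures related by a scalar).
-/

namespace Pool.Agent.Helper62.MVC2

open MeasureTheory

theorem exists_first_moment {X : Type} [MeasurableSpace X] (ν : Measure X) (S : Set X)
    (hS : MeasurableSet S) (G g : X → ℝ) (O : ℝ → ℝ) (L : ℝ) (hL : 0 ≤ L)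
    (hG : ∀ u, 0 ≤ G u) (hGi : IntegrableOn G S ν)
    (hGO : IntegrableOn (fun u => G u * O (g u)) S ν)
    (hsupp : ∀ u ∈ S, G u ≠ 0 → 0 ≤ g u ∧ g u ≤ L) :
    ∃ l, 0 ≤ l ∧ l ≤ L ∧ ∫ u in S, G u * O (g u) ∂ν ≤ (∫ u in S, G u ∂ν) * O l := by
  by_contra hcon
  push Not at hcon
  set J := ∫ u in S, G u * O (g u) ∂ν with hJ
  set I := ∫ u in S, G u ∂ν with hI
  have hpos : ∀ u ∈ S, G u ≠ 0 → 0 < G u * J - I * (G u * O (g u)) := by
    intro u hu hne
    obtain ⟨h1, h2⟩ := hsupp u hu hne
    have h3 := hcon (g u) h1 h2
    have h4 : 0 < G u := lt_of_le_of_ne (hG u) (Ne.symm hne)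
    have h5 : G u * J - I * (G u * O (g u)) = G u * (J - I * O (g u)) := by ring
    rw [h5]
    exact mul_pos h4 (sub_pos.mpr h3)
  have hnn : 0 ≤ᵐ[ν.restrict S] fun u => G u * J - I * (G u * O (g u)) := by
    refine (ae_restrict_mem hS).mono fun u hu => ?_
    by_cases hne : G u = 0
    · simp [hne]
    · exact (hpos u hu hne).le
  have hint : Integrable (fun u => G u * J - I * (G u * O (g u))) (ν.restrict S) :=
    (hGi.mul_const J).sub (hGO.const_mul I)
  have hzero : ∫ u, (G u * J - I * (G u * O (g u))) ∂(ν.restrict S) = 0 := by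
    rw [integral_sub (hGi.mul_const J) (hGO.const_mul I), integral_mul_const,
      integral_const_mul, ← hJ, ← hI, sub_self]
  have hae := (integral_eq_zero_iff_of_nonneg_ae hnn hint).mp hzero
  have hG0 : ∀ᵐ u ∂(ν.restrict S), G u = 0 := by
    filter_upwards [hae, ae_restrict_mem hS] with u h1 h2
    by_contra hne
    exact absurd h1 (hpos u h2 hne).ne'
  have hI0 : I = 0 := by
    rw [hI]
    exact integral_eq_zero_of_ae hG0
  have hJ0 : J = 0 := by
    rw [hJ]
    refine integral_eq_zero_of_ae (hG0.mono fun u hu => ?_)
    simp [hu]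
  have h0 := hcon 0 le_rfl hL
  rw [hI0, hJ0, zero_mul] at h0
  exact lt_irrefl _ h0

theorem integral_halve {ι : Type} [Fintype ι] [DecidableEq ι] (e₀ : ι) (f : (ι → ℝ) → ℝ) :
    ∫ x in {x : ι → ℝ | ∀ e, 0 < x e}, f (Function.update x e₀ (x e₀ / 2)) =
      2 * ∫ x in {x : ι → ℝ | ∀ e, 0 < x e}, f x := by
  let T : (ι → ℝ) ≃ᵐ (ι → ℝ) :=
    { toFun := fun x => Function.update x e₀ (x e₀ / 2)
      invFun := fun x => Function.update x e₀ (x e₀ * 2)
      left_inv := by
        intro x
        simp
      right_inv := by
        intro x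
        simp
      measurable_toFun := by
        refine measurable_pi_iff.mpr fun e => ?_
        by_cases h : e = e₀
        · subst h
          simpa using (measurable_pi_apply e).div_const 2
        · simpa [Function.update_of_ne h] using measurable_pi_apply e
      measurable_invFun := by
        refine measurable_pi_iff.mpr fun e => ?_
        by_cases h : e = e₀
        · subst h
          simpa using (measurable_pi_apply e).mul_const 2
        · simpa [Function.update_of_ne h] using measurable_pi_apply e }
  have hTdef : ∀ x, T x = Function.update x e₀ (x e₀ / 2) := fun x => rfl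
  let M : Matrix ι ι ℝ := Matrix.diagonal (Function.update (fun _ => (1 : ℝ)) e₀ (1 / 2))
  have hdet : M.det = 1 / 2 := by
    simp only [M, Matrix.det_diagonal]
    rw [Finset.prod_update_of_mem (Finset.mem_univ e₀)]
    simp
  have hTM : (T : (ι → ℝ) → (ι → ℝ)) = Matrix.toLin' M := by
    funext x
    rw [hTdef, Matrix.toLin'_apply]
    funext e
    rw [Matrix.mulVec_diagonal]
    by_cases h : e = e₀
    · subst h
      simp
      ring
    · simp [Function.update_of_ne h]
  have hmap : Measure.map T volume = ENNReal.ofReal 2 • (volume : Measure (ι → ℝ)) := by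
    rw [hTM, Real.map_matrix_volume_pi_eq_smul_volume_pi (by rw [hdet]; norm_num), hdet]
    norm_num
  have hpre : T ⁻¹' {x : ι → ℝ | ∀ e, 0 < x e} = {x : ι → ℝ | ∀ e, 0 < x e} := by
    ext x
    simp only [Set.mem_preimage, Set.mem_ofPred_eq, hTdef]
    constructor
    · intro h e
      by_cases he : e = e₀
      · subst he
        have := h e
        rw [Function.update_self] at this
        linarith
      · have := h e
        rwa [Function.update_of_ne he] at this
    · intro h e
      by_cases he : e = e₀
      · subst he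
        rw [Function.update_self]
        have := h e
        linarith
      · rw [Function.update_of_ne he]
        exact h e
  have h1 := MeasureTheory.setIntegral_map_equiv T f {x : ι → ℝ | ∀ e, 0 < x e} (μ := volume)
  rw [hpre, hmap, Measure.restrict_smul, integral_smul_measure] at h1
  simp only [hTdef] at h1
  rw [← h1]
  simp

end Pool.Agent.Helper62.MVC2
end
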