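import Pool.Agent.Helper16.LGG.G01

/- Helper60.MV.B.Spec -/
section
/-!
Project MV, block B: common definitions.
-/

namespace Pool.Agent.Helper60.MV

open Finset MeasureTheory Filter Topology

/-- autocorrelation of the tent -/
noncomputable def corr (ε d : ℝ) : ℝ := ∫ z : ℝ, tentE ε z * tentE ε (z - d)

/-- perimeter of the face `b` of the cylinder `c`, natural number lengths -/
def pN {ι κ : Type} [Fintype ι] (P : κ → Bool → ι → ℕ) (c : κ) (b : Bool) (l : ι → ℕ) : ℕ :=
  ∑ e, P c b e * l e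

/-- perimeter, real lengths -/
noncomputable def pR {ι κ : Type} [Fintype ι] (P : κ → Bool → ι → ℕ) (c : κ) (b : Bool)
    (x : ι → ℝ) : ℝ :=
  ∑ e, (P c b e : ℝ) * x e

/-- lattice sum with prescribed differences `δ` of the perimeters -/
noncomputable def St {ι κ : Type} [Fintype ι] [Fintype κ] (P : κ → Bool → ι → ℕ) (t : ℝ)
    (δ : κ → ℤ) : ℝ := by
  classical
  exact ∑' l : ι → ℕ+,
    if ∀ c, (pN P c false (fun e => (l e : ℕ)) : ℤ) - (pN P c true (fun e => (l e : ℕ)) : ℤ) = δ c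
    then ∏ c : κ, phi (t * (pN P c false (fun e => (l e : ℕ)) : ℝ)) else 0

/-- hypotheses of block B1 -/
structure Adm {ι κ : Type} [Fintype ι] [Fintype κ] (P : κ → Bool → ι → ℕ) : Prop where
  col : ∀ e, ∑ c, (P c false e + P c true e) = 2
  good : ∃ u : ι → ℕ, (∀ e, 0 < u e) ∧ ∀ c, ∑ e, P c false e * u e = ∑ e, P c true e * u e
  im : ∀ c c' : κ, ∃ z : ι → ℤ, ∀ c'' : κ, ∑ e, ((P c'' false e : ℤ) - P c'' true e) * z e =
    (by classical exact (if c'' = c then 1 else 0) + (if c'' = c' then 1 else 0))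

end Pool.Agent.Helper60.MV
end

/- Helper60.MV.B.Phi -/
section
/-!
MV-B1. Facts about `phi w = w / (exp w - 1)` (`phi 0 = 1`).

Proofs. `w / (e^w - 1) = e^{-w/2} (w/2)/sinh(w/2)`; `sinh u / u >= 1`, so `0 < phi w <= e^{-w/2}`.
Shift: the logarithmic derivative of `phi` is `1/w - 1 - 1/(e^w - 1)`, which lies in `[-1, 0]` because
`e^w - 1 >= w` (both signs of `w`), so `phi` is decreasing and `e^w phi(w)` is increasing. (Note
`e^w phi w = w/(1 - e^{-w}) = phi (-w)`, so the second statement is the first one for `-w`.)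
Antitone: `phi w = 1 / g w` with `g w = (e^w - 1)/w = ∫_0^1 e^{s w} ds` (`g 0 = 1`) increasing, continuous, positive.
Bound with 9/10: for `w >= 0`, `phi w = w/(e^w-1) <= (1+w) e^{-w}` (as `w <= (1+w)(1-e^{-w})`, from
`e^w >= 1 + w`), and `1 + w <= 10 e^{(w-9)/10}` gives `phi w e^{9w/10} <= 10 e^{-9/10} <= 5`;
for `-1 <= w <= 0`: `phi w <= phi (-1) <= 2 <= 5 e^{-9w/10}`.
-/

namespace Pool.Agent.Helper60.MV

private noncomputable def gphi (w : ℝ) : ℝ := if w = 0 then 1 else (Real.exp w - 1) / w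

private theorem phi_eq_inv (w : ℝ) : phi w = (gphi w)⁻¹ := by
  unfold phi gphi
  split_ifs with h
  · simp
  · rw [inv_div]

private theorem gphi_mono : Monotone gphi := by
  intro x y hxy
  unfold gphi
  by_cases hx : x = 0
  · by_cases hy : y = 0
    · simp [hx, hy]
    · have hy0 : 0 < y := lt_of_le_of_ne (by rw [← hx]; exact hxy) (Ne.symm hy)
      rw [if_pos hx, if_neg hy, le_div_iff₀ hy0]
      have := Real.add_one_le_exp y
      linarith
  · by_cases hy : y = 0
    · have hx0 : x < 0 := lt_of_le_of_ne (by rw [← hy]; exact hxy) hx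
      rw [if_neg hx, if_pos hy, div_le_iff_of_neg hx0]
      have := Real.add_one_le_exp x
      linarith
    · rw [if_neg hx, if_neg hy]
      have h := convexOn_exp.secant_mono (a := 0) (x := x) (y := y) (Set.mem_univ _)
        (Set.mem_univ _) (Set.mem_univ _) hx hy hxy
      simpa using h

private theorem gphi_pos (w : ℝ) : 0 < gphi w := by
  unfold gphi
  split_ifs with h
  · exact one_pos
  · rcases lt_or_gt_of_ne h with h' | h'
    · apply div_pos_of_neg_of_neg _ h'
      have := Real.exp_lt_one_iff.mpr h'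
      linarith
    · apply div_pos _ h'
      have := Real.add_one_lt_exp h
      linarith

theorem phi_pos (w : ℝ) : 0 < phi w := by
  rw [phi_eq_inv]
  exact inv_pos.mpr (gphi_pos w)

theorem phi_antitone : Antitone phi := by
  intro x y hxy
  rw [phi_eq_inv, phi_eq_inv]
  exact inv_anti₀ (gphi_pos x) (gphi_mono hxy)

theorem phi_continuous : Continuous phi := by
  have h1 : phi = fun w => (dslope Real.exp 0 w)⁻¹ := by
    funext w
    rw [phi_eq_inv]
    unfold gphi
    by_cases h : w = 0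
    · rw [if_pos h, h, dslope_same]
      simp
    · rw [if_neg h, dslope_of_ne _ h, slope_def_field]
      simp
  have h2 : Continuous (dslope Real.exp 0) := by
    rw [← continuousOn_univ]
    rw [continuousOn_dslope Filter.univ_mem]
    exact ⟨Real.continuous_exp.continuousOn, Real.differentiable_exp.differentiableAt⟩
  rw [h1]
  apply h2.inv₀
  intro w
  have : dslope Real.exp 0 w = gphi w := by
    unfold gphi
    by_cases h : w = 0
    · rw [if_pos h, h, dslope_same]
      simp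
    · rw [if_neg h, dslope_of_ne _ h, slope_def_field]
      simp
  rw [this]
  exact (gphi_pos w).ne'

theorem phi_le_exp (w : ℝ) : phi w ≤ Real.exp (-(w / 2)) := by
  unfold phi
  split_ifs with h
  · simp [h]
  · have he : Real.exp (-(w / 2)) * (Real.exp w - 1) = 2 * Real.sinh (w / 2) := by
      rw [Real.sinh_eq, mul_sub, ← Real.exp_add]
      have : -(w / 2) + w = w / 2 := by ring
      rw [this]
      ring
    rcases lt_or_gt_of_ne h with h' | h'
    · have h1 : Real.exp w - 1 < 0 := by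
        have := Real.exp_lt_one_iff.mpr h'
        linarith
      rw [div_le_iff_of_neg h1, he]
      have := Real.sinh_le_self_iff.mpr (show w / 2 ≤ 0 by linarith)
      linarith
    · have h1 : 0 < Real.exp w - 1 := by
        have := Real.add_one_lt_exp h
        linarith
      rw [div_le_iff₀ h1, he]
      have := Real.self_le_sinh_iff.mpr (show 0 ≤ w / 2 by linarith)
      linarith

private theorem phi_neg (w : ℝ) : phi (-w) = Real.exp w * phi w := by
  unfold phi
  by_cases h : w = 0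
  · simp [h]
  · have h' : -w ≠ 0 := neg_ne_zero.mpr h
    rw [if_neg h, if_neg h', Real.exp_neg]
    have h1 : Real.exp w - 1 ≠ 0 := by
      intro h2
      apply h
      have h3 : Real.exp w = 1 := by linarith
      exact (Real.exp_eq_one_iff w).mp h3
    have h2 : (Real.exp w)⁻¹ - 1 ≠ 0 := by
      intro h3
      apply h1
      have h4 : (Real.exp w)⁻¹ = 1 := by linarith
      rw [inv_eq_one] at h4
      rw [h4]
      ring
    have h3 : Real.exp w ≠ 0 := (Real.exp_pos w).ne'
    have h4 : (Real.exp w)⁻¹ - 1 = -(Real.exp w - 1) / Real.exp w := by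
      field_simp
      ring
    rw [h4, div_div_eq_mul_div, neg_mul, neg_div_neg_eq]
    ring

theorem phi_shift (w η : ℝ) (hη : 0 ≤ η) : Real.exp (-η) * phi w ≤ phi (w + η) := by
  have h1 : phi (-w) ≤ phi (-(w + η)) := phi_antitone (by linarith)
  rw [phi_neg, phi_neg, Real.exp_add, mul_assoc] at h1
  have h2 := le_of_mul_le_mul_left h1 (Real.exp_pos w)
  have h3 : Real.exp (-η) * phi w ≤ Real.exp (-η) * (Real.exp η * phi (w + η)) :=
    mul_le_mul_of_nonneg_left h2 (Real.exp_pos _).le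
  rw [← mul_assoc, ← Real.exp_add, neg_add_cancel, Real.exp_zero, one_mul] at h3
  exact h3

theorem phi_le_exp9 (w : ℝ) (hw : -1 ≤ w) : phi w ≤ 5 * Real.exp (-(9 / 10 * w)) := by
  rcases le_total 0 w with h | h
  · have h1 : phi w ≤ (1 + w) * Real.exp (-w) := by
      unfold phi
      by_cases h0 : w = 0
      · simp [h0]
      · rw [if_neg h0]
        have h2 : 0 < Real.exp w - 1 := by
          have := Real.add_one_lt_exp h0
          linarith
        rw [div_le_iff₀ h2]
        have h3 : (1 + w) * Real.exp (-w) * (Real.exp w - 1) = (1 + w) * (1 - Real.exp (-w)) := by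
          have : Real.exp (-w) * Real.exp w = 1 := by
            rw [← Real.exp_add, neg_add_cancel, Real.exp_zero]
          linear_combination (1 + w) * this
        rw [h3]
        have h4 : (1 + w) * Real.exp (-w) ≤ 1 := by
          have h5 := Real.add_one_le_exp w
          have h6 : (1 + w) * Real.exp (-w) ≤ Real.exp w * Real.exp (-w) :=
            mul_le_mul_of_nonneg_right (by linarith) (Real.exp_pos _).le
          rw [← Real.exp_add, add_neg_cancel, Real.exp_zero] at h6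
          exact h6
        linarith
    have h2 : 1 + w ≤ 10 * Real.exp ((w - 9) / 10) := by
      have := Real.add_one_le_exp ((w - 9) / 10)
      linarith
    have h3 : phi w ≤ 10 * Real.exp ((w - 9) / 10) * Real.exp (-w) :=
      h1.trans (mul_le_mul_of_nonneg_right h2 (Real.exp_pos _).le)
    have h4 : 10 * Real.exp ((w - 9) / 10) * Real.exp (-w)
        = 10 * Real.exp (-(9 / 10)) * Real.exp (-(9 / 10 * w)) := by
      rw [mul_assoc, mul_assoc, ← Real.exp_add, ← Real.exp_add]
      congr 2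
      ring
    have h5 : 10 * Real.exp (-(9 / 10 : ℝ)) ≤ 5 := by
      rw [Real.exp_neg]
      have h6 := Real.quadratic_le_exp_of_nonneg (show (0:ℝ) ≤ 9 / 10 by norm_num)
      have h7 : (2:ℝ) ≤ Real.exp (9 / 10) := by
        refine le_trans ?_ h6
        norm_num
      have h8 : (Real.exp (9 / 10 : ℝ))⁻¹ ≤ (2:ℝ)⁻¹ := inv_anti₀ (by norm_num) h7
      linarith
    rw [h4] at h3
    exact h3.trans (mul_le_mul_of_nonneg_right h5 (Real.exp_pos _).le)
  · have h1 : phi w ≤ phi (-1) := phi_antitone hw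
    have h2 : phi (-1) ≤ 2 := by
      rw [phi_neg]
      unfold phi
      rw [if_neg one_ne_zero]
      have h3 : (2:ℝ) ≤ Real.exp 1 := by
        have := Real.add_one_le_exp (1:ℝ)
        linarith
      have h4 : 0 < Real.exp 1 - 1 := by linarith
      rw [mul_one_div, div_le_iff₀ h4]
      linarith
    have h5 : (1:ℝ) ≤ Real.exp (-(9 / 10 * w)) := Real.one_le_exp (by linarith)
    linarith

end Pool.Agent.Helper60.MV
end

/- Helper60.MV.B.Tent -/
section
/-!
MV-B2. Facts about the tent and its autocorrelation (`0 < ε` everywhere).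

Proofs. `tent x = max 0 (1-|x|)` is continuous, even, supported in `[-1,1]`, has integral 1 (compute on `[-1,0]`
and `[0,1]`), `0 <= tent <= 1`. Rescale (`integral_comp_div` or similar). `corr ε d = ∫ tentE ε z tentE ε (z-d)`:
nonnegative, `<= 1/ε` (bound the first factor by `1/ε`, the second one has integral 1), even (change of variables
`z -> z + d` and evenness of the tent), zero if `|d| >= 2 ε`, continuous (continuity of parameter integrals: the integrand is
continuous and supported in `[-ε, ε]`), total integral 1 (Fubini).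
-/

namespace Pool.Agent.Helper60.MV

open MeasureTheory

private theorem tent_nonneg (x : ℝ) : 0 ≤ tent x := le_max_left _ _

private theorem tent_le_one (x : ℝ) : tent x ≤ 1 :=
  max_le (by norm_num) (by linarith [abs_nonneg x])

private theorem tent_continuous : Continuous tent :=
  continuous_const.max (continuous_const.sub continuous_abs)

private theorem tent_zero {x : ℝ} (hx : 1 ≤ |x|) : tent x = 0 :=
  max_eq_left (by linarith)

private theorem tent_integral : ∫ x, tent x = 1 := by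
  have hs : Function.support tent ⊆ Set.Ioc (-1) 1 := by
    intro x hx
    by_contra hcon
    apply hx
    apply tent_zero
    rcases le_or_gt x (-1) with h | h
    · rw [abs_of_nonpos (by linarith)]
      linarith
    · have : 1 < x := by
        by_contra h2
        exact hcon ⟨h, not_lt.mp h2⟩
      rw [abs_of_pos (by linarith)]
      exact this.le
  rw [← intervalIntegral.integral_eq_integral_of_support_subset hs,
    ← intervalIntegral.integral_add_adjacent_intervals (b := 0)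
      (tent_continuous.intervalIntegrable _ _) (tent_continuous.intervalIntegrable _ _)]
  have h1 : ∫ x in (-1 : ℝ)..0, tent x = ∫ x in (-1 : ℝ)..0, (1 + x) := by
    apply intervalIntegral.integral_congr
    intro x hx
    rw [Set.uIcc_of_le (by norm_num)] at hx
    simp only [tent]
    rw [abs_of_nonpos hx.2, max_eq_right (by linarith [hx.1])]
    ring
  have h2 : ∫ x in (0 : ℝ)..1, tent x = ∫ x in (0 : ℝ)..1, (1 - x) := by
    apply intervalIntegral.integral_congr
    intro x hx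
    rw [Set.uIcc_of_le (by norm_num)] at hx
    simp only [tent]
    rw [abs_of_nonneg hx.1, max_eq_right (by linarith [hx.2])]
  have h3 : ∫ x in (-1 : ℝ)..0, (1 + x) = 1 / 2 := by
    rw [intervalIntegral.integral_add (by simp) (by simp)]
    simp
    norm_num
  have h4 : ∫ x in (0 : ℝ)..1, (1 - x) = 1 / 2 := by
    rw [intervalIntegral.integral_sub (by simp) (by simp)]
    simp
    norm_num
  rw [h1, h2, h3, h4]
  norm_num

theorem tentE_nonneg (ε : ℝ) (hε : 0 < ε) (x : ℝ) : 0 ≤ tentE ε x :=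
  mul_nonneg (inv_nonneg.mpr hε.le) (tent_nonneg _)

theorem tentE_le (ε : ℝ) (hε : 0 < ε) (x : ℝ) : tentE ε x ≤ ε⁻¹ :=
  mul_le_of_le_one_right (inv_nonneg.mpr hε.le) (tent_le_one _)

theorem tentE_continuous (ε : ℝ) : Continuous (tentE ε) :=
  continuous_const.mul (tent_continuous.comp (continuous_id.div_const ε))

theorem tentE_even (ε x : ℝ) : tentE ε (-x) = tentE ε x := by
  simp only [tentE, tent, neg_div, abs_neg]

theorem tentE_zero (ε : ℝ) (hε : 0 < ε) (x : ℝ) (hx : ε ≤ |x|) : tentE ε x = 0 := by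
  have h : tent (x / ε) = 0 := by
    apply tent_zero
    rw [abs_div, abs_of_pos hε, le_div_iff₀ hε]
    linarith
  rw [tentE, h, mul_zero]

private theorem tentE_compact (ε : ℝ) (hε : 0 < ε) : HasCompactSupport (tentE ε) := by
  refine HasCompactSupport.intro (isCompact_Icc (a := -ε) (b := ε)) (fun x hx => ?_)
  apply tentE_zero ε hε
  by_contra hcon
  apply hx
  exact abs_le.mp (not_le.mp hcon).le

theorem tentE_integrable (ε : ℝ) (hε : 0 < ε) : Integrable (tentE ε) :=
  (tentE_continuous ε).integrable_of_hasCompactSupport (tentE_compact ε hε)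

theorem tentE_integral (ε : ℝ) (hε : 0 < ε) : ∫ x, tentE ε x = 1 := by
  simp only [tentE]
  rw [integral_const_mul, Measure.integral_comp_div (fun x => tent x) ε, tent_integral,
    abs_of_pos hε]
  simp only [smul_eq_mul, mul_one]
  exact inv_mul_cancel₀ hε.ne'

private theorem prod_integrable (ε : ℝ) (hε : 0 < ε) (d : ℝ) :
    Integrable (fun z => tentE ε z * tentE ε (z - d)) := by
  refine Continuous.integrable_of_hasCompactSupport ?_ ?_
  · exact (tentE_continuous ε).mul ((tentE_continuous ε).comp (continuous_id.sub continuous_const))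
  · exact (tentE_compact ε hε).mul_right

theorem corr_nonneg (ε : ℝ) (hε : 0 < ε) (d : ℝ) : 0 ≤ corr ε d :=
  integral_nonneg (fun z => mul_nonneg (tentE_nonneg ε hε _) (tentE_nonneg ε hε _))

theorem corr_le (ε : ℝ) (hε : 0 < ε) (d : ℝ) : corr ε d ≤ ε⁻¹ := by
  have h1 : corr ε d ≤ ∫ z, ε⁻¹ * tentE ε (z - d) := by
    apply integral_mono (prod_integrable ε hε d)
      (((tentE_integrable ε hε).comp_sub_right d).const_mul _)
    intro z
    exact mul_le_mul_of_nonneg_right (tentE_le ε hε z) (tentE_nonneg ε hε _)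
  rw [integral_const_mul, integral_sub_right_eq_self (tentE ε) d, tentE_integral ε hε,
    mul_one] at h1
  exact h1

theorem corr_even (ε : ℝ) (hε : 0 < ε) (d : ℝ) : corr ε (-d) = corr ε d := by
  have h := integral_sub_right_eq_self (μ := volume) (fun z => tentE ε z * tentE ε (z - -d)) d
  simp only [corr]
  rw [← h]
  congr 1
  funext z
  rw [show z - d - -d = z by ring, mul_comm]

theorem corr_zero (ε : ℝ) (hε : 0 < ε) (d : ℝ) (hd : 2 * ε ≤ |d|) : corr ε d = 0 := by
  have h : ∀ z, tentE ε z * tentE ε (z - d) = 0 := by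
    intro z
    rcases le_or_gt ε |z| with h1 | h1
    · rw [tentE_zero ε hε z h1, zero_mul]
    · have h2 : ε ≤ |z - d| := by
        have h3 : |d| ≤ |z| + |z - d| := by
          have := abs_sub z (z - d)
          rwa [show z - (z - d) = d by ring] at this
        linarith
      rw [tentE_zero ε hε (z - d) h2, mul_zero]
  simp only [corr, h, integral_zero]

theorem corr_continuous (ε : ℝ) (hε : 0 < ε) : Continuous (corr ε) := by
  refine continuous_of_dominated (F := fun d z => tentE ε z * tentE ε (z - d))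
    (bound := fun z => tentE ε z * ε⁻¹) ?_ ?_ ?_ ?_
  · intro d
    exact ((tentE_continuous ε).mul ((tentE_continuous ε).comp
      (continuous_id.sub continuous_const))).aestronglyMeasurable
  · intro d
    refine Filter.Eventually.of_forall (fun z => ?_)
    rw [Real.norm_of_nonneg (mul_nonneg (tentE_nonneg ε hε _) (tentE_nonneg ε hε _))]
    exact mul_le_mul_of_nonneg_left (tentE_le ε hε _) (tentE_nonneg ε hε _)
  · exact (tentE_integrable ε hε).mul_const _
  · refine Filter.Eventually.of_forall (fun z => ?_)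
    exact continuous_const.mul ((tentE_continuous ε).comp (continuous_const.sub continuous_id))

theorem corr_integrable (ε : ℝ) (hε : 0 < ε) : Integrable (corr ε) := by
  refine (corr_continuous ε hε).integrable_of_hasCompactSupport ?_
  refine HasCompactSupport.intro (isCompact_Icc (a := -(2 * ε)) (b := 2 * ε)) (fun x hx => ?_)
  apply corr_zero ε hε
  by_contra hcon
  apply hx
  exact abs_le.mp (not_le.mp hcon).le

theorem corr_integral (ε : ℝ) (hε : 0 < ε) : ∫ x, corr ε x = 1 := by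
  have hint : Integrable (Function.uncurry (fun d z : ℝ => tentE ε z * tentE ε (z - d)))
      (volume.prod volume) := by
    refine Continuous.integrable_of_hasCompactSupport ?_ ?_
    · exact ((tentE_continuous ε).comp continuous_snd).mul
        ((tentE_continuous ε).comp (continuous_snd.sub continuous_fst))
    · refine HasCompactSupport.intro
        ((isCompact_Icc (a := -(2 * ε)) (b := 2 * ε)).prod (isCompact_Icc (a := -ε) (b := ε)))
        (fun x hx => ?_)
      simp only [Function.uncurry]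
      rcases le_or_gt ε |x.2| with h1 | h1
      · rw [tentE_zero ε hε _ h1, zero_mul]
      · have h2 : ε ≤ |x.2 - x.1| := by
          by_contra h4
          apply hx
          have h3 : |x.1| ≤ |x.2| + |x.2 - x.1| := by
            have := abs_sub x.2 (x.2 - x.1)
            rwa [show x.2 - (x.2 - x.1) = x.1 by ring] at this
          refine Set.mem_prod.mpr ⟨?_, ?_⟩
          · exact abs_le.mp (by linarith [not_le.mp h4])
          · exact abs_le.mp h1.le
        rw [tentE_zero ε hε _ h2, mul_zero]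
  simp only [corr]
  rw [integral_integral_swap hint]
  have h : ∀ z : ℝ, ∫ d : ℝ, tentE ε z * tentE ε (z - d) = tentE ε z := by
    intro z
    rw [integral_const_mul, integral_sub_left_eq_self (tentE ε) volume z, tentE_integral ε hε,
      mul_one]
  simp only [h]
  exact tentE_integral ε hε

end Pool.Agent.Helper60.MV
end

/- Helper60.MV.B.Kern -/
section
/-!
MV-B3. Bounds for `kern ε p p' = ∫ phi a * tentE ε (p-a) * tentE ε (p'-a)`.

Proofs. On the support of the integrand `|a - p| < ε` and `|a - p'| < ε`, so `a >= (p+p')/2 - ε`;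
`∫ tentE ε (p-a) tentE ε (p'-a) da = corr ε (p - p')` (substitution `z = p - a`... and evenness). `phi` is decreasing with
`phi (w+η) >= e^{-η} phi w`, so `e^{-ε} phi p <= phi a <= e^ε phi p`. With `phi a <= e^{-a/2}`:
`kern <= e^{ε/2} e^{-(p+p')/4} corr`. With `phi a <= 5 e^{-9a/10}` (`a >= -1/2`), `ε <= 1/2`: `5 e^{9/20} <= 8 <= 10`.
Shift: substitute `a = a' - η` in `kern ε (p-η) (p'-η)` and use `phi (a'-η) <= e^η phi a'`.
Continuity in `(p,p')`: parameter integral over a bounded set locally uniformly (the integrand is jointly continuous; for `(p,p')` in a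
bounded set the support in `a` is bounded).
-/

namespace Pool.Agent.Helper60.MV

open MeasureTheory

/-- the product of two tents is integrable -/
private theorem tt_integrable (ε : ℝ) (hε : 0 < ε) (p p' : ℝ) :
    Integrable (fun a : ℝ => tentE ε (p - a) * tentE ε (p' - a)) := by
  have h1 : Integrable (fun a : ℝ => ε⁻¹ * tentE ε (p - a)) :=
    ((tentE_integrable ε hε).comp_sub_left p).const_mul _
  refine h1.mono' ?_ ?_
  · exact (((tentE_continuous ε).comp (continuous_const.sub continuous_id)).mul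
      ((tentE_continuous ε).comp (continuous_const.sub continuous_id))).aestronglyMeasurable
  · refine Filter.Eventually.of_forall (fun a => ?_)
    rw [Real.norm_eq_abs, abs_of_nonneg (mul_nonneg (tentE_nonneg ε hε _) (tentE_nonneg ε hε _)),
      mul_comm]
    exact mul_le_mul_of_nonneg_right (tentE_le ε hε _) (tentE_nonneg ε hε _)

private theorem tt_integral (ε p p' : ℝ) :
    ∫ a : ℝ, tentE ε (p - a) * tentE ε (p' - a) = corr ε (p - p') := by
  have h := integral_sub_left_eq_self (fun z : ℝ => tentE ε z * tentE ε (z - (p - p'))) volume p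
  unfold corr
  rw [← h]
  refine integral_congr_ae (Filter.Eventually.of_forall (fun a => ?_))
  have h2 : p - a - (p - p') = p' - a := by ring
  simp only [h2]

private theorem supp1 (ε : ℝ) (hε : 0 < ε) (p a : ℝ) (h : tentE ε (p - a) ≠ 0) :
    p - ε < a ∧ a < p + ε := by
  have h1 : |p - a| < ε := by
    by_contra h2
    exact h (tentE_zero ε hε _ (not_lt.mp h2))
  rw [abs_lt] at h1
  constructor <;> linarith

/-- generic upper bound -/
private theorem kern_le_of (ε : ℝ) (hε : 0 < ε) (p p' c : ℝ)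
    (h : ∀ a, p - ε < a → a < p + ε → p' - ε < a → a < p' + ε → phi a ≤ c) :
    kern ε p p' ≤ c * corr ε (p - p') := by
  rw [← tt_integral, ← integral_const_mul]
  unfold kern
  refine integral_mono_of_nonneg (Filter.Eventually.of_forall (fun a => ?_))
    ((tt_integrable ε hε p p').const_mul c) (Filter.Eventually.of_forall (fun a => ?_))
  · exact mul_nonneg (mul_nonneg (phi_pos a).le (tentE_nonneg ε hε _)) (tentE_nonneg ε hε _)
  · show phi a * tentE ε (p - a) * tentE ε (p' - a) ≤ c * (tentE ε (p - a) * tentE ε (p' - a))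
    by_cases h1 : tentE ε (p - a) = 0
    · rw [h1]; simp
    by_cases h2 : tentE ε (p' - a) = 0
    · rw [h2]; simp
    obtain ⟨a1, a2⟩ := supp1 ε hε p a h1
    obtain ⟨b1, b2⟩ := supp1 ε hε p' a h2
    rw [mul_assoc]
    exact mul_le_mul_of_nonneg_right (h a a1 a2 b1 b2)
      (mul_nonneg (tentE_nonneg ε hε _) (tentE_nonneg ε hε _))

private theorem phi_le_shift (ε : ℝ) (hε : 0 < ε) (p a : ℝ) (h : p - ε < a) :
    phi a ≤ Real.exp ε * phi p := by
  have h1 : phi a ≤ phi (p - ε) := phi_antitone h.le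
  have h2 := phi_shift (p - ε) ε hε.le
  rw [sub_add_cancel] at h2
  have h3 : phi (p - ε) = Real.exp ε * (Real.exp (-ε) * phi (p - ε)) := by
    rw [← mul_assoc, ← Real.exp_add, add_neg_cancel, Real.exp_zero, one_mul]
  rw [h3] at h1
  exact h1.trans (mul_le_mul_of_nonneg_left h2 (Real.exp_pos _).le)

/-- the integrand of the kernel is integrable -/
private theorem kern_integrable (ε : ℝ) (hε : 0 < ε) (p p' : ℝ) :
    Integrable (fun a : ℝ => phi a * tentE ε (p - a) * tentE ε (p' - a)) := by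
  refine ((tt_integrable ε hε p p').const_mul (Real.exp ε * phi p)).mono' ?_ ?_
  · exact ((phi_continuous.mul ((tentE_continuous ε).comp
      (continuous_const.sub continuous_id))).mul
      ((tentE_continuous ε).comp (continuous_const.sub continuous_id))).aestronglyMeasurable
  · refine Filter.Eventually.of_forall (fun a => ?_)
    rw [Real.norm_eq_abs, abs_of_nonneg (mul_nonneg (mul_nonneg (phi_pos a).le
      (tentE_nonneg ε hε _)) (tentE_nonneg ε hε _))]
    by_cases h1 : tentE ε (p - a) = 0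
    · rw [h1]; simp
    obtain ⟨a1, a2⟩ := supp1 ε hε p a h1
    rw [mul_assoc]
    exact mul_le_mul_of_nonneg_right (phi_le_shift ε hε p a a1)
      (mul_nonneg (tentE_nonneg ε hε _) (tentE_nonneg ε hε _))

theorem kern_nonneg (ε : ℝ) (hε : 0 < ε) (p p' : ℝ) : 0 ≤ kern ε p p' := by
  unfold kern
  exact integral_nonneg (fun a => mul_nonneg (mul_nonneg (phi_pos a).le (tentE_nonneg ε hε _))
    (tentE_nonneg ε hε _))

theorem kern_symm (ε : ℝ) (p p' : ℝ) : kern ε p p' = kern ε p' p := by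
  unfold kern
  refine integral_congr_ae (Filter.Eventually.of_forall (fun a => ?_))
  show phi a * tentE ε (p - a) * tentE ε (p' - a) = phi a * tentE ε (p' - a) * tentE ε (p - a)
  ring

theorem kern_upper (ε : ℝ) (hε : 0 < ε) (p p' : ℝ) :
    kern ε p p' ≤ Real.exp ε * phi p * corr ε (p - p') :=
  kern_le_of ε hε p p' _ (fun a a1 _ _ _ => phi_le_shift ε hε p a a1)

theorem kern_lower (ε : ℝ) (hε : 0 < ε) (p p' : ℝ) :
    Real.exp (-ε) * phi p * corr ε (p - p') ≤ kern ε p p' := by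
  rw [← tt_integral, ← integral_const_mul]
  unfold kern
  refine integral_mono ((tt_integrable ε hε p p').const_mul _) (kern_integrable ε hε p p')
    (fun a => ?_)
  show Real.exp (-ε) * phi p * (tentE ε (p - a) * tentE ε (p' - a)) ≤
    phi a * tentE ε (p - a) * tentE ε (p' - a)
  by_cases h1 : tentE ε (p - a) = 0
  · rw [h1]; simp
  obtain ⟨a1, a2⟩ := supp1 ε hε p a h1
  rw [mul_assoc (phi a)]
  refine mul_le_mul_of_nonneg_right ?_ (mul_nonneg (tentE_nonneg ε hε _) (tentE_nonneg ε hε _))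
  exact (phi_shift p ε hε.le).trans (phi_antitone a2.le)

theorem kern_exp (ε : ℝ) (hε : 0 < ε) (p p' : ℝ) :
    kern ε p p' ≤ Real.exp (ε / 2) * Real.exp (-((p + p') / 4)) * corr ε (p - p') := by
  refine kern_le_of ε hε p p' _ (fun a a1 _ b1 _ => (phi_le_exp a).trans ?_)
  rw [← Real.exp_add]
  apply Real.exp_le_exp.mpr
  linarith

theorem kern_exp9 (ε : ℝ) (hε : 0 < ε) (hε2 : ε ≤ 1 / 2) (p p' : ℝ) (hp : 0 ≤ p) (hp' : 0 ≤ p') :
    kern ε p p' ≤ 10 * Real.exp (-(9 / 20 * (p + p'))) * corr ε (p - p') := by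
  refine kern_le_of ε hε p p' _ (fun a a1 _ b1 _ => (phi_le_exp9 a (by linarith)).trans ?_)
  have h2 : Real.exp (9 / 20) ≤ 2 := by
    have h3 : (9 / 20 : ℝ) ≤ Real.log 2 := by
      have := Real.log_two_gt_d9
      linarith
    calc Real.exp (9 / 20) ≤ Real.exp (Real.log 2) := Real.exp_le_exp.mpr h3
      _ = 2 := Real.exp_log (by norm_num)
  calc 5 * Real.exp (-(9 / 10 * a)) ≤ 5 * (Real.exp (9 / 20) * Real.exp (-(9 / 20 * (p + p')))) := by
        rw [← Real.exp_add]
        refine mul_le_mul_of_nonneg_left (Real.exp_le_exp.mpr ?_) (by norm_num)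
        linarith
    _ ≤ 5 * (2 * Real.exp (-(9 / 20 * (p + p')))) := by
        refine mul_le_mul_of_nonneg_left (mul_le_mul_of_nonneg_right h2 (Real.exp_pos _).le)
          (by norm_num)
    _ = 10 * Real.exp (-(9 / 20 * (p + p'))) := by ring

theorem kern_zero (ε : ℝ) (hε : 0 < ε) (p p' : ℝ) (h : 2 * ε ≤ |p - p'|) : kern ε p p' = 0 := by
  unfold kern
  rw [← integral_zero ℝ ℝ (μ := volume)]
  refine integral_congr_ae (Filter.Eventually.of_forall (fun a => ?_))
  show phi a * tentE ε (p - a) * tentE ε (p' - a) = 0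
  by_cases h1 : tentE ε (p - a) = 0
  · rw [h1]; simp
  by_cases h2 : tentE ε (p' - a) = 0
  · rw [h2]; simp
  obtain ⟨a1, a2⟩ := supp1 ε hε p a h1
  obtain ⟨b1, b2⟩ := supp1 ε hε p' a h2
  exfalso
  have h3 : |p - p'| < 2 * ε := by
    rw [abs_lt]
    constructor <;> linarith
  linarith

theorem kern_shift (ε : ℝ) (hε : 0 < ε) (p p' η : ℝ) (hη : 0 ≤ η) :
    kern ε (p - η) (p' - η) ≤ Real.exp η * kern ε p p' := by
  have h := integral_sub_right_eq_self
    (fun a : ℝ => phi a * tentE ε (p - η - a) * tentE ε (p' - η - a)) (μ := volume) η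
  unfold kern
  rw [← h, ← integral_const_mul]
  refine integral_mono_of_nonneg (Filter.Eventually.of_forall (fun a => ?_))
    ((kern_integrable ε hε p p').const_mul _) (Filter.Eventually.of_forall (fun a => ?_))
  · exact mul_nonneg (mul_nonneg (phi_pos _).le (tentE_nonneg ε hε _)) (tentE_nonneg ε hε _)
  · show phi (a - η) * tentE ε (p - η - (a - η)) * tentE ε (p' - η - (a - η)) ≤
      Real.exp η * (phi a * tentE ε (p - a) * tentE ε (p' - a))
    have e1 : p - η - (a - η) = p - a := by ring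
    have e2 : p' - η - (a - η) = p' - a := by ring
    rw [e1, e2]
    have h2 := phi_shift (a - η) η hη
    rw [sub_add_cancel] at h2
    have h3 : phi (a - η) ≤ Real.exp η * phi a := by
      calc phi (a - η) = Real.exp η * (Real.exp (-η) * phi (a - η)) := by
            rw [← mul_assoc, ← Real.exp_add, add_neg_cancel, Real.exp_zero, one_mul]
        _ ≤ Real.exp η * phi a := mul_le_mul_of_nonneg_left h2 (Real.exp_pos _).le
    calc phi (a - η) * tentE ε (p - a) * tentE ε (p' - a)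
        ≤ (Real.exp η * phi a) * tentE ε (p - a) * tentE ε (p' - a) :=
          mul_le_mul_of_nonneg_right (mul_le_mul_of_nonneg_right h3 (tentE_nonneg ε hε _))
            (tentE_nonneg ε hε _)
      _ = Real.exp η * (phi a * tentE ε (p - a) * tentE ε (p' - a)) := by ring

theorem kern_continuous (ε : ℝ) (hε : 0 < ε) : Continuous (fun q : ℝ × ℝ => kern ε q.1 q.2) := by
  have key : ∀ q : ℝ × ℝ, kern ε q.1 q.2 =
      ∫ z in Set.Icc (-ε) ε, phi (q.1 - z) * tentE ε z * tentE ε (q.2 - q.1 + z) := by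
    intro q
    have h := integral_sub_left_eq_self
      (fun a : ℝ => phi a * tentE ε (q.1 - a) * tentE ε (q.2 - a)) volume q.1
    unfold kern
    rw [← h]
    have h2 : ∫ z in Set.Icc (-ε) ε, phi (q.1 - z) * tentE ε z * tentE ε (q.2 - q.1 + z) =
        ∫ z, phi (q.1 - z) * tentE ε z * tentE ε (q.2 - q.1 + z) := by
      refine setIntegral_eq_integral_of_forall_compl_eq_zero (fun z hz => ?_)
      have h3 : ε ≤ |z| := by
        by_contra h4
        apply hz
        rw [not_le, abs_lt] at h4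
        exact ⟨h4.1.le, h4.2.le⟩
      rw [tentE_zero ε hε z h3]
      simp
    rw [h2]
    refine integral_congr_ae (Filter.Eventually.of_forall (fun z => ?_))
    show phi (q.1 - z) * tentE ε (q.1 - (q.1 - z)) * tentE ε (q.2 - (q.1 - z)) =
      phi (q.1 - z) * tentE ε z * tentE ε (q.2 - q.1 + z)
    have e1 : q.1 - (q.1 - z) = z := by ring
    have e2 : q.2 - (q.1 - z) = q.2 - q.1 + z := by ring
    rw [e1, e2]
  have h3 : (fun q : ℝ × ℝ => kern ε q.1 q.2) = fun q : ℝ × ℝ =>
      ∫ z in Set.Icc (-ε) ε, phi (q.1 - z) * tentE ε z * tentE ε (q.2 - q.1 + z) := by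
    funext q; exact key q
  rw [h3]
  apply continuous_parametric_integral_of_continuous _ isCompact_Icc
  have c1 := phi_continuous
  have c2 := tentE_continuous ε
  fun_prop

end Pool.Agent.Helper60.MV
end

/- Helper60.MV.B.Riemann -/
section
/-!
MV-B4. Riemann sums on the orthant.

Proof by dominated convergence. For `t > 0` let `r_t(x)_e = t * ⌈x_e / t⌉` (so `x_e <= r_t(x)_e < x_e + t` and `r_t(x)_e > 0` if
`x_e > 0`). The orthant `(0,∞)^ι` is the disjoint union of the boxes `B_l = Π ((l_e - 1) t, l_e t]`, `l : ι → ℕ+`, of volume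
`t^|ι|`, and `r_t = t l` on `B_l`. Hence `∫_{x>0} F(r_t x) dx = t^|ι| ∑'_l F(t l)` (`|F(r_t x)| <= C e^{-c ∑ x}` is integrable:
product of one dimensional integrals; `integral_iUnion`/`hasSum_integral_iUnion`). As `t -> 0+`, `F(r_t x) -> F(x)` (continuity on the
closed orthant), dominated by `C e^{-c ∑ x_e}` because `r_t x >= x`. `tendsto_integral_filter_of_dominated_convergence`.
The summability statement comes from the same decomposition (`hasSum_integral_iUnion`) or from a product of geometric series.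
-/

namespace Pool.Agent.Helper60.MV

open Finset MeasureTheory Filter Topology

theorem orthant_exp_integrable {ι : Type} [Fintype ι] (c : ℝ) (hc : 0 < c) :
    IntegrableOn (fun x : ι → ℝ => Real.exp (-(c * ∑ e, x e))) {x : ι → ℝ | ∀ e, 0 < x e} := by
  have hset : {x : ι → ℝ | ∀ e, 0 < x e} = Set.univ.pi (fun _ => Set.Ioi (0:ℝ)) := by
    ext x; simp
  have hfun : (fun x : ι → ℝ => Real.exp (-(c * ∑ e, x e))) =
      fun x : ι → ℝ => ∏ e, Real.exp (-c * x e) := by
    ext x
    rw [← Real.exp_sum, ← Finset.mul_sum, neg_mul]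
  rw [hset, hfun, IntegrableOn, volume_pi, Measure.restrict_pi_pi]
  exact Integrable.fintype_prod (f := fun _ y => Real.exp (-c * y))
    (fun _ => exp_neg_integrableOn_Ioi 0 hc)

/-- The boxes. -/
def riemBox {ι : Type} (t : ℝ) (l : ι → ℕ+) : Set (ι → ℝ) :=
  Set.univ.pi (fun e => Set.Ioc (t * (((l e : ℕ) : ℝ) - 1)) (t * ((l e : ℕ) : ℝ)))

/-- The step function. -/
noncomputable def riemStep {ι : Type} (F : (ι → ℝ) → ℝ) (t : ℝ) (x : ι → ℝ) : ℝ :=
  F (fun e => t * ((⌈x e / t⌉₊ : ℕ) : ℝ))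

theorem ceil_iff {t : ℝ} (ht : 0 < t) (y : ℝ) (m : ℕ+) :
    ⌈y / t⌉₊ = (m : ℕ) ↔ y ∈ Set.Ioc (t * (((m : ℕ) : ℝ) - 1)) (t * ((m : ℕ) : ℝ)) := by
  rw [Nat.ceil_eq_iff m.pos.ne', Set.mem_Ioc, lt_div_iff₀ ht, div_le_iff₀ ht,
    Nat.cast_pred m.pos, mul_comm t, mul_comm t]

theorem riemBox_union {ι : Type} {t : ℝ} (ht : 0 < t) :
    (⋃ l : ι → ℕ+, riemBox t l) = {x : ι → ℝ | ∀ e, 0 < x e} := by
  ext x
  simp only [Set.mem_iUnion, riemBox, Set.mem_pi, Set.mem_univ, true_implies, Set.mem_ofPred_eq]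
  constructor
  · rintro ⟨l, hl⟩ e
    have h1 : (1:ℝ) ≤ ((l e : ℕ) : ℝ) := by exact_mod_cast (l e).pos
    exact lt_of_le_of_lt (mul_nonneg ht.le (by linarith)) (hl e).1
  · intro hx
    refine ⟨fun e => ⟨⌈x e / t⌉₊, Nat.ceil_pos.2 (div_pos (hx e) ht)⟩, fun e => ?_⟩
    exact (ceil_iff ht (x e) _).1 rfl

theorem riemBox_meas {ι : Type} [Fintype ι] (t : ℝ) (l : ι → ℕ+) :
    MeasurableSet (riemBox t l) :=
  MeasurableSet.univ_pi fun _ => measurableSet_Ioc

theorem riemBox_disj {ι : Type} {t : ℝ} (ht : 0 < t) :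
    Pairwise (Function.onFun Disjoint (riemBox (ι := ι) t)) := by
  intro l m hlm
  rw [Function.onFun, Set.disjoint_left]
  intro x hx hy
  apply hlm
  ext e
  have h1 := (ceil_iff ht (x e) (l e)).2 (hx e (Set.mem_univ e))
  have h2 := (ceil_iff ht (x e) (m e)).2 (hy e (Set.mem_univ e))
  exact PNat.eq (h1.symm.trans h2)

theorem riemStep_meas {ι : Type} [Fintype ι] (F : (ι → ℝ) → ℝ) (t : ℝ) :
    Measurable (riemStep F t) := by
  have h1 : Measurable (fun x : ι → ℝ => fun e => (⌈x e / t⌉₊ : ℕ)) := by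
    refine measurable_pi_iff.2 fun e => ?_
    have h2 : Measurable (fun x : ι → ℝ => x e / t) := by fun_prop
    exact Nat.measurable_ceil.comp h2
  exact (measurable_of_countable (fun l : ι → ℕ => F (fun e => t * ((l e : ℕ) : ℝ)))).comp h1

theorem riemStep_bound {ι : Type} [Fintype ι] {F : (ι → ℝ) → ℝ} {C c : ℝ} (hc : 0 < c)
    (hb : ∀ x : ι → ℝ, (∀ e, 0 ≤ x e) → |F x| ≤ C * Real.exp (-(c * ∑ e, x e))) {t : ℝ}
    (ht : 0 < t) (x : ι → ℝ) : ‖riemStep F t x‖ ≤ C * Real.exp (-(c * ∑ e, x e)) := by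
  have hC : 0 ≤ C := by
    have := hb 0 (fun _ => le_rfl)
    simp only [Pi.zero_apply, Finset.sum_const_zero, mul_zero, neg_zero, Real.exp_zero,
      mul_one] at this
    exact (abs_nonneg _).trans this
  rw [Real.norm_eq_abs]
  refine (hb _ (fun e => mul_nonneg ht.le (Nat.cast_nonneg _))).trans ?_
  refine mul_le_mul_of_nonneg_left (Real.exp_le_exp.2 (neg_le_neg ?_)) hC
  refine mul_le_mul_of_nonneg_left (Finset.sum_le_sum fun e _ => ?_) hc.le
  have := Nat.le_ceil (x e / t)
  rw [div_le_iff₀ ht, mul_comm] at this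
  exact this

theorem riemStep_integrable {ι : Type} [Fintype ι] {F : (ι → ℝ) → ℝ} {C c : ℝ} (hc : 0 < c)
    (hb : ∀ x : ι → ℝ, (∀ e, 0 ≤ x e) → |F x| ≤ C * Real.exp (-(c * ∑ e, x e))) {t : ℝ}
    (ht : 0 < t) : IntegrableOn (riemStep F t) {x : ι → ℝ | ∀ e, 0 < x e} :=
  Integrable.mono' ((orthant_exp_integrable c hc).const_mul C)
    (riemStep_meas F t).aestronglyMeasurable
    (Filter.Eventually.of_forall fun x => riemStep_bound hc hb ht x)

theorem riemBox_integral {ι : Type} [Fintype ι] (F : (ι → ℝ) → ℝ) {t : ℝ} (ht : 0 < t)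
    (l : ι → ℕ+) : ∫ x in riemBox t l, riemStep F t x =
      t ^ (Fintype.card ι) * F (fun e => t * ((l e : ℕ) : ℝ)) := by
  have h1 : ∫ x in riemBox t l, riemStep F t x =
      ∫ x in riemBox t l, F (fun e => t * ((l e : ℕ) : ℝ)) := by
    refine setIntegral_congr_fun (riemBox_meas t l) fun x hx => ?_
    have h2 : ∀ e, ⌈x e / t⌉₊ = (l e : ℕ) := fun e =>
      (ceil_iff ht (x e) (l e)).2 (hx e (Set.mem_univ e))
    simp only [riemStep, h2]
  rw [h1, setIntegral_const, smul_eq_mul]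
  congr 1
  rw [riemBox, Measure.real, Real.volume_pi_Ioc, ENNReal.toReal_prod]
  have h3 : ∀ e : ι, (ENNReal.ofReal (t * ((l e : ℕ) : ℝ) - t * (((l e : ℕ) : ℝ) - 1))).toReal
      = t := by
    intro e
    rw [ENNReal.toReal_ofReal (by nlinarith)]
    ring
  simp only [h3, Finset.prod_const, Finset.card_univ]

theorem riem_hasSum {ι : Type} [Fintype ι] {F : (ι → ℝ) → ℝ} {C c : ℝ} (hc : 0 < c)
    (hb : ∀ x : ι → ℝ, (∀ e, 0 ≤ x e) → |F x| ≤ C * Real.exp (-(c * ∑ e, x e))) {t : ℝ}
    (ht : 0 < t) : HasSum (fun l : ι → ℕ+ => t ^ (Fintype.card ι) * F (fun e => t * ((l e : ℕ) : ℝ)))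
      (∫ x in {x : ι → ℝ | ∀ e, 0 < x e}, riemStep F t x) := by
  have h1 := hasSum_integral_iUnion (μ := volume) (f := riemStep F t) (riemBox_meas (ι := ι) t)
    (riemBox_disj ht) (by rw [riemBox_union ht]; exact riemStep_integrable hc hb ht)
  rw [riemBox_union ht] at h1
  simpa only [riemBox_integral F ht] using h1

theorem lattice_summable {ι : Type} [Fintype ι] (F : (ι → ℝ) → ℝ) (C c : ℝ) (hc : 0 < c)
    (hb : ∀ x : ι → ℝ, (∀ e, 0 ≤ x e) → |F x| ≤ C * Real.exp (-(c * ∑ e, x e))) (t : ℝ)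
    (ht : 0 < t) : Summable (fun l : ι → ℕ+ => F (fun e => t * ((l e : ℕ) : ℝ))) := by
  have h := (riem_hasSum hc hb ht).summable
  exact (summable_mul_left_iff (pow_ne_zero _ ht.ne')).1 h

theorem riemStep_tendsto {ι : Type} [Fintype ι] {F : (ι → ℝ) → ℝ}
    (hF : ContinuousOn F {x : ι → ℝ | ∀ e, 0 ≤ x e}) (x : ι → ℝ) (hx : ∀ e, 0 < x e) :
    Tendsto (fun t => riemStep F t x) (𝓝[>] (0:ℝ)) (𝓝 (F x)) := by
  have h1 : Tendsto (fun t : ℝ => fun e => t * ((⌈x e / t⌉₊ : ℕ) : ℝ)) (𝓝[>] (0:ℝ)) (𝓝 x) := by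
    refine tendsto_pi_nhds.2 fun e => ?_
    have hid : Tendsto (fun t : ℝ => t) (𝓝[>] (0:ℝ)) (𝓝 0) :=
      tendsto_id.mono_left nhdsWithin_le_nhds
    have hup : Tendsto (fun t : ℝ => x e + t) (𝓝[>] (0:ℝ)) (𝓝 (x e)) := by
      simpa using (tendsto_const_nhds (x := x e)).add hid
    refine tendsto_of_tendsto_of_tendsto_of_le_of_le' tendsto_const_nhds hup ?_ ?_
    · filter_upwards [self_mem_nhdsWithin] with t ht
      have ht : 0 < t := ht
      have := Nat.le_ceil (x e / t)
      rw [div_le_iff₀ ht, mul_comm] at this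
      exact this
    · filter_upwards [self_mem_nhdsWithin] with t ht
      have ht : 0 < t := ht
      have := Nat.ceil_lt_add_one (div_nonneg (hx e).le ht.le)
      have h2 : t * ((⌈x e / t⌉₊ : ℕ) : ℝ) ≤ t * (x e / t + 1) :=
        mul_le_mul_of_nonneg_left this.le ht.le
      have h3 : t * (x e / t + 1) = x e + t := by field_simp
      linarith
  have h2 : Tendsto (fun t : ℝ => fun e => t * ((⌈x e / t⌉₊ : ℕ) : ℝ)) (𝓝[>] (0:ℝ))
      (𝓝[{x : ι → ℝ | ∀ e, 0 ≤ x e}] x) := by
    refine tendsto_nhdsWithin_iff.2 ⟨h1, ?_⟩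
    filter_upwards [self_mem_nhdsWithin] with t ht
    intro e
    exact mul_nonneg (le_of_lt ht) (Nat.cast_nonneg _)
  exact (hF x (fun e => (hx e).le)).tendsto.comp h2

theorem riemann_sum {ι : Type} [Fintype ι] (F : (ι → ℝ) → ℝ)
    (hF : ContinuousOn F {x : ι → ℝ | ∀ e, 0 ≤ x e}) (C c : ℝ) (hc : 0 < c)
    (hb : ∀ x : ι → ℝ, (∀ e, 0 ≤ x e) → |F x| ≤ C * Real.exp (-(c * ∑ e, x e))) :
    Tendsto (fun t : ℝ => t ^ (Fintype.card ι) * ∑' l : ι → ℕ+, F (fun e => t * ((l e : ℕ) : ℝ)))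
      (𝓝[>] (0:ℝ)) (𝓝 (∫ x in {x : ι → ℝ | ∀ e, 0 < x e}, F x)) := by
  have h1 : Tendsto (fun t : ℝ => ∫ x in {x : ι → ℝ | ∀ e, 0 < x e}, riemStep F t x)
      (𝓝[>] (0:ℝ)) (𝓝 (∫ x in {x : ι → ℝ | ∀ e, 0 < x e}, F x)) := by
    refine tendsto_integral_filter_of_dominated_convergence
      (fun x : ι → ℝ => C * Real.exp (-(c * ∑ e, x e))) ?_ ?_
      ((orthant_exp_integrable c hc).const_mul C) ?_
    · exact Filter.Eventually.of_forall fun t => (riemStep_meas F t).aestronglyMeasurable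
    · filter_upwards [self_mem_nhdsWithin] with t ht
      exact Filter.Eventually.of_forall fun x => riemStep_bound hc hb ht x
    · refine (ae_restrict_iff' ?_).2 (Filter.Eventually.of_forall fun x hx =>
        riemStep_tendsto hF x hx)
      have : {x : ι → ℝ | ∀ e, 0 < x e} = Set.univ.pi (fun _ => Set.Ioi (0:ℝ)) := by
        ext x; simp
      rw [this]
      exact MeasurableSet.univ_pi fun _ => measurableSet_Ioi
  refine h1.congr' ?_
  filter_upwards [self_mem_nhdsWithin] with t ht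
  rw [← (riem_hasSum hc hb ht).tsum_eq, tsum_mul_left]

end Pool.Agent.Helper60.MV
end

/- Helper60.MV.B.Shift -/
section
/-!
MV-B6. Comparison of the lattice sums `St P t δ` for different small `δ`.

Notation: for `l : ι → ℕ+`, `(B l)_c = p_{c,false}(l) - p_{c,true}(l)`; `St P t δ = ∑'_{l, B l = δ} Π_c phi(t p_{c,false}(l))`.
Proof of `st_compare`. (1) There is `C0` such that each `δ : κ → ℤ` with even sum is `B z` with `|z_e| <= C0 * D`,
`D = max |δ_c|`: fix `c0`; by `im`, `1_c - 1_{c0} = (1_c + 1_{c0}) - 2·1_{c0}` and `2·1_{c0}` are in the image of the integer matrix `B`, and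
`δ = ∑_c δ_c (1_c - 1_{c0}) + (∑δ / 2) · 2·1_{c0}`. (2) `u` positive with `B u = 0`. The map `l ↦ l + z + n u`, `n = ⌈C0 D⌉` (natural
number with `n >= |z_e|`), is injective from `{l >= 1, B l = 0}` to `{l >= 1, B l = δ}` and `p_{c,false}` grows by `p_{c,false}(z + n u)`,
between `0` and `C1 D`. Since `phi(t(p+a)) >= e^{-t a} phi(t p)` and `t D <= 2ε` (if `D>0`), each term changes by at least `e^{-2 C1 ε}` per
cylinder. (3) Backwards use `l ↦ l - z + n u`. Compare the sums with `tsum_le_tsum_of_inj`-like lemmas (nonnegative summable).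
Summability: `phi(t p) <= e^{-t p/2}`, and for `B l = δ`: `∑_c p_{c,false}(l) = (∑_c p_{c,false}+p_{c,true} + ∑δ)/2 = ∑_e l_e + ∑δ/2`
(column sums 2), so terms are `<= const · e^{-t ∑ l_e /2}`.
`St P t δ = 0` for odd `∑ δ`: `∑_c (p_{c,false} + p_{c,true}) = 2 ∑ l_e`.
`st_zero`: for `B l = 0` all `p_{c,false}(l) > 0`?? If `p_{c,false}(l) = p_{c,true}(l) = 0` for some `c` both rows of `c` are zero; the
hypothesis `im` (with `c' = c`) excludes this. Then `phi(t p) = t p/(e^{t p}-1)`, so `St P t 0 = t^|κ| SM P t`.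
-/

namespace Pool.Agent.Helper60.MV

open Finset MeasureTheory Filter Topology

/-- the term of the sum `St P t δ` -/
private noncomputable def tm {ι κ : Type} [Fintype ι] [Fintype κ] (P : κ → Bool → ι → ℕ) (t : ℝ)
    (δ : κ → ℤ) (l : ι → ℕ+) : ℝ := by
  classical
  exact if ∀ c, (pN P c false (fun e => (l e : ℕ)) : ℤ) - (pN P c true (fun e => (l e : ℕ)) : ℤ)
    = δ c then ∏ c : κ, phi (t * (pN P c false (fun e => (l e : ℕ)) : ℝ)) else 0

private theorem st_eq {ι κ : Type} [Fintype ι] [Fintype κ] (P : κ → Bool → ι → ℕ) (t : ℝ)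
    (δ : κ → ℤ) : St P t δ = ∑' l : ι → ℕ+, tm P t δ l := rfl

private theorem tm_nonneg {ι κ : Type} [Fintype ι] [Fintype κ] (P : κ → Bool → ι → ℕ) (t : ℝ)
    (δ : κ → ℤ) (l : ι → ℕ+) : 0 ≤ tm P t δ l := by
  classical
  unfold tm
  split_ifs with h
  · exact Finset.prod_nonneg (fun c _ => (phi_pos _).le)
  · exact le_rfl

private theorem tm_pos {ι κ : Type} [Fintype ι] [Fintype κ] (P : κ → Bool → ι → ℕ) (t : ℝ)
    (δ : κ → ℤ) (l : ι → ℕ+)
    (h : ∀ c, (pN P c false (fun e => (l e : ℕ)) : ℤ) - (pN P c true (fun e => (l e : ℕ)) : ℤ)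
      = δ c) :
    tm P t δ l = ∏ c : κ, phi (t * (pN P c false (fun e => (l e : ℕ)) : ℝ)) := by
  classical
  unfold tm
  rw [if_pos h]

private theorem tm_neg {ι κ : Type} [Fintype ι] [Fintype κ] (P : κ → Bool → ι → ℕ) (t : ℝ)
    (δ : κ → ℤ) (l : ι → ℕ+)
    (h : ¬ ∀ c, (pN P c false (fun e => (l e : ℕ)) : ℤ) - (pN P c true (fun e => (l e : ℕ)) : ℤ)
      = δ c) :
    tm P t δ l = 0 := by
  classical
  unfold tm
  rw [if_neg h]

private theorem col_sum {ι κ : Type} [Fintype ι] [Fintype κ] (P : κ → Bool → ι → ℕ) (hP : Adm P)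
    (l : ι → ℕ) : ∑ c, (pN P c false l + pN P c true l) = 2 * ∑ e, l e := by
  unfold pN
  calc ∑ c, (∑ e, P c false e * l e + ∑ e, P c true e * l e)
      = ∑ c, ∑ e, (P c false e + P c true e) * l e := by
        refine Finset.sum_congr rfl fun c _ => ?_
        rw [← Finset.sum_add_distrib]
        refine Finset.sum_congr rfl fun e _ => by ring
    _ = ∑ e, ∑ c, (P c false e + P c true e) * l e := Finset.sum_comm
    _ = ∑ e, 2 * l e := by
        refine Finset.sum_congr rfl fun e _ => ?_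
        rw [← Finset.sum_mul, hP.col e]
    _ = 2 * ∑ e, l e := by rw [Finset.mul_sum]

private theorem exp_summable {ι : Type} [Fintype ι] (c : ℝ) (hc : 0 < c) :
    Summable (fun l : ι → ℕ+ => Real.exp (-(c * ∑ e, ((l e : ℕ) : ℝ)))) := by
  have h := lattice_summable (ι := ι) (fun x => Real.exp (-(c * ∑ e, x e))) 1 c hc
    (fun x _ => by rw [abs_of_pos (Real.exp_pos _), one_mul]) 1 one_pos
  simpa using h

private theorem pN_add {ι κ : Type} [Fintype ι] (P : κ → Bool → ι → ℕ) (c : κ) (b : Bool)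
    (l w : ι → ℕ) : pN P c b (fun e => l e + w e) = pN P c b l + pN P c b w := by
  unfold pN
  rw [← Finset.sum_add_distrib]
  refine Finset.sum_congr rfl fun e _ => by ring

theorem st_summable {ι κ : Type} [Fintype ι] [Fintype κ] (P : κ → Bool → ι → ℕ) (hP : Adm P)
    (t : ℝ) (ht : 0 < t) (δ : κ → ℤ) :
    Summable (fun l : ι → ℕ+ => (by
      classical
      exact if ∀ c, (pN P c false (fun e => (l e : ℕ)) : ℤ) - (pN P c true (fun e => (l e : ℕ)) : ℤ)
        = δ c then ∏ c : κ, phi (t * (pN P c false (fun e => (l e : ℕ)) : ℝ)) else 0 : ℝ)) := by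
  change Summable (tm P t δ)
  have hs := (exp_summable (ι := ι) (t / 2) (by positivity)).mul_left
    (Real.exp (-(t * (∑ c, (δ c : ℝ)) / 4)))
  refine Summable.of_nonneg_of_le (tm_nonneg P t δ) (fun l => ?_) hs
  by_cases h : ∀ c, (pN P c false (fun e => (l e : ℕ)) : ℤ) -
      (pN P c true (fun e => (l e : ℕ)) : ℤ) = δ c
  · rw [tm_pos P t δ l h]
    have h1 : ∏ c : κ, phi (t * (pN P c false (fun e => (l e : ℕ)) : ℝ)) ≤
        ∏ c : κ, Real.exp (-((t * (pN P c false (fun e => (l e : ℕ)) : ℝ)) / 2)) :=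
      Finset.prod_le_prod (fun c _ => (phi_pos _).le) (fun c _ => phi_le_exp _)
    refine h1.trans ?_
    rw [← Real.exp_sum, ← Real.exp_add]
    apply le_of_eq
    congr 1
    have h2 : ∑ c, ((pN P c false (fun e => (l e : ℕ)) : ℝ) -
        (pN P c true (fun e => (l e : ℕ)) : ℝ)) = ∑ c, (δ c : ℝ) := by
      refine Finset.sum_congr rfl fun c _ => ?_
      have := h c
      exact_mod_cast this
    have h3 : ∑ c, ((pN P c false (fun e => (l e : ℕ)) : ℝ) +
        (pN P c true (fun e => (l e : ℕ)) : ℝ)) = 2 * ∑ e, ((l e : ℕ) : ℝ) := by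
      have := col_sum P hP (fun e => (l e : ℕ))
      exact_mod_cast this
    rw [Finset.sum_sub_distrib] at h2
    rw [Finset.sum_add_distrib] at h3
    rw [Finset.sum_neg_distrib, ← Finset.sum_div, ← Finset.mul_sum]
    linear_combination (-t / 4) * h2 - (t / 4) * h3
  · rw [tm_neg P t δ l h]
    positivity

theorem st_odd {ι κ : Type} [Fintype ι] [Fintype κ] (P : κ → Bool → ι → ℕ) (hP : Adm P)
    (t : ℝ) (δ : κ → ℤ) (hδ : ¬ Even (∑ c, δ c)) : St P t δ = 0 := by
  rw [st_eq]
  have hz : ∀ l : ι → ℕ+, tm P t δ l = 0 := by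
    intro l
    apply tm_neg
    intro h
    apply hδ
    have h2 : ∑ c, ((pN P c false (fun e => (l e : ℕ)) : ℤ) -
        (pN P c true (fun e => (l e : ℕ)) : ℤ)) = ∑ c, δ c :=
      Finset.sum_congr rfl fun c _ => h c
    have h3 : ∑ c, ((pN P c false (fun e => (l e : ℕ)) : ℤ) +
        (pN P c true (fun e => (l e : ℕ)) : ℤ)) = 2 * ∑ e, ((l e : ℕ) : ℤ) := by
      have := col_sum P hP (fun e => (l e : ℕ))
      exact_mod_cast this
    rw [Finset.sum_sub_distrib] at h2
    rw [Finset.sum_add_distrib] at h3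
    refine ⟨∑ e, ((l e : ℕ) : ℤ) - ∑ c, (pN P c true (fun e => (l e : ℕ)) : ℤ), ?_⟩
    linarith
  simp only [hz, tsum_zero]

theorem st_zero {ι κ : Type} [Fintype ι] [Fintype κ] (P : κ → Bool → ι → ℕ) (hP : Adm P)
    (t : ℝ) (ht : 0 < t) : St P t 0 = t ^ (Fintype.card κ) * SM P t := by
  rw [st_eq]
  unfold SM
  rw [← tsum_mul_left]
  refine tsum_congr fun l => ?_
  by_cases h : ∀ c, (pN P c false (fun e => (l e : ℕ)) : ℤ) -
      (pN P c true (fun e => (l e : ℕ)) : ℤ) = (0 : κ → ℤ) c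
  · rw [tm_pos P t 0 l h]
    have h' : ∀ c, ∑ e, P c false e * (l e : ℕ) = ∑ e, P c true e * (l e : ℕ) := by
      intro c
      have h1 := h c
      simp only [Pi.zero_apply] at h1
      have h2 : (pN P c false (fun e => (l e : ℕ)) : ℤ) = pN P c true (fun e => (l e : ℕ)) := by
        linarith
      have h3 : pN P c false (fun e => (l e : ℕ)) = pN P c true (fun e => (l e : ℕ)) := by
        exact_mod_cast h2
      exact h3
    rw [if_pos h', ← Finset.card_univ, ← Finset.prod_const, ← Finset.prod_mul_distrib]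
    refine Finset.prod_congr rfl fun c _ => ?_
    have hpos : 0 < pN P c false (fun e => (l e : ℕ)) := by
      by_contra hcon
      have h0 : pN P c false (fun e => (l e : ℕ)) = 0 := by omega
      have h0' : ∑ e, P c false e * (l e : ℕ) = 0 := h0
      have h1' : ∑ e, P c true e * (l e : ℕ) = 0 := by rw [← h' c]; exact h0'
      obtain ⟨z, hz⟩ := hP.im c c
      have hzc := hz c
      have hrow : ∀ e, ((P c false e : ℤ) - P c true e) * z e = 0 := by
        intro e
        have he1 : P c false e * (l e : ℕ) = 0 := by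
          have := (Finset.sum_eq_zero_iff.mp h0') e (Finset.mem_univ e)
          exact this
        have he2 : P c true e * (l e : ℕ) = 0 := by
          have := (Finset.sum_eq_zero_iff.mp h1') e (Finset.mem_univ e)
          exact this
        have hl : (l e : ℕ) ≠ 0 := (l e).pos.ne'
        have e1 : P c false e = 0 := by
          rcases Nat.mul_eq_zero.mp he1 with h | h
          · exact h
          · exact absurd h hl
        have e2 : P c true e = 0 := by
          rcases Nat.mul_eq_zero.mp he2 with h | h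
          · exact h
          · exact absurd h hl
        rw [e1, e2]
        simp
      rw [Finset.sum_eq_zero (fun e _ => hrow e)] at hzc
      simp at hzc
    have hne : t * (pN P c false (fun e => (l e : ℕ)) : ℝ) ≠ 0 := by
      have : (0 : ℝ) < (pN P c false (fun e => (l e : ℕ)) : ℝ) := by exact_mod_cast hpos
      positivity
    unfold phi
    rw [if_neg hne]
    change t * (pN P c false (fun e => (l e : ℕ)) : ℝ) /
      (Real.exp (t * (pN P c false (fun e => (l e : ℕ)) : ℝ)) - 1) =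
      t * ((pN P c false (fun e => (l e : ℕ)) : ℝ) /
      (Real.exp (t * (pN P c false (fun e => (l e : ℕ)) : ℝ)) - 1))
    rw [mul_div_assoc]
  · rw [tm_neg P t 0 l h]
    have h' : ¬ ∀ c, ∑ e, P c false e * (l e : ℕ) = ∑ e, P c true e * (l e : ℕ) := by
      intro h2
      apply h
      intro c
      have h3 : pN P c false (fun e => (l e : ℕ)) = pN P c true (fun e => (l e : ℕ)) := h2 c
      rw [h3]
      simp
    rw [if_neg h', mul_zero]

/-- comparison along the injection `l ↦ l + w` -/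
private theorem st_shift {ι κ : Type} [Fintype ι] [Fintype κ] (P : κ → Bool → ι → ℕ) (hP : Adm P)
    (t : ℝ) (ht : 0 < t) (w : ι → ℕ) (δ δ' : κ → ℤ)
    (hw : ∀ c, δ' c = δ c + ((pN P c false w : ℤ) - (pN P c true w : ℤ))) :
    Real.exp (-(t * ∑ c, (pN P c false w : ℝ))) * St P t δ ≤ St P t δ' := by
  have hs : Summable (tm P t δ) := st_summable P hP t ht δ
  have hs' : Summable (tm P t δ') := st_summable P hP t ht δ'
  rw [st_eq, st_eq, ← tsum_mul_left]
  let f : (ι → ℕ+) → (ι → ℕ+) := fun l e =>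
    ⟨(l e : ℕ) + w e, Nat.lt_of_lt_of_le (l e).pos (Nat.le_add_right _ _)⟩
  have hf : Function.Injective f := by
    intro l l' h
    funext e
    have h1 := congrFun h e
    have h2 : (l e : ℕ) + w e = (l' e : ℕ) + w e := congrArg PNat.val h1
    exact PNat.eq (by omega)
  have hfe : ∀ l : ι → ℕ+, (fun e => ((f l e : ℕ+) : ℕ)) = fun e => (l e : ℕ) + w e :=
    fun l => rfl
  refine Summable.tsum_le_tsum_of_inj f hf (fun l _ => tm_nonneg P t δ' l) (fun l => ?_)
    (hs.mul_left _) hs'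
  by_cases h : ∀ c, (pN P c false (fun e => (l e : ℕ)) : ℤ) -
      (pN P c true (fun e => (l e : ℕ)) : ℤ) = δ c
  · have h' : ∀ c, (pN P c false (fun e => (f l e : ℕ)) : ℤ) -
        (pN P c true (fun e => (f l e : ℕ)) : ℤ) = δ' c := by
      intro c
      rw [hfe l, pN_add, pN_add, hw c, ← h c]
      push_cast
      ring
    rw [tm_pos P t δ l h, tm_pos P t δ' (f l) h', Finset.mul_sum, ← Finset.sum_neg_distrib,
      Real.exp_sum, ← Finset.prod_mul_distrib]
    refine Finset.prod_le_prod (fun c _ => mul_nonneg (Real.exp_pos _).le (phi_pos _).le)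
      (fun c _ => ?_)
    rw [hfe l, pN_add]
    push_cast
    rw [mul_add]
    exact phi_shift _ _ (by positivity)
  · rw [tm_neg P t δ l h, mul_zero]
    exact tm_nonneg P t δ' (f l)

theorem st_compare {ι κ : Type} [Fintype ι] [Fintype κ] (P : κ → Bool → ι → ℕ) (hP : Adm P) :
    ∃ C : ℝ, 0 < C ∧ ∀ (ε t : ℝ) (_ : 0 < ε) (_ : ε ≤ 1) (_ : 0 < t) (δ : κ → ℤ)
      (_ : Even (∑ c, δ c)) (_ : ∀ c, |t * (δ c : ℝ)| ≤ 2 * ε),
      Real.exp (-(C * ε)) * St P t 0 ≤ St P t δ ∧ Real.exp (-(C * ε)) * St P t δ ≤ St P t 0 := by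
  classical
  rcases isEmpty_or_nonempty κ with hκ | hκ
  · refine ⟨1, one_pos, fun ε t hε hε1 ht δ hδ hb => ?_⟩
    have h0 : δ = 0 := Subsingleton.elim _ _
    have hn : 0 ≤ St P t 0 := by
      rw [st_eq]
      exact tsum_nonneg (tm_nonneg P t 0)
    have he : Real.exp (-(1 * ε)) ≤ 1 := Real.exp_le_one_iff.mpr (by linarith)
    rw [h0]
    exact ⟨mul_le_of_le_one_left hn he, mul_le_of_le_one_left hn he⟩
  obtain ⟨c0⟩ := hκ
  choose Z hZ using fun c => hP.im c c0
  obtain ⟨u, hu, hu'⟩ := hP.good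
  obtain ⟨M, hM⟩ : ∃ M : ℕ, ∀ c e, (Z c e).natAbs ≤ M := by
    refine ⟨∑ c, ∑ e, (Z c e).natAbs, fun c e => ?_⟩
    calc (Z c e).natAbs ≤ ∑ e, (Z c e).natAbs :=
          Finset.single_le_sum (f := fun e => (Z c e).natAbs) (fun _ _ => Nat.zero_le _)
            (Finset.mem_univ e)
      _ ≤ ∑ c, ∑ e, (Z c e).natAbs :=
          Finset.single_le_sum (f := fun c => ∑ e, (Z c e).natAbs) (fun _ _ => Nat.zero_le _)
            (Finset.mem_univ c)
  set U : ℕ := ∑ e, (1 + u e) with hU
  refine ⟨8 * U * M * Fintype.card κ + 1, by positivity, fun ε t hε hε1 ht δ hδ hb => ?_⟩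
  obtain ⟨k, hk⟩ := hδ
  set N : ℕ := ∑ c, (δ c).natAbs with hN
  -- the integer vector `z` with `B z = δ`
  set z : ι → ℤ := fun e => ∑ c, δ c * Z c e - k * Z c0 e with hzdef
  set n : ℕ := 2 * M * N with hn
  have hNle : ∀ e, |∑ c, δ c * Z c e| ≤ (M * N : ℕ) := by
    intro e
    refine (Finset.abs_sum_le_sum_abs _ _).trans ?_
    rw [hN, Nat.cast_mul, Nat.cast_sum, Finset.mul_sum]
    refine Finset.sum_le_sum fun c _ => ?_
    rw [abs_mul, mul_comm]
    refine mul_le_mul ?_ (by rw [Int.natCast_natAbs]) (abs_nonneg _) (by positivity)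
    rw [← Int.natCast_natAbs]
    exact_mod_cast hM c e
  have hkN : |k| ≤ N := by
    have h1 : |∑ c, δ c| ≤ (N : ℤ) := by
      refine (Finset.abs_sum_le_sum_abs _ _).trans ?_
      rw [hN, Nat.cast_sum]
      refine Finset.sum_le_sum fun c _ => by rw [Int.natCast_natAbs]
    rw [hk] at h1
    have h2 : |k| ≤ |k + k| := by
      rw [← two_mul, abs_mul]
      have := abs_nonneg k
      norm_num
      linarith
    exact h2.trans h1
  have hzabs : ∀ e, |z e| ≤ (n : ℤ) := by
    intro e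
    have h1 : |z e| ≤ |∑ c, δ c * Z c e| + |k * Z c0 e| := abs_sub _ _
    have h2 : |k * Z c0 e| ≤ (M * N : ℕ) := by
      rw [abs_mul, Nat.cast_mul, mul_comm]
      refine mul_le_mul ?_ hkN (abs_nonneg _) (by positivity)
      rw [← Int.natCast_natAbs]
      exact_mod_cast hM c0 e
    have h3 := hNle e
    have h4 : (n : ℤ) = (M * N : ℕ) + (M * N : ℕ) := by
      rw [hn]
      push_cast
      ring
    rw [h4]
    linarith
  have hBz : ∀ c, ∑ e, ((P c false e : ℤ) - P c true e) * z e = δ c := by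
    intro c
    have h1 : ∑ e, ((P c false e : ℤ) - P c true e) * z e
        = ∑ c', δ c' * (∑ e, ((P c false e : ℤ) - P c true e) * Z c' e)
          - k * ∑ e, ((P c false e : ℤ) - P c true e) * Z c0 e := by
      rw [hzdef]
      simp only [mul_sub, Finset.mul_sum, Finset.sum_sub_distrib]
      congr 1
      · rw [Finset.sum_comm]
        refine Finset.sum_congr rfl fun c' _ => Finset.sum_congr rfl fun e _ => by ring
      · refine Finset.sum_congr rfl fun e _ => by ring
    rw [h1]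
    have h2 : ∀ c', ∑ e, ((P c false e : ℤ) - P c true e) * Z c' e
        = (if c = c' then 1 else 0) + (if c = c0 then 1 else 0) := by
      intro c'
      rw [hZ c' c]
    simp only [h2, mul_add, Finset.sum_add_distrib, ← Finset.sum_mul, hk]
    simp only [mul_ite, mul_one, mul_zero, Finset.sum_ite_eq, Finset.mem_univ, if_true]
    split_ifs <;> ring
  have hBu : ∀ c, ∑ e, ((P c false e : ℤ) - P c true e) * (u e : ℤ) = 0 := by
    intro c
    simp only [sub_mul, Finset.sum_sub_distrib]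
    have := hu' c
    have h2 : ∑ e, (P c false e : ℤ) * (u e : ℤ) = ∑ e, (P c true e : ℤ) * (u e : ℤ) := by
      exact_mod_cast this
    rw [h2, sub_self]
  have hpN : ∀ (w : ι → ℕ) (c : κ), (pN P c false w : ℤ) - (pN P c true w : ℤ)
      = ∑ e, ((P c false e : ℤ) - P c true e) * (w e : ℤ) := by
    intro w c
    unfold pN
    push_cast
    simp only [sub_mul, Finset.sum_sub_distrib]
  have hNR : t * (N : ℝ) ≤ 2 * ε * Fintype.card κ := by
    rw [hN]
    push_cast
    rw [Finset.mul_sum]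
    calc ∑ c, t * (((δ c).natAbs : ℕ) : ℝ) ≤ ∑ c : κ, 2 * ε := by
          refine Finset.sum_le_sum fun c _ => ?_
          have h1 := hb c
          rw [abs_mul, abs_of_pos ht] at h1
          have h2 : (((δ c).natAbs : ℕ) : ℝ) = |(δ c : ℝ)| := by
            rw [Nat.cast_natAbs, Int.cast_abs]
          rw [h2]
          exact h1
      _ = 2 * ε * Fintype.card κ := by
          rw [Finset.sum_const, Finset.card_univ, nsmul_eq_mul]
          ring
  -- the general estimate for `w = ± z + n u`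
  have key : ∀ (s : ι → ℤ), (∀ e, |s e| ≤ (n : ℤ)) →
      ∃ w : ι → ℕ, (∀ e, (w e : ℤ) = s e + n * u e) ∧
        t * ∑ c, (pN P c false w : ℝ) ≤ (8 * U * M * Fintype.card κ + 1) * ε := by
    intro s hs
    refine ⟨fun e => (s e + n * u e).toNat, ?_, ?_⟩
    · intro e
      have h1 := hs e
      have h2 := (abs_le.mp h1).1
      have h3 : (n : ℤ) ≤ n * u e := by
        have : (1 : ℤ) ≤ u e := by exact_mod_cast hu e
        nlinarith [Int.natCast_nonneg n]
      rw [Int.toNat_of_nonneg (by linarith)]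
    · set w : ι → ℕ := fun e => (s e + n * u e).toNat with hw
      have h1 : ∀ e, w e ≤ n * (1 + u e) := by
        intro e
        have h2 := (abs_le.mp (hs e)).2
        rw [hw]
        simp only
        rw [Int.toNat_le]
        push_cast
        linarith
      have h2 : ∑ c, pN P c false w ≤ 2 * (n * U) := by
        calc ∑ c, pN P c false w ≤ ∑ c, (pN P c false w + pN P c true w) :=
              Finset.sum_le_sum fun c _ => Nat.le_add_right _ _
          _ = 2 * ∑ e, w e := col_sum P hP w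
          _ ≤ 2 * (n * U) := by
              have h5 : ∑ e, w e ≤ n * U := by
                rw [hU, Finset.mul_sum]
                exact Finset.sum_le_sum fun e _ => h1 e
              exact Nat.mul_le_mul_left 2 h5
      have h3 : ∑ c, (pN P c false w : ℝ) ≤ 2 * (n * U) := by exact_mod_cast h2
      calc t * ∑ c, (pN P c false w : ℝ) ≤ t * (2 * (n * U)) :=
            mul_le_mul_of_nonneg_left h3 ht.le
        _ = 4 * U * M * (t * N) := by
            rw [hn]
            push_cast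
            ring
        _ ≤ 4 * U * M * (2 * ε * Fintype.card κ) :=
            mul_le_mul_of_nonneg_left hNR (by positivity)
        _ ≤ (8 * U * M * Fintype.card κ + 1) * ε := by
            nlinarith
  have hSt0 : ∀ δ : κ → ℤ, 0 ≤ St P t δ := by
    intro δ
    rw [st_eq]
    exact tsum_nonneg (tm_nonneg P t δ)
  constructor
  · obtain ⟨w, hw1, hw2⟩ := key z hzabs
    have h1 := st_shift P hP t ht w 0 δ (fun c => by
      rw [hpN w c]
      simp only [hw1, mul_add, Finset.sum_add_distrib, hBz]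
      have h4 : ∑ e, ((P c false e : ℤ) - P c true e) * ((n : ℤ) * (u e : ℤ)) = 0 := by
        calc ∑ e, ((P c false e : ℤ) - P c true e) * ((n : ℤ) * (u e : ℤ))
            = n * ∑ e, ((P c false e : ℤ) - P c true e) * (u e : ℤ) := by
              rw [Finset.mul_sum]
              refine Finset.sum_congr rfl fun e _ => by ring
          _ = 0 := by rw [hBu c, mul_zero]
      rw [h4]
      simp)
    refine le_trans (mul_le_mul_of_nonneg_right ?_ (hSt0 0)) h1
    exact Real.exp_le_exp.mpr (neg_le_neg hw2)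
  · obtain ⟨w, hw1, hw2⟩ := key (fun e => - z e) (fun e => by rw [abs_neg]; exact hzabs e)
    have h1 := st_shift P hP t ht w δ 0 (fun c => by
      rw [hpN w c]
      simp only [hw1, mul_add, Finset.sum_add_distrib, mul_neg, Finset.sum_neg_distrib, hBz]
      have h4 : ∑ e, ((P c false e : ℤ) - P c true e) * ((n : ℤ) * (u e : ℤ)) = 0 := by
        calc ∑ e, ((P c false e : ℤ) - P c true e) * ((n : ℤ) * (u e : ℤ))
            = n * ∑ e, ((P c false e : ℤ) - P c true e) * (u e : ℤ) := by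
              rw [Finset.mul_sum]
              refine Finset.sum_congr rfl fun e _ => by ring
          _ = 0 := by rw [hBu c, mul_zero]
      rw [h4]
      simp)
    refine le_trans (mul_le_mul_of_nonneg_right ?_ (hSt0 δ)) h1
    exact Real.exp_le_exp.mpr (neg_le_neg hw2)

end Pool.Agent.Helper60.MV
end

/- Helper60.MV.B.CorrSum -/
section
/-!
MV-B5. Parity Riemann sum of the autocorrelation.

Proof. Let `g t d = corr ε (t d)`, `d ∈ ℤ`: zero unless `|t d| < 2ε`, so all sums are finite. For a function `g` on `ℤ` of finite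
support, `∑_{δ : κ → ℤ, ∑δ even} Π_c g(δ_c) = 1/2 [(∑_d g d)^|κ| + (∑_d (-1)^d g d)^|κ|]` (as `1_{∑δ even} = (1 + Π(-1)^{δ_c})/2` and
`∑_δ Π = Π ∑`, `Finset.prod_univ_sum` on a large box). `t ∑_d corr ε (t d) -> ∫ corr ε = 1`: Riemann sum of a continuous function
with compact support, and
`t ∑_d (-1)^d corr ε (t d) = 2 t ∑_m corr ε (2 t m) - t ∑_d corr ε (t d) -> 0`. As `κ` is nonempty the second power tends to 0.
-/

namespace Pool.Agent.Helper60.MV

open Finset MeasureTheory Filter Topology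

/-- the sign of an integer -/
noncomputable def csgn (d : ℤ) : ℝ := if Even d then 1 else -1

theorem csgn_add (a b : ℤ) : csgn (a + b) = csgn a * csgn b := by
  unfold csgn
  by_cases ha : Even a <;> by_cases hb : Even b <;> simp [Int.even_add, ha, hb]

theorem csgn_sum {κ : Type} (s : Finset κ) (δ : κ → ℤ) :
    csgn (∑ c ∈ s, δ c) = ∏ c ∈ s, csgn (δ c) := by
  classical
  induction s using Finset.induction_on with
  | empty => simp [csgn]
  | insert a s ha ih => rw [Finset.sum_insert ha, Finset.prod_insert ha, csgn_add, ih]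

theorem corr_scaled_zero (ε : ℝ) (hε : 0 < ε) (t : ℝ) (ht : 0 < t) (d : ℤ)
    (hd : d ∉ Finset.Icc (-(⌈2 * ε / t⌉₊ : ℤ)) (⌈2 * ε / t⌉₊ : ℤ)) :
    corr ε (t * (d : ℝ)) = 0 := by
  refine corr_zero ε hε _ ?_
  have hN : 2 * ε / t ≤ (⌈2 * ε / t⌉₊ : ℝ) := Nat.le_ceil _
  have hd' : (⌈2 * ε / t⌉₊ : ℤ) < |d| := by
    by_contra h
    push Not at h
    exact hd (Finset.mem_Icc.mpr (abs_le.mp h))
  have hd2 : (⌈2 * ε / t⌉₊ : ℝ) < |(d : ℝ)| := by exact_mod_cast hd'
  rw [abs_mul, abs_of_pos ht]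
  have h3 : 2 * ε / t ≤ |(d : ℝ)| := hN.trans hd2.le
  rw [div_le_iff₀ ht] at h3
  linarith

/-- all these sums are finite -/
theorem corr_sum_finite {κ : Type} [Fintype κ] (ε : ℝ) (hε : 0 < ε) (t : ℝ) (ht : 0 < t) :
    (Function.support (fun δ : κ → ℤ => ∏ c, corr ε (t * (δ c : ℝ)))).Finite := by
  classical
  refine Set.Finite.subset (Fintype.piFinset (fun _ : κ =>
    Finset.Icc (-(⌈2 * ε / t⌉₊ : ℤ)) (⌈2 * ε / t⌉₊ : ℤ))).finite_toSet ?_
  intro δ hδ
  rw [Function.mem_support, Finset.prod_ne_zero_iff] at hδ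
  rw [Finset.mem_coe, Fintype.mem_piFinset]
  intro c
  by_contra hc
  exact hδ c (Finset.mem_univ _) (corr_scaled_zero ε hε t ht _ hc)

/-- one dimensional Riemann sum -/
theorem corr_riemann (ε : ℝ) (hε : 0 < ε) :
    Tendsto (fun t : ℝ => t * ∑' d : ℤ, corr ε (t * (d : ℝ))) (𝓝[>] (0:ℝ)) (𝓝 1) := by
  have hcs : HasCompactSupport (corr ε) := by
    refine HasCompactSupport.intro (isCompact_Icc (a := -(2 * ε)) (b := 2 * ε)) (fun x hx => ?_)
    refine corr_zero ε hε x ?_
    by_contra h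
    push Not at h
    exact hx ⟨(abs_lt.mp h).1.le, (abs_lt.mp h).2.le⟩
  have huc : UniformContinuous (corr ε) :=
    hcs.uniformContinuous_of_continuous (corr_continuous ε hε)
  rw [Metric.tendsto_nhdsWithin_nhds]
  intro r hr
  set r' : ℝ := r / (2 * (4 * ε + 4)) with hr'
  have hr'pos : 0 < r' := by positivity
  obtain ⟨η, hη, hη2⟩ := Metric.uniformContinuous_iff.mp huc r' hr'pos
  refine ⟨min η 1, lt_min hη one_pos, fun {t} ht htd => ?_⟩
  have ht0 : (0:ℝ) < t := ht
  rw [Real.dist_eq, sub_zero, abs_of_pos ht0] at htd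
  have htη : t < η := lt_of_lt_of_le htd (min_le_left _ _)
  have ht1 : t < 1 := lt_of_lt_of_le htd (min_le_right _ _)
  set N : ℕ := ⌈2 * ε / t⌉₊ with hNdef
  have hN1 : 2 * ε / t ≤ (N : ℝ) := Nat.le_ceil _
  have hN2 : (N : ℝ) < 2 * ε / t + 1 := Nat.ceil_lt_add_one (by positivity)
  have hN1' : 2 * ε ≤ t * N := by
    rw [div_le_iff₀ ht0] at hN1
    linarith
  have hN2' : t * N < 2 * ε + t := by
    have := mul_lt_mul_of_pos_left hN2 ht0
    have h2 : t * (2 * ε / t + 1) = 2 * ε + t := by field_simp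
    linarith
  -- the integral as a sum
  have hint : Integrable (fun x : ℝ => corr ε (t * x)) :=
    (corr_integrable ε hε).comp_mul_left' ht0.ne'
  have hsum := hint.hasSum_intervalIntegral_comp_add_int
  have hI : ∫ x : ℝ, corr ε (t * x) = t⁻¹ := by
    rw [Measure.integral_comp_mul_left (corr ε) t, corr_integral ε hε, smul_eq_mul, mul_one,
      abs_of_pos (inv_pos.mpr ht0)]
  rw [hI] at hsum
  set S : Finset ℤ := Finset.Icc (-((N : ℤ) + 1)) (N : ℤ) with hS
  have hz : ∀ d : ℤ, d ∉ S → ∀ x : ℝ, 0 ≤ x → x ≤ 1 → corr ε (t * (x + (d : ℝ))) = 0 := by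
    intro d hd x hx0 hx1
    refine corr_zero ε hε _ ?_
    rw [hS, Finset.mem_Icc, not_and_or] at hd
    push Not at hd
    rw [abs_mul, abs_of_pos ht0]
    have hge : (N : ℝ) ≤ |x + (d : ℝ)| := by
      rcases hd with hd | hd
      · have : (d : ℝ) + 1 ≤ -((N : ℝ) + 1) := by exact_mod_cast hd
        rw [abs_of_nonpos (by linarith [Nat.cast_nonneg (α := ℝ) N])]
        linarith
      · have : (N : ℝ) + 1 ≤ (d : ℝ) := by exact_mod_cast hd
        rw [abs_of_nonneg (by linarith [Nat.cast_nonneg (α := ℝ) N])]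
        linarith
    nlinarith
  have h1 : ∑ d ∈ S, (∫ x in (0 : ℝ)..(1 : ℝ), corr ε (t * (x + (d : ℝ)))) = t⁻¹ := by
    rw [← hsum.tsum_eq]
    refine (tsum_eq_sum (fun d hd => ?_)).symm
    rw [intervalIntegral.integral_congr (g := fun _ => (0:ℝ)), intervalIntegral.integral_zero]
    intro x hx
    rw [Set.uIcc_of_le zero_le_one] at hx
    exact hz d hd x hx.1 hx.2
  have h2 : ∑' d : ℤ, corr ε (t * (d : ℝ)) = ∑ d ∈ S, corr ε (t * (d : ℝ)) := by
    refine tsum_eq_sum (fun d hd => ?_)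
    have := hz d hd 0 le_rfl zero_le_one
    rwa [zero_add] at this
  have h3 : |∑ d ∈ S, corr ε (t * (d : ℝ)) - t⁻¹| ≤ S.card * r' := by
    rw [← h1, ← Finset.sum_sub_distrib]
    refine (Finset.abs_sum_le_sum_abs _ _).trans ?_
    rw [← nsmul_eq_mul]
    refine Finset.sum_le_card_nsmul _ _ _ (fun d _ => ?_)
    have hc : corr ε (t * (d : ℝ)) = ∫ x in (0 : ℝ)..(1 : ℝ), corr ε (t * (d : ℝ)) := by
      rw [intervalIntegral.integral_const]
      simp
    have hcont : Continuous (fun x : ℝ => corr ε (t * (x + (d : ℝ)))) :=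
      (corr_continuous ε hε).comp (by fun_prop)
    rw [hc, ← intervalIntegral.integral_sub (by simp) (hcont.intervalIntegrable _ _)]
    have := intervalIntegral.norm_integral_le_of_norm_le_const (a := (0:ℝ)) (b := 1) (C := r')
      (f := fun x => corr ε (t * (d : ℝ)) - corr ε (t * (x + (d : ℝ)))) ?_
    · simpa using this
    · intro x hx
      rw [Set.uIoc_of_le zero_le_one] at hx
      have hd : dist (t * (d : ℝ)) (t * (x + (d : ℝ))) < η := by
        rw [Real.dist_eq]
        have : t * (d : ℝ) - t * (x + (d : ℝ)) = - (t * x) := by ring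
        rw [this, abs_neg, abs_of_nonneg (mul_nonneg ht0.le hx.1.le)]
        nlinarith [hx.2]
      have := hη2 hd
      rw [Real.dist_eq] at this
      exact this.le
  have hcard : (S.card : ℝ) = 2 * N + 2 := by
    rw [hS, Int.card_Icc]
    have : ((N : ℤ) + 1 - -((N : ℤ) + 1)).toNat = 2 * N + 2 := by omega
    rw [this]
    push_cast
    ring
  rw [Real.dist_eq, h2]
  have h4 : t * ∑ d ∈ S, corr ε (t * (d : ℝ)) - 1 = t * (∑ d ∈ S, corr ε (t * (d : ℝ)) - t⁻¹) := by
    rw [mul_sub, mul_inv_cancel₀ ht0.ne']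
  rw [h4, abs_mul, abs_of_pos ht0]
  calc t * |∑ d ∈ S, corr ε (t * (d : ℝ)) - t⁻¹| ≤ t * (S.card * r') :=
        mul_le_mul_of_nonneg_left h3 ht0.le
    _ = (2 * (t * N) + 2 * t) * r' := by rw [hcard]; ring
    _ ≤ (4 * ε + 4) * r' := by
        refine mul_le_mul_of_nonneg_right ?_ hr'pos.le
        linarith
    _ = r / 2 := by
        rw [hr']
        field_simp
    _ < r := by linarith

theorem corr_summable (ε : ℝ) (hε : 0 < ε) (t : ℝ) (ht : 0 < t) :
    Summable (fun d : ℤ => corr ε (t * (d : ℝ))) :=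
  summable_of_ne_finset_zero (s := Finset.Icc (-(⌈2 * ε / t⌉₊ : ℤ)) (⌈2 * ε / t⌉₊ : ℤ))
    (fun d hd => corr_scaled_zero ε hε t ht d hd)

/-- the alternating sum through two Riemann sums -/
theorem corr_alt (ε : ℝ) (hε : 0 < ε) (t : ℝ) (ht : 0 < t) :
    ∑' d : ℤ, csgn d * corr ε (t * (d : ℝ)) =
      2 * ∑' d : ℤ, corr ε (2 * t * (d : ℝ)) - ∑' d : ℤ, corr ε (t * (d : ℝ)) := by
  have hinj : Function.Injective (fun m : ℤ => 2 * m) := by
    intro a b h
    simpa using h
  have h1 : ∑' d : ℤ, corr ε (2 * t * (d : ℝ)) =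
      ∑' d : ℤ, (if Even d then corr ε (t * (d : ℝ)) else 0) := by
    have h := hinj.tsum_eq (f := fun d : ℤ => (if Even d then corr ε (t * (d : ℝ)) else 0)) ?_
    · rw [← h]
      refine tsum_congr (fun m => ?_)
      rw [if_pos (even_two_mul m)]
      push_cast
      ring_nf
    · intro d hd
      rw [Function.mem_support] at hd
      have he : Even d := by
        by_contra hne
        exact hd (if_neg hne)
      obtain ⟨m, hm⟩ := he
      exact ⟨m, by simp only; omega⟩
  have hs2 : Summable (fun d : ℤ => (if Even d then corr ε (t * (d : ℝ)) else 0)) := by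
    refine Summable.of_nonneg_of_le (fun d => ?_) (fun d => ?_) (corr_summable ε hε t ht)
    · split_ifs
      · exact corr_nonneg ε hε _
      · exact le_rfl
    · split_ifs
      · exact le_rfl
      · exact corr_nonneg ε hε _
  rw [h1, ← tsum_mul_left, ← (hs2.mul_left 2).tsum_sub (corr_summable ε hε t ht)]
  refine tsum_congr (fun d => ?_)
  unfold csgn
  split_ifs <;> ring

theorem corr_parity_split {κ : Type} [Fintype κ] (ε : ℝ) (hε : 0 < ε) (t : ℝ) (ht : 0 < t) :
    (∑' δ : κ → ℤ, (if Even (∑ c, δ c) then ∏ c, corr ε (t * (δ c : ℝ)) else 0)) =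
      1 / 2 * ((∑' d : ℤ, corr ε (t * (d : ℝ))) ^ (Fintype.card κ) +
        (∑' d : ℤ, csgn d * corr ε (t * (d : ℝ))) ^ (Fintype.card κ)) := by
  classical
  set I : Finset ℤ := Finset.Icc (-(⌈2 * ε / t⌉₊ : ℤ)) (⌈2 * ε / t⌉₊ : ℤ) with hI
  have hz : ∀ d : ℤ, d ∉ I → corr ε (t * (d : ℝ)) = 0 :=
    fun d hd => corr_scaled_zero ε hε t ht d hd
  have h1 : ∑' d : ℤ, corr ε (t * (d : ℝ)) = ∑ d ∈ I, corr ε (t * (d : ℝ)) :=
    tsum_eq_sum hz
  have h2 : ∑' d : ℤ, csgn d * corr ε (t * (d : ℝ)) = ∑ d ∈ I, csgn d * corr ε (t * (d : ℝ)) :=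
    tsum_eq_sum (fun d hd => by rw [hz d hd, mul_zero])
  have h3 : (∑' δ : κ → ℤ, (if Even (∑ c, δ c) then ∏ c, corr ε (t * (δ c : ℝ)) else 0)) =
      ∑ δ ∈ Fintype.piFinset (fun _ : κ => I),
        (if Even (∑ c, δ c) then ∏ c, corr ε (t * (δ c : ℝ)) else 0) := by
    refine tsum_eq_sum (fun δ hδ => ?_)
    rw [Fintype.mem_piFinset] at hδ
    push Not at hδ
    obtain ⟨c, hc⟩ := hδ
    split_ifs
    · exact Finset.prod_eq_zero (Finset.mem_univ c) (hz _ hc)
    · rfl
  rw [h1, h2, h3]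
  have h4 : (∑ d ∈ I, corr ε (t * (d : ℝ))) ^ (Fintype.card κ) =
      ∑ δ ∈ Fintype.piFinset (fun _ : κ => I), ∏ c, corr ε (t * (δ c : ℝ)) := by
    have h := Finset.prod_univ_sum (fun _ : κ => I) (fun _ d => corr ε (t * (d : ℝ)))
    rw [Finset.prod_const, Finset.card_univ] at h
    exact h
  have h5 : (∑ d ∈ I, csgn d * corr ε (t * (d : ℝ))) ^ (Fintype.card κ) =
      ∑ δ ∈ Fintype.piFinset (fun _ : κ => I), ∏ c, (csgn (δ c) * corr ε (t * (δ c : ℝ))) := by
    have h := Finset.prod_univ_sum (fun _ : κ => I) (fun _ d => csgn d * corr ε (t * (d : ℝ)))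
    rw [Finset.prod_const, Finset.card_univ] at h
    exact h
  rw [h4, h5, ← Finset.sum_add_distrib, Finset.mul_sum]
  refine Finset.sum_congr rfl (fun δ _ => ?_)
  rw [Finset.prod_mul_distrib, ← csgn_sum]
  unfold csgn
  split_ifs <;> ring

theorem corr_parity_sum {κ : Type} [Fintype κ] [Nonempty κ] (ε : ℝ) (hε : 0 < ε) :
    Tendsto (fun t : ℝ => t ^ (Fintype.card κ) *
      ∑' δ : κ → ℤ, (if Even (∑ c, δ c) then ∏ c, corr ε (t * (δ c : ℝ)) else 0))
      (𝓝[>] (0:ℝ)) (𝓝 (1 / 2)) := by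
  have hR := corr_riemann ε hε
  have h2t : Tendsto (fun t : ℝ => 2 * t) (𝓝[>] (0:ℝ)) (𝓝[>] (0:ℝ)) := by
    refine tendsto_nhdsWithin_iff.mpr ⟨?_, ?_⟩
    · have : Tendsto (fun t : ℝ => 2 * t) (𝓝 (0:ℝ)) (𝓝 (2 * 0)) := by
        exact tendsto_id.const_mul 2
      rw [mul_zero] at this
      exact this.mono_left nhdsWithin_le_nhds
    · filter_upwards [self_mem_nhdsWithin] with t ht
      have : (0:ℝ) < t := ht
      exact (by positivity : (0:ℝ) < 2 * t)
  have hR2 := hR.comp h2t
  have hA : Tendsto (fun t : ℝ => t * ∑' d : ℤ, csgn d * corr ε (t * (d : ℝ)))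
      (𝓝[>] (0:ℝ)) (𝓝 0) := by
    have h := hR2.sub hR
    rw [sub_self] at h
    refine h.congr' ?_
    filter_upwards [self_mem_nhdsWithin] with t ht
    have ht0 : (0:ℝ) < t := ht
    simp only [Function.comp]
    rw [corr_alt ε hε t ht0]
    ring
  have hlim : Tendsto (fun t : ℝ => 1 / 2 * ((t * ∑' d : ℤ, corr ε (t * (d : ℝ))) ^
      (Fintype.card κ) + (t * ∑' d : ℤ, csgn d * corr ε (t * (d : ℝ))) ^ (Fintype.card κ)))
      (𝓝[>] (0:ℝ)) (𝓝 (1 / 2 * (1 ^ (Fintype.card κ) + 0 ^ (Fintype.card κ)))) :=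
    ((hR.pow _).add (hA.pow _)).const_mul _
  rw [one_pow, zero_pow Fintype.card_ne_zero, add_zero, mul_one] at hlim
  refine hlim.congr' ?_
  filter_upwards [self_mem_nhdsWithin] with t ht
  rw [corr_parity_split ε hε t ht, mul_pow, mul_pow]
  ring

end Pool.Agent.Helper60.MV
end

/- Helper60.MV.B.Group -/
section
/-!
MV-B7. Grouping the full lattice sum by `δ = B l`.

Proof. For `l : ι → ℕ+` put `p_c = p_{c,false}(l)`, `p'_c = p_{c,true}(l)`, `δ_c = p_c - p'_c ∈ ℤ`. By `kern_upper`, `kern_lower` with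
`p = t p_c`: `kern ε (t p_c) (t p'_c)` is between `e^{∓ε} phi(t p_c) corr ε (t δ_c)`. Multiply over `c`, sum over `l` and group by the
value `δ` of `B l`.
`∑'_l Π_c phi(t p_c) corr ε (t δ_c(l)) = ∑'_δ Π_c corr ε (t δ_c) · St P t δ`: only finitely many `δ` matter
(`corr_sum_finite`) and for each of them the sum over `l` converges (`st_summable`).
-/

namespace Pool.Agent.Helper60.MV

open Finset MeasureTheory Filter Topology

theorem pR_scale {ι κ : Type} [Fintype ι] (P : κ → Bool → ι → ℕ) (c : κ) (b : Bool) (t : ℝ)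
    (l : ι → ℕ+) :
    pR P c b (fun e => t * ((l e : ℕ) : ℝ)) = t * (pN P c b (fun e => (l e : ℕ)) : ℝ) := by
  unfold pR pN
  push_cast
  rw [Finset.mul_sum]
  refine Finset.sum_congr rfl (fun e _ => ?_)
  ring

/-- the comparison function of the grouping -/
noncomputable def grpG {ι κ : Type} [Fintype ι] [Fintype κ] (P : κ → Bool → ι → ℕ) (ε t : ℝ)
    (l : ι → ℕ+) : ℝ :=
  ∏ c, (phi (t * (pN P c false (fun e => (l e : ℕ)) : ℝ)) *
    corr ε (t * (((pN P c false (fun e => (l e : ℕ)) : ℤ) -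
      (pN P c true (fun e => (l e : ℕ)) : ℤ) : ℤ) : ℝ)))

theorem grpG_nonneg {ι κ : Type} [Fintype ι] [Fintype κ] (P : κ → Bool → ι → ℕ) (ε t : ℝ)
    (hε : 0 < ε) (l : ι → ℕ+) : 0 ≤ grpG P ε t l :=
  Finset.prod_nonneg (fun _ _ => mul_nonneg (phi_pos _).le (corr_nonneg ε hε _))

theorem grpG_hasSum {ι κ : Type} [Fintype ι] [Fintype κ] (P : κ → Bool → ι → ℕ) (hP : Adm P)
    (ε t : ℝ) (hε : 0 < ε) (ht : 0 < t) :
    HasSum (grpG P ε t) (∑' δ : κ → ℤ, (∏ c, corr ε (t * (δ c : ℝ))) * St P t δ) := by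
  classical
  set F : Finset (κ → ℤ) := (corr_sum_finite (κ := κ) ε hε t ht).toFinset with hF
  have hmem : ∀ δ : κ → ℤ, δ ∉ F → ∏ c, corr ε (t * (δ c : ℝ)) = 0 := by
    intro δ hδ
    rw [hF, Set.Finite.mem_toFinset, Function.mem_support, not_not] at hδ
    exact hδ
  have h1 : ∑' δ : κ → ℤ, (∏ c, corr ε (t * (δ c : ℝ))) * St P t δ =
      ∑ δ ∈ F, (∏ c, corr ε (t * (δ c : ℝ))) * St P t δ := by
    refine tsum_eq_sum (fun δ hδ => ?_)
    rw [hmem δ hδ, zero_mul]
  rw [h1]
  have h2 : ∀ δ ∈ F, HasSum (fun l : ι → ℕ+ => (∏ c, corr ε (t * (δ c : ℝ))) *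
      (if ∀ c, (pN P c false (fun e => (l e : ℕ)) : ℤ) - (pN P c true (fun e => (l e : ℕ)) : ℤ)
        = δ c then ∏ c : κ, phi (t * (pN P c false (fun e => (l e : ℕ)) : ℝ)) else 0))
      ((∏ c, corr ε (t * (δ c : ℝ))) * St P t δ) := by
    intro δ _
    refine HasSum.mul_left _ ?_
    have hs := (st_summable P hP t ht δ).hasSum
    unfold St
    exact hs
  have h3 := hasSum_sum h2
  have h4 : (fun l : ι → ℕ+ => ∑ δ ∈ F, (∏ c, corr ε (t * (δ c : ℝ))) *
      (if ∀ c, (pN P c false (fun e => (l e : ℕ)) : ℤ) - (pN P c true (fun e => (l e : ℕ)) : ℤ)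
        = δ c then ∏ c : κ, phi (t * (pN P c false (fun e => (l e : ℕ)) : ℝ)) else 0)) =
      grpG P ε t := by
    funext l
    set δ0 : κ → ℤ := fun c =>
      (pN P c false (fun e => (l e : ℕ)) : ℤ) - (pN P c true (fun e => (l e : ℕ)) : ℤ) with hδ0
    have hG : grpG P ε t l = (∏ c, corr ε (t * (δ0 c : ℝ))) *
        ∏ c : κ, phi (t * (pN P c false (fun e => (l e : ℕ)) : ℝ)) := by
      unfold grpG
      rw [Finset.prod_mul_distrib, mul_comm]
    have hz : ∀ δ ∈ F, δ ≠ δ0 → (∏ c, corr ε (t * (δ c : ℝ))) *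
      (if ∀ c, (pN P c false (fun e => (l e : ℕ)) : ℤ) - (pN P c true (fun e => (l e : ℕ)) : ℤ)
        = δ c then ∏ c : κ, phi (t * (pN P c false (fun e => (l e : ℕ)) : ℝ)) else 0) = 0 := by
      intro δ _ hne
      rw [if_neg, mul_zero]
      intro hall
      exact hne (funext (fun c => (hall c).symm))
    by_cases hin : δ0 ∈ F
    · rw [Finset.sum_eq_single_of_mem δ0 hin hz, if_pos (fun c => rfl), hG]
    · rw [hG, hmem δ0 hin, zero_mul]
      refine Finset.sum_eq_zero (fun δ hδ => hz δ hδ ?_)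
      rintro rfl
      exact hin hδ
  rw [h4] at h3
  exact h3

theorem kern_prod_upper {ι κ : Type} [Fintype ι] [Fintype κ] (P : κ → Bool → ι → ℕ)
    (ε t : ℝ) (hε : 0 < ε) (l : ι → ℕ+) :
    (∏ c, kern ε (pR P c false (fun e => t * ((l e : ℕ) : ℝ)))
      (pR P c true (fun e => t * ((l e : ℕ) : ℝ)))) ≤
    Real.exp (Fintype.card κ * ε) * grpG P ε t l := by
  have h : Real.exp (Fintype.card κ * ε) * grpG P ε t l =
      ∏ c : κ, (Real.exp ε * (phi (t * (pN P c false (fun e => (l e : ℕ)) : ℝ)) *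
    corr ε (t * (((pN P c false (fun e => (l e : ℕ)) : ℤ) -
      (pN P c true (fun e => (l e : ℕ)) : ℤ) : ℤ) : ℝ)))) := by
    rw [Finset.prod_mul_distrib, Finset.prod_const, Finset.card_univ, ← Real.exp_nat_mul]
    rfl
  rw [h]
  refine Finset.prod_le_prod (fun c _ => kern_nonneg ε hε _ _) (fun c _ => ?_)
  rw [pR_scale, pR_scale]
  have h2 := kern_upper ε hε (t * (pN P c false (fun e => (l e : ℕ)) : ℝ))
    (t * (pN P c true (fun e => (l e : ℕ)) : ℝ))
  have h3 : t * (pN P c false (fun e => (l e : ℕ)) : ℝ) -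
    (t * (pN P c true (fun e => (l e : ℕ)) : ℝ)) = t * (((pN P c false (fun e => (l e : ℕ)) : ℤ) -
      (pN P c true (fun e => (l e : ℕ)) : ℤ) : ℤ) : ℝ) := by
    push_cast
    ring
  rw [h3, mul_assoc] at h2
  exact h2

theorem kern_prod_lower {ι κ : Type} [Fintype ι] [Fintype κ] (P : κ → Bool → ι → ℕ)
    (ε t : ℝ) (hε : 0 < ε) (l : ι → ℕ+) :
    Real.exp (-(Fintype.card κ * ε)) * grpG P ε t l ≤
    (∏ c, kern ε (pR P c false (fun e => t * ((l e : ℕ) : ℝ)))
      (pR P c true (fun e => t * ((l e : ℕ) : ℝ)))) := by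
  have h : Real.exp (-(Fintype.card κ * ε)) * grpG P ε t l =
      ∏ c : κ, (Real.exp (-ε) * (phi (t * (pN P c false (fun e => (l e : ℕ)) : ℝ)) *
    corr ε (t * (((pN P c false (fun e => (l e : ℕ)) : ℤ) -
      (pN P c true (fun e => (l e : ℕ)) : ℤ) : ℤ) : ℝ)))) := by
    rw [Finset.prod_mul_distrib, Finset.prod_const, Finset.card_univ, ← Real.exp_nat_mul,
      mul_neg]
    rfl
  rw [h]
  refine Finset.prod_le_prod (fun c _ => mul_nonneg (Real.exp_pos _).le
    (mul_nonneg (phi_pos _).le (corr_nonneg ε hε _))) (fun c _ => ?_)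
  rw [pR_scale, pR_scale]
  have h2 := kern_lower ε hε (t * (pN P c false (fun e => (l e : ℕ)) : ℝ))
    (t * (pN P c true (fun e => (l e : ℕ)) : ℝ))
  have h3 : t * (pN P c false (fun e => (l e : ℕ)) : ℝ) -
    (t * (pN P c true (fun e => (l e : ℕ)) : ℝ)) = t * (((pN P c false (fun e => (l e : ℕ)) : ℤ) -
      (pN P c true (fun e => (l e : ℕ)) : ℤ) : ℤ) : ℝ) := by
    push_cast
    ring
  rw [h3, mul_assoc] at h2
  exact h2

theorem kern_prod_summable {ι κ : Type} [Fintype ι] [Fintype κ] (P : κ → Bool → ι → ℕ)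
    (hP : Adm P) (ε t : ℝ) (hε : 0 < ε) (ht : 0 < t) :
    Summable (fun l : ι → ℕ+ => ∏ c, kern ε (pR P c false (fun e => t * ((l e : ℕ) : ℝ)))
      (pR P c true (fun e => t * ((l e : ℕ) : ℝ)))) :=
  Summable.of_nonneg_of_le (fun _ => Finset.prod_nonneg (fun _ _ => kern_nonneg ε hε _ _))
    (fun l => kern_prod_upper P ε t hε l) ((grpG_hasSum P hP ε t hε ht).summable.mul_left _)

theorem group_upper {ι κ : Type} [Fintype ι] [Fintype κ] (P : κ → Bool → ι → ℕ) (hP : Adm P)
    (ε t : ℝ) (hε : 0 < ε) (ht : 0 < t) :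
    (∑' l : ι → ℕ+, ∏ c, kern ε (pR P c false (fun e => t * ((l e : ℕ) : ℝ)))
      (pR P c true (fun e => t * ((l e : ℕ) : ℝ)))) ≤
    Real.exp (Fintype.card κ * ε) * ∑' δ : κ → ℤ, (∏ c, corr ε (t * (δ c : ℝ))) * St P t δ := by
  have hG := grpG_hasSum P hP ε t hε ht
  rw [← hG.tsum_eq, ← tsum_mul_left]
  exact (kern_prod_summable P hP ε t hε ht).tsum_le_tsum
    (fun l => kern_prod_upper P ε t hε l) (hG.summable.mul_left _)

theorem group_lower {ι κ : Type} [Fintype ι] [Fintype κ] (P : κ → Bool → ι → ℕ) (hP : Adm P)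
    (ε t : ℝ) (hε : 0 < ε) (ht : 0 < t) :
    Real.exp (-(Fintype.card κ * ε)) * (∑' δ : κ → ℤ, (∏ c, corr ε (t * (δ c : ℝ))) * St P t δ) ≤
    ∑' l : ι → ℕ+, ∏ c, kern ε (pR P c false (fun e => t * ((l e : ℕ) : ℝ)))
      (pR P c true (fun e => t * ((l e : ℕ) : ℝ))) := by
  have hG := grpG_hasSum P hP ε t hε ht
  rw [← hG.tsum_eq, ← tsum_mul_left]
  exact (hG.summable.mul_left _).tsum_le_tsum
    (fun l => kern_prod_lower P ε t hε l) (kern_prod_summable P hP ε t hε ht)

end Pool.Agent.Helper60.MV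
end

/- Helper60.MV.B.Im -/
section
/-!
MV-B11. The incidence matrix of a connected configuration with all cycles of `σ` odd is admissible (except for
goodness, which is assumed).

Proof. `φ = σ * τ`; `φ (τ h) = σ h`, so `face (τ h) = face (σ h)` (`face_tau`). The edge `e = {h, τ h}` has the two half-edges `h, τ h`
(`τ h ≠ h`), so as a function on faces `p(1_e) = 1_{face h} + 1_{face (τ h)} = 1_{face h} + 1_{face (σ h)}` (`card` computation of
`R.P`, `∑_c (P c false e + P c true e)` counts the half-edges of `e`, each face is `cface c b` for exactly one `(c,b)`: the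
pairing `β` has no fixed point and its cycles have two elements `c.rep`, `β c.rep`). Column sums: 2.
Let `W ⊂ ℤ^{Face}` be the image of `ℤ^{Edge}` under `z ↦ (∑_e P z)`. It contains `1_{face h} + 1_{face σh}` for all `h`; alternating sum
over an odd `σ`-cycle (`minimalPeriod σ h` odd) gives `2·1_{face h} ∈ W` for all `h`. The map `D : ℤ^{Face} → ℤ^{Cyl}`,
`(D p)_c = p_{cface c false} - p_{cface c true}`, sends `1_f` to `±1_{cyl f}`. So the image of `B = D∘P` contains `2·1_c` for all `c` and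
`±1_{c(h)} ± 1_{c(σh)}`, hence `1_{c(h)} + 1_{c(σ h)}` (add `2·1`'s), where `c(h)` is the cylinder of the face of `h`. Also
`c(τh) = c(σh)`, and faces paired by `β` have the same cylinder. By connectedness (induction over `EqvGen`) `1_{c(h)} + 1_{c(h')}` is in the image
for all `h,h'`, and every cylinder is `c(h)` for some `h`.
-/

namespace Pool.Agent.Helper60.MV

open Finset MeasureTheory Filter Topology

variable {H : Type} [Fintype H] {σ : Equiv.Perm H}

theorem face_tau (R : Conf σ) (h : H) : R.face (R.τ h) = R.face (σ h) := by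
  unfold Conf.face cyc
  refine Quotient.sound ?_
  change Equiv.Perm.SameCycle (σ * R.τ) (R.τ h) (σ h)
  refine ⟨1, ?_⟩
  rw [zpow_one, Equiv.Perm.mul_apply, R.hτ.invol]

private theorem sameCycle_pairing {A : Type} {g : Equiv.Perm A} (hg : IsPairing g) {x y : A}
    (h : g.SameCycle x y) : y = x ∨ y = g x := by
  obtain ⟨i, hi⟩ := h
  have h2 : g ^ (2 : ℤ) = 1 := by
    ext z
    rw [zpow_two, Equiv.Perm.mul_apply, hg.invol, Equiv.Perm.one_apply]
  rcases Int.even_or_odd' i with ⟨k, hk | hk⟩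
  · left
    rw [← hi, hk, zpow_mul, h2, one_zpow, Equiv.Perm.one_apply]
  · right
    rw [← hi, hk, zpow_add, zpow_mul, h2, one_zpow, one_mul, zpow_one]

private theorem cyc_rep {A : Type} {g : Equiv.Perm A} (c : Cyc g) : cyc g c.rep = c :=
  Quotient.out_eq c

private theorem cyc_eq_iff_pv1 {A : Type} {g : Equiv.Perm A} {x y : A} :
    cyc g x = cyc g y ↔ g.SameCycle x y := by
  constructor
  · intro h
    exact Quotient.exact h
  · intro h
    exact Quotient.sound h

private theorem cyc_apply {A : Type} {g : Equiv.Perm A} (x : A) : cyc g (g x) = cyc g x := by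
  rw [cyc_eq_iff_pv1]
  exact ⟨-1, by simp⟩

private theorem cyc_surj {A : Type} {g : Equiv.Perm A} (c : Cyc g) : ∃ x, cyc g x = c :=
  ⟨c.rep, cyc_rep c⟩

private theorem cyc_cface (R : Conf σ) (c : R.Cyl) (b : Bool) : cyc R.β (R.cface c b) = c := by
  unfold Conf.cface
  cases b
  · simpa using cyc_rep c
  · simpa [cyc_apply] using cyc_rep c

/-- the two faces of the cylinders enumerate the faces (auxiliary form) -/
private theorem cface_bij' (R : Conf σ) :
    Function.Bijective (fun q : R.Cyl × Bool => R.cface q.1 q.2) := by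
  constructor
  · rintro ⟨c, b⟩ ⟨c', b'⟩ h
    simp only at h
    have hc : c = c' := by
      rw [← cyc_cface R c b, ← cyc_cface R c' b', h]
    subst hc
    have hne := R.hβ.fpf (c.rep)
    cases b <;> cases b'
    · rfl
    · exact absurd h.symm hne
    · exact absurd h hne
    · rfl
  · intro f
    have h1 : R.β.SameCycle (cyc R.β f).rep f := by
      rw [← cyc_eq_iff_pv1, cyc_rep]
    rcases sameCycle_pairing R.hβ h1 with h2 | h2
    · exact ⟨(cyc R.β f, false), by simpa [Conf.cface] using h2.symm⟩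
    · exact ⟨(cyc R.β f, true), by simpa [Conf.cface] using h2.symm⟩

private theorem sum_cface {V : Type} [AddCommMonoid V] (R : Conf σ) (F : R.Face → V) :
    ∑ c : R.Cyl, (F (R.cface c false) + F (R.cface c true)) = ∑ f : R.Face, F f := by
  rw [← (cface_bij' R).sum_comp F, Fintype.sum_prod_type]
  refine Finset.sum_congr rfl fun c _ => ?_
  rw [Fintype.sum_bool, add_comm]

private theorem per_single (R : Conf σ) (h : H) (f : R.Face) :
    R.per (fun e => if e = R.edge h then (1 : ℤ) else 0) f =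
      (if R.face h = f then 1 else 0) + (if R.face (σ h) = f then 1 else 0) := by
  classical
  unfold Conf.per
  have hne : R.τ h ≠ h := R.hτ.fpf h
  have key : ∀ x : H, (if R.face x = f then (if R.edge x = R.edge h then (1 : ℤ) else 0) else 0) =
      (if x = h then (if R.face h = f then (1 : ℤ) else 0) else 0) +
        (if x = R.τ h then (if R.face (R.τ h) = f then (1 : ℤ) else 0) else 0) := by
    intro x
    by_cases hx : x = h
    · subst hx
      simp [Ne.symm hne]
    · by_cases hx2 : x = R.τ h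
      · subst hx2
        have : R.edge (R.τ h) = R.edge h := cyc_apply h
        simp [this, hne]
      · have : R.edge x ≠ R.edge h := by
          intro hh
          unfold Conf.edge at hh
          rw [eq_comm, cyc_eq_iff_pv1] at hh
          rcases sameCycle_pairing R.hτ hh with h3 | h3
          · exact hx h3
          · exact hx2 h3
        simp [this, hx, hx2]
  rw [Finset.sum_congr rfl fun x _ => key x, Finset.sum_add_distrib]
  simp [face_tau]

theorem P_col (R : Conf σ) (e : R.Edge) : ∑ c, (R.P c false e + R.P c true e) = 2 := by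
  classical
  have h1 := sum_cface R (fun f => (univ.filter (fun h : H => R.face h = f ∧ R.edge h = e)).card)
  have h2 : ∑ c, (R.P c false e + R.P c true e) =
      ∑ f : R.Face, (univ.filter (fun h : H => R.face h = f ∧ R.edge h = e)).card := by
    rw [← h1]
    refine Finset.sum_congr rfl fun c _ => ?_
    unfold Conf.P
    congr 1 <;> congr
  rw [h2]
  obtain ⟨h, rfl⟩ : ∃ h, R.edge h = e := cyc_surj e
  have hne : R.τ h ≠ h := R.hτ.fpf h
  have h3 : ∀ f : R.Face, (univ.filter (fun x : H => R.face x = f ∧ R.edge x = R.edge h)).card =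
      ∑ x : H, if R.face x = f then (if R.edge x = R.edge h then 1 else 0) else 0 := by
    intro f
    rw [Finset.card_filter]
    refine Finset.sum_congr rfl fun x _ => ?_
    rw [ite_and]
  rw [Finset.sum_congr rfl fun f _ => h3 f, Finset.sum_comm]
  have h4 : ∀ x : H, ∑ f : R.Face,
      (if R.face x = f then (if R.edge x = R.edge h then 1 else 0) else 0) =
      (if R.edge x = R.edge h then 1 else 0) := by
    intro x
    rw [Finset.sum_ite_eq]
    simp
  rw [Finset.sum_congr rfl fun x _ => h4 x, ← Finset.card_filter]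
  have h5 : (univ.filter (fun x : H => R.edge x = R.edge h)) = {h, R.τ h} := by
    ext x
    simp only [mem_filter, mem_univ, true_and, mem_insert, mem_singleton]
    constructor
    · intro hh
      unfold Conf.edge at hh
      rw [eq_comm, cyc_eq_iff_pv1] at hh
      exact sameCycle_pairing R.hτ hh
    · rintro (hh | hh)
      · rw [hh]
      · rw [hh]
        exact cyc_apply h
  rw [h5, Finset.card_pair (Ne.symm hne)]

private theorem sum_P_gen {V : Type} [CommSemiring V] (R : Conf σ) (c : R.Cyl) (b : Bool)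
    (x : R.Edge → V) : ∑ e, (R.P c b e : V) * x e = R.per x (R.cface c b) := by
  classical
  have h1 : ∀ e, (R.P c b e : V) * x e =
      ∑ h : H, if R.face h = R.cface c b then (if R.edge h = e then x e else 0) else 0 := by
    intro e
    have h2 : R.P c b e =
        (univ.filter (fun h : H => R.face h = R.cface c b ∧ R.edge h = e)).card := by
      unfold Conf.P
      congr
    rw [h2, Finset.card_filter, Nat.cast_sum, Finset.sum_mul]
    refine Finset.sum_congr rfl fun h _ => ?_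
    by_cases h3 : R.face h = R.cface c b <;> by_cases h4 : R.edge h = e <;> simp [h3, h4]
  rw [Finset.sum_congr rfl fun e _ => h1 e, Finset.sum_comm]
  unfold Conf.per
  refine Finset.sum_congr rfl fun h _ => ?_
  by_cases h3 : R.face h = R.cface c b
  · simp [h3]
  · simp [h3]

/-- perimeters through the incidence matrix -/
theorem sum_P (R : Conf σ) (c : R.Cyl) (b : Bool) (x : R.Edge → ℝ) :
    ∑ e, (R.P c b e : ℝ) * x e = R.per x (R.cface c b) := by
  exact sum_P_gen R c b x

theorem sum_P_nat (R : Conf σ) (c : R.Cyl) (b : Bool) (x : R.Edge → ℕ) :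
    ∑ e, R.P c b e * x e = R.per x (R.cface c b) := by
  simpa using sum_P_gen R c b x

/-- the two faces of the cylinders enumerate the faces -/
theorem cface_bij (R : Conf σ) :
    Function.Bijective (fun q : R.Cyl × Bool => R.cface q.1 q.2) := by
  exact cface_bij' R

private theorem per_add (R : Conf σ) (z w : R.Edge → ℤ) (f : R.Face) :
    R.per (z + w) f = R.per z f + R.per w f := by
  unfold Conf.per
  rw [← Finset.sum_add_distrib]
  refine Finset.sum_congr rfl fun h _ => ?_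
  by_cases h3 : R.face h = f <;> simp [h3]

private theorem per_smul (R : Conf σ) (k : ℤ) (z : R.Edge → ℤ) (f : R.Face) :
    R.per (k • z) f = k * R.per z f := by
  unfold Conf.per
  rw [Finset.mul_sum]
  refine Finset.sum_congr rfl fun h _ => ?_
  by_cases h3 : R.face h = f <;> simp [h3]

private theorem alt_sum (R : Conf σ) (h : H) (n : ℕ) :
    ∃ z : R.Edge → ℤ, ∀ f : R.Face, R.per z f =
      (if R.face h = f then 1 else 0) - (-1) ^ n * (if R.face ((σ ^ n) h) = f then 1 else 0) := by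
  induction n with
  | zero =>
    refine ⟨0, fun f => ?_⟩
    have h0 : R.per (0 : R.Edge → ℤ) f = 0 := by
      unfold Conf.per
      simp
    rw [h0]
    simp
  | succ n ih =>
    obtain ⟨z, hz⟩ := ih
    refine ⟨z + ((-1) ^ n : ℤ) • (fun e => if e = R.edge ((σ ^ n) h) then (1 : ℤ) else 0),
      fun f => ?_⟩
    rw [per_add, per_smul, per_single, hz]
    have h1 : (σ ^ (n + 1)) h = σ ((σ ^ n) h) := by
      rw [pow_succ', Equiv.Perm.mul_apply]
    rw [h1, pow_succ]
    ring

private theorem two_face (R : Conf σ) (hσ : AllOdd σ) (h : H) :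
    ∃ z : R.Edge → ℤ, ∀ f : R.Face, R.per z f = 2 * (if R.face h = f then 1 else 0) := by
  obtain ⟨z, hz⟩ := alt_sum R h (Function.minimalPeriod σ h)
  refine ⟨z, fun f => ?_⟩
  rw [hz, (hσ h).neg_one_pow]
  have h1 : (σ ^ (Function.minimalPeriod σ h)) h = h := by
    have := Function.iterate_minimalPeriod (f := σ) (x := h)
    rw [← Equiv.Perm.iterate_eq_pow] 
    exact this
  rw [h1]
  ring

/-- `k` is `1` or `-1` -/
private theorem diff_face (R : Conf σ) (f : R.Face) :
    ∃ s : ℤ, (s = 1 ∨ s = -1) ∧ ∀ c : R.Cyl,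
      ((if f = R.cface c false then (1 : ℤ) else 0) - (if f = R.cface c true then (1 : ℤ) else 0)) =
        s * (if cyc R.β f = c then 1 else 0) := by
  obtain ⟨⟨c0, b⟩, hq⟩ := (cface_bij' R).2 f
  simp only at hq
  subst hq
  have hinj : ∀ c b', R.cface c0 b = R.cface c b' ↔ c0 = c ∧ b = b' := by
    intro c b'
    constructor
    · intro hh
      have := (cface_bij' R).1 (a₁ := (c0, b)) (a₂ := (c, b')) hh
      simpa using this
    · rintro ⟨h1, h2⟩
      rw [h1, h2]
  cases b
  · refine ⟨1, Or.inl rfl, fun c => ?_⟩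
    simp only [hinj, cyc_cface]
    by_cases hc : c0 = c <;> simp [hc]
  · refine ⟨-1, Or.inr rfl, fun c => ?_⟩
    simp only [hinj, cyc_cface]
    by_cases hc : c0 = c <;> simp [hc]

private def InV (R : Conf σ) (w : R.Cyl → ℤ) : Prop :=
  ∃ z : R.Edge → ℤ, ∀ c : R.Cyl, R.per z (R.cface c false) - R.per z (R.cface c true) = w c

private theorem InV.add {R : Conf σ} {w w' : R.Cyl → ℤ} (h : InV R w) (h' : InV R w') :
    InV R (w + w') := by
  obtain ⟨z, hz⟩ := h
  obtain ⟨z', hz'⟩ := h'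
  refine ⟨z + z', fun c => ?_⟩
  rw [per_add, per_add, Pi.add_apply, ← hz, ← hz']
  ring

private theorem InV.smul {R : Conf σ} {w : R.Cyl → ℤ} (k : ℤ) (h : InV R w) :
    InV R (k • w) := by
  obtain ⟨z, hz⟩ := h
  refine ⟨k • z, fun c => ?_⟩
  rw [per_smul, per_smul, Pi.smul_apply, ← hz, smul_eq_mul]
  ring

private noncomputable def wv (R : Conf σ) (h : H) : R.Cyl → ℤ :=
  fun c => if cyc R.β (R.face h) = c then 1 else 0

private theorem two_w (R : Conf σ) (hσ : AllOdd σ) (h : H) : InV R ((2 : ℤ) • wv R h) := by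
  obtain ⟨s, hs, hd⟩ := diff_face R (R.face h)
  obtain ⟨z, hz⟩ := two_face R hσ h
  have h1 : InV R ((2 * s) • wv R h) := by
    refine ⟨z, fun c => ?_⟩
    have := hd c
    rw [hz, hz, ← mul_sub, this, Pi.smul_apply, smul_eq_mul, wv]
    ring
  have h2 := h1.smul s
  rw [smul_smul] at h2
  have h3 : s * (2 * s) = 2 := by
    rcases hs with rfl | rfl <;> norm_num
  rwa [h3] at h2

private theorem w_sigma (R : Conf σ) (hσ : AllOdd σ) (h : H) :
    InV R (wv R h + wv R (σ h)) := by
  obtain ⟨s, hs, hd⟩ := diff_face R (R.face h)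
  obtain ⟨s', hs', hd'⟩ := diff_face R (R.face (σ h))
  have h1 : InV R (s • wv R h + s' • wv R (σ h)) := by
    refine ⟨fun e => if e = R.edge h then (1 : ℤ) else 0, fun c => ?_⟩
    have e1 := hd c
    have e2 := hd' c
    rw [per_single, per_single, Pi.add_apply, Pi.smul_apply, Pi.smul_apply, smul_eq_mul,
      smul_eq_mul]
    unfold wv
    rw [← e1, ← e2]
    ring
  have h2 := two_w R hσ h
  have h3 := two_w R hσ (σ h)
  rcases hs with rfl | rfl <;> rcases hs' with rfl | rfl
  · simpa using h1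
  · have := h1.add h3
    convert this using 1
    module
  · have := h1.add h2
    convert this using 1
    module
  · have := h1.smul (-1)
    convert this using 1
    module

private theorem w_rel (R : Conf σ) (hσ : AllOdd σ) {a b : H}
    (h : Relation.EqvGen (fun a b => b = σ a ∨ b = R.τ a ∨ R.face b = R.β (R.face a)) a b) :
    InV R (wv R a + wv R b) := by
  induction h with
  | rel a b hab =>
    rcases hab with rfl | rfl | hab
    · exact w_sigma R hσ a
    · have h1 : wv R (R.τ a) = wv R (σ a) := by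
        unfold wv
        rw [face_tau]
      rw [h1]
      exact w_sigma R hσ a
    · have h1 : wv R b = wv R a := by
        unfold wv
        rw [hab, cyc_apply]
      rw [h1]
      have := two_w R hσ a
      convert this using 1
      module
  | refl a =>
    have := two_w R hσ a
    convert this using 1
    module
  | symm a b _ ih =>
    rwa [add_comm] 
  | trans a b c _ _ ih1 ih2 =>
    have := (ih1.add ih2).add ((two_w R hσ b).smul (-1))
    convert this using 1
    module

theorem P_im (R : Conf σ) (hσ : AllOdd σ) (hR : R.Conn) (c c' : R.Cyl) :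
    ∃ z : R.Edge → ℤ, ∀ c'' : R.Cyl, ∑ e, ((R.P c'' false e : ℤ) - R.P c'' true e) * z e =
      (by classical exact (if c'' = c then 1 else 0) + (if c'' = c' then 1 else 0)) := by
  obtain ⟨f, hf⟩ := cyc_surj c
  obtain ⟨h, hh⟩ : ∃ h, R.face h = f := cyc_surj f
  obtain ⟨f', hf'⟩ := cyc_surj c'
  obtain ⟨h', hh'⟩ : ∃ h, R.face h = f' := cyc_surj f'
  obtain ⟨z, hz⟩ := w_rel R hσ (hR h h')
  refine ⟨z, fun c'' => ?_⟩
  have h1 := hz c''
  rw [← sum_P_gen R c'' false z, ← sum_P_gen R c'' true z, ← Finset.sum_sub_distrib] at h1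
  have h2 : ∀ e, ((R.P c'' false e : ℤ) - R.P c'' true e) * z e =
      (R.P c'' false e : ℤ) * z e - (R.P c'' true e : ℤ) * z e := fun e => by ring
  rw [Finset.sum_congr rfl fun e _ => h2 e, h1]
  simp only [Pi.add_apply, wv, hh, hh', hf, hf']
  congr 1
  · by_cases hc : c'' = c
    · simp [hc]
    · simp [hc, Ne.symm hc]
  · by_cases hc : c'' = c'
    · simp [hc]
    · simp [hc, Ne.symm hc]

/-- every face function `f` is hit up to a factor 2: `2·1_f` is the perimeter vector of an integer vector -/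
theorem P_two (R : Conf σ) (hσ : AllOdd σ) (f : R.Face) :
    ∃ z : R.Edge → ℤ, ∀ f' : R.Face, R.per z f' = (by classical exact if f' = f then 2 else 0) := by
  obtain ⟨h, hh⟩ : ∃ h, R.face h = f := cyc_surj f
  obtain ⟨z, hz⟩ := two_face R hσ h
  refine ⟨z, fun f' => ?_⟩
  rw [hz, hh]
  by_cases hc : f' = f
  · simp [hc]
  · simp [hc, Ne.symm hc]

theorem adm_of_good (R : Conf σ) (hσ : AllOdd σ) (hR : R.Conn) (hg : R.Good) : Adm R.P := by
  refine ⟨P_col R, ?_, P_im R hσ hR⟩
  obtain ⟨u, hu, hb⟩ := hg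
  refine ⟨u, hu, fun c => ?_⟩
  rw [sum_P_nat, sum_P_nat]
  exact hb c.rep

end Pool.Agent.Helper60.MV
end

/- Helper62.MVC2.GenDef -/
section
/-!
Project MV, block C2: regularised volumes written with faces instead of cylinders.
-/

namespace Pool.Agent.Helper62.MVC2

open Finset MeasureTheory Filter Topology Pool.Agent.Helper60.MV

/-- the integrand of an incidence system: faces `F` with a pairing `β`, edges `ι`, weights `W`
(number of half-edges of an edge in a face), shifts `ξ`; the square root distributes the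
symmetric kernel of a cylinder over its two faces -/
noncomputable def GI {F ι : Type} [Fintype F] [Fintype ι] (β : F → F) (W : F → ι → ℕ) (ε : ℝ)
    (ξ : F → ℝ) (x : ι → ℝ) : ℝ :=
  ∏ f, Real.sqrt (kern ε (∑ e, (W f e : ℝ) * x e + ξ f)
    (∑ e, (W (β f) e : ℝ) * x e + ξ (β f)))

/-- regularised volume of an incidence system -/
noncomputable def GA {F ι : Type} [Fintype F] [Fintype ι] (β : F → F) (W : F → ι → ℕ) (ε : ℝ)
    (ξ : F → ℝ) : ℝ :=
  ∫ x in {x : ι → ℝ | ∀ e, 0 < x e}, GI β W ε ξ x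

/-- number of half-edges of the edge `e` in the face `f` -/
noncomputable def wt {H : Type} [Fintype H] {σ : Equiv.Perm H} (R : Conf σ) (f : R.Face)
    (e : R.Edge) : ℕ := by
  classical
  exact (univ.filter (fun h : H => R.face h = f ∧ R.edge h = e)).card

/-- sub-configuration: the half-edges of `R'` are embedded by `j` in those of `R` -/
structure Emb {H H' : Type} {σ : Equiv.Perm H} {σ' : Equiv.Perm H'} (R : Conf σ) (R' : Conf σ')
    (j : H' → H) : Prop where
  inj : Function.Injective j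
  tau : ∀ h, R.τ (j h) = j (R'.τ h)
  face : ∀ h h', R.face (j h) = R.face (j h') ↔ R'.face h = R'.face h'
  beta : ∀ h h', R.β (R.face (j h)) = R.face (j h') ↔ R'.β (R'.face h) = R'.face h'

end Pool.Agent.Helper62.MVC2
end

/- Helper62.MVC2.Gen -/
section
/-!
MV-C2-1. Basic properties of `GI`, `GA`.

Proofs.
* `GI_nonneg`: product of square roots.
* `GI_continuous`: `kern` is continuous (`kern_continuous`), sums are continuous, `Real.continuous_sqrt`.
* `GI_le`: for `β` an involution, `x ≥ 0`, `ξ ≥ 0`, `0 < ε ≤ 1/2`: each factor is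
  `sqrt (kern ε p p') ≤ sqrt 10 * exp (-(9/40) (p + p')) * sqrt (corr ε (p - p'))` (`kern_exp9`); we use only
  `corr ≤ 1/ε` (`corr_le`), so the factor is `≤ (10/ε + 1) exp (-(9/40)(p+p'))` (as `sqrt a ≤ a + 1`), and
  `∑_f (p_f + p_{β f}) = 2 ∑_f p_f ≥ 2 ∑_e (∑_f W f e) x_e ≥ 2 ∑_e x_e` if every column has a positive entry
  (reindex the sum by the involution `β`; `ξ ≥ 0`). So `GI ≤ (10/ε+1)^|F| exp (-(9/20) ∑_e x_e)`. Note that the
  perimeters `p_f = ∑_e W f e x_e + ξ_f` are `≥ 0`.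
* `GI_integrableOn`: continuous (so measurable) and dominated on the orthant by a product of exponentials
  (`integrableOn_exp...`, product of integrable functions on a pi type: `MeasureTheory.Integrable.fintype_prod`
  applied to the indicator functions, or `MeasureTheory.Measure.restrict_pi_pi`).
* `A_eq_GA`: `R.P c b e = wt R (R.cface c b) e` (definitional), faces are enumerated by `cface` (`cface_bij`),
  `R.β (R.cface c false) = R.cface c true` and conversely (`β` is an involution, `R.cface c false = c.rep`), `kern_symm`,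
  `sqrt k * sqrt k = k` for `k ≥ 0` (`kern_nonneg`).
-/

namespace Pool.Agent.Helper62.MVC2

open Finset MeasureTheory Filter Topology Pool.Agent.Helper60.MV

theorem GI_nonneg {F ι : Type} [Fintype F] [Fintype ι] (β : F → F) (W : F → ι → ℕ) (ε : ℝ)
    (ξ : F → ℝ) (x : ι → ℝ) : 0 ≤ GI β W ε ξ x := by
  unfold GI
  exact Finset.prod_nonneg (fun f _ => Real.sqrt_nonneg _)

theorem GA_nonneg {F ι : Type} [Fintype F] [Fintype ι] (β : F → F) (W : F → ι → ℕ) (ε : ℝ)
    (ξ : F → ℝ) : 0 ≤ GA β W ε ξ := by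
  unfold GA
  exact integral_nonneg (fun x => GI_nonneg β W ε ξ x)

theorem GI_continuous {F ι : Type} [Fintype F] [Fintype ι] (β : F → F) (W : F → ι → ℕ) (ε : ℝ)
    (hε : 0 < ε) (ξ : F → ℝ) : Continuous (GI β W ε ξ) := by
  unfold GI
  refine continuous_finset_prod _ (fun f _ => ?_)
  refine Real.continuous_sqrt.comp ?_
  have h1 : Continuous (fun x : ι → ℝ => ((∑ e, (W f e : ℝ) * x e + ξ f,
      ∑ e, (W (β f) e : ℝ) * x e + ξ (β f)) : ℝ × ℝ)) := by
    refine Continuous.prodMk ?_ ?_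
    · exact (continuous_finset_sum _ (fun e _ => continuous_const.mul (continuous_apply e))).add
        continuous_const
    · exact (continuous_finset_sum _ (fun e _ => continuous_const.mul (continuous_apply e))).add
        continuous_const
  exact (kern_continuous ε hε).comp h1

private theorem fac_le (ε : ℝ) (hε : 0 < ε) (hε2 : ε ≤ 1 / 2) (p p' : ℝ) (hp : 0 ≤ p) (hp' : 0 ≤ p') :
    Real.sqrt (kern ε p p') ≤ (10 / ε + 1) * Real.exp (-(9 / 40 * (p + p'))) := by
  have h1 := kern_exp9 ε hε hε2 p p' hp hp'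
  have h2 := corr_le ε hε (p - p')
  rw [← one_div] at h2
  have h10 : 0 < 10 / ε := by positivity
  apply Real.sqrt_le_iff.2
  refine ⟨by positivity, ?_⟩
  have h3 : 10 * Real.exp (-(9 / 20 * (p + p'))) * corr ε (p - p') ≤
      10 * Real.exp (-(9 / 20 * (p + p'))) * (1 / ε) :=
    mul_le_mul_of_nonneg_left h2 (by positivity)
  have h4 : Real.exp (-(9 / 40 * (p + p'))) ^ 2 = Real.exp (-(9 / 20 * (p + p'))) := by
    rw [← Real.exp_nat_mul]
    congr 1
    push_cast
    ring
  rw [mul_pow, h4]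
  have h5 : 10 * Real.exp (-(9 / 20 * (p + p'))) * (1 / ε) =
      10 / ε * Real.exp (-(9 / 20 * (p + p'))) := by
    ring
  rw [h5] at h3
  refine h1.trans (h3.trans ?_)
  apply mul_le_mul_of_nonneg_right _ (Real.exp_pos _).le
  nlinarith

theorem GI_le {F ι : Type} [Fintype F] [Fintype ι] (β : F → F) (hβ : ∀ f, β (β f) = f)
    (W : F → ι → ℕ) (hW : ∀ e, ∃ f, 0 < W f e) (ε : ℝ) (hε : 0 < ε) (hε2 : ε ≤ 1 / 2)
    (ξ : F → ℝ) (hξ : ∀ f, 0 ≤ ξ f) (x : ι → ℝ) (hx : ∀ e, 0 ≤ x e) :
    GI β W ε ξ x ≤ (10 / ε + 1) ^ (Fintype.card F) * Real.exp (-(9 / 20 * ∑ e, x e)) := by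
  unfold GI
  set p : F → ℝ := fun f => ∑ e, (W f e : ℝ) * x e + ξ f with hp
  have hp0 : ∀ f, 0 ≤ p f := by
    intro f
    rw [hp]
    exact add_nonneg (Finset.sum_nonneg (fun e _ => mul_nonneg (Nat.cast_nonneg _) (hx e))) (hξ f)
  have h1 : ∏ f, Real.sqrt (kern ε (p f) (p (β f))) ≤
      ∏ f, ((10 / ε + 1) * Real.exp (-(9 / 40 * (p f + p (β f))))) :=
    Finset.prod_le_prod (fun f _ => Real.sqrt_nonneg _)
      (fun f _ => fac_le ε hε hε2 (p f) (p (β f)) (hp0 f) (hp0 (β f)))
  refine h1.trans ?_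
  rw [Finset.prod_mul_distrib, Finset.prod_const, ← Real.exp_sum, Finset.card_univ]
  apply mul_le_mul_of_nonneg_left _ (by positivity)
  apply Real.exp_le_exp.2
  rw [Finset.sum_neg_distrib, neg_le_neg_iff, ← Finset.mul_sum, Finset.sum_add_distrib]
  have h2 : ∑ f, p (β f) = ∑ f, p f :=
    Equiv.sum_comp (Function.Involutive.toPerm β hβ) p
  rw [h2]
  have h3 : ∑ e, x e ≤ ∑ f, p f := by
    have h4 : ∑ f, ∑ e, (W f e : ℝ) * x e ≤ ∑ f, p f := by
      refine Finset.sum_le_sum (fun f _ => ?_)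
      rw [hp]
      simp only
      linarith [hξ f]
    refine le_trans ?_ h4
    rw [Finset.sum_comm]
    refine Finset.sum_le_sum (fun e _ => ?_)
    obtain ⟨f, hf⟩ := hW e
    have h5 : (W f e : ℝ) * x e ≤ ∑ f, (W f e : ℝ) * x e :=
      Finset.single_le_sum (f := fun f => (W f e : ℝ) * x e)
        (fun f _ => mul_nonneg (Nat.cast_nonneg _) (hx e)) (Finset.mem_univ f)
    have h6 : (1 : ℝ) ≤ (W f e : ℝ) := by exact_mod_cast hf
    have h7 := mul_le_mul_of_nonneg_right h6 (hx e)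
    linarith
  linarith

theorem GI_integrableOn {F ι : Type} [Fintype F] [Fintype ι] (β : F → F) (hβ : ∀ f, β (β f) = f)
    (W : F → ι → ℕ) (hW : ∀ e, ∃ f, 0 < W f e) (ε : ℝ) (hε : 0 < ε) (hε2 : ε ≤ 1 / 2)
    (ξ : F → ℝ) (hξ : ∀ f, 0 ≤ ξ f) :
    IntegrableOn (GI β W ε ξ) {x : ι → ℝ | ∀ e, 0 < x e} := by
  have hset : {x : ι → ℝ | ∀ e, 0 < x e} = Set.pi Set.univ (fun _ : ι => Set.Ioi (0:ℝ)) := by
    ext x
    simp
  have hms : MeasurableSet {x : ι → ℝ | ∀ e, 0 < x e} := by
    rw [hset]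
    exact MeasurableSet.univ_pi (fun _ => measurableSet_Ioi)
  have hb : IntegrableOn (fun x : ι → ℝ => (10 / ε + 1) ^ (Fintype.card F) *
      Real.exp (-(9 / 20 * ∑ e, x e))) {x : ι → ℝ | ∀ e, 0 < x e} := by
    apply Integrable.const_mul
    rw [hset]
    have h1 : (volume : Measure (ι → ℝ)).restrict (Set.pi Set.univ (fun _ : ι => Set.Ioi (0:ℝ))) =
        Measure.pi (fun _ : ι => (volume : Measure ℝ).restrict (Set.Ioi (0:ℝ))) := by
      rw [volume_pi, Measure.restrict_pi_pi]
    rw [h1]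
    have h2 : (fun x : ι → ℝ => Real.exp (-(9 / 20 * ∑ e, x e))) =
        fun x : ι → ℝ => ∏ e, Real.exp (-(9 / 20) * x e) := by
      funext x
      rw [← Real.exp_sum, ← Finset.mul_sum]
      congr 1
      ring
    rw [h2]
    exact Integrable.fintype_prod (fun _ => exp_neg_integrableOn_Ioi 0 (by norm_num))
  refine Integrable.mono' hb ((GI_continuous β W ε hε ξ).aestronglyMeasurable) ?_
  refine (ae_restrict_mem hms).mono (fun x hx => ?_)
  rw [Real.norm_eq_abs, abs_of_nonneg (GI_nonneg β W ε ξ x)]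
  exact GI_le β hβ W hW ε hε hε2 ξ hξ x (fun e => (hx e).le)

theorem A_eq_GA {H : Type} [Fintype H] {σ : Equiv.Perm H} (R : Conf σ) (ε : ℝ) (hε : 0 < ε)
    (ξ : R.Face → ℝ) : R.A ε ξ = GA R.β (wt R) ε ξ := by
  unfold Conf.A AM GA
  congr 1
  funext x
  unfold GI
  set p : R.Face → ℝ := fun f => ∑ e, (wt R f e : ℝ) * x e + ξ f with hp
  show ∏ c, kern ε (p (R.cface c false)) (p (R.cface c true)) =
    ∏ f, Real.sqrt (kern ε (p f) (p (R.β f)))
  have h1 : ∏ f, Real.sqrt (kern ε (p f) (p (R.β f))) =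
      ∏ q : R.Cyl × Bool, Real.sqrt (kern ε (p (R.cface q.1 q.2)) (p (R.β (R.cface q.1 q.2)))) :=
    (Function.Bijective.prod_comp (cface_bij R)
      (fun f => Real.sqrt (kern ε (p f) (p (R.β f))))).symm
  rw [h1, Fintype.prod_prod_type]
  refine Finset.prod_congr rfl (fun c _ => ?_)
  rw [Fintype.prod_bool]
  have h2 : R.β (R.cface c false) = R.cface c true := rfl
  have h3 : R.β (R.cface c true) = R.cface c false := R.hβ.invol _
  simp only [h2, h3]
  rw [kern_symm ε (p (R.cface c true)) (p (R.cface c false)),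
    Real.mul_self_sqrt (kern_nonneg ε hε _ _)]

theorem A_nonneg {H : Type} [Fintype H] {σ : Equiv.Perm H} (R : Conf σ) (ε : ℝ) (hε : 0 < ε)
    (ξ : R.Face → ℝ) : 0 ≤ R.A ε ξ := by
  rw [A_eq_GA R ε hε ξ]
  exact GA_nonneg _ _ _ _

/-- the integrand vanishes unless paired faces have nearly equal perimeters -/
theorem GI_ne_zero {F ι : Type} [Fintype F] [Fintype ι] (β : F → F)
    (W : F → ι → ℕ) (ε : ℝ) (hε : 0 < ε) (ξ : F → ℝ) (x : ι → ℝ) (h : GI β W ε ξ x ≠ 0) (f : F) :
    |(∑ e, (W f e : ℝ) * x e + ξ f) - (∑ e, (W (β f) e : ℝ) * x e + ξ (β f))| < 2 * ε := by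
  by_contra hcon
  rw [not_lt] at hcon
  apply h
  unfold GI
  apply Finset.prod_eq_zero (Finset.mem_univ f)
  rw [kern_zero ε hε _ _ hcon, Real.sqrt_zero]

end Pool.Agent.Helper62.MVC2
end

/- Helper62.MVC2.Prod -/
section
/-!
MV-C2-2. Relabelling and products of regularised volumes.

Proofs.
* `GA_equiv`: substitution `x ↦ x ∘ b` (the map `(ι' → ℝ) → (ι → ℝ)` given by `b` preserves the volume:
  `MeasureTheory.volume_measurePreserving_piCongrLeft`), it maps the orthant to the orthant, and the integrand `GI` is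
  reindexed by `a`, `b` (`Fintype.prod_equiv`, `Fintype.sum_equiv`).
* `GA_prod`: by `GA_equiv`-type reindexing the integrand of `F` is the product of the integrands (`Fintype.prod_sum_type`,
  the cross terms are zero) and the volume on `ι₁ ⊕ ι₂ → ℝ` is the product (`MeasureTheory.volume_preserving_sumPiEquivProdPi`),
  the orthant is the product of the orthants, `MeasureTheory.setIntegral_prod_mul` (no integrability needed).
-/

namespace Pool.Agent.Helper62.MVC2

open Finset MeasureTheory Filter Topology Pool.Agent.Helper60.MV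

theorem GI_equiv' {F ι F' ι' : Type} [Fintype F] [Fintype ι] [Fintype F'] [Fintype ι']
    (β : F → F) (W : F → ι → ℕ) (ε : ℝ) (ξ : F → ℝ) (β' : F' → F') (W' : F' → ι' → ℕ)
    (ξ' : F' → ℝ) (a : F ≃ F') (b : ι ≃ ι') (hβ : ∀ f, β' (a f) = a (β f))
    (hW : ∀ f e, W' (a f) (b e) = W f e) (hξ : ∀ f, ξ' (a f) = ξ f)
    (x : ι → ℝ) (x' : ι' → ℝ) (hx : ∀ e, x' (b e) = x e) :
    GI β W ε ξ x = GI β' W' ε ξ' x' := by
  have hs : ∀ f, ∑ e, (W f e : ℝ) * x e + ξ f = ∑ e, (W' (a f) e : ℝ) * x' e + ξ' (a f) := by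
    intro f
    rw [hξ f]
    congr 1
    refine Fintype.sum_equiv b _ _ (fun e => ?_)
    rw [hW, hx]
  unfold GI
  refine Fintype.prod_equiv a _ _ (fun f => ?_)
  rw [hs f, hs (β f), hβ f]

theorem GA_equiv {F ι F' ι' : Type} [Fintype F] [Fintype ι] [Fintype F'] [Fintype ι']
    (β : F → F) (W : F → ι → ℕ) (ε : ℝ) (ξ : F → ℝ) (β' : F' → F') (W' : F' → ι' → ℕ)
    (ξ' : F' → ℝ) (a : F ≃ F') (b : ι ≃ ι') (hβ : ∀ f, β' (a f) = a (β f))
    (hW : ∀ f e, W' (a f) (b e) = W f e) (hξ : ∀ f, ξ' (a f) = ξ f) :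
    GA β W ε ξ = GA β' W' ε ξ' := by
  have hmp := volume_measurePreserving_piCongrLeft (fun _ : ι' => ℝ) b
  have hemb : MeasurableEmbedding (MeasurableEquiv.piCongrLeft (fun _ : ι' => ℝ) b) :=
    (MeasurableEquiv.piCongrLeft (fun _ : ι' => ℝ) b).measurableEmbedding
  have hap : ∀ (x : ι → ℝ) (e : ι), (MeasurableEquiv.piCongrLeft (fun _ : ι' => ℝ) b) x (b e)
      = x e := by
    intro x e
    rw [MeasurableEquiv.coe_piCongrLeft]
    exact Equiv.piCongrLeft_apply_apply (fun _ : ι' => ℝ) b x e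
  have hset : (MeasurableEquiv.piCongrLeft (fun _ : ι' => ℝ) b) ⁻¹' {x : ι' → ℝ | ∀ e, 0 < x e}
      = {x : ι → ℝ | ∀ e, 0 < x e} := by
    ext x
    simp only [Set.mem_preimage, Set.mem_setOf_eq]
    constructor
    · intro h e
      have := h (b e)
      rwa [hap] at this
    · intro h e'
      obtain ⟨e, rfl⟩ := b.surjective e'
      rw [hap]
      exact h e
  unfold GA
  rw [← hmp.setIntegral_preimage_emb hemb (GI β' W' ε ξ') {x : ι' → ℝ | ∀ e, 0 < x e}, hset]
  refine integral_congr_ae (Filter.Eventually.of_forall (fun x => ?_))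
  exact GI_equiv' β W ε ξ β' W' ξ' a b hβ hW hξ x _ (fun e => hap x e)

theorem GA_prod {F₁ F₂ ι₁ ι₂ F ι : Type} [Fintype F₁] [Fintype F₂] [Fintype ι₁] [Fintype ι₂]
    [Fintype F] [Fintype ι] (β₁ : F₁ → F₁) (β₂ : F₂ → F₂) (β : F → F) (W₁ : F₁ → ι₁ → ℕ)
    (W₂ : F₂ → ι₂ → ℕ) (W : F → ι → ℕ) (ε : ℝ) (ξ₁ : F₁ → ℝ) (ξ₂ : F₂ → ℝ) (ξ : F → ℝ)
    (a : F₁ ⊕ F₂ ≃ F) (b : ι₁ ⊕ ι₂ ≃ ι)
    (hβ₁ : ∀ f, β (a (Sum.inl f)) = a (Sum.inl (β₁ f)))
    (hβ₂ : ∀ f, β (a (Sum.inr f)) = a (Sum.inr (β₂ f)))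
    (h11 : ∀ f e, W (a (Sum.inl f)) (b (Sum.inl e)) = W₁ f e)
    (h12 : ∀ f e, W (a (Sum.inl f)) (b (Sum.inr e)) = 0)
    (h21 : ∀ f e, W (a (Sum.inr f)) (b (Sum.inl e)) = 0)
    (h22 : ∀ f e, W (a (Sum.inr f)) (b (Sum.inr e)) = W₂ f e)
    (hξ₁ : ∀ f, ξ (a (Sum.inl f)) = ξ₁ f) (hξ₂ : ∀ f, ξ (a (Sum.inr f)) = ξ₂ f) :
    GA β W ε ξ = GA β₁ W₁ ε ξ₁ * GA β₂ W₂ ε ξ₂ := by
  have hmp := measurePreserving_sumPiEquivProdPi (X := fun _ : ι₁ ⊕ ι₂ => ℝ)
    (fun _ => (volume : Measure ℝ))
  have hemb : MeasurableEmbedding (MeasurableEquiv.sumPiEquivProdPi (fun _ : ι₁ ⊕ ι₂ => ℝ)) :=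
    (MeasurableEquiv.sumPiEquivProdPi (fun _ : ι₁ ⊕ ι₂ => ℝ)).measurableEmbedding
  have hap1 : ∀ (x : ι₁ ⊕ ι₂ → ℝ) (e : ι₁),
      ((MeasurableEquiv.sumPiEquivProdPi (fun _ : ι₁ ⊕ ι₂ => ℝ)) x).1 e = x (Sum.inl e) := by
    intro x e
    rfl
  have hap2 : ∀ (x : ι₁ ⊕ ι₂ → ℝ) (e : ι₂),
      ((MeasurableEquiv.sumPiEquivProdPi (fun _ : ι₁ ⊕ ι₂ => ℝ)) x).2 e = x (Sum.inr e) := by
    intro x e
    rfl
  have hset : (MeasurableEquiv.sumPiEquivProdPi (fun _ : ι₁ ⊕ ι₂ => ℝ)) ⁻¹'
      ({x : ι₁ → ℝ | ∀ e, 0 < x e} ×ˢ {x : ι₂ → ℝ | ∀ e, 0 < x e})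
      = {x : ι₁ ⊕ ι₂ → ℝ | ∀ e, 0 < x e} := by
    ext x
    simp only [Set.mem_preimage, Set.mem_prod, Set.mem_setOf_eq]
    constructor
    · rintro ⟨h1, h2⟩ e
      rcases e with e | e
      · have := h1 e
        rwa [hap1] at this
      · have := h2 e
        rwa [hap2] at this
    · intro h
      exact ⟨fun e => by rw [hap1]; exact h _, fun e => by rw [hap2]; exact h _⟩
  -- reindex to the sum
  rw [← GA_equiv (F := F₁ ⊕ F₂) (ι := ι₁ ⊕ ι₂) (F' := F) (ι' := ι) (fun f => a.symm (β (a f)))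
    (fun f e => W (a f) (b e)) ε (fun f => ξ (a f)) β W ξ a b (fun f => by simp)
    (fun f e => rfl) (fun f => rfl)]
  have hGI : ∀ x : ι₁ ⊕ ι₂ → ℝ,
      GI (fun f => a.symm (β (a f))) (fun f e => W (a f) (b e)) ε (fun f => ξ (a f)) x
      = GI β₁ W₁ ε ξ₁ (fun e => x (Sum.inl e)) * GI β₂ W₂ ε ξ₂ (fun e => x (Sum.inr e)) := by
    intro x
    have hs1 : ∀ f, ∑ e, (W (a (Sum.inl f)) (b e) : ℝ) * x e + ξ (a (Sum.inl f))
        = ∑ e, (W₁ f e : ℝ) * x (Sum.inl e) + ξ₁ f := by
      intro f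
      rw [hξ₁, Fintype.sum_sum_type]
      simp only [h11, h12, Nat.cast_zero, zero_mul, Finset.sum_const_zero, add_zero]
    have hs2 : ∀ f, ∑ e, (W (a (Sum.inr f)) (b e) : ℝ) * x e + ξ (a (Sum.inr f))
        = ∑ e, (W₂ f e : ℝ) * x (Sum.inr e) + ξ₂ f := by
      intro f
      rw [hξ₂, Fintype.sum_sum_type]
      simp only [h21, h22, Nat.cast_zero, zero_mul, Finset.sum_const_zero, zero_add]
    unfold GI
    rw [Fintype.prod_sum_type]
    congr 1
    · refine Finset.prod_congr rfl (fun f _ => ?_)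
      have e1 : a.symm (β (a (Sum.inl f))) = Sum.inl (β₁ f) := by
        rw [hβ₁, Equiv.symm_apply_apply]
      simp only [e1]
      rw [hs1 f, hs1 (β₁ f)]
    · refine Finset.prod_congr rfl (fun f _ => ?_)
      have e1 : a.symm (β (a (Sum.inr f))) = Sum.inr (β₂ f) := by
        rw [hβ₂, Equiv.symm_apply_apply]
      simp only [e1]
      rw [hs2 f, hs2 (β₂ f)]
  have hvol : (volume : Measure (ι₁ ⊕ ι₂ → ℝ)) = Measure.pi (fun _ => (volume : Measure ℝ)) :=
    volume_pi
  have h3 := hmp.setIntegral_preimage_emb hemb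
    (fun z : (ι₁ → ℝ) × (ι₂ → ℝ) => GI β₁ W₁ ε ξ₁ z.1 * GI β₂ W₂ ε ξ₂ z.2)
    ({x : ι₁ → ℝ | ∀ e, 0 < x e} ×ˢ {x : ι₂ → ℝ | ∀ e, 0 < x e})
  rw [hset, setIntegral_prod_mul] at h3
  unfold GA
  rw [volume_pi, volume_pi, volume_pi, ← h3]
  refine integral_congr_ae (Filter.Eventually.of_forall (fun x => ?_))
  exact hGI x

end Pool.Agent.Helper62.MVC2
end

/- Helper62.MVC2.EmbL -/
section
/-!
MV-C2-8. Sub-configurations (`Emb`), products.

Proofs.
* `conf_ext`: `cases R; cases R'`, `subst` the equality of `τ`; then `β = β'` by evaluating the hypothesis at `h` and a representative `h'`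
  of `R.β (R.face h)` (every face is `R.face h'`, `Quotient.exists_rep`).
* `Emb.edge`: `R.edge (j h) = R.edge (j h') ↔ R'.edge h = R'.edge h'`: `SameCycle` for `τ` (`(τ^k)(j h) = j (τ'^k h)`, `k : ℤ`), injectivity.
* `emb_exists`: `φ = σ * R.τ`. Define `τ'` by `j (τ' h) = R.τ (j h)` (`hτ`, injectivity; it is a fixed point free involution).
  `(σ' * τ')` is `φ` transported by `j`: `j ((σ' * τ') h) = φ (j h)`, so `R.face (j h) = R.face (j h')` iff the faces of `h, h'` for `σ' * τ'` agree.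
  `β'`: for a face `f' = face' h`, `R.β (R.face (j h))` is some `R.face h₂` and `h₂ = j h''` by `hβ`; `β' f' = face' h''`; well defined and an
  involution without fixed points. (Build `β'` from the function `Function.Involutive.toPerm`.)
* `emb_prod`: maps `Face' ⊕ Face'' → Face`, `face' h ↦ R.face (j' h)` etc. (`Quotient.lift`) are bijective by `face`, `cover`, `disj`; same for the
  edges (`R.edge (j' h) ≠ R.edge (j'' h')`: the `τ`-cycle of `j' h` consists of `j' h, j' (τ' h)`, both in the range of `j'`, and an element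
  of both ranges would contradict `disj`). `wt R` is block diagonal with blocks `wt R'`, `wt R''` (`Finset.card` by the injections). Then
  `A_eq_GA` and `GA_prod` with `ξ = 0`.
* `emb_unique`: `conf_ext`. `τ` agrees by `cover` and `tau`. For `β` and `h, h'`: both in the range of `j'`: `beta`; both in the range of `j''`:
  `beta`; mixed: both sides are false: the partner of the face of `j' h` is `R.face (j' h₁)` for a representative `h₁` of
  `R'.β (R'.face h)`, which is not the face of a `j'' h'` (`disj`).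
-/

namespace Pool.Agent.Helper62.MVC2

open Finset MeasureTheory Filter Topology Pool.Agent.Helper60.MV

private theorem cyc_eq_same {H : Type} (g : Equiv.Perm H) (a b : H) :
    cyc g a = cyc g b ↔ g.SameCycle a b :=
  Quotient.eq (r := Equiv.Perm.SameCycle.setoid g)

private theorem cyc_pair {H : Type} {τ : Equiv.Perm H} (hτ : IsPairing τ) (x y : H) :
    cyc τ x = cyc τ y ↔ x = y ∨ x = τ y := by
  rw [cyc_eq_same]
  have hsq : τ ^ 2 = 1 := by
    ext z
    rw [pow_two, Equiv.Perm.mul_apply, hτ.invol, Equiv.Perm.one_apply]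
  have hsq' : τ ^ (2 : ℤ) = 1 := by exact_mod_cast hsq
  constructor
  · rintro ⟨n, hn⟩
    rcases Int.even_or_odd n with ⟨m, rfl⟩ | ⟨m, rfl⟩
    · left
      have h2 : τ ^ (m + m) = 1 := by
        rw [← two_mul, zpow_mul, hsq', one_zpow]
      rw [h2, Equiv.Perm.one_apply] at hn
      exact hn
    · right
      have h2 : τ ^ (2 * m + 1) = τ := by
        rw [zpow_add, zpow_mul, hsq', one_zpow, one_mul, zpow_one]
      rw [h2] at hn
      rw [← hn, hτ.invol]
  · rintro (rfl | rfl)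
    · exact Equiv.Perm.SameCycle.refl _ _
    · exact ⟨1, by rw [zpow_one, hτ.invol]⟩

private theorem cyc_rep_pv1 {H : Type} {g : Equiv.Perm H} (c : Cyc g) : cyc g c.rep = c :=
  Quotient.out_eq c

private theorem cyc_exists {H : Type} {g : Equiv.Perm H} (c : Cyc g) : ∃ h, cyc g h = c :=
  ⟨c.rep, cyc_rep_pv1 c⟩

private theorem zpow_semi {H H' : Type} (g : Equiv.Perm H) (g' : Equiv.Perm H') (j : H' → H)
    (hg : ∀ h, g (j h) = j (g' h)) (k : ℤ) (h : H') : (g ^ k) (j h) = j ((g' ^ k) h) := by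
  have hinv : ∀ h, g⁻¹ (j h) = j (g'⁻¹ h) := by
    intro h
    rw [Equiv.Perm.inv_eq_iff_eq, hg]
    exact congrArg j (g'.apply_symm_apply h).symm
  induction k using Int.induction_on generalizing h with
  | zero => simp
  | succ n ih =>
    rw [zpow_add_one, zpow_add_one, Equiv.Perm.mul_apply, Equiv.Perm.mul_apply, hg, ih]
  | pred n ih =>
    rw [zpow_sub_one, zpow_sub_one, Equiv.Perm.mul_apply, Equiv.Perm.mul_apply, hinv, ih]

private theorem cyc_semi {H H' : Type} (g : Equiv.Perm H) (g' : Equiv.Perm H') (j : H' → H)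
    (hj : Function.Injective j) (hg : ∀ h, g (j h) = j (g' h)) (a b : H') :
    cyc g (j a) = cyc g (j b) ↔ cyc g' a = cyc g' b := by
  rw [cyc_eq_same, cyc_eq_same]
  constructor
  · rintro ⟨k, hk⟩
    rw [zpow_semi g g' j hg] at hk
    exact ⟨k, hj hk⟩
  · rintro ⟨k, hk⟩
    exact ⟨k, by rw [zpow_semi g g' j hg, hk]⟩

theorem conf_ext {H : Type} {σ : Equiv.Perm H} (R R' : Conf σ) (hτ : R.τ = R'.τ)
    (hβ : ∀ h h', R.β (R.face h) = R.face h' ↔ R'.β (R'.face h) = R'.face h') : R = R' := by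
  obtain ⟨τ, h1, β, h2⟩ := R
  obtain ⟨τ', h1', β', h2'⟩ := R'
  simp only at hτ
  subst hτ
  have : β = β' := by
    apply Equiv.ext
    intro f
    obtain ⟨h, rfl⟩ := cyc_exists f
    obtain ⟨h', hh'⟩ := cyc_exists (β (cyc (σ * τ) h))
    have h3 := (hβ h h').1 hh'.symm
    exact hh'.symm.trans h3.symm
  subst this
  rfl

theorem Emb.edge {H H' : Type} {σ : Equiv.Perm H} {σ' : Equiv.Perm H'} {R : Conf σ}
    {R' : Conf σ'} {j : H' → H} (hE : Emb R R' j) (h h' : H') :
    R.edge (j h) = R.edge (j h') ↔ R'.edge h = R'.edge h' :=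
  cyc_semi R.τ R'.τ j hE.inj hE.tau h h'

theorem emb_exists {H H' : Type} {σ : Equiv.Perm H} {σ' : Equiv.Perm H'} (R : Conf σ)
    (j : H' → H) (hj : Function.Injective j) (hσ : ∀ h, σ (j h) = j (σ' h))
    (hτ : ∀ h, ∃ h', R.τ (j h) = j h')
    (hβ : ∀ h h', R.β (R.face (j h)) = R.face h' → ∃ h'', j h'' = h') :
    ∃ R' : Conf σ', Emb R R' j := by
  choose t ht using hτ
  have htt : Function.Involutive t := by
    intro h
    apply hj
    rw [← ht, ← ht, R.hτ.invol]
  let τ' : Equiv.Perm H' := htt.toPerm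
  have hτ'app : ∀ h, τ' h = t h := fun h => rfl
  have hτ' : IsPairing τ' := by
    refine ⟨fun h => htt h, fun h hh => ?_⟩
    apply R.hτ.fpf (j h)
    rw [ht, ← hτ'app, hh]
  have hφ : ∀ h, (σ * R.τ) (j h) = j ((σ' * τ') h) := by
    intro h
    rw [Equiv.Perm.mul_apply, Equiv.Perm.mul_apply, ht, hσ, hτ'app]
  have hface : ∀ a b, R.face (j a) = R.face (j b) ↔ cyc (σ' * τ') a = cyc (σ' * τ') b :=
    fun a b => cyc_semi (σ * R.τ) (σ' * τ') j hj hφ a b
  have hu0 : ∀ h, ∃ h'', R.β (R.face (j h)) = R.face (j h'') := by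
    intro h
    obtain ⟨h', hh'⟩ := cyc_exists (R.β (R.face (j h)))
    obtain ⟨h'', rfl⟩ := hβ h h' hh'.symm
    exact ⟨h'', hh'.symm⟩
  choose u hu using hu0
  let B : Cyc (σ' * τ') → Cyc (σ' * τ') := fun f => cyc (σ' * τ') (u f.rep)
  have hB : ∀ h h', B (cyc (σ' * τ') h) = cyc (σ' * τ') h' ↔
      R.β (R.face (j h)) = R.face (j h') := by
    intro h h'
    show cyc (σ' * τ') (u (cyc (σ' * τ') h).rep) = cyc (σ' * τ') h' ↔ _
    rw [← hface, ← hu]
    have h3 : R.face (j (cyc (σ' * τ') h).rep) = R.face (j h) := by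
      rw [hface]
      exact cyc_rep_pv1 _
    rw [h3]
  have hBB : Function.Involutive B := by
    intro f
    obtain ⟨h, rfl⟩ := cyc_exists f
    obtain ⟨h', hh'⟩ := cyc_exists (B (cyc (σ' * τ') h))
    have h4 := (hB h h').1 hh'.symm
    rw [← hh', hB, ← h4, R.hβ.invol]
  let β' : Equiv.Perm (Cyc (σ' * τ')) := hBB.toPerm
  have hβ' : IsPairing β' := by
    refine ⟨fun f => hBB f, fun f hf => ?_⟩
    obtain ⟨h, rfl⟩ := cyc_exists f
    exact R.hβ.fpf _ ((hB h h).1 hf)
  exact ⟨⟨τ', hτ', β', hβ'⟩, ⟨hj, ht, hface, fun h h' => (hB h h').symm⟩⟩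

private theorem edge_range {H H' : Type} {σ : Equiv.Perm H}
    {σ' : Equiv.Perm H'} {R : Conf σ} {R' : Conf σ'} {j : H' → H} (hE : Emb R R' j) (h : H)
    (h' : H') (hh : R.edge h = R.edge (j h')) : ∃ h'', j h'' = h := by
  rcases (cyc_pair R.hτ h (j h')).1 hh with h1 | h1
  · exact ⟨h', h1.symm⟩
  · exact ⟨R'.τ h', by rw [h1, hE.tau]⟩

private theorem wt_emb {H H' : Type} [Fintype H] [Fintype H'] {σ : Equiv.Perm H}
    {σ' : Equiv.Perm H'} {R : Conf σ} {R' : Conf σ'} {j : H' → H} (hE : Emb R R' j) (a b : H') :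
    wt R (R.face (j a)) (R.edge (j b)) = wt R' (R'.face a) (R'.edge b) := by
  classical
  unfold wt
  symm
  refine Finset.card_bij (fun h _ => j h) ?_ ?_ ?_
  · intro h hh
    rw [Finset.mem_filter] at hh ⊢
    exact ⟨Finset.mem_univ _, (hE.face _ _).2 hh.2.1, (hE.edge _ _).2 hh.2.2⟩
  · intro h _ h' _ hhh
    exact hE.inj hhh
  · intro h hh
    rw [Finset.mem_filter] at hh
    obtain ⟨h'', rfl⟩ := edge_range hE h b hh.2.2
    refine ⟨h'', ?_, rfl⟩
    rw [Finset.mem_filter]
    exact ⟨Finset.mem_univ _, (hE.face _ _).1 hh.2.1, (hE.edge _ _).1 hh.2.2⟩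

private theorem wt_zero {H H' H'' : Type} [Fintype H] {σ : Equiv.Perm H}
    {σ' : Equiv.Perm H''} {R : Conf σ} {R' : Conf σ'} {j : H' → H}
    {j' : H'' → H} (hE : Emb R R' j') (disj : ∀ a b, R.face (j a) ≠ R.face (j' b)) (a : H')
    (b : H'') : wt R (R.face (j a)) (R.edge (j' b)) = 0 := by
  classical
  unfold wt
  rw [Finset.card_eq_zero, Finset.filter_eq_empty_iff]
  rintro h _ ⟨h1, h2⟩
  obtain ⟨h'', rfl⟩ := edge_range hE h b h2
  exact disj a h'' h1.symm

theorem emb_prod {H H' H'' : Type} [Fintype H] [Fintype H'] [Fintype H''] {σ : Equiv.Perm H}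
    {σ' : Equiv.Perm H'} {σ'' : Equiv.Perm H''} (R : Conf σ) (R' : Conf σ') (R'' : Conf σ'')
    (j' : H' → H) (j'' : H'' → H) (h1 : Emb R R' j') (h2 : Emb R R'' j'')
    (cover : ∀ h, (∃ a, j' a = h) ∨ ∃ b, j'' b = h)
    (disj : ∀ a b, R.face (j' a) ≠ R.face (j'' b)) (ε : ℝ) (hε : 0 < ε) :
    R.A ε 0 = R'.A ε 0 * R''.A ε 0 := by
  -- the maps on faces and edges
  let fa : R'.Face ⊕ R''.Face → R.Face :=
    Sum.elim (fun f => R.face (j' f.rep)) (fun f => R.face (j'' f.rep))
  let eb : R'.Edge ⊕ R''.Edge → R.Edge :=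
    Sum.elim (fun e => R.edge (j' e.rep)) (fun e => R.edge (j'' e.rep))
  have fa1 : ∀ h, fa (Sum.inl (R'.face h)) = R.face (j' h) := fun h =>
    (h1.face _ _).2 (cyc_rep_pv1 _)
  have fa2 : ∀ h, fa (Sum.inr (R''.face h)) = R.face (j'' h) := fun h =>
    (h2.face _ _).2 (cyc_rep_pv1 _)
  have eb1 : ∀ h, eb (Sum.inl (R'.edge h)) = R.edge (j' h) := fun h =>
    (h1.edge _ _).2 (cyc_rep_pv1 _)
  have eb2 : ∀ h, eb (Sum.inr (R''.edge h)) = R.edge (j'' h) := fun h =>
    (h2.edge _ _).2 (cyc_rep_pv1 _)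
  have disjE : ∀ a b, R.edge (j' a) ≠ R.edge (j'' b) := by
    intro a b hab
    obtain ⟨h'', hh⟩ := edge_range h2 (j' a) b hab
    exact disj a h'' (by rw [hh])
  have hfa : Function.Bijective fa := by
    constructor
    · rintro (f | f) (g | g) hfg
      · obtain ⟨a, rfl⟩ := cyc_exists f
        obtain ⟨b, rfl⟩ := cyc_exists g
        have h3 : R.face (j' a) = R.face (j' b) := by
          rw [← fa1, ← fa1]; exact hfg
        exact congrArg Sum.inl ((h1.face _ _).1 h3)
      · obtain ⟨a, rfl⟩ := cyc_exists f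
        obtain ⟨b, rfl⟩ := cyc_exists g
        exact absurd (show R.face (j' a) = R.face (j'' b) by
          rw [← fa1, ← fa2]; exact hfg) (disj a b)
      · obtain ⟨a, rfl⟩ := cyc_exists f
        obtain ⟨b, rfl⟩ := cyc_exists g
        exact absurd (show R.face (j' b) = R.face (j'' a) by
          rw [← fa1, ← fa2]; exact hfg.symm) (disj b a)
      · obtain ⟨a, rfl⟩ := cyc_exists f
        obtain ⟨b, rfl⟩ := cyc_exists g
        have h3 : R.face (j'' a) = R.face (j'' b) := by
          rw [← fa2, ← fa2]; exact hfg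
        exact congrArg Sum.inr ((h2.face _ _).1 h3)
    · intro f
      obtain ⟨h, rfl⟩ := cyc_exists f
      rcases cover h with ⟨a, rfl⟩ | ⟨b, rfl⟩
      · exact ⟨Sum.inl (R'.face a), fa1 a⟩
      · exact ⟨Sum.inr (R''.face b), fa2 b⟩
  have heb : Function.Bijective eb := by
    constructor
    · rintro (f | f) (g | g) hfg
      · obtain ⟨a, rfl⟩ := cyc_exists f
        obtain ⟨b, rfl⟩ := cyc_exists g
        have h3 : R.edge (j' a) = R.edge (j' b) := by
          rw [← eb1, ← eb1]; exact hfg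
        exact congrArg Sum.inl ((h1.edge _ _).1 h3)
      · obtain ⟨a, rfl⟩ := cyc_exists f
        obtain ⟨b, rfl⟩ := cyc_exists g
        exact absurd (show R.edge (j' a) = R.edge (j'' b) by
          rw [← eb1, ← eb2]; exact hfg) (disjE a b)
      · obtain ⟨a, rfl⟩ := cyc_exists f
        obtain ⟨b, rfl⟩ := cyc_exists g
        exact absurd (show R.edge (j' b) = R.edge (j'' a) by
          rw [← eb1, ← eb2]; exact hfg.symm) (disjE b a)
      · obtain ⟨a, rfl⟩ := cyc_exists f
        obtain ⟨b, rfl⟩ := cyc_exists g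
        have h3 : R.edge (j'' a) = R.edge (j'' b) := by
          rw [← eb2, ← eb2]; exact hfg
        exact congrArg Sum.inr ((h2.edge _ _).1 h3)
    · intro f
      obtain ⟨h, rfl⟩ := cyc_exists f
      rcases cover h with ⟨a, rfl⟩ | ⟨b, rfl⟩
      · exact ⟨Sum.inl (R'.edge a), eb1 a⟩
      · exact ⟨Sum.inr (R''.edge b), eb2 b⟩
  rw [A_eq_GA R ε hε, A_eq_GA R' ε hε, A_eq_GA R'' ε hε]
  refine GA_prod (R'.β) (R''.β) (R.β) (wt R') (wt R'') (wt R) ε 0 0 0
    (Equiv.ofBijective fa hfa) (Equiv.ofBijective eb heb) ?_ ?_ ?_ ?_ ?_ ?_ ?_ ?_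
  · intro f
    obtain ⟨a, rfl⟩ := cyc_exists f
    obtain ⟨b, hb⟩ := cyc_exists (R'.β (R'.face a))
    show R.β (fa (Sum.inl (R'.face a))) = fa (Sum.inl (R'.β (R'.face a)))
    have h3 : R'.β (R'.face a) = R'.face b := hb.symm
    rw [h3, fa1, fa1]
    exact (h1.beta a b).2 h3
  · intro f
    obtain ⟨a, rfl⟩ := cyc_exists f
    obtain ⟨b, hb⟩ := cyc_exists (R''.β (R''.face a))
    show R.β (fa (Sum.inr (R''.face a))) = fa (Sum.inr (R''.β (R''.face a)))
    have h3 : R''.β (R''.face a) = R''.face b := hb.symm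
    rw [h3, fa2, fa2]
    exact (h2.beta a b).2 h3
  · intro f e
    obtain ⟨a, rfl⟩ := cyc_exists f
    obtain ⟨b, rfl⟩ := cyc_exists e
    show wt R (fa (Sum.inl (R'.face a))) (eb (Sum.inl (R'.edge b))) = _
    rw [fa1, eb1]
    exact wt_emb h1 a b
  · intro f e
    obtain ⟨a, rfl⟩ := cyc_exists f
    obtain ⟨b, rfl⟩ := cyc_exists e
    show wt R (fa (Sum.inl (R'.face a))) (eb (Sum.inr (R''.edge b))) = _
    rw [fa1, eb2]
    exact wt_zero h2 disj a b
  · intro f e
    obtain ⟨a, rfl⟩ := cyc_exists f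
    obtain ⟨b, rfl⟩ := cyc_exists e
    show wt R (fa (Sum.inr (R''.face a))) (eb (Sum.inl (R'.edge b))) = _
    rw [fa2, eb1]
    exact wt_zero h1 (fun a b => (disj b a).symm) a b
  · intro f e
    obtain ⟨a, rfl⟩ := cyc_exists f
    obtain ⟨b, rfl⟩ := cyc_exists e
    show wt R (fa (Sum.inr (R''.face a))) (eb (Sum.inr (R''.edge b))) = _
    rw [fa2, eb2]
    exact wt_emb h2 a b
  · intro f; rfl
  · intro f; rfl

theorem emb_unique {H H' H'' : Type} {σ : Equiv.Perm H}
    {σ' : Equiv.Perm H'} {σ'' : Equiv.Perm H''} (R Q : Conf σ) (R' : Conf σ') (R'' : Conf σ'')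
    (j' : H' → H) (j'' : H'' → H) (h1 : Emb R R' j') (h2 : Emb R R'' j'')
    (q1 : Emb Q R' j') (q2 : Emb Q R'' j'')
    (cover : ∀ h, (∃ a, j' a = h) ∨ ∃ b, j'' b = h)
    (disj : ∀ a b, R.face (j' a) ≠ R.face (j'' b))
    (disj' : ∀ a b, Q.face (j' a) ≠ Q.face (j'' b)) : R = Q := by
  refine conf_ext R Q ?_ ?_
  · apply Equiv.ext
    intro h
    rcases cover h with ⟨a, rfl⟩ | ⟨b, rfl⟩
    · rw [h1.tau, q1.tau]
    · rw [h2.tau, q2.tau]
  · -- faces of mixed type are never partners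
    have key : ∀ (S : Conf σ) (S' : Conf σ') (S'' : Conf σ'') (_ : Emb S S' j')
        (_ : Emb S S'' j'') (_ : ∀ a b, S.face (j' a) ≠ S.face (j'' b)) (a : H') (b : H''),
        S.β (S.face (j' a)) ≠ S.face (j'' b) ∧ S.β (S.face (j'' b)) ≠ S.face (j' a) := by
      intro S S' S'' e1 e2 hd a b
      constructor
      · intro hab
        obtain ⟨a', ha'⟩ := cyc_exists (S'.β (S'.face a))
        have h3 : S.β (S.face (j' a)) = S.face (j' a') := (e1.beta a a').2 ha'.symm
        exact hd a' b (h3.symm.trans hab)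
      · intro hab
        obtain ⟨b', hb'⟩ := cyc_exists (S''.β (S''.face b))
        have h3 : S.β (S.face (j'' b)) = S.face (j'' b') := (e2.beta b b').2 hb'.symm
        exact hd a b' (hab.symm.trans h3)
    intro h h'
    rcases cover h with ⟨a, rfl⟩ | ⟨b, rfl⟩
    · rcases cover h' with ⟨a', rfl⟩ | ⟨b', rfl⟩
      · rw [h1.beta, q1.beta]
      · exact iff_of_false (key R R' R'' h1 h2 disj a b').1 (key Q R' R'' q1 q2 disj' a b').1
    · rcases cover h' with ⟨a', rfl⟩ | ⟨b', rfl⟩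
      · exact iff_of_false (key R R' R'' h1 h2 disj a' b).2 (key Q R' R'' q1 q2 disj' a' b).2
      · rw [h2.beta, q2.beta]

end Pool.Agent.Helper62.MVC2
end

/- Helper62.MVC2.Disc -/
section
/-!
MV-C2-11. Disconnected configurations.

Proofs.
* `disc_exists`: `R` is not connected: there are `h₀, h₁` not equivalent for the relation `EqvGen` of `Conf.Conn`. Let
  `S = {h | h ~ h₀}`. `S` is closed under `σ = rot K`, `R.τ` (both directions), hence under `φ = σ * τ`, so it is a union of faces, and closed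
  under the pairing of faces (`R.face b = R.β (R.face a)`). Let `I = {i | ∃ s, ⟨i, s⟩ ∈ S}`; since `S` is closed under the rotations,
  `⟨i, s⟩ ∈ S ↔ i ∈ I` (for `s : Fin (K i)`; the powers of `finRotate` act transitively). `h₀.1 ∈ I`, `h₁.1 ∉ I`. Apply `emb_exists` to
  `j = jI K I` and to `jI K Iᶜ`. Faces of `jI K I a` and `jI K Iᶜ b` are different since `S` is a union of faces.
* `disc_bound`: choose `(I, R', R'')` for each non connected `R`; the map `R ↦ (I, R', R'')` is injective (`emb_unique`, its covering hypothesis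
  `jI_cover`) and `R.A ε 0 = R'.A ε 0 * R''.A ε 0` (`emb_prod`). All `A ≥ 0` (`A_nonneg`). So the sum is at most
  `∑_I ∑_{R'} ∑_{R''} R'.A ε 0 * R''.A ε 0 = ∑_I ZZ (K|I) ε * ZZ (K|Iᶜ) ε`, sum over `I` with `I`, `Iᶜ` nonempty.
-/

namespace Pool.Agent.Helper62.MVC2

open Finset MeasureTheory Filter Topology Pool.Agent.Helper60.MV

/-- half-edges at the vertices of `I` -/
def jI {ρ : Type} (K : ρ → ℕ) (I : Finset ρ) (h : HK (fun i : {i // i ∈ I} => K i)) : HK K :=
  ⟨h.1.1, h.2⟩

theorem jI_cover {ρ : Type} [Fintype ρ] [DecidableEq ρ] (K : ρ → ℕ) (I : Finset ρ) (h : HK K) :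
    (∃ a, jI K I a = h) ∨ ∃ b, jI K Iᶜ b = h := by
  by_cases hi : h.1 ∈ I
  · exact Or.inl ⟨⟨⟨h.1, hi⟩, h.2⟩, rfl⟩
  · exact Or.inr ⟨⟨⟨h.1, Finset.mem_compl.2 hi⟩, h.2⟩, rfl⟩

private theorem jI_inj {ρ : Type} (K : ρ → ℕ) (I : Finset ρ) : Function.Injective (jI K I) := by
  rintro ⟨⟨i, hi⟩, s⟩ ⟨⟨j, hj⟩, t⟩ h
  have h1 : i = j := congrArg Sigma.fst h
  subst h1
  have h2 : s = t := by
    have h3 : (⟨i, s⟩ : HK K) = ⟨i, t⟩ := h
    simpa using h3
  subst h2
  rfl

private theorem finRotate_step (n k : ℕ) (hk : k + 1 < n) :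
    finRotate n ⟨k, by omega⟩ = ⟨k + 1, hk⟩ := by
  obtain ⟨m, rfl⟩ : ∃ m, n = m + 1 := ⟨n - 1, by omega⟩
  exact finRotate_of_lt (by omega)

/-- the relation of `Conf.Conn` -/
private def rel {H : Type} {σ : Equiv.Perm H} (R : Conf σ) (a b : H) : Prop :=
  b = σ a ∨ b = R.τ a ∨ R.face b = R.β (R.face a)

private theorem rel_face {H : Type} {σ : Equiv.Perm H} (R : Conf σ) {a b : H}
    (h : R.face a = R.face b) : Relation.EqvGen (rel R) a b := by
  obtain ⟨c, hc⟩ : ∃ c, R.face c = R.β (R.face a) :=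
    ⟨(R.β (R.face a)).rep, Quotient.out_eq _⟩
  have h1 : Relation.EqvGen (rel R) a c := Relation.EqvGen.rel _ _ (Or.inr (Or.inr hc))
  have h2 : Relation.EqvGen (rel R) b c :=
    Relation.EqvGen.rel _ _ (Or.inr (Or.inr (by rw [hc, h])))
  exact h1.trans _ _ _ (h2.symm _ _)

private theorem rel_zero {ρ : Type} {K : ρ → ℕ} (R : Conf (rot K)) (i : ρ) (k : ℕ)
    (hk : k < K i) :
    Relation.EqvGen (rel R) (⟨i, ⟨0, by omega⟩⟩ : HK K) ⟨i, ⟨k, hk⟩⟩ := by
  induction k with
  | zero => exact Relation.EqvGen.refl _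
  | succ n ih =>
    refine (ih (by omega)).trans _ _ _ (Relation.EqvGen.rel _ _ (Or.inl ?_))
    show (⟨i, ⟨n + 1, hk⟩⟩ : HK K) = ⟨i, finRotate (K i) ⟨n, _⟩⟩
    rw [finRotate_step (K i) n hk]

private theorem rel_fst {ρ : Type} {K : ρ → ℕ} (R : Conf (rot K)) (a b : HK K)
    (h : a.1 = b.1) : Relation.EqvGen (rel R) a b := by
  obtain ⟨i, s⟩ := a
  obtain ⟨j, t⟩ := b
  have h' : i = j := h
  subst h'
  exact ((rel_zero R i s.1 s.2).symm _ _).trans _ _ _ (rel_zero R i t.1 t.2)

theorem disc_exists {ρ : Type} [Fintype ρ] [DecidableEq ρ] (K : ρ → ℕ) (R : Conf (rot K))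
    (hR : ¬ R.Conn) :
    ∃ (I : Finset ρ) (R' : Conf (rot (fun i : {i // i ∈ I} => K i)))
      (R'' : Conf (rot (fun i : {i // i ∈ Iᶜ} => K i))),
      I.Nonempty ∧ Iᶜ.Nonempty ∧ Emb R R' (jI K I) ∧ Emb R R'' (jI K Iᶜ) ∧
      ∀ a b, R.face (jI K I a) ≠ R.face (jI K Iᶜ b) := by
  classical
  unfold Conf.Conn at hR
  push Not at hR
  obtain ⟨h₀, h₁, hn⟩ := hR
  have hn' : ¬ Relation.EqvGen (rel R) h₀ h₁ := hn
  set I : Finset ρ := univ.filter (fun i => ∃ h : HK K, h.1 = i ∧ Relation.EqvGen (rel R) h₀ h)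
    with hI
  have hmem : ∀ h : HK K, h.1 ∈ I ↔ Relation.EqvGen (rel R) h₀ h := by
    intro h
    rw [hI, Finset.mem_filter]
    constructor
    · rintro ⟨-, h', hh', he⟩
      exact he.trans _ _ _ (rel_fst R h' h hh')
    · intro he
      exact ⟨Finset.mem_univ _, h, rfl, he⟩
  have hclosed : ∀ a b : HK K, Relation.EqvGen (rel R) a b → (a.1 ∈ I ↔ b.1 ∈ I) := by
    intro a b hab
    rw [hmem, hmem]
    exact ⟨fun h => h.trans _ _ _ hab, fun h => h.trans _ _ _ (hab.symm _ _)⟩
  have hτ : ∀ a : HK K, Relation.EqvGen (rel R) a (R.τ a) := fun a =>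
    Relation.EqvGen.rel _ _ (Or.inr (Or.inl rfl))
  have h0 : h₀.1 ∈ I := (hmem h₀).2 (Relation.EqvGen.refl _)
  have h1 : h₁.1 ∉ I := fun h => hn' ((hmem h₁).1 h)
  obtain ⟨R', hR'⟩ := emb_exists (σ' := rot (fun i : {i // i ∈ I} => K i)) R (jI K I)
    (jI_inj K I) (fun h => rfl)
    (fun h => by
      have h2 : (R.τ (jI K I h)).1 ∈ I := (hclosed _ _ (hτ (jI K I h))).1 h.1.2
      exact ⟨⟨⟨(R.τ (jI K I h)).1, h2⟩, (R.τ (jI K I h)).2⟩, rfl⟩)
    (fun h h' hh' => by
      have h2 : h'.1 ∈ I := (hclosed (jI K I h) h'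
        (Relation.EqvGen.rel _ _ (Or.inr (Or.inr hh'.symm)))).1 h.1.2
      exact ⟨⟨⟨h'.1, h2⟩, h'.2⟩, rfl⟩)
  obtain ⟨R'', hR''⟩ := emb_exists (σ' := rot (fun i : {i // i ∈ Iᶜ} => K i)) R (jI K Iᶜ)
    (jI_inj K Iᶜ) (fun h => rfl)
    (fun h => by
      have h2 : (R.τ (jI K Iᶜ h)).1 ∈ Iᶜ := by
        rw [Finset.mem_compl, ← hclosed _ _ (hτ (jI K Iᶜ h)), ← Finset.mem_compl]
        exact h.1.2
      exact ⟨⟨⟨(R.τ (jI K Iᶜ h)).1, h2⟩, (R.τ (jI K Iᶜ h)).2⟩, rfl⟩)
    (fun h h' hh' => by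
      have h2 : h'.1 ∈ Iᶜ := by
        rw [Finset.mem_compl, ← hclosed (jI K Iᶜ h) h'
          (Relation.EqvGen.rel _ _ (Or.inr (Or.inr hh'.symm))), ← Finset.mem_compl]
        exact h.1.2
      exact ⟨⟨⟨h'.1, h2⟩, h'.2⟩, rfl⟩)
  refine ⟨I, R', R'', ⟨_, h0⟩, ⟨_, Finset.mem_compl.2 h1⟩, hR', hR'', ?_⟩
  intro a b hab
  have h2 : (jI K Iᶜ b).1 ∈ I := (hclosed _ _ (rel_face R hab)).1 a.1.2
  exact (Finset.mem_compl.1 b.1.2) h2

theorem disc_bound {ρ : Type} [Fintype ρ] [DecidableEq ρ] (K : ρ → ℕ) (ε : ℝ) (hε : 0 < ε) :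
    (by classical exact ∑ R ∈ univ.filter (fun R : Conf (rot K) => ¬ R.Conn), R.A ε 0) ≤
    ∑ I ∈ (univ : Finset ρ).powerset.filter (fun I => I.Nonempty ∧ Iᶜ.Nonempty),
      ZZ (rot (fun i : {i // i ∈ I} => K i)) ε * ZZ (rot (fun i : {i // i ∈ Iᶜ} => K i)) ε := by
  classical
  let D : Type := Σ I : Finset ρ, Conf (rot (fun i : {i // i ∈ I} => K i)) ×
    Conf (rot (fun i : {i // i ∈ Iᶜ} => K i))
  let g : D → ℝ := fun d => d.2.1.A ε 0 * d.2.2.A ε 0
  have hg : ∀ d, 0 ≤ g d := fun d => mul_nonneg (A_nonneg _ _ hε _) (A_nonneg _ _ hε _)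
  let Pd : Conf (rot K) → D → Prop := fun R d =>
    Emb R d.2.1 (jI K d.1) ∧ Emb R d.2.2 (jI K d.1ᶜ) ∧
      ∀ a b, R.face (jI K d.1 a) ≠ R.face (jI K d.1ᶜ b)
  have hex : ∀ R : Conf (rot K), ¬ R.Conn → ∃ d : D, (d.1.Nonempty ∧ d.1ᶜ.Nonempty) ∧ Pd R d := by
    intro R hR
    obtain ⟨I, R', R'', h1, h2, h3, h4, h5⟩ := disc_exists K R hR
    exact ⟨⟨I, R', R''⟩, ⟨h1, h2⟩, h3, h4, h5⟩
  choose F hF using hex
  set s := univ.filter (fun R : Conf (rot K) => ¬ R.Conn) with hs
  have hs' : ∀ x : {R // R ∈ s}, ¬ x.1.Conn := fun x => (Finset.mem_filter.1 x.2).2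
  let G : {R // R ∈ s} → D := fun x => F x.1 (hs' x)
  have hGinj : Function.Injective G := by
    intro x y hxy
    have h1 : Pd x.1 (G x) := (hF x.1 (hs' x)).2
    have h2 : Pd y.1 (G x) := by
      rw [hxy]
      exact (hF y.1 (hs' y)).2
    exact Subtype.ext (emb_unique x.1 y.1 (G x).2.1 (G x).2.2 (jI K (G x).1) (jI K (G x).1ᶜ)
      h1.1 h1.2.1 h2.1 h2.2.1 (jI_cover K (G x).1) h1.2.2 h2.2.2)
  have hval : ∀ x : {R // R ∈ s}, x.1.A ε 0 = g (G x) := by
    intro x
    have h1 : Pd x.1 (G x) := (hF x.1 (hs' x)).2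
    exact emb_prod x.1 (G x).2.1 (G x).2.2 (jI K (G x).1) (jI K (G x).1ᶜ) h1.1 h1.2.1
      (jI_cover K (G x).1) h1.2.2 ε hε
  have hL : ∑ R ∈ s, R.A ε 0 = ∑ d ∈ s.attach.image G, g d := by
    rw [Finset.sum_image (fun x _ y _ h => hGinj h), ← Finset.sum_attach]
    exact Finset.sum_congr rfl fun x _ => hval x
  have hRt : ∑ I ∈ (univ : Finset ρ).powerset.filter (fun I => I.Nonempty ∧ Iᶜ.Nonempty),
      ZZ (rot (fun i : {i // i ∈ I} => K i)) ε * ZZ (rot (fun i : {i // i ∈ Iᶜ} => K i)) ε =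
      ∑ d ∈ ((univ : Finset ρ).powerset.filter (fun I => I.Nonempty ∧ Iᶜ.Nonempty)).sigma
        (fun I => (univ : Finset (Conf (rot (fun i : {i // i ∈ I} => K i)) ×
          Conf (rot (fun i : {i // i ∈ Iᶜ} => K i))))), g d := by
    rw [Finset.sum_sigma]
    refine Finset.sum_congr rfl fun I _ => ?_
    unfold ZZ
    rw [Finset.sum_mul_sum, ← Finset.univ_product_univ, Finset.sum_product]
  rw [hRt]
  refine le_trans (le_of_eq hL) ?_
  refine Finset.sum_le_sum_of_subset_of_nonneg ?_ fun d _ _ => hg d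
  intro d hd
  obtain ⟨x, -, rfl⟩ := Finset.mem_image.1 hd
  rw [Finset.mem_sigma, Finset.mem_filter]
  exact ⟨⟨Finset.mem_powerset.2 (Finset.subset_univ _), (hF x.1 (hs' x)).1⟩, Finset.mem_univ _⟩

end Pool.Agent.Helper62.MVC2
end

/- Helper62.MVC2.GoodMono -/
section
/-!
MV-C2-6. Good systems: the regularised volume with shifts is bounded by the one without.

Proof of `AM_good`. Let `z_{c,b}` be the vectors of `hs`, `z(ξ) = ∑ ξ_{c,b} z_{c,b}`, so `p_{c,b}(z(ξ)) = ξ_{c,b}` and
`|z(ξ)_e| ≤ C0 M`, `C0 = ∑_{c,b,e} |z_{c,b} e|`; `C1 = C0 / min u_e` (or any `C1 ≥ 0` with `C1 u_e ≥ C0` for all `e`). The translation by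
`v = z(ξ) + C1 M u ≥ 0` maps the orthant `O` into itself; `p_{c,b}(x + v) = p_{c,b}(x) + ξ_{c,b} + η_c`,
`η_c = C1 M p_{c,false}(u) = C1 M p_{c,true}(u) ≥ 0`. By `kern_shift`,
`kern ε (p_{c,0}(x) + ξ_{c,0}) (p_{c,1}(x)+ξ_{c,1}) = kern ε (p_{c,0}(x+v) - η_c) (p_{c,1}(x+v) - η_c) ≤ e^{η_c} kern ε (p_{c,0}(x+v)) (p_{c,1}(x+v))`.
Multiply over `c` and integrate: `AM P ε ξ ≤ e^{∑ η_c} ∫_{O} F(x + v) dx = e^{∑η_c} ∫_{O + v} F ≤ e^{∑η_c} ∫_O F`, `F ≥ 0` integrable on `O`
(`AM_integrableOn`). `C = C1 ∑_c p_{c,false}(u)`.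
`AM_integrableOn`: `∏_c kern` is continuous, and `≤ C exp (-(9/20) ∑ x_e)` on the orthant by `kern_exp9`, `corr_le` and
`∑_c (p_c + p'_c) ≥ ∑_e x_e` (each edge has a positive entry).
`A_good`: apply `AM_good` to `R.P`: `sum_P`, `cface_bij`, `P_two` (divide by 2), the vector `u` of `R.Good` (cast), `P_col`.
-/

namespace Pool.Agent.Helper62.MVC2

open Finset MeasureTheory Filter Topology Pool.Agent.Helper60.MV

private theorem gm_meas {ι : Type} [Fintype ι] (v : ι → ℝ) :
    MeasurableSet {x : ι → ℝ | ∀ e, v e < x e} := by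
  have h : {x : ι → ℝ | ∀ e, v e < x e} = Set.univ.pi (fun e => Set.Ioi (v e)) := by
    ext x
    simp
  rw [h]
  exact MeasurableSet.univ_pi fun _ => measurableSet_Ioi

private theorem gm_meas0 {ι : Type} [Fintype ι] :
    MeasurableSet {x : ι → ℝ | ∀ e, 0 < x e} :=
  gm_meas (fun _ => (0:ℝ))

theorem AM_integrableOn {ι κ : Type} [Fintype ι] [Fintype κ] (P : κ → Bool → ι → ℕ)
    (hcol : ∀ e, ∃ c b, 0 < P c b e) (ε : ℝ) (hε : 0 < ε) (hε2 : ε ≤ 1 / 2)
    (ξ : κ → Bool → ℝ) (hξ : ∀ c b, 0 ≤ ξ c b) :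
    IntegrableOn (fun x : ι → ℝ => ∏ c : κ, kern ε (∑ e, (P c false e : ℝ) * x e + ξ c false)
      (∑ e, (P c true e : ℝ) * x e + ξ c true)) {x : ι → ℝ | ∀ e, 0 < x e} := by
  have hcont : Continuous (fun x : ι → ℝ => ∏ c : κ,
      kern ε (∑ e, (P c false e : ℝ) * x e + ξ c false)
        (∑ e, (P c true e : ℝ) * x e + ξ c true)) := by
    refine continuous_finsetProd _ fun c _ => ?_
    have h1 : Continuous (fun x : ι → ℝ => ((∑ e, (P c false e : ℝ) * x e + ξ c false),
        (∑ e, (P c true e : ℝ) * x e + ξ c true))) := by fun_prop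
    exact (kern_continuous ε hε).comp h1
  refine Integrable.mono' ((orthant_exp_integrable (ι := ι) (9 / 20)
    (by norm_num)).const_mul ((10 * ε⁻¹) ^ (Fintype.card κ))) hcont.aestronglyMeasurable ?_
  rw [ae_restrict_iff' gm_meas0]
  refine Filter.Eventually.of_forall fun x hx => ?_
  have hx0 : ∀ e, 0 ≤ x e := fun e => (hx e).le
  have hp : ∀ c b, 0 ≤ ∑ e, (P c b e : ℝ) * x e + ξ c b := fun c b =>
    add_nonneg (Finset.sum_nonneg fun e _ => mul_nonneg (Nat.cast_nonneg _) (hx0 e)) (hξ c b)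
  rw [Real.norm_eq_abs, abs_of_nonneg (Finset.prod_nonneg fun c _ => kern_nonneg ε hε _ _)]
  have h1 : ∀ c ∈ (univ : Finset κ), kern ε (∑ e, (P c false e : ℝ) * x e + ξ c false)
      (∑ e, (P c true e : ℝ) * x e + ξ c true) ≤ (10 * ε⁻¹) *
      Real.exp (-(9 / 20 * ((∑ e, (P c false e : ℝ) * x e + ξ c false) +
        (∑ e, (P c true e : ℝ) * x e + ξ c true)))) := by
    intro c _
    refine (kern_exp9 ε hε hε2 _ _ (hp c false) (hp c true)).trans ?_
    refine (mul_le_mul_of_nonneg_left (corr_le ε hε _) (by positivity)).trans (le_of_eq ?_)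
    ring
  refine (Finset.prod_le_prod (fun c _ => kern_nonneg ε hε _ _) h1).trans ?_
  rw [Finset.prod_mul_distrib, Finset.prod_const, ← Real.exp_sum, Finset.card_univ]
  refine mul_le_mul_of_nonneg_left (Real.exp_le_exp.2 ?_) (by positivity)
  rw [Finset.sum_neg_distrib, ← Finset.mul_sum]
  refine neg_le_neg (mul_le_mul_of_nonneg_left ?_ (by norm_num))
  have h2 : ∑ e, x e ≤ ∑ e, (∑ c, ((P c false e : ℝ) + (P c true e : ℝ))) * x e := by
    refine Finset.sum_le_sum fun e _ => ?_
    have h3 : (1:ℝ) ≤ ∑ c, ((P c false e : ℝ) + (P c true e : ℝ)) := by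
      obtain ⟨c, b, hcb⟩ := hcol e
      have h4 : (1:ℝ) ≤ (P c false e : ℝ) + (P c true e : ℝ) := by
        have h5 : 1 ≤ P c false e + P c true e := by
          cases b
          · omega
          · omega
        exact_mod_cast h5
      refine h4.trans (Finset.single_le_sum (f := fun c => (P c false e : ℝ) + (P c true e : ℝ))
        (fun c _ => by positivity) (Finset.mem_univ c))
    calc x e = 1 * x e := (one_mul _).symm
      _ ≤ _ := mul_le_mul_of_nonneg_right h3 (hx0 e)
  refine h2.trans ?_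
  have h6 : ∑ e, (∑ c, ((P c false e : ℝ) + (P c true e : ℝ))) * x e =
      ∑ c, ((∑ e, (P c false e : ℝ) * x e) + (∑ e, (P c true e : ℝ) * x e)) := by
    simp_rw [Finset.sum_mul]
    rw [Finset.sum_comm]
    refine Finset.sum_congr rfl fun c _ => ?_
    rw [← Finset.sum_add_distrib]
    refine Finset.sum_congr rfl fun e _ => by ring
  rw [h6]
  refine Finset.sum_le_sum fun c _ => ?_
  have h7 := hξ c false
  have h8 := hξ c true
  linarith

theorem AM_good {ι κ : Type} [Fintype ι] [Fintype κ] [DecidableEq κ] (P : κ → Bool → ι → ℕ)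
    (hu : ∃ u : ι → ℝ, (∀ e, 0 < u e) ∧
      ∀ c, ∑ e, (P c false e : ℝ) * u e = ∑ e, (P c true e : ℝ) * u e)
    (hs : ∀ c b, ∃ z : ι → ℝ, ∀ c' b', ∑ e, (P c' b' e : ℝ) * z e =
      if c' = c ∧ b' = b then 1 else 0)
    (hcol : ∀ e, ∃ c b, 0 < P c b e) :
    ∃ C : ℝ, 0 ≤ C ∧ ∀ ε : ℝ, 0 < ε → ε ≤ 1 / 2 → ∀ (ξ : κ → Bool → ℝ) (M : ℝ),
      (∀ c b, 0 ≤ ξ c b ∧ ξ c b ≤ M) → AM P ε ξ ≤ Real.exp (C * M) * AM P ε 0 := by
  obtain ⟨u, hu0, hu⟩ := hu
  choose z hz using hs
  set C0 : ℝ := ∑ c, ∑ b, ∑ e, |z c b e| with hC0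
  set C1 : ℝ := C0 * ∑ e, (u e)⁻¹ with hC1
  have hC0n : 0 ≤ C0 := by
    rw [hC0]
    exact Finset.sum_nonneg fun c _ => Finset.sum_nonneg fun b _ =>
      Finset.sum_nonneg fun e _ => abs_nonneg _
  have hC1n : 0 ≤ C1 := mul_nonneg hC0n (Finset.sum_nonneg fun e _ => (inv_pos.2 (hu0 e)).le)
  have hC1u : ∀ e, C0 ≤ C1 * u e := by
    intro e
    have h1 : (u e)⁻¹ ≤ ∑ e, (u e)⁻¹ :=
      Finset.single_le_sum (f := fun e => (u e)⁻¹) (fun e _ => (inv_pos.2 (hu0 e)).le)
        (Finset.mem_univ e)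
    calc C0 = C0 * (u e)⁻¹ * u e := by
          rw [mul_assoc, inv_mul_cancel₀ (hu0 e).ne', mul_one]
      _ ≤ C0 * (∑ e, (u e)⁻¹) * u e :=
          mul_le_mul_of_nonneg_right (mul_le_mul_of_nonneg_left h1 hC0n) (hu0 e).le
      _ = C1 * u e := by rw [hC1]
  set pu : κ → ℝ := fun c => ∑ e, (P c false e : ℝ) * u e with hpu
  have hpun : ∀ c, 0 ≤ pu c := fun c =>
    Finset.sum_nonneg fun e _ => mul_nonneg (Nat.cast_nonneg _) (hu0 e).le
  refine ⟨C1 * ∑ c, pu c, mul_nonneg hC1n (Finset.sum_nonneg fun c _ => hpun c), ?_⟩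
  intro ε hε hε2 ξ M hξ
  rcases isEmpty_or_nonempty κ with hκ | hκ
  · have h1 : ξ = 0 := by
      funext c
      exact hκ.elim c
    have h2 : ∑ c, pu c = 0 := by
      rw [Finset.univ_eq_empty, Finset.sum_empty]
    rw [h1, h2, mul_zero, zero_mul, Real.exp_zero, one_mul]
  · obtain ⟨c0⟩ := hκ
    have hM : 0 ≤ M := (hξ c0 false).1.trans (hξ c0 false).2
    set η : κ → ℝ := fun c => C1 * M * pu c with hη
    have hηn : ∀ c, 0 ≤ η c := fun c => mul_nonneg (mul_nonneg hC1n hM) (hpun c)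
    set v : ι → ℝ := fun e => (∑ c, ∑ b, ξ c b * z c b e) + C1 * M * u e with hv
    have hvn : ∀ e, 0 ≤ v e := by
      intro e
      have h1 : |∑ c, ∑ b, ξ c b * z c b e| ≤ M * C0 := by
        refine (Finset.abs_sum_le_sum_abs _ _).trans ?_
        rw [hC0, Finset.mul_sum]
        refine Finset.sum_le_sum fun c _ => ?_
        refine (Finset.abs_sum_le_sum_abs _ _).trans ?_
        rw [Finset.mul_sum]
        refine Finset.sum_le_sum fun b _ => ?_
        rw [abs_mul, abs_of_nonneg (hξ c b).1]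
        refine mul_le_mul (hξ c b).2 ?_ (abs_nonneg _) hM
        exact Finset.single_le_sum (f := fun e => |z c b e|) (fun e _ => abs_nonneg _)
          (Finset.mem_univ e)
      have h2 : M * C0 ≤ C1 * M * u e := by
        have := mul_le_mul_of_nonneg_left (hC1u e) hM
        linarith
      have h3 := (abs_le.1 h1).1
      show 0 ≤ (∑ c, ∑ b, ξ c b * z c b e) + C1 * M * u e
      linarith
    have hpv : ∀ c b, ∑ e, (P c b e : ℝ) * v e = ξ c b + η c := by
      intro c b
      have h1 : ∑ e, (P c b e : ℝ) * u e = pu c := by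
        cases b
        · rfl
        · exact (hu c).symm
      have h2 : ∑ e, (P c b e : ℝ) * (∑ c', ∑ b', ξ c' b' * z c' b' e) = ξ c b := by
        have h3 : ∀ e, (P c b e : ℝ) * (∑ c', ∑ b', ξ c' b' * z c' b' e) =
            ∑ c', ∑ b', ξ c' b' * ((P c b e : ℝ) * z c' b' e) := by
          intro e
          rw [Finset.mul_sum]
          refine Finset.sum_congr rfl fun c' _ => ?_
          rw [Finset.mul_sum]
          refine Finset.sum_congr rfl fun b' _ => by ring
        simp_rw [h3]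
        rw [Finset.sum_comm]
        have h4 : ∀ c', ∑ e, ∑ b', ξ c' b' * ((P c b e : ℝ) * z c' b' e) =
            ∑ b', ξ c' b' * (if c = c' ∧ b = b' then 1 else 0) := by
          intro c'
          rw [Finset.sum_comm]
          refine Finset.sum_congr rfl fun b' _ => ?_
          rw [← Finset.mul_sum, hz]
        simp_rw [h4]
        rw [Finset.sum_eq_single c]
        · rw [Finset.sum_eq_single b]
          · simp
          · intro b' _ hb'
            rw [if_neg (fun h => hb' h.2.symm), mul_zero]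
          · intro h
            exact absurd (Finset.mem_univ _) h
        · intro c' _ hc'
          refine Finset.sum_eq_zero fun b' _ => ?_
          rw [if_neg (fun h => hc' h.1.symm), mul_zero]
        · intro h
          exact absurd (Finset.mem_univ _) h
      calc ∑ e, (P c b e : ℝ) * v e = ∑ e, (P c b e : ℝ) * (∑ c', ∑ b', ξ c' b' * z c' b' e) +
            C1 * M * ∑ e, (P c b e : ℝ) * u e := by
            rw [Finset.mul_sum, ← Finset.sum_add_distrib]
            refine Finset.sum_congr rfl fun e _ => ?_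
            simp only [hv]
            ring
        _ = ξ c b + η c := by rw [h1, h2]
    have hint0 := AM_integrableOn P hcol ε hε hε2 0 (fun _ _ => le_rfl)
    have hintξ := AM_integrableOn P hcol ε hε hε2 ξ (fun c b => (hξ c b).1)
    have hint1 := AM_integrableOn P hcol ε hε hε2 (fun c b => ξ c b + η c)
      (fun c b => add_nonneg (hξ c b).1 (hηn c))
    have step1 : AM P ε ξ ≤ Real.exp (∑ c, η c) * AM P ε (fun c b => ξ c b + η c) := by
      unfold AM
      rw [← integral_const_mul]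
      refine setIntegral_mono_on hintξ (hint1.const_mul _) gm_meas0 fun x _ => ?_
      rw [Real.exp_sum, ← Finset.prod_mul_distrib]
      refine Finset.prod_le_prod (fun c _ => kern_nonneg ε hε _ _) fun c _ => ?_
      have h1 := kern_shift ε hε (∑ e, (P c false e : ℝ) * x e + (ξ c false + η c))
        (∑ e, (P c true e : ℝ) * x e + (ξ c true + η c)) (η c) (hηn c)
      have h2 : ∀ b, ∑ e, (P c b e : ℝ) * x e + (ξ c b + η c) - η c =
          ∑ e, (P c b e : ℝ) * x e + ξ c b := fun b => by ring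
      rw [h2, h2] at h1
      exact h1
    have step2 : AM P ε (fun c b => ξ c b + η c) =
        ∫ x in {x : ι → ℝ | ∀ e, v e < x e},
          ∏ c : κ, kern ε (∑ e, (P c false e : ℝ) * x e + (0 : κ → Bool → ℝ) c false)
            (∑ e, (P c true e : ℝ) * x e + (0 : κ → Bool → ℝ) c true) := by
      rw [← (measurePreserving_add_right (volume : Measure (ι → ℝ)) v).setIntegral_preimage_emb
        (measurableEmbedding_addRight v)]
      have hset : (fun x : ι → ℝ => x + v) ⁻¹' {x : ι → ℝ | ∀ e, v e < x e} =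
          {x : ι → ℝ | ∀ e, 0 < x e} := by
        ext x
        simp only [Set.mem_preimage, Set.mem_ofPred_eq, Pi.add_apply]
        exact forall_congr' fun e => ⟨fun h => by linarith, fun h => by linarith⟩
      rw [hset]
      unfold AM
      refine setIntegral_congr_fun gm_meas0 fun x _ => ?_
      refine Finset.prod_congr rfl fun c _ => ?_
      have h2 : ∀ b, ∑ e, (P c b e : ℝ) * (x + v) e + (0 : κ → Bool → ℝ) c b =
          ∑ e, (P c b e : ℝ) * x e + (ξ c b + η c) := by
        intro b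
        rw [← hpv c b, ← Finset.sum_add_distrib]
        simp only [Pi.add_apply, Pi.zero_apply, add_zero]
        refine Finset.sum_congr rfl fun e _ => by ring
      rw [h2, h2]
    have step3 : AM P ε (fun c b => ξ c b + η c) ≤ AM P ε 0 := by
      rw [step2]
      unfold AM
      refine setIntegral_mono_set hint0 ?_ ?_
      · refine Filter.Eventually.of_forall fun x => ?_
        exact Finset.prod_nonneg fun c _ => kern_nonneg ε hε _ _
      · refine Filter.Eventually.of_forall fun x hx e => ?_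
        exact lt_of_le_of_lt (hvn e) (hx e)
    have h9 : ∑ c, η c = C1 * (∑ c, pu c) * M := by
      rw [hη, ← Finset.mul_sum]
      ring
    rw [← h9]
    exact step1.trans (mul_le_mul_of_nonneg_left step3 (Real.exp_pos _).le)

theorem A_good {H : Type} [Fintype H] {σ : Equiv.Perm H} (hσ : AllOdd σ) (R : Conf σ)
    (hg : R.Good) : ∃ C : ℝ, 0 ≤ C ∧ ∀ ε : ℝ, 0 < ε → ε ≤ 1 / 2 → ∀ (ξ : R.Face → ℝ) (M : ℝ),
      (∀ f, 0 ≤ ξ f ∧ ξ f ≤ M) → R.A ε ξ ≤ Real.exp (C * M) * R.A ε 0 := by
  have k1 : ∃ u : R.Edge → ℝ, (∀ e, 0 < u e) ∧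
      ∀ c, ∑ e, (R.P c false e : ℝ) * u e = ∑ e, (R.P c true e : ℝ) * u e := by
    obtain ⟨u, hu, hb⟩ := hg
    refine ⟨fun e => (u e : ℝ), fun e => Nat.cast_pos.2 (hu e), fun c => ?_⟩
    have h1 : ∑ e, R.P c false e * u e = ∑ e, R.P c true e * u e := by
      rw [sum_P_nat, sum_P_nat]
      exact hb c.rep
    show ∑ e, (R.P c false e : ℝ) * (u e : ℝ) = ∑ e, (R.P c true e : ℝ) * (u e : ℝ)
    exact_mod_cast h1
  have k2 : ∀ c b, ∃ z : R.Edge → ℝ, ∀ c' b', ∑ e, (R.P c' b' e : ℝ) * z e =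
      if c' = c ∧ b' = b then 1 else 0 := by
    intro c b
    obtain ⟨z, hz⟩ := P_two R hσ (R.cface c b)
    refine ⟨fun e => (z e : ℝ) / 2, fun c' b' => ?_⟩
    have h1 : ∑ e, (R.P c' b' e : ℝ) * ((z e : ℝ) / 2) =
        (∑ e, (R.P c' b' e : ℝ) * (z e : ℝ)) / 2 := by
      rw [Finset.sum_div]
      refine Finset.sum_congr rfl fun e _ => by ring
    have h2 : R.per (fun e => (z e : ℝ)) (R.cface c' b') =
        ((R.per z (R.cface c' b') : ℤ) : ℝ) := by
      unfold Conf.per
      push_cast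
      rfl
    rw [h1, sum_P, h2, hz]
    have hinj := (cface_bij R).1
    by_cases h : c' = c ∧ b' = b
    · obtain ⟨rfl, rfl⟩ := h
      simp
    · have h3 : R.cface c' b' ≠ R.cface c b := by
        intro h4
        apply h
        have h5 := @hinj (c', b') (c, b) h4
        exact Prod.mk.inj h5
      rw [if_neg h, if_neg h3]
      simp
  have k3 : ∀ e, ∃ c b, 0 < R.P c b e := by
    intro e
    have h1 := P_col R e
    by_contra hcon
    push Not at hcon
    have h2 : ∑ c, (R.P c false e + R.P c true e) = 0 := by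
      refine Finset.sum_eq_zero fun c _ => ?_
      have h3 := hcon c false
      have h4 := hcon c true
      omega
    omega
  obtain ⟨C, hC, hA⟩ := AM_good R.P k1 k2 k3
  refine ⟨C, hC, fun ε hε hε2 ξ M hξ => ?_⟩
  exact hA ε hε hε2 (fun c b => ξ (R.cface c b)) M (fun c b => hξ (R.cface c b))

end Pool.Agent.Helper62.MVC2
end
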