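import Pool.Agent.Helper16.LGG.G01

/- Helper12.MVP.Defs -/
section
/-!
Project MV, BLOCK P (Gaussian pairing), definitions.

Overview (section 4 of `/team-store/helper60_MV_Proof.md`). `(H, σ)` finite set with a permutation, `R` a polynomial in
`t_0, t_1, ...` such that (block D) for all even `N` and `s_i > 0`
`PKs σ N s = R (t_k = ∑ s_i^{-2k-1})`. Then `ZZ σ ε → Wick R` as `ε → 0+`.

1. `JM (MT σ τ) g = ∫_{x > 0} ∏_f g_f (p_f(x)) dx` for a pairing `τ`; for exponentials `g_f = e^{-s_f p}` it is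
   `∏_e 1 / (s_{face h} + s_{face τ h})` (`Exp.lean`, `Lab.lean`).
2. Both sides of `∑_τ ∑_{lab : Face → α} ∏_f m_{lab f} JM(e^{-s_{lab f} p}) = R(t_k = ∑ m_i s_i^{-2k-1})` are polynomials in `m`;
   they agree for even natural `m` (repeat `s_i` `m_i` times), so they are equal (`PolyId.lean`).
3. Coefficient of `∏ m_i`: sum over bijections `lab : Face ≃ α` on the left, `perR` on the right (`Coef.lean`, `BijExp.lean`).
4. Multilinearity and density of exponentials: the same for all continuous `g_i` vanishing for large `p`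
   (`Bound.lean`, `Mom.lean`, `Dens.lean`, `Multi.lean`, `BijAll.lean`).
5. `α = Fin m × Bool`, `g_{(c,b)} = tentE ε (· - a_c)`, multiply by `∏ phi (a_c)` and integrate over `a ∈ ℝ^m`
   (`GaussL.lean`, `GaussR.lean`), divide by `2^m m!` (`Sym.lean`, `Haf.lean`), sum over `m`, let `ε → 0` (`CeLim.lean`, `Main.lean`).
-/

namespace Pool.Agent.Helper12.MVP

open Finset MeasureTheory Filter Topology Pool.Agent.Helper60.MV

/-- pairings of `H` -/
abbrev Prg (H : Type) : Type := {τ : Equiv.Perm H // IsPairing τ}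

noncomputable instance {H : Type} [Fintype H] : Fintype (Prg H) := by
  classical
  exact Subtype.fintype _

/-- linear form of the row `f` of `M` -/
noncomputable def row {φ ι : Type} [Fintype ι] (M : φ → ι → ℕ) (f : φ) (x : ι → ℝ) : ℝ :=
  ∑ e, (M f e : ℝ) * x e

/-- the functional `∫_{x > 0} ∏_f g_f (p_f x) dx` -/
noncomputable def JM {φ ι : Type} [Fintype φ] [Fintype ι] (M : φ → ι → ℕ) (g : φ → ℝ → ℝ) : ℝ :=
  ∫ x in {x : ι → ℝ | ∀ e, 0 < x e}, ∏ f, g f (row M f x)

/-- incidence matrix (faces, edges) of a permutation `τ` -/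
noncomputable def MT {H : Type} [Fintype H] (σ τ : Equiv.Perm H) : Cyc (σ * τ) → Cyc τ → ℕ :=
  fun f e => by
    classical
    exact (univ.filter (fun h : H => cyc (σ * τ) h = f ∧ cyc τ h = e)).card

/-- continuous functions with `g = O(e^{-c p})` on `p ≥ 0` -/
structure Gc (c : ℝ) (g : ℝ → ℝ) : Prop where
  cont : Continuous g
  bd : ∃ B : ℝ, ∀ p : ℝ, 0 ≤ p → |g p| ≤ B * Real.exp (-(c * p))

/-- the moments `∫_0^∞ g(p) p^{2k} / (2k)! dp` -/
noncomputable def mom (k : ℕ) (g : ℝ → ℝ) : ℝ :=
  ∫ p in Set.Ioi (0:ℝ), g p * (p ^ (2 * k) / ((2 * k).factorial : ℝ))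

/-- the sum of `PK` for a general `(H, σ)` -/
noncomputable def PKs {H : Type} [Fintype H] (σ : Equiv.Perm H) (N : ℕ) (s : Fin N → ℝ) : ℝ := by
  classical
  exact ∑ τ ∈ univ.filter (fun τ : Equiv.Perm H => IsPairing τ),
    ∑ lab ∈ univ.filter (fun lab : H → Fin N => ∀ h, lab ((σ * τ) h) = lab h),
      ∏ e : Cyc τ, 1 / (s (lab e.rep) + s (lab (τ e.rep)))

/-- permanent-like sum over all bijections between the positions of the list `L` and `α` (zero if the cardinalities are
different) -/
noncomputable def perL {α : Type} [Fintype α] [DecidableEq α] (t : α → ℕ → ℝ) (L : List ℕ) : ℝ :=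
  ∑ π : Fin L.length ≃ α, ∏ j, t (π j) (L.get j)

/-- the same, extended linearly to polynomials -/
noncomputable def perR {α : Type} [Fintype α] [DecidableEq α] (t : α → ℕ → ℝ) (R : MvPolynomial ℕ ℝ) : ℝ :=
  ∑ m ∈ R.support, R.coeff m * perL t m.toMultiset.toList

/-- the regularised covariance -/
noncomputable def Ce (ε : ℝ) (k l : ℕ) : ℝ :=
  ∫ a : ℝ, phi a * (mom k (fun p => tentE ε (p - a)) * mom l (fun p => tentE ε (p - a)))

/-- the pairing of `F` given by a bijection with `Fin m × Bool` -/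
def prOf {F : Type} {m : ℕ} (e : F ≃ Fin m × Bool) : Equiv.Perm F where
  toFun f := e.symm ((e f).1, !(e f).2)
  invFun f := e.symm ((e f).1, !(e f).2)
  left_inv f := by simp
  right_inv f := by simp

/-- the property of `R` proved in block D -/
def DProp {H : Type} [Fintype H] (σ : Equiv.Perm H) (R : MvPolynomial ℕ ℝ) : Prop :=
  ∀ N : ℕ, Even N → ∀ s : Fin N → ℝ, (∀ i, 0 < s i) →
    PKs σ N s = MvPolynomial.eval (fun k => ∑ i, (1 / s i) ^ (2 * k + 1)) R

end Pool.Agent.Helper12.MVP
end

/- Helper12.MVP.Exp -/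
section
/-!
MV-P1. Integrals of exponentials over the orthant; the functional `JM` on exponentials.

Proofs. `restrict_orthant`: the orthant is `Set.pi univ (fun _ => Set.Ioi 0)` and `Measure.restrict_pi_pi`
(`volume = Measure.pi (fun _ => volume)`, `volume_pi`). Then `exp (-∑ b_e x_e) = ∏ exp (-(b_e x_e))`, a product of
integrable functions of one variable (`Integrable.fintype_prod`), integral
`integral_fintype_prod_eq_prod`; one variable: `∫_{x > 0} e^{-b x} dx = 1/b` (`integral_exp_neg_mul_...`,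
`integrableOn_exp_mul_Ioi`, `integral_exp_mul_Ioi`).
`prod_exp_row`: `Real.exp_sum`, exchange of sums. `JM_exp`: `∑_f M f e s_f > 0` as the column sum is `2` and `s > 0`
(some `M f e ≥ 1`).
-/

namespace Pool.Agent.Helper12.MVP

open Finset MeasureTheory Filter Topology Pool.Agent.Helper60.MV

theorem restrict_orthant (ι : Type) [Fintype ι] :
    (volume : Measure (ι → ℝ)).restrict {x : ι → ℝ | ∀ e, 0 < x e} =
      Measure.pi (fun _ : ι => (volume : Measure ℝ).restrict (Set.Ioi 0)) := by
  have h : {x : ι → ℝ | ∀ e, 0 < x e} = Set.pi Set.univ (fun _ => Set.Ioi (0:ℝ)) := by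
    ext x
    simp
  rw [h, volume_pi, Measure.restrict_pi_pi]

theorem one_dim_integrable (b : ℝ) (hb : 0 < b) :
    Integrable (fun t : ℝ => Real.exp (-(b * t))) ((volume : Measure ℝ).restrict (Set.Ioi 0)) := by
  have h := integrableOn_exp_mul_Ioi (a := -b) (by linarith) 0
  refine (integrable_congr ?_).mp h
  refine Filter.Eventually.of_forall (fun t => ?_)
  simp only [neg_mul]

theorem one_dim_integral (b : ℝ) (hb : 0 < b) :
    ∫ t in Set.Ioi (0:ℝ), Real.exp (-(b * t)) = 1 / b := by
  have h := integral_exp_mul_Ioi (a := -b) (by linarith) 0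
  simp only [neg_mul, mul_zero, neg_zero, Real.exp_zero] at h
  rw [h, neg_div_neg_eq]

theorem exp_sum_prod {ι : Type} [Fintype ι] (b x : ι → ℝ) :
    Real.exp (-(∑ e, b e * x e)) = ∏ e, Real.exp (-(b e * x e)) := by
  rw [← Real.exp_sum, Finset.sum_neg_distrib]

theorem exp_orthant_integrable {ι : Type} [Fintype ι] (b : ι → ℝ) (hb : ∀ e, 0 < b e) :
    IntegrableOn (fun x : ι → ℝ => Real.exp (-(∑ e, b e * x e))) {x : ι → ℝ | ∀ e, 0 < x e} := by
  unfold IntegrableOn
  rw [restrict_orthant]
  simp only [exp_sum_prod]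
  exact Integrable.fintype_prod (f := fun e t => Real.exp (-(b e * t)))
    (fun e => one_dim_integrable (b e) (hb e))

theorem exp_orthant_integral {ι : Type} [Fintype ι] (b : ι → ℝ) (hb : ∀ e, 0 < b e) :
    ∫ x in {x : ι → ℝ | ∀ e, 0 < x e}, Real.exp (-(∑ e, b e * x e)) = ∏ e, 1 / b e := by
  rw [restrict_orthant]
  simp only [exp_sum_prod]
  rw [integral_fintype_prod_eq_prod (f := fun e t => Real.exp (-(b e * t)))]
  refine Finset.prod_congr rfl (fun e _ => ?_)
  exact one_dim_integral (b e) (hb e)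

theorem prod_exp_row {φ ι : Type} [Fintype φ] [Fintype ι] (M : φ → ι → ℕ) (s : φ → ℝ)
    (x : ι → ℝ) :
    ∏ f, Real.exp (-(s f * row M f x)) =
      Real.exp (-(∑ e, (∑ f, (M f e : ℝ) * s f) * x e)) := by
  rw [← Real.exp_sum, Finset.sum_neg_distrib]
  congr 2
  unfold row
  have h1 : ∀ f, s f * ∑ e, (M f e : ℝ) * x e = ∑ e, (M f e : ℝ) * s f * x e := by
    intro f
    rw [Finset.mul_sum]
    refine Finset.sum_congr rfl (fun e _ => ?_)
    ring
  simp only [h1]
  rw [Finset.sum_comm]
  refine Finset.sum_congr rfl (fun e _ => ?_)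
  rw [Finset.sum_mul]

theorem JM_exp {φ ι : Type} [Fintype φ] [Fintype ι] (M : φ → ι → ℕ)
    (hM : ∀ e, ∑ f, M f e = 2) (s : φ → ℝ) (hs : ∀ f, 0 < s f) :
    JM M (fun f p => Real.exp (-(s f * p))) = ∏ e, 1 / (∑ f, (M f e : ℝ) * s f) := by
  unfold JM
  simp only [prod_exp_row]
  refine exp_orthant_integral _ (fun e => ?_)
  have h1 : ∃ f, M f e ≠ 0 := by
    by_contra hcon
    push Not at hcon
    have h2 := hM e
    rw [Finset.sum_eq_zero (fun f _ => hcon f)] at h2
    omega
  obtain ⟨f, hf⟩ := h1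
  refine Finset.sum_pos' (fun f _ => mul_nonneg (Nat.cast_nonneg _) (hs f).le)
    ⟨f, Finset.mem_univ f, mul_pos ?_ (hs f)⟩
  exact_mod_cast Nat.pos_of_ne_zero hf

end Pool.Agent.Helper12.MVP
end

/- Helper12.MVP.Dens -/
section
/-!
MV-P4. Density of exponentials.

Proofs. The closure properties of `Gc c` are immediate (`Gc_of_vanish`: a continuous `g` with `g p = 0` for `p ≥ R` is bounded on
`[0, max R 0]` by compactness, and `e^{-c p}` is bounded below there by a positive constant; any real `c`).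
`dens`: let `G : [0,1] → ℝ`, `G u = e^{c p} g p` with `p = -log u` for `u > 0` and `G 0 = 0`. It is continuous on `[0,1]` (it vanishes for
`u ≤ e^{-R}`). Given `δ > 0` there is a polynomial `q` with `|G u - q u| ≤ δ` on `[0,1]` (Weierstrass:
`exists_polynomial_near_of_continuousOn`). Let `h p = e^{-c p} q(e^{-p}) = ∑_j q_j e^{-(c+j) p}`. By additivity, homogeneity and `hexp`,
`D h = 0` (induction over the finite sum; all partial sums are in `Gc c`; the empty sum: `D 0 = D (0 • u) = 0`). For `p ≥ 0`: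
`|g p - h p| = e^{-c p} |G(e^{-p}) - q(e^{-p})| ≤ δ e^{-c p}`. So `|D g| = |D (g - h) + D h| ≤ B δ` for every `δ > 0`
(`g = (g - h) + h`).
-/

namespace Pool.Agent.Helper12.MVP

open Finset MeasureTheory Filter Topology Pool.Agent.Helper60.MV

theorem Gc_exp (c s : ℝ) (h : c ≤ s) : Gc c (fun p => Real.exp (-(s * p))) := by
  refine ⟨by fun_prop, 1, ?_⟩
  intro p hp
  rw [abs_of_pos (Real.exp_pos _), one_mul]
  apply Real.exp_le_exp.mpr
  have := mul_le_mul_of_nonneg_right h hp
  linarith

theorem Gc_add (c : ℝ) (u v : ℝ → ℝ) (hu : Gc c u) (hv : Gc c v) : Gc c (u + v) := by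
  obtain ⟨B, hB⟩ := hu.bd
  obtain ⟨B', hB'⟩ := hv.bd
  refine ⟨hu.cont.add hv.cont, B + B', ?_⟩
  intro p hp
  have h1 := hB p hp
  have h2 := hB' p hp
  have h3 := abs_add_le (u p) (v p)
  simp only [Pi.add_apply]
  nlinarith

theorem Gc_smul (c a : ℝ) (u : ℝ → ℝ) (hu : Gc c u) : Gc c (a • u) := by
  obtain ⟨B, hB⟩ := hu.bd
  refine ⟨hu.cont.const_smul a, |a| * B, ?_⟩
  intro p hp
  have h1 := hB p hp
  simp only [Pi.smul_apply, smul_eq_mul, abs_mul]
  rw [mul_assoc]
  exact mul_le_mul_of_nonneg_left h1 (abs_nonneg a)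

theorem Gc_of_vanish (c : ℝ) (g : ℝ → ℝ) (hg : Continuous g) (R : ℝ)
    (hR : ∀ p, R ≤ p → g p = 0) : Gc c g := by
  refine ⟨hg, ?_⟩
  have hcont : ContinuousOn (fun p => |g p| * Real.exp (c * p)) (Set.Icc 0 (max R 0)) := by
    apply Continuous.continuousOn
    fun_prop
  obtain ⟨C, hC⟩ := isCompact_Icc.exists_bound_of_continuousOn hcont
  refine ⟨C, ?_⟩
  intro p hp
  by_cases h : p ≤ max R 0
  · have h1 := hC p ⟨hp, h⟩
    rw [Real.norm_of_nonneg (by positivity)] at h1
    rw [Real.exp_neg, ← div_eq_mul_inv, le_div_iff₀ (Real.exp_pos _)]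
    exact h1
  · push Not at h
    have h2 : R ≤ p := le_trans (le_max_left _ _) h.le
    rw [hR p h2, abs_zero]
    have h3 := hC 0 ⟨le_rfl, le_max_right _ _⟩
    have h4 : 0 ≤ C := le_trans (norm_nonneg _) h3
    positivity

theorem dens (c : ℝ) (D : (ℝ → ℝ) → ℝ)
    (hadd : ∀ u v, Gc c u → Gc c v → D (u + v) = D u + D v)
    (hsmul : ∀ (a : ℝ) u, Gc c u → D (a • u) = a * D u)
    (B : ℝ) (hB : ∀ u N, Gc c u → (∀ p, 0 ≤ p → |u p| ≤ N * Real.exp (-(c * p))) →
      |D u| ≤ B * N)
    (hexp : ∀ s, c ≤ s → D (fun p => Real.exp (-(s * p))) = 0)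
    (g : ℝ → ℝ) (hg : Continuous g) (R : ℝ) (hR : ∀ p, R ≤ p → g p = 0) : D g = 0 := by
  have hgG : Gc c g := Gc_of_vanish c g hg R hR
  have hD0 : D 0 = 0 := by
    have := hsmul 0 g hgG
    rwa [zero_smul, zero_mul] at this
  have hG0 : Gc c 0 := by
    have := Gc_smul c 0 g hgG
    rwa [zero_smul] at this
  -- the transported function
  let G : ℝ → ℝ := fun u => if u ≤ 0 then 0 else Real.exp (c * (-Real.log u)) * g (-Real.log u)
  have hGc : ContinuousOn G (Set.Icc 0 1) := by
    intro u hu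
    apply ContinuousAt.continuousWithinAt
    by_cases h : u < Real.exp (-R)
    · have hev : G =ᶠ[𝓝 u] fun _ => 0 := by
        filter_upwards [Iio_mem_nhds h] with v hv
        show (if v ≤ 0 then 0 else Real.exp (c * (-Real.log v)) * g (-Real.log v)) = 0
        split_ifs with h1
        · rfl
        · push Not at h1
          have h2 : Real.log v < -R := by
            rw [Real.log_lt_iff_lt_exp h1]
            exact hv
          rw [hR _ (by linarith), mul_zero]
      exact ContinuousAt.congr continuousAt_const hev.symm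
    · push Not at h
      have hu0 : 0 < u := lt_of_lt_of_le (Real.exp_pos _) h
      have hev : G =ᶠ[𝓝 u] fun v => Real.exp (c * (-Real.log v)) * g (-Real.log v) := by
        filter_upwards [Ioi_mem_nhds hu0] with v hv
        show (if v ≤ 0 then 0 else Real.exp (c * (-Real.log v)) * g (-Real.log v)) = _
        rw [if_neg (not_le.mpr hv)]
      refine ContinuousAt.congr ?_ hev.symm
      have hlog : ContinuousAt (fun v : ℝ => -Real.log v) u :=
        (Real.continuousAt_log hu0.ne').neg
      have h1 : ContinuousAt (fun v : ℝ => Real.exp (c * (-Real.log v))) u :=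
        Real.continuous_exp.continuousAt.comp (continuousAt_const.mul hlog)
      have h2 : ContinuousAt (fun v : ℝ => g (-Real.log v)) u :=
        ContinuousAt.comp (f := fun v : ℝ => -Real.log v) hg.continuousAt hlog
      exact h1.mul h2
  -- main estimate
  have key : ∀ δ : ℝ, 0 < δ → |D g| ≤ B * δ := by
    intro δ hδ
    obtain ⟨q, hq⟩ := exists_polynomial_near_of_continuousOn 0 1 G hGc δ hδ
    -- finite sums
    have hsum : ∀ s : Finset ℕ,
        Gc c (∑ j ∈ s, q.coeff j • (fun p : ℝ => Real.exp (-((c + j) * p)))) ∧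
        D (∑ j ∈ s, q.coeff j • (fun p : ℝ => Real.exp (-((c + j) * p)))) = 0 := by
      intro s
      induction s using Finset.induction_on with
      | empty => simp only [Finset.sum_empty]; exact ⟨hG0, hD0⟩
      | insert a s ha ih =>
        rw [Finset.sum_insert ha]
        have hca : c ≤ c + (a : ℝ) := by
          have : (0 : ℝ) ≤ (a : ℝ) := Nat.cast_nonneg a
          linarith
        have h1 : Gc c (q.coeff a • (fun p : ℝ => Real.exp (-((c + a) * p)))) :=
          Gc_smul c _ _ (Gc_exp c _ hca)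
        refine ⟨Gc_add c _ _ h1 ih.1, ?_⟩
        rw [hadd _ _ h1 ih.1, hsmul _ _ (Gc_exp c _ hca), hexp _ hca, ih.2]
        ring
    obtain ⟨hh1, hh2⟩ := hsum (Finset.range (q.natDegree + 1))
    set h : ℝ → ℝ := ∑ j ∈ Finset.range (q.natDegree + 1),
      q.coeff j • (fun p : ℝ => Real.exp (-((c + j) * p))) with hh
    have hval : ∀ p, h p = Real.exp (-(c * p)) * q.eval (Real.exp (-p)) := by
      intro p
      rw [hh, Finset.sum_apply, Polynomial.eval_eq_sum_range, Finset.mul_sum]
      apply Finset.sum_congr rfl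
      intro j _
      simp only [Pi.smul_apply, smul_eq_mul]
      rw [← Real.exp_nat_mul]
      have : Real.exp (-((c + j) * p)) = Real.exp (-(c * p)) * Real.exp ((j : ℝ) * -p) := by
        rw [← Real.exp_add]
        congr 1
        ring
      rw [this]
      ring
    have hgh : Gc c (g + (-1 : ℝ) • h) := Gc_add c _ _ hgG (Gc_smul c _ _ hh1)
    have hbd : ∀ p, 0 ≤ p → |(g + (-1 : ℝ) • h) p| ≤ δ * Real.exp (-(c * p)) := by
      intro p hp
      have h1 : Real.exp (-p) ∈ Set.Icc (0 : ℝ) 1 :=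
        ⟨(Real.exp_pos _).le, Real.exp_le_one_iff.mpr (by linarith)⟩
      have h2 := hq _ h1
      have h3 : G (Real.exp (-p)) = Real.exp (c * p) * g p := by
        show (if Real.exp (-p) ≤ 0 then 0 else _) = _
        rw [if_neg (not_le.mpr (Real.exp_pos _)), Real.log_exp, neg_neg]
      rw [h3] at h2
      have h4 : (g + (-1 : ℝ) • h) p =
          Real.exp (-(c * p)) * (Real.exp (c * p) * g p - q.eval (Real.exp (-p))) := by
        have h5 : Real.exp (-(c * p)) * Real.exp (c * p) = 1 := by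
          rw [← Real.exp_add, neg_add_cancel, Real.exp_zero]
        simp only [Pi.add_apply, Pi.smul_apply, smul_eq_mul, hval]
        linear_combination (-(g p)) * h5
      rw [h4, abs_mul, abs_of_pos (Real.exp_pos _), mul_comm]
      apply mul_le_mul_of_nonneg_right _ (Real.exp_pos _).le
      rw [abs_sub_comm]
      exact h2.le
    have h5 := hB _ δ hgh hbd
    have h6 : D (g + (-1 : ℝ) • h) = D g := by
      rw [hadd _ _ hgG (Gc_smul c _ _ hh1), hsmul _ _ hh1, hh2]
      ring
    rwa [h6] at h5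
  -- conclude
  have h7 : |D g| ≤ 0 := by
    apply le_of_forall_pos_le_add
    intro ε hε
    have hB1 : 0 < |B| + 1 := by positivity
    have h8 := key (ε / (|B| + 1)) (div_pos hε hB1)
    have h9 : B * (ε / (|B| + 1)) ≤ ε := by
      rw [← mul_div_assoc, div_le_iff₀ hB1]
      have := le_abs_self B
      nlinarith
    linarith
  exact abs_eq_zero.mp (le_antisymm h7 (abs_nonneg _))

end Pool.Agent.Helper12.MVP
end
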