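import Pool.Agent.Helper16.LGG.G01

/- Helper52.MVD.DDefs -/
section
/-!
Project MV, block D1 (and interface with D2): definitions.

`F` is a field containing `ℝ` with `N` commuting derivations `d i` and elements `s j` with
`d i (s j) = δ_ij` (think of rational functions of `s_1, ..., s_N`). `W` stands for `w²`.
-/

namespace Pool.Agent.Helper52.MVD

open Finset Pool.Agent.Helper60.MV

/-- `N` commuting derivations of a field `F ⊇ ℝ` and elements `s j` with `d i (s j) = δ_ij` -/
structure DF (F : Type) [Field F] [Algebra ℝ F] (N : ℕ) where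
  s : Fin N → F
  d : Fin N → Derivation ℝ F F
  comm : ∀ i j x, d i (d j x) = d j (d i x)
  ds : ∀ i j, d i (s j) = if i = j then 1 else 0

/-- multiplication by `a` -/
noncomputable def mu {F : Type} [Field F] [Algebra ℝ F] (a : F) : Module.End ℝ F :=
  LinearMap.mulLeft ℝ a

namespace DF

variable {F : Type} [Field F] [Algebra ℝ F] {N : ℕ} (D : DF F N)

/-- `D_i = ∂_i - 1 / (2 s_i)` -/
noncomputable def DD (i : Fin N) : Module.End ℝ F :=
  (D.d i : F →ₗ[ℝ] F) - mu (1 / (2 * D.s i))

/-- `K_i = (1 + W D_i)^{-1} = ∑ W^n (- D_i)^n` -/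
noncomputable def KK (i : Fin N) : PowerSeries (Module.End ℝ F) :=
  PowerSeries.mk fun n => (-(D.DD i)) ^ n

/-- `𝒜_i = 1 - W s_i^{-1} K_i` -/
noncomputable def AA (i : Fin N) : PowerSeries (Module.End ℝ F) :=
  1 - PowerSeries.X * (PowerSeries.C (mu (1 / D.s i)) * D.KK i)

/-- `𝒜^{⊗ N}` (the factors commute) -/
noncomputable def AN : PowerSeries (Module.End ℝ F) := (List.ofFn D.AA).prod

/-- the coefficient of `W^m` in `𝒜^{⊗ N}` -/
noncomputable def An (m : ℕ) : Module.End ℝ F := PowerSeries.coeff m D.AN

/-- `G = ∏_{i<j} (s_i - s_j) / (s_i + s_j)` -/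
noncomputable def G : F := ∏ i, ∏ j ∈ Ioi i, (D.s i - D.s j) / (D.s i + D.s j)

/-- The characterisation of the matrix model: `L : ℝ[p_1, p_3, ...] → F` with `X j = p_(2j+1)`,
`L 1 = G` and, for all `ν ≥ 0` and all `f`, the coefficient of `w^(2ν+1)` of `𝒜^{⊗ N} (L (Ĵ(w) f))`
vanishes, `Ĵ(w) = ∑_j (p_(2j+1) w^(2j+1) + (2j+1)/2 * w^(-2j-1) * ∂_j)`. -/
structure IsSol (L : MvPolynomial ℕ ℝ →ₗ[ℝ] F) : Prop where
  one : L 1 = D.G
  eq : ∀ (ν : ℕ) (f : MvPolynomial ℕ ℝ),
    ∑ j ∈ range (ν + 1), D.An (ν - j) (L (MvPolynomial.X j * f)) +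
      ∑ j ∈ f.vars, ((2 * (j : ℝ) + 1) / 2) • D.An (ν + j + 1) (L (MvPolynomial.pderiv j f)) = 0

end DF

/-- `PK` over an arbitrary field -/
noncomputable def PKF {F : Type} [Field F] {ρ : Type} [Fintype ρ] (K : ρ → ℕ) (N : ℕ)
    (s : Fin N → F) : F := by
  classical
  exact ∑ τ ∈ univ.filter (fun τ : Equiv.Perm (HK K) => IsPairing τ),
    ∑ lab ∈ univ.filter (fun lab : HK K → Fin N => ∀ h, lab ((rot K * τ) h) = lab h),
      ∏ e : Cyc τ, 1 / (s (lab e.rep) + s (lab (τ e.rep)))

theorem PKF_real {ρ : Type} [Fintype ρ] (K : ρ → ℕ) (N : ℕ) (s : Fin N → ℝ) :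
    PKF K N s = PK K N s := rfl

/-- the bosonic monomial `∏ p_{K_i}` -/
noncomputable def bos {ρ : Type} [Fintype ρ] (K : ρ → ℕ) : MvPolynomial ℕ ℝ :=
  ∏ i, MvPolynomial.X ((K i - 1) / 2)

/-- the value of `t_k` -/
noncomputable def tval {F : Type} [Field F] {N : ℕ} (s : Fin N → F) (k : ℕ) : F :=
  ∑ i, (1 / s i) ^ (2 * k + 1)

end Pool.Agent.Helper52.MVD
end

/- Helper52.MVD.MDefs -/
section
/-!
Project MV, block D1: the matrix layer (definitions).
-/

namespace Pool.Agent.Helper52.MVD

open Finset Pool.Agent.Helper60.MV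

/-- polynomials in the entries of an `N × N` matrix -/
abbrev MX (N : ℕ) (F : Type) [Field F] : Type := MvPolynomial (Fin N × Fin N) F

/-- the generic matrix -/
noncomputable def XM (N : ℕ) (F : Type) [Field F] : Matrix (Fin N) (Fin N) (MX N F) :=
  fun i j => MvPolynomial.X (i, j)

/-- `Tr X^k` -/
noncomputable def pt (N : ℕ) (F : Type) [Field F] (k : ℕ) : MX N F := ∑ i, (XM N F ^ k) i i

/-- `T_m = ∑ s_i⁻¹ (X^m)_ii` -/
noncomputable def TT {N : ℕ} {F : Type} [Field F] (s : Fin N → F) (m : ℕ) : MX N F :=
  ∑ i, MvPolynomial.C (1 / s i) * (XM N F ^ m) i i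

/-- the substitution `X j ↦ Tr X^(2j+1)` -/
noncomputable def subT (N : ℕ) (F : Type) [Field F] [Algebra ℝ F] :
    MvPolynomial ℕ ℝ →ₐ[ℝ] MX N F :=
  MvPolynomial.aeval (fun j => pt N F (2 * j + 1))

/-- `E` is the Gaussian expectation with covariance `⟨X_ij X_ji⟩ = 1 / (s_i + s_j)` -/
structure IsMat {N : ℕ} {F : Type} [Field F] (s : Fin N → F) (E : MX N F →ₗ[F] F) : Prop where
  one : E 1 = 1
  step : ∀ i j g, E (MvPolynomial.X (i, j) * g) = (s i + s j)⁻¹ * E (MvPolynomial.pderiv (j, i) g)

/-- the derivation `X ↦ [E_ji, X]` -/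
noncomputable def delt (N : ℕ) (F : Type) [Field F] (i j : Fin N) :
    Derivation F (MX N F) (MX N F) :=
  MvPolynomial.mkDerivation F (fun kl : Fin N × Fin N =>
    (if kl.1 = j then MvPolynomial.X (i, kl.2) else 0) -
      (if kl.2 = i then MvPolynomial.X (kl.1, j) else 0))

namespace DF

variable {F : Type} [Field F] [Algebra ℝ F] {N : ℕ} (D : DF F N)

theorem charZero (_ : DF F N) : CharZero F := charZero_of_injective_algebraMap
  (algebraMap ℝ F).injective

theorem s_ne (i : Fin N) : D.s i ≠ 0 := by
  intro h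
  have := D.ds i i
  rw [h] at this
  simp at this

theorem add_ne (i j : Fin N) : D.s i + D.s j ≠ 0 := by
  intro h
  have h2 : D.d i (D.s i + D.s j) = 0 := by rw [h]; simp
  rw [map_add, D.ds, D.ds] at h2
  have := D.charZero
  by_cases hij : i = j
  · simp only [hij, if_true] at h2
    norm_num at h2
  · simp [hij] at h2

theorem sub_ne {i j : Fin N} (hij : i ≠ j) : D.s i - D.s j ≠ 0 := by
  intro h
  have h2 : D.d i (D.s i - D.s j) = 0 := by rw [h]; simp
  rw [map_sub, D.ds, D.ds] at h2
  simp [hij] at h2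

end DF

end Pool.Agent.Helper52.MVD
end

/- Helper52.MVD.Gauss -/
section
/-!
Project MV, block D1, module D1-1: existence of the Gaussian expectation.

Proof. Let `Δ = (1/2) ∑_{a,b} C a b ∂_a ∂_b` (a linear endomorphism of `MvPolynomial α F`, lowering the
total degree by 2, so locally nilpotent) and `E g = ∑_n (1/n!) (constant coefficient of Δ^n g)` (a
finite sum for every `g`: e.g. `∑ᶠ n`, or the sum over `n ∈ range (g.totalDegree + 1)`, or over any
larger range; linearity follows). Since `∂_c X_a - X_a ∂_c = δ_ac` (and the `∂` commute),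
`Δ (X_a g) = X_a Δ g + ∑_b C a b ∂_b g` (use the symmetry of `C`), so with `∂' = ∑_b C a b ∂_b`, which
commutes with `Δ`: `Δ^n (X_a g) = X_a Δ^n g + n ∂' Δ^(n-1) g` (induction on `n`). The constant
coefficient of `X_a h` is 0, so `E (X_a g) = ∑_n (n/n!) [∂' Δ^(n-1) g]_0 = ∑_b C a b E (∂_b g)`.
-/

namespace Pool.Agent.Helper52.MVD

open Finset Pool.Agent.Helper60.MV

private theorem pd_comm {α F : Type} [Field F] (a b : α) (g : MvPolynomial α F) :
    MvPolynomial.pderiv a (MvPolynomial.pderiv b g) =
      MvPolynomial.pderiv b (MvPolynomial.pderiv a g) := by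
  classical
  have h : ⁅(MvPolynomial.pderiv a : Derivation F (MvPolynomial α F) (MvPolynomial α F)),
      (MvPolynomial.pderiv b : Derivation F (MvPolynomial α F) (MvPolynomial α F))⁆ = 0 := by
    apply MvPolynomial.derivation_ext
    intro i
    rw [Derivation.commutator_apply, MvPolynomial.pderiv_X, MvPolynomial.pderiv_X]
    simp only [Pi.single_apply]
    split_ifs <;> simp
  have h2 := congrArg (fun d : Derivation F (MvPolynomial α F) (MvPolynomial α F) => d g) h
  simp only [Derivation.commutator_apply] at h2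
  exact sub_eq_zero.1 h2

/-- the operator `∂' = ∑ C a b ∂_b` -/
private noncomputable def dP {α F : Type} [Field F] [Fintype α] (C : α → α → F) (a : α) :
    Module.End F (MvPolynomial α F) :=
  ∑ b, C a b • Derivation.toLinearMap (MvPolynomial.pderiv (R := F) b)

/-- the operator `Δ` -/
private noncomputable def lapl {α F : Type} [Field F] [Fintype α] (C : α → α → F) :
    Module.End F (MvPolynomial α F) :=
  (1 / 2 : F) • ∑ c, Derivation.toLinearMap (MvPolynomial.pderiv (R := F) c) ∘ₗ dP C c

private theorem dP_apply {α F : Type} [Field F] [Fintype α] (C : α → α → F) (a : α)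
    (g : MvPolynomial α F) : dP C a g = ∑ b, C a b • MvPolynomial.pderiv b g := by
  simp [dP, LinearMap.sum_apply]

private theorem lapl_apply {α F : Type} [Field F] [Fintype α] (C : α → α → F)
    (g : MvPolynomial α F) : lapl C g = (1 / 2 : F) • ∑ c, MvPolynomial.pderiv c (dP C c g) := by
  simp [lapl, LinearMap.sum_apply]

private theorem pd_dP {α F : Type} [Field F] [Fintype α] (C : α → α → F) (a c : α)
    (g : MvPolynomial α F) :
    MvPolynomial.pderiv c (dP C a g) = dP C a (MvPolynomial.pderiv c g) := by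
  rw [dP_apply, dP_apply, map_sum]
  refine sum_congr rfl fun b _ => ?_
  rw [Derivation.map_smul, pd_comm]

private theorem pd_lapl {α F : Type} [Field F] [Fintype α] (C : α → α → F) (c : α)
    (g : MvPolynomial α F) :
    MvPolynomial.pderiv c (lapl C g) = lapl C (MvPolynomial.pderiv c g) := by
  rw [lapl_apply, lapl_apply, Derivation.map_smul, map_sum]
  congr 1
  refine sum_congr rfl fun b _ => ?_
  rw [pd_comm, pd_dP]

private theorem dP_lapl {α F : Type} [Field F] [Fintype α] (C : α → α → F) (a : α)
    (g : MvPolynomial α F) : dP C a (lapl C g) = lapl C (dP C a g) := by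
  rw [dP_apply, dP_apply, map_sum]
  refine sum_congr rfl fun b _ => ?_
  rw [pd_lapl, map_smul]

private theorem dP_lapl_pow {α F : Type} [Field F] [Fintype α] (C : α → α → F) (a : α)
    (n : ℕ) (g : MvPolynomial α F) : dP C a ((lapl C ^ n) g) = (lapl C ^ n) (dP C a g) := by
  induction n generalizing g with
  | zero => simp
  | succ n ih =>
    rw [pow_succ, Module.End.mul_apply, Module.End.mul_apply, ih, dP_lapl]

private theorem dP_X_mul {α F : Type} [Field F] [Fintype α] [DecidableEq α] (C : α → α → F)
    (a c : α) (g : MvPolynomial α F) :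
    dP C c (MvPolynomial.X a * g) = C c a • g + MvPolynomial.X a * dP C c g := by
  rw [dP_apply, dP_apply, mul_sum]
  have h : ∀ b, C c b • MvPolynomial.pderiv b (MvPolynomial.X a * g) =
      (if b = a then C c a • g else 0) +
        MvPolynomial.X a * (C c b • MvPolynomial.pderiv b g) := by
    intro b
    rw [MvPolynomial.pderiv_mul, MvPolynomial.pderiv_X, smul_add, mul_smul_comm]
    by_cases hb : b = a
    · subst hb
      simp
    · simp [Pi.single_apply, hb, Ne.symm hb]
  rw [sum_congr rfl fun b _ => h b, sum_add_distrib]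
  simp

private theorem lapl_X_mul {α F : Type} [Field F] [CharZero F] [Fintype α] [DecidableEq α]
    (C : α → α → F) (hC : ∀ a b, C a b = C b a) (a : α) (g : MvPolynomial α F) :
    lapl C (MvPolynomial.X a * g) = MvPolynomial.X a * lapl C g + dP C a g := by
  rw [lapl_apply, lapl_apply, mul_smul_comm, mul_sum]
  have h : ∀ c, MvPolynomial.pderiv c (dP C c (MvPolynomial.X a * g)) =
      C a c • MvPolynomial.pderiv c g + (if c = a then dP C a g else 0) +
        MvPolynomial.X a * MvPolynomial.pderiv c (dP C c g) := by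
    intro c
    rw [dP_X_mul, map_add, Derivation.map_smul, MvPolynomial.pderiv_mul, MvPolynomial.pderiv_X,
      hC c a, add_assoc]
    congr 2
    by_cases hc : c = a
    · subst hc
      simp
    · simp [Pi.single_apply, hc, Ne.symm hc]
  rw [sum_congr rfl fun c _ => h c, sum_add_distrib, sum_add_distrib, ← dP_apply]
  simp only [sum_ite_eq', mem_univ, if_true]
  rw [smul_add, ← two_smul F (dP C a g), smul_smul, add_comm]
  norm_num

private theorem lapl_pow_X_mul {α F : Type} [Field F] [CharZero F] [Fintype α] [DecidableEq α]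
    (C : α → α → F) (hC : ∀ a b, C a b = C b a) (a : α) (n : ℕ) (g : MvPolynomial α F) :
    (lapl C ^ (n + 1)) (MvPolynomial.X a * g) =
      MvPolynomial.X a * (lapl C ^ (n + 1)) g + ((n : F) + 1) • dP C a ((lapl C ^ n) g) := by
  induction n with
  | zero => simp [lapl_X_mul C hC]
  | succ n ih =>
    have e : ∀ (m : ℕ) (h : MvPolynomial α F), (lapl C ^ (m + 1)) h = lapl C ((lapl C ^ m) h) := by
      intro m h
      rw [pow_succ', Module.End.mul_apply]
    rw [e (n + 1), ih, map_add, lapl_X_mul C hC, map_smul, ← dP_lapl, ← e n, ← e (n + 1)]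
    rw [Nat.cast_add, Nat.cast_one, add_smul ((n : F) + 1) 1, one_smul]
    abel

private theorem lapl_nilp {α F : Type} [Field F] [CharZero F] [Fintype α] [DecidableEq α]
    (C : α → α → F) (hC : ∀ a b, C a b = C b a) (g : MvPolynomial α F) :
    ∃ M : ℕ, ∀ n, M ≤ n → (lapl C ^ n) g = 0 := by
  induction g using MvPolynomial.induction_on with
  | C c =>
    refine ⟨1, fun n hn => ?_⟩
    obtain ⟨k, rfl⟩ := Nat.exists_eq_add_of_le hn
    rw [add_comm, pow_succ, Module.End.mul_apply, lapl_apply]
    simp [dP_apply]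
  | add p q hp hq =>
    obtain ⟨M1, h1⟩ := hp
    obtain ⟨M2, h2⟩ := hq
    refine ⟨max M1 M2, fun n hn => ?_⟩
    rw [map_add, h1 n (le_trans (le_max_left _ _) hn), h2 n (le_trans (le_max_right _ _) hn),
      add_zero]
  | mul_X p a hp =>
    obtain ⟨M, h⟩ := hp
    refine ⟨M + 1, fun n hn => ?_⟩
    obtain ⟨k, rfl⟩ := Nat.exists_eq_add_of_le hn
    rw [mul_comm, show M + 1 + k = (M + k) + 1 by ring, lapl_pow_X_mul C hC,
      h _ (by omega), h _ (by omega)]
    simp

theorem exists_gauss {α F : Type} [Field F] [CharZero F] [Fintype α] [DecidableEq α]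
    (C : α → α → F) (hC : ∀ a b, C a b = C b a) :
    ∃ E : MvPolynomial α F →ₗ[F] F, E 1 = 1 ∧
      ∀ a g, E (MvPolynomial.X a * g) = ∑ b, C a b * E (MvPolynomial.pderiv b g) := by
  classical
  choose M hM using lapl_nilp C hC
  let t : ℕ → MvPolynomial α F → F := fun n g =>
    ((n.factorial : F))⁻¹ * MvPolynomial.constantCoeff ((lapl C ^ n) g)
  have key : ∀ g K, (∀ n, K ≤ n → (lapl C ^ n) g = 0) →
      ∑ n ∈ range (M g), t n g = ∑ n ∈ range K, t n g := by
    intro g K hK
    have h1 : ∀ A B, (∀ n, A ≤ n → (lapl C ^ n) g = 0) → A ≤ B →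
        ∑ n ∈ range A, t n g = ∑ n ∈ range B, t n g := by
      intro A B hA hAB
      refine sum_subset (range_subset_range.2 hAB) fun n _ hn => ?_
      simp only [mem_range, not_lt] at hn
      simp [t, hA n hn]
    rcases le_total (M g) K with h | h
    · exact h1 _ _ (hM g) h
    · exact (h1 _ _ hK h).symm
  have tadd : ∀ n g h, t n (g + h) = t n g + t n h := by
    intro n g h
    simp [t, mul_add]
  have tsmul : ∀ n (c : F) g, t n (c • g) = c * t n g := by
    intro n c g
    simp only [t, map_smul, MvPolynomial.constantCoeff_smul, smul_eq_mul]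
    ring
  let E : MvPolynomial α F →ₗ[F] F :=
    { toFun := fun g => ∑ n ∈ range (M g), t n g
      map_add' := by
        intro g h
        have hz : ∀ n, max (M g) (M h) ≤ n → (lapl C ^ n) (g + h) = 0 := by
          intro n hn
          rw [map_add, hM g n (le_trans (le_max_left _ _) hn),
            hM h n (le_trans (le_max_right _ _) hn), add_zero]
        rw [key (g + h) _ hz, key g (max (M g) (M h)) fun n hn =>
          hM g n (le_trans (le_max_left _ _) hn), key h (max (M g) (M h)) fun n hn =>
          hM h n (le_trans (le_max_right _ _) hn), ← sum_add_distrib]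
        exact sum_congr rfl fun n _ => tadd n g h
      map_smul' := by
        intro c g
        have hz : ∀ n, M g ≤ n → (lapl C ^ n) (c • g) = 0 := by
          intro n hn
          rw [map_smul, hM g n hn, smul_zero]
        rw [key (c • g) _ hz, RingHom.id_apply, smul_eq_mul, mul_sum]
        exact sum_congr rfl fun n _ => tsmul n c g }
  have hE : ∀ g, E g = ∑ n ∈ range (M g), t n g := fun g => rfl
  refine ⟨E, ?_, ?_⟩
  · have hz : ∀ n, 1 ≤ n → (lapl C ^ n) (1 : MvPolynomial α F) = 0 := by
      intro n hn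
      obtain ⟨k, rfl⟩ := Nat.exists_eq_add_of_le hn
      rw [add_comm, pow_succ, Module.End.mul_apply, lapl_apply]
      simp [dP_apply]
    rw [hE, key 1 1 hz]
    simp [t]
  · intro a g
    have hz : ∀ n, M g + 1 ≤ n → (lapl C ^ n) (MvPolynomial.X a * g) = 0 := by
      intro n hn
      obtain ⟨k, rfl⟩ := Nat.exists_eq_add_of_le hn
      rw [show M g + 1 + k = (M g + k) + 1 by ring, lapl_pow_X_mul C hC,
        hM g _ (by omega), hM g _ (by omega)]
      simp
    rw [hE, key _ _ hz, sum_range_succ']
    have h0 : t 0 (MvPolynomial.X a * g) = 0 := by simp [t]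
    rw [h0, add_zero]
    have h1 : ∀ n, t (n + 1) (MvPolynomial.X a * g) =
        ((n.factorial : F))⁻¹ * MvPolynomial.constantCoeff (dP C a ((lapl C ^ n) g)) := by
      intro n
      have hn : ((n : F) + 1) ≠ 0 := by exact_mod_cast Nat.succ_ne_zero n
      have hf : ((n.factorial : F)) ≠ 0 := by exact_mod_cast Nat.factorial_ne_zero n
      simp only [t]
      rw [lapl_pow_X_mul C hC, map_add, map_mul, MvPolynomial.constantCoeff_X, zero_mul, zero_add,
        MvPolynomial.constantCoeff_smul, Nat.factorial_succ, Nat.cast_mul, Nat.cast_add,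
        Nat.cast_one, smul_eq_mul]
      field_simp
    rw [sum_congr rfl fun n _ => h1 n]
    have h2 : ∀ b, E (MvPolynomial.pderiv b g) =
        ∑ n ∈ range (M g), ((n.factorial : F))⁻¹ *
          MvPolynomial.constantCoeff (MvPolynomial.pderiv b ((lapl C ^ n) g)) := by
      intro b
      have hc : ∀ n, MvPolynomial.pderiv b ((lapl C ^ n) g) =
          (lapl C ^ n) (MvPolynomial.pderiv b g) := by
        intro n
        induction n with
        | zero => simp
        | succ n ih =>
          rw [pow_succ', Module.End.mul_apply, Module.End.mul_apply, pd_lapl, ih]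
      have hz : ∀ n, M g ≤ n → (lapl C ^ n) (MvPolynomial.pderiv b g) = 0 := by
        intro n hn
        rw [← hc, hM g n hn, map_zero]
      rw [hE, key _ _ hz]
      refine sum_congr rfl fun n _ => ?_
      simp only [t]
      rw [hc]
    simp only [h2, mul_sum, dP_apply, map_sum]
    rw [sum_comm]
    refine sum_congr rfl fun b _ => sum_congr rfl fun n _ => ?_
    rw [MvPolynomial.constantCoeff_smul, smul_eq_mul]
    ring

/-- apply `exists_gauss` with `C (i,j) (k,l) = if l = i ∧ k = j then (s i + s j)⁻¹ else 0` -/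
theorem exists_mat {N : ℕ} {F : Type} [Field F] [CharZero F] (s : Fin N → F) :
    ∃ E : MX N F →ₗ[F] F, IsMat s E := by
  classical
  obtain ⟨E, h1, h2⟩ := exists_gauss (F := F)
    (fun a b : Fin N × Fin N => if b = (a.2, a.1) then (s a.1 + s a.2)⁻¹ else 0) (by
      rintro ⟨i, j⟩ ⟨k, l⟩
      simp only [Prod.mk.injEq]
      by_cases h : k = j ∧ l = i
      · obtain ⟨rfl, rfl⟩ := h
        simp [add_comm]
      · rw [if_neg h, if_neg]
        rintro ⟨rfl, rfl⟩
        exact h ⟨rfl, rfl⟩)
  refine ⟨E, h1, fun i j g => ?_⟩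
  rw [h2]
  rw [sum_eq_single (j, i)]
  · simp
  · intro b _ hb
    rw [if_neg hb, zero_mul]
  · intro h
    exact absurd (mem_univ _) h

end Pool.Agent.Helper52.MVD
end

/- Helper52.MVD.Ward -/
section
/-!
Project MV, block D1, module D1-6: the Ward identity.

`δ = delt N F i j` is the derivation with `δ X_kl = [E_ji, X]_kl = δ_kj X_il - δ_li X_kj`.
* `delt_pow`: `δ (X^m)_kl = [E_ji, X^m]_kl` (induction on `m`: Leibniz and `[E, X^(m+1)] = [E, X^m] X + X^m [E, X]`;
  `m = 0` is `0 = 0`).
* `delt_pt`: `∑_k` of the previous one is `(X^m)_ij - (X^m)_ij = 0`; hence `δ (subT f) = 0` (induction on `f`).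
* `ward`: `δ g = ∑_kl (δ X_kl) ∂_kl g` (chain rule for `mkDerivation`). By `hE.step`,
  `E (∂_kl h) = (s_k + s_l) E (X_lk h)`, so
  `E (δ g) = ∑_kl E (∂_kl ((δ X_kl) g)) - E ((∑_kl ∂_kl (δ X_kl)) g)`; the divergence
  `∑_kl ∂_kl (δ_kj X_il - δ_li X_kj) = ∑_kl (δ_kj δ_ik - δ_li δ_lj) = 0`; and
  `∑_kl (s_k + s_l) X_lk (δ X_kl) = ∑_l (s_j + s_l) X_lj X_il - ∑_k (s_k + s_i) X_ik X_kj
  = (s_j - s_i) ∑_l X_il X_lj = (s_j - s_i) (X²)_ij`. So `E (δ g) = (s_j - s_i) E ((X²)_ij g)`.
* `ward2`: apply `ward` to `g = (X^m)_ji subT f`, `i ≠ j`: `δ ((X^m)_ji) = (X^m)_ii - (X^m)_jj`.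
-/

namespace Pool.Agent.Helper52.MVD

open Finset Pool.Agent.Helper60.MV

variable {N : ℕ} {F : Type} [Field F]

theorem delt_X (i j k l : Fin N) :
    delt N F i j (MvPolynomial.X (k, l)) =
      (if k = j then MvPolynomial.X (i, l) else 0) - (if l = i then MvPolynomial.X (k, j) else 0) := by
  unfold delt
  rw [MvPolynomial.mkDerivation_X]

theorem delt_pow (i j k l : Fin N) (m : ℕ) :
    delt N F i j ((XM N F ^ m) k l) =
      (if k = j then (XM N F ^ m) i l else 0) - (if l = i then (XM N F ^ m) k j else 0) := by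
  induction m generalizing k l with
  | zero =>
    simp only [pow_zero, Matrix.one_apply]
    have h1 : delt N F i j (if k = l then (1 : MX N F) else 0) = 0 := by
      split_ifs
      · exact (delt N F i j).map_one_eq_zero
      · exact map_zero _
    rw [h1]
    by_cases h2 : k = j <;> by_cases h3 : l = i
    · simp [h2, h3]
    · simp [h2, h3, Ne.symm h3]
    · simp [h2, h3]
    · simp [h2, h3]
  | succ m ih =>
    have hm : ∀ a b : Fin N, (XM N F ^ (m + 1)) a b =
        ∑ c, (XM N F ^ m) a c * MvPolynomial.X (c, b) := by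
      intro a b
      rw [pow_succ, Matrix.mul_apply]
      rfl
    rw [hm k l, map_sum]
    have hterm : ∀ a : Fin N, delt N F i j ((XM N F ^ m) k a * MvPolynomial.X (a, l)) =
        (if k = j then (XM N F ^ m) i a * MvPolynomial.X (a, l) else 0) -
          (if a = i then (XM N F ^ m) k j * MvPolynomial.X (a, l) else 0) +
        ((if a = j then (XM N F ^ m) k a * MvPolynomial.X (i, l) else 0) -
          (if l = i then (XM N F ^ m) k a * MvPolynomial.X (a, j) else 0)) := by
      intro a
      rw [Derivation.leibniz, ih, delt_X, smul_eq_mul, smul_eq_mul]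
      split_ifs <;> ring
    rw [Finset.sum_congr rfl (fun a _ => hterm a), Finset.sum_add_distrib,
      Finset.sum_sub_distrib, Finset.sum_sub_distrib]
    simp only [Finset.sum_ite_eq', Finset.mem_univ, if_true]
    rw [hm i l, hm k j]
    by_cases h2 : k = j <;> by_cases h3 : l = i
    · simp only [h2, h3, if_true]
      ring
    · simp [h2, h3]
    · simp only [h2, h3, if_true, if_false, Finset.sum_const_zero]
      ring
    · simp [h2, h3]

/-- sums of derivations -/
theorem der_sum_apply {α : Type} (t : Finset α) (D : α → Derivation F (MX N F) (MX N F))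
    (g : MX N F) : (∑ a ∈ t, D a) g = ∑ a ∈ t, D a g := by
  classical
  induction t using Finset.induction_on with
  | empty => simp
  | insert a t ha ih => rw [Finset.sum_insert ha, Finset.sum_insert ha, Derivation.add_apply, ih]

theorem delt_pt (i j : Fin N) (m : ℕ) : delt N F i j (pt N F m) = 0 := by
  unfold pt
  rw [map_sum, Finset.sum_congr rfl (fun k _ => delt_pow i j k k m), Finset.sum_sub_distrib]
  simp

theorem delt_subT [Algebra ℝ F] (i j : Fin N) (f : MvPolynomial ℕ ℝ) :
    delt N F i j (subT N F f) = 0 := by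
  induction f using MvPolynomial.induction_on with
  | C a =>
    unfold subT
    rw [MvPolynomial.aeval_C, IsScalarTower.algebraMap_apply ℝ F (MX N F) a,
      Derivation.map_algebraMap]
  | add p q hp hq => rw [map_add, map_add, hp, hq, add_zero]
  | mul_X p n hp =>
    rw [map_mul, Derivation.leibniz, hp, smul_zero, add_zero]
    have : subT N F (MvPolynomial.X n) = pt N F (2 * n + 1) := by
      unfold subT
      rw [MvPolynomial.aeval_X]
    rw [this, delt_pt, smul_zero]

/-- chain rule -/
theorem delt_chain (i j : Fin N) (g : MX N F) :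
    delt N F i j g = ∑ kl : Fin N × Fin N,
      ((if kl.1 = j then MvPolynomial.X (i, kl.2) else 0) -
        (if kl.2 = i then MvPolynomial.X (kl.1, j) else 0)) * MvPolynomial.pderiv kl g := by
  classical
  have h : delt N F i j = ∑ kl : Fin N × Fin N,
      (((if kl.1 = j then MvPolynomial.X (i, kl.2) else 0) -
        (if kl.2 = i then MvPolynomial.X (kl.1, j) else 0) : MX N F)) •
        MvPolynomial.pderiv kl := by
    refine MvPolynomial.derivation_ext (fun ab => ?_)
    obtain ⟨a, b⟩ := ab
    rw [delt_X]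
    rw [der_sum_apply, Finset.sum_eq_single (a, b)]
    · rw [Derivation.smul_apply, MvPolynomial.pderiv_X_self, smul_eq_mul, mul_one]
    · intro kl _ hne
      rw [Derivation.smul_apply, MvPolynomial.pderiv_X_of_ne hne.symm, smul_zero]
    · intro hn
      exact absurd (Finset.mem_univ _) hn
  rw [h, der_sum_apply]
  rfl

theorem ward (s : Fin N → F) (hs2 : ∀ i j, s i + s j ≠ 0) (E : MX N F →ₗ[F] F)
    (hE : IsMat s E) (i j : Fin N) (g : MX N F) :
    E (delt N F i j g) = (s j - s i) * E ((XM N F ^ 2) i j * g) := by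
  classical
  have hpd : ∀ (k l : Fin N) (h : MX N F), E (MvPolynomial.pderiv (k, l) h) =
      (s k + s l) * E (MvPolynomial.X (l, k) * h) := by
    intro k l h
    rw [hE.step l k h, add_comm (s l) (s k), ← mul_assoc, mul_inv_cancel₀ (hs2 k l), one_mul]
  -- one entry
  have hone : ∀ k l : Fin N, E (((if k = j then MvPolynomial.X (i, l) else 0) -
        (if l = i then MvPolynomial.X (k, j) else 0)) * MvPolynomial.pderiv (k, l) g) =
      (s k + s l) * E (MvPolynomial.X (l, k) * (((if k = j then MvPolynomial.X (i, l) else 0) -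
        (if l = i then MvPolynomial.X (k, j) else 0)) * g)) -
      E (((if k = j then (if i = j then 1 else 0) else 0) -
        (if l = i then (if i = j then 1 else 0) else 0)) * g) := by
    intro k l
    have hd : MvPolynomial.pderiv (k, l) (((if k = j then MvPolynomial.X (i, l) else 0) -
        (if l = i then MvPolynomial.X (k, j) else 0) : MX N F)) =
        ((if k = j then (if i = j then 1 else 0) else 0) -
        (if l = i then (if i = j then 1 else 0) else 0) : MX N F) := by
      rw [map_sub]
      congr 1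
      · by_cases h1 : k = j
        · rw [if_pos h1, if_pos h1]
          by_cases h2 : i = j
          · rw [if_pos h2, h1, h2, MvPolynomial.pderiv_X_self]
          · rw [if_neg h2, MvPolynomial.pderiv_X_of_ne]
            intro h3
            exact h2 ((Prod.ext_iff.mp h3).1.trans h1)
        · rw [if_neg h1, if_neg h1, map_zero]
      · by_cases h1 : l = i
        · rw [if_pos h1, if_pos h1]
          by_cases h2 : i = j
          · rw [if_pos h2, h1, h2, MvPolynomial.pderiv_X_self]
          · rw [if_neg h2, MvPolynomial.pderiv_X_of_ne]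
            intro h3
            exact h2 ((Prod.ext_iff.mp h3).2.trans h1).symm
        · rw [if_neg h1, if_neg h1, map_zero]
    rw [← hpd k l, ← map_sub, Derivation.leibniz, hd, smul_eq_mul, smul_eq_mul]
    congr 1
    ring
  rw [delt_chain, map_sum, Fintype.sum_prod_type]
  simp only [hone]
  simp only [Finset.sum_sub_distrib]
  have hdiv : ∑ k : Fin N, ∑ l : Fin N, E ((((if k = j then (if i = j then 1 else 0) else 0) -
        (if l = i then (if i = j then 1 else 0) else 0)) * g : MX N F)) = 0 := by
    simp only [sub_mul, map_sub, Finset.sum_sub_distrib]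
    rw [sub_eq_zero]
    by_cases h2 : i = j
    · subst h2
      rw [Finset.sum_comm]
    · simp [h2]
  rw [hdiv, sub_zero]
  have hX2 : (XM N F ^ 2) i j = ∑ l, (MvPolynomial.X (i, l) * MvPolynomial.X (l, j) : MX N F) := by
    rw [pow_two, Matrix.mul_apply]
    rfl
  rw [hX2, Finset.sum_mul, map_sum, Finset.mul_sum]
  have hsplit : ∀ k l : Fin N, (s k + s l) * E (MvPolynomial.X (l, k) *
      (((if k = j then MvPolynomial.X (i, l) else 0) -
        (if l = i then MvPolynomial.X (k, j) else 0)) * g)) =
      (if k = j then (s k + s l) * E (MvPolynomial.X (i, l) * MvPolynomial.X (l, k) * g) else 0) -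
      (if l = i then (s k + s l) * E (MvPolynomial.X (l, k) * MvPolynomial.X (k, j) * g) else 0) := by
    intro k l
    have h1 : (MvPolynomial.X (l, k) * (((if k = j then MvPolynomial.X (i, l) else 0) -
        (if l = i then MvPolynomial.X (k, j) else 0)) * g) : MX N F) =
        (if k = j then MvPolynomial.X (i, l) * MvPolynomial.X (l, k) * g else 0) -
        (if l = i then MvPolynomial.X (l, k) * MvPolynomial.X (k, j) * g else 0) := by
      split_ifs <;> ring
    rw [h1, map_sub, mul_sub]
    congr 1
    · split_ifs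
      · rfl
      · rw [map_zero, mul_zero]
    · split_ifs
      · rfl
      · rw [map_zero, mul_zero]
  simp only [hsplit, Finset.sum_sub_distrib]
  rw [Finset.sum_comm]
  simp only [Finset.sum_ite_eq', Finset.mem_univ, if_true]
  rw [← Finset.sum_sub_distrib]
  refine Finset.sum_congr rfl (fun l _ => ?_)
  ring

theorem ward2 [Algebra ℝ F] (s : Fin N → F) (hs2 : ∀ i j, s i + s j ≠ 0) (E : MX N F →ₗ[F] F)
    (hE : IsMat s E) (i j : Fin N) (hij : i ≠ j) (hs : s i - s j ≠ 0) (m : ℕ)
    (f : MvPolynomial ℕ ℝ) :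
    E ((XM N F ^ 2) i j * ((XM N F ^ m) j i * subT N F f)) =
      -(E ((XM N F ^ m) i i * subT N F f) - E ((XM N F ^ m) j j * subT N F f)) / (s i - s j) := by
  have h := ward s hs2 E hE i j ((XM N F ^ m) j i * subT N F f)
  rw [Derivation.leibniz, delt_subT, smul_zero, zero_add, smul_eq_mul, delt_pow, if_pos rfl,
    if_pos rfl] at h
  have h2 : subT N F f * ((XM N F ^ m) i i - (XM N F ^ m) j j) =
      (XM N F ^ m) i i * subT N F f - (XM N F ^ m) j j * subT N F f := by ring
  rw [h2, map_sub] at h
  rw [eq_div_iff hs, h]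
  ring

end Pool.Agent.Helper52.MVD
end

/- Helper52.MVD.Ops -/
section
/-!
Project MV, block D1, module D1-9: the operators `DD i`, `KK i` and the products `KB B`.

All identities are in `Module.End ℝ F` or in the (noncommutative) ring `PowerSeries (Module.End ℝ F)`;
`muS a = PowerSeries.C (mu a)`, `W = PowerSeries.X` commutes with everything (`PowerSeries.commute_X` or by coefficients).
* `mu` is a ring homomorphism; `d i ∘ mu a = mu a ∘ d i + mu (d i a)` (Leibniz), so
  `DD i * mu a = mu a * DD i + mu (d i a)`.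
* `d i (1/(2 s_j)) = 0` for `i ≠ j`, and the `d i` commute, so `DD i`, `DD j` commute for all `i j`; hence so do all
  coefficients of `KK i`, `KK j`, i.e. `KK i`, `KK j` commute (`PowerSeries.ext`, `PowerSeries.coeff_mul`).
* `KK_inv`: `(1 + W DD i) * KK i = 1` (geometric series, coefficientwise).
* `KB B` is the product of the commuting `KK i`, `i ∈ B`; `KB_insert` is `Finset.noncommProd_insert_of_notMem`.
* `step_mu`: `(1 + W DD i) mu r K_B = mu r (1 + W DD i) K_B + W mu (d i r) K_B` and, for `i ∈ B`,
  `(1 + W DD i) K_B = K_(B.erase i)`.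
* `KB_mu`: `mu a` commutes with `K_B` if `d j a = 0` for all `j ∈ B`.
* `AA_comm`: for `i ≠ j` `mu (1/s_j)` commutes with `DD i`, `DD i` with `DD j`, so all coefficients commute.
* `AN_eq`: `AN = ∏_i (1 - W mu(1/s_i) K_i)`; the `W mu(1/s_i) K_i` commute for different `i` (`d j (1/s_i) = 0`), so
  the product expands to `∑_B (-W)^|B| mu(∏_{i∈B} 1/s_i) K_B` (induction on the list of the indices, or
  `Finset.noncommProd`; use `KB_mu` and `KB_insert`).
-/

namespace Pool.Agent.Helper52.MVD

open Finset Pool.Agent.Helper60.MV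

/-- multiplication by `a` on series -/
noncomputable def muS {F : Type} [Field F] [Algebra ℝ F] (a : F) :
    PowerSeries (Module.End ℝ F) := PowerSeries.C (mu a)

variable {F : Type} [Field F] [Algebra ℝ F] {N : ℕ}

theorem mu_apply (a x : F) : mu a x = a * x := by
  rfl

theorem muS_mul (a b : F) : muS (a * b) = muS a * muS b := by
  rw [muS, muS, muS, ← map_mul]
  congr 1
  ext x
  show a * b * x = a * (b * x)
  ring

theorem muS_add (a b : F) : muS (a + b) = muS a + muS b := by
  rw [muS, muS, muS, ← map_add]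
  congr 1
  ext x
  show (a + b) * x = a * x + b * x
  ring

theorem muS_one : muS (1 : F) = 1 := by
  rw [muS, ← map_one PowerSeries.C]
  congr 1
  ext x
  show 1 * x = x
  ring

namespace DF

variable (D : DF F N)

private theorem d_inv (i : Fin N) (a : F) (h : D.d i a = 0) : D.d i (1 / a) = 0 := by
  rw [one_div, Derivation.leibniz_inv, h, smul_zero]

private theorem d_c (i j : Fin N) (h : i ≠ j) : D.d i (1 / (2 * D.s j)) = 0 := by
  refine d_inv D i _ ?_
  rw [two_mul, map_add, D.ds, if_neg h, add_zero]

private theorem d_s (i j : Fin N) (h : i ≠ j) : D.d i (1 / D.s j) = 0 := by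
  refine d_inv D i _ ?_
  rw [D.ds, if_neg h]

private theorem d_prod_pv1 (i : Fin N) (B : Finset (Fin N)) (h : i ∉ B) :
    D.d i (∏ j ∈ B, 1 / D.s j) = 0 := by
  induction B using Finset.induction_on with
  | empty =>
    rw [Finset.prod_empty]
    exact (D.d i).map_one_eq_zero
  | insert a B ha ih =>
    rw [Finset.prod_insert ha, Derivation.leibniz]
    have h1 : i ≠ a := fun e => h (e ▸ Finset.mem_insert_self _ _)
    have h2 : i ∉ B := fun e => h (Finset.mem_insert_of_mem e)
    rw [ih h2, d_s D i a h1, smul_zero, smul_zero, add_zero]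

theorem DD_mu (i : Fin N) (a : F) : D.DD i * mu a = mu a * D.DD i + mu (D.d i a) := by
  ext x
  show D.d i (a * x) - 1 / (2 * D.s i) * (a * x) =
    a * (D.d i x - 1 / (2 * D.s i) * x) + D.d i a * x
  rw [Derivation.leibniz]
  simp only [smul_eq_mul]
  ring

theorem DD_comm (i j : Fin N) : D.DD i * D.DD j = D.DD j * D.DD i := by
  by_cases hij : i = j
  · rw [hij]
  ext x
  show D.d i (D.d j x - 1 / (2 * D.s j) * x) - 1 / (2 * D.s i) * (D.d j x - 1 / (2 * D.s j) * x) =
    D.d j (D.d i x - 1 / (2 * D.s i) * x) - 1 / (2 * D.s j) * (D.d i x - 1 / (2 * D.s i) * x)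
  have h1 := d_c D i j hij
  have h2 := d_c D j i (Ne.symm hij)
  rw [map_sub, map_sub, Derivation.leibniz, Derivation.leibniz, h1, h2, D.comm i j]
  simp only [smul_eq_mul]
  ring

private theorem ps_commute {R : Type*} [Semiring R] (f g : PowerSeries R)
    (h : ∀ m n, Commute (PowerSeries.coeff m f) (PowerSeries.coeff n g)) : Commute f g := by
  show f * g = g * f
  ext n
  rw [PowerSeries.coeff_mul, PowerSeries.coeff_mul, ← Finset.Nat.sum_antidiagonal_swap]
  refine Finset.sum_congr rfl fun p _ => ?_
  exact h _ _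

theorem KK_comm (i j : Fin N) : Commute (D.KK i) (D.KK j) := by
  refine ps_commute _ _ fun m n => ?_
  rw [KK, KK, PowerSeries.coeff_mk, PowerSeries.coeff_mk]
  have h : Commute (D.DD i) (D.DD j) := D.DD_comm i j
  exact ((h.neg_left).neg_right).pow_pow m n

theorem KK_inv (i : Fin N) : (1 + PowerSeries.X * PowerSeries.C (D.DD i)) * D.KK i = 1 := by
  ext n : 1
  rw [add_mul, one_mul, mul_assoc, map_add, KK]
  rcases n with _ | n
  · rw [PowerSeries.coeff_zero_X_mul, PowerSeries.coeff_mk, pow_zero, add_zero,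
      PowerSeries.coeff_zero_one]
  · rw [PowerSeries.coeff_succ_X_mul, PowerSeries.coeff_C_mul, PowerSeries.coeff_mk,
      PowerSeries.coeff_mk, PowerSeries.coeff_one, if_neg (Nat.succ_ne_zero n), pow_succ']
    have h : ∀ x y : Module.End ℝ F, -x * y + x * y = 0 := fun x y => by
      rw [← add_mul, neg_add_cancel, zero_mul]
    exact h _ _

/-- the product of the `KK i`, `i ∈ B` -/
noncomputable def KB (B : Finset (Fin N)) : PowerSeries (Module.End ℝ F) :=
  B.noncommProd D.KK (fun i _ j _ _ => D.KK_comm i j)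

theorem KB_empty : D.KB ∅ = 1 := by
  exact Finset.noncommProd_empty _ _

theorem KB_insert (i : Fin N) (B : Finset (Fin N)) (hi : i ∉ B) :
    D.KB (insert i B) = D.KK i * D.KB B := by
  exact Finset.noncommProd_insert_of_notMem _ _ _ _ hi

private theorem muS_KK (i : Fin N) (a : F) (h : D.d i a = 0) : Commute (muS a) (D.KK i) := by
  refine ps_commute _ _ fun m n => ?_
  rw [muS, PowerSeries.coeff_C, KK, PowerSeries.coeff_mk]
  by_cases hm : m = 0
  · rw [if_pos hm]
    have h1 := D.DD_mu i a
    have h0 : mu (0 : F) = 0 := by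
      ext x
      show (0 : F) * x = 0
      ring
    rw [h, h0, add_zero] at h1
    have h2 : Commute (mu a) (D.DD i) := h1.symm
    exact (h2.neg_right).pow_right n
  · rw [if_neg hm]
    exact Commute.zero_left _

theorem KB_mu (a : F) (B : Finset (Fin N)) (h : ∀ j ∈ B, D.d j a = 0) :
    muS a * D.KB B = D.KB B * muS a := by
  induction B using Finset.induction_on with
  | empty => rw [KB_empty, mul_one, one_mul]
  | insert i B hi ih =>
    have h1 : D.d i a = 0 := h i (Finset.mem_insert_self _ _)
    have h2 := ih fun j hj => h j (Finset.mem_insert_of_mem hj)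
    have h3 : muS a * D.KK i = D.KK i * muS a := muS_KK D i a h1
    rw [KB_insert D i B hi, ← mul_assoc, h3, mul_assoc, h2, mul_assoc]

theorem step_mu (i : Fin N) (r : F) (B : Finset (Fin N)) (hi : i ∈ B) :
    (1 + PowerSeries.X * PowerSeries.C (D.DD i)) * (muS r * D.KB B) =
      muS r * D.KB (B.erase i) + PowerSeries.X * (muS (D.d i r) * D.KB B) := by
  have h1 : (1 + PowerSeries.X * PowerSeries.C (D.DD i)) * D.KB B = D.KB (B.erase i) := by
    conv_lhs => rw [← Finset.insert_erase hi]
    rw [KB_insert D i _ (Finset.notMem_erase i B), ← mul_assoc, KK_inv, one_mul]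
  have h2 : PowerSeries.C (D.DD i) * muS r = muS r * PowerSeries.C (D.DD i) + muS (D.d i r) := by
    rw [muS, muS, ← map_mul, D.DD_mu, map_add, map_mul]
  have h3 : muS r * PowerSeries.X = PowerSeries.X * muS r := PowerSeries.commute_X _
  rw [← h1]
  have e1 : (1 + PowerSeries.X * PowerSeries.C (D.DD i)) * (muS r * D.KB B) =
      muS r * D.KB B + PowerSeries.X * ((PowerSeries.C (D.DD i) * muS r) * D.KB B) := by
    rw [add_mul, one_mul]
    simp only [mul_assoc]
  rw [e1, h2, add_mul, mul_add, ← add_assoc]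
  congr 1
  rw [add_mul, mul_add, one_mul]
  congr 1
  calc PowerSeries.X * (muS r * PowerSeries.C (D.DD i) * D.KB B) =
      (PowerSeries.X * muS r) * (PowerSeries.C (D.DD i) * D.KB B) := by simp only [mul_assoc]
    _ = (muS r * PowerSeries.X) * (PowerSeries.C (D.DD i) * D.KB B) := by rw [h3]
    _ = _ := by simp only [mul_assoc]

theorem AA_comm (i j : Fin N) : Commute (D.AA i) (D.AA j) := by
  by_cases hij : i = j
  · rw [hij]
  have h1 : Commute (PowerSeries.C (mu (1 / D.s i)) * D.KK i)
      (PowerSeries.C (mu (1 / D.s j)) * D.KK j) := by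
    have a1 : Commute (muS (1 / D.s i)) (muS (1 / D.s j)) := by
      show muS (1 / D.s i) * muS (1 / D.s j) = muS (1 / D.s j) * muS (1 / D.s i)
      rw [← muS_mul, ← muS_mul, mul_comm]
    have a2 : Commute (muS (1 / D.s i)) (D.KK j) := muS_KK D j _ (d_s D j i (Ne.symm hij))
    have a3 : Commute (D.KK i) (muS (1 / D.s j)) := (muS_KK D i _ (d_s D i j hij)).symm
    exact (a1.mul_right a2).mul_left (a3.mul_right (D.KK_comm i j))
  have hX : ∀ f : PowerSeries (Module.End ℝ F), Commute PowerSeries.X f :=
    fun f => (PowerSeries.commute_X f).symm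
  have h2 : Commute (PowerSeries.X * (PowerSeries.C (mu (1 / D.s i)) * D.KK i))
      (PowerSeries.X * (PowerSeries.C (mu (1 / D.s j)) * D.KK j)) :=
    ((hX _).mul_right (hX _)).mul_left (((hX _).symm).mul_right h1)
  exact ((Commute.one_left _).sub_left (((Commute.one_right _)).sub_right h2))

private theorem AN_aux (l : List (Fin N)) (hl : l.Nodup) : (l.map D.AA).prod =
    ∑ B ∈ l.toFinset.powerset,
      (-PowerSeries.X) ^ B.card * (muS (∏ i ∈ B, 1 / D.s i) * D.KB B) := by
  induction l with
  | nil =>
    rw [List.map_nil, List.prod_nil, List.toFinset_nil, Finset.powerset_empty,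
      Finset.sum_singleton, Finset.card_empty, pow_zero, Finset.prod_empty, muS_one, KB_empty,
      one_mul, one_mul]
  | cons a l ih =>
    have hl2 := List.nodup_cons.mp hl
    have ha : a ∉ l.toFinset := fun e => hl2.1 (List.mem_toFinset.mp e)
    rw [List.map_cons, List.prod_cons, ih hl2.2, List.toFinset_cons,
      Finset.sum_powerset_insert ha, AA, sub_mul, one_mul, sub_eq_add_neg, Finset.mul_sum,
      ← Finset.sum_neg_distrib]
    congr 1
    refine Finset.sum_congr rfl fun B hB => ?_
    have haB : a ∉ B := fun e => ha (Finset.mem_powerset.mp hB e)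
    rw [Finset.card_insert_of_notMem haB, Finset.prod_insert haB, KB_insert D a B haB, muS_mul]
    have hX : ∀ f : PowerSeries (Module.End ℝ F), f * (-PowerSeries.X) ^ B.card =
        (-PowerSeries.X) ^ B.card * f :=
      fun f => ((PowerSeries.commute_X f).neg_right).pow_right _
    have hk : muS (∏ i ∈ B, 1 / D.s i) * D.KK a = D.KK a * muS (∏ i ∈ B, 1 / D.s i) :=
      muS_KK D a _ (d_prod_pv1 D a B haB)
    have e0 : PowerSeries.C (mu (1 / D.s a)) = muS (1 / D.s a) := rfl
    rw [e0]
    generalize muS (∏ i ∈ B, 1 / D.s i) = P at hk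
    generalize muS (1 / D.s a) = Q
    generalize D.KB B = R
    generalize D.KK a = K at hk
    rw [pow_succ']
    calc -(PowerSeries.X * (Q * K) * ((-PowerSeries.X) ^ B.card * (P * R))) =
        (-PowerSeries.X) * ((Q * K) * (-PowerSeries.X) ^ B.card) * (P * R) := by
          rw [mul_assoc PowerSeries.X]
          have hn : ∀ x y : PowerSeries (Module.End ℝ F), -(x * y) = -x * y :=
            fun x y => (neg_mul x y).symm
          refine (hn _ _).trans ?_
          simp only [mul_assoc]
      _ = (-PowerSeries.X) * ((-PowerSeries.X) ^ B.card * (Q * K)) * (P * R) := by rw [hX]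
      _ = (-PowerSeries.X) * (-PowerSeries.X) ^ B.card * (Q * ((K * P) * R)) := by
          simp only [mul_assoc]
      _ = (-PowerSeries.X) * (-PowerSeries.X) ^ B.card * (Q * ((P * K) * R)) := by rw [hk]
      _ = _ := by simp only [mul_assoc]

theorem AN_eq : D.AN = ∑ B : Finset (Fin N),
    (-PowerSeries.X) ^ B.card * (muS (∏ i ∈ B, 1 / D.s i) * D.KB B) := by
  have h := AN_aux D (List.finRange N) (List.nodup_finRange N)
  rw [AN, List.ofFn_eq_map, h, List.toFinset_finRange, Finset.powerset_univ]

end DF

end Pool.Agent.Helper52.MVD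
end

/- Helper52.MVD.Field -/
section
/-!
Project MV, block D1, module D1-15: the differential field of rational functions.

`R = MvPolynomial (Fin N) ℝ`, `F = FractionRing R`, `s j = algebraMap (X j)`.
`exists_ext`: every derivation `δ : Derivation ℝ R R` extends to `F`: the ring homomorphism
`R → TrivSqZeroExt F F`, `r ↦ inl r + inr (δ r)`, maps nonzero elements to units (`TrivSqZeroExt.isUnit_iff_isUnit_fst`),
hence lifts to `F` (`IsLocalization.lift`), and the `snd` component of the lift is the derivation (its `fst` component is the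
identity). (Or define `d (a/b) = (b δa - a δb)/b²` directly.) A derivation of `F` vanishing on the image of `R`
vanishes (`D (a/b) = (b D a - a D b)/b²`), so two derivations agreeing on the image of `R` are equal (`deriv_unique`), and
the commutator of the extensions of `pderiv i`, `pderiv j` is a derivation (`⁅d₁, d₂⁆`) vanishing on `R` (there the partial
derivatives commute), hence 0. `d i (s j) = δ_ij` by `MvPolynomial.pderiv_X`.
-/

namespace Pool.Agent.Helper52.MVD

open Finset Pool.Agent.Helper60.MV

private noncomputable def h35g {R : Type} [CommRing R] [IsDomain R] [Algebra ℝ R]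
    (δ : Derivation ℝ R R) : R →+* TrivSqZeroExt (FractionRing R) (FractionRing R) where
  toFun r := TrivSqZeroExt.inl (algebraMap R (FractionRing R) r) +
    TrivSqZeroExt.inr (algebraMap R (FractionRing R) (δ r))
  map_one' := by
    ext <;> simp
  map_mul' a b := by
    ext
    · simp only [TrivSqZeroExt.fst_add, TrivSqZeroExt.fst_inl, TrivSqZeroExt.fst_inr,
        TrivSqZeroExt.fst_mul, map_mul, add_zero]
    · simp only [TrivSqZeroExt.snd_add, TrivSqZeroExt.snd_inl, TrivSqZeroExt.snd_inr,
        TrivSqZeroExt.snd_mul, TrivSqZeroExt.fst_add, TrivSqZeroExt.fst_inl,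
        TrivSqZeroExt.fst_inr, map_mul, add_zero, zero_add, Derivation.leibniz, smul_eq_mul,
        map_add, MulOpposite.smul_eq_mul_unop, MulOpposite.unop_op]
      ring
  map_zero' := by
    ext <;> simp
  map_add' a b := by
    ext
    · simp only [TrivSqZeroExt.fst_add, TrivSqZeroExt.fst_inl, TrivSqZeroExt.fst_inr, map_add,
        add_zero]
    · simp only [TrivSqZeroExt.snd_add, TrivSqZeroExt.snd_inl, TrivSqZeroExt.snd_inr, map_add,
        zero_add]

theorem exists_ext {R : Type} [CommRing R] [IsDomain R] [Algebra ℝ R] (δ : Derivation ℝ R R) :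
    ∃ d : Derivation ℝ (FractionRing R) (FractionRing R),
      ∀ r : R, d (algebraMap R (FractionRing R) r) = algebraMap R (FractionRing R) (δ r) := by
  have hg : ∀ y : nonZeroDivisors R, IsUnit (h35g δ y) := by
    intro y
    rw [TrivSqZeroExt.isUnit_iff_isUnit_fst]
    have : (h35g δ (y : R)).fst = algebraMap R (FractionRing R) y := by
      simp [h35g]
    rw [this]
    exact IsLocalization.map_units (FractionRing R) y
  let L : FractionRing R →+* TrivSqZeroExt (FractionRing R) (FractionRing R) :=
    IsLocalization.lift hg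
  have hL : ∀ r : R, L (algebraMap R (FractionRing R) r) = h35g δ r := fun r =>
    IsLocalization.lift_eq hg r
  have hfst : ∀ x : FractionRing R, (L x).fst = x := by
    have : ((TrivSqZeroExt.fstHom ℝ (FractionRing R) (FractionRing R)).toRingHom).comp L =
        RingHom.id (FractionRing R) := by
      apply IsLocalization.ringHom_ext (nonZeroDivisors R)
      ext r
      simp only [RingHom.comp_apply, RingHom.id_apply]
      rw [hL]
      simp [h35g]
    intro x
    exact congrArg (fun f : FractionRing R →+* FractionRing R => f x) this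
  have hsmul : ∀ (c : ℝ) (x : FractionRing R), (L (c • x)).snd = c • (L x).snd := by
    intro c x
    have e1 : c • x = algebraMap R (FractionRing R) (algebraMap ℝ R c) * x := by
      rw [Algebra.smul_def, ← IsScalarTower.algebraMap_apply]
    have e2 : c • (L x).snd = algebraMap R (FractionRing R) (algebraMap ℝ R c) * (L x).snd := by
      rw [Algebra.smul_def, ← IsScalarTower.algebraMap_apply]
    rw [e1, map_mul, hL, e2]
    simp [h35g]
  refine ⟨Derivation.mk' { toFun := fun x => (L x).snd, map_add' := ?_, map_smul' := ?_ } ?_, ?_⟩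
  · intro x y
    simp
  · intro c x
    simpa using hsmul c x
  · intro a b
    simp only [LinearMap.coe_mk, AddHom.coe_mk, map_mul, TrivSqZeroExt.snd_mul, hfst,
      smul_eq_mul, MulOpposite.smul_eq_mul_unop, MulOpposite.unop_op]
    ring
  · intro r
    change (L (algebraMap R (FractionRing R) r)).snd = _
    rw [hL]
    change (TrivSqZeroExt.inl (algebraMap R (FractionRing R) r) +
      TrivSqZeroExt.inr (algebraMap R (FractionRing R) (δ r))).snd = _
    simp only [TrivSqZeroExt.snd_add, TrivSqZeroExt.snd_inl, TrivSqZeroExt.snd_inr, zero_add]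

theorem deriv_unique {R : Type} [CommRing R] [IsDomain R] [Algebra ℝ R]
    (d d' : Derivation ℝ (FractionRing R) (FractionRing R))
    (h : ∀ r : R, d (algebraMap R (FractionRing R) r) = d' (algebraMap R (FractionRing R) r)) :
    d = d' := by
  ext x
  obtain ⟨a, b, hb, rfl⟩ := IsFractionRing.div_surjective (A := R) x
  have hb0 : algebraMap R (FractionRing R) b ≠ 0 := by
    intro h0
    rw [FaithfulSMul.algebraMap_eq_zero_iff] at h0
    exact nonZeroDivisors.ne_zero hb h0
  set ib := algebraMap R (FractionRing R) b with hib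
  set ia := algebraMap R (FractionRing R) a with hia
  have e : ia / ib * ib = ia := div_mul_cancel₀ ia hb0
  have e1 : d (ia / ib * ib) = d' (ia / ib * ib) := by rw [e]; exact h a
  rw [Derivation.leibniz, Derivation.leibniz, h b] at e1
  simp only [smul_eq_mul] at e1
  have e2 : ib * d (ia / ib) = ib * d' (ia / ib) := by
    exact add_left_cancel e1
  exact mul_left_cancel₀ hb0 e2

theorem exists_DF (N : ℕ) : ∃ D : DF (FractionRing (MvPolynomial (Fin N) ℝ)) N,
    ∀ i, D.s i = algebraMap (MvPolynomial (Fin N) ℝ) (FractionRing (MvPolynomial (Fin N) ℝ))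
      (MvPolynomial.X i) := by
  classical
  choose d hd using fun i : Fin N => exists_ext (MvPolynomial.pderiv i : Derivation ℝ
    (MvPolynomial (Fin N) ℝ) (MvPolynomial (Fin N) ℝ))
  have hcomm : ∀ i j : Fin N, ⁅d i, d j⁆ = 0 := by
    intro i j
    apply deriv_unique
    intro r
    rw [Derivation.commutator_apply, hd, hd, hd, hd, Derivation.coe_zero, Pi.zero_apply,
      ← map_sub, ← Derivation.commutator_apply]
    have : ⁅(MvPolynomial.pderiv i : Derivation ℝ (MvPolynomial (Fin N) ℝ)
        (MvPolynomial (Fin N) ℝ)), (MvPolynomial.pderiv j : Derivation ℝ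
        (MvPolynomial (Fin N) ℝ) (MvPolynomial (Fin N) ℝ))⁆ = 0 := by
      refine MvPolynomial.derivation_ext (fun k => ?_)
      rw [Derivation.commutator_apply, MvPolynomial.pderiv_X, MvPolynomial.pderiv_X]
      have h1 : ∀ (a b : Fin N) (D : Derivation ℝ (MvPolynomial (Fin N) ℝ)
          (MvPolynomial (Fin N) ℝ)),
          D (Pi.single (M := fun _ => MvPolynomial (Fin N) ℝ) a 1 b) = 0 := by
        intro a b D
        by_cases hab : b = a
        · subst hab
          simp
        · rw [Pi.single_eq_of_ne hab]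
          simp
      rw [h1, h1]
      simp
    rw [this]
    simp
  refine ⟨⟨fun i => algebraMap _ _ (MvPolynomial.X i), d, ?_, ?_⟩, fun i => rfl⟩
  · intro i j x
    have := congrArg (fun D : Derivation ℝ (FractionRing (MvPolynomial (Fin N) ℝ))
      (FractionRing (MvPolynomial (Fin N) ℝ)) => D x) (hcomm i j)
    simp only [Derivation.commutator_apply, Derivation.coe_zero, Pi.zero_apply] at this
    exact sub_eq_zero.mp this
  · intro i j
    rw [hd, MvPolynomial.pderiv_X]
    by_cases hij : i = j
    · subst hij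
      simp
    · rw [if_neg hij, Pi.single_eq_of_ne (fun h => hij h.symm), map_zero]

end Pool.Agent.Helper52.MVD
end

/- Helper90.MVD.Defs -/
section
/-!
Project MV, block D2 (neutral fermions and Pfaffians): definitions.

`w² = W` is the variable of power series. The letters of Pfaffians are
`Sum.inl i` (the vector `ψ_i`, `i : Fin N`) and `Sum.inr n` (the vector `e_n`, `n : ℕ`), and `none`
is the additional letter `E`.
-/

namespace Pool.Agent.Helper90.MVD

open Finset Pool.Agent.Helper60.MV Pool.Agent.Helper52.MVD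

/-! ## Exterior algebra, contraction, Pfaffian functional -/

section Ext

variable {R M : Type} [CommRing R] [AddCommGroup M] [Module R M]

/-- contraction by a linear form (an antiderivation) -/
noncomputable def ctr (d : Module.Dual R M) : ExteriorAlgebra R M →ₗ[R] ExteriorAlgebra R M :=
  CliffordAlgebra.contractLeft d

theorem ctr_ι_mul (d : Module.Dual R M) (v : M) (x : ExteriorAlgebra R M) :
    ctr d (ExteriorAlgebra.ι R v * x) = d v • x - ExteriorAlgebra.ι R v * ctr d x :=
  CliffordAlgebra.contractLeft_ι_mul d v x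

theorem ctr_one (d : Module.Dual R M) : ctr d (1 : ExteriorAlgebra R M) = 0 :=
  CliffordAlgebra.contractLeft_one _ d

theorem ctr_ctr (d : Module.Dual R M) (x : ExteriorAlgebra R M) : ctr d (ctr d x) = 0 :=
  CliffordAlgebra.contractLeft_contractLeft d x

theorem ctr_comm (d d' : Module.Dual R M) (x : ExteriorAlgebra R M) :
    ctr d (ctr d' x) = - ctr d' (ctr d x) :=
  CliffordAlgebra.contractLeft_comm d d' x

theorem ctr_add (d d' : Module.Dual R M) (x : ExteriorAlgebra R M) :
    ctr (d + d') x = ctr d x + ctr d' x := by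
  simp only [ctr, map_add, LinearMap.add_apply]

theorem ctr_smul (c : R) (d : Module.Dual R M) (x : ExteriorAlgebra R M) :
    ctr (c • d) x = c • ctr d x := by
  simp only [ctr, map_smul, LinearMap.smul_apply]

/-- characterisation of the Pfaffian functional of an alternating form `ω` -/
structure IsPf (ω : M →ₗ[R] Module.Dual R M) (P : ExteriorAlgebra R M →ₗ[R] R) : Prop where
  one : P 1 = 1
  mul : ∀ v x, P (ExteriorAlgebra.ι R v * x) = P (ctr (ω v) x)

/-- product of the vectors of a list in the exterior algebra -/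
noncomputable def wdg (L : List M) : ExteriorAlgebra R M := (L.map (ExteriorAlgebra.ι R)).prod

end Ext

/-- the bilinear form on `α →₀ R` with array `A` -/
noncomputable def omA {α R : Type} [CommRing R] (A : α → α → R) :
    (α →₀ R) →ₗ[R] Module.Dual R (α →₀ R) :=
  Finsupp.linearCombination R (fun a => Finsupp.linearCombination R (A a))

/-! ## Fock space of the neutral fermions -/

section Fock

variable (F : Type) [Field F]

/-- Fock space -/
abbrev Fk : Type := ExteriorAlgebra F (ℕ →₀ F)

/-- creation -/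
noncomputable def cr (n : ℕ) : Fk F →ₗ[F] Fk F :=
  LinearMap.mulLeft F (ExteriorAlgebra.ι F (Finsupp.single n (1 : F)))

/-- annihilation -/
noncomputable def an (n : ℕ) : Fk F →ₗ[F] Fk F :=
  ctr (Finsupp.lapply n : (ℕ →₀ F) →ₗ[F] F)

/-- neutral fermions: `φ_n` for `n > 0` is the multiplication, `φ_0 = φ_0 ∧ + φ_0^* ⌋`,
`φ_{-n} = 2 (-1)^n φ_n^* ⌋`; then `φ_m φ_n + φ_n φ_m = 2 (-1)^m δ_{m+n,0}`. -/
noncomputable def phi (n : ℤ) : Fk F →ₗ[F] Fk F :=
  if 0 < n then cr F n.natAbs else if n = 0 then cr F 0 + an F 0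
  else (2 * (-1) ^ n.natAbs : F) • an F n.natAbs

/-- vacuum expectation (scalar part) -/
noncomputable def vac : Fk F →ₗ[F] F := (ExteriorAlgebra.algebraMapInv).toLinearMap

/-- the string `φ_{n_l} ⋯ φ_{n_1}` of a list `[n_1, ..., n_l]` (`n_1` is applied first) -/
noncomputable def str : List ℤ → Fk F →ₗ[F] Fk F
  | [] => LinearMap.id
  | n :: L => (str L).comp (phi F n)

/-- `an_{n_l} ⋯ an_{n_1}` (`n_1` is applied first) -/
noncomputable def ans : List ℕ → Fk F →ₗ[F] Fk F
  | [] => LinearMap.id
  | n :: L => (ans L).comp (an F n)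

/-- two-point function over a field -/
noncomputable def zfF (m n : ℤ) : F :=
  if m + n = 0 then (if m = 0 then 1 else if 0 < m then 2 * (-1) ^ m.natAbs else 0) else 0

/-- the product of the basis vectors of a list -/
noncomputable def prb (L : List ℕ) : Fk F := wdg (L.map fun n => Finsupp.single n (1 : F))

/-- `J` is the current `α_{-(2j+1)} = ½ ∑_{r ∈ ℤ} φ_{2j+1-2r} φ_{2r}` (`j ∈ ℤ`), the sum being
finite on every vector -/
def IsCur (J : ℤ → Fk F →ₗ[F] Fk F) : Prop :=
  ∀ (j : ℤ) (x : Fk F), ∃ B₀ : ℕ, ∀ B : ℕ, B₀ ≤ B →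
    J j x = (1 / 2 : F) • ∑ r ∈ Icc (-(B : ℤ)) B, phi F (2 * j + 1 - 2 * r) (phi F (2 * r) x)

/-- bosonisation: `Θ : F[p_1, p_3, ...] → Fk`, `X j = p_{2j+1}` -/
structure IsTheta (J : ℤ → Fk F →ₗ[F] Fk F) (Θ : MvPolynomial ℕ F →ₗ[F] Fk F) : Prop where
  one : Θ 1 = 1
  mul : ∀ (j : ℕ) f, Θ (MvPolynomial.X j * f) = J j (Θ f)
  der : ∀ (j : ℕ) f, ((2 * (j : F) + 1) / 2) • Θ (MvPolynomial.pderiv j f) =
    J (-(j : ℤ) - 1) (Θ f)

end Fock

/-! ## The functional `Λ_s` -/

section Lam

variable {F : Type} [Field F] [Algebra ℝ F] {N : ℕ} (D : DF F N)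

/-- `c_n s_i^{-n}` -/
noncomputable def kap (i : Fin N) (n : ℕ) : F := algebraMap ℝ F (cc n) * (1 / D.s i) ^ n

/-- `k_w(s_i) = ∑ W^n c_n s_i^{-n}` -/
noncomputable def kser (i : Fin N) : PowerSeries F := PowerSeries.mk (kap D i)

/-- `U_i = 1 - W s_i^{-1} k_w(s_i)` -/
noncomputable def Us (i : Fin N) : PowerSeries F :=
  1 - PowerSeries.X * (PowerSeries.C (1 / D.s i) * kser D i)

/-- `σ_ij` -/
noncomputable def sig (i j : Fin N) : F := (D.s i - D.s j) / (D.s i + D.s j)

/-- the pairing of `ψ_i` and `e_n` -/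
noncomputable def bc (i : Fin N) (n : ℕ) : F := if n = 0 then 1 else 2 * kap D i n

/-- the array of `Λ_s` on the letters `ψ_i`, `e_n` -/
noncomputable def AS : Fin N ⊕ ℕ → Fin N ⊕ ℕ → F
  | Sum.inl i, Sum.inl j => sig D i j
  | Sum.inl i, Sum.inr n => bc D i n
  | Sum.inr n, Sum.inl i => - bc D i n
  | Sum.inr _, Sum.inr _ => 0

/-- the letters `ψ_1, ..., ψ_N` -/
def psl (N : ℕ) : List (Fin N ⊕ ℕ) := List.ofFn fun i => Sum.inl i

/-- `Λ` is the functional `Λ_s`: linear, zero on products of basis vectors containing an odd mode,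
and `Λ (e_{n_1} ∧ ... ∧ e_{n_m}) = Pf` for a list of even modes `e_n = φ_{2n}`. -/
structure IsLam (Λ : Fk F →ₗ[F] F) : Prop where
  odd : ∀ L : List ℕ, (∃ n ∈ L, Odd n) → Λ (prb F L) = 0
  even : ∀ L : List ℕ, Λ (prb F (L.map fun n => 2 * n)) = pfL (AS D) (psl N ++ L.map Sum.inr)

/-- action of power series of operators on power series -/
noncomputable def act (a : PowerSeries (Module.End ℝ F)) (g : PowerSeries F) : PowerSeries F :=
  PowerSeries.mk fun n => ∑ p ∈ antidiagonal n,
    (PowerSeries.coeff p.1 a : Module.End ℝ F) (PowerSeries.coeff p.2 g)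

/-- all coefficients of `g` are killed by the derivation `d i` -/
def Cst (i : Fin N) (g : PowerSeries F) : Prop := ∀ n, D.d i (PowerSeries.coeff n g) = 0

end Lam

end Pool.Agent.Helper90.MVD
end

/- Helper90.MVD.AhatDef -/
section
/-!
Project MV, block D2: the array with the extra letter `E`.

Letters `Option (Fin N ⊕ ℕ)`, `none` is the extra letter `E`. `W = PowerSeries.X`.
Array `Ahat` (power series; the column `e_n` is multiplied by `W^n`): on `some`-letters
`Ahat = w a * w b * C (AS a b)`, `w ψ_i = 1`, `w e_n = W^n`; `Ahat E ψ_i = 1 - 2 k_i`,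
`Ahat E e_n = bt n` (`bt 0 = 1`, `bt n = 2` for `n ≥ 1`), antisymmetric, `Ahat E E = 0`.
-/

namespace Pool.Agent.Helper90.MVD

open Finset Pool.Agent.Helper60.MV Pool.Agent.Helper52.MVD

variable {F : Type} [Field F] [Algebra ℝ F] {N : ℕ} (D : DF F N)

/-- `1` for `n = 0`, `2` for `n ≥ 1` -/
noncomputable def bt (F : Type) [Field F] (n : ℕ) : PowerSeries F := if n = 0 then 1 else 2

/-- the array with the extra letter `E = none` -/
noncomputable def Ahat : Option (Fin N ⊕ ℕ) → Option (Fin N ⊕ ℕ) → PowerSeries F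
  | some (Sum.inl i), some (Sum.inl j) => PowerSeries.C (sig D i j)
  | some (Sum.inl i), some (Sum.inr n) => PowerSeries.X ^ n * PowerSeries.C (bc D i n)
  | some (Sum.inr n), some (Sum.inl i) => - (PowerSeries.X ^ n * PowerSeries.C (bc D i n))
  | some (Sum.inr _), some (Sum.inr _) => 0
  | none, some (Sum.inl i) => 1 - 2 * kser D i
  | some (Sum.inl i), none => 2 * kser D i - 1
  | none, some (Sum.inr n) => bt F n
  | some (Sum.inr n), none => - bt F n
  | none, none => 0

/-- the list `E, ψ_1, ..., ψ_N, e_{n_1}, ..., e_{n_m}` -/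
def Elist (N : ℕ) (ns : List ℕ) : List (Option (Fin N ⊕ ℕ)) :=
  none :: (psl N ++ ns.map Sum.inr).map some

end Pool.Agent.Helper90.MVD
end

/- Helper90.MVD.PfL -/
section
/-!
Module MVD-1 (project MV, block D2): elementary facts on `pfL` (recursion along the first entry,
`Pool.Agent.Helper60.MV.pfL`).

Proofs: everything by strong induction on the length of the list with `pfL_cons`
(unfold `pfL`; the definition is by well-founded recursion, use `pfL.eq_2` / `rw [pfL]`).
* `pfL_congr`: `List.Pairwise` of `x :: xs` gives the property of `x` with every entry of `xs`, and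
  `List.Pairwise` passes to sublists (`List.eraseIdx_sublist`).
* `pfL_hom`: `map_sum, map_mul, map_pow`.
* `pfL_map`: `(L.map g).eraseIdx j = (L.eraseIdx j).map g` (the sum over `Fin (xs.map g).length` is
  reindexed by `Fin.cast`; `Fintype.sum_equiv (finCongr (List.length_map ..))`).
* `pfL_scale`: `(xs.map c).prod = c (xs.get j) * ((xs.eraseIdx j).map c).prod` in a commutative
  ring (`List.prod_eq_mul_prod_eraseIdx`-like; or `List.Perm`: `List.getElem_cons_eraseIdx_perm`).
* `pfL_odd`: `xs.eraseIdx j` has length `xs.length - 1`, odd again; length 1: empty sum.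
* `pfL_weight`: if `(L.map w).sum ≠ 0` and the term `j` has `w x + w (xs_j) = 0`, then the list
  `xs.eraseIdx j` has nonzero weight.
* `pfL_deg`: degree bound for power series entries: `coeff k (A a b) = 0` for `k > wt a + wt b`
  implies `coeff k (pfL A L) = 0` for `k > ∑ wt`.
-/

namespace Pool.Agent.Helper90.MVD

open Finset Pool.Agent.Helper60.MV

section

variable {α β R S : Type} [CommRing R] [CommRing S]

theorem pfL_nil (A : α → α → R) : pfL A [] = 1 := by
  rw [pfL]

theorem pfL_cons (A : α → α → R) (x : α) (xs : List α) :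
    pfL A (x :: xs) =
      ∑ j : Fin xs.length, (-1) ^ (j : ℕ) * A x (xs.get j) * pfL A (xs.eraseIdx j) := by
  rw [pfL]

private theorem len_er {α : Type} (x : α) (xs : List α) (j : Fin xs.length) :
    (xs.eraseIdx j).length < (x :: xs).length := by
  rw [List.length_eraseIdx_of_lt j.2, List.length_cons]
  omega

private theorem pf_induction {α : Type} (P : List α → Prop) (h0 : P [])
    (h1 : ∀ x xs, (∀ j : Fin xs.length, P (xs.eraseIdx j)) → P (x :: xs)) : ∀ L, P L := by
  have key : ∀ n : ℕ, ∀ L : List α, L.length < n → P L := by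
    intro n
    induction n with
    | zero =>
      intro L hL
      exact absurd hL (Nat.not_lt_zero _)
    | succ n ih =>
      intro L hL
      cases L with
      | nil => exact h0
      | cons x xs =>
        refine h1 x xs fun j => ih _ ?_
        have := len_er x xs j
        omega
  intro L
  exact key (L.length + 1) L (Nat.lt_succ_self _)

private theorem er_map {α β : Type} (g : β → α) (xs : List β) (j : ℕ) :
    (xs.map g).eraseIdx j = (xs.eraseIdx j).map g := by
  induction xs generalizing j with
  | nil => simp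
  | cons x xs ih =>
    cases j with
    | zero => simp
    | succ j => simp [ih]

theorem pfL_pair (A : α → α → R) (x y : α) : pfL A [x, y] = A x y := by
  rw [pfL_cons]
  simp [pfL_nil]

theorem pfL_congr (A B : α → α → R) (L : List α) (h : L.Pairwise fun a b => A a b = B a b) :
    pfL A L = pfL B L := by
  revert h
  refine pf_induction (fun L => L.Pairwise (fun a b => A a b = B a b) → pfL A L = pfL B L) ?_ ?_ L
  · intro _
    rw [pfL_nil, pfL_nil]
  · intro x xs ih h
    rw [List.pairwise_cons] at h
    rw [pfL_cons, pfL_cons]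
    refine Finset.sum_congr rfl fun j _ => ?_
    rw [h.1 _ (List.get_mem xs j), ih j (h.2.sublist (List.eraseIdx_sublist xs j))]

theorem pfL_hom (f : R →+* S) (A : α → α → R) (L : List α) :
    f (pfL A L) = pfL (fun a b => f (A a b)) L := by
  refine pf_induction (fun L => f (pfL A L) = pfL (fun a b => f (A a b)) L) ?_ ?_ L
  · rw [pfL_nil, pfL_nil, map_one]
  · intro x xs ih
    rw [pfL_cons, pfL_cons, map_sum]
    refine Finset.sum_congr rfl fun j _ => ?_
    rw [map_mul, map_mul, map_pow, map_neg, map_one, ih j]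

theorem pfL_map (g : β → α) (A : α → α → R) (L : List β) :
    pfL A (L.map g) = pfL (fun a b => A (g a) (g b)) L := by
  refine pf_induction (fun L => pfL A (L.map g) = pfL (fun a b => A (g a) (g b)) L) ?_ ?_ L
  · rw [List.map_nil, pfL_nil, pfL_nil]
  · intro x xs ih
    rw [List.map_cons, pfL_cons, pfL_cons]
    refine Fintype.sum_equiv (finCongr (List.length_map g)) _ _ fun j => ?_
    have hj : (j : ℕ) < xs.length := lt_of_lt_of_eq j.2 (List.length_map g)
    have e1 : (xs.map g).get j = g (xs.get ⟨(j : ℕ), hj⟩) := by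
      simp
    have e2 : (xs.map g).eraseIdx (j : ℕ) = (xs.eraseIdx (j : ℕ)).map g := er_map g xs j
    rw [e1, e2]
    have e3 := ih ⟨(j : ℕ), hj⟩
    simp only at e3
    rw [e3]
    rfl

theorem pfL_scale (c : α → R) (A : α → α → R) (L : List α) :
    pfL (fun a b => c a * c b * A a b) L = (L.map c).prod * pfL A L := by
  refine pf_induction
    (fun L => pfL (fun a b => c a * c b * A a b) L = (L.map c).prod * pfL A L) ?_ ?_ L
  · rw [pfL_nil, pfL_nil, List.map_nil, List.prod_nil, one_mul]
  · intro x xs ih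
    rw [pfL_cons, pfL_cons, List.map_cons, List.prod_cons, Finset.mul_sum]
    refine Finset.sum_congr rfl fun j _ => ?_
    have hp : (xs.map c).prod = c (xs.get j) * ((xs.eraseIdx j).map c).prod := by
      have h1 := ((List.getElem_cons_eraseIdx_perm j.2).map c).prod_eq
      rw [List.map_cons, List.prod_cons] at h1
      exact h1.symm
    rw [ih j, hp]
    ring

theorem pfL_odd (A : α → α → R) (L : List α) (h : Odd L.length) : pfL A L = 0 := by
  revert h
  refine pf_induction (fun L => Odd L.length → pfL A L = 0) ?_ ?_ L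
  · intro h
    rw [List.length_nil] at h
    exact absurd h (by decide)
  · intro x xs ih h
    rw [pfL_cons]
    refine Finset.sum_eq_zero fun j _ => ?_
    rw [ih j ?_, mul_zero]
    rw [List.length_eraseIdx_of_lt j.2]
    rw [List.length_cons] at h
    have hj := j.2
    obtain ⟨k, hk⟩ := h
    exact ⟨k - 1, by omega⟩

theorem pfL_weight (w : α → ℤ) (A : α → α → R) (hA : ∀ a b, w a + w b ≠ 0 → A a b = 0)
    (L : List α) (hL : (L.map w).sum ≠ 0) : pfL A L = 0 := by
  revert hL
  refine pf_induction (fun L => (L.map w).sum ≠ 0 → pfL A L = 0) ?_ ?_ L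
  · intro h
    exact absurd (by simp) h
  · intro x xs ih h
    rw [pfL_cons]
    refine Finset.sum_eq_zero fun j _ => ?_
    by_cases hj : w x + w (xs.get j) = 0
    · rw [ih j ?_, mul_zero]
      intro h0
      apply h
      have h1 := ((List.getElem_cons_eraseIdx_perm j.2).map w).sum_eq
      rw [List.map_cons, List.sum_cons] at h1
      rw [List.map_cons, List.sum_cons, ← h1, h0, add_zero]
      exact hj
    · rw [hA _ _ hj, mul_zero, zero_mul]

theorem pfL_deg (wt : α → ℕ) (A : α → α → PowerSeries R)
    (hA : ∀ a b k, wt a + wt b < k → PowerSeries.coeff k (A a b) = 0)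
    (L : List α) (k : ℕ) (hk : (L.map wt).sum < k) : PowerSeries.coeff k (pfL A L) = 0 := by
  revert k
  refine pf_induction (fun L => ∀ k : ℕ, (L.map wt).sum < k →
    PowerSeries.coeff k (pfL A L) = 0) ?_ ?_ L
  · intro k hk
    rw [pfL_nil, PowerSeries.coeff_one, if_neg]
    rw [List.map_nil, List.sum_nil] at hk
    omega
  · intro x xs ih k hk
    rw [pfL_cons, map_sum]
    refine Finset.sum_eq_zero fun j _ => ?_
    have h1 := ((List.getElem_cons_eraseIdx_perm j.2).map wt).sum_eq
    rw [List.map_cons, List.sum_cons] at h1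
    rw [List.map_cons, List.sum_cons, ← h1] at hk
    have h2 : PowerSeries.coeff k (A x (xs.get j) * pfL A (xs.eraseIdx j)) = 0 := by
      rw [PowerSeries.coeff_mul]
      refine Finset.sum_eq_zero fun q hq => ?_
      rw [Finset.HasAntidiagonal.mem_antidiagonal] at hq
      by_cases hq1 : wt x + wt (xs.get j) < q.1
      · rw [hA _ _ _ hq1, zero_mul]
      · rw [ih j q.2 ?_, mul_zero]
        have h3 : wt (xs.get j) = wt xs[(j : ℕ)] := rfl
        rw [h3] at hq1
        omega
    rw [mul_assoc]
    rcases neg_one_pow_eq_or (PowerSeries R) (j : ℕ) with h | h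
    · rw [h, one_mul, h2]
    · rw [h, neg_one_mul, map_neg, h2, neg_zero]

end

end Pool.Agent.Helper90.MVD
end

/- Helper90.MVD.PfE -/
section
/-!
Module MVD-2 (project MV, block D2): the Pfaffian functional on the exterior algebra.

Proofs.
* `exists_Pf`: Mathlib's `CliffordAlgebra.changeForm` with `B := -ω` (`B v v = 0`, so
  `B.toQuadraticMap = 0 - 0`), composed with `ExteriorAlgebra.algebraMapInv`:
  `changeForm (ι v * x) = ι v * changeForm x + ω v ⌋ changeForm x`, the scalar part of `ι v * y` is
  `0`, and `changeForm (d ⌋ x) = d ⌋ changeForm x` (`CliffordAlgebra.changeForm_contractLeft`).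
  (Or directly with `CliffordAlgebra.foldr`.)
* `ctr_wdg_mul`: induction on `L` with `ctr_ι_mul`; the sum over `Fin (v :: L).length` is split with
  `Fin.sum_univ_succ`.
* `IsPf.wdg_eq`: strong induction on the length with `IsPf.mul` and `ctr_wdg_mul` (x = 1).
* `omA_alt`: `v = ∑ v_a e_a`; `∑_{a,b} v_a v_b A a b = 0` since the terms `(a,b)`, `(b,a)` cancel
  and the diagonal vanishes (e.g. `Finset.sum_involution` with `Prod.swap`, or induction on `v` with
  `Finsupp.induction_linear`/additivity: prove `omA A v w = - omA A w v` and `omA A (v+w) (v+w) =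
  omA A v v + omA A w w`).
-/

namespace Pool.Agent.Helper90.MVD

open Finset Pool.Agent.Helper60.MV

section

variable {R M : Type} [CommRing R] [AddCommGroup M] [Module R M]

theorem exists_Pf (ω : M →ₗ[R] Module.Dual R M) (h : ∀ v, ω v v = 0) :
    ∃ P : ExteriorAlgebra R M →ₗ[R] R, IsPf ω P := by
  have hB : LinearMap.BilinMap.toQuadraticMap (-ω : LinearMap.BilinForm R M) =
      (0 : QuadraticForm R M) - (0 : QuadraticForm R M) := by
    ext v
    simp [h v]
  refine ⟨(ExteriorAlgebra.algebraMapInv (R := R) (M := M)).toLinearMap ∘ₗ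
    (CliffordAlgebra.changeForm hB), ?_, ?_⟩
  · rw [LinearMap.comp_apply]
    erw [CliffordAlgebra.changeForm_one]
    simp
  · intro v x
    rw [LinearMap.comp_apply, LinearMap.comp_apply]
    have e1 : CliffordAlgebra.changeForm hB (ExteriorAlgebra.ι R v * x) =
        ExteriorAlgebra.ι R v * CliffordAlgebra.changeForm hB x +
          ctr (ω v) (CliffordAlgebra.changeForm hB x) := by
      have := CliffordAlgebra.changeForm_ι_mul hB v x
      refine this.trans ?_
      rw [sub_eq_add_neg]
      congr 1
      unfold ctr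
      simp
    have e2 : CliffordAlgebra.changeForm hB (ctr (ω v) x) =
        ctr (ω v) (CliffordAlgebra.changeForm hB x) :=
      CliffordAlgebra.changeForm_contractLeft hB (ω v) x
    rw [e1, e2]
    simp [ExteriorAlgebra.algebraMapInv]

theorem wdg_nil : wdg ([] : List M) = (1 : ExteriorAlgebra R M) := by
  simp [wdg]

theorem wdg_cons (v : M) (L : List M) :
    (wdg (v :: L) : ExteriorAlgebra R M) = ExteriorAlgebra.ι R v * wdg L := by
  simp [wdg]

theorem wdg_append (L L' : List M) :
    (wdg (L ++ L') : ExteriorAlgebra R M) = wdg L * wdg L' := by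
  simp [wdg]

theorem ctr_wdg_mul (d : Module.Dual R M) (L : List M) (x : ExteriorAlgebra R M) :
    ctr d (wdg L * x) = ∑ j : Fin L.length,
      ((-1) ^ (j : ℕ) * d (L.get j)) • (wdg (L.eraseIdx j) * x) +
      ((-1) ^ L.length : R) • (wdg L * ctr d x) := by
  induction L with
  | nil => simp [wdg_nil]
  | cons v L ih =>
    rw [wdg_cons, mul_assoc, ctr_ι_mul, ih]
    simp only [List.length_cons]
    rw [Fin.sum_univ_succ]
    simp only [Fin.val_zero, pow_zero, one_mul, List.get_eq_getElem, List.getElem_cons_zero,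
      List.eraseIdx_zero, List.tail_cons, Fin.val_succ, List.getElem_cons_succ,
      List.eraseIdx_cons_succ, wdg_cons, mul_add, mul_assoc, Finset.mul_sum, mul_smul_comm]
    rw [sub_eq_add_neg, neg_add, ← Finset.sum_neg_distrib, add_assoc]
    congr 1
    congr 1
    · apply Finset.sum_congr rfl
      intro j _
      rw [pow_succ, ← neg_smul]
      congr 1
      ring
    · rw [pow_succ, ← neg_smul]
      congr 1
      ring

theorem IsPf.wdg_eq {ω : M →ₗ[R] Module.Dual R M} {P : ExteriorAlgebra R M →ₗ[R] R}
    (hP : IsPf ω P) (L : List M) : P (wdg L) = pfL (fun a b => ω a b) L := by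
  induction hn : L.length using Nat.strong_induction_on generalizing L with
  | _ n ih =>
    cases L with
    | nil => rw [wdg_nil, hP.one, pfL]
    | cons v L =>
      rw [wdg_cons, hP.mul, pfL]
      have h := ctr_wdg_mul (ω v) L (1 : ExteriorAlgebra R M)
      rw [mul_one, ctr_one, mul_zero, smul_zero, add_zero] at h
      rw [h, map_sum]
      apply Finset.sum_congr rfl
      intro j _
      rw [mul_one, map_smul, smul_eq_mul]
      congr 1
      apply ih _ _ _ rfl
      rw [List.length_eraseIdx]
      simp only [List.length_cons] at hn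
      split_ifs <;> omega

end

section

variable {α R : Type} [CommRing R]

theorem omA_single (A : α → α → R) (a b : α) :
    omA A (Finsupp.single a 1) (Finsupp.single b 1) = A a b := by
  simp [omA]

theorem omA_alt (A : α → α → R) (h0 : ∀ a, A a a = 0) (h : ∀ a b, A a b = - A b a)
    (v : α →₀ R) : omA A v v = 0 := by
  have hanti : ∀ v w : α →₀ R, omA A v w = - omA A w v := by
    intro v w
    induction v using Finsupp.induction_linear with
    | zero => simp
    | add v1 v2 h1 h2 => rw [map_add, LinearMap.add_apply, h1, h2, map_add]; ring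
    | single a r =>
      induction w using Finsupp.induction_linear with
      | zero => simp
      | add w1 w2 h1 h2 => rw [map_add, h1, h2, map_add, LinearMap.add_apply]; ring
      | single b r' =>
        simp only [omA, Finsupp.linearCombination_single, LinearMap.smul_apply, smul_eq_mul]
        rw [h a b]
        ring
  induction v using Finsupp.induction_linear with
  | zero => simp
  | add v1 v2 h1 h2 =>
    rw [map_add, map_add, LinearMap.add_apply, LinearMap.add_apply, h1, h2, hanti v1 v2]
    ring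
  | single a r =>
    simp only [omA, Finsupp.linearCombination_single, LinearMap.smul_apply, smul_eq_mul]
    rw [h0 a]
    ring

private theorem pfL_map_single (A : α → α → R) (L : List α) :
    pfL (fun a b : α →₀ R => omA A a b) (L.map fun a => Finsupp.single a 1) = pfL A L := by
  induction hn : L.length using Nat.strong_induction_on generalizing L with
  | _ n ih =>
    cases L with
    | nil => rw [List.map_nil, pfL, pfL]
    | cons v L =>
      rw [List.map_cons, pfL, pfL]
      have hlen : (L.map fun a => (Finsupp.single a 1 : α →₀ R)).length = L.length :=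
        List.length_map _
      rw [← (finCongr hlen).sum_comp]
      apply Finset.sum_congr rfl
      intro j _
      have hj : (j : ℕ) < L.length := hlen ▸ j.2
      have e1 : (L.map fun a => (Finsupp.single a 1 : α →₀ R)).get j =
          Finsupp.single (L.get (finCongr hlen j)) 1 := by
        simp
      have e2 : (L.map fun a => (Finsupp.single a 1 : α →₀ R)).eraseIdx j =
          (L.eraseIdx (finCongr hlen j : Fin L.length)).map fun a => Finsupp.single a 1 := by
        rw [← List.eraseIdx_map]
        rfl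
      rw [e1, e2, omA_single]
      congr 1
      apply ih _ _ _ rfl
      rw [List.length_eraseIdx]
      simp only [List.length_cons] at hn
      split_ifs <;> omega

theorem exists_PfA (A : α → α → R) (h0 : ∀ a, A a a = 0) (h : ∀ a b, A a b = - A b a) :
    ∃ P : ExteriorAlgebra R (α →₀ R) →ₗ[R] R, IsPf (omA A) P ∧
      ∀ L : List α, P (wdg (L.map fun a => Finsupp.single a 1)) = pfL A L := by
  obtain ⟨P, hP⟩ := exists_Pf (omA A) (omA_alt A h0 h)
  refine ⟨P, hP, ?_⟩
  intro L
  rw [hP.wdg_eq]
  exact pfL_map_single A L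

end

end Pool.Agent.Helper90.MVD
end

/- Helper90.MVD.PfRow -/
section
/-!
Module MVD-3 (project MV, block D2): row operations, moving an entry, Schur complement for `pfL`.

Let `P` be the functional of `exists_PfA`, `e a := single a 1`, `ω := omA A`, and recall
`IsPf.wdg_eq` (value on a product of arbitrary vectors of `α →₀ R`).

* `pfL_rowop`: vectors `v a := e a + c a • e E`; `ω (v a) (v b) = A a b + c b A a E + c a A E b`
  (`A E E = 0`), `v E = e E`. In the exterior algebra `ι (e E) * ∏ ι (v a) = ι (e E) * ∏ ι (e a)`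
  (induction on the list; `ι(E) * x = ι(E) * y` implies `ι(E) * (ι v * x) = ι(E) * (ι v * y)` by
  anticommutation, and `ι(E) * (ι(E) * x) = 0`). So both sides are `P` of the same element; use
  `pfL_map` to pass from `pfL (fun u w => ω u w) (L.map v)` to arrays on `α`.
* `pfL_move`: `wdg P * ι v = (-1)^|P| ι v * wdg P`.
* `pfL_schur`: `v a := e a - ∑_k y a k • e (ψ k)` for `a ∈ L`. Then `ω (e (ψ i)) (v a) = 0`, hence
  `ω (v a) (v b) = ω (v a) (e b) = A a b - ∑_k y a k * A (ψ k) b`. With `Ψ := wdg (ψ-list)`: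
  `Ψ * wdg (L.map v) = Ψ * wdg (L.map e)` since `Ψ * ι (e (ψ k)) = 0` and vectors anticommute.
  Claim: `P (wdg Q * wdg L') = P (wdg Q) * P (wdg L')` whenever every vector of `Q` is orthogonal
  (`ω q w = 0`) to every vector `w` of `L'` (strong induction on the length of `Q`: `IsPf.mul`,
  `ctr_wdg_mul` twice: the contraction of `wdg L'` by `ω q` vanishes).
-/

namespace Pool.Agent.Helper90.MVD

open Finset Pool.Agent.Helper60.MV

variable {α R : Type} [CommRing R]

section aux

variable {M : Type} [AddCommGroup M] [Module R M]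

private theorem ι_swap (u v : M) : (ExteriorAlgebra.ι R u * ExteriorAlgebra.ι R v)
    = -(ExteriorAlgebra.ι R v * ExteriorAlgebra.ι R u) :=
  eq_neg_of_add_eq_zero_left (ExteriorAlgebra.ι_add_mul_swap u v)

private theorem wdg_mul_ι (Q : List M) (u : M) :
    (wdg Q : ExteriorAlgebra R M) * ExteriorAlgebra.ι R u
      = (-1 : ExteriorAlgebra R M) ^ Q.length * (ExteriorAlgebra.ι R u * wdg Q) := by
  induction Q with
  | nil => simp [wdg_nil]
  | cons q Q ih =>
    rw [wdg_cons, mul_assoc, ih, List.length_cons, pow_succ]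
    have h1 : Commute (ExteriorAlgebra.ι R q) ((-1 : ExteriorAlgebra R M) ^ Q.length) :=
      (Commute.neg_one_right _).pow_right _
    rw [← mul_assoc, h1.eq, mul_assoc, ← mul_assoc (ExteriorAlgebra.ι R q), ι_swap q u]
    rw [neg_mul, mul_neg, mul_neg_one, neg_mul, mul_assoc]

private theorem wdg_mul_mem (Q : List M) (q : M) (hq : q ∈ Q) :
    (wdg Q : ExteriorAlgebra R M) * ExteriorAlgebra.ι R q = 0 := by
  induction Q with
  | nil => simp at hq
  | cons p Q ih =>
    rw [wdg_cons, mul_assoc]
    rcases List.mem_cons.mp hq with h | h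
    · rw [wdg_mul_ι, ← h]
      have h1 : Commute (ExteriorAlgebra.ι R q) ((-1 : ExteriorAlgebra R M) ^ Q.length) :=
        (Commute.neg_one_right _).pow_right _
      rw [← mul_assoc, h1.eq, mul_assoc, ← mul_assoc (ExteriorAlgebra.ι R q),
        ExteriorAlgebra.ι_sq_zero, zero_mul, mul_zero]
    · rw [ih h, mul_zero]

private theorem wdg_repl {β : Type} (Q : List M) (v e : β → M) (L : List β)
    (h : ∀ a ∈ L, (wdg Q : ExteriorAlgebra R M) * ExteriorAlgebra.ι R (v a)
      = wdg Q * ExteriorAlgebra.ι R (e a)) :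
    (wdg Q : ExteriorAlgebra R M) * wdg (L.map v) = wdg Q * wdg (L.map e) := by
  induction L with
  | nil => rfl
  | cons a L ih =>
    have ih' := ih (fun b hb => h b (List.mem_cons_of_mem a hb))
    rw [List.map_cons, List.map_cons, wdg_cons, wdg_cons, ← mul_assoc, ← mul_assoc,
      h a List.mem_cons_self, wdg_mul_ι, mul_assoc, mul_assoc, mul_assoc, mul_assoc, ih']

private theorem ctr_wdg_zero (d : Module.Dual R M) (L : List M) (h : ∀ w ∈ L, d w = 0) :
    ctr d (wdg L) = 0 := by
  have h1 := ctr_wdg_mul d L 1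
  rw [mul_one, ctr_one, mul_zero, smul_zero, add_zero] at h1
  rw [h1]
  apply Finset.sum_eq_zero
  intro j _
  rw [h _ (List.get_mem L j), mul_zero, zero_smul]

private theorem pf_orth {ω : M →ₗ[R] Module.Dual R M} {P : ExteriorAlgebra R M →ₗ[R] R}
    (hP : IsPf ω P) (L : List M) : ∀ (n : ℕ) (Q : List M), Q.length = n →
    (∀ q ∈ Q, ∀ w ∈ L, ω q w = 0) → P (wdg Q * wdg L) = P (wdg Q) * P (wdg L) := by
  intro n
  induction n using Nat.strong_induction_on with
  | _ n ih =>
    intro Q hQ horth
    match Q, hQ, horth with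
    | [], _, _ => rw [wdg_nil, one_mul, hP.one, one_mul]
    | q :: Q, hQ, horth =>
      have hq : ctr (ω q) (wdg L) = 0 :=
        ctr_wdg_zero (ω q) L (horth q List.mem_cons_self)
      have e1 : P (wdg (q :: Q)) = ∑ j : Fin Q.length,
          ((-1) ^ (j : ℕ) * ω q (Q.get j)) * P (wdg (Q.eraseIdx j)) := by
        have h2 := ctr_wdg_mul (ω q) Q 1
        rw [mul_one, ctr_one, mul_zero, smul_zero, add_zero] at h2
        rw [wdg_cons, hP.mul, h2, map_sum]
        apply Finset.sum_congr rfl
        intro j _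
        rw [map_smul, mul_one, smul_eq_mul]
      have e2 : P (wdg (q :: Q) * wdg L) = ∑ j : Fin Q.length,
          ((-1) ^ (j : ℕ) * ω q (Q.get j)) * P (wdg (Q.eraseIdx j) * wdg L) := by
        rw [wdg_cons, mul_assoc, hP.mul, ctr_wdg_mul, hq, mul_zero, smul_zero, add_zero, map_sum]
        apply Finset.sum_congr rfl
        intro j _
        rw [map_smul, smul_eq_mul]
      rw [e2, e1, Finset.sum_mul]
      apply Finset.sum_congr rfl
      intro j _
      have hlen : (Q.eraseIdx j).length = Q.length - 1 := by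
        rw [List.length_eraseIdx, if_pos j.2]
      have hlt : Q.length - 1 < n := by
        rw [← hQ, List.length_cons]
        omega
      rw [ih (Q.length - 1) hlt (Q.eraseIdx j) hlen (fun q' hq' w hw =>
        horth q' (List.mem_cons_of_mem q (List.mem_of_mem_eraseIdx hq')) w hw)]
      ring

end aux

theorem pfL_rowop (A : α → α → R) (h0 : ∀ a, A a a = 0) (h : ∀ a b, A a b = - A b a)
    (E : α) (c : α → R) (hc : c E = 0) (L : List α) :
    pfL (fun a b => A a b + c b * A a E + c a * A E b) (E :: L) = pfL A (E :: L) := by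
  obtain ⟨P, hP, hPL⟩ := exists_PfA A h0 h
  set v : α → (α →₀ R) := fun a => Finsupp.single a 1 + c a • Finsupp.single E 1 with hv
  have e1 : (fun a b => A a b + c b * A a E + c a * A E b)
      = (fun a b => (fun u w : α →₀ R => omA A u w) (v a) (v b)) := by
    funext a b
    simp only [hv, map_add, map_smul, LinearMap.add_apply, LinearMap.smul_apply, omA_single,
      smul_eq_mul, h0 E]
    ring
  rw [e1, ← pfL_map v (fun u w : α →₀ R => omA A u w) (E :: L)]
  rw [← hP.wdg_eq, ← hPL (E :: L)]
  congr 1
  have hvE : v E = Finsupp.single E 1 := by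
    simp only [hv, hc, zero_smul, add_zero]
  rw [List.map_cons, List.map_cons, wdg_cons, wdg_cons, hvE]
  have h2 := wdg_repl (R := R) [Finsupp.single E (1 : R)] v (fun a => Finsupp.single a 1) L (by
    intro a _
    simp only [hv, map_add, map_smul, mul_add, mul_smul_comm]
    rw [wdg_mul_mem _ _ (List.mem_singleton.mpr rfl), smul_zero, add_zero])
  rw [wdg_cons, wdg_nil, mul_one] at h2
  exact h2

theorem pfL_move (A : α → α → R) (h0 : ∀ a, A a a = 0) (h : ∀ a b, A a b = - A b a)
    (E : α) (P L : List α) (hP : Even P.length) :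
    pfL A (P ++ E :: L) = pfL A (E :: (P ++ L)) := by
  obtain ⟨F, hF, hFL⟩ := exists_PfA A h0 h
  rw [← hFL, ← hFL]
  congr 1
  rw [List.map_append, List.map_cons, List.map_cons, List.map_append, wdg_append, wdg_cons,
    wdg_cons, wdg_append, ← mul_assoc, wdg_mul_ι, List.length_map, hP.neg_one_pow, one_mul,
    mul_assoc]

theorem pfL_schur (A : α → α → R) (h0 : ∀ a, A a a = 0) (h : ∀ a b, A a b = - A b a)
    {N : ℕ} (ψ : Fin N → α) (y : α → Fin N → R) (L : List α)
    (hy : ∀ a ∈ L, ∀ i, A (ψ i) a = ∑ k, y a k * A (ψ i) (ψ k)) :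
    pfL A (List.ofFn ψ ++ L) =
      pfL A (List.ofFn ψ) * pfL (fun a b => A a b - ∑ k, y a k * A (ψ k) b) L := by
  obtain ⟨P, hP, hPL⟩ := exists_PfA A h0 h
  set e : α → (α →₀ R) := fun a => Finsupp.single a 1 with he
  set v : α → (α →₀ R) := fun a => e a - ∑ k, y a k • e (ψ k) with hv
  have hωv : ∀ a b, omA A (v a) (e b) = A a b - ∑ k, y a k * A (ψ k) b := by
    intro a b
    simp only [hv, he, map_sub, map_sum, map_smul, LinearMap.sub_apply, LinearMap.sum_apply,
      LinearMap.smul_apply, omA_single, smul_eq_mul]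
  have hωe : ∀ a ∈ L, ∀ i, omA A (e (ψ i)) (v a) = 0 := by
    intro a ha i
    simp only [hv, he, map_sub, map_sum, map_smul, omA_single, smul_eq_mul]
    rw [hy a ha i, sub_self]
  have hanti : ∀ u w, omA A u w = - omA A w u := by
    intro u w
    have h1 := omA_alt A h0 h (u + w)
    simp only [map_add, LinearMap.add_apply] at h1
    rw [omA_alt A h0 h u, omA_alt A h0 h w] at h1
    rw [eq_neg_iff_add_eq_zero]
    linear_combination h1
  have hωvv : ∀ a ∈ L, ∀ b ∈ L, omA A (v a) (v b) = A a b - ∑ k, y a k * A (ψ k) b := by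
    intro a ha b hb
    have h1 : omA A (v a) (v b) = omA A (v a) (e b) - ∑ k, y b k * omA A (v a) (e (ψ k)) := by
      have h2 : v b = e b - ∑ k, y b k • e (ψ k) := rfl
      rw [h2, map_sub, map_sum]
      simp only [map_smul, smul_eq_mul]
    rw [h1, hωv a b]
    have h2 : ∑ k, y b k * omA A (v a) (e (ψ k)) = 0 := by
      apply Finset.sum_eq_zero
      intro k _
      rw [hanti, hωe a ha k, neg_zero, mul_zero]
    rw [h2, sub_zero]
  rw [← hPL, List.map_append, wdg_append]
  have e1 : (wdg ((List.ofFn ψ).map e) : ExteriorAlgebra R (α →₀ R)) * wdg (L.map e)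
      = wdg ((List.ofFn ψ).map e) * wdg (L.map v) := by
    symm
    apply wdg_repl
    intro a _
    simp only [hv, map_sub, map_sum, map_smul, mul_sub, Finset.mul_sum, mul_smul_comm]
    rw [sub_eq_self]
    apply Finset.sum_eq_zero
    intro k _
    rw [wdg_mul_mem _ _ (List.mem_map_of_mem (List.mem_ofFn.mpr ⟨k, rfl⟩)), smul_zero]
  rw [e1, pf_orth hP (L.map v) _ _ rfl, hPL, hP.wdg_eq, pfL_map]
  · congr 1
    apply pfL_congr
    apply List.pairwise_of_forall_mem_list
    intro a ha b hb
    exact hωvv a ha b hb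
  · intro q hq w hw
    obtain ⟨x, hx, rfl⟩ := List.mem_map.mp hq
    obtain ⟨i, rfl⟩ := List.mem_ofFn.mp hx
    obtain ⟨a, ha, rfl⟩ := List.mem_map.mp hw
    exact hωe a ha i

end Pool.Agent.Helper90.MVD
end

/- Helper90.MVD.Inv -/
section
/-!
Module MVD-5 (project MV, block D2): a nonzero Pfaffian gives an invertible matrix; elementary facts
on the differential field.

`exists_inv`: let `Sg i k := A (ψ i) (ψ k)`. The linear map `y ↦ (∑_k Sg i k y_k)_i` of
`Fin N → K` is injective: suppose `∑_k A (ψ i)(ψ k) y_k = 0` for all `i`, `y_m ≠ 0`. In the exterior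
algebra of `α →₀ K` let `e a := single a 1`, `v := ∑_k y_k e (ψ k)`, `P` as in `exists_PfA`. Then
`ι v * wdg (ψ-list without m) = ± y_m * wdg (ψ-list)` (the terms `k ≠ m` vanish: repeated vector) so
`P (ι v * wdg ...) = ± y_m pfL A (ofFn ψ) ≠ 0`, but `P (ι v * x) = P (ctr (ω v) x)` and `ω v` vanishes
on all `e (ψ i)` (`ω v (e (ψ i)) = ∑_k y_k A (ψ k)(ψ i) = - ∑_k y_k A (ψ i)(ψ k) = 0`), hence
`ctr (ω v) (wdg ...) = 0` by `ctr_wdg_mul`. Contradiction. An injective endomorphism of a finite
dimensional space is bijective: choose `Q k j` with `∑_k Sg i k Q k j = δ_ij`.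
(Alternatively use `Matrix` with `Matrix.exists_mulVec_eq_zero_iff`.)
-/

namespace Pool.Agent.Helper90.MVD

open Finset Pool.Agent.Helper60.MV Pool.Agent.Helper52.MVD

/-- the functional kills a product which starts with a vector orthogonal to all the others -/
private theorem P_orth {K M : Type} [Field K] [AddCommGroup M] [Module K M]
    {ω : M →ₗ[K] Module.Dual K M} {P : ExteriorAlgebra K M →ₗ[K] K} (hP : IsPf ω P) (v : M)
    (L : List M) (h : ∀ w ∈ L, ω v w = 0) : P (ExteriorAlgebra.ι K v * wdg L) = 0 := by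
  rw [hP.mul]
  have h1 := ctr_wdg_mul (ω v) L (1 : ExteriorAlgebra K M)
  rw [mul_one, ctr_one, mul_zero, smul_zero, add_zero] at h1
  rw [h1, Finset.sum_eq_zero, map_zero]
  intro j _
  rw [h _ (List.get_mem L j), mul_zero, zero_smul]

private theorem F_orth {K M : Type} [Field K] [AddCommGroup M] [Module K M]
    {ω : M →ₗ[K] Module.Dual K M} {P : ExteriorAlgebra K M →ₗ[K] K} (hP : IsPf ω P) {n : ℕ}
    (u : Fin (n + 1) → M) (h : ∀ j : Fin n, ω (u 0) (u j.succ) = 0) :
    P (ExteriorAlgebra.ιMulti K (n + 1) u) = 0 := by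
  rw [ExteriorAlgebra.ιMulti_apply, List.ofFn_succ, List.prod_cons]
  have h2 : (List.ofFn fun i : Fin n => ExteriorAlgebra.ι K (u i.succ)).prod =
      wdg (List.ofFn fun i : Fin n => u i.succ) := by
    unfold wdg
    rw [List.map_ofFn]
    rfl
  rw [h2]
  refine P_orth hP _ _ ?_
  intro w hw
  rw [List.mem_ofFn] at hw
  obtain ⟨j, rfl⟩ := hw
  exact h j

theorem exists_inv {K α : Type} [Field K] (A : α → α → K) (h0 : ∀ a, A a a = 0)
    (h : ∀ a b, A a b = - A b a) {N : ℕ} (ψ : Fin N → α) (hne : pfL A (List.ofFn ψ) ≠ 0) :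
    ∃ Q : Fin N → Fin N → K, ∀ i j, ∑ k, A (ψ i) (ψ k) * Q k j = if i = j then 1 else 0 := by
  classical
  obtain ⟨P, hP, hPL⟩ := exists_PfA A h0 h
  let S : Matrix (Fin N) (Fin N) K := fun i k => A (ψ i) (ψ k)
  have hdet : S.det ≠ 0 := by
    intro hd
    obtain ⟨y, hy, hSy⟩ := Matrix.exists_mulVec_eq_zero_iff.2 hd
    obtain ⟨m, hm⟩ : ∃ m, y m ≠ 0 := by
      by_contra hc
      push Not at hc
      exact hy (funext hc)
    obtain ⟨n, rfl⟩ : ∃ n, N = n + 1 := ⟨N - 1, by have := m.2; omega⟩
    have hSy' : ∀ i, ∑ k, A (ψ i) (ψ k) * y k = 0 := fun i => congrFun hSy i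
    let w : Fin (n + 1) → (α →₀ K) := fun i => Finsupp.single (ψ i) 1
    let v : α →₀ K := ∑ k, y k • w k
    let F : (α →₀ K) [⋀^Fin (n + 1)]→ₗ[K] K :=
      P.compAlternatingMap (ExteriorAlgebra.ιMulti K (n + 1))
    have hF : ∀ u, F u = P (ExteriorAlgebra.ιMulti K (n + 1) u) := fun u => rfl
    have h1 : F w = pfL A (List.ofFn ψ) := by
      rw [hF, ExteriorAlgebra.ιMulti_apply, ← hPL]
      congr 1
      unfold wdg
      rw [List.map_ofFn, List.map_ofFn]
      rfl
    have h2 : F (Function.update w m v) = y m * F w := by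
      have h3 : F (Function.update w m v) = ∑ k, y k * F (Function.update w m (w k)) := by
        show F (Function.update w m (∑ k, y k • w k)) = _
        rw [F.map_update_sum]
        refine Finset.sum_congr rfl fun k _ => ?_
        rw [F.map_update_smul]
        rfl
      rw [h3, Finset.sum_eq_single m]
      · rw [Function.update_eq_self]
      · intro k _ hk
        rw [F.map_update_self w hk.symm, mul_zero]
      · intro hmem
        exact absurd (Finset.mem_univ m) hmem
    have h4 : ∀ i, omA A v (w i) = 0 := by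
      intro i
      show omA A (∑ k, y k • w k) (w i) = 0
      rw [map_sum, LinearMap.sum_apply]
      have h5 : ∀ k ∈ (Finset.univ : Finset (Fin (n + 1))), (omA A (y k • w k)) (w i) =
          - (A (ψ i) (ψ k) * y k) := by
        intro k _
        rw [map_smul, LinearMap.smul_apply]
        show y k • omA A (Finsupp.single (ψ k) 1) (Finsupp.single (ψ i) 1) = _
        rw [omA_single, h (ψ k) (ψ i), smul_eq_mul]
        ring
      rw [Finset.sum_congr rfl h5, Finset.sum_neg_distrib, hSy' i, neg_zero]
    have h6 : F (Function.update w m v) = 0 := by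
      by_cases hm0 : m = 0
      · subst hm0
        rw [hF]
        refine F_orth hP _ ?_
        intro j
        rw [Function.update_self, Function.update_of_ne (Fin.succ_ne_zero j)]
        exact h4 _
      · have h7 : F (Function.update w m v ∘ Equiv.swap 0 m) = 0 := by
          rw [hF]
          refine F_orth hP _ ?_
          intro j
          rw [Function.comp_apply, Function.comp_apply, Equiv.swap_apply_left,
            Function.update_self, Function.update_of_ne]
          · exact h4 _
          · intro hc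
            have := congrArg (Equiv.swap 0 m) hc
            rw [Equiv.swap_apply_self, Equiv.swap_apply_right] at this
            exact Fin.succ_ne_zero j this
        rw [F.map_swap _ (Ne.symm hm0)] at h7
        exact neg_eq_zero.1 h7
    rw [h2, h1] at h6
    rcases mul_eq_zero.1 h6 with h7 | h7
    · exact hm h7
    · exact hne h7
  refine ⟨(S⁻¹ : Matrix (Fin N) (Fin N) K), fun i j => ?_⟩
  have h1 : S * S⁻¹ = 1 := Matrix.mul_nonsing_inv S (isUnit_iff_ne_zero.2 hdet)
  have h2 := congrFun (congrFun h1 i) j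
  rw [Matrix.mul_apply, Matrix.one_apply] at h2
  exact h2

section

variable {F : Type} [Field F] [Algebra ℝ F] {N : ℕ} (D : DF F N)

theorem charZero_of_real (F : Type) [Field F] [Algebra ℝ F] : CharZero F :=
  charZero_of_injective_algebraMap (algebraMap ℝ F).injective

/-- `d i (s i) = 1 ≠ 0` -/
theorem s_ne (i : Fin N) : D.s i ≠ 0 := by
  intro h
  have h1 := D.ds i i
  rw [h, map_zero, if_pos rfl] at h1
  exact zero_ne_one h1

/-- `d i (s i + s j) = 1` or `2` -/
theorem s_add_ne (i j : Fin N) : D.s i + D.s j ≠ 0 := by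
  intro h
  have : CharZero F := charZero_of_real F
  have h1 : D.d i (D.s i + D.s j) = 0 := by rw [h, map_zero]
  rw [map_add, D.ds, D.ds, if_pos rfl] at h1
  by_cases hij : i = j
  · rw [if_pos hij] at h1
    norm_num at h1
  · rw [if_neg hij, add_zero] at h1
    exact one_ne_zero h1

theorem s_inj : Function.Injective D.s := by
  intro i j h
  have h1 := D.ds i i
  rw [h, D.ds, if_pos rfl] at h1
  by_contra hij
  rw [if_neg hij] at h1
  exact zero_ne_one h1

theorem G_ne : D.G ≠ 0 := by
  unfold DF.G
  refine Finset.prod_ne_zero_iff.2 fun i _ => Finset.prod_ne_zero_iff.2 fun j hj => ?_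
  refine div_ne_zero ?_ (s_add_ne D i j)
  rw [sub_ne_zero]
  intro h
  have h1 := s_inj D h
  rw [Finset.mem_Ioi] at hj
  exact (ne_of_lt hj) h1

theorem sig_self (i : Fin N) : sig D i i = 0 := by
  simp [sig]

theorem sig_symm (i j : Fin N) : sig D i j = - sig D j i := by
  unfold sig
  rw [← neg_div, neg_sub, add_comm]

theorem AS_self (a : Fin N ⊕ ℕ) : AS D a a = 0 := by
  cases a with
  | inl i => exact sig_self D i
  | inr n => rfl

theorem AS_symm (a b : Fin N ⊕ ℕ) : AS D a b = - AS D b a := by
  cases a with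
  | inl i =>
    cases b with
    | inl j => exact sig_symm D i j
    | inr n => exact (neg_neg _).symm
  | inr n =>
    cases b with
    | inl j => rfl
    | inr m => exact neg_zero.symm

end

end Pool.Agent.Helper90.MVD
end

/- Helper90.MVD.Fock -/
section
/-!
Module MVD-9 (project MV, block D2): relations of the neutral fermions.

All from `ctr_ι_mul`, `ctr_one`, `ctr_ctr`, `ctr_comm`, `ExteriorAlgebra.ι_sq_zero`,
`ExteriorAlgebra.ι_add_mul_swap`.
* `phi_phi` (canonical anticommutation relations
  `φ_m φ_n + φ_n φ_m = 2 (-1)^m δ_{m+n,0}`): case distinction on the signs of `m`, `n`;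
  `φ_0 φ_0 = (cr 0 + an 0)^2 = 1`; for `m > 0 > n`: `2 (-1)^n (cr m (an |n| x) + an |n| (cr m x)) =
  2 (-1)^n δ x`.
* `an_fin`, `phi_fin`: local finiteness, induction on `x` (`CliffordAlgebra.left_induction` or
  `prb_span` + `Submodule.span_induction`): for `ι v * x` with `v` finitely supported.
* `prb_span`: the products of basis vectors span (`CliffordAlgebra.left_induction`: `v` is a linear
  combination of basis vectors).
* `phi_ind`: induction principle. Let `S` be the span of `{str L 1}`. `S` is stable under all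
  `phi n`. It is stable under `cr n`, `n > 0` (`= phi n`), and under `cr 0`: `2 cr 0 = phi 0 + g`,
  `g := cr 0 - an 0`, and `g` anticommutes with every `phi n` (for `n = 0`:
  `(a-b)(a+b) + (a+b)(a-b) = 2a² - 2b² = 0`), `g 1 = cr 0 1 = phi 0 1`; so
  `g (str L 1) = ± str L (phi 0 1) ∈ S` (`str (n :: L) = str L ∘ phi n`). Hence `S` contains all
  products of basis vectors. Then prove `C` on `S`.
* `cr_an_decomp`: `x = cr n (an n x) + an n (cr n x)`.
-/

namespace Pool.Agent.Helper90.MVD

open Finset Pool.Agent.Helper60.MV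

variable (F : Type) [Field F]

theorem vac_one : vac F 1 = 1 := by
  unfold vac
  simp

theorem vac_cr (n : ℕ) (x : Fk F) : vac F (cr F n x) = 0 := by
  unfold vac cr
  simp [ExteriorAlgebra.algebraMapInv]

theorem an_one (n : ℕ) : an F n 1 = 0 := by
  exact ctr_one _

theorem an_cr (m n : ℕ) (x : Fk F) :
    an F m (cr F n x) = (if m = n then x else 0) - cr F n (an F m x) := by
  unfold an cr
  rw [LinearMap.mulLeft_apply, LinearMap.mulLeft_apply, ctr_ι_mul]
  congr 1
  by_cases h : m = n
  · subst h
    simp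
  · simp [h, Finsupp.single_apply, Ne.symm h]

theorem an_an (m n : ℕ) (x : Fk F) : an F m (an F n x) = - an F n (an F m x) := by
  exact ctr_comm _ _ x

theorem an_an_self (n : ℕ) (x : Fk F) : an F n (an F n x) = 0 := by
  exact ctr_ctr _ x

theorem cr_cr (m n : ℕ) (x : Fk F) : cr F m (cr F n x) = - cr F n (cr F m x) := by
  unfold cr
  simp only [LinearMap.mulLeft_apply]
  rw [← mul_assoc, ← mul_assoc, eq_neg_iff_add_eq_zero, ← add_mul,
    ExteriorAlgebra.ι_add_mul_swap, zero_mul]

theorem cr_cr_self (n : ℕ) (x : Fk F) : cr F n (cr F n x) = 0 := by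
  unfold cr
  simp only [LinearMap.mulLeft_apply]
  rw [← mul_assoc, ExteriorAlgebra.ι_sq_zero, zero_mul]

theorem cr_an_decomp (n : ℕ) (x : Fk F) : x = cr F n (an F n x) + an F n (cr F n x) := by
  rw [an_cr, if_pos rfl]
  abel

theorem phi_pos (n : ℕ) (hn : 0 < n) (x : Fk F) : phi F n x = cr F n x := by
  unfold phi
  rw [if_pos (by exact_mod_cast hn), Int.natAbs_natCast]

theorem phi_zero (x : Fk F) : phi F 0 x = cr F 0 x + an F 0 x := by
  unfold phi
  rw [if_neg (lt_irrefl _), if_pos rfl, LinearMap.add_apply]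

theorem phi_neg (n : ℕ) (hn : 0 < n) (x : Fk F) :
    phi F (-(n : ℤ)) x = (2 * (-1) ^ n : F) • an F n x := by
  unfold phi
  rw [if_neg (by omega), if_neg (by omega), LinearMap.smul_apply, Int.natAbs_neg,
    Int.natAbs_natCast]

theorem phi_phi (m n : ℤ) (x : Fk F) :
    phi F m (phi F n x) =
      (if m + n = 0 then 2 * (-1) ^ m.natAbs else 0 : F) • x - phi F n (phi F m x) := by
  have hm : (∃ a : ℕ, 0 < a ∧ m = a) ∨ m = 0 ∨ (∃ a : ℕ, 0 < a ∧ m = -(a : ℤ)) := by
    rcases lt_trichotomy m 0 with h | h | h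
    · exact Or.inr (Or.inr ⟨m.natAbs, by omega, by omega⟩)
    · exact Or.inr (Or.inl h)
    · exact Or.inl ⟨m.natAbs, by omega, by omega⟩
  have hn : (∃ a : ℕ, 0 < a ∧ n = a) ∨ n = 0 ∨ (∃ a : ℕ, 0 < a ∧ n = -(a : ℤ)) := by
    rcases lt_trichotomy n 0 with h | h | h
    · exact Or.inr (Or.inr ⟨n.natAbs, by omega, by omega⟩)
    · exact Or.inr (Or.inl h)
    · exact Or.inl ⟨n.natAbs, by omega, by omega⟩
  rcases hm with ⟨a, ha, rfl⟩ | rfl | ⟨a, ha, rfl⟩ <;>
    rcases hn with ⟨b, hb, rfl⟩ | rfl | ⟨b, hb, rfl⟩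
  · rw [if_neg (by omega), zero_smul, zero_sub, phi_pos F a ha, phi_pos F b hb,
      phi_pos F b hb, phi_pos F a ha, cr_cr]
  · rw [if_neg (by omega), zero_smul, zero_sub, phi_pos F a ha, phi_zero, phi_zero,
      phi_pos F a ha, map_add, cr_cr, an_cr, if_neg (by omega)]
    abel
  · rw [phi_pos F a ha, phi_neg F b hb, phi_neg F b hb, phi_pos F a ha, map_smul, an_cr]
    by_cases hab : a = b
    · subst hab
      rw [if_pos (by omega), if_pos rfl, Int.natAbs_natCast, smul_sub]
      abel
    · rw [if_neg (by omega), if_neg (by omega), zero_smul, smul_sub, smul_zero]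
      abel
  · rw [if_neg (by omega), zero_smul, zero_sub, phi_pos F b hb, phi_zero, phi_zero,
      phi_pos F b hb, map_add, cr_cr, an_cr, if_neg (by omega)]
    abel
  · rw [if_pos (by omega), phi_zero, phi_zero, map_add, map_add, cr_cr_self, an_an_self, an_cr,
      if_pos rfl, Int.natAbs_zero, pow_zero, mul_one, two_smul]
    abel
  · rw [if_neg (by omega), zero_smul, zero_sub, phi_neg F b hb, phi_zero, phi_zero,
      phi_neg F b hb, map_add, map_smul, map_smul, an_cr, if_neg (by omega), an_an F b 0, ← smul_add,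
      ← smul_neg]
    congr 1
    abel
  · rw [phi_neg F a ha, phi_pos F b hb, phi_pos F b hb, phi_neg F a ha, map_smul, an_cr]
    by_cases hab : a = b
    · subst hab
      rw [if_pos (by omega), if_pos (by omega), Int.natAbs_neg, Int.natAbs_natCast, smul_sub]
    · rw [if_neg (by omega), if_neg (by omega), zero_smul, smul_sub, smul_zero]
  · rw [if_neg (by omega), zero_smul, zero_sub, phi_neg F a ha, phi_zero, phi_zero,
      phi_neg F a ha, map_add, map_smul, map_smul, an_cr, if_neg (by omega), an_an F a 0, ← smul_add,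
      ← smul_neg]
    congr 1
    abel
  · rw [if_neg (by omega), zero_smul, zero_sub, phi_neg F a ha, phi_neg F b hb, phi_neg F b hb,
      phi_neg F a ha, map_smul, map_smul, an_an F a b, smul_neg, smul_neg, smul_comm]

/-- the creation part of `phi m` (zero for `m < 0`) -/
theorem phi_one_neg (n : ℤ) (hn : n < 0) : phi F n 1 = 0 := by
  obtain ⟨a, ha, rfl⟩ : ∃ a : ℕ, 0 < a ∧ n = -(a : ℤ) := ⟨n.natAbs, by omega, by omega⟩
  rw [phi_neg F a ha, an_one, smul_zero]

theorem prb_nil : prb F [] = 1 := by
  rfl

theorem prb_cons (n : ℕ) (L : List ℕ) : prb F (n :: L) = cr F n (prb F L) := by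
  unfold prb wdg cr
  rw [List.map_cons, List.map_cons, List.prod_cons, LinearMap.mulLeft_apply]

theorem prb_span : Submodule.span F (Set.range (prb F)) = ⊤ := by
  rw [eq_top_iff]
  intro x _
  refine CliffordAlgebra.left_induction
    (P := fun x => x ∈ Submodule.span F (Set.range (prb F))) _ ?_ ?_ ?_ x
  · intro r
    rw [Algebra.algebraMap_eq_smul_one]
    exact Submodule.smul_mem _ _ (Submodule.subset_span ⟨[], prb_nil F⟩)
  · intro x y hx hy
    exact Submodule.add_mem _ hx hy
  · intro x v hx
    have hcr : ∀ (n : ℕ) (y : Fk F), y ∈ Submodule.span F (Set.range (prb F)) →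
        cr F n y ∈ Submodule.span F (Set.range (prb F)) := by
      intro n y hy
      induction hy using Submodule.span_induction with
      | mem z hz =>
        obtain ⟨L, rfl⟩ := hz
        exact Submodule.subset_span ⟨n :: L, prb_cons F n L⟩
      | zero =>
        rw [map_zero]
        exact Submodule.zero_mem _
      | add a b _ _ ha hb =>
        rw [map_add]
        exact Submodule.add_mem _ ha hb
      | smul c a _ ha =>
        rw [map_smul]
        exact Submodule.smul_mem _ _ ha
    change ExteriorAlgebra.ι F v * x ∈ Submodule.span F (Set.range (prb F))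
    induction v using Finsupp.induction_linear with
    | zero =>
      rw [map_zero, zero_mul]
      exact Submodule.zero_mem _
    | add a b ha hb =>
      rw [map_add, add_mul]
      exact Submodule.add_mem _ ha hb
    | single n c =>
      have h1 : (Finsupp.single n c : ℕ →₀ F) = c • Finsupp.single n (1 : F) := by
        simp
      rw [h1, map_smul, smul_mul_assoc]
      exact Submodule.smul_mem _ _ (hcr n x hx)

theorem an_fin (x : Fk F) : ∃ B : ℕ, ∀ n, B ≤ n → an F n x = 0 := by
  have hx : x ∈ Submodule.span F (Set.range (prb F)) := by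
    rw [prb_span]
    exact Submodule.mem_top
  induction hx using Submodule.span_induction with
  | mem z hz =>
    obtain ⟨L, rfl⟩ := hz
    induction L with
    | nil => exact ⟨0, fun n _ => by rw [prb_nil, an_one]⟩
    | cons k L ih =>
      obtain ⟨B, hB⟩ := ih
      refine ⟨max B (k + 1), fun n hn => ?_⟩
      rw [prb_cons, an_cr, hB n (le_trans (le_max_left _ _) hn), map_zero, if_neg, sub_zero]
      have := le_trans (le_max_right _ _) hn
      omega
  | zero => exact ⟨0, fun n _ => map_zero _⟩
  | add a b _ _ ha hb =>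
    obtain ⟨B, hB⟩ := ha
    obtain ⟨B', hB'⟩ := hb
    refine ⟨max B B', fun n hn => ?_⟩
    rw [map_add, hB n (le_trans (le_max_left _ _) hn), hB' n (le_trans (le_max_right _ _) hn),
      add_zero]
  | smul c a _ ha =>
    obtain ⟨B, hB⟩ := ha
    exact ⟨B, fun n hn => by rw [map_smul, hB n hn, smul_zero]⟩

theorem phi_fin (x : Fk F) : ∃ B : ℕ, ∀ n : ℤ, n ≤ -(B : ℤ) → phi F n x = 0 := by
  obtain ⟨B, hB⟩ := an_fin F x
  refine ⟨B + 1, fun n hn => ?_⟩
  obtain ⟨a, ha, haB, rfl⟩ : ∃ a : ℕ, 0 < a ∧ B ≤ a ∧ n = -(a : ℤ) :=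
    ⟨n.natAbs, by omega, by omega, by omega⟩
  rw [phi_neg F a ha, hB a haB, smul_zero]

private noncomputable def gg : Fk F →ₗ[F] Fk F := cr F 0 - an F 0

private theorem gg_apply (x : Fk F) : gg F x = cr F 0 x - an F 0 x := by
  unfold gg
  rw [LinearMap.sub_apply]

private theorem gg_phi (n : ℤ) (x : Fk F) : gg F (phi F n x) = - phi F n (gg F x) := by
  rcases lt_trichotomy n 0 with h | h | h
  · obtain ⟨a, ha, rfl⟩ : ∃ a : ℕ, 0 < a ∧ n = -(a : ℤ) := ⟨n.natAbs, by omega, by omega⟩
    rw [phi_neg F a ha, phi_neg F a ha, map_smul, gg_apply, gg_apply, map_sub, an_cr,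
      if_neg (by omega), an_an F a 0, ← smul_neg]
    congr 1
    abel
  · subst h
    rw [phi_zero, phi_zero, gg_apply, gg_apply, map_add, map_add, map_sub, map_sub, cr_cr_self,
      an_an_self, an_cr, if_pos rfl]
    abel
  · obtain ⟨a, ha, rfl⟩ : ∃ a : ℕ, 0 < a ∧ n = (a : ℤ) := ⟨n.natAbs, by omega, by omega⟩
    rw [phi_pos F a ha, phi_pos F a ha, gg_apply, gg_apply, map_sub, an_cr, if_neg (by omega),
      cr_cr F 0 a]
    abel

private theorem gg_one : gg F 1 = phi F 0 1 := by
  rw [gg_apply, phi_zero, an_one, sub_zero, add_zero]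

private theorem str_append (L : List ℤ) (n : ℤ) (x : Fk F) :
    str F (L ++ [n]) x = phi F n (str F L x) := by
  induction L generalizing x with
  | nil => rfl
  | cons k L ih =>
    change str F (L ++ [n]) (phi F k x) = phi F n (str F L (phi F k x))
    exact ih _

private theorem gg_str (L : List ℤ) (x : Fk F) :
    gg F (str F L x) = ((-1) ^ L.length : F) • str F L (gg F x) := by
  induction L generalizing x with
  | nil =>
    change gg F x = ((-1) ^ 0 : F) • gg F x
    rw [pow_zero, one_smul]
  | cons k L ih =>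
    change gg F (str F L (phi F k x)) = _ • str F L (phi F k (gg F x))
    rw [ih, gg_phi, map_neg, smul_neg, List.length_cons, pow_succ, mul_neg, mul_one, neg_smul]

theorem phi_ind [CharZero F] (C : Fk F → Prop) (h1 : C 1) (hadd : ∀ x y, C x → C y → C (x + y))
    (hsmul : ∀ (c : F) x, C x → C (c • x)) (hphi : ∀ (n : ℤ) x, C x → C (phi F n x)) :
    ∀ x, C x := by
  set S : Submodule F (Fk F) := Submodule.span F (Set.range (fun L => str F L 1)) with hS
  have hphiS : ∀ (n : ℤ) x, x ∈ S → phi F n x ∈ S := by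
    intro n x hx
    induction hx using Submodule.span_induction with
    | mem z hz =>
      obtain ⟨L, rfl⟩ := hz
      exact Submodule.subset_span ⟨L ++ [n], str_append F L n 1⟩
    | zero =>
      rw [map_zero]
      exact Submodule.zero_mem _
    | add a b _ _ ha hb =>
      rw [map_add]
      exact Submodule.add_mem _ ha hb
    | smul c a _ ha =>
      rw [map_smul]
      exact Submodule.smul_mem _ _ ha
  have hgS : ∀ x, x ∈ S → gg F x ∈ S := by
    intro x hx
    induction hx using Submodule.span_induction with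
    | mem z hz =>
      obtain ⟨L, rfl⟩ := hz
      change gg F (str F L 1) ∈ S
      rw [gg_str, gg_one]
      exact Submodule.smul_mem _ _ (Submodule.subset_span ⟨0 :: L, rfl⟩)
    | zero =>
      rw [map_zero]
      exact Submodule.zero_mem _
    | add a b _ _ ha hb =>
      rw [map_add]
      exact Submodule.add_mem _ ha hb
    | smul c a _ ha =>
      rw [map_smul]
      exact Submodule.smul_mem _ _ ha
  have hcrS : ∀ (n : ℕ) x, x ∈ S → cr F n x ∈ S := by
    intro n x hx
    rcases Nat.eq_zero_or_pos n with h | h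
    · subst h
      have h2 : cr F 0 x = (1 / 2 : F) • (phi F 0 x + gg F x) := by
        rw [phi_zero, gg_apply]
        have : cr F 0 x + an F 0 x + (cr F 0 x - an F 0 x) = (2 : F) • cr F 0 x := by
          rw [two_smul]
          abel
        rw [this, smul_smul]
        norm_num
      rw [h2]
      exact Submodule.smul_mem _ _ (Submodule.add_mem _ (hphiS 0 x hx) (hgS x hx))
    · rw [← phi_pos F n h]
      exact hphiS n x hx
  have hprb : ∀ L : List ℕ, prb F L ∈ S := by
    intro L
    induction L with
    | nil => exact Submodule.subset_span ⟨[], rfl⟩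
    | cons k L ih =>
      rw [prb_cons]
      exact hcrS k _ ih
  have hStop : ∀ x, x ∈ S := by
    intro x
    have hx : x ∈ Submodule.span F (Set.range (prb F)) := by
      rw [prb_span]
      exact Submodule.mem_top
    refine (Submodule.span_le.2 ?_) hx
    rintro _ ⟨L, rfl⟩
    exact hprb L
  have hstr : ∀ (L : List ℤ) x, C x → C (str F L x) := by
    intro L
    induction L with
    | nil =>
      intro x hx
      exact hx
    | cons k L ih =>
      intro x hx
      exact ih _ (hphi k x hx)
  intro x
  have hx := hStop x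
  induction hx using Submodule.span_induction with
  | mem z hz =>
    obtain ⟨L, rfl⟩ := hz
    exact hstr L 1 h1
  | zero =>
    have := hsmul 0 1 h1
    rwa [zero_smul] at this
  | add a b _ _ ha hb => exact hadd a b ha hb
  | smul c a _ ha => exact hsmul c a ha

end Pool.Agent.Helper90.MVD
end

/- Helper90.MVD.LamEx -/
section
/-!
Module MVD-21 (project MV, block D2): existence of `Λ_s`.

`exists_PfA (AS D) (AS_self D) (AS_symm D)` gives `P` on the exterior algebra of
`(Fin N ⊕ ℕ) →₀ F`. Let `g : (ℕ →₀ F) →ₗ ((Fin N ⊕ ℕ) →₀ F)` send the basis vector `2n` to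
`single (inr n) 1` and the odd ones to `0` (`Finsupp.linearCombination`), and
`Λ x := P (wdg ((psl N).map single) * ExteriorAlgebra.map g x)`.
`ExteriorAlgebra.map g` is an algebra homomorphism with `ι v ↦ ι (g v)`.
* odd: one factor is `ι 0 = 0`.
* even: `ExteriorAlgebra.map g (prb (2 L)) = wdg ((L.map inr).map single)`, `wdg_append`,
  `exists_PfA`.
Consequences: `Λ` of `cr`/`an` on products (also used in D22):
* `lam_cr_odd`: `Λ (cr n x) = 0` for odd `n` (on `prb` by `IsLam.odd`, then `prb_span`).
* `lam_one`: `Λ 1 = pfL (AS D) (psl N)`.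
-/

namespace Pool.Agent.Helper90.MVD

open Finset Pool.Agent.Helper60.MV Pool.Agent.Helper52.MVD

variable {F : Type} [Field F] [Algebra ℝ F] {N : ℕ} (D : DF F N)

/-- even modes to the letters `inr`, odd modes to zero -/
private noncomputable def gmap (F : Type) [Field F] (N : ℕ) : (ℕ →₀ F) →ₗ[F] ((Fin N ⊕ ℕ) →₀ F) :=
  Finsupp.linearCombination F
    (fun n => if Even n then (Finsupp.single (Sum.inr (n / 2)) 1 : (Fin N ⊕ ℕ) →₀ F) else 0)

private theorem gmap_even (n : ℕ) :
    gmap F N (Finsupp.single (2 * n) 1) = Finsupp.single (Sum.inr n) 1 := by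
  unfold gmap
  rw [Finsupp.linearCombination_single, one_smul, if_pos (even_two_mul n),
    Nat.mul_div_cancel_left _ (by norm_num : 0 < 2)]

private theorem gmap_odd (n : ℕ) (hn : Odd n) : gmap F N (Finsupp.single n 1) = 0 := by
  unfold gmap
  rw [Finsupp.linearCombination_single, one_smul, if_neg (Nat.not_even_iff_odd.mpr hn)]

private theorem map_prb (L : List ℕ) :
    ExteriorAlgebra.map (gmap F N) (prb F L) =
      wdg (L.map fun n => gmap F N (Finsupp.single n 1)) := by
  induction L with
  | nil => simp [prb, wdg]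
  | cons n L ih =>
    rw [List.map_cons, wdg_cons, ← ih]
    have h1 : prb F (n :: L) = ExteriorAlgebra.ι F (Finsupp.single n (1 : F)) * prb F L := by
      unfold prb
      rw [List.map_cons, wdg_cons]
    rw [h1, map_mul, ExteriorAlgebra.map_apply_ι]

theorem exists_lam : ∃ Λ : Fk F →ₗ[F] F, IsLam D Λ := by
  obtain ⟨P, hP, hPL⟩ := exists_PfA (AS D) (AS_self D) (AS_symm D)
  refine ⟨P ∘ₗ (LinearMap.mulLeft F (wdg ((psl N).map fun a => Finsupp.single a 1))) ∘ₗ
    (ExteriorAlgebra.map (gmap F N)).toLinearMap, ?_, ?_⟩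
  · rintro L ⟨n, hn, hodd⟩
    rw [LinearMap.comp_apply, LinearMap.comp_apply, AlgHom.toLinearMap_apply, map_prb,
      LinearMap.mulLeft_apply]
    have h0 : (wdg (L.map fun n => gmap F N (Finsupp.single n 1)) :
        ExteriorAlgebra F ((Fin N ⊕ ℕ) →₀ F)) = 0 := by
      unfold wdg
      apply List.prod_eq_zero
      rw [List.map_map, List.mem_map]
      refine ⟨n, hn, ?_⟩
      rw [Function.comp_apply, gmap_odd n hodd, map_zero]
    rw [h0, mul_zero, map_zero]
  · intro L
    rw [LinearMap.comp_apply, LinearMap.comp_apply, AlgHom.toLinearMap_apply, map_prb,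
      LinearMap.mulLeft_apply, ← wdg_append, ← hPL, List.map_append, List.map_map, List.map_map]
    congr 3
    apply List.map_congr_left
    intro n _
    rw [Function.comp_apply, Function.comp_apply, gmap_even]

variable {D} {Λ : Fk F →ₗ[F] F}

theorem lam_cr_odd (hΛ : IsLam D Λ) (n : ℕ) (hn : Odd n) (x : Fk F) : Λ (cr F n x) = 0 := by
  have hx : x ∈ Submodule.span F (Set.range (prb F)) := by
    rw [prb_span]
    exact Submodule.mem_top
  induction hx using Submodule.span_induction with
  | mem z hz =>
    obtain ⟨L, rfl⟩ := hz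
    rw [← prb_cons]
    exact hΛ.odd _ ⟨n, List.mem_cons_self, hn⟩
  | zero => simp
  | add a b _ _ ha hb => rw [map_add, map_add, ha, hb, add_zero]
  | smul c a _ ha => rw [map_smul, map_smul, ha, smul_zero]

theorem lam_one (hΛ : IsLam D Λ) : Λ 1 = pfL (AS D) (psl N) := by
  have h := hΛ.even []
  rw [List.map_nil, List.map_nil, prb_nil, List.append_nil] at h
  exact h

/-- contraction of a product of basis vectors -/
theorem an_prb (n : ℕ) (L : List ℕ) :
    an F n (prb F L) = ∑ j : Fin L.length,
      ((-1) ^ (j : ℕ) * (if L.get j = n then 1 else 0) : F) • prb F (L.eraseIdx j) := by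
  induction L with
  | nil => rw [prb_nil, an_one]; simp
  | cons m L ih =>
    rw [prb_cons, an_cr, ih, map_sum]
    simp only [List.length_cons]
    rw [Fin.sum_univ_succ, sub_eq_add_neg, ← Finset.sum_neg_distrib]
    congr 1
    · simp only [Fin.val_zero, pow_zero, one_mul, List.get_eq_getElem, List.getElem_cons_zero,
        List.eraseIdx_zero, List.tail_cons]
      by_cases h : n = m
      · rw [if_pos h, if_pos h.symm, one_smul]
      · rw [if_neg h, if_neg (fun e => h e.symm), zero_smul]
    · apply Finset.sum_congr rfl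
      intro j _
      simp only [Fin.val_succ, List.get_eq_getElem, List.getElem_cons_succ,
        List.eraseIdx_cons_succ, prb_cons, map_smul]
      rw [← neg_smul]
      congr 1
      rw [pow_succ]
      ring

end Pool.Agent.Helper90.MVD
end

/- Helper90.MVD.WickS -/
section
/-!
Module MVD-13 (project MV, block D2): Wick's theorem for strings of neutral fermions.

`vac (str L 1) = pfL zfF L`. Let `a m := cr m` for `m ≥ 0` and `a m := 0` for `m < 0` (creation part).
Then `φ_m 1 = a m 1`, `vac (a m x) = 0`, and `φ_n (a m y) = - a m (φ_n y) + zfF m n • y` for all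
`m, n ∈ ℤ` (`m > 0`: `phi_phi`; `m = 0`: `φ_n` with `cr 0`: only `n = 0` contributes, `an 0 (cr 0 y) =
y - cr 0 (an 0 y)`, value `1 = zfF 0 0`; `m < 0`: both sides `0`).
Claim (induction on the list `L`, `str (n :: L) = str L ∘ φ_n`):
`str L (a m y) = (-1)^|L| a m (str L y) + ∑_j (-1)^j zfF m (L_j) • str (L.eraseIdx j) y`.
Take `vac` with `y = 1` and use strong induction on the length.
-/

namespace Pool.Agent.Helper90.MVD

open Finset Pool.Agent.Helper60.MV

variable (F : Type) [Field F]

/-- creation part of `φ_m` -/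
private noncomputable def aM (m : ℤ) : Fk F →ₗ[F] Fk F := if 0 ≤ m then cr F m.natAbs else 0

private theorem phi_one_aM (m : ℤ) : phi F m 1 = aM F m 1 := by
  rcases lt_trichotomy m 0 with h | h | h
  · rw [phi_one_neg F m h, aM, if_neg (not_le.mpr h), LinearMap.zero_apply]
  · subst h
    rw [phi_zero, an_one, add_zero, aM, if_pos le_rfl, Int.natAbs_zero]
  · obtain ⟨k, rfl⟩ := Int.eq_ofNat_of_zero_le h.le
    have hk : 0 < k := by exact_mod_cast h
    rw [phi_pos F k hk, aM, if_pos h.le, Int.natAbs_natCast]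

private theorem vac_aM (m : ℤ) (x : Fk F) : vac F (aM F m x) = 0 := by
  rw [aM]
  split_ifs
  · exact vac_cr F _ x
  · rw [LinearMap.zero_apply, map_zero]

private theorem phi_aM (m n : ℤ) (y : Fk F) :
    phi F n (aM F m y) = - aM F m (phi F n y) + zfF F m n • y := by
  rcases lt_trichotomy m 0 with h | h | h
  · have h0 : zfF F m n = 0 := by
      rw [zfF]
      split_ifs with h1 h2 h3
      · omega
      · omega
      · rfl
      · rfl
    rw [aM, if_neg (not_le.mpr h), LinearMap.zero_apply, LinearMap.zero_apply, map_zero, h0,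
      zero_smul, neg_zero, add_zero]
  · subst h
    rw [aM, if_pos le_rfl, Int.natAbs_zero]
    rcases lt_trichotomy n 0 with h | h | h
    · obtain ⟨k, hk⟩ := Int.eq_ofNat_of_zero_le (show 0 ≤ -n by omega)
      have hn : n = -(k : ℤ) := by
        rw [← hk]
        ring
      have hk0 : 0 < k := by omega
      have h0 : zfF F 0 n = 0 := by
        rw [zfF, if_neg (by omega)]
      rw [h0, zero_smul, add_zero, hn, phi_neg F k hk0, phi_neg F k hk0, an_cr,
        if_neg (by omega), zero_sub, map_smul, smul_neg]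
    · subst h
      have h0 : zfF F 0 0 = 1 := by
        rw [zfF, if_pos (by norm_num), if_pos rfl]
      rw [h0, one_smul, phi_zero, phi_zero, cr_cr_self, zero_add, an_cr, if_pos rfl, map_add,
        cr_cr_self, zero_add]
      abel
    · obtain ⟨k, rfl⟩ := Int.eq_ofNat_of_zero_le h.le
      have hk0 : 0 < k := by exact_mod_cast h
      have h0 : zfF F 0 (k : ℤ) = 0 := by
        rw [zfF, if_neg (by omega)]
      rw [h0, zero_smul, add_zero, phi_pos F k hk0, phi_pos F k hk0, cr_cr]
  · obtain ⟨k, rfl⟩ := Int.eq_ofNat_of_zero_le h.le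
    have hk0 : 0 < k := by exact_mod_cast h
    rw [aM, if_pos h.le, Int.natAbs_natCast, ← phi_pos F k hk0, ← phi_pos F k hk0,
      phi_phi F n (k : ℤ) y]
    have h0 : zfF F (k : ℤ) n = (if n + (k : ℤ) = 0 then 2 * (-1) ^ n.natAbs else 0 : F) := by
      rw [zfF]
      by_cases h1 : (k : ℤ) + n = 0
      · rw [if_pos h1, if_neg (by omega), if_pos h, if_pos (by omega)]
        have h2 : (k : ℤ).natAbs = n.natAbs := by omega
        rw [h2]
      · rw [if_neg h1, if_neg (by omega)]
    rw [h0]
    abel

private theorem str_aM (m : ℤ) : ∀ (L : List ℤ) (y : Fk F),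
    str F L (aM F m y) = ((-1) ^ L.length : F) • aM F m (str F L y) +
      ∑ j : Fin L.length, ((-1) ^ (j : ℕ) * zfF F m (L.get j)) • str F (L.eraseIdx j) y := by
  intro L
  induction L with
  | nil =>
    intro y
    simp [str]
  | cons n L ih =>
    intro y
    have h1 : ∀ z, str F (n :: L) z = str F L (phi F n z) := fun z => rfl
    rw [h1, h1, phi_aM, map_add, map_neg, ih, map_smul]
    have h2 : ∑ j : Fin (n :: L).length, ((-1) ^ (j : ℕ) * zfF F m ((n :: L).get j)) •
          str F ((n :: L).eraseIdx j) y =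
        zfF F m n • str F L y + ∑ j : Fin L.length, (-((-1) ^ (j : ℕ) * zfF F m (L.get j))) •
          str F (L.eraseIdx j) (phi F n y) := by
      rw [show (∑ j : Fin (n :: L).length, ((-1) ^ (j : ℕ) * zfF F m ((n :: L).get j)) •
          str F ((n :: L).eraseIdx j) y) = ∑ j : Fin (L.length + 1),
            ((-1) ^ (j : ℕ) * zfF F m ((n :: L).get j)) • str F ((n :: L).eraseIdx j) y from rfl,
        Fin.sum_univ_succ]
      congr 1
      · rw [Fin.val_zero, pow_zero, one_mul]
        rfl
      · refine Finset.sum_congr rfl fun j _ => ?_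
        have e1 : (n :: L).get j.succ = L.get j := rfl
        have e2 : (n :: L).eraseIdx (j.succ : ℕ) = n :: L.eraseIdx (j : ℕ) := by
          rw [Fin.val_succ]
          rfl
        rw [e1, e2, show str F (n :: L.eraseIdx (j : ℕ)) y = str F (L.eraseIdx (j : ℕ)) (phi F n y) from rfl,
          Fin.val_succ, pow_succ]
        ring_nf
    rw [h2, List.length_cons, pow_succ]
    have h3 : ∑ j : Fin L.length, (-((-1) ^ (j : ℕ) * zfF F m (L.get j))) •
          str F (L.eraseIdx j) (phi F n y) = - ∑ j : Fin L.length,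
            ((-1) ^ (j : ℕ) * zfF F m (L.get j)) • str F (L.eraseIdx j) (phi F n y) := by
      rw [← Finset.sum_neg_distrib]
      refine Finset.sum_congr rfl fun j _ => ?_
      rw [neg_smul]
    rw [h3, mul_neg_one, neg_smul]
    abel

theorem vac_str (L : List ℤ) : vac F (str F L 1) = pfL (zfF F) L := by
  have key : ∀ n : ℕ, ∀ L : List ℤ, L.length < n → vac F (str F L 1) = pfL (zfF F) L := by
    intro n
    induction n with
    | zero =>
      intro L hL
      exact absurd hL (Nat.not_lt_zero _)
    | succ n ih =>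
      intro L hL
      cases L with
      | nil =>
        rw [pfL_nil]
        exact vac_one F
      | cons x xs =>
        have h1 : str F (x :: xs) 1 = str F xs (phi F x 1) := rfl
        rw [h1, phi_one_aM, str_aM, map_add, map_smul, vac_aM, smul_zero, zero_add, map_sum,
          pfL_cons]
        refine Finset.sum_congr rfl fun j _ => ?_
        rw [map_smul, smul_eq_mul, ih]
        rw [List.length_eraseIdx_of_lt j.2]
        rw [List.length_cons] at hL
        omega
  exact key (L.length + 1) L (Nat.lt_succ_self _)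

theorem algebraMap_zf [Algebra ℝ F] (m n : ℤ) : algebraMap ℝ F (zf m n) = zfF F m n := by
  rw [zf, zfF]
  split_ifs
  · exact map_one _
  · rw [map_mul, map_pow, map_neg, map_one]
    congr 1
    exact map_ofNat (algebraMap ℝ F) 2
  · exact map_zero _
  · exact map_zero _

end Pool.Agent.Helper90.MVD
end

/- Helper90.MVD.SchurId -/
section
/-!
Module MVD-4 (project MV, block D2): Schur's Pfaffian identity.

`pfL σ L = ∏_{i<j} σ(L_i, L_j)`, `σ(x,y) = (x-y)/(x+y)`, for a list of even length with distinct
nonzero entries of nonzero sums.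

Proof. Induction on the length (two by two). `L = x :: xs`, `n = |xs|` odd. By the recursion and the
induction hypothesis (`xs.eraseIdx j` has even length `n - 1`)
`pfL σ (x::xs) = ∑_j (-1)^j σ(x,x_j) ∏_{i<k; i,k≠j} σ(x_i,x_k)`. All `σ(x_i,x_k)`, `i ≠ k`, are
nonzero and `∏_{i<k} σ_ik = ∏_{i<k;i,k≠j} σ_ik * (-1)^j ∏_{k≠j} σ(x_j,x_k)` (`σ(x_i,x_j) =
-σ(x_j,x_i)` for the `j` indices `i<j`; prove this for lists by induction, e.g. with the list split
`xs = l₁ ++ x_j :: l₂`). So the identity is
(1) `∑_j c_j σ(x,x_j) = ∏_j σ(x,x_j)`, `c_j := ∏_{k≠j} (x_j+x_k)/(x_j-x_k)`, `n` odd.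
Lagrange: the polynomial `Q(T) := ∏_k (T-x_k) - ∏_k (T+x_k)` has degree `< n` and
`Q(-x_j) = ∏_k (-x_j-x_k) = - 2 x_j ∏_{k≠j} (-(x_j+x_k))`; Lagrange interpolation at the `n`
distinct nodes `-x_j` (Mathlib: `Lagrange.sum_basis`, `Lagrange.eq_interpolate_of_eval_eq`,
`Lagrange.eval_basis`...) gives for every `T` with all `T + x_k ≠ 0`
(2) `∏_k (T-x_k)/(T+x_k) = 1 - ∑_j c_j * 2 x_j/(T+x_j)`.
[`Q(T)/∏_k(T+x_k) = ∑_j Q(-x_j) / (∏_{k≠j}(x_k-x_j)) / (T+x_j)`, and
`-2x_j ∏_{k≠j} (-(x_j+x_k))/(x_k-x_j) = -2x_j ∏_{k≠j} (x_j+x_k)/(x_j-x_k)`.]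
`T = 0`: `(-1)^n = 1 - 2 ∑_j c_j`, so `∑_j c_j = 1` (n odd; characteristic 0). `T = x`:
`2x_j/(x+x_j) = 1 - σ(x,x_j)`, so `∏_j σ(x,x_j) = 1 - ∑ c_j + ∑ c_j σ(x,x_j)`, which is (1).
(It may be more convenient to prove (1) for a `Finset`/`Fin n` indexed family and to convert.)
-/

namespace Pool.Agent.Helper90.MVD

open Finset Pool.Agent.Helper60.MV

/-- `∏_{i<j} σ(L_i, L_j)` -/
noncomputable def prs {K : Type} [Field K] : List K → K
  | [] => 1
  | x :: xs => (xs.map fun y => (x - y) / (x + y)).prod * prs xs

theorem prs_antisymm {K : Type} [Field K] (a b : K) :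
    (b - a) / (b + a) = - ((a - b) / (a + b)) := by
  rw [← neg_div, neg_sub, add_comm b a]

theorem prod_map_eraseIdx {K R : Type} [CommMonoid R] (f : K → R) (xs : List K)
    (j : Fin xs.length) :
    (xs.map f).prod = f (xs.get j) * ((xs.eraseIdx j).map f).prod := by
  have h := List.getElem_cons_eraseIdx_perm (l := xs) (n := (j : ℕ)) j.2
  have h2 := (h.map f).prod_eq
  rw [List.map_cons, List.prod_cons] at h2
  rw [← h2]
  rfl

/-- Moving the entry `j` to the front. -/
theorem prs_erase {K : Type} [Field K] (xs : List K) (j : Fin xs.length) :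
    prs xs = (-1) ^ (j : ℕ) *
      ((xs.eraseIdx j).map fun y => (xs.get j - y) / (xs.get j + y)).prod *
      prs (xs.eraseIdx j) := by
  induction xs with
  | nil => exact j.elim0
  | cons y ys ih =>
    rcases j with ⟨j, hj⟩
    cases j with
    | zero => simp [prs]
    | succ j =>
      have hj' : j < ys.length := by simpa using hj
      have h1 := ih ⟨j, hj'⟩
      have h2 := prod_map_eraseIdx (fun z => (y - z) / (y + z)) ys ⟨j, hj'⟩
      have h3 := prs_antisymm y (ys.get ⟨j, hj'⟩)
      simp only [List.eraseIdx_cons_succ, List.get_eq_getElem, List.getElem_cons_succ,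
        List.map_cons, List.prod_cons, prs, pow_succ] at h1 h2 h3 ⊢
      rw [h2, h1, h3]
      ring

theorem erase_multiset {K : Type} (xs : List K) (j : Fin xs.length) :
    ((xs.eraseIdx j : List K) : Multiset K) = (univ.erase j).val.map xs.get := by
  have h1 : xs.get j ::ₘ ((xs.eraseIdx j : List K) : Multiset K) = (xs : Multiset K) := by
    rw [Multiset.cons_coe]
    exact Multiset.coe_eq_coe.2 (List.getElem_cons_eraseIdx_perm (l := xs) (n := (j : ℕ)) j.2)
  have h2 : xs.get j ::ₘ (univ.erase j).val.map xs.get = (xs : Multiset K) := by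
    rw [← Multiset.map_cons xs.get]
    have h3 : j ::ₘ (univ.erase j).val = (univ : Finset (Fin xs.length)).val := by
      rw [Finset.erase_val]
      exact Multiset.cons_erase (Finset.mem_univ j)
    rw [h3, Fin.univ_val_map]
    simp
  exact (Multiset.cons_inj_right _).1 (h1.trans h2.symm)

theorem prod_erase_list {K R : Type} [CommMonoid R] (f : K → R) (xs : List K)
    (j : Fin xs.length) :
    ((xs.eraseIdx j).map f).prod = ∏ k ∈ univ.erase j, f (xs.get k) := by
  rw [← Multiset.prod_coe, ← Multiset.map_coe, erase_multiset, Multiset.map_map]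
  rfl

/-- (2) of the header -/
theorem lagr_two {K : Type} [Field K] {n : ℕ} (v : Fin n → K)
    (hv : Function.Injective v) (T : K) (hT : ∀ k, T + v k ≠ 0) :
    ∏ k, (T - v k) / (T + v k) = 1 - ∑ j, (∏ k ∈ univ.erase j, (v j + v k) / (v j - v k)) *
      (2 * v j / (T + v j)) := by
  classical
  rcases Nat.eq_zero_or_pos n with h0 | hn
  · subst h0; simp
  set w : Fin n → K := fun i => - v i with hw
  have hwi : Set.InjOn w (univ : Finset (Fin n)) := by
    intro a _ b _ hab
    exact hv (neg_injective hab)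
  have hne : Nonempty (Fin n) := ⟨⟨0, hn⟩⟩
  set Q : Polynomial K := Lagrange.nodal univ w - Lagrange.nodal univ v with hQ
  have hdeg : Q.degree < (univ : Finset (Fin n)).card := by
    have h1 : (Lagrange.nodal univ w).degree = ((univ : Finset (Fin n)).card : ℕ) :=
      Lagrange.degree_nodal
    have h2 : (Lagrange.nodal univ v).degree = ((univ : Finset (Fin n)).card : ℕ) :=
      Lagrange.degree_nodal
    rw [hQ, ← h1]
    refine Polynomial.degree_sub_lt_left (h1.trans h2.symm) Lagrange.nodal_ne_zero ?_
    rw [(Lagrange.nodal_monic (s := univ) (v := w)).leadingCoeff,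
      (Lagrange.nodal_monic (s := univ) (v := v)).leadingCoeff]
  have hint := Lagrange.eq_interpolate hwi hdeg
  have hTw : ∀ i ∈ (univ : Finset (Fin n)), T ≠ w i := by
    intro i _ h
    apply hT i
    rw [h, hw]; simp
  have hev := congrArg (Polynomial.eval T) hint
  rw [Lagrange.eval_interpolate_not_at_node _ hTw] at hev
  have hN : Polynomial.eval T (Lagrange.nodal univ w) = ∏ k, (T + v k) := by
    rw [Lagrange.eval_nodal]
    exact Finset.prod_congr rfl fun k _ => by rw [hw]; ring
  have hN2 : Polynomial.eval T (Lagrange.nodal univ v) = ∏ k, (T - v k) :=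
    Lagrange.eval_nodal
  have hNne : ∏ k, (T + v k) ≠ 0 := Finset.prod_ne_zero_iff.2 fun k _ => hT k
  have hQT : Polynomial.eval T Q = ∏ k, (T + v k) - ∏ k, (T - v k) := by
    rw [hQ, Polynomial.eval_sub, hN, hN2]
  have hterm : ∀ i, Lagrange.nodalWeight univ w i * (T - w i)⁻¹ * Polynomial.eval (w i) Q =
      (∏ k ∈ univ.erase i, (v i + v k) / (v i - v k)) * (2 * v i / (T + v i)) := by
    intro i
    have h1 : Polynomial.eval (w i) Q = 2 * v i * ∏ k ∈ univ.erase i, (-(v i + v k)) := by
      rw [hQ, Polynomial.eval_sub, Lagrange.eval_nodal_at_node (Finset.mem_univ i), zero_sub,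
        Lagrange.eval_nodal, ← Finset.mul_prod_erase univ _ (Finset.mem_univ i)]
      have h2 : ∀ k, w i - v k = -(v i + v k) := fun k => by rw [hw]; ring
      rw [Finset.prod_congr rfl fun k _ => h2 k, h2 i]
      ring
    have h3 : Lagrange.nodalWeight univ w i = ∏ k ∈ univ.erase i, (-(v i - v k))⁻¹ := by
      rw [Lagrange.nodalWeight]
      exact Finset.prod_congr rfl fun k _ => by rw [hw]; ring
    have h4 : T - w i = T + v i := by rw [hw]; ring
    rw [h1, h3, h4]
    have h5 : (∏ k ∈ univ.erase i, (-(v i - v k))⁻¹) * ∏ k ∈ univ.erase i, (-(v i + v k)) =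
        ∏ k ∈ univ.erase i, (v i + v k) / (v i - v k) := by
      rw [← Finset.prod_mul_distrib]
      refine Finset.prod_congr rfl fun k _ => ?_
      rw [inv_neg, neg_mul_neg, div_eq_mul_inv, mul_comm]
    rw [← h5, div_eq_mul_inv]
    ring
  rw [hQT, hN, Finset.sum_congr rfl fun i _ => hterm i] at hev
  rw [Finset.prod_div_distrib]
  have h6 : ∏ k, (T - v k) = ∏ k, (T + v k) - (∏ k, (T + v k)) *
      ∑ j, (∏ k ∈ univ.erase j, (v j + v k) / (v j - v k)) * (2 * v j / (T + v j)) := by
    rw [← hev]; ring
  rw [h6, sub_div, div_self hNne, mul_div_cancel_left₀ _ hNne]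

/-- (1) of the header -/
theorem lagr_one {K : Type} [Field K] [CharZero K] {n : ℕ} (hn : Odd n) (v : Fin n → K)
    (hv : Function.Injective v) (h0 : ∀ k, v k ≠ 0) (x : K) (hx : ∀ k, x + v k ≠ 0) :
    ∑ j, (∏ k ∈ univ.erase j, (v j + v k) / (v j - v k)) * ((x - v j) / (x + v j)) =
      ∏ k, (x - v k) / (x + v k) := by
  have h1 := lagr_two v hv x hx
  have h2 := lagr_two v hv 0 (fun k => by rw [zero_add]; exact h0 k)
  have h3 : ∏ k, ((0:K) - v k) / (0 + v k) = -1 := by
    have h4 : ∀ k, ((0:K) - v k) / (0 + v k) = -1 := by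
      intro k
      rw [zero_sub, zero_add, neg_div, div_self (h0 k)]
    rw [Finset.prod_congr rfl fun k _ => h4 k, Finset.prod_const, Finset.card_univ,
      Fintype.card_fin, hn.neg_one_pow]
  have h5 : ∑ j, (∏ k ∈ univ.erase j, (v j + v k) / (v j - v k)) *
      (2 * v j / ((0:K) + v j)) = 2 * ∑ j, (∏ k ∈ univ.erase j, (v j + v k) / (v j - v k)) := by
    rw [Finset.mul_sum]
    refine Finset.sum_congr rfl fun j _ => ?_
    rw [zero_add, mul_div_cancel_right₀ _ (h0 j), mul_comm]
  rw [h3, h5] at h2
  have h6 : ∑ j, (∏ k ∈ univ.erase j, (v j + v k) / (v j - v k)) = 1 := by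
    have h7 : (2:K) ≠ 0 := two_ne_zero
    apply mul_left_cancel₀ h7
    linear_combination h2
  rw [h1]
  have h8 : ∀ j, (∏ k ∈ univ.erase j, (v j + v k) / (v j - v k)) * ((x - v j) / (x + v j)) =
      (∏ k ∈ univ.erase j, (v j + v k) / (v j - v k)) -
      (∏ k ∈ univ.erase j, (v j + v k) / (v j - v k)) * (2 * v j / (x + v j)) := by
    intro j
    have h9 : (x - v j) / (x + v j) = 1 - 2 * v j / (x + v j) := by
      rw [eq_sub_iff_add_eq, ← add_div, div_eq_one_iff_eq (hx j)]
      ring
    rw [h9, mul_sub, mul_one]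
  rw [Finset.sum_congr rfl fun j _ => h8 j, Finset.sum_sub_distrib, h6]

theorem schur_pf {K : Type} [Field K] [CharZero K] (L : List K) (hL : Even L.length)
    (hd : L.Nodup) (h0 : ∀ x ∈ L, x ≠ 0) (hs : ∀ x ∈ L, ∀ y ∈ L, x + y ≠ 0) :
    pfL (fun x y => (x - y) / (x + y)) L = prs L := by
  induction hn : L.length using Nat.strong_induction_on generalizing L with
  | _ n ih =>
    cases L with
    | nil => rw [pfL_nil, prs]
    | cons x xs =>
      have hodd : Odd xs.length := by
        rw [List.length_cons] at hL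
        exact Nat.not_even_iff_odd.1 (fun h => (Nat.not_even_iff_odd.2 h.add_one) hL)
      have hxs : xs.Nodup := (List.nodup_cons.1 hd).2
      have hmem : ∀ k : Fin xs.length, xs.get k ∈ xs := fun k => List.get_mem xs k
      have hinj : Function.Injective xs.get := List.nodup_iff_injective_get.1 hxs
      rw [pfL_cons, prs]
      have hterm : ∀ j : Fin xs.length,
          (-1) ^ (j : ℕ) * ((x - xs.get j) / (x + xs.get j)) *
            pfL (fun x y => (x - y) / (x + y)) (xs.eraseIdx j) =
          (∏ k ∈ univ.erase j, (xs.get j + xs.get k) / (xs.get j - xs.get k)) *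
            ((x - xs.get j) / (x + xs.get j)) * prs xs := by
        intro j
        have hsub : List.Sublist (xs.eraseIdx j) xs := List.eraseIdx_sublist xs j
        have hlen : (xs.eraseIdx j).length + 1 = xs.length := by
          rw [List.length_eraseIdx_of_lt j.2]
          have := j.2
          omega
        have hIH : pfL (fun x y => (x - y) / (x + y)) (xs.eraseIdx j) = prs (xs.eraseIdx j) := by
          refine ih (xs.eraseIdx j).length ?_ (xs.eraseIdx j) ?_ (hxs.sublist hsub) ?_ ?_ rfl
          · rw [← hn, List.length_cons]; omega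
          · rw [← hlen] at hodd
            exact Nat.not_odd_iff_even.1 (fun h => (Nat.not_odd_iff_even.2 h.add_one) hodd)
          · intro z hz
            exact h0 z (List.mem_cons_of_mem _ (hsub.subset hz))
          · intro y hy z hz
            exact hs y (List.mem_cons_of_mem _ (hsub.subset hy)) z
              (List.mem_cons_of_mem _ (hsub.subset hz))
        have hA := prs_erase xs j
        rw [prod_erase_list (fun y => (xs.get j - y) / (xs.get j + y)) xs j] at hA
        have hne : (∏ k ∈ univ.erase j, (xs.get j + xs.get k) / (xs.get j - xs.get k)) *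
            (∏ k ∈ univ.erase j, (xs.get j - xs.get k) / (xs.get j + xs.get k)) = 1 := by
          rw [← Finset.prod_mul_distrib]
          refine Finset.prod_eq_one fun k hk => ?_
          have hkj : xs.get j - xs.get k ≠ 0 := by
            intro h
            exact (Finset.mem_erase.1 hk).1 (hinj (sub_eq_zero.1 h)).symm
          have hkj2 : xs.get j + xs.get k ≠ 0 :=
            hs _ (List.mem_cons_of_mem _ (hmem j)) _ (List.mem_cons_of_mem _ (hmem k))
          field_simp
        have hsq : ((-1 : K) ^ (j : ℕ)) * (-1) ^ (j : ℕ) = 1 := by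
          rw [← mul_pow]; simp
        rw [hIH]
        calc (-1) ^ (j : ℕ) * ((x - xs.get j) / (x + xs.get j)) * prs (xs.eraseIdx j)
            = ((∏ k ∈ univ.erase j, (xs.get j + xs.get k) / (xs.get j - xs.get k)) *
              (∏ k ∈ univ.erase j, (xs.get j - xs.get k) / (xs.get j + xs.get k))) *
              ((-1) ^ (j : ℕ) * ((x - xs.get j) / (x + xs.get j)) * prs (xs.eraseIdx j)) := by
                rw [hne, one_mul]
          _ = _ := by
                rw [hA]
                ring
      have hterm' : ∀ j : Fin xs.length,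
          (-1) ^ (j : ℕ) * (fun x y : K => (x - y) / (x + y)) x (xs.get j) *
            pfL (fun x y => (x - y) / (x + y)) (xs.eraseIdx j) =
          (∏ k ∈ univ.erase j, (xs.get j + xs.get k) / (xs.get j - xs.get k)) *
            ((x - xs.get j) / (x + xs.get j)) * prs xs := fun j => hterm j
      rw [Finset.sum_congr rfl fun j _ => hterm' j, ← Finset.sum_mul,
        lagr_one hodd xs.get hinj (fun k => h0 _ (List.mem_cons_of_mem _ (hmem k))) x
          (fun k => hs x List.mem_cons_self _ (List.mem_cons_of_mem _ (hmem k)))]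
      congr 1
      rw [← Multiset.prod_coe, ← Multiset.map_coe]
      have h9 : (xs : Multiset K) = univ.val.map xs.get := by
        rw [Fin.univ_val_map]; simp
      rw [h9, Multiset.map_map]
      rfl

theorem prs_append {K : Type} [Field K] (L L' : List K) :
    prs (L ++ L') = prs L * (L.map fun x => (L'.map fun y => (x - y) / (x + y)).prod).prod *
      prs L' := by
  induction L with
  | nil => simp [prs]
  | cons x L ih =>
    rw [List.cons_append, prs, prs, ih, List.map_append, List.prod_append, List.map_cons,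
      List.prod_cons]
    ring

theorem prs_ofFn {K : Type} [Field K] {N : ℕ} (s : Fin N → K) :
    prs (List.ofFn s) = ∏ i, ∏ j ∈ Ioi i, (s i - s j) / (s i + s j) := by
  induction N with
  | zero => simp [prs]
  | succ N ih =>
    rw [List.ofFn_succ, prs, ih, Fin.prod_univ_succ, Fin.prod_Ioi_zero, List.map_ofFn,
      List.prod_ofFn]
    congr 1
    refine Finset.prod_congr rfl fun i _ => ?_
    rw [Fin.prod_Ioi_succ]

end Pool.Agent.Helper90.MVD
end

/- Helper90.MVD.QGen -/
section
/-!
Module MVD-6 (project MV, block D2): the generating function of the `q_n`.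

`qfac x = (1 + x u)/(1 - x u) = 1 + 2 ∑_{n≥1} x^n u^n` (power series in `u = PowerSeries.X`).
`coeff_qprod`: `q := ∏_i qfac (x i)`. Let `d` be the derivative of power series
(`PowerSeries.derivative`/`PowerSeries.derivativeFun`). `qfac x * (1 - xu) = 1 + xu` gives
`d (qfac x) = qfac x * (∑_{k≥0} 2 x^{2k+1} u^{2k})` (both sides times `(1-xu)^2`:
`d((1+xu)/(1-xu)) = 2x/(1-xu)^2` and `2x/((1-xu)(1+xu)) = ∑ 2 x^{2k+1} u^{2k}`; or coefficientwise:
`(n+1) 2 x^{n+1} = ∑_{2k≤n} 2 x^{2k+1} b_{n-2k}(x)`, `b_0 = 1`, `b_m = 2x^m`, true because the right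
side is `∑_{2k<n} 4x^{n+1} + [n even] 2 x^{n+1}`). By the product rule (induction over the index
set) `d q = q * ∑_k 2 t_k u^{2k}`, `t_k = ∑_i x_i^{2k+1}`, that is
`(n+1) q_{n+1} = ∑_{k ≤ n/2} 2 t_k q_{n-2k}`, the recursion which defines `qP` (characteristic 0),
and `q_0 = 1`. Strong induction.
-/

namespace Pool.Agent.Helper90.MVD

open Finset Pool.Agent.Helper60.MV Pool.Agent.Helper52.MVD

/-- coefficients of `(1 + x u)/(1 - x u)` -/
noncomputable def bco {R : Type} [CommRing R] (n : ℕ) (x : R) : R := if n = 0 then 1 else 2 * x ^ n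

/-- `(1 + x u)/(1 - x u)` -/
noncomputable def qfac {R : Type} [CommRing R] (x : R) : PowerSeries R :=
  PowerSeries.mk fun n => bco n x

theorem qfac_mul {R : Type} [CommRing R] (x : R) :
    qfac x * (1 - PowerSeries.C x * PowerSeries.X) = 1 + PowerSeries.C x * PowerSeries.X := by
  have h1 : qfac x * (1 - PowerSeries.C x * PowerSeries.X) =
      qfac x - PowerSeries.C x * (qfac x * PowerSeries.X) := by ring
  rw [h1]
  ext n
  rw [map_sub, map_add, PowerSeries.coeff_C_mul, PowerSeries.coeff_C_mul]
  cases n with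
  | zero =>
    simp [qfac, bco]
  | succ n =>
    rw [PowerSeries.coeff_succ_mul_X]
    unfold qfac
    rw [PowerSeries.coeff_mk, PowerSeries.coeff_mk]
    cases n with
    | zero =>
      simp [bco, PowerSeries.coeff_one, PowerSeries.coeff_X]
      ring
    | succ n =>
      simp only [bco, PowerSeries.coeff_one, PowerSeries.coeff_X]
      simp only [Nat.add_eq_zero_iff, one_ne_zero, and_false, if_false, Nat.add_eq_right,
        mul_zero, add_zero]
      ring

/-- `∑_k 2 x^(2k+1) u^(2k)` -/
noncomputable def lser {R : Type} [CommRing R] (x : R) : PowerSeries R :=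
  PowerSeries.mk fun m => if Even m then 2 * x ^ (m + 1) else 0

theorem lser_mul {R : Type} [CommRing R] (x : R) :
    lser x * (1 - PowerSeries.C (x ^ 2) * PowerSeries.X ^ 2) = PowerSeries.C (2 * x) := by
  have h1 : lser x * (1 - PowerSeries.C (x ^ 2) * PowerSeries.X ^ 2) =
      lser x - PowerSeries.C (x ^ 2) * (lser x * PowerSeries.X * PowerSeries.X) := by ring
  rw [h1]
  ext n
  rw [map_sub, PowerSeries.coeff_C_mul, PowerSeries.coeff_C]
  cases n with
  | zero => simp [lser]
  | succ n =>
    rw [PowerSeries.coeff_succ_mul_X]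
    cases n with
    | zero => simp [lser]
    | succ n =>
      rw [PowerSeries.coeff_succ_mul_X]
      unfold lser
      rw [PowerSeries.coeff_mk, PowerSeries.coeff_mk]
      have hz : (if n + 1 + 1 = 0 then 2 * x else 0) = 0 := if_neg (by omega)
      rw [hz]
      have he : Even (n + 1 + 1) ↔ Even n := by
        constructor
        · intro h
          rw [Nat.even_iff] at h ⊢
          omega
        · intro h
          rw [Nat.even_iff] at h ⊢
          omega
      by_cases hn : Even n
      · rw [if_pos (he.mpr hn), if_pos hn]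
        ring
      · rw [if_neg (fun h => hn (he.mp h)), if_neg hn]
        ring

theorem deriv_qfac {F : Type} [Field F] (x : F) :
    PowerSeries.derivative F (qfac x) = qfac x * lser x := by
  set u : PowerSeries F := PowerSeries.X with hu
  set c : PowerSeries F := PowerSeries.C x with hc
  have h1 : qfac x * (1 - c * u) = 1 + c * u := qfac_mul x
  have hdc : PowerSeries.derivative F c = 0 := by
    rw [hc]
    exact PowerSeries.derivative_C
  have hdu : PowerSeries.derivative F u = 1 := PowerSeries.derivative_X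
  have h2 := congrArg (PowerSeries.derivative F) h1
  have hd1 : PowerSeries.derivative F (1 : PowerSeries F) = 0 :=
    (PowerSeries.derivative F).map_one_eq_zero
  rw [Derivation.leibniz, map_sub, map_add, Derivation.leibniz, hdc, hdu, hd1] at h2
  simp only [smul_eq_mul, mul_zero, add_zero, mul_one, zero_sub, zero_add] at h2
  have h3 : lser x * (1 - c ^ 2 * u ^ 2) = 2 * c := by
    have := lser_mul x
    rw [map_pow, map_mul] at this
    rw [this]
    rfl
  have hne1 : (1 - c * u : PowerSeries F) ≠ 0 := by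
    intro h
    have := congrArg (PowerSeries.coeff 0) h
    simp [hu, hc] at this
  have hne2 : (1 - c ^ 2 * u ^ 2 : PowerSeries F) ≠ 0 := by
    intro h
    have := congrArg (PowerSeries.coeff 0) h
    simp [hu, hc] at this
  have hne3 : (1 - c * u) * ((1 - c * u) * (1 - c ^ 2 * u ^ 2)) ≠ 0 :=
    mul_ne_zero hne1 (mul_ne_zero hne1 hne2)
  refine mul_right_cancel₀ hne3 ?_
  have e1 : PowerSeries.derivative F (qfac x) * (1 - c * u) = c * (1 + qfac x) := by
    linear_combination h2
  have e2 : (1 + qfac x) * (1 - c * u) = 2 := by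
    linear_combination h1
  calc PowerSeries.derivative F (qfac x) * ((1 - c * u) * ((1 - c * u) * (1 - c ^ 2 * u ^ 2)))
      = (PowerSeries.derivative F (qfac x) * (1 - c * u)) * ((1 - c * u) * (1 - c ^ 2 * u ^ 2)) := by
        ring
    _ = c * ((1 + qfac x) * (1 - c * u)) * (1 - c ^ 2 * u ^ 2) := by rw [e1]; ring
    _ = 2 * c * (1 + c * u) * (1 - c * u) := by rw [e2]; ring
    _ = (qfac x * (1 - c * u)) * (lser x * (1 - c ^ 2 * u ^ 2)) * (1 - c * u) := by
        rw [h1, h3]; ring
    _ = qfac x * lser x * ((1 - c * u) * ((1 - c * u) * (1 - c ^ 2 * u ^ 2))) := by ring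

theorem deriv_qprod {F : Type} [Field F] {N : ℕ} (x : Fin N → F) (s : Finset (Fin N)) :
    PowerSeries.derivative F (∏ i ∈ s, qfac (x i)) =
      (∏ i ∈ s, qfac (x i)) * ∑ i ∈ s, lser (x i) := by
  classical
  induction s using Finset.induction_on with
  | empty =>
    rw [Finset.prod_empty, Finset.sum_empty, mul_zero]
    exact (PowerSeries.derivative F).map_one_eq_zero
  | insert a s ha ih =>
    rw [Finset.prod_insert ha, Finset.sum_insert ha, Derivation.leibniz, ih, deriv_qfac,
      smul_eq_mul, smul_eq_mul]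
    ring

theorem qprod_rec {F : Type} [Field F] {N : ℕ} (x : Fin N → F) (n : ℕ) :
    PowerSeries.coeff (n + 1) (∏ i, qfac (x i)) * ((n : F) + 1) =
      ∑ k ∈ range (n / 2 + 1), 2 * (∑ i, (x i) ^ (2 * k + 1)) *
        PowerSeries.coeff (n - 2 * k) (∏ i, qfac (x i)) := by
  classical
  set q : PowerSeries F := ∏ i, qfac (x i) with hq
  have h1 := congrArg (PowerSeries.coeff n) (deriv_qprod x Finset.univ)
  rw [PowerSeries.coeff_derivative, ← hq] at h1
  rw [h1, mul_comm q, PowerSeries.coeff_mul,
    Finset.Nat.sum_antidiagonal_eq_sum_range_succ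
      (fun a b => PowerSeries.coeff a (∑ i, lser (x i)) * PowerSeries.coeff b q) n]
  have h2 : ∀ m : ℕ, PowerSeries.coeff m (∑ i, lser (x i)) =
      if Even m then 2 * ∑ i, (x i) ^ (m + 1) else 0 := by
    intro m
    rw [map_sum]
    unfold lser
    simp only [PowerSeries.coeff_mk]
    split_ifs
    · rw [Finset.mul_sum]
    · rw [Finset.sum_const_zero]
  simp only [h2, ite_mul, zero_mul]
  rw [← Finset.sum_filter]
  symm
  refine Finset.sum_nbij' (fun k => 2 * k) (fun m => m / 2) ?_ ?_ ?_ ?_ ?_
  · intro k hk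
    rw [Finset.mem_range] at hk
    rw [Finset.mem_filter, Finset.mem_range]
    exact ⟨by omega, even_two_mul k⟩
  · intro m hm
    rw [Finset.mem_filter, Finset.mem_range] at hm
    rw [Finset.mem_range]
    omega
  · intro k _
    omega
  · intro m hm
    rw [Finset.mem_filter] at hm
    have := Nat.even_iff.mp hm.2
    omega
  · intro k _
    rfl

theorem coeff_qprod {F : Type} [Field F] [Algebra ℝ F] {N : ℕ} (x : Fin N → F) (n : ℕ) :
    PowerSeries.coeff n (∏ i, qfac (x i)) =
      MvPolynomial.aeval (fun k => ∑ i, (x i) ^ (2 * k + 1)) (qP n) := by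
  classical
  haveI : CharZero F := charZero_of_injective_algebraMap (algebraMap ℝ F).injective
  induction n using Nat.strong_induction_on with
  | _ n ih =>
    cases n with
    | zero =>
      rw [PowerSeries.coeff_zero_eq_constantCoeff_apply, map_prod]
      have h0 : ∀ i : Fin N, PowerSeries.constantCoeff (qfac (x i)) = 1 := by
        intro i
        rw [← PowerSeries.coeff_zero_eq_constantCoeff_apply]
        simp [qfac, bco]
      simp only [h0, Finset.prod_const_one]
      rw [qP, map_one]
    | succ n =>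
      have hn : ((n : F) + 1) ≠ 0 := by exact_mod_cast Nat.succ_ne_zero n
      refine mul_right_cancel₀ hn ?_
      rw [qprod_rec, qP, map_sum, Finset.sum_mul, Finset.sum_range]
      refine Finset.sum_congr rfl (fun k _ => ?_)
      rw [ih (n - 2 * (k : ℕ)) (by omega), map_mul, map_mul, MvPolynomial.aeval_C,
        MvPolynomial.aeval_X, map_div₀]
      have e1 : (algebraMap ℝ F) ((n : ℝ) + 1) = (n : F) + 1 := by
        rw [map_add, map_natCast, map_one]
      have e2 : (algebraMap ℝ F) 2 = 2 := map_ofNat _ 2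
      rw [e1, e2]
      field_simp

/-- the recursion of `QQ` -/
theorem QQ_rec (a b : ℕ) (hb : 1 ≤ b) :
    QQ a b + QQ (a + 1) (b - 1) = qP a * qP b - qP (a + 1) * qP (b - 1) := by
  obtain ⟨c, rfl⟩ : ∃ c, b = c + 1 := ⟨b - 1, by omega⟩
  unfold QQ
  rw [Nat.add_sub_cancel, Finset.sum_range_succ']
  have h1 : ∑ k ∈ range c, ((-1 : MvPolynomial ℕ ℝ) ^ (k + 1 + 1) *
      (qP (a + (k + 1 + 1)) * qP (c + 1 - (k + 1 + 1)))) =
      - ∑ j ∈ range c, ((-1 : MvPolynomial ℕ ℝ) ^ (j + 1) *
        (qP (a + 1 + (j + 1)) * qP (c - (j + 1)))) := by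
    rw [← Finset.sum_neg_distrib]
    refine Finset.sum_congr rfl (fun k _ => ?_)
    have e1 : a + (k + 1 + 1) = a + 1 + (k + 1) := by omega
    have e2 : c + 1 - (k + 1 + 1) = c - (k + 1) := by omega
    rw [e1, e2, pow_succ (-1 : MvPolynomial ℕ ℝ) (k + 1)]
    ring
  rw [h1]
  have e3 : c + 1 - (0 + 1) = c := by omega
  rw [e3]
  simp only [zero_add, pow_one]
  ring

theorem QQ_zero (a : ℕ) : QQ a 0 = qP a := by
  unfold QQ
  rw [Finset.sum_range_zero, mul_zero, add_zero]
  have : qP 0 = 1 := by rw [qP]
  rw [this, mul_one]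

/-- an array with the recursion of `QQ` is `QQ` -/
theorem eq_QQ {F : Type} [Field F] [Algebra ℝ F] (t : ℕ → F) (M : ℕ → ℕ → F)
    (h0 : ∀ a, 1 ≤ a → M a 0 = MvPolynomial.aeval t (qP a))
    (h : ∀ a b, 1 ≤ b → M a b + M (a + 1) (b - 1) =
      MvPolynomial.aeval t (qP a) * MvPolynomial.aeval t (qP b) -
        MvPolynomial.aeval t (qP (a + 1)) * MvPolynomial.aeval t (qP (b - 1)))
    (a b : ℕ) (hab : b < a) : M a b = MvPolynomial.aeval t (QQ a b) := by
  induction b generalizing a with
  | zero =>
    rw [h0 a hab, QQ_zero]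
  | succ b ih =>
    have h1 := h a (b + 1) (by omega)
    have h2 := congrArg (MvPolynomial.aeval t) (QQ_rec a (b + 1) (by omega))
    rw [map_add, map_sub, map_mul, map_mul] at h2
    rw [Nat.add_sub_cancel] at h1 h2
    rw [ih (a + 1) (by omega)] at h1
    linear_combination h1 - h2

end Pool.Agent.Helper90.MVD
end

/- Helper90.MVD.MQ -/
section
/-!
Module MVD-7 (project MV, block D2): the Schur complement of `σ` is `QQ`.

Let `x_i = 1/s_i`, `Q` an inverse of the matrix `σ = (sig i j)` over `F`, and
`M a b := - ∑_{k,j} Q k j * bco a (x_j) * bco b (x_k)`. Claim: `M a b = QQ a b (t)` for `a > b`.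

Proof. Let `P2 := PowerSeries (PowerSeries F)` (a domain), `u := C X`, `v := X`,
`K := FractionRing P2` (a field of characteristic 0), `ι : F → K`. In `K` consider the list
`L = [s_1, ..., s_N, -u, -v]` (even length): the entries are distinct, nonzero, all sums are nonzero
(`s_i + s_j ≠ 0`, `s_i - u ≠ 0`, `s_i - v ≠ 0`, `u + v ≠ 0`, `2u ≠ 0`, `2v ≠ 0`: compare coefficients
in `P2`). Schur's identity `schur_pf` for `L` and for `[s_1..s_N]`, with `prs_append`:
  `pfL σ L = pfL σ [s] * ∏_i σ(s_i,-u) * ∏_i σ(s_i,-v) * σ(-u,-v)`.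
`pfL_schur` with `α = K`, `A = σ` (`A x y = (x-y)/(x+y)` is alternating on the whole field, also with
`y/0 = 0`), `ψ i = s_i`, `y a k = ∑_j Q k j * σ(s_j, a)`, list `[-u,-v]`, and `pfL_pair`:
  `pfL σ L = pfL σ [s] * (σ(-u,-v) - ∑_{k,j} Q k j σ(s_j,-u) σ(s_k,-v))`.
`pfL σ [s] = ι G ≠ 0`. `σ(-u,-v) = (u-v)/(u+v)`. `σ(s_i,-u) = (s_i+u)/(s_i-u)` is the image of
`qfac (x_i)` in the variable `u` (`qfac_mul`), same for `v`. Multiply by `u+v` and come back to `P2`
(`P2 → K` injective): with `q(u) = ∏_i qfac (x_i)(u)` and `M(u,v) := -∑ Q k j qfac(x_j)(u) qfac(x_k)(v)`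
  `(u-v) + (u+v) M(u,v) = (u-v) q(u) q(v)`.
Coefficient of `u^{a+1} v^b` (`PowerSeries.coeff (a+1) (PowerSeries.coeff b ·)`): for `b ≥ 1`:
`M a b + M (a+1) (b-1) = q_a q_b - q_{a+1} q_{b-1}`; for `b = 0`, `a ≥ 1`: `M a 0 = q_a q_0 = q_a`.
Conclude with `eq_QQ` (and `coeff_qprod`, `tval D.s k = ∑_i x_i^{2k+1}`).
-/

namespace Pool.Agent.Helper90.MVD

open Finset Pool.Agent.Helper60.MV Pool.Agent.Helper52.MVD

private theorem schur2 {K : Type} [Field K] [CharZero K] {N : ℕ} (hN : Even N) (s : Fin N → K)
    (u v : K) (hinj : Function.Injective s) (hs0 : ∀ i, s i ≠ 0) (hss : ∀ i j, s i + s j ≠ 0)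
    (hu0 : u ≠ 0) (hv0 : v ≠ 0) (huv : u ≠ v) (huv' : u + v ≠ 0)
    (hsu : ∀ i, s i - u ≠ 0) (hsv : ∀ i, s i - v ≠ 0)
    (hsu' : ∀ i, s i ≠ -u) (hsv' : ∀ i, s i ≠ -v)
    (Q : Fin N → Fin N → K)
    (hQ : ∀ i j, ∑ k, (s i - s k) / (s i + s k) * Q k j = if i = j then 1 else 0) :
    (u - v) * ((∏ i, (s i + u) / (s i - u)) * ∏ i, (s i + v) / (s i - v)) =
      (u - v) + (u + v) *
        (- ∑ k, ∑ j, Q k j * ((s j + u) / (s j - u)) * ((s k + v) / (s k - v))) := by
  classical
  set A : K → K → K := fun x y => (x - y) / (x + y) with hA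
  have hA0 : ∀ a, A a a = 0 := by
    intro a
    simp [hA]
  have hA1 : ∀ a b, A a b = - A b a := by
    intro a b
    simp only [hA]
    rw [← neg_div, neg_sub, add_comm a b]
  have hlen : (List.ofFn s).length = N := List.length_ofFn
  have hu2 : -u + -u ≠ 0 := by
    intro h
    apply hu0
    have : (2 : K) * u = 0 := by linear_combination -h
    rcases mul_eq_zero.1 this with h1 | h1
    · exact absurd h1 two_ne_zero
    · exact h1
  have hv2 : -v + -v ≠ 0 := by
    intro h
    apply hv0
    have : (2 : K) * v = 0 := by linear_combination -h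
    rcases mul_eq_zero.1 this with h1 | h1
    · exact absurd h1 two_ne_zero
    · exact h1
  have huv2 : -u + -v ≠ 0 := by
    intro h
    apply huv'
    linear_combination -h
  have hsu2 : ∀ i, s i + -u ≠ 0 := fun i => by rw [← sub_eq_add_neg]; exact hsu i
  have hsv2 : ∀ i, s i + -v ≠ 0 := fun i => by rw [← sub_eq_add_neg]; exact hsv i
  have e1 : pfL A (List.ofFn s) = prs (List.ofFn s) := by
    refine schur_pf _ ?_ ?_ ?_ ?_
    · rw [hlen]
      exact hN
    · rw [List.nodup_ofFn]
      exact hinj
    · intro x hx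
      obtain ⟨i, rfl⟩ := (List.mem_ofFn' _ _).1 hx
      exact hs0 i
    · intro x hx y hy
      obtain ⟨i, rfl⟩ := (List.mem_ofFn' _ _).1 hx
      obtain ⟨j, rfl⟩ := (List.mem_ofFn' _ _).1 hy
      exact hss i j
  have e2 : pfL A (List.ofFn s ++ [-u, -v]) = prs (List.ofFn s ++ [-u, -v]) := by
    refine schur_pf _ ?_ ?_ ?_ ?_
    · rw [List.length_append, hlen]
      exact hN.add ⟨1, rfl⟩
    · rw [List.nodup_append]
      refine ⟨by rw [List.nodup_ofFn]; exact hinj, ?_, ?_⟩
      · simp [huv]
      · intro x hx y hy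
        obtain ⟨i, rfl⟩ := (List.mem_ofFn' _ _).1 hx
        simp only [List.mem_cons, List.not_mem_nil, or_false] at hy
        rcases hy with rfl | rfl
        · exact hsu' i
        · exact hsv' i
    · intro x hx
      rw [List.mem_append] at hx
      rcases hx with hx | hx
      · obtain ⟨i, rfl⟩ := (List.mem_ofFn' _ _).1 hx
        exact hs0 i
      · simp only [List.mem_cons, List.not_mem_nil, or_false] at hx
        rcases hx with rfl | rfl
        · exact neg_ne_zero.2 hu0
        · exact neg_ne_zero.2 hv0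
    · intro x hx y hy
      rw [List.mem_append] at hx hy
      rcases hx with hx | hx
      · obtain ⟨i, rfl⟩ := (List.mem_ofFn' _ _).1 hx
        rcases hy with hy | hy
        · obtain ⟨j, rfl⟩ := (List.mem_ofFn' _ _).1 hy
          exact hss i j
        · simp only [List.mem_cons, List.not_mem_nil, or_false] at hy
          rcases hy with rfl | rfl
          · exact hsu2 i
          · exact hsv2 i
      · simp only [List.mem_cons, List.not_mem_nil, or_false] at hx
        rcases hy with hy | hy
        · obtain ⟨j, rfl⟩ := (List.mem_ofFn' _ _).1 hy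
          rcases hx with rfl | rfl
          · rw [add_comm]
            exact hsu2 j
          · rw [add_comm]
            exact hsv2 j
        · simp only [List.mem_cons, List.not_mem_nil, or_false] at hy
          rcases hx with rfl | rfl <;> rcases hy with rfl | rfl
          · exact hu2
          · exact huv2
          · rw [add_comm]
            exact huv2
          · exact hv2
  have hne : prs (List.ofFn s) ≠ 0 := by
    rw [prs_ofFn]
    refine Finset.prod_ne_zero_iff.2 fun i _ => Finset.prod_ne_zero_iff.2 fun j hj => ?_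
    refine div_ne_zero ?_ (hss i j)
    rw [sub_ne_zero]
    intro h
    have h1 := hinj h
    rw [Finset.mem_Ioi] at hj
    exact (ne_of_lt hj) h1
  have e3 := pfL_schur A hA0 hA1 s (fun a k => ∑ j, Q k j * A (s j) a) [-u, -v] (by
    intro a _ i
    have h1 : ∀ k ∈ (Finset.univ : Finset (Fin N)), (∑ j, Q k j * A (s j) a) * A (s i) (s k) =
        ∑ j, (A (s i) (s k) * Q k j) * A (s j) a := by
      intro k _
      rw [Finset.sum_mul]
      refine Finset.sum_congr rfl fun j _ => ?_
      ring
    rw [Finset.sum_congr rfl h1, Finset.sum_comm]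
    have h2 : ∀ j ∈ (Finset.univ : Finset (Fin N)), ∑ k, (A (s i) (s k) * Q k j) * A (s j) a =
        (if i = j then 1 else 0) * A (s j) a := by
      intro j _
      rw [← Finset.sum_mul, ← hQ i j]
    rw [Finset.sum_congr rfl h2]
    simp)
  rw [e2, e1, pfL_pair, prs_append, mul_assoc] at e3
  have e4 := mul_left_cancel₀ hne e3
  have e5 : prs [-u, -v] = (u - v) / (u + v) := by
    simp only [prs, List.map_cons, List.map_nil, List.prod_cons, List.prod_nil, mul_one]
    rw [div_eq_div_iff huv2 huv']
    ring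
  have e6 : ((List.ofFn s).map fun x => ([-u, -v].map fun y => (x - y) / (x + y)).prod).prod =
      (∏ i, (s i + u) / (s i - u)) * ∏ i, (s i + v) / (s i - v) := by
    rw [List.map_ofFn, List.prod_ofFn, ← Finset.prod_mul_distrib]
    refine Finset.prod_congr rfl fun i _ => ?_
    simp only [Function.comp_apply, List.map_cons, List.map_nil, List.prod_cons, List.prod_nil,
      mul_one, sub_neg_eq_add]
    rw [← sub_eq_add_neg, ← sub_eq_add_neg]
  rw [e5, e6] at e4
  have e7 : A (-u) (-v) = (u - v) / (u + v) := by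
    simp only [hA]
    rw [div_eq_div_iff huv2 huv']
    ring
  have e8 : ∑ k, (∑ j, Q k j * A (s j) (-u)) * A (s k) (-v) =
      ∑ k, ∑ j, Q k j * ((s j + u) / (s j - u)) * ((s k + v) / (s k - v)) := by
    refine Finset.sum_congr rfl fun k _ => ?_
    rw [Finset.sum_mul]
    refine Finset.sum_congr rfl fun j _ => ?_
    simp only [hA, sub_neg_eq_add]
    rw [← sub_eq_add_neg, ← sub_eq_add_neg]
  rw [e7, e8] at e4
  have e9 : _ * (u + v) = _ * (u + v) := congrArg (fun z => z * (u + v)) e4
  rw [sub_mul, mul_assoc, div_mul_cancel₀ _ huv'] at e9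
  linear_combination e9

private noncomputable def cst (F : Type) [Field F] : F →+* PowerSeries (PowerSeries F) :=
  (PowerSeries.C (R := PowerSeries F)).comp (PowerSeries.C (R := F))

private noncomputable def c00 (F : Type) [Field F] : PowerSeries (PowerSeries F) →+* F :=
  (PowerSeries.constantCoeff (R := F)).comp (PowerSeries.constantCoeff (R := PowerSeries F))

private noncomputable def uu (F : Type) [Field F] : PowerSeries (PowerSeries F) :=
  PowerSeries.C PowerSeries.X

private noncomputable def vv_pv2 (F : Type) [Field F] : PowerSeries (PowerSeries F) :=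
  PowerSeries.X

private noncomputable def inu (F : Type) [Field F] : PowerSeries F →+* PowerSeries (PowerSeries F) :=
  PowerSeries.C (R := PowerSeries F)

private noncomputable def inv (F : Type) [Field F] : PowerSeries F →+* PowerSeries (PowerSeries F) :=
  PowerSeries.map (PowerSeries.C (R := F))

section

variable {F : Type} [Field F]

private theorem c00_cst (x : F) : c00 F (cst F x) = x := by
  simp [c00, cst]

private theorem c00_uu : c00 F (uu F) = 0 := by
  simp [c00, uu]

private theorem c00_vv : c00 F (vv_pv2 F) = 0 := by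
  simp [c00, vv_pv2]

private theorem co1_uu : PowerSeries.coeff 1 (uu F) = 0 := by
  rw [uu, PowerSeries.coeff_C, if_neg one_ne_zero]

private theorem co1_vv : PowerSeries.coeff 1 (vv_pv2 F) = 1 := by
  rw [vv_pv2, PowerSeries.coeff_one_X]

private theorem uu_ne : uu F ≠ 0 := by
  intro h
  have h1 := congrArg (PowerSeries.coeff 0) h
  rw [uu, PowerSeries.coeff_zero_C, map_zero] at h1
  exact PowerSeries.X_ne_zero h1

private theorem vv_ne : vv_pv2 F ≠ 0 := PowerSeries.X_ne_zero

private theorem uu_ne_vv : uu F ≠ vv_pv2 F := by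
  intro h
  have h1 := congrArg (PowerSeries.coeff 1) h
  rw [co1_uu, co1_vv] at h1
  exact zero_ne_one h1

private theorem uu_add_vv : uu F + vv_pv2 F ≠ 0 := by
  intro h
  have h1 := congrArg (PowerSeries.coeff 1) h
  rw [map_add, co1_uu, co1_vv, map_zero, zero_add] at h1
  exact one_ne_zero h1

private theorem inu_qfac (x : F) (hx : x ≠ 0) :
    inu F (qfac (1 / x)) * (cst F x - uu F) = cst F x + uu F := by
  have h := congrArg (inu F) (qfac_mul (1 / x))
  rw [map_mul, map_sub, map_add, map_one, map_mul] at h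
  have h1 : cst F x * inu F (PowerSeries.C (1 / x)) = 1 := by
    have h2 : inu F (PowerSeries.C (1 / x)) = cst F (1 / x) := rfl
    rw [h2, ← map_mul, mul_one_div_cancel hx, map_one]
  have h3 : inu F PowerSeries.X = uu F := rfl
  rw [h3] at h
  linear_combination (cst F x) * h + (inu F (qfac (1 / x)) * uu F + uu F) * h1

private theorem inv_qfac (x : F) (hx : x ≠ 0) :
    inv F (qfac (1 / x)) * (cst F x - vv_pv2 F) = cst F x + vv_pv2 F := by
  have h := congrArg (inv F) (qfac_mul (1 / x))
  rw [map_mul, map_sub, map_add, map_one, map_mul] at h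
  have h1 : cst F x * inv F (PowerSeries.C (1 / x)) = 1 := by
    have h2 : inv F (PowerSeries.C (1 / x)) = cst F (1 / x) := by
      rw [inv, PowerSeries.map_C]
      rfl
    rw [h2, ← map_mul, mul_one_div_cancel hx, map_one]
  have h3 : inv F PowerSeries.X = vv_pv2 F := by
    rw [inv, PowerSeries.map_X]
    rfl
  rw [h3] at h
  linear_combination (cst F x) * h + (inv F (qfac (1 / x)) * vv_pv2 F + vv_pv2 F) * h1

end

private theorem ident {F : Type} [Field F] [Algebra ℝ F] {N : ℕ} (D : DF F N) (hN : Even N)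
    (Q : Fin N → Fin N → F)
    (hQ : ∀ i j, ∑ k, sig D i k * Q k j = if i = j then 1 else 0) :
    (uu F - vv_pv2 F) * (inu F (∏ i, qfac (1 / D.s i)) * inv F (∏ i, qfac (1 / D.s i))) =
      (uu F - vv_pv2 F) + (uu F + vv_pv2 F) *
        (- ∑ k, ∑ j, cst F (Q k j) * inu F (qfac (1 / D.s j)) * inv F (qfac (1 / D.s k))) := by
  classical
  let K := FractionRing (PowerSeries (PowerSeries F))
  let φ : PowerSeries (PowerSeries F) →+* K := algebraMap _ _
  have hφ : Function.Injective φ := IsFractionRing.injective _ _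
  have hφ0 : ∀ x, x ≠ 0 → φ x ≠ 0 := fun x hx => (map_ne_zero_iff φ hφ).2 hx
  have : CharZero F := charZero_of_real F
  have : CharZero K := charZero_of_injective_ringHom (f := φ.comp (cst F)) (φ.comp (cst F)).injective
  have hs : ∀ i, D.s i ≠ 0 := s_ne D
  have hsu : ∀ i, cst F (D.s i) - uu F ≠ 0 := by
    intro i h
    have h1 := congrArg (c00 F) h
    rw [map_sub, c00_cst, c00_uu, map_zero, sub_zero] at h1
    exact hs i h1
  have hsv : ∀ i, cst F (D.s i) - vv_pv2 F ≠ 0 := by
    intro i h
    have h1 := congrArg (c00 F) h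
    rw [map_sub, c00_cst, c00_vv, map_zero, sub_zero] at h1
    exact hs i h1
  have hsu' : ∀ i, cst F (D.s i) + uu F ≠ 0 := by
    intro i h
    have h1 := congrArg (c00 F) h
    rw [map_add, c00_cst, c00_uu, map_zero, add_zero] at h1
    exact hs i h1
  have hsv' : ∀ i, cst F (D.s i) + vv_pv2 F ≠ 0 := by
    intro i h
    have h1 := congrArg (c00 F) h
    rw [map_add, c00_cst, c00_vv, map_zero, add_zero] at h1
    exact hs i h1
  have key := schur2 (K := K) hN (fun i => φ (cst F (D.s i))) (φ (uu F)) (φ (vv_pv2 F))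
    (fun i j h => s_inj D ((cst F).injective (hφ h)))
    (fun i => hφ0 _ (fun h => hs i (by rw [← c00_cst (D.s i), h, map_zero])))
    (fun i j => by
      rw [← map_add, ← map_add]
      refine hφ0 _ fun h => s_add_ne D i j ?_
      rw [← c00_cst (D.s i + D.s j), h, map_zero])
    (hφ0 _ uu_ne) (hφ0 _ vv_ne) (fun h => uu_ne_vv (hφ h))
    (by rw [← map_add]; exact hφ0 _ uu_add_vv)
    (fun i => by rw [← map_sub]; exact hφ0 _ (hsu i))
    (fun i => by rw [← map_sub]; exact hφ0 _ (hsv i))
    (fun i h => by
      have h1 : φ (cst F (D.s i) + uu F) = 0 := by rw [map_add, h]; ring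
      exact hφ0 _ (hsu' i) h1)
    (fun i h => by
      have h1 : φ (cst F (D.s i) + vv_pv2 F) = 0 := by rw [map_add, h]; ring
      exact hφ0 _ (hsv' i) h1)
    (fun k j => φ (cst F (Q k j)))
    (fun i j => by
      have h1 := congrArg (fun z => φ (cst F z)) (hQ i j)
      simp only [map_sum, map_mul] at h1
      have h2 : ∀ k, φ (cst F (sig D i k)) = (φ (cst F (D.s i)) - φ (cst F (D.s k))) /
          (φ (cst F (D.s i)) + φ (cst F (D.s k))) := by
        intro k
        have h3 : (φ.comp (cst F)) (sig D i k) = ((φ.comp (cst F)) (D.s i) -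
            (φ.comp (cst F)) (D.s k)) / ((φ.comp (cst F)) (D.s i) + (φ.comp (cst F)) (D.s k)) := by
          rw [sig, map_div₀, map_sub, map_add]
        exact h3
      simp only [h2] at h1
      rw [h1]
      split_ifs <;> simp)
  have hU : ∀ i, (φ (cst F (D.s i)) + φ (uu F)) / (φ (cst F (D.s i)) - φ (uu F)) =
      φ (inu F (qfac (1 / D.s i))) := by
    intro i
    rw [← map_add, ← map_sub, div_eq_iff (hφ0 _ (hsu i)), ← map_mul, inu_qfac _ (hs i)]
  have hV : ∀ i, (φ (cst F (D.s i)) + φ (vv_pv2 F)) / (φ (cst F (D.s i)) - φ (vv_pv2 F)) =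
      φ (inv F (qfac (1 / D.s i))) := by
    intro i
    rw [← map_add, ← map_sub, div_eq_iff (hφ0 _ (hsv i)), ← map_mul, inv_qfac _ (hs i)]
  simp only [hU, hV] at key
  apply hφ
  simp only [map_mul, map_add, map_sub, map_neg, map_sum, map_prod]
  exact key

private theorem co_prod {F : Type} [Field F] (a b : ℕ) (f g : PowerSeries F) :
    PowerSeries.coeff a (PowerSeries.coeff b (inu F f * inv F g)) =
      PowerSeries.coeff a f * PowerSeries.coeff b g := by
  rw [inu, inv, PowerSeries.coeff_C_mul, PowerSeries.coeff_map, PowerSeries.coeff_mul_C]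

private theorem co_uu_succ {F : Type} [Field F] (a b : ℕ) (g : PowerSeries (PowerSeries F)) :
    PowerSeries.coeff (a + 1) (PowerSeries.coeff b (uu F * g)) =
      PowerSeries.coeff a (PowerSeries.coeff b g) := by
  rw [uu, PowerSeries.coeff_C_mul, PowerSeries.coeff_succ_X_mul]

private theorem co_vv_succ {F : Type} [Field F] (a b : ℕ) (g : PowerSeries (PowerSeries F)) :
    PowerSeries.coeff a (PowerSeries.coeff (b + 1) (vv_pv2 F * g)) =
      PowerSeries.coeff a (PowerSeries.coeff b g) := by
  rw [vv_pv2, PowerSeries.coeff_succ_X_mul]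

private theorem co_vv_zero {F : Type} [Field F] (a : ℕ) (g : PowerSeries (PowerSeries F)) :
    PowerSeries.coeff a (PowerSeries.coeff 0 (vv_pv2 F * g)) = 0 := by
  rw [vv_pv2, PowerSeries.coeff_zero_X_mul, map_zero]

private theorem co_cst {F : Type} [Field F] (a b : ℕ) (c : F) (g : PowerSeries (PowerSeries F)) :
    PowerSeries.coeff a (PowerSeries.coeff b (cst F c * g)) =
      c * PowerSeries.coeff a (PowerSeries.coeff b g) := by
  have h : cst F c = PowerSeries.C (PowerSeries.C c) := rfl
  rw [h, PowerSeries.coeff_C_mul, PowerSeries.coeff_C_mul]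

theorem M_eq_QQ {F : Type} [Field F] [Algebra ℝ F] {N : ℕ} (D : DF F N) (hN : Even N)
    (Q : Fin N → Fin N → F)
    (hQ : ∀ i j, ∑ k, sig D i k * Q k j = if i = j then 1 else 0) (a b : ℕ) (hab : b < a) :
    - ∑ k, ∑ j, Q k j * bco a (1 / D.s j) * bco b (1 / D.s k) =
      MvPolynomial.aeval (tval D.s) (QQ a b) := by
  have hid := ident D hN Q hQ
  set q : PowerSeries F := ∏ i, qfac (1 / D.s i) with hq
  set M2 : PowerSeries (PowerSeries F) :=
    - ∑ k, ∑ j, cst F (Q k j) * inu F (qfac (1 / D.s j)) * inv F (qfac (1 / D.s k)) with hM2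
  have hM : ∀ a b, PowerSeries.coeff a (PowerSeries.coeff b M2) =
      - ∑ k, ∑ j, Q k j * bco a (1 / D.s j) * bco b (1 / D.s k) := by
    intro a b
    rw [hM2, map_neg, map_neg, map_sum, map_sum]
    congr 1
    refine Finset.sum_congr rfl fun k _ => ?_
    rw [map_sum, map_sum]
    refine Finset.sum_congr rfl fun j _ => ?_
    rw [mul_assoc (cst F (Q k j)), co_cst, co_prod, qfac, qfac, PowerSeries.coeff_mk,
      PowerSeries.coeff_mk, mul_assoc]
  have hqc : ∀ n, PowerSeries.coeff n q = MvPolynomial.aeval (tval D.s) (qP n) := by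
    intro n
    exact coeff_qprod (fun i => 1 / D.s i) n
  have hq0 : PowerSeries.coeff 0 q = 1 := by
    rw [hqc, qP, map_one]
  have hco : ∀ a b, PowerSeries.coeff (a + 1) (PowerSeries.coeff b
      ((uu F - vv_pv2 F) * (inu F q * inv F q))) = PowerSeries.coeff (a + 1) (PowerSeries.coeff b
      ((uu F - vv_pv2 F) + (uu F + vv_pv2 F) * M2)) := fun a b => by rw [hid]
  refine eq_QQ (tval D.s) (fun a b => - ∑ k, ∑ j, Q k j * bco a (1 / D.s j) * bco b (1 / D.s k))
    ?_ ?_ a b hab
  · intro a ha
    have h := hco a 0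
    rw [sub_mul, add_mul] at h
    simp only [map_sub, map_add] at h
    rw [co_uu_succ, co_vv_zero, co_uu_succ, co_vv_zero, co_prod, hM, hq0, hqc] at h
    have h1 : PowerSeries.coeff (a + 1) (PowerSeries.coeff 0 (uu F)) = 0 := by
      rw [uu, PowerSeries.coeff_zero_C, PowerSeries.coeff_X, if_neg (by omega)]
    have h2 : PowerSeries.coeff (a + 1) (PowerSeries.coeff 0 (vv_pv2 F)) = 0 := by
      rw [vv_pv2, PowerSeries.coeff_zero_X, map_zero]
    rw [h1, h2] at h
    linear_combination -h
  · intro a b hb
    obtain ⟨b, rfl⟩ : ∃ b', b = b' + 1 := ⟨b - 1, by omega⟩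
    have h := hco a (b + 1)
    rw [sub_mul, add_mul] at h
    simp only [map_sub, map_add] at h
    rw [co_uu_succ, co_vv_succ, co_uu_succ, co_vv_succ, co_prod, co_prod, hM, hM, hqc, hqc, hqc,
      hqc] at h
    have h1 : PowerSeries.coeff (a + 1) (PowerSeries.coeff (b + 1) (uu F)) = 0 := by
      rw [uu, PowerSeries.coeff_C, if_neg (by omega), map_zero]
    have h2 : PowerSeries.coeff (a + 1) (PowerSeries.coeff (b + 1) (vv_pv2 F)) = 0 := by
      rw [vv_pv2, PowerSeries.coeff_X]
      split_ifs
      · rw [PowerSeries.coeff_one, if_neg (by omega)]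
      · rw [map_zero]
    rw [h1, h2] at h
    simp only [Nat.add_sub_cancel]
    linear_combination -h

end Pool.Agent.Helper90.MVD
end
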