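import Pool.Agent.Helper16.LGG.G01

/- Helper34.MVU.WickLin -/
section
/-!
Project MV, block U, U-W1: the Wick functional is linear and monotone for the coefficientwise
order.
-/

namespace Pool.Agent.Helper34.MVU

open Finset MvPolynomial Pool.Agent.Helper60.MV

/-- value on monomials -/
noncomputable def wv (m : ℕ →₀ ℕ) : ℝ := hfL Cov m.toMultiset.toList

theorem Wick_eq_sum (f : MvPolynomial ℕ ℝ) (T : Finset (ℕ →₀ ℕ)) (hT : f.support ⊆ T) :
    Wick f = ∑ m ∈ T, f.coeff m * wv m := by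
  unfold Wick wv
  apply Finset.sum_subset hT
  intro m _ hm
  rw [MvPolynomial.notMem_support_iff.mp hm, zero_mul]

theorem Wick_zero : Wick 0 = 0 := by
  simp [Wick]

theorem Wick_add (f g : MvPolynomial ℕ ℝ) : Wick (f + g) = Wick f + Wick g := by
  classical
  rw [Wick_eq_sum (f + g) (f.support ∪ g.support) MvPolynomial.support_add,
    Wick_eq_sum f (f.support ∪ g.support) Finset.subset_union_left,
    Wick_eq_sum g (f.support ∪ g.support) Finset.subset_union_right, ← Finset.sum_add_distrib]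
  apply Finset.sum_congr rfl
  intro m _
  rw [MvPolynomial.coeff_add]
  ring

theorem Wick_C_mul (c : ℝ) (f : MvPolynomial ℕ ℝ) : Wick (C c * f) = c * Wick f := by
  classical
  have hs : (C c * f).support ⊆ f.support := by
    intro m hm
    rw [MvPolynomial.mem_support_iff] at hm ⊢
    rw [MvPolynomial.coeff_C_mul] at hm
    exact right_ne_zero_of_mul hm
  rw [Wick_eq_sum (C c * f) f.support hs, Wick_eq_sum f f.support (Finset.Subset.refl _),
    Finset.mul_sum]
  apply Finset.sum_congr rfl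
  intro m _
  rw [MvPolynomial.coeff_C_mul]
  ring

theorem Wick_sum {ι : Type*} (s : Finset ι) (f : ι → MvPolynomial ℕ ℝ) :
    Wick (∑ i ∈ s, f i) = ∑ i ∈ s, Wick (f i) := by
  classical
  induction s using Finset.induction_on with
  | empty => simp [Wick_zero]
  | insert a s ha ih => rw [Finset.sum_insert ha, Finset.sum_insert ha, Wick_add, ih]

theorem Wick_monomial (m : ℕ →₀ ℕ) (c : ℝ) : Wick (monomial m c) = c * wv m := by
  classical
  have hs : (monomial m c : MvPolynomial ℕ ℝ).support ⊆ {m} := MvPolynomial.support_monomial_subset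
  rw [Wick_eq_sum _ {m} hs, Finset.sum_singleton, MvPolynomial.coeff_monomial, if_pos rfl]

theorem wv_zero : wv 0 = 1 := by
  simp [wv, hfL]

theorem Wick_one : Wick 1 = 1 := by
  have h : (1 : MvPolynomial ℕ ℝ) = monomial 0 1 := by
    rw [← MvPolynomial.C_apply]; simp
  rw [h, Wick_monomial, wv_zero]
  ring

theorem Wick_C (c : ℝ) : Wick (C c) = c := by
  rw [MvPolynomial.C_apply, Wick_monomial, wv_zero, mul_one]

theorem Wick_neg (f : MvPolynomial ℕ ℝ) : Wick (-f) = - Wick f := by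
  have h : -f = C (-1) * f := by simp
  rw [h, Wick_C_mul]
  ring

theorem Wick_sub (f g : MvPolynomial ℕ ℝ) : Wick (f - g) = Wick f - Wick g := by
  rw [sub_eq_add_neg, Wick_add, Wick_neg]
  ring

theorem zet_nonneg (M : ℕ) : 0 ≤ zet M := by
  unfold zet
  exact tsum_nonneg (fun n => by positivity)

theorem Cov_nonneg (k l : ℕ) : 0 ≤ Cov k l := by
  unfold Cov
  have := zet_nonneg (2 * k + 2 * l + 2)
  positivity

theorem hfL_nonneg {α : Type} (A : α → α → ℝ) (hA : ∀ a b, 0 ≤ A a b) :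
    ∀ (n : ℕ) (L : List α), L.length = n → 0 ≤ hfL A L := by
  intro n
  induction n using Nat.strong_induction_on with
  | _ n ih =>
    intro L hL
    cases L with
    | nil => simp [hfL]
    | cons x xs =>
      rw [hfL]
      apply Finset.sum_nonneg
      intro j _
      apply mul_nonneg (hA _ _)
      apply ih (xs.eraseIdx j).length _ _ rfl
      rw [List.length_eraseIdx]
      simp only [List.length_cons] at hL
      split <;> omega

theorem wv_nonneg (m : ℕ →₀ ℕ) : 0 ≤ wv m :=
  hfL_nonneg Cov Cov_nonneg _ _ rfl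

theorem Wick_nonneg (f : MvPolynomial ℕ ℝ) (hf : ∀ m, 0 ≤ f.coeff m) : 0 ≤ Wick f := by
  rw [Wick_eq_sum f f.support (Finset.Subset.refl _)]
  exact Finset.sum_nonneg (fun m _ => mul_nonneg (hf m) (wv_nonneg m))

theorem Wick_mono (f g : MvPolynomial ℕ ℝ) (h : ∀ m, f.coeff m ≤ g.coeff m) :
    Wick f ≤ Wick g := by
  have h1 : 0 ≤ Wick (g - f) := by
    apply Wick_nonneg
    intro m
    rw [MvPolynomial.coeff_sub]
    linarith [h m]
  rw [Wick_sub] at h1
  linarith

theorem abs_Wick_le (f g : MvPolynomial ℕ ℝ) (h : ∀ m, |f.coeff m| ≤ g.coeff m) :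
    |Wick f| ≤ Wick g := by
  rw [abs_le]
  constructor
  · have h1 : Wick (-f) ≤ Wick g := by
      apply Wick_mono
      intro m
      rw [MvPolynomial.coeff_neg]
      exact le_trans (neg_le_abs _) (h m)
    rw [Wick_neg] at h1
    linarith
  · exact Wick_mono f g (fun m => le_trans (le_abs_self _) (h m))

end Pool.Agent.Helper34.MVU
end

/- Helper34.MVU.Haf -/
section
/-!
Project MV, block U, module U-H1 (Haf): elementary bounds for Pfaffians and hafnians along lists.

All by (strong) induction on the length of the list; recall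
`pfL A (x :: xs) = Σ_{j < xs.length} (-1)^j * A x xs[j] * pfL A (xs.eraseIdx j)`, `hfL` the same
without signs (`rw [pfL]`, `rw [hfL]`).
* `abs_pfL_le`: triangle inequality.
* `hfL_mono`: `Pairwise` of `x :: xs` gives the condition for `(x, xs[j])` and passes to the sublist
  `xs.eraseIdx j` (`List.eraseIdx_sublist`, `List.Pairwise.sublist`); product of two nonnegative
  inequalities.
* `hfL_mul`: length `n + 2`, `L = x :: xs`: every term of the sum is
  `c u_x u_{xs[j]} * (mt n * c^(n/2) * Π_{others} u)`, and `u_{xs[j]} * Π (xs.eraseIdx j) = Π xs`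
  (`List.prod_eraseIdx`-like, or via `List.insertIdx`/permutation), `n + 1` terms; length one: empty
  sum, `mt 1 = 0`.
* `mt_sq_le`: `mt (n+2)^2 = (n+1)^2 mt n ^2 ≤ (n+1)^2 n! ≤ (n+2)(n+1) n!`.
-/

namespace Pool.Agent.Helper34.MVU

open Finset MvPolynomial Pool.Agent.Helper60.MV

private theorem haf_len {α : Type} (xs : List α) (j : Fin xs.length) :
    (xs.eraseIdx j).length < xs.length + 1 := by
  have h := List.length_eraseIdx_add_one (l := xs) j.2
  omega

private theorem haf_perm {α : Type} (xs : List α) (j : Fin xs.length) :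
    (xs.get j :: xs.eraseIdx j).Perm xs :=
  List.getElem_cons_eraseIdx_perm j.2

theorem abs_pfL_le {α : Type} (A : α → α → ℝ) (L : List α) :
    |pfL A L| ≤ hfL (fun a b => |A a b|) L := by
  obtain ⟨n, hn⟩ : ∃ n, L.length = n := ⟨_, rfl⟩
  induction n using Nat.strong_induction_on generalizing L with
  | _ n ih =>
    rcases L with _ | ⟨x, xs⟩
    · rw [pfL, hfL]
      simp
    · rw [pfL, hfL]
      refine (Finset.abs_sum_le_sum_abs _ _).trans (Finset.sum_le_sum (fun j _ => ?_))
      rw [abs_mul, abs_mul, abs_pow, abs_neg, abs_one, one_pow, one_mul]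
      refine mul_le_mul_of_nonneg_left (ih _ ?_ _ rfl) (abs_nonneg _)
      rw [List.length_cons] at hn
      rw [← hn]
      exact haf_len xs j

theorem hfL_mono {α : Type} (A B : α → α → ℝ) (L : List α)
    (h : L.Pairwise (fun a b => 0 ≤ A a b ∧ A a b ≤ B a b)) :
    0 ≤ hfL A L ∧ hfL A L ≤ hfL B L := by
  obtain ⟨n, hn⟩ : ∃ n, L.length = n := ⟨_, rfl⟩
  induction n using Nat.strong_induction_on generalizing L with
  | _ n ih =>
    rcases L with _ | ⟨x, xs⟩
    · rw [hfL, hfL]
      exact ⟨zero_le_one, le_refl _⟩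
    · rw [hfL, hfL]
      rw [List.pairwise_cons] at h
      have hstep : ∀ j : Fin xs.length,
          0 ≤ hfL A (xs.eraseIdx j) ∧ hfL A (xs.eraseIdx j) ≤ hfL B (xs.eraseIdx j) := by
        intro j
        refine ih _ ?_ _ (h.2.sublist (List.eraseIdx_sublist _ _)) rfl
        rw [List.length_cons] at hn
        rw [← hn]
        exact haf_len xs j
      have hx : ∀ j : Fin xs.length, 0 ≤ A x (xs.get j) ∧ A x (xs.get j) ≤ B x (xs.get j) :=
        fun j => h.1 _ (List.get_mem _ _)
      constructor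
      · exact Finset.sum_nonneg (fun j _ => mul_nonneg (hx j).1 (hstep j).1)
      · exact Finset.sum_le_sum (fun j _ => mul_le_mul (hx j).2 (hstep j).2 (hstep j).1
          ((hx j).1.trans (hx j).2))

theorem hfL_mul {α : Type} (u : α → ℝ) (c : ℝ) (L : List α) :
    hfL (fun a b => c * (u a * u b)) L = mt L.length * c ^ (L.length / 2) * (L.map u).prod := by
  obtain ⟨n, hn⟩ : ∃ n, L.length = n := ⟨_, rfl⟩
  induction n using Nat.strong_induction_on generalizing L with
  | _ n ih =>
    rcases L with _ | ⟨x, xs⟩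
    · rw [hfL]
      simp [mt]
    · rw [hfL]
      obtain hm | ⟨m, hm⟩ : xs.length = 0 ∨ ∃ m, xs.length = m + 1 := by
        rcases Nat.eq_zero_or_pos xs.length with h | h
        · exact Or.inl h
        · exact Or.inr ⟨xs.length - 1, by omega⟩
      · rw [List.length_eq_zero_iff] at hm
        subst hm
        simp [mt]
      · have hterm : ∀ j : Fin xs.length, c * (u x * u (xs.get j)) *
            hfL (fun a b => c * (u a * u b)) (xs.eraseIdx j) =
            mt m * c ^ (m / 2 + 1) * ((x :: xs).map u).prod := by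
          intro j
          have hl : (xs.eraseIdx j).length = m := by
            have h := List.length_eraseIdx_add_one (l := xs) j.2
            omega
          have hlt : (xs.eraseIdx j).length < n := by
            rw [List.length_cons] at hn
            rw [← hn]
            exact haf_len xs j
          rw [ih _ hlt _ rfl, hl, List.map_cons, List.prod_cons]
          have hp := ((haf_perm xs j).map u).prod_eq
          rw [List.map_cons, List.prod_cons] at hp
          rw [← hp, pow_succ]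
          ring
        rw [Finset.sum_congr rfl (fun j _ => hterm j), Finset.sum_const, Finset.card_univ,
          Fintype.card_fin, List.length_cons, hm, mt, nsmul_eq_mul,
          show (m + 1 + 1) / 2 = m / 2 + 1 by omega]
        push_cast
        ring

theorem mt_sq_le (n : ℕ) : mt n ^ 2 ≤ n.factorial := by
  induction n using Nat.strong_induction_on with
  | _ n ih =>
    rcases n with _ | _ | n
    · simp [mt]
    · simp [mt]
    · rw [mt, mul_pow, Nat.factorial_succ, Nat.factorial_succ]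
      have h := ih n (by omega)
      calc (n + 1) ^ 2 * mt n ^ 2 ≤ (n + 1) ^ 2 * n.factorial := Nat.mul_le_mul_left _ h
        _ = (n + 1) * ((n + 1) * n.factorial) := by ring
        _ ≤ (n + 1 + 1) * ((n + 1) * n.factorial) := Nat.mul_le_mul_right _ (by omega)

end Pool.Agent.Helper34.MVU
end

/- Helper34.MVU.X1 -/
section
/-!
Project MV, block U, module U-X1 (X1): the bound of the numbers `XK`.

PROOF. `XK K L = Σ_{f : ρ → Fin l} pfL (zf (m_a - 2 L_a) (m_b - 2 L_b)) (finRange l)`, `l = L.length`,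
`m_a = asg K f a = Σ_{i, f i = a} K i`, `L_a = L.get a`. By `abs_pfL_le`,
`|XK K L| ≤ Σ_f hfL |zf …| (finRange l)`. For `a < b` in `Fin l` (`List.pairwise_lt_finRange`)
CLAIM: `|zf (m_a - 2L_a) (m_b - 2L_b)| ≤ 2 * (u_a * u_b)` with `u_a = x(L_a)^m_a * (x(L_a)^(2 L_a))⁻¹`.
Indeed `|zf m n| ≤ 2`, and `zf m n ≠ 0` only if `m = -n ≥ 0`; so let `m_a - 2L_a = d ≥ 0`,
`m_b = 2L_b - d`. If `L_b = 0`: `d = 0`, `m_b = 0`, `u_a = 1` (or `0⁰…`: if `L_a = 0` then `m_a = 0`,
`u_a = 1`), `u_b = 1`. If `L_b ≠ 0`: `L_a ≥ L_b > 0`, `0 < x(L_b) ≤ x(L_a)`,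
`u_a u_b = x(L_a)^d x(L_b)^(-d) ≥ 1`. In the other cases `0 ≤ u_a u_b` (`x ≥ 0`).
Hence by `hfL_mono` and `hfL_mul`
`|XK K L| ≤ Σ_f mt l * 2^(l/2) * Π_a u_a`, and `Π_a x(L_a)^{m_a} = Π_i x(L_{f i})^{K i}`
(`Finset.prod_pow_eq_pow_sum`, `Finset.prod_comm`), `Σ_f Π_i x(L_{f i})^{K i} = Π_i Σ_a x(L_a)^{K i}`
(`Finset.prod_univ_sum`, `Fintype.piFinset_univ`), sums and products over `Fin l` are those of the list
(`List.sum_ofFn`, `List.prod_ofFn`, `List.ofFn_get`).
-/

namespace Pool.Agent.Helper34.MVU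

open Finset Pool.Agent.Helper60.MV

private theorem abs_zf_le (m n : ℤ) : |zf m n| ≤ 2 := by
  unfold zf
  split_ifs
  · norm_num
  · rw [abs_mul, abs_pow, abs_neg, abs_one, one_pow]
    norm_num
  · norm_num
  · norm_num

private theorem u_nonneg (y : ℝ) (hy : 0 ≤ y) (m k : ℕ) : 0 ≤ y ^ m * (y ^ (2 * k))⁻¹ := by
  positivity

private theorem claim_pv1 (ma mb la lb : ℕ) (x : ℕ → ℝ) (ha : la ≠ 0 → 0 < x la)
    (hb : lb ≠ 0 → 0 < x lb) (hx0 : 0 ≤ x 0) (h : lb ≤ la ∧ (lb ≠ 0 → x lb ≤ x la)) :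
    |zf ((ma : ℤ) - 2 * (la : ℤ)) ((mb : ℤ) - 2 * (lb : ℤ))| ≤
      2 * ((x la ^ ma * (x la ^ (2 * la))⁻¹) * (x lb ^ mb * (x lb ^ (2 * lb))⁻¹)) := by
  have hxa : 0 ≤ x la := by
    by_cases h0 : la = 0
    · rw [h0]; exact hx0
    · exact (ha h0).le
  have hxb : 0 ≤ x lb := by
    by_cases h0 : lb = 0
    · rw [h0]; exact hx0
    · exact (hb h0).le
  have hnn : 0 ≤ 2 * ((x la ^ ma * (x la ^ (2 * la))⁻¹) * (x lb ^ mb * (x lb ^ (2 * lb))⁻¹)) := by
    positivity
  by_cases h1 : ((ma : ℤ) - 2 * (la : ℤ)) + ((mb : ℤ) - 2 * (lb : ℤ)) = 0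
  · rcases lt_trichotomy ((ma : ℤ) - 2 * (la : ℤ)) 0 with h2 | h2 | h2
    · have h3 : zf ((ma : ℤ) - 2 * (la : ℤ)) ((mb : ℤ) - 2 * (lb : ℤ)) = 0 := by
        unfold zf
        rw [if_pos h1, if_neg h2.ne, if_neg (not_lt.mpr h2.le)]
      rw [h3, abs_zero]
      exact hnn
    · have h3 : zf ((ma : ℤ) - 2 * (la : ℤ)) ((mb : ℤ) - 2 * (lb : ℤ)) = 1 := by
        unfold zf
        rw [if_pos h1, if_pos h2]
      have hma : ma = 2 * la := by omega
      have hmb : mb = 2 * lb := by omega
      have hone : ∀ k : ℕ, (k ≠ 0 → 0 < x k) → x k ^ (2 * k) * (x k ^ (2 * k))⁻¹ = 1 := by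
        intro k hk
        by_cases h0 : k = 0
        · rw [h0]; simp
        · exact mul_inv_cancel₀ (pow_ne_zero _ (hk h0).ne')
      rw [h3, abs_one, hma, hmb, hone la ha, hone lb hb]
      norm_num
    · have hlb : lb ≠ 0 := by omega
      have hla : la ≠ 0 := by omega
      have hxa' := ha hla
      have hxb' := hb hlb
      obtain ⟨d, hd⟩ : ∃ d : ℕ, ma = 2 * la + d := ⟨ma - 2 * la, by omega⟩
      have hd' : 2 * lb = mb + d := by omega
      have e1 : x la ^ ma * (x la ^ (2 * la))⁻¹ = x la ^ d := by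
        rw [hd, pow_add]
        field_simp
      have e2 : x lb ^ mb * (x lb ^ (2 * lb))⁻¹ = (x lb ^ d)⁻¹ := by
        rw [hd', pow_add]
        field_simp
      rw [e1, e2]
      have h4 : 1 ≤ x la ^ d * (x lb ^ d)⁻¹ := by
        rw [← div_eq_mul_inv, one_le_div (pow_pos hxb' d)]
        exact pow_le_pow_left₀ hxb'.le (h.2 hlb) d
      have := abs_zf_le ((ma : ℤ) - 2 * (la : ℤ)) ((mb : ℤ) - 2 * (lb : ℤ))
      linarith
  · have h3 : zf ((ma : ℤ) - 2 * (la : ℤ)) ((mb : ℤ) - 2 * (lb : ℤ)) = 0 := by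
      unfold zf
      rw [if_neg h1]
    rw [h3, abs_zero]
    exact hnn

private theorem prod_asg {ρ : Type} [Fintype ρ] (K : ρ → ℕ) {l : ℕ} (y : Fin l → ℝ)
    (f : ρ → Fin l) : ∏ a, y a ^ asg K f a = ∏ i, y (f i) ^ K i := by
  unfold asg
  have h1 : ∀ a, y a ^ (∑ i, if f i = a then K i else 0) =
      ∏ i, (if f i = a then y a ^ K i else 1) := by
    intro a
    rw [← Finset.prod_pow_eq_pow_sum]
    refine Finset.prod_congr rfl fun i _ => ?_
    split_ifs
    · rfl
    · exact pow_zero _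
  rw [Finset.prod_congr rfl fun a _ => h1 a, Finset.prod_comm]
  refine Finset.prod_congr rfl fun i _ => ?_
  rw [Finset.prod_ite_eq]
  simp

private theorem sum_get (L : List ℕ) (g : ℕ → ℝ) :
    ∑ a : Fin L.length, g (L.get a) = (L.map g).sum := by
  rw [← List.sum_ofFn]
  congr 1
  conv_rhs => rw [← List.ofFn_get L]
  rw [List.map_ofFn]
  rfl

private theorem prod_get (L : List ℕ) (g : ℕ → ℝ) :
    ∏ a : Fin L.length, g (L.get a) = (L.map g).prod := by
  rw [← List.prod_ofFn]
  congr 1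
  conv_rhs => rw [← List.ofFn_get L]
  rw [List.map_ofFn]
  rfl

theorem XK_le {ρ : Type} [Fintype ρ] (K : ρ → ℕ) (L : List ℕ) (x : ℕ → ℝ)
    (hx : ∀ a ∈ L, a ≠ 0 → 0 < x a) (hx0 : 0 ≤ x 0)
    (hL : L.Pairwise (fun a b => b ≤ a ∧ (b ≠ 0 → x b ≤ x a))) :
    |XK K L| ≤ mt L.length * 2 ^ (L.length / 2) *
      (∏ i, (L.map (fun a => x a ^ K i)).sum) * (L.map (fun a => (x a ^ (2 * a))⁻¹)).prod := by
  classical
  have hpair : ∀ a b : Fin L.length, a < b →
      L.get b ≤ L.get a ∧ (L.get b ≠ 0 → x (L.get b) ≤ x (L.get a)) := by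
    intro a b hab
    exact List.pairwise_iff_get.mp hL a b hab
  have hterm : ∀ f : ρ → Fin L.length,
      |pfL (fun a b => zf ((asg K f a : ℤ) - 2 * (L.get a : ℤ))
        ((asg K f b : ℤ) - 2 * (L.get b : ℤ))) (List.finRange L.length)| ≤
      mt L.length * 2 ^ (L.length / 2) * ((∏ i, x (L.get (f i)) ^ K i) *
        (L.map (fun a => (x a ^ (2 * a))⁻¹)).prod) := by
    intro f
    refine (abs_pfL_le _ _).trans ?_
    let u : Fin L.length → ℝ := fun a => x (L.get a) ^ asg K f a * (x (L.get a) ^ (2 * L.get a))⁻¹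
    have h1 := (hfL_mono (fun a b => |zf ((asg K f a : ℤ) - 2 * (L.get a : ℤ))
        ((asg K f b : ℤ) - 2 * (L.get b : ℤ))|) (fun a b => 2 * (u a * u b))
        (List.finRange L.length) ?_).2
    · refine h1.trans (le_of_eq ?_)
      rw [hfL_mul, List.length_finRange]
      congr 1
      rw [← List.ofFn_eq_map, List.prod_ofFn, Finset.prod_mul_distrib,
        ← prod_get L (fun a => (x a ^ (2 * a))⁻¹)]
      congr 1
      exact prod_asg K (fun a => x (L.get a)) f
    · refine List.Pairwise.imp ?_ (List.pairwise_lt_finRange L.length)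
      intro a b hab
      refine ⟨abs_nonneg _, ?_⟩
      exact claim_pv1 _ _ _ _ x (fun h0 => hx _ (List.get_mem L a) h0)
        (fun h0 => hx _ (List.get_mem L b) h0) hx0 (hpair a b hab)
  have hsum : ∑ f : ρ → Fin L.length, ∏ i, x (L.get (f i)) ^ K i =
      ∏ i, (L.map (fun a => x a ^ K i)).sum := by
    have h1 := Finset.prod_univ_sum (fun _ : ρ => (Finset.univ : Finset (Fin L.length)))
      (fun (i : ρ) (a : Fin L.length) => x (L.get a) ^ K i)
    rw [Fintype.piFinset_univ] at h1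
    rw [← h1]
    refine Finset.prod_congr rfl fun i _ => ?_
    exact sum_get L (fun a => x a ^ K i)
  unfold XK
  refine (Finset.abs_sum_le_sum_abs _ _).trans ?_
  refine (Finset.sum_le_sum fun f _ => hterm f).trans (le_of_eq ?_)
  rw [← Finset.mul_sum, ← Finset.sum_mul, hsum]
  ring

end Pool.Agent.Helper34.MVU
end

/- Helper34.MVU.QP -/
section
/-!
Project MV, block U, module U-Q1 (QP): the polynomials `qP n`, i.e. the coefficients of
`exp (Σ_k 2 t_k y^(2k+1) / (2k+1))`.

PROOFS. `qP` is defined by `qP 0 = 1`,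
`qP (n+1) = Σ_{k : Fin (n/2+1)} C (2/(n+1)) * X k * qP (n - 2k)` (unfold with `rw [qP]`).
* `qP_rec`: multiply by `n+1` (`Fin.sum_univ_eq_sum_range`).
* `coeff_qP_nonneg`: strong induction; `coeff m (C c * X k * q)` is `c` times a coefficient of `q`
  or `0` (`MvPolynomial.coeff_X_mul'`).
* `coeff_zero_qP`: the recursion has a factor `X k` in every term.
* `vars_qP`: strong induction, `vars (C c * X k * qP (n-2k)) ⊆ {k} ∪ vars (qP (n-2k))`, `k ≤ n/2`.
* `pderiv_qP`: strong induction on `n`. `n = 0`: `pderiv k 1 = 0`. For `n + 1`: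
  `(n+1) ∂_k q_{n+1} = Σ_{j ≤ n/2} 2 (∂_k X_j) q_{n-2j} + Σ_{j ≤ n/2} 2 X_j ∂_k q_{n-2j}`
  `= [2k ≤ n] 2 q_{n-2k} + (2/(2k+1)) Σ_{j ≤ n/2, 2k+1 ≤ n-2j} 2 X_j q_{n-2j-(2k+1)}`, and by
  `qP_rec` for `n - 2k - 1 + 1 = n - 2k` the last sum is `(n-2k) q_{n-2k}` (if `2k+1 ≤ n`; it is
  empty and `(n-2k) = 0` if `n = 2k`). Total, for `2k ≤ n`:
  `(2/(2k+1)) ((2k+1) + (n-2k)) q_{n-2k} = (2/(2k+1)) (n+1) q_{n-2k}`. Divide by `n+1`
  (multiply both sides by `C (1/(n+1))`). For `2k > n` both sides are `0`.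
-/

namespace Pool.Agent.Helper34.MVU

open Finset MvPolynomial Pool.Agent.Helper60.MV

private theorem qP_succ' (n : ℕ) : qP (n + 1) =
    ∑ k ∈ range (n / 2 + 1), C (2 / ((n : ℝ) + 1)) * X k * qP (n - 2 * k) := by
  rw [qP]
  exact Fin.sum_univ_eq_sum_range
    (fun k => C (2 / ((n : ℝ) + 1)) * X k * qP (n - 2 * k)) (n / 2 + 1)

theorem qP_rec (n : ℕ) :
    C ((n : ℝ) + 1) * qP (n + 1) = ∑ k ∈ range (n / 2 + 1), C 2 * X k * qP (n - 2 * k) := by
  rw [qP_succ', Finset.mul_sum]
  refine Finset.sum_congr rfl fun k _ => ?_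
  have h : (C ((n : ℝ) + 1) * C (2 / ((n : ℝ) + 1)) : MvPolynomial ℕ ℝ) = C 2 := by
    rw [← C_mul]
    congr 1
    have : ((n : ℝ) + 1) ≠ 0 := by positivity
    field_simp
  rw [← h]
  ring

theorem coeff_qP_nonneg (n : ℕ) (m : ℕ →₀ ℕ) : 0 ≤ (qP n).coeff m := by
  induction n using Nat.strong_induction_on generalizing m with
  | _ n ih =>
    cases n with
    | zero =>
      rw [qP, MvPolynomial.coeff_one]
      split_ifs <;> norm_num
    | succ n =>
      rw [qP_succ', MvPolynomial.coeff_sum]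
      refine Finset.sum_nonneg fun k _ => ?_
      rw [mul_assoc, MvPolynomial.coeff_C_mul, MvPolynomial.coeff_X_mul']
      refine mul_nonneg (by positivity) ?_
      split_ifs
      · exact ih _ (by omega) _
      · exact le_rfl

theorem coeff_zero_qP (n : ℕ) : (qP n).coeff 0 = if n = 0 then 1 else 0 := by
  cases n with
  | zero => rw [qP]; simp
  | succ n =>
    rw [qP_succ', MvPolynomial.coeff_sum]
    rw [if_neg (by omega)]
    refine Finset.sum_eq_zero fun k _ => ?_
    rw [mul_assoc, MvPolynomial.coeff_C_mul, MvPolynomial.coeff_X_mul']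
    simp

theorem vars_qP (n : ℕ) : ∀ k ∈ (qP n).vars, 2 * k + 1 ≤ n := by
  induction n using Nat.strong_induction_on with
  | _ n ih =>
    cases n with
    | zero =>
      intro k hk
      rw [qP, MvPolynomial.vars_one] at hk
      simp at hk
    | succ n =>
      intro k hk
      rw [qP_succ'] at hk
      have h1 := MvPolynomial.vars_sum_subset _ _ hk
      rw [Finset.mem_biUnion] at h1
      obtain ⟨j, hj, hk1⟩ := h1
      rw [Finset.mem_range] at hj
      have h2 := MvPolynomial.vars_mul _ _ hk1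
      rw [Finset.mem_union] at h2
      rcases h2 with h2 | h2
      · have h3 := MvPolynomial.vars_mul _ _ h2
        rw [MvPolynomial.vars_C, MvPolynomial.vars_X, Finset.empty_union,
          Finset.mem_singleton] at h3
        omega
      · have := ih (n - 2 * j) (by omega) k h2
        omega

private theorem sum2 (n k : ℕ) (hk : 2 * k ≤ n) :
    ∑ j ∈ range (n / 2 + 1), C 2 * X j *
      (if 2 * k + 1 ≤ n - 2 * j then
        C (2 / (2 * (k : ℝ) + 1)) * qP (n - 2 * j - (2 * k + 1)) else 0) =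
    C (2 / (2 * (k : ℝ) + 1)) * (C ((n : ℝ) - 2 * k) * qP (n - 2 * k)) := by
  rcases Nat.lt_or_ge n (2 * k + 1) with h | h
  · have hn : n = 2 * k := by omega
    subst hn
    have h0 : (C (((2 * k : ℕ) : ℝ) - 2 * (k : ℝ)) : MvPolynomial ℕ ℝ) = 0 := by
      push_cast
      rw [sub_self, C_0]
    rw [h0, zero_mul, mul_zero]
    refine Finset.sum_eq_zero fun j _ => ?_
    rw [if_neg (by omega), mul_zero]
  · obtain ⟨m, rfl⟩ : ∃ m, n = m + (2 * k + 1) := ⟨n - (2 * k + 1), by omega⟩
    have e1 : m + (2 * k + 1) - 2 * k = m + 1 := by omega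
    have e2 : (((m + (2 * k + 1) : ℕ) : ℝ) - 2 * (k : ℝ)) = (m : ℝ) + 1 := by
      push_cast
      ring
    rw [e1, e2, qP_rec, Finset.mul_sum]
    symm
    have hsub : range (m / 2 + 1) ⊆ range ((m + (2 * k + 1)) / 2 + 1) := by
      intro j hj
      rw [Finset.mem_range] at hj ⊢
      omega
    rw [← Finset.sum_subset hsub (f := fun j => C 2 * X j *
      (if 2 * k + 1 ≤ m + (2 * k + 1) - 2 * j then
        C (2 / (2 * (k : ℝ) + 1)) * qP (m + (2 * k + 1) - 2 * j - (2 * k + 1)) else 0))]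
    · refine Finset.sum_congr rfl fun j hj => ?_
      rw [Finset.mem_range] at hj
      rw [if_pos (by omega)]
      have e3 : m + (2 * k + 1) - 2 * j - (2 * k + 1) = m - 2 * j := by omega
      rw [e3]
      ring
    · intro j _ hj2
      rw [Finset.mem_range, not_lt] at hj2
      rw [if_neg (by omega), mul_zero]

theorem pderiv_qP (n k : ℕ) :
    pderiv k (qP n) = if 2 * k + 1 ≤ n then C (2 / (2 * (k : ℝ) + 1)) * qP (n - (2 * k + 1)) else 0 := by
  induction n using Nat.strong_induction_on with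
  | _ n ih =>
    cases n with
    | zero =>
      rw [if_neg (by omega), qP]
      simp
    | succ n =>
      have hne : (C ((n : ℝ) + 1) : MvPolynomial ℕ ℝ) ≠ 0 := by
        rw [Ne, C_eq_zero]
        positivity
      apply mul_left_cancel₀ hne
      have h1 : C ((n : ℝ) + 1) * pderiv k (qP (n + 1)) =
          pderiv k (C ((n : ℝ) + 1) * qP (n + 1)) := by
        rw [MvPolynomial.pderiv_C_mul]
      rw [h1, qP_rec, map_sum]
      have h2 : ∀ j ∈ range (n / 2 + 1), pderiv k (C 2 * X j * qP (n - 2 * j) : MvPolynomial ℕ ℝ) =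
          (if j = k then C 2 * qP (n - 2 * j) else 0) + C 2 * X j *
            (if 2 * k + 1 ≤ n - 2 * j then
              C (2 / (2 * (k : ℝ) + 1)) * qP (n - 2 * j - (2 * k + 1)) else 0) := by
        intro j _
        rw [mul_assoc, MvPolynomial.pderiv_C_mul, MvPolynomial.pderiv_mul, ← ih (n - 2 * j) (by omega),
          MvPolynomial.pderiv_X]
        by_cases hjk : j = k
        · subst hjk
          simp only [Pi.single_eq_same, if_true]
          ring
        · rw [if_neg hjk, Pi.single_eq_of_ne hjk]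
          ring
      rw [Finset.sum_congr rfl h2, Finset.sum_add_distrib]
      by_cases hk : 2 * k ≤ n
      · rw [sum2 n k hk, Finset.sum_ite_eq' (range (n / 2 + 1)) k,
          if_pos (Finset.mem_range.2 (by omega)), if_pos (by omega)]
        have e4 : n + 1 - (2 * k + 1) = n - 2 * k := by omega
        rw [e4]
        have e5 : (C 2 : MvPolynomial ℕ ℝ) = C (2 / (2 * (k : ℝ) + 1)) * C (2 * (k : ℝ) + 1) := by
          rw [← C_mul]
          congr 1
          have : (2 * (k : ℝ) + 1) ≠ 0 := by positivity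
          field_simp
        rw [e5]
        have e6 : (C ((n : ℝ) + 1) : MvPolynomial ℕ ℝ) =
            C (2 * (k : ℝ) + 1) + C ((n : ℝ) - 2 * k) := by
          rw [← C_add]
          congr 1
          ring
        rw [e6]
        ring
      · rw [if_neg (by omega), mul_zero, Finset.sum_ite_eq' (range (n / 2 + 1)) k,
          if_neg (by rw [Finset.mem_range]; omega), zero_add]
        refine Finset.sum_eq_zero fun j _ => ?_
        rw [if_neg (by omega), mul_zero]

end Pool.Agent.Helper34.MVU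
end

/- Helper34.MVU.HfPerm -/
section
/-!
Project MV, block U, module U-W2 (HfPerm): hafnians of symmetric arrays are invariant under
permutations of the list; Wick's rule.

PROOFS.
* `hfL_perm`: by strong induction on the length. Recall
  `hfL A (x :: xs) = Σ_{j < xs.length} A x xs[j] * hfL A (xs.eraseIdx j)` (unfold with `rw [hfL]`).
  It is enough (induction on `List.Perm`) to treat
  (cons) `x :: xs` and `x :: ys` with `xs.Perm ys`: the sum over `j` of `xs` corresponds to the sum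
  over the positions of `ys` through a bijection `j ↦ j'` with `xs[j] = ys[j']` and
  `(xs.eraseIdx j).Perm (ys.eraseIdx j')`, use the induction hypothesis for the shorter lists
  (so do first an induction on a bound `n` of the length, inside it the induction on `Perm`);
  simplest is to write the sum as a sum over the multiset of splits, or to do (cons) itself by
  induction on `xs.Perm ys`, with general statement: for every `F : α → List α → R` such that
  `F y l = F y l'` for `l.Perm l'`, `Σ_j F xs[j] (xs.eraseIdx j)` is invariant under permutations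
  of `xs` (this is proved by induction on `Perm`: nil; cons: split off `j = 0`; swap; trans);
  (swap) `x :: y :: zs` and `y :: x :: zs`: both are
  `A x y * hfL A zs + Σ_{j ≠ k} A x zs[j] * A y zs[k] * hfL A (zs minus j, k)`; after splitting off
  the term `j = 0` and unfolding `hfL A (y :: zs.eraseIdx j)` exchange the two sums.
* `wv_add_single`: `wv m = hfL Cov m.toMultiset.toList`. The list of `single k 1 + m` is a
  permutation of `k :: m.toMultiset.toList` (`Finsupp.toMultiset_add`, `Multiset.coe_toList`,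
  `Multiset.coe_eq_coe`), so by `hfL_perm`
  `wv (single k 1 + m) = Σ_j Cov k l_j * hfL Cov (list minus position j)`, and the list minus
  position `j` is a permutation of the list of `m - single l_j 1`; the value `l` occurs `m l` times.
* `Wick_X_mul`: both sides are linear in `f` (WickLin), so take `f = monomial m c`
  (`MvPolynomial.induction_on'` or `as_sum`); `X k * monomial m c = monomial (single k 1 + m) c`,
  `pderiv l (monomial m c) = monomial (m - single l 1) (c * m l)` (`MvPolynomial.pderiv_monomial`);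
  for `l ∉ m.support` the term is zero. To avoid troubles with `vars` for linear combinations prove
  first the version with a finite set `T` containing the vars: write
  `f = Σ_{m ∈ f.support} monomial m (coeff m f)`; every `m ∈ f.support` has `m.support ⊆ f.vars`.
-/

namespace Pool.Agent.Helper34.MVU

open Finset MvPolynomial Pool.Agent.Helper60.MV

/-- sum over the positions of a list of a function of the entry and of the rest -/
private def sp {α R : Type} [AddCommMonoid R] (F : α → List α → R) (L : List α) : R :=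
  ∑ j : Fin L.length, F (L.get j) (L.eraseIdx j)

private theorem sp_nil {α R : Type} [AddCommMonoid R] (F : α → List α → R) : sp F [] = 0 := by
  unfold sp
  exact Finset.sum_empty

private theorem sp_cons {α R : Type} [AddCommMonoid R] (F : α → List α → R) (x : α)
    (L : List α) : sp F (x :: L) = F x L + sp (fun y l => F y (x :: l)) L := by
  unfold sp
  have h := Fin.sum_univ_succ (n := L.length)
    (fun j : Fin (L.length + 1) => F ((x :: L).get j) ((x :: L).eraseIdx j))
  exact h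

private theorem sp_congr {α R : Type} [AddCommMonoid R] (F G : α → List α → R) (L : List α)
    (h : ∀ y l, l.length + 1 = L.length → F y l = G y l) : sp F L = sp G L := by
  unfold sp
  apply Finset.sum_congr rfl
  intro j _
  apply h
  rw [List.length_eraseIdx, if_pos j.isLt]
  have := j.isLt
  omega

private theorem sp_add {α R : Type} [AddCommMonoid R] (F G : α → List α → R) (L : List α) :
    sp (fun y l => F y l + G y l) L = sp F L + sp G L := by
  unfold sp
  exact Finset.sum_add_distrib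

private theorem sp_mul {α R : Type} [CommSemiring R] (c : R) (F : α → List α → R) (L : List α) :
    c * sp F L = sp (fun y l => c * F y l) L := by
  unfold sp
  exact Finset.mul_sum _ _ _

private theorem sp_perm {α R : Type} [AddCommMonoid R] {L L' : List α} (h : L.Perm L') :
    ∀ F : α → List α → R,
      (∀ y l l', l.length + 1 = L.length → l.Perm l' → F y l = F y l') → sp F L = sp F L' := by
  induction h with
  | nil => intro F _; rfl
  | cons x h ih =>
    rename_i l1 l2
    intro F hF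
    rw [sp_cons, sp_cons, hF x l1 l2 (by simp) h,
      ih (fun y l => F y (x :: l)) (fun y l l' hl hp =>
        hF y (x :: l) (x :: l') (by simp only [List.length_cons]; omega) (hp.cons x))]
  | swap x y l =>
    intro F hF
    rw [sp_cons, sp_cons, sp_cons, sp_cons]
    have h1 : sp (fun w m => F w (y :: x :: m)) l = sp (fun w m => F w (x :: y :: m)) l := by
      apply sp_congr
      intro w m hm
      exact hF w _ _ (by simp only [List.length_cons]; omega) (List.Perm.swap x y m)
    rw [h1]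
    exact add_left_comm _ _ _
  | trans h1 h2 ih1 ih2 =>
    rename_i l1 l2 l3
    intro F hF
    rw [ih1 F hF, ih2 F (fun y l l' hl hp => hF y l l' (by rw [hl, h1.length_eq]) hp)]

private theorem sp_sp_symm {α R : Type} [AddCommMonoid R] (L : List α) :
    ∀ G : α → α → List α → R,
      sp (fun w m => sp (G w) m) L = sp (fun w m => sp (fun v k => G v w k) m) L := by
  induction L with
  | nil => intro G; rw [sp_nil, sp_nil]
  | cons x L ih =>
    intro G
    rw [sp_cons, sp_cons]
    simp only [sp_cons, sp_add]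
    rw [ih (fun w v k => G w v (x :: k))]
    exact add_left_comm _ _ _

private theorem hfL_cons {α R : Type} [CommSemiring R] (A : α → α → R) (x : α) (L : List α) :
    hfL A (x :: L) = sp (fun y l => A x y * hfL A l) L := by
  rw [hfL]
  rfl

private theorem hfL_perm_aux {α R : Type} [CommSemiring R] (A : α → α → R)
    (hA : ∀ a b, A a b = A b a) : ∀ (n : ℕ) {L L' : List α}, L.Perm L' → L.length = n →
      hfL A L = hfL A L' := by
  intro n
  induction n using Nat.strong_induction_on with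
  | _ n ihn =>
    intro L L' h
    induction h with
    | nil => intro _; rfl
    | cons x h _ =>
      rename_i l1 l2
      intro hn
      rw [hfL_cons, hfL_cons]
      apply sp_perm h
      intro y l l' hl hp
      rw [ihn l.length (by simp only [List.length_cons] at hn; omega) hp rfl]
    | swap x y l =>
      intro hn
      rw [hfL_cons, hfL_cons, sp_cons, sp_cons, hA y x]
      congr 1
      simp only [hfL_cons, sp_mul]
      rw [sp_sp_symm l]
      apply sp_congr
      intro w m hm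
      apply sp_congr
      intro v k hk
      ring
    | trans h1 h2 ih1 ih2 =>
      intro hn
      rw [ih1 hn, ih2 (by rw [← h1.length_eq, hn])]

theorem hfL_perm {α R : Type} [CommSemiring R] (A : α → α → R) (hA : ∀ a b, A a b = A b a)
    {L L' : List α} (h : L.Perm L') : hfL A L = hfL A L' :=
  hfL_perm_aux A hA L.length h rfl

theorem Cov_symm (k l : ℕ) : Cov k l = Cov l k := by
  unfold Cov
  rw [show 2 * k + 2 * l = 2 * l + 2 * k from add_comm _ _,
    mul_comm ((2 * k).factorial : ℝ) ((2 * l).factorial : ℝ)]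

private theorem wv_of_coe (L : List ℕ) (m : ℕ →₀ ℕ) (h : (L : Multiset ℕ) = m.toMultiset) :
    wv m = hfL Cov L := by
  unfold wv
  apply hfL_perm Cov Cov_symm
  rw [← Multiset.coe_eq_coe, Multiset.coe_toList, h]

theorem wv_add_single (k : ℕ) (m : ℕ →₀ ℕ) :
    wv (Finsupp.single k 1 + m) =
      ∑ l ∈ m.support, (m l : ℝ) * Cov k l * wv (m - Finsupp.single l 1) := by
  classical
  have hL : ((Finsupp.toMultiset m).toList : Multiset ℕ) = Finsupp.toMultiset m :=
    Multiset.coe_toList _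
  generalize (Finsupp.toMultiset m).toList = L at hL
  rw [wv_of_coe (k :: L) (Finsupp.single k 1 + m) (by
    rw [← Multiset.cons_coe, hL, map_add, Finsupp.toMultiset_single, one_nsmul,
      Multiset.singleton_add])]
  rw [hfL_cons]
  have h1 : sp (fun y l => Cov k y * hfL Cov l) L =
      ∑ j : Fin L.length, Cov k (L.get j) * wv (m - Finsupp.single (L.get j) 1) := by
    unfold sp
    apply Finset.sum_congr rfl
    intro j _
    rw [wv_of_coe (L.eraseIdx j) (m - Finsupp.single (L.get j) 1)]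
    have hp : (L.get j :: L.eraseIdx j).Perm L := List.getElem_cons_eraseIdx_perm j.isLt
    have hp' : (L.get j) ::ₘ ((L.eraseIdx j : List ℕ) : Multiset ℕ) = Finsupp.toMultiset m := by
      rw [Multiset.cons_coe, ← hL, Multiset.coe_eq_coe]
      exact hp
    have hmem : L.get j ∈ m.support := by
      rw [← Finsupp.mem_toMultiset, ← hL]
      exact Multiset.mem_coe.mpr (List.get_mem L j)
    have hm : m = Finsupp.single (L.get j) 1 + (m - Finsupp.single (L.get j) 1) := by
      ext a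
      rw [Finsupp.add_apply, Finsupp.tsub_apply]
      have h0 : 1 ≤ m (L.get j) := Nat.one_le_iff_ne_zero.mpr (Finsupp.mem_support_iff.mp hmem)
      by_cases ha : L.get j = a
      · rw [← ha, Finsupp.single_eq_same]
        omega
      · rw [Finsupp.single_eq_of_ne (Ne.symm ha)]
        omega
    have hm' : Finsupp.toMultiset m =
        (L.get j) ::ₘ Finsupp.toMultiset (m - Finsupp.single (L.get j) 1) := by
      conv_lhs => rw [hm]
      rw [map_add, Finsupp.toMultiset_single, one_nsmul, Multiset.singleton_add]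
    rw [hm', Multiset.cons_inj_right] at hp'
    exact hp'
  rw [h1]
  have h3 : ∑ j : Fin L.length, Cov k (L.get j) * wv (m - Finsupp.single (L.get j) 1) =
      (Multiset.map (fun l => Cov k l * wv (m - Finsupp.single l 1)) m.toMultiset).sum := by
    rw [← hL, Multiset.map_coe, Multiset.sum_coe]
    exact Fin.sum_univ_fun_getElem L (fun l => Cov k l * wv (m - Finsupp.single l 1))
  rw [h3, Finset.sum_multiset_map_count, Finsupp.toFinset_toMultiset]
  apply Finset.sum_congr rfl
  intro l _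
  rw [Finsupp.count_toMultiset, nsmul_eq_mul]
  ring

private theorem Wick_X_mul_monomial (k : ℕ) (m : ℕ →₀ ℕ) (c : ℝ) (N : ℕ)
    (hN : ∀ l ∈ m.support, l < N) :
    Wick (X k * monomial m c) = ∑ l ∈ range N, Cov k l * Wick (pderiv l (monomial m c)) := by
  have h1 : (X k * monomial m c : MvPolynomial ℕ ℝ) = monomial (Finsupp.single k 1 + m) c := by
    rw [MvPolynomial.X, MvPolynomial.monomial_mul, one_mul]
  rw [h1, Wick_monomial, wv_add_single, Finset.mul_sum]
  have h2 : ∀ l ∈ range N, Cov k l * Wick (pderiv l (monomial m c)) =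
      c * ((m l : ℝ) * Cov k l * wv (m - Finsupp.single l 1)) := by
    intro l _
    rw [MvPolynomial.pderiv_monomial, Wick_monomial]
    ring
  rw [Finset.sum_congr rfl h2]
  apply Finset.sum_subset
  · intro l hl
    exact Finset.mem_range.mpr (hN l hl)
  · intro l _ hl
    rw [Finsupp.notMem_support_iff.mp hl]
    simp

theorem Wick_X_mul (k : ℕ) (f : MvPolynomial ℕ ℝ) (N : ℕ) (hN : ∀ l ∈ f.vars, l < N) :
    Wick (X k * f) = ∑ l ∈ range N, Cov k l * Wick (pderiv l f) := by
  classical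
  have hf : f = ∑ m ∈ f.support, monomial m (f.coeff m) :=
    (MvPolynomial.support_sum_monomial_coeff f).symm
  have h1 : Wick (X k * f) = ∑ m ∈ f.support, Wick (X k * monomial m (f.coeff m)) := by
    conv_lhs => rw [hf]
    rw [Finset.mul_sum, Wick_sum]
  have h2 : ∀ l, Wick (pderiv l f) =
      ∑ m ∈ f.support, Wick (pderiv l (monomial m (f.coeff m))) := by
    intro l
    conv_lhs => rw [hf]
    rw [map_sum, Wick_sum]
  rw [h1]
  simp only [h2, Finset.mul_sum]
  rw [Finset.sum_comm]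
  apply Finset.sum_congr rfl
  intro m hm
  apply Wick_X_mul_monomial
  intro l hl
  apply hN l
  rw [MvPolynomial.mem_vars_iff_mem_support]
  exact ⟨m, hm, hl⟩

end Pool.Agent.Helper34.MVU
end

/- Helper34.MVU.Zeta1 -/
section
/-!
Project MV, block U, module U-As2a (Zeta1): `Σ_{i ≥ 1} (ζ(2i) - 1)/i = log 2` and bounds for
`zet M = Σ_{n ≥ 0} 1/(n+1)^M`.

PROOFS.
* `zet_sub_one`: split off `n = 0`: `zet M - 1 = Σ_{n ≥ 0} 1/(n+2)^M` (`M ≥ 2`).
* `one_le_zet`, `zet_le_two`: `zet M ≤ zet 2 = π²/6 ≤ 2` (`hasSum_zeta_two`, `Real.pi_lt_d2`), or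
  telescoping `1/(n+2)^2 ≤ 1/(n+1) - 1/(n+2)`.
* `zet_sub_one_le`: `1/(n+2)^(2(i+1)) = 1/(n+2)^2 (1/(n+2)^2)^i ≤ 1/(n+2)^2 (1/4)^i`, so
  `zet (2(i+1)) - 1 ≤ (zet 2 - 1) (1/4)^i ≤ (1/4)^i`.
* `hasSum_log_two`: for every `n`, `HasSum (fun i => (1/(n+2)^2)^(i+1)/(i+1)) (-log (1 - 1/(n+2)^2))`
  (`Real.hasSum_pow_div_log_of_abs_lt_one`). All terms are nonnegative, so the double sum may be
  computed in both orders; `Σ_{n<N} -log (1 - 1/(n+2)^2) = log (2 (N+1)/(N+2)) → log 2`
  (telescoping: `1 - 1/(n+2)^2 = (n+1)(n+3)/(n+2)^2`), by induction on `N`.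
  For nonnegative terms a series whose partial sums converge to `log 2` has sum `log 2`
  (`hasSum_iff_tendsto_nat_of_nonneg`).
-/

namespace Pool.Agent.Helper34.MVU

open Finset Filter Topology Pool.Agent.Helper60.MV

theorem zet_sub_one (M : ℕ) (hM : 2 ≤ M) : HasSum (fun n : ℕ => 1 / ((n : ℝ) + 2) ^ M) (zet M - 1) := by
  have h1 : Summable (fun n : ℕ => 1 / ((n : ℝ) + 1) ^ M) := by
    have h := (summable_nat_add_iff 1).2 (Real.summable_one_div_nat_pow.2 (show 1 < M by omega))
    refine h.congr (fun n => ?_)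
    push_cast
    rfl
  have h2 : HasSum (fun n : ℕ => 1 / ((n : ℝ) + 1) ^ M) (zet M) := h1.hasSum
  have h3 := (hasSum_nat_add_iff' 1).2 h2
  have h4 : zet M - ∑ i ∈ range 1, 1 / ((i : ℝ) + 1) ^ M = zet M - 1 := by simp
  rw [h4] at h3
  have h5 : (fun n : ℕ => 1 / ((n : ℝ) + 2) ^ M) = fun n : ℕ => 1 / (((n + 1 : ℕ) : ℝ) + 1) ^ M := by
    funext n
    push_cast
    congr 2
    ring
  rw [h5]
  exact h3

theorem one_le_zet (M : ℕ) (hM : 2 ≤ M) : 1 ≤ zet M := by
  have h := (zet_sub_one M hM).nonneg (fun n => by positivity)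
  linarith

private theorem zet_two_le : zet 2 - 1 ≤ 1 := by
  have h1 : HasSum (fun n : ℕ => 1 / ((n : ℝ) + 1) ^ 2) (zet 2) := by
    have h := (summable_nat_add_iff 1).2 (Real.summable_one_div_nat_pow.2 (show 1 < 2 by omega))
    have h' : Summable (fun n : ℕ => 1 / ((n : ℝ) + 1) ^ 2) := by
      refine h.congr (fun n => ?_)
      push_cast
      rfl
    exact h'.hasSum
  have h2 : HasSum (fun n : ℕ => 1 / ((n : ℝ) + 1) ^ 2) (Real.pi ^ 2 / 6) := by
    have h := (hasSum_nat_add_iff' 1).2 hasSum_zeta_two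
    have h4 : Real.pi ^ 2 / 6 - ∑ i ∈ range 1, (1 : ℝ) / (i : ℝ) ^ 2 = Real.pi ^ 2 / 6 := by simp
    rw [h4] at h
    have h5 : (fun n : ℕ => 1 / ((n : ℝ) + 1) ^ 2) = fun n : ℕ => (1 : ℝ) / ((n + 1 : ℕ) : ℝ) ^ 2 := by
      funext n
      push_cast
      rfl
    rw [h5]
    exact h
  have h3 : zet 2 = Real.pi ^ 2 / 6 := h1.unique h2
  have h4 := Real.pi_lt_d2
  have h5 := Real.pi_pos
  rw [h3]
  nlinarith

private theorem term_le_pv1 (M : ℕ) (hM : 2 ≤ M) : zet M - 1 ≤ 1 := by
  refine le_trans ?_ zet_two_le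
  refine hasSum_le ?_ (zet_sub_one M hM) (zet_sub_one 2 le_rfl)
  intro n
  have h0 : (0 : ℝ) ≤ n := Nat.cast_nonneg n
  apply one_div_le_one_div_of_le (by positivity)
  exact pow_le_pow_right₀ (by linarith) hM

theorem zet_le_two (M : ℕ) (hM : 2 ≤ M) : zet M ≤ 2 := by
  have h := term_le_pv1 M hM
  linarith

theorem zet_sub_one_le (i : ℕ) : zet (2 * (i + 1)) - 1 ≤ (1 / 4) ^ i := by
  have h1 : zet (2 * (i + 1)) - 1 ≤ (zet 2 - 1) * (1 / 4) ^ i := by
    refine hasSum_le ?_ (zet_sub_one (2 * (i + 1)) (by omega))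
      ((zet_sub_one 2 le_rfl).mul_right ((1 / 4 : ℝ) ^ i))
    intro n
    have h0 : (0 : ℝ) ≤ n := Nat.cast_nonneg n
    have h2 : (1 : ℝ) / ((n : ℝ) + 2) ^ 2 ≤ 1 / 4 := by
      apply one_div_le_one_div_of_le (by norm_num)
      nlinarith
    have h3 : 1 / ((n : ℝ) + 2) ^ (2 * (i + 1)) =
        1 / ((n : ℝ) + 2) ^ 2 * (1 / ((n : ℝ) + 2) ^ 2) ^ i := by
      rw [one_div_pow, ← pow_mul, one_div_mul_one_div, ← pow_add]
      congr 2
      ring
    rw [h3]
    apply mul_le_mul_of_nonneg_left _ (by positivity)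
    exact pow_le_pow_left₀ (by positivity) h2 i
  refine h1.trans ?_
  have h2 := zet_two_le
  have h3 : (0 : ℝ) ≤ (1 / 4 : ℝ) ^ i := by positivity
  nlinarith

private theorem tele (N : ℕ) : ∑ n ∈ range N, (-Real.log (1 - 1 / ((n : ℝ) + 2) ^ 2)) =
    Real.log 2 - Real.log (((N : ℝ) + 2) / ((N : ℝ) + 1)) := by
  induction N with
  | zero => simp
  | succ N ih =>
    rw [sum_range_succ, ih]
    have h0 : (0 : ℝ) ≤ N := Nat.cast_nonneg N
    have h1 : 1 - 1 / ((N : ℝ) + 2) ^ 2 = (((N : ℝ) + 1) / ((N : ℝ) + 2)) * (((N : ℝ) + 3) / ((N : ℝ) + 2)) := by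
      field_simp
      ring
    rw [h1, Real.log_mul (by positivity) (by positivity), Real.log_div (by positivity) (by positivity),
      Real.log_div (by positivity) (by positivity), Real.log_div (by positivity) (by positivity)]
    push_cast
    have h2 : (N : ℝ) + 1 + 2 = N + 3 := by ring
    have h3 : (N : ℝ) + 1 + 1 = N + 2 := by ring
    rw [h2, h3, Real.log_div (by positivity) (by positivity)]
    ring

theorem hasSum_log_two :
    HasSum (fun i : ℕ => (zet (2 * (i + 1)) - 1) / ((i : ℝ) + 1)) (Real.log 2) := by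
  have hx : ∀ n : ℕ, |1 / ((n : ℝ) + 2) ^ 2| < 1 := by
    intro n
    have h0 : (0 : ℝ) ≤ n := Nat.cast_nonneg n
    rw [abs_of_nonneg (by positivity), div_lt_one (by positivity)]
    nlinarith
  have h1 : ∀ n : ℕ, HasSum (fun i : ℕ => (1 / ((n : ℝ) + 2) ^ 2) ^ (i + 1) / ((i : ℝ) + 1))
      (-Real.log (1 - 1 / ((n : ℝ) + 2) ^ 2)) := fun n =>
    Real.hasSum_pow_div_log_of_abs_lt_one (hx n)
  have h2 : HasSum (fun n : ℕ => -Real.log (1 - 1 / ((n : ℝ) + 2) ^ 2)) (Real.log 2) := by
    rw [hasSum_iff_tendsto_nat_of_nonneg]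
    · simp only [tele]
      have h3 : Tendsto (fun N : ℕ => ((N : ℝ) + 2) / ((N : ℝ) + 1)) atTop (𝓝 1) := by
        have h4 : Tendsto (fun N : ℕ => 1 + 1 / ((N : ℝ) + 1)) atTop (𝓝 (1 + 0)) :=
          tendsto_const_nhds.add tendsto_one_div_add_atTop_nhds_zero_nat
        rw [add_zero] at h4
        refine h4.congr (fun N => ?_)
        have h0 : (0 : ℝ) ≤ N := Nat.cast_nonneg N
        field_simp
        ring
      have h5 := (Real.continuousAt_log one_ne_zero).tendsto.comp h3
      rw [Real.log_one] at h5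
      have h6 := (tendsto_const_nhds (x := Real.log 2)).sub h5
      rw [sub_zero] at h6
      exact h6
    · intro n
      exact (h1 n).nonneg (fun i => by positivity)
  let f : ℕ × ℕ → ℝ := fun p => (1 / ((p.1 : ℝ) + 2) ^ 2) ^ (p.2 + 1) / ((p.2 : ℝ) + 1)
  have hf0 : 0 ≤ f := fun p => by
    show 0 ≤ (1 / ((p.1 : ℝ) + 2) ^ 2) ^ (p.2 + 1) / ((p.2 : ℝ) + 1)
    positivity
  have hs : Summable f := by
    rw [summable_prod_of_nonneg hf0]
    refine ⟨fun n => (h1 n).summable, ?_⟩
    have : (fun n : ℕ => ∑' i, f (n, i)) = fun n : ℕ => -Real.log (1 - 1 / ((n : ℝ) + 2) ^ 2) := by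
      funext n
      exact (h1 n).tsum_eq
    rw [this]
    exact h2.summable
  have hS : HasSum f (Real.log 2) := by
    have h3 := hs.hasSum.prod_fiberwise h1
    rw [h2.unique h3]
    exact hs.hasSum
  have hS' : HasSum (fun p : ℕ × ℕ => f (p.2, p.1)) (Real.log 2) :=
    (Equiv.prodComm ℕ ℕ).hasSum_iff.2 hS
  refine hS'.prod_fiberwise (fun i => ?_)
  have h4 := (zet_sub_one (2 * (i + 1)) (by omega)).div_const ((i : ℝ) + 1)
  have h5 : (fun n : ℕ => f (n, i)) = fun n : ℕ => 1 / ((n : ℝ) + 2) ^ (2 * (i + 1)) / ((i : ℝ) + 1) := by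
    funext n
    show (1 / ((n : ℝ) + 2) ^ 2) ^ (i + 1) / ((i : ℝ) + 1) = _
    rw [one_div_pow, ← pow_mul]
  rw [show (fun c : ℕ => f ((i, c).2, (i, c).1)) = fun n : ℕ => f (n, i) from rfl, h5]
  exact h4

end Pool.Agent.Helper34.MVU
end

/- Helper34.MVU.CovSum -/
section
/-!
Project MV, block U, module U-U1b (CovSum): the quadratic form of the covariance.

PROOF. `Cov k l * (2 y^(2k+1)/(2k+1)) * (2 y'^(2l+1)/(2l+1))`
`= 4 ζ(M) (M-1)!/((2k+1)! (2l+1)!) y^(2k+1) y'^(2l+1) = (4 ζ(M)/M) (M choose 2k+1) y^(2k+1) y'^(2l+1)`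
with `M = 2k+2l+2 = 2(i+1)`, `i = k + l`. All terms are nonnegative, `ζ(M) ≤ 2` (`zet_le_two`), so
the sum is at most `Σ_{i < 2 K0} (4/(i+1)) Σ_{k+l=i} (M choose 2k+1) y^(2k+1) y'^(2l+1)` and
`Σ_{k+l=i} (M choose 2k+1) y^(2k+1) y'^(2l+1) = 1/2 ((y+y')^M - (y'-y)^M) ≤ 1/2 (y+y')^M`
(binomial theorem for `(y'+y)^M - (y'-y)^M`: the even exponents of `y` cancel; `M` is even, so
`(y'-y)^M ≥ 0`). With `z = (y+y')^2 < 1` the total is at most
`Σ_i (2/(i+1)) z^(i+1) = -2 log (1-z) = Phi (y+y')` (`Real.hasSum_pow_div_log_of_abs_lt_one`,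
`sum_le_hasSum`).
-/

namespace Pool.Agent.Helper34.MVU

open Finset Filter Topology Pool.Agent.Helper60.MV

private theorem split_even_odd (g : ℕ → ℝ) (n : ℕ) :
    ∑ m ∈ range (2 * n + 1), g m =
      ∑ k ∈ range (n + 1), g (2 * k) + ∑ k ∈ range n, g (2 * k + 1) := by
  induction n with
  | zero => simp
  | succ n ih =>
    have e : 2 * (n + 1) + 1 = (2 * n + 1) + 1 + 1 := by ring
    rw [e, Finset.sum_range_succ, Finset.sum_range_succ, ih,
      Finset.sum_range_succ (fun k => g (2 * k)) (n + 1),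
      Finset.sum_range_succ (fun k => g (2 * k + 1)) n]
    have e2 : 2 * (n + 1) = 2 * n + 1 + 1 := by ring
    rw [e2]
    ring

private theorem odd_part (i : ℕ) (y y' : ℝ) :
    ∑ p ∈ antidiagonal i, ((2 * (i + 1)).choose (2 * p.1 + 1) : ℝ) * y ^ (2 * p.1 + 1) *
      y' ^ (2 * p.2 + 1) ≤ 1 / 2 * (y + y') ^ (2 * (i + 1)) := by
  have h1 : (y + y') ^ (2 * (i + 1)) = ∑ m ∈ range (2 * (i + 1) + 1),
      y ^ m * y' ^ (2 * (i + 1) - m) * ((2 * (i + 1)).choose m : ℝ) := add_pow _ _ _
  have h2 : (-y + y') ^ (2 * (i + 1)) = ∑ m ∈ range (2 * (i + 1) + 1),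
      (-y) ^ m * y' ^ (2 * (i + 1) - m) * ((2 * (i + 1)).choose m : ℝ) := add_pow _ _ _
  rw [split_even_odd] at h1 h2
  have h3 : 0 ≤ (-y + y') ^ (2 * (i + 1)) := by
    rw [pow_mul]; positivity
  have e1 : ∀ k, (-y) ^ (2 * k) = y ^ (2 * k) := by
    intro k; rw [pow_mul, pow_mul, neg_sq]
  have e2 : ∀ k, (-y) ^ (2 * k + 1) = - y ^ (2 * k + 1) := by
    intro k; rw [pow_succ, e1, pow_succ]; ring
  have h4 : ∑ k ∈ range (i + 1), (-y) ^ (2 * k + 1) * y' ^ (2 * (i + 1) - (2 * k + 1)) *
      ((2 * (i + 1)).choose (2 * k + 1) : ℝ) = - ∑ k ∈ range (i + 1),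
      y ^ (2 * k + 1) * y' ^ (2 * (i + 1) - (2 * k + 1)) *
      ((2 * (i + 1)).choose (2 * k + 1) : ℝ) := by
    rw [← Finset.sum_neg_distrib]
    refine Finset.sum_congr rfl (fun k _ => ?_)
    rw [e2]; ring
  have h5 : ∑ k ∈ range (i + 1 + 1), (-y) ^ (2 * k) * y' ^ (2 * (i + 1) - (2 * k)) *
      ((2 * (i + 1)).choose (2 * k) : ℝ) = ∑ k ∈ range (i + 1 + 1),
      y ^ (2 * k) * y' ^ (2 * (i + 1) - (2 * k)) * ((2 * (i + 1)).choose (2 * k) : ℝ) := by
    refine Finset.sum_congr rfl (fun k _ => ?_)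
    rw [e1]
  rw [h4, h5] at h2
  have h6 : ∑ p ∈ antidiagonal i, ((2 * (i + 1)).choose (2 * p.1 + 1) : ℝ) *
      y ^ (2 * p.1 + 1) * y' ^ (2 * p.2 + 1) = ∑ k ∈ range (i + 1),
      y ^ (2 * k + 1) * y' ^ (2 * (i + 1) - (2 * k + 1)) *
      ((2 * (i + 1)).choose (2 * k + 1) : ℝ) := by
    rw [Finset.Nat.sum_antidiagonal_eq_sum_range_succ_mk]
    refine Finset.sum_congr rfl (fun k hk => ?_)
    rw [Finset.mem_range] at hk
    have e : 2 * (i + 1) - (2 * k + 1) = 2 * (i - k) + 1 := by omega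
    rw [e]
    ring
  rw [h6]
  linarith

private theorem term_le_pv2 (k l : ℕ) (y y' : ℝ) (hy : 0 ≤ y) (hy' : 0 ≤ y') :
    Cov k l * (2 * y ^ (2 * k + 1) / (2 * (k : ℝ) + 1)) *
      (2 * y' ^ (2 * l + 1) / (2 * (l : ℝ) + 1)) ≤
      4 / (((k + l : ℕ) : ℝ) + 1) * (((2 * (k + l + 1)).choose (2 * k + 1) : ℝ) *
        y ^ (2 * k + 1) * y' ^ (2 * l + 1)) := by
  have hch : ((2 * (k + l + 1)).choose (2 * k + 1) : ℝ) =
      ((2 * k + 2 * l + 2).factorial : ℝ) / (((2 * k + 1).factorial : ℝ) *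
        ((2 * l + 1).factorial : ℝ)) := by
    have e : 2 * (k + l + 1) = (2 * k + 1) + (2 * l + 1) := by ring
    rw [e, Nat.cast_add_choose]
    have e2 : 2 * k + 1 + (2 * l + 1) = 2 * k + 2 * l + 2 := by ring
    rw [e2]
  have hf1 : ((2 * k + 1).factorial : ℝ) = (2 * (k : ℝ) + 1) * ((2 * k).factorial : ℝ) := by
    rw [Nat.factorial_succ]; push_cast; ring
  have hf2 : ((2 * l + 1).factorial : ℝ) = (2 * (l : ℝ) + 1) * ((2 * l).factorial : ℝ) := by
    rw [Nat.factorial_succ]; push_cast; ring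
  have hf3 : ((2 * k + 2 * l + 2).factorial : ℝ) = 2 * ((k : ℝ) + l + 1) *
      ((2 * k + 2 * l + 1).factorial : ℝ) := by
    rw [Nat.factorial_succ]; push_cast; ring
  have hz : zet (2 * k + 2 * l + 2) ≤ 2 := zet_le_two _ (by omega)
  have hp1 : (0 : ℝ) < ((2 * k).factorial : ℝ) := by exact_mod_cast Nat.factorial_pos _
  have hp2 : (0 : ℝ) < ((2 * l).factorial : ℝ) := by exact_mod_cast Nat.factorial_pos _
  have hp3 : (0 : ℝ) < ((2 * k + 2 * l + 1).factorial : ℝ) := by
    exact_mod_cast Nat.factorial_pos _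
  have hA : 0 ≤ 4 * ((2 * k + 2 * l + 1).factorial : ℝ) /
      (((2 * k + 1).factorial : ℝ) * ((2 * l + 1).factorial : ℝ)) * y ^ (2 * k + 1) *
        y' ^ (2 * l + 1) := by positivity
  have e1 : Cov k l * (2 * y ^ (2 * k + 1) / (2 * (k : ℝ) + 1)) *
      (2 * y' ^ (2 * l + 1) / (2 * (l : ℝ) + 1)) =
      (4 * ((2 * k + 2 * l + 1).factorial : ℝ) /
      (((2 * k + 1).factorial : ℝ) * ((2 * l + 1).factorial : ℝ)) * y ^ (2 * k + 1) *
        y' ^ (2 * l + 1)) * zet (2 * k + 2 * l + 2) := by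
    unfold Cov
    rw [hf1, hf2]
    field_simp
    ring
  have e2 : 4 / (((k + l : ℕ) : ℝ) + 1) * (((2 * (k + l + 1)).choose (2 * k + 1) : ℝ) *
        y ^ (2 * k + 1) * y' ^ (2 * l + 1)) =
      (4 * ((2 * k + 2 * l + 1).factorial : ℝ) /
      (((2 * k + 1).factorial : ℝ) * ((2 * l + 1).factorial : ℝ)) * y ^ (2 * k + 1) *
        y' ^ (2 * l + 1)) * 2 := by
    rw [hch, hf3]
    push_cast
    have h0 : (0 : ℝ) < (k : ℝ) + l + 1 := by positivity
    field_simp
  rw [e1, e2]
  exact mul_le_mul_of_nonneg_left hz hA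

theorem cov_sum_le (K0 : ℕ) (y y' : ℝ) (hy : 0 ≤ y) (hy' : 0 ≤ y') (h : y + y' < 1) :
    ∑ k ∈ range K0, ∑ l ∈ range K0, Cov k l * (2 * y ^ (2 * k + 1) / (2 * (k : ℝ) + 1)) *
      (2 * y' ^ (2 * l + 1) / (2 * (l : ℝ) + 1)) ≤ Phi (y + y') := by
  have hG0 : ∀ i : ℕ, ∀ p : ℕ × ℕ, 0 ≤ 4 / ((i : ℝ) + 1) *
      (((2 * (i + 1)).choose (2 * p.1 + 1) : ℝ) * y ^ (2 * p.1 + 1) * y' ^ (2 * p.2 + 1)) := by
    intro i p; positivity
  have h1 : ∑ k ∈ range K0, ∑ l ∈ range K0, Cov k l *
      (2 * y ^ (2 * k + 1) / (2 * (k : ℝ) + 1)) * (2 * y' ^ (2 * l + 1) / (2 * (l : ℝ) + 1)) ≤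
      ∑ p ∈ range K0 ×ˢ range K0, 4 / (((p.1 + p.2 : ℕ) : ℝ) + 1) *
        (((2 * (p.1 + p.2 + 1)).choose (2 * p.1 + 1) : ℝ) *
        y ^ (2 * p.1 + 1) * y' ^ (2 * p.2 + 1)) := by
    rw [Finset.sum_product]
    exact Finset.sum_le_sum (fun k _ => Finset.sum_le_sum (fun l _ => term_le_pv2 k l y y' hy hy'))
  have h2 : ∑ p ∈ range K0 ×ˢ range K0, 4 / (((p.1 + p.2 : ℕ) : ℝ) + 1) *
        (((2 * (p.1 + p.2 + 1)).choose (2 * p.1 + 1) : ℝ) *
        y ^ (2 * p.1 + 1) * y' ^ (2 * p.2 + 1)) ≤ ∑ i ∈ range (2 * K0),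
      ∑ p ∈ antidiagonal i, 4 / ((i : ℝ) + 1) * (((2 * (i + 1)).choose (2 * p.1 + 1) : ℝ) *
        y ^ (2 * p.1 + 1) * y' ^ (2 * p.2 + 1)) := by
    rw [← Finset.sum_fiberwise_of_maps_to (g := fun p : ℕ × ℕ => p.1 + p.2)
      (t := range (2 * K0))]
    · refine Finset.sum_le_sum (fun i _ => ?_)
      have e : ∑ p ∈ (range K0 ×ˢ range K0).filter (fun p => p.1 + p.2 = i),
          4 / (((p.1 + p.2 : ℕ) : ℝ) + 1) *
          (((2 * (p.1 + p.2 + 1)).choose (2 * p.1 + 1) : ℝ) *
          y ^ (2 * p.1 + 1) * y' ^ (2 * p.2 + 1)) =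
          ∑ p ∈ (range K0 ×ˢ range K0).filter (fun p => p.1 + p.2 = i),
          4 / ((i : ℝ) + 1) * (((2 * (i + 1)).choose (2 * p.1 + 1) : ℝ) *
          y ^ (2 * p.1 + 1) * y' ^ (2 * p.2 + 1)) := by
        refine Finset.sum_congr rfl (fun p hp => ?_)
        rw [Finset.mem_filter] at hp
        rw [hp.2]
      rw [e]
      refine Finset.sum_le_sum_of_subset_of_nonneg ?_ (fun p _ _ => hG0 i p)
      intro p hp
      rw [Finset.mem_filter] at hp
      rw [Finset.HasAntidiagonal.mem_antidiagonal]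
      exact hp.2
    · intro p hp
      rw [Finset.mem_product, Finset.mem_range, Finset.mem_range] at hp
      rw [Finset.mem_range]
      omega
  have h3 : ∑ i ∈ range (2 * K0),
      ∑ p ∈ antidiagonal i, 4 / ((i : ℝ) + 1) * (((2 * (i + 1)).choose (2 * p.1 + 1) : ℝ) *
        y ^ (2 * p.1 + 1) * y' ^ (2 * p.2 + 1)) ≤
      ∑ i ∈ range (2 * K0), 2 * (((y + y') ^ 2) ^ (i + 1) / ((i : ℝ) + 1)) := by
    refine Finset.sum_le_sum (fun i _ => ?_)
    rw [← Finset.mul_sum]
    have h := mul_le_mul_of_nonneg_left (odd_part i y y')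
      (by positivity : (0 : ℝ) ≤ 4 / ((i : ℝ) + 1))
    refine h.trans (le_of_eq ?_)
    rw [pow_mul]
    field_simp
    norm_num
  have hz0 : 0 ≤ (y + y') ^ 2 := by positivity
  have hz1 : (y + y') ^ 2 < 1 := by
    have : 0 ≤ y + y' := add_nonneg hy hy'
    nlinarith
  have hs := (Real.hasSum_pow_div_log_of_abs_lt_one
    (x := (y + y') ^ 2) (by rw [abs_of_nonneg hz0]; exact hz1)).mul_left 2
  have h4 : ∑ i ∈ range (2 * K0), 2 * (((y + y') ^ 2) ^ (i + 1) / ((i : ℝ) + 1)) ≤
      2 * (-Real.log (1 - (y + y') ^ 2)) :=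
    sum_le_hasSum _ (fun i _ => by positivity) hs
  have h5 : Phi (y + y') = 2 * (-Real.log (1 - (y + y') ^ 2)) := by
    unfold Phi; ring
  rw [h5]
  exact h1.trans (h2.trans (h3.trans h4))

end Pool.Agent.Helper34.MVU
end

/- Helper34.MVU.WickProd -/
section
/-!
Project MV, block U, module U-U1 (WickProd): the Wick functional of a product of polynomials `qP`.

PROOF. Let `L = [(n_1,r_1), …, (n_s,r_s)]`, `K0` larger than all `n_a`, `J = n_1 + … + n_s`,
`θ k = Σ_a 2 r_a^(2k+1)/(2k+1)` and `ell = Σ_{k<K0} C (θ k) * X k`,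
`T J = Σ_{j ≤ J} C (1/j!) * ell^j`.
(1) CLAIM: for all `m` and all exponents `n` (with all `n_a ≤` the given ones, or simply with
  `n_a < K0`) and all `J ≥ |m|` (`|m| = Σ m`): `(Π r_a^{n_a}) coeff_m (Π qP n_a) ≤ coeff_m (T J)`.
  Induction on `|m|`. `m = 0`: `coeff_0 (Π qP n_a) = Π [n_a = 0] ≤ 1 = coeff_0 (T J)`
  (`coeff_zero_qP`; if some `n_a ≠ 0` the left side is `0`). `m ≠ 0`: choose `k` with `m_k ≥ 1`. If
  `k ≥ K0` the left side is zero because `X k` does not occur in the `qP n_a` (`vars_qP`), and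
  the right side is `≥ 0`. Otherwise use `m_k coeff_m f = coeff_{m-e_k} (∂_k f)`
  (`pderiv` of a monomial) and `pderiv_qP`:
  `m_k (Π r^{n}) coeff_m (Π qP n_a) = Σ_a (2/(2k+1)) (Π r^n) coeff_{m-e_k} (qP (n_a-2k-1) Π_{b≠a} qP n_b)`
  (over `a` with `2k+1 ≤ n_a`) `≤ Σ_a (2 r_a^(2k+1)/(2k+1)) coeff_{m-e_k} (T (J-1))`
  `= θ_k coeff_{m-e_k} (T (J-1)) = coeff_{m-e_k} (∂_k (T J)) = m_k coeff_m (T J)`.
(2) `Wick (Π qP n_a) Π r_a^{n_a} ≤ Wick (T J)` (for `J ≥` the degree of the left side; `Wick_mono`).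
(3) `Wick (ell^(j+2)) = (j+1) V Wick (ell^j)`, `V = Σ_{k,l<K0} θ_k θ_l Cov k l` (`Wick_X_mul`,
  `∂_l (ell^(j+1)) = (j+1) θ_l ell^j`), `Wick ell = 0`, so `Wick (ell^(2i)) = (2i-1)!! V^i`,
  `Wick (ell^(2i))/(2i)! = V^i/(2^i i!)`, odd powers give `0`, and
  `Wick (T J) ≤ Σ_i (V/2)^i/i! ≤ exp (V/2)` (`Real.sum_le_exp_of_nonneg`).
(4) `V = Σ_{a,b} Σ_{k,l} Cov k l (2 r_a^(2k+1)/(2k+1)) (2 r_b^(2l+1)/(2l+1)) ≤ Σ_{a,b} Phi (r_a+r_b)`
  (`cov_sum_le`; `r_a + r_b < 1`), so `exp (V/2) ≤ GG (L.map Prod.snd)`.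
It may be convenient to work with `Fin L.length` (`List.prod_ofFn`, `List.sum_ofFn`).
-/

namespace Pool.Agent.Helper34.MVU

open Finset MvPolynomial Pool.Agent.Helper60.MV

/-! ### the coefficientwise order -/

private def cnn (f : MvPolynomial ℕ ℝ) : Prop := ∀ m, 0 ≤ f.coeff m

private def cle (f g : MvPolynomial ℕ ℝ) : Prop := ∀ m, f.coeff m ≤ g.coeff m

private theorem cnn_mul {f g : MvPolynomial ℕ ℝ} (hf : cnn f) (hg : cnn g) : cnn (f * g) := by
  classical
  intro m
  rw [MvPolynomial.coeff_mul]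
  exact Finset.sum_nonneg fun p _ => mul_nonneg (hf _) (hg _)

private theorem cle_mul {f f' g g' : MvPolynomial ℕ ℝ} (h1 : cle f f') (h2 : cle g g')
    (hg : cnn g) (hf' : cnn f') : cle (f * g) (f' * g') := by
  classical
  intro m
  rw [MvPolynomial.coeff_mul, MvPolynomial.coeff_mul]
  exact Finset.sum_le_sum fun p _ => mul_le_mul (h1 _) (h2 _) (hg _) (hf' _)

private theorem cnn_one : cnn 1 := by
  classical
  intro m
  rw [MvPolynomial.coeff_one]
  split_ifs <;> norm_num

private theorem cnn_pow {f : MvPolynomial ℕ ℝ} (hf : cnn f) (j : ℕ) : cnn (f ^ j) := by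
  induction j with
  | zero =>
    rw [pow_zero]
    exact cnn_one
  | succ j ih =>
    rw [pow_succ]
    exact cnn_mul ih hf

private theorem cnn_C_mul {c : ℝ} (hc : 0 ≤ c) {f : MvPolynomial ℕ ℝ} (hf : cnn f) :
    cnn (C c * f) := by
  intro m
  rw [MvPolynomial.coeff_C_mul]
  exact mul_nonneg hc (hf m)

private theorem cnn_X (k : ℕ) : cnn (X k) := by
  classical
  intro m
  rw [MvPolynomial.coeff_X]
  split_ifs <;> norm_num

private theorem cnn_sum {ι : Type} (s : Finset ι) (f : ι → MvPolynomial ℕ ℝ)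
    (h : ∀ i ∈ s, cnn (f i)) : cnn (∑ i ∈ s, f i) := by
  intro m
  rw [MvPolynomial.coeff_sum]
  exact Finset.sum_nonneg fun i hi => h i hi m

private theorem cnn_add {f g : MvPolynomial ℕ ℝ} (hf : cnn f) (hg : cnn g) : cnn (f + g) := by
  intro m
  rw [MvPolynomial.coeff_add]
  exact add_nonneg (hf m) (hg m)

/-! ### the truncated exponential -/

private noncomputable def Es (N : ℕ) (f : MvPolynomial ℕ ℝ) : MvPolynomial ℕ ℝ :=
  ∑ j ∈ range N, C (1 / (j.factorial : ℝ)) * f ^ j

private theorem cnn_Et {f : MvPolynomial ℕ ℝ} (hf : cnn f) (j : ℕ) :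
    cnn (C (1 / (j.factorial : ℝ)) * f ^ j) :=
  cnn_C_mul (by positivity) (cnn_pow hf j)

private theorem cnn_Es {f : MvPolynomial ℕ ℝ} (hf : cnn f) (N : ℕ) : cnn (Es N f) :=
  cnn_sum _ _ fun j _ => cnn_Et hf j

private theorem Es_mono {f : MvPolynomial ℕ ℝ} (hf : cnn f) {N N' : ℕ} (h : N ≤ N') :
    cle (Es N f) (Es N' f) := by
  intro m
  unfold Es
  rw [MvPolynomial.coeff_sum, MvPolynomial.coeff_sum]
  exact Finset.sum_le_sum_of_subset_of_nonneg (Finset.range_mono h)
    fun j _ _ => cnn_Et hf j m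

private theorem pderiv_Es (k N : ℕ) (f : MvPolynomial ℕ ℝ) :
    pderiv k (Es (N + 1) f) = Es N f * pderiv k f := by
  unfold Es
  rw [map_sum, Finset.sum_range_succ', Finset.sum_mul]
  have h0 : pderiv k (C (1 / ((0 : ℕ).factorial : ℝ)) * f ^ 0 : MvPolynomial ℕ ℝ) = 0 := by
    rw [pderiv_C_mul, pow_zero, pderiv_one, mul_zero]
  rw [h0, add_zero]
  apply Finset.sum_congr rfl
  intro j _
  rw [pderiv_C_mul, pderiv_pow, Nat.add_sub_cancel]
  have h1 : (C (1 / (j.factorial : ℝ)) : MvPolynomial ℕ ℝ) =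
      C (1 / ((j + 1).factorial : ℝ)) * ((j + 1 : ℕ) : MvPolynomial ℕ ℝ) := by
    rw [← map_natCast (C : ℝ →+* MvPolynomial ℕ ℝ) (j + 1), ← C_mul]
    congr 1
    rw [Nat.factorial_succ]
    push_cast
    have h2 : (j.factorial : ℝ) ≠ 0 := by positivity
    have h3 : (j : ℝ) + 1 ≠ 0 := by positivity
    field_simp
  rw [h1]
  ring

private theorem Es_mul {a b : MvPolynomial ℕ ℝ} (ha : cnn a) (hb : cnn b) (N M : ℕ) :
    cle (Es N a * Es M b) (Es (N + M) (a + b)) := by
  have hg : ∀ p : ℕ × ℕ, cnn ((C (1 / (p.1.factorial : ℝ)) * a ^ p.1) *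
      (C (1 / (p.2.factorial : ℝ)) * b ^ p.2)) :=
    fun p => cnn_mul (cnn_Et ha _) (cnn_Et hb _)
  have h1 : Es N a * Es M b = ∑ p ∈ range N ×ˢ range M,
      ((C (1 / (p.1.factorial : ℝ)) * a ^ p.1) * (C (1 / (p.2.factorial : ℝ)) * b ^ p.2)) := by
    unfold Es
    rw [Finset.sum_mul_sum, Finset.sum_product]
  have h2 : Es (N + M) (a + b) = ∑ s ∈ range (N + M), ∑ p ∈ antidiagonal s,
      ((C (1 / (p.1.factorial : ℝ)) * a ^ p.1) * (C (1 / (p.2.factorial : ℝ)) * b ^ p.2)) := by
    unfold Es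
    apply Finset.sum_congr rfl
    intro s _
    rw [add_pow, Finset.mul_sum, Finset.Nat.sum_antidiagonal_eq_sum_range_succ_mk]
    apply Finset.sum_congr rfl
    intro i hi
    rw [Finset.mem_range] at hi
    have hi' : i ≤ s := by omega
    have h3 : (C (1 / (i.factorial : ℝ)) * C (1 / ((s - i).factorial : ℝ)) :
        MvPolynomial ℕ ℝ) = C (1 / (s.factorial : ℝ)) * ((s.choose i : ℕ) : MvPolynomial ℕ ℝ) := by
      rw [← map_natCast (C : ℝ →+* MvPolynomial ℕ ℝ) (s.choose i), ← C_mul, ← C_mul]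
      congr 1
      rw [Nat.cast_choose ℝ hi']
      have h4 : (s.factorial : ℝ) ≠ 0 := by positivity
      field_simp
    calc C (1 / (s.factorial : ℝ)) * (a ^ i * b ^ (s - i) * ((s.choose i : ℕ) : MvPolynomial ℕ ℝ))
        = (C (1 / (s.factorial : ℝ)) * ((s.choose i : ℕ) : MvPolynomial ℕ ℝ)) *
          (a ^ i * b ^ (s - i)) := by ring
      _ = (C (1 / (i.factorial : ℝ)) * C (1 / ((s - i).factorial : ℝ))) *
          (a ^ i * b ^ (s - i)) := by rw [h3]
      _ = _ := by ring
  intro m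
  rw [h1, h2, MvPolynomial.coeff_sum, MvPolynomial.coeff_sum]
  rw [← Finset.sum_fiberwise_of_maps_to (g := fun p : ℕ × ℕ => p.1 + p.2) (t := range (N + M))]
  · refine Finset.sum_le_sum fun s _ => ?_
    rw [MvPolynomial.coeff_sum]
    refine Finset.sum_le_sum_of_subset_of_nonneg ?_ fun p _ _ => hg p m
    intro p hp
    rw [Finset.mem_filter] at hp
    rw [Finset.HasAntidiagonal.mem_antidiagonal]
    exact hp.2
  · intro p hp
    rw [Finset.mem_product, Finset.mem_range, Finset.mem_range] at hp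
    rw [Finset.mem_range]
    omega

/-! ### the linear form -/

private noncomputable def th (r : ℝ) (k : ℕ) : ℝ := 2 * r ^ (2 * k + 1) / (2 * (k : ℝ) + 1)

private noncomputable def el (K0 : ℕ) (θ : ℕ → ℝ) : MvPolynomial ℕ ℝ :=
  ∑ k ∈ range K0, C (θ k) * X k

private theorem th_nonneg {r : ℝ} (hr : 0 ≤ r) (k : ℕ) : 0 ≤ th r k := by
  unfold th
  positivity

private theorem cnn_el (K0 : ℕ) {θ : ℕ → ℝ} (hθ : ∀ k, 0 ≤ θ k) : cnn (el K0 θ) :=
  cnn_sum _ _ fun k _ => cnn_C_mul (hθ k) (cnn_X k)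

private theorem pderiv_el {K0 k : ℕ} (hk : k < K0) (θ : ℕ → ℝ) :
    pderiv k (el K0 θ) = C (θ k) := by
  unfold el
  rw [map_sum, Finset.sum_eq_single k]
  · rw [pderiv_C_mul, pderiv_X_self, mul_one]
  · intro j _ hj
    rw [pderiv_C_mul, pderiv_X_of_ne hj, mul_zero]
  · intro h
    exact absurd (Finset.mem_range.2 hk) h

private theorem vars_el (K0 : ℕ) (θ : ℕ → ℝ) : ∀ l ∈ (el K0 θ).vars, l < K0 := by
  classical
  intro l hl
  unfold el at hl
  have h1 := MvPolynomial.vars_sum_subset _ _ hl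
  rw [Finset.mem_biUnion] at h1
  obtain ⟨j, hj, h2⟩ := h1
  have h3 := MvPolynomial.vars_mul _ _ h2
  rw [MvPolynomial.vars_C, MvPolynomial.vars_X, Finset.empty_union, Finset.mem_singleton] at h3
  rw [h3]
  exact Finset.mem_range.1 hj

/-- one factor -/
private theorem single_le {K0 : ℕ} {r : ℝ} (hr : 0 ≤ r) (n : ℕ) (hn : n ≤ K0) :
    cle (C (r ^ n) * qP n) (Es (n + 1) (el K0 (th r))) := by
  induction n using Nat.strong_induction_on with
  | _ n ih =>
    have hE : cnn (Es (n + 1) (el K0 (th r))) := cnn_Es (cnn_el K0 (th_nonneg hr)) _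
    intro m
    rw [MvPolynomial.coeff_C_mul]
    by_cases hm : m = 0
    · subst hm
      rw [coeff_zero_qP]
      by_cases h0 : n = 0
      · subst h0
        rw [if_pos rfl]
        unfold Es
        rw [zero_add, Finset.sum_range_one]
        simp
      · rw [if_neg h0, mul_zero]
        exact hE 0
    · obtain ⟨k, hk⟩ : ∃ k, m k ≠ 0 := by
        by_contra hc
        push Not at hc
        exact hm (Finsupp.ext hc)
      have hm' : m = (m - Finsupp.single k 1) + Finsupp.single k 1 := by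
        ext a
        rw [Finsupp.add_apply, Finsupp.tsub_apply]
        by_cases ha : k = a
        · rw [← ha, Finsupp.single_eq_same]
          omega
        · rw [Finsupp.single_eq_of_ne (Ne.symm ha)]
          omega
      have hpos : (0 : ℝ) < ((m - Finsupp.single k 1 : ℕ →₀ ℕ) k : ℝ) + 1 := by positivity
      have h1 := MvPolynomial.coeff_pderiv (i := k) (qP n) (m - Finsupp.single k 1)
      have h2 := MvPolynomial.coeff_pderiv (i := k) (Es (n + 1) (el K0 (th r)))
        (m - Finsupp.single k 1)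
      rw [← hm'] at h1 h2
      have key : r ^ n * (pderiv k (qP n)).coeff (m - Finsupp.single k 1) ≤
          (pderiv k (Es (n + 1) (el K0 (th r)))).coeff (m - Finsupp.single k 1) := by
        rw [pderiv_qP]
        split_ifs with hkn
        · have hkK : k < K0 := by omega
          rw [pderiv_Es, pderiv_el hkK, mul_comm (Es n (el K0 (th r))), MvPolynomial.coeff_C_mul,
            MvPolynomial.coeff_C_mul]
          have h3 := ih (n - (2 * k + 1)) (by omega) (by omega) (m - Finsupp.single k 1)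
          rw [MvPolynomial.coeff_C_mul] at h3
          have h4 := Es_mono (cnn_el K0 (th_nonneg hr))
            (show n - (2 * k + 1) + 1 ≤ n by omega) (m - Finsupp.single k 1)
          have h5 : r ^ n = r ^ (2 * k + 1) * r ^ (n - (2 * k + 1)) := by
            rw [← pow_add]
            congr 1
            omega
          calc r ^ n * (2 / (2 * (k : ℝ) + 1) *
                (qP (n - (2 * k + 1))).coeff (m - Finsupp.single k 1))
              = th r k * (r ^ (n - (2 * k + 1)) *
                (qP (n - (2 * k + 1))).coeff (m - Finsupp.single k 1)) := by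
                rw [h5]
                unfold th
                ring
            _ ≤ _ := mul_le_mul_of_nonneg_left (h3.trans h4) (th_nonneg hr k)
        · rw [MvPolynomial.coeff_zero, mul_zero]
          rw [h2]
          exact mul_nonneg (hE m) hpos.le
      rw [h1, h2] at key
      refine le_of_mul_le_mul_right ?_ hpos
      calc r ^ n * (qP n).coeff m * (((m - Finsupp.single k 1 : ℕ →₀ ℕ) k : ℝ) + 1)
          = r ^ n * ((qP n).coeff m * (((m - Finsupp.single k 1 : ℕ →₀ ℕ) k : ℝ) + 1)) := by ring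
        _ ≤ _ := key

private theorem cnn_qP (n : ℕ) : cnn (qP n) := coeff_qP_nonneg n

/-- the product -/
private theorem prod_le (K0 : ℕ) (L : List (ℕ × ℝ)) (hL : ∀ p ∈ L, 0 ≤ p.2 ∧ p.1 ≤ K0) :
    ∃ N, cle ((L.map (fun p => C (p.2 ^ p.1) * qP p.1)).prod)
      (Es N (el K0 (fun k => (L.map (fun p => th p.2 k)).sum))) := by
  induction L with
  | nil =>
    refine ⟨1, ?_⟩
    intro m
    unfold Es
    rw [Finset.sum_range_one]
    simp
  | cons p L ih =>
    obtain ⟨N, hN⟩ := ih fun q hq => hL q (List.mem_cons_of_mem p hq)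
    have hp := hL p List.mem_cons_self
    refine ⟨p.1 + 1 + N, ?_⟩
    have hθ : ∀ k, 0 ≤ (L.map (fun p => th p.2 k)).sum := by
      intro k
      apply List.sum_nonneg
      intro x hx
      rw [List.mem_map] at hx
      obtain ⟨q, hq, rfl⟩ := hx
      exact th_nonneg (hL q (List.mem_cons_of_mem p hq)).1 k
    have h1 : el K0 (fun k => ((p :: L).map (fun p => th p.2 k)).sum) =
        el K0 (th p.2) + el K0 (fun k => (L.map (fun p => th p.2 k)).sum) := by
      unfold el
      rw [← Finset.sum_add_distrib]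
      apply Finset.sum_congr rfl
      intro k _
      beta_reduce
      rw [List.map_cons, List.sum_cons, C_add]
      ring
    have h2 : cnn ((L.map (fun p => C (p.2 ^ p.1) * qP p.1)).prod) := by
      have hL' : ∀ q ∈ L, 0 ≤ q.2 := fun q hq => (hL q (List.mem_cons_of_mem p hq)).1
      clear hN h1 hθ ih hL
      induction L with
      | nil => exact cnn_one
      | cons q L ih2 =>
        rw [List.map_cons, List.prod_cons]
        exact cnn_mul (cnn_C_mul (pow_nonneg (hL' q List.mem_cons_self) _) (cnn_qP _))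
          (ih2 fun q' hq' => hL' q' (List.mem_cons_of_mem q hq'))
    rw [h1, List.map_cons, List.prod_cons]
    intro m
    exact (cle_mul (single_le hp.1 p.1 hp.2) hN h2 (cnn_Es (cnn_el K0 (th_nonneg hp.1)) _) m).trans
      (Es_mul (cnn_el K0 (th_nonneg hp.1)) (cnn_el K0 hθ) _ _ m)

/-! ### the Wick functional of the exponential of a linear form -/

private noncomputable def VV (K0 : ℕ) (θ : ℕ → ℝ) : ℝ :=
  ∑ k ∈ range K0, ∑ l ∈ range K0, Cov k l * θ k * θ l

private theorem VV_nonneg (K0 : ℕ) {θ : ℕ → ℝ} (hθ : ∀ k, 0 ≤ θ k) : 0 ≤ VV K0 θ :=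
  Finset.sum_nonneg fun k _ => Finset.sum_nonneg fun l _ =>
    mul_nonneg (mul_nonneg (Cov_nonneg k l) (hθ k)) (hθ l)

private theorem Wick_el_succ (K0 : ℕ) (θ : ℕ → ℝ) (j : ℕ) :
    Wick (el K0 θ ^ (j + 2)) = ((j : ℝ) + 1) * VV K0 θ * Wick (el K0 θ ^ j) := by
  classical
  have hv : ∀ l ∈ (el K0 θ ^ (j + 1)).vars, l < K0 := fun l hl =>
    vars_el K0 θ l (MvPolynomial.vars_pow _ _ hl)
  have h1 : el K0 θ ^ (j + 2) = ∑ k ∈ range K0, C (θ k) * (X k * el K0 θ ^ (j + 1)) := by
    have h2 : el K0 θ ^ (j + 2) =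
        (∑ k ∈ range K0, C (θ k) * X k) * el K0 θ ^ (j + 1) := by
      have h0 : el K0 θ ^ (j + 2) = el K0 θ * el K0 θ ^ (j + 1) := by ring
      exact h0
    rw [h2, Finset.sum_mul]
    apply Finset.sum_congr rfl
    intro k _
    ring
  rw [h1, Wick_sum]
  have h3 : ∀ k ∈ range K0, Wick (C (θ k) * (X k * el K0 θ ^ (j + 1))) =
      ∑ l ∈ range K0, (((j : ℝ) + 1) * Wick (el K0 θ ^ j)) * (Cov k l * θ k * θ l) := by
    intro k _
    rw [Wick_C_mul, Wick_X_mul k _ K0 hv, Finset.mul_sum]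
    apply Finset.sum_congr rfl
    intro l hl
    have h4 : pderiv l (el K0 θ ^ (j + 1)) = C (((j : ℝ) + 1) * θ l) * el K0 θ ^ j := by
      rw [pderiv_pow, pderiv_el (Finset.mem_range.1 hl), Nat.add_sub_cancel, C_mul]
      have h5 : ((j + 1 : ℕ) : MvPolynomial ℕ ℝ) = C ((j : ℝ) + 1) := by
        rw [← map_natCast (C : ℝ →+* MvPolynomial ℕ ℝ) (j + 1)]
        push_cast
        rfl
      rw [h5]
      ring
    rw [h4, Wick_C_mul]
    ring
  rw [Finset.sum_congr rfl h3]
  unfold VV
  rw [Finset.mul_sum, Finset.sum_mul]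
  apply Finset.sum_congr rfl
  intro k _
  rw [Finset.mul_sum, Finset.sum_mul]
  apply Finset.sum_congr rfl
  intro l _
  ring

private theorem Wick_el_one (K0 : ℕ) (θ : ℕ → ℝ) : Wick (el K0 θ ^ 1) = 0 := by
  classical
  rw [pow_one, el, Wick_sum]
  apply Finset.sum_eq_zero
  intro k _
  have h1 : (X k : MvPolynomial ℕ ℝ) = X k * 1 := (mul_one _).symm
  rw [Wick_C_mul, h1, Wick_X_mul k 1 0 (by
    intro l hl
    rw [MvPolynomial.vars_one] at hl
    exact absurd hl (Finset.notMem_empty l)), Finset.range_zero, Finset.sum_empty, mul_zero]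

private theorem Wick_el_even (K0 : ℕ) (θ : ℕ → ℝ) (i : ℕ) :
    1 / ((2 * i).factorial : ℝ) * Wick (el K0 θ ^ (2 * i)) =
      (VV K0 θ / 2) ^ i / (i.factorial : ℝ) := by
  induction i with
  | zero =>
    rw [mul_zero, pow_zero, pow_zero, Wick_one]
    simp
  | succ i ih =>
    have e : 2 * (i + 1) = 2 * i + 2 := by ring
    have h1 : ((2 * i).factorial : ℝ) ≠ 0 := by positivity
    have h2 : (i.factorial : ℝ) ≠ 0 := by positivity
    have h3 : (2 * (i : ℝ) + 1) ≠ 0 := by positivity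
    have h4 : ((i : ℝ) + 1) ≠ 0 := by positivity
    have h5 : Wick (el K0 θ ^ (2 * i)) =
        ((2 * i).factorial : ℝ) * ((VV K0 θ / 2) ^ i / (i.factorial : ℝ)) := by
      rw [← ih]
      field_simp
    have h6 : ((2 * i + 2).factorial : ℝ) = (2 * (i : ℝ) + 2) * ((2 * (i : ℝ) + 1) *
        ((2 * i).factorial : ℝ)) := by
      rw [Nat.factorial_succ, Nat.factorial_succ]
      push_cast
      ring
    have h7 : ((i + 1).factorial : ℝ) = ((i : ℝ) + 1) * (i.factorial : ℝ) := by
      rw [Nat.factorial_succ]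
      push_cast
      ring
    rw [e, Wick_el_succ, h5, h6, h7, pow_succ]
    push_cast
    field_simp

private theorem Wick_el_odd (K0 : ℕ) (θ : ℕ → ℝ) (i : ℕ) : Wick (el K0 θ ^ (2 * i + 1)) = 0 := by
  induction i with
  | zero => exact Wick_el_one K0 θ
  | succ i ih =>
    have e : 2 * (i + 1) + 1 = 2 * i + 1 + 2 := by ring
    rw [e, Wick_el_succ, ih, mul_zero]

private theorem Wick_Es (K0 : ℕ) (θ : ℕ → ℝ) (I : ℕ) :
    Wick (Es (2 * I) (el K0 θ)) = ∑ i ∈ range I, (VV K0 θ / 2) ^ i / (i.factorial : ℝ) := by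
  induction I with
  | zero =>
    unfold Es
    rw [mul_zero, Finset.range_zero, Finset.sum_empty, Finset.sum_empty, Wick_zero]
  | succ I ih =>
    have e : 2 * (I + 1) = 2 * I + 1 + 1 := by ring
    rw [Finset.sum_range_succ, ← ih, ← Wick_el_even, e]
    unfold Es
    rw [Finset.sum_range_succ, Finset.sum_range_succ, Wick_add, Wick_add, Wick_C_mul, Wick_C_mul,
      Wick_el_odd, mul_zero, add_zero]

private theorem Wick_Es_le (K0 : ℕ) {θ : ℕ → ℝ} (hθ : ∀ k, 0 ≤ θ k) (N : ℕ) :
    Wick (Es N (el K0 θ)) ≤ Real.exp (VV K0 θ / 2) := by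
  have h1 : Wick (Es N (el K0 θ)) ≤ Wick (Es (2 * N) (el K0 θ)) :=
    Wick_mono _ _ (Es_mono (cnn_el K0 hθ) (by omega))
  rw [Wick_Es] at h1
  exact h1.trans (Real.sum_le_exp_of_nonneg (by have := VV_nonneg K0 hθ; linarith) N)

private theorem VV_le (K0 : ℕ) (L : List (ℕ × ℝ)) (hL : ∀ p ∈ L, 0 ≤ p.2 ∧ p.2 < 1 / 2) :
    VV K0 (fun k => (L.map (fun p => th p.2 k)).sum) ≤
      ((L.map Prod.snd).map (fun r => ((L.map Prod.snd).map (fun r' => Phi (r + r'))).sum)).sum := by
  have hs : ∀ f : ℕ × ℝ → ℝ, (L.map f).sum = ∑ a : Fin L.length, f (L.get a) := by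
    intro f
    exact (Fin.sum_univ_fun_getElem L f).symm
  have h1 : ((L.map Prod.snd).map (fun r =>
      ((L.map Prod.snd).map (fun r' => Phi (r + r'))).sum)).sum =
      ∑ a : Fin L.length, ∑ b : Fin L.length, Phi ((L.get a).2 + (L.get b).2) := by
    rw [List.map_map, hs]
    apply Finset.sum_congr rfl
    intro a _
    simp only [Function.comp_apply]
    rw [List.map_map, hs]
    rfl
  have h2 : VV K0 (fun k => (L.map (fun p => th p.2 k)).sum) =
      ∑ a : Fin L.length, ∑ b : Fin L.length, ∑ k ∈ range K0, ∑ l ∈ range K0,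
        Cov k l * th (L.get a).2 k * th (L.get b).2 l := by
    unfold VV
    have h3 : ∀ k ∈ range K0, ∑ l ∈ range K0, Cov k l * (L.map (fun p => th p.2 k)).sum *
        (L.map (fun p => th p.2 l)).sum = ∑ a : Fin L.length, ∑ b : Fin L.length,
        ∑ l ∈ range K0, Cov k l * th (L.get a).2 k * th (L.get b).2 l := by
      intro k _
      have h4 : ∀ l ∈ range K0, Cov k l * (L.map (fun p => th p.2 k)).sum *
          (L.map (fun p => th p.2 l)).sum = ∑ a : Fin L.length, ∑ b : Fin L.length,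
          Cov k l * th (L.get a).2 k * th (L.get b).2 l := by
        intro l _
        rw [hs, hs, mul_assoc, Finset.sum_mul_sum, Finset.mul_sum]
        apply Finset.sum_congr rfl
        intro a _
        rw [Finset.mul_sum]
        apply Finset.sum_congr rfl
        intro b _
        ring
      rw [Finset.sum_congr rfl h4, Finset.sum_comm]
      apply Finset.sum_congr rfl
      intro a _
      rw [Finset.sum_comm]
    rw [Finset.sum_congr rfl h3, Finset.sum_comm]
    apply Finset.sum_congr rfl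
    intro a _
    rw [Finset.sum_comm]
  rw [h1, h2]
  refine Finset.sum_le_sum fun a _ => Finset.sum_le_sum fun b _ => ?_
  have ha := hL (L.get a) (List.get_mem L a)
  have hb := hL (L.get b) (List.get_mem L b)
  exact cov_sum_le K0 (L.get a).2 (L.get b).2 ha.1 hb.1 (by linarith [ha.2, hb.2])

private theorem prod_split (L : List (ℕ × ℝ)) :
    (L.map (fun p => C (p.2 ^ p.1) * qP p.1)).prod =
      C ((L.map (fun p => p.2 ^ p.1)).prod) * (L.map (fun p => qP p.1)).prod := by
  induction L with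
  | nil => simp
  | cons p L ih =>
    rw [List.map_cons, List.prod_cons, ih, List.map_cons, List.prod_cons, List.map_cons,
      List.prod_cons, C_mul]
    ring

private theorem exists_K0 (L : List (ℕ × ℝ)) : ∃ K0, ∀ p ∈ L, p.1 ≤ K0 := by
  induction L with
  | nil => exact ⟨0, fun p hp => absurd hp List.not_mem_nil⟩
  | cons q L ih =>
    obtain ⟨K0, h⟩ := ih
    refine ⟨max q.1 K0, fun p hp => ?_⟩
    rcases List.mem_cons.1 hp with h1 | h1
    · rw [h1]
      exact le_max_left _ _
    · exact (h p h1).trans (le_max_right _ _)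

theorem Wick_prod_le (L : List (ℕ × ℝ)) (hL : ∀ p ∈ L, 0 ≤ p.2 ∧ p.2 < 1 / 2) :
    Wick ((L.map (fun p => qP p.1)).prod) * (L.map (fun p => p.2 ^ p.1)).prod ≤
      GG (L.map Prod.snd) := by
  obtain ⟨K0, hK⟩ := exists_K0 L
  obtain ⟨N, hN⟩ := prod_le K0 L fun p hp => ⟨(hL p hp).1, hK p hp⟩
  have hθ : ∀ k, 0 ≤ (L.map (fun p => th p.2 k)).sum := by
    intro k
    apply List.sum_nonneg
    intro x hx
    rw [List.mem_map] at hx
    obtain ⟨q, hq, rfl⟩ := hx
    exact th_nonneg (hL q hq).1 k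
  rw [mul_comm, ← Wick_C_mul, ← prod_split]
  refine (Wick_mono _ _ hN).trans ((Wick_Es_le K0 hθ N).trans ?_)
  unfold GG
  rw [Real.exp_le_exp]
  have h := VV_le K0 L hL
  linarith

end Pool.Agent.Helper34.MVU
end

/- Helper34.MVU.Beta -/
section
/-!
Project MV, block U, module U-As1 (Beta): the numbers `be n = (2n choose n) / 4^n` and `cc n`.

PROOFS. `cc n = Π_{i<n} (i + 1/2)`.
* `be_succ`: `Nat.succ_mul_centralBinom_succ : (n+1) * centralBinom (n+1) = 2 (2n+1) centralBinom n`.
* `cc_eq`: induction with `be_succ`.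
* `be_sum`: `2 (m+1) be (m+1) = (2m+1) be m` and induction: `Σ_{j<m+1} be j = (2m+1) be m`.
* `be_le`: `be n ^ 2 * (2n+1) ≤ 1` by induction
  (`be(n+1)^2 (2n+3) = be(n)^2 (2n+1)^2 (2n+3)/(2n+2)^2 ≤ be(n)^2 (2n+1)`), hence
  `be n ≤ 1/√(2n+1) ≤ 1/√n`.
* `be_tendsto`: Wallis. `Real.Wallis.W n = Π_{i<n} (2i+2)/(2i+1) * (2i+2)/(2i+3) → π/2`
  (`Real.tendsto_prod_pi_div_two`), and `W n = 1/(be n ^2 (2n+1))` (induction), so
  `be n ^2 (2n+1) → 2/π`, `be n ^ 2 * (π n) → 1`, take square roots.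
* `cc_le`: `cc n = n! be n ≤ n! / √n`. `cc_le_fact`: `be n ≤ 1`.
* `be_ratio`: `be (n - j) ≤ 2^j be n` for `j ≤ n`: `be (n+1) = be n (2n+1)/(2n+2) ≥ be n / 2`.
-/

namespace Pool.Agent.Helper34.MVU

open Finset Filter Topology Pool.Agent.Helper60.MV

/-- `(2n choose n) / 4^n` -/
noncomputable def be (n : ℕ) : ℝ := (Nat.centralBinom n : ℝ) / 4 ^ n

theorem be_zero : be 0 = 1 := by
  simp [be]

theorem be_succ (n : ℕ) : (2 * ((n : ℝ) + 1)) * be (n + 1) = (2 * n + 1) * be n := by
  have h := Nat.succ_mul_centralBinom_succ n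
  have h' : ((n : ℝ) + 1) * (Nat.centralBinom (n + 1) : ℝ) =
      2 * (2 * n + 1) * (Nat.centralBinom n : ℝ) := by exact_mod_cast h
  unfold be
  rw [pow_succ]
  field_simp
  linarith

theorem be_pos (n : ℕ) : 0 < be n := by
  unfold be
  have : 0 < Nat.centralBinom n := Nat.centralBinom_pos n
  positivity

theorem be_sum (m : ℕ) : (2 * ((m : ℝ) + 1)) * be (m + 1) = ∑ j ∈ range (m + 1), be j := by
  induction m with
  | zero =>
    rw [be_succ]
    simp [be_zero]
  | succ m ih =>
    rw [Finset.sum_range_succ, ← ih, be_succ]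
    push_cast
    ring

private theorem be_sq_le (n : ℕ) : be n ^ 2 * (2 * n + 1) ≤ 1 := by
  induction n with
  | zero => simp [be_zero]
  | succ n ih =>
    have h := be_succ n
    have hb := be_pos n
    have h1 : be (n + 1) = (2 * n + 1) * be n / (2 * ((n : ℝ) + 1)) := by
      rw [← h]; field_simp
    rw [h1]
    push_cast
    rw [div_pow, div_mul_eq_mul_div, div_le_one (by positivity)]
    have h2 : ((2 * (n : ℝ) + 1) * be n) ^ 2 * (2 * (n + 1) + 1) =
        (be n ^ 2 * (2 * n + 1)) * ((2 * n + 1) * (2 * n + 3)) := by ring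
    rw [h2]
    have h3 : (be n ^ 2 * (2 * (n : ℝ) + 1)) * ((2 * n + 1) * (2 * n + 3)) ≤
        1 * ((2 * n + 1) * (2 * n + 3)) := by gcongr
    nlinarith

private theorem be_wallis (n : ℕ) : be n ^ 2 * (2 * n + 1) * Real.Wallis.W n = 1 := by
  induction n with
  | zero => simp [be_zero, Real.Wallis.W]
  | succ n ih =>
    have h := be_succ n
    have h1 : be (n + 1) = (2 * n + 1) * be n / (2 * ((n : ℝ) + 1)) := by
      rw [← h]; field_simp
    rw [h1, Real.Wallis.W_succ]
    push_cast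
    have h2 : ((2 * (n : ℝ) + 1) * be n / (2 * ((n : ℝ) + 1))) ^ 2 * (2 * (n + 1) + 1) *
        (Real.Wallis.W n * ((2 * n + 2) / (2 * n + 1) * ((2 * n + 2) / (2 * n + 3)))) =
        be n ^ 2 * (2 * n + 1) * Real.Wallis.W n := by
      have e1 : (2 * (n : ℝ) + 1) ≠ 0 := by positivity
      have e2 : (2 * (n : ℝ) + 3) ≠ 0 := by positivity
      have e3 : ((n : ℝ) + 1) ≠ 0 := by positivity
      field_simp
      ring
    rw [h2, ih]

theorem be_le (n : ℕ) (hn : 1 ≤ n) : be n ≤ 1 / Real.sqrt n := by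
  have h := be_sq_le n
  have hb := be_pos n
  have hn' : (1 : ℝ) ≤ n := by exact_mod_cast hn
  rw [le_div_iff₀ (Real.sqrt_pos.2 (by linarith))]
  have h2 : (be n * Real.sqrt n) ^ 2 ≤ 1 := by
    rw [mul_pow, Real.sq_sqrt (by linarith)]
    nlinarith [sq_nonneg (be n)]
  exact (sq_le_one_iff₀ (by positivity)).1 h2

theorem be_le_one (n : ℕ) : be n ≤ 1 := by
  have h := be_sq_le n
  have hb := be_pos n
  have h2 : be n ^ 2 ≤ 1 := by
    have : (0 : ℝ) ≤ n := Nat.cast_nonneg n
    nlinarith [sq_nonneg (be n)]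
  exact (sq_le_one_iff₀ hb.le).1 h2

theorem be_ratio (n j : ℕ) (hj : j ≤ n) : be (n - j) ≤ 2 ^ j * be n := by
  induction j with
  | zero => simp
  | succ j ih =>
    have h1 := ih (by omega)
    obtain ⟨k, hk⟩ : ∃ k, n - j = k + 1 := ⟨n - j - 1, by omega⟩
    have hk' : n - (j + 1) = k := by omega
    rw [hk] at h1
    rw [hk', pow_succ]
    have h2 := be_succ k
    have hb := be_pos k
    have hb1 := be_pos (k + 1)
    have h3 : be k ≤ 2 * be (k + 1) := by
      have hk0 : (0 : ℝ) ≤ k := Nat.cast_nonneg k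
      have h4 : (2 * ((k : ℝ) + 1)) * be (k + 1) = (2 * k + 1) * be k := h2
      have h5 : (2 * (k : ℝ) + 1) * be k ≤ (2 * k + 1) * (2 * be (k + 1)) := by
        rw [← h4]; nlinarith
      exact le_of_mul_le_mul_left h5 (by positivity)
    calc be k ≤ 2 * be (k + 1) := h3
      _ ≤ 2 * (2 ^ j * be n) := by linarith
      _ = 2 ^ j * 2 * be n := by ring

theorem be_tendsto : Tendsto (fun n : ℕ => be n * Real.sqrt (Real.pi * n)) atTop (𝓝 1) := by
  have h1 : Tendsto (fun n : ℕ => Real.sqrt ((1 / 2) * ((n : ℝ) / (n + 1 / 2)) *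
      (Real.pi / Real.Wallis.W n))) atTop (𝓝 1) := by
    have h2 : Tendsto (fun n : ℕ => (1 / 2) * ((n : ℝ) / (n + 1 / 2)) *
        (Real.pi / Real.Wallis.W n)) atTop (𝓝 ((1 / 2) * 1 * (Real.pi / (Real.pi / 2)))) := by
      refine Tendsto.mul ?_ ?_
      · exact (tendsto_natCast_div_add_atTop (1 / 2 : ℝ)).const_mul _
      · exact Tendsto.div tendsto_const_nhds Real.Wallis.tendsto_W_nhds_pi_div_two
          (by positivity)
    have h3 : (1 / 2) * 1 * (Real.pi / (Real.pi / 2)) = 1 := by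
      have := Real.pi_ne_zero
      field_simp
    rw [h3] at h2
    have h4 := h2.sqrt
    rwa [Real.sqrt_one] at h4
  refine h1.congr fun n => ?_
  have hb := be_pos n
  have hW := Real.Wallis.W_pos n
  have hw := be_wallis n
  have hn : (0 : ℝ) ≤ n := Nat.cast_nonneg n
  have e : (1 / 2) * ((n : ℝ) / (n + 1 / 2)) * (Real.pi / Real.Wallis.W n) =
      be n ^ 2 * (Real.pi * n) := by
    have hw' : be n ^ 2 = 1 / ((2 * n + 1) * Real.Wallis.W n) := by
      rw [eq_div_iff (by positivity)]; linarith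
    rw [hw']
    have : (n : ℝ) + 1 / 2 ≠ 0 := by positivity
    have h5 : (2 * (n : ℝ) + 1) ≠ 0 := by positivity
    have h6 : (n : ℝ) + 1 / 2 = (2 * n + 1) / 2 := by ring
    rw [h6]
    field_simp
  rw [e, Real.sqrt_mul (sq_nonneg _), Real.sqrt_sq hb.le]

theorem cc_eq (n : ℕ) : cc n = (n.factorial : ℝ) * be n := by
  induction n with
  | zero => simp [cc, be_zero]
  | succ n ih =>
    have h : cc (n + 1) = cc n * ((n : ℝ) + 1 / 2) := by
      unfold cc
      rw [Finset.prod_range_succ]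
    rw [h, ih, Nat.factorial_succ]
    push_cast
    have h2 := be_succ n
    have h3 : ((n : ℝ) + 1) * be (n + 1) = ((n : ℝ) + 1 / 2) * be n := by linarith
    calc (n.factorial : ℝ) * be n * ((n : ℝ) + 1 / 2) =
        (n.factorial : ℝ) * (((n : ℝ) + 1 / 2) * be n) := by ring
      _ = (n.factorial : ℝ) * (((n : ℝ) + 1) * be (n + 1)) := by rw [h3]
      _ = _ := by ring

theorem cc_pos (n : ℕ) : 0 < cc n := by
  unfold cc
  exact Finset.prod_pos fun i _ => by positivity

theorem cc_le (n : ℕ) (hn : 1 ≤ n) : cc n ≤ (n.factorial : ℝ) / Real.sqrt n := by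
  rw [cc_eq, div_eq_mul_one_div]
  exact mul_le_mul_of_nonneg_left (be_le n hn) (Nat.cast_nonneg _)

theorem cc_le_fact (n : ℕ) : cc n ≤ (n.factorial : ℝ) := by
  rw [cc_eq]
  exact mul_le_of_le_one_right (Nat.cast_nonneg _) (be_le_one n)

end Pool.Agent.Helper34.MVU
end

/- Helper34.MVU.WQ -/
section
/-!
Project MV, block U, module U-Q2 (WQ): recursion for the numbers `Wick (qP n)`.

PROOF. Let `W n = Wick (qP n)`. By `qP_rec`, `Wick_C_mul`, `Wick_sum`, `Wick_X_mul`
(with `N = n + 1`, `vars_qP`) and `pderiv_qP`: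
`(n+1) W (n+1) = Σ_{k ≤ n/2} 2 Σ_{l, 2l+1 ≤ n-2k} Cov k l (2/(2l+1)) W (n-2k-2l-1)`.      (1)
* odd: strong induction. If `n+1` is odd, every index `n-2k-2l-1` is odd and smaller, so `W = 0`.
* even, `n + 1 = 2 (m+1)`: group (1) by `i = k + l` (`0 ≤ i ≤ m`; the condition `2l+1 ≤ n-2k` means
  `k + l ≤ m`): `2(m+1) W(2(m+1)) = Σ_{i=0}^m (Σ_{k+l=i} 4 Cov k l/(2l+1)) W(2(m-i))`, and
  `4 Cov k l/(2l+1) = 4 ζ(2i+2) (2i+1)!/((2k)! (2l+1)!) = 4 ζ(2i+2) (2i+1 choose 2l+1)`, and
  `Σ_{l ≤ i} (2i+1 choose 2l+1) = 2^(2i)` (half of `2^(2i+1)`; e.g. by `l ↦ i - l` this is also the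
  sum of `(2i+1 choose 2k)`, both add up to `2^(2i+1)`, `Nat.sum_range_choose`), total
  `4^(i+1) ζ(2(i+1))`.
-/

namespace Pool.Agent.Helper34.MVU

open Finset MvPolynomial Pool.Agent.Helper60.MV

private theorem Wick_qP_base (n : ℕ) :
    ((n : ℝ) + 1) * Wick (qP (n + 1)) =
      ∑ k ∈ range (n / 2 + 1), 2 * ∑ l ∈ range (n + 1), Cov k l *
        (if 2 * l + 1 ≤ n - 2 * k then 2 / (2 * (l : ℝ) + 1) * Wick (qP (n - 2 * k - (2 * l + 1)))
          else 0) := by
  rw [← Wick_C_mul, qP_rec, Wick_sum]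
  apply Finset.sum_congr rfl
  intro k _
  rw [mul_assoc, Wick_C_mul, Wick_X_mul k (qP (n - 2 * k)) (n + 1)]
  · congr 1
    apply Finset.sum_congr rfl
    intro l _
    rw [pderiv_qP]
    split_ifs with h
    · rw [Wick_C_mul]
    · rw [Wick_zero]
  · intro l hl
    have := vars_qP _ l hl
    omega

theorem Wick_qP_odd (n : ℕ) (hn : Odd n) : Wick (qP n) = 0 := by
  induction n using Nat.strong_induction_on with
  | _ n ih =>
    rcases n with _ | n
    · exact absurd hn (by decide)
    have hb := Wick_qP_base n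
    have hz : (∑ k ∈ range (n / 2 + 1), 2 * ∑ l ∈ range (n + 1), Cov k l *
        (if 2 * l + 1 ≤ n - 2 * k then 2 / (2 * (l : ℝ) + 1) * Wick (qP (n - 2 * k - (2 * l + 1)))
          else 0)) = 0 := by
      apply Finset.sum_eq_zero
      intro k hk
      rw [Finset.sum_eq_zero, mul_zero]
      intro l _
      split_ifs with h
      · rw [ih (n - 2 * k - (2 * l + 1)) (by omega), mul_zero, mul_zero]
        obtain ⟨r, hr⟩ := hn
        have hk' := Finset.mem_range.mp hk
        exact ⟨r - k - l - 1, by omega⟩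
      · rw [mul_zero]
    rw [hz] at hb
    have hn0 : ((n : ℝ) + 1) ≠ 0 := by positivity
    exact (mul_eq_zero.mp hb).resolve_left hn0

private theorem sum_pairs (f : ℕ → ℕ) (n : ℕ) :
    ∑ j ∈ range (2 * n), f j = ∑ k ∈ range n, (f (2 * k) + f (2 * k + 1)) := by
  induction n with
  | zero => simp
  | succ n ih =>
    rw [Finset.sum_range_succ _ n, ← ih, show 2 * (n + 1) = 2 * n + 1 + 1 by ring,
      Finset.sum_range_succ, Finset.sum_range_succ]
    ring

private theorem sum_choose_even (i : ℕ) :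
    ∑ k ∈ range (i + 1), (2 * i + 1).choose (2 * k) = 4 ^ i := by
  have h1 := Nat.sum_range_choose (2 * i + 1)
  rw [show 2 * i + 1 + 1 = 2 * (i + 1) by ring, sum_pairs, Finset.sum_add_distrib] at h1
  have h2 : ∑ k ∈ range (i + 1), (2 * i + 1).choose (2 * k + 1) =
      ∑ k ∈ range (i + 1), (2 * i + 1).choose (2 * k) := by
    rw [← Finset.sum_range_reflect (fun k => (2 * i + 1).choose (2 * k)) (i + 1)]
    apply Finset.sum_congr rfl
    intro k hk
    have hk' := Finset.mem_range.mp hk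
    apply Nat.choose_symm_of_eq_add
    omega
  rw [h2, pow_succ, pow_mul] at h1
  norm_num at h1
  omega

private theorem four_Cov (k l : ℕ) :
    2 * (Cov k l * (2 / (2 * (l : ℝ) + 1))) =
      4 * zet (2 * (k + l + 1)) * ((2 * (k + l) + 1).choose (2 * k) : ℝ) := by
  have hle : 2 * k ≤ 2 * (k + l) + 1 := by omega
  rw [Nat.cast_choose ℝ hle, show 2 * (k + l) + 1 - 2 * k = 2 * l + 1 by omega, Cov,
    show 2 * k + 2 * l + 1 = 2 * (k + l) + 1 by ring,
    show 2 * k + 2 * l + 2 = 2 * (k + l + 1) by ring, Nat.factorial_succ (2 * l)]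
  have h1 : ((2 * k).factorial : ℝ) ≠ 0 := by positivity
  have h2 : ((2 * l).factorial : ℝ) ≠ 0 := by positivity
  have h3 : (2 * (l : ℝ) + 1) ≠ 0 := by positivity
  push_cast
  field_simp
  ring

theorem Wick_qP_rec (m : ℕ) :
    (2 * ((m : ℝ) + 1)) * Wick (qP (2 * (m + 1))) =
      ∑ i ∈ range (m + 1), 4 ^ (i + 1) * zet (2 * (i + 1)) * Wick (qP (2 * (m - i))) := by
  have hb := Wick_qP_base (2 * m + 1)
  rw [show 2 * m + 1 + 1 = 2 * (m + 1) by ring, show (2 * m + 1) / 2 = m by omega] at hb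
  have hL : (2 * ((m : ℝ) + 1)) * Wick (qP (2 * (m + 1))) =
      (((2 * m + 1 : ℕ) : ℝ) + 1) * Wick (qP (2 * (m + 1))) := by
    push_cast
    ring
  rw [hL, hb]
  have h1 : ∀ k ∈ range (m + 1), (2 * ∑ l ∈ range (2 * (m + 1)), Cov k l *
      (if 2 * l + 1 ≤ 2 * m + 1 - 2 * k then
        2 / (2 * (l : ℝ) + 1) * Wick (qP (2 * m + 1 - 2 * k - (2 * l + 1))) else 0)) =
      ∑ l ∈ range (m + 1 - k), 4 * zet (2 * (k + l + 1)) *
        ((2 * (k + l) + 1).choose (2 * k) : ℝ) * Wick (qP (2 * (m - (k + l)))) := by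
    intro k hk
    have hk' := Finset.mem_range.mp hk
    rw [Finset.mul_sum]
    symm
    rw [← Finset.sum_subset (s₁ := range (m + 1 - k)) (s₂ := range (2 * (m + 1)))]
    · apply Finset.sum_congr rfl
      intro l hl
      have hl' := Finset.mem_range.mp hl
      rw [if_pos (by omega), ← four_Cov,
        show 2 * m + 1 - 2 * k - (2 * l + 1) = 2 * (m - (k + l)) by omega]
      ring
    · apply Finset.range_subset_range.mpr
      omega
    · intro l _ hl
      have hl' : ¬ l < m + 1 - k := fun h => hl (Finset.mem_range.mpr h)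
      rw [if_neg (by omega), mul_zero, mul_zero]
  rw [Finset.sum_congr rfl h1, ← Finset.sum_range_diag_flip]
  apply Finset.sum_congr rfl
  intro i _
  have h2 : ∀ k ∈ range (i + 1), 4 * zet (2 * (k + (i - k) + 1)) *
      ((2 * (k + (i - k)) + 1).choose (2 * k) : ℝ) * Wick (qP (2 * (m - (k + (i - k))))) =
      4 * zet (2 * (i + 1)) * Wick (qP (2 * (m - i))) * ((2 * i + 1).choose (2 * k) : ℝ) := by
    intro k hk
    have hk' := Finset.mem_range.mp hk
    rw [show k + (i - k) = i by omega]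
    ring
  rw [Finset.sum_congr rfl h2, ← Finset.mul_sum, ← Nat.cast_sum, sum_choose_even]
  push_cast
  ring

end Pool.Agent.Helper34.MVU
end

/- Helper34.MVU.HSeq -/
section
/-!
Project MV, block U, module U-As2b (HSeq): the sequence `hs` with generating function
`exp (1/2 Σ_{i ≥ 1} (ζ(2i) - 1) w^i / i)`; its sum is `√2`.

PROOFS. Put `a i = zet (2 (i+1)) - 1`, `0 ≤ a i ≤ (1/4)^i` (Zeta1).
* `hs_rec`: unfold. `hs_nonneg`: strong induction.
* `hs_bound`: `v m = 3^m hs m` satisfies `2 (m+1) v(m+1) = Σ_{i ≤ m} 3^(i+1) a i v(m-i)` and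
  `Σ_i 3^(i+1) a i ≤ Σ_i 3 (3/4)^i = 12`. Hence for `m + 1 ≥ 6` we have `v(m+1) ≤ max_{j ≤ m} v j`;
  by strong induction `v m ≤ C := v 0 + … + v 5` for all `m`.
* `hs_sum`: for `|x| < 3` let `H x = Σ hs m x^m`, `A x = Σ a i x^i`, `G x = 1/2 Σ a i x^(i+1)/(i+1)`
  (all converge absolutely, radius at least `3`). Termwise differentiation gives
  `H' x = Σ (m+1) hs (m+1) x^m = 1/2 Σ_m x^m Σ_{i ≤ m} a i hs (m-i) = 1/2 A x * H x` (Cauchy
  product, `tsum_mul_tsum_eq_tsum_sum_range_of_summable_norm`), `G' x = 1/2 A x`. So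
  `H x exp (- G x)` has derivative zero on `(-3,3)` and `H 1 = H 0 exp (G 1 - G 0) = exp (G 1)`,
  and `G 1 = 1/2 log 2` by `hasSum_log_two`, `exp (1/2 log 2) = √2`.
  (Derivative of a power series in Mathlib: `hasDerivAt_tsum_of_isPreconnected`, or
  `HasFPowerSeriesOnBall` of `FormalMultilinearSeries.ofScalars`. Variant without derivatives of
  series: for `N`, `S N = Σ_{m ≤ N} hs m` etc.; any proof is fine.)
-/

namespace Pool.Agent.Helper34.MVU

open Finset Filter Topology Pool.Agent.Helper60.MV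

/-- coefficients of `exp (1/2 Σ_{i ≥ 1} (ζ(2i) - 1) w^i / i)` -/
noncomputable def hs : ℕ → ℝ
  | 0 => 1
  | m + 1 => (∑ i : Fin (m + 1), (zet (2 * ((i : ℕ) + 1)) - 1) * hs (m - i)) / (2 * ((m : ℝ) + 1))
termination_by n => n
decreasing_by omega

theorem hs_rec (m : ℕ) : (2 * ((m : ℝ) + 1)) * hs (m + 1) =
    ∑ i ∈ range (m + 1), (zet (2 * (i + 1)) - 1) * hs (m - i) := by
  have h : (2 * ((m : ℝ) + 1)) ≠ 0 := by positivity
  rw [hs, mul_div_cancel₀ _ h, ← Fin.sum_univ_eq_sum_range
    (fun i => (zet (2 * (i + 1)) - 1) * hs (m - i))]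

private theorem hseq_a_nonneg (i : ℕ) : 0 ≤ zet (2 * (i + 1)) - 1 := by
  have := one_le_zet (2 * (i + 1)) (by omega)
  linarith

theorem hs_nonneg (m : ℕ) : 0 ≤ hs m := by
  induction m using Nat.strong_induction_on with
  | _ m ih =>
    rcases m with _ | m
    · rw [hs]
      exact zero_le_one
    · have h := hs_rec m
      have h1 : 0 ≤ ∑ i ∈ range (m + 1), (zet (2 * (i + 1)) - 1) * hs (m - i) :=
        Finset.sum_nonneg (fun i _ => mul_nonneg (hseq_a_nonneg i) (ih _ (by omega)))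
      rw [← h] at h1
      have h2 : (0:ℝ) < 2 * ((m : ℝ) + 1) := by positivity
      exact nonneg_of_mul_nonneg_right h1 h2

private theorem hseq_sum_le (m : ℕ) :
    ∑ i ∈ range (m + 1), 3 ^ (i + 1) * (zet (2 * (i + 1)) - 1) ≤ 12 := by
  have h1 : ∀ i ∈ range (m + 1), 3 ^ (i + 1) * (zet (2 * (i + 1)) - 1) ≤
      3 * (3 / 4 : ℝ) ^ i := by
    intro i _
    have h2 := zet_sub_one_le i
    calc (3:ℝ) ^ (i + 1) * (zet (2 * (i + 1)) - 1) ≤ 3 ^ (i + 1) * (1 / 4) ^ i :=
          mul_le_mul_of_nonneg_left h2 (by positivity)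
      _ = 3 * (3 / 4 : ℝ) ^ i := by
          rw [pow_succ, mul_comm ((3:ℝ) ^ i) 3, mul_assoc, ← mul_pow]
          norm_num
  refine (Finset.sum_le_sum h1).trans ?_
  rw [← Finset.mul_sum]
  have h3 : ∑ i ∈ range (m + 1), (3 / 4 : ℝ) ^ i ≤ 4 := by
    rw [geom_sum_eq (by norm_num)]
    have : (0:ℝ) ≤ (3 / 4 : ℝ) ^ (m + 1) := by positivity
    rw [div_le_iff_of_neg (by norm_num)]
    linarith
  linarith

theorem hs_bound : ∃ C : ℝ, ∀ m, hs m ≤ C * (1 / 3) ^ m := by
  refine ⟨∑ j ∈ range 6, 3 ^ j * hs j, ?_⟩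
  set C := ∑ j ∈ range 6, 3 ^ j * hs j with hC
  have hC0 : 0 ≤ C := Finset.sum_nonneg (fun j _ => mul_nonneg (by positivity) (hs_nonneg j))
  have key : ∀ m, 3 ^ m * hs m ≤ C := by
    intro m
    induction m using Nat.strong_induction_on with
    | _ m ih =>
      by_cases hm : m < 6
      · rw [hC]
        exact Finset.single_le_sum (f := fun j => (3:ℝ) ^ j * hs j)
          (fun j _ => mul_nonneg (by positivity) (hs_nonneg j)) (Finset.mem_range.mpr hm)
      · obtain ⟨k, rfl⟩ : ∃ k, m = k + 1 := ⟨m - 1, by omega⟩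
        have h1 : (2 * ((k : ℝ) + 1)) * (3 ^ (k + 1) * hs (k + 1)) =
            ∑ i ∈ range (k + 1), (3 ^ (i + 1) * (zet (2 * (i + 1)) - 1)) *
              (3 ^ (k - i) * hs (k - i)) := by
          rw [mul_left_comm, hs_rec, Finset.mul_sum]
          refine Finset.sum_congr rfl (fun i hi => ?_)
          rw [Finset.mem_range] at hi
          have h2 : (3:ℝ) ^ (k + 1) = 3 ^ (i + 1) * 3 ^ (k - i) := by
            rw [← pow_add]
            congr 1
            omega
          rw [h2]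
          ring
        have h3 : (2 * ((k : ℝ) + 1)) * (3 ^ (k + 1) * hs (k + 1)) ≤ 12 * C := by
          rw [h1]
          calc ∑ i ∈ range (k + 1), (3 ^ (i + 1) * (zet (2 * (i + 1)) - 1)) *
              (3 ^ (k - i) * hs (k - i)) ≤
              ∑ i ∈ range (k + 1), (3 ^ (i + 1) * (zet (2 * (i + 1)) - 1)) * C := by
                refine Finset.sum_le_sum (fun i _ => ?_)
                exact mul_le_mul_of_nonneg_left (ih _ (by omega))
                  (mul_nonneg (by positivity) (hseq_a_nonneg i))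
            _ ≤ 12 * C := by
                rw [← Finset.sum_mul]
                exact mul_le_mul_of_nonneg_right (hseq_sum_le k) hC0
        have h4 : (5:ℝ) ≤ k := by
          have : 5 ≤ k := by omega
          exact_mod_cast this
        have h5 : 0 ≤ 3 ^ (k + 1) * hs (k + 1) := mul_nonneg (by positivity) (hs_nonneg _)
        nlinarith
  intro m
  have h := key m
  have h3 : (0:ℝ) < 3 ^ m := by positivity
  rw [one_div, inv_pow, ← div_eq_mul_inv, le_div_iff₀ h3, mul_comm]
  exact h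

private theorem hseq_deriv (c : ℕ → ℝ) (C : ℝ) (hc : ∀ m, |c m| ≤ C * (1 / 3) ^ m) (x : ℝ)
    (hx : x ∈ Set.Ioo (-2 : ℝ) 2) :
    HasDerivAt (fun z : ℝ => ∑' m, c m * z ^ m) (∑' m : ℕ, ((m : ℝ) + 1) * c (m + 1) * x ^ m) x := by
  have hC : 0 ≤ C := by
    have := (abs_nonneg _).trans (hc 0)
    simpa using this
  have hu : Summable (fun n : ℕ => C * ((n : ℝ) ^ 1 * (2 / 3 : ℝ) ^ n)) :=
    (summable_pow_mul_geometric_of_norm_lt_one 1 (by norm_num)).mul_left C
  have hg' : ∀ (n : ℕ) (y : ℝ), y ∈ Set.Ioo (-2 : ℝ) 2 →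
      ‖c n * ((n : ℝ) * y ^ (n - 1))‖ ≤ C * ((n : ℝ) ^ 1 * (2 / 3 : ℝ) ^ n) := by
    intro n y hy
    have hy2 : |y| ≤ 2 := by
      rw [abs_le]
      exact ⟨hy.1.le, hy.2.le⟩
    rw [Real.norm_eq_abs, abs_mul, abs_mul, abs_pow, Nat.abs_cast, pow_one]
    have h1 : |y| ^ (n - 1) ≤ 2 ^ n := by
      calc |y| ^ (n - 1) ≤ 2 ^ (n - 1) := pow_le_pow_left₀ (abs_nonneg _) hy2 _
        _ ≤ 2 ^ n := pow_le_pow_right₀ (by norm_num) (by omega)
    calc |c n| * ((n : ℝ) * |y| ^ (n - 1)) ≤ (C * (1 / 3) ^ n) * ((n : ℝ) * 2 ^ n) := by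
          apply mul_le_mul (hc n)
          · exact mul_le_mul_of_nonneg_left h1 (Nat.cast_nonneg n)
          · positivity
          · positivity
      _ = C * ((n : ℝ) * (2 / 3 : ℝ) ^ n) := by
          rw [show (2 / 3 : ℝ) = (1 / 3) * 2 by norm_num, mul_pow]
          ring
  have hd := hasDerivAt_tsum_of_isPreconnected (t := Set.Ioo (-2 : ℝ) 2)
    (g := fun (n : ℕ) (z : ℝ) => c n * z ^ n)
    (g' := fun (n : ℕ) (z : ℝ) => c n * ((n : ℝ) * z ^ (n - 1))) (y₀ := 0) (y := x)
    hu isOpen_Ioo isPreconnected_Ioo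
    (fun n y _ => (hasDerivAt_pow n y).const_mul (c n)) hg' (by constructor <;> norm_num)
    (by
      apply summable_of_ne_finset_zero (s := {0})
      intro b hb
      rw [Finset.mem_singleton] at hb
      rw [zero_pow hb, mul_zero]) hx
  have hs : Summable (fun n : ℕ => c n * ((n : ℝ) * x ^ (n - 1))) :=
    Summable.of_norm_bounded hu (fun n => hg' n x hx)
  rw [hs.tsum_eq_zero_add] at hd
  simp only [Nat.cast_zero, zero_mul, mul_zero, zero_add, Nat.cast_add, Nat.cast_one,
    Nat.add_sub_cancel] at hd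
  have he : (∑' b : ℕ, c (b + 1) * (((b : ℝ) + 1) * x ^ b)) =
      ∑' m : ℕ, ((m : ℝ) + 1) * c (m + 1) * x ^ m := by
    refine tsum_congr (fun m => ?_)
    ring
  rw [he] at hd
  exact hd

private theorem hseq_summable (c : ℕ → ℝ) (C : ℝ) (hc : ∀ m, |c m| ≤ C * (1 / 3) ^ m) (x : ℝ)
    (hx : x ∈ Set.Ioo (-2 : ℝ) 2) : Summable (fun m : ℕ => ‖c m * x ^ m‖) := by
  have hC : 0 ≤ C := by
    have := (abs_nonneg _).trans (hc 0)
    simpa using this
  have hy2 : |x| ≤ 2 := by
    rw [abs_le]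
    exact ⟨hx.1.le, hx.2.le⟩
  refine Summable.of_nonneg_of_le (fun m => norm_nonneg _) (fun m => ?_)
    ((summable_geometric_of_lt_one (r := (2 / 3 : ℝ)) (by norm_num) (by norm_num)).mul_left C)
  rw [Real.norm_eq_abs, abs_mul, abs_pow]
  calc |c m| * |x| ^ m ≤ (C * (1 / 3) ^ m) * 2 ^ m := by
        apply mul_le_mul (hc m) (pow_le_pow_left₀ (abs_nonneg _) hy2 _)
        · positivity
        · positivity
    _ = C * (2 / 3 : ℝ) ^ m := by
        rw [show (2 / 3 : ℝ) = (1 / 3) * 2 by norm_num, mul_pow]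
        ring

/-- the logarithm coefficients -/
private noncomputable def hseqL : ℕ → ℝ
  | 0 => 0
  | i + 1 => (zet (2 * (i + 1)) - 1) / ((i : ℝ) + 1) / 2

private theorem hseqL_bound (m : ℕ) : |hseqL m| ≤ 4 * (1 / 3) ^ m := by
  rcases m with _ | i
  · simp [hseqL]
  · have h0 := hseq_a_nonneg i
    have h1 := zet_sub_one_le i
    have h2 : 0 ≤ hseqL (i + 1) := by
      rw [hseqL]
      positivity
    rw [abs_of_nonneg h2, hseqL]
    have h3 : (zet (2 * (i + 1)) - 1) / ((i : ℝ) + 1) / 2 ≤ zet (2 * (i + 1)) - 1 := by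
      rw [div_div]
      apply div_le_self h0
      have : (0:ℝ) ≤ i := Nat.cast_nonneg i
      linarith
    have h4 : (1 / 4 : ℝ) ^ i ≤ (1 / 3) ^ i :=
      pow_le_pow_left₀ (by norm_num) (by norm_num) _
    have h5 : (4:ℝ) * (1 / 3) ^ (i + 1) = 4 / 3 * (1 / 3) ^ i := by
      rw [pow_succ]
      ring
    have h6 : (0:ℝ) ≤ (1 / 3) ^ i := by positivity
    rw [h5]
    linarith

theorem hs_sum : HasSum hs (Real.sqrt 2) := by
  obtain ⟨C, hC⟩ := hs_bound
  have hC' : ∀ m, |hs m| ≤ C * (1 / 3) ^ m := fun m => by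
    rw [abs_of_nonneg (hs_nonneg m)]
    exact hC m
  have ha' : ∀ m : ℕ, |zet (2 * (m + 1)) - 1| ≤ 1 * (1 / 3) ^ m := fun m => by
    rw [abs_of_nonneg (hseq_a_nonneg m), one_mul]
    exact (zet_sub_one_le m).trans (pow_le_pow_left₀ (by norm_num) (by norm_num) _)
  set F : ℝ → ℝ := fun x => (∑' m, hs m * x ^ m) * Real.exp (-(∑' m, hseqL m * x ^ m)) with hF
  have hder : ∀ x ∈ Set.Ioo (-2 : ℝ) 2, HasDerivAt F 0 x := by
    intro x hx
    have h1 := hseq_deriv hs C hC' x hx
    have h2 := hseq_deriv hseqL 4 hseqL_bound x hx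
    have h3 := h1.mul (h2.neg.exp)
    have e1 : (∑' m : ℕ, ((m : ℝ) + 1) * hs (m + 1) * x ^ m) =
        1 / 2 * ((∑' i : ℕ, (zet (2 * (i + 1)) - 1) * x ^ i) * ∑' m, hs m * x ^ m) := by
      rw [tsum_mul_tsum_eq_tsum_sum_range_of_summable_norm
        (hseq_summable _ 1 ha' x hx) (hseq_summable _ C hC' x hx), ← tsum_mul_left]
      refine tsum_congr (fun m => ?_)
      have h4 := hs_rec m
      have h5 : ((m : ℝ) + 1) * hs (m + 1) =
          1 / 2 * ∑ i ∈ range (m + 1), (zet (2 * (i + 1)) - 1) * hs (m - i) := by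
        rw [← h4]
        ring
      rw [h5, mul_assoc, Finset.sum_mul]
      congr 1
      refine Finset.sum_congr rfl (fun i hi => ?_)
      rw [Finset.mem_range] at hi
      have h6 : x ^ m = x ^ i * x ^ (m - i) := by
        rw [← pow_add]
        congr 1
        omega
      rw [h6]
      ring
    have e2 : (∑' m : ℕ, ((m : ℝ) + 1) * hseqL (m + 1) * x ^ m) =
        1 / 2 * (∑' i : ℕ, (zet (2 * (i + 1)) - 1) * x ^ i) := by
      rw [← tsum_mul_left]
      refine tsum_congr (fun m => ?_)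
      rw [hseqL]
      have : ((m : ℝ) + 1) ≠ 0 := by positivity
      field_simp
    rw [e1, e2] at h3
    refine h3.congr_deriv ?_
    ring
  have hconst : F 1 = F 0 := by
    apply IsOpen.is_const_of_deriv_eq_zero (s := Set.Ioo (-2 : ℝ) 2) isOpen_Ioo isPreconnected_Ioo
    · intro x hx
      exact (hder x hx).differentiableAt.differentiableWithinAt
    · intro x hx
      exact (hder x hx).deriv
    · constructor <;> norm_num
    · constructor <;> norm_num
  have hS : Summable hs := by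
    have := hseq_summable hs C hC' 1 (by constructor <;> norm_num)
    simp only [one_pow, mul_one] at this
    exact this.of_norm
  have hz : ∀ c : ℕ → ℝ, (∑' m, c m * (0:ℝ) ^ m) = c 0 := by
    intro c
    rw [tsum_eq_single 0]
    · simp
    · intro b hb
      rw [zero_pow hb, mul_zero]
  have hL : (∑' m, hseqL m * (1:ℝ) ^ m) = Real.log 2 / 2 := by
    have hsum : HasSum (fun i => hseqL (i + 1)) (Real.log 2 / 2) := by
      simp only [hseqL]
      exact hasSum_log_two.div_const 2
    have hsum2 : HasSum hseqL (Real.log 2 / 2) := by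
      have := (hasSum_nat_add_iff (f := hseqL) 1).mp hsum
      simpa [hseqL] using this
    simp only [one_pow, mul_one]
    exact hsum2.tsum_eq
  have h1 : (∑' m, hs m) = Real.sqrt 2 := by
    rw [hF] at hconst
    simp only [hz, hL] at hconst
    simp only [one_pow, mul_one, hseqL, neg_zero, Real.exp_zero] at hconst
    have h0 : hs 0 = 1 := by rw [hs]
    rw [h0, Real.exp_neg, ← div_eq_mul_inv, div_eq_one_iff_eq (Real.exp_ne_zero _),
      Real.exp_half, Real.exp_log (by norm_num)] at hconst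
    exact hconst
  rw [← h1]
  exact hS.hasSum

end Pool.Agent.Helper34.MVU
end

/- Helper34.MVU.Wasym -/
section
/-!
Project MV, block U, module U-As3 (Wasym): asymptotics of the sequence with
`2 m w_m = Σ_{i=1}^m ζ(2i) w_{m-i}`, `w_0 = 1`.

PROOFS.
* `w_conv`: the convolution `c m = Σ_{j ≤ m} hs j * be (m-j)` satisfies `c 0 = 1` and
  `2(m+1) c(m+1) = Σ_{i ≤ m} ζ(2(i+1)) c(m-i)`:
  `2(m+1) c(m+1) = Σ_{j ≤ m+1} (2j hs j) be (m+1-j) + Σ_j hs j (2(m+1-j) be (m+1-j))`
  `= Σ_j Σ_{1 ≤ i ≤ j} (ζ(2i)-1) hs (j-i) be (m+1-j) + Σ_j hs j Σ_{1 ≤ i ≤ m+1-j} be (m+1-j-i)`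
  (`hs_rec`, `be_sum`) `= Σ_{i ≥ 1} (ζ(2i) - 1 + 1) c(m+1-i)`. (E.g. with `PowerSeries` and
  antidiagonals, or with `Finset.Nat.antidiagonal` sums.) Strong induction gives `w = c`.
* `w_tendsto`: `w m * √(π m) = Σ_j hs j * (if j ≤ m then be (m-j) * √(π m) else 0)`. For fixed `j`
  the factor tends to `1` (`be_tendsto` and `√(m/(m-j)) → 1`), and it is at most `2^j * be m √(π m)`
  `≤ 2^j * C` (`be_ratio`; a convergent sequence is bounded), `Σ_j hs j 2^j < ∞` (`hs_bound`).
  Dominated convergence: `tendsto_tsum_of_dominated_convergence`; `Σ hs j = √2`.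
* `w_bdd`: `w m * √(π m)` converges, `w 0 = 1`, so `w m ≤ C`.
-/

namespace Pool.Agent.Helper34.MVU

open Finset Filter Topology Pool.Agent.Helper60.MV

private theorem two_deriv_hs : (2 : PowerSeries ℝ) * PowerSeries.derivative ℝ (PowerSeries.mk hs) =
    PowerSeries.mk (fun i : ℕ => zet (2 * (i + 1)) - 1) * PowerSeries.mk hs := by
  ext m
  rw [show (2 : PowerSeries ℝ) = PowerSeries.C (2 : ℝ) from (map_ofNat PowerSeries.C 2).symm,
    PowerSeries.coeff_C_mul, PowerSeries.coeff_derivative, PowerSeries.coeff_mul,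
    Finset.Nat.sum_antidiagonal_eq_sum_range_succ_mk]
  simp only [PowerSeries.coeff_mk]
  rw [← hs_rec m]
  ring

private theorem two_deriv_be : (2 : PowerSeries ℝ) * PowerSeries.derivative ℝ (PowerSeries.mk be) =
    PowerSeries.mk (fun _ : ℕ => (1 : ℝ)) * PowerSeries.mk be := by
  ext m
  rw [show (2 : PowerSeries ℝ) = PowerSeries.C (2 : ℝ) from (map_ofNat PowerSeries.C 2).symm,
    PowerSeries.coeff_C_mul, PowerSeries.coeff_derivative, PowerSeries.coeff_mul,
    Finset.Nat.sum_antidiagonal_eq_sum_range_succ_mk]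
  simp only [PowerSeries.coeff_mk, one_mul]
  have h := be_sum m
  rw [← Finset.sum_range_reflect] at h
  have h2 : ∑ j ∈ range (m + 1), be (m + 1 - 1 - j) = ∑ j ∈ range (m + 1), be (m - j) := by
    simp
  rw [h2] at h
  rw [← h]
  ring

private theorem conv_rec (m : ℕ) : (2 * ((m : ℝ) + 1)) *
    PowerSeries.coeff (m + 1) (PowerSeries.mk hs * PowerSeries.mk be) =
    ∑ i ∈ range (m + 1), zet (2 * (i + 1)) *
      PowerSeries.coeff (m - i) (PowerSeries.mk hs * PowerSeries.mk be) := by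
  have h : (2 : PowerSeries ℝ) * PowerSeries.derivative ℝ (PowerSeries.mk hs * PowerSeries.mk be) =
      PowerSeries.mk (fun i : ℕ => zet (2 * (i + 1))) *
        (PowerSeries.mk hs * PowerSeries.mk be) := by
    have h1 : PowerSeries.mk (fun i : ℕ => zet (2 * (i + 1))) =
        PowerSeries.mk (fun i : ℕ => zet (2 * (i + 1)) - 1) +
        PowerSeries.mk (fun _ : ℕ => (1 : ℝ)) := by
      ext n
      simp
    have h2 := two_deriv_hs
    have h3 := two_deriv_be
    rw [Derivation.leibniz, h1, smul_eq_mul, smul_eq_mul]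
    calc (2 : PowerSeries ℝ) * (PowerSeries.mk hs * PowerSeries.derivative ℝ (PowerSeries.mk be) +
          PowerSeries.mk be * PowerSeries.derivative ℝ (PowerSeries.mk hs)) =
        PowerSeries.mk hs * (2 * PowerSeries.derivative ℝ (PowerSeries.mk be)) +
          PowerSeries.mk be * (2 * PowerSeries.derivative ℝ (PowerSeries.mk hs)) := by ring
      _ = _ := by rw [h2, h3]; ring
  have h4 := congrArg (PowerSeries.coeff m) h
  rw [show (2 : PowerSeries ℝ) = PowerSeries.C (2 : ℝ) from (map_ofNat PowerSeries.C 2).symm,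
    PowerSeries.coeff_C_mul, PowerSeries.coeff_derivative,
    PowerSeries.coeff_mul m (PowerSeries.mk (fun i : ℕ => zet (2 * (i + 1)))),
    Finset.Nat.sum_antidiagonal_eq_sum_range_succ_mk] at h4
  simp only [PowerSeries.coeff_mk] at h4
  rw [← h4]
  ring

theorem w_conv (w : ℕ → ℝ) (h0 : w 0 = 1)
    (hrec : ∀ m : ℕ, (2 * ((m : ℝ) + 1)) * w (m + 1) =
      ∑ i ∈ range (m + 1), zet (2 * (i + 1)) * w (m - i)) (m : ℕ) :
    w m = ∑ j ∈ range (m + 1), hs j * be (m - j) := by
  have key : ∀ n : ℕ, w n = PowerSeries.coeff n (PowerSeries.mk hs * PowerSeries.mk be) := by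
    intro n
    induction n using Nat.strong_induction_on with
    | _ n ih =>
      obtain _ | n := n
      · rw [h0, PowerSeries.coeff_mul]
        simp [be_zero, hs]
      · have h1 := hrec n
        have h2 := conv_rec n
        have h3 : ∑ i ∈ range (n + 1), zet (2 * (i + 1)) * w (n - i) =
            ∑ i ∈ range (n + 1), zet (2 * (i + 1)) *
              PowerSeries.coeff (n - i) (PowerSeries.mk hs * PowerSeries.mk be) := by
          apply Finset.sum_congr rfl
          intro i _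
          rw [ih (n - i) (by omega)]
        rw [h3, ← h2] at h1
        exact mul_left_cancel₀ (by positivity) h1
  rw [key, PowerSeries.coeff_mul, Finset.Nat.sum_antidiagonal_eq_sum_range_succ_mk]
  simp only [PowerSeries.coeff_mk]

theorem w_tendsto (w : ℕ → ℝ) (h0 : w 0 = 1)
    (hrec : ∀ m : ℕ, (2 * ((m : ℝ) + 1)) * w (m + 1) =
      ∑ i ∈ range (m + 1), zet (2 * (i + 1)) * w (m - i)) :
    Tendsto (fun m : ℕ => w m * Real.sqrt (Real.pi * m)) atTop (𝓝 (Real.sqrt 2)) := by
  obtain ⟨C1, hC1⟩ := hs_bound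
  obtain ⟨C2, hC2⟩ := be_tendsto.bddAbove_range
  have hC2' : ∀ m : ℕ, be m * Real.sqrt (Real.pi * m) ≤ C2 := by
    intro m
    exact hC2 ⟨m, rfl⟩
  have hC1' : 0 ≤ C1 := by
    have h := hC1 0
    have h2 := hs_nonneg 0
    simp only [pow_zero, mul_one] at h
    linarith
  have hC2'' : 0 ≤ C2 := by
    have h := hC2' 0
    simpa using h
  set f : ℕ → ℕ → ℝ := fun m j =>
    if j ≤ m then hs j * (be (m - j) * Real.sqrt (Real.pi * m)) else 0 with hf
  have hsum : ∀ m : ℕ, w m * Real.sqrt (Real.pi * m) = ∑' j, f m j := by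
    intro m
    rw [tsum_eq_sum (s := range (m + 1))]
    · rw [w_conv w h0 hrec m, Finset.sum_mul]
      apply Finset.sum_congr rfl
      intro j hj
      have hj' : j ≤ m := by
        have := Finset.mem_range.1 hj
        omega
      simp only [hf, hj', if_true]
      ring
    · intro j hj
      have hj' : ¬ j ≤ m := by
        intro h
        exact hj (Finset.mem_range.2 (by omega))
      simp only [hf, hj', if_false]
  have hlim : ∀ j : ℕ, Tendsto (fun m => f m j) atTop (𝓝 (hs j)) := by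
    intro j
    rw [← tendsto_add_atTop_iff_nat j]
    have h1 : Tendsto (fun m : ℕ => Real.sqrt ((m : ℝ) / ((m : ℝ) + (j : ℝ)))) atTop (𝓝 1) := by
      have h := (tendsto_natCast_div_add_atTop (j : ℝ)).sqrt
      rwa [Real.sqrt_one] at h
    have h2 : Tendsto (fun m : ℕ => hs j * ((be m * Real.sqrt (Real.pi * m)) /
        Real.sqrt ((m : ℝ) / ((m : ℝ) + (j : ℝ))))) atTop (𝓝 (hs j * (1 / 1))) :=
      (be_tendsto.div h1 one_ne_zero).const_mul _
    rw [div_one, mul_one] at h2
    refine h2.congr' ?_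
    filter_upwards [eventually_ge_atTop 1] with m hm
    have hm' : (0:ℝ) < m := by exact_mod_cast hm
    have hj' : j ≤ m + j := by omega
    simp only [hf, hj', if_true]
    have h3 : m + j - j = m := by omega
    rw [h3]
    have hpos : (0:ℝ) < (m : ℝ) + j := by positivity
    have h4 : Real.sqrt (Real.pi * ((m + j : ℕ) : ℝ)) =
        Real.sqrt (Real.pi * m) / Real.sqrt ((m : ℝ) / ((m : ℝ) + (j : ℝ))) := by
      rw [← Real.sqrt_div (by positivity)]
      congr 1
      push_cast
      field_simp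
    rw [h4]
    ring
  have hbound : ∀ᶠ m in atTop, ∀ j, ‖f m j‖ ≤ C1 * C2 * (2 / 3 : ℝ) ^ j := by
    refine Eventually.of_forall fun m j => ?_
    by_cases hj : j ≤ m
    · have hn := hs_nonneg j
      have hb := (be_pos (m - j)).le
      simp only [hf, hj, if_true]
      rw [Real.norm_of_nonneg (by positivity)]
      have h1 : be (m - j) * Real.sqrt (Real.pi * m) ≤ 2 ^ j * C2 := by
        calc be (m - j) * Real.sqrt (Real.pi * m) ≤ 2 ^ j * be m * Real.sqrt (Real.pi * m) := by
              exact mul_le_mul_of_nonneg_right (be_ratio m j hj) (Real.sqrt_nonneg _)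
          _ = 2 ^ j * (be m * Real.sqrt (Real.pi * m)) := by ring
          _ ≤ 2 ^ j * C2 := by
              exact mul_le_mul_of_nonneg_left (hC2' m) (by positivity)
      calc hs j * (be (m - j) * Real.sqrt (Real.pi * m)) ≤
          (C1 * (1 / 3) ^ j) * (2 ^ j * C2) :=
            mul_le_mul (hC1 j) h1 (by positivity) (by positivity)
        _ = C1 * C2 * (2 / 3 : ℝ) ^ j := by
            rw [show (2 / 3 : ℝ) = (1 / 3) * 2 by norm_num, mul_pow]
            ring
    · simp only [hf, hj, if_false, norm_zero]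
      positivity
  have hsummable : Summable (fun j : ℕ => C1 * C2 * (2 / 3 : ℝ) ^ j) :=
    (summable_geometric_of_lt_one (by norm_num) (by norm_num)).mul_left _
  have hmain := tendsto_tsum_of_dominated_convergence hsummable hlim hbound
  rw [hs_sum.tsum_eq] at hmain
  refine hmain.congr fun m => ?_
  rw [hsum m]

theorem w_bdd (w : ℕ → ℝ) (h0 : w 0 = 1)
    (hrec : ∀ m : ℕ, (2 * ((m : ℝ) + 1)) * w (m + 1) =
      ∑ i ∈ range (m + 1), zet (2 * (i + 1)) * w (m - i)) :
    ∃ C : ℝ, ∀ m, w m ≤ C := by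
  refine ⟨Real.sqrt 2, fun m => ?_⟩
  rw [w_conv w h0 hrec m]
  calc ∑ j ∈ range (m + 1), hs j * be (m - j) ≤ ∑ j ∈ range (m + 1), hs j := by
        apply Finset.sum_le_sum
        intro j _
        exact mul_le_of_le_one_right (hs_nonneg j) (be_le_one _)
    _ ≤ Real.sqrt 2 := sum_le_hasSum _ (fun j _ => hs_nonneg j) hs_sum

end Pool.Agent.Helper34.MVU
end

/- Helper34.MVU.MainE -/
section
/-!
Project MV, block U, module U-Main (MainE): the main term.

PROOFS. Put `w m = Wick (qP (2m)) / 4^m`. `Wick_qP_rec` divided by `4^(m+1)` is the recursion of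
`w_tendsto` (`4^(i+1) / 4^(m+1) = 1/4^(m-i)`), `w 0 = Wick 1 = 1` (`qP 0 = 1` by `rw [qP]`).
* `mainE_odd`: `Wick_qP_odd`.
* `mainE_even`: `mainE (2m) / bE (2m) = 1/2 cc(2m) 4^m w m / (2^(2m) (2m-1)!)`
  `= 1/2 (2m)!/(2m-1)! be(2m) w m = m be(2m) w m` for `m ≥ 1` (`cc_eq`), and
  `m be(2m) w m = (be(2m) √(2π m)) (w m √(π m)) m/(√(2π m) √(π m)) → 1 * √2 / (√2 π) = 1/π`.
* `Wick_qP_le`: odd `n`: `0`; `n = 2m`: `4^m w m ≤ C 4^m = C 2^n` (`w_bdd`).
-/

namespace Pool.Agent.Helper34.MVU

open Finset Filter Topology Pool.Agent.Helper60.MV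

/-- the normalised numbers -/
private noncomputable def ww_pv2 (m : ℕ) : ℝ := Wick (qP (2 * m)) / 4 ^ m

private theorem ww_zero : ww_pv2 0 = 1 := by
  unfold ww_pv2
  rw [mul_zero, qP, Wick_one, pow_zero, div_one]

private theorem ww_rec (m : ℕ) : (2 * ((m : ℝ) + 1)) * ww_pv2 (m + 1) =
    ∑ i ∈ range (m + 1), zet (2 * (i + 1)) * ww_pv2 (m - i) := by
  unfold ww_pv2
  rw [← mul_div_assoc, Wick_qP_rec, Finset.sum_div]
  refine Finset.sum_congr rfl fun i hi => ?_
  have hi' : i ≤ m := Nat.lt_succ_iff.1 (Finset.mem_range.1 hi)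
  have h4 : (4 : ℝ) ^ (m + 1) = 4 ^ (i + 1) * 4 ^ (m - i) := by
    rw [← pow_add]
    congr 1
    omega
  rw [h4]
  have h5 : (4 : ℝ) ^ (i + 1) ≠ 0 := by positivity
  have h6 : (4 : ℝ) ^ (m - i) ≠ 0 := by positivity
  field_simp

private theorem ww_key (m : ℕ) :
    (be (2 * m) * Real.sqrt (Real.pi * ((2 * m : ℕ) : ℝ))) * (ww_pv2 m * Real.sqrt (Real.pi * m)) /
      (Real.sqrt 2 * Real.pi) = m * be (2 * m) * ww_pv2 m := by
  have h1 : Real.sqrt (Real.pi * ((2 * m : ℕ) : ℝ)) = Real.sqrt 2 * Real.sqrt (Real.pi * m) := by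
    rw [← Real.sqrt_mul (by norm_num : (0 : ℝ) ≤ 2)]
    congr 1
    push_cast
    ring
  have h2 : Real.sqrt (Real.pi * m) * Real.sqrt (Real.pi * m) = Real.pi * m :=
    Real.mul_self_sqrt (by positivity)
  have h3 : Real.sqrt 2 ≠ 0 := by positivity
  have h4 : Real.pi ≠ 0 := Real.pi_ne_zero
  rw [h1, div_eq_iff (by positivity)]
  calc be (2 * m) * (Real.sqrt 2 * Real.sqrt (Real.pi * m)) * (ww_pv2 m * Real.sqrt (Real.pi * m))
      = be (2 * m) * Real.sqrt 2 * ww_pv2 m * (Real.sqrt (Real.pi * m) * Real.sqrt (Real.pi * m)) := by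
        ring
    _ = _ := by rw [h2]; ring

theorem mainE_even :
    Tendsto (fun E : ℕ => mainE (2 * E) / bE (2 * E)) atTop (𝓝 (1 / Real.pi)) := by
  have h1 : Tendsto (fun m : ℕ => be (2 * m) * Real.sqrt (Real.pi * ((2 * m : ℕ) : ℝ))) atTop
      (𝓝 1) := by
    have h2 : Tendsto (fun m : ℕ => 2 * m) atTop atTop :=
      tendsto_id.const_mul_atTop' (by norm_num)
    exact be_tendsto.comp h2
  have h3 : Tendsto (fun m : ℕ => ww_pv2 m * Real.sqrt (Real.pi * m)) atTop (𝓝 (Real.sqrt 2)) :=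
    w_tendsto ww_pv2 ww_zero ww_rec
  have h4 := (h1.mul h3).div_const (Real.sqrt 2 * Real.pi)
  have h5 : (1 : ℝ) * Real.sqrt 2 / (Real.sqrt 2 * Real.pi) = 1 / Real.pi := by
    have h6 : Real.sqrt 2 ≠ 0 := by positivity
    have h7 : Real.pi ≠ 0 := Real.pi_ne_zero
    field_simp
  rw [h5] at h4
  refine h4.congr' ?_
  filter_upwards [eventually_ge_atTop 1] with m hm
  rw [ww_key]
  have h8 : ((2 * m).factorial : ℝ) = (2 * m : ℝ) * ((2 * m - 1).factorial : ℝ) := by
    obtain ⟨k, hk⟩ : ∃ k, 2 * m = k + 1 := ⟨2 * m - 1, by omega⟩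
    have hk' : (2 * m : ℝ) = (k : ℝ) + 1 := by exact_mod_cast congrArg (fun x : ℕ => (x : ℝ)) hk
    rw [hk', hk, Nat.factorial_succ, Nat.add_sub_cancel]
    push_cast
    ring
  have h9 : (2 : ℝ) ^ (2 * m) = 4 ^ m := by
    rw [pow_mul]
    norm_num
  unfold mainE bE ww_pv2
  rw [cc_eq, h8, h9]
  have h10 : ((2 * m - 1).factorial : ℝ) ≠ 0 := by positivity
  have h11 : (4 : ℝ) ^ m ≠ 0 := by positivity
  field_simp

theorem mainE_odd (E : ℕ) (hE : Odd E) : mainE E = 0 := by
  unfold mainE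
  rw [Wick_qP_odd E hE, mul_zero]

theorem Wick_qP_le : ∃ C : ℝ, 0 ≤ C ∧ ∀ n, Wick (qP n) ≤ C * 2 ^ n := by
  obtain ⟨C, hC⟩ := w_bdd ww_pv2 ww_zero ww_rec
  refine ⟨max C 0, le_max_right _ _, fun n => ?_⟩
  rcases Nat.even_or_odd n with ⟨m, hm⟩ | hn
  · have h1 : n = 2 * m := by omega
    subst h1
    have h2 : Wick (qP (2 * m)) = ww_pv2 m * 4 ^ m := by
      unfold ww_pv2
      rw [div_mul_cancel₀]
      positivity
    have h9 : (2 : ℝ) ^ (2 * m) = 4 ^ m := by
      rw [pow_mul]
      norm_num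
    rw [h2, h9]
    exact mul_le_mul_of_nonneg_right ((hC m).trans (le_max_left _ _)) (by positivity)
  · rw [Wick_qP_odd n hn]
    positivity

end Pool.Agent.Helper34.MVU
end

/- Helper34.MVU.WickQ -/
section
/-!
Project MV, block U, module U-U3 (WickQ): `Wick (qP n * g) ≤ C_g 2^n` for a fixed polynomial `g`
with nonnegative coefficients.

PROOF. By linearity (`g = Σ_{m ∈ support} coeff m g * monomial m 1`, all coefficients `≥ 0`) it is
enough to treat `g = monomial m 1`, by induction on the degree `Σ m`. Degree `0`: `Wick_qP_le`.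
Let `monomial m 1 = X k * g'` with `g' = monomial m' 1`. `Wick_X_mul` (with `N` large):
`Wick (X k * (qP n * g')) = Σ_{l<N} Cov k l Wick (∂_l (qP n * g'))`
`= Σ_l Cov k l Wick (qP n * ∂_l g') + Σ_{l, 2l+1 ≤ n} Cov k l (2/(2l+1)) Wick (qP (n-2l-1) * g')`.
First sum: only `l ∈ m'.support` contribute, `∂_l g' = m'_l * monomial (m' - e_l) 1` has smaller
degree: `≤ C 2^n`. Second sum: by the induction hypothesis for `g'`
`≤ C' 2^n Σ_l Cov k l 2^(-2l)`, and `Cov k l ≤ 2 (2k+2l+1)!/(2l)! ≤ 2 (2k+2l+1)^(2k+1)` (`ζ ≤ 2`,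
`Nat.factorial_lt`/`Nat.pow_sub_le_descFactorial`-type bound), which is summable against `4^(-l)`
(`summable_pow_mul_geometric_of_norm_lt_one` after `(2k+2l+1) ≤ (2k+1)(2l+1)…`, or any other way).
The partial sums over `l < N` are bounded by the total sum, so the constant does not depend on `n`
and `N`.
-/

namespace Pool.Agent.Helper34.MVU

open Finset MvPolynomial Pool.Agent.Helper60.MV

private def Bd (g : MvPolynomial ℕ ℝ) : Prop :=
  ∃ C : ℝ, 0 ≤ C ∧ ∀ n, Wick (qP n * g) ≤ C * 2 ^ n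

private theorem Bd_zero : Bd 0 := by
  refine ⟨0, le_refl _, ?_⟩
  intro n
  rw [mul_zero, Wick_zero, zero_mul]

private theorem Bd_C_mul (c : ℝ) (hc : 0 ≤ c) (g : MvPolynomial ℕ ℝ) (hg : Bd g) :
    Bd (C c * g) := by
  obtain ⟨D, hD, h⟩ := hg
  refine ⟨c * D, mul_nonneg hc hD, ?_⟩
  intro n
  rw [show qP n * (C c * g) = C c * (qP n * g) by ring, Wick_C_mul, mul_assoc]
  exact mul_le_mul_of_nonneg_left (h n) hc

private theorem Bd_sum {ι : Type*} (s : Finset ι) (f : ι → MvPolynomial ℕ ℝ)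
    (hf : ∀ i ∈ s, Bd (f i)) : Bd (∑ i ∈ s, f i) := by
  classical
  induction s using Finset.induction_on with
  | empty => simpa using Bd_zero
  | insert a s ha ih =>
    obtain ⟨D, hD, h⟩ := hf a (Finset.mem_insert_self a s)
    obtain ⟨D', hD', h'⟩ := ih (fun i hi => hf i (Finset.mem_insert_of_mem hi))
    refine ⟨D + D', add_nonneg hD hD', ?_⟩
    intro n
    rw [Finset.sum_insert ha, mul_add, Wick_add, add_mul]
    exact add_le_add (h n) (h' n)

private theorem Cov_eq_choose (k l : ℕ) :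
    Cov k l = (2 * (k : ℝ) + 1) * ((2 * l + (2 * k + 1)).choose (2 * k + 1) : ℝ) *
      zet (2 * k + 2 * l + 2) := by
  have hle : 2 * k + 1 ≤ 2 * l + (2 * k + 1) := by omega
  rw [Nat.cast_choose ℝ hle, show 2 * l + (2 * k + 1) - (2 * k + 1) = 2 * l by omega, Cov,
    show 2 * l + (2 * k + 1) = 2 * k + 2 * l + 1 by ring, Nat.factorial_succ (2 * k)]
  have h1 : ((2 * k).factorial : ℝ) ≠ 0 := by positivity
  have h2 : ((2 * l).factorial : ℝ) ≠ 0 := by positivity
  have h3 : (2 * (k : ℝ) + 1) ≠ 0 := by positivity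
  push_cast
  field_simp

private theorem summable_Cov (k : ℕ) : Summable (fun l : ℕ => Cov k l * (1 / 4 : ℝ) ^ l) := by
  have h1 : Summable (fun n : ℕ => ((n + (2 * k + 1)).choose (2 * k + 1) : ℝ) * (1 / 2 : ℝ) ^ n) :=
    summable_choose_mul_geometric_of_norm_lt_one (2 * k + 1) (by norm_num)
  have h2 : Summable (fun l : ℕ => ((2 * l + (2 * k + 1)).choose (2 * k + 1) : ℝ) *
      (1 / 2 : ℝ) ^ (2 * l)) :=
    h1.comp_injective (i := fun l : ℕ => 2 * l) (fun a b hab => by simpa using hab)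
  have h3 := h2.mul_left (2 * (2 * (k : ℝ) + 1))
  refine Summable.of_nonneg_of_le (fun l => ?_) (fun l => ?_) h3
  · have := Cov_nonneg k l
    positivity
  · rw [Cov_eq_choose, pow_mul]
    have hz := zet_le_two (2 * k + 2 * l + 2) (by omega)
    have h4 : (0 : ℝ) ≤ (2 * (k : ℝ) + 1) * ((2 * l + (2 * k + 1)).choose (2 * k + 1) : ℝ) := by
      positivity
    have h5 : (2 * (k : ℝ) + 1) * ((2 * l + (2 * k + 1)).choose (2 * k + 1) : ℝ) *
        zet (2 * k + 2 * l + 2) ≤
        (2 * (k : ℝ) + 1) * ((2 * l + (2 * k + 1)).choose (2 * k + 1) : ℝ) * 2 :=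
      mul_le_mul_of_nonneg_left hz h4
    have h6 : ((1 / 2 : ℝ) ^ 2) ^ l = (1 / 4 : ℝ) ^ l := by norm_num
    rw [h6]
    have h7 : (0 : ℝ) ≤ (1 / 4 : ℝ) ^ l := by positivity
    calc _ ≤ (2 * (k : ℝ) + 1) * ((2 * l + (2 * k + 1)).choose (2 * k + 1) : ℝ) * 2 *
          (1 / 4 : ℝ) ^ l := mul_le_mul_of_nonneg_right h5 h7
      _ = _ := by ring

private theorem Bd_step (k : ℕ) (m' : ℕ →₀ ℕ) (h0 : Bd (monomial m' 1))
    (h1 : ∀ l, Bd (pderiv l (monomial m' (1 : ℝ)))) :
    Bd (X k * monomial m' 1) := by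
  classical
  obtain ⟨D, hD, h⟩ := h0
  choose E hE hE' using h1
  set T : ℝ := ∑' l : ℕ, Cov k l * (1 / 4 : ℝ) ^ l with hT
  have hT0 : 0 ≤ T := tsum_nonneg (fun l => mul_nonneg (Cov_nonneg k l) (by positivity))
  have hS : 0 ≤ ∑ l ∈ m'.support, Cov k l * E l :=
    Finset.sum_nonneg (fun l _ => mul_nonneg (Cov_nonneg k l) (hE l))
  refine ⟨T * D + ∑ l ∈ m'.support, Cov k l * E l, by positivity, ?_⟩
  intro n
  set N : ℕ := n + 1 + (m'.support.sup id + 1) with hN
  have hvars : ∀ l ∈ (qP n * monomial m' (1 : ℝ)).vars, l < N := by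
    intro l hl
    have h2 := MvPolynomial.vars_mul _ _ hl
    rcases Finset.mem_union.mp h2 with h3 | h3
    · have := vars_qP n l h3
      omega
    · rw [MvPolynomial.vars_monomial one_ne_zero] at h3
      have : l ≤ m'.support.sup id := Finset.le_sup (f := id) h3
      omega
  have hsub : m'.support ⊆ range N := by
    intro l hl
    have : l ≤ m'.support.sup id := Finset.le_sup (f := id) hl
    rw [Finset.mem_range]
    omega
  rw [show qP n * (X k * monomial m' (1 : ℝ)) = X k * (qP n * monomial m' 1) by ring,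
    Wick_X_mul k _ N hvars]
  have h2 : ∀ l ∈ range N, Cov k l * Wick (pderiv l (qP n * monomial m' (1 : ℝ))) =
      Cov k l * Wick (pderiv l (qP n) * monomial m' 1) +
        Cov k l * Wick (qP n * pderiv l (monomial m' (1 : ℝ))) := by
    intro l _
    rw [MvPolynomial.pderiv_mul, Wick_add, mul_add]
  rw [Finset.sum_congr rfl h2, Finset.sum_add_distrib, add_mul]
  apply add_le_add
  · have h3 : ∀ l ∈ range N, Cov k l * Wick (pderiv l (qP n) * monomial m' 1) ≤
        (Cov k l * (1 / 4 : ℝ) ^ l) * (D * 2 ^ n) := by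
      intro l _
      rw [mul_assoc]
      apply mul_le_mul_of_nonneg_left _ (Cov_nonneg k l)
      rw [pderiv_qP]
      split_ifs with h4
      · rw [mul_assoc, Wick_C_mul]
        have h5 := h (n - (2 * l + 1))
        have h6 : (2 : ℝ) / (2 * (l : ℝ) + 1) ≤ 2 := by
          rw [div_le_iff₀ (by positivity)]
          have : (0 : ℝ) ≤ l := Nat.cast_nonneg l
          linarith
        have h7 : (0 : ℝ) ≤ 2 / (2 * (l : ℝ) + 1) := by positivity
        calc 2 / (2 * (l : ℝ) + 1) * Wick (qP (n - (2 * l + 1)) * monomial m' 1)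
            ≤ 2 / (2 * (l : ℝ) + 1) * (D * 2 ^ (n - (2 * l + 1))) :=
              mul_le_mul_of_nonneg_left h5 h7
          _ ≤ 2 * (D * 2 ^ (n - (2 * l + 1))) :=
              mul_le_mul_of_nonneg_right h6 (by positivity)
          _ = (1 / 4 : ℝ) ^ l * (D * 2 ^ n) := by
              have h8 : (2 : ℝ) ^ n = 2 ^ (n - (2 * l + 1)) * (4 ^ l * 2) := by
                rw [show (4 : ℝ) = 2 ^ 2 by norm_num, ← pow_mul, ← pow_succ, ← pow_add]
                congr 1
                omega
              rw [h8, div_pow, one_pow]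
              have h9 : ((4 : ℝ) ^ l) ≠ 0 := by positivity
              field_simp
      · rw [zero_mul, Wick_zero]
        positivity
    calc _ ≤ ∑ l ∈ range N, (Cov k l * (1 / 4 : ℝ) ^ l) * (D * 2 ^ n) := Finset.sum_le_sum h3
      _ = (∑ l ∈ range N, Cov k l * (1 / 4 : ℝ) ^ l) * (D * 2 ^ n) := by
          rw [Finset.sum_mul]
      _ ≤ T * (D * 2 ^ n) := by
          apply mul_le_mul_of_nonneg_right _ (by positivity)
          exact (summable_Cov k).sum_le_tsum _
            (fun l _ => mul_nonneg (Cov_nonneg k l) (by positivity))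
      _ = T * D * 2 ^ n := by ring
  · rw [← Finset.sum_subset hsub, Finset.sum_mul]
    · apply Finset.sum_le_sum
      intro l _
      rw [mul_assoc]
      exact mul_le_mul_of_nonneg_left (hE' l n) (Cov_nonneg k l)
    · intro l _ hl
      rw [MvPolynomial.pderiv_monomial, Finsupp.notMem_support_iff.mp hl]
      simp [Wick_zero]

private theorem Bd_monomial (d : ℕ) : ∀ m : ℕ →₀ ℕ, m.degree = d → Bd (monomial m 1) := by
  classical
  induction d using Nat.strong_induction_on with
  | _ d ih =>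
    intro m hm
    by_cases hm0 : m = 0
    · subst hm0
      obtain ⟨D, hD, h⟩ := Wick_qP_le
      refine ⟨D, hD, ?_⟩
      intro n
      have h1 : (monomial (0 : ℕ →₀ ℕ) (1 : ℝ)) = 1 := rfl
      rw [h1, mul_one]
      exact h n
    · obtain ⟨k, hk⟩ : ∃ k, m k ≠ 0 := by
        by_contra hcon
        push_neg at hcon
        exact hm0 (Finsupp.ext hcon)
      set m' : ℕ →₀ ℕ := m - Finsupp.single k 1 with hm'
      have hadd : Finsupp.single k 1 + m' = m := by
        rw [hm']
        ext j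
        rw [Finsupp.add_apply, Finsupp.tsub_apply]
        by_cases hj : k = j
        · subst hj
          rw [Finsupp.single_eq_same]
          omega
        · rw [Finsupp.single_apply, if_neg hj]
          omega
      have hX : (monomial m (1 : ℝ)) = X k * monomial m' 1 := by
        rw [← hadd, MvPolynomial.X, MvPolynomial.monomial_mul, one_mul]
      have hdeg : m'.degree + 1 = d := by
        rw [← hm, ← hadd, map_add, Finsupp.degree_single]
        ring
      rw [hX]
      apply Bd_step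
      · exact ih m'.degree (by omega) m' rfl
      · intro l
        rw [MvPolynomial.pderiv_monomial, one_mul]
        by_cases hl : m' l = 0
        · rw [hl]
          simpa using Bd_zero
        · have h1 : (monomial (m' - Finsupp.single l 1) ((m' l : ℕ) : ℝ)) =
              C ((m' l : ℕ) : ℝ) * monomial (m' - Finsupp.single l 1) 1 := by
            rw [MvPolynomial.C_mul_monomial, mul_one]
          rw [h1]
          apply Bd_C_mul _ (Nat.cast_nonneg _)
          have hadd2 : Finsupp.single l 1 + (m' - Finsupp.single l 1) = m' := by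
            ext j
            rw [Finsupp.add_apply, Finsupp.tsub_apply]
            by_cases hj : l = j
            · subst hj
              rw [Finsupp.single_eq_same]
              omega
            · rw [Finsupp.single_apply, if_neg hj]
              omega
          have hdeg2 : (m' - Finsupp.single l 1).degree + 1 = m'.degree := by
            conv_rhs => rw [← hadd2, map_add, Finsupp.degree_single]
            ring
          exact ih (m' - Finsupp.single l 1).degree (by omega) _ rfl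

theorem Wick_qP_mul_le (g : MvPolynomial ℕ ℝ) (hg : ∀ m, 0 ≤ g.coeff m) :
    ∃ C : ℝ, 0 ≤ C ∧ ∀ n, Wick (qP n * g) ≤ C * 2 ^ n := by
  have h1 : g = ∑ m ∈ g.support, C (g.coeff m) * monomial m 1 := by
    conv_lhs => rw [MvPolynomial.as_sum g]
    apply Finset.sum_congr rfl
    intro m _
    rw [MvPolynomial.C_mul_monomial, mul_one]
  have h2 : Bd (∑ m ∈ g.support, C (g.coeff m) * monomial m 1) := by
    apply Bd_sum
    intro m _
    exact Bd_C_mul _ (hg m) _ (Bd_monomial m.degree m rfl)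
  rw [← h1] at h2
  exact h2

end Pool.Agent.Helper34.MVU
end

/- Helper72.MVAA.Defs -/
section
/-!
Project MV, block AA (helper72): definitions.
-/

namespace Pool.Agent.Helper72.MVAA

open Finset Pool.Agent.Helper60.MV

/-- number of cycles -/
noncomputable def nf {H : Type} [Fintype H] (g : Equiv.Perm H) : ℕ := Fintype.card (Cyc g)

/-- all pairings -/
noncomputable def PR (H : Type) [Fintype H] : Finset (Equiv.Perm H) := by
  classical
  exact univ.filter (fun τ => IsPairing τ)

/-- the pairings which pair `x` with `y` and the elements of `M` with elements outside `M`,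
and all elements outside `M` except `x`, `y` with elements of `M` -/
noncomputable def TT {H : Type} [Fintype H] (M : Finset H) (x y : H) :
    Finset (Equiv.Perm H) := by
  classical
  exact univ.filter (fun τ => IsPairing τ ∧ τ x = y ∧ (∀ h ∈ M, τ h ∉ M) ∧
    ∀ h, h ∉ M → h ≠ x → h ≠ y → τ h ∈ M)

theorem mem_PR {H : Type} [Fintype H] (τ : Equiv.Perm H) : τ ∈ PR H ↔ IsPairing τ := by
  classical
  simp [PR]

theorem mem_TT {H : Type} [Fintype H] (M : Finset H) (x y : H) (τ : Equiv.Perm H) :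
    τ ∈ TT M x y ↔ IsPairing τ ∧ τ x = y ∧ (∀ h ∈ M, τ h ∉ M) ∧
    ∀ h, h ∉ M → h ≠ x → h ≠ y → τ h ∈ M := by
  classical
  simp [TT]

theorem sameCycle_iff {H : Type} (g : Equiv.Perm H) (a b : H) :
    cyc g a = cyc g b ↔ g.SameCycle a b := by
  constructor
  · intro h
    exact Quotient.exact h
  · intro h
    exact Quotient.sound h

/-- the sign function of an AA configuration at the edge `{x, y}` -/
structure IsSgn {H : Type} (σ : Equiv.Perm H) (x y : H) (μ : H → ℤ) : Prop where
  vals : ∀ h, μ h = 1 ∨ μ h = -1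
  one : μ x = 1
  one' : μ y = 1
  sx : μ (σ x) = 1
  sy : μ (σ y) = 1
  alt : ∀ h, h ≠ x → h ≠ y → μ (σ h) = - μ h
  diff : ¬ σ.SameCycle x y

/-- the minus elements -/
noncomputable def MM {H : Type} [Fintype H] (μ : H → ℤ) : Finset H := by
  classical
  exact univ.filter (fun h => μ h = -1)

theorem mem_MM {H : Type} [Fintype H] (μ : H → ℤ) (h : H) : h ∈ MM μ ↔ μ h = -1 := by
  classical
  simp [MM]

end Pool.Agent.Helper72.MVAA
end

/- Helper72.MVAA.Card -/
section
/-!
Project MV, block AA, module AA-1 (cards).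

* `card_labs`: labellings by `Fin z` constant along `g` are the functions on the cycles
  (`Quotient.lift`); so there are `z ^ nf g` of them.
* `nf_pairing`: every cycle of a pairing has exactly two elements `{a, β a}`: the map
  `α → Cyc β`, `a ↦ cyc β a` has all fibres of size two (`SameCycle a b ↔ b = a ∨ b = β a`).
  Use `Finset.card_eq_sum_card_fiberwise` (or `Fintype.card_sigma`).
* `card_PR_le`: choose any injection `rk : α → ℕ` (or `α ≃ Fin n`). A pairing `β` is determined by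
  `O = {a | rk a < rk (β a)}` (which has `card α / 2` elements, as `β` maps `O` onto its complement)
  and by the restriction of `β` to `O` (a function `O → α`). Number of `O`: at most `2 ^ card α`,
  number of functions for given `O`: `(card α) ^ (card α / 2)`. If `card α` is odd there is no
  pairing.
* `nf_pos`, `nf_le`: obvious (`cyc g` is onto).
-/

namespace Pool.Agent.Helper72.MVAA

open Finset Pool.Agent.Helper60.MV

private theorem lab_const {H Z : Type} (g : Equiv.Perm H) (lab : H → Z)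
    (hl : ∀ h, lab (g h) = lab h) {a b : H} (hab : g.SameCycle a b) : lab a = lab b := by
  obtain ⟨i, rfl⟩ := hab
  have hinv : ∀ h, lab (g⁻¹ h) = lab h := by
    intro h
    rw [← hl (g⁻¹ h)]
    simp
  induction i using Int.induction_on with
  | zero => simp
  | succ i ih =>
    rw [add_comm, zpow_add, Equiv.Perm.mul_apply, zpow_one, hl]
    exact ih
  | pred i ih =>
    rw [sub_eq_add_neg, add_comm, zpow_add, Equiv.Perm.mul_apply, zpow_neg_one, hinv]
    exact ih

private def labEquiv {H Z : Type} (g : Equiv.Perm H) :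
    {lab : H → Z // ∀ h, lab (g h) = lab h} ≃ (Cyc g → Z) where
  toFun lab := fun c => Quotient.lift lab.1 (fun _ _ hab => lab_const g lab.1 lab.2 hab) c
  invFun F := ⟨fun h => F (cyc g h), fun h => by
    have : cyc g (g h) = cyc g h := by
      rw [sameCycle_iff]
      exact ⟨-1, by simp⟩
    change F (cyc g (g h)) = F (cyc g h)
    rw [this]⟩
  left_inv lab := by
    ext h
    rfl
  right_inv F := by
    funext c
    induction c using Quotient.inductionOn with
    | _ h => rfl

theorem card_labs {H : Type} [Fintype H] (g : Equiv.Perm H) (z : ℕ) :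
    Nat.card {lab : H → Fin z // ∀ h, lab (g h) = lab h} = z ^ nf g := by
  classical
  rw [Nat.card_congr (labEquiv g), Nat.card_eq_fintype_card, Fintype.card_fun, Fintype.card_fin,
    nf]

private theorem sameCycle_pair {A : Type} {g : Equiv.Perm A} (hg : IsPairing g) {x y : A}
    (h : g.SameCycle x y) : y = x ∨ y = g x := by
  obtain ⟨i, hi⟩ := h
  have h2 : g ^ (2 : ℤ) = 1 := by
    ext z
    rw [zpow_two, Equiv.Perm.mul_apply, hg.invol, Equiv.Perm.one_apply]
  rcases Int.even_or_odd' i with ⟨k, hk | hk⟩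
  · left
    rw [← hi, hk, zpow_mul, h2, one_zpow, Equiv.Perm.one_apply]
  · right
    rw [← hi, hk, zpow_add, zpow_mul, h2, one_zpow, one_mul, zpow_one]

private theorem cyc_onto {A : Type} (g : Equiv.Perm A) : Function.Surjective (cyc g) := by
  intro c
  exact ⟨c.rep, Quotient.out_eq c⟩

theorem nf_pairing {α : Type} [Fintype α] (β : Equiv.Perm α) (h : IsPairing β) :
    2 * nf β = Fintype.card α := by
  classical
  have h1 : (univ : Finset α).card = ∑ c : Cyc β, (univ.filter (fun a => cyc β a = c)).card :=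
    Finset.card_eq_sum_card_fiberwise (fun a _ => Finset.mem_coe.2 (Finset.mem_univ _))
  have h2 : ∀ c : Cyc β, (univ.filter (fun a => cyc β a = c)).card = 2 := by
    intro c
    obtain ⟨a, rfl⟩ := cyc_onto β c
    have h3 : (univ.filter (fun b => cyc β b = cyc β a)) = {a, β a} := by
      ext b
      simp only [mem_filter, mem_univ, true_and, mem_insert, mem_singleton]
      constructor
      · intro hb
        rw [eq_comm, sameCycle_iff] at hb
        exact sameCycle_pair h hb
      · rintro (hb | hb)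
        · rw [hb]
        · rw [hb, sameCycle_iff]
          exact ⟨-1, by simp⟩
    rw [h3, Finset.card_pair (Ne.symm (h.fpf a))]
  rw [Finset.sum_congr rfl fun c _ => h2 c] at h1
  rw [Finset.card_univ] at h1
  rw [h1, nf, Finset.sum_const, Finset.card_univ, smul_eq_mul, mul_comm]

theorem card_PR_le (α : Type) [Fintype α] :
    (PR α).card ≤ 2 ^ (Fintype.card α) * (Fintype.card α) ^ (Fintype.card α / 2) := by
  classical
  let rk : α → ℕ := fun a => (Fintype.equivFin α a : ℕ)
  have hrk : Function.Injective rk := fun a b hab =>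
    (Fintype.equivFin α).injective (Fin.ext hab)
  let O : Equiv.Perm α → Finset α := fun β => univ.filter (fun a => rk a < rk (β a))
  have hO : ∀ β a, a ∈ O β ↔ rk a < rk (β a) := fun β a => by simp [O]
  have hflip : ∀ β, IsPairing β → ∀ a, a ∉ O β → β a ∈ O β := by
    intro β hβ a ha
    rw [hO] at ha ⊢
    rw [hβ.invol]
    have : rk a ≠ rk (β a) := fun hh => hβ.fpf a (hrk hh).symm
    omega
  have hflip2 : ∀ β, IsPairing β → ∀ a, a ∈ O β → β a ∉ O β := by
    intro β hβ a ha hb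
    rw [hO] at ha hb
    rw [hβ.invol] at hb
    omega
  have hcard : ∀ β, IsPairing β → (O β).card = Fintype.card α / 2 := by
    intro β hβ
    have h1 : (O β).card = (O β)ᶜ.card := by
      refine Finset.card_bij (fun a _ => β a) ?_ ?_ ?_
      · intro a ha
        rw [mem_compl]
        exact hflip2 β hβ a ha
      · intro a _ b _ hab
        exact β.injective hab
      · intro b hb
        rw [mem_compl] at hb
        exact ⟨β b, hflip β hβ b hb, hβ.invol b⟩
    have h2 := Finset.card_add_card_compl (O β)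
    omega
  have hfib : ∀ S ∈ (PR α).image O, ((PR α).filter (fun β => O β = S)).card ≤
      (Fintype.card α) ^ (Fintype.card α / 2) := by
    intro S hS
    obtain ⟨β0, hβ0, rfl⟩ := Finset.mem_image.1 hS
    rw [mem_PR] at hβ0
    have h1 : ((PR α).filter (fun β => O β = O β0)).card ≤
        Fintype.card ({a // a ∈ O β0} → α) := by
      rw [← Finset.card_univ]
      refine Finset.card_le_card_of_injOn (fun β => fun a : {a // a ∈ O β0} => β a.1)
        (fun _ _ => Finset.mem_coe.2 (Finset.mem_univ _)) ?_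
      intro β hβ β' hβ' heq
      rw [Finset.mem_coe, mem_filter, mem_PR] at hβ hβ'
      have hval : ∀ a ∈ O β0, β a = β' a := fun a ha => congrFun heq ⟨a, ha⟩
      ext a
      by_cases ha : a ∈ O β0
      · exact hval a ha
      · have hb : β a ∈ O β := hflip β hβ.1 a (by rw [hβ.2]; exact ha)
        rw [hβ.2] at hb
        have h2 := hval _ hb
        rw [hβ.1.invol] at h2
        calc β a = β' (β' (β a)) := (hβ'.1.invol _).symm
          _ = β' a := congrArg β' h2.symm
    refine h1.trans ?_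
    rw [Fintype.card_fun, Fintype.card_coe, hcard β0 hβ0]
  have h3 := Finset.card_le_mul_card_image (f := O) (PR α) _ hfib
  refine h3.trans ?_
  rw [mul_comm]
  refine Nat.mul_le_mul_right _ ?_
  refine (Finset.card_le_univ _).trans ?_
  rw [Fintype.card_finset]

theorem nf_le {H : Type} [Fintype H] (g : Equiv.Perm H) : nf g ≤ Fintype.card H := by
  exact Fintype.card_le_of_surjective _ (cyc_onto g)

theorem nf_pos {H : Type} [Fintype H] [Nonempty H] (g : Equiv.Perm H) : 0 < nf g := by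
  obtain ⟨h⟩ := (inferInstance : Nonempty H)
  haveI : Nonempty (Cyc g) := ⟨cyc g h⟩
  exact Fintype.card_pos

end Pool.Agent.Helper72.MVAA
end

/- Helper72.MVAA.Rising -/
section
/-!
Project MV, block AA, module AA-2 (rising factorial).

`card_pairs`: the number of pairs (function `u : α → β`, permutation `π` of `α` preserving `u`) is
`z (z+1) ... (z+n-1)`, `z = card β`, `n = card α`.
PROOF. Induction on `n` (transport to `α = Fin n` or `Option α'`: both sides are invariant under
bijections). For a given `u` the number of `π` is `∏ b, (card {a // u a = b})!`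
(Mathlib: `DomMulAct.stabilizer_card`, `DomMulAct.stabilizer_card'`; the stabiliser is
`{g : Perm α // f ∘ g = f}`). So the number is `a n = ∑ u : α → β, ∏ b, (n_b u)!`; for
`α = Option α'` (or `Fin (n+1)`), a function is a pair `(u', j)`, and
`∏ b, (n_b u)! = (n_j u' + 1) * ∏ b, (n_b u')!`; as `∑ j, (n_j u' + 1) = n + z` we get
`a (n+1) = (z + n) * a n`. (Other proof: count `π` first with `u` constant on cycles.)

`asc_le`: `z (z+1) ... (z+n-1) ≤ n! (10/9)^n 10^z`: for `z = 0` clear; otherwise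
`z.ascFactorial n = n! * choose (z + n - 1) n` (`Nat.ascFactorial_eq_factorial_mul_choose'`) and
one term of the binomial theorem `1 = (9/10 + 1/10)^(z+n-1)` is
`choose (z+n-1) n (9/10)^n (1/10)^(z-1)`.
(Direct induction on `n` is also possible only for `9 z ≤ n + 10`, so use the binomial theorem.)
-/

namespace Pool.Agent.Helper72.MVAA

open Finset Pool.Agent.Helper60.MV

private theorem fib_sum {β : Type} [Fintype β] [DecidableEq β] (n : ℕ) :
    ∑ u : Fin n → β, ∏ b : β, (∑ i : Fin n, if u i = b then 1 else 0).factorial =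
      (Fintype.card β).ascFactorial n := by
  induction n with
  | zero => simp
  | succ n ih =>
    rw [Nat.ascFactorial_succ, ← ih]
    rw [← (Fin.consEquiv (fun _ : Fin (n + 1) => β)).sum_comp]
    rw [Fintype.sum_prod_type_right, Finset.mul_sum]
    refine Finset.sum_congr rfl (fun u _ => ?_)
    have h1 : ∀ j : β, ∏ b : β, (∑ i : Fin (n + 1),
        if (Fin.consEquiv (fun _ : Fin (n + 1) => β)) (j, u) i = b then 1 else 0).factorial =
        ((∑ i : Fin n, if u i = j then 1 else 0) + 1) *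
          ∏ b : β, (∑ i : Fin n, if u i = b then 1 else 0).factorial := by
      intro j
      have h2 : ∀ b : β, (∑ i : Fin (n + 1),
          if (Fin.consEquiv (fun _ : Fin (n + 1) => β)) (j, u) i = b then 1 else 0).factorial =
          (if j = b then (∑ i : Fin n, if u i = b then 1 else 0) + 1 else 1) *
            (∑ i : Fin n, if u i = b then 1 else 0).factorial := by
        intro b
        rw [Fin.sum_univ_succ]
        have h3 : (Fin.consEquiv (fun _ : Fin (n + 1) => β)) (j, u) 0 = j := rfl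
        have h4 : ∀ i : Fin n, (Fin.consEquiv (fun _ : Fin (n + 1) => β)) (j, u) i.succ = u i :=
          fun i => rfl
        simp only [h3, h4]
        split_ifs with h
        · rw [add_comm 1, Nat.factorial_succ]
        · rw [zero_add, one_mul]
      rw [Finset.prod_congr rfl (fun b _ => h2 b), Finset.prod_mul_distrib,
        Finset.prod_ite_eq]
      simp
    rw [Finset.sum_congr rfl (fun j _ => h1 j), ← Finset.sum_mul]
    congr 1
    rw [Finset.sum_add_distrib, Finset.sum_comm]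
    simp [add_comm]

theorem card_pairs (α β : Type) [Fintype α] [Fintype β] :
    Nat.card {p : (α → β) × Equiv.Perm α // ∀ a, p.1 (p.2 a) = p.1 a} =
      (Fintype.card β).ascFactorial (Fintype.card α) := by
  classical
  have e1 : {p : (α → β) × Equiv.Perm α // ∀ a, p.1 (p.2 a) = p.1 a} ≃
      Σ u : α → β, {g : Equiv.Perm α // u ∘ g = u} :=
    { toFun := fun p => ⟨p.1.1, p.1.2, funext p.2⟩
      invFun := fun s => ⟨(s.1, s.2.1), fun a => congrFun s.2.2 a⟩
      left_inv := fun p => rfl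
      right_inv := fun s => rfl }
  rw [Nat.card_congr e1, Nat.card_eq_fintype_card, Fintype.card_sigma, ← fib_sum]
  let e := Fintype.equivFin α
  rw [← (e.arrowCongr (Equiv.refl β)).sum_comp]
  refine Finset.sum_congr rfl (fun u _ => ?_)
  rw [DomMulAct.stabilizer_card]
  refine Finset.prod_congr rfl (fun b _ => ?_)
  congr 1
  rw [Fintype.card_subtype, Finset.card_filter, ← e.symm.sum_comp]
  rfl

theorem asc_le (z n : ℕ) :
    ((z.ascFactorial n : ℕ) : ℝ) ≤ (n.factorial : ℝ) * (10 / 9) ^ n * 10 ^ z := by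
  rcases Nat.eq_zero_or_pos z with rfl | hz
  · rcases Nat.eq_zero_or_pos n with rfl | hn
    · simp
    · obtain ⟨m, rfl⟩ : ∃ m, n = m + 1 := ⟨n - 1, by omega⟩
      rw [Nat.zero_ascFactorial, Nat.cast_zero]
      positivity
  · obtain ⟨w, rfl⟩ : ∃ w, z = w + 1 := ⟨z - 1, by omega⟩
    rw [Nat.ascFactorial_eq_factorial_mul_choose]
    push_cast
    have h1 : ((w + n).choose n : ℝ) * (9 / 10) ^ n * (1 / 10) ^ w ≤ 1 := by
      have h2 : ((9 / 10 : ℝ) + 1 / 10) ^ (w + n) = 1 := by norm_num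
      rw [add_pow] at h2
      have h3 := Finset.single_le_sum (f := fun m => (9 / 10 : ℝ) ^ m * (1 / 10) ^ (w + n - m) *
        ((w + n).choose m : ℝ)) (s := Finset.range (w + n + 1)) (fun i _ => by positivity)
        (Finset.mem_range.2 (by omega : n < w + n + 1))
      simp only [Nat.add_sub_cancel] at h3
      rw [h2] at h3
      linarith
    have h4 : ((w + n).choose n : ℝ) =
        ((w + n).choose n : ℝ) * (9 / 10) ^ n * (1 / 10) ^ w * ((10 / 9) ^ n * 10 ^ w) := by
      have h5 : ((9 / 10 : ℝ) ^ n * (10 / 9) ^ n) = 1 := by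
        rw [← mul_pow]; norm_num
      have h6 : ((1 / 10 : ℝ) ^ w * 10 ^ w) = 1 := by
        rw [← mul_pow]; norm_num
      calc ((w + n).choose n : ℝ) = ((w + n).choose n : ℝ) * ((9 / 10 : ℝ) ^ n * (10 / 9) ^ n) *
          ((1 / 10 : ℝ) ^ w * 10 ^ w) := by rw [h5, h6]; ring
        _ = _ := by ring
    have h7 : ((w + n).choose n : ℝ) ≤ (10 / 9) ^ n * 10 ^ w := by
      rw [h4]
      exact mul_le_of_le_one_left (by positivity) h1
    calc (n.factorial : ℝ) * ((w + n).choose n : ℝ)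
        ≤ (n.factorial : ℝ) * ((10 / 9) ^ n * 10 ^ w) := by gcongr
      _ ≤ (n.factorial : ℝ) * (10 / 9) ^ n * 10 ^ (w + 1) := by
        rw [pow_succ]
        have : (0 : ℝ) ≤ (n.factorial : ℝ) * ((10 / 9) ^ n * 10 ^ w) := by positivity
        nlinarith

end Pool.Agent.Helper72.MVAA
end

/- Helper72.MVAA.LOne -/
section
/-!
Project MV, block AA, module AA-3 (first counting lemma, for few faces).

`sum_one`: for `T = TT M x y` and `hdet` (a labelling with `lab (σ x) = lab y`,
`lab (σ y) = lab x` is determined by the pairs `(lab h, lab (σ h))`, `h ∈ M`),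
`∑_{τ ∈ T} z ^ nf (σ * τ) ≤ (z * z).ascFactorial (card M)`.

PROOF. By `card_labs` the left side is the number of pairs `(τ, lab)`, `τ ∈ T`, `lab : H → Fin z`,
`lab (σ (τ h)) = lab h` for all `h`. For such a pair (put `h := τ g`): `lab (σ g) = lab (τ g)` (1).
Inject the set of pairs `(τ, lab)` into
`{p : (M → Fin z × Fin z) × Equiv.Perm M // ∀ a, p.1 (p.2 a) = p.1 a}` (counted by `card_pairs`).
For every `lab` which occurs choose one `τ₀ = τ₀(lab) ∈ T` with `lab ∘ (σ τ₀) = lab`
(`Classical.choose`). Send `(τ, lab)` to `(w, π)`, `w h = (lab h, lab (σ h))`,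
`π h = τ₀ (τ h)`, `h ∈ M`.
* `π` maps `M` to `M`: `τ h ∉ M`, `τ h ≠ x` (else `h = τ x = y ∉ M`), `τ h ≠ y` (else
  `h = τ y = x ∉ M`), so `τ₀ (τ h) ∈ M`. It is injective, hence a permutation of `M`
  (`Equiv.ofBijective`, `Finite.injective_iff_bijective`).
* `w (π h) = w h`: `lab (τ₀ τ h) = lab (σ τ h) = lab h` by (1) for `τ₀`, `g = τ h` and the
  invariance for `τ`; `lab (σ τ₀ τ h) = lab (τ h) = lab (σ h)` by the invariance for `τ₀` and (1)
  for `τ`.
* Injective: by (1) `lab (σ x) = lab (τ x) = lab y`, `lab (σ y) = lab (τ y) = lab x`, so `w`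
  determines `lab` by `hdet`; then `τ₀` is determined, and `τ h = τ₀ (π h)` for `h ∈ M`; two
  elements `τ, τ'` of `T` which agree on `M` are equal: they agree on `x`, `y`, and if
  `h ∉ M`, `h ≠ x`, `h ≠ y`, then `g = τ h ∈ M`, `τ' g = τ g = h`, so `τ' h = g`.
-/

namespace Pool.Agent.Helper72.MVAA

open Finset Pool.Agent.Helper60.MV

/-- elementary facts on the members of `TT` -/
theorem TT_swap {H : Type} [Fintype H] {M : Finset H} {x y : H} {τ : Equiv.Perm H}
    (h : τ ∈ TT M x y) : τ y = x := by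
  obtain ⟨hp, hxy, _, _⟩ := (mem_TT M x y τ).mp h
  rw [← hxy, hp.invol]

theorem TT_comp_mem {H : Type} [Fintype H] {M : Finset H} {x y : H} (hx : x ∉ M) (hy : y ∉ M)
    {τ τ0 : Equiv.Perm H} (h : τ ∈ TT M x y) (h0 : τ0 ∈ TT M x y) (g : H) :
    (τ0 * τ) g ∈ M ↔ g ∈ M := by
  have hyx := TT_swap h
  have hyx0 := TT_swap h0
  obtain ⟨hp, hxy, hM, hN⟩ := (mem_TT M x y τ).mp h
  obtain ⟨hp0, hxy0, hM0, hN0⟩ := (mem_TT M x y τ0).mp h0
  rw [Equiv.Perm.mul_apply]
  constructor
  · intro hg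
    by_contra hgM
    by_cases h1 : g = x
    · rw [h1, hxy, hyx0] at hg
      exact hx hg
    by_cases h2 : g = y
    · rw [h2, hyx, hxy0] at hg
      exact hy hg
    exact hM0 _ (hN g hgM h1 h2) hg
  · intro hg
    refine hN0 _ (hM g hg) ?_ ?_
    · intro h1
      have : g = y := by rw [← hxy, ← h1, hp.invol]
      rw [this] at hg
      exact hy hg
    · intro h1
      have : g = x := by rw [← hyx, ← h1, hp.invol]
      rw [this] at hg
      exact hx hg

theorem TT_ext {H : Type} [Fintype H] {M : Finset H} {x y : H}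
    {τ τ' : Equiv.Perm H} (h : τ ∈ TT M x y) (h' : τ' ∈ TT M x y)
    (hag : ∀ g ∈ M, τ g = τ' g) : τ = τ' := by
  have hyx := TT_swap h
  have hyx' := TT_swap h'
  obtain ⟨hp, hxy, hM, hN⟩ := (mem_TT M x y τ).mp h
  obtain ⟨hp', hxy', hM', hN'⟩ := (mem_TT M x y τ').mp h'
  ext g
  by_cases hg : g ∈ M
  · exact hag g hg
  by_cases h1 : g = x
  · rw [h1, hxy, hxy']
  by_cases h2 : g = y
  · rw [h2, hyx, hyx']
  have h3 := hag _ (hN g hg h1 h2)
  rw [hp.invol] at h3
  have h4 : τ' g = τ' (τ' (τ g)) := by rw [← h3]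
  rw [hp'.invol] at h4
  exact h4.symm

theorem sum_one {H : Type} [Fintype H] (σ : Equiv.Perm H) (M : Finset H) (x y : H)
    (hx : x ∉ M) (hy : y ∉ M) (z : ℕ)
    (hdet : ∀ lab lab' : H → Fin z, lab (σ x) = lab y → lab (σ y) = lab x →
      lab' (σ x) = lab' y → lab' (σ y) = lab' x →
      (∀ h ∈ M, lab h = lab' h ∧ lab (σ h) = lab' (σ h)) → lab = lab') :
    ∑ τ ∈ TT M x y, z ^ nf (σ * τ) ≤ (z * z).ascFactorial M.card := by
  classical
  have hS : ∑ τ ∈ TT M x y, z ^ nf (σ * τ) =
      Nat.card (Σ τ : {τ // τ ∈ TT M x y},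
        {lab : H → Fin z // ∀ h, lab ((σ * τ.1) h) = lab h}) := by
    rw [Nat.card_sigma, ← Finset.sum_coe_sort (TT M x y) (fun τ => z ^ nf (σ * τ))]
    refine Finset.sum_congr rfl (fun τ _ => ?_)
    rw [card_labs]
  have hT : (z * z).ascFactorial M.card =
      Nat.card {p : (M → Fin z × Fin z) × Equiv.Perm M // ∀ a, p.1 (p.2 a) = p.1 a} := by
    rw [card_pairs, Fintype.card_prod, Fintype.card_fin, Fintype.card_coe]
  rw [hS, hT]
  -- the chosen pairing
  let t0 : (H → Fin z) → Equiv.Perm H := fun lab =>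
    if h : ∃ τ0 ∈ TT M x y, ∀ h, lab ((σ * τ0) h) = lab h then Classical.choose h else 1
  have ht0 : ∀ lab : H → Fin z, (∃ τ0 ∈ TT M x y, ∀ h, lab ((σ * τ0) h) = lab h) →
      t0 lab ∈ TT M x y ∧ ∀ h, lab ((σ * t0 lab) h) = lab h := by
    intro lab h
    have h1 : t0 lab = Classical.choose h := by
      simp only [t0]
      rw [dif_pos h]
    rw [h1]
    exact Classical.choose_spec h
  have key : ∀ (τ : Equiv.Perm H) (lab : H → Fin z), τ ∈ TT M x y →
      (∀ h, lab ((σ * τ) h) = lab h) → ∀ g, lab (σ g) = lab (τ g) := by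
    intro τ lab hτ hlab g
    have hp := ((mem_TT M x y τ).mp hτ).1
    have := hlab (τ g)
    rw [Equiv.Perm.mul_apply, hp.invol] at this
    exact this
  let Φ : (Σ τ : {τ // τ ∈ TT M x y},
        {lab : H → Fin z // ∀ h, lab ((σ * τ.1) h) = lab h}) →
      {p : (M → Fin z × Fin z) × Equiv.Perm M // ∀ a, p.1 (p.2 a) = p.1 a} := fun q =>
    ⟨(fun h => (q.2.1 h, q.2.1 (σ h)),
      (t0 q.2.1 * q.1.1).subtypePerm (fun g => TT_comp_mem hx hy q.1.2
        (ht0 q.2.1 ⟨q.1.1, q.1.2, q.2.2⟩).1 g)), by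
      obtain ⟨⟨τ, hτ⟩, ⟨lab, hlab⟩⟩ := q
      intro a
      obtain ⟨hm, hi⟩ := ht0 lab ⟨τ, hτ, hlab⟩
      have k1 := key τ lab hτ hlab
      have k0 := key (t0 lab) lab hm hi
      simp only [Equiv.Perm.subtypePerm_apply, Equiv.Perm.mul_apply]
      refine Prod.ext ?_ ?_
      · change lab (t0 lab (τ a)) = lab a
        rw [← k0, ← Equiv.Perm.mul_apply, hlab]
      · change lab (σ (t0 lab (τ a))) = lab (σ a)
        rw [← Equiv.Perm.mul_apply, hi, k1]⟩
  refine Nat.card_le_card_of_injective Φ ?_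
  rintro ⟨⟨τ, hτ⟩, ⟨lab, hlab⟩⟩ ⟨⟨τ', hτ'⟩, ⟨lab', hlab'⟩⟩ heq
  have h1 : (fun h : M => (lab h, lab (σ h))) = fun h : M => (lab' h, lab' (σ h)) :=
    congrArg (fun p => p.1.1) heq
  have h2 : ∀ g : M, (t0 lab * τ) g = (t0 lab' * τ') g := by
    intro g
    have := congrArg (fun p => ((p.1.2 g : M) : H)) heq
    exact this
  have k1 := key τ lab hτ hlab
  have k1' := key τ' lab' hτ' hlab'
  have hlabeq : lab = lab' := by
    refine hdet lab lab' ?_ ?_ ?_ ?_ ?_
    · rw [k1, ((mem_TT M x y τ).mp hτ).2.1]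
    · rw [k1, TT_swap hτ]
    · rw [k1', ((mem_TT M x y τ').mp hτ').2.1]
    · rw [k1', TT_swap hτ']
    · intro h hh
      have := congrFun h1 ⟨h, hh⟩
      exact ⟨congrArg Prod.fst this, congrArg Prod.snd this⟩
  subst hlabeq
  have hτeq : τ = τ' := by
    refine TT_ext hτ hτ' (fun g hg => ?_)
    have := h2 ⟨g, hg⟩
    simp only [Equiv.Perm.mul_apply] at this
    exact (t0 lab).injective this
  subst hτeq
  rfl

end Pool.Agent.Helper72.MVAA
end

/- Helper72.MVAA.LTwoA -/
section
/-!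
Project MV, block AA, module AA-4 (second counting lemma, first half: the code permutation).

`A`, `C` finite sets of a linear order, `u` on `A`, `v` on `C` labels, `τ : C → A` a bijection with
`u (τ h) = v h`. `rkA g` = number of `g' ∈ A`, `g' < g` with the same label, `rkC` similarly.
Then there is a permutation `π` of `A` preserving `u` such that `π g = τ h` whenever `g ∈ A`,
`h ∈ C` have the same label and the same rank; and every `h ∈ C` has such a `g`.

PROOF. For each label `i` the sets `A_i = {g ∈ A | u g = i}` and `C_i = {h ∈ C | v h = i}` have the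
same number of elements (`τ` maps `C_i` onto `A_i`). In a finite set of a linear order the rank
map is a bijection onto `range card` (strictly monotone, values `< card`); so for every `g ∈ A`
there is exactly one `h = m g ∈ C` with `v h = u g`, `rkC h = rkA g`, and conversely. Put
`π g = τ (m g)`: injective (if `τ (m g) = τ (m g')` then `m g = m g'`, so the labels and ranks of
`g, g'` agree, so `g = g'`), hence a permutation of the finite set `A`;
`u (π g) = v (m g) = u g`.
-/

namespace Pool.Agent.Helper72.MVAA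

open Finset Pool.Agent.Helper60.MV

/-- rank inside the set `A` among the elements with the same label -/
noncomputable def rkS {H L : Type} [LinearOrder H] [DecidableEq L] (A : Finset H) (u : H → L)
    (g : H) : ℕ := (A.filter (fun g' => g' < g ∧ u g' = u g)).card

/-- an element is determined by its label and rank -/
theorem rkS_inj {H L : Type} [LinearOrder H] [DecidableEq L] (A : Finset H) (u : H → L)
    {g g' : H} (hg : g ∈ A) (hg' : g' ∈ A) (hu : u g = u g') (hr : rkS A u g = rkS A u g') :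
    g = g' := by
  have key : ∀ {a b : H}, a ∈ A → u a = u b → a < b → rkS A u a < rkS A u b := by
    intro a b ha hab hlt
    unfold rkS
    apply Finset.card_lt_card
    rw [Finset.ssubset_iff_of_subset]
    · refine ⟨a, ?_, ?_⟩
      · simp only [Finset.mem_filter]
        exact ⟨ha, hlt, hab⟩
      · simp only [Finset.mem_filter, not_and]
        intro _ h
        exact absurd h (lt_irrefl a)
    · intro c hc
      simp only [Finset.mem_filter] at hc ⊢
      exact ⟨hc.1, lt_trans hc.2.1 hlt, hc.2.2.trans hab⟩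
  rcases lt_trichotomy g g' with h | h | h
  · exact absurd hr (ne_of_lt (key hg hu h))
  · exact h
  · exact absurd hr.symm (ne_of_lt (key hg' hu.symm h))

private theorem ltwoA_image {H L : Type} [LinearOrder H] [DecidableEq L] (A : Finset H)
    (u : H → L) (i : L) :
    (A.filter (fun g => u g = i)).image (rkS A u) =
      Finset.range (A.filter (fun g => u g = i)).card := by
  apply Finset.eq_of_subset_of_card_le
  · intro n hn
    rw [Finset.mem_image] at hn
    obtain ⟨g, hg, rfl⟩ := hn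
    rw [Finset.mem_filter] at hg
    rw [Finset.mem_range]
    unfold rkS
    apply Finset.card_lt_card
    rw [Finset.ssubset_iff_of_subset]
    · refine ⟨g, ?_, ?_⟩
      · simp only [Finset.mem_filter]
        exact hg
      · simp only [Finset.mem_filter, not_and]
        intro _ h
        exact absurd h (lt_irrefl g)
    · intro c hc
      simp only [Finset.mem_filter] at hc ⊢
      exact ⟨hc.1, hc.2.2.trans hg.2⟩
  · rw [Finset.card_range, Finset.card_image_of_injOn]
    intro a ha b hb hab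
    rw [Finset.mem_coe, Finset.mem_filter] at ha hb
    exact rkS_inj A u ha.1 hb.1 (ha.2.trans hb.2.symm) hab

private theorem ltwoA_exists {H L : Type} [LinearOrder H] [DecidableEq L] (A C : Finset H)
    (u v : H → L) (g : H) (hg : g ∈ A)
    (hc : (A.filter (fun a => u a = u g)).card = (C.filter (fun a => v a = u g)).card) :
    ∃ h ∈ C, v h = u g ∧ rkS C v h = rkS A u g := by
  have h1 : rkS A u g ∈ (A.filter (fun a => u a = u g)).image (rkS A u) := by
    rw [Finset.mem_image]
    exact ⟨g, by rw [Finset.mem_filter]; exact ⟨hg, rfl⟩, rfl⟩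
  rw [ltwoA_image, hc, ← ltwoA_image, Finset.mem_image] at h1
  obtain ⟨h, hh, hr⟩ := h1
  rw [Finset.mem_filter] at hh
  exact ⟨h, hh.1, hh.2, hr⟩

theorem exists_code {H L : Type} [LinearOrder H] [DecidableEq L] (A C : Finset H) (u v : H → L)
    (τ : H → H) (hτ : ∀ h ∈ C, τ h ∈ A) (hinj : ∀ h ∈ C, ∀ h' ∈ C, τ h = τ h' → h = h')
    (hsurj : ∀ g ∈ A, ∃ h ∈ C, τ h = g) (huv : ∀ h ∈ C, u (τ h) = v h) :
    ∃ π : Equiv.Perm {g // g ∈ A}, (∀ g, u (π g) = u g) ∧
      ∀ h ∈ C, ∃ g : {g // g ∈ A}, u g = v h ∧ rkS A u g = rkS C v h ∧ (π g : H) = τ h := by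
  have hcard : ∀ i : L, (C.filter (fun a => v a = i)).card =
      (A.filter (fun a => u a = i)).card := by
    intro i
    refine Finset.card_bij (fun a _ => τ a) ?_ ?_ ?_
    · intro a ha
      rw [Finset.mem_filter] at ha ⊢
      exact ⟨hτ a ha.1, (huv a ha.1).trans ha.2⟩
    · intro a ha b hb hab
      rw [Finset.mem_filter] at ha hb
      exact hinj a ha.1 b hb.1 hab
    · intro b hb
      rw [Finset.mem_filter] at hb
      obtain ⟨a, ha, hab⟩ := hsurj b hb.1
      refine ⟨a, ?_, hab⟩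
      rw [Finset.mem_filter]
      refine ⟨ha, ?_⟩
      rw [← huv a ha, hab]
      exact hb.2
  have hm : ∀ g : {g // g ∈ A}, ∃ h ∈ C, v h = u g ∧ rkS C v h = rkS A u g := fun g =>
    ltwoA_exists A C u v g g.2 (hcard _).symm
  choose m hmC hmv hmr using hm
  have hinj' : Function.Injective
      (fun g : {g // g ∈ A} => (⟨τ (m g), hτ _ (hmC g)⟩ : {g // g ∈ A})) := by
    intro a b hab
    have h1 : τ (m a) = τ (m b) := congrArg Subtype.val hab
    have h2 : m a = m b := hinj _ (hmC a) _ (hmC b) h1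
    apply Subtype.ext
    apply rkS_inj A u a.2 b.2
    · rw [← hmv a, ← hmv b, h2]
    · rw [← hmr a, ← hmr b, h2]
  have hbij : Function.Bijective
      (fun g : {g // g ∈ A} => (⟨τ (m g), hτ _ (hmC g)⟩ : {g // g ∈ A})) :=
    Finite.injective_iff_bijective.mp hinj'
  refine ⟨Equiv.ofBijective _ hbij, ?_, ?_⟩
  · intro g
    rw [Equiv.ofBijective_apply]
    show u (τ (m g)) = u g
    rw [huv _ (hmC g), hmv g]
  · intro h hh
    obtain ⟨g, hg, h1, h2⟩ := ltwoA_exists C A v u h hh (hcard _)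
    refine ⟨⟨g, hg⟩, h1, h2, ?_⟩
    rw [Equiv.ofBijective_apply]
    show τ (m ⟨g, hg⟩) = τ h
    have h3 : m ⟨g, hg⟩ = h := by
      apply rkS_inj C v (hmC _) hh
      · rw [hmv]
        exact h1
      · rw [hmr]
        exact h2
    rw [h3]

end Pool.Agent.Helper72.MVAA
end

/- Helper72.MVAA.Str -/
section
/-!
Project MV, block AA, module AA-7 (structure of AA configurations).

* `allOdd_rot`: `minimalPeriod (rot K) (i, a) = K i` (`(rot K)^n (i, a) = (i, a + n mod K i)`; it is
  enough: the minimal period divides `K i` (a divisor of an odd number is odd), because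
  `(rot K)^[K i] = id` on the fibre `i`: `finRotate` has order dividing `K i`).
* `sameCycle_rot`: `(rot K).SameCycle h h' ↔ h.1 = h'.1`.
* `isSgn_of_isAA`: `face (τ h) = face (σ h)` because `(σ * τ) (τ h) = σ h`; so
  `μ (σ h) = μ (τ h)`; this is `- μ h` for `h ≠ x, τ x`, it is `μ (τ x) = 1` for `h = x` and
  `μ (τ (τ x)) = μ x = 1` for `h = τ x`. And `τ ∈ TT (MM μ) x (τ x)`: for `h ∈ MM μ`, `h ≠ x, τ x`
  (their `μ` is 1), so `μ (τ h) = 1`; for `h ∉ MM μ`, `μ h = 1`, so `μ (τ h) = -1` if `h ≠ x, τ x`.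
* `IsSgn.cyc`: if the cycle of `h` contains neither `x` nor `y` then `μ (σ^[n] h) = (-1)^n μ h` for
  all `n`; with `n` the (odd) minimal period this gives `μ h = - μ h`, impossible.
* `IsSgn.uniq`: let `h = σ^[n] x` or `h = σ^[n] y` (every `h` is of this form by `cyc`, finite
  cycles). Induction on `n`: `μ` and `μ'` agree at `x`, `y`, `σ x`, `σ y`, and
  `μ (σ k) = - μ k`, `μ' (σ k) = - μ' k` for `k ≠ x, y`.
* `IsSgn.card`: `∑ h, μ (σ h) = ∑ h, μ h` and `μ (σ h) = - μ h + 2 [h = x] + 2 [h = y]` (`x ≠ y` by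
  `diff`), so `∑ μ = 2`; as `μ = ± 1`: `(2 E - card MM) - card MM = 2`.
* `IsSgn.det`: let `h` be any element, `g = σ⁻¹ h`. If `μ h = -1` clear. If `μ h = 1`: if
  `g ≠ x, y` then `μ g = -1`, so `lab h = lab (σ g)` is known. If `g = x`: `lab h = lab (σ x) =
  lab y`, if `g = y`: `lab h = lab x`. So it remains to see that `lab x = lab' x` and
  `lab y = lab' y`. `g = σ⁻¹ x`: `g = y` is impossible (`diff`); if `g ≠ x` then `μ g = -1`
  (as `μ (σ g) = μ x = 1`), known. If `σ x = x` then `lab x = lab (σ x) = lab y`. Similarly for `y`.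
  Both `σ x = x` and `σ y = y` is impossible: by `cyc` every element would be `x` or `y`, so
  `card H ≤ 2`.
-/

namespace Pool.Agent.Helper72.MVAA

open Finset Pool.Agent.Helper60.MV

private theorem finRotate_iter (m : ℕ) (j : Fin (m + 1)) (n : ℕ) :
    (((finRotate (m + 1))^[n] j : Fin (m + 1)) : ℕ) = ((j : ℕ) + n) % (m + 1) := by
  induction n with
  | zero =>
    rw [Function.iterate_zero, id_eq, add_zero, Nat.mod_eq_of_lt j.isLt]
  | succ n ih =>
    rw [Function.iterate_succ_apply', finRotate_apply, Fin.val_add, ih, Fin.val_one',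
      ← Nat.add_mod, add_assoc]

private theorem finRotate_minimalPeriod (k : ℕ) (j : Fin k) :
    Function.minimalPeriod (finRotate k) j = k := by
  cases k with
  | zero => exact j.elim0
  | succ m =>
    have key : ∀ n : ℕ, Function.IsPeriodicPt (finRotate (m + 1)) n j ↔ (m + 1) ∣ n := by
      intro n
      rw [Function.IsPeriodicPt, Function.IsFixedPt, Fin.ext_iff, finRotate_iter]
      have hj := Nat.mod_eq_of_lt j.isLt
      constructor
      · intro h
        have h1 : (j : ℕ) + n ≡ (j : ℕ) + 0 [MOD (m + 1)] := by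
          rw [Nat.ModEq, add_zero, h, hj]
        exact (Nat.modEq_zero_iff_dvd).1 (Nat.ModEq.add_left_cancel' _ h1)
      · rintro ⟨q, rfl⟩
        rw [Nat.add_mul_mod_self_left, hj]
    apply Nat.dvd_antisymm
    · exact ((key (m + 1)).2 dvd_rfl).minimalPeriod_dvd
    · exact (key _).1 (Function.isPeriodicPt_minimalPeriod _ _)

private theorem finRotate_trans (k : ℕ) (a b : Fin k) : ∃ n : ℕ, (finRotate k)^[n] a = b := by
  cases k with
  | zero => exact a.elim0
  | succ m =>
    refine ⟨(m + 1 - (a : ℕ)) + (b : ℕ), ?_⟩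
    apply Fin.ext
    rw [finRotate_iter]
    have ha := a.isLt
    have hb := b.isLt
    have h1 : (a : ℕ) + ((m + 1 - (a : ℕ)) + (b : ℕ)) = (b : ℕ) + (m + 1) := by omega
    rw [h1, Nat.add_mod_right, Nat.mod_eq_of_lt hb]

private theorem rot_iter {ρ : Type} (K : ρ → ℕ) (i : ρ) (j : Fin (K i)) (n : ℕ) :
    (rot K)^[n] ⟨i, j⟩ = ⟨i, (finRotate (K i))^[n] j⟩ := by
  induction n with
  | zero => rfl
  | succ n ih =>
    rw [Function.iterate_succ_apply', ih, Function.iterate_succ_apply']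
    rfl

private theorem rot_minimalPeriod {ρ : Type} (K : ρ → ℕ) (h : HK K) :
    Function.minimalPeriod (rot K) h = K h.1 := by
  obtain ⟨i, j⟩ := h
  rw [← finRotate_minimalPeriod (K i) j, Function.minimalPeriod_eq_minimalPeriod_iff]
  intro n
  unfold Function.IsPeriodicPt Function.IsFixedPt
  rw [rot_iter]
  constructor
  · intro h
    have := (Sigma.mk.inj_iff.1 h).2
    exact eq_of_heq this
  · intro h
    rw [h]

theorem allOdd_rot {ρ : Type} (K : ρ → ℕ) (hK : ∀ i, Odd (K i)) : AllOdd (rot K) := by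
  intro h
  rw [rot_minimalPeriod]
  exact hK _

private theorem rot_fst {ρ : Type} (K : ρ → ℕ) (h : HK K) : (rot K h).1 = h.1 := rfl

private theorem rot_pow_fst {ρ : Type} (K : ρ → ℕ) (n : ℕ) (h : HK K) :
    ((rot K ^ n) h).1 = h.1 := by
  induction n with
  | zero => rfl
  | succ n ih =>
    rw [pow_succ', Equiv.Perm.mul_apply, rot_fst, ih]

theorem sameCycle_rot {ρ : Type} (K : ρ → ℕ) (h h' : HK K) :
    (rot K).SameCycle h h' ↔ h.1 = h'.1 := by
  constructor
  · rintro ⟨n, hn⟩
    rcases Int.eq_nat_or_neg n with ⟨m, rfl | rfl⟩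
    · rw [zpow_natCast] at hn
      rw [← hn, rot_pow_fst]
    · rw [zpow_neg, zpow_natCast, Equiv.Perm.inv_eq_iff_eq] at hn
      rw [hn, rot_pow_fst]
  · intro e
    obtain ⟨i, a⟩ := h
    obtain ⟨i', b⟩ := h'
    simp only at e
    subst e
    obtain ⟨n, hn⟩ := finRotate_trans (K i) a b
    refine ⟨(n : ℤ), ?_⟩
    rw [zpow_natCast, ← Equiv.Perm.iterate_eq_pow, rot_iter, hn]

private theorem aa_sig {H : Type} {σ : Equiv.Perm H} (R : Conf σ) (x : H) (μ : H → ℤ)
    (h : R.IsAA x μ) (k : H) : μ (σ k) = μ (R.τ k) := by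
  apply h.face
  apply Quotient.sound
  refine Equiv.Perm.SameCycle.symm ⟨1, ?_⟩
  rw [zpow_one, Equiv.Perm.mul_apply, R.hτ.invol]

theorem isSgn_of_isAA {H : Type} {σ : Equiv.Perm H} (R : Conf σ) (x : H) (μ : H → ℤ)
    (h : R.IsAA x μ) : IsSgn σ x (R.τ x) μ where
  vals := h.vals
  one := h.one
  one' := h.one'
  sx := by rw [aa_sig R x μ h, h.one']
  sy := by rw [aa_sig R x μ h, R.hτ.invol, h.one]
  alt := fun k h1 h2 => by rw [aa_sig R x μ h, h.tau k h1 h2]
  diff := h.diff

theorem mem_TT_of_isAA {H : Type} [Fintype H] {σ : Equiv.Perm H} (R : Conf σ) (x : H)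
    (μ : H → ℤ) (h : R.IsAA x μ) : R.τ ∈ TT (MM μ) x (R.τ x) := by
  rw [mem_TT]
  have h1 := h.one
  have h2 := h.one'
  refine ⟨R.hτ, rfl, ?_, ?_⟩
  · intro k hk hk'
    rw [mem_MM] at hk hk'
    have hx : k ≠ x := by
      rintro rfl
      omega
    have hy : k ≠ R.τ x := by
      rintro rfl
      omega
    have h3 := h.tau k hx hy
    omega
  · intro k hk hx hy
    rw [mem_MM] at hk ⊢
    have h3 := h.tau k hx hy
    rcases h.vals k with h4 | h4
    · omega
    · exact absurd h4 hk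

theorem IsSgn.cyc {H : Type} [Finite H] {σ : Equiv.Perm H} (hσ : AllOdd σ) {x y : H} {μ : H → ℤ}
    (hμ : IsSgn σ x y μ) (h : H) : σ.SameCycle x h ∨ σ.SameCycle y h := by
  by_contra hcon
  rw [not_or] at hcon
  obtain ⟨hx, hy⟩ := hcon
  have key : ∀ n : ℕ, μ (σ^[n] h) = (-1) ^ n * μ h := by
    intro n
    induction n with
    | zero => simp
    | succ n ih =>
      rw [Function.iterate_succ_apply', hμ.alt, ih, pow_succ]
      · ring
      · intro e
        apply hx
        refine Equiv.Perm.SameCycle.symm ⟨(n : ℤ), ?_⟩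
        rw [zpow_natCast, ← Equiv.Perm.iterate_eq_pow, e]
      · intro e
        apply hy
        refine Equiv.Perm.SameCycle.symm ⟨(n : ℤ), ?_⟩
        rw [zpow_natCast, ← Equiv.Perm.iterate_eq_pow, e]
  have h1 := key (Function.minimalPeriod σ h)
  rw [Function.iterate_minimalPeriod, (hσ h).neg_one_pow] at h1
  rcases hμ.vals h with h2 | h2 <;> omega

theorem IsSgn.uniq {H : Type} [Finite H] {σ : Equiv.Perm H} (hσ : AllOdd σ) {x y : H}
    {μ μ' : H → ℤ} (hμ : IsSgn σ x y μ) (hμ' : IsSgn σ x y μ') : μ = μ' := by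
  have hstep : ∀ k, μ k = μ' k → μ (σ k) = μ' (σ k) := by
    intro k hk
    by_cases h1 : k = x
    · rw [h1, hμ.sx, hμ'.sx]
    · by_cases h2 : k = y
      · rw [h2, hμ.sy, hμ'.sy]
      · rw [hμ.alt k h1 h2, hμ'.alt k h1 h2, hk]
  have hit : ∀ (z : H), μ z = μ' z → ∀ n : ℕ, μ ((σ ^ n) z) = μ' ((σ ^ n) z) := by
    intro z hz n
    induction n with
    | zero => simpa using hz
    | succ n ih =>
      rw [pow_succ', Equiv.Perm.mul_apply]
      exact hstep _ ih
  funext h
  rcases hμ.cyc hσ h with hc | hc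
  · obtain ⟨n, hn⟩ := hc.exists_nat_pow_eq
    rw [← hn]
    exact hit x (by rw [hμ.one, hμ'.one]) n
  · obtain ⟨n, hn⟩ := hc.exists_nat_pow_eq
    rw [← hn]
    exact hit y (by rw [hμ.one', hμ'.one']) n

theorem IsSgn.ne {H : Type} {σ : Equiv.Perm H} {x y : H} {μ : H → ℤ}
    (hμ : IsSgn σ x y μ) : x ≠ y := by
  intro h
  exact hμ.diff (h ▸ Equiv.Perm.SameCycle.refl σ x)

theorem IsSgn.card {H : Type} [Fintype H] {σ : Equiv.Perm H} {x y : H}
    {μ : H → ℤ} (hμ : IsSgn σ x y μ) (E : ℕ) (hE : Fintype.card H = 2 * E) :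
    (MM μ).card + 1 = E := by
  classical
  have hne := hμ.ne
  have h1 : ∑ h, μ (σ h) = ∑ h, μ h := Equiv.sum_comp σ μ
  have h2 : ∀ h, μ (σ h) = - μ h + ((if h = x then 2 else 0) + (if h = y then 2 else 0)) := by
    intro h
    by_cases hx : h = x
    · subst hx
      rw [if_pos rfl, if_neg hne, hμ.sx, hμ.one]; norm_num
    · by_cases hy : h = y
      · subst hy
        rw [if_neg hx, if_pos rfl, hμ.sy, hμ.one']; norm_num
      · rw [if_neg hx, if_neg hy, hμ.alt h hx hy]; simp
  have h3 : ∑ h, μ (σ h) = - ∑ h, μ h + 4 := by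
    rw [Finset.sum_congr rfl (fun h _ => h2 h), Finset.sum_add_distrib, Finset.sum_add_distrib,
      Finset.sum_neg_distrib]
    simp
  have h4 : ∑ h, μ h = (Fintype.card H : ℤ) - 2 * ((MM μ).card : ℤ) := by
    have h5 : ∀ h, μ h = 1 - 2 * (if μ h = -1 then 1 else 0) := by
      intro h
      rcases hμ.vals h with h6 | h6
      · rw [h6]; norm_num
      · rw [h6]; norm_num
    have h7 : MM μ = univ.filter (fun h => μ h = -1) := by
      ext h
      rw [mem_MM]; simp
    rw [Finset.sum_congr rfl (fun h _ => h5 h), Finset.sum_sub_distrib, ← Finset.mul_sum,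
      Finset.sum_boole, h7]
    simp
  rw [h3] at h1
  rw [hE] at h4
  push_cast at h4
  omega

theorem IsSgn.det {H : Type} [Fintype H] {σ : Equiv.Perm H} (hσ : AllOdd σ) {x y : H}
    {μ : H → ℤ} (hμ : IsSgn σ x y μ) (hH : 3 ≤ Fintype.card H) (z : ℕ)
    (lab lab' : H → Fin z) (h1 : lab (σ x) = lab y) (h2 : lab (σ y) = lab x)
    (h1' : lab' (σ x) = lab' y) (h2' : lab' (σ y) = lab' x)
    (h : ∀ h ∈ MM μ, lab h = lab' h ∧ lab (σ h) = lab' (σ h)) : lab = lab' := by
  classical
  -- the labels agree outside `σ x`, `σ y`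
  have hA : ∀ g, g ≠ x → g ≠ y → lab (σ g) = lab' (σ g) := by
    intro g hx hy
    rcases hμ.vals g with hg | hg
    · have h3 : μ (σ g) = -1 := by rw [hμ.alt g hx hy, hg]
      exact (h _ ((mem_MM μ _).2 h3)).1
    · exact (h _ ((mem_MM μ _).2 hg)).2
  have hA' : ∀ k, σ x ≠ k → σ y ≠ k → lab k = lab' k := by
    intro k hx hy
    have h3 := hA (σ.symm k) (fun h4 => hx (by rw [← h4, Equiv.apply_symm_apply]))
      (fun h4 => hy (by rw [← h4, Equiv.apply_symm_apply]))
    rwa [Equiv.apply_symm_apply] at h3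
  have hyx : σ y ≠ x := by
    intro h3
    apply hμ.diff
    have : σ.SameCycle y (σ y) := Equiv.Perm.sameCycle_apply_right.2 (Equiv.Perm.SameCycle.refl σ y)
    rw [h3] at this
    exact this.symm
  have hxy : σ x ≠ y := by
    intro h3
    apply hμ.diff
    have : σ.SameCycle x (σ x) := Equiv.Perm.sameCycle_apply_right.2 (Equiv.Perm.SameCycle.refl σ x)
    rw [h3] at this
    exact this
  have hnot : ¬ (σ x = x ∧ σ y = y) := by
    rintro ⟨h3, h4⟩
    have h5 : ∀ k : H, k = x ∨ k = y := by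
      intro k
      rcases hμ.cyc hσ k with h6 | h6
      · left
        obtain ⟨n, hn⟩ := h6
        rw [← hn]
        exact Equiv.Perm.zpow_apply_eq_self_of_apply_eq_self h3 n
      · right
        obtain ⟨n, hn⟩ := h6
        rw [← hn]
        exact Equiv.Perm.zpow_apply_eq_self_of_apply_eq_self h4 n
    have h7 : Fintype.card H ≤ ({x, y} : Finset H).card := by
      rw [← Finset.card_univ]
      refine Finset.card_le_card fun k _ => ?_
      rcases h5 k with h8 | h8
      · rw [h8]; simp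
      · rw [h8]; simp
    have := Finset.card_le_two (a := x) (b := y)
    omega
  have hkx : σ x ≠ x → lab x = lab' x := fun h3 => hA' x h3 hyx
  have hky : σ y ≠ y → lab y = lab' y := fun h3 => hA' y hxy h3
  have hx' : lab x = lab' x ∧ lab y = lab' y := by
    by_cases h3 : σ x = x
    · have h4 : σ y ≠ y := fun h4 => hnot ⟨h3, h4⟩
      have h5 := hky h4
      rw [h3] at h1 h1'
      exact ⟨by rw [h1, h1', h5], h5⟩
    · have h5 := hkx h3
      by_cases h4 : σ y = y
      · rw [h4] at h2 h2'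
        exact ⟨h5, by rw [h2, h2', h5]⟩
      · exact ⟨h5, hky h4⟩
  funext k
  by_cases h3 : σ x = k
  · rw [← h3, h1, h1', hx'.2]
  · by_cases h4 : σ y = k
    · rw [← h4, h2, h2', hx'.1]
    · exact hA' k h3 h4

/-- at most two vertices -/
theorem AAc_eq_zero {ρ : Type} [Fintype ρ] (K : ρ → ℕ) (hK : ∀ i, Odd (K i))
    (hρ : 3 ≤ Fintype.card ρ) : AAc K = 0 := by
  classical
  rw [AAc]
  refine Finset.sum_eq_zero fun R hR => ?_
  exfalso
  have hAA := (Finset.mem_filter.1 hR).2.2
  obtain ⟨x, μ, hx⟩ := hAA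
  have hs := isSgn_of_isAA R x μ hx
  have h1 : ∀ i : ρ, i = x.1 ∨ i = (R.τ x).1 := by
    intro i
    have hpos : 0 < K i := (hK i).pos
    rcases hs.cyc (allOdd_rot K hK) (⟨i, ⟨0, hpos⟩⟩ : HK K) with h2 | h2
    · left; exact ((sameCycle_rot K _ _).1 h2).symm
    · right; exact ((sameCycle_rot K _ _).1 h2).symm
  have h7 : Fintype.card ρ ≤ ({x.1, (R.τ x).1} : Finset ρ).card := by
    rw [← Finset.card_univ]
    refine Finset.card_le_card fun k _ => ?_
    rcases h1 k with h8 | h8
    · rw [h8]; simp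
    · rw [h8]; simp
  have := Finset.card_le_two (a := x.1) (b := (R.τ x).1)
  omega

end Pool.Agent.Helper72.MVAA
end
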