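import Pool.Agent.Helper16.LGG.G01

/- Helper34.MVU.DL -/
section
/-!
Project MV, block U, module U-DL (DL): the list `dl S` (decreasing list of `S`, completed by a `0` to
even length), sums and products along it, and finite sets of distinct positive integers.

PROOFS. `dl S = S.sort (≥) ++ (if S.card % 2 = 0 then [] else [0])`; `Finset.length_sort`,
`Finset.mem_sort`, `Finset.sort_toFinset`/`Finset.sort_eq : ↑(sort s) = s.1` (so
`((S.sort _).map f).prod = ∏ a ∈ S, f a`: `Multiset.prod_coe`/`List.prod_map…`),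
`Finset.pairwise_sort` (non-strict) and `Finset.sort_nodup`.
* `card_dl`, `card_dl_le`: `l' = l` or `l + 1`, even; `l' / 2 ≤ l`.
* `dl_pairwise`: decreasing, strictly (all elements of `S` are positive, so the appended `0` is
  smaller than all of them).
* `prod_dl`, `sum_dl`.
* `prod_succ_ge`: `(card S + 1)! ≤ Π_{a ∈ S} (a+1)` if all `a ≥ 1`: induction on the maximum
  (`Finset.induction_on_max`: the maximum of `S` is at least `card S` because
  `S ⊆ Icc 1 (max S)`).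
* `card_sq_le`: `card S * (card S + 1) ≤ 2 Σ_{a ∈ S} a` if all `a ≥ 1` (same induction).
* `mem_stp`: `S ∈ stp E ↔ (∀ a ∈ S, 1 ≤ a ∧ a ≤ E) ∧ Σ a = E`; and `∀ a ∈ S, 1 ≤ a` with the sum
  imply `a ≤ E` (`Finset.single_le_sum`).
* `dl_insert`: if `m` is larger than all elements of `S`, the decreasing list of `insert m S` is
  `m :: sort S` (uniqueness of sorted lists: `List.Perm.eq_of_pairwise` and friends), and
  `card (insert m S) = card S + 1` changes the parity.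
-/

namespace Pool.Agent.Helper34.MVU

open Finset Pool.Agent.Helper60.MV

theorem mem_stp (E : ℕ) (S : Finset ℕ) : S ∈ stp E ↔ (∀ a ∈ S, 1 ≤ a) ∧ ∑ a ∈ S, a = E := by
  unfold stp
  rw [Finset.mem_filter, Finset.mem_powerset]
  constructor
  · rintro ⟨h1, h2⟩
    exact ⟨fun a ha => (Finset.mem_Icc.1 (h1 ha)).1, h2⟩
  · rintro ⟨h1, h2⟩
    refine ⟨fun a ha => Finset.mem_Icc.2 ⟨h1 a ha, ?_⟩, h2⟩
    rw [← h2]
    exact Finset.single_le_sum (f := fun a => a) (fun _ _ => Nat.zero_le _) ha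

theorem card_dl (S : Finset ℕ) : (dl S).length = S.card + S.card % 2 := by
  unfold dl
  rw [List.length_append, Finset.length_sort]
  by_cases h : S.card % 2 = 0
  · rw [if_pos h, h]
    simp
  · rw [if_neg h]
    have : S.card % 2 = 1 := by omega
    rw [this]
    simp

theorem mem_dl (S : Finset ℕ) (a : ℕ) (h : a ∈ dl S) : a ∈ S ∨ a = 0 := by
  unfold dl at h
  rw [List.mem_append, Finset.mem_sort] at h
  rcases h with h | h
  · left; exact h
  · right
    by_cases hc : S.card % 2 = 0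
    · rw [if_pos hc] at h
      simp at h
    · rw [if_neg hc] at h
      simpa using h

theorem dl_pairwise (S : Finset ℕ) (hS : ∀ a ∈ S, 1 ≤ a) : (dl S).Pairwise (fun a b => b < a) := by
  unfold dl
  rw [List.pairwise_append]
  refine ⟨?_, ?_, ?_⟩
  · exact (Finset.sortedGT_sort S).pairwise
  · by_cases hc : S.card % 2 = 0
    · rw [if_pos hc]; exact List.Pairwise.nil
    · rw [if_neg hc]; exact List.pairwise_singleton _ _
  · intro a ha b hb
    rw [Finset.mem_sort] at ha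
    by_cases hc : S.card % 2 = 0
    · rw [if_pos hc] at hb
      simp at hb
    · rw [if_neg hc] at hb
      have : b = 0 := by simpa using hb
      have := hS a ha
      omega

theorem prod_dl (S : Finset ℕ) (f : ℕ → ℝ) :
    ((dl S).map f).prod = (∏ a ∈ S, f a) * (if S.card % 2 = 0 then 1 else f 0) := by
  unfold dl
  have h : ((S.sort (· ≥ ·)).map f).prod = ∏ a ∈ S, f a := by
    rw [Finset.prod_eq_multiset_prod, ← Finset.sort_eq S (· ≥ ·), Multiset.map_coe,
      Multiset.prod_coe]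
  rw [List.map_append, List.prod_append, h]
  congr 1
  by_cases hc : S.card % 2 = 0
  · rw [if_pos hc, if_pos hc]; simp
  · rw [if_neg hc, if_neg hc]; simp

theorem sum_dl (S : Finset ℕ) (f : ℕ → ℝ) :
    ((dl S).map f).sum = (∑ a ∈ S, f a) + (if S.card % 2 = 0 then 0 else f 0) := by
  unfold dl
  have h : ((S.sort (· ≥ ·)).map f).sum = ∑ a ∈ S, f a := by
    rw [Finset.sum_eq_multiset_sum, ← Finset.sort_eq S (· ≥ ·), Multiset.map_coe,
      Multiset.sum_coe]
  rw [List.map_append, List.sum_append, h]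
  congr 1
  by_cases hc : S.card % 2 = 0
  · rw [if_pos hc, if_pos hc]; simp
  · rw [if_neg hc, if_neg hc]; simp

private theorem card_lt_max (m : ℕ) (S : Finset ℕ) (hm : ∀ a ∈ S, a < m)
    (hS : ∀ a ∈ S, 1 ≤ a) (h1 : 1 ≤ m) : S.card + 1 ≤ m := by
  have hsub : S ⊆ Finset.Ico 1 m := fun a ha => Finset.mem_Ico.2 ⟨hS a ha, hm a ha⟩
  have := Finset.card_le_card hsub
  rw [Nat.card_Ico] at this
  omega

theorem prod_succ_ge (S : Finset ℕ) (hS : ∀ a ∈ S, 1 ≤ a) :
    (S.card + 1).factorial ≤ ∏ a ∈ S, (a + 1) := by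
  induction S using Finset.induction_on_max with
  | empty => simp
  | insert m S hm ih =>
    have hnot : m ∉ S := fun h => lt_irrefl _ (hm m h)
    rw [Finset.prod_insert hnot, Finset.card_insert_of_notMem hnot, Nat.factorial_succ]
    have h1 := ih (fun a ha => hS a (Finset.mem_insert_of_mem ha))
    have h2 := card_lt_max m S hm (fun a ha => hS a (Finset.mem_insert_of_mem ha))
      (hS m (Finset.mem_insert_self _ _))
    exact Nat.mul_le_mul (by omega) h1

theorem card_sq_le (S : Finset ℕ) (hS : ∀ a ∈ S, 1 ≤ a) :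
    S.card * (S.card + 1) ≤ 2 * ∑ a ∈ S, a := by
  induction S using Finset.induction_on_max with
  | empty => simp
  | insert m S hm ih =>
    have hnot : m ∉ S := fun h => lt_irrefl _ (hm m h)
    rw [Finset.sum_insert hnot, Finset.card_insert_of_notMem hnot]
    have h1 := ih (fun a ha => hS a (Finset.mem_insert_of_mem ha))
    have h2 := card_lt_max m S hm (fun a ha => hS a (Finset.mem_insert_of_mem ha))
      (hS m (Finset.mem_insert_self _ _))
    nlinarith

/-- the tail of `dl (insert m S)` for `m` larger than all elements of `S` -/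
noncomputable def tl (S : Finset ℕ) : List ℕ :=
  (S.sort (· ≥ ·)) ++ (if S.card % 2 = 0 then [0] else [])

theorem dl_insert (m : ℕ) (S : Finset ℕ) (h : ∀ a ∈ S, a < m) : dl (insert m S) = m :: tl S := by
  have hnot : m ∉ S := fun h' => lt_irrefl _ (h m h')
  unfold dl tl
  rw [Finset.sort_insert (· ≥ ·) (fun b hb => (h b hb).le) hnot,
    Finset.card_insert_of_notMem hnot, List.cons_append]
  congr 2
  by_cases hc : S.card % 2 = 0
  · rw [if_pos hc, if_neg (by omega)]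
  · rw [if_neg hc, if_pos (by omega)]

theorem mem_tl (S : Finset ℕ) (a : ℕ) (h : a ∈ tl S) : a ∈ S ∨ a = 0 := by
  unfold tl at h
  rw [List.mem_append, Finset.mem_sort] at h
  rcases h with h | h
  · left; exact h
  · right
    by_cases hc : S.card % 2 = 0
    · rw [if_pos hc] at h
      simpa using h
    · rw [if_neg hc] at h
      simp at h

theorem length_tl (S : Finset ℕ) : (tl S).length ≤ S.card + 1 := by
  unfold tl
  rw [List.length_append, Finset.length_sort]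
  by_cases h : S.card % 2 = 0
  · rw [if_pos h]; simp
  · rw [if_neg h]; simp

end Pool.Agent.Helper34.MVU
end

/- Helper34.MVU.Rprod -/
section
/-!
Project MV, block U, module U-T1b (Rprod): the product of the inverse radii, and properties of the
radii `rr E a`.

PROOFS. `rr E 0 = 0`, `rr E a = 1/2 (1 - 1/(2E))` for large `a` (`E < 4096 a`), `1/4` for small `a ≥ 1`.
* `rr_prop`: `1 - 1/(2E) ∈ [1/2, 1)`, so `rr E a ∈ [1/4, 1/2)` for `a ≥ 1`.
* `rr_mono`: if `b ≤ a`, `b ≠ 0`: large `b` implies large `a`; `1/4 ≤ 1/2 (1 - 1/(2E))`.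
* `rprod_le`: by `prod_dl` (the factor of `0` is `(2*0+1) * (0^0)⁻¹ = 1`) the left side is
  `Π_{a ∈ S} (2a+1) * Π_{a ∈ S} (rr E a ^ a)⁻¹`. For small `a`: `(1/4^a)⁻¹ = 4^a = 2^a 2^a`; for large
  `a`: `2^a ((1-1/(2E))^a)⁻¹`. So the second product is
  `2^(Σ a) Π_{sml} 2^a * ((1-1/(2E))^(Σ_{lrg} a))⁻¹`, `Σ_S a = E` and
  `(1-1/(2E))^(Σ_{lrg} a) ≥ (1-1/(2E))^E ≥ 1 - E/(2E) = 1/2` (Bernoulli, `one_add_mul_le_pow`).
-/

namespace Pool.Agent.Helper34.MVU

open Finset Pool.Agent.Helper60.MV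

private theorem rr_large {E : ℕ} {a : ℕ} (ha : a ≠ 0) (h : E < 4096 * a) :
    rr E a = 1 / 2 * (1 - 1 / (2 * (E : ℝ))) := by
  unfold rr; rw [if_neg ha, if_pos h]

private theorem rr_small {E : ℕ} {a : ℕ} (ha : a ≠ 0) (h : ¬ E < 4096 * a) :
    rr E a = 1 / 4 := by
  unfold rr; rw [if_neg ha, if_neg h]

private theorem E_bd {E : ℕ} (hE : 1 ≤ E) : (0:ℝ) < 1 / (2 * (E : ℝ)) ∧ 1 / (2 * (E : ℝ)) ≤ 1 / 2 := by
  have h1 : (1:ℝ) ≤ E := by exact_mod_cast hE
  constructor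
  · positivity
  · rw [div_le_div_iff₀ (by positivity) (by norm_num)]
    linarith

theorem rr_prop (E : ℕ) (hE : 1 ≤ E) (a : ℕ) :
    0 ≤ rr E a ∧ rr E a < 1 / 2 ∧ (a ≠ 0 → 0 < rr E a) := by
  obtain ⟨h1, h2⟩ := E_bd hE
  by_cases ha : a = 0
  · subst ha
    unfold rr
    simp
  · by_cases h : E < 4096 * a
    · rw [rr_large ha h]
      exact ⟨by linarith, by linarith, fun _ => by linarith⟩
    · rw [rr_small ha h]
      norm_num

theorem rr_mono (E : ℕ) (hE : 1 ≤ E) (a b : ℕ) (hb : b ≠ 0) (hab : b ≤ a) : rr E b ≤ rr E a := by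
  obtain ⟨h1, h2⟩ := E_bd hE
  have ha : a ≠ 0 := by omega
  by_cases h : E < 4096 * b
  · rw [rr_large hb h, rr_large ha (by omega)]
  · by_cases h' : E < 4096 * a
    · rw [rr_small hb h, rr_large ha h']
      linarith
    · rw [rr_small hb h, rr_small ha h']

private theorem factor_eq {E : ℕ} {a : ℕ} (ha : a ≠ 0) :
    ((rr E a) ^ a)⁻¹ = (if E < 4096 * a then ((1 - 1 / (2 * (E : ℝ))) ^ a)⁻¹ else 1) *
      ((2:ℝ) ^ a * (if E < 4096 * a then 1 else (2:ℝ) ^ a)) := by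
  by_cases h : E < 4096 * a
  · rw [rr_large ha h, if_pos h, if_pos h, mul_one, mul_pow, mul_inv, one_div, inv_pow, inv_inv,
      mul_comm]
  · rw [rr_small ha h, if_neg h, if_neg h, one_mul, one_div, inv_pow, inv_inv, ← mul_pow]
    norm_num

theorem rprod_le (E : ℕ) (hE : 1 ≤ E) (S : Finset ℕ) (hS : S ∈ stp E) :
    ((dl S).map (fun a : ℕ => (2 * (a : ℝ) + 1) * ((rr E a) ^ a)⁻¹)).prod ≤
      2 ^ (E + 1) * (∏ a ∈ S, (2 * (a : ℝ) + 1)) * ∏ a ∈ sml E S, (2 : ℝ) ^ a := by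
  obtain ⟨h1, h2⟩ := E_bd hE
  rw [mem_stp] at hS
  obtain ⟨hS1, hS2⟩ := hS
  have hf0 : (if S.card % 2 = 0 then (1:ℝ) else (2 * ((0:ℕ):ℝ) + 1) * ((rr E 0) ^ 0)⁻¹) = 1 := by
    split <;> simp
  rw [prod_dl, hf0, mul_one, Finset.prod_mul_distrib]
  have hne : ∀ a ∈ S, a ≠ 0 := fun a ha => by have := hS1 a ha; omega
  have e1 : ∏ a ∈ S, ((rr E a) ^ a)⁻¹ =
      (∏ a ∈ lrg E S, ((1 - 1 / (2 * (E : ℝ))) ^ a)⁻¹) * (2 ^ E * ∏ a ∈ sml E S, (2:ℝ) ^ a) := by
    rw [Finset.prod_congr rfl fun a ha => factor_eq (hne a ha), Finset.prod_mul_distrib,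
      Finset.prod_mul_distrib, lrg, sml, Finset.prod_filter, Finset.prod_filter,
      Finset.prod_pow_eq_pow_sum, hS2]
    congr 2
    refine Finset.prod_congr rfl fun a _ => ?_
    by_cases h : E < 4096 * a
    · simp [h]
    · simp [h]
  have e2 : ∏ a ∈ lrg E S, ((1 - 1 / (2 * (E : ℝ))) ^ a)⁻¹ ≤ 2 := by
    rw [Finset.prod_inv_distrib, Finset.prod_pow_eq_pow_sum]
    have hs : ∑ a ∈ lrg E S, a ≤ E := by
      rw [← hS2]
      exact Finset.sum_le_sum_of_subset (Finset.filter_subset _ _)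
    have hE0 : (0:ℝ) < E := by exact_mod_cast hE
    have hb : (1:ℝ) / 2 ≤ (1 - 1 / (2 * (E : ℝ))) ^ E := by
      have h := one_add_mul_le_pow (a := -(1 / (2 * (E : ℝ)))) (by linarith) E
      have h' : 1 + (E : ℝ) * -(1 / (2 * (E : ℝ))) = 1 / 2 := by
        field_simp
        norm_num
      rw [h'] at h
      rw [sub_eq_add_neg]
      exact h
    have hb2 : (1:ℝ) / 2 ≤ (1 - 1 / (2 * (E : ℝ))) ^ (∑ a ∈ lrg E S, a) :=
      hb.trans (pow_le_pow_of_le_one (by linarith) (by linarith) hs)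
    have h3 := inv_anti₀ (by norm_num) hb2
    have h4 : ((1:ℝ) / 2)⁻¹ = 2 := by norm_num
    rwa [h4] at h3
  rw [e1, pow_succ]
  have p1 : (0:ℝ) ≤ ∏ a ∈ S, (2 * (a : ℝ) + 1) := Finset.prod_nonneg fun a _ => by positivity
  have p2 : (0:ℝ) ≤ 2 ^ E * ∏ a ∈ sml E S, (2:ℝ) ^ a :=
    mul_nonneg (by positivity) (Finset.prod_nonneg fun a _ => by positivity)
  calc (∏ a ∈ S, (2 * (a : ℝ) + 1)) * ((∏ a ∈ lrg E S, ((1 - 1 / (2 * (E : ℝ))) ^ a)⁻¹) *
      (2 ^ E * ∏ a ∈ sml E S, (2:ℝ) ^ a))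
      ≤ (∏ a ∈ S, (2 * (a : ℝ) + 1)) * (2 * (2 ^ E * ∏ a ∈ sml E S, (2:ℝ) ^ a)) :=
        mul_le_mul_of_nonneg_left (mul_le_mul_of_nonneg_right e2 p2) p1
    _ = _ := by ring

end Pool.Agent.Helper34.MVU
end

/- Helper34.MVU.Xsum -/
section
/-!
Project MV, block U, module U-T1d (Xsum): the power sums of the weights `xx E a = (a/E)^(1/3)`.

PROOF. By `sum_dl` and `xx E 0 = 0` (`K i ≥ 1`) the sum over `dl S` is the sum over `S`. All
`a ∈ S` satisfy `1 ≤ a ≤ E` and `Σ a = E`.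
* `K i ≥ 3`: `xx E a ≤ 1`, `xx^(K i) ≤ xx^3 = a/E`, so the sum is `≤ 1`.
* `K i = 1` (odd and `< 3`): `Σ_{a ∈ S} xx E a ≤ 2 E^(1/3) ≤ 3 E^(1/3)`. Elementary proof: put
  `t = E^(1/3) ≥ 1`, so `E = t^3`, `xx E a = a^(1/3)/t`. For `a^(1/3) ≥ t^(1/2)` (i.e. `a^2 ≥ E`):
  `xx E a = (a/E) * (E/a)^(2/3) ≤ (a/E) * E^(1/3)`, the sum of these is `≤ E^(1/3)`. For `a^2 < E`:
  `xx E a ≤ (E^(1/2)/E)^(1/3) = E^(-1/6)` and there are at most `E^(1/2)` such `a` (distinct
  positive integers `< √E`), the sum is `≤ E^(1/3)`. (Or Hölder with `card_sq_le`.)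
* product over `i`: `Finset.prod_le_prod`, then `Π_i (if K i = 1 then c else 1) = c^(ones K)`
  (`Finset.prod_ite`, `Finset.prod_const`), `c = 3 E^(1/3) ≥ 1`.
-/

namespace Pool.Agent.Helper34.MVU

open Finset Pool.Agent.Helper60.MV

private theorem xx_nonneg (E a : ℕ) : 0 ≤ xx E a := by
  unfold xx
  positivity

private theorem xx_cube (E a : ℕ) : (xx E a) ^ 3 = (a : ℝ) / (E : ℝ) := by
  unfold xx
  rw [← Real.rpow_natCast, ← Real.rpow_mul (by positivity)]
  norm_num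

private theorem xx_le_one (E a : ℕ) (hE : 1 ≤ E) (ha : a ≤ E) : xx E a ≤ 1 := by
  unfold xx
  have hE' : (0 : ℝ) < E := by exact_mod_cast hE
  refine Real.rpow_le_one (by positivity) ?_ (by norm_num)
  rw [div_le_one hE']
  exact_mod_cast ha

private theorem sum_ge3 (k E : ℕ) (hk : 3 ≤ k) (hE : 1 ≤ E) (S : Finset ℕ)
    (hS : ∀ a ∈ S, 1 ≤ a) (hs : ∑ a ∈ S, a = E) : ∑ a ∈ S, (xx E a) ^ k ≤ 1 := by
  have hE' : (0 : ℝ) < E := by exact_mod_cast hE
  calc ∑ a ∈ S, (xx E a) ^ k ≤ ∑ a ∈ S, (a : ℝ) / (E : ℝ) := by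
        refine Finset.sum_le_sum (fun a ha => ?_)
        rw [← xx_cube E a]
        have haE : a ≤ E := by
          rw [← hs]
          exact Finset.single_le_sum (f := fun a => a) (fun _ _ => Nat.zero_le _) ha
        exact pow_le_pow_of_le_one (xx_nonneg E a) (xx_le_one E a hE haE) hk
    _ = 1 := by
        rw [← Finset.sum_div, ← Nat.cast_sum, hs]
        exact div_self hE'.ne'

private theorem sum_one (E : ℕ) (hE : 1 ≤ E) (S : Finset ℕ)
    (hS : ∀ a ∈ S, 1 ≤ a) (hs : ∑ a ∈ S, a = E) :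
    ∑ a ∈ S, (xx E a) ^ 1 ≤ 3 * (E : ℝ) ^ (1 / 3 : ℝ) := by
  have hE' : (0 : ℝ) < E := by exact_mod_cast hE
  set u : ℝ := (E : ℝ) ^ (1 / 6 : ℝ) with hu
  have hupos : 0 < u := Real.rpow_pos_of_pos hE' _
  have hu6 : u ^ 6 = E := by
    rw [hu, ← Real.rpow_natCast, ← Real.rpow_mul hE'.le]
    norm_num
  have hu2 : (E : ℝ) ^ (1 / 3 : ℝ) = u ^ 2 := by
    rw [hu, ← Real.rpow_natCast, ← Real.rpow_mul hE'.le]
    norm_num
  have hl : (S.card : ℝ) ≤ 3 / 2 * u ^ 3 := by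
    have h1 := card_sq_le S hS
    rw [hs] at h1
    have h2 : ((S.card : ℝ)) * ((S.card : ℝ) + 1) ≤ 2 * E := by exact_mod_cast h1
    have h3 : (S.card : ℝ) ^ 2 ≤ (3 / 2 * u ^ 3) ^ 2 := by
      have : (3 / 2 * u ^ 3) ^ 2 = 9 / 4 * u ^ 6 := by ring
      rw [this, hu6]
      nlinarith [Nat.cast_nonneg (α := ℝ) S.card]
    exact le_of_sq_le_sq h3 (by positivity)
  have hterm : ∀ a ∈ S, (xx E a) ^ 1 ≤ ((a : ℝ) / u ^ 4 + 2 / u) / 3 := by
    intro a _
    rw [pow_one]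
    set x := xx E a with hx
    have hx0 : 0 ≤ x := xx_nonneg E a
    have hx3 : x ^ 3 = (a : ℝ) / u ^ 6 := by rw [hu6]; exact xx_cube E a
    have ha : (a : ℝ) / u ^ 4 = x ^ 3 * u ^ 2 := by
      rw [hx3]
      field_simp
    rw [ha]
    -- with y = x u² : 3 y u² ≤ y³ + 2 u³
    have key : 0 ≤ (x * u - 1) ^ 2 * (x * u + 2) := by positivity
    have h5 : 3 * (x * u) ≤ (x * u) ^ 3 + 2 := by nlinarith
    have h6 : x = (3 * (x * u)) / (3 * u) := by field_simp
    have h7 : (x ^ 3 * u ^ 2 + 2 / u) / 3 = ((x * u) ^ 3 + 2) / (3 * u) := by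
      field_simp
    rw [h7]
    calc x = (3 * (x * u)) / (3 * u) := h6
      _ ≤ ((x * u) ^ 3 + 2) / (3 * u) := div_le_div_of_nonneg_right h5 (by positivity)
  calc ∑ a ∈ S, (xx E a) ^ 1 ≤ ∑ a ∈ S, ((a : ℝ) / u ^ 4 + 2 / u) / 3 := Finset.sum_le_sum hterm
    _ = ((E : ℝ) / u ^ 4 + S.card * (2 / u)) / 3 := by
        rw [← Finset.sum_div, Finset.sum_add_distrib, ← Finset.sum_div, ← Nat.cast_sum, hs,
          Finset.sum_const, nsmul_eq_mul]
    _ ≤ (u ^ 2 + 3 * u ^ 2) / 3 := by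
        refine div_le_div_of_nonneg_right ?_ (by norm_num)
        refine add_le_add (le_of_eq ?_) ?_
        · rw [← hu6]
          field_simp
        · calc (S.card : ℝ) * (2 / u) ≤ (3 / 2 * u ^ 3) * (2 / u) :=
                mul_le_mul_of_nonneg_right hl (by positivity)
            _ = 3 * u ^ 2 := by
                field_simp
    _ ≤ 3 * (E : ℝ) ^ (1 / 3 : ℝ) := by
        rw [hu2]
        nlinarith [sq_nonneg u]

theorem xsum_le {ρ : Type} [Fintype ρ] (K : ρ → ℕ) (hK : ∀ i, Odd (K i)) (E : ℕ) (hE : 1 ≤ E)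
    (S : Finset ℕ) (hS : S ∈ stp E) :
    (∏ i, ((dl S).map (fun a : ℕ => (xx E a) ^ K i)).sum) ≤
      (3 * (E : ℝ) ^ (1 / 3 : ℝ)) ^ ones K := by
  classical
  obtain ⟨h1, hs⟩ := (mem_stp E S).mp hS
  have hsum : ∀ i, ((dl S).map (fun a : ℕ => (xx E a) ^ K i)).sum = ∑ a ∈ S, (xx E a) ^ K i := by
    intro i
    rw [sum_dl S (fun a => (xx E a) ^ K i)]
    have hx0 : xx E 0 = 0 := by
      unfold xx
      rw [Nat.cast_zero, zero_div, Real.zero_rpow (by norm_num)]
    have hKi : K i ≠ 0 := by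
      have := (hK i).pos
      omega
    rw [hx0, zero_pow hKi]
    simp
  have hbd : ∀ i ∈ (Finset.univ : Finset ρ), ((dl S).map (fun a : ℕ => (xx E a) ^ K i)).sum ≤
      (if K i = 1 then 3 * (E : ℝ) ^ (1 / 3 : ℝ) else 1) := by
    intro i _
    rw [hsum i]
    split_ifs with h
    · rw [h]
      exact sum_one E hE S h1 hs
    · refine sum_ge3 (K i) E ?_ hE S h1 hs
      obtain ⟨m, hm⟩ := hK i
      omega
  calc (∏ i, ((dl S).map (fun a : ℕ => (xx E a) ^ K i)).sum)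
      ≤ ∏ i, (if K i = 1 then 3 * (E : ℝ) ^ (1 / 3 : ℝ) else 1) := by
        refine Finset.prod_le_prod (fun i _ => ?_) hbd
        rw [hsum i]
        exact Finset.sum_nonneg (fun a _ => pow_nonneg (xx_nonneg E a) _)
    _ = (3 * (E : ℝ) ^ (1 / 3 : ℝ)) ^ ones K := by
        rw [Finset.prod_ite, Finset.prod_const, Finset.prod_const_one, mul_one]
        rfl

end Pool.Agent.Helper34.MVU
end

/- Helper34.MVU.SumA -/
section
/-!
Project MV, block U, module U-SA (SumA): the sum of the majorants over the sets without large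
elements.

PROOF. `lrg E S = ∅`, `sml E S = S`, all `a ∈ S` satisfy `4096 a ≤ E`, `1 ≤ a`, `Σ a = E`.
`maj E S = Π_{a ∈ S} (54 a^3 4^a (a/E)^(a/3))` and `(a/E)^(a/3) ≤ (1/4096)^(a/3) = 16^(-a)`, so
`maj E S ≤ Π (54 a^3 4^(-a)) = 2^(-E) Π_{a ∈ S} (54 a^3 2^(-a))` (`Σ a = E`). Sum over all subsets of
`Icc 1 E` (nonnegative terms): `Σ_S Π_{a ∈ S} w a = Π_{a=1}^E (1 + w a)` (`Finset.prod_one_add` or
`Finset.prod_add`), `≤ exp (Σ_a w a) ≤ C` with `w a = 54 a^3 2^(-a)` summable. Finally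
`2^(-E) ≤ C' / E^T` for `E ≥ 1` (`E^T 2^(-E)` is bounded: it tends to `0`,
`tendsto_pow_const_mul_const_pow_of_abs_lt_one`).
-/

namespace Pool.Agent.Helper34.MVU

open Finset Pool.Agent.Helper60.MV

private noncomputable def sumAw (a : ℕ) : ℝ := 54 * ((a : ℝ) ^ 3 * (1 / 2) ^ a)

private theorem sumAw_nonneg (a : ℕ) : 0 ≤ sumAw a := by
  unfold sumAw
  positivity

private theorem sumAw_summable : Summable sumAw := by
  have h : Summable (fun n : ℕ => (n : ℝ) ^ 3 * (1 / 2 : ℝ) ^ n) :=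
    summable_pow_mul_geometric_of_norm_lt_one 3 (by norm_num)
  exact h.mul_left 54

private theorem sumA_rpow {E a : ℕ} (hE : 1 ≤ E) (ha : ¬ (E < 4096 * a)) :
    ((a : ℝ) / (E : ℝ)) ^ ((a : ℝ) / 3) ≤ (1 / 16 : ℝ) ^ a := by
  have hE' : (0:ℝ) < E := by exact_mod_cast hE
  have h1 : (a : ℝ) / (E : ℝ) ≤ (1 / 16 : ℝ) ^ (3 : ℝ) := by
    have h2 : (4096 : ℝ) * a ≤ E := by
      have : 4096 * a ≤ E := by omega
      exact_mod_cast this
    have h3 : (1 / 16 : ℝ) ^ (3 : ℝ) = 1 / 4096 := by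
      rw [show (3:ℝ) = ((3 : ℕ) : ℝ) by norm_num, Real.rpow_natCast]
      norm_num
    rw [h3, div_le_div_iff₀ hE' (by norm_num)]
    linarith
  have h4 : (0:ℝ) ≤ (a : ℝ) / (E : ℝ) := by positivity
  calc ((a : ℝ) / (E : ℝ)) ^ ((a : ℝ) / 3) ≤ ((1 / 16 : ℝ) ^ (3 : ℝ)) ^ ((a : ℝ) / 3) :=
        Real.rpow_le_rpow h4 h1 (by positivity)
    _ = (1 / 16 : ℝ) ^ a := by
        rw [← Real.rpow_mul (by norm_num), ← Real.rpow_natCast]
        congr 1
        ring

private theorem sumA_maj {E : ℕ} (hE : 1 ≤ E) {S : Finset ℕ} (hS : ∑ a ∈ S, a = E)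
    (hl : (lrg E S).card = 0) : maj E S ≤ (1 / 2) ^ E * ∏ a ∈ S, sumAw a := by
  have hlrg : lrg E S = ∅ := Finset.card_eq_zero.mp hl
  have hsm : ∀ a ∈ S, ¬ (E < 4096 * a) := by
    intro a ha hlt
    have : a ∈ lrg E S := by
      unfold lrg
      rw [Finset.mem_filter]
      exact ⟨ha, hlt⟩
    rw [hlrg] at this
    simp at this
  have hsml : sml E S = S := by
    unfold sml
    exact Finset.filter_true_of_mem hsm
  unfold maj
  rw [hl, hsml]
  simp only [pow_zero, zero_pow (two_ne_zero), add_zero, one_mul, mul_one]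
  have hhalf : (1 / 2 : ℝ) ^ E = ∏ a ∈ S, (1 / 2 : ℝ) ^ a := by
    rw [Finset.prod_pow_eq_pow_sum, hS]
  rw [← Finset.prod_mul_distrib, hhalf, ← Finset.prod_mul_distrib]
  refine Finset.prod_le_prod (fun a _ => by positivity) (fun a ha => ?_)
  have h1 := sumA_rpow hE (hsm a ha)
  have h2 : (1 / 16 : ℝ) ^ a * 4 ^ a = (1 / 2) ^ a * (1 / 2) ^ a := by
    rw [← mul_pow, ← mul_pow]
    norm_num
  unfold sumAw
  calc 18 * (a : ℝ) ^ 3 * ((a : ℝ) / (E : ℝ)) ^ ((a : ℝ) / 3) * (3 * 4 ^ a) ≤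
      18 * (a : ℝ) ^ 3 * (1 / 16 : ℝ) ^ a * (3 * 4 ^ a) := by
        gcongr
    _ = 54 * (a : ℝ) ^ 3 * ((1 / 16 : ℝ) ^ a * 4 ^ a) := by ring
    _ = (1 / 2) ^ a * (54 * ((a : ℝ) ^ 3 * (1 / 2) ^ a)) := by
        rw [h2]
        ring

theorem sumA_le (T : ℕ) : ∃ C : ℝ, 0 ≤ C ∧ ∀ E : ℕ, 1 ≤ E →
    ∑ S ∈ (stp E).filter (fun S => (lrg E S).card = 0), maj E S ≤ C / (E : ℝ) ^ T := by
  have hbd : ∃ B : ℝ, ∀ n : ℕ, (n : ℝ) ^ T * (1 / 2 : ℝ) ^ n ≤ B := by
    have h0 : Filter.Tendsto (fun n : ℕ => (n : ℝ) ^ T * (1 / 2 : ℝ) ^ n) Filter.atTop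
        (nhds 0) :=
      tendsto_pow_const_mul_const_pow_of_abs_lt_one T (by rw [abs_of_pos] <;> norm_num)
    obtain ⟨B, hB⟩ := h0.bddAbove_range
    refine ⟨B, fun n => ?_⟩
    apply hB
    exact Set.mem_range_self n
  obtain ⟨B, hB⟩ := hbd
  have hB0 : 0 ≤ B := le_trans (by positivity) (hB 0)
  refine ⟨B * Real.exp (∑' a, sumAw a), by positivity, ?_⟩
  intro E hE
  have hE' : (0:ℝ) < E := by exact_mod_cast hE
  have h1 : ∑ S ∈ (stp E).filter (fun S => (lrg E S).card = 0), maj E S ≤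
      ∑ S ∈ (Finset.Icc 1 E).powerset, (1 / 2) ^ E * ∏ a ∈ S, sumAw a := by
    refine le_trans (Finset.sum_le_sum (g := fun S => (1 / 2) ^ E * ∏ a ∈ S, sumAw a)
      (fun S hS => ?_)) (Finset.sum_le_sum_of_subset_of_nonneg ?_ ?_)
    · rw [Finset.mem_filter, stp, Finset.mem_filter] at hS
      exact sumA_maj hE hS.1.2 hS.2
    · intro S hS
      rw [Finset.mem_filter, stp, Finset.mem_filter] at hS
      exact hS.1.1
    · intro S _ _
      have h5 : (0:ℝ) ≤ (1 / 2) ^ E := by positivity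
      exact mul_nonneg h5 (Finset.prod_nonneg (fun a _ => sumAw_nonneg a))
  have h2 : ∑ S ∈ (Finset.Icc 1 E).powerset, (1 / 2 : ℝ) ^ E * ∏ a ∈ S, sumAw a ≤
      (1 / 2) ^ E * Real.exp (∑' a, sumAw a) := by
    rw [← Finset.mul_sum, ← Finset.prod_one_add]
    refine mul_le_mul_of_nonneg_left ?_ (by positivity)
    calc ∏ a ∈ Finset.Icc 1 E, (1 + sumAw a) ≤ ∏ a ∈ Finset.Icc 1 E, Real.exp (sumAw a) := by
          refine Finset.prod_le_prod (fun a _ => ?_) (fun a _ => ?_)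
          · have := sumAw_nonneg a
            linarith
          · have := Real.add_one_le_exp (sumAw a)
            linarith
      _ = Real.exp (∑ a ∈ Finset.Icc 1 E, sumAw a) := (Real.exp_sum _ _).symm
      _ ≤ Real.exp (∑' a, sumAw a) := by
          apply Real.exp_le_exp.mpr
          exact sumAw_summable.sum_le_tsum _ (fun a _ => sumAw_nonneg a)
  refine (h1.trans h2).trans ?_
  rw [le_div_iff₀ (by positivity)]
  have h3 := hB E
  have h4 : 0 < Real.exp (∑' a, sumAw a) := Real.exp_pos _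
  calc (1 / 2 : ℝ) ^ E * Real.exp (∑' a, sumAw a) * (E : ℝ) ^ T =
      ((E : ℝ) ^ T * (1 / 2 : ℝ) ^ E) * Real.exp (∑' a, sumAw a) := by ring
    _ ≤ B * Real.exp (∑' a, sumAw a) := mul_le_mul_of_nonneg_right h3 h4.le

end Pool.Agent.Helper34.MVU
end

/- Helper34.MVU.SumC -/
section
/-!
Project MV, block U, module U-SC (SumC): the sum of the majorants over the sets with at least two
large elements.

PROOF. Let `S ∈ stp E`, `λ = card (lrg E S) ≥ 2`. Large elements are `> E/4096` and their sum is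
`≤ E`, so `λ ≤ 4095`. Factors of `maj E S`:
 - `(4E)^(λ+λ²)`, at most `(4E)^(4095+4095²)` (`4E ≥ 1`);
 - large `a`: `18 a^3 (a/E)^(a/3) ≤ 18 E^3`, and for ONE of them, the smaller of two large elements
   `a1 < a2`, i.e. some large `a` with `E/4096 < a ≤ E/2` (`a1 + a2 ≤ E`, `2 a1 ≤ E`):
   `(a/E)^(a/3) ≤ (1/2)^(a/3) ≤ (1/2)^(E/12288)`. So the product over the large elements is at most
   `(18 E^3)^4095 (1/2)^(E/12288)`;
 - small `a`: `18 a^3 (a/E)^(a/3) * 3 * 6^λ * 4^a ≤ 54 * 6^4095 a^3 4^(-a)` as `(a/E)^(a/3) ≤ 16^(-a)`.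
   Call it `w a`.
The number of possible sets `lrg E S` is at most `(E+1)^4095` (subsets of `Icc 1 E` with at most 4095
elements; e.g. `Σ_{j ≤ n} (E choose j) ≤ (E+1)^n`), and `S` is determined by `lrg E S` and `sml E S`.
So the sum is at most `(E+1)^4095 (4E)^(4095+4095²) (18E^3)^4095 (1/2)^(E/12288) exp (Σ_a w a)`, which
is `≤ C/E^T` for all `E ≥ 1` because polynomial times `q^E` with `q = (1/2)^(1/12288) < 1` is bounded.
(Keep the exponents `4095` etc. as variables `D : ℕ` so that Lean does not try to evaluate them.)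
-/

namespace Pool.Agent.Helper34.MVU

open Finset Pool.Agent.Helper60.MV

private theorem bdd_pow (N : ℕ) (q : ℝ) (hq0 : 0 ≤ q) (hq : q < 1) :
    ∃ K : ℝ, 0 ≤ K ∧ ∀ E : ℕ, (E : ℝ) ^ N * q ^ E ≤ K := by
  have h1 := tendsto_pow_const_mul_const_pow_of_abs_lt_one N
    (show |q| < 1 by rw [abs_of_nonneg hq0]; exact hq)
  obtain ⟨K, hK⟩ := h1.bddAbove_range
  refine ⟨max K 0, le_max_right _ _, fun E => le_trans ?_ (le_max_left _ _)⟩
  exact hK ⟨E, rfl⟩

private theorem small_le (E a lam D : ℕ) (hE : 1 ≤ E) (ha : ¬ (E < 4096 * a)) (hl : lam ≤ D) :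
    (18 * (a : ℝ) ^ 3 * ((a : ℝ) / (E : ℝ)) ^ ((a : ℝ) / 3)) * (3 * 6 ^ lam * 4 ^ a) ≤
      54 * 6 ^ D * ((a : ℝ) ^ 3 * (1 / 4) ^ a) := by
  have hE' : (0 : ℝ) < E := by exact_mod_cast hE
  have h1 : (a : ℝ) / (E : ℝ) ≤ 1 / 4096 := by
    rw [div_le_div_iff₀ hE' (by norm_num)]
    have : 4096 * a ≤ E := by omega
    have : ((4096 * a : ℕ) : ℝ) ≤ (E : ℝ) := by exact_mod_cast this
    push_cast at this
    linarith
  have h2 : ((a : ℝ) / (E : ℝ)) ^ ((a : ℝ) / 3) ≤ (1 / 16 : ℝ) ^ a := by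
    calc ((a : ℝ) / (E : ℝ)) ^ ((a : ℝ) / 3) ≤ (1 / 4096 : ℝ) ^ ((a : ℝ) / 3) :=
          Real.rpow_le_rpow (by positivity) h1 (by positivity)
      _ = (1 / 16 : ℝ) ^ a := by
          rw [show (1 / 4096 : ℝ) = (1 / 16 : ℝ) ^ (3 : ℝ) by norm_num, ← Real.rpow_mul (by norm_num),
            show (3 : ℝ) * ((a : ℝ) / 3) = (a : ℝ) by ring, Real.rpow_natCast]
  have h3 : (6 : ℝ) ^ lam ≤ 6 ^ D := pow_le_pow_right₀ (by norm_num) hl
  calc (18 * (a : ℝ) ^ 3 * ((a : ℝ) / (E : ℝ)) ^ ((a : ℝ) / 3)) * (3 * 6 ^ lam * 4 ^ a)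
      ≤ (18 * (a : ℝ) ^ 3 * (1 / 16 : ℝ) ^ a) * (3 * 6 ^ D * 4 ^ a) := by
        gcongr
    _ = 54 * 6 ^ D * ((a : ℝ) ^ 3 * ((1 / 16) ^ a * 4 ^ a)) := by ring
    _ = 54 * 6 ^ D * ((a : ℝ) ^ 3 * (1 / 4) ^ a) := by
        rw [← mul_pow]; norm_num

private theorem large_le (E a : ℕ) (hE : 1 ≤ E) (ha : a ≤ E) :
    (18 * (a : ℝ) ^ 3 * ((a : ℝ) / (E : ℝ)) ^ ((a : ℝ) / 3)) ≤ 18 * (E : ℝ) ^ 3 := by
  have hE' : (0 : ℝ) < E := by exact_mod_cast hE
  have ha' : (a : ℝ) ≤ E := by exact_mod_cast ha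
  have h1 : ((a : ℝ) / (E : ℝ)) ^ ((a : ℝ) / 3) ≤ 1 :=
    Real.rpow_le_one (by positivity) ((div_le_one hE').2 ha') (by positivity)
  calc (18 * (a : ℝ) ^ 3 * ((a : ℝ) / (E : ℝ)) ^ ((a : ℝ) / 3)) ≤ 18 * (a : ℝ) ^ 3 * 1 := by gcongr
    _ ≤ 18 * (E : ℝ) ^ 3 := by rw [mul_one]; gcongr

private theorem main_C (T D : ℕ) (q : ℝ) (hq0 : 0 < q) (hq : q < 1)
    (hD : ∀ E : ℕ, 1 ≤ E → ∀ S ∈ stp E, (lrg E S).card ≤ D)
    (hqE : ∀ E a : ℕ, 1 ≤ E → E < 4096 * a → 2 * a ≤ E →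
      ((a : ℝ) / (E : ℝ)) ^ ((a : ℝ) / 3) ≤ q ^ E) :
    ∃ C : ℝ, 0 ≤ C ∧ ∀ E : ℕ, 1 ≤ E →
    ∑ S ∈ (stp E).filter (fun S => 2 ≤ (lrg E S).card), maj E S ≤ C / (E : ℝ) ^ T := by
  classical
  obtain ⟨w, hw⟩ : ∃ w : ℕ → ℝ, w = fun a : ℕ => 54 * 6 ^ D * ((a : ℝ) ^ 3 * (1 / 4) ^ a) :=
    ⟨_, rfl⟩
  have hws : Summable w := by
    rw [hw]
    exact (summable_pow_mul_geometric_of_norm_lt_one 3
      (r := (1 / 4 : ℝ)) (by norm_num)).mul_left _
  have hw0 : ∀ a, 0 ≤ w a := fun a => by rw [hw]; positivity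
  obtain ⟨K, hK0, hK⟩ := bdd_pow (T + (D + D ^ 2) + 3 * D + D) q hq0.le hq
  refine ⟨4 ^ (D + D ^ 2) * 18 ^ D * K * Real.exp (1 + ∑' a, w a), by positivity, fun E hE => ?_⟩
  have hE' : (0 : ℝ) < E := by exact_mod_cast hE
  have hE1 : (1 : ℝ) ≤ E := by exact_mod_cast hE
  obtain ⟨v, hv⟩ : ∃ v : ℕ → ℝ, v = fun a : ℕ => 1 / (E : ℝ) + w a := ⟨_, rfl⟩
  have hv0 : ∀ a, 0 ≤ v a := fun a => by
    rw [hv]
    have := hw0 a
    positivity
  obtain ⟨X, hX⟩ : ∃ X : ℝ, X = (4 * (E : ℝ)) ^ (D + D ^ 2) * ((18 * (E : ℝ) ^ 3) ^ D * q ^ E) *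
    (E : ℝ) ^ D := ⟨_, rfl⟩
  have hX0 : 0 ≤ X := by rw [hX]; positivity
  have key : ∀ S ∈ (stp E).filter (fun S => 2 ≤ (lrg E S).card), maj E S ≤ X * ∏ a ∈ S, v a := by
    intro S hS
    rw [Finset.mem_filter] at hS
    obtain ⟨hS, h2⟩ := hS
    have hlD := hD E hE S hS
    obtain ⟨hpos, hsum⟩ := (mem_stp E S).1 hS
    obtain ⟨f, hf⟩ : ∃ f : ℕ → ℝ, f = fun a : ℕ =>
      (18 * (a : ℝ) ^ 3 * ((a : ℝ) / (E : ℝ)) ^ ((a : ℝ) / 3)) := ⟨_, rfl⟩
    have hf0 : ∀ a, 0 ≤ f a := fun a => by rw [hf]; positivity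
    have hle : ∀ a ∈ S, a ≤ E := fun a ha => by
      rw [← hsum]
      exact Finset.single_le_sum (f := fun a => a) (fun _ _ => Nat.zero_le _) ha
    have hsplit : ∀ g : ℕ → ℝ, ∏ a ∈ S, g a = (∏ a ∈ lrg E S, g a) * ∏ a ∈ sml E S, g a := by
      intro g
      unfold lrg sml
      rw [Finset.prod_filter_mul_prod_filter_not]
    -- a large element at most E / 2
    obtain ⟨a1, a2, h1, h2', hlt⟩ : ∃ a1 a2, a1 ∈ lrg E S ∧ a2 ∈ lrg E S ∧ a1 < a2 := by
      obtain ⟨a, ha, b, hb, hab⟩ := Finset.one_lt_card.1 (show 1 < (lrg E S).card by omega)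
      rcases lt_or_gt_of_ne hab with h | h
      · exact ⟨a, b, ha, hb, h⟩
      · exact ⟨b, a, hb, ha, h⟩
    have hm1 := Finset.mem_filter.1 h1
    have hm2 := Finset.mem_filter.1 h2'
    have hsum2 : a1 + a2 ≤ E := by
      rw [← hsum]
      have hss : ({a1, a2} : Finset ℕ) ⊆ S := by
        intro x hx
        rw [Finset.mem_insert, Finset.mem_singleton] at hx
        rcases hx with rfl | rfl
        · exact hm1.1
        · exact hm2.1
      have := Finset.sum_le_sum_of_subset (f := fun a : ℕ => a) hss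
      rw [Finset.sum_pair hlt.ne] at this
      exact this
    have hA : ∏ a ∈ lrg E S, f a ≤ (18 * (E : ℝ) ^ 3) ^ D * q ^ E := by
      have h18 : (1 : ℝ) ≤ 18 * (E : ℝ) ^ 3 := by
        have : (1 : ℝ) ≤ (E : ℝ) ^ 3 := one_le_pow₀ hE1
        linarith
      rw [← Finset.mul_prod_erase _ _ h1]
      have e1 : f a1 ≤ 18 * (E : ℝ) ^ 3 * q ^ E := by
        have hq1 := hqE E a1 hE hm1.2 (by omega)
        have ha' : (a1 : ℝ) ≤ E := by exact_mod_cast hle a1 hm1.1
        rw [hf]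
        show 18 * (a1 : ℝ) ^ 3 * ((a1 : ℝ) / (E : ℝ)) ^ ((a1 : ℝ) / 3) ≤ _
        gcongr
      have e2 : ∏ a ∈ (lrg E S).erase a1, f a ≤ (18 * (E : ℝ) ^ 3) ^ ((lrg E S).card - 1) := by
        rw [← Finset.card_erase_of_mem h1, ← Finset.prod_const]
        refine Finset.prod_le_prod (fun a _ => hf0 a) fun a ha => ?_
        have hm := Finset.mem_filter.1 (Finset.mem_of_mem_erase ha)
        rw [hf]
        exact large_le E a hE (hle a hm.1)
      calc f a1 * ∏ a ∈ (lrg E S).erase a1, f a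
          ≤ (18 * (E : ℝ) ^ 3 * q ^ E) * (18 * (E : ℝ) ^ 3) ^ ((lrg E S).card - 1) := by
            apply mul_le_mul e1 e2 (Finset.prod_nonneg fun a _ => hf0 a) (by positivity)
        _ = (18 * (E : ℝ) ^ 3) ^ ((lrg E S).card - 1 + 1) * q ^ E := by ring
        _ ≤ (18 * (E : ℝ) ^ 3) ^ D * q ^ E := by
            apply mul_le_mul_of_nonneg_right _ (by positivity)
            exact pow_le_pow_right₀ h18 (by omega)
    have hB : ∏ a ∈ sml E S, (f a * (3 * 6 ^ (lrg E S).card * 4 ^ a)) ≤ ∏ a ∈ sml E S, w a := by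
      refine Finset.prod_le_prod (fun a _ => mul_nonneg (hf0 a) (by positivity)) fun a ha => ?_
      have hm := Finset.mem_filter.1 ha
      rw [hf, hw]
      exact small_le E a _ D hE hm.2 hlD
    have h4 : (4 * (E : ℝ)) ^ ((lrg E S).card + (lrg E S).card ^ 2) ≤
        (4 * (E : ℝ)) ^ (D + D ^ 2) := by
      apply pow_le_pow_right₀ (by linarith)
      have : (lrg E S).card ^ 2 ≤ D ^ 2 := Nat.pow_le_pow_left hlD 2
      omega
    have h5 : (1 : ℝ) ≤ (E : ℝ) ^ D * ∏ a ∈ lrg E S, (1 / (E : ℝ)) := by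
      rw [Finset.prod_const, one_div, inv_pow, ← div_eq_mul_inv, one_le_div (by positivity)]
      exact pow_le_pow_right₀ hE1 hlD
    have hmaj : maj E S = (4 * (E : ℝ)) ^ ((lrg E S).card + (lrg E S).card ^ 2) *
        ((∏ a ∈ lrg E S, f a) * ∏ a ∈ sml E S, (f a * (3 * 6 ^ (lrg E S).card * 4 ^ a))) := by
      have : maj E S = (4 * (E : ℝ)) ^ ((lrg E S).card + (lrg E S).card ^ 2) *
        (∏ a ∈ S, f a) * ∏ a ∈ sml E S, (3 * 6 ^ (lrg E S).card * 4 ^ a) := by
        rw [hf]; rfl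
      have h7 : ∏ a ∈ sml E S, (f a * (3 * 6 ^ (lrg E S).card * 4 ^ a)) =
        (∏ a ∈ sml E S, f a) * ∏ a ∈ sml E S, (3 * 6 ^ (lrg E S).card * 4 ^ a) :=
        Finset.prod_mul_distrib
      rw [this, hsplit f, h7]
      ring
    have hpA : 0 ≤ ∏ a ∈ lrg E S, f a := Finset.prod_nonneg fun a _ => hf0 a
    have hpB : 0 ≤ ∏ a ∈ sml E S, (f a * (3 * 6 ^ (lrg E S).card * 4 ^ a)) :=
      Finset.prod_nonneg fun a _ => mul_nonneg (hf0 a) (by positivity)
    have hpw : 0 ≤ ∏ a ∈ sml E S, w a := Finset.prod_nonneg fun a _ => hw0 a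
    calc maj E S ≤ (4 * (E : ℝ)) ^ (D + D ^ 2) * (((18 * (E : ℝ) ^ 3) ^ D * q ^ E) *
          ∏ a ∈ sml E S, w a) := by
          rw [hmaj]
          apply mul_le_mul h4 _ (mul_nonneg hpA hpB) (by positivity)
          exact mul_le_mul hA hB hpB (by positivity)
      _ ≤ (4 * (E : ℝ)) ^ (D + D ^ 2) * (((18 * (E : ℝ) ^ 3) ^ D * q ^ E) *
          ∏ a ∈ sml E S, w a) * ((E : ℝ) ^ D * ∏ a ∈ lrg E S, (1 / (E : ℝ))) :=
          le_mul_of_one_le_right (by positivity) h5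
      _ = X * ((∏ a ∈ lrg E S, (1 / (E : ℝ))) * ∏ a ∈ sml E S, w a) := by rw [hX]; ring
      _ ≤ X * ∏ a ∈ S, v a := by
          apply mul_le_mul_of_nonneg_left _ hX0
          rw [hsplit v]
          apply mul_le_mul _ _ hpw (Finset.prod_nonneg fun a _ => hv0 a)
          · refine Finset.prod_le_prod (fun a _ => by positivity) fun a _ => ?_
            rw [hv]
            have := hw0 a
            simp only
            linarith
          · refine Finset.prod_le_prod (fun a _ => hw0 a) fun a _ => ?_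
            rw [hv]
            have : (0 : ℝ) ≤ 1 / (E : ℝ) := by positivity
            simp only
            linarith
  have hsub : (stp E).filter (fun S => 2 ≤ (lrg E S).card) ⊆ (Finset.Icc 1 E).powerset :=
    (Finset.filter_subset _ _).trans (Finset.filter_subset _ _)
  have hexp : ∏ a ∈ Finset.Icc 1 E, (1 + v a) ≤ Real.exp (1 + ∑' a, w a) := by
    calc ∏ a ∈ Finset.Icc 1 E, (1 + v a) ≤ ∏ a ∈ Finset.Icc 1 E, Real.exp (v a) := by
          refine Finset.prod_le_prod (fun a _ => by have := hv0 a; linarith) fun a _ => ?_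
          rw [add_comm]
          exact Real.add_one_le_exp _
      _ = Real.exp (∑ a ∈ Finset.Icc 1 E, v a) := by rw [Real.exp_sum]
      _ ≤ Real.exp (1 + ∑' a, w a) := by
          apply Real.exp_le_exp.2
          rw [hv, Finset.sum_add_distrib, Finset.sum_const, Nat.card_Icc, Nat.add_sub_cancel,
            nsmul_eq_mul, mul_one_div, div_self hE'.ne']
          have := hws.sum_le_tsum (Finset.Icc 1 E) (fun a _ => hw0 a)
          linarith
  calc ∑ S ∈ (stp E).filter (fun S => 2 ≤ (lrg E S).card), maj E S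
      ≤ ∑ S ∈ (stp E).filter (fun S => 2 ≤ (lrg E S).card), X * ∏ a ∈ S, v a :=
        Finset.sum_le_sum key
    _ ≤ ∑ S ∈ (Finset.Icc 1 E).powerset, X * ∏ a ∈ S, v a :=
        Finset.sum_le_sum_of_subset_of_nonneg hsub
          (fun S _ _ => mul_nonneg hX0 (Finset.prod_nonneg fun a _ => hv0 a))
    _ = X * ∏ a ∈ Finset.Icc 1 E, (1 + v a) := by
        rw [← Finset.mul_sum, Finset.prod_one_add]
    _ ≤ X * Real.exp (1 + ∑' a, w a) := mul_le_mul_of_nonneg_left hexp hX0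
    _ ≤ 4 ^ (D + D ^ 2) * 18 ^ D * K * Real.exp (1 + ∑' a, w a) / (E : ℝ) ^ T := by
        rw [le_div_iff₀ (by positivity)]
        have hXK : X * (E : ℝ) ^ T ≤ 4 ^ (D + D ^ 2) * 18 ^ D * K := by
          have h6 : X * (E : ℝ) ^ T = 4 ^ (D + D ^ 2) * 18 ^ D *
              ((E : ℝ) ^ (T + (D + D ^ 2) + 3 * D + D) * q ^ E) := by
            rw [hX, mul_pow, mul_pow, pow_add (E : ℝ) (T + (D + D ^ 2) + 3 * D) D,
              pow_add (E : ℝ) (T + (D + D ^ 2)) (3 * D), pow_add (E : ℝ) T (D + D ^ 2),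
              pow_mul (E : ℝ) 3 D]
            ring
          rw [h6]
          exact mul_le_mul_of_nonneg_left (hK E) (by positivity)
        calc X * Real.exp (1 + ∑' a, w a) * (E : ℝ) ^ T
            = (X * (E : ℝ) ^ T) * Real.exp (1 + ∑' a, w a) := by ring
          _ ≤ _ := mul_le_mul_of_nonneg_right hXK (Real.exp_pos _).le

theorem sumC_le (T : ℕ) : ∃ C : ℝ, 0 ≤ C ∧ ∀ E : ℕ, 1 ≤ E →
    ∑ S ∈ (stp E).filter (fun S => 2 ≤ (lrg E S).card), maj E S ≤ C / (E : ℝ) ^ T := by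
  obtain ⟨D, hDeq⟩ : ∃ D : ℕ, D = 4095 := ⟨_, rfl⟩
  refine main_C T D ((1 / 2 : ℝ) ^ (1 / 12288 : ℝ)) (by positivity) ?_ ?_ ?_
  · exact Real.rpow_lt_one (by norm_num) (by norm_num) (by norm_num)
  · intro E hE S hS
    obtain ⟨hpos, hsum⟩ := (mem_stp E S).1 hS
    have h1 : ∑ a ∈ lrg E S, a ≤ E := by
      rw [← hsum]
      exact Finset.sum_le_sum_of_subset (Finset.filter_subset _ _)
    have h2 : (lrg E S).card * (E + 1) ≤ ∑ a ∈ lrg E S, 4096 * a := by
      rw [← smul_eq_mul, ← Finset.sum_const]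
      refine Finset.sum_le_sum fun a ha => ?_
      have := (Finset.mem_filter.1 ha).2
      omega
    rw [← Finset.mul_sum] at h2
    have h3 : (lrg E S).card * (E + 1) ≤ 4096 * E := h2.trans (Nat.mul_le_mul_left _ h1)
    by_contra hcon
    have h4 : 4096 ≤ (lrg E S).card := by omega
    have h5 : 4096 * (E + 1) ≤ (lrg E S).card * (E + 1) := Nat.mul_le_mul_right _ h4
    omega
  · intro E a hE ha h2a
    have hE' : (0 : ℝ) < E := by exact_mod_cast hE
    have h1 : (a : ℝ) / (E : ℝ) ≤ 1 / 2 := by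
      rw [div_le_div_iff₀ hE' (by norm_num)]
      have : ((2 * a : ℕ) : ℝ) ≤ (E : ℝ) := by exact_mod_cast h2a
      push_cast at this
      linarith
    have h2 : (E : ℝ) / 12288 ≤ (a : ℝ) / 3 := by
      have : ((E : ℕ) : ℝ) ≤ ((4096 * a : ℕ) : ℝ) := by exact_mod_cast ha.le
      push_cast at this
      linarith
    calc ((a : ℝ) / (E : ℝ)) ^ ((a : ℝ) / 3) ≤ (1 / 2 : ℝ) ^ ((a : ℝ) / 3) :=
          Real.rpow_le_rpow (by positivity) h1 (by positivity)
      _ ≤ (1 / 2 : ℝ) ^ ((E : ℝ) / 12288) :=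
          Real.rpow_le_rpow_of_exponent_ge (by norm_num) (by norm_num) h2
      _ = ((1 / 2 : ℝ) ^ (1 / 12288 : ℝ)) ^ E := by
          rw [← Real.rpow_natCast, ← Real.rpow_mul (by norm_num)]
          congr 1
          ring

end Pool.Agent.Helper34.MVU
end

/- Helper91.MVC.Defs -/
section
/-!
Project MV, block C1 (combinatorics of leaves): definitions.
-/

namespace Pool.Agent.Helper91.MVC

open Finset Pool.Agent.Helper60.MV

variable {H H' : Type} {σ : Equiv.Perm H} {σ' : Equiv.Perm H'}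

/-- `R'` is the part of `R` seen through `j` (half-edges) and `g` (faces) -/
structure Pull (R' : Conf σ') (R : Conf σ) (j : H' → H) (g : H' → R.Face) : Prop where
  inj : Function.Injective j
  tau : ∀ h, j (R'.τ h) = R.τ (j h)
  face : ∀ a b, R'.face a = R'.face b ↔ g a = g b
  beta : ∀ a b, R'.β (R'.face a) = R'.face b ↔ R.β (g a) = g b

/-- a leaf with values in a ring -/
structure LeafOn {α : Type} [CommRing α] (R : Conf σ) (x : H) (μ : H → α) : Prop where
  face : ∀ h h', R.face h = R.face h' → μ h = μ h'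
  beta : ∀ h h', R.β (R.face h) = R.face h' → μ h' = - μ h
  tau : ∀ h, h ≠ x → h ≠ R.τ x → μ (R.τ h) = - μ h
  zero : μ x = 0
  one : μ (R.τ x) = 1

/-- the largest leaf of `R` has its leg at `x` and size `2 m + 1` -/
def MaxLeaf (R : Conf σ) (x : H) (m : ℕ) : Prop :=
  ∃ μ : H → ℤ, R.IsLeaf x μ ∧ Nat.card {h // μ h ≠ 0} = 2 * m + 1 ∧
    ∀ (x' : H) (μ' : H → ℤ), R.IsLeaf x' μ' → Nat.card {h // μ' h ≠ 0} ≤ 2 * m + 1

/-- the configuration `R` is cut along the edge of a leaf into the leaf `T` (the edge becomes a leg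
of the leaf) and the rest `R₁` -/
structure Split {HT H₁ : Type} {σT : Equiv.Perm HT} {σ₁ : Equiv.Perm H₁}
    [Fintype H] [Fintype HT] [Fintype H₁]
    (R : Conf σ) (T : Conf σT) (R₁ : Conf σ₁) where
  /-- the faces -/
  ιF : T.Face ⊕ R₁.Face ≃ R.Face
  /-- the edges -/
  ιE : T.Edge ⊕ R₁.Edge ≃ R.Edge
  /-- the edge joining the leaf to the rest -/
  e₀ : T.Edge
  /-- the face inside the leaf at this edge -/
  fy : T.Face
  /-- the face outside the leaf at this edge -/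
  fx : R₁.Face
  /-- the signs of the faces of the leaf -/
  ν : T.Face → ℤ
  beta : ∀ f, R.β (ιF f) = ιF (Sum.map T.β R₁.β f)
  perT : ∀ (x : R.Edge → ℝ) (f : T.Face),
    R.per x (ιF (Sum.inl f)) + (if f = fy then x (ιE (Sum.inl e₀)) else 0) =
      T.per (fun e => x (ιE (Sum.inl e))) f
  per₁ : ∀ (x : R.Edge → ℝ) (f : R₁.Face),
    R.per x (ιF (Sum.inr f)) =
      R₁.per (fun e => x (ιE (Sum.inr e))) f + (if f = fx then x (ιE (Sum.inl e₀)) else 0)
  leafT : ∀ f : T.Face, R.LeafFace (ιF (Sum.inl f))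
  leaf₁ : ∀ f : R₁.Face, R₁.LeafFace f → R.LeafFace (ιF (Sum.inr f)) ∧ f ≠ fx
  nu : ∀ f, ν f = 1 ∨ ν f = -1
  nubeta : ∀ f, ν (T.β f) = - ν f
  nuper : ∀ x : R.Edge → ℝ,
    ∑ f : T.Face, (ν f : ℝ) * R.per x (ιF (Sum.inl f)) = x (ιE (Sum.inl e₀))

/-- `R` is the disjoint union of `R'` and `R''` -/
structure DSplit {HT H₁ : Type} {σT : Equiv.Perm HT} {σ₁ : Equiv.Perm H₁}
    [Fintype H] [Fintype HT] [Fintype H₁]
    (R : Conf σ) (R' : Conf σT) (R'' : Conf σ₁) where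
  ιF : R'.Face ⊕ R''.Face ≃ R.Face
  ιE : R'.Edge ⊕ R''.Edge ≃ R.Edge
  beta : ∀ f, R.β (ιF f) = ιF (Sum.map R'.β R''.β f)
  per' : ∀ (x : R.Edge → ℝ) (f : R'.Face),
    R.per x (ιF (Sum.inl f)) = R'.per (fun e => x (ιE (Sum.inl e))) f
  per'' : ∀ (x : R.Edge → ℝ) (f : R''.Face),
    R.per x (ιF (Sum.inr f)) = R''.per (fun e => x (ιE (Sum.inr e))) f

/-- no relation of `R` between the vertices in `I` and the others -/
def ClosedIn {ρ : Type} {K : ρ → ℕ} (R : Conf (rot K)) (I : Finset ρ) : Prop :=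
  ∀ a b : HK K, (b = rot K a ∨ b = R.τ a ∨ R.face b = R.β (R.face a)) → (a.1 ∈ I ↔ b.1 ∈ I)

/-- restriction of a type -/
def resK {ρ : Type} (K : ρ → ℕ) (I : Finset ρ) : {i // i ∈ I} → ℕ := fun i => K i

end Pool.Agent.Helper91.MVC
end

/- Helper91.MVC.Basic -/
section
/-!
Project MV, block C1: basic facts.
-/

namespace Pool.Agent.Helper91.MVC

open Finset Pool.Agent.Helper60.MV

variable {H H' : Type} {σ : Equiv.Perm H} {σ' : Equiv.Perm H'}

theorem cyc_eq_iff {g : Equiv.Perm H} {a b : H} : cyc g a = cyc g b ↔ g.SameCycle a b :=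
  Quotient.eq (r := Equiv.Perm.SameCycle.setoid g)

theorem cyc_rep {g : Equiv.Perm H} (c : Cyc g) : cyc g c.rep = c := Quotient.out_eq c

theorem cyc_surj {g : Equiv.Perm H} (c : Cyc g) : ∃ h, cyc g h = c := ⟨c.rep, cyc_rep c⟩

theorem cyc_apply {g : Equiv.Perm H} (a : H) : cyc g (g a) = cyc g a :=
  cyc_eq_iff.2 (Equiv.Perm.sameCycle_apply_left.2 (Equiv.Perm.SameCycle.refl _ _))

/-- a `g`-invariant function is constant on cycles -/
theorem inv_sameCycle {g : Equiv.Perm H} {α : Type} {F : H → α} (hF : ∀ h, F (g h) = F h) {a b : H}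
    (hab : g.SameCycle a b) : F a = F b := by
  have h1 : ∀ (n : ℕ) (h : H), F ((g ^ n) h) = F h := by
    intro n
    induction n with
    | zero => intro h; rfl
    | succ n ih => intro h; rw [pow_succ', Equiv.Perm.mul_apply, hF, ih]
  obtain ⟨n, hn⟩ := hab
  obtain ⟨m, rfl | rfl⟩ := n.eq_nat_or_neg
  · rw [← hn, zpow_natCast, h1]
  · rw [zpow_neg, zpow_natCast, Equiv.Perm.inv_eq_iff_eq] at hn
    rw [hn, h1]

theorem face_eq_iff (R : Conf σ) {a b : H} : R.face a = R.face b ↔ (σ * R.τ).SameCycle a b :=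
  cyc_eq_iff

theorem face_surj (R : Conf σ) (f : R.Face) : ∃ h, R.face h = f := cyc_surj f

theorem edge_surj (R : Conf σ) (e : R.Edge) : ∃ h, R.edge h = e := cyc_surj e

theorem face_tau_eq (R : Conf σ) (h : H) : R.face (R.τ h) = R.face (σ h) := by
  have h1 : R.face ((σ * R.τ) (R.τ h)) = R.face (R.τ h) := cyc_apply _
  rw [Equiv.Perm.mul_apply, R.hτ.invol] at h1
  exact h1.symm

theorem face_phi (R : Conf σ) (h : H) : R.face (σ (R.τ h)) = R.face h := cyc_apply _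

theorem edge_eq_iff (R : Conf σ) {a b : H} : R.edge a = R.edge b ↔ a = b ∨ R.τ a = b := by
  constructor
  · intro h
    have h1 : R.τ.SameCycle a b := cyc_eq_iff.1 h
    have h2 : ∀ n : ℕ, (R.τ ^ n) a = a ∨ (R.τ ^ n) a = R.τ a := by
      intro n
      induction n with
      | zero => exact Or.inl rfl
      | succ n ih =>
        rw [pow_succ', Equiv.Perm.mul_apply]
        rcases ih with ih | ih
        · rw [ih]; exact Or.inr rfl
        · rw [ih, R.hτ.invol]; exact Or.inl rfl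
    have h2' : ∀ n : ℕ, (R.τ ^ n) b = b ∨ (R.τ ^ n) b = R.τ b := by
      intro n
      induction n with
      | zero => exact Or.inl rfl
      | succ n ih =>
        rw [pow_succ', Equiv.Perm.mul_apply]
        rcases ih with ih | ih
        · rw [ih]; exact Or.inr rfl
        · rw [ih, R.hτ.invol]; exact Or.inl rfl
    obtain ⟨n, hn⟩ := h1
    obtain ⟨m, rfl | rfl⟩ := n.eq_nat_or_neg
    · rw [zpow_natCast] at hn
      rcases h2 m with h3 | h3
      · exact Or.inl (h3.symm.trans hn)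
      · exact Or.inr (h3.symm.trans hn)
    · rw [zpow_neg, zpow_natCast, Equiv.Perm.inv_eq_iff_eq] at hn
      rcases h2' m with h3 | h3
      · exact Or.inl (hn.trans h3)
      · right
        rw [hn, h3, R.hτ.invol]
  · rintro (rfl | rfl)
    · rfl
    · exact (cyc_apply (g := R.τ) a).symm

theorem edge_tau (R : Conf σ) (h : H) : R.edge (R.τ h) = R.edge h := cyc_apply _

/-- an integer leaf is a leaf with values in every ring -/
theorem leafOn_of_isLeaf {α : Type} [CommRing α] {R : Conf σ} {x : H} {μ : H → ℤ}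
    (h : R.IsLeaf x μ) : LeafOn R x (fun a => (μ a : α)) where
  face := fun a b hab => by rw [h.face a b hab]
  beta := fun a b hab => by rw [h.beta a b hab]; push_cast; rfl
  tau := fun a h1 h2 => by rw [h.tau a h1 h2]; push_cast; rfl
  zero := by rw [h.zero]; exact Int.cast_zero
  one := by rw [h.one]; exact Int.cast_one

theorem isLeaf_of_leafOn {R : Conf σ} {x : H} {μ : H → ℤ} (h : LeafOn R x μ) : R.IsLeaf x μ :=
  ⟨h.face, h.beta, h.tau, h.zero, h.one⟩

theorem leafOn_int {R : Conf σ} {x : H} {μ : H → ℤ} (h : R.IsLeaf x μ) : LeafOn R x μ :=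
  ⟨h.face, h.beta, h.tau, h.zero, h.one⟩

end Pool.Agent.Helper91.MVC
end

/- Helper91.MVC.Defs2 -/
section
/-!
Project MV, block C1: cutting a configuration along the edge of a leaf, abstract form.
`x` is the leg of the leaf, `y = τ x` the last half-edge of the leaf, `A` the set of half-edges of
the leaf (the support of `μ`).
-/

namespace Pool.Agent.Helper91.MVC

open Finset Pool.Agent.Helper60.MV

variable {H : Type} {σ : Equiv.Perm H}

/-- `(HT, σT)` is the leaf `A` closed up at `y`, together with the leg `x` -/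
structure EmbT {HT : Type} (σ : Equiv.Perm H) (x y : H) (A : H → Prop) (σT : Equiv.Perm HT)
    (jT : HT → H) (xT yT : HT) : Prop where
  inj : Function.Injective jT
  range : ∀ h, (∃ p, jT p = h) ↔ (h = x ∨ A h)
  hx : jT xT = x
  hy : jT yT = y
  fix : σT xT = xT
  last : jT (σT yT) = σ x
  other : ∀ p, p ≠ xT → p ≠ yT → jT (σT p) = σ (jT p)

/-- `(H₁, σ₁)` is the complement of the leaf and its leg -/
structure Emb1 {H₁ : Type} (σ : Equiv.Perm H) (x y : H) (A : H → Prop) (σ₁ : Equiv.Perm H₁)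
    (j₁ : H₁ → H) (z₁ : H₁) : Prop where
  inj : Function.Injective j₁
  range : ∀ h, (∃ p, j₁ p = h) ↔ ¬ (h = x ∨ A h)
  hz : σ (j₁ z₁) = x
  last : j₁ (σ₁ z₁) = σ y
  other : ∀ p, p ≠ z₁ → j₁ (σ₁ p) = σ (j₁ p)

/-- the face of `R` containing a half-edge of the leaf; the leg belongs to the face of `τ x` -/
noncomputable def gT {HT : Type} (R : Conf σ) (x : H) (jT : HT → H) (xT : HT) : HT → R.Face := by
  classical
  exact fun p => if p = xT then R.face (R.τ x) else R.face (jT p)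

theorem gT_x {HT : Type} (R : Conf σ) (x : H) (jT : HT → H) (xT : HT) :
    gT R x jT xT xT = R.face (R.τ x) := by
  simp [gT]

theorem gT_of_ne {HT : Type} (R : Conf σ) (x : H) (jT : HT → H) (xT p : HT) (h : p ≠ xT) :
    gT R x jT xT p = R.face (jT p) := by
  simp [gT, h]

/-- data of a leaf and the two embeddings -/
structure Cut {HT H₁ : Type} (R : Conf σ) (x : H) (μ : H → ℤ) (A : H → Prop)
    (σT : Equiv.Perm HT) (jT : HT → H) (xT yT : HT) (σ₁ : Equiv.Perm H₁) (j₁ : H₁ → H)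
    (z₁ : H₁) : Prop where
  leaf : R.IsLeaf x μ
  hA : ∀ h, A h ↔ μ h ≠ 0
  val : ∀ h, μ h ≠ 0 → μ h = 1 ∨ μ h = -1
  eT : EmbT σ x (R.τ x) A σT jT xT yT
  e₁ : Emb1 σ x (R.τ x) A σ₁ j₁ z₁

/-- the embedding of the leaf for `rot K` -/
def jTK {ρ : Type} (K : ρ → ℕ) (x : HK K) (m : ℕ) : HK (leg m) → HK K :=
  fun p => if p.1 = true then (rot K ^ ((p.2 : ℕ) + 1)) x else x

/-- the embedding of the rest for `rot K` -/
noncomputable def j₁K {ρ : Type} (K : ρ → ℕ) (x : HK K) (m : ℕ) : HK (red K x.1 m) → HK K := by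
  classical
  exact fun p => if h : p.1 = x.1 then (rot K ^ (2 * m + 2 + (p.2 : ℕ))) x
    else ⟨p.1, ⟨p.2, by
      have h1 := p.2.isLt
      have h2 : red K x.1 m p.1 = K p.1 := by simp [red, h]
      omega⟩⟩

/-- the half-edges of the leaf for `rot K` -/
def AK {ρ : Type} (K : ρ → ℕ) (x : HK K) (m : ℕ) : HK K → Prop :=
  fun h => ∃ k, k < 2 * m + 1 ∧ h = (rot K ^ (k + 1)) x

end Pool.Agent.Helper91.MVC
end

/- Helper91.MVC.PullEx -/
section
/-!
MV-C1-6. Existence of the induced configuration and the induced maps.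

`pull_exists`: `R.τ` preserves the range of the injection `j`, so it induces a permutation `τ'` of `H'` with `j (τ' p) = R.τ (j p)` (choose the
preimage, it is an involution without fixed points because `j` is injective and `R.τ` is one). Let `φ' = σ' * τ'`. By `hφ` the map
`G : Cyc φ' → R.Face`, `cyc φ' a ↦ g a`, is well defined and injective, its range is closed under the fixed point free involution `R.β` (`hβ`), so
`β' = G⁻¹ R.β G` is a fixed point free involution of `Cyc φ'` with `β' (cyc a) = cyc b ↔ R.β (g a) = g b`.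
`conf_ext`: two configurations on `(H, σ)` with the same `τ` and the same relation `β (face a) = face b` are equal (`cases`, `subst`).
`pull_faceMap`: `f ↦ g f.rep` (`face` of `Pull`; `R.β (g a) = g b` with `R'.face b = R'.β (R'.face a)`). `pull_edgeMap`: `e ↦ R.edge (j e.rep)`, use `edge_eq_iff` and
`inj`, `tau`.
-/

namespace Pool.Agent.Helper91.MVC

open Finset Pool.Agent.Helper60.MV

variable {H H' : Type} {σ : Equiv.Perm H} {σ' : Equiv.Perm H'}

theorem pull_exists (R : Conf σ) (σ' : Equiv.Perm H') (j : H' → H) (hj : Function.Injective j)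
    (hτ : ∀ p, ∃ q, j q = R.τ (j p)) (g : H' → R.Face)
    (hφ : ∀ τ' : Equiv.Perm H', (∀ p, j (τ' p) = R.τ (j p)) →
      ∀ a b, (σ' * τ').SameCycle a b ↔ g a = g b)
    (hβ : ∀ a, ∃ b, R.β (g a) = g b) : ∃ R' : Conf σ', Pull R' R j g := by
  choose t ht using hτ
  have ht2 : ∀ p, t (t p) = p := fun p => hj (by rw [ht, ht, R.hτ.invol])
  let τ' : Equiv.Perm H' := ⟨t, t, ht2, ht2⟩
  have hτ' : ∀ p, j (τ' p) = R.τ (j p) := ht
  have hpair : IsPairing τ' := ⟨ht2, fun p h => R.hτ.fpf (j p) (by rw [← hτ', h])⟩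
  have hφ' := hφ τ' hτ'
  -- the map on faces
  let G : Cyc (σ' * τ') → R.Face := fun c => g c.rep
  have hG : ∀ a, G (cyc (σ' * τ') a) = g a := fun a =>
    (hφ' _ _).1 (cyc_eq_iff.1 (cyc_rep (cyc (σ' * τ') a)))
  have hGi : Function.Injective G := by
    intro c c' h
    obtain ⟨a, rfl⟩ := cyc_surj c
    obtain ⟨b, rfl⟩ := cyc_surj c'
    rw [hG, hG] at h
    exact cyc_eq_iff.2 ((hφ' _ _).2 h)
  have hGr : ∀ c, ∃ c', G c' = R.β (G c) := by
    intro c
    obtain ⟨a, rfl⟩ := cyc_surj c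
    obtain ⟨b, hb⟩ := hβ a
    exact ⟨cyc _ b, by rw [hG, hG, hb]⟩
  choose B hB using hGr
  have hB2 : ∀ c, B (B c) = c := fun c => hGi (by rw [hB, hB, R.hβ.invol])
  let β' : Equiv.Perm (Cyc (σ' * τ')) := ⟨B, B, hB2, hB2⟩
  have hβ' : ∀ c, G (β' c) = R.β (G c) := hB
  have hpair' : IsPairing β' := ⟨hB2, fun c h => R.hβ.fpf (G c) (by rw [← hβ', h])⟩
  refine ⟨⟨τ', hpair, β', hpair'⟩, ⟨hj, hτ', ?_, ?_⟩⟩
  · intro a b
    exact cyc_eq_iff.trans (hφ' a b)
  · intro a b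
    constructor
    · intro h
      have h1 : G (β' (cyc _ a)) = G (cyc _ b) := congrArg G h
      rw [hβ', hG, hG] at h1
      exact h1
    · intro h
      apply hGi
      show G (β' (cyc _ a)) = G (cyc _ b)
      rw [hβ', hG, hG]
      exact h

theorem conf_ext {R R' : Conf σ} (hτ : ∀ h, R.τ h = R'.τ h)
    (hβ : ∀ a b, R.β (R.face a) = R.face b ↔ R'.β (R'.face a) = R'.face b) : R = R' := by
  obtain ⟨τ, h1, β, h2⟩ := R
  obtain ⟨τ', h1', β', h2'⟩ := R'
  have e : τ = τ' := Equiv.ext hτ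
  subst e
  have e2 : β = β' := by
    refine Equiv.ext fun c => ?_
    obtain ⟨a, rfl⟩ := cyc_surj c
    obtain ⟨b, hb⟩ := cyc_surj (β (cyc (σ * τ) a))
    rw [← hb]
    exact ((hβ a b).1 hb.symm).symm
  subst e2
  rfl

theorem pull_faceMap {R' : Conf σ'} {R : Conf σ} {j : H' → H} {g : H' → R.Face}
    (h : Pull R' R j g) : ∃ i : R'.Face → R.Face, Function.Injective i ∧
      (∀ a, i (R'.face a) = g a) ∧ ∀ f, R.β (i f) = i (R'.β f) := by
  have h1 : ∀ a, g (R'.face a).rep = g a := fun a =>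
    (h.face _ _).1 (cyc_rep (R'.face a))
  refine ⟨fun f => g f.rep, ?_, h1, ?_⟩
  · intro f f' hf
    obtain ⟨a, rfl⟩ := face_surj R' f
    obtain ⟨b, rfl⟩ := face_surj R' f'
    have hf' : g (R'.face a).rep = g (R'.face b).rep := hf
    rw [h1, h1] at hf'
    exact (h.face a b).2 hf'
  · intro f
    obtain ⟨a, rfl⟩ := face_surj R' f
    obtain ⟨b, hb⟩ := face_surj R' (R'.β (R'.face a))
    show R.β (g (R'.face a).rep) = g (R'.β (R'.face a)).rep
    rw [← hb, h1, h1]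
    exact (h.beta a b).1 hb.symm

theorem pull_edgeMap {R' : Conf σ'} {R : Conf σ} {j : H' → H} {g : H' → R.Face}
    (h : Pull R' R j g) : ∃ i : R'.Edge → R.Edge, Function.Injective i ∧
      ∀ a, i (R'.edge a) = R.edge (j a) := by
  have h0 : ∀ a b, R'.edge a = R'.edge b ↔ R.edge (j a) = R.edge (j b) := by
    intro a b
    rw [edge_eq_iff, edge_eq_iff]
    constructor
    · rintro (rfl | rfl)
      · exact Or.inl rfl
      · exact Or.inr (h.tau a).symm
    · rintro (h1 | h1)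
      · exact Or.inl (h.inj h1)
      · exact Or.inr (h.inj ((h.tau a).trans h1))
  have h1 : ∀ a, R.edge (j (R'.edge a).rep) = R.edge (j a) := fun a =>
    (h0 _ _).1 (cyc_rep (R'.edge a))
  refine ⟨fun e => R.edge (j e.rep), ?_, h1⟩
  intro e e' he
  obtain ⟨a, rfl⟩ := edge_surj R' e
  obtain ⟨b, rfl⟩ := edge_surj R' e'
  have he' : R.edge (j (R'.edge a).rep) = R.edge (j (R'.edge b).rep) := he
  rw [h1, h1] at he'
  exact (h0 a b).2 he'

end Pool.Agent.Helper91.MVC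
end

/- Helper91.MVC.SplitF -/
section
/-!
MV-C1-10. Faces and edges of a cut.

Let `iT, i₁` be the maps of `pull_faceMap` for `T` and `R₁`. `A = {μ ≠ 0}`. The faces `iT f` are faces of half-edges in `A` (`gT xT = R.face (R.τ x)`, `R.τ x ∈ A`; `gT p =
R.face (jT p)`, `jT p ∈ A` for `p ≠ xT`), the faces `i₁ f` are faces of half-edges not in `A`; `μ` is constant on faces, so the ranges are disjoint. Every face of
`R` is hit: `f = R.face h`; `h ∈ A`: `h = jT p`, `p ≠ xT`; `h ∉ A`, `h ≠ x`: `h = j₁ p`; `h = x`: `R.face x = R.face (σ (R.τ x))` (`face_phi`) `= R.face (j₁ (σ₁ z₁))`.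
So `Sum.elim iT i₁` is bijective (`Equiv.ofBijective`), and it commutes with the pairings. Edges: `pull_edgeMap`, `edge_eq_iff`; the ranges of `jT` and `j₁`
are complementary and stable under `R.τ` (by `Pull.tau`).
-/

namespace Pool.Agent.Helper91.MVC

open Finset Pool.Agent.Helper60.MV

variable {H HT H₁ : Type} {σ : Equiv.Perm H}

/-- the maps of a cut -/
structure Maps {σT : Equiv.Perm HT} {σ₁ : Equiv.Perm H₁} (R : Conf σ) (T : Conf σT) (R₁ : Conf σ₁)
    (x : H) (jT : HT → H) (xT : HT) (j₁ : H₁ → H) (iF : T.Face ⊕ R₁.Face ≃ R.Face)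
    (iE : T.Edge ⊕ R₁.Edge ≃ R.Edge) : Prop where
  fT : ∀ p, iF (Sum.inl (T.face p)) = gT R x jT xT p
  f₁ : ∀ p, iF (Sum.inr (R₁.face p)) = R.face (j₁ p)
  eT : ∀ p, iE (Sum.inl (T.edge p)) = R.edge (jT p)
  e₁ : ∀ p, iE (Sum.inr (R₁.edge p)) = R.edge (j₁ p)
  beta : ∀ f, R.β (iF f) = iF (Sum.map T.β R₁.β f)

theorem cut_maps {R : Conf σ} {x : H} {μ : H → ℤ} {A : H → Prop} {σT : Equiv.Perm HT}
    {jT : HT → H} {xT yT : HT} {σ₁ : Equiv.Perm H₁} {j₁ : H₁ → H} {z₁ : H₁}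
    (hC : Cut R x μ A σT jT xT yT σ₁ j₁ z₁) (T : Conf σT) (R₁ : Conf σ₁)
    (hT : Pull T R jT (gT R x jT xT)) (h₁ : Pull R₁ R j₁ (fun p => R.face (j₁ p))) :
    ∃ iF iE, Maps R T R₁ x jT xT j₁ iF iE := by
  classical
  obtain ⟨iT, iTinj, iTf, iTb⟩ := pull_faceMap hT
  obtain ⟨i₁, i₁inj, i₁f, i₁b⟩ := pull_faceMap h₁
  obtain ⟨kT, kTinj, kTe⟩ := pull_edgeMap hT
  obtain ⟨k₁, k₁inj, k₁e⟩ := pull_edgeMap h₁
  have hleaf := hC.leaf
  have hyA : A (R.τ x) := by
    rw [hC.hA, hleaf.one]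
    exact one_ne_zero
  have hxA : ¬ A x := by
    rw [hC.hA, hleaf.zero]
    simp
  have hjT : ∀ p, jT p = x ∨ A (jT p) := fun p => (hC.eT.range _).1 ⟨p, rfl⟩
  have hj₁ : ∀ q, ¬ (j₁ q = x ∨ A (j₁ q)) := fun q => (hC.e₁.range _).1 ⟨q, rfl⟩
  have hjTx : ∀ p, jT p = x → p = xT := fun p hp => hC.eT.inj (hp.trans hC.eT.hx.symm)
  -- faces of the leaf come from half-edges of the leaf
  have hgT : ∀ p, ∃ h, A h ∧ gT R x jT xT p = R.face h := by
    intro p
    by_cases hp : p = xT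
    · exact ⟨R.τ x, hyA, by rw [hp, gT_x]⟩
    · refine ⟨jT p, (hjT p).resolve_left fun h => hp (hjTx p h), gT_of_ne R x jT xT p hp⟩
  have hsepF : ∀ f g, iT f ≠ i₁ g := by
    intro f g hfg
    obtain ⟨p, rfl⟩ := face_surj T f
    obtain ⟨q, rfl⟩ := face_surj R₁ g
    obtain ⟨h, hh, he⟩ := hgT p
    rw [iTf, i₁f, he] at hfg
    have h1 := hleaf.face _ _ hfg
    rw [hC.hA, h1] at hh
    exact hj₁ q (Or.inr ((hC.hA _).2 hh))
  have hsepE : ∀ e g, kT e ≠ k₁ g := by
    intro e g heg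
    obtain ⟨p, rfl⟩ := edge_surj T e
    obtain ⟨q, rfl⟩ := edge_surj R₁ g
    rw [kTe, k₁e, edge_eq_iff] at heg
    rcases heg with h | h
    · apply hj₁ q
      rw [← h]
      exact hjT p
    · apply hj₁ q
      rw [← h, ← hT.tau]
      exact hjT _
  have injF : Function.Injective (Sum.elim iT i₁) := by
    rintro (a | a) (b | b) h
    · exact congrArg Sum.inl (iTinj h)
    · exact absurd h (hsepF a b)
    · exact absurd h.symm (hsepF b a)
    · exact congrArg Sum.inr (i₁inj h)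
  have injE : Function.Injective (Sum.elim kT k₁) := by
    rintro (a | a) (b | b) h
    · exact congrArg Sum.inl (kTinj h)
    · exact absurd h (hsepE a b)
    · exact absurd h.symm (hsepE b a)
    · exact congrArg Sum.inr (k₁inj h)
  have surF : Function.Surjective (Sum.elim iT i₁) := by
    intro f
    obtain ⟨h, rfl⟩ := face_surj R f
    by_cases hh : A h
    · obtain ⟨p, rfl⟩ := (hC.eT.range h).2 (Or.inr hh)
      have hp : p ≠ xT := by
        rintro rfl
        rw [hC.eT.hx] at hh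
        exact hxA hh
      exact ⟨Sum.inl (T.face p), (iTf p).trans (gT_of_ne R x jT xT p hp)⟩
    · by_cases hx : h = x
      · refine ⟨Sum.inr (R₁.face (σ₁ z₁)), (i₁f _).trans ?_⟩
        show R.face (j₁ (σ₁ z₁)) = R.face h
        rw [hC.e₁.last, face_phi, hx]
      · obtain ⟨p, rfl⟩ := (hC.e₁.range h).2 (by rintro (h1 | h1); exacts [hx h1, hh h1])
        exact ⟨Sum.inr (R₁.face p), i₁f p⟩
  have surE : Function.Surjective (Sum.elim kT k₁) := by
    intro e
    obtain ⟨h, rfl⟩ := edge_surj R e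
    by_cases hh : h = x ∨ A h
    · obtain ⟨p, rfl⟩ := (hC.eT.range h).2 hh
      exact ⟨Sum.inl (T.edge p), kTe p⟩
    · obtain ⟨p, rfl⟩ := (hC.e₁.range h).2 hh
      exact ⟨Sum.inr (R₁.edge p), k₁e p⟩
  refine ⟨Equiv.ofBijective _ ⟨injF, surF⟩, Equiv.ofBijective _ ⟨injE, surE⟩, ?_, ?_, ?_, ?_, ?_⟩
  · intro p
    exact iTf p
  · intro p
    exact i₁f p
  · intro p
    exact kTe p
  · intro p
    exact k₁e p
  · rintro (f | f)
    · exact iTb f
    · exact i₁b f

end Pool.Agent.Helper91.MVC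
end

/- Helper91.MVC.Good -/
section
/-!
MV-C1-4. Good configurations have no leaf and are not `AA`.

`u : Edge → ℕ` positive with `R.per u f = R.per u (R.β f)`. Let `μ : H → ℤ` be constant on faces, odd under `β` and odd under `τ` off `{x, τ x}`.
(a) `∑_h μ h * u (R.edge h) = 0`: group by faces: `= ∑_f μ_f * R.per u f` with `μ_f = μ f.rep`, and `μ_{β f} = - μ_f`, `per u (β f) = per u f`; reindex by
`β`: the sum equals its opposite. (b) The same sum, reindexed by `τ`: `2 ∑_h μ h u (edge h) = ∑_h (μ h + μ (τ h)) u (edge h)` (`edge_tau`), only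
`h = x` and `h = τ x` contribute (`x ≠ τ x`): `= 2 (μ x + μ (τ x)) u (edge x)`. So `(μ x + μ (τ x)) u (edge x) = 0`; for a leaf
`μ x + μ (τ x) = 1`, for `AA` it is `2`; contradiction with `u > 0`.
-/

namespace Pool.Agent.Helper91.MVC

open Finset Pool.Agent.Helper60.MV

variable {H : Type} {σ : Equiv.Perm H}

theorem sum_edge_pair [Fintype H] (R : Conf σ) (x : H) (μ : H → ℤ)
    (htau : ∀ h, h ≠ x → h ≠ R.τ x → μ (R.τ h) = - μ h) (w : R.Edge → ℝ) :
    ∑ h, (μ h : ℝ) * w (R.edge h) = ((μ x : ℝ) + (μ (R.τ x) : ℝ)) * w (R.edge x) := by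
  classical
  have h1 : ∑ h, (μ (R.τ h) : ℝ) * w (R.edge h) = ∑ h, (μ h : ℝ) * w (R.edge h) := by
    rw [← Equiv.sum_comp R.τ (fun h => (μ h : ℝ) * w (R.edge h))]
    refine Finset.sum_congr rfl fun h _ => ?_
    rw [edge_tau]
  have h2 : ∑ h, ((μ h : ℝ) + (μ (R.τ h) : ℝ)) * w (R.edge h) =
      ∑ h ∈ ({x, R.τ x} : Finset H), ((μ h : ℝ) + (μ (R.τ h) : ℝ)) * w (R.edge h) := by
    symm
    apply Finset.sum_subset (Finset.subset_univ _)
    intro h _ hh
    simp only [Finset.mem_insert, Finset.mem_singleton, not_or] at hh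
    rw [htau h hh.1 hh.2]
    push_cast
    ring
  have hne : x ≠ R.τ x := fun h => R.hτ.fpf x h.symm
  rw [Finset.sum_pair hne, R.hτ.invol, edge_tau] at h2
  have h3 : ∑ h, ((μ h : ℝ) + (μ (R.τ h) : ℝ)) * w (R.edge h) =
      ∑ h, (μ h : ℝ) * w (R.edge h) + ∑ h, (μ (R.τ h) : ℝ) * w (R.edge h) := by
    rw [← Finset.sum_add_distrib]
    exact Finset.sum_congr rfl fun h _ => by ring
  rw [h1] at h3
  linarith

theorem sum_face_zero [Fintype H] (R : Conf σ) (μ : H → ℤ)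
    (hface : ∀ h h', R.face h = R.face h' → μ h = μ h')
    (hbeta : ∀ h h', R.β (R.face h) = R.face h' → μ h' = - μ h) (w : R.Edge → ℝ)
    (hw : ∀ f, R.per w f = R.per w (R.β f)) : ∑ h, (μ h : ℝ) * w (R.edge h) = 0 := by
  classical
  have hrep : ∀ f : R.Face, R.face f.rep = f := fun f => cyc_rep f
  have h1 : ∑ h, (μ h : ℝ) * w (R.edge h) = ∑ f : R.Face, (μ f.rep : ℝ) * R.per w f := by
    have h2 : ∀ f : R.Face, (μ f.rep : ℝ) * R.per w f =
        ∑ h : H, if R.face h = f then (μ h : ℝ) * w (R.edge h) else 0 := by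
      intro f
      unfold Conf.per
      rw [Finset.mul_sum]
      refine Finset.sum_congr rfl fun h _ => ?_
      by_cases hf : R.face h = f
      · rw [if_pos hf, if_pos hf, hface h f.rep (by rw [hf, hrep])]
      · rw [if_neg hf, if_neg hf, mul_zero]
    rw [Finset.sum_congr rfl fun f _ => h2 f, Finset.sum_comm]
    refine Finset.sum_congr rfl fun h _ => ?_
    rw [Finset.sum_ite_eq Finset.univ (R.face h) (fun _ => (μ h : ℝ) * w (R.edge h)),
      if_pos (Finset.mem_univ _)]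
  have h4 : ∑ f : R.Face, (μ f.rep : ℝ) * R.per w f =
      - ∑ f : R.Face, (μ f.rep : ℝ) * R.per w f := by
    conv_lhs => rw [← Equiv.sum_comp R.β (fun f : R.Face => (μ f.rep : ℝ) * R.per w f)]
    rw [← Finset.sum_neg_distrib]
    refine Finset.sum_congr rfl fun f _ => ?_
    rw [hbeta f.rep (R.β f).rep (by rw [hrep, hrep]), ← hw f]
    push_cast
    ring
  rw [h1]
  linarith

theorem good_contra [Fintype H] (R : Conf σ) (hg : R.Good) (x : H) (μ : H → ℤ)
    (hface : ∀ h h', R.face h = R.face h' → μ h = μ h')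
    (hbeta : ∀ h h', R.β (R.face h) = R.face h' → μ h' = - μ h)
    (htau : ∀ h, h ≠ x → h ≠ R.τ x → μ (R.τ h) = - μ h) : μ x + μ (R.τ x) = 0 := by
  obtain ⟨u, hu, hper⟩ := hg
  have hper' : ∀ f, R.per (fun e => (u e : ℝ)) f = ((R.per u f : ℕ) : ℝ) := by
    intro f
    unfold Conf.per
    push_cast
    rfl
  have h1 := sum_edge_pair R x μ htau (fun e => (u e : ℝ))
  rw [sum_face_zero R μ hface hbeta (fun e => (u e : ℝ))
    (fun f => by rw [hper', hper', hper f])] at h1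
  have h2 : (0:ℝ) < (u (R.edge x) : ℝ) := by exact_mod_cast hu _
  rcases mul_eq_zero.1 h1.symm with h3 | h3
  · exact_mod_cast h3
  · exact absurd h3 h2.ne'

theorem good_no_leaf [Fintype H] (R : Conf σ) (hg : R.Good) (x : H) (μ : H → ℤ) :
    ¬ R.IsLeaf x μ := by
  intro h
  have h1 := good_contra R hg x μ h.face h.beta h.tau
  rw [h.zero, h.one] at h1
  omega

theorem good_not_AA [Fintype H] (R : Conf σ) (hg : R.Good) : ¬ R.AA := by
  rintro ⟨x, μ, h⟩
  have h1 := good_contra R hg x μ h.face h.beta h.tau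
  rw [h.one, h.one'] at h1
  omega

end Pool.Agent.Helper91.MVC
end

/- Helper91.MVC.SplitP -/
section
/-!
MV-C1-11. Perimeters of a cut.

`jT` and `j₁` are injective with complementary ranges (`EmbT.range`, `Emb1.range`), so `∑_{h : H} w h = ∑_{p : HT} w (jT p) + ∑_{q : H₁} w (j₁ q)` (`sum_cut`). `A = {μ ≠ 0}`,
`x ∉ A`. `R.per x f = ∑_h if R.face h = f then x (R.edge h) else 0`.
`cut_perT`: `f = T.face _`. For `q : H₁`: `R.face (j₁ q) ≠ iF (inl f)` (`Maps.f₁`, injectivity of `iF`). For `p ≠ xT`: `R.face (jT p) = gT p = iF (inl (T.face p))`, so the term is the one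
of `T.per`. `p = xT`: `R.face x = R.face (σ (R.τ x)) = R.face (j₁ (σ₁ z₁)) = iF (inr _) ≠ iF (inl f)`, the term is `0`, while `T.per` has the term
`if T.face xT = f then x (R.edge x)`, and `iE (inl (T.edge xT)) = R.edge x`.
`cut_per₁`: for `p ≠ xT` the face of `jT p` is `iF (inl _)`, term `0`; for `p = xT` the face is `iF (inr (R₁.face (σ₁ z₁)))`; for `q` the term of `R₁.per`.
`cut_nu`: `ν f = μ (jT f.rep)` if `f.rep ≠ xT`, else `1`. So `ν (T.face p) = μ (jT p)` for `p ≠ xT` and `ν (T.face xT) = 1 = μ (R.τ x)` (`Maps.fT`, `T.face a = T.face b ↔ gT a = gT b`, `μ`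
constant on faces). Values `±1`: `Cut.val`. `ν (T.β f) = - ν f`: `IsLeaf.beta`. `∑_f ν f * R.per w (iF (inl f))`: exchange sums: `= ∑_h [R.face h = iF (inl f) for some f] ν f * w (R.edge h)
= ∑_h μ h * w (R.edge h)` (if the face of `h` is not of the form `iF (inl f)` then `h ∉ A`, `μ h = 0`; if `R.face h = iF (inl f)` then `ν f = μ h`)
`= (μ x + μ (R.τ x)) w (R.edge x) = w (R.edge x)` by `sum_edge_pair` of `Good.lean`.
`cut_leafT`: `f = T.face p` with `p ≠ xT` (`T.face xT = T.face yT` because `gT xT = R.face (R.τ x) = gT yT`), `iF (inl f) = R.face (jT p)`, `μ (jT p) ≠ 0`.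
-/

namespace Pool.Agent.Helper91.MVC

open Finset Pool.Agent.Helper60.MV

variable {H HT H₁ : Type} {σ : Equiv.Perm H}

theorem sum_cut [Fintype H] [Fintype HT] [Fintype H₁] {x y : H} {A : H → Prop}
    {σT : Equiv.Perm HT} {jT : HT → H} {xT yT : HT} {σ₁ : Equiv.Perm H₁} {j₁ : H₁ → H} {z₁ : H₁}
    (hT : EmbT σ x y A σT jT xT yT) (h₁ : Emb1 σ x y A σ₁ j₁ z₁) (w : H → ℝ) :
    ∑ h, w h = ∑ p, w (jT p) + ∑ q, w (j₁ q) := by
  classical
  have hbij : Function.Bijective (Sum.elim jT j₁) := by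
    constructor
    · rintro (a | a) (b | b) hab
      · exact congrArg Sum.inl (hT.inj hab)
      · exact absurd ((hT.range _).1 ⟨a, hab⟩) ((h₁.range _).1 ⟨b, rfl⟩)
      · exact absurd ((hT.range _).1 ⟨b, hab.symm⟩) ((h₁.range _).1 ⟨a, rfl⟩)
      · exact congrArg Sum.inr (h₁.inj hab)
    · intro h
      by_cases hh : h = x ∨ A h
      · obtain ⟨p, hp⟩ := (hT.range h).2 hh
        exact ⟨Sum.inl p, hp⟩
      · obtain ⟨q, hq⟩ := (h₁.range h).2 hh
        exact ⟨Sum.inr q, hq⟩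
  rw [← hbij.sum_comp w, Fintype.sum_sum_type]
  rfl

variable [Fintype H] [Fintype HT] [Fintype H₁] {R : Conf σ} {x : H} {μ : H → ℤ} {A : H → Prop}
  {σT : Equiv.Perm HT} {jT : HT → H} {xT yT : HT} {σ₁ : Equiv.Perm H₁} {j₁ : H₁ → H} {z₁ : H₁}
  {T : Conf σT} {R₁ : Conf σ₁} {iF : T.Face ⊕ R₁.Face ≃ R.Face} {iE : T.Edge ⊕ R₁.Edge ≃ R.Edge}

omit [Fintype H] [Fintype HT] [Fintype H₁] in
private theorem face_x (hC : Cut R x μ A σT jT xT yT σ₁ j₁ z₁)
    (hM : Maps R T R₁ x jT xT j₁ iF iE) : R.face x = iF (Sum.inr (R₁.face (σ₁ z₁))) := by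
  rw [hM.f₁, hC.e₁.last, face_phi]

omit [Fintype H] [Fintype HT] [Fintype H₁] in
private theorem face_jT (hM : Maps R T R₁ x jT xT j₁ iF iE) (p : HT) (hp : p ≠ xT) :
    R.face (jT p) = iF (Sum.inl (T.face p)) := by
  rw [hM.fT, gT_of_ne _ _ _ _ _ hp]

/-- the half-edge of the face of `p` -/
private noncomputable def kk (R : Conf σ) (x : H) (jT : HT → H) (xT : HT) (p : HT) : H := by
  classical
  exact if p = xT then R.τ x else jT p

omit [Fintype H] [Fintype HT] [Fintype H₁] in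
private theorem face_kk (hM : Maps R T R₁ x jT xT j₁ iF iE) (p : HT) :
    R.face (kk R x jT xT p) = iF (Sum.inl (T.face p)) := by
  classical
  unfold kk
  split_ifs with h
  · rw [hM.fT, h, gT_x]
  · exact face_jT hM p h

omit [Fintype H] [Fintype HT] [Fintype H₁] in
private theorem mu_jT (hC : Cut R x μ A σT jT xT yT σ₁ j₁ z₁) (p : HT) (hp : p ≠ xT) :
    μ (jT p) ≠ 0 := by
  rcases (hC.eT.range _).1 ⟨p, rfl⟩ with h | h
  · exact absurd (hC.eT.inj (h.trans hC.eT.hx.symm)) hp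
  · exact (hC.hA _).1 h

omit [Fintype H] [Fintype HT] [Fintype H₁] in
private theorem mu_kk (hC : Cut R x μ A σT jT xT yT σ₁ j₁ z₁) (p : HT) :
    μ (kk R x jT xT p) ≠ 0 := by
  classical
  unfold kk
  split_ifs with h
  · rw [hC.leaf.one]; exact one_ne_zero
  · exact mu_jT hC p h

theorem cut_perT (hC : Cut R x μ A σT jT xT yT σ₁ j₁ z₁)
    (hM : Maps R T R₁ x jT xT j₁ iF iE) (w : R.Edge → ℝ) (f : T.Face) :
    R.per w (iF (Sum.inl f)) + (if f = T.face xT then w (iE (Sum.inl (T.edge xT))) else 0) =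
      T.per (fun e => w (iE (Sum.inl e))) f := by
  classical
  unfold Conf.per
  rw [sum_cut hC.eT hC.e₁ (fun h => if R.face h = iF (Sum.inl f) then w (R.edge h) else 0)]
  have h2 : ∑ q, (if R.face (j₁ q) = iF (Sum.inl f) then w (R.edge (j₁ q)) else 0) = 0 := by
    refine Finset.sum_eq_zero fun q _ => if_neg ?_
    rw [← hM.f₁]
    intro h
    exact Sum.inr_ne_inl (iF.injective h)
  have h3 : (if f = T.face xT then w (iE (Sum.inl (T.edge xT))) else 0) =
      ∑ p, (if p = xT then (if f = T.face xT then w (iE (Sum.inl (T.edge xT))) else 0) else 0) := by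
    rw [Finset.sum_ite_eq' Finset.univ xT, if_pos (Finset.mem_univ _)]
  rw [h2, add_zero, h3, ← Finset.sum_add_distrib]
  refine Finset.sum_congr rfl fun p _ => ?_
  by_cases hp : p = xT
  · subst hp
    rw [if_pos rfl, hC.eT.hx, face_x hC hM, if_neg (fun h => Sum.inr_ne_inl (iF.injective h)),
      zero_add]
    by_cases hf : f = T.face p
    · rw [if_pos hf, if_pos hf.symm]
    · rw [if_neg hf, if_neg (fun h => hf h.symm)]
  · rw [if_neg hp, add_zero, face_jT hM p hp, ← hM.eT]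
    by_cases hf : T.face p = f
    · rw [if_pos (by rw [hf]), if_pos hf]
    · rw [if_neg (fun h => hf (Sum.inl_injective (iF.injective h))), if_neg hf]

theorem cut_per₁ (hC : Cut R x μ A σT jT xT yT σ₁ j₁ z₁)
    (hM : Maps R T R₁ x jT xT j₁ iF iE) (w : R.Edge → ℝ) (f : R₁.Face) :
    R.per w (iF (Sum.inr f)) = R₁.per (fun e => w (iE (Sum.inr e))) f +
      (if f = R₁.face (σ₁ z₁) then w (iE (Sum.inl (T.edge xT))) else 0) := by
  classical
  unfold Conf.per
  rw [sum_cut hC.eT hC.e₁ (fun h => if R.face h = iF (Sum.inr f) then w (R.edge h) else 0),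
    add_comm]
  congr 1
  · refine Finset.sum_congr rfl fun q _ => ?_
    rw [← hM.f₁, ← hM.e₁]
    by_cases hf : R₁.face q = f
    · rw [if_pos (by rw [hf]), if_pos hf]
    · rw [if_neg (fun h => hf (Sum.inr_injective (iF.injective h))), if_neg hf]
  · rw [Finset.sum_eq_single_of_mem xT (Finset.mem_univ _)]
    · rw [hM.eT, hC.eT.hx, face_x hC hM]
      by_cases hf : f = R₁.face (σ₁ z₁)
      · rw [if_pos (by rw [hf]), if_pos hf]
      · rw [if_neg (fun h => hf (Sum.inr_injective (iF.injective h)).symm), if_neg hf]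
    · intro p _ hp
      rw [face_jT hM p hp]
      exact if_neg (fun h => Sum.inl_ne_inr (iF.injective h))

theorem cut_nu (hC : Cut R x μ A σT jT xT yT σ₁ j₁ z₁)
    (hM : Maps R T R₁ x jT xT j₁ iF iE) :
    ∃ ν : T.Face → ℤ, (∀ f, ν f = 1 ∨ ν f = -1) ∧ (∀ f, ν (T.β f) = - ν f) ∧
      ∀ w : R.Edge → ℝ, ∑ f : T.Face, (ν f : ℝ) * R.per w (iF (Sum.inl f)) =
        w (iE (Sum.inl (T.edge xT))) := by
  classical
  have hν : ∀ (p : HT) (h : H), R.face h = iF (Sum.inl (T.face p)) →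
      μ h = μ (kk R x jT xT p) := fun p h hh =>
    hC.leaf.face _ _ (hh.trans (face_kk hM p).symm)
  have hval : ∀ p, μ (kk R x jT xT (T.face p).rep) = μ (kk R x jT xT p) := fun p =>
    hν p _ (by rw [face_kk hM]; congr 2; exact cyc_rep _)
  refine ⟨fun f => μ (kk R x jT xT f.rep), fun f => hC.val _ (mu_kk hC _), fun f => ?_,
    fun w => ?_⟩
  · obtain ⟨p, rfl⟩ := face_surj T f
    obtain ⟨p', hp'⟩ := face_surj T (T.β (T.face p))
    rw [← hp']
    show μ (kk R x jT xT (T.face p').rep) = - μ (kk R x jT xT (T.face p).rep)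
    rw [hval, hval]
    refine hC.leaf.beta _ _ ?_
    rw [face_kk hM, face_kk hM, hM.beta, hp']
    rfl
  · have e1 : ∑ f : T.Face, (μ (kk R x jT xT f.rep) : ℝ) * R.per w (iF (Sum.inl f)) =
        ∑ h : H, ∑ f : T.Face, (if R.face h = iF (Sum.inl f) then
          (μ (kk R x jT xT f.rep) : ℝ) * w (R.edge h) else 0) := by
      rw [Finset.sum_comm]
      refine Finset.sum_congr rfl fun f _ => ?_
      unfold Conf.per
      rw [Finset.mul_sum]
      refine Finset.sum_congr rfl fun h _ => ?_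
      rw [mul_ite, mul_zero]
    have e2 : ∀ h : H, ∑ f : T.Face, (if R.face h = iF (Sum.inl f) then
          (μ (kk R x jT xT f.rep) : ℝ) * w (R.edge h) else 0) = (μ h : ℝ) * w (R.edge h) := by
      intro h
      obtain ⟨g, hg⟩ := iF.surjective (R.face h)
      rcases g with f0 | f1
      · obtain ⟨p, rfl⟩ := face_surj T f0
        rw [Finset.sum_eq_single_of_mem (T.face p) (Finset.mem_univ _), if_pos hg.symm, hval,
          hν p h hg.symm]
        intro f _ hf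
        rw [if_neg]
        intro hh
        rw [← hg] at hh
        exact hf (Sum.inl_injective (iF.injective hh)).symm
      · have hμ : μ h = 0 := by
          by_contra hne
          obtain ⟨p, hp⟩ := (hC.eT.range h).2 (Or.inr ((hC.hA h).2 hne))
          have hpx : p ≠ xT := by
            rintro rfl
            rw [hC.eT.hx] at hp
            rw [← hp] at hne
            exact hne hC.leaf.zero
          have h1 := face_jT hM p hpx
          rw [hp, ← hg] at h1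
          exact Sum.inr_ne_inl (iF.injective h1)
        rw [hμ, Int.cast_zero, zero_mul]
        refine Finset.sum_eq_zero fun f _ => if_neg ?_
        rw [← hg]
        exact fun hh => Sum.inr_ne_inl (iF.injective hh)
    rw [e1, Finset.sum_congr rfl fun h _ => e2 h, sum_edge_pair R x μ hC.leaf.tau w, hM.eT,
      hC.eT.hx, hC.leaf.zero, hC.leaf.one]
    push_cast
    ring

theorem cut_leafT (hC : Cut R x μ A σT jT xT yT σ₁ j₁ z₁)
    (hM : Maps R T R₁ x jT xT j₁ iF iE) (f : T.Face) : R.LeafFace (iF (Sum.inl f)) := by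
  obtain ⟨p, rfl⟩ := face_surj T f
  exact ⟨x, μ, hC.leaf, kk R x jT xT p, face_kk hM p, mu_kk hC p⟩

end Pool.Agent.Helper91.MVC
end

/- Helper91.MVC.Lift -/
section
/-!
MV-C1-12. Leaves of the rest lift to leaves of `R`.

`A = {μ ≠ 0}`, `y = R.τ x`, `μ y = 1`. Let `(x', μ')` be a leaf of `R₁`, `m₀ = μ' (σ₁ z₁)`; `R.face (j₁ (σ₁ z₁)) = R.face (σ y) = R.face x` (`Emb1.last`, `face_phi`). Define `μ̃ : H → ℤ`:
`μ̃ (j₁ p) = μ' p`, `μ̃ x = m₀`, `μ̃ h = - m₀ * μ h` for `h ∈ A`. Then `μ̃` is a leaf of `R` at `j₁ x'`: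
 `face`: two half-edges in the same face are both in `A` (then `μ` is constant) or both outside; outside `A` replace `x` by `j₁ (σ₁ z₁)`, `μ' a = μ' b` if
 `R.face (j₁ a) = R.face (j₁ b)` (`Pull.face`). `beta`: `R.β (R.face h) = R.face h'`: `μ h' = - μ h`, so `h ∈ A ↔ h' ∈ A`; in `A`: clear; outside: replace `x` by `j₁ (σ₁ z₁)` and use
 `Pull.beta`. `tau`, for `h ≠ j₁ x', R.τ (j₁ x') = j₁ (R₁.τ x')`: `h = j₁ p`: `R.τ h = j₁ (R₁.τ p)`. `h = x`: `R.τ x = y`, `μ̃ y = - m₀`. `h = y`: `R.τ y = x`, `μ̃ x = m₀`, `μ̃ y = - m₀`. `h ∈ A`,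
 `h ≠ y`: `R.τ h ∈ A`, `μ (R.τ h) = - μ h`. `zero`, `one`: from `μ'`.
If `m₀ ≠ 0` the support of `μ̃` contains `A ∪ {x}`, so its cardinality is larger than that of `A`: contradiction to `hmax`. So `m₀ = 0`. If `f` is a leaf face of
`R₁`, `f = R₁.face h`, `μ' h ≠ 0`: `iF (inr f) = R.face (j₁ h)`, `μ̃ (j₁ h) ≠ 0`; and `f = R₁.face (σ₁ z₁)` would give `μ' h = m₀ = 0` (`IsLeaf.face`).
-/

namespace Pool.Agent.Helper91.MVC

open Finset Pool.Agent.Helper60.MV

variable {H HT H₁ : Type} {σ : Equiv.Perm H}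

theorem cut_leaf₁ [Finite H] {R : Conf σ} {x : H} {μ : H → ℤ} {A : H → Prop}
    {σT : Equiv.Perm HT} {jT : HT → H} {xT yT : HT} {σ₁ : Equiv.Perm H₁} {j₁ : H₁ → H} {z₁ : H₁}
    {T : Conf σT} {R₁ : Conf σ₁} {iF : T.Face ⊕ R₁.Face ≃ R.Face} {iE : T.Edge ⊕ R₁.Edge ≃ R.Edge}
    (hC : Cut R x μ A σT jT xT yT σ₁ j₁ z₁) (hM : Maps R T R₁ x jT xT j₁ iF iE)
    (h₁ : Pull R₁ R j₁ (fun p => R.face (j₁ p)))
    (hmax : ∀ (x' : H) (μ' : H → ℤ), R.IsLeaf x' μ' →
      Nat.card {h // μ' h ≠ 0} ≤ Nat.card {h // μ h ≠ 0})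
    (f : R₁.Face) (hf : R₁.LeafFace f) :
    R.LeafFace (iF (Sum.inr f)) ∧ f ≠ R₁.face (σ₁ z₁) := by
  classical
  obtain ⟨x', μ', hl', h0, hf0, hne⟩ := hf
  have hl := hC.leaf
  have hE := hC.e₁
  have hAx : ¬ A x := fun h => (hC.hA x).1 h hl.zero
  have hAy : A (R.τ x) := (hC.hA _).2 (by rw [hl.one]; exact one_ne_zero)
  obtain ⟨m₀, hm₀⟩ : ∃ m : ℤ, m = μ' (σ₁ z₁) := ⟨_, rfl⟩
  obtain ⟨ν, hν⟩ : ∃ ν : H → ℤ, ν = fun h => if hp : ∃ p, j₁ p = h then μ' hp.choose
      else if h = x then m₀ else - m₀ * μ h := ⟨_, rfl⟩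
  have F1 : ∀ p, ν (j₁ p) = μ' p := by
    intro p
    have hx : ∃ q, j₁ q = j₁ p := ⟨p, rfl⟩
    have h1 : hx.choose = p := hE.inj hx.choose_spec
    rw [hν]
    change (if hp : ∃ q, j₁ q = j₁ p then μ' hp.choose
      else if j₁ p = x then m₀ else - m₀ * μ (j₁ p)) = μ' p
    rw [dif_pos hx, h1]
  have hxn : ¬ ∃ p, j₁ p = x := by
    rw [hE.range]
    intro h
    exact h (Or.inl rfl)
  have F2 : ν x = m₀ := by
    rw [hν]
    change (if hp : ∃ q, j₁ q = x then μ' hp.choose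
      else if x = x then m₀ else - m₀ * μ x) = m₀
    rw [dif_neg hxn, if_pos rfl]
  have F3 : ∀ h, A h → ν h = - m₀ * μ h := by
    intro h hh
    have h1 : ¬ ∃ p, j₁ p = h := by
      rw [hE.range]
      intro h2
      exact h2 (Or.inr hh)
    have h2 : h ≠ x := by
      rintro rfl
      exact hAx hh
    rw [hν]
    change (if hp : ∃ q, j₁ q = h then μ' hp.choose
      else if h = x then m₀ else - m₀ * μ h) = _
    rw [dif_neg h1, if_neg h2]
  have hfy : R.face (j₁ (σ₁ z₁)) = R.face x := by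
    rw [hE.last]
    exact face_phi R x
  have hout : ∀ h, ¬ A h → ∃ p, R.face (j₁ p) = R.face h ∧ ν h = μ' p := by
    intro h hh
    by_cases hx : h = x
    · refine ⟨σ₁ z₁, ?_, ?_⟩
      · rw [hx, hfy]
      · rw [hx, F2, hm₀]
    · have h1 : ∃ p, j₁ p = h := by
        rw [hE.range]
        rintro (h2 | h2)
        · exact hx h2
        · exact hh h2
      obtain ⟨p, rfl⟩ := h1
      exact ⟨p, rfl, F1 p⟩
  have hAiff : ∀ h h', (μ h = μ h' ∨ μ h' = - μ h) → (A h ↔ A h') := by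
    intro h h' hh
    rw [hC.hA, hC.hA]
    rcases hh with hh | hh
    · rw [hh]
    · rw [hh, neg_ne_zero]
  have hleaf : R.IsLeaf (j₁ x') ν := by
    refine ⟨?_, ?_, ?_, ?_, ?_⟩
    · intro h h' hh
      have h1 : μ h = μ h' := hl.face h h' hh
      by_cases ha : A h
      · have ha' : A h' := (hAiff h h' (Or.inl h1)).1 ha
        rw [F3 h ha, F3 h' ha', h1]
      · have ha' : ¬ A h' := fun h2 => ha ((hAiff h h' (Or.inl h1)).2 h2)
        obtain ⟨p, hp1, hp2⟩ := hout h ha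
        obtain ⟨q, hq1, hq2⟩ := hout h' ha'
        rw [hp2, hq2]
        exact hl'.face p q ((h₁.face p q).2 (by
          change R.face (j₁ p) = R.face (j₁ q)
          rw [hp1, hq1, hh]))
    · intro h h' hh
      have h1 : μ h' = - μ h := hl.beta h h' hh
      by_cases ha : A h
      · have ha' : A h' := (hAiff h h' (Or.inr h1)).1 ha
        rw [F3 h ha, F3 h' ha', h1]
        ring
      · have ha' : ¬ A h' := fun h2 => ha ((hAiff h h' (Or.inr h1)).2 h2)
        obtain ⟨p, hp1, hp2⟩ := hout h ha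
        obtain ⟨q, hq1, hq2⟩ := hout h' ha'
        rw [hp2, hq2]
        exact hl'.beta p q ((h₁.beta p q).2 (by
          change R.β (R.face (j₁ p)) = R.face (j₁ q)
          rw [hp1, hq1, hh]))
    · intro h hh1 hh2
      by_cases hx : h = x
      · rw [hx, F2, F3 _ hAy, hl.one, mul_one]
      · by_cases ha : A h
        · by_cases hy : h = R.τ x
          · rw [F3 h ha, hy, R.hτ.invol, F2, hl.one]
            ring
          · have h3 : μ (R.τ h) = - μ h := hl.tau h hx hy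
            have ha' : A (R.τ h) := (hAiff h (R.τ h) (Or.inr h3)).1 ha
            rw [F3 h ha, F3 _ ha', h3]
            ring
        · have h1 : ∃ p, j₁ p = h := by
            rw [hE.range]
            rintro (h2 | h2)
            · exact hx h2
            · exact ha h2
          obtain ⟨p, rfl⟩ := h1
          rw [← h₁.tau, F1, F1]
          refine hl'.tau p ?_ ?_
          · rintro rfl
            exact hh1 rfl
          · rintro rfl
            exact hh2 (h₁.tau x')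
    · rw [F1]
      exact hl'.zero
    · rw [← h₁.tau, F1]
      exact hl'.one
  have hm0 : m₀ = 0 := by
    by_contra hm
    have hss : {h : H | μ h ≠ 0} ⊂ {h : H | ν h ≠ 0} := by
      refine ⟨?_, ?_⟩
      · intro h hh
        have ha : A h := (hC.hA h).2 hh
        change ν h ≠ 0
        rw [F3 h ha]
        exact mul_ne_zero (neg_ne_zero.2 hm) hh
      · intro hsub
        have h1 : x ∈ {h : H | ν h ≠ 0} := by
          change ν x ≠ 0
          rw [F2]
          exact hm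
        exact hsub h1 hl.zero
    have h2 := Set.ncard_lt_ncard hss (Set.toFinite _)
    rw [← Nat.card_coe_set_eq, ← Nat.card_coe_set_eq] at h2
    exact absurd (hmax (j₁ x') ν hleaf) (not_le.2 h2)
  refine ⟨⟨j₁ x', ν, hleaf, j₁ h0, ?_, ?_⟩, ?_⟩
  · rw [← hf0, hM.f₁]
  · rw [F1]
    exact hne
  · intro hff
    apply hne
    rw [hl'.face h0 (σ₁ z₁) (hf0.trans hff), ← hm₀, hm0]

end Pool.Agent.Helper91.MVC
end

/- Helper91.MVC.Cut1 -/
section
/-!
MV-C1-8. The rest (complement of the leaf and its leg) is a configuration, and it is connected if `R` is.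

Write `y = R.τ x`, `A = {μ ≠ 0}`, `G` = complement of `A ∪ {x}` = range of `j₁`. `x ∉ A`, `y ∈ A`; `R.τ` preserves `A ∪ {x}` (`x ↔ y`; `h ∈ A`, `h ≠ y` gives
`R.τ h ∈ A`), hence `G`. `μ (σ h) = μ (R.τ h)`.
`cut1`: `pull_exists` with `g p = R.face (j₁ p)`. `hβ`: take `h'` with `R.β (g a) = R.face h'`; `μ h' = - μ (j₁ a) = 0`; if `h' = x` replace it by `σ y`
(`R.face (σ y) = R.face x` by `face_phi`; `σ y = j₁ (σ₁ z₁)`); so `h' ∈ G`.
`hφ`: `φ' = σ₁ * τ'`. (→) `g (φ' p) = g p`: if `τ' p ≠ z₁` then `j₁ (φ' p) = σ (R.τ (j₁ p))`, `face_phi`. If `τ' p = z₁`: `j₁ (φ' p) = σ y`, `R.face (σ y) = R.face x`, and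
`x = σ (j₁ z₁) = σ (R.τ (j₁ p))` is in the face of `j₁ p`.
(←) `F : H → Option (Cyc φ')`: `F (j₁ p) = some (cyc φ' p)`, `F x = some (cyc φ' (σ₁ z₁))`, `F h = none` for `h ∈ A`. `F (φ h) = F h`, `φ = σ * R.τ`: for `h ∈ A`:
`μ (φ h) = μ h ≠ 0` (same face). `h = x`: `φ x = σ y = j₁ (σ₁ z₁)`. `h = j₁ p`: `φ h = σ (j₁ (τ' p))`, which is `j₁ (φ' p)` if `τ' p ≠ z₁`, and `x` if `τ' p = z₁`, where
`F x = cyc φ' (σ₁ z₁) = cyc φ' (φ' p)`. Conclude with `inv_sameCycle` and `face_eq_iff`.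
`conn1`: let `c : H → Quot` be the class in `R₁` (quotient of `H₁` by `EqvGen` of the relation of `R₁`): `c (j₁ p) = [p]`, `c h = [σ₁ z₁]` for `h ∈ A ∪ {x}`. If `a, b` are related
in `R` (`b = σ a`, `b = R.τ a` or `R.face b = R.β (R.face a)`) then `c a = c b`. `b = σ a`: `a = j₁ p`, `p ≠ z₁`: `b = j₁ (σ₁ p)`; `p = z₁`: `b = x`; `a ∈ A ∪ {x}`: `b ∈ A ∪ {x}` or
(`a = y`) `b = σ y = j₁ (σ₁ z₁)`. `b = R.τ a`: clear. Face relation: `a ∈ A` iff `b ∈ A` (`μ b = - μ a`); if both are in `A` clear; otherwise replace `x` by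
`σ y = j₁ (σ₁ z₁)` (same face) and use `Pull.beta`. Since `R` is connected, all of `H₁` is one class.
-/

namespace Pool.Agent.Helper91.MVC

open Finset Pool.Agent.Helper60.MV

variable {H H₁ : Type} {σ : Equiv.Perm H}

theorem cut1_tau (R : Conf σ) {x : H} {μ : H → ℤ} (hl : R.IsLeaf x μ) {A : H → Prop}
    (hA : ∀ h, A h ↔ μ h ≠ 0) {σ₁ : Equiv.Perm H₁} {j₁ : H₁ → H} {z₁ : H₁}
    (hE : Emb1 σ x (R.τ x) A σ₁ j₁ z₁) (p : H₁) : ∃ q, j₁ q = R.τ (j₁ p) := by
  rw [hE.range]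
  have h1 : ¬ (j₁ p = x ∨ A (j₁ p)) := (hE.range (j₁ p)).1 ⟨p, rfl⟩
  have h2 : j₁ p ≠ x := fun h => h1 (Or.inl h)
  have h3 : μ (j₁ p) = 0 := by
    by_contra h
    exact h1 (Or.inr ((hA _).2 h))
  have h4 : j₁ p ≠ R.τ x := by
    intro h
    rw [h, hl.one] at h3
    exact one_ne_zero h3
  rintro (h | h)
  · apply h4
    rw [← h, R.hτ.invol]
  · apply (hA _).1 h
    rw [hl.tau _ h2 h4, h3, neg_zero]

theorem cut1_zero (R : Conf σ) {x : H} {μ : H → ℤ} {A : H → Prop}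
    (hA : ∀ h, A h ↔ μ h ≠ 0) {σ₁ : Equiv.Perm H₁} {j₁ : H₁ → H} {z₁ : H₁}
    (hE : Emb1 σ x (R.τ x) A σ₁ j₁ z₁) (p : H₁) : μ (j₁ p) = 0 := by
  have h1 : ¬ (j₁ p = x ∨ A (j₁ p)) := (hE.range (j₁ p)).1 ⟨p, rfl⟩
  by_contra h
  exact h1 (Or.inr ((hA _).2 h))

theorem cut1 (R : Conf σ) {x : H} {μ : H → ℤ} (hl : R.IsLeaf x μ) {A : H → Prop}
    (hA : ∀ h, A h ↔ μ h ≠ 0) {σ₁ : Equiv.Perm H₁} {j₁ : H₁ → H} {z₁ : H₁}
    (hE : Emb1 σ x (R.τ x) A σ₁ j₁ z₁) : ∃ R₁ : Conf σ₁, Pull R₁ R j₁ (fun p => R.face (j₁ p)) := by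
  classical
  have hfy : R.face (j₁ (σ₁ z₁)) = R.face x := by
    rw [hE.last]
    exact face_phi R x
  refine pull_exists R σ₁ j₁ hE.inj (cut1_tau R hl hA hE) _ ?_ ?_
  · intro τ' hτ' a b
    constructor
    · intro hab
      refine inv_sameCycle (F := fun p => R.face (j₁ p)) ?_ hab
      intro p
      change R.face (j₁ (σ₁ (τ' p))) = R.face (j₁ p)
      by_cases hp : τ' p = z₁
      · rw [hp, hfy, ← hE.hz, ← hp, hτ', face_phi]
      · rw [hE.other _ hp, hτ', face_phi]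
    · intro hab
      have hab' := (face_eq_iff R).1 hab
      let F : H → Option (Cyc (σ₁ * τ')) := fun h =>
        if hx : ∃ p, j₁ p = h then some (cyc (σ₁ * τ') hx.choose)
        else if h = x then some (cyc (σ₁ * τ') (σ₁ z₁)) else none
      have hF1 : ∀ p, F (j₁ p) = some (cyc (σ₁ * τ') p) := by
        intro p
        have hx : ∃ q, j₁ q = j₁ p := ⟨p, rfl⟩
        have h1 : hx.choose = p := hE.inj hx.choose_spec
        change (if hx : ∃ q, j₁ q = j₁ p then some (cyc (σ₁ * τ') hx.choose)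
          else if j₁ p = x then some (cyc (σ₁ * τ') (σ₁ z₁)) else none) = _
        rw [dif_pos hx, h1]
      have hxn : ¬ ∃ p, j₁ p = x := by
        rw [hE.range]
        intro h
        exact h (Or.inl rfl)
      have hF2 : F x = some (cyc (σ₁ * τ') (σ₁ z₁)) := by
        change (if hx : ∃ q, j₁ q = x then some (cyc (σ₁ * τ') hx.choose)
          else if x = x then some (cyc (σ₁ * τ') (σ₁ z₁)) else none) = _
        rw [dif_neg hxn, if_pos rfl]
      have hF3 : ∀ h, A h → F h = none := by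
        intro h hh
        have h1 : ¬ ∃ p, j₁ p = h := by
          rw [hE.range]
          intro h2
          exact h2 (Or.inr hh)
        have h2 : h ≠ x := by
          rintro rfl
          exact (hA _).1 hh hl.zero
        change (if hx : ∃ q, j₁ q = h then some (cyc (σ₁ * τ') hx.choose)
          else if h = x then some (cyc (σ₁ * τ') (σ₁ z₁)) else none) = _
        rw [dif_neg h1, if_neg h2]
      have hFinv : ∀ h, F ((σ * R.τ) h) = F h := by
        intro h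
        by_cases hr : ∃ p, j₁ p = h
        · obtain ⟨p, rfl⟩ := hr
          rw [hF1, Equiv.Perm.mul_apply, ← hτ']
          have h1 : cyc (σ₁ * τ') (σ₁ (τ' p)) = cyc (σ₁ * τ') p := cyc_apply (g := σ₁ * τ') p
          by_cases hp : τ' p = z₁
          · rw [hp, hE.hz, hF2, ← hp, h1]
          · rw [← hE.other _ hp, hF1, h1]
        · have h1 : h = x ∨ A h := by
            by_contra h2
            exact hr ((hE.range h).2 h2)
          rcases h1 with h1 | h1
          · rw [h1, hF2, Equiv.Perm.mul_apply, ← hE.last, hF1]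
          · have h2 : A ((σ * R.τ) h) := by
              rw [hA]
              have h3 : μ ((σ * R.τ) h) = μ h := hl.face _ h (face_phi R h)
              rw [h3]
              exact (hA _).1 h1
            rw [hF3 _ h2, hF3 _ h1]
      have h5 := inv_sameCycle hFinv hab'
      rw [hF1, hF1] at h5
      exact cyc_eq_iff.1 (Option.some.inj h5)
  · intro a
    obtain ⟨h', hh'⟩ := face_surj R (R.β (R.face (j₁ a)))
    have h1 : μ h' = 0 := by
      rw [hl.beta _ _ hh'.symm, cut1_zero R hA hE, neg_zero]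
    by_cases hx : h' = x
    · refine ⟨σ₁ z₁, ?_⟩
      change R.β (R.face (j₁ a)) = R.face (j₁ (σ₁ z₁))
      rw [hfy, ← hh', hx]
    · have h2 : ∃ p, j₁ p = h' := by
        rw [hE.range]
        rintro (h | h)
        · exact hx h
        · exact (hA _).1 h h1
      obtain ⟨b, hb⟩ := h2
      refine ⟨b, ?_⟩
      change R.β (R.face (j₁ a)) = R.face (j₁ b)
      rw [hb, hh']

theorem conn1 (R : Conf σ) {x : H} {μ : H → ℤ} (hl : R.IsLeaf x μ) {A : H → Prop}
    (hA : ∀ h, A h ↔ μ h ≠ 0) {σ₁ : Equiv.Perm H₁} {j₁ : H₁ → H} {z₁ : H₁}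
    (hE : Emb1 σ x (R.τ x) A σ₁ j₁ z₁) (R₁ : Conf σ₁)
    (h₁ : Pull R₁ R j₁ (fun p => R.face (j₁ p))) (hR : R.Conn) : R₁.Conn := by
  classical
  let r₁ : H₁ → H₁ → Prop := fun a b => b = σ₁ a ∨ b = R₁.τ a ∨ R₁.face b = R₁.β (R₁.face a)
  have hfy : R.face (j₁ (σ₁ z₁)) = R.face x := by
    rw [hE.last]
    exact face_phi R x
  let c : H → Quot r₁ := fun h =>
    if hx : ∃ p, j₁ p = h then Quot.mk r₁ hx.choose else Quot.mk r₁ (σ₁ z₁)
  have hc1 : ∀ p, c (j₁ p) = Quot.mk r₁ p := by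
    intro p
    have hx : ∃ q, j₁ q = j₁ p := ⟨p, rfl⟩
    have h1 : hx.choose = p := hE.inj hx.choose_spec
    change (if hx : ∃ q, j₁ q = j₁ p then Quot.mk r₁ hx.choose else Quot.mk r₁ (σ₁ z₁)) = _
    rw [dif_pos hx, h1]
  have hc2 : ∀ h, (¬ ∃ p, j₁ p = h) → c h = Quot.mk r₁ (σ₁ z₁) := by
    intro h hh
    change (if hx : ∃ q, j₁ q = h then Quot.mk r₁ hx.choose else Quot.mk r₁ (σ₁ z₁)) = _
    rw [dif_neg hh]
  have hout : ∀ h, (¬ ∃ p, j₁ p = h) → h = x ∨ A h := by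
    intro h hh
    by_contra h2
    exact hh ((hE.range h).2 h2)
  have hzero : ∀ h, μ h = 0 → ∃ p, R.face (j₁ p) = R.face h ∧ c h = Quot.mk r₁ p := by
    intro h hh
    by_cases hr : ∃ p, j₁ p = h
    · obtain ⟨p, rfl⟩ := hr
      exact ⟨p, rfl, hc1 p⟩
    · rcases hout h hr with h3 | h3
      · rw [h3] at hr ⊢
        exact ⟨σ₁ z₁, hfy, hc2 _ hr⟩
      · exact absurd hh ((hA _).1 h3)
  have hstep : ∀ a b, (b = σ a ∨ b = R.τ a ∨ R.face b = R.β (R.face a)) → c a = c b := by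
    rintro a b (hab | hab | hab)
    · by_cases hr : ∃ p, j₁ p = a
      · obtain ⟨p, rfl⟩ := hr
        by_cases hp : p = z₁
        · have h2 : b = x := by rw [hab, hp, hE.hz]
          have h3 : ¬ ∃ q, j₁ q = b := by
            rw [h2, hE.range]
            intro h
            exact h (Or.inl rfl)
          rw [hc1, hc2 b h3, hp]
          exact Quot.sound (Or.inl rfl)
        · have h2 : b = j₁ (σ₁ p) := by rw [hab, hE.other _ hp]
          rw [h2, hc1, hc1]
          exact Quot.sound (Or.inl rfl)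
      · rw [hc2 a hr]
        by_cases hb : ∃ q, j₁ q = b
        · obtain ⟨q, rfl⟩ := hb
          have h3 : μ (j₁ q) = 0 := cut1_zero R hA hE q
          have h4 : μ (R.τ a) = 0 := by
            rw [hl.face _ _ (face_tau_eq R a), ← hab, h3]
          have h5 : a = R.τ x := by
            by_contra h6
            rcases hout a hr with h7 | h7
            · rw [h7, hl.one] at h4
              exact one_ne_zero h4
            · have h8 : a ≠ x := by
                rintro rfl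
                exact (hA _).1 h7 hl.zero
              rw [hl.tau a h8 h6, neg_eq_zero] at h4
              exact (hA _).1 h7 h4
          have h6 : j₁ q = j₁ (σ₁ z₁) := by rw [hab, h5, hE.last]
          rw [h6, hc1]
        · rw [hc2 b hb]
    · by_cases hr : ∃ p, j₁ p = a
      · obtain ⟨p, rfl⟩ := hr
        have h2 : b = j₁ (R₁.τ p) := by rw [hab, h₁.tau]
        rw [h2, hc1, hc1]
        exact Quot.sound (Or.inr (Or.inl rfl))
      · have h2 : ¬ ∃ q, j₁ q = b := by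
          rintro ⟨q, hq⟩
          apply hr
          refine ⟨R₁.τ q, ?_⟩
          rw [h₁.tau, hq, hab, R.hτ.invol]
        rw [hc2 a hr, hc2 b h2]
    · have h2 : μ b = - μ a := hl.beta a b hab.symm
      by_cases h3 : μ a = 0
      · have h4 : μ b = 0 := by rw [h2, h3, neg_zero]
        obtain ⟨p, hp1, hp2⟩ := hzero a h3
        obtain ⟨q, hq1, hq2⟩ := hzero b h4
        rw [hp2, hq2]
        refine Quot.sound (Or.inr (Or.inr ?_))
        symm
        rw [h₁.beta]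
        change R.β (R.face (j₁ p)) = R.face (j₁ q)
        rw [hp1, hq1, hab]
      · have h4 : μ b ≠ 0 := by
          rw [h2]
          exact neg_ne_zero.2 h3
        have h5 : ¬ ∃ q, j₁ q = a := by
          rintro ⟨q, hq⟩
          exact h3 (by rw [← hq]; exact cut1_zero R hA hE q)
        have h6 : ¬ ∃ q, j₁ q = b := by
          rintro ⟨q, hq⟩
          exact h4 (by rw [← hq]; exact cut1_zero R hA hE q)
        rw [hc2 a h5, hc2 b h6]
  intro p q
  have h1 : ∀ a b, Relation.EqvGen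
      (fun a b => b = σ a ∨ b = R.τ a ∨ R.face b = R.β (R.face a)) a b → c a = c b := by
    intro a b hab
    induction hab with
    | rel a b h => exact hstep a b h
    | refl a => rfl
    | symm a b _ ih => exact ih.symm
    | trans a b d _ _ ih1 ih2 => exact ih1.trans ih2
  have h2 := h1 _ _ (hR (j₁ p) (j₁ q))
  rw [hc1, hc1] at h2
  exact Quot.eqvGen_exact h2

end Pool.Agent.Helper91.MVC
end
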