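import Mathlib
import Pool.Agent.Helper16.LGG.G01
import Pool.Agent.Helper16.LGG.G04

/- Helper29.MVN.Hyp -/
section
/-!
Project MV, block N: the statements of the other blocks which are used (word for word as in
`Pool.Agent.Helper60.MV.Iface`).
-/

namespace Pool.Agent.Helper29.MVN

open Finset MeasureTheory Filter Topology Pool.Agent.Helper60.MV

structure Hyp : Prop where
  blockU : ∀ (M : ℕ), ∃ C : ℝ, 0 < C ∧ ∀ (k : ℕ) {ρ : Type} [Fintype ρ] (K : ρ → ℕ)
    (_ : ∀ i, Odd (K i)) (E : ℕ) (_ : ∑ i, K i = 2 * E) (_ : 1 ≤ E) (_ : ones K ≤ M + k),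
    |Ypoly K - mainE E| ≤ C * (C * (E : ℝ) ^ (1 / 3 : ℝ)) ^ k * (E : ℝ) ^ (-(1 / 2) : ℝ) * bE E
  mainE_even : Tendsto (fun E : ℕ => mainE (2 * E) / bE (2 * E)) atTop (𝓝 (1 / Real.pi))
  mainE_odd : ∀ (E : ℕ) (_ : Odd E), mainE E = 0
  C_up : ∀ {ρ : Type} [Fintype ρ] (K : ρ → ℕ) (_ : ∀ i, Odd (K i)) (E : ℕ)
    (_ : ∑ i, K i = 2 * E) (_ : 2 ≤ Fintype.card ρ), Yconn K ≤ Ypoly K
  C_rec : ∀ {ρ : Type} [Fintype ρ] (K : ρ → ℕ) (_ : ∀ i, Odd (K i)) (E : ℕ)
    (_ : ∑ i, K i = 2 * E) (_ : 2 ≤ Fintype.card ρ) (B : ρ → ℕ → ℝ) (_ : ∀ i m, 0 ≤ B i m)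
    (_ : ∀ i m, 1 ≤ m → 2 * m + 2 < K i → UB (red K i m) (B i m)),
    UB K (Ypoly K + AAc K + leafSum K B)
  C_low : ∀ {ρ : Type} [Fintype ρ] (K : ρ → ℕ) (_ : ∀ i, Odd (K i)) (E : ℕ)
    (_ : ∑ i, K i = 2 * E) (_ : 2 ≤ Fintype.card ρ) (B : ρ → ℕ → ℝ) (_ : ∀ i m, 0 ≤ B i m)
    (_ : ∀ i m, 1 ≤ m → 2 * m + 2 < K i → UB (red K i m) (B i m)),
    Ypoly K - disc K - AAc K - leafSum K B ≤ Yconn K
  UB_odd : ∀ {ρ : Type} [Fintype ρ] (K : ρ → ℕ) (_ : ∀ i, Odd (K i)) (E : ℕ)
    (_ : ∑ i, K i = 2 * E) (_ : Odd E), UB K 0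
  AAc_le : ∃ C : ℝ, 0 < C ∧ ∀ {ρ : Type} [Fintype ρ] (K : ρ → ℕ) (_ : ∀ i, Odd (K i))
    (E : ℕ) (_ : ∑ i, K i = 2 * E) (_ : 1 ≤ E), AAc K ≤ C * (19 / 10) ^ E * (E.factorial : ℝ)

end Pool.Agent.Helper29.MVN
end

/- Helper29.MVN.OddSum -/
section
/-!
Project MV, block N: the polynomial volume of a type with odd sum is zero.
-/

namespace Pool.Agent.Helper29.MVN

open Finset Pool.Agent.Helper60.MV

theorem pfL_eq_zero {α R : Type} [CommRing R] (A : α → α → R) (w : α → ℤ)
    (hA : ∀ a b, A a b ≠ 0 → w a + w b = 0) :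
    ∀ (n : ℕ) (L : List α), L.length = n → (L.map w).sum ≠ 0 → pfL A L = 0 := by
  intro n
  induction n using Nat.strong_induction_on with
  | _ n ih =>
    intro L hL hs
    match L with
    | [] => exact absurd rfl hs
    | x :: xs =>
      rw [pfL]
      apply Finset.sum_eq_zero
      intro j _
      by_cases hz : A x (xs.get j) = 0
      · rw [hz]; ring
      · have h1 := hA _ _ hz
        have hj : (j : ℕ) < (xs.map w).length := by
          rw [List.length_map]; exact j.2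
        have h2 : (xs.map w)[(j : ℕ)] + ((xs.map w).eraseIdx j).sum = (xs.map w).sum :=
          List.add_sum_eraseIdx hj (fun _ _ => AddCommute.all _ _)
        rw [List.getElem_map] at h2
        have h3 : (xs.map w).eraseIdx j = (xs.eraseIdx j).map w := by
          rw [List.eraseIdx_map]
        rw [h3] at h2
        have h4 : pfL A (xs.eraseIdx j) = 0 := by
          apply ih (xs.eraseIdx j).length _ _ rfl
          · intro h5
            apply hs
            rw [List.map_cons, List.sum_cons, ← h2, h5, add_zero]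
            exact h1
          · rw [← hL, List.length_cons, List.length_eraseIdx]
            split_ifs <;> omega
        rw [h4, mul_zero]

theorem XK_odd {ρ : Type} [Fintype ρ] (K : ρ → ℕ) (h : Odd (∑ i, K i)) (S : List ℕ) :
    XK K S = 0 := by
  classical
  unfold XK
  apply Finset.sum_eq_zero
  intro f _
  apply pfL_eq_zero _ (fun a => (asg K f a : ℤ) - 2 * (S.get a : ℤ)) _ _ _ rfl
  · rw [← List.ofFn_eq_map, List.sum_ofFn, Finset.sum_sub_distrib, ← Finset.mul_sum]
    have h1 : ∑ a, (asg K f a : ℤ) = ((∑ i, K i : ℕ) : ℤ) := by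
      rw [← Nat.cast_sum]
      congr 1
      unfold asg
      rw [Finset.sum_comm]
      refine Finset.sum_congr rfl (fun i _ => ?_)
      rw [Finset.sum_ite_eq]
      simp
    rw [h1]
    obtain ⟨k, hk⟩ := h
    rw [hk]
    push_cast
    omega
  · intro a b hab
    by_contra hne
    apply hab
    unfold zf
    rw [if_neg hne]

theorem Ypoly_odd {ρ : Type} [Fintype ρ] (K : ρ → ℕ) (h : Odd (∑ i, K i)) : Ypoly K = 0 := by
  have h1 : Rpoly K = 0 := by
    unfold Rpoly
    apply Finset.sum_eq_zero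
    intro S _
    rw [XK_odd K h]
    simp
  rw [Ypoly, h1, Wick]
  simp

end Pool.Agent.Helper29.MVN
end

/- Helper29.MVN.Bd -/
section
/-!
Project MV, block N: bounds of the polynomial volumes, of the AA sum; monotonicity of `UB`.
-/

namespace Pool.Agent.Helper29.MVN

open Finset Filter Topology Pool.Agent.Helper60.MV

theorem bE_pos (E : ℕ) : 0 < bE E := by
  unfold bE
  positivity

/-- cube root of `E` -/
noncomputable def c3 (E : ℕ) : ℝ := (E : ℝ) ^ (1 / 3 : ℝ)

theorem c3_nonneg (E : ℕ) : 0 ≤ c3 E := by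
  unfold c3
  positivity

theorem one_le_c3 {E : ℕ} (h : 1 ≤ E) : 1 ≤ c3 E := by
  unfold c3
  exact Real.one_le_rpow (by exact_mod_cast h) (by norm_num)

theorem c3_mono {E E' : ℕ} (h : E ≤ E') : c3 E ≤ c3 E' := by
  unfold c3
  exact Real.rpow_le_rpow (by positivity) (by exact_mod_cast h) (by norm_num)

theorem c3_div_tendsto : Tendsto (fun E : ℕ => c3 E / (E : ℝ)) atTop (𝓝 0) := by
  have h1 : Tendsto (fun E : ℕ => ((E : ℝ)) ^ (-(2 / 3) : ℝ)) atTop (𝓝 0) :=
    (tendsto_rpow_neg_atTop (by norm_num)).comp tendsto_natCast_atTop_atTop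
  refine h1.congr' ?_
  filter_upwards [eventually_ge_atTop 1] with E hE
  have hE' : (0 : ℝ) < E := by exact_mod_cast hE
  unfold c3
  rw [eq_div_iff hE'.ne']
  nth_rewrite 2 [← Real.rpow_one (E : ℝ)]
  rw [← Real.rpow_add hE']
  norm_num

theorem mainE_bd (H : Hyp) : ∃ C : ℝ, 0 < C ∧ ∀ E, |mainE E| ≤ C * bE E := by
  have h1 := H.mainE_even.abs.bddAbove_range
  obtain ⟨C, hC⟩ := h1
  refine ⟨max C 1, by positivity, fun E => ?_⟩
  have hb := bE_pos E
  rcases Nat.even_or_odd E with h | h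
  · obtain ⟨e, he⟩ := h
    have h2 : |mainE (2 * e) / bE (2 * e)| ≤ C := hC ⟨e, rfl⟩
    have h3 : E = 2 * e := by omega
    rw [← h3, abs_div, abs_of_pos hb, div_le_iff₀ hb] at h2
    exact h2.trans (mul_le_mul_of_nonneg_right (le_max_left _ _) hb.le)
  · rw [H.mainE_odd E h, abs_zero]
    positivity

theorem Ypoly_bd (H : Hyp) (M : ℕ) : ∃ C : ℝ, 1 ≤ C ∧ ∀ (k : ℕ) {ρ : Type} [Fintype ρ] (K : ρ → ℕ)
    (_ : ∀ i, Odd (K i)) (E : ℕ) (_ : ∑ i, K i = 2 * E) (_ : 1 ≤ E) (_ : ones K ≤ M + k),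
    |Ypoly K| ≤ C * (C * c3 E) ^ k * bE E := by
  obtain ⟨C, hC, h⟩ := H.blockU M
  obtain ⟨Cm, hCm, hm⟩ := mainE_bd H
  refine ⟨C + Cm + 1, by linarith, ?_⟩
  intro k ρ _ K hK E hE hE1 ho
  have h1 := h k K hK E hE hE1 ho
  have h2 := hm E
  have hb := bE_pos E
  have hc := one_le_c3 hE1
  have h3 : |Ypoly K| ≤ |Ypoly K - mainE E| + |mainE E| := by
    have := abs_add_le (Ypoly K - mainE E) (mainE E)
    rwa [sub_add_cancel] at this
  have hx : 1 ≤ (C + Cm + 1) * c3 E := by nlinarith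
  have h4 : (C * (E : ℝ) ^ (1 / 3 : ℝ)) ^ k ≤ ((C + Cm + 1) * c3 E) ^ k := by
    apply pow_le_pow_left₀ (by positivity)
    unfold c3 at hc ⊢
    nlinarith
  have h5 : (E : ℝ) ^ (-(1 / 2) : ℝ) ≤ 1 :=
    Real.rpow_le_one_of_one_le_of_nonpos (by exact_mod_cast hE1) (by norm_num)
  have h6 : (1 : ℝ) ≤ ((C + Cm + 1) * c3 E) ^ k := one_le_pow₀ hx
  have h7 : C * (C * (E : ℝ) ^ (1 / 3 : ℝ)) ^ k * (E : ℝ) ^ (-(1 / 2) : ℝ) * bE E
      ≤ C * ((C + Cm + 1) * c3 E) ^ k * bE E := by
    apply mul_le_mul_of_nonneg_right _ hb.le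
    calc C * (C * (E : ℝ) ^ (1 / 3 : ℝ)) ^ k * (E : ℝ) ^ (-(1 / 2) : ℝ)
        ≤ C * (C * (E : ℝ) ^ (1 / 3 : ℝ)) ^ k * 1 :=
          mul_le_mul_of_nonneg_left h5 (by positivity)
      _ = C * (C * (E : ℝ) ^ (1 / 3 : ℝ)) ^ k := mul_one _
      _ ≤ C * ((C + Cm + 1) * c3 E) ^ k := mul_le_mul_of_nonneg_left h4 hC.le
  have h8 : Cm * bE E ≤ Cm * ((C + Cm + 1) * c3 E) ^ k * bE E := by
    apply mul_le_mul_of_nonneg_right _ hb.le
    nlinarith
  have h9 : 0 ≤ ((C + Cm + 1) * c3 E) ^ k * bE E := by positivity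
  nlinarith

theorem AAc_bd (H : Hyp) : ∃ C : ℝ, 0 < C ∧ ∀ {ρ : Type} [Fintype ρ] (K : ρ → ℕ) (_ : ∀ i, Odd (K i))
    (E : ℕ) (_ : ∑ i, K i = 2 * E) (_ : 1 ≤ E),
    AAc K ≤ C * ((E : ℝ) * (19 / 20) ^ E) * bE E := by
  obtain ⟨C, hC, h⟩ := H.AAc_le
  refine ⟨C, hC, ?_⟩
  intro ρ _ K hK E hE hE1
  refine (h K hK E hE hE1).trans (le_of_eq ?_)
  unfold bE
  obtain ⟨n, rfl⟩ : ∃ n, E = n + 1 := ⟨E - 1, by omega⟩
  rw [Nat.factorial_succ, Nat.add_sub_cancel]
  have : ((19 : ℝ) / 10) ^ (n + 1) = (19 / 20) ^ (n + 1) * 2 ^ (n + 1) := by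
    rw [← mul_pow]; norm_num
  rw [this]
  push_cast
  ring

theorem geo_tendsto : Tendsto (fun E : ℕ => (E : ℝ) * (19 / 20) ^ E) atTop (𝓝 0) :=
  tendsto_self_mul_const_pow_of_lt_one (by norm_num) (by norm_num)

theorem AAc_bd' (H : Hyp) : ∃ C : ℝ, 0 < C ∧ ∀ {ρ : Type} [Fintype ρ] (K : ρ → ℕ) (_ : ∀ i, Odd (K i))
    (E : ℕ) (_ : ∑ i, K i = 2 * E) (_ : 1 ≤ E), AAc K ≤ C * bE E := by
  obtain ⟨C, hC, h⟩ := AAc_bd H
  obtain ⟨D, hD⟩ := geo_tendsto.bddAbove_range
  refine ⟨C * max D 1, by positivity, ?_⟩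
  intro ρ _ K hK E hE hE1
  refine (h K hK E hE hE1).trans ?_
  have h1 : (E : ℝ) * (19 / 20) ^ E ≤ D := hD ⟨E, rfl⟩
  have hb := bE_pos E
  apply mul_le_mul_of_nonneg_right _ hb.le
  apply mul_le_mul_of_nonneg_left _ hC.le
  exact h1.trans (le_max_left _ _)

theorem UB_mono {ρ : Type} [Fintype ρ] {K : ρ → ℕ} {B B' : ℝ} (h : UB K B) (hB : B ≤ B') :
    UB K B' := by
  intro C hC δ hδ
  filter_upwards [h C hC δ hδ] with ε h1 ξ h2 h3
  exact (h1 ξ h2 h3).trans (by linarith)

end Pool.Agent.Helper29.MVN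
end

/- Helper29.MVN.Disc -/
section
/-!
Project MV, block N: the disconnected configurations.
-/

namespace Pool.Agent.Helper29.MVN

open Finset Filter Topology Pool.Agent.Helper60.MV

/-! ### binomial coefficients -/

theorem choose_mono_half {n c j : ℕ} (h1 : c ≤ j) (h2 : j ≤ n / 2) : n.choose c ≤ n.choose j := by
  induction j, h1 using Nat.le_induction with
  | base => exact le_refl _
  | succ j _ ih => exact (ih (by omega)).trans (Nat.choose_le_succ_of_lt_half_left (by omega))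

theorem choose_two_le {A r : ℕ} (h1 : 2 ≤ r) (h2 : r + 2 ≤ A) : A.choose 2 ≤ A.choose r := by
  rcases Nat.lt_or_ge (A / 2) r with h | h
  · rw [← Nat.choose_symm (show r ≤ A by omega)]
    exact choose_mono_half (by omega) (by omega)
  · exact choose_mono_half h1 h

/-- `(e-1)! (E-e-1)! binom(N,j) binom(A,r) ≤ (E-2)!` -/
theorem vand {E e N A j r : ℕ} (h1 : 1 ≤ e) (h2 : e + 1 ≤ E) (hN : N + A = E - 2)
    (hj : j + r = e - 1) :
    (e - 1).factorial * (E - e - 1).factorial * (N.choose j * A.choose r) ≤ (E - 2).factorial := by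
  have h3 : N.choose j * A.choose r ≤ (E - 2).choose (e - 1) := by
    rw [← hN, Nat.add_choose_eq]
    have hm : ((j, r) : ℕ × ℕ) ∈ Finset.HasAntidiagonal.antidiagonal (e - 1) :=
      Finset.HasAntidiagonal.mem_antidiagonal.2 hj
    exact Finset.single_le_sum (f := fun ij : ℕ × ℕ => N.choose ij.1 * A.choose ij.2)
      (fun _ _ => Nat.zero_le _) hm
  have h4 := Nat.choose_mul_factorial_mul_factorial (show e - 1 ≤ E - 2 by omega)
  rw [show E - 2 - (e - 1) = E - e - 1 by omega] at h4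
  calc (e - 1).factorial * (E - e - 1).factorial * (N.choose j * A.choose r)
      ≤ (e - 1).factorial * (E - e - 1).factorial * (E - 2).choose (e - 1) :=
        Nat.mul_le_mul_left _ h3
    _ = (E - 2).factorial := by rw [← h4]; ring

/-- the weight of the sets with sum `2 e` -/
theorem weight_le {E e : ℕ} (hE : 30 ≤ E) (h1 : 1 ≤ e) (h2 : 2 * e ≤ E) :
    (((e - 1).factorial * (E - e - 1).factorial * ((2 * e / 3 + 1) * (2 * E / 3).choose (2 * e / 3))
      : ℕ) : ℝ) ≤ ((if e ≤ 6 then 5 else 0) + 20 / (E : ℝ)) * ((E - 2).factorial : ℝ) := by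
  obtain ⟨A, hA⟩ : ∃ A, A = E - 2 - 2 * E / 3 := ⟨_, rfl⟩
  obtain ⟨r, hr⟩ : ∃ r, r = e - 1 - 2 * e / 3 := ⟨_, rfl⟩
  have h3 := vand (E := E) (e := e) (N := 2 * E / 3) (A := A) (j := 2 * e / 3) (r := r) h1
    (by omega) (by omega) (by omega)
  obtain ⟨X, hX⟩ : ∃ X, X = (e - 1).factorial * (E - e - 1).factorial *
    ((2 * e / 3 + 1) * (2 * E / 3).choose (2 * e / 3)) := ⟨_, rfl⟩
  rw [← hX]
  have h4 : X * A.choose r ≤ (2 * e / 3 + 1) * (E - 2).factorial := by
    calc X * A.choose r = (2 * e / 3 + 1) * ((e - 1).factorial * (E - e - 1).factorial *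
          ((2 * E / 3).choose (2 * e / 3) * A.choose r)) := by rw [hX]; ring
      _ ≤ (2 * e / 3 + 1) * (E - 2).factorial := Nat.mul_le_mul_left _ h3
  have hEr : (30 : ℝ) ≤ E := by exact_mod_cast hE
  have hF : (0 : ℝ) < ((E - 2).factorial : ℝ) := by exact_mod_cast Nat.factorial_pos _
  by_cases h6 : e ≤ 6
  · rw [if_pos h6]
    have h5 : 1 ≤ A.choose r := Nat.choose_pos (by omega)
    have h7 : X ≤ 5 * (E - 2).factorial := by
      calc X = X * 1 := (mul_one _).symm
        _ ≤ X * A.choose r := Nat.mul_le_mul_left _ h5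
        _ ≤ (2 * e / 3 + 1) * (E - 2).factorial := h4
        _ ≤ 5 * (E - 2).factorial := Nat.mul_le_mul_right _ (by omega)
    have h8 : (X : ℝ) ≤ 5 * ((E - 2).factorial : ℝ) := by exact_mod_cast h7
    have h9 : 0 ≤ 20 / (E : ℝ) * ((E - 2).factorial : ℝ) := by positivity
    linarith
  · rw [if_neg h6, zero_add]
    have h5 : A.choose 2 ≤ A.choose r := choose_two_le (by omega) (by omega)
    have h7 : X * A.choose 2 ≤ (2 * e / 3 + 1) * (E - 2).factorial :=
      (Nat.mul_le_mul_left _ h5).trans h4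
    have h8 : (A.choose 2 : ℝ) = A * (A - 1) / 2 := Nat.cast_choose_two ℝ A
    have h9 : (X : ℝ) * (A * (A - 1) / 2) ≤ ((2 * e / 3 + 1 : ℕ) : ℝ) * ((E - 2).factorial : ℝ) := by
      rw [← h8]; exact_mod_cast h7
    have hA1 : (E : ℝ) / 4 ≤ A := by
      have : E ≤ 4 * A := by omega
      have : (E : ℝ) ≤ 4 * A := by exact_mod_cast this
      linarith
    have hA2 : (E : ℝ) / 5 ≤ (A : ℝ) - 1 := by
      have : E + 5 ≤ 5 * A := by omega
      have : (E : ℝ) + 5 ≤ 5 * A := by exact_mod_cast this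
      linarith
    have hj : ((2 * e / 3 + 1 : ℕ) : ℝ) ≤ (E : ℝ) / 2 := by
      have : 2 * (2 * e / 3 + 1) ≤ E := by omega
      have : 2 * ((2 * e / 3 + 1 : ℕ) : ℝ) ≤ (E : ℝ) := by exact_mod_cast this
      linarith
    have h10 : (E : ℝ) ^ 2 / 20 ≤ A * (A - 1) := by nlinarith
    have hX0 : (0 : ℝ) ≤ X := Nat.cast_nonneg _
    have h11 : (X : ℝ) * ((E : ℝ) ^ 2 / 40) ≤ (E : ℝ) / 2 * ((E - 2).factorial : ℝ) := by
      calc (X : ℝ) * ((E : ℝ) ^ 2 / 40) ≤ X * (A * (A - 1) / 2) := by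
            apply mul_le_mul_of_nonneg_left _ hX0; linarith
        _ ≤ ((2 * e / 3 + 1 : ℕ) : ℝ) * ((E - 2).factorial : ℝ) := h9
        _ ≤ (E : ℝ) / 2 * ((E - 2).factorial : ℝ) := mul_le_mul_of_nonneg_right hj hF.le
    have hE0 : (0 : ℝ) < E := by linarith
    rw [div_mul_eq_mul_div, le_div_iff₀ hE0]
    have h12 : (X : ℝ) * E * (E / 40) ≤ 20 * ((E - 2).factorial : ℝ) * (E / 40) := by nlinarith
    exact le_of_mul_le_mul_right h12 (by positivity)

/-! ### counting the subsets with given sum -/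

theorem count_le {ρ : Type} [Fintype ρ] [DecidableEq ρ] {K : ρ → ℕ} (hK : ∀ i, Odd (K i)) {E M : ℕ}
    (hE : ∑ i, K i = 2 * E) (ho : ones K ≤ M) {e : ℕ} (h2 : 2 * e ≤ E) :
    ((univ : Finset (Finset ρ)).filter (fun I => ∑ i ∈ I, K i = 2 * e)).card ≤
      2 ^ M * ((2 * e / 3 + 1) * (2 * E / 3).choose (2 * e / 3)) := by
  classical
  let O : Finset ρ := univ.filter (fun i => K i = 1)
  let O' : Finset ρ := univ.filter (fun i => K i ≠ 1)
  have hO : O.card ≤ M := by
    refine le_trans (le_of_eq ?_) ho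
    unfold ones
    rfl
  have hsum3 : ∀ J ⊆ O', 3 * J.card ≤ ∑ i ∈ J, K i := by
    intro J hJ
    rw [mul_comm, ← smul_eq_mul, ← Finset.sum_const]
    apply Finset.sum_le_sum
    intro i hi
    have h3 : K i ≠ 1 := (mem_filter.1 (hJ hi)).2
    obtain ⟨a, ha⟩ := hK i
    omega
  have hO' : O'.card ≤ 2 * E / 3 := by
    have h3 := hsum3 O' (subset_refl _)
    have h4 : ∑ i ∈ O', K i ≤ 2 * E := by
      rw [← hE]
      exact Finset.sum_le_sum_of_subset (subset_univ _)
    omega
  let T : Finset (Finset ρ × Finset ρ) :=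
    O.powerset ×ˢ ((Finset.range (2 * e / 3 + 1)).biUnion (fun c => O'.powersetCard c))
  have h3 : ((univ : Finset (Finset ρ)).filter (fun I => ∑ i ∈ I, K i = 2 * e)).card ≤ T.card := by
    apply card_le_card_of_injOn (fun I => (I ∩ O, I ∩ O'))
    · intro I hI
      rw [mem_coe, mem_filter] at hI
      rw [mem_coe, mem_product]
      refine ⟨mem_powerset.2 inter_subset_right, ?_⟩
      rw [mem_biUnion]
      refine ⟨(I ∩ O').card, ?_, ?_⟩
      · rw [mem_range]
        have h4 := hsum3 (I ∩ O') inter_subset_right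
        have h5 : ∑ i ∈ I ∩ O', K i ≤ ∑ i ∈ I, K i :=
          Finset.sum_le_sum_of_subset inter_subset_left
        omega
      · rw [mem_powersetCard]
        exact ⟨inter_subset_right, rfl⟩
    · intro I _ J _ h
      obtain ⟨e1, e2⟩ := Prod.mk.inj h
      ext i
      by_cases hi : K i = 1
      · have hO1 : i ∈ O := mem_filter.2 ⟨mem_univ _, hi⟩
        have : i ∈ I ∩ O ↔ i ∈ J ∩ O := by rw [e1]
        simpa [mem_inter, hO1] using this
      · have hO1 : i ∈ O' := mem_filter.2 ⟨mem_univ _, hi⟩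
        have : i ∈ I ∩ O' ↔ i ∈ J ∩ O' := by rw [e2]
        simpa [mem_inter, hO1] using this
  refine h3.trans ?_
  rw [card_product, card_powerset]
  apply Nat.mul_le_mul
  · exact Nat.pow_le_pow_right (by norm_num) hO
  · refine card_biUnion_le.trans ?_
    refine (Finset.sum_le_card_nsmul _ _ ((2 * E / 3).choose (2 * e / 3)) ?_).trans ?_
    · intro c hc
      rw [mem_range] at hc
      rw [card_powersetCard]
      exact (Nat.choose_le_choose c hO').trans (choose_mono_half (by omega) (by omega))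
    · rw [card_range, smul_eq_mul]

end Pool.Agent.Helper29.MVN
end

/- Helper29.MVN.Disc2 -/
section
/-!
Project MV, block N: the bound of the disconnected configurations.
-/

namespace Pool.Agent.Helper29.MVN

open Finset Filter Topology Pool.Agent.Helper60.MV

theorem sum_sub {ρ : Type} (I : Finset ρ) [inst : Fintype {i // i ∈ I}] (K : ρ → ℕ) :
    ∑ i : {i // i ∈ I}, K i = ∑ i ∈ I, K i := by
  have h : inst = Finset.fintypeCoeSort I := Subsingleton.elim _ _
  subst h
  exact Finset.sum_coe_sort I K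

theorem ones_sub {ρ : Type} [Fintype ρ] (I : Finset ρ) [Fintype {i // i ∈ I}] (K : ρ → ℕ) :
    ones (fun i : {i // i ∈ I} => K i) ≤ ones K := by
  classical
  unfold ones
  apply card_le_card_of_injOn (fun i : {i // i ∈ I} => (i : ρ))
  · intro i hi
    rw [mem_coe, mem_filter] at hi
    rw [mem_coe, mem_filter]
    exact ⟨mem_univ _, hi.2⟩
  · intro i _ j _ h
    exact Subtype.ext h

/-- the number of subsets with sum `2 e` -/
def cnt {ρ : Type} [Fintype ρ] (K : ρ → ℕ) (e : ℕ) : ℕ :=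
  ((univ : Finset (Finset ρ)).filter (fun I => ∑ i ∈ I, K i = 2 * e)).card

theorem cnt_symm {ρ : Type} [Fintype ρ] {K : ρ → ℕ} {E e : ℕ} (hE : ∑ i, K i = 2 * E)
    (he : e ≤ E) : cnt K e ≤ cnt K (E - e) := by
  classical
  unfold cnt
  apply card_le_card_of_injOn (fun I => Iᶜ)
  · intro I hI
    rw [mem_coe, mem_filter] at hI
    rw [mem_coe, mem_filter]
    refine ⟨mem_univ _, ?_⟩
    have h := Finset.sum_add_sum_compl I K
    have h2 := hI.2
    show ∑ i ∈ Iᶜ, K i = 2 * (E - e)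
    omega
  · intro I _ J _ h
    exact compl_injective h

theorem cnt_weight {ρ : Type} [Fintype ρ] {K : ρ → ℕ} (hK : ∀ i, Odd (K i)) {E M : ℕ}
    (hE : ∑ i, K i = 2 * E) (ho : ones K ≤ M) (h30 : 30 ≤ E) {e : ℕ} (h1 : 1 ≤ e)
    (h2 : e + 1 ≤ E) :
    (cnt K e : ℝ) * (((e - 1).factorial * (E - e - 1).factorial : ℕ) : ℝ) ≤
      2 ^ M * (((if e ≤ 6 then 5 else 0) + (if E - e ≤ 6 then 5 else 0) + 20 / (E : ℝ)) *
        ((E - 2).factorial : ℝ)) := by
  classical
  -- the half range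
  have key : ∀ e, 1 ≤ e → 2 * e ≤ E →
      (cnt K e : ℝ) * (((e - 1).factorial * (E - e - 1).factorial : ℕ) : ℝ) ≤
      2 ^ M * (((if e ≤ 6 then 5 else 0) + 20 / (E : ℝ)) * ((E - 2).factorial : ℝ)) := by
    intro e h1 h2
    have h3 := count_le hK hE ho (e := e) h2
    have h4 := weight_le h30 h1 h2
    have h5 : (cnt K e * ((e - 1).factorial * (E - e - 1).factorial)) ≤
        2 ^ M * ((e - 1).factorial * (E - e - 1).factorial *
          ((2 * e / 3 + 1) * (2 * E / 3).choose (2 * e / 3))) := by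
      calc cnt K e * ((e - 1).factorial * (E - e - 1).factorial)
          ≤ (2 ^ M * ((2 * e / 3 + 1) * (2 * E / 3).choose (2 * e / 3))) *
            ((e - 1).factorial * (E - e - 1).factorial) := Nat.mul_le_mul_right _ h3
        _ = _ := by ring
    have h6 : ((cnt K e * ((e - 1).factorial * (E - e - 1).factorial) : ℕ) : ℝ) ≤
        ((2 ^ M * ((e - 1).factorial * (E - e - 1).factorial *
          ((2 * e / 3 + 1) * (2 * E / 3).choose (2 * e / 3))) : ℕ) : ℝ) := by exact_mod_cast h5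
    rw [Nat.cast_mul] at h6
    refine h6.trans ?_
    rw [Nat.cast_mul (2 ^ M)]
    push_cast at h4 ⊢
    exact mul_le_mul_of_nonneg_left h4 (by positivity)
  have hF : (0 : ℝ) < ((E - 2).factorial : ℝ) := by exact_mod_cast Nat.factorial_pos _
  rcases Nat.lt_or_ge E (2 * e) with h3 | h3
  · have h4 := key (E - e) (by omega) (by omega)
    have h5 := cnt_symm hE (show e ≤ E by omega)
    have h5' : (cnt K e : ℝ) ≤ (cnt K (E - e) : ℝ) := by exact_mod_cast h5
    have h6 : (e - 1).factorial * (E - e - 1).factorial =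
        (E - e - 1).factorial * (E - (E - e) - 1).factorial := by
      rw [show E - (E - e) - 1 = e - 1 by omega]; ring
    rw [h6]
    refine (mul_le_mul_of_nonneg_right h5' (Nat.cast_nonneg _)).trans (h4.trans ?_)
    apply mul_le_mul_of_nonneg_left _ (by positivity)
    apply mul_le_mul_of_nonneg_right _ hF.le
    have : (0 : ℝ) ≤ (if e ≤ 6 then 5 else 0) := by split_ifs <;> norm_num
    linarith
  · refine (key e h1 h3).trans ?_
    apply mul_le_mul_of_nonneg_left _ (by positivity)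
    apply mul_le_mul_of_nonneg_right _ hF.le
    have : (0 : ℝ) ≤ (if E - e ≤ 6 then 5 else 0) := by split_ifs <;> norm_num
    linarith

theorem sum_small {E : ℕ} (h30 : 30 ≤ E) :
    ∑ e ∈ Icc 1 (E - 1), (((if e ≤ 6 then 5 else 0) + (if E - e ≤ 6 then 5 else 0) +
      20 / (E : ℝ)) : ℝ) ≤ 80 := by
  have hEr : (30 : ℝ) ≤ E := by exact_mod_cast h30
  rw [sum_add_distrib, sum_add_distrib, ← sum_filter, ← sum_filter, sum_const, sum_const, sum_const,
    Nat.card_Icc, nsmul_eq_mul, nsmul_eq_mul, nsmul_eq_mul]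
  have h1 : ((Icc 1 (E - 1)).filter (fun e => e ≤ 6)).card ≤ 6 := by
    refine (card_le_card (t := Icc 1 6) ?_).trans (by simp)
    intro e he
    rw [mem_filter, mem_Icc] at he
    rw [mem_Icc]
    omega
  have h2 : ((Icc 1 (E - 1)).filter (fun e => E - e ≤ 6)).card ≤ 6 := by
    refine (card_le_card (t := Icc (E - 6) (E - 1)) ?_).trans ?_
    · intro e he
      rw [mem_filter, mem_Icc] at he
      rw [mem_Icc]
      omega
    · rw [Nat.card_Icc]; omega
  have h3 : ((E - 1 + 1 - 1 : ℕ) : ℝ) * (20 / (E : ℝ)) ≤ 20 := by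
    have : ((E - 1 + 1 - 1 : ℕ) : ℝ) ≤ E := by
      have : E - 1 + 1 - 1 ≤ E := by omega
      exact_mod_cast this
    rw [mul_div_assoc', div_le_iff₀ (by linarith)]
    nlinarith
  have h1' : (((Icc 1 (E - 1)).filter (fun e => e ≤ 6)).card : ℝ) ≤ 6 := by exact_mod_cast h1
  have h2' : (((Icc 1 (E - 1)).filter (fun e => E - e ≤ 6)).card : ℝ) ≤ 6 := by exact_mod_cast h2
  linarith

theorem disc_term {M : ℕ} {C : ℝ} (hC1 : 1 ≤ C)
    (hC : ∀ (k : ℕ) {ρ : Type} [Fintype ρ] (K : ρ → ℕ)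
    (_ : ∀ i, Odd (K i)) (E : ℕ) (_ : ∑ i, K i = 2 * E) (_ : 1 ≤ E) (_ : ones K ≤ M + k),
    |Ypoly K| ≤ C * (C * c3 E) ^ k * bE E)
    {ρ : Type} [Fintype ρ] {K : ρ → ℕ} (hK : ∀ i, Odd (K i)) {E : ℕ}
    (hE : ∑ i, K i = 2 * E) (ho : ones K ≤ M) (I J : Finset ρ) (hI : I.Nonempty) (hJ : J.Nonempty)
    (hIJ : ∑ i ∈ I, K i + ∑ i ∈ J, K i = ∑ i, K i) [Fintype {i // i ∈ I}] [Fintype {i // i ∈ J}] :
    |Ypoly (fun i : {i // i ∈ I} => K i) * Ypoly (fun i : {i // i ∈ J} => K i)| ≤
      ∑ e ∈ Icc 1 (E - 1), if ∑ i ∈ I, K i = 2 * e then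
        C ^ 2 * (2 ^ E * (((e - 1).factorial * (E - e - 1).factorial : ℕ) : ℝ)) else 0 := by
  have hnn : ∀ e ∈ Icc 1 (E - 1), (0 : ℝ) ≤ if ∑ i ∈ I, K i = 2 * e then
        C ^ 2 * (2 ^ E * (((e - 1).factorial * (E - e - 1).factorial : ℕ) : ℝ)) else 0 := by
    intro e _
    split_ifs <;> positivity
  rcases Nat.even_or_odd (∑ i ∈ I, K i) with hev | hodd
  · obtain ⟨e, he⟩ := hev
    have hpos : ∀ L : Finset ρ, L.Nonempty → 0 < ∑ i ∈ L, K i := by
      intro L hL
      exact Finset.sum_pos (fun i _ => (hK i).pos) hL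
    have h1 := hpos I hI
    have h2 := hpos J hJ
    have he2 : ∑ i ∈ I, K i = 2 * e := by omega
    have hf2 : ∑ i ∈ J, K i = 2 * (E - e) := by omega
    have b1 := hC 0 (fun i : {i // i ∈ I} => K i) (fun i => hK i) e
      (by rw [sum_sub, he2]) (by omega) ((ones_sub I K).trans ho)
    have b2 := hC 0 (fun i : {i // i ∈ J} => K i) (fun i => hK i) (E - e)
      (by rw [sum_sub, hf2]) (by omega) ((ones_sub J K).trans ho)
    rw [pow_zero, mul_one] at b1 b2
    have hm : e ∈ Icc 1 (E - 1) := by rw [mem_Icc]; omega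
    refine le_trans ?_ (Finset.single_le_sum hnn hm)
    rw [if_pos he2, abs_mul]
    have hb1 := bE_pos e
    calc |Ypoly (fun i : {i // i ∈ I} => K i)| * |Ypoly (fun i : {i // i ∈ J} => K i)|
        ≤ (C * bE e) * (C * bE (E - e)) :=
          mul_le_mul b1 b2 (abs_nonneg _) (by positivity)
      _ = C ^ 2 * (2 ^ E * (((e - 1).factorial * (E - e - 1).factorial : ℕ) : ℝ)) := by
          unfold bE
          have : (2 : ℝ) ^ E = 2 ^ e * 2 ^ (E - e) := by
            rw [← pow_add]; congr 1; omega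
          rw [this]
          push_cast
          ring
  · rw [Ypoly_odd (fun i : {i // i ∈ I} => K i) (by rw [sum_sub]; exact hodd), zero_mul, abs_zero]
    exact Finset.sum_nonneg hnn

theorem disc_le (H : Hyp) (M : ℕ) : ∃ C : ℝ, 0 < C ∧ ∀ {ρ : Type} [Fintype ρ] (K : ρ → ℕ)
    (_ : ∀ i, Odd (K i)) (E : ℕ) (_ : ∑ i, K i = 2 * E) (_ : 30 ≤ E) (_ : ones K ≤ M),
    |disc K| ≤ C / ((E : ℝ) - 1) * bE E := by
  obtain ⟨C, hC1, hC⟩ := Ypoly_bd H M
  refine ⟨C ^ 2 * (2 ^ M * 80), by positivity, ?_⟩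
  intro ρ _ K hK E hE h30 ho
  classical
  have h1 : |disc K| ≤ ∑ I : Finset ρ, ∑ e ∈ Icc 1 (E - 1), if ∑ i ∈ I, K i = 2 * e then
        C ^ 2 * (2 ^ E * (((e - 1).factorial * (E - e - 1).factorial : ℕ) : ℝ)) else 0 := by
    unfold disc
    refine (Finset.abs_sum_le_sum_abs _ _).trans ?_
    refine (Finset.sum_le_sum (fun I hI => ?_)).trans
      (Finset.sum_le_sum_of_subset_of_nonneg (subset_univ _) ?_)
    · rw [mem_filter] at hI
      exact disc_term hC1 hC hK hE ho I _ hI.2.1 hI.2.2 (Finset.sum_add_sum_compl I K)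
    · intro I _ _
      apply Finset.sum_nonneg
      intro e _
      split_ifs <;> positivity
  refine h1.trans ?_
  rw [Finset.sum_comm]
  have h2 : ∀ e ∈ Icc 1 (E - 1), (∑ I : Finset ρ, if ∑ i ∈ I, K i = 2 * e then
        C ^ 2 * (2 ^ E * (((e - 1).factorial * (E - e - 1).factorial : ℕ) : ℝ)) else 0) ≤
      C ^ 2 * 2 ^ E * 2 ^ M * ((E - 2).factorial : ℝ) *
        (((if e ≤ 6 then 5 else 0) + (if E - e ≤ 6 then 5 else 0) + 20 / (E : ℝ)) : ℝ) := by
    intro e he
    rw [mem_Icc] at he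
    rw [← Finset.sum_filter, Finset.sum_const, nsmul_eq_mul]
    have h3 := cnt_weight hK hE ho h30 (e := e) he.1 (by omega)
    unfold cnt at h3
    have h4 := mul_le_mul_of_nonneg_left h3 (show (0 : ℝ) ≤ C ^ 2 * 2 ^ E by positivity)
    refine le_trans (le_of_eq ?_) (h4.trans (le_of_eq ?_))
    · ring
    · ring
  refine (Finset.sum_le_sum h2).trans ?_
  rw [← Finset.mul_sum]
  have hEr : (30 : ℝ) ≤ E := by exact_mod_cast h30
  have hE1 : (0 : ℝ) < (E : ℝ) - 1 := by linarith
  have hfac : ((E - 1).factorial : ℝ) = ((E : ℝ) - 1) * ((E - 2).factorial : ℝ) := by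
    obtain ⟨n, hn⟩ : ∃ n, E = n + 2 := ⟨E - 2, by omega⟩
    rw [hn, show n + 2 - 1 = n + 1 by omega, show n + 2 - 2 = n by omega, Nat.factorial_succ]
    push_cast
    ring
  have h5 : C ^ 2 * (2 ^ M * 80) / ((E : ℝ) - 1) * bE E =
      C ^ 2 * 2 ^ E * 2 ^ M * ((E - 2).factorial : ℝ) * 80 := by
    unfold bE
    rw [hfac]
    field_simp
  rw [h5]
  exact mul_le_mul_of_nonneg_left (sum_small h30) (by positivity)

end Pool.Agent.Helper29.MVN
end

/- Helper29.MVN.LeafSum -/
section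
/-!
Project MV, block N: the leaf sum.
-/

namespace Pool.Agent.Helper29.MVN

open Finset Filter Topology Pool.Agent.Helper60.MV

/-! ### factorials -/

theorem fac1 : ∀ a b : ℕ, (a + 1).factorial * (b + 1).factorial ≤ (a + b + 1).factorial := by
  intro a b
  induction b with
  | zero => simp
  | succ b ih =>
    have e1 : (b + 1 + 1).factorial = (b + 2) * (b + 1).factorial := Nat.factorial_succ _
    have e2 : (a + (b + 1) + 1).factorial = (a + b + 2) * (a + b + 1).factorial :=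
      Nat.factorial_succ _
    rw [e1, e2]
    calc (a + 1).factorial * ((b + 2) * (b + 1).factorial)
        = (b + 2) * ((a + 1).factorial * (b + 1).factorial) := by ring
      _ ≤ (b + 2) * (a + b + 1).factorial := Nat.mul_le_mul_left _ ih
      _ ≤ (a + b + 2) * (a + b + 1).factorial := Nat.mul_le_mul_right _ (by omega)

theorem fac2 : ∀ a b : ℕ, (a + 2).factorial * (b + 2).factorial ≤ 2 * (a + b + 2).factorial := by
  intro a b
  induction b with
  | zero =>
    have : (0 + 2).factorial = 2 := rfl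
    rw [this, add_zero, mul_comm]
  | succ b ih =>
    have e1 : (b + 1 + 2).factorial = (b + 3) * (b + 2).factorial := Nat.factorial_succ _
    have e2 : (a + (b + 1) + 2).factorial = (a + b + 3) * (a + b + 2).factorial :=
      Nat.factorial_succ _
    rw [e1, e2]
    calc (a + 2).factorial * ((b + 3) * (b + 2).factorial)
        = (b + 3) * ((a + 2).factorial * (b + 2).factorial) := by ring
      _ ≤ (b + 3) * (2 * (a + b + 2).factorial) := Nat.mul_le_mul_left _ ih
      _ ≤ 2 * ((a + b + 3) * (a + b + 2).factorial) := by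
        have : (b + 3) * (2 * (a + b + 2).factorial) = 2 * ((b + 3) * (a + b + 2).factorial) := by
          ring
        rw [this]
        exact Nat.mul_le_mul_left _ (Nat.mul_le_mul_right _ (by omega))

/-- for `1 ≤ m ≤ E - 3` -/
theorem fac_a {E m : ℕ} (h1 : 1 ≤ m) (h2 : m + 3 ≤ E) :
    m.factorial * (E - m - 2).factorial ≤ (E - 3).factorial := by
  obtain ⟨a, rfl⟩ : ∃ a, m = a + 1 := ⟨m - 1, by omega⟩
  obtain ⟨b, hb⟩ : ∃ b, E - (a + 1) - 2 = b + 1 := ⟨E - (a + 1) - 3, by omega⟩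
  rw [hb]
  have := fac1 a b
  rwa [show a + b + 1 = E - 3 by omega] at this

theorem fac_sum {E : ℕ} (hE : 4 ≤ E) :
    ∑ m ∈ Finset.Icc 1 (E - 3), m.factorial * (E - m - 2).factorial ≤ 4 * (E - 3).factorial := by
  have hpt : ∀ m ∈ Finset.Icc 1 (E - 3), m.factorial * (E - m - 2).factorial ≤
      (if m = 1 then (E - 3).factorial else 0) + (if m = E - 3 then (E - 3).factorial else 0)
        + 2 * (E - 4).factorial := by
    intro m hm
    rw [Finset.mem_Icc] at hm
    have h0 := fac_a (E := E) hm.1 (by omega)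
    by_cases h1 : m = 1
    · rw [if_pos h1]; omega
    · by_cases h2 : m = E - 3
      · rw [if_pos h2]; omega
      · rw [if_neg h1, if_neg h2]
        obtain ⟨a, rfl⟩ : ∃ a, m = a + 2 := ⟨m - 2, by omega⟩
        obtain ⟨b, hb⟩ : ∃ b, E - (a + 2) - 2 = b + 2 := ⟨E - (a + 2) - 4, by omega⟩
        rw [hb]
        have := fac2 a b
        rw [show a + b + 2 = E - 4 by omega] at this
        omega
  refine (Finset.sum_le_sum hpt).trans ?_
  rw [Finset.sum_add_distrib, Finset.sum_add_distrib, Finset.sum_const, Finset.sum_ite_eq',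
    Finset.sum_ite_eq', Nat.card_Icc, smul_eq_mul]
  have e1 : (E - 3).factorial = (E - 3) * (E - 4).factorial := by
    obtain ⟨n, rfl⟩ : ∃ n, E = n + 4 := ⟨E - 4, by omega⟩
    rw [show n + 4 - 3 = n + 1 by omega, show n + 4 - 4 = n by omega, Nat.factorial_succ]
  have e2 : (E - 3 + 1 - 1) * (2 * (E - 4).factorial) = 2 * (E - 3).factorial := by
    rw [e1, show E - 3 + 1 - 1 = E - 3 by omega]; ring
  rw [e2]
  split_ifs <;> omega

/-! ### the bounds `B` of the reduced types -/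

/-- the bound used for the reduced types -/
noncomputable def BB {ρ : Type} (A D : ℝ) (K : ρ → ℕ) (k E : ℕ) (i : ρ) (m : ℕ) : ℝ :=
  if Even (E - (m + 1)) then
    A * (D * c3 (E - (m + 1))) ^ (k + if K i = 2 * m + 3 then 1 else 0) * bE (E - (m + 1))
  else 0

theorem BB_nonneg {ρ : Type} {A D : ℝ} (hA : 0 ≤ A) (hD : 0 ≤ D) (K : ρ → ℕ) (k E : ℕ) (i : ρ)
    (m : ℕ) : 0 ≤ BB A D K k E i m := by
  unfold BB
  have h1 := c3_nonneg (E - (m + 1))
  have h2 := bE_pos (E - (m + 1))
  split_ifs <;> positivity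

section

variable {ρ : Type} [Fintype ρ] {K : ρ → ℕ} {E : ℕ}

theorem K_le (hK : ∀ i, Odd (K i)) (hE : ∑ i, K i = 2 * E) (i : ρ) : K i + 1 ≤ 2 * E := by
  classical
  have h1 : K i + ∑ j ∈ univ.erase i, K j = 2 * E := by
    rw [← hE, Finset.add_sum_erase _ _ (mem_univ i)]
  rcases (univ.erase i : Finset ρ).eq_empty_or_nonempty with h2 | ⟨j, hj⟩
  · rw [h2, Finset.sum_empty, add_zero] at h1
    have := hK i
    rw [h1] at this
    exact absurd this (by rw [Nat.not_odd_iff_even]; exact even_two_mul E)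
  · have h3 : K j ≤ ∑ j ∈ univ.erase i, K j := Finset.single_le_sum (fun _ _ => Nat.zero_le _) hj
    have h4 := (hK j).pos
    omega

theorem m_le (hK : ∀ i, Odd (K i)) (hE : ∑ i, K i = 2 * E) {i : ρ} {m : ℕ}
    (h : 2 * m + 2 < K i) : m + 2 ≤ E := by
  have h1 := K_le hK hE i
  have h2 := hK i
  obtain ⟨c, hc⟩ := h2
  omega

end

/-- one term -/
theorem leaf_term {ρ : Type} [Fintype ρ] {K : ρ → ℕ} {E : ℕ} (hK : ∀ i, Odd (K i))
    (hE : ∑ i, K i = 2 * E) {CL A D : ℝ} (hCL : 0 ≤ CL) (hA : 0 ≤ A)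
    (hD : 1 ≤ D) (hY : ∀ m, 1 ≤ m → Ypoly (leg m) ≤ CL * bE (m + 1)) (hev : Even E) (k : ℕ)
    {i : ρ} {m : ℕ} (h1 : 1 ≤ m) (h2 : 2 * m + 2 < K i) :
    (K i : ℝ) * (2 * Ypoly (leg m)) * BB A D K k E i m ≤
      (if m ∈ Finset.Icc 1 (E - 3) then
        (K i : ℝ) * (2 * CL * A * (D * c3 E) ^ k * 2 ^ E) *
        (((m.factorial * (E - m - 2).factorial : ℕ) : ℝ) *
          (if K i = 2 * m + 3 then D * c3 E else 1)) else 0) := by
  have hm := m_le hK hE h2
  unfold BB
  by_cases he : Even (E - (m + 1))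
  · rw [if_pos he]
    have h3 : m + 3 ≤ E := by
      obtain ⟨a, ha⟩ := he
      omega
    have hmem : m ∈ Finset.Icc 1 (E - 3) := by rw [Finset.mem_Icc]; omega
    rw [if_pos hmem]
    have hE' : E - (m + 1) ≤ E := Nat.sub_le _ _
    have hc0 := c3_nonneg E
    have hD0 : 0 ≤ D := by linarith
    have hc := c3_mono hE'
    have hc1 : 1 ≤ c3 (E - (m + 1)) := one_le_c3 (by omega)
    have hb : bE (m + 1) * bE (E - (m + 1)) =
        2 ^ E * ((m.factorial * (E - m - 2).factorial : ℕ) : ℝ) := by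
      unfold bE
      rw [Nat.add_sub_cancel, show E - (m + 1) - 1 = E - m - 2 by omega]
      push_cast
      have : (2 : ℝ) ^ E = 2 ^ (m + 1) * 2 ^ (E - (m + 1)) := by
        rw [← pow_add]; congr 1; omega
      rw [this]; ring
    have hpow : (D * c3 (E - (m + 1))) ^ (k + if K i = 2 * m + 3 then 1 else 0) ≤
        (D * c3 E) ^ k * (if K i = 2 * m + 3 then D * c3 E else 1) := by
      have hle : D * c3 (E - (m + 1)) ≤ D * c3 E := mul_le_mul_of_nonneg_left hc (by linarith)
      have h0 : 0 ≤ D * c3 (E - (m + 1)) := by nlinarith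
      split_ifs
      · rw [pow_succ]
        exact mul_le_mul (pow_le_pow_left₀ h0 hle k) hle h0 (by positivity)
      · rw [add_zero, mul_one]
        exact pow_le_pow_left₀ h0 hle k
    have hbp := bE_pos (E - (m + 1))
    have hbp2 := bE_pos (m + 1)
    have hKi : (0 : ℝ) ≤ (K i : ℝ) := Nat.cast_nonneg _
    have hP : 0 ≤ (D * c3 (E - (m + 1))) ^ (k + if K i = 2 * m + 3 then 1 else 0) := by
      have : 0 ≤ D * c3 (E - (m + 1)) := by nlinarith
      positivity
    calc (K i : ℝ) * (2 * Ypoly (leg m)) *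
          (A * (D * c3 (E - (m + 1))) ^ (k + if K i = 2 * m + 3 then 1 else 0)
            * bE (E - (m + 1)))
        ≤ (K i : ℝ) * (2 * (CL * bE (m + 1))) *
          (A * ((D * c3 E) ^ k * (if K i = 2 * m + 3 then D * c3 E else 1))
            * bE (E - (m + 1))) := by
          apply mul_le_mul
          · apply mul_le_mul_of_nonneg_left _ hKi
            have := hY m h1
            linarith
          · apply mul_le_mul_of_nonneg_right _ hbp.le
            exact mul_le_mul_of_nonneg_left hpow hA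
          · positivity
          · positivity
      _ = (K i : ℝ) * (2 * CL * A * (D * c3 E) ^ k) * (if K i = 2 * m + 3 then D * c3 E else 1) *
          (bE (m + 1) * bE (E - (m + 1))) := by ring
      _ = (K i : ℝ) * (2 * CL * A * (D * c3 E) ^ k * 2 ^ E) *
        (((m.factorial * (E - m - 2).factorial : ℕ) : ℝ) *
          (if K i = 2 * m + 3 then D * c3 E else 1)) := by
          rw [hb]; ring
  · rw [if_neg he, mul_zero]
    have hc0 : 0 ≤ c3 E := c3_nonneg E
    have hD0 : 0 ≤ D := by linarith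
    split_ifs <;> positivity

theorem leaf_le {ρ : Type} [Fintype ρ] {K : ρ → ℕ} {E : ℕ} (hK : ∀ i, Odd (K i))
    (hE : ∑ i, K i = 2 * E) {CL A D : ℝ} (hCL : 0 ≤ CL) (hA : 0 ≤ A)
    (hD : 1 ≤ D) (hY : ∀ m, 1 ≤ m → Ypoly (leg m) ≤ CL * bE (m + 1)) (hev : Even E) (k : ℕ) :
    leafSum K (BB A D K k E) ≤
      (60 * CL * D * (c3 E / E)) * (A * (D * c3 E) ^ k * bE E) := by
  have hc3 := c3_nonneg E
  have hbE := bE_pos E
  have hD0 : 0 ≤ D := by linarith
  rcases Nat.lt_or_ge E 4 with hE4 | hE4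
  · -- no leaves
    have h0 : leafSum K (BB A D K k E) = 0 := by
      unfold leafSum
      apply Finset.sum_eq_zero
      intro i _
      apply Finset.sum_eq_zero
      intro m hm
      exfalso
      rw [Finset.mem_filter] at hm
      have := K_le hK hE i
      obtain ⟨a, ha⟩ := hev
      omega
    rw [h0]
    positivity
  · have h1 : leafSum K (BB A D K k E) ≤ ∑ i : ρ, (K i : ℝ) *
        (2 * CL * A * (D * c3 E) ^ k * 2 ^ E) * ((4 + D * c3 E) * ((E - 3).factorial : ℝ)) := by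
      unfold leafSum
      apply Finset.sum_le_sum
      intro i _
      have hterm : ∀ m ∈ (Finset.range (K i)).filter (fun m => 1 ≤ m ∧ 2 * m + 2 < K i),
          (K i : ℝ) * (2 * Ypoly (leg m)) * BB A D K k E i m ≤
          (if m ∈ Finset.Icc 1 (E - 3) then
            (K i : ℝ) * (2 * CL * A * (D * c3 E) ^ k * 2 ^ E) *
            (((m.factorial * (E - m - 2).factorial : ℕ) : ℝ) *
              (if K i = 2 * m + 3 then D * c3 E else 1)) else 0) := by
        intro m hm
        rw [Finset.mem_filter] at hm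
        exact leaf_term hK hE hCL hA hD hY hev k hm.2.1 hm.2.2
      refine (Finset.sum_le_sum hterm).trans ?_
      rw [← Finset.sum_filter]
      have hnn : ∀ m, 0 ≤ (K i : ℝ) * (2 * CL * A * (D * c3 E) ^ k * 2 ^ E) *
            (((m.factorial * (E - m - 2).factorial : ℕ) : ℝ) *
              (if K i = 2 * m + 3 then D * c3 E else 1)) := by
        intro m
        have : 0 ≤ (if K i = 2 * m + 3 then D * c3 E else 1) := by
          split_ifs
          · positivity
          · norm_num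
        positivity
      refine (Finset.sum_le_sum_of_subset_of_nonneg (t := Finset.Icc 1 (E - 3)) ?_ ?_).trans ?_
      · intro m hm
        exact (Finset.mem_filter.1 hm).2
      · intro m _ _
        exact hnn m
      · rw [← Finset.mul_sum]
        apply mul_le_mul_of_nonneg_left
        · -- the sum over `m`
          have hpt : ∀ m ∈ Finset.Icc 1 (E - 3),
              (((m.factorial * (E - m - 2).factorial : ℕ) : ℝ) *
                (if K i = 2 * m + 3 then D * c3 E else 1)) ≤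
              ((m.factorial * (E - m - 2).factorial : ℕ) : ℝ) +
                (if m = (K i - 3) / 2 then D * c3 E * ((E - 3).factorial : ℝ) else 0) := by
            intro m hm
            rw [Finset.mem_Icc] at hm
            have h5 : ((m.factorial * (E - m - 2).factorial : ℕ) : ℝ) ≤ ((E - 3).factorial : ℝ) := by
              exact_mod_cast fac_a hm.1 (by omega)
            have h6 : (0 : ℝ) ≤ ((m.factorial * (E - m - 2).factorial : ℕ) : ℝ) := Nat.cast_nonneg _
            by_cases h7 : K i = 2 * m + 3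
            · rw [if_pos h7, if_pos (by omega)]
              have : 0 ≤ D * c3 E := by positivity
              nlinarith
            · rw [if_neg h7, mul_one]
              have : (0 : ℝ) ≤ (if m = (K i - 3) / 2 then D * c3 E * ((E - 3).factorial : ℝ) else 0) := by
                split_ifs
                · positivity
                · norm_num
              linarith
          refine (Finset.sum_le_sum hpt).trans ?_
          rw [Finset.sum_add_distrib, Finset.sum_ite_eq', ← Nat.cast_sum]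
          have h8 : ((∑ m ∈ Finset.Icc 1 (E - 3), m.factorial * (E - m - 2).factorial : ℕ) : ℝ)
              ≤ 4 * ((E - 3).factorial : ℝ) := by exact_mod_cast fac_sum hE4
          have h9 : (if (K i - 3) / 2 ∈ Finset.Icc 1 (E - 3) then
              D * c3 E * ((E - 3).factorial : ℝ) else 0) ≤ D * c3 E * ((E - 3).factorial : ℝ) := by
            split_ifs
            · exact le_refl _
            · positivity
          nlinarith
        · positivity
    refine h1.trans ?_
    rw [← Finset.sum_mul, ← Finset.sum_mul, ← Nat.cast_sum, hE]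
    -- numbers
    obtain ⟨n, hn⟩ : ∃ n, E = n + 4 := ⟨E - 4, by omega⟩
    have hfac : ((E - 1).factorial : ℝ) = ((E : ℝ) - 1) * ((E : ℝ) - 2) * ((E - 3).factorial : ℝ) := by
      rw [hn, show n + 4 - 1 = (n + 1) + 1 + 1 by omega, show n + 4 - 3 = n + 1 by omega,
        Nat.factorial_succ, Nat.factorial_succ]
      push_cast
      ring
    have hx : (4 : ℝ) ≤ (E : ℝ) := by exact_mod_cast hE4
    unfold bE
    rw [hfac]
    have hc1 : 1 ≤ c3 E := one_le_c3 (by omega)
    have hDc : 1 ≤ D * c3 E := by nlinarith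
    have hF : (0 : ℝ) < ((E - 3).factorial : ℝ) := by exact_mod_cast Nat.factorial_pos _
    have hxne : (E : ℝ) ≠ 0 := by linarith
    have hkey : 2 * (E : ℝ) * 2 * (4 + D * c3 E) ≤
        60 * (D * c3 E / E) * (((E : ℝ) - 1) * ((E : ℝ) - 2)) := by
      have h2 : 60 * (D * c3 E / E) * (((E : ℝ) - 1) * ((E : ℝ) - 2)) =
          60 * (D * c3 E) * ((((E : ℝ) - 1) * ((E : ℝ) - 2)) / E) := by ring
      rw [h2]
      have h3 : (3 / 8 : ℝ) * E ≤ (((E : ℝ) - 1) * ((E : ℝ) - 2)) / E := by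
        rw [le_div_iff₀ (by linarith)]
        nlinarith
      have h4 : 2 * (E : ℝ) * 2 * (4 + D * c3 E) ≤ 20 * (E : ℝ) * (D * c3 E) := by nlinarith
      have h5 : 60 * (D * c3 E) * ((3 / 8 : ℝ) * E) ≤
          60 * (D * c3 E) * ((((E : ℝ) - 1) * ((E : ℝ) - 2)) / E) :=
        mul_le_mul_of_nonneg_left h3 (by positivity)
      nlinarith
    have hG : 0 ≤ CL * A * (D * c3 E) ^ k * 2 ^ E * ((E - 3).factorial : ℝ) := by positivity
    calc ((2 * E : ℕ) : ℝ) * (2 * CL * A * (D * c3 E) ^ k * 2 ^ E) *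
          ((4 + D * c3 E) * ((E - 3).factorial : ℝ))
        = (2 * (E : ℝ) * 2 * (4 + D * c3 E)) *
          (CL * A * (D * c3 E) ^ k * 2 ^ E * ((E - 3).factorial : ℝ)) := by push_cast; ring
      _ ≤ (60 * (D * c3 E / E) * (((E : ℝ) - 1) * ((E : ℝ) - 2))) *
          (CL * A * (D * c3 E) ^ k * 2 ^ E * ((E - 3).factorial : ℝ)) :=
          mul_le_mul_of_nonneg_right hkey hG
      _ = 60 * CL * D * (c3 E / E) * (A * (D * c3 E) ^ k *
          (2 ^ E * (((E : ℝ) - 1) * ((E : ℝ) - 2) * ((E - 3).factorial : ℝ)))) := by ring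

end Pool.Agent.Helper29.MVN
end

/- Helper29.MVN.Ind -/
section
/-!
Project MV, block N: the induction for the upper bounds `UB`.
-/

namespace Pool.Agent.Helper29.MVN

open Finset Filter Topology Pool.Agent.Helper60.MV

section red

variable {ρ : Type} [Fintype ρ] {K : ρ → ℕ}

theorem red_self (i : ρ) (m : ℕ) : red K i m i = K i - (2 * m + 2) := by
  classical
  unfold red
  simp

theorem red_ne {i j : ρ} (h : j ≠ i) (m : ℕ) : red K i m j = K j := by
  classical
  unfold red
  simp [h]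

theorem red_odd (hK : ∀ i, Odd (K i)) {i : ρ} {m : ℕ} (h : 2 * m + 2 < K i) (j : ρ) :
    Odd (red K i m j) := by
  by_cases hj : j = i
  · subst hj
    rw [red_self]
    obtain ⟨a, ha⟩ := hK j
    exact ⟨a - (m + 1), by omega⟩
  · rw [red_ne hj]; exact hK j

theorem red_sum {E : ℕ} (hE : ∑ i, K i = 2 * E) {i : ρ} {m : ℕ} (h : 2 * m + 2 < K i) :
    ∑ j, red K i m j = 2 * (E - (m + 1)) := by
  classical
  have h1 : K i + ∑ j ∈ univ.erase i, K j = 2 * E := by
    rw [← hE, Finset.add_sum_erase _ _ (mem_univ i)]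
  have h2 : red K i m i + ∑ j ∈ univ.erase i, red K i m j = ∑ j, red K i m j :=
    Finset.add_sum_erase _ _ (mem_univ i)
  have h3 : ∑ j ∈ univ.erase i, red K i m j = ∑ j ∈ univ.erase i, K j :=
    Finset.sum_congr rfl (fun j hj => red_ne (Finset.ne_of_mem_erase hj) m)
  rw [← h2, h3, red_self]
  omega

theorem red_ones {i : ρ} {m : ℕ} (h : 2 * m + 2 < K i) :
    ones (red K i m) ≤ ones K + if K i = 2 * m + 3 then 1 else 0 := by
  classical
  unfold ones
  have hsub : (univ.filter (fun j => red K i m j = 1)) ⊆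
      (univ.filter (fun j => K j = 1)) ∪ (if K i = 2 * m + 3 then {i} else ∅) := by
    intro j hj
    rw [mem_filter] at hj
    rw [mem_union]
    by_cases hji : j = i
    · right
      subst hji
      rw [red_self] at hj
      have : K j = 2 * m + 3 := by omega
      rw [if_pos this]
      exact mem_singleton_self _
    · left
      rw [red_ne hji] at hj
      rw [mem_filter]
      exact hj
  refine (card_le_card hsub).trans ((card_union_le _ _).trans ?_)
  split_ifs <;> simp

end red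

/-- the induction statement -/
def PN (M : ℕ) (D : ℝ) (n : ℕ) (a : ℝ) : Prop :=
  ∀ (E : ℕ), 1 ≤ E → E ≤ n → ∀ (k : ℕ) {ρ : Type} [Fintype ρ] (K : ρ → ℕ),
    (∀ i, Odd (K i)) → ∑ i, K i = 2 * E → ones K ≤ M + k →
    UB K (a * (D * c3 E) ^ k * bE E)

theorem card_two {ρ : Type} [Fintype ρ] {K : ρ → ℕ} {E : ℕ} (hK : ∀ i, Odd (K i))
    (hE : ∑ i, K i = 2 * E) (hE1 : 1 ≤ E) : 2 ≤ Fintype.card ρ := by
  classical
  by_contra h
  have h1 : Fintype.card ρ = 0 ∨ Fintype.card ρ = 1 := by omega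
  rcases h1 with h1 | h1
  · haveI := Fintype.card_eq_zero_iff.1 h1
    rw [Finset.univ_eq_empty, Finset.sum_empty] at hE
    omega
  · obtain ⟨i, hi⟩ := Fintype.card_eq_one_iff.1 h1
    have h2 := K_le hK hE i
    have h3 : ∑ j, K j = K i := by
      rw [Finset.sum_eq_single i]
      · intro j _ hj; exact absurd (hi j) hj
      · intro h; exact absurd (mem_univ i) h
    omega

theorem PN_mono {M : ℕ} {D : ℝ} {n : ℕ} {a a' : ℝ} (hD : 0 ≤ D) (h : PN M D n a) (ha : a ≤ a') :
    PN M D n a' := by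
  intro E h1 h2 k ρ _ K hK hE ho
  refine UB_mono (h E h1 h2 k K hK hE ho) ?_
  have := c3_nonneg E
  have hb := bE_pos E
  apply mul_le_mul_of_nonneg_right _ hb.le
  apply mul_le_mul_of_nonneg_right ha
  positivity

/-- the family of hypotheses of the recursion -/
theorem red_UB (H : Hyp) {M : ℕ} {D a : ℝ} {n : ℕ} (h : PN M D n a) {E : ℕ} (hn : E ≤ n + 1) (hev : Even E)
    {k : ℕ} {ρ : Type} [Fintype ρ] {K : ρ → ℕ} (hK : ∀ i, Odd (K i)) (hE : ∑ i, K i = 2 * E)
    (ho : ones K ≤ M + k) : ∀ i m, 1 ≤ m → 2 * m + 2 < K i →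
      UB (red K i m) (BB a D K k E i m) := by
  intro i m h1 h2
  have h3 := m_le hK hE h2
  unfold BB
  by_cases he : Even (E - (m + 1))
  · rw [if_pos he]
    refine h (E - (m + 1)) (by omega) (by omega) _ (red K i m) (red_odd hK h2) (red_sum hE h2) ?_
    have := red_ones (K := K) (i := i) (m := m) h2
    omega
  · rw [if_neg he]
    exact H.UB_odd (red K i m) (red_odd hK h2) (E - (m + 1)) (red_sum hE h2)
      (Nat.not_even_iff_odd.1 he)

/-- one step -/
theorem PN_step (H : Hyp) {M : ℕ} {D C1 C2 CL : ℝ} (hD : 1 ≤ D) (hC1 : 0 ≤ C1) (hC2 : 0 ≤ C2)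
    (hCL : 0 ≤ CL)
    (hY : ∀ (k : ℕ) {ρ : Type} [Fintype ρ] (K : ρ → ℕ) (_ : ∀ i, Odd (K i)) (E : ℕ)
      (_ : ∑ i, K i = 2 * E) (_ : 1 ≤ E) (_ : ones K ≤ M + k),
      |Ypoly K| ≤ C1 * (D * c3 E) ^ k * bE E)
    (hA : ∀ {ρ : Type} [Fintype ρ] (K : ρ → ℕ) (_ : ∀ i, Odd (K i))
      (E : ℕ) (_ : ∑ i, K i = 2 * E) (_ : 1 ≤ E), AAc K ≤ C2 * bE E)
    (hL : ∀ m, 1 ≤ m → Ypoly (leg m) ≤ CL * bE (m + 1))
    {n : ℕ} {a : ℝ} (ha : 0 ≤ a) (h : PN M D n a) {E : ℕ} (hE1 : 1 ≤ E) (hn : E ≤ n + 1) (k : ℕ)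
    {ρ : Type} [Fintype ρ] (K : ρ → ℕ) (hK : ∀ i, Odd (K i)) (hE : ∑ i, K i = 2 * E)
    (ho : ones K ≤ M + k) :
    UB K ((C1 + C2 + 60 * CL * D * (c3 E / E) * a) * (D * c3 E) ^ k * bE E) := by
  have hc := c3_nonneg E
  have hc1 := one_le_c3 hE1
  have hb := bE_pos E
  have hD0 : 0 ≤ D := by linarith
  have hpow : (1 : ℝ) ≤ (D * c3 E) ^ k := one_le_pow₀ (by nlinarith)
  rcases Nat.even_or_odd E with hev | hodd
  · have h1 := H.C_rec K hK E hE (card_two hK hE hE1) (BB a D K k E)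
      (fun i m => BB_nonneg ha hD0 K k E i m) (red_UB H h hn hev hK hE ho)
    refine UB_mono h1 ?_
    have h2 := (le_abs_self _).trans (hY k K hK E hE hE1 ho)
    have h3 := hA K hK E hE hE1
    have h4 := leaf_le hK hE hCL ha hD hL hev k
    have h5 : C2 * bE E ≤ C2 * (D * c3 E) ^ k * bE E := by
      apply mul_le_mul_of_nonneg_right _ hb.le
      nlinarith
    calc Ypoly K + AAc K + leafSum K (BB a D K k E)
        ≤ C1 * (D * c3 E) ^ k * bE E + C2 * (D * c3 E) ^ k * bE E +
          (60 * CL * D * (c3 E / E)) * (a * (D * c3 E) ^ k * bE E) := by linarith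
      _ = (C1 + C2 + 60 * CL * D * (c3 E / E) * a) * (D * c3 E) ^ k * bE E := by ring
  · refine UB_mono (H.UB_odd K hK E hE hodd) ?_
    positivity

/-- N1 -/
theorem exists_PN (H : Hyp) (M : ℕ) : ∃ D a : ℝ, 1 ≤ D ∧ 0 < a ∧ ∀ n, PN M D n a := by
  obtain ⟨D, hD, hY⟩ := Ypoly_bd H M
  obtain ⟨C2, hC2, hA⟩ := AAc_bd' H
  obtain ⟨CL, hCL, hL'⟩ := Ypoly_bd H 2
  have hL : ∀ m, 1 ≤ m → Ypoly (leg m) ≤ CL * bE (m + 1) := by
    intro m hm
    have h1 := hL' 0 (leg m) (by
      intro b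
      cases b
      · exact ⟨0, rfl⟩
      · exact ⟨m, rfl⟩) (m + 1) (by
      rw [Fintype.sum_bool]
      show (2 * m + 1) + 1 = 2 * (m + 1)
      ring) (by omega) (by
      unfold ones
      exact (card_le_univ _).trans (by simp))
    rw [pow_zero, mul_one] at h1
    exact (le_abs_self _).trans h1
  have hD0 : 0 ≤ D := by linarith
  have hCL0 : 0 ≤ CL := by linarith
  -- crude bound for every `n`
  have hcrude : ∀ n, ∃ a, 0 < a ∧ PN M D n a := by
    intro n
    induction n with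
    | zero => exact ⟨1, one_pos, fun E h1 h2 => absurd h1 (by omega)⟩
    | succ n ih =>
      obtain ⟨a, ha, h⟩ := ih
      refine ⟨D + C2 + 60 * CL * D * a + a, by positivity, ?_⟩
      intro E h1 h2 k ρ _ K hK hE ho
      refine UB_mono (PN_step H hD hD0 hC2.le hCL0 hY hA hL ha.le h h1 h2 k K hK hE ho) ?_
      have hc := c3_nonneg E
      have hb := bE_pos E
      have hEr : (1 : ℝ) ≤ E := by exact_mod_cast h1
      have h3 : c3 E / E ≤ 1 := by
        rw [div_le_one (by linarith)]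
        unfold c3
        calc (E : ℝ) ^ (1 / 3 : ℝ) ≤ (E : ℝ) ^ (1 : ℝ) :=
              Real.rpow_le_rpow_of_exponent_le hEr (by norm_num)
          _ = E := Real.rpow_one _
      apply mul_le_mul_of_nonneg_right _ hb.le
      apply mul_le_mul_of_nonneg_right _ (by positivity)
      have h4 : 60 * CL * D * (c3 E / E) * a ≤ 60 * CL * D * 1 * a := by
        apply mul_le_mul_of_nonneg_right _ ha.le
        exact mul_le_mul_of_nonneg_left h3 (by positivity)
      linarith
  -- the factor of the leaf term is small for large `E`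
  have hlim : ∀ᶠ E : ℕ in atTop, 60 * CL * D * (c3 E / E) ≤ 1 / 2 := by
    have h1 : Tendsto (fun E : ℕ => 60 * CL * D * (c3 E / (E : ℝ))) atTop (𝓝 (60 * CL * D * 0)) :=
      c3_div_tendsto.const_mul _
    rw [mul_zero] at h1
    exact h1.eventually_le_const (by norm_num)
  obtain ⟨n1, hn1⟩ := Filter.eventually_atTop.1 hlim
  obtain ⟨a1, ha1, h1⟩ := hcrude n1
  refine ⟨D, max a1 (2 * (D + C2)), hD, by positivity, ?_⟩
  intro n
  induction n with
  | zero => exact fun E h1 h2 => absurd h1 (by omega)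
  | succ n ih =>
    intro E h2 h3 k ρ _ K hK hE ho
    rcases Nat.lt_or_ge E n1 with h4 | h4
    · exact PN_mono hD0 h1 (le_max_left _ _) E h2 h4.le k K hK hE ho
    · refine UB_mono (PN_step H hD hD0 hC2.le hCL0 hY hA hL (by positivity) ih h2 h3 k K hK hE ho) ?_
      have hc := c3_nonneg E
      have hb := bE_pos E
      apply mul_le_mul_of_nonneg_right _ hb.le
      apply mul_le_mul_of_nonneg_right _ (by positivity)
      have h5 := hn1 E h4
      have h6 : 0 ≤ max a1 (2 * (D + C2)) := by positivity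
      have h7 := mul_le_mul_of_nonneg_right h5 h6
      have h8 := le_max_right a1 (2 * (D + C2))
      linarith

end Pool.Agent.Helper29.MVN
end

/- Helper29.MVN.Fin -/
section
/-!
Project MV, block N: the asymptotics of the connected good volumes.
-/

namespace Pool.Agent.Helper29.MVN

open Finset Filter Topology Pool.Agent.Helper60.MV

/-- N3 -/
theorem blockN (H : Hyp) (M : ℕ) (δ : ℝ) (hδ : 0 < δ) : ∃ E₀ : ℕ, ∀ {ρ : Type} [Fintype ρ] (K : ρ → ℕ)
    (_ : ∀ i, Odd (K i)) (E : ℕ) (_ : ∑ i, K i = 2 * E) (_ : E₀ ≤ E) (_ : Even E)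
    (_ : ones K ≤ M), |Yconn K / (bE E / Real.pi) - 1| ≤ δ := by
  obtain ⟨D, a, hD, ha, hPN⟩ := exists_PN H M
  obtain ⟨CU, hCU, hU⟩ := H.blockU M
  obtain ⟨CA, hCA, hA⟩ := AAc_bd H
  obtain ⟨CD, hCD, hDi⟩ := disc_le H M
  obtain ⟨CL, hCL, hL'⟩ := Ypoly_bd H 2
  have hL : ∀ m, 1 ≤ m → Ypoly (leg m) ≤ CL * bE (m + 1) := by
    intro m hm
    have h1 := hL' 0 (leg m) (by
      intro b
      cases b
      · exact ⟨0, rfl⟩
      · exact ⟨m, rfl⟩) (m + 1) (by
      rw [Fintype.sum_bool]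
      show (2 * m + 1) + 1 = 2 * (m + 1)
      ring) (by omega) (by
      unfold ones
      exact (card_le_univ _).trans (by simp))
    rw [pow_zero, mul_one] at h1
    exact (le_abs_self _).trans h1
  have hD0 : 0 ≤ D := by linarith
  have hCL0 : 0 ≤ CL := by linarith
  have hpi := Real.pi_pos
  -- the error terms
  have hlim1 : Tendsto (fun E : ℕ => (E : ℝ) ^ (-(1 / 2) : ℝ)) atTop (𝓝 0) :=
    (tendsto_rpow_neg_atTop (by norm_num)).comp tendsto_natCast_atTop_atTop
  have hlim2 : Tendsto (fun E : ℕ => CD / ((E : ℝ) - 1)) atTop (𝓝 0) := by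
    have h1 : Tendsto (fun E : ℕ => (E : ℝ) - 1) atTop atTop :=
      tendsto_atTop_add_const_right _ (-1) tendsto_natCast_atTop_atTop
    exact h1.const_div_atTop CD
  have hlim : Tendsto (fun E : ℕ => Real.pi * (CU * (E : ℝ) ^ (-(1 / 2) : ℝ) +
      CD / ((E : ℝ) - 1) + CA * ((E : ℝ) * (19 / 20) ^ E) +
      60 * CL * D * a * (c3 E / (E : ℝ)))) atTop
      (𝓝 (Real.pi * (CU * 0 + 0 + CA * 0 + 60 * CL * D * a * 0))) :=
    ((((hlim1.const_mul CU).add hlim2).add (geo_tendsto.const_mul CA)).add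
      (c3_div_tendsto.const_mul _)).const_mul _
  have hz : Real.pi * (CU * 0 + 0 + CA * 0 + 60 * CL * D * a * 0) = 0 := by ring
  rw [hz] at hlim
  have hmain : Tendsto (fun E : ℕ => Real.pi * (mainE (2 * E) / bE (2 * E)) - 1) atTop (𝓝 0) := by
    have h1 := (H.mainE_even.const_mul Real.pi).sub_const 1
    have h2 : Real.pi * (1 / Real.pi) - 1 = 0 := by field_simp; ring
    rwa [h2] at h1
  obtain ⟨n1, hn1⟩ := Filter.eventually_atTop.1 (hlim.eventually_le_const (show (0 : ℝ) < δ / 2 by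
    linarith))
  obtain ⟨n2, hn2⟩ := Filter.eventually_atTop.1 ((hmain.abs).eventually_le_const
    (show |(0 : ℝ)| < δ / 2 by rw [abs_zero]; linarith))
  refine ⟨max (max n1 (2 * n2)) 30, ?_⟩
  intro ρ _ K hK E hE hE0 hev ho
  have hE1 : n1 ≤ E := (le_max_left _ _).trans ((le_max_left _ _).trans hE0)
  have hE2 : 2 * n2 ≤ E := (le_max_right _ _).trans ((le_max_left _ _).trans hE0)
  have h30 : 30 ≤ E := (le_max_right _ _).trans hE0
  have hb := bE_pos E
  have hc := card_two hK hE (by omega)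
  -- bounds
  have hlow := H.C_low K hK E hE hc (BB a D K 0 E)
      (fun i m => BB_nonneg ha.le hD0 K 0 E i m)
      (red_UB H (hPN E) (by omega) hev hK hE ho)
  have hup := H.C_up K hK E hE hc
  have hu := hU 0 K hK E hE (by omega) ho
  have hd := hDi K hK E hE h30 ho
  have haa := hA K hK E hE (by omega)
  have hl := leaf_le hK hE hCL0 ha.le hD hL hev 0
  rw [pow_zero, mul_one] at hl hu
  have hu' := abs_le.1 hu
  have hd' := abs_le.1 hd
  have h1 := hn1 E hE1
  obtain ⟨e, he⟩ := hev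
  have h2 := hn2 e (by omega)
  rw [show 2 * e = E by omega] at h2
  have h3 : Yconn K / (bE E / Real.pi) - 1 =
      (Real.pi * (mainE E / bE E) - 1) + Real.pi * ((Yconn K - mainE E) / bE E) := by
    field_simp
    ring
  have hEr : (30 : ℝ) ≤ E := by exact_mod_cast h30
  have hE1' : (0 : ℝ) < (E : ℝ) - 1 := by linarith
  have hc3 := c3_nonneg E
  have h4 : |Real.pi * ((Yconn K - mainE E) / bE E)| ≤ Real.pi * (CU * (E : ℝ) ^ (-(1 / 2) : ℝ) +
      CD / ((E : ℝ) - 1) + CA * ((E : ℝ) * (19 / 20) ^ E) +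
      60 * CL * D * a * (c3 E / (E : ℝ))) := by
    rw [abs_mul, abs_of_pos hpi, abs_div, abs_of_pos hb]
    apply mul_le_mul_of_nonneg_left _ hpi.le
    rw [div_le_iff₀ hb]
    have e1 : 0 ≤ CD / ((E : ℝ) - 1) * bE E := by positivity
    have e2 : 0 ≤ CA * ((E : ℝ) * (19 / 20) ^ E) * bE E := by positivity
    have e3 : 0 ≤ 60 * CL * D * a * (c3 E / (E : ℝ)) * bE E := by positivity
    have e4 : 60 * CL * D * (c3 E / E) * (a * bE E) =
      60 * CL * D * a * (c3 E / (E : ℝ)) * bE E := by ring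
    rw [e4] at hl
    have e5 : (CU * (E : ℝ) ^ (-(1 / 2) : ℝ) +
      CD / ((E : ℝ) - 1) + CA * ((E : ℝ) * (19 / 20) ^ E) +
      60 * CL * D * a * (c3 E / (E : ℝ))) * bE E = CU * (E : ℝ) ^ (-(1 / 2) : ℝ) * bE E +
      CD / ((E : ℝ) - 1) * bE E + CA * ((E : ℝ) * (19 / 20) ^ E) * bE E +
      60 * CL * D * a * (c3 E / (E : ℝ)) * bE E := by ring
    rw [e5, abs_le]
    constructor
    · linarith [hu'.1, hd'.2]
    · linarith [hu'.2]
  rw [h3]
  refine (abs_add_le _ _).trans ?_
  linarith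

end Pool.Agent.Helper29.MVN
end

/- Helper12.MVP.Coef -/
section
/-!
MV-P8. The coefficient of `∏_i X_i` (all exponents one).

Proofs. `∏_f X (lab f) = monomial (∑_f single (lab f) 1) 1`, and `∑_f single (lab f) 1 = ∑_i single i 1` iff every `i` has exactly one
preimage, i.e. `lab` is bijective (`coeff_prod_X`). `coeff_left`: sum over `lab` with the indicator of bijectivity, reindexed by
`F ≃ α` (`Equiv.ofBijective`). `coeff_right`: by linearity in `R` (`MvPolynomial.aeval` of `R = ∑_{m ∈ support} C (coeff m) ·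
∏_k X_k^{m_k}`; the value of the monomial `m` is `∏_{k ∈ m.toMultiset} (∑_i C (t i k) X_i)`, i.e. with `L = m.toMultiset.toList`
`∏_{j : Fin L.length} ∑_i C (t i (L.get j)) X_i = ∑_{lab : Fin L.length → α} (∏_j C (t (lab j) (L.get j))) ∏_j X (lab j)`
(`Finset.prod_univ_sum`, `Fintype.piFinset_univ`), and by `coeff_left` its coefficient is `perL t L`.
-/

namespace Pool.Agent.Helper12.MVP

open Finset Pool.Agent.Helper60.MV

theorem ones_iff {F α : Type} [Fintype F] [Fintype α] [DecidableEq α] (lab : F → α) :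
    (∑ i : α, Finsupp.single i 1 = ∑ f : F, Finsupp.single (lab f) (1 : ℕ)) ↔
      Function.Bijective lab := by
  classical
  have hL : ∀ a : α, (∑ i : α, Finsupp.single i (1:ℕ)) a = 1 := by
    intro a
    rw [Finsupp.finsetSum_apply]
    simp [Finsupp.single_apply]
  have hR : ∀ a : α, (∑ f : F, Finsupp.single (lab f) (1:ℕ)) a =
      (univ.filter (fun f => lab f = a)).card := by
    intro a
    rw [Finsupp.finsetSum_apply, Finset.card_filter]
    refine Finset.sum_congr rfl (fun f _ => ?_)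
    rw [Finsupp.single_apply]
  constructor
  · intro h
    have h1 : ∀ a : α, (univ.filter (fun f => lab f = a)).card = 1 := by
      intro a
      rw [← hR a, ← h, hL a]
    constructor
    · intro f g hfg
      have h2 := h1 (lab g)
      rw [Finset.card_eq_one] at h2
      obtain ⟨x, hx⟩ := h2
      have hf : f ∈ univ.filter (fun f => lab f = lab g) := by simp [hfg]
      have hg : g ∈ univ.filter (fun f => lab f = lab g) := by simp
      rw [hx, Finset.mem_singleton] at hf hg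
      rw [hf, hg]
    · intro a
      have h2 := h1 a
      rw [Finset.card_eq_one] at h2
      obtain ⟨x, hx⟩ := h2
      have hxm : x ∈ univ.filter (fun f => lab f = a) := by
        rw [hx]
        exact Finset.mem_singleton_self x
      exact ⟨x, (Finset.mem_filter.mp hxm).2⟩
  · intro h
    ext a
    rw [hL a, hR a]
    symm
    rw [Finset.card_eq_one]
    obtain ⟨x, hx⟩ := h.2 a
    refine ⟨x, ?_⟩
    ext y
    rw [Finset.mem_filter, Finset.mem_singleton]
    constructor
    · intro hy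
      exact h.1 (hy.2.trans hx.symm)
    · intro hy
      rw [hy]
      exact ⟨Finset.mem_univ _, hx⟩

theorem prod_X_eq {F α : Type} [Fintype F] (lab : F → α) :
    (∏ f, (MvPolynomial.X (lab f) : MvPolynomial α ℝ)) =
      MvPolynomial.monomial (∑ f : F, Finsupp.single (lab f) (1 : ℕ)) 1 := by
  classical
  have h : ∀ s : Finset F, (∏ f ∈ s, (MvPolynomial.X (lab f) : MvPolynomial α ℝ)) =
      MvPolynomial.monomial (∑ f ∈ s, Finsupp.single (lab f) (1 : ℕ)) 1 := by
    intro s
    induction s using Finset.induction_on with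
    | empty => simp
    | insert a s ha ih =>
      rw [Finset.prod_insert ha, Finset.sum_insert ha, ih, MvPolynomial.X,
        MvPolynomial.monomial_mul, one_mul]
  exact h univ

theorem coeff_prod_X {F α : Type} [Fintype F] [Fintype α] [DecidableEq α] (lab : F → α) :
    MvPolynomial.coeff (∑ i : α, Finsupp.single i 1)
      (∏ f, (MvPolynomial.X (lab f) : MvPolynomial α ℝ)) =
      (by classical exact if Function.Bijective lab then 1 else 0) := by
  classical
  rw [prod_X_eq, MvPolynomial.coeff_monomial]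
  by_cases h : Function.Bijective lab
  · rw [if_pos ((ones_iff lab).mpr h).symm, if_pos h]
  · rw [if_neg (fun h' => h ((ones_iff lab).mp h'.symm)), if_neg h]

theorem coeff_left {F α : Type} [Fintype F] [DecidableEq F] [Fintype α] [DecidableEq α]
    (a : (F → α) → ℝ) :
    MvPolynomial.coeff (∑ i : α, Finsupp.single i 1)
      (∑ lab : F → α, MvPolynomial.C (a lab) *
        ∏ f, (MvPolynomial.X (lab f) : MvPolynomial α ℝ)) = ∑ lab : F ≃ α, a lab := by
  classical
  rw [MvPolynomial.coeff_sum]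
  have h1 : ∀ lab : F → α, MvPolynomial.coeff (∑ i : α, Finsupp.single i 1)
      (MvPolynomial.C (a lab) * ∏ f, (MvPolynomial.X (lab f) : MvPolynomial α ℝ)) =
      if Function.Bijective lab then a lab else 0 := by
    intro lab
    rw [MvPolynomial.coeff_C_mul, coeff_prod_X]
    split_ifs <;> simp
  simp only [h1]
  rw [← Finset.sum_filter]
  symm
  refine Finset.sum_bij (fun (e : F ≃ α) _ => (e : F → α)) ?_ ?_ ?_ ?_
  · intro e _
    rw [Finset.mem_filter]
    exact ⟨Finset.mem_univ _, e.bijective⟩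
  · intro e _ e' _ h
    exact Equiv.coe_fn_injective h
  · intro lab hlab
    rw [Finset.mem_filter] at hlab
    exact ⟨Equiv.ofBijective lab hlab.2, Finset.mem_univ _, rfl⟩
  · intro e _
    rfl

theorem coeff_list {α : Type} [Fintype α] [DecidableEq α] (t : α → ℕ → ℝ) (L : List ℕ) :
    MvPolynomial.coeff (∑ i : α, Finsupp.single i 1)
      ((L.map (fun k : ℕ => ∑ i : α, MvPolynomial.C (t i k) *
        (MvPolynomial.X i : MvPolynomial α ℝ))).prod) = perL t L := by
  have h1 : (L.map (fun k : ℕ => ∑ i : α, MvPolynomial.C (t i k) *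
        (MvPolynomial.X i : MvPolynomial α ℝ))).prod =
      ∏ j : Fin L.length, ∑ i : α, MvPolynomial.C (t i (L.get j)) *
        (MvPolynomial.X i : MvPolynomial α ℝ) := by
    rw [← List.prod_ofFn]
    congr 1
    apply List.ext_get
    · simp
    · intro n h1 h2
      simp
  rw [h1, Finset.prod_univ_sum]
  have h2 : ∀ lab ∈ Fintype.piFinset (fun _ : Fin L.length => (univ : Finset α)),
      ∏ j : Fin L.length, (MvPolynomial.C (t (lab j) (L.get j)) *
        (MvPolynomial.X (lab j) : MvPolynomial α ℝ)) =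
      MvPolynomial.C (∏ j, t (lab j) (L.get j)) *
        ∏ j, (MvPolynomial.X (lab j) : MvPolynomial α ℝ) := by
    intro lab _
    rw [Finset.prod_mul_distrib, map_prod]
  rw [Finset.sum_congr rfl h2, Fintype.piFinset_univ,
    coeff_left (fun lab : Fin L.length → α => ∏ j, t (lab j) (L.get j))]
  rfl

theorem coeff_right {α : Type} [Fintype α] [DecidableEq α] (t : α → ℕ → ℝ)
    (R : MvPolynomial ℕ ℝ) :
    MvPolynomial.coeff (∑ i : α, Finsupp.single i 1)
      (MvPolynomial.aeval (fun k : ℕ => ∑ i : α, MvPolynomial.C (t i k) *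
        (MvPolynomial.X i : MvPolynomial α ℝ)) R) = perR t R := by
  rw [MvPolynomial.aeval_def, MvPolynomial.eval₂_eq, MvPolynomial.coeff_sum]
  unfold perR
  refine Finset.sum_congr rfl (fun m _ => ?_)
  rw [show (algebraMap ℝ (MvPolynomial α ℝ)) (MvPolynomial.coeff m R) =
    MvPolynomial.C (MvPolynomial.coeff m R) from rfl, MvPolynomial.coeff_C_mul]
  congr 1
  rw [← coeff_list]
  congr 1
  rw [← Multiset.prod_coe, ← Multiset.map_coe, Multiset.coe_toList, Finsupp.toMultiset_map,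
    Finsupp.prod_toMultiset, Finsupp.prod_mapDomain_index (fun _ => pow_zero _)
      (fun _ _ _ => pow_add _ _ _)]
  rfl

end Pool.Agent.Helper12.MVP
end

/- Helper12.MVP.Bound -/
section
/-!
MV-P2. The functional `JM` is multilinear and bounded on the class `Gc c` (`c > 0`, all column sums of `M` equal to 2).

Proofs. `sum_row`: `∑_f row M f x = ∑_e (∑_f M f e) x_e = 2 ∑ x_e`. On the orthant `row M f x ≥ 0`, so with
`|g_f p| ≤ N_f e^{-c p}` (`p ≥ 0`; `N_f ≥ 0` by `p = 0`): `|∏_f g_f (row M f x)| ≤ ∏ N_f · e^{-2c ∑ x_e}`, integrable with integral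
`∏ N_f (1/(2c))^{|ι|}` (`exp_orthant_integrable`, `exp_orthant_integral` with `b_e = 2c`). The integrand is continuous, hence
measurable (`row M f` is continuous). `JM_add`: `∏_f` splits in the factor `i` (`Finset.prod_update_of_mem`), the function
`update g i u` is again in the class, `integral_add`. `JM_smul`: `integral_const_mul` (no integrability needed).
-/

namespace Pool.Agent.Helper12.MVP

open Finset MeasureTheory Filter Topology Pool.Agent.Helper60.MV

theorem row_continuous {φ ι : Type} [Fintype ι] (M : φ → ι → ℕ) (f : φ) :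
    Continuous (row M f) := by
  unfold row
  fun_prop

theorem row_nonneg {φ ι : Type} [Fintype ι] (M : φ → ι → ℕ) (f : φ) (x : ι → ℝ)
    (hx : ∀ e, 0 ≤ x e) : 0 ≤ row M f x := by
  unfold row
  exact Finset.sum_nonneg fun e _ => mul_nonneg (Nat.cast_nonneg _) (hx e)

theorem sum_row {φ ι : Type} [Fintype φ] [Fintype ι] (M : φ → ι → ℕ)
    (hM : ∀ e, ∑ f, M f e = 2) (x : ι → ℝ) : ∑ f, row M f x = 2 * ∑ e, x e := by
  unfold row
  rw [Finset.sum_comm, Finset.mul_sum]
  apply Finset.sum_congr rfl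
  intro e _
  rw [← Finset.sum_mul]
  congr 1
  have := hM e
  exact_mod_cast this

private theorem orthant_meas (ι : Type) [Fintype ι] :
    MeasurableSet {x : ι → ℝ | ∀ e, 0 < x e} := by
  have : {x : ι → ℝ | ∀ e, 0 < x e} = Set.pi Set.univ (fun _ => Set.Ioi (0:ℝ)) := by
    ext x
    simp
  rw [this]
  exact MeasurableSet.univ_pi fun _ => measurableSet_Ioi

private theorem prod_le {φ ι : Type} [Fintype φ] [Fintype ι] (M : φ → ι → ℕ)
    (hM : ∀ e, ∑ f, M f e = 2) (c : ℝ) (g : φ → ℝ → ℝ)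
    (N : φ → ℝ) (hN : ∀ f p, 0 ≤ p → |g f p| ≤ N f * Real.exp (-(c * p)))
    (x : ι → ℝ) (hx : ∀ e, 0 < x e) :
    ‖∏ f, g f (row M f x)‖ ≤ (∏ f, N f) * Real.exp (-(∑ e, (2 * c) * x e)) := by
  rw [Real.norm_eq_abs, Finset.abs_prod]
  calc ∏ f, |g f (row M f x)| ≤ ∏ f, (N f * Real.exp (-(c * row M f x))) := by
        apply Finset.prod_le_prod
        · intro f _
          exact abs_nonneg _
        · intro f _
          exact hN f _ (row_nonneg M f x fun e => (hx e).le)
    _ = (∏ f, N f) * Real.exp (-(∑ e, (2 * c) * x e)) := by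
        rw [Finset.prod_mul_distrib, ← Real.exp_sum]
        congr 2
        rw [Finset.sum_neg_distrib, ← Finset.mul_sum, sum_row M hM x, ← Finset.mul_sum]
        ring

private theorem prod_cont {φ ι : Type} [Fintype φ] [Fintype ι] (M : φ → ι → ℕ)
    (g : φ → ℝ → ℝ) (hg : ∀ f, Continuous (g f)) :
    Continuous (fun x : ι → ℝ => ∏ f, g f (row M f x)) := by
  apply continuous_finsetProd
  intro f _
  exact (hg f).comp (row_continuous M f)

theorem JM_integrable {φ ι : Type} [Fintype φ] [Fintype ι] (M : φ → ι → ℕ)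
    (hM : ∀ e, ∑ f, M f e = 2) (c : ℝ) (hc : 0 < c) (g : φ → ℝ → ℝ) (hg : ∀ f, Gc c (g f)) :
    IntegrableOn (fun x : ι → ℝ => ∏ f, g f (row M f x)) {x : ι → ℝ | ∀ e, 0 < x e} := by
  choose N hN using fun f => (hg f).bd
  have h1 := (exp_orthant_integrable (fun _ : ι => 2 * c) (fun _ => by positivity)).const_mul
    (∏ f, N f)
  refine Integrable.mono' h1 ?_ ?_
  · exact (prod_cont M g fun f => (hg f).cont).aestronglyMeasurable
  · rw [ae_restrict_iff' (orthant_meas ι)]
    exact Filter.Eventually.of_forall fun x hx => prod_le M hM c g N hN x hx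

theorem JM_bound {φ ι : Type} [Fintype φ] [Fintype ι] (M : φ → ι → ℕ)
    (hM : ∀ e, ∑ f, M f e = 2) (c : ℝ) (hc : 0 < c) (g : φ → ℝ → ℝ) (hg : ∀ f, Gc c (g f))
    (N : φ → ℝ) (hN : ∀ f p, 0 ≤ p → |g f p| ≤ N f * Real.exp (-(c * p))) :
    |JM M g| ≤ (1 / (2 * c)) ^ (Fintype.card ι) * ∏ f, N f := by
  have h1 := (exp_orthant_integrable (fun _ : ι => 2 * c) (fun _ => by positivity)).const_mul
    (∏ f, N f)
  have h2 : ‖JM M g‖ ≤ ∫ x in {x : ι → ℝ | ∀ e, 0 < x e},
      (∏ f, N f) * Real.exp (-(∑ e, (2 * c) * x e)) := by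
    apply norm_integral_le_of_norm_le h1
    rw [ae_restrict_iff' (orthant_meas ι)]
    exact Filter.Eventually.of_forall fun x hx => prod_le M hM c g N hN x hx
  rw [integral_const_mul, exp_orthant_integral (fun _ : ι => 2 * c) (fun _ => by positivity),
    Finset.prod_const, Finset.card_univ, mul_comm] at h2
  exact h2

theorem JM_add {φ ι : Type} [Fintype φ] [DecidableEq φ] [Fintype ι] (M : φ → ι → ℕ)
    (hM : ∀ e, ∑ f, M f e = 2) (c : ℝ) (hc : 0 < c) (g : φ → ℝ → ℝ) (hg : ∀ f, Gc c (g f))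
    (i : φ) (u v : ℝ → ℝ) (hu : Gc c u) (hv : Gc c v) :
    JM M (Function.update g i (u + v)) =
      JM M (Function.update g i u) + JM M (Function.update g i v) := by
  have hupd : ∀ w : ℝ → ℝ, Gc c w → ∀ f, Gc c (Function.update g i w f) := by
    intro w hw f
    by_cases h : f = i
    · rw [h, Function.update_self]
      exact hw
    · rw [Function.update_of_ne h]
      exact hg f
  have hsplit : ∀ (w : ℝ → ℝ) (x : ι → ℝ), ∏ f, Function.update g i w f (row M f x) =
      w (row M i x) * ∏ f ∈ univ.erase i, g f (row M f x) := by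
    intro w x
    rw [← Finset.mul_prod_erase univ _ (Finset.mem_univ i), Function.update_self]
    congr 1
    apply Finset.prod_congr rfl
    intro f hf
    rw [Function.update_of_ne (Finset.ne_of_mem_erase hf)]
  unfold JM
  rw [← integral_add (JM_integrable M hM c hc _ (hupd u hu))
    (JM_integrable M hM c hc _ (hupd v hv))]
  congr 1
  funext x
  rw [hsplit, hsplit, hsplit, Pi.add_apply]
  ring

theorem JM_smul {φ ι : Type} [Fintype φ] [DecidableEq φ] [Fintype ι] (M : φ → ι → ℕ)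
    (g : φ → ℝ → ℝ) (i : φ) (a : ℝ) (u : ℝ → ℝ) :
    JM M (Function.update g i (a • u)) = a * JM M (Function.update g i u) := by
  have hsplit : ∀ (w : ℝ → ℝ) (x : ι → ℝ), ∏ f, Function.update g i w f (row M f x) =
      w (row M i x) * ∏ f ∈ univ.erase i, g f (row M f x) := by
    intro w x
    rw [← Finset.mul_prod_erase univ _ (Finset.mem_univ i), Function.update_self]
    congr 1
    apply Finset.prod_congr rfl
    intro f hf
    rw [Function.update_of_ne (Finset.ne_of_mem_erase hf)]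
  unfold JM
  rw [← integral_const_mul]
  congr 1
  funext x
  rw [hsplit, hsplit, Pi.smul_apply, smul_eq_mul]
  ring

end Pool.Agent.Helper12.MVP
end

/- Helper62.MVC2.MinorEx -/
section
/-!
MV-C2-4a. Existence of an invertible minor.

Proof. The columns `(B · e)`, `e ∈ s`, span `κ → ℝ` (their span `V` is everything, otherwise a nonzero linear form
`∑ lam_c v_c` vanishes on `V`: `Submodule.exists_dual_forall_apply_eq_zero_iff`/`Submodule.exists_le_ker_of_lt_top`), so some of
them form a basis (`exists_linearIndependent`/`exists_linearIndependent'`), which has `|κ|` elements; enumerate it by `κ`;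
linear independence gives `det ≠ 0` (`Matrix.linearIndependent_cols_iff_isUnit` or so).
-/

namespace Pool.Agent.Helper62.MVC2

open Finset

theorem exists_minor {ι κ : Type} [Fintype ι] [Fintype κ] [DecidableEq κ] (B : κ → ι → ℝ)
    (s : Set ι) (h : ∀ lam : κ → ℝ, (∀ e ∈ s, ∑ c, lam c * B c e = 0) → lam = 0) :
    ∃ J : κ → ι, Function.Injective J ∧ (∀ c, J c ∈ s) ∧
      (Matrix.of fun c c' : κ => B c (J c')).det ≠ 0 := by
  classical
  let v : s → (κ → ℝ) := fun e c => B c e.1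
  have hspan : Submodule.span ℝ (Set.range v) = ⊤ := by
    by_contra hne
    obtain ⟨f, hf, hle⟩ := Submodule.exists_le_ker_of_lt_top _ (lt_top_iff_ne_top.2 hne)
    have h1 : ∀ x : κ → ℝ, f x = ∑ c, x c * f (Pi.single c 1) := by
      intro x
      conv_lhs => rw [← Finset.univ_sum_single x, map_sum]
      refine Finset.sum_congr rfl fun c _ => ?_
      have h2 : (Pi.single c (x c) : κ → ℝ) = x c • Pi.single c 1 := by
        rw [← Pi.single_smul]
        simp
      rw [h2, map_smul, smul_eq_mul]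
    have h3 := h (fun c => f (Pi.single c 1)) (fun e he => by
      have h4 : f (v ⟨e, he⟩) = 0 :=
        hle (Submodule.subset_span ⟨⟨e, he⟩, rfl⟩)
      rw [h1] at h4
      rw [← h4]
      exact Finset.sum_congr rfl fun c _ => mul_comm _ _)
    apply hf
    ext c
    simpa using congrFun h3 c
  obtain ⟨κ', a, ha, hs, hli⟩ := exists_linearIndependent' ℝ v
  rw [hspan] at hs
  let b : Module.Basis κ' ℝ (κ → ℝ) := Module.Basis.mk hli hs.ge
  let eq : κ ≃ κ' := (Pi.basisFun ℝ κ).indexEquiv b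
  refine ⟨fun c => (a (eq c)).1, ?_, fun c => (a (eq c)).2, ?_⟩
  · intro c c' hcc
    exact eq.injective (ha (Subtype.ext hcc))
  · have h5 : LinearIndependent ℝ (fun c : κ => v (a (eq c))) := hli.comp eq eq.injective
    have h6 : LinearIndependent ℝ (Matrix.of fun c c' : κ => B c' (a (eq c)).1).row := h5
    rw [Matrix.linearIndependent_rows_iff_isUnit, Matrix.isUnit_iff_isUnit_det] at h6
    rw [← Matrix.det_transpose]
    exact h6.ne_zero

end Pool.Agent.Helper62.MVC2
end
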