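import Mathlib
import Pool.Agent.Helper71.MVN.Def
import Pool.Agent.Helper16.LGG.G01
import Pool.Agent.Helper16.LGG.G04

/- Helper71.MVN.Count -/
section
/-!
Project MV, block N4: the count of labelled square-tiled surfaces and the count `cL` with marked
corners.
-/

namespace Pool.Agent.Helper71.MVN

open Filter Topology Pool.Agent.Helper60.MV

theorem orb_eq {X : Type} (v : Equiv.Perm X) (x : X) :
    orb v x = MulAction.orbit (Subgroup.zpowers v) x := by
  ext y
  constructor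
  · rintro ⟨i, hi⟩
    exact ⟨⟨v ^ i, i, rfl⟩, hi⟩
  · rintro ⟨⟨_, i, rfl⟩, hi⟩
    exact ⟨i, hi⟩

theorem mem_orb_self {X : Type} (v : Equiv.Perm X) (x : X) : x ∈ orb v x :=
  Equiv.Perm.SameCycle.refl v x

theorem orb_eq_of_mem {X : Type} {v : Equiv.Perm X} {x y : X} (h : y ∈ orb v x) :
    orb v y = orb v x := by
  ext z
  exact ⟨fun hz => Equiv.Perm.SameCycle.trans h hz,
    fun hz => Equiv.Perm.SameCycle.trans (Equiv.Perm.SameCycle.symm h) hz⟩

theorem orb_ncard {X : Type} [Finite X] (v : Equiv.Perm X) (x : X) :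
    (orb v x).ncard = Function.minimalPeriod v x := by
  classical
  have := Fintype.ofFinite X
  rw [orb_eq]
  have h := MulAction.minimalPeriod_eq_card (a := v) (b := x)
  rw [← Nat.card_eq_fintype_card] at h
  rw [← Nat.card_coe_set_eq, ← h]
  rfl

/-- marked surfaces correspond to labelled surfaces with a marked corner at each singularity -/
theorem isSurf_iff {X ρ : Type} [Finite X] (K : ρ → ℕ) (a r b : Equiv.Perm X) (x : ρ → X) :
    IsSurf K a r b x ↔ IsSquareTiled K a r b (fun i => orb (a * r * b) (x i)) := by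
  constructor
  · intro h
    refine ⟨fun y => ⟨h.ha.invol y, h.hι.invol y, h.hb.invol y⟩,
      fun y => ⟨h.ha.fpf y, h.hι.fpf y, h.hb.fpf y⟩, h.conn, fun i => ⟨x i, rfl⟩,
      fun i => by rw [orb_ncard, h.mark], ?_, ?_⟩
    · intro i j hij
      by_contra hne
      apply h.dist i j hne
      have : x j ∈ orb (a * r * b) (x i) := by
        simp only at hij
        rw [hij]; exact mem_orb_self _ _
      exact this
    · intro y hy
      rw [orb_ncard]
      exact h.rest y (fun i hi => hy i hi)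
  · intro h
    refine ⟨⟨fun y => (h.invol y).1, fun y => (h.free y).1⟩,
      ⟨fun y => (h.invol y).2.1, fun y => (h.free y).2.1⟩,
      ⟨fun y => (h.invol y).2.2, fun y => (h.free y).2.2⟩, h.connected, ?_, ?_, ?_⟩
    · intro i
      rw [← orb_ncard]
      exact h.angle i
    · intro i j hne hs
      apply hne
      apply h.labels
      exact (orb_eq_of_mem (show x j ∈ orb (a * r * b) (x i) from hs)).symm
    · intro y hy
      rw [← orb_ncard]
      exact h.flat y (fun i hi => hy i hi)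

theorem orb_corner {X ρ : Type} {K : ρ → ℕ} {a r b : Equiv.Perm X} {c : ρ → Set X}
    (h : IsSquareTiled K a r b c) (x : (i : ρ) → c i) :
    (fun i => orb (a * r * b) ((x i).1)) = c := by
  funext i
  obtain ⟨y, hy⟩ := h.vertex i
  have h2 : ((x i).1) ∈ orb (a * r * b) y := hy ▸ (x i).2
  exact (orb_eq_of_mem h2).trans hy.symm

/-- the choice of marked corners -/
noncomputable def surfEquiv {X ρ : Type} [Finite X] (K : ρ → ℕ) :
    {q : (Equiv.Perm X × Equiv.Perm X × Equiv.Perm X) × (ρ → X) //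
      IsSurf K q.1.1 q.1.2.1 q.1.2.2 q.2} ≃
    Σ q : {q : Equiv.Perm X × Equiv.Perm X × Equiv.Perm X × (ρ → Set X) //
      IsSquareTiled K q.1 q.2.1 q.2.2.1 q.2.2.2}, ((i : ρ) → q.1.2.2.2 i) where
  toFun q := ⟨⟨(q.1.1.1, q.1.1.2.1, q.1.1.2.2,
      fun i => orb (q.1.1.1 * q.1.1.2.1 * q.1.1.2.2) (q.1.2 i)), (isSurf_iff K _ _ _ _).1 q.2⟩,
    fun i => ⟨q.1.2 i, mem_orb_self _ _⟩⟩
  invFun z := ⟨((z.1.1.1, z.1.1.2.1, z.1.1.2.2.1), fun i => (z.2 i).1), by
    rw [isSurf_iff]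
    have hz := z.1.2
    have := orb_corner hz z.2
    simp only at this ⊢
    rw [this]
    exact hz⟩
  left_inv := by
    rintro ⟨⟨⟨a, r, b⟩, x⟩, h⟩
    rfl
  right_inv := by
    rintro ⟨⟨⟨a, r, b, c⟩, h⟩, x⟩
    have hc : (fun i => orb (a * r * b) ((x i).1)) = c := orb_corner h x
    apply Sigma.ext
    · apply Subtype.ext
      simp only [Prod.mk.injEq, true_and]
      exact hc
    · apply Function.hfunext rfl
      intro i j hij
      cases hij
      have h2 : orb (a * r * b) ((x i).1) = c i := congrFun hc i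
      exact (Subtype.heq_iff_coe_eq (fun y => by
        show y ∈ orb (a * r * b) ((x i).1) ↔ y ∈ c i
        rw [h2])).2 rfl

theorem cL_eq_count {ρ : Type} [Fintype ρ] (K : ρ → ℕ) (L : ℕ) :
    cL K L = (∏ i, (K i : ℝ)) * count K L := by
  classical
  unfold cL count
  rw [← mul_div_assoc]
  congr 1
  rw [Nat.card_congr (surfEquiv (X := Fin (2 * L)) K)]
  have : Finite {q : Equiv.Perm (Fin (2 * L)) × Equiv.Perm (Fin (2 * L)) ×
    Equiv.Perm (Fin (2 * L)) × (ρ → Set (Fin (2 * L))) //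
      IsSquareTiled K q.1 q.2.1 q.2.2.1 q.2.2.2} := inferInstance
  have := Fintype.ofFinite {q : Equiv.Perm (Fin (2 * L)) × Equiv.Perm (Fin (2 * L)) ×
    Equiv.Perm (Fin (2 * L)) × (ρ → Set (Fin (2 * L))) //
      IsSquareTiled K q.1 q.2.1 q.2.2.1 q.2.2.2}
  rw [Nat.card_sigma]
  have hpi : ∀ q : {q : Equiv.Perm (Fin (2 * L)) × Equiv.Perm (Fin (2 * L)) ×
    Equiv.Perm (Fin (2 * L)) × (ρ → Set (Fin (2 * L))) //
      IsSquareTiled K q.1 q.2.1 q.2.2.1 q.2.2.2},
      Nat.card ((i : ρ) → q.1.2.2.2 i) = ∏ i, K i := by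
    intro q
    rw [Nat.card_pi]
    apply Finset.prod_congr rfl
    intro i _
    rw [Nat.card_coe_set_eq]
    exact q.2.angle i
  rw [Finset.sum_congr rfl (fun q _ => hpi q)]
  rw [Finset.sum_const, Finset.card_univ, ← Nat.card_eq_fintype_card, smul_eq_mul]
  push_cast
  ring

end Pool.Agent.Helper71.MVN
end

/- Helper71.MVN.Final -/
section
/-!
Project MV, block N4: the final theorem from blockB and blockN.
-/

namespace Pool.Agent.Helper71.MVN

open Filter Topology Pool.Agent.Helper60.MV Finset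

/-- statement of blockB -/
def BlockB : Prop := ∀ {ρ : Type} [Fintype ρ] [Nonempty ρ] (K : ρ → ℕ) (_ : ∀ i, Odd (K i)) (E : ℕ)
    (_ : ∑ i, K i = 2 * E),
    Tendsto (fun N : ℕ => (∑ L ∈ range (2 * N + 1), cL K L) / (N : ℝ) ^ E) atTop
      (𝓝 (2 ^ E * (2 * Yconn K) / (E.factorial : ℝ)))

/-- statement of blockN -/
def BlockN : Prop := ∀ (M : ℕ) (δ : ℝ) (_ : 0 < δ), ∃ E₀ : ℕ, ∀ {ρ : Type} [Fintype ρ] (K : ρ → ℕ)
    (_ : ∀ i, Odd (K i)) (E : ℕ) (_ : ∑ i, K i = 2 * E) (_ : E₀ ≤ E) (_ : Even E)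
    (_ : ones K ≤ M), |Yconn K / (bE E / Real.pi) - 1| ≤ δ

theorem sum_angles {n : ℕ} (k : Fin n → ℕ) (p : ℕ) :
    ∑ i, angles k p i = ∑ i, k i + 2 * n + p := by
  rw [Fintype.sum_sum_type]
  simp only [angles, Sum.elim_inl, Sum.elim_inr, sum_add_distrib, sum_const, card_univ,
    Fintype.card_fin, smul_eq_mul]
  ring

theorem prod_angles {n : ℕ} (k : Fin n → ℕ) (p : ℕ) :
    ∏ i, (angles k p i : ℝ) = ∏ i, ((k i : ℝ) + 2) := by
  rw [Fintype.prod_sum_type]
  simp only [angles, Sum.elim_inl, Sum.elim_inr, Nat.cast_add, Nat.cast_ofNat, Nat.cast_one,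
    prod_const_one, mul_one]

theorem odd_angles {n : ℕ} (k : Fin n → ℕ) (p : ℕ) (hk : ∀ i, Odd (k i)) (i : Fin n ⊕ Fin p) :
    Odd (angles k p i) := by
  rcases i with i | i
  · obtain ⟨m, hm⟩ := hk i
    exact ⟨m + 1, by simp only [angles, Sum.elim_inl]; omega⟩
  · exact ⟨0, by simp [angles]⟩

theorem ones_angles {n : ℕ} (k : Fin n → ℕ) (p : ℕ) :
    ones (angles k p) ≤ p := by
  classical
  unfold ones
  have : (univ.filter (fun i => angles k p i = 1)) ⊆ univ.image (Sum.inr : Fin p → Fin n ⊕ Fin p) := by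
    intro i hi
    rw [mem_filter] at hi
    rcases i with i | i
    · exfalso
      have := hi.2
      simp only [angles, Sum.elim_inl] at this
      omega
    · exact mem_image_of_mem _ (mem_univ _)
  refine (card_le_card this).trans (card_image_le.trans ?_)
  rw [card_univ, Fintype.card_fin]

theorem parity {n : ℕ} (k : Fin n → ℕ) (hk : ∀ i, Odd (k i)) : (∑ i, k i) % 2 = n % 2 := by
  have h : ∀ i, k i % 2 = 1 := fun i => Nat.odd_iff.1 (hk i)
  rw [sum_nat_mod, sum_congr rfl (fun i _ => h i)]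
  simp

/-- the dimension -/
theorem dim_eq {g n p : ℕ} (k : Fin n → ℕ) (hs : ∑ i, k i + 4 = 4 * g + p) :
    ∑ i, angles k p i = 2 * (2 * g + n + p - 2) := by
  rw [sum_angles]
  omega

theorem dim_even {g n p : ℕ} (k : Fin n → ℕ) (hk : ∀ i, Odd (k i))
    (hs : ∑ i, k i + 4 = 4 * g + p) : Even (2 * g + n + p - 2) := by
  have h1 := parity k hk
  have h2 := sum_angles k p
  rw [Nat.even_iff]
  omega

/-- the limit of the counting function -/
theorem volN_tendsto (hB : BlockB) {g n p : ℕ} (k : Fin n → ℕ) (hk : ∀ i, Odd (k i))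
    (hs : ∑ i, k i + 4 = 4 * g + p) (hn : 1 ≤ n + p) :
    Tendsto (fun N : ℕ => volN g k p N) atTop
      (𝓝 (2 * ((2 * g + n + p - 2 : ℕ) : ℝ) * (2 ^ (2 * g + n + p - 2) *
        (2 * Yconn (angles k p)) / ((2 * g + n + p - 2).factorial : ℝ)) /
          ∏ i, ((k i : ℝ) + 2))) := by
  have : Nonempty (Fin n ⊕ Fin p) := by
    rcases Nat.eq_zero_or_pos n with h | h
    · exact ⟨Sum.inr ⟨0, by omega⟩⟩
    · exact ⟨Sum.inl ⟨0, h⟩⟩
  have h := hB (angles k p) (odd_angles k p hk) (2 * g + n + p - 2) (dim_eq k hs)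
  have hP : (∏ i, ((k i : ℝ) + 2)) ≠ 0 := by
    apply prod_ne_zero_iff.2
    intro i _
    positivity
  have h2 := (h.const_mul (2 * ((2 * g + n + p - 2 : ℕ) : ℝ))).div_const (∏ i, ((k i : ℝ) + 2))
  refine h2.congr (fun N => ?_)
  unfold volN
  rw [sum_congr rfl (fun L _ => cL_eq_count (angles k p) L), ← mul_sum, prod_angles]
  field_simp

/-- Main theorem from the blocks. -/
theorem final (hB : BlockB) (hN : BlockN) :
    (∀ (g n p : ℕ) (k : Fin n → ℕ), (∀ i, Odd (k i)) → ∑ i, k i + 4 = 4 * g + p → 1 ≤ n + p →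
      Tendsto (fun N : ℕ => volN g k p N) atTop (𝓝 (Vol g k p))) ∧
    (∀ (M : ℕ) (δ : ℝ), 0 < δ → ∃ g₀ : ℕ, ∀ g ≥ g₀, ∀ (n p : ℕ) (k : Fin n → ℕ), p ≤ M →
      (∀ i, Odd (k i)) → ∑ i, k i + 4 = 4 * g + p →
      |Vol g k p / (4 / Real.pi * 2 ^ p * ∏ i, ((2 : ℝ) ^ (k i + 2) / ((k i : ℝ) + 2))) - 1| ≤ δ ∧
      |eps g k p - (2 ^ p - 1)| ≤ δ) := by
  have hV : ∀ (g n p : ℕ) (k : Fin n → ℕ), (∀ i, Odd (k i)) → ∑ i, k i + 4 = 4 * g + p →
      1 ≤ n + p → Vol g k p = 2 * ((2 * g + n + p - 2 : ℕ) : ℝ) * (2 ^ (2 * g + n + p - 2) *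
        (2 * Yconn (angles k p)) / ((2 * g + n + p - 2).factorial : ℝ)) /
          ∏ i, ((k i : ℝ) + 2) :=
    fun g n p k hk hs hn => (volN_tendsto hB k hk hs hn).limUnder_eq
  constructor
  · intro g n p k hk hs hn
    rw [hV g n p k hk hs hn]
    exact volN_tendsto hB k hk hs hn
  · intro M δ hδ
    obtain ⟨E₀, hE₀⟩ := hN M (δ / 2 ^ M) (by positivity)
    refine ⟨E₀ + 2, ?_⟩
    intro g hg n p k hp hk hs
    have hn : 1 ≤ n + p := by
      by_contra hcon
      have hn0 : n = 0 := by omega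
      subst hn0
      simp at hs
      omega
    have hE1 : 1 ≤ 2 * g + n + p - 2 := by omega
    have h := hE₀ (angles k p) (odd_angles k p hk) (2 * g + n + p - 2) (dim_eq k hs) (by omega)
      (dim_even k hk hs) ((ones_angles k p).trans hp)
    have hP : (0 : ℝ) < ∏ i, ((k i : ℝ) + 2) := prod_pos (fun i _ => by positivity)
    have hpow : (2 : ℝ) ^ p * ∏ i, (2 : ℝ) ^ (k i + 2) = 4 ^ (2 * g + n + p - 2) := by
      rw [show (4 : ℝ) = 2 ^ 2 by norm_num, ← pow_mul, ← dim_eq k hs, sum_angles,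
        prod_pow_eq_pow_sum, sum_add_distrib, ← pow_add]
      congr 1
      simp only [sum_const, card_univ, Fintype.card_fin, smul_eq_mul]
      ring
    have hb : (0 : ℝ) < bE (2 * g + n + p - 2) := by
      unfold bE
      positivity
    have hpi := Real.pi_pos
    have key : Vol g k p / (4 / Real.pi * 2 ^ p * ∏ i, ((2 : ℝ) ^ (k i + 2) / ((k i : ℝ) + 2)))
        = Yconn (angles k p) / (bE (2 * g + n + p - 2) / Real.pi) := by
      rw [hV g n p k hk hs hn, prod_div_distrib]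
      have e1 : 4 / Real.pi * 2 ^ p * ((∏ i, (2 : ℝ) ^ (k i + 2)) / ∏ i, ((k i : ℝ) + 2)) =
          4 / Real.pi * 4 ^ (2 * g + n + p - 2) / ∏ i, ((k i : ℝ) + 2) := by
        rw [← hpow]; ring
      rw [e1]
      obtain ⟨E, hE⟩ : ∃ E, 2 * g + n + p - 2 = E + 1 := ⟨2 * g + n + p - 3, by omega⟩
      rw [hE] at hb ⊢
      have h4 : (4 : ℝ) ^ (E + 1) = 2 ^ (E + 1) * 2 ^ (E + 1) := by
        rw [← mul_pow]; norm_num
      rw [h4]
      unfold bE
      rw [Nat.factorial_succ, Nat.add_sub_cancel]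
      push_cast
      have hf : (0 : ℝ) < (E.factorial : ℝ) := by positivity
      have hE1 : (0 : ℝ) < (E : ℝ) + 1 := by positivity
      field_simp
      ring
    have hM : δ / 2 ^ M ≤ δ := div_le_self hδ.le (one_le_pow₀ (by norm_num))
    refine ⟨?_, ?_⟩
    · rw [key]
      exact h.trans hM
    · have e2 : eps g k p - (2 ^ p - 1) = 2 ^ p * (Vol g k p /
          (4 / Real.pi * 2 ^ p * ∏ i, ((2 : ℝ) ^ (k i + 2) / ((k i : ℝ) + 2))) - 1) := by
        unfold eps
        have hQ : (∏ i, ((2 : ℝ) ^ (k i + 2) / ((k i : ℝ) + 2))) ≠ 0 :=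
          (prod_pos (fun i _ => by positivity)).ne'
        field_simp
        ring
      rw [e2, abs_mul, abs_of_pos (by positivity : (0 : ℝ) < 2 ^ p), key]
      calc (2 : ℝ) ^ p * |Yconn (angles k p) / (bE (2 * g + n + p - 2) / Real.pi) - 1|
          ≤ 2 ^ M * (δ / 2 ^ M) := mul_le_mul
            (pow_le_pow_right₀ (by norm_num) hp) h (abs_nonneg _) (by positivity)
        _ = δ := by field_simp

end Pool.Agent.Helper71.MVN
end

/- Helper84.MVA.Tower -/
section
/-!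
Project MV, block A: towers.

`TD S`: a tower datum over `S` (an involution `τ` of `S`, heights `ℓ ≥ 1`, `ℓ ∘ τ = ℓ`).
`D.T`: the tower `{(s, j) : j < ℓ s}`.
`D.al`: the involution `(s, j) ↦ (τ s, ℓ s - 1 - j)`.
`D.ga g`: `(s, 0) ↦ (g s, 0)`, `(s, j) ↦ (τ s, ℓ s - j)` for `j ≥ 1`.
-/

namespace Pool.Agent.Helper84.MVA

open Pool.Agent.Helper60.MV

/-- tower data on `S` -/
@[ext] structure TD (S : Type) where
  τ : Equiv.Perm S
  ℓ : S → ℕ
  inv : ∀ s, τ (τ s) = s
  pos : ∀ s, 0 < ℓ s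
  sym : ∀ s, ℓ (τ s) = ℓ s

namespace TD

variable {S : Type} (D : TD S)

/-- the tower -/
def T : Type := {p : S × ℕ // p.2 < D.ℓ p.1}

/-- an element of the tower -/
def pt (s : S) (j : ℕ) (h : j < D.ℓ s) : D.T := ⟨(s, j), h⟩

/-- the base of the tower -/
def base (s : S) : D.T := D.pt s 0 (D.pos s)

variable {D}

theorem pt_ext {s s' : S} {j j' : ℕ} {h : j < D.ℓ s} {h' : j' < D.ℓ s'} (e1 : s = s')
    (e2 : j = j') : D.pt s j h = D.pt s' j' h' := by
  subst e1; subst e2; rfl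

theorem pt_inj {s s' : S} {j j' : ℕ} {h : j < D.ℓ s} {h' : j' < D.ℓ s'}
    (e : D.pt s j h = D.pt s' j' h') : s = s' ∧ j = j' := by
  have := congrArg Subtype.val e
  exact Prod.mk.inj this

theorem exists_pt (p : D.T) : ∃ s j, ∃ h : j < D.ℓ s, p = D.pt s j h :=
  ⟨p.1.1, p.1.2, p.2, rfl⟩

theorem base_inj : Function.Injective D.base := fun _ _ h => (pt_inj h).1

theorem pt_zero {s : S} (h : 0 < D.ℓ s) : D.pt s 0 h = D.base s := rfl

variable (D)

/-- the involution of the tower -/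
def alFun (p : D.T) : D.T :=
  D.pt (D.τ p.1.1) (D.ℓ p.1.1 - 1 - p.1.2) (by
    have := p.2
    rw [D.sym]
    omega)

theorem alFun_pt {s : S} {j : ℕ} (h : j < D.ℓ s) :
    D.alFun (D.pt s j h) = D.pt (D.τ s) (D.ℓ s - 1 - j) (by rw [D.sym]; omega) := rfl

theorem alFun_alFun (p : D.T) : D.alFun (D.alFun p) = p := by
  obtain ⟨s, j, h, rfl⟩ := exists_pt p
  rw [alFun_pt, alFun_pt]
  refine pt_ext (D.inv s) ?_
  rw [D.sym]
  omega

/-- the involution of the tower -/
def al : Equiv.Perm D.T := ⟨D.alFun, D.alFun, D.alFun_alFun, D.alFun_alFun⟩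

theorem al_pt {s : S} {j : ℕ} (h : j < D.ℓ s) :
    D.al (D.pt s j h) = D.pt (D.τ s) (D.ℓ s - 1 - j) (by rw [D.sym]; omega) := rfl

theorem al_al (p : D.T) : D.al (D.al p) = p := D.alFun_alFun p

/-- the permutation `γ` of the tower, as a function -/
def gaFun (g : Equiv.Perm S) (p : D.T) : D.T :=
  if h : p.1.2 = 0 then D.base (g p.1.1)
  else D.pt (D.τ p.1.1) (D.ℓ p.1.1 - p.1.2) (by
    have := p.2
    rw [D.sym]
    omega)

theorem gaFun_base (g : Equiv.Perm S) (s : S) : D.gaFun g (D.base s) = D.base (g s) := by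
  unfold gaFun
  rw [dif_pos]
  · rfl
  · rfl

theorem gaFun_pt (g : Equiv.Perm S) {s : S} {j : ℕ} (h : j < D.ℓ s) (hj : j ≠ 0) :
    D.gaFun g (D.pt s j h) = D.pt (D.τ s) (D.ℓ s - j) (by rw [D.sym]; omega) := by
  unfold gaFun
  rw [dif_neg]
  · rfl
  · exact hj

theorem gaFun_gaFun_pt (g g' : Equiv.Perm S) {s : S} {j : ℕ} (h : j < D.ℓ s) (hj : j ≠ 0) :
    D.gaFun g (D.gaFun g' (D.pt s j h)) = D.pt s j h := by
  rw [gaFun_pt _ _ _ hj, gaFun_pt _ _ _ (by omega)]
  refine pt_ext (D.inv s) ?_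
  rw [D.sym]
  omega

/-- the permutation `γ` of the tower -/
def ga (g : Equiv.Perm S) : Equiv.Perm D.T where
  toFun := D.gaFun g
  invFun := D.gaFun g.symm
  left_inv p := by
    obtain ⟨s, j, h, rfl⟩ := exists_pt p
    by_cases hj : j = 0
    · subst hj
      rw [pt_zero, gaFun_base, gaFun_base]
      simp
    · exact D.gaFun_gaFun_pt _ _ h hj
  right_inv p := by
    obtain ⟨s, j, h, rfl⟩ := exists_pt p
    by_cases hj : j = 0
    · subst hj
      rw [pt_zero, gaFun_base, gaFun_base]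
      simp
    · exact D.gaFun_gaFun_pt _ _ h hj

theorem ga_base (g : Equiv.Perm S) (s : S) : D.ga g (D.base s) = D.base (g s) :=
  D.gaFun_base g s

theorem ga_pt (g : Equiv.Perm S) {s : S} {j : ℕ} (h : j < D.ℓ s) (hj : j ≠ 0) :
    D.ga g (D.pt s j h) = D.pt (D.τ s) (D.ℓ s - j) (by rw [D.sym]; omega) :=
  D.gaFun_pt g h hj

theorem ga_ga_pt (g : Equiv.Perm S) {s : S} {j : ℕ} (h : j < D.ℓ s) (hj : j ≠ 0) :
    D.ga g (D.ga g (D.pt s j h)) = D.pt s j h := D.gaFun_gaFun_pt g g h hj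

/-- one step up -/
theorem ga_al_pt (g : Equiv.Perm S) {s : S} {j : ℕ} (h : j + 1 < D.ℓ s) :
    D.ga g (D.al (D.pt s j (by omega))) = D.pt s (j + 1) h := by
  rw [al_pt, ga_pt _ _ _ (by omega)]
  refine pt_ext (D.inv s) ?_
  rw [D.sym]
  omega

/-- at the top -/
theorem al_top {s : S} {j : ℕ} (h : j + 1 = D.ℓ s) :
    D.al (D.pt s j (by omega)) = D.base (D.τ s) := by
  rw [al_pt]
  exact pt_ext rfl (by omega)

theorem ga_al_top (g : Equiv.Perm S) {s : S} {j : ℕ} (h : j + 1 = D.ℓ s) :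
    D.ga g (D.al (D.pt s j (by omega))) = D.base (g (D.τ s)) := by
  rw [al_top _ h, ga_base]

theorem al_fpf (h : ∀ s, D.τ s ≠ s) (p : D.T) : D.al p ≠ p := by
  obtain ⟨s, j, hj, rfl⟩ := exists_pt p
  rw [al_pt]
  exact fun e => h s (pt_inj e).1

theorem ga_fpf (h : ∀ s, D.τ s ≠ s) (g : Equiv.Perm S) {s : S} {j : ℕ} (hj : j < D.ℓ s)
    (h0 : j ≠ 0) : D.ga g (D.pt s j hj) ≠ D.pt s j hj := by
  rw [D.ga_pt g hj h0]
  exact fun e => h s (pt_inj e).1

instance [Finite S] : Finite D.T := by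
  classical
  have : Fintype S := Fintype.ofFinite S
  have : Finite (Σ s : S, Fin (D.ℓ s)) := inferInstance
  refine Finite.of_surjective (fun p : Σ s : S, Fin (D.ℓ s) => D.pt p.1 p.2.1 p.2.2) ?_
  intro p
  obtain ⟨s, j, h, rfl⟩ := exists_pt p
  exact ⟨⟨s, ⟨j, h⟩⟩, rfl⟩

end TD

end Pool.Agent.Helper84.MVA
end

/- Helper84.MVA.Double -/
section
/-!
Project MV, block A: double towers.

`IsGl l D`: the tower datum `D` over `Y` is compatible with the permutation `l` of `Y`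
(`D.τ` is an antitranslation of the cycles of `l`, without fixed point, heights constant on cycles).
`glBeta`: the induced pairing of the cycles of `l`.
`DD K`: double tower data of type `K`; `D.X` its space, with `D.a`, `D.io`, `D.b`, `D.x`.
-/

namespace Pool.Agent.Helper84.MVA

open Pool.Agent.Helper60.MV

/-! ## Gluing data over a permutation -/

/-- compatibility of a tower datum over `Y` with a permutation `l` of `Y` -/
structure IsGl {Y : Type} (l : Equiv.Perm Y) (D : TD Y) : Prop where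
  fpf : ∀ y, D.τ y ≠ y
  anti : ∀ y, D.τ (l (D.τ y)) = l.symm y
  fpf' : ∀ y, l (D.τ y) ≠ y
  hl : ∀ y, D.ℓ (l y) = D.ℓ y

section gl

variable {Y : Type} {l : Equiv.Perm Y} {t : Equiv.Perm Y}

theorem anti_zpow (h1 : ∀ y, t (t y) = y) (h2 : ∀ y, t (l (t y)) = l.symm y) (k : ℤ) (y : Y) :
    t ((l ^ k) y) = (l ^ (-k)) (t y) := by
  have hc : t * l * t⁻¹ = l⁻¹ := by
    have ht : t⁻¹ = t := by
      ext y
      rw [Equiv.Perm.inv_eq_iff_eq, h1]
    rw [ht]
    ext y
    exact h2 y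
  have h3 : (t * l * t⁻¹) ^ k = (l⁻¹) ^ k := by rw [hc]
  rw [conj_zpow, inv_zpow, ← zpow_neg] at h3
  have h4 := congrArg (fun g : Equiv.Perm Y => g (t y)) h3
  simpa using h4

theorem anti_sameCycle (h1 : ∀ y, t (t y) = y) (h2 : ∀ y, t (l (t y)) = l.symm y) {y z : Y}
    (h : l.SameCycle y z) : l.SameCycle (t y) (t z) := by
  obtain ⟨k, rfl⟩ := h
  exact ⟨-k, (anti_zpow h1 h2 k y).symm⟩

/-- the involution of the cycles induced by an antitranslation -/
def cycMap (h1 : ∀ y, t (t y) = y) (h2 : ∀ y, t (l (t y)) = l.symm y) : Equiv.Perm (Cyc l) where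
  toFun := Quotient.map t (fun _ _ h => anti_sameCycle h1 h2 h)
  invFun := Quotient.map t (fun _ _ h => anti_sameCycle h1 h2 h)
  left_inv c := by
    obtain ⟨y, rfl⟩ := Quotient.exists_rep c
    rw [Quotient.map_mk, Quotient.map_mk, h1]
  right_inv c := by
    obtain ⟨y, rfl⟩ := Quotient.exists_rep c
    rw [Quotient.map_mk, Quotient.map_mk, h1]

theorem cycMap_cyc (h1 : ∀ y, t (t y) = y) (h2 : ∀ y, t (l (t y)) = l.symm y) (y : Y) :
    cycMap h1 h2 (cyc l y) = cyc l (t y) := rfl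

theorem cyc_eq_iff {y z : Y} : cyc l y = cyc l z ↔ l.SameCycle y z :=
  ⟨fun h => Quotient.exact h, fun h => Quotient.sound h⟩

theorem cyc_surj (c : Cyc l) : ∃ y, c = cyc l y := by
  obtain ⟨y, rfl⟩ := Quotient.exists_rep c
  exact ⟨y, rfl⟩

theorem cyc_rep (c : Cyc l) : cyc l c.rep = c := Quotient.out_eq c

theorem cyc_apply (y : Y) : cyc l (l y) = cyc l y :=
  cyc_eq_iff.2 ⟨-1, by simp⟩

/-- no cycle is fixed -/
theorem cyc_ne (h1 : ∀ y, t (t y) = y) (h2 : ∀ y, t (l (t y)) = l.symm y) (h3 : ∀ y, t y ≠ y)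
    (h4 : ∀ y, l (t y) ≠ y) (y : Y) : cyc l (t y) ≠ cyc l y := by
  intro h
  obtain ⟨k, hk⟩ := cyc_eq_iff.1 h.symm
  rcases Int.even_or_odd' k with ⟨j, hj | hj⟩
  · refine h3 ((l ^ j) y) ?_
    rw [anti_zpow h1 h2, ← hk, ← Equiv.Perm.mul_apply, ← zpow_add]
    congr 2
    omega
  · refine h4 ((l ^ (j + 1)) y) ?_
    rw [anti_zpow h1 h2, ← hk]
    have : l ((l ^ (-(j + 1))) ((l ^ k) y)) = (l ^ (1 + -(j + 1) + k)) y := by
      rw [zpow_add, zpow_add, zpow_one]
      rfl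
    rw [this]
    congr 2
    omega

theorem cycMap_pairing (h1 : ∀ y, t (t y) = y) (h2 : ∀ y, t (l (t y)) = l.symm y)
    (h3 : ∀ y, t y ≠ y) (h4 : ∀ y, l (t y) ≠ y) : IsPairing (cycMap h1 h2) where
  invol c := (cycMap h1 h2).left_inv c
  fpf c := by
    obtain ⟨y, rfl⟩ := cyc_surj c
    rw [cycMap_cyc]
    exact cyc_ne h1 h2 h3 h4 y

end gl

/-- the pairing of the cycles induced by a gluing datum -/
def glBeta {Y : Type} {l : Equiv.Perm Y} {D : TD Y} (h : IsGl l D) : Equiv.Perm (Cyc l) :=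
  cycMap D.inv h.anti

theorem glBeta_cyc {Y : Type} {l : Equiv.Perm Y} {D : TD Y} (h : IsGl l D) (y : Y) :
    glBeta h (cyc l y) = cyc l (D.τ y) := rfl

theorem glBeta_pairing {Y : Type} {l : Equiv.Perm Y} {D : TD Y} (h : IsGl l D) :
    IsPairing (glBeta h) := cycMap_pairing D.inv h.anti h.fpf h.fpf'

namespace TD

variable {Y : Type} (D : TD Y)

/-- horizontal shift of the tower -/
def sh (l : Equiv.Perm Y) (hl : ∀ y, D.ℓ (l y) = D.ℓ y) : Equiv.Perm D.T where
  toFun p := D.pt (l p.1.1) p.1.2 (by rw [hl]; exact p.2)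
  invFun p := D.pt (l.symm p.1.1) p.1.2 (by
    rw [← hl (l.symm p.1.1), Equiv.apply_symm_apply]; exact p.2)
  left_inv p := by
    obtain ⟨s, j, h, rfl⟩ := exists_pt p
    exact pt_ext (by simp [pt]) rfl
  right_inv p := by
    obtain ⟨s, j, h, rfl⟩ := exists_pt p
    exact pt_ext (by simp [pt]) rfl

theorem sh_pt (l : Equiv.Perm Y) (hl : ∀ y, D.ℓ (l y) = D.ℓ y) {y : Y} {j : ℕ} (h : j < D.ℓ y) :
    D.sh l hl (D.pt y j h) = D.pt (l y) j (by rw [hl]; exact h) := rfl

end TD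

/-! ## The first tower -/

/-- the rows of squares in the first tower -/
def lY {ρ : Type} {K : ρ → ℕ} (D1 : TD (HK K)) : Equiv.Perm D1.T := D1.ga (rot K) * D1.al

theorem lY_pt {ρ : Type} {K : ρ → ℕ} (D1 : TD (HK K)) {h : HK K} {j : ℕ} (hj : j + 1 < D1.ℓ h) :
    lY D1 (D1.pt h j (by omega)) = D1.pt h (j + 1) hj := D1.ga_al_pt _ hj

theorem lY_top {ρ : Type} {K : ρ → ℕ} (D1 : TD (HK K)) {h : HK K} {j : ℕ} (hj : j + 1 = D1.ℓ h) :
    lY D1 (D1.pt h j (by omega)) = D1.base ((rot K * D1.τ) h) := D1.ga_al_top _ hj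

/-! ## Double towers -/

/-- double tower data -/
structure DD {ρ : Type} (K : ρ → ℕ) where
  D1 : TD (HK K)
  f1 : ∀ h, D1.τ h ≠ h
  D2 : TD D1.T
  f2 : IsGl (lY D1) D2

namespace DD

variable {ρ : Type} {K : ρ → ℕ} (D : DD K)

/-- the set of oriented squares -/
def X : Type := D.D2.T

/-- shift along rows -/
def l : Equiv.Perm D.X := D.D2.sh (lY D.D1) D.f2.hl

/-- rotation by `π` -/
def io : Equiv.Perm D.X := D.D2.al

/-- pairing of the top sides -/
def b : Equiv.Perm D.X := D.D2.ga D.D1.al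

/-- pairing of the right sides -/
def a : Equiv.Perm D.X := D.l * D.io

/-- the marked squares -/
def x (hK : ∀ i, 0 < K i) (i : ρ) : D.X := D.D2.base (D.D1.base ⟨i, ⟨0, hK i⟩⟩)

/-- transitivity -/
def Cn : Prop := ∀ y z : D.X,
  ∃ g ∈ Subgroup.closure ({D.a, D.io, D.b} : Set (Equiv.Perm D.X)), g y = z

instance [Finite ρ] : Finite D.X := by
  have : Finite (HK K) := inferInstance
  have : Finite D.D1.T := inferInstance
  exact inferInstanceAs (Finite D.D2.T)

end DD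

/-- an identification of a double tower with a marked surface -/
structure IsIso {ρ X : Type} {K : ρ → ℕ} (hK : ∀ i, 0 < K i) (a ι b : Equiv.Perm X) (x : ρ → X)
    (D : DD K) (e : D.X ≃ X) : Prop where
  ha : ∀ p, e (D.a p) = a (e p)
  hι : ∀ p, e (D.io p) = ι (e p)
  hb : ∀ p, e (D.b p) = b (e p)
  hx : ∀ i, e (D.x hK i) = x i

end Pool.Agent.Helper84.MVA
end

/- Helper84.MVA.Fold -/
section
/-!
MV-A1 (FOLDING LEMMA).  Only the statements below matter; add as many helper lemmas as you like.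

PROOF of `fold`.  Put `S = range η`.  `γ` maps `S` onto `S` (`hg`, `g` surjective), hence maps the
complement of `S` to itself.  For `s : S` define `w_0 = η s`, `w_{j+1} = γ (α (w_j))`
(`w_j = (γ * α)^j (η s)`), `u_j = α (w_j)`.  There is a least `n = n(s) ≥ 0` with `u_n ∈ S`:
otherwise all `w_{j+1} = γ u_j ∉ S`, but `γ * α` is a permutation of the finite set `X`, so
`w_m = w_0 ∈ S` for some `m ≥ 1` (`Function.minimalPeriod`, `isOfFinOrder`, `pow_orderOf_eq_one`).
Put `ℓ(s) = n(s) + 1 ≥ 1` and `η (τ s) = u_n` (choose the preimage; `η` is injective).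
* `w_j ∉ S` for `1 ≤ j < ℓ(s)` (`w_j = γ u_{j-1}`, `u_{j-1} ∉ S`).
* reversed walk: `w_j(τ s) = u_{n-j}(s)` and `u_j(τ s) = w_{n-j}(s)` for `0 ≤ j ≤ n`
  (induction on `j`: `w_0(τ s) = u_n(s)`; `u_j = α w_j` gives the second from the first by `hα`;
  `w_{j+1}(τ s) = γ (u_j(τ s)) = γ (w_{n-j}(s)) = γ γ u_{n-j-1}(s) = u_{n-j-1}(s)` by `hγ`, because
  `u_{n-j-1}(s) ∉ S`).  So `u_j(τ s) = w_{n-j}(s)` is in `S` exactly for `j = n` (in the range
  `0 ≤ j ≤ n`), i.e. `ℓ(τ s) = ℓ(s)` and `τ (τ s) = s`.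
* The map `w (s, j) = w_j(s)`, `0 ≤ j < ℓ(s)`, is injective: if `(γα)^j (η s) = (γα)^{j'} (η s')`
  with `j ≤ j'` then `η s = (γα)^{j'-j} (η s')`, which is not in `S` if `1 ≤ j' - j < ℓ(s')`; so
  `j = j'`, `s = s'`.
* `α w_j(s) = u_j(s) = w_{n-j}(τ s)`; `γ w_0(s) = η (g s)`; for `1 ≤ j < ℓ(s)`:
  `γ w_j(s) = γ γ u_{j-1}(s) = u_{j-1}(s) = w_{n-j+1}(τ s) = w_{ℓ-j}(τ s)`.

PROOF of `fold_fpf`.  Let `τ s = s`.  If `ℓ s` is odd, `p = pt s ((ℓ s - 1)/2)` is fixed by `D.al`
(`al_pt`, `pt_ext`), so `α (w p) = w p`.  If `ℓ s` is even, `j = ℓ s / 2 ≥ 1`, `p = pt s j` is fixed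
by `D.ga g` (`ga_pt`), so `γ (w p) = w p`, and `w p` is not in `range (w ∘ base)` by injectivity of
`w` (`j ≠ 0`).
-/

namespace Pool.Agent.Helper84.MVA

open Pool.Agent.Helper60.MV

theorem fold {X S : Type} [Finite X] (α γ : Equiv.Perm X) (hα : ∀ x, α (α x) = x)
    (η : S → X) (hη : Function.Injective η) (g : Equiv.Perm S) (hg : ∀ s, γ (η s) = η (g s))
    (hγ : ∀ x, x ∉ Set.range η → γ (γ x) = x) :
    ∃ (D : TD S) (w : D.T → X), Function.Injective w ∧ (∀ s, w (D.base s) = η s) ∧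
      (∀ p, w (D.al p) = α (w p)) ∧ (∀ p, w (D.ga g p) = γ (w p)) := by
  classical
  have hr : ∀ x, γ x ∈ Set.range η → x ∈ Set.range η := by
    rintro x ⟨t, ht⟩
    refine ⟨g.symm t, ?_⟩
    apply γ.injective
    rw [hg, Equiv.apply_symm_apply, ht]
  obtain ⟨P, hP⟩ : ∃ P : Equiv.Perm X, P = γ * α := ⟨_, rfl⟩
  have hPs : ∀ (k : ℕ) (x : X), (P ^ (k + 1)) x = γ (α ((P ^ k) x)) := by
    intro k x
    rw [pow_succ', Equiv.Perm.mul_apply]
    generalize (P ^ k) x = y
    rw [hP, Equiv.Perm.mul_apply]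
  have hex : ∀ s, ∃ n, α ((P ^ n) (η s)) ∈ Set.range η := by
    intro s
    have hm : 0 < orderOf P := orderOf_pos P
    refine ⟨orderOf P - 1, hr _ ?_⟩
    rw [← hPs, Nat.sub_add_cancel hm, pow_orderOf_eq_one]
    exact ⟨s, rfl⟩
  obtain ⟨n, hn⟩ : ∃ n : S → ℕ, n = fun s => Nat.find (hex s) := ⟨_, rfl⟩
  have hn1 : ∀ s, α ((P ^ (n s)) (η s)) ∈ Set.range η := by
    intro s
    rw [hn]
    exact Nat.find_spec (hex s)
  have hn2 : ∀ s k, k < n s → α ((P ^ k) (η s)) ∉ Set.range η := by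
    intro s k hk
    rw [hn] at hk
    exact Nat.find_min (hex s) hk
  choose τ hτ using hn1
  have hnr : ∀ s k, 1 ≤ k → k ≤ n s → (P ^ k) (η s) ∉ Set.range η := by
    intro s k h1 h2 h3
    obtain ⟨k, rfl⟩ : ∃ k', k = k' + 1 := ⟨k - 1, by omega⟩
    rw [hPs] at h3
    exact hn2 s k (by omega) (hr _ h3)
  have hrev : ∀ s j, j ≤ n s → (P ^ j) (η (τ s)) = α ((P ^ (n s - j)) (η s)) := by
    intro s j
    induction j with
    | zero =>
      intro _
      rw [Nat.sub_zero, ← hτ]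
      rfl
    | succ j ih =>
      intro hj
      rw [hPs, ih (by omega), hα]
      obtain ⟨k, hk⟩ : ∃ k, n s - j = k + 1 := ⟨n s - j - 1, by omega⟩
      rw [hk, hPs, hγ _ (hn2 s k (by omega)), show n s - (j + 1) = k by omega]
  have hnt : ∀ s, n (τ s) = n s := by
    intro s
    have h : n (τ s) = Nat.find (hex (τ s)) := by rw [hn]
    rw [h, Nat.find_eq_iff]
    constructor
    · rw [hrev s _ le_rfl, hα, Nat.sub_self]
      exact ⟨s, rfl⟩
    · intro k hk h3
      rw [hrev s k hk.le, hα] at h3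
      exact hnr s (n s - k) (by omega) (by omega) h3
  have hinv : ∀ s, τ (τ s) = s := by
    intro s
    apply hη
    rw [hτ, hnt, hrev s _ le_rfl, hα, Nat.sub_self]
    rfl
  obtain ⟨D, hD1, hD2⟩ : ∃ D : TD S, (∀ s, D.τ s = τ s) ∧ (∀ s, D.ℓ s = n s + 1) :=
    ⟨⟨⟨τ, τ, hinv, hinv⟩, fun s => n s + 1, hinv, fun s => Nat.succ_pos _,
      fun s => by
        change n (τ s) + 1 = n s + 1
        rw [hnt]⟩, fun _ => rfl, fun _ => rfl⟩
  refine ⟨D, fun p => (P ^ p.1.2) (η p.1.1), ?_, ?_, ?_, ?_⟩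
  · have key : ∀ s s' j j', j ≤ j' → j' < D.ℓ s' → (P ^ j) (η s) = (P ^ j') (η s') →
        s = s' ∧ j = j' := by
      intro s s' j j' h1 h2 h3
      rw [hD2] at h2
      obtain ⟨d, rfl⟩ := Nat.exists_eq_add_of_le h1
      rw [pow_add, Equiv.Perm.mul_apply] at h3
      have h4 := (P ^ j).injective h3
      have hd : d = 0 := by
        by_contra hd
        exact hnr s' d (by omega) (by omega) (h4 ▸ ⟨s, rfl⟩)
      subst hd
      exact ⟨hη h4, rfl⟩
    intro p p' h
    obtain ⟨s, j, hj, rfl⟩ := TD.exists_pt p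
    obtain ⟨s', j', hj', rfl⟩ := TD.exists_pt p'
    change (P ^ j) (η s) = (P ^ j') (η s') at h
    rcases le_total j j' with h1 | h1
    · obtain ⟨h2, h3⟩ := key s s' j j' h1 hj' h
      exact TD.pt_ext h2 h3
    · obtain ⟨h2, h3⟩ := key s' s j' j h1 hj h.symm
      exact TD.pt_ext h2.symm h3.symm
  · intro s
    rfl
  · intro p
    obtain ⟨s, j, hj, rfl⟩ := TD.exists_pt p
    rw [D.al_pt hj]
    change (P ^ (D.ℓ s - 1 - j)) (η (D.τ s)) = α ((P ^ j) (η s))
    rw [hD2] at hj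
    rw [hD1, hD2, hrev s _ (by omega), show n s - (n s + 1 - 1 - j) = j by omega]
  · intro p
    obtain ⟨s, j, hj, rfl⟩ := TD.exists_pt p
    by_cases h0 : j = 0
    · subst h0
      rw [TD.pt_zero, D.ga_base]
      exact (hg s).symm
    · rw [D.ga_pt g hj h0]
      change (P ^ (D.ℓ s - j)) (η (D.τ s)) = γ ((P ^ j) (η s))
      rw [hD2] at hj
      obtain ⟨k, rfl⟩ : ∃ k', j = k' + 1 := ⟨j - 1, by omega⟩
      rw [hD1, hD2, hrev s _ (by omega), hPs, hγ _ (hn2 s k (by omega)),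
        show n s - (n s + 1 - (k + 1)) = k by omega]

theorem fold_fpf {X S : Type} (α γ : Equiv.Perm X) (g : Equiv.Perm S) (D : TD S) (w : D.T → X)
    (hw : Function.Injective w) (h1 : ∀ p, w (D.al p) = α (w p))
    (h2 : ∀ p, w (D.ga g p) = γ (w p)) (hα : ∀ x, α x ≠ x)
    (hγ : ∀ x, (∀ s, w (D.base s) ≠ x) → γ x ≠ x) : ∀ s, D.τ s ≠ s := by
  intro s hs
  have hp := D.pos s
  rcases Nat.even_or_odd' (D.ℓ s) with ⟨k, hk | hk⟩
  · have hj : k < D.ℓ s := by omega
    have hk0 : k ≠ 0 := by omega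
    refine hγ (w (D.pt s k hj)) ?_ ?_
    · intro s' h
      exact hk0 (TD.pt_inj (hw h)).2.symm
    · rw [← h2, D.ga_pt g hj hk0]
      exact congrArg w (TD.pt_ext hs (by omega))
  · have hj : k < D.ℓ s := by omega
    refine hα (w (D.pt s k hj)) ?_
    rw [← h1, D.al_pt hj]
    exact congrArg w (TD.pt_ext hs (by omega))

end Pool.Agent.Helper84.MVA
end

/- Helper84.MVA.Surf -/
section
/-!
MV-A3 (a double tower is a marked surface).  `D.X = D.D2.T`, `D.io = D.D2.al`,
`D.b = D.D2.ga D.D1.al`, `D.l = D.D2.sh (lY D.D1) _`, `D.a = D.l * D.io`.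
Write `τ₁ = D.D1.τ`, `τ₂ = D.D2.τ`, `m = D.D2.ℓ`, `σ = rot K`, `lY = D.D1.ga σ * D.D1.al`.

PROOF.
* `io` is a pairing: `TD.al_al`, `TD.al_fpf` (`D.f2.fpf`).
* `b` is a pairing: on `base y`: `b (base y) = base (al y)`, `al (al y) = y`, `al y ≠ y`
  (`TD.al_fpf` with `D.f1`); on `pt y k`, `k ≠ 0`: `TD.ga_ga_pt`, `TD.ga_fpf`.
* `a` is a pairing: `a (pt y k) = pt (lY (τ₂ y)) (m y - 1 - k)`.  `a (a p) = p` since
  `lY (τ₂ (lY (τ₂ y))) = lY (lY⁻¹ y) = y` (`D.f2.anti`), heights by `D.f2.hl`, `TD.sym`;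
  `a p ≠ p` by `D.f2.fpf'`.
* `v = a * io * b = l * b` (as `io (io p) = p`).  `v (base y) = base (lY (al y)) = base (ga σ y)`;
  so `v (base (base h)) = base (base (σ h))`, and for `y = pt h j`, `j ≠ 0`:
  `v (v (base y)) = base y`, `v (base y) ≠ base y` (`TD.ga_ga_pt`, `TD.ga_fpf` with `D.f1`).
  For `k ≠ 0`: `v (pt y k) = pt (lY (τ₂ y)) (m y - k)`, so `v (v (pt y k)) = pt y k` and
  `v (pt y k) ≠ pt y k` by `D.f2.fpf'`.
* `mark`: the map `f h = base (base h)` is injective and `v ∘ f = f ∘ σ`, so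
  `minimalPeriod v (f h) = minimalPeriod σ h`; `σ^n ⟨i, 0⟩ = ⟨i, n mod K i⟩` (`finRotate`), so
  `minimalPeriod σ ⟨i, 0⟩ = K i` (prove `rot_period` below; `K i = 1` is allowed).
* `dist`: `v^n (f ⟨i, 0⟩) = f (σ^n ⟨i, 0⟩)` has first component `i` (`σ^n` for integers `n`).
* `rest`: if `y` is not in the cycle of any `x i` then `y ≠ f h` for all `h` (`rot_reach`), so by the
  above `v (v y) = y`, `v y ≠ y`, i.e. `minimalPeriod v y = 2`.
-/

namespace Pool.Agent.Helper84.MVA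

open Pool.Agent.Helper60.MV

private theorem finRotate_iter (m : ℕ) (j : Fin (m + 1)) (n : ℕ) :
    (((finRotate (m + 1))^[n] j : Fin (m + 1)) : ℕ) = ((j : ℕ) + n) % (m + 1) := by
  induction n with
  | zero =>
    rw [Function.iterate_zero, id_eq, add_zero, Nat.mod_eq_of_lt j.isLt]
  | succ n ih =>
    rw [Function.iterate_succ_apply', finRotate_apply, Fin.val_add, ih, Fin.val_one',
      ← Nat.add_mod, add_assoc]

private theorem finRotate_minimalPeriod (k : ℕ) (j : Fin k) :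
    Function.minimalPeriod (finRotate k) j = k := by
  cases k with
  | zero => exact j.elim0
  | succ m =>
    have key : ∀ n : ℕ, Function.IsPeriodicPt (finRotate (m + 1)) n j ↔ (m + 1) ∣ n := by
      intro n
      rw [Function.IsPeriodicPt, Function.IsFixedPt, Fin.ext_iff, finRotate_iter]
      have hj := Nat.mod_eq_of_lt j.isLt
      constructor
      · intro h
        have h1 : (j : ℕ) + n ≡ (j : ℕ) + 0 [MOD (m + 1)] := by
          rw [Nat.ModEq, add_zero, h, hj]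
        exact (Nat.modEq_zero_iff_dvd).1 (Nat.ModEq.add_left_cancel' _ h1)
      · rintro ⟨q, rfl⟩
        rw [Nat.add_mul_mod_self_left, hj]
    apply Nat.dvd_antisymm
    · exact ((key (m + 1)).2 dvd_rfl).minimalPeriod_dvd
    · exact (key _).1 (Function.isPeriodicPt_minimalPeriod _ _)

private theorem finRotate_reach (k : ℕ) (hk : 0 < k) (j : Fin k) :
    (finRotate k)^[(j : ℕ)] ⟨0, hk⟩ = j := by
  cases k with
  | zero => exact j.elim0
  | succ m =>
    apply Fin.ext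
    rw [finRotate_iter]
    simp only [zero_add]
    exact Nat.mod_eq_of_lt j.isLt

private theorem rot_iter {ρ : Type} (K : ρ → ℕ) (i : ρ) (j : Fin (K i)) (n : ℕ) :
    (rot K)^[n] ⟨i, j⟩ = ⟨i, (finRotate (K i))^[n] j⟩ := by
  induction n with
  | zero => rfl
  | succ n ih =>
    rw [Function.iterate_succ_apply', ih, Function.iterate_succ_apply']
    rfl

theorem rot_period {ρ : Type} (K : ρ → ℕ) (h : HK K) :
    Function.minimalPeriod (rot K) h = K h.1 := by
  obtain ⟨i, j⟩ := h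
  rw [← finRotate_minimalPeriod (K i) j, Function.minimalPeriod_eq_minimalPeriod_iff]
  intro n
  unfold Function.IsPeriodicPt Function.IsFixedPt
  rw [rot_iter]
  constructor
  · intro h
    have := (Sigma.mk.inj_iff.1 h).2
    exact eq_of_heq this
  · intro h
    rw [h]

theorem rot_reach {ρ : Type} (K : ρ → ℕ) (hK : ∀ i, 0 < K i) (i : ρ) (j : Fin (K i)) :
    ((rot K) ^ (j : ℕ)) ⟨i, ⟨0, hK i⟩⟩ = ⟨i, j⟩ := by
  rw [← Equiv.Perm.iterate_eq_pow, rot_iter, finRotate_reach]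

private theorem rot_pow_fst {ρ : Type} (K : ρ → ℕ) (n : ℕ) (h : HK K) :
    ((rot K ^ n) h).1 = h.1 := by
  induction n with
  | zero => rfl
  | succ n ih =>
    rw [pow_succ', Equiv.Perm.mul_apply]
    exact ih

theorem rot_fst {ρ : Type} (K : ρ → ℕ) (n : ℤ) (h : HK K) : (((rot K) ^ n) h).1 = h.1 := by
  rcases Int.eq_nat_or_neg n with ⟨m, rfl | rfl⟩
  · rw [zpow_natCast, rot_pow_fst]
  · have h1 := rot_pow_fst K m (((rot K) ^ (-(m : ℤ))) h)
    rw [← zpow_natCast, ← Equiv.Perm.mul_apply, ← zpow_add, add_neg_cancel, zpow_zero,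
      Equiv.Perm.one_apply] at h1
    exact h1.symm

namespace DD

variable {ρ : Type} {K : ρ → ℕ} (D : DD K)

private theorem b_base (y : D.D1.T) : D.b (D.D2.base y) = D.D2.base (D.D1.al y) :=
  D.D2.ga_base _ _

private theorem b_pt {y : D.D1.T} {k : ℕ} (hk : k < D.D2.ℓ y) (h0 : k ≠ 0) :
    D.b (D.D2.pt y k hk) = D.D2.pt (D.D2.τ y) (D.D2.ℓ y - k) (by rw [D.D2.sym]; omega) :=
  D.D2.ga_pt _ hk h0

private theorem io_pt {y : D.D1.T} {k : ℕ} (hk : k < D.D2.ℓ y) :
    D.io (D.D2.pt y k hk) = D.D2.pt (D.D2.τ y) (D.D2.ℓ y - 1 - k) (by rw [D.D2.sym]; omega) :=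
  D.D2.al_pt hk

private theorem l_pt {y : D.D1.T} {k : ℕ} (hk : k < D.D2.ℓ y) :
    D.l (D.D2.pt y k hk) = D.D2.pt (lY D.D1 y) k (by rw [D.f2.hl]; exact hk) :=
  D.D2.sh_pt _ _ hk

private theorem io_io (p : D.X) : D.io (D.io p) = p := D.D2.al_al p

private theorem lY_anti (y : D.D1.T) :
    lY D.D1 (D.D2.τ (lY D.D1 (D.D2.τ y))) = y := by
  rw [D.f2.anti, Equiv.apply_symm_apply]

private theorem a_pt {y : D.D1.T} {k : ℕ} (hk : k < D.D2.ℓ y) :
    D.a (D.D2.pt y k hk) = D.D2.pt (lY D.D1 (D.D2.τ y)) (D.D2.ℓ y - 1 - k)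
      (by rw [D.f2.hl, D.D2.sym]; omega) := by
  show D.l (D.io _) = _
  rw [io_pt, l_pt]

private theorem v_eq (p : D.X) : (D.a * D.io * D.b) p = D.l (D.b p) := by
  show D.l (D.io (D.io (D.b p))) = _
  rw [io_io]

private theorem v_base (y : D.D1.T) :
    (D.a * D.io * D.b) (D.D2.base y) = D.D2.base (D.D1.ga (rot K) y) := by
  rw [v_eq, b_base]
  show D.D2.pt (lY D.D1 (D.D1.al y)) 0 _ = _
  refine TD.pt_ext ?_ rfl
  show D.D1.ga (rot K) (D.D1.al (D.D1.al y)) = _
  rw [D.D1.al_al]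

private theorem v_pt {y : D.D1.T} {k : ℕ} (hk : k < D.D2.ℓ y) (h0 : k ≠ 0) :
    (D.a * D.io * D.b) (D.D2.pt y k hk) = D.D2.pt (lY D.D1 (D.D2.τ y)) (D.D2.ℓ y - k)
      (by rw [D.f2.hl, D.D2.sym]; omega) := by
  rw [v_eq, b_pt D hk h0, l_pt]

private theorem v_f (h : HK K) :
    (D.a * D.io * D.b) (D.D2.base (D.D1.base h)) = D.D2.base (D.D1.base (rot K h)) := by
  rw [v_base, D.D1.ga_base]

private theorem v_iter (n : ℕ) (h : HK K) :
    (D.a * D.io * D.b)^[n] (D.D2.base (D.D1.base h)) =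
      D.D2.base (D.D1.base ((rot K)^[n] h)) := by
  induction n with
  | zero => rfl
  | succ n ih =>
    rw [Function.iterate_succ_apply', ih, Function.iterate_succ_apply', v_f]

private theorem v_pow (n : ℕ) (h : HK K) :
    ((D.a * D.io * D.b) ^ n) (D.D2.base (D.D1.base h)) =
      D.D2.base (D.D1.base (((rot K) ^ n) h)) := by
  rw [← Equiv.Perm.iterate_eq_pow, ← Equiv.Perm.iterate_eq_pow, v_iter]

private theorem v_zpow (n : ℤ) (h : HK K) :
    ((D.a * D.io * D.b) ^ n) (D.D2.base (D.D1.base h)) =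
      D.D2.base (D.D1.base (((rot K) ^ n) h)) := by
  rcases Int.eq_nat_or_neg n with ⟨m, rfl | rfl⟩
  · rw [zpow_natCast, zpow_natCast, v_pow]
  · have h1 := v_pow D m (((rot K) ^ (-(m : ℤ))) h)
    have h2 : ((rot K) ^ m) (((rot K) ^ (-(m : ℤ))) h) = h := by
      rw [← zpow_natCast, ← Equiv.Perm.mul_apply, ← zpow_add, add_neg_cancel, zpow_zero,
        Equiv.Perm.one_apply]
    rw [h2] at h1
    rw [zpow_neg, zpow_natCast, Equiv.Perm.inv_eq_iff_eq]
    exact h1.symm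

private theorem f_inj {h h' : HK K} (e : D.D2.base (D.D1.base h) = D.D2.base (D.D1.base h')) :
    h = h' := TD.base_inj (TD.base_inj e)

end DD

private theorem period_two {X : Type} (v : Equiv.Perm X) (y : X) (h1 : v (v y) = y)
    (h2 : v y ≠ y) : Function.minimalPeriod v y = 2 := by
  have : Fact (Nat.Prime 2) := ⟨Nat.prime_two⟩
  exact Function.minimalPeriod_eq_prime (p := 2) h1 h2

theorem DD.isSurf {ρ : Type} {K : ρ → ℕ} (hK : ∀ i, 0 < K i) (D : DD K) (hc : D.Cn) :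
    IsSurf K D.a D.io D.b (D.x hK) where
  ha := by
    constructor
    · intro p
      obtain ⟨y, k, hk, rfl⟩ := TD.exists_pt (D := D.D2) p
      rw [DD.a_pt, DD.a_pt]
      refine TD.pt_ext (DD.lY_anti D y) ?_
      rw [D.f2.hl, D.D2.sym]
      omega
    · intro p
      obtain ⟨y, k, hk, rfl⟩ := TD.exists_pt (D := D.D2) p
      rw [DD.a_pt]
      intro e
      exact D.f2.fpf' y (TD.pt_inj e).1
  hι := ⟨D.D2.al_al, D.D2.al_fpf D.f2.fpf⟩
  hb := by
    constructor
    · intro p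
      obtain ⟨y, k, hk, rfl⟩ := TD.exists_pt (D := D.D2) p
      by_cases h0 : k = 0
      · subst h0
        rw [TD.pt_zero, DD.b_base, DD.b_base, D.D1.al_al]
      · exact D.D2.ga_ga_pt _ hk h0
    · intro p
      obtain ⟨y, k, hk, rfl⟩ := TD.exists_pt (D := D.D2) p
      by_cases h0 : k = 0
      · subst h0
        rw [TD.pt_zero, DD.b_base]
        intro e
        exact D.D1.al_fpf D.f1 y (TD.base_inj e)
      · exact D.D2.ga_fpf D.f2.fpf _ hk h0
  conn := hc
  mark := by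
    intro i
    rw [← rot_period K ⟨i, ⟨0, hK i⟩⟩, Function.minimalPeriod_eq_minimalPeriod_iff]
    intro n
    unfold Function.IsPeriodicPt Function.IsFixedPt
    show (D.a * D.io * D.b)^[n] (D.D2.base (D.D1.base ⟨i, ⟨0, hK i⟩⟩)) =
      D.D2.base (D.D1.base ⟨i, ⟨0, hK i⟩⟩) ↔ _
    rw [DD.v_iter]
    constructor
    · intro e
      exact DD.f_inj D e
    · intro e
      rw [e]
  dist := by
    intro i j hij
    rintro ⟨n, hn⟩
    have h1 : ((D.a * D.io * D.b) ^ n) (D.D2.base (D.D1.base ⟨i, ⟨0, hK i⟩⟩)) =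
      D.D2.base (D.D1.base ⟨j, ⟨0, hK j⟩⟩) := hn
    rw [DD.v_zpow] at h1
    have h2 := DD.f_inj D h1
    have h3 := rot_fst K n ⟨i, ⟨0, hK i⟩⟩
    rw [h2] at h3
    exact hij h3.symm
  rest := by
    intro y hy
    obtain ⟨z, k, hk, rfl⟩ := TD.exists_pt (D := D.D2) y
    by_cases h0 : k = 0
    · subst h0
      obtain ⟨h, j, hj, rfl⟩ := TD.exists_pt (D := D.D1) z
      by_cases hj0 : j = 0
      · subst hj0
        exfalso
        obtain ⟨i, a⟩ := h
        refine hy i ⟨((a : ℕ) : ℤ), ?_⟩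
        show ((D.a * D.io * D.b) ^ ((a : ℕ) : ℤ)) (D.D2.base (D.D1.base ⟨i, ⟨0, hK i⟩⟩)) = _
        rw [DD.v_zpow, zpow_natCast, rot_reach]
        rfl
      · refine period_two _ _ ?_ ?_
        · rw [TD.pt_zero, DD.v_base, DD.v_base, D.D1.ga_ga_pt _ hj hj0]
        · rw [TD.pt_zero, DD.v_base]
          intro e
          exact D.D1.ga_fpf D.f1 _ hj hj0 (TD.base_inj e)
    · refine period_two _ _ ?_ ?_
      · rw [DD.v_pt D hk h0, DD.v_pt D _ (by omega)]
        refine TD.pt_ext (DD.lY_anti D z) ?_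
        rw [D.f2.hl, D.D2.sym]
        omega
      · rw [DD.v_pt D hk h0]
        intro e
        exact D.f2.fpf' z (TD.pt_inj e).1

end Pool.Agent.Helper84.MVA
end

/- Helper84.MVA.Exists -/
section
/-!
MV-A4 (every marked surface is a double tower).  Uses `fold`, `fold_fpf`, `rot_*` (Fold, Surf).

PROOF.  `v = a * ι * b`.  `η h = (v ^ (h.2 : ℕ)) (x h.1)` for `h : HK K`.
(1) `η` is injective (`hS.dist` gives equal first components, then `hS.mark`: exponents are
`< minimalPeriod`), `v (η h) = η (rot K h)` (at the last element use `v ^ (K i) (x i) = x i`),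
and an element not in `range η` is in no cycle of an `x i`, so `v (v z) = z`, `v z ≠ z` (`hS.rest`,
`minimalPeriod = 2`).
(2) `fold` with `α = b`, `γ = v`: `D1`, `w1 : D1.T → X`; `fold_fpf`: `D1.τ` has no fixed point.
`w1 (lY D1 y) = v (b (w1 y)) = l (w1 y)` where `l = a * ι` (`b (b z) = z`).
(3) `fold` with `α = ι`, `γ = b`, `η = w1`, `g = D1.al` (`b (b z) = z` everywhere): `D2`,
`w2 : D2.T → X`; `w2 (base y) = w1 y`; `fold_fpf`: `D2.τ` has no fixed point.
(4) For `z` not in `range w1`: `b (l z) = l⁻¹ (b z)` and `l (b z) = b (l⁻¹ z)`.  [`v = l b`; for `z'`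
not in `range η`, `v (v z') = z'`, i.e. `l (b (l (b z'))) = z'`.  `range w1` is invariant under `b`,
`l`, `l⁻¹` (and contains `range η`), so apply it to `z' = b z`: `l (b (l z)) = b z`; second: apply
the first to `l⁻¹ z`.]  Also `ι (l z) = l⁻¹ (ι z)` for all `z` (`ι a ι ι`: `l⁻¹ = ι a`).
(5) CLAIM: for all `j` and `y` with `j < D2.ℓ y` and `j < D2.ℓ (lY y)`:
`w2 (pt (lY y) j) = l (w2 (pt y j))`.  Induction on `j`: `j = 0` is (2).  Step: put
`u = w2 (al (pt y j)) = ι (w2 (pt y j))`, `u' = ι (w2 (pt (lY y) j)) = ι (l (w2 (pt y j))) =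
l⁻¹ u`.  Since `j + 1 < D2.ℓ y`, `al (pt y j)` is not in the base, `u` is not in `range w1`
(injectivity of `w2`), so `w2 (pt (lY y) (j+1)) = b u' = b (l⁻¹ u) = l (b u) = l (w2 (pt y (j+1)))`.
(6) `D2.ℓ (lY y) = D2.ℓ y`: with `j` as in (5), `j + 1 = D2.ℓ y` iff `al (pt y j)` is in the base
iff `u ∈ range w1` iff `l⁻¹ u ∈ range w1` iff `j + 1 = D2.ℓ (lY y)`.  At the top `j + 1 = D2.ℓ y`:
`w1 (τ₂ (lY y)) = u' = l⁻¹ u = l⁻¹ (w1 (τ₂ y))`, so `lY (τ₂ (lY y)) = τ₂ y`; applied to `τ₂ y`: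
`anti`.
(7) `fpf'`: let `lY (τ₂ y) = y`, `m = D2.ℓ y`.  By (5), (6): `a (w2 (pt y k)) = l (ι (w2 (pt y k))) =
l (w2 (pt (τ₂ y) (m-1-k))) = w2 (pt y (m-1-k))`: for `m` odd, `k = (m-1)/2` this is a fixed point
of `a`.  `v (w2 (pt y k)) = l (b (w2 (pt y k))) = w2 (pt y (m-k))` for `k ≠ 0`: for `m` even,
`k = m/2`, this is a fixed point of `v`; it is not in `range w1` (injectivity of `w2`), hence not in
`range η`: contradiction with (1).
(8) `D = ⟨D1, _, D2, _⟩`.  `w2` intertwines `D.io`, `D.b` (fold) and `D.l` with `l` ((5), (6)), so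
also `D.a`.  It is injective; it is surjective because its range is invariant under the subgroup
generated by `a, ι, b` (`Subgroup.closure_induction`; finite, so inverses are fine: each generator
is an involution), `ρ` is nonempty and `hS.conn`.  `e = Equiv.ofBijective w2 _`.
-/

namespace Pool.Agent.Helper84.MVA

open Pool.Agent.Helper60.MV

private theorem ex_finRotate (n : ℕ) (j : Fin n) :
    ((finRotate n j : Fin n) : ℕ) = if (j : ℕ) + 1 = n then 0 else (j : ℕ) + 1 := by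
  cases n with
  | zero => exact j.elim0
  | succ n =>
    rw [coe_finRotate]
    by_cases h : j = Fin.last n
    · rw [if_pos h, if_pos]
      rw [h, Fin.val_last]
    · rw [if_neg h, if_neg]
      intro h2
      apply h
      apply Fin.ext
      rw [Fin.val_last]
      omega

private noncomputable def exEta {ρ X : Type} (K : ρ → ℕ) (v : Equiv.Perm X) (x : ρ → X)
    (h : HK K) : X := (v ^ (h.2 : ℕ)) (x h.1)

private theorem exEta_inj {ρ X : Type} (K : ρ → ℕ) (v : Equiv.Perm X) (x : ρ → X)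
    (mark : ∀ i, Function.minimalPeriod v (x i) = K i)
    (dist : ∀ i j, i ≠ j → ¬ v.SameCycle (x i) (x j)) : Function.Injective (exEta K v x) := by
  rintro ⟨i, j⟩ ⟨i', j'⟩ h
  have h' : (v ^ (j : ℕ)) (x i) = (v ^ (j' : ℕ)) (x i') := h
  have hii : i = i' := by
    by_contra hne
    apply dist i i' hne
    have h1 : v.SameCycle (x i) ((v ^ (j : ℕ)) (x i)) :=
      Equiv.Perm.sameCycle_pow_right.mpr (Equiv.Perm.SameCycle.refl v (x i))
    rw [h'] at h1
    exact Equiv.Perm.sameCycle_pow_right.mp h1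
  subst hii
  have hj : (j : ℕ) = (j' : ℕ) := by
    apply Function.iterate_injOn_Iio_minimalPeriod (f := v) (x := x i)
    · rw [mark i]
      exact j.2
    · rw [mark i]
      exact j'.2
    · show v^[(j : ℕ)] (x i) = v^[(j' : ℕ)] (x i)
      rw [Equiv.Perm.iterate_eq_pow, Equiv.Perm.iterate_eq_pow]
      exact h'
  have hj2 : j = j' := Fin.ext hj
  subst hj2
  rfl

private theorem exEta_rot {ρ X : Type} (K : ρ → ℕ) (v : Equiv.Perm X) (x : ρ → X)
    (mark : ∀ i, Function.minimalPeriod v (x i) = K i) (h : HK K) :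
    v (exEta K v x h) = exEta K v x (rot K h) := by
  obtain ⟨i, j⟩ := h
  have h1 : rot K ⟨i, j⟩ = ⟨i, finRotate (K i) j⟩ := rfl
  rw [h1]
  show v ((v ^ (j : ℕ)) (x i)) = (v ^ ((finRotate (K i) j : Fin (K i)) : ℕ)) (x i)
  rw [ex_finRotate]
  have h2 : v ((v ^ (j : ℕ)) (x i)) = (v ^ ((j : ℕ) + 1)) (x i) := by
    rw [pow_succ']
    rfl
  rw [h2]
  split_ifs with h3
  · rw [h3, ← mark i, ← Equiv.Perm.iterate_eq_pow, Function.iterate_minimalPeriod]
    rfl
  · rfl

private theorem exEta_rest {ρ X : Type} [Finite X] (K : ρ → ℕ) (hK : ∀ i, 0 < K i)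
    (v : Equiv.Perm X) (x : ρ → X)
    (mark : ∀ i, Function.minimalPeriod v (x i) = K i)
    (rest : ∀ y, (∀ i, ¬ v.SameCycle (x i) y) → Function.minimalPeriod v y = 2) (z : X)
    (hz : z ∉ Set.range (exEta K v x)) : v (v z) = z ∧ v z ≠ z := by
  have h1 : ∀ i, ¬ v.SameCycle (x i) z := by
    intro i hi
    obtain ⟨n, hn⟩ := hi.exists_nat_pow_eq
    apply hz
    refine ⟨⟨i, ⟨n % K i, Nat.mod_lt _ (hK i)⟩⟩, ?_⟩
    show (v ^ (n % K i)) (x i) = z
    rw [← hn, ← Equiv.Perm.iterate_eq_pow, ← Equiv.Perm.iterate_eq_pow, ← mark i,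
      Function.iterate_mod_minimalPeriod_eq]
  have h2 := rest z h1
  refine ⟨?_, ?_⟩
  · have h3 := Function.iterate_minimalPeriod (f := v) (x := z)
    rw [h2] at h3
    exact h3
  · intro h3
    have h4 := Function.minimalPeriod_eq_one_iff_isFixedPt.mpr h3
    rw [h2] at h4
    omega

theorem exists_iso {ρ X : Type} [Nonempty ρ] [Finite X] {K : ρ → ℕ} (hK : ∀ i, 0 < K i)
    (a ι b : Equiv.Perm X) (x : ρ → X) (hS : IsSurf K a ι b x) :
    ∃ (D : DD K) (e : D.X ≃ X), IsIso hK a ι b x D e := by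
  classical
  obtain ⟨ha, hι, hb, conn, mark, dist, rest⟩ := hS
  -- step 1
  have hηinj := exEta_inj K (a * ι * b) x mark dist
  have hηrot := exEta_rot K (a * ι * b) x mark
  have hηrest := exEta_rest K hK (a * ι * b) x mark rest
  -- step 2
  obtain ⟨D1, w1, hw1, hbase1, hal1, hga1⟩ := fold b (a * ι * b) hb.invol _ hηinj (rot K) hηrot
    (fun z hz => (hηrest z hz).1)
  have f1 : ∀ s, D1.τ s ≠ s := by
    refine fold_fpf b (a * ι * b) (rot K) D1 w1 hw1 hal1 hga1 hb.fpf ?_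
    intro z hz
    apply (hηrest z ?_).2
    rintro ⟨s, hs⟩
    exact hz s ((hbase1 s).trans hs)
  have hlY : ∀ y, w1 (lY D1 y) = a (ι (w1 y)) := by
    intro y
    have h1 : lY D1 y = D1.ga (rot K) (D1.al y) := rfl
    rw [h1, hga1, hal1]
    show a (ι (b (b (w1 y)))) = _
    rw [hb.invol]
  -- step 3
  obtain ⟨D2, w2, hw2, hbase2, hal2, hga2⟩ := fold ι b hι.invol w1 hw1 D1.al
    (fun s => (hal1 s).symm) (fun z _ => hb.invol z)
  have f2 : ∀ y, D2.τ y ≠ y :=
    fold_fpf ι b D1.al D2 w2 hw2 hal2 hga2 hι.fpf (fun z _ => hb.fpf z)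
  -- step 4
  have hRl : ∀ z, a (ι z) ∈ Set.range w1 ↔ z ∈ Set.range w1 := by
    intro z
    constructor
    · rintro ⟨y, hy⟩
      refine ⟨(lY D1).symm y, ?_⟩
      have h1 := hlY ((lY D1).symm y)
      rw [Equiv.apply_symm_apply, hy] at h1
      exact (ι.injective (a.injective h1)).symm
    · rintro ⟨y, rfl⟩
      exact ⟨lY D1 y, hlY y⟩
  have hRb : ∀ z, b z ∈ Set.range w1 → z ∈ Set.range w1 := by
    rintro z ⟨y, hy⟩
    refine ⟨D1.al y, ?_⟩
    rw [hal1, hy, hb.invol]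
  have hA : ∀ z, z ∉ Set.range w1 → a (ι (b (a (ι z)))) = b z := by
    intro z hz
    have h1 : b z ∉ Set.range (exEta K (a * ι * b) x) := by
      rintro ⟨s, hs⟩
      apply hz
      apply hRb
      exact ⟨D1.base s, (hbase1 s).trans hs⟩
    have h2 := (hηrest _ h1).1
    have h3 : (a * ι * b) ((a * ι * b) (b z)) = a (ι (b (a (ι (b (b z)))))) := rfl
    rw [h3, hb.invol] at h2
    exact h2
  have hC : ∀ z, a (ι (ι (a (ι z)))) = ι z := by
    intro z
    rw [hι.invol, ha.invol]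
  -- top of the tower
  have hnotR : ∀ (y : D1.T) (j : ℕ) (h : j < D2.ℓ y),
      (ι (w2 (D2.pt y j h)) ∈ Set.range w1 ↔ j + 1 = D2.ℓ y) := by
    intro y j h
    constructor
    · rintro ⟨y', hy'⟩
      rw [← hal2, ← hbase2, D2.al_pt h] at hy'
      have h2 := (TD.pt_inj (hw2 hy')).2
      omega
    · intro h1
      refine ⟨D2.τ y, ?_⟩
      rw [← hbase2, ← D2.al_top h1, hal2]
  -- step 5
  have hcl : ∀ (j : ℕ) (y : D1.T) (h : j < D2.ℓ y) (h' : j < D2.ℓ (lY D1 y)),
      w2 (D2.pt (lY D1 y) j h') = a (ι (w2 (D2.pt y j h))) := by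
    intro j
    induction j with
    | zero =>
      intro y h h'
      rw [TD.pt_zero, TD.pt_zero, hbase2, hbase2, hlY]
    | succ j ih =>
      intro y h h'
      have ihy := ih y (by omega) (by omega)
      rw [← D2.ga_al_pt D1.al h, ← D2.ga_al_pt D1.al h', hga2, hga2, hal2, hal2, ihy]
      have h1 : ι (w2 (D2.pt y j (by omega))) ∉ Set.range w1 := by
        rw [hnotR]
        omega
      have h2 : ι (a (ι (w2 (D2.pt y j (by omega))))) ∉ Set.range w1 := by
        rw [← hRl, hC]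
        exact h1
      have h3 := hA _ h2
      rw [hC] at h3
      exact h3.symm
  -- step 6
  have htop : ∀ (j : ℕ) (y : D1.T) (_ : j < D2.ℓ y) (_ : j < D2.ℓ (lY D1 y)),
      (j + 1 = D2.ℓ y ↔ j + 1 = D2.ℓ (lY D1 y)) := by
    intro j y h h'
    rw [← hnotR y j h, ← hnotR (lY D1 y) j h', hcl j y h h', ← hRl (ι (a (ι (w2 (D2.pt y j h))))),
      hC]
  have hhl : ∀ y, D2.ℓ (lY D1 y) = D2.ℓ y := by
    intro y
    have p1 := D2.pos y
    have p2 := D2.pos (lY D1 y)
    rcases lt_trichotomy (D2.ℓ (lY D1 y)) (D2.ℓ y) with h | h | h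
    · have h1 := htop (D2.ℓ (lY D1 y) - 1) y (by omega) (by omega)
      omega
    · exact h
    · have h1 := htop (D2.ℓ y - 1) y (by omega) (by omega)
      omega
  have hcl2 : ∀ (j : ℕ) (y : D1.T) (h : j < D2.ℓ y),
      w2 (D2.pt (lY D1 y) j (by rw [hhl]; exact h)) = a (ι (w2 (D2.pt y j h))) := by
    intro j y h
    exact hcl j y h _
  have hanti0 : ∀ y, lY D1 (D2.τ (lY D1 y)) = D2.τ y := by
    intro y
    have p1 := D2.pos y
    have h1 : D2.ℓ y - 1 + 1 = D2.ℓ y := by omega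
    have h2 : D2.ℓ y - 1 + 1 = D2.ℓ (lY D1 y) := by rw [hhl]; exact h1
    have e1 : ι (w2 (D2.pt y (D2.ℓ y - 1) (by omega))) = w1 (D2.τ y) := by
      rw [← hal2, D2.al_top h1, hbase2]
    have e2 : ι (w2 (D2.pt (lY D1 y) (D2.ℓ y - 1) (by omega))) = w1 (D2.τ (lY D1 y)) := by
      rw [← hal2, D2.al_top h2, hbase2]
    apply hw1
    rw [hlY, ← e1, ← e2, hcl2 (D2.ℓ y - 1) y (by omega), hC]
  have hanti : ∀ y, D2.τ (lY D1 (D2.τ y)) = (lY D1).symm y := by
    intro y
    rw [Equiv.eq_symm_apply, hanti0, D2.inv]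
  -- step 7
  have hfpf : ∀ y, lY D1 (D2.τ y) ≠ y := by
    intro y hy
    have p1 := D2.pos y
    have hsym := D2.sym y
    rcases Nat.even_or_odd' (D2.ℓ y) with ⟨k, hk | hk⟩
    · have hj : k < D2.ℓ y := by omega
      have hk0 : k ≠ 0 := by omega
      have h1 : w2 (D2.pt y k hj) ∉ Set.range (exEta K (a * ι * b) x) := by
        rintro ⟨s, hs⟩
        rw [← hbase1, ← hbase2] at hs
        exact hk0 (TD.pt_inj (hw2 hs)).2.symm
      apply (hηrest _ h1).2
      show a (ι (b (w2 (D2.pt y k hj)))) = _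
      rw [← hga2, D2.ga_pt D1.al hj hk0, ← hcl2]
      exact congrArg w2 (TD.pt_ext hy (by omega))
    · have hj : k < D2.ℓ y := by omega
      apply ha.fpf (w2 (D2.pt y k hj))
      have h1 : a (w2 (D2.pt y k hj)) = a (ι (ι (w2 (D2.pt y k hj)))) := by rw [hι.invol]
      rw [h1, ← hal2, D2.al_pt hj, ← hcl2]
      exact congrArg w2 (TD.pt_ext hy (by omega))
  -- step 8
  have hgl : IsGl (lY D1) D2 := ⟨f2, hanti, hfpf, hhl⟩
  have key : ∃ e : (⟨D1, f1, D2, hgl⟩ : DD K).X ≃ X, IsIso hK a ι b x ⟨D1, f1, D2, hgl⟩ e := by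
    have hlD : ∀ p : D2.T, w2 ((⟨D1, f1, D2, hgl⟩ : DD K).l p) = a (ι (w2 p)) := by
      intro p
      obtain ⟨y, j, hj, rfl⟩ := TD.exists_pt p
      exact hcl2 j y hj
    have haD : ∀ p : D2.T, w2 ((⟨D1, f1, D2, hgl⟩ : DD K).a p) = a (w2 p) := by
      intro p
      have h1 : (⟨D1, f1, D2, hgl⟩ : DD K).a p = (⟨D1, f1, D2, hgl⟩ : DD K).l (D2.al p) := rfl
      rw [h1, hlD, hal2, hι.invol]
    have hxD : ∀ i, w2 ((⟨D1, f1, D2, hgl⟩ : DD K).x hK i) = x i := by
      intro i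
      show w2 (D2.base (D1.base ⟨i, ⟨0, hK i⟩⟩)) = x i
      rw [hbase2, hbase1]
      rfl
    have hsurj : Function.Surjective w2 := by
      intro z
      obtain ⟨i0⟩ := ‹Nonempty ρ›
      obtain ⟨g, hg, hgz⟩ := conn (x i0) z
      have hclos : ∀ g ∈ Subgroup.closure ({a, ι, b} : Set (Equiv.Perm X)),
          ∀ p, (p ∈ Set.range w2 ↔ g p ∈ Set.range w2) := by
        intro g hg
        induction hg using Subgroup.closure_induction with
        | mem g hg =>
          have hstep : ∀ g : Equiv.Perm X, (∀ p, g (g p) = p) →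
              (∀ p, p ∈ Set.range w2 → g p ∈ Set.range w2) →
              ∀ p, (p ∈ Set.range w2 ↔ g p ∈ Set.range w2) := by
            intro g h1 h2 p
            refine ⟨h2 p, fun h3 => ?_⟩
            have h4 := h2 _ h3
            rw [h1] at h4
            exact h4
          rcases hg with rfl | rfl | rfl
          · apply hstep _ ha.invol
            rintro p ⟨q, rfl⟩
            exact ⟨_, haD q⟩
          · apply hstep _ hι.invol
            rintro p ⟨q, rfl⟩
            exact ⟨_, hal2 q⟩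
          · apply hstep _ hb.invol
            rintro p ⟨q, rfl⟩
            exact ⟨_, hga2 q⟩
        | one => intro p; rfl
        | mul g g' _ _ h1 h2 =>
          intro p
          rw [h2 p, h1 (g' p)]
          rfl
        | inv g _ h1 =>
          intro p
          have h2 : g (g⁻¹ p) = p := by simp
          rw [h1 (g⁻¹ p), h2]
      have h5 := (hclos g hg (x i0)).mp ⟨_, hxD i0⟩
      rw [hgz] at h5
      exact h5
    refine ⟨Equiv.ofBijective w2 ⟨hw2, hsurj⟩, ⟨?_, ?_, ?_, ?_⟩⟩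
    · intro p
      exact haD p
    · intro p
      exact hal2 p
    · intro p
      exact hga2 p
    · intro i
      exact hxD i
  exact ⟨_, key⟩

end Pool.Agent.Helper84.MVA
end

/- Helper84.MVA.Rigid -/
section
/-!
MV-A2 (RIGIDITY OF TOWERS).

PROOF.  Step 1: by induction on `j`, for all `s` with `j < D.ℓ s`, `j < D'.ℓ s`:
`w (pt s j) = w' (pt s j)` (`TD.ga_al_pt`: `pt s (j+1) = ga g (al (pt s j))`, so
`w (pt s (j+1)) = γ (α (w (pt s j)))`, the same for `w'`).
Step 2: `D.ℓ s = D'.ℓ s`.  Suppose `n + 1 = D.ℓ s < D'.ℓ s`.  Then by `TD.al_top`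
`w (al (pt s n)) = w (base (τ s)) = w' (base (τ s))`, and `w' (al (pt s n)) = α (w' (pt s n)) =
α (w (pt s n)) = w (al (pt s n))`; so by injectivity of `w'`, `D'.al (pt s n) = D'.base (τ s)`, but
`D'.al (pt s n) = pt (τ' s) (D'.ℓ s - 1 - n)` with `D'.ℓ s - 1 - n ≥ 1`: contradiction (`pt_inj`).
Symmetric for `>`.  Then also `τ s = τ' s` (both tops are in the base).
Step 3: `TD.ext` (`τ`, `ℓ`; the other fields are proofs).
-/

namespace Pool.Agent.Helper84.MVA

open Pool.Agent.Helper60.MV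

private theorem rigid_step {X S : Type} (D D' : TD S) (α γ : Equiv.Perm X) (g : Equiv.Perm S)
    (w : D.T → X) (w' : D'.T → X)
    (hb : ∀ s, w (D.base s) = w' (D'.base s))
    (h1 : ∀ p, w (D.al p) = α (w p)) (h2 : ∀ p, w (D.ga g p) = γ (w p))
    (h1' : ∀ p, w' (D'.al p) = α (w' p)) (h2' : ∀ p, w' (D'.ga g p) = γ (w' p))
    (s : S) (j : ℕ) : ∀ (h : j < D.ℓ s) (h' : j < D'.ℓ s),
      w (D.pt s j h) = w' (D'.pt s j h') := by
  induction j with
  | zero => intro h h'; exact hb s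
  | succ j ih =>
    intro h h'
    rw [← D.ga_al_pt g h, ← D'.ga_al_pt g h', h2, h2', h1, h1', ih]

private theorem rigid_top {X S : Type} (D D' : TD S) (α γ : Equiv.Perm X) (g : Equiv.Perm S)
    (w : D.T → X) (w' : D'.T → X) (hw' : Function.Injective w')
    (hb : ∀ s, w (D.base s) = w' (D'.base s))
    (h1 : ∀ p, w (D.al p) = α (w p)) (h2 : ∀ p, w (D.ga g p) = γ (w p))
    (h1' : ∀ p, w' (D'.al p) = α (w' p)) (h2' : ∀ p, w' (D'.ga g p) = γ (w' p))
    (s : S) (n : ℕ) (hn : n + 1 = D.ℓ s) (h' : n < D'.ℓ s) :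
    D'.τ s = D.τ s ∧ D'.ℓ s - 1 - n = 0 := by
  have e1 : w (D.al (D.pt s n (by omega))) = w' (D'.base (D.τ s)) := by
    rw [D.al_top hn, hb]
  have e2 : w' (D'.al (D'.pt s n h')) = w' (D'.base (D.τ s)) := by
    rw [h1', ← rigid_step D D' α γ g w w' hb h1 h2 h1' h2' s n (by omega) h', ← h1, e1]
  have e3 := hw' e2
  rw [D'.al_pt h'] at e3
  exact TD.pt_inj e3

private theorem rigid_le {X S : Type} (D D' : TD S) (α γ : Equiv.Perm X) (g : Equiv.Perm S)
    (w : D.T → X) (w' : D'.T → X) (hw' : Function.Injective w')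
    (hb : ∀ s, w (D.base s) = w' (D'.base s))
    (h1 : ∀ p, w (D.al p) = α (w p)) (h2 : ∀ p, w (D.ga g p) = γ (w p))
    (h1' : ∀ p, w' (D'.al p) = α (w' p)) (h2' : ∀ p, w' (D'.ga g p) = γ (w' p))
    (s : S) : D'.ℓ s ≤ D.ℓ s := by
  by_contra hlt
  have hp := D.pos s
  have := (rigid_top D D' α γ g w w' hw' hb h1 h2 h1' h2' s (D.ℓ s - 1) (by omega)
    (by omega)).2
  omega

theorem rigid {X S : Type} (D D' : TD S) (α γ : Equiv.Perm X) (g : Equiv.Perm S)
    (w : D.T → X) (w' : D'.T → X) (hw : Function.Injective w) (hw' : Function.Injective w')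
    (hb : ∀ s, w (D.base s) = w' (D'.base s))
    (h1 : ∀ p, w (D.al p) = α (w p)) (h2 : ∀ p, w (D.ga g p) = γ (w p))
    (h1' : ∀ p, w' (D'.al p) = α (w' p)) (h2' : ∀ p, w' (D'.ga g p) = γ (w' p)) :
    D = D' ∧ ∀ s j (h : j < D.ℓ s) (h' : j < D'.ℓ s), w (D.pt s j h) = w' (D'.pt s j h') := by
  have hl : ∀ s, D.ℓ s = D'.ℓ s := fun s => le_antisymm
    (rigid_le D' D α γ g w' w hw (fun s => (hb s).symm) h1' h2' h1 h2 s)
    (rigid_le D D' α γ g w w' hw' hb h1 h2 h1' h2' s)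
  refine ⟨?_, fun s j h h' => rigid_step D D' α γ g w w' hb h1 h2 h1' h2' s j h h'⟩
  refine TD.ext ?_ (funext hl)
  ext s
  have hp := D.pos s
  have hl' := hl s
  exact (rigid_top D D' α γ g w w' hw' hb h1 h2 h1' h2' s (D.ℓ s - 1) (by omega)
    (by omega)).1.symm

end Pool.Agent.Helper84.MVA
end

/- Helper84.MVA.Unique -/
section
/-!
MV-A5 (uniqueness of the double tower).  Uses `rigid` (Rigid.lean) and `rot_reach` (Surf.lean).

PROOF.  Let `v = a * ι * b`.  `w1 y = e (D.D2.base y)` is injective on `D.D1.T`, with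
`w1 (al y) = b (w1 y)` (`D.b (base y) = base (al y)`, `TD.ga_base`) and
`w1 (ga (rot K) y) = v (w1 y)` (`D.a * D.io * D.b = D.l * D.b` as `D.io` is an involution, and
`D.l (base z) = base (lY z)`, `lY (al y) = ga (rot K) (al (al y)) = ga (rot K) y`).
`w1 (base h)` with `h = ⟨i, j⟩`: `base h = (ga (rot K))^j (base ⟨i,0⟩)` (`rot_reach`, `ga_base`), so
`w1 (base h) = v^j (x i)`.  The same for `D'`.  So `rigid` (with `α = b`, `γ = v`, `g = rot K`)
gives `D.D1 = D'.D1` and `w1 = w1'`.  After `subst` (destruct `D`, `D'` first: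
`obtain ⟨D1, f1, D2, f2⟩ := D`), `rigid` with `α = ι`, `γ = b`, `g = D1.al` gives `D2 = D2'` and
`e = e'`.
-/

namespace Pool.Agent.Helper84.MVA

open Pool.Agent.Helper60.MV

private theorem w_al {ρ X : Type} {K : ρ → ℕ} {hK : ∀ i, 0 < K i} {a ι b : Equiv.Perm X}
    {x : ρ → X} {D : DD K} {e : D.X ≃ X} (h : IsIso hK a ι b x D e) (y : D.D1.T) :
    e (D.D2.base (D.D1.al y)) = b (e (D.D2.base y)) := by
  rw [← h.hb (D.D2.base y)]
  exact congrArg e (D.D2.ga_base D.D1.al y).symm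

private theorem w_ga {ρ X : Type} {K : ρ → ℕ} {hK : ∀ i, 0 < K i} {a ι b : Equiv.Perm X}
    {x : ρ → X} {D : DD K} {e : D.X ≃ X} (h : IsIso hK a ι b x D e) (y : D.D1.T) :
    e (D.D2.base (D.D1.ga (rot K) y)) = (a * ι * b) (e (D.D2.base y)) := by
  have h1 : (a * ι * b) (e (D.D2.base y)) = a (ι (b (e (D.D2.base y)))) := rfl
  rw [h1, ← h.hb (D.D2.base y), ← h.hι, ← h.ha]
  congr 1
  have h2 : D.b (D.D2.base y) = D.D2.base (D.D1.al y) := D.D2.ga_base D.D1.al y
  have h3 : D.a (D.io (D.b (D.D2.base y))) = D.l (D.io (D.io (D.b (D.D2.base y)))) := rfl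
  have h4 : D.io (D.io (D.b (D.D2.base y))) = D.b (D.D2.base y) := D.D2.al_al _
  rw [h3, h4, h2]
  have h5 : D.l (D.D2.base (D.D1.al y)) = D.D2.base (lY D.D1 (D.D1.al y)) := rfl
  rw [h5]
  have h6 : lY D.D1 (D.D1.al y) = D.D1.ga (rot K) (D.D1.al (D.D1.al y)) := rfl
  rw [h6, D.D1.al_al]

private theorem base_pow {ρ : Type} {K : ρ → ℕ} (D1 : TD (HK K)) (n : ℕ) (s : HK K) :
    D1.base (((rot K) ^ n) s) = ((D1.ga (rot K)) ^ n) (D1.base s) := by
  induction n with
  | zero => rfl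
  | succ n ih =>
    rw [pow_succ', pow_succ', Equiv.Perm.mul_apply, Equiv.Perm.mul_apply, ← ih, D1.ga_base]

private theorem w_base {ρ X : Type} {K : ρ → ℕ} {hK : ∀ i, 0 < K i} {a ι b : Equiv.Perm X}
    {x : ρ → X} {D : DD K} {e : D.X ≃ X} (h : IsIso hK a ι b x D e) (s : HK K) :
    e (D.D2.base (D.D1.base s)) = ((a * ι * b) ^ (s.2 : ℕ)) (x s.1) := by
  obtain ⟨i, j⟩ := s
  have h0 : ∀ n : ℕ, ∀ y : D.D1.T, e (D.D2.base (((D.D1.ga (rot K)) ^ n) y)) =
      ((a * ι * b) ^ n) (e (D.D2.base y)) := by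
    intro n
    induction n with
    | zero => intro y; rfl
    | succ n ih =>
      intro y
      rw [pow_succ', pow_succ', Equiv.Perm.mul_apply, Equiv.Perm.mul_apply, w_ga h, ih]
  have h1 : D.D1.base (⟨i, j⟩ : HK K) =
      ((D.D1.ga (rot K)) ^ (j : ℕ)) (D.D1.base ⟨i, ⟨0, hK i⟩⟩) := by
    rw [← base_pow, rot_reach K hK i j]
  rw [h1, h0]
  have h2 : e (D.D2.base (D.D1.base ⟨i, ⟨0, hK i⟩⟩)) = x i := h.hx i
  rw [h2]

theorem unique_iso {ρ X : Type} {K : ρ → ℕ} (hK : ∀ i, 0 < K i) (a ι b : Equiv.Perm X)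
    (x : ρ → X) (D D' : DD K) (e : D.X ≃ X) (e' : D'.X ≃ X) (h : IsIso hK a ι b x D e)
    (h' : IsIso hK a ι b x D' e') : (⟨D, e⟩ : Σ D : DD K, D.X ≃ X) = ⟨D', e'⟩ := by
  have key := rigid D.D1 D'.D1 b (a * ι * b) (rot K) (fun y => e (D.D2.base y))
    (fun y => e' (D'.D2.base y)) (fun y z hyz => TD.base_inj (e.injective hyz))
    (fun y z hyz => TD.base_inj (e'.injective hyz))
    (fun s => (w_base h s).trans (w_base h' s).symm)
    (fun y => w_al h y) (fun y => w_ga h y) (fun y => w_al h' y) (fun y => w_ga h' y)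
  obtain ⟨hD1, hw⟩ := key
  obtain ⟨D1, f1, D2, f2⟩ := D
  obtain ⟨D1', f1', D2', f2'⟩ := D'
  simp only at hD1
  subst hD1
  have hw2 : ∀ y : D1.T, e (D2.base y) = e' (D2'.base y) := by
    intro y
    obtain ⟨s, j, hj, rfl⟩ := TD.exists_pt y
    exact hw s j hj hj
  have key2 := rigid D2 D2' ι b D1.al (fun p => e p) (fun p => e' p) e.injective e'.injective
    hw2 h.hι h.hb h'.hι h'.hb
  obtain ⟨hD2, hw3⟩ := key2
  subst hD2
  have he : e = e' := by
    ext p
    obtain ⟨s, j, hj, hp⟩ := TD.exists_pt (D := D2) p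
    rw [hp]
    exact hw3 s j hj hj
  subst he
  rfl

end Pool.Agent.Helper84.MVA
end

/- Helper84.MVA.Card -/
section
/-!
MV-A6 (counting surfaces = counting double towers).  Uses `exists_iso`, `unique_iso`, `DD.isSurf`.

PROOF.  Put `X = Fin (2 * L)`.  For `(D, e)` with `D.Cn`, `e : D.X ≃ X`, transport the structure of
`D` by `e`: `a' = e.permCongr D.a` etc., `x' = e ∘ D.x hK`; it satisfies `IsSurf` (`DD.isSurf`,
transport) and `IsIso`.  Conversely (`exists_iso`) every surface has a `(D, e)` with `IsIso`, and then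
`D.Cn` holds by transport of `hS.conn`.  `(D, e)` is unique by `unique_iso`.  Hence
`{surfaces on X} ≃ Σ D : {D : DD K // D.Cn}, (D.X ≃ X)`
`≃ Σ D : {D : DD K // D.Cn ∧ Nat.card D.X = 2 * L}, (D.X ≃ X)` (if `D.X ≃ Fin (2 L)` then the
cardinality is `2 L`) `≃ {D // ..} × Equiv.Perm (Fin (2 * L))` (choose for each `D` in the subtype an
equivalence `D.X ≃ Fin (2 L)`: `Finite.equivFinOfCardEq`, compose).  `Nat.card_prod`,
`Nat.card_perm`/`Fintype.card_perm`, divide by `(2 L)!`.  Finiteness: the set of surfaces is finite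
(subtype of a finite type), so the product is finite, and `Equiv.Perm _` is nonempty.
-/

namespace Pool.Agent.Helper84.MVA

open Pool.Agent.Helper60.MV

private theorem pc_apply {X Y : Type} (e : X ≃ Y) (f : Equiv.Perm X) (x : X) :
    e.permCongrHom f (e x) = e (f x) := by
  change e (f (e.symm (e x))) = e (f x)
  rw [e.symm_apply_apply]

private theorem pc_apply' {X Y : Type} (e : X ≃ Y) (f : Equiv.Perm X) (y : Y) :
    e.permCongrHom f y = e (f (e.symm y)) := rfl

private theorem pc_eq {X Y : Type} (e : X ≃ Y) (f : Equiv.Perm X) (g : Equiv.Perm Y)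
    (h : ∀ x, e (f x) = g (e x)) : e.permCongrHom f = g := by
  ext y
  rw [pc_apply', h, e.apply_symm_apply]

private theorem pc_pairing {X Y : Type} (e : X ≃ Y) {f : Equiv.Perm X} (h : IsPairing f) :
    IsPairing (e.permCongrHom f) where
  invol y := by
    obtain ⟨x, rfl⟩ := e.surjective y
    rw [pc_apply, pc_apply, h.invol]
  fpf y := by
    obtain ⟨x, rfl⟩ := e.surjective y
    rw [pc_apply]
    exact fun h' => h.fpf x (e.injective h')

private theorem pc_zpow {X Y : Type} (e : X ≃ Y) (f : Equiv.Perm X) (k : ℤ) (x : X) :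
    ((e.permCongrHom f) ^ k) (e x) = e ((f ^ k) x) := by
  rw [← map_zpow, pc_apply]

private theorem pc_same {X Y : Type} (e : X ≃ Y) (f : Equiv.Perm X) (x x' : X) :
    (e.permCongrHom f).SameCycle (e x) (e x') ↔ f.SameCycle x x' := by
  constructor
  · rintro ⟨k, hk⟩
    refine ⟨k, e.injective ?_⟩
    rw [← pc_zpow, hk]
  · rintro ⟨k, hk⟩
    refine ⟨k, ?_⟩
    rw [pc_zpow, hk]

private theorem pc_period {X Y : Type} (e : X ≃ Y) (f : Equiv.Perm X) (x : X) :
    Function.minimalPeriod (e.permCongrHom f) (e x) = Function.minimalPeriod f x := by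
  rw [Function.minimalPeriod_eq_minimalPeriod_iff]
  intro n
  constructor
  · intro h
    have h2 := h.map (g := e.symm) (fb := f) (fun y => by
      rw [pc_apply', e.symm_apply_apply])
    rwa [e.symm_apply_apply] at h2
  · intro h
    exact h.map (g := e) (fun x => (pc_apply e f x).symm)

private theorem pc_clos {X Y : Type} (e : X ≃ Y) (a ι b : Equiv.Perm X) {g : Equiv.Perm X}
    (hg : g ∈ Subgroup.closure ({a, ι, b} : Set (Equiv.Perm X))) :
    e.permCongrHom g ∈ Subgroup.closure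
      ({e.permCongrHom a, e.permCongrHom ι, e.permCongrHom b} : Set (Equiv.Perm Y)) := by
  induction hg using Subgroup.closure_induction with
  | mem x hx =>
    apply Subgroup.subset_closure
    rcases hx with rfl | rfl | rfl
    · exact Or.inl rfl
    · exact Or.inr (Or.inl rfl)
    · exact Or.inr (Or.inr rfl)
  | one => rw [map_one]; exact Subgroup.one_mem _
  | mul x y _ _ h1 h2 => rw [map_mul]; exact Subgroup.mul_mem _ h1 h2
  | inv x _ h1 => rw [map_inv]; exact Subgroup.inv_mem _ h1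

private theorem pc_trans {X Y : Type} (e : X ≃ Y) (a ι b : Equiv.Perm X)
    (hc : ∀ y z : X, ∃ g ∈ Subgroup.closure ({a, ι, b} : Set (Equiv.Perm X)), g y = z) :
    ∀ y z : Y, ∃ g ∈ Subgroup.closure
      ({e.permCongrHom a, e.permCongrHom ι, e.permCongrHom b} : Set (Equiv.Perm Y)), g y = z := by
  intro y z
  obtain ⟨y, rfl⟩ := e.surjective y
  obtain ⟨z, rfl⟩ := e.surjective z
  obtain ⟨g, hg, hgy⟩ := hc y z
  refine ⟨e.permCongrHom g, pc_clos e a ι b hg, ?_⟩
  rw [pc_apply, hgy]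

private theorem pc_surf {X Y ρ : Type} {K : ρ → ℕ} (e : X ≃ Y) {a ι b : Equiv.Perm X} {x : ρ → X}
    (h : IsSurf K a ι b x) :
    IsSurf K (e.permCongrHom a) (e.permCongrHom ι) (e.permCongrHom b) (fun i => e (x i)) where
  ha := pc_pairing e h.ha
  hι := pc_pairing e h.hι
  hb := pc_pairing e h.hb
  conn := pc_trans e a ι b h.conn
  mark i := by
    rw [← map_mul, ← map_mul, pc_period, h.mark]
  dist i j hij := by
    rw [← map_mul, ← map_mul, pc_same]
    exact h.dist i j hij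
  rest y hy := by
    obtain ⟨y, rfl⟩ := e.surjective y
    rw [← map_mul, ← map_mul, pc_period]
    apply h.rest
    intro i
    have := hy i
    rwa [← map_mul, ← map_mul, pc_same] at this

/-- the type of surfaces -/
private def Srf {ρ : Type} (K : ρ → ℕ) (X : Type) : Type :=
  {q : (Equiv.Perm X × Equiv.Perm X × Equiv.Perm X) × (ρ → X) //
    IsSurf K q.1.1 q.1.2.1 q.1.2.2 q.2}

/-- connected double towers with `N` elements -/
private def Sb {ρ : Type} (K : ρ → ℕ) (N : ℕ) : Type :=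
  {D : DD K // D.Cn ∧ Nat.card D.X = N}

/-- transport -/
private def tr {ρ : Type} {K : ρ → ℕ} (hK : ∀ i, 0 < K i) (X : Type) (N : ℕ)
    (p : Σ D : Sb K N, (D.1.X ≃ X)) : Srf K X :=
  ⟨((p.2.permCongrHom p.1.1.a, p.2.permCongrHom p.1.1.io, p.2.permCongrHom p.1.1.b),
    fun i => p.2 (p.1.1.x hK i)), pc_surf p.2 (DD.isSurf hK p.1.1 p.1.2.1)⟩

private theorem tr_iso {ρ : Type} {K : ρ → ℕ} (hK : ∀ i, 0 < K i) (X : Type) (N : ℕ)
    (p : Σ D : Sb K N, (D.1.X ≃ X)) :
    IsIso hK (tr hK X N p).1.1.1 (tr hK X N p).1.1.2.1 (tr hK X N p).1.1.2.2 (tr hK X N p).1.2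
      p.1.1 p.2 where
  ha q := (pc_apply p.2 p.1.1.a q).symm
  hι q := (pc_apply p.2 p.1.1.io q).symm
  hb q := (pc_apply p.2 p.1.1.b q).symm
  hx _ := rfl

private theorem tr_inj {ρ : Type} {K : ρ → ℕ} (hK : ∀ i, 0 < K i) (X : Type) (N : ℕ) :
    Function.Injective (tr hK X N) := by
  intro p q hpq
  have h1 := tr_iso hK X N p
  have h2 := tr_iso hK X N q
  rw [← hpq] at h2
  have h3 := unique_iso hK _ _ _ _ _ _ _ _ h1 h2
  obtain ⟨⟨D, hD⟩, e⟩ := p
  obtain ⟨⟨D', hD'⟩, e'⟩ := q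
  simp only [Sigma.mk.injEq] at h3
  obtain ⟨h4, h5⟩ := h3
  subst h4
  have h6 : e = e' := eq_of_heq h5
  subst h6
  rfl

private theorem tr_surj {ρ : Type} [Nonempty ρ] {K : ρ → ℕ} (hK : ∀ i, 0 < K i) (X : Type)
    [Finite X] : Function.Surjective (tr hK X (Nat.card X)) := by
  rintro ⟨⟨⟨a, ι, b⟩, x⟩, hS⟩
  obtain ⟨D, e, hI⟩ := exists_iso hK a ι b x hS
  have ea : e.permCongrHom D.a = a := pc_eq e _ _ hI.ha
  have ei : e.permCongrHom D.io = ι := pc_eq e _ _ hI.hι
  have eb : e.permCongrHom D.b = b := pc_eq e _ _ hI.hb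
  have ea' : e.symm.permCongrHom a = D.a := by
    rw [← ea]; ext q
    rw [pc_apply', pc_apply', e.symm_symm, e.symm_apply_apply, e.symm_apply_apply]
  have ei' : e.symm.permCongrHom ι = D.io := by
    rw [← ei]; ext q
    rw [pc_apply', pc_apply', e.symm_symm, e.symm_apply_apply, e.symm_apply_apply]
  have eb' : e.symm.permCongrHom b = D.b := by
    rw [← eb]; ext q
    rw [pc_apply', pc_apply', e.symm_symm, e.symm_apply_apply, e.symm_apply_apply]
  have hcn : D.Cn := by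
    have h := pc_trans e.symm a ι b hS.conn
    rw [ea', ei', eb'] at h
    exact h
  refine ⟨⟨⟨D, hcn, Nat.card_congr e⟩, e⟩, ?_⟩
  apply Subtype.ext
  change ((e.permCongrHom D.a, e.permCongrHom D.io, e.permCongrHom D.b),
    fun i => e (D.x hK i)) = ((a, ι, b), x)
  rw [ea, ei, eb]
  congr 1
  funext i
  exact hI.hx i

theorem card_DD {ρ : Type} [Fintype ρ] [Nonempty ρ] (K : ρ → ℕ) (hK : ∀ i, 0 < K i) (L : ℕ) :
    Finite {D : DD K // D.Cn ∧ Nat.card D.X = 2 * L} ∧
    cL K L = (Nat.card {D : DD K // D.Cn ∧ Nat.card D.X = 2 * L} : ℝ) := by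
  classical
  have hX : Nat.card (Fin (2 * L)) = 2 * L := by simp
  let E1 : (Σ D : Sb K (Nat.card (Fin (2 * L))), (D.1.X ≃ Fin (2 * L))) ≃ Srf K (Fin (2 * L)) :=
    Equiv.ofBijective _ ⟨tr_inj hK _ _, tr_surj hK _⟩
  have hE : ∀ D : Sb K (Nat.card (Fin (2 * L))), Nonempty (D.1.X ≃ Fin (2 * L)) := by
    intro D
    have : Finite D.1.X := inferInstance
    exact ⟨Finite.equivFinOfCardEq (D.2.2.trans hX)⟩
  let E2 : (Σ D : Sb K (Nat.card (Fin (2 * L))), (D.1.X ≃ Fin (2 * L))) ≃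
      Sb K (Nat.card (Fin (2 * L))) × Equiv.Perm (Fin (2 * L)) :=
    Equiv.sigmaEquivProdOfEquiv fun D => Equiv.equivCongr (hE D).some (Equiv.refl _)
  let E3 := E2.symm.trans E1
  have : Finite (Srf K (Fin (2 * L))) := by
    unfold Srf
    infer_instance
  have hf : Finite (Sb K (Nat.card (Fin (2 * L)))) := by
    have := Finite.of_equiv _ E3.symm
    exact Finite.prod_left (Equiv.Perm (Fin (2 * L)))
  have hc := Nat.card_congr E3
  rw [Nat.card_prod, Nat.card_perm, hX] at hc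
  rw [hX] at hf
  refine ⟨hf, ?_⟩
  have h2 : cL K L = (Nat.card (Srf K (Fin (2 * L))) : ℝ) / ((2 * L).factorial : ℝ) := rfl
  rw [h2, ← hc, Nat.cast_mul, mul_div_assoc, div_self, mul_one]
  · rfl
  · exact_mod_cast (Nat.factorial_pos _).ne'

end Pool.Agent.Helper84.MVA
end

/- Helper84.MVA.FaceEq -/
section
/-!
MV-A7 (faces = cycles of `lY` in the first tower).

PROOF of `exists_faceEq`.  `lY (pt h j) = pt h (j+1)` for `j + 1 < ℓ h` (`lY_pt`),
`lY (pt h (ℓ h - 1)) = base (φ h)`, `φ = rot K * D1.τ` (`lY_top`).  So `pt h j = lY^j (base h)`,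
and `lY^(ℓ h) (base h) = base (φ h)`.  Hence the map `cyc φ h ↦ cyc lY (base h)` is well defined
(`Quotient.map`; `SameCycle φ h h'`: `h' = φ^n h`, `n : ℤ`; induct, or use finiteness to have
`n : ℕ`), surjective (`cyc lY (pt h j) = cyc lY (base h)`), and injective: if
`SameCycle lY (base h) (base h')`, then (finite) `base h' = lY^k (base h)`, `k : ℕ`; by strong
induction on `k`: `k = 0` trivial; if `k < ℓ h` then `lY^k (base h) = pt h k` is a base point only if
`k = 0`; else `lY^k (base h) = lY^(k - ℓ h) (base (φ h))`, apply the induction hypothesis to `φ h`.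
(Alternatively: the function `pt h j ↦ cyc φ h` on the tower is invariant under `lY`, which gives
the inverse map directly!  This is the easy way: `Quotient.lift`, both maps and the two composites.)

Cardinality: `{y // cyc lY y = faceEq (cyc φ h0)}` consists of the `pt h j` with
`cyc φ h = cyc φ h0`, `j < ℓ h`: it is in bijection with `Σ h : {h // cyc φ h = f}, Fin (ℓ h)`.
-/

namespace Pool.Agent.Helper84.MVA

open Pool.Agent.Helper60.MV Finset

/-- size of a cycle -/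
noncomputable def csz {Y : Type} (l : Equiv.Perm Y) (f : Cyc l) : ℕ :=
  Nat.card {y : Y // cyc l y = f}

private theorem lY_pow {ρ : Type} {K : ρ → ℕ} (D1 : TD (HK K)) (h : HK K) (j : ℕ)
    (hj : j < D1.ℓ h) : cyc (lY D1) (D1.pt h j hj) = cyc (lY D1) (D1.base h) := by
  induction j with
  | zero => rfl
  | succ j ih =>
    rw [← lY_pt D1 hj, cyc_apply]
    exact ih (by omega)

private theorem base_phi {ρ : Type} {K : ρ → ℕ} (D1 : TD (HK K)) (h : HK K) :
    cyc (lY D1) (D1.base ((rot K * D1.τ) h)) = cyc (lY D1) (D1.base h) := by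
  have hp := D1.pos h
  rw [← lY_top D1 (h := h) (j := D1.ℓ h - 1) (by omega), cyc_apply]
  exact lY_pow D1 h _ _

private theorem sameCycle_lift {H Y : Type} (g : Equiv.Perm H) (F : H → Y)
    (hF : ∀ h, F (g h) = F h) {a b : H} (h : g.SameCycle a b) : F a = F b := by
  obtain ⟨k, rfl⟩ := h
  have h1 : ∀ k : ℤ, ∀ x, F ((g ^ k) x) = F x := by
    intro k
    induction k with
    | zero => intro x; simp
    | succ k ih =>
      intro x
      rw [zpow_add_one, Equiv.Perm.mul_apply, ih, hF]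
    | pred k ih =>
      intro x
      rw [zpow_sub_one, Equiv.Perm.mul_apply, ih, ← hF (g⁻¹ x)]
      congr 1
      exact g.apply_symm_apply x
  exact (h1 k a).symm

theorem exists_faceEq {ρ : Type} {K : ρ → ℕ} (D1 : TD (HK K)) :
    ∃ F : Cyc (rot K * D1.τ) ≃ Cyc (lY D1), ∀ h j (hj : j < D1.ℓ h),
      F (cyc (rot K * D1.τ) h) = cyc (lY D1) (D1.pt h j hj) := by
  have hB : ∀ p : D1.T, cyc (rot K * D1.τ) ((lY D1 p).1.1) = cyc (rot K * D1.τ) p.1.1 := by
    intro p
    obtain ⟨h, j, hj, rfl⟩ := TD.exists_pt p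
    by_cases hj' : j + 1 < D1.ℓ h
    · rw [lY_pt D1 hj']
      rfl
    · rw [lY_top D1 (by omega)]
      exact cyc_apply (l := rot K * D1.τ) h
  let A : Cyc (rot K * D1.τ) → Cyc (lY D1) :=
    Quotient.lift (fun h => cyc (lY D1) (D1.base h))
      (fun a b hab => sameCycle_lift _ (fun h => cyc (lY D1) (D1.base h)) (base_phi D1) hab)
  let B : Cyc (lY D1) → Cyc (rot K * D1.τ) :=
    Quotient.lift (fun p => cyc (rot K * D1.τ) p.1.1)
      (fun a b hab => sameCycle_lift _ (fun p : D1.T => cyc (rot K * D1.τ) p.1.1) hB hab)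
  refine ⟨⟨A, B, ?_, ?_⟩, ?_⟩
  · intro c
    obtain ⟨h, rfl⟩ := cyc_surj c
    rfl
  · intro c
    obtain ⟨p, rfl⟩ := cyc_surj c
    obtain ⟨h, j, hj, rfl⟩ := TD.exists_pt p
    exact (lY_pow D1 h j hj).symm
  · intro h j hj
    exact (lY_pow D1 h j hj).symm

/-- faces -/
noncomputable def faceEq {ρ : Type} {K : ρ → ℕ} (D1 : TD (HK K)) :
    Cyc (rot K * D1.τ) ≃ Cyc (lY D1) := (exists_faceEq D1).choose

theorem faceEq_cyc {ρ : Type} {K : ρ → ℕ} (D1 : TD (HK K)) (h : HK K) (j : ℕ) (hj : j < D1.ℓ h) :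
    faceEq D1 (cyc (rot K * D1.τ) h) = cyc (lY D1) (D1.pt h j hj) :=
  (exists_faceEq D1).choose_spec h j hj

theorem csz_faceEq {ρ : Type} [Fintype ρ] {K : ρ → ℕ} (D1 : TD (HK K))
    (f : Cyc (rot K * D1.τ)) :
    csz (lY D1) (faceEq D1 f) =
      ∑ h : HK K, if cyc (rot K * D1.τ) h = f then D1.ℓ h else 0 := by
  classical
  have e1 : {y : D1.T // cyc (lY D1) y = faceEq D1 f} ≃
      Σ h : {h : HK K // cyc (rot K * D1.τ) h = f}, Fin (D1.ℓ h.1) :=
    { toFun := fun y => ⟨⟨y.1.1.1, by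
        obtain ⟨y, hy⟩ := y
        obtain ⟨h, j, hj, rfl⟩ := TD.exists_pt y
        rw [← faceEq_cyc] at hy
        exact (faceEq D1).injective hy⟩, ⟨y.1.1.2, y.1.2⟩⟩
      invFun := fun s => ⟨D1.pt s.1.1 s.2.1 s.2.2, by
        rw [← faceEq_cyc, s.1.2]⟩
      left_inv := fun y => rfl
      right_inv := fun s => rfl }
  unfold csz
  rw [Nat.card_congr e1, Nat.card_eq_fintype_card, Fintype.card_sigma]
  simp only [Fintype.card_fin]
  rw [← Finset.sum_filter]
  exact (Finset.sum_subtype _ (fun h => by simp) (fun h => D1.ℓ h)).symm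

end Pool.Agent.Helper84.MVA
end

/- Helper84.MVA.Trans -/
section
/-!
MV-A12 (connectedness).  `D.toConf` is the configuration of a double tower.

PROOF of `Cn_iff`.  Write `~` for `Relation.EqvGen` of the relation in `Conf.Conn`.
(=>) Define `q : D.X → HK K`, `q (pt (pt h j) k) = h` (`p.1.1.1.1`).  For each of the generators
`g ∈ {a, io, b}` and all `p`: `q (g p) ~ q p`:
 * `io (pt y k) = pt (τ₂ y) _`; if `y = pt h j`, `τ₂ y = pt h' j'`, then
   `faceEq (face h') = cyc lY (τ₂ y) = glBeta (cyc lY y) = glBeta (faceEq (face h))`, so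
   `face h' = β (face h)` by definition of `toConf.β`: a generator of `~`.
 * `b (base (pt h j)) = base (al (pt h j))`, `al (pt h j) = pt (τ₁ h) _`, and `h ~ τ₁ h`;
   `b (pt y k)`, `k ≠ 0`, is `pt (τ₂ y) _` as for `io`.
 * `a = l * io`, and `l (pt (pt h j) k) = pt (lY (pt h j)) k`, `lY (pt h j) = pt h (j+1)` or
   `base (rot K (τ₁ h))`: `h ~ τ₁ h ~ rot K (τ₁ h)`.
 By `Subgroup.closure_induction` `q (g p) ~ q p` for all `g` in the closure (inverse: symmetric).
 Given `h, h'`, apply it to `base (base h)`, `base (base h')`.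
(<=) Let `G` be the closure and `p ≈ p'` iff `∃ g ∈ G, g p = p'` (an equivalence relation).
 `D.l ∈ G` (`D.l = D.a * D.io` since `D.io * D.io = 1`).
 * `pt y k ≈ base y`: induction on `k`, `pt y (k+1) = b (io (pt y k))` (`TD.ga_al_pt`).
 * `base (pt h j) ≈ base (base h)`: `lY (pt h j) = pt h (j+1)`, `D.l (base y) = base (lY y)`.
 * `base (base h) ≈ base (base (τ₁ h))`: `b (base (base h)) = base (al (base h)) =
   base (pt (τ₁ h) (ℓ h - 1))`.
 * `base (base h) ≈ base (base (rot K h))`: `l (b (base (base h))) = base (lY (al (base h))) =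
   base (base (rot K h))` (`lY y = ga (al y)`, `al_al`, `ga_base`).
 * if `face h' = β (face h)`: `io (base (base h)) = pt (τ₂ (base h)) _ ≈ base (τ₂ (base h))`; let
   `τ₂ (base h) = pt h'' j`, `≈ base (base h'')`; the cycle of `lY` through `τ₂ (base h)` is
   `glBeta (cyc lY (base h)) = faceEq (β (face h)) = faceEq (face h') = cyc lY (base h')`, so
   `base h' = lY^n (τ₂ (base h))` for some `n : ℤ`, and `D.l^n ∈ G` maps `base y` to
   `base (lY^n y)`.
-/

namespace Pool.Agent.Helper84.MVA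

open Pool.Agent.Helper60.MV Finset

/-- the configuration of a double tower -/
noncomputable def DD.toConf {ρ : Type} {K : ρ → ℕ} (D : DD K) : Conf (rot K) where
  τ := D.D1.τ
  hτ := ⟨D.D1.inv, D.f1⟩
  β := ((faceEq D.D1).trans (glBeta D.f2)).trans (faceEq D.D1).symm
  hβ := ⟨fun f => by
      have := (glBeta_pairing D.f2).invol (faceEq D.D1 f)
      simp only [Equiv.trans_apply, Equiv.apply_symm_apply, this, Equiv.symm_apply_apply],
    fun f => by
      have := (glBeta_pairing D.f2).fpf (faceEq D.D1 f)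
      simp only [Equiv.trans_apply, ne_eq, Equiv.symm_apply_eq]
      exact this⟩

section trans

variable {ρ : Type} {K : ρ → ℕ} (D : DD K)

private theorem faceEq_beta (h : HK K) :
    faceEq D.D1 (D.toConf.β (D.toConf.face h)) =
      glBeta D.f2 (faceEq D.D1 (D.toConf.face h)) := by
  change faceEq D.D1 ((faceEq D.D1).symm (glBeta D.f2 (faceEq D.D1 (D.toConf.face h)))) = _
  rw [Equiv.apply_symm_apply]

private theorem face_tau (y : D.D1.T) :
    D.toConf.face (D.D2.τ y).1.1 = D.toConf.β (D.toConf.face y.1.1) := by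
  apply (faceEq D.D1).injective
  rw [faceEq_beta]
  have e1 : faceEq D.D1 (D.toConf.face (D.D2.τ y).1.1) = cyc (lY D.D1) (D.D2.τ y) :=
    faceEq_cyc D.D1 (D.D2.τ y).1.1 (D.D2.τ y).1.2 (D.D2.τ y).2
  have e2 : faceEq D.D1 (D.toConf.face y.1.1) = cyc (lY D.D1) y :=
    faceEq_cyc D.D1 y.1.1 y.1.2 y.2
  rw [e1, e2, glBeta_cyc]

/-- the half-edge below a square -/
private def qq (p : D.X) : HK K := (show D.D2.T from p).1.1.1.1

/-- the generating relation -/
private def rr (a b : HK K) : Prop :=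
  b = rot K a ∨ b = D.toConf.τ a ∨ D.toConf.face b = D.toConf.β (D.toConf.face a)

private theorem io_rel (p : D.X) : Relation.EqvGen (rr D) (qq D p) (qq D (D.io p)) := by
  obtain ⟨y, k, hk, rfl⟩ := TD.exists_pt (D := D.D2) p
  exact Relation.EqvGen.rel _ _ (Or.inr (Or.inr (face_tau D y)))

private theorem al_fst (y : D.D1.T) : (D.D1.al y).1.1 = D.D1.τ y.1.1 := rfl

private theorem b_rel (p : D.X) : Relation.EqvGen (rr D) (qq D p) (qq D (D.b p)) := by
  obtain ⟨y, k, hk, rfl⟩ := TD.exists_pt (D := D.D2) p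
  by_cases h0 : k = 0
  · subst h0
    have e : D.b (D.D2.pt y 0 hk) = D.D2.base (D.D1.al y) := D.D2.ga_base D.D1.al y
    rw [e]
    exact Relation.EqvGen.rel _ _ (Or.inr (Or.inl rfl))
  · have e : D.b (D.D2.pt y k hk) =
        D.D2.pt (D.D2.τ y) (D.D2.ℓ y - k) (by rw [D.D2.sym]; omega) :=
      D.D2.ga_pt D.D1.al hk h0
    rw [e]
    exact Relation.EqvGen.rel _ _ (Or.inr (Or.inr (face_tau D y)))

private theorem lY_rel (y : D.D1.T) :
    Relation.EqvGen (rr D) y.1.1 (lY D.D1 y).1.1 := by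
  obtain ⟨h, j, hj, rfl⟩ := TD.exists_pt (D := D.D1) y
  by_cases h1 : j + 1 < D.D1.ℓ h
  · have e : lY D.D1 (D.D1.pt h j hj) = D.D1.pt h (j + 1) h1 := lY_pt D.D1 h1
    rw [e]
    exact Relation.EqvGen.refl _
  · have h2 : j + 1 = D.D1.ℓ h := by omega
    have e : lY D.D1 (D.D1.pt h j hj) = D.D1.base ((rot K * D.D1.τ) h) := lY_top D.D1 h2
    rw [e]
    refine Relation.EqvGen.trans _ (D.D1.τ h) _ ?_ ?_
    · exact Relation.EqvGen.rel _ _ (Or.inr (Or.inl rfl))
    · exact Relation.EqvGen.rel _ _ (Or.inl rfl)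

private theorem l_rel (p : D.X) : Relation.EqvGen (rr D) (qq D p) (qq D (D.l p)) := by
  obtain ⟨y, k, hk, rfl⟩ := TD.exists_pt (D := D.D2) p
  exact lY_rel D y

private theorem a_rel (p : D.X) : Relation.EqvGen (rr D) (qq D p) (qq D (D.a p)) :=
  Relation.EqvGen.trans _ _ _ (io_rel D p) (l_rel D (D.io p))

private theorem clos_rel {g : Equiv.Perm D.X}
    (hg : g ∈ Subgroup.closure ({D.a, D.io, D.b} : Set (Equiv.Perm D.X))) :
    ∀ p, Relation.EqvGen (rr D) (qq D p) (qq D (g p)) := by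
  induction hg using Subgroup.closure_induction with
  | mem x hx =>
    intro p
    rcases hx with rfl | rfl | rfl
    · exact a_rel D p
    · exact io_rel D p
    · exact b_rel D p
  | one => intro p; exact Relation.EqvGen.refl _
  | mul x y _ _ h1 h2 =>
    intro p
    exact Relation.EqvGen.trans _ _ _ (h2 p) (h1 (y p))
  | inv x _ h1 =>
    intro p
    have h2 := h1 (x⁻¹ p)
    have e : x (x⁻¹ p) = p := x.apply_symm_apply p
    rw [e] at h2
    exact Relation.EqvGen.symm _ _ h2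

/-- same orbit -/
private def OO (p p' : D.X) : Prop :=
  ∃ g ∈ Subgroup.closure ({D.a, D.io, D.b} : Set (Equiv.Perm D.X)), g p = p'

private theorem OO.rfl' (p : D.X) : OO D p p := ⟨1, Subgroup.one_mem _, rfl⟩

private theorem OO.symm' {p p' : D.X} (h : OO D p p') : OO D p' p := by
  obtain ⟨g, hg, rfl⟩ := h
  exact ⟨g⁻¹, Subgroup.inv_mem _ hg, g.symm_apply_apply p⟩

private theorem OO.trans' {p p' p'' : D.X} (h : OO D p p') (h' : OO D p' p'') : OO D p p'' := by
  obtain ⟨g, hg, rfl⟩ := h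
  obtain ⟨g', hg', rfl⟩ := h'
  exact ⟨g' * g, Subgroup.mul_mem _ hg' hg, rfl⟩

private theorem io_mem :
    D.io ∈ Subgroup.closure ({D.a, D.io, D.b} : Set (Equiv.Perm D.X)) :=
  Subgroup.subset_closure (by simp)

private theorem b_mem :
    D.b ∈ Subgroup.closure ({D.a, D.io, D.b} : Set (Equiv.Perm D.X)) :=
  Subgroup.subset_closure (by simp)

private theorem l_mem :
    D.l ∈ Subgroup.closure ({D.a, D.io, D.b} : Set (Equiv.Perm D.X)) := by
  have e : D.l = D.a * D.io := by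
    ext1 p
    change D.l p = D.l (D.io (D.io p))
    have : D.io (D.io p) = p := D.D2.al_al p
    rw [this]
  rw [e]
  exact Subgroup.mul_mem _ (Subgroup.subset_closure (by simp)) (io_mem D)

private theorem oo_pt (y : D.D1.T) (k : ℕ) (hk : k < D.D2.ℓ y) :
    OO D (D.D2.base y) (D.D2.pt y k hk) := by
  induction k with
  | zero => exact OO.rfl' D _
  | succ k ih =>
    refine OO.trans' D (ih (by omega)) ⟨D.b * D.io, Subgroup.mul_mem _ (b_mem D) (io_mem D), ?_⟩
    exact D.D2.ga_al_pt D.D1.al hk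

private theorem l_zpow_base (n : ℤ) (y : D.D1.T) :
    (D.l ^ n) (D.D2.base y) = D.D2.base (((lY D.D1) ^ n) y) := by
  have h0 : ∀ z, D.l (D.D2.base z) = D.D2.base (lY D.D1 z) := fun z => rfl
  have h1 : ∀ z, D.l⁻¹ (D.D2.base z) = D.D2.base ((lY D.D1)⁻¹ z) := by
    intro z
    have e : lY D.D1 ((lY D.D1)⁻¹ z) = z := (lY D.D1).apply_symm_apply z
    rw [Equiv.Perm.inv_eq_iff_eq, h0, e]
  induction n with
  | zero => rfl
  | succ n ih =>
    rw [add_comm, zpow_add, zpow_add, Equiv.Perm.mul_apply, Equiv.Perm.mul_apply, ih, zpow_one,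
      zpow_one, h0]
  | pred n ih =>
    rw [sub_eq_add_neg, add_comm, zpow_add, zpow_add, Equiv.Perm.mul_apply,
      Equiv.Perm.mul_apply, ih, zpow_neg_one, zpow_neg_one, h1]

private theorem oo_zpow (n : ℤ) (y : D.D1.T) :
    OO D (D.D2.base y) (D.D2.base (((lY D.D1) ^ n) y)) :=
  ⟨D.l ^ n, Subgroup.zpow_mem _ (l_mem D) n, l_zpow_base D n y⟩

private theorem oo_lY (y : D.D1.T) : OO D (D.D2.base y) (D.D2.base (lY D.D1 y)) :=
  ⟨D.l, l_mem D, rfl⟩

private theorem oo_pt1 (h : HK K) (j : ℕ) (hj : j < D.D1.ℓ h) :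
    OO D (D.D2.base (D.D1.base h)) (D.D2.base (D.D1.pt h j hj)) := by
  induction j with
  | zero => exact OO.rfl' D _
  | succ j ih =>
    refine OO.trans' D (ih (by omega)) ?_
    have h1 := oo_lY D (D.D1.pt h j (by omega))
    rw [lY_pt D.D1 hj] at h1
    exact h1

private theorem oo_al (y : D.D1.T) : OO D (D.D2.base y) (D.D2.base (D.D1.al y)) :=
  ⟨D.b, b_mem D, D.D2.ga_base D.D1.al y⟩

private theorem oo_tau (h : HK K) :
    OO D (D.D2.base (D.D1.base h)) (D.D2.base (D.D1.base (D.D1.τ h))) := by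
  have h1 := oo_al D (D.D1.base h)
  refine OO.trans' D h1 (OO.symm' D ?_)
  exact oo_pt1 D (D.D1.τ h) _ _

private theorem oo_rot (h : HK K) :
    OO D (D.D2.base (D.D1.base h)) (D.D2.base (D.D1.base (rot K h))) := by
  refine OO.trans' D (oo_al D (D.D1.base h)) ?_
  have h1 := oo_lY D (D.D1.al (D.D1.base h))
  have e : lY D.D1 (D.D1.al (D.D1.base h)) = D.D1.base (rot K h) := by
    change D.D1.ga (rot K) (D.D1.al (D.D1.al (D.D1.base h))) = _
    rw [D.D1.al_al, D.D1.ga_base]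
  rw [e] at h1
  exact h1

private theorem oo_face (h h' : HK K)
    (hf : D.toConf.face h' = D.toConf.β (D.toConf.face h)) :
    OO D (D.D2.base (D.D1.base h)) (D.D2.base (D.D1.base h')) := by
  have h1 : OO D (D.D2.base (D.D1.base h)) (D.D2.base (D.D2.τ (D.D1.base h))) := by
    refine OO.trans' D (p' := D.io (D.D2.base (D.D1.base h))) ⟨D.io, io_mem D, rfl⟩ ?_
    exact OO.symm' D (oo_pt D _ _ _)
  refine OO.trans' D h1 ?_
  have h2 : cyc (lY D.D1) (D.D2.τ (D.D1.base h)) = cyc (lY D.D1) (D.D1.base h') := by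
    have e1 : faceEq D.D1 (D.toConf.face h') = cyc (lY D.D1) (D.D1.base h') :=
      faceEq_cyc D.D1 h' 0 _
    have e2 : faceEq D.D1 (D.toConf.face h) = cyc (lY D.D1) (D.D1.base h) :=
      faceEq_cyc D.D1 h 0 _
    rw [← e1, hf, faceEq_beta, e2, glBeta_cyc]
  obtain ⟨n, hn⟩ := cyc_eq_iff.1 h2
  have h3 := oo_zpow D n (D.D2.τ (D.D1.base h))
  rw [hn] at h3
  exact h3

private theorem oo_gen {h h' : HK K} (hh : Relation.EqvGen (rr D) h h') :
    OO D (D.D2.base (D.D1.base h)) (D.D2.base (D.D1.base h')) := by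
  induction hh with
  | rel x y h =>
    rcases h with rfl | rfl | h
    · exact oo_rot D x
    · exact oo_tau D x
    · exact oo_face D x y h
  | refl x => exact OO.rfl' D _
  | symm x y _ ih => exact OO.symm' D ih
  | trans x y z _ _ ih1 ih2 => exact OO.trans' D ih1 ih2

end trans

theorem Cn_iff {ρ : Type} [Finite ρ] {K : ρ → ℕ} (D : DD K) : D.Cn ↔ D.toConf.Conn := by
  constructor
  · intro hC h h'
    obtain ⟨g, hg, he⟩ := hC (D.D2.base (D.D1.base h)) (D.D2.base (D.D1.base h'))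
    have h1 := clos_rel D hg (D.D2.base (D.D1.base h))
    rw [he] at h1
    exact h1
  · intro hC p p'
    obtain ⟨y, k, hk, rfl⟩ := TD.exists_pt (D := D.D2) p
    obtain ⟨y', k', hk', rfl⟩ := TD.exists_pt (D := D.D2) p'
    obtain ⟨h, j, hj, rfl⟩ := TD.exists_pt (D := D.D1) y
    obtain ⟨h', j', hj', rfl⟩ := TD.exists_pt (D := D.D1) y'
    have h1 := oo_gen D (hC h h')
    exact OO.trans' D (OO.symm' D (OO.trans' D (oo_pt1 D h j hj) (oo_pt D _ k hk)))
      (OO.trans' D h1 (OO.trans' D (oo_pt1 D h' j' hj') (oo_pt D _ k' hk')))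

end Pool.Agent.Helper84.MVA
end

/- Helper84.MVA.Anti -/
section
/-!
MV-A8 (number of antitranslations).

`AT l β`: the involutions `t` of `Y` with `t l t = l⁻¹` which induce `β` on the cycles of `l`.

PROOF of `AT_csz`.  `t` maps the cycle `f` bijectively onto the cycle `β f` (inverse `t`).

PROOF of `card_AT`.  For `c : Cyc β` let `f_c = c.rep : Cyc l`, `y_c = f_c.rep : Y`
(`cyc l y_c = f_c`, `cyc_rep`).  Since `β` is a fixed point free involution, every `f : Cyc l` is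
either `f_c` or `β f_c ≠ f_c` for exactly one `c = cyc β f` (cycles of an involution: `SameCycle β f g`
iff `g = f` or `g = β f`).  The map
`AT l β → Π c : Cyc β, {z : Y // cyc l z = β f_c}`, `t ↦ (t y_c)_c` is a bijection; then
`Nat.card_pi`, and the cardinality of `{z // cyc l z = β f_c}` is `csz l (β f_c) = csz l f_c`.
Injective: `t (l^k y_c) = l^(-k) (t y_c)` (`anti_zpow` in Double.lean), so `t` is determined on the
cycles `f_c`; and on `β f_c` it is the inverse (`t (l^(-k) z_c) = l^k (t z_c)`, `t z_c = y_c`).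
Surjective: given `z_c`, define `t (l^k y_c) = l^(-k) z_c`, `t (l^(-k) z_c) = l^k y_c`
(`k : ℤ`).  Well defined because `y_c` and `z_c` have the same minimal period under `l`
(`= csz l f_c = csz l (β f_c)`): `l^k y_c = l^j y_c ↔ l^k z_c = l^j z_c` (prove this first; e.g.
`csz l (cyc l y) = Function.minimalPeriod l y`, and `l^k y = y ↔ (minimalPeriod l y : ℤ) ∣ k`,
cf. `Function.isPeriodicPt...`, `Equiv.Perm.zpow_apply_eq...`).
To define the function: for `y : Y` let `c = cyc β (cyc l y)`; if `cyc l y = f_c` choose `k` with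
`y = l^k y_c` and put `t y = l^(-k) z_c`; otherwise choose `k` with `y = l^(-k) z_c` and put
`t y = l^k y_c`.  It is an involution, so it is a permutation (`Function.Involutive.toPerm`).
-/

namespace Pool.Agent.Helper84.MVA

open Pool.Agent.Helper60.MV Finset

/-- antitranslations inducing `β` -/
def AT {Y : Type} (l : Equiv.Perm Y) (β : Equiv.Perm (Cyc l)) : Type :=
  {t : Equiv.Perm Y // (∀ y, t (t y) = y) ∧ (∀ y, t (l (t y)) = l.symm y) ∧
    ∀ y, cyc l (t y) = β (cyc l y)}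

private theorem an_dvd {Y : Type} [Finite Y] (l : Equiv.Perm Y) (a : Y) (k : ℤ) :
    (l ^ k) a = a ↔ (csz l (cyc l a) : ℤ) ∣ k := by
  classical
  have := Fintype.ofFinite Y
  have := Fintype.ofFinite (MulAction.orbit (Subgroup.zpowers l) a)
  have h1 := MulAction.zpow_smul_eq_iff_minimalPeriod_dvd (a := l) (b := a) (n := k)
  have h2 : csz l (cyc l a) = Function.minimalPeriod (l • ·) a := by
    rw [MulAction.minimalPeriod_eq_card, ← Nat.card_eq_fintype_card]
    unfold csz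
    refine Nat.card_congr (Equiv.subtypeEquivRight ?_)
    intro y
    rw [cyc_eq_iff]
    constructor
    · intro h
      obtain ⟨n, hn⟩ := h.symm
      exact ⟨⟨l ^ n, ⟨n, rfl⟩⟩, hn⟩
    · rintro ⟨⟨g, n, rfl⟩, hg⟩
      exact Equiv.Perm.SameCycle.symm ⟨n, hg⟩
  rw [h2]
  exact h1

private theorem an_shift {Y : Type} [Finite Y] (l : Equiv.Perm Y) {a b : Y}
    (h : csz l (cyc l a) = csz l (cyc l b)) {k j : ℤ} (e : (l ^ k) a = (l ^ j) a) :
    (l ^ (-k)) b = (l ^ (-j)) b := by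
  have h1 : (l ^ (k - j)) a = a := by
    have h2 := congrArg (fun y => (l ^ (-j)) y) e
    simp only [← Equiv.Perm.mul_apply, ← zpow_add] at h2
    rw [show -j + k = k - j by ring, show -j + j = 0 by ring, zpow_zero] at h2
    simpa using h2
  rw [an_dvd, h] at h1
  have h3 : (l ^ (-j + k)) b = b := by
    rw [an_dvd]
    rwa [show -j + k = k - j by ring]
  have h4 := congrArg (fun y => (l ^ (-k)) y) h3
  simp only [← Equiv.Perm.mul_apply, ← zpow_add] at h4
  rw [show -k + (-j + k) = -j by ring] at h4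
  exact h4.symm

private theorem an_two {F : Type} {β : Equiv.Perm F} (hβ : ∀ f, β (β f) = f) {f g : F}
    (h : cyc β f = cyc β g) : g = f ∨ g = β f := by
  obtain ⟨k, hk⟩ := cyc_eq_iff.1 h
  rcases Int.even_or_odd' k with ⟨j, hj | hj⟩
  · left
    rw [← hk, hj, zpow_mul]
    have : β ^ (2 : ℤ) = 1 := by
      ext x
      simpa [zpow_ofNat, sq] using hβ x
    rw [this, one_zpow]
    rfl
  · right
    rw [← hk, hj, zpow_add, zpow_mul]
    have : β ^ (2 : ℤ) = 1 := by
      ext x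
      simpa [zpow_ofNat, sq] using hβ x
    rw [this, one_zpow]
    simp

private theorem an_cyc_zpow {Y : Type} (l : Equiv.Perm Y) (k : ℤ) (y : Y) :
    cyc l ((l ^ k) y) = cyc l y :=
  (cyc_eq_iff.2 ⟨k, rfl⟩ : cyc l y = cyc l ((l ^ k) y)).symm

/-- the graph of the antitranslation with values `z` -/
private def anR {Y : Type} (l : Equiv.Perm Y) (β : Equiv.Perm (Cyc l)) (z : Cyc β → Y)
    (y w : Y) : Prop :=
  ∃ (c : Cyc β) (k : ℤ), (y = (l ^ k) c.rep.rep ∧ w = (l ^ (-k)) (z c)) ∨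
    (y = (l ^ (-k)) (z c) ∧ w = (l ^ k) c.rep.rep)

private theorem anR_symm {Y : Type} {l : Equiv.Perm Y} {β : Equiv.Perm (Cyc l)} {z : Cyc β → Y}
    {y w : Y} (h : anR l β z y w) : anR l β z w y := by
  obtain ⟨c, k, h | h⟩ := h
  · exact ⟨c, k, Or.inr ⟨h.2, h.1⟩⟩
  · exact ⟨c, k, Or.inl ⟨h.2, h.1⟩⟩

private theorem anR_ex {Y : Type} {l : Equiv.Perm Y} {β : Equiv.Perm (Cyc l)}
    (hβ : ∀ f, β (β f) = f) {z : Cyc β → Y} (hz : ∀ c, cyc l (z c) = β c.rep) (y : Y) :
    ∃ w, anR l β z y w := by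
  have h1 : cyc β (cyc β (cyc l y)).rep = cyc β (cyc l y) := cyc_rep _
  rcases an_two hβ h1 with h2 | h2
  · have h3 : cyc l (cyc β (cyc l y)).rep.rep = cyc l y := (cyc_rep _).trans h2.symm
    obtain ⟨k, hk⟩ := cyc_eq_iff.1 h3
    exact ⟨_, cyc β (cyc l y), k, Or.inl ⟨hk.symm, rfl⟩⟩
  · have h3 : cyc l (z (cyc β (cyc l y))) = cyc l y := (hz _).trans h2.symm
    obtain ⟨k, hk⟩ := cyc_eq_iff.1 h3
    refine ⟨_, cyc β (cyc l y), -k, Or.inr ⟨?_, rfl⟩⟩
    rw [neg_neg]
    exact hk.symm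

private theorem anR_uniq {Y : Type} [Finite Y] {l : Equiv.Perm Y} {β : Equiv.Perm (Cyc l)}
    (hβ : IsPairing β) (h : ∀ f, csz l (β f) = csz l f) {z : Cyc β → Y}
    (hz : ∀ c, cyc l (z c) = β c.rep) {y w w' : Y} (h1 : anR l β z y w)
    (h2 : anR l β z y w') : w = w' := by
  have hsz : ∀ c, csz l (cyc l c.rep.rep) = csz l (cyc l (z c)) := by
    intro c
    rw [cyc_rep, hz, h]
  have hcc : ∀ c : Cyc β, cyc β c.rep = c := fun c => cyc_rep c
  have hcb : ∀ c : Cyc β, cyc β (β c.rep) = c := fun c => by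
    rw [cyc_apply, cyc_rep]
  obtain ⟨c, k, ⟨e1, e2⟩ | ⟨e1, e2⟩⟩ := h1 <;> obtain ⟨c', k', ⟨e3, e4⟩ | ⟨e3, e4⟩⟩ := h2
  · have e5 : cyc l ((l ^ k) c.rep.rep) = cyc l ((l ^ k') c'.rep.rep) := by rw [← e1, e3]
    rw [an_cyc_zpow, an_cyc_zpow, cyc_rep, cyc_rep] at e5
    have e6 : c = c' := by rw [← hcc c, e5, hcc]
    subst e6
    rw [e2, e4]
    exact an_shift l (hsz c) (by rw [← e1, e3])
  · exfalso
    have e5 : cyc l ((l ^ k) c.rep.rep) = cyc l ((l ^ (-k')) (z c')) := by rw [← e1, e3]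
    rw [an_cyc_zpow, an_cyc_zpow, cyc_rep, hz] at e5
    have e6 : c = c' := by rw [← hcc c, e5, hcb]
    subst e6
    exact hβ.fpf _ e5.symm
  · exfalso
    have e5 : cyc l ((l ^ (-k)) (z c)) = cyc l ((l ^ k') c'.rep.rep) := by rw [← e1, e3]
    rw [an_cyc_zpow, an_cyc_zpow, cyc_rep, hz] at e5
    have e6 : c = c' := by rw [← hcb c, e5, hcc]
    subst e6
    exact hβ.fpf _ e5
  · have e5 : cyc l ((l ^ (-k)) (z c)) = cyc l ((l ^ (-k')) (z c')) := by rw [← e1, e3]
    rw [an_cyc_zpow, an_cyc_zpow, hz, hz] at e5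
    have e6 : c = c' := by rw [← hcb c, e5, hcb]
    subst e6
    rw [e2, e4]
    have := an_shift l (hsz c).symm (k := -k) (j := -k') (by rw [← e1, e3])
    simpa using this

private theorem anR_anti {Y : Type} {l : Equiv.Perm Y} {β : Equiv.Perm (Cyc l)} {z : Cyc β → Y}
    {y w : Y} (h : anR l β z y w) : anR l β z (l w) (l.symm y) := by
  have hs : ∀ (k : ℤ) (a : Y), l ((l ^ k) a) = (l ^ (k + 1)) a := by
    intro k a
    rw [← Equiv.Perm.mul_apply, ← zpow_one_add, add_comm]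
  have hs' : ∀ (k : ℤ) (a : Y), l.symm ((l ^ k) a) = (l ^ (k - 1)) a := by
    intro k a
    rw [Equiv.symm_apply_eq, hs]
    congr 2
    ring
  obtain ⟨c, k, ⟨e1, e2⟩ | ⟨e1, e2⟩⟩ := h
  · refine ⟨c, k - 1, Or.inr ⟨?_, ?_⟩⟩
    · rw [e2, hs]
      congr 2
      ring
    · rw [e1, hs']
  · refine ⟨c, k + 1, Or.inl ⟨?_, ?_⟩⟩
    · rw [e2, hs]
    · rw [e1, hs']
      congr 2
      ring

private theorem anR_cyc {Y : Type} {l : Equiv.Perm Y} {β : Equiv.Perm (Cyc l)}
    (hβ : ∀ f, β (β f) = f) {z : Cyc β → Y} (hz : ∀ c, cyc l (z c) = β c.rep) {y w : Y}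
    (h : anR l β z y w) : cyc l w = β (cyc l y) := by
  obtain ⟨c, k, ⟨e1, e2⟩ | ⟨e1, e2⟩⟩ := h
  · rw [e1, e2, an_cyc_zpow, an_cyc_zpow, hz, cyc_rep]
  · rw [e1, e2, an_cyc_zpow, an_cyc_zpow, hz, cyc_rep, hβ]

theorem AT_csz {Y : Type} (l : Equiv.Perm Y) (β : Equiv.Perm (Cyc l)) (t : AT l β) (f : Cyc l) :
    csz l (β f) = csz l f := by
  have hinv : β (β f) = f := by
    have h1 := t.2.2.2 f.rep
    have h2 := t.2.2.2 (t.1 f.rep)
    rw [t.2.1, h1, cyc_rep] at h2
    exact h2.symm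
  refine Nat.card_congr ⟨fun y => ⟨t.1 y.1, ?_⟩, fun y => ⟨t.1 y.1, ?_⟩, ?_, ?_⟩
  · rw [t.2.2.2, y.2, hinv]
  · rw [t.2.2.2, y.2]
  · intro y
    exact Subtype.ext (t.2.1 y.1)
  · intro y
    exact Subtype.ext (t.2.1 y.1)

theorem card_AT {Y : Type} [Fintype Y] (l : Equiv.Perm Y) (β : Equiv.Perm (Cyc l))
    (hβ : IsPairing β) (h : ∀ f, csz l (β f) = csz l f) :
    Nat.card (AT l β) = ∏ c : Cyc β, csz l c.rep := by
  classical
  have hinv := hβ.invol
  let Φ : AT l β → (∀ c : Cyc β, {z : Y // cyc l z = β c.rep}) := fun t c =>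
    ⟨t.1 c.rep.rep, by rw [t.2.2.2, cyc_rep]⟩
  have hinj : Function.Injective Φ := by
    intro t t' hE
    have hE' : ∀ c : Cyc β, t.1 c.rep.rep = t'.1 c.rep.rep := fun c =>
      congrArg Subtype.val (congrFun hE c)
    have hE2 : ∀ (c : Cyc β) (k : ℤ), t.1 ((l ^ k) c.rep.rep) = t'.1 ((l ^ k) c.rep.rep) := by
      intro c k
      rw [anti_zpow t.2.1 t.2.2.1, anti_zpow t'.2.1 t'.2.2.1, hE']
    refine Subtype.ext (Equiv.ext ?_)
    intro y
    have h1 : cyc β (cyc β (cyc l y)).rep = cyc β (cyc l y) := cyc_rep _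
    rcases an_two hinv h1 with h2 | h2
    · have h3 : cyc l (cyc β (cyc l y)).rep.rep = cyc l y := (cyc_rep _).trans h2.symm
      obtain ⟨k, hk⟩ := cyc_eq_iff.1 h3
      rw [← hk]
      exact hE2 _ k
    · have h3 : cyc l (cyc β (cyc l y)).rep.rep = cyc l (t.1 y) := by
        rw [t.2.2.2]
        exact (cyc_rep _).trans ((congrArg β h2).trans (hinv _)).symm
      obtain ⟨k, hk⟩ := cyc_eq_iff.1 h3
      have h4 := hE2 (cyc β (cyc l y)) k
      rw [hk, t.2.1] at h4
      have h5 := congrArg t'.1 h4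
      rw [t'.2.1] at h5
      exact h5.symm
  have hsurj : Function.Surjective Φ := by
    intro zz
    let z : Cyc β → Y := fun c => (zz c).1
    have hz : ∀ c, cyc l (z c) = β c.rep := fun c => (zz c).2
    choose T hT using anR_ex (l := l) hinv hz
    have hTT : ∀ y, T (T y) = y := fun y =>
      anR_uniq hβ h hz (hT (T y)) (anR_symm (hT y))
    have hTl : ∀ y, T (l (T y)) = l.symm y := fun y =>
      anR_uniq hβ h hz (hT (l (T y))) (anR_anti (hT y))
    have hTc : ∀ y, cyc l (T y) = β (cyc l y) := fun y => anR_cyc hinv hz (hT y)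
    refine ⟨⟨⟨T, T, hTT, hTT⟩, hTT, hTl, hTc⟩, ?_⟩
    funext c
    refine Subtype.ext ?_
    change T c.rep.rep = (zz c).1
    exact anR_uniq hβ h hz (hT _) ⟨c, 0, Or.inl ⟨by simp, by simp [z]⟩⟩
  rw [Nat.card_congr (Equiv.ofBijective Φ ⟨hinj, hsurj⟩), Nat.card_pi]
  refine Finset.prod_congr rfl ?_
  intro c _
  exact h c.rep

end Pool.Agent.Helper84.MVA
end

/- Helper84.MVA.Height -/
section
/-!
MV-A9 (heights of the cylinders).

A height function is a function on the cylinders; sum of a height function.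
-/

namespace Pool.Agent.Helper84.MVA

open Pool.Agent.Helper60.MV Finset

/-- height functions -/
def HT {Y : Type} (l t : Equiv.Perm Y) : Type :=
  {m : Y → ℕ // (∀ y, 0 < m y) ∧ (∀ y, m (t y) = m y) ∧ ∀ y, m (l y) = m y}

private theorem hc_zpow {Y A : Type} (g : Equiv.Perm Y) (m : Y → A) (h : ∀ y, m (g y) = m y)
    (k : ℤ) (y : Y) : m ((g ^ k) y) = m y := by
  have hs : ∀ y, m (g.symm y) = m y := fun y => by
    have := h (g.symm y)
    rw [Equiv.apply_symm_apply] at this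
    exact this.symm
  induction k using Int.induction_on generalizing y with
  | zero => simp
  | succ i ih =>
    rw [zpow_add_one, Equiv.Perm.mul_apply, ih, h]
  | pred i ih =>
    rw [zpow_sub_one, Equiv.Perm.mul_apply, ih]
    exact hs y

private theorem hc_cyc {Y A : Type} (g : Equiv.Perm Y) (m : Y → A) (h : ∀ y, m (g y) = m y)
    {y z : Y} (e : cyc g y = cyc g z) : m y = m z := by
  obtain ⟨k, rfl⟩ := cyc_eq_iff.1 e
  exact (hc_zpow g m h k y).symm

private theorem hc_two {F : Type} {β : Equiv.Perm F} (hβ : ∀ f, β (β f) = f) {f g : F}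
    (h : cyc β f = cyc β g) : g = f ∨ g = β f := by
  obtain ⟨k, hk⟩ := cyc_eq_iff.1 h
  have h2 : β ^ (2 : ℤ) = 1 := by
    ext x
    simpa [zpow_ofNat, sq] using hβ x
  rcases Int.even_or_odd' k with ⟨j, hj | hj⟩
  · left
    rw [← hk, hj, zpow_mul, h2, one_zpow]
    rfl
  · right
    rw [← hk, hj, zpow_add, zpow_mul, h2, one_zpow]
    simp

theorem exists_heightEq {Y : Type} [Fintype Y] (l : Equiv.Perm Y) (β : Equiv.Perm (Cyc l))
    (hβ : IsPairing β) (t : AT l β) :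
    ∃ F : HT l t.1 ≃ (Cyc β → ℕ+), ∀ m : HT l t.1,
      ∑ y, m.1 y = 2 * ∑ c : Cyc β, csz l c.rep * (F m c : ℕ) := by
  classical
  have hkey : ∀ (m : HT l t.1) (y : Y), m.1 y = m.1 (cyc β (cyc l y)).rep.rep := by
    intro m y
    have h1 : ∀ f : Cyc l, m.1 (β f).rep = m.1 f.rep := by
      intro f
      rw [← m.2.2.1 f.rep]
      refine hc_cyc l m.1 m.2.2.2 ?_
      rw [cyc_rep, t.2.2.2, cyc_rep]
    have h2 : m.1 (cyc l y).rep = m.1 (cyc β (cyc l y)).rep.rep :=
      hc_cyc β (fun f : Cyc l => m.1 f.rep) h1 (by rw [cyc_rep])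
    rw [← h2]
    exact hc_cyc l m.1 m.2.2.2 (by rw [cyc_rep])
  let F : HT l t.1 ≃ (Cyc β → ℕ+) :=
    { toFun := fun m c => ⟨m.1 c.rep.rep, m.2.1 _⟩
      invFun := fun n => ⟨fun y => (n (cyc β (cyc l y)) : ℕ), fun y => (n _).pos, fun y => by
        show ((n (cyc β (cyc l (t.1 y))) : ℕ+) : ℕ) = n (cyc β (cyc l y))
        rw [t.2.2.2, cyc_apply], fun y => by
        show ((n (cyc β (cyc l (l y))) : ℕ+) : ℕ) = n (cyc β (cyc l y))
        rw [cyc_apply]⟩
      left_inv := fun m => Subtype.ext (funext fun y => (hkey m y).symm)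
      right_inv := fun n => funext fun c => PNat.eq (by
        show ((n (cyc β (cyc l c.rep.rep)) : ℕ+) : ℕ) = n c
        rw [cyc_rep, cyc_rep]) }
  refine ⟨F, fun m => ?_⟩
  have hF : ∀ c, ((F m c : ℕ+) : ℕ) = m.1 c.rep.rep := fun c => rfl
  have e1 : ∑ y, m.1 y = ∑ f : Cyc l, csz l f * (F m (cyc β f) : ℕ) := by
    rw [← Finset.sum_fiberwise univ (fun y => cyc l y)]
    refine Finset.sum_congr rfl fun f _ => ?_
    rw [Finset.sum_congr rfl (g := fun _ => (F m (cyc β f) : ℕ)) (fun y hy => by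
      rw [hF, hkey m y, (Finset.mem_filter.1 hy).2])]
    rw [Finset.sum_const, smul_eq_mul]
    congr 1
    rw [csz, Nat.card_eq_fintype_card, Fintype.card_subtype]
  have e2 : ∑ f : Cyc l, csz l f * (F m (cyc β f) : ℕ)
      = ∑ c : Cyc β, 2 * (csz l c.rep * (F m c : ℕ)) := by
    rw [← Finset.sum_fiberwise univ (fun f => cyc β f)]
    refine Finset.sum_congr rfl fun c _ => ?_
    have hfib : (univ.filter fun f : Cyc l => cyc β f = c) = {c.rep, β c.rep} := by
      ext f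
      simp only [Finset.mem_filter, Finset.mem_univ, true_and, Finset.mem_insert,
        Finset.mem_singleton]
      constructor
      · intro h
        refine hc_two hβ.invol ?_
        rw [cyc_rep, h]
      · rintro (h | h)
        · rw [h, cyc_rep]
        · rw [h, cyc_apply, cyc_rep]
    rw [hfib, Finset.sum_pair (fun h => hβ.fpf _ h.symm), AT_csz l β t, cyc_apply, cyc_rep]
    ring
  rw [e1, e2, Finset.mul_sum]

end Pool.Agent.Helper84.MVA
end

/- Helper84.MVA.PiSum -/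
section
/-!
MV-A10 (sums in `ENNReal`).

PROOF of `pi_tsum`.  Induction on the finite type `κ` (`Fintype.induction_empty_option`) or prove it
for `Fin n → ℕ+` by induction on `n` with `Fin.consEquiv`/`Fin.insertNthEquiv`,
`ENNReal.tsum_prod`, `ENNReal.tsum_mul_left`, `ENNReal.tsum_mul_right`, then transport along
`Fintype.equivFin κ`.
PROOF of `geom_tsum`.  `∑_{n ≥ 1} q^n = q/(1-q)`, `q = exp (-(t p)) < 1`
(`tsum_geometric_of_lt_one`, `ENNReal.ofReal_tsum_of_nonneg`, `tsum_pnat..`/`PNat` equivalence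
`Equiv.pnatEquivNat`).
-/

namespace Pool.Agent.Helper84.MVA

open Finset

theorem pi_tsum {κ : Type} [Fintype κ] (f : κ → ℕ+ → ENNReal) :
    ∑' m : κ → ℕ+, ∏ c, f c (m c) = ∏ c, ∑' n : ℕ+, f c n := by
  refine Fintype.induction_empty_option
    (P := fun (α : Type) (_ : Fintype α) => ∀ f : α → ℕ+ → ENNReal,
      ∑' m : α → ℕ+, ∏ c, f c (m c) = ∏ c, ∑' n : ℕ+, f c n) ?_ ?_ ?_ κ f
  · intro α β _ e h f
    letI : Fintype α := Fintype.ofEquiv β e.symm
    have h1 := h (fun a => f (e a))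
    have h2 : ∑' m : β → ℕ+, ∏ c, f c (m c) = ∑' m : α → ℕ+, ∏ a, f (e a) (m a) := by
      rw [← (Equiv.arrowCongr e (Equiv.refl ℕ+)).tsum_eq]
      refine tsum_congr fun m => ?_
      refine (Fintype.prod_equiv e _ _ fun a => ?_).symm
      simp [Equiv.arrowCongr]
    rw [h2, h1]
    exact Fintype.prod_equiv e _ _ fun a => rfl
  · intro f
    simp
  · intro α _ h f
    rw [Fintype.prod_option, ← h (fun a => f (some a)), ← ENNReal.tsum_mul_right]
    rw [← (Equiv.piOptionEquivProd (β := fun _ : Option α => ℕ+)).symm.tsum_eq, ENNReal.tsum_prod']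
    refine tsum_congr fun n => ?_
    rw [← ENNReal.tsum_mul_left]
    refine tsum_congr fun m => ?_
    rw [Fintype.prod_option]
    rfl

theorem geom_tsum (t : ℝ) (ht : 0 < t) (p : ℕ) (hp : 0 < p) :
    ∑' n : ℕ+, ENNReal.ofReal (Real.exp (-(t * ((p : ℝ) * (n : ℕ))))) =
      ENNReal.ofReal (1 / (Real.exp (t * p) - 1)) := by
  set q : ℝ := Real.exp (-(t * p)) with hq
  have hp' : (0 : ℝ) < p := Nat.cast_pos.mpr hp
  have hq0 : 0 < q := Real.exp_pos _
  have hq1 : q < 1 := by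
    rw [hq, Real.exp_lt_one_iff]
    have := mul_pos ht hp'
    linarith
  have h1 : ∀ n : ℕ+, ENNReal.ofReal (Real.exp (-(t * ((p : ℝ) * (n : ℕ))))) =
      (fun k : ℕ => (ENNReal.ofReal q) ^ k) n := by
    intro n
    show _ = (ENNReal.ofReal q) ^ (n : ℕ)
    rw [← ENNReal.ofReal_pow hq0.le, hq, ← Real.exp_nat_mul]
    congr 2
    ring
  rw [tsum_congr h1, tsum_pnat_eq_tsum_succ (f := fun k : ℕ => (ENNReal.ofReal q) ^ k),
    ENNReal.tsum_geometric_add_one]
  have h2 : (1 : ENNReal) - ENNReal.ofReal q = ENNReal.ofReal (1 - q) := by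
    rw [ENNReal.ofReal_sub _ hq0.le, ENNReal.ofReal_one]
  rw [h2, ← ENNReal.ofReal_inv_of_pos (by linarith), ← ENNReal.ofReal_mul hq0.le]
  congr 1
  have h3 : Real.exp (t * p) = q⁻¹ := by
    rw [hq, Real.exp_neg, inv_inv]
  rw [h3]
  have h4 : (1 : ℝ) - q ≠ 0 := by linarith
  have h5 : q⁻¹ - 1 ≠ 0 := by
    have : q⁻¹ - 1 = (1 - q) / q := by field_simp
    rw [this]
    exact div_ne_zero h4 hq0.ne'
  have h6 : q⁻¹ - 1 = (1 - q) / q := by field_simp
  rw [h6]
  field_simp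

end Pool.Agent.Helper84.MVA
end

/- Helper84.MVA.GlueSum -/
section
/-!
MV-A11 (sum over the gluing data of a permutation `l`).  Uses `card_AT`, `AT_csz`,
`exists_heightEq`, `pi_tsum`, `geom_tsum`.

PROOF.  `{D : TD Y // IsGl l D} ≃ Σ β : {β // IsPairing β}, Σ t : AT l β.1, HT l t.1`:
`D ↦ (glBeta, D.τ, D.ℓ)`; conversely `(β, t, m)` gives `D = ⟨t, m, ..⟩`, `IsGl l D` holds:
`t y ≠ y` and `l (t y) ≠ y` since `cyc l (t y) = β (cyc l y) ≠ cyc l y`
(`cyc_apply`).  `glBeta` of it is `β` (`cyc_surj`).  `AT l β` is empty unless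
`csz l (β f) = csz l f` for all `f` (`AT_csz`).  `Nat.card D.T = ∑ y, D.ℓ y` (`D.T` is
`Σ y, Fin (D.ℓ y)`).  So with `exists_heightEq`
`∑'_D F (glBeta D) ofReal (exp (-(t * card / 2)))`
`= ∑'_β F β ∑'_{t' : AT l β} ∑'_{n : Cyc β → ℕ+} ofReal (exp (-(t * ∑_c csz * n_c)))`
`= ∑'_β F β (card AT) ∏_c ∑'_{n : ℕ+} ofReal (exp (-(t csz_c n)))`  (`pi_tsum`,
`Real.exp_sum`, `ENNReal.ofReal_prod_of_nonneg`)
`= ∑'_β F β ∏_c csz_c ∏_c ofReal (1/(exp (t csz_c) - 1))`, and `csz l c.rep > 0` (`Y` finite, the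
cycle contains its representative).  The sum over the finite type `AT l β` of a constant is
`Nat.card * constant` (`tsum_fintype`/`ENNReal.tsum_const`..).
-/

namespace Pool.Agent.Helper84.MVA

open Pool.Agent.Helper60.MV Finset

/-- weight of a cylinder of circumference `p` -/
noncomputable def wt (t : ℝ) (p : ℕ) : ℝ := (p : ℝ) / (Real.exp (t * p) - 1)

/-- parameters of the gluing data -/
private abbrev Par {Y : Type} (l : Equiv.Perm Y) : Type :=
  Σ β : {β : Equiv.Perm (Cyc l) // IsPairing β ∧ ∀ f, csz l (β f) = csz l f},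
    Σ t : AT l β.1, HT l t.1

private def toGl {Y : Type} {l : Equiv.Perm Y} (β : Equiv.Perm (Cyc l)) (hβ : IsPairing β)
    (t : AT l β) (m : HT l t.1) : {D : TD Y // IsGl l D} :=
  ⟨⟨t.1, m.1, t.2.1, m.2.1, m.2.2.1⟩,
    { fpf := fun y h => by
        have h1 := t.2.2.2 y
        have h2 : t.1 y = y := h
        rw [h2] at h1
        exact hβ.fpf _ h1.symm
      anti := t.2.2.1
      fpf' := fun y h => by
        have h1 := t.2.2.2 y
        have h2 : l (t.1 y) = y := h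
        rw [← cyc_apply (t.1 y), h2] at h1
        exact hβ.fpf _ h1.symm
      hl := m.2.2.2 }⟩

private theorem glBeta_toGl {Y : Type} {l : Equiv.Perm Y} (β : Equiv.Perm (Cyc l))
    (hβ : IsPairing β) (t : AT l β) (m : HT l t.1) : glBeta (toGl β hβ t m).2 = β := by
  ext c
  obtain ⟨y, rfl⟩ := cyc_surj c
  rw [glBeta_cyc]
  exact t.2.2.2 y

private theorem toGl_bij {Y : Type} (l : Equiv.Perm Y) :
    Function.Bijective (fun x : Par l => toGl x.1.1 x.1.2.1 x.2.1 x.2.2) := by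
  constructor
  · rintro ⟨⟨β, hβ⟩, t, m⟩ ⟨⟨β', hβ'⟩, t', m'⟩ h
    have h1 : t.1 = t'.1 := congrArg (fun D : {D : TD Y // IsGl l D} => D.1.τ) h
    have h2 : m.1 = m'.1 := congrArg (fun D : {D : TD Y // IsGl l D} => D.1.ℓ) h
    have h3 : β = β' := by
      ext c
      obtain ⟨y, rfl⟩ := cyc_surj c
      rw [← t.2.2.2 y, ← t'.2.2.2 y, h1]
    subst h3
    have h4 : t = t' := Subtype.ext h1
    subst h4
    have h5 : m = m' := Subtype.ext h2
    subst h5
    rfl
  · rintro ⟨D, hD⟩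
    refine ⟨⟨⟨glBeta hD, glBeta_pairing hD, fun f => ?_⟩,
      ⟨D.τ, D.inv, hD.anti, fun y => (glBeta_cyc hD y).symm⟩, ⟨D.ℓ, D.pos, D.sym, hD.hl⟩⟩, rfl⟩
    exact AT_csz l (glBeta hD) ⟨D.τ, D.inv, hD.anti, fun y => (glBeta_cyc hD y).symm⟩ f

private theorem card_T {Y : Type} [Fintype Y] (D : TD Y) : Nat.card D.T = ∑ y, D.ℓ y := by
  have e : D.T ≃ Σ y : Y, Fin (D.ℓ y) :=
    { toFun := fun p => ⟨p.1.1, ⟨p.1.2, p.2⟩⟩
      invFun := fun p => ⟨(p.1, p.2.1), p.2.2⟩
      left_inv := fun p => rfl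
      right_inv := fun p => rfl }
  rw [Nat.card_congr e, Nat.card_eq_fintype_card, Fintype.card_sigma]
  simp

private theorem csz_pos {Y : Type} [Fintype Y] (l : Equiv.Perm Y) (f : Cyc l) : 0 < csz l f := by
  unfold csz
  haveI : Nonempty {y : Y // cyc l y = f} := ⟨⟨f.rep, cyc_rep f⟩⟩
  exact Nat.card_pos

theorem glue_sum {Y : Type} [Fintype Y] (l : Equiv.Perm Y) (t : ℝ) (ht : 0 < t)
    (F : Equiv.Perm (Cyc l) → ENNReal) :
    ∑' D : {D : TD Y // IsGl l D}, F (glBeta D.2) *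
      ENNReal.ofReal (Real.exp (-(t * ((Nat.card D.1.T : ℝ) / 2)))) =
    ∑' β : {β : Equiv.Perm (Cyc l) // IsPairing β ∧ ∀ f, csz l (β f) = csz l f},
      F β.1 * ∏ c : Cyc β.1, ENNReal.ofReal (wt t (csz l c.rep)) := by
  classical
  rw [← (Equiv.ofBijective _ (toGl_bij l)).tsum_eq, ENNReal.tsum_sigma']
  refine tsum_congr fun β => ?_
  rw [ENNReal.tsum_sigma']
  obtain ⟨β, hβ, hcs⟩ := β
  -- the sum over the heights
  have key : ∀ t' : AT l β, ∑' m : HT l t'.1,
      (F (glBeta (toGl β hβ t' m).2) *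
        ENNReal.ofReal (Real.exp (-(t * ((Nat.card (toGl β hβ t' m).1.T : ℝ) / 2))))) =
      F β * ∏ c : Cyc β, ENNReal.ofReal (1 / (Real.exp (t * (csz l c.rep : ℕ)) - 1)) := by
    intro t'
    obtain ⟨G, hG⟩ := exists_heightEq l β hβ t'
    have h1 : ∀ m : HT l t'.1,
        F (glBeta (toGl β hβ t' m).2) *
          ENNReal.ofReal (Real.exp (-(t * ((Nat.card (toGl β hβ t' m).1.T : ℝ) / 2)))) =
        F β * ∏ c : Cyc β, ENNReal.ofReal
          (Real.exp (-(t * ((csz l c.rep : ℕ) * ((G m c : ℕ+) : ℕ))))) := by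
      intro m
      rw [glBeta_toGl]
      congr 1
      have h2 : (Nat.card (toGl β hβ t' m).1.T : ℝ) / 2 =
          ∑ c : Cyc β, ((csz l c.rep : ℕ) : ℝ) * ((G m c : ℕ+) : ℕ) := by
        have h3 : Nat.card (toGl β hβ t' m).1.T =
            2 * ∑ c : Cyc β, csz l c.rep * ((G m c : ℕ+) : ℕ) := by
          rw [card_T]
          exact hG m
        rw [h3]
        push_cast
        ring
      rw [h2, mul_sum, ← sum_neg_distrib, Real.exp_sum, ENNReal.ofReal_prod_of_nonneg]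
      intro c _
      exact (Real.exp_pos _).le
    rw [tsum_congr h1, ENNReal.tsum_mul_left]
    congr 1
    rw [G.tsum_eq (fun n : Cyc β → ℕ+ => ∏ c : Cyc β, ENNReal.ofReal
          (Real.exp (-(t * ((csz l c.rep : ℕ) * ((n c : ℕ+) : ℕ))))))]
    rw [pi_tsum (fun (c : Cyc β) (n : ℕ+) => ENNReal.ofReal
          (Real.exp (-(t * ((csz l c.rep : ℕ) * (n : ℕ))))))]
    refine prod_congr rfl fun c _ => ?_
    exact geom_tsum t ht _ (csz_pos l _)
  have hfin : Finite (AT l β) := inferInstanceAs (Finite {t : Equiv.Perm Y //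
    (∀ y, t (t y) = y) ∧ (∀ y, t (l (t y)) = l.symm y) ∧ ∀ y, cyc l (t y) = β (cyc l y)})
  letI : Fintype (AT l β) := Fintype.ofFinite _
  have e1 : ∑' t' : AT l β, ∑' m : HT l t'.1,
      (F (glBeta (toGl β hβ t' m).2) *
        ENNReal.ofReal (Real.exp (-(t * ((Nat.card (toGl β hβ t' m).1.T : ℝ) / 2))))) =
      (Nat.card (AT l β) : ENNReal) *
        (F β * ∏ c : Cyc β, ENNReal.ofReal (1 / (Real.exp (t * (csz l c.rep : ℕ)) - 1))) := by
    rw [tsum_congr key, tsum_fintype, sum_const, card_univ, nsmul_eq_mul,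
      Nat.card_eq_fintype_card]
  refine e1.trans ?_
  rw [card_AT l β hβ hcs, mul_left_comm]
  congr 1
  rw [Nat.cast_prod, ← prod_mul_distrib]
  refine prod_congr rfl fun c _ => ?_
  rw [← ENNReal.ofReal_natCast, ← ENNReal.ofReal_mul (Nat.cast_nonneg _)]
  congr 1
  unfold wt
  ring

end Pool.Agent.Helper84.MVA
end

/- Helper84.MVA.Summ -/
section
/-!
MV-A13 (summability of `SM`).

PROOF.  `w / (exp w - 1) ≤ exp (-(w/2))` for `w > 0` (as `w ≤ 2 sinh (w/2)`), so
`wt t p ≤ (1/t) exp (-(t p / 2))` (also for `p = 0`: `0/0 = 0`), `wt ≥ 0`.  With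
`p_{c,b} = ∑_e P c b e * l e`: if `p_{c,false} = p_{c,true}` for all `c` then
`∑_c p_{c,false} = (1/2) ∑_c (p_{c,false} + p_{c,true}) = ∑_e l e` (`hcol`), so the term is at most
`(1/t)^|κ| ∏_e exp (-(t/2) * l e)`, which is summable over `ι → ℕ+`.  (In `ENNReal`: the sum of the
bounds is finite by `pi_tsum`, `geom_tsum`.)  Then `ENNReal.ofReal_tsum_of_nonneg`,
`ENNReal.ofReal_prod_of_nonneg`.
-/

namespace Pool.Agent.Helper84.MVA

open Pool.Agent.Helper60.MV Finset

private theorem summ_wt_nonneg (t : ℝ) (ht : 0 < t) (p : ℕ) : 0 ≤ wt t p := by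
  unfold wt
  refine div_nonneg (Nat.cast_nonneg p) ?_
  have : 1 ≤ Real.exp (t * p) := Real.one_le_exp (by positivity)
  linarith

private theorem summ_wt_le (t : ℝ) (ht : 0 < t) (p : ℕ) :
    wt t p ≤ (1 / t) * Real.exp (-(t / 2 * p)) := by
  unfold wt
  rcases Nat.eq_zero_or_pos p with rfl | hp
  · simp only [Nat.cast_zero, zero_div]
    positivity
  · have hp' : (0:ℝ) < p := Nat.cast_pos.2 hp
    have hw : 0 < t * p := by positivity
    have h1 : t * p / 2 ≤ Real.sinh (t * p / 2) := Real.self_le_sinh_iff.2 (by positivity)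
    rw [Real.sinh_eq] at h1
    have h2 : Real.exp (t * p) = Real.exp (t * p / 2) * Real.exp (t * p / 2) := by
      rw [← Real.exp_add]
      congr 1
      ring
    have h3 : Real.exp (-(t / 2 * p)) * Real.exp (t * p / 2) = 1 := by
      rw [← Real.exp_add, Real.exp_eq_one_iff]
      ring
    have h4 : 0 < Real.exp (t * p) - 1 := by
      have := Real.add_one_lt_exp hw.ne'
      linarith
    have h7 : Real.exp (-(t / 2 * p)) = Real.exp (-(t * p / 2)) := by
      congr 1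
      ring
    have h5 : Real.exp (-(t / 2 * p)) * (Real.exp (t * p) - 1) =
        Real.exp (t * p / 2) - Real.exp (-(t * p / 2)) := by
      rw [h2, mul_sub, ← mul_assoc, h3, one_mul, mul_one, h7]
    rw [div_le_iff₀ h4, mul_assoc, h5, one_div, ← div_eq_inv_mul, le_div_iff₀ ht]
    linarith

private theorem summ_term_le {ι κ : Type} [Fintype ι] [Fintype κ] (P : κ → Bool → ι → ℕ)
    (hcol : ∀ e, ∑ c, (P c false e + P c true e) = 2) (t : ℝ) (ht : 0 < t) (l : ι → ℕ+)
    (h : ∀ c, ∑ e, P c false e * (l e : ℕ) = ∑ e, P c true e * (l e : ℕ)) :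
    ∏ c : κ, wt t (∑ e, P c false e * (l e : ℕ)) ≤
      (1 / t) ^ (Fintype.card κ) * ∏ e, Real.exp (-(t / 2 * (((1 : ℕ) : ℝ) * (l e : ℕ)))) := by
  have hsum : ∑ c, ∑ e, P c false e * (l e : ℕ) = ∑ e, (l e : ℕ) := by
    have h2 : 2 * ∑ c, ∑ e, P c false e * (l e : ℕ) = 2 * ∑ e, (l e : ℕ) := by
      calc 2 * ∑ c, ∑ e, P c false e * (l e : ℕ)
          = ∑ c, ∑ e, P c false e * (l e : ℕ) + ∑ c, ∑ e, P c true e * (l e : ℕ) := by
            rw [two_mul]
            congr 1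
            exact Finset.sum_congr rfl fun c _ => h c
        _ = ∑ c, ∑ e, (P c false e + P c true e) * (l e : ℕ) := by
            rw [← Finset.sum_add_distrib]
            refine Finset.sum_congr rfl fun c _ => ?_
            rw [← Finset.sum_add_distrib]
            exact Finset.sum_congr rfl fun e _ => (add_mul _ _ _).symm
        _ = ∑ e, (∑ c, (P c false e + P c true e)) * (l e : ℕ) := by
            rw [Finset.sum_comm]
            exact Finset.sum_congr rfl fun e _ => (Finset.sum_mul _ _ _).symm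
        _ = 2 * ∑ e, (l e : ℕ) := by
            rw [Finset.mul_sum]
            exact Finset.sum_congr rfl fun e _ => by rw [hcol]
    omega
  calc ∏ c : κ, wt t (∑ e, P c false e * (l e : ℕ))
      ≤ ∏ c : κ, ((1 / t) * Real.exp (-(t / 2 * ((∑ e, P c false e * (l e : ℕ) : ℕ) : ℝ)))) :=
        Finset.prod_le_prod (fun c _ => summ_wt_nonneg t ht _) (fun c _ => summ_wt_le t ht _)
    _ = (1 / t) ^ (Fintype.card κ) * ∏ e, Real.exp (-(t / 2 * (((1 : ℕ) : ℝ) * (l e : ℕ)))) := by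
        rw [Finset.prod_mul_distrib, Finset.prod_const, Finset.card_univ, ← Real.exp_sum,
          ← Real.exp_sum]
        congr 2
        rw [Finset.sum_neg_distrib, Finset.sum_neg_distrib, ← Finset.mul_sum, ← Finset.mul_sum,
          ← Nat.cast_sum, hsum]
        simp

theorem ofReal_SM {ι κ : Type} [Fintype ι] [Fintype κ] (P : κ → Bool → ι → ℕ)
    (hcol : ∀ e, ∑ c, (P c false e + P c true e) = 2) (t : ℝ) (ht : 0 < t) :
    0 ≤ SM P t ∧ ENNReal.ofReal (SM P t) = ∑' l : ι → ℕ+, (by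
      classical
      exact if ∀ c, ∑ e, P c false e * (l e : ℕ) = ∑ e, P c true e * (l e : ℕ) then
        ∏ c : κ, ENNReal.ofReal (wt t (∑ e, P c false e * (l e : ℕ))) else 0) := by
  classical
  let f : (ι → ℕ+) → ℝ := fun l =>
    if ∀ c, ∑ e, P c false e * (l e : ℕ) = ∑ e, P c true e * (l e : ℕ) then
      ∏ c : κ, wt t (∑ e, P c false e * (l e : ℕ)) else 0
  have hfl : ∀ l, f l =
    if ∀ c, ∑ e, P c false e * (l e : ℕ) = ∑ e, P c true e * (l e : ℕ) then
      ∏ c : κ, wt t (∑ e, P c false e * (l e : ℕ)) else 0 := fun l => rfl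
  have hf0 : ∀ l, 0 ≤ f l := by
    intro l
    rw [hfl]
    split_ifs with h
    · exact Finset.prod_nonneg fun c _ => summ_wt_nonneg t ht _
    · exact le_rfl
  have hSM : SM P t = ∑' l, f l := by
    unfold SM
    refine tsum_congr fun l => ?_
    rw [hfl]
    by_cases h : ∀ c, ∑ e, P c false e * (l e : ℕ) = ∑ e, P c true e * (l e : ℕ)
    · rw [if_pos h, if_pos h]
      rfl
    · rw [if_neg h, if_neg h]
  have hfin : ∑' l, ENNReal.ofReal (f l) ≠ ⊤ := by
    have hle : ∑' l, ENNReal.ofReal (f l) ≤ ∑' l : ι → ℕ+,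
        ENNReal.ofReal ((1 / t) ^ (Fintype.card κ)) *
          ∏ e, ENNReal.ofReal (Real.exp (-(t / 2 * (((1 : ℕ) : ℝ) * (l e : ℕ))))) := by
      refine ENNReal.tsum_le_tsum fun l => ?_
      rw [← ENNReal.ofReal_prod_of_nonneg (fun e _ => (Real.exp_pos _).le),
        ← ENNReal.ofReal_mul (by positivity)]
      refine ENNReal.ofReal_le_ofReal ?_
      rw [hfl]
      split_ifs with h
      · exact summ_term_le P hcol t ht l h
      · exact mul_nonneg (by positivity) (Finset.prod_nonneg fun e _ => (Real.exp_pos _).le)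
    refine ne_top_of_le_ne_top ?_ hle
    rw [ENNReal.tsum_mul_left, pi_tsum (fun _ n => ENNReal.ofReal
      (Real.exp (-(t / 2 * (((1 : ℕ) : ℝ) * (n : ℕ))))))]
    refine ENNReal.mul_ne_top ENNReal.ofReal_ne_top (ENNReal.prod_ne_top fun e _ => ?_)
    rw [geom_tsum (t / 2) (by positivity) 1 one_pos]
    exact ENNReal.ofReal_ne_top
  have hsumm : Summable f := by
    have h1 := ENNReal.summable_toReal hfin
    refine h1.congr fun l => ?_
    rw [ENNReal.toReal_ofReal (hf0 l)]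
  refine ⟨by rw [hSM]; exact tsum_nonneg hf0, ?_⟩
  rw [hSM, ENNReal.ofReal_tsum_of_nonneg hf0 hsumm]
  refine tsum_congr fun l => ?_
  rw [hfl]
  by_cases h : ∀ c, ∑ e, P c false e * (l e : ℕ) = ∑ e, P c true e * (l e : ℕ)
  · rw [if_pos h, if_pos h, ENNReal.ofReal_prod_of_nonneg fun c _ => summ_wt_nonneg t ht _]
  · rw [if_neg h, if_neg h, ENNReal.ofReal_zero]

end Pool.Agent.Helper84.MVA
end

/- Helper84.MVA.Confs -/
section
/-!
MV-A14 (incidence matrix of a configuration).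

PROOF of `P_mul`: `∑_e #{h : face h = cface c b, edge h = e} * l e = ∑_h [face h = cface c b] l (edge h)`
(`Finset.card_eq_sum_ones`/`sum_boole`, exchange the sums).
PROOF of `P_col`: every face `f` is `cface c b` for exactly one pair `(c, b)`: `c = cyc β f`, since
`cface c false = c.rep`, `cface c true = β c.rep ≠ c.rep` (`hβ`), and the cycle of `c.rep` under the
involution `β` is `{c.rep, β c.rep}`.  So `∑_c (P c false e + P c true e) = #{h : edge h = e}`, and
`{h : edge h = e}` has exactly two elements `e.rep`, `τ e.rep` (`hτ`).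
PROOF of `conf_sum`: the two sides are sums over the same set of triples.
`{D1 : TD (HK K) // ∀ h, D1.τ h ≠ h} ≃ Σ τ : {τ // IsPairing τ}, (Cyc τ → ℕ+)`
(`D1.ℓ h = l (cyc τ h)`), `Conf σ ≃ Σ τ : {τ // IsPairing τ}, {β // IsPairing β}`,
`ENNReal.tsum_sigma'`, `ENNReal.tsum_comm`, `tsum_fintype`.
-/

namespace Pool.Agent.Helper84.MVA

open Pool.Agent.Helper60.MV Finset

private theorem sameCycle_pairing {H : Type} {τ : Equiv.Perm H} (hτ : IsPairing τ) {x y : H}
    (h : τ.SameCycle x y) : y = x ∨ y = τ x := by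
  obtain ⟨k, rfl⟩ := h
  have h2 : τ ^ (2 : ℤ) = 1 := by
    ext z
    simp [zpow_ofNat, pow_two, hτ.invol]
  rcases Int.even_or_odd' k with ⟨j, hj | hj⟩
  · left
    rw [hj, zpow_mul, h2, one_zpow]
    rfl
  · right
    rw [hj, zpow_add, zpow_mul, h2, one_zpow, one_mul, zpow_one]

private theorem cyc_eq_pairing {H : Type} {τ : Equiv.Perm H} (hτ : IsPairing τ) {h : H}
    {c : Cyc τ} : cyc τ h = c ↔ h = c.rep ∨ h = τ c.rep := by
  constructor
  · intro e
    rw [← cyc_rep c] at e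
    exact sameCycle_pairing hτ (cyc_eq_iff.1 e).symm
  · rintro (e | e)
    · rw [e, cyc_rep]
    · rw [e, cyc_apply, cyc_rep]

private theorem card_edge {H : Type} [Fintype H] {τ : Equiv.Perm H} (hτ : IsPairing τ)
    (c : Cyc τ) : (∑ h : H, if cyc τ h = c then 1 else 0) = 2 := by
  classical
  have h1 : ∀ h : H, (if cyc τ h = c then 1 else 0) =
      (if h = c.rep then 1 else 0) + (if h = τ c.rep then 1 else 0) := by
    intro h
    have hne := hτ.fpf c.rep
    by_cases h1 : h = c.rep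
    · have h2 : h ≠ τ c.rep := fun e => hne (e.symm.trans h1)
      rw [if_pos (cyc_eq_pairing hτ |>.2 (Or.inl h1)), if_pos h1, if_neg h2]
    · by_cases h2 : h = τ c.rep
      · rw [if_pos (cyc_eq_pairing hτ |>.2 (Or.inr h2)), if_neg h1, if_pos h2]
      · rw [if_neg (fun e => ((cyc_eq_pairing hτ).1 e).elim h1 h2), if_neg h1, if_neg h2]
  simp only [h1, Finset.sum_add_distrib, Finset.sum_ite_eq', Finset.mem_univ, if_true]

private theorem cyl_count {F : Type} [Fintype F] [DecidableEq F] {β : Equiv.Perm F} (hβ : IsPairing β) (f : F) :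
    (∑ c : Cyc β, ((if f = c.rep then 1 else 0) + (if f = β c.rep then 1 else 0)) : ℕ) = 1 := by
  classical
  have h1 : ∀ c : Cyc β, ((if f = c.rep then 1 else 0) + (if f = β c.rep then 1 else 0) : ℕ) =
      if cyc β f = c then 1 else 0 := by
    intro c
    have hne := hβ.fpf c.rep
    by_cases h1 : f = c.rep
    · have h2 : f ≠ β c.rep := fun e => hne (e.symm.trans h1)
      rw [if_pos (cyc_eq_pairing hβ |>.2 (Or.inl h1)), if_pos h1, if_neg h2]
    · by_cases h2 : f = β c.rep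
      · rw [if_pos (cyc_eq_pairing hβ |>.2 (Or.inr h2)), if_neg h1, if_pos h2]
      · rw [if_neg (fun e => ((cyc_eq_pairing hβ).1 e).elim h1 h2), if_neg h1, if_neg h2]
  simp only [h1, Finset.sum_ite_eq, Finset.mem_univ, if_true]

private theorem P_eq {H : Type} [Fintype H] {σ : Equiv.Perm H} (R : Conf σ) (c : R.Cyl)
    (b : Bool) (e : R.Edge) :
    R.P c b e = ∑ h : H, if R.face h = R.cface c b then (if R.edge h = e then 1 else 0) else 0 := by
  classical
  unfold Conf.P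
  rw [Finset.card_filter]
  refine Finset.sum_congr rfl fun h _ => ?_
  by_cases h1 : R.face h = R.cface c b <;> by_cases h2 : R.edge h = e <;> simp [h1, h2]

theorem P_mul {H : Type} [Fintype H] {σ : Equiv.Perm H} (R : Conf σ) (c : R.Cyl) (b : Bool)
    (l : R.Edge → ℕ) : ∑ e, R.P c b e * l e = R.per l (R.cface c b) := by
  classical
  simp only [P_eq, Finset.sum_mul]
  rw [Finset.sum_comm]
  unfold Conf.per
  refine Finset.sum_congr rfl fun h _ => ?_
  by_cases h1 : R.face h = R.cface c b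
  · simp [h1]
  · simp [h1]

theorem P_col {H : Type} [Fintype H] {σ : Equiv.Perm H} (R : Conf σ) (e : R.Edge) :
    ∑ c, (R.P c false e + R.P c true e) = 2 := by
  classical
  have key : ∀ h : H, (∑ c : R.Cyl,
      ((if R.face h = R.cface c false then (if R.edge h = e then 1 else 0) else 0) +
        (if R.face h = R.cface c true then (if R.edge h = e then 1 else 0) else 0)) : ℕ) =
      if R.edge h = e then 1 else 0 := by
    intro h
    by_cases h1 : R.edge h = e
    · simp only [h1, if_true]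
      have := cyl_count R.hβ (R.face h)
      simpa [Conf.cface] using this
    · simp [h1]
  simp only [P_eq, ← Finset.sum_add_distrib]
  rw [Finset.sum_comm]
  simp only [key]
  exact card_edge R.hτ e

/-- the first tower of a pairing and a length function -/
def mkTD {ρ : Type} {K : ρ → ℕ} (τ : Equiv.Perm (HK K)) (hτ : IsPairing τ) (l : Cyc τ → ℕ+) :
    TD (HK K) where
  τ := τ
  ℓ := fun h => l (cyc τ h)
  inv := hτ.invol
  pos := fun h => (l (cyc τ h)).pos
  sym := fun h => by rw [cyc_apply]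

/-- sum over first towers and pairings = sum over configurations and length functions -/
theorem conf_sum {ρ : Type} [Fintype ρ] {K : ρ → ℕ}
    (G : (τ : Equiv.Perm (HK K)) → (hτ : IsPairing τ) → (β : Equiv.Perm (Cyc (rot K * τ))) →
      (hβ : IsPairing β) → (HK K → ℕ) → ENNReal) :
    (∑' D1 : {D1 : TD (HK K) // ∀ h, D1.τ h ≠ h},
      ∑' β : {β : Equiv.Perm (Cyc (rot K * D1.1.τ)) // IsPairing β},
        G D1.1.τ ⟨D1.1.inv, D1.2⟩ β.1 β.2 D1.1.ℓ) =
    ∑ R : Conf (rot K), ∑' l : R.Edge → ℕ+, G R.τ R.hτ R.β R.hβ (fun h => (l (R.edge h) : ℕ)) := by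
  classical
  let E1 : {D1 : TD (HK K) // ∀ h, D1.τ h ≠ h} ≃
      Σ τ : {τ : Equiv.Perm (HK K) // IsPairing τ}, (Cyc τ.1 → ℕ+) :=
    { toFun := fun D1 => ⟨⟨D1.1.τ, ⟨D1.1.inv, D1.2⟩⟩, fun c => ⟨D1.1.ℓ c.rep, D1.1.pos _⟩⟩
      invFun := fun p => ⟨mkTD p.1.1 p.1.2 p.2, p.1.2.fpf⟩
      left_inv := by
        rintro ⟨D1, h1⟩
        refine Subtype.ext ?_
        refine TD.ext rfl ?_
        funext h
        show D1.ℓ (cyc D1.τ h).rep = D1.ℓ h
        rcases (cyc_eq_pairing (τ := D1.τ) ⟨D1.inv, h1⟩).1 (rfl : cyc D1.τ h = _) with e | e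
        · rw [← e]
        · conv_rhs => rw [e]
          rw [D1.sym]
      right_inv := by
        rintro ⟨⟨τ, hτ⟩, l⟩
        have : (fun c : Cyc τ => (⟨((l (cyc τ c.rep) : ℕ+) : ℕ), (l (cyc τ c.rep)).pos⟩ : ℕ+)) =
            l := by
          funext c
          rw [cyc_rep]
          rfl
        show (⟨⟨τ, hτ⟩, fun c : Cyc τ =>
          (⟨((l (cyc τ c.rep) : ℕ+) : ℕ), (l (cyc τ c.rep)).pos⟩ : ℕ+)⟩ :
          Σ τ : {τ : Equiv.Perm (HK K) // IsPairing τ}, (Cyc τ.1 → ℕ+)) = ⟨⟨τ, hτ⟩, l⟩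
        rw [this] }
  let E2 : Conf (rot K) ≃ Σ τ : {τ : Equiv.Perm (HK K) // IsPairing τ},
      {β : Equiv.Perm (Cyc (rot K * τ.1)) // IsPairing β} :=
    { toFun := fun R => ⟨⟨R.τ, R.hτ⟩, ⟨R.β, R.hβ⟩⟩
      invFun := fun p => ⟨p.1.1, p.1.2, p.2.1, p.2.2⟩
      left_inv := fun R => rfl
      right_inv := fun p => rfl }
  rw [← E1.symm.tsum_eq, ENNReal.tsum_sigma']
  rw [← tsum_fintype (L := SummationFilter.unconditional _), ← E2.symm.tsum_eq, ENNReal.tsum_sigma']
  refine tsum_congr fun τ => ?_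
  exact ENNReal.tsum_comm (f := fun (l : Cyc τ.1 → ℕ+)
    (β : {β : Equiv.Perm (Cyc (rot K * τ.1)) // IsPairing β}) =>
      G τ.1 τ.2 β.1 β.2 (fun h => (l (cyc τ.1 h) : ℕ)))

end Pool.Agent.Helper84.MVA
end

/- Helper12.MVP.Lab -/
section
/-!
MV-P6. Incidence matrix of a pairing and the sum `PKs` through the functional `JM`.

Proofs. For a pairing `τ` each cycle `e : Cyc τ` has exactly the two elements `e.rep` and `τ e.rep ≠ e.rep`
(`SameCycle` for an involution: `cyc τ h = cyc τ h' ↔ h' = h ∨ h' = τ h`). Hence for any `s` on faces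
`∑_f MT σ τ f e · s f = ∑_{h : cyc τ h = e} s (cyc (σ τ) h) = s(cyc e.rep) + s(cyc (τ e.rep))` (`MT_sum`), in particular column sums `2`
(`MT_col`).
`lab_equiv_sum`: functions `lab : H → β` with `lab (g h) = lab h` for all `h` correspond to functions on `Cyc g` (`lab = lab' ∘ cyc g`:
`Quotient.lift`; invariance under `g` implies invariance under `SameCycle`, i.e. under integer powers of `g`).
`PKs_eq`: apply `lab_equiv_sum` for `g = σ τ` and `JM_exp`, `MT_sum`.
-/

namespace Pool.Agent.Helper12.MVP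

open Finset MeasureTheory Filter Topology Pool.Agent.Helper60.MV

theorem cyc_rep {H : Type} (g : Equiv.Perm H) (c : Cyc g) : cyc g c.rep = c :=
  Quotient.out_eq c

theorem zpow_pairing {H : Type} (τ : Equiv.Perm H) (hτ : IsPairing τ) (n : ℤ) (h : H) :
    (τ ^ n) h = h ∨ (τ ^ n) h = τ h := by
  have h2 : τ * τ = 1 := by
    ext x
    simpa using hτ.invol x
  rcases Int.even_or_odd' n with ⟨k, hk | hk⟩
  · left
    rw [hk, zpow_mul, zpow_two, h2, one_zpow]
    rfl
  · right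
    rw [hk, zpow_add, zpow_mul, zpow_two, h2, one_zpow, one_mul, zpow_one]

theorem cyc_eq_iff {H : Type} (τ : Equiv.Perm H) (hτ : IsPairing τ) (h h' : H) :
    cyc τ h = cyc τ h' ↔ h' = h ∨ h' = τ h := by
  have h0 : cyc τ h = cyc τ h' ↔ τ.SameCycle h h' := by
    unfold cyc
    exact Quotient.eq (r := Equiv.Perm.SameCycle.setoid τ)
  rw [h0]
  constructor
  · rintro ⟨n, hn⟩
    rcases zpow_pairing τ hτ n h with h1 | h1
    · left
      rw [← hn, h1]
    · right
      rw [← hn, h1]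
  · rintro (h1 | h1)
    · rw [h1]
    · exact ⟨1, by rw [zpow_one, h1]⟩

theorem MT_sum {H : Type} [Fintype H] (σ τ : Equiv.Perm H) (hτ : IsPairing τ)
    (s : Cyc (σ * τ) → ℝ) (e : Cyc τ) :
    ∑ f, (MT σ τ f e : ℝ) * s f = s (cyc (σ * τ) e.rep) + s (cyc (σ * τ) (τ e.rep)) := by
  classical
  have h1 : ∀ f : Cyc (σ * τ), (MT σ τ f e : ℝ) * s f =
      ∑ h : H, if cyc (σ * τ) h = f then (if cyc τ h = e then s (cyc (σ * τ) h) else 0) else 0 := by
    intro f
    have h2 : (MT σ τ f e : ℝ) =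
        ∑ h : H, if cyc (σ * τ) h = f ∧ cyc τ h = e then (1:ℝ) else 0 := by
      unfold MT
      rw [Finset.card_filter]
      push_cast
      refine Finset.sum_congr rfl (fun h _ => ?_)
      split_ifs <;> rfl
    rw [h2, Finset.sum_mul]
    refine Finset.sum_congr rfl (fun h _ => ?_)
    by_cases hf : cyc (σ * τ) h = f
    · by_cases he : cyc τ h = e
      · rw [if_pos ⟨hf, he⟩, if_pos hf, if_pos he, hf, one_mul]
      · rw [if_neg (fun h' => he h'.2), if_pos hf, if_neg he, zero_mul]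
    · rw [if_neg (fun h' => hf h'.1), if_neg hf, zero_mul]
  simp only [h1]
  rw [Finset.sum_comm]
  have h3 : ∀ h : H, (∑ f : Cyc (σ * τ), if cyc (σ * τ) h = f then
      (if cyc τ h = e then s (cyc (σ * τ) h) else 0) else 0) =
      if cyc τ h = e then s (cyc (σ * τ) h) else 0 := by
    intro h
    rw [Finset.sum_ite_eq]
    simp
  simp only [h3]
  rw [← Finset.sum_filter]
  have h4 : univ.filter (fun h : H => cyc τ h = e) = {e.rep, τ e.rep} := by
    ext h
    rw [Finset.mem_filter, Finset.mem_insert, Finset.mem_singleton]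
    conv_lhs => rw [← cyc_rep τ e]
    rw [eq_comm (a := cyc τ h), cyc_eq_iff τ hτ]
    simp
  rw [h4, Finset.sum_pair (fun h => hτ.fpf _ h.symm)]

theorem MT_col {H : Type} [Fintype H] (σ τ : Equiv.Perm H) (hτ : IsPairing τ) (e : Cyc τ) :
    ∑ f, MT σ τ f e = 2 := by
  have h := MT_sum σ τ hτ (fun _ => 1) e
  simp only [mul_one] at h
  have h2 : ((∑ f, MT σ τ f e : ℕ) : ℝ) = (2 : ℕ) := by
    push_cast
    rw [h]
    norm_num
  exact_mod_cast h2

theorem lab_sum {H β : Type} [Fintype H] [DecidableEq H] [Fintype β] [DecidableEq β]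
    (g : Equiv.Perm H) (G : (H → β) → ℝ) :
    ∑ lab ∈ univ.filter (fun lab : H → β => ∀ h, lab (g h) = lab h), G lab =
      ∑ lab : Cyc g → β, G (fun h => lab (cyc g h)) := by
  symm
  have hinv : ∀ lab : H → β, (∀ h, lab (g h) = lab h) → ∀ h h', g.SameCycle h h' →
      lab h = lab h' := by
    intro lab hl h h' hs
    obtain ⟨n, hn⟩ := hs
    have hnat : ∀ (k : ℕ) (x : H), lab ((g ^ k) x) = lab x := by
      intro k
      induction k with
      | zero =>
        intro x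
        rfl
      | succ k ih =>
        intro x
        rw [pow_succ', Equiv.Perm.mul_apply, hl, ih]
    have hint : ∀ (n : ℤ) (x : H), lab ((g ^ n) x) = lab x := by
      intro n x
      rcases Int.eq_nat_or_neg n with ⟨k, hk | hk⟩
      · rw [hk, zpow_natCast, hnat]
      · rw [hk, zpow_neg, zpow_natCast]
        have h1 := hnat k ((g ^ k)⁻¹ x)
        have h2 : (g ^ k) ((g ^ k)⁻¹ x) = x := (g ^ k).apply_symm_apply x
        rw [h2] at h1
        exact h1.symm
    rw [← hn, hint]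
  refine Finset.sum_bij (fun (lab : Cyc g → β) _ => (fun h => lab (cyc g h))) ?_ ?_ ?_ ?_
  · intro lab _
    rw [Finset.mem_filter]
    refine ⟨Finset.mem_univ _, fun h => ?_⟩
    have h1 : cyc g (g h) = cyc g h := by
      unfold cyc
      exact Quotient.sound (show g.SameCycle (g h) h from ⟨-1, by simp⟩)
    show lab (cyc g (g h)) = lab (cyc g h)
    rw [h1]
  · intro lab _ lab' _ h
    funext c
    have h1 := congrFun h c.rep
    simp only [cyc_rep] at h1
    exact h1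
  · intro lab hlab
    rw [Finset.mem_filter] at hlab
    refine ⟨fun c => lab c.rep, Finset.mem_univ _, ?_⟩
    funext h
    apply hinv lab hlab.2
    have h1 : cyc g (cyc g h).rep = cyc g h := cyc_rep g _
    exact Quotient.exact h1
  · intro lab _
    rfl

theorem PKs_eq {H : Type} [Fintype H] (σ : Equiv.Perm H) (N : ℕ) (s : Fin N → ℝ)
    (hs : ∀ i, 0 < s i) :
    PKs σ N s = ∑ τ : Prg H, ∑ lab : Cyc (σ * τ.1) → Fin N,
      JM (MT σ τ.1) (fun f p => Real.exp (-(s (lab f) * p))) := by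
  classical
  unfold PKs
  have h1 : ∀ τ : Equiv.Perm H, IsPairing τ →
      (∑ lab ∈ univ.filter (fun lab : H → Fin N => ∀ h, lab ((σ * τ) h) = lab h),
        ∏ e : Cyc τ, 1 / (s (lab e.rep) + s (lab (τ e.rep)))) =
      ∑ lab : Cyc (σ * τ) → Fin N,
        JM (MT σ τ) (fun f p => Real.exp (-(s (lab f) * p))) := by
    intro τ hτ
    rw [lab_sum (σ * τ) (fun lab => ∏ e : Cyc τ, 1 / (s (lab e.rep) + s (lab (τ e.rep))))]
    refine Finset.sum_congr rfl (fun lab _ => ?_)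
    rw [JM_exp (MT σ τ) (MT_col σ τ hτ) (fun f => s (lab f)) (fun f => hs _)]
    refine Finset.prod_congr rfl (fun e _ => ?_)
    rw [MT_sum σ τ hτ (fun f => s (lab f)) e]
  rw [Finset.sum_congr rfl (fun τ hτ => h1 τ (Finset.mem_filter.mp hτ).2)]
  symm
  refine Finset.sum_bij (fun (τ : Prg H) _ => τ.1) ?_ ?_ ?_ ?_
  · intro τ _
    rw [Finset.mem_filter]
    exact ⟨Finset.mem_univ _, τ.2⟩
  · intro τ _ τ' _ h
    exact Subtype.ext h
  · intro τ hτ
    exact ⟨⟨τ, (Finset.mem_filter.mp hτ).2⟩, Finset.mem_univ _, rfl⟩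
  · intro τ _
    rfl

end Pool.Agent.Helper12.MVP
end
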