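import Pool.Agent.Helper16.LGG.G01
import Pool.Agent.Helper16.LGG.G03
import Pool.Agent.Helper16.LGG.G04
import Pool.Agent.Helper16.LGG.G07

/- Helper12.MVP.PhiMom -/
section
/-!
MV-P12. Moments of `phi`: `∫_0^∞ phi a · a^M da = (M+1)! ζ(M+2)`.

Proof. For `a > 0`: `phi a = a/(e^a - 1) = ∑_{n ≥ 0} a e^{-(n+1) a}`. Nonnegative terms, so integrate termwise
(`hasSum_integral_of_summable_integral_norm` or lintegral version): `∫_0^∞ a^{M+1} e^{-(n+1)a} da = (M+1)!/(n+1)^{M+2}`
(`integral_rpow_mul_exp_neg_mul_Ioi` and `Real.Gamma_nat_eq_factorial`), summable. Integrability from the same lemma (or from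
`phi a ≤ e^{-a/2}`).
-/

namespace Pool.Agent.Helper12.MVP

open Finset MeasureTheory Filter Topology Pool.Agent.Helper60.MV

private theorem term_int (M : ℕ) (b : ℝ) (hb : 0 < b) :
    IntegrableOn (fun a : ℝ => a ^ M * Real.exp (-(b * a))) (Set.Ioi 0) := by
  have h := integrableOn_rpow_mul_exp_neg_mul_rpow (p := 1) (s := (M : ℝ)) (b := b)
    (lt_of_lt_of_le (by norm_num) (Nat.cast_nonneg M)) one_pos hb
  refine h.congr_fun (fun x hx => ?_) measurableSet_Ioi
  simp only [Real.rpow_natCast, Real.rpow_one, neg_mul]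

private theorem term_val (M : ℕ) (b : ℝ) (hb : 0 < b) :
    ∫ a in Set.Ioi (0:ℝ), a ^ (M + 1) * Real.exp (-(b * a))
      = ((M + 1).factorial : ℝ) * (1 / b ^ (M + 2)) := by
  have h := Real.integral_rpow_mul_exp_neg_mul_Ioi (a := ((M + 1 : ℕ) : ℝ) + 1) (r := b)
    (by positivity) hb
  rw [Real.Gamma_nat_eq_factorial] at h
  rw [mul_comm]
  have h2 : (1 / b) ^ (((M + 1 : ℕ) : ℝ) + 1) = 1 / b ^ (M + 2) := by
    rw [show ((M + 1 : ℕ) : ℝ) + 1 = ((M + 2 : ℕ) : ℝ) by push_cast; ring, Real.rpow_natCast,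
      one_div, inv_pow, one_div]
  rw [h2] at h
  rw [← h]
  refine setIntegral_congr_fun measurableSet_Ioi (fun x hx => ?_)
  simp only [add_sub_cancel_right, Real.rpow_natCast]

private theorem phi_sum (M : ℕ) (a : ℝ) (ha : 0 < a) :
    HasSum (fun n : ℕ => a ^ (M + 1) * Real.exp (-(((n:ℝ) + 1) * a))) (phi a * a ^ M) := by
  have h1 : Real.exp (-a) < 1 := by
    rw [Real.exp_lt_one_iff]
    linarith
  have h2 := hasSum_geometric_of_lt_one (Real.exp_pos (-a)).le h1
  have h3 := h2.mul_left (a ^ (M + 1) * Real.exp (-a))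
  have h4 : a ^ (M + 1) * Real.exp (-a) * (1 - Real.exp (-a))⁻¹ = phi a * a ^ M := by
    unfold phi
    rw [if_neg ha.ne']
    have h5 : 0 < 1 - Real.exp (-a) := by linarith
    have h6 : Real.exp a - 1 = Real.exp a * (1 - Real.exp (-a)) := by
      rw [mul_sub, ← Real.exp_add, add_neg_cancel, Real.exp_zero, mul_one]
    rw [h6, Real.exp_neg]
    have h7 := Real.exp_pos a
    rw [Real.exp_neg] at h5
    field_simp
    rw [pow_succ]
    ring
  rw [h4] at h3
  have h8 : (fun n : ℕ => a ^ (M + 1) * Real.exp (-(((n:ℝ) + 1) * a)))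
      = fun i : ℕ => a ^ (M + 1) * Real.exp (-a) * Real.exp (-a) ^ i := by
    funext n
    rw [mul_assoc, ← pow_succ', ← Real.exp_nat_mul]
    congr 2
    push_cast
    ring
  rw [h8]
  exact h3

theorem phi_moment_integrable (M : ℕ) :
    IntegrableOn (fun a : ℝ => phi a * a ^ M) (Set.Ioi 0) := by
  have h := term_int M (1 / 2) (by norm_num)
  refine h.mono' (phi_continuous.mul (continuous_pow M)).aestronglyMeasurable ?_
  refine (ae_restrict_mem measurableSet_Ioi).mono (fun x hx => ?_)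
  have hx0 : (0:ℝ) < x := hx
  rw [Real.norm_eq_abs, abs_of_nonneg (mul_nonneg (phi_pos x).le (pow_nonneg hx0.le M)), mul_comm]
  refine mul_le_mul_of_nonneg_left ?_ (pow_nonneg hx0.le M)
  have := phi_le_exp x
  rwa [show -(x / 2) = -(1 / 2 * x) by ring] at this

theorem phi_moment (M : ℕ) :
    ∫ a in Set.Ioi (0:ℝ), phi a * a ^ M = ((M + 1).factorial : ℝ) * zet (M + 2) := by
  have h1 : ∀ n : ℕ, Integrable (fun a : ℝ => a ^ (M + 1) * Real.exp (-(((n:ℝ) + 1) * a)))
      (volume.restrict (Set.Ioi 0)) := fun n => term_int (M + 1) ((n:ℝ) + 1) (by positivity)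
  have h2 : ∀ n : ℕ, ∫ a in Set.Ioi (0:ℝ), ‖a ^ (M + 1) * Real.exp (-(((n:ℝ) + 1) * a))‖
      = ((M + 1).factorial : ℝ) * (1 / ((n:ℝ) + 1) ^ (M + 2)) := by
    intro n
    rw [← term_val M ((n:ℝ) + 1) (by positivity)]
    refine setIntegral_congr_fun measurableSet_Ioi (fun x hx => ?_)
    have hx0 : (0:ℝ) < x := hx
    exact Real.norm_of_nonneg (by positivity)
  have h3 : Summable (fun n : ℕ => 1 / ((n:ℝ) + 1) ^ (M + 2)) := by
    have := (summable_nat_add_iff 1).mpr (Real.summable_one_div_nat_pow.mpr (show 1 < M + 2 by omega))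
    simpa using this
  have h4 := hasSum_integral_of_summable_integral_norm h1 (by
    simp_rw [h2]
    exact h3.mul_left _)
  have h5 := h4.tsum_eq
  rw [show (∫ a in Set.Ioi (0:ℝ), phi a * a ^ M)
      = ∫ a in Set.Ioi (0:ℝ), ∑' n : ℕ, a ^ (M + 1) * Real.exp (-(((n:ℝ) + 1) * a)) from ?_, ← h5]
  · unfold zet
    rw [← tsum_mul_left]
    refine tsum_congr (fun n => ?_)
    exact term_val M ((n:ℝ) + 1) (by positivity)
  · refine setIntegral_congr_fun measurableSet_Ioi (fun x hx => ?_)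
    exact (phi_sum M x hx).tsum_eq.symm

end Pool.Agent.Helper12.MVP
end

/- Helper62.MVC2.Surg -/
section
/-!
Project MV, block C: the interface between C1 (combinatorics of leaves) and C2 (analysis).
Everything at the level of half-edges.
-/

namespace Pool.Agent.Helper62.MVC2

open Finset MeasureTheory Filter Topology Pool.Agent.Helper60.MV

/-- embedding of the half-edges of the leaf: `(true, s) ↦ σ^(s+1) x`, `(false, 0) ↦ x` -/
def jT {ρ : Type} (K : ρ → ℕ) (x : HK K) (m : ℕ) (h : HK (leg m)) : HK K :=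
  if h.1 = true then (rot K ^ ((h.2 : ℕ) + 1)) x else x

/-- embedding of the half-edges of the rest: `(x.1, s) ↦ σ^(2m+2+s) x`, `(i, s) ↦ (i, s)` for
`i ≠ x.1` -/
noncomputable def jR {ρ : Type} (K : ρ → ℕ) (x : HK K) (m : ℕ) (h : HK (red K x.1 m)) : HK K := by
  classical
  exact if hi : h.1 = x.1 then (rot K ^ (2 * m + 2 + (h.2 : ℕ))) x
    else ⟨h.1, ⟨(h.2 : ℕ), by
      have h2 := h.2.2
      simpa [red, Function.update_of_ne hi] using h2⟩⟩

/-- the leg of the leaf -/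
def legHalf (m : ℕ) : HK (leg m) := ⟨false, ⟨0, by simp [leg]⟩⟩

/-- `R` is cut at the leaf with stem `x` into `T` and `R₁` -/
structure Surg {ρ : Type} {K : ρ → ℕ} (R : Conf (rot K)) (x : HK K) (m : ℕ)
    (T : Conf (rot (leg m))) (R₁ : Conf (rot (red K x.1 m))) : Prop where
  tauT : ∀ h, R.τ (jT K x m h) = jT K x m (T.τ h)
  tauR : ∀ h, R.τ (jR K x m h) = jR K x m (R₁.τ h)
  faceT : ∀ h h', h.1 = true → h'.1 = true →
    (R.face (jT K x m h) = R.face (jT K x m h') ↔ T.face h = T.face h')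
  faceTx : T.face (legHalf m) = T.face (T.τ (legHalf m))
  faceR : ∀ h h', R.face (jR K x m h) = R.face (jR K x m h') ↔ R₁.face h = R₁.face h'
  facex : ∃ h, R.face x = R.face (jR K x m h)
  disj : ∀ h h', h.1 = true → R.face (jT K x m h) ≠ R.face (jR K x m h')
  betaT : ∀ h h', h.1 = true → h'.1 = true →
    (R.β (R.face (jT K x m h)) = R.face (jT K x m h') ↔ T.β (T.face h) = T.face h')
  betaR : ∀ h h', R.β (R.face (jR K x m h)) = R.face (jR K x m h') ↔
    R₁.β (R₁.face h) = R₁.face h'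

end Pool.Agent.Helper62.MVC2
end

/- Helper91.MVC.CutT -/
section
/-!
MV-C1-7. The leaf with its leg is a configuration.

Apply `pull_exists` with `j = jT`, `g = gT R x jT xT`. Write `y = R.τ x`, `φ = σ * R.τ`.
Facts on `A = {μ ≠ 0}`: `x ∉ A`, `y ∈ A`; `R.τ h ∈ A ↔ h ∈ A` for `h ≠ x, y` (`tau`); `μ (σ h) = μ (R.τ h)` (`face`, `face_tau_eq`).
`hτ`: the range of `jT` is `{x} ∪ A`; `R.τ x = y`, `R.τ y = x`, and `R.τ h ∈ A` for `h ∈ A`, `h ≠ y`.
`hβ`: `g a` is a face of a half-edge `h ∈ A` (`jT a` or `y`); take `h'` with `R.β (g a) = R.face h'`: `μ h' = - μ h ≠ 0`, so `h' ∈ A`, `h' = jT b`,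
`b ≠ xT` (`jT xT = x ∉ A`), `g b = R.face h'`.
`hφ`: let `φ' = σT * τ'`, `jT (τ' p) = R.τ (jT p)`; so `τ' xT = yT`, `τ' yT = xT`.
(→) `g (φ' p) = g p` for all `p` (then `inv_sameCycle`): `p = xT`: `φ' xT = σT yT`, which is not `xT` (`σT` fixes `xT` and `yT ≠ xT`), `jT (σT yT) = σ x`, and
`g = R.face (σ x) = R.face (R.τ x)` (`face_tau_eq`). `p = yT`: `φ' yT = σT xT = xT`, `g xT = R.face (R.τ x) = R.face (jT yT)`. Other `p`: `τ' p ≠ xT, yT`,
`jT (φ' p) = σ (R.τ (jT p))`, `φ' p ≠ xT`, `g (φ' p) = R.face (σ (R.τ (jT p))) = R.face (jT p)` (`face_phi`).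
(←) Let `F : H → Option (Cyc φ')`, `F (jT p) = some (cyc φ' p)` for `p ≠ xT`, `F h = none` for `h ∉ A` (including `x`). `F (φ h) = F h` for all `h`: `h ∉ A`: then `φ h ∉ A`
(`μ (φ h) = μ h` because `φ h` is in the face of `h`), both `none`. `h = y`: `φ y = σ x = jT (σT yT)`, `φ' (φ' yT) = φ' xT = σT yT`, so the classes agree
(`cyc_apply` twice). `h = jT p`, `p ≠ xT, yT`: `φ h = σ (R.τ (jT p)) = jT (φ' p)`, `φ' p ≠ xT`.
So if `R.face (jT a) = R.face (jT b)`, `a, b ≠ xT`, then `cyc φ' a = cyc φ' b`. For `a = xT` use `g xT = R.face (jT yT)` and `cyc φ' xT = cyc φ' yT` (`φ' yT = xT`).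
-/

namespace Pool.Agent.Helper91.MVC

open Finset Pool.Agent.Helper60.MV

variable {H HT : Type} {σ : Equiv.Perm H}

theorem cutT (R : Conf σ) {x : H} {μ : H → ℤ} (hl : R.IsLeaf x μ) {A : H → Prop}
    (hA : ∀ h, A h ↔ μ h ≠ 0) {σT : Equiv.Perm HT} {jT : HT → H} {xT yT : HT}
    (hE : EmbT σ x (R.τ x) A σT jT xT yT) : ∃ T : Conf σT, Pull T R jT (gT R x jT xT) := by
  have hxA : ¬ A x := by rw [hA]; simp [hl.zero]
  have hyA : A (R.τ x) := by rw [hA, hl.one]; exact one_ne_zero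
  have hτA : ∀ h, h ≠ x → h ≠ R.τ x → (A (R.τ h) ↔ A h) := by
    intro h h1 h2
    rw [hA, hA, hl.tau h h1 h2]
    simp
  have hyx : yT ≠ xT := by
    intro h
    apply R.hτ.fpf x
    rw [← hE.hy, h, hE.hx]
  have hpx : ∀ p, p ≠ xT → A (jT p) := by
    intro p hp
    rcases (hE.range (jT p)).1 ⟨p, rfl⟩ with h | h
    · exact absurd (hE.inj (h.trans hE.hx.symm)) hp
    · exact h
  have hAp : ∀ h, A h → ∃ p, p ≠ xT ∧ jT p = h := by
    intro h hh
    obtain ⟨p, hp⟩ := (hE.range h).2 (Or.inr hh)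
    refine ⟨p, ?_, hp⟩
    intro h1
    apply hxA
    rw [h1, hE.hx] at hp
    rw [hp]
    exact hh
  have hFφ : ∀ h, (A (σ (R.τ h)) ↔ A h) := by
    intro h
    rw [hA, hA, hl.face _ _ (face_phi R h)]
  refine pull_exists R σT jT hE.inj ?_ (gT R x jT xT) ?_ ?_
  · intro p
    by_cases h1 : p = xT
    · refine ⟨yT, ?_⟩
      rw [h1, hE.hx, hE.hy]
    · by_cases h2 : p = yT
      · refine ⟨xT, ?_⟩
        rw [h2, hE.hy, hE.hx, R.hτ.invol]
      · have h3 : jT p ≠ x := fun h => h1 (hE.inj (h.trans hE.hx.symm))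
        have h4 : jT p ≠ R.τ x := fun h => h2 (hE.inj (h.trans hE.hy.symm))
        obtain ⟨q, hq, hq'⟩ := hAp _ ((hτA _ h3 h4).2 (hpx p h1))
        exact ⟨q, hq'⟩
  · intro τ' hτ'
    have hx' : τ' xT = yT := hE.inj (by rw [hτ', hE.hx, hE.hy])
    have hy' : τ' yT = xT := hE.inj (by rw [hτ', hE.hx, hE.hy, R.hτ.invol])
    have hinv : ∀ p, τ' (τ' p) = p := fun p => hE.inj (by rw [hτ', hτ', R.hτ.invol])
    have hσx : ∀ p, σT p = xT → p = xT := fun p hp => σT.injective (hp.trans hE.fix.symm)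
    have hoth : ∀ p, p ≠ xT → p ≠ yT →
        (jT ((σT * τ') p) = σ (R.τ (jT p)) ∧ (σT * τ') p ≠ xT) := by
      intro p h1 h2
      have h3 : τ' p ≠ xT := by
        intro h
        apply h2
        rw [← hinv p, h, hx']
      have h4 : τ' p ≠ yT := by
        intro h
        apply h1
        rw [← hinv p, h, hy']
      refine ⟨?_, ?_⟩
      · rw [Equiv.Perm.mul_apply, hE.other _ h3 h4, hτ']
      · rw [Equiv.Perm.mul_apply]
        exact fun h => h3 (hσx _ h)
    have hφx : (σT * τ') xT = σT yT := by rw [Equiv.Perm.mul_apply, hx']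
    have hφy : (σT * τ') yT = xT := by rw [Equiv.Perm.mul_apply, hy', hE.fix]
    have hσyx : σT yT ≠ xT := fun h => hyx (hσx _ h)
    have hcy : cyc (σT * τ') xT = cyc (σT * τ') yT := by
      have h := cyc_apply (g := σT * τ') yT
      rwa [hφy] at h
    intro a b
    constructor
    · intro hab
      refine inv_sameCycle (F := gT R x jT xT) ?_ hab
      intro p
      by_cases h1 : p = xT
      · rw [h1, hφx, gT_x, gT_of_ne _ _ _ _ _ hσyx, hE.last, face_tau_eq]
      · by_cases h2 : p = yT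
        · rw [h2, hφy, gT_x, gT_of_ne _ _ _ _ _ hyx, hE.hy]
        · obtain ⟨h3, h4⟩ := hoth p h1 h2
          rw [gT_of_ne _ _ _ _ _ h4, gT_of_ne _ _ _ _ _ h1, h3, face_phi]
    · classical
      let F : H → Option (Cyc (σT * τ')) := fun h =>
        if hh : A h then some (cyc (σT * τ') (Classical.choose (hAp h hh))) else none
      have hF1 : ∀ p, p ≠ xT → F (jT p) = some (cyc (σT * τ') p) := by
        intro p hp
        have h1 := Classical.choose_spec (hAp (jT p) (hpx p hp))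
        have h2 : F (jT p) =
            some (cyc (σT * τ') (Classical.choose (hAp (jT p) (hpx p hp)))) :=
          dif_pos (hpx p hp)
        rw [h2, hE.inj h1.2]
      have hF2 : ∀ h, ¬ A h → F h = none := fun h hh => dif_neg hh
      have hF : ∀ h, F ((σ * R.τ) h) = F h := by
        intro h
        rw [Equiv.Perm.mul_apply]
        by_cases hh : A h
        · obtain ⟨p, hp, rfl⟩ := hAp h hh
          by_cases h2 : p = yT
          · have h5 : σ (R.τ (jT p)) = jT (σT yT) := by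
              rw [h2, hE.hy, R.hτ.invol, hE.last]
            rw [h5, hF1 _ hσyx, hF1 _ hp, h2, ← hφx, cyc_apply, hcy]
          · obtain ⟨h3, h4⟩ := hoth p hp h2
            rw [← h3, hF1 _ h4, hF1 _ hp, cyc_apply]
        · rw [hF2 h hh, hF2 _ (fun h' => hh ((hFφ h).1 h'))]
      have key : ∀ a b, a ≠ xT → b ≠ xT → R.face (jT a) = R.face (jT b) →
          cyc (σT * τ') a = cyc (σT * τ') b := by
        intro a b ha hb hab
        have h1 := inv_sameCycle hF ((face_eq_iff R).1 hab)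
        rw [hF1 a ha, hF1 b hb] at h1
        exact Option.some.inj h1
      have hred : ∀ a, ∃ a', a' ≠ xT ∧ gT R x jT xT a = R.face (jT a') ∧
          cyc (σT * τ') a = cyc (σT * τ') a' := by
        intro a
        by_cases h : a = xT
        · refine ⟨yT, hyx, ?_, ?_⟩
          · rw [h, gT_x, hE.hy]
          · rw [h]
            exact hcy
        · exact ⟨a, h, gT_of_ne _ _ _ _ _ h, rfl⟩
      intro hab
      obtain ⟨a', ha1, ha2, ha3⟩ := hred a
      obtain ⟨b', hb1, hb2, hb3⟩ := hred b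
      rw [← cyc_eq_iff, ha3, hb3]
      exact key a' b' ha1 hb1 (by rw [← ha2, ← hb2, hab])
  · intro a
    have h1 : ∃ h, A h ∧ gT R x jT xT a = R.face h := by
      by_cases h : a = xT
      · exact ⟨R.τ x, hyA, by rw [h, gT_x]⟩
      · exact ⟨jT a, hpx a h, gT_of_ne _ _ _ _ _ h⟩
    obtain ⟨h, hh, hg⟩ := h1
    obtain ⟨h', hh'⟩ := face_surj R (R.β (R.face h))
    have h2 : A h' := by
      rw [hA, hl.beta h h' hh'.symm, neg_ne_zero]
      exact (hA h).1 hh
    obtain ⟨b, hb, hb'⟩ := hAp h' h2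
    refine ⟨b, ?_⟩
    rw [hg, gT_of_ne _ _ _ _ _ hb, hb', hh']

end Pool.Agent.Helper91.MVC
end
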