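import Mathlib
import Pool.Agent.Helper16.LGG.G06

/- Helper72.MVAA.LTwo -/
section
/-!
Project MV, block AA, module AA-5 (second counting lemma, for many faces).

`sum_two`: `H` linearly ordered, `card H = 2 E`, `I` a set such that `σ⁻¹ h < h` for `h ∉ I`:
`∑_{τ pairing} z ^ nf (σ * τ) ≤ 2 ^ (2 E) * z ^ card I * z.ascFactorial E`.

PROOF. By `card_labs` the left side is the number of pairs `(τ, lab)`, `τ` pairing,
`lab (σ (τ h)) = lab h`; so (1) `lab (σ g) = lab (τ g)` for all `g`. Put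
`A = {g | g < τ g}` (opening half-edges), `C = Aᶜ = {h | τ h < h}`; `τ` maps `C` bijectively onto
`A`, so `card A = E`. Put `u g = lab (σ g)`. For `h ∈ C`: `u (τ h) = lab (σ (τ h)) = lab h`.
`exists_code` (with `v = lab`) gives a permutation `π` of `A` preserving `u` (choose one).
CODE: `(τ, lab) ↦ (A, lab restricted to I, (u restricted to A, π))`, an element of
`Σ A : {A : Finset H // A.card = E}, (I → Fin z) × {p : (A → Fin z) × Perm A // p.1 (p.2 a) = p.1 a}`,
whose number of elements is at most `2 ^ (2 E) * z ^ card I * z.ascFactorial E` (`card_pairs`).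
(For `exists_code` use labels `u, lab : H → Fin z` on all of `H`; in the code only the restriction
of `u` to `A` is kept; note `rkS A u` on `A` depends only on `u` on `A`.)
THE CODE IS INJECTIVE: let `(τ, lab)`, `(τ', lab')` have the same code. Strong induction on `h`
(well-founded `<` on the finite linear order): (a) `lab h = lab' h`, (b) if `h ∈ C`, then
`τ h = τ' h`. (a): if `h ∈ I` clear. Otherwise `k = σ⁻¹ h < h`. If `k ∈ A`: `lab h = lab (σ k) =
u k = u' k = lab' h`. If `k ∈ C`: by (1) `lab h = lab (σ k) = lab (τ k)`, and `τ k = τ' k < k` by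
(b) for `k`, so `lab (τ k) = lab' (τ k) = lab' (τ' k) = lab' h` by (a) for `τ k`.
(b): `rkS C lab h = rkS C lab' h` by (a) for the smaller elements and `h`; the element `g ∈ A`
with `u g = lab h`, `rkS A u g = rkS C lab h` given by `exists_code` is therefore the same for
both (`rkS_inj`), and `τ h = π g = π' g = τ' h`.
Finally `τ = τ'`: on `C` by (b); on `A`: for `g ∈ A`, `h = τ g ∈ C`, `τ' h = τ h = g`, so
`τ' g = h`.
-/

namespace Pool.Agent.Helper72.MVAA

open Finset Pool.Agent.Helper60.MV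

/-- the opening half-edges -/
private noncomputable def opn {H : Type} [Fintype H] [LinearOrder H] (τ : Equiv.Perm H) :
    Finset H := univ.filter (fun g => g < τ g)

private theorem mem_opn {H : Type} [Fintype H] [LinearOrder H] (τ : Equiv.Perm H) (g : H) :
    g ∈ opn τ ↔ g < τ g := by
  simp [opn]

private theorem card_opn {H : Type} [Fintype H] [LinearOrder H] (τ : Equiv.Perm H)
    (hτ : IsPairing τ) (E : ℕ) (hE : Fintype.card H = 2 * E) : (opn τ).card = E := by
  have h1 : (opn τ).card = (opn τ)ᶜ.card := by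
    refine Finset.card_bij (fun g _ => τ g) ?_ ?_ ?_
    · intro g hg
      rw [mem_opn] at hg
      rw [mem_compl, mem_opn, hτ.invol]
      exact not_lt_of_gt hg
    · intro a _ b _ h
      exact τ.injective h
    · intro b hb
      rw [mem_compl, mem_opn, not_lt] at hb
      refine ⟨τ b, ?_, hτ.invol b⟩
      rw [mem_opn, hτ.invol]
      exact lt_of_le_of_ne hb (hτ.fpf b)
  have h2 : (opn τ).card + (opn τ)ᶜ.card = Fintype.card H := Finset.card_add_card_compl _
  omega

/-- the pairs with given set of opening half-edges -/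
private def PA {H : Type} [Fintype H] [LinearOrder H] (σ : Equiv.Perm H) (z : ℕ)
    (A : Finset H) : Type :=
  {q : Equiv.Perm H × (H → Fin z) // (IsPairing q.1 ∧ ∀ h, q.2 (σ (q.1 h)) = q.2 h) ∧
    opn q.1 = A}

private theorem exists_pi {H : Type} [Fintype H] [LinearOrder H] (σ : Equiv.Perm H) (z : ℕ)
    (A : Finset H) (q : PA σ z A) :
    ∃ π : Equiv.Perm {g // g ∈ A}, (∀ g, q.1.2 (σ (π g)) = q.1.2 (σ g)) ∧
      ∀ h, h ∉ A → ∃ g : {g // g ∈ A}, q.1.2 (σ g) = q.1.2 h ∧
        rkS A (fun g => q.1.2 (σ g)) g = rkS Aᶜ q.1.2 h ∧ (π g : H) = q.1.1 h := by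
  obtain ⟨⟨τ, lab⟩, ⟨hτ, hlab⟩, hA⟩ := q
  have hmem : ∀ g, g ∈ A ↔ g < τ g := by
    intro g
    rw [← hA]
    exact mem_opn τ g
  obtain ⟨π, h1, h2⟩ := exists_code A Aᶜ (fun g => lab (σ g)) lab τ
    (by
      intro h hh
      rw [mem_compl, hmem, not_lt] at hh
      rw [hmem, hτ.invol]
      exact lt_of_le_of_ne hh (hτ.fpf h))
    (fun h _ h' _ e => τ.injective e)
    (by
      intro g hg
      rw [hmem] at hg
      refine ⟨τ g, ?_, hτ.invol g⟩
      rw [mem_compl, hmem, hτ.invol]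
      exact not_lt_of_gt hg)
    (fun h _ => hlab h)
  exact ⟨π, h1, fun h hh => h2 h (mem_compl.2 hh)⟩

/-- the code -/
private noncomputable def code {H : Type} [Fintype H] [LinearOrder H] (σ : Equiv.Perm H) (z : ℕ)
    (I A : Finset H) (q : PA σ z A) : ({i // i ∈ I} → Fin z) ×
      {p : ({g // g ∈ A} → Fin z) × Equiv.Perm {g // g ∈ A} // ∀ a, p.1 (p.2 a) = p.1 a} :=
  (fun i => q.1.2 i, ⟨(fun a => q.1.2 (σ a), (exists_pi σ z A q).choose),
    (exists_pi σ z A q).choose_spec.1⟩)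

private theorem code_inj {H : Type} [Fintype H] [LinearOrder H] (σ : Equiv.Perm H) (z : ℕ)
    (I A : Finset H) (hI : ∀ h, h ∉ I → σ.symm h < h) :
    Function.Injective (code σ z I A) := by
  intro q q' hqq
  have e1 : ∀ i ∈ I, q.1.2 i = q'.1.2 i := by
    intro i hi
    have := congrFun (congrArg Prod.fst hqq) ⟨i, hi⟩
    exact this
  have e2' := congrArg (fun c => c.2.1) hqq
  have e2 : ∀ a ∈ A, q.1.2 (σ a) = q'.1.2 (σ a) := by
    intro a ha
    exact congrFun (congrArg Prod.fst e2') ⟨a, ha⟩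
  have e3 : (exists_pi σ z A q).choose = (exists_pi σ z A q').choose :=
    congrArg Prod.snd e2'
  have s1 := (exists_pi σ z A q).choose_spec.2
  have s2 := (exists_pi σ z A q').choose_spec.2
  rw [← e3] at s2
  set π := (exists_pi σ z A q).choose with hπ
  clear_value π
  clear e3 hπ e2' hqq
  obtain ⟨⟨τ, lab⟩, ⟨hτ, hlab⟩, hA⟩ := q
  obtain ⟨⟨τ', lab'⟩, ⟨hτ', hlab'⟩, hA'⟩ := q'
  simp only at *
  have hm : ∀ g, g ∈ A ↔ g < τ g := by
    intro g
    rw [← hA]
    exact mem_opn τ g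
  have hm' : ∀ g, g ∈ A ↔ g < τ' g := by
    intro g
    rw [← hA']
    exact mem_opn τ' g
  have hls : ∀ k, lab (σ k) = lab (τ k) := by
    intro k
    have := hlab (τ k)
    rw [hτ.invol] at this
    exact this
  have hls' : ∀ k, lab' (σ k) = lab' (τ' k) := by
    intro k
    have := hlab' (τ' k)
    rw [hτ'.invol] at this
    exact this
  have hrk : ∀ g, rkS A (fun g => lab (σ g)) g = rkS A (fun g => lab' (σ g)) g ∨ g ∉ A := by
    intro g
    by_cases hg : g ∈ A
    · left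
      unfold rkS
      congr 1
      refine Finset.filter_congr fun g' hg' => ?_
      show g' < g ∧ lab (σ g') = lab (σ g) ↔ g' < g ∧ lab' (σ g') = lab' (σ g)
      rw [e2 g hg, e2 g' hg']
    · right
      exact hg
  have key : ∀ h, lab h = lab' h ∧ (h ∉ A → τ h = τ' h) := by
    intro h
    induction h using WellFoundedLT.induction with
    | ind h ih =>
      have ha : lab h = lab' h := by
        by_cases hi : h ∈ I
        · exact e1 h hi
        · have hk := hI h hi
          have hσ : σ (σ.symm h) = h := σ.apply_symm_apply h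
          set k := σ.symm h with hkdef
          by_cases hkA : k ∈ A
          · rw [← hσ]
            exact e2 k hkA
          · have h1 : τ k < k := by
              have h2 := hkA
              rw [hm, not_lt] at h2
              exact lt_of_le_of_ne h2 (hτ.fpf k)
            have h3 := (ih k hk).2 hkA
            have h4 := (ih (τ k) (h1.trans hk)).1
            rw [← hσ, hls, hls', h4, h3]
      refine ⟨ha, fun hhA => ?_⟩
      obtain ⟨g, g1, g2, g3⟩ := s1 h hhA
      obtain ⟨g', g1', g2', g3'⟩ := s2 h hhA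
      have hrC : rkS Aᶜ lab h = rkS Aᶜ lab' h := by
        unfold rkS
        congr 1
        refine Finset.filter_congr fun x _ => ?_
        constructor
        · rintro ⟨hx, hx2⟩
          exact ⟨hx, by rw [← (ih x hx).1, ← ha]; exact hx2⟩
        · rintro ⟨hx, hx2⟩
          exact ⟨hx, by rw [(ih x hx).1, ha]; exact hx2⟩
      have hgg : (g : H) = g' := by
        refine rkS_inj A (fun g => lab (σ g)) g.2 g'.2 ?_ ?_
        · show lab (σ g) = lab (σ g')
          rw [g1, e2 g' g'.2, g1', ha]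
        · rw [g2, hrC, ← g2']
          exact ((hrk g').resolve_right (fun hn => hn g'.2)).symm
      have hgg' : g = g' := Subtype.ext hgg
      rw [← g3, ← g3', hgg']
  have hlabeq : lab = lab' := funext fun h => (key h).1
  have hτeq : τ = τ' := by
    refine Equiv.ext fun h => ?_
    by_cases hh : h ∈ A
    · have hk : τ h ∉ A := by
        have h1 := hh
        rw [hm] at h1
        rw [hm, hτ.invol]
        exact not_lt_of_gt h1
      have h2 := (key (τ h)).2 hk
      rw [hτ.invol] at h2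
      rw [h2, hτ'.invol]
      rw [← h2]
    · exact (key h).2 hh
  subst hlabeq
  subst hτeq
  rfl

private instance {H : Type} [Fintype H] [LinearOrder H] (σ : Equiv.Perm H) (z : ℕ)
    (A : Finset H) : Finite (PA σ z A) := by
  unfold PA
  infer_instance

private theorem card_PA {H : Type} [Fintype H] [LinearOrder H] (σ : Equiv.Perm H) (z : ℕ)
    (I A : Finset H) (hI : ∀ h, h ∉ I → σ.symm h < h) :
    Nat.card (PA σ z A) ≤ z ^ I.card * z.ascFactorial A.card := by
  refine (Nat.card_le_card_of_injective _ (code_inj σ z I A hI)).trans ?_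
  rw [Nat.card_prod, card_pairs]
  simp

theorem sum_two {H : Type} [Fintype H] [LinearOrder H] (σ : Equiv.Perm H) (I : Finset H)
    (hI : ∀ h, h ∉ I → σ.symm h < h) (E : ℕ) (hE : Fintype.card H = 2 * E) (z : ℕ) :
    ∑ τ ∈ PR H, z ^ nf (σ * τ) ≤ 2 ^ (2 * E) * z ^ I.card * z.ascFactorial E := by
  classical
  have h1 : ∑ τ ∈ PR H, z ^ nf (σ * τ)
      = ((PR H).sigma (fun τ => (univ : Finset (H → Fin z)).filter
          (fun lab => ∀ h, lab (σ (τ h)) = lab h))).card := by
    rw [Finset.card_sigma]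
    refine Finset.sum_congr rfl fun τ _ => ?_
    rw [← card_labs, Nat.card_eq_fintype_card, Fintype.card_subtype]
    rfl
  rw [h1]
  have hmaps : ∀ p ∈ ((PR H).sigma (fun τ => (univ : Finset (H → Fin z)).filter
          (fun lab => ∀ h, lab (σ (τ h)) = lab h))),
      opn p.1 ∈ Finset.powersetCard E (univ : Finset H) := by
    intro p hp
    rw [Finset.mem_sigma, mem_PR] at hp
    rw [Finset.mem_powersetCard]
    exact ⟨Finset.subset_univ _, card_opn p.1 hp.1 E hE⟩
  rw [Finset.card_eq_sum_card_fiberwise hmaps]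
  have h2 : ∀ A ∈ Finset.powersetCard E (univ : Finset H),
      (((PR H).sigma (fun τ => (univ : Finset (H → Fin z)).filter
          (fun lab => ∀ h, lab (σ (τ h)) = lab h))).filter (fun p => opn p.1 = A)).card
        ≤ z ^ I.card * z.ascFactorial E := by
    intro A hA
    rw [Finset.mem_powersetCard] at hA
    have h3 := card_PA σ z I A hI
    rw [hA.2] at h3
    refine le_trans ?_ h3
    set T := ((PR H).sigma (fun τ => (univ : Finset (H → Fin z)).filter
          (fun lab => ∀ h, lab (σ (τ h)) = lab h))).filter (fun p => opn p.1 = A) with hT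
    have hTm : ∀ p ∈ T, (IsPairing p.1 ∧ ∀ h, p.2 (σ (p.1 h)) = p.2 h) ∧ opn p.1 = A := by
      intro p hp
      rw [hT, Finset.mem_filter, Finset.mem_sigma, mem_PR, Finset.mem_filter] at hp
      exact ⟨⟨hp.1.1, hp.1.2.2⟩, hp.2⟩
    have hcard : T.card = Nat.card {p // p ∈ T} := by
      rw [Nat.card_eq_fintype_card, Fintype.card_coe]
    rw [hcard]
    let f : {p // p ∈ T} → PA σ z A := fun p => ⟨(p.1.1, p.1.2), hTm p.1 p.2⟩
    refine Nat.card_le_card_of_injective f ?_
    rintro ⟨⟨τ, lab⟩, hp⟩ ⟨⟨τ', lab'⟩, hp'⟩ hpp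
    have h4 : ((τ, lab) : Equiv.Perm H × (H → Fin z)) = (τ', lab') := congrArg Subtype.val hpp
    rw [Prod.mk.injEq] at h4
    obtain ⟨h5, h6⟩ := h4
    subst h5
    subst h6
    rfl
  refine (Finset.sum_le_card_nsmul _ _ _ h2).trans ?_
  rw [Finset.card_powersetCard, Finset.card_univ, hE, smul_eq_mul, mul_assoc]
  exact Nat.mul_le_mul_right _ (Nat.choose_le_two_pow _ _)

end Pool.Agent.Helper72.MVAA
end

/- Helper72.MVAA.LThree -/
section
/-!
Project MV, block AA, module AA-6 (second counting lemma for `rot K`).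

`sum_rot`: order `HK K = Σ i, Fin (K i)` so that `(i, a) < (i, a + 1)`: choose an injection
`e : ρ → ℕ` (from `Fintype.equivFin ρ`) and the linear order
`LinearOrder.lift' (fun h => (toLex (e h.1, (h.2 : ℕ)) : ℕ ×ₗ ℕ)) _` (or
`h ↦ e h.1 * (2 * E + 1) + h.2`, using `K i ≤ 2 E`). `I = {(i, 0)}` has `card ρ` elements
(`0 < K i`). For `h = (i, a)`, `a ≠ 0`: `(rot K).symm h = (i, a - 1)` (check `rot K (i, a-1) = (i, a)`
with `finRotate`, e.g. `finRotate_of_lt` or `coe_finRotate_of_ne_last`). Apply `sum_two`.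
(The statement of `PR`, `nf` uses only the `Fintype` structure, so the order can be introduced by
`letI`.)
-/

namespace Pool.Agent.Helper72.MVAA

open Finset Pool.Agent.Helper60.MV

private theorem l3_symm_lt (n : ℕ) (a : Fin n) (ha : (a : ℕ) ≠ 0) :
    ((finRotate n).symm a : ℕ) < (a : ℕ) := by
  cases n with
  | zero => exact a.elim0
  | succ n =>
    have hb : finRotate (n + 1) ((finRotate (n + 1)).symm a) = a := Equiv.apply_symm_apply _ _
    by_cases hl : (finRotate (n + 1)).symm a = Fin.last n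
    · rw [hl, finRotate_last] at hb
      exact absurd (by rw [← hb]; rfl) ha
    · have h1 := coe_finRotate_of_ne_last hl
      rw [hb] at h1
      omega

theorem sum_rot {ρ : Type} [Fintype ρ] (K : ρ → ℕ) (hK : ∀ i, 0 < K i) (E : ℕ)
    (hE : ∑ i, K i = 2 * E) (z : ℕ) :
    ∑ τ ∈ PR (HK K), z ^ nf (rot K * τ) ≤
      2 ^ (2 * E) * z ^ (Fintype.card ρ) * z.ascFactorial E := by
  classical
  let e : ρ ≃ Fin (Fintype.card ρ) := Fintype.equivFin ρ
  let F : HK K → ℕ := fun h => (h.2 : ℕ) + (2 * E + 1) * (e h.1 : ℕ)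
  have hKle : ∀ i, K i ≤ 2 * E := fun i => by
    rw [← hE]
    exact Finset.single_le_sum (f := K) (fun _ _ => Nat.zero_le _) (mem_univ i)
  have hF : Function.Injective F := by
    rintro ⟨i, a⟩ ⟨j, b⟩ h
    have ha : (a : ℕ) < 2 * E + 1 := lt_of_lt_of_le a.2 ((hKle i).trans (Nat.le_succ _))
    have hb : (b : ℕ) < 2 * E + 1 := lt_of_lt_of_le b.2 ((hKle j).trans (Nat.le_succ _))
    have h0 : (a : ℕ) + (2 * E + 1) * (e i : ℕ) = (b : ℕ) + (2 * E + 1) * (e j : ℕ) := h
    have h1 : (e i : ℕ) = (e j : ℕ) := by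
      have h2 := congrArg (fun n => n / (2 * E + 1)) h0
      simpa [Nat.add_mul_div_left, Nat.div_eq_of_lt ha, Nat.div_eq_of_lt hb] using h2
    have h2 : (a : ℕ) = (b : ℕ) := by
      rw [h1] at h0
      exact Nat.add_right_cancel h0
    have h3 : i = j := e.injective (Fin.ext h1)
    subst h3
    rw [Fin.ext h2]
  letI : LinearOrder (HK K) := LinearOrder.lift' F hF
  let I : Finset (HK K) := univ.image (fun i => (⟨i, ⟨0, hK i⟩⟩ : HK K))
  have hIcard : I.card = Fintype.card ρ := by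
    rw [Finset.card_image_of_injective, Finset.card_univ]
    intro i j h
    exact congrArg Sigma.fst h
  have hI : ∀ h, h ∉ I → F ((rot K).symm h) < F h := by
    rintro ⟨i, a⟩ h
    have ha : (a : ℕ) ≠ 0 := by
      intro h0
      apply h
      refine Finset.mem_image.2 ⟨i, mem_univ _, ?_⟩
      have h1 : a = ⟨0, hK i⟩ := Fin.ext h0
      rw [h1]
    show ((finRotate (K i)).symm a : ℕ) + (2 * E + 1) * (e i : ℕ)
      < (a : ℕ) + (2 * E + 1) * (e i : ℕ)
    exact Nat.add_lt_add_right (l3_symm_lt _ a ha) _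
  have hcard : Fintype.card (HK K) = 2 * E := by
    rw [← hE]
    simp [Fintype.card_sigma]
  have h := sum_two (rot K) I hI E hcard z
  rwa [hIcard] at h

end Pool.Agent.Helper72.MVAA
end

/- Helper72.MVAA.Num -/
section
/-!
Project MV, block AA, module AA-8 (numerics).

* `pow_small`: `70000 ^ (E / 50) ≤ (5/4)^E`: `(5/4)^50 ≥ 70000` (`norm_num`), so
  `70000^(E/50) ≤ (5/4)^(50 * (E/50)) ≤ (5/4)^E`.
* `num_small`: `(5/4) (10/9) (10/9) = 1.5432.. < 1.6`; so the left side is at most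
  `16 E^3 1.6^E (E-1)! ≤ 16 E^3 1.6^E E!` and `16 E^3 (16/19)^E` is bounded
  (`tendsto_pow_const_mul_const_pow_of_abs_lt_one`, a convergent sequence is bounded).
* `num_large`: `(2 E)^E = 2^E E^E ≤ 2^E exp(E) E!` (`Real.pow_div_factorial_le_exp`); so the left
  side is at most `E! A^E E^2 E^(-E/100)` with a constant `A` and `A^E E^2 E^(-E/100) =
  exp (E log A + 2 log E - E log E / 100)` is bounded for `E ≥ 1` (tends to 0, or: `2 log E ≤ 2 E`
  and for `log E ≥ 100 (log A + 2)` the exponent is `≤ 0`; for smaller `E` finitely many values).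
-/

namespace Pool.Agent.Helper72.MVAA

theorem pow_small (E : ℕ) : (70000 : ℝ) ^ (E / 50) ≤ (5 / 4 : ℝ) ^ E := by
  have h1 : (70000 : ℝ) ≤ (5 / 4 : ℝ) ^ 50 := by norm_num
  calc (70000 : ℝ) ^ (E / 50) ≤ ((5 / 4 : ℝ) ^ 50) ^ (E / 50) :=
        pow_le_pow_left₀ (by norm_num) h1 _
    _ = (5 / 4 : ℝ) ^ (50 * (E / 50)) := by rw [pow_mul]
    _ ≤ (5 / 4 : ℝ) ^ E := pow_le_pow_right₀ (by norm_num) (Nat.mul_div_le E 50)

theorem num_small : ∃ C : ℝ, 0 < C ∧ ∀ E : ℕ, 1 ≤ E →
    (10 / 9 : ℝ) ^ E * ((2 * E : ℝ) ^ 2 * (((E / 50 : ℕ) : ℝ) + 1) * ((70000 : ℝ) ^ (E / 50)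
      * (((E - 1).factorial : ℝ) * (10 / 9 : ℝ) ^ E))) ≤ C * (19 / 10) ^ E * (E.factorial : ℝ) := by
  have ht := tendsto_pow_const_mul_const_pow_of_abs_lt_one 3 (r := (16 / 19 : ℝ))
    (by rw [abs_of_pos (by norm_num)]; norm_num)
  obtain ⟨B, hB⟩ := ht.bddAbove_range
  have hB' : ∀ n : ℕ, (n : ℝ) ^ 3 * (16 / 19) ^ n ≤ B := fun n => hB ⟨n, rfl⟩
  have hBpos : 0 < B := lt_of_lt_of_le (by norm_num) (hB' 1)
  refine ⟨4 * B, by positivity, fun E hE => ?_⟩
  have h1 : (((E / 50 : ℕ) : ℝ) + 1) ≤ E := by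
    have : E / 50 + 1 ≤ E := by omega
    exact_mod_cast this
  have h2 := pow_small E
  have h3 : ((E - 1).factorial : ℝ) ≤ (E.factorial : ℝ) := by
    exact_mod_cast Nat.factorial_le (Nat.sub_le E 1)
  have hEf : (0 : ℝ) < (E.factorial : ℝ) := by exact_mod_cast Nat.factorial_pos E
  have hE1f : (0 : ℝ) < ((E - 1).factorial : ℝ) := by exact_mod_cast Nat.factorial_pos (E - 1)
  have hE0 : (0 : ℝ) ≤ (E : ℝ) := Nat.cast_nonneg E
  calc (10 / 9 : ℝ) ^ E * ((2 * E : ℝ) ^ 2 * (((E / 50 : ℕ) : ℝ) + 1) * ((70000 : ℝ) ^ (E / 50)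
      * (((E - 1).factorial : ℝ) * (10 / 9 : ℝ) ^ E)))
      ≤ (10 / 9 : ℝ) ^ E * ((2 * E : ℝ) ^ 2 * E * ((5 / 4 : ℝ) ^ E
      * ((E.factorial : ℝ) * (10 / 9 : ℝ) ^ E))) := by gcongr
    _ = 4 * (E : ℝ) ^ 3 * (((10 / 9 : ℝ) * (5 / 4) * (10 / 9)) ^ E) * (E.factorial : ℝ) := by
        have h5 : ((10 / 9 : ℝ) * (5 / 4) * (10 / 9)) ^ E =
            (10 / 9 : ℝ) ^ E * (5 / 4) ^ E * (10 / 9) ^ E := by rw [mul_pow, mul_pow]
        rw [h5]; ring
    _ ≤ 4 * (E : ℝ) ^ 3 * ((16 / 10 : ℝ) ^ E) * (E.factorial : ℝ) := by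
        gcongr
        norm_num
    _ = 4 * ((E : ℝ) ^ 3 * (16 / 19) ^ E) * (19 / 10) ^ E * (E.factorial : ℝ) := by
        have : (16 / 10 : ℝ) ^ E = (16 / 19) ^ E * (19 / 10) ^ E := by
          rw [← mul_pow]; norm_num
        rw [this]; ring
    _ ≤ 4 * B * (19 / 10) ^ E * (E.factorial : ℝ) := by
        have := hB' E
        gcongr

theorem num_large : ∃ C : ℝ, 0 < C ∧ ∀ E : ℕ, 1 ≤ E →
    (10 / 9 : ℝ) ^ E * ((98 : ℝ) ^ E * (E : ℝ) ^ (-(E : ℝ) / 100) *
      ((2 : ℝ) ^ (2 * E) * (E : ℝ) ^ 2 * (2 * E : ℝ) ^ E)) ≤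
      C * (19 / 10) ^ E * (E.factorial : ℝ) := by
  set A : ℝ := 10 / 9 * 98 * 4 * 2 * Real.exp 1 with hA
  have hA1 : 1 ≤ A := by
    have : (1 : ℝ) ≤ Real.exp 1 := Real.one_le_exp (by norm_num)
    rw [hA]; nlinarith
  have hA0 : 0 < A := by linarith
  have hlA : 0 ≤ Real.log A := Real.log_nonneg hA1
  set K : ℝ := Real.log A + 2 with hK
  have hK0 : 0 < K := by linarith
  refine ⟨Real.exp (Real.exp (100 * K) * K), Real.exp_pos _, fun E hE => ?_⟩
  have hE1 : (1 : ℝ) ≤ (E : ℝ) := by exact_mod_cast hE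
  have hE0 : (0 : ℝ) < (E : ℝ) := by linarith
  have hEf : (0 : ℝ) < (E.factorial : ℝ) := by exact_mod_cast Nat.factorial_pos E
  have hlE : 0 ≤ Real.log E := Real.log_nonneg hE1
  have hlE' : Real.log E ≤ E := by
    have := Real.log_le_sub_one_of_pos hE0
    linarith
  have hpow : (E : ℝ) ^ E ≤ Real.exp E * (E.factorial : ℝ) := by
    have := Real.pow_div_factorial_le_exp (E : ℝ) hE0.le E
    rwa [div_le_iff₀ hEf] at this
  have hr : 0 < (E : ℝ) ^ (-(E : ℝ) / 100) := Real.rpow_pos_of_pos hE0 _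
  have hexpE : Real.exp E = (Real.exp 1) ^ E := by
    rw [← Real.exp_nat_mul, mul_one]
  have hmain : A ^ E * (E : ℝ) ^ 2 * (E : ℝ) ^ (-(E : ℝ) / 100) ≤
      Real.exp (Real.exp (100 * K) * K) := by
    have e1 : A ^ E = Real.exp (E * Real.log A) := by
      rw [Real.exp_nat_mul, Real.exp_log hA0]
    have e2 : (E : ℝ) ^ 2 = Real.exp (2 * Real.log E) := by
      have := Real.exp_nat_mul (Real.log E) 2
      rw [Real.exp_log hE0] at this
      rw [← this]; norm_num
    have e3 : (E : ℝ) ^ (-(E : ℝ) / 100) = Real.exp (Real.log E * (-(E : ℝ) / 100)) :=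
      Real.rpow_def_of_pos hE0 _
    rw [e1, e2, e3, ← Real.exp_add, ← Real.exp_add, Real.exp_le_exp]
    by_cases hc : 100 * K ≤ Real.log E
    · have h1 : (E : ℝ) * Real.log A + 2 * Real.log E + Real.log E * (-(E : ℝ) / 100) ≤ 0 := by
        have : (E : ℝ) * (100 * K) ≤ E * Real.log E := by gcongr
        have h2 : (E : ℝ) * Real.log A + 2 * E = E * K := by rw [hK]; ring
        nlinarith
      have h2 : 0 ≤ Real.exp (100 * K) * K := by positivity
      linarith
    · push Not at hc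
      have hE2 : (E : ℝ) ≤ Real.exp (100 * K) := by
        rw [← Real.exp_log hE0]
        exact Real.exp_le_exp.mpr hc.le
      have h1 : Real.log E * (-(E : ℝ) / 100) ≤ 0 := by
        have : 0 ≤ Real.log E * ((E : ℝ) / 100) := by positivity
        nlinarith
      have h2 : (E : ℝ) * Real.log A + 2 * Real.log E ≤ E * K := by
        rw [hK]; nlinarith
      have h3 : (E : ℝ) * K ≤ Real.exp (100 * K) * K := by gcongr
      linarith
  have h19 : (1 : ℝ) ≤ (19 / 10 : ℝ) ^ E := one_le_pow₀ (by norm_num)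
  calc (10 / 9 : ℝ) ^ E * ((98 : ℝ) ^ E * (E : ℝ) ^ (-(E : ℝ) / 100) *
      ((2 : ℝ) ^ (2 * E) * (E : ℝ) ^ 2 * (2 * E : ℝ) ^ E))
      = (10 / 9 : ℝ) ^ E * ((98 : ℝ) ^ E * (E : ℝ) ^ (-(E : ℝ) / 100) *
      ((2 : ℝ) ^ (2 * E) * (E : ℝ) ^ 2 * (2 ^ E * (E : ℝ) ^ E))) := by rw [mul_pow]
    _ ≤ (10 / 9 : ℝ) ^ E * ((98 : ℝ) ^ E * (E : ℝ) ^ (-(E : ℝ) / 100) *
      ((2 : ℝ) ^ (2 * E) * (E : ℝ) ^ 2 * (2 ^ E * (Real.exp E * (E.factorial : ℝ))))) := by
        gcongr
    _ = (A ^ E * (E : ℝ) ^ 2 * (E : ℝ) ^ (-(E : ℝ) / 100)) * (E.factorial : ℝ) := by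
        rw [hA, hexpE, mul_pow, mul_pow, mul_pow, mul_pow, pow_mul]
        norm_num
        ring
    _ ≤ Real.exp (Real.exp (100 * K) * K) * (E.factorial : ℝ) := by gcongr
    _ = Real.exp (Real.exp (100 * K) * K) * 1 * (E.factorial : ℝ) := by ring
    _ ≤ Real.exp (Real.exp (100 * K) * K) * (19 / 10) ^ E * (E.factorial : ℝ) := by gcongr

end Pool.Agent.Helper72.MVAA
end
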