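import Mathlib
import Pool.Agent.Helper16.LGG.G05
import Pool.Agent.Helper16.LGG.G06

/- Helper52.MVD.PF -/
section
/-!
Project MV, block D1, module D1-8: partial fractions.

* `pf1`, by induction on `B` (nonempty): with `u_j = 1/(x_j - z)`, `c_j = ∏_{k ∈ B \ j} 1/(x_k - x_j)`, for `b ∉ B`:
  `u_b u_j = (u_j - u_b)/(x_b - x_j)`, so `u_b ∏_B u = ∑_{j∈B} c_j u_b u_j = ∑_j c_j/(x_b - x_j) u_j - u_b ∑_j c_j/(x_b - x_j)`,
  and `- ∑_j c_j/(x_b - x_j) = ∑_j c_j/(x_j - x_b) = ∏_{j∈B} 1/(x_j - x_b)` is `pf1` for `B` at `z = x_b`. (For `B` empty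
  the insertion of `b` is the trivial case of a singleton.)
* `pf2`, by induction on `B` as well (`P_B`, `L_B`, `S_B` for the product, the sum and the right side; `B` empty: 0 = 0):
  `P_{Bb} L_{Bb} = u_b P_B L_B + u_b² P_B = u_b S_B + u_b² P_B`; with `d_j = 1/(x_b - x_j)`, `u_b u_j = d_j (u_j - u_b)`:
  `u_b S_B = ∑ c_j d_j u_j² - ∑ c_j d_j² (u_j - u_b)`, `u_b² P_B = ∑ c_j d_j² (u_j - u_b) - u_b² ∑ c_j d_j` (`pf1`),
  total `∑ c_j d_j u_j² + u_b² (- ∑ c_j d_j)`, which is `S_{Bb}` by `pf1` at `x_b` (for `B` nonempty).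
-/

namespace Pool.Agent.Helper52.MVD

open Finset

private theorem erase_prod {ι F : Type} [DecidableEq ι] [Field F] (x : ι → F) (B : Finset ι)
    (b : ι) (hb : b ∉ B) (j : ι) (hj : j ∈ B) :
    ∏ k ∈ (insert b B).erase j, 1 / (x k - x j) =
      1 / (x b - x j) * ∏ k ∈ B.erase j, 1 / (x k - x j) := by
  have hne : b ≠ j := fun h => hb (h ▸ hj)
  have h1 : (insert b B).erase j = insert b (B.erase j) := Finset.erase_insert_of_ne hne
  rw [h1, Finset.prod_insert (fun h => hb (Finset.mem_of_mem_erase h))]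

theorem pf1 {ι F : Type} [DecidableEq ι] [Field F] (x : ι → F) (B : Finset ι) (hB : B.Nonempty)
    (hx : ∀ i ∈ B, ∀ j ∈ B, i ≠ j → x i - x j ≠ 0) (z : F) (hz : ∀ i ∈ B, x i - z ≠ 0) :
    ∏ j ∈ B, 1 / (x j - z) = ∑ j ∈ B, 1 / (x j - z) * ∏ k ∈ B.erase j, 1 / (x k - x j) := by
  induction B using Finset.induction_on generalizing z with
  | empty => exact absurd hB Finset.not_nonempty_empty
  | insert b B hb ih =>
    rcases B.eq_empty_or_nonempty with rfl | hBn
    · simp
    · have hx' : ∀ i ∈ B, ∀ j ∈ B, i ≠ j → x i - x j ≠ 0 := fun i hi j hj =>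
        hx i (Finset.mem_insert_of_mem hi) j (Finset.mem_insert_of_mem hj)
      have hz' : ∀ i ∈ B, x i - z ≠ 0 := fun i hi => hz i (Finset.mem_insert_of_mem hi)
      have hbz : x b - z ≠ 0 := hz b (Finset.mem_insert_self _ _)
      have hxb : ∀ i ∈ B, x i - x b ≠ 0 := fun i hi =>
        hx i (Finset.mem_insert_of_mem hi) b (Finset.mem_insert_self _ _)
          (fun h => hb (h ▸ hi))
      have h1 := ih hBn hx' z hz'
      have h2 := ih hBn hx' (x b) hxb
      rw [Finset.prod_insert hb, Finset.sum_insert hb, Finset.erase_insert hb, h1, h2,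
        Finset.mul_sum, Finset.mul_sum, ← Finset.sum_add_distrib]
      refine Finset.sum_congr rfl fun j hj => ?_
      rw [erase_prod x B b hb j hj]
      have h3 : x j - z ≠ 0 := hz' j hj
      have h4 : x j - x b ≠ 0 := hxb j hj
      have h5 : x b - x j ≠ 0 := by
        intro h
        apply h4
        rw [← neg_sub, h, neg_zero]
      have h6 : 1 / (x b - z) * (1 / (x j - z)) =
          1 / (x b - z) * (1 / (x j - x b)) + 1 / (x j - z) * (1 / (x b - x j)) := by
        rw [← neg_sub (x b) (x j)]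
        field_simp
        ring
      rw [← mul_assoc, ← mul_assoc, ← mul_assoc, h6]
      ring

theorem pf2 {ι F : Type} [DecidableEq ι] [Field F] (x : ι → F) (B : Finset ι)
    (hx : ∀ i ∈ B, ∀ j ∈ B, i ≠ j → x i - x j ≠ 0) (z : F) (hz : ∀ i ∈ B, x i - z ≠ 0) :
    (∏ j ∈ B, 1 / (x j - z)) * ∑ j ∈ B, 1 / (x j - z) =
      ∑ j ∈ B, (1 / (x j - z)) ^ 2 * ∏ k ∈ B.erase j, 1 / (x k - x j) := by
  induction B using Finset.induction_on with
  | empty => simp
  | insert b B hb ih =>
    rcases B.eq_empty_or_nonempty with rfl | hBn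
    · simp [sq]
    · have hx' : ∀ i ∈ B, ∀ j ∈ B, i ≠ j → x i - x j ≠ 0 := fun i hi j hj =>
        hx i (Finset.mem_insert_of_mem hi) j (Finset.mem_insert_of_mem hj)
      have hz' : ∀ i ∈ B, x i - z ≠ 0 := fun i hi => hz i (Finset.mem_insert_of_mem hi)
      have hbz : x b - z ≠ 0 := hz b (Finset.mem_insert_self _ _)
      have hxb : ∀ i ∈ B, x i - x b ≠ 0 := fun i hi =>
        hx i (Finset.mem_insert_of_mem hi) b (Finset.mem_insert_self _ _)
          (fun h => hb (h ▸ hi))
      have h1 := ih hx' hz'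
      have h2 := pf1 x B hBn hx' z hz'
      have h3 := pf1 x B hBn hx' (x b) hxb
      rw [Finset.prod_insert hb, Finset.sum_insert hb, Finset.sum_insert hb,
        Finset.erase_insert hb, h3]
      have h4 : (1 / (x b - z) * ∏ j ∈ B, 1 / (x j - z)) *
          (1 / (x b - z) + ∑ j ∈ B, 1 / (x j - z)) =
          (1 / (x b - z)) ^ 2 * (∏ j ∈ B, 1 / (x j - z)) +
            1 / (x b - z) * ((∏ j ∈ B, 1 / (x j - z)) * ∑ j ∈ B, 1 / (x j - z)) := by ring
      rw [h4, h1, h2, Finset.mul_sum, Finset.mul_sum, Finset.mul_sum, ← Finset.sum_add_distrib,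
        ← Finset.sum_add_distrib]
      refine Finset.sum_congr rfl fun j hj => ?_
      rw [erase_prod x B b hb j hj]
      have h5 : x j - z ≠ 0 := hz' j hj
      have h6 : x j - x b ≠ 0 := hxb j hj
      have h7 : x b - x j ≠ 0 := by
        intro h
        apply h6
        rw [← neg_sub, h, neg_zero]
      have h8 : (1 / (x b - z)) ^ 2 * (1 / (x j - z)) + 1 / (x b - z) * (1 / (x j - z)) ^ 2 =
          (1 / (x b - z)) ^ 2 * (1 / (x j - x b)) + (1 / (x j - z)) ^ 2 * (1 / (x b - x j)) := by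
        rw [← neg_sub (x b) (x j)]
        field_simp
        ring
      calc (1 / (x b - z)) ^ 2 * (1 / (x j - z) * ∏ k ∈ B.erase j, 1 / (x k - x j)) +
            1 / (x b - z) * ((1 / (x j - z)) ^ 2 * ∏ k ∈ B.erase j, 1 / (x k - x j))
          = ((1 / (x b - z)) ^ 2 * (1 / (x j - z)) + 1 / (x b - z) * (1 / (x j - z)) ^ 2) *
            ∏ k ∈ B.erase j, 1 / (x k - x j) := by ring
        _ = _ := by rw [h8]; ring

end Pool.Agent.Helper52.MVD
end

/- Helper52.MVD.IdI -/
section
/-!
Project MV, block D1, module D1-10: the first operator identity.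

`W = PowerSeries.X`, `r_{i,B} = ∏_{j ∈ B.erase i} 1/(s_j - s_i)`, `R_i = ∑_{B ∋ i} (-W)^(|B|-1) mu(r_{i,B}) K_B`.
By `step_mu`: `(1 + W DD i) R_i = ∑_{B∋i} (-W)^(|B|-1) [mu(r_{i,B}) K_{B.erase i} + W mu(d_i r_{i,B}) K_B]`.
First part: `J = B.erase i` runs over the sets with `i ∉ J`: `∑_{J∌i} (-W)^|J| mu(∏_{j∈J} 1/(s_j - s_i)) K_J`; `J = ∅`
gives 1. Right side: `1 + W ∑_{j≠i} mu(1/(s_i-s_j)) R_j = 1 - ∑_{B ≠ ∅} (-W)^|B| mu(∑_{j∈B.erase i} (s_i-s_j)⁻¹ r_{j,B}) K_B`.
Compare for every `B ≠ ∅`: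
 (`i ∉ B`) `∏_{j∈B} 1/(s_j - s_i) = ∑_{j∈B} (s_j - s_i)⁻¹ ∏_{k∈B.erase j} (s_k - s_j)⁻¹`: `pf1` with `z = s_i`;
 (`i ∈ B`, `J = B.erase i`) `d_i r_{i,B} = r_{i,B} ∑_{j∈J} 1/(s_j - s_i)` and for `j ∈ J`
 `r_{j,B} = (s_i - s_j)⁻¹ ∏_{k∈J.erase j} (s_k - s_j)⁻¹`, so the needed
 `d_i r_{i,B} = ∑_{j∈J} (s_i - s_j)⁻¹ r_{j,B}` is `pf2` for `J`, `z = s_i`.
-/

namespace Pool.Agent.Helper52.MVD

open Finset Pool.Agent.Helper60.MV

namespace DF

variable {F : Type} [Field F] [Algebra ℝ F] {N : ℕ} (D : DF F N)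

/-- `R_i = ∑_{B ∋ i} (-W)^(|B|-1) ∏_{j ∈ B \ i} (s_j - s_i)⁻¹ K_B` -/
noncomputable def RR (i : Fin N) : PowerSeries (Module.End ℝ F) :=
  ∑ B ∈ univ.filter (fun B : Finset (Fin N) => i ∈ B),
    (-PowerSeries.X) ^ (B.card - 1) *
      (muS (∏ j ∈ B.erase i, 1 / (D.s j - D.s i)) * D.KB B)

/-- `muS` as an additive homomorphism -/
private noncomputable def muH {F : Type} [Field F] [Algebra ℝ F] :
    F →+ PowerSeries (Module.End ℝ F) :=
  AddMonoidHom.mk' muS muS_add

private theorem muH_apply {F : Type} [Field F] [Algebra ℝ F] (a : F) : muH a = muS a := rfl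

private theorem d_prod_pv2 (i : Fin N) (J : Finset (Fin N)) (hi : i ∉ J) :
    D.d i (∏ j ∈ J, 1 / (D.s j - D.s i)) =
      (∏ j ∈ J, 1 / (D.s j - D.s i)) * ∑ j ∈ J, 1 / (D.s j - D.s i) := by
  classical
  induction J using Finset.induction_on with
  | empty => simp
  | insert a J ha ih =>
    have hia : i ≠ a := by
      rintro rfl
      exact hi (Finset.mem_insert_self _ _)
    have hiJ : i ∉ J := fun h => hi (Finset.mem_insert_of_mem h)
    rw [Finset.prod_insert ha, Finset.sum_insert ha, Derivation.leibniz, ih hiJ]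
    have h1 : D.d i (1 / (D.s a - D.s i)) = (1 / (D.s a - D.s i)) ^ 2 := by
      rw [one_div, Derivation.leibniz_inv, map_sub, D.ds, D.ds, if_neg hia, if_pos rfl]
      simp
    rw [h1]
    simp only [smul_eq_mul]
    ring

theorem idI (i : Fin N) : (1 + PowerSeries.X * PowerSeries.C (D.DD i)) * D.RR i =
    1 + PowerSeries.X * ∑ j ∈ univ.erase i, muS (1 / (D.s i - D.s j)) * D.RR j := by
  classical
  set V : PowerSeries (Module.End ℝ F) := -PowerSeries.X with hV
  have hVc : ∀ (n : ℕ) (φ : PowerSeries (Module.End ℝ F)), φ * V ^ n = V ^ n * φ := fun n φ =>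
    ((PowerSeries.commute_X φ).neg_right.pow_right n).eq
  let r : Fin N → Finset (Fin N) → F := fun j B => ∏ k ∈ B.erase j, 1 / (D.s k - D.s j)
  have hr : ∀ j B, r j B = ∏ k ∈ B.erase j, 1 / (D.s k - D.s j) := fun j B => rfl
  have hXV : ∀ B : Finset (Fin N), B.Nonempty →
      (PowerSeries.X : PowerSeries (Module.End ℝ F)) * V ^ (B.card - 1) = - V ^ B.card := by
    intro B hB
    obtain ⟨n, hn⟩ : ∃ n, B.card = n + 1 :=
      ⟨B.card - 1, by have := hB.card_pos; omega⟩
    rw [hn, Nat.add_sub_cancel, pow_succ']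
    have h1 : V * V ^ n = -(PowerSeries.X * V ^ n) :=
      neg_mul (α := PowerSeries (Module.End ℝ F)) _ _
    rw [h1, neg_neg]
  have hR : ∀ j, D.RR j = ∑ B ∈ univ.filter (fun B : Finset (Fin N) => j ∈ B),
      V ^ (B.card - 1) * (muS (r j B) * D.KB B) := fun j => rfl
  have hRHS : PowerSeries.X * ∑ j ∈ univ.erase i, muS (1 / (D.s i - D.s j)) * D.RR j =
      - ∑ B : Finset (Fin N), V ^ B.card *
        (muS (∑ j ∈ B.erase i, 1 / (D.s i - D.s j) * r j B) * D.KB B) := by
    have h1 : ∀ B : Finset (Fin N), V ^ B.card *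
        (muS (∑ j ∈ B.erase i, 1 / (D.s i - D.s j) * r j B) * D.KB B) =
        ∑ j ∈ B.erase i, V ^ B.card *
          (muS (1 / (D.s i - D.s j)) * (muS (r j B) * D.KB B)) := by
      intro B
      rw [← muH_apply, map_sum, Finset.sum_mul, Finset.mul_sum]
      refine Finset.sum_congr rfl fun j _ => ?_
      rw [muH_apply, muS_mul, mul_assoc (muS _)]
    rw [Finset.mul_sum]
    simp only [h1]
    have h2 : ∑ B : Finset (Fin N), ∑ j ∈ B.erase i, V ^ B.card *
          (muS (1 / (D.s i - D.s j)) * (muS (r j B) * D.KB B)) =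
        ∑ j ∈ univ.erase i, ∑ B ∈ univ.filter (fun B : Finset (Fin N) => j ∈ B), V ^ B.card *
          (muS (1 / (D.s i - D.s j)) * (muS (r j B) * D.KB B)) := by
      refine Finset.sum_comm' ?_
      intro B j
      simp [and_comm]
    rw [h2, ← Finset.sum_neg_distrib]
    refine Finset.sum_congr rfl fun j hj => ?_
    rw [hR j, Finset.mul_sum, Finset.mul_sum, ← Finset.sum_neg_distrib]
    refine Finset.sum_congr rfl fun B hB => ?_
    have hne : B.Nonempty := ⟨j, (Finset.mem_filter.mp hB).2⟩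
    rw [← mul_assoc (muS _) (V ^ _), hVc, mul_assoc (V ^ _), ← mul_assoc PowerSeries.X,
      hXV B hne]
    exact neg_mul (α := PowerSeries (Module.End ℝ F)) _ _
  have hLHS : (1 + PowerSeries.X * PowerSeries.C (D.DD i)) * D.RR i =
      ∑ B ∈ univ.filter (fun B : Finset (Fin N) => i ∈ B),
        V ^ (B.card - 1) * (muS (r i B) * D.KB (B.erase i))
      - ∑ B ∈ univ.filter (fun B : Finset (Fin N) => i ∈ B),
        V ^ B.card * (muS (D.d i (r i B)) * D.KB B) := by
    rw [hR i, Finset.mul_sum, ← Finset.sum_sub_distrib]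
    refine Finset.sum_congr rfl fun B hB => ?_
    have hi := (Finset.mem_filter.mp hB).2
    rw [← mul_assoc, hVc, mul_assoc, D.step_mu i _ B hi, mul_add,
      ← mul_assoc (V ^ (B.card - 1)) PowerSeries.X, (PowerSeries.commute_X (V ^ (B.card - 1))).eq,
      hXV B ⟨i, hi⟩, sub_eq_add_neg]
    congr 1
    exact neg_mul (α := PowerSeries (Module.End ℝ F)) _ _
  have hA : ∑ B ∈ univ.filter (fun B : Finset (Fin N) => i ∈ B),
        V ^ (B.card - 1) * (muS (r i B) * D.KB (B.erase i)) =
      ∑ J ∈ univ.filter (fun J : Finset (Fin N) => ¬ i ∈ J),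
        V ^ J.card * (muS (∏ j ∈ J, 1 / (D.s j - D.s i)) * D.KB J) := by
    refine Finset.sum_bij' (fun B _ => B.erase i) (fun J _ => insert i J) ?_ ?_ ?_ ?_ ?_
    · intro B hB
      simp
    · intro J hJ
      simp
    · intro B hB
      exact Finset.insert_erase (Finset.mem_filter.mp hB).2
    · intro J hJ
      exact Finset.erase_insert (Finset.mem_filter.mp hJ).2
    · intro B hB
      rw [Finset.card_erase_of_mem (Finset.mem_filter.mp hB).2]
  -- coefficient identity for `i ∈ B`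
  have hB1 : ∀ B : Finset (Fin N), i ∈ B →
      D.d i (r i B) = ∑ j ∈ B.erase i, 1 / (D.s i - D.s j) * r j B := by
    intro B hiB
    rw [hr, D.d_prod_pv2 i _ (Finset.notMem_erase i B), pf2 D.s (B.erase i)
      (fun a _ b _ hab => D.sub_ne hab) (D.s i)
      (fun a ha => D.sub_ne (Finset.ne_of_mem_erase ha))]
    refine Finset.sum_congr rfl fun j hj => ?_
    have hji : j ≠ i := Finset.ne_of_mem_erase hj
    have h1 : B.erase j = insert i ((B.erase i).erase j) := by
      ext k
      simp only [Finset.mem_erase, Finset.mem_insert]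
      constructor
      · rintro ⟨h2, h3⟩
        by_cases hk : k = i
        · exact Or.inl hk
        · exact Or.inr ⟨h2, hk, h3⟩
      · rintro (h2 | ⟨h2, h3, h4⟩)
        · rw [h2]
          exact ⟨hji.symm, hiB⟩
        · exact ⟨h2, h4⟩
    have h2 : i ∉ (B.erase i).erase j := by simp
    rw [hr, h1, Finset.prod_insert h2, ← mul_assoc]
    congr 1
    have h3 := D.sub_ne hji
    have h4 := D.sub_ne hji.symm
    field_simp
    ring
  -- coefficient identity for `i ∉ B`
  have hB2 : ∀ B : Finset (Fin N), i ∉ B → B.Nonempty →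
      ∑ j ∈ B.erase i, 1 / (D.s i - D.s j) * r j B = - ∏ j ∈ B, 1 / (D.s j - D.s i) := by
    intro B hiB hne
    rw [Finset.erase_eq_of_notMem hiB, pf1 D.s B hne (fun a _ b _ hab => D.sub_ne hab) (D.s i)
      (fun a ha => D.sub_ne (fun h => hiB (h ▸ ha))), ← Finset.sum_neg_distrib]
    refine Finset.sum_congr rfl fun j hj => ?_
    rw [hr, ← neg_mul]
    congr 1
    rw [← neg_sub (D.s j) (D.s i), one_div, one_div, inv_neg]
  rw [hLHS, hRHS, hA, ← Finset.sum_filter_add_sum_filter_not univ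
    (fun B : Finset (Fin N) => i ∈ B) (fun B : Finset (Fin N) => V ^ B.card *
        (muS (∑ j ∈ B.erase i, 1 / (D.s i - D.s j) * r j B) * D.KB B))]
  have hE1 : ∑ B ∈ univ.filter (fun B : Finset (Fin N) => i ∈ B),
        V ^ B.card * (muS (D.d i (r i B)) * D.KB B) =
      ∑ B ∈ univ.filter (fun B : Finset (Fin N) => i ∈ B), V ^ B.card *
        (muS (∑ j ∈ B.erase i, 1 / (D.s i - D.s j) * r j B) * D.KB B) := by
    refine Finset.sum_congr rfl fun B hB => ?_
    rw [hB1 B (Finset.mem_filter.mp hB).2]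
  have hE2 : ∑ B ∈ univ.filter (fun B : Finset (Fin N) => ¬ i ∈ B),
        V ^ B.card * (muS (∏ j ∈ B, 1 / (D.s j - D.s i)) * D.KB B) +
      ∑ B ∈ univ.filter (fun B : Finset (Fin N) => ¬ i ∈ B), V ^ B.card *
        (muS (∑ j ∈ B.erase i, 1 / (D.s i - D.s j) * r j B) * D.KB B) = 1 := by
    rw [← Finset.sum_add_distrib]
    rw [Finset.sum_eq_single_of_mem (∅ : Finset (Fin N)) (by simp)]
    · rw [Finset.card_empty, pow_zero, Finset.prod_empty, Finset.erase_empty, Finset.sum_empty,
        muS_one, D.KB_empty, ← muH_apply, map_zero]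
      simp
    · intro B hB hne
      rw [hB2 B (Finset.mem_filter.mp hB).2 (Finset.nonempty_iff_ne_empty.mpr hne),
        ← muH_apply (- ∏ j ∈ B, 1 / (D.s j - D.s i)), map_neg, muH_apply]
      have h5 : V ^ B.card * (-muS (∏ j ∈ B, 1 / (D.s j - D.s i)) * D.KB B) =
          -(V ^ B.card * (muS (∏ j ∈ B, 1 / (D.s j - D.s i)) * D.KB B)) :=
        (congrArg (fun y => V ^ B.card * y)
          (neg_mul (α := PowerSeries (Module.End ℝ F)) _ _)).trans
          (mul_neg (α := PowerSeries (Module.End ℝ F)) _ _)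
      rw [h5, add_neg_cancel]
  rw [hE1, ← hE2]
  abel

end DF

end Pool.Agent.Helper52.MVD
end

/- Helper52.MVD.IdII -/
section
/-!
Project MV, block D1, module D1-11: the second operator identity.

`W ∑_i mu(1/s_i) R_i = ∑_{B≠∅} W (-W)^(|B|-1) mu(∑_{i∈B} (1/s_i) ∏_{j∈B.erase i} 1/(s_j - s_i)) K_B`
`= - ∑_{B≠∅} (-W)^|B| mu(∏_{j∈B} 1/s_j) K_B` by `pf1` with `z = 0`; now `AN_eq` (the term `B = ∅` is 1).
-/

namespace Pool.Agent.Helper52.MVD

open Finset Pool.Agent.Helper60.MV

namespace DF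

variable {F : Type} [Field F] [Algebra ℝ F] {N : ℕ} (D : DF F N)

private theorem muS_sum {ι : Type} (B : Finset ι) (a : ι → F) :
    (muS (∑ i ∈ B, a i) : PowerSeries (Module.End ℝ F)) = ∑ i ∈ B, muS (a i) :=
  map_sum (AddMonoidHom.mk' (muS (F := F)) muS_add) a B

private theorem ring_aux {R : Type} [Ring R] (X m : R) (h : Commute m X) (n : ℕ) (r k : R) :
    X * (m * ((-X) ^ n * (r * k))) = -((-X) ^ (n + 1) * (m * r * k)) := by
  have h1 : m * (-X) ^ n = (-X) ^ n * m := (h.neg_right.pow_right n).eq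
  rw [← mul_assoc m, h1, pow_succ', neg_mul, neg_mul, neg_neg]
  simp only [mul_assoc]

private theorem inner_sum (B : Finset (Fin N)) (hB : B.Nonempty) :
    PowerSeries.X * ∑ i ∈ B, muS (1 / D.s i) * ((-PowerSeries.X) ^ (B.card - 1) *
      (muS (∏ j ∈ B.erase i, 1 / (D.s j - D.s i)) * D.KB B)) =
    -((-PowerSeries.X) ^ B.card * (muS (∏ i ∈ B, 1 / D.s i) * D.KB B)) := by
  have h1 : ∏ j ∈ B, 1 / D.s j =
      ∑ j ∈ B, 1 / D.s j * ∏ k ∈ B.erase j, 1 / (D.s k - D.s j) := by
    have h := pf1 D.s B hB (fun i _ j _ hij => D.sub_ne hij) 0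
      (fun i _ => by rw [sub_zero]; exact D.s_ne i)
    simpa using h
  rw [h1, muS_sum, Finset.sum_mul, Finset.mul_sum, Finset.mul_sum, ← Finset.sum_neg_distrib]
  refine Finset.sum_congr rfl fun i _ => ?_
  have hc : B.card = (B.card - 1) + 1 := by
    have := hB.card_pos
    omega
  rw [muS_mul]
  conv_rhs => rw [hc]
  exact ring_aux _ _ (PowerSeries.commute_X _) _ _ _

theorem idII : 1 - PowerSeries.X * ∑ i, muS (1 / D.s i) * D.RR i = D.AN := by
  rw [AN_eq]
  have h1 : ∑ i, muS (1 / D.s i) * D.RR i = ∑ B : Finset (Fin N), ∑ i ∈ B,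
      muS (1 / D.s i) * ((-PowerSeries.X) ^ (B.card - 1) *
      (muS (∏ j ∈ B.erase i, 1 / (D.s j - D.s i)) * D.KB B)) := by
    have h2 : ∀ i, muS (1 / D.s i) * D.RR i = ∑ B ∈ univ.filter (fun B : Finset (Fin N) => i ∈ B),
        muS (1 / D.s i) * ((-PowerSeries.X) ^ (B.card - 1) *
        (muS (∏ j ∈ B.erase i, 1 / (D.s j - D.s i)) * D.KB B)) := by
      intro i
      rw [RR, Finset.mul_sum]
    rw [Finset.sum_congr rfl fun i _ => h2 i]
    exact Finset.sum_comm' (by intro x y; simp)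
  rw [h1, Finset.mul_sum, ← Finset.add_sum_erase univ _ (Finset.mem_univ (∅ : Finset (Fin N))),
    ← Finset.add_sum_erase (univ : Finset (Finset (Fin N)))
      (fun B => (-PowerSeries.X) ^ B.card * (muS (∏ i ∈ B, 1 / D.s i) * D.KB B))
      (Finset.mem_univ (∅ : Finset (Fin N)))]
  have h3 : ∀ B ∈ (univ : Finset (Finset (Fin N))).erase ∅,
      PowerSeries.X * ∑ i ∈ B, muS (1 / D.s i) * ((-PowerSeries.X) ^ (B.card - 1) *
      (muS (∏ j ∈ B.erase i, 1 / (D.s j - D.s i)) * D.KB B)) =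
      -((-PowerSeries.X) ^ B.card * (muS (∏ i ∈ B, 1 / D.s i) * D.KB B)) := by
    intro B hB
    exact D.inner_sum B (Finset.nonempty_iff_ne_empty.2 (Finset.ne_of_mem_erase hB))
  rw [Finset.sum_congr rfl h3, Finset.sum_neg_distrib]
  simp only [Finset.sum_empty, mul_zero, zero_add, sub_neg_eq_add, Finset.card_empty, pow_zero,
    one_mul, Finset.prod_empty, muS_one, KB_empty]

end DF

end Pool.Agent.Helper52.MVD
end

/- Helper52.MVD.Heart -/
section
/-!
Project MV, block D1, module D1-12: the operator identity (heart) for sequences.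

Let `r_i(m) = (coeff m R_i) Ψ`. The coefficient of `W^0` of `idI` is `r_i(0) = Ψ`; of `W^(m+1)`:
`r_i(m+1) + DD i (r_i(m)) = ∑_{j≠i} r_j(m)/(s_i - s_j)` (as `W^(m+1)` has coefficient 0 in `1`). So `b i m = r_i(m)`
by induction on `m`. The coefficient of `W^(m+1)` of `idII`, applied to `Ψ`: `An (m+1) Ψ = - ∑_i (1/s_i) r_i(m)`; of `W^0`:
`An 0 = 1`. (Left multiplication by `PowerSeries.X` and `PowerSeries.C`: `PowerSeries.coeff_succ_X_mul`,
`PowerSeries.coeff_C_mul`.)
-/

namespace Pool.Agent.Helper52.MVD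

open Finset Pool.Agent.Helper60.MV

namespace DF

variable {F : Type} [Field F] [Algebra ℝ F] {N : ℕ} (D : DF F N)

private theorem coeff_RR_zero (i : Fin N) : PowerSeries.coeff 0 (D.RR i) = 1 := by
  have h := congrArg (PowerSeries.coeff 0) (D.idI i)
  rw [add_mul, one_mul, mul_assoc, map_add, PowerSeries.coeff_zero_X_mul, add_zero, map_add,
    PowerSeries.coeff_zero_X_mul, add_zero, PowerSeries.coeff_zero_one] at h
  exact h

private theorem coeff_RR_succ (i : Fin N) (m : ℕ) : PowerSeries.coeff (m + 1) (D.RR i) =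
    -(D.DD i * PowerSeries.coeff m (D.RR i)) +
      ∑ j ∈ univ.erase i, mu (1 / (D.s i - D.s j)) * PowerSeries.coeff m (D.RR j) := by
  have h := congrArg (PowerSeries.coeff (m + 1)) (D.idI i)
  rw [add_mul, one_mul, mul_assoc, map_add, PowerSeries.coeff_succ_X_mul, map_add,
    PowerSeries.coeff_succ_X_mul, PowerSeries.coeff_one, if_neg (Nat.succ_ne_zero m), zero_add,
    PowerSeries.coeff_C_mul, map_sum] at h
  have h2 : ∀ j ∈ univ.erase i, PowerSeries.coeff m (muS (1 / (D.s i - D.s j)) * D.RR j) =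
      mu (1 / (D.s i - D.s j)) * PowerSeries.coeff m (D.RR j) := by
    intro j _
    rw [muS, PowerSeries.coeff_C_mul]
  rw [Finset.sum_congr rfl h2] at h
  rw [← h]
  abel

theorem An_zero : D.An 0 = 1 := by
  have h := congrArg (PowerSeries.coeff 0) D.idII
  rw [map_sub, PowerSeries.coeff_zero_X_mul, sub_zero, PowerSeries.coeff_zero_one] at h
  exact h.symm

theorem heart (b : Fin N → ℕ → F) (Ψ : F) (h0 : ∀ i, b i 0 = Ψ)
    (hrec : ∀ i m, b i (m + 1) =
      -D.DD i (b i m) + ∑ j ∈ univ.erase i, b j m / (D.s i - D.s j)) (m : ℕ) :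
    D.An (m + 1) Ψ = -∑ i, 1 / D.s i * b i m := by
  have hb : ∀ (m : ℕ) (i : Fin N), b i m = PowerSeries.coeff m (D.RR i) Ψ := by
    intro m
    induction m with
    | zero =>
      intro i
      rw [h0, coeff_RR_zero]
      rfl
    | succ m ih =>
      intro i
      rw [hrec, coeff_RR_succ, LinearMap.add_apply, LinearMap.neg_apply, LinearMap.sum_apply,
        Module.End.mul_apply, ← ih i]
      congr 1
      refine Finset.sum_congr rfl fun j _ => ?_
      rw [Module.End.mul_apply, ← ih j]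
      change b j m / (D.s i - D.s j) = 1 / (D.s i - D.s j) * b j m
      ring
  have h := congrArg (PowerSeries.coeff (m + 1)) D.idII
  rw [map_sub, PowerSeries.coeff_succ_X_mul, PowerSeries.coeff_one, if_neg (Nat.succ_ne_zero m),
    zero_sub, map_sum] at h
  have h2 : D.An (m + 1) = -∑ i, mu (1 / D.s i) * PowerSeries.coeff m (D.RR i) := by
    have h3 : ∀ i ∈ (univ : Finset (Fin N)),
        PowerSeries.coeff m (muS (1 / D.s i) * D.RR i) =
        mu (1 / D.s i) * PowerSeries.coeff m (D.RR i) := by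
      intro i _
      rw [muS, PowerSeries.coeff_C_mul]
    rw [Finset.sum_congr rfl h3] at h
    exact h.symm
  rw [h2, LinearMap.neg_apply, LinearMap.sum_apply]
  congr 1
  refine Finset.sum_congr rfl fun i _ => ?_
  rw [Module.End.mul_apply, ← hb m i]
  rfl

end DF

end Pool.Agent.Helper52.MVD
end

/- Helper52.MVD.Uniq -/
section
/-!
Project MV, block D1, module D1-14: uniqueness.

Both are linear, so it is enough to compare on monomials `monomial m 1`, `m : ℕ →₀ ℕ`, by strong induction on the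
weight `∑_j (2j+1) m_j`. `m = 0`: `L 1 = G = L' 1`. Otherwise choose `ν` in the support, `m = single ν 1 + m'`,
`f = monomial m' 1`, `monomial m 1 = X ν * f`. `IsSol.eq` for `ν` and `f`, with `An 0 = 1`, expresses `L (X ν * f)` by
`L (X j * f)`, `j < ν` (weight smaller by `2(ν-j)`), and `L (∂_j f)`, `∂_j f = m'_j monomial (m' - single j 1) 1` (for
`m'_j ≠ 0`, weight smaller by `2ν+1 + 2j+1`; 0 otherwise).
-/

namespace Pool.Agent.Helper52.MVD

open Finset Pool.Agent.Helper60.MV

private noncomputable def uqw : (ℕ →₀ ℕ) →+ ℕ := Finsupp.weight (fun j : ℕ => 2 * j + 1)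

private theorem uqw_single (j : ℕ) : uqw (Finsupp.single j 1) = 2 * j + 1 := by
  unfold uqw
  rw [Finsupp.weight_single, smul_eq_mul, one_mul]

private theorem uq_mono {F : Type} [Field F] [Algebra ℝ F] {N : ℕ} (D : DF F N)
    (L L' : MvPolynomial ℕ ℝ →ₗ[ℝ] F) (h : D.IsSol L) (h' : D.IsSol L') :
    ∀ (w : ℕ) (m : ℕ →₀ ℕ), uqw m = w →
      L (MvPolynomial.monomial m 1) = L' (MvPolynomial.monomial m 1) := by
  intro w
  induction w using Nat.strong_induction_on with
  | _ w ih =>
    intro m hm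
    by_cases h0 : m = 0
    · subst h0
      have e1 : (MvPolynomial.monomial (0 : ℕ →₀ ℕ) (1 : ℝ)) = 1 := rfl
      rw [e1, h.one, h'.one]
    · obtain ⟨ν, hν⟩ := Finsupp.ne_iff.mp h0
      have hle : Finsupp.single ν 1 ≤ m := by
        rw [Finsupp.single_le_iff]
        have : m ν ≠ 0 := hν
        omega
      set m' : ℕ →₀ ℕ := m - Finsupp.single ν 1 with hm'
      have hmm : Finsupp.single ν 1 + m' = m := add_tsub_cancel_of_le hle
      have hw : 2 * ν + 1 + uqw m' = w := by
        rw [← hm, ← hmm, map_add, uqw_single]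
      have hX : ∀ j, (MvPolynomial.X j : MvPolynomial ℕ ℝ) * MvPolynomial.monomial m' 1 =
          MvPolynomial.monomial (Finsupp.single j 1 + m') 1 := by
        intro j
        rw [MvPolynomial.X, MvPolynomial.monomial_mul, one_mul]
      have e1 := h.eq ν (MvPolynomial.monomial m' 1)
      have e2 := h'.eq ν (MvPolynomial.monomial m' 1)
      have hB : ∑ j ∈ (MvPolynomial.monomial m' (1 : ℝ)).vars, ((2 * (j : ℝ) + 1) / 2) •
            D.An (ν + j + 1) (L (MvPolynomial.pderiv j (MvPolynomial.monomial m' 1))) =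
          ∑ j ∈ (MvPolynomial.monomial m' (1 : ℝ)).vars, ((2 * (j : ℝ) + 1) / 2) •
            D.An (ν + j + 1) (L' (MvPolynomial.pderiv j (MvPolynomial.monomial m' 1))) := by
        apply Finset.sum_congr rfl
        intro j _
        have hk : L (MvPolynomial.pderiv j (MvPolynomial.monomial m' 1)) =
            L' (MvPolynomial.pderiv j (MvPolynomial.monomial m' 1)) := by
          rw [MvPolynomial.pderiv_monomial, one_mul]
          have e3 : MvPolynomial.monomial (m' - Finsupp.single j 1) ((m' j : ℕ) : ℝ) =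
              ((m' j : ℕ) : ℝ) • MvPolynomial.monomial (m' - Finsupp.single j 1) (1 : ℝ) := by
            rw [MvPolynomial.smul_monomial, smul_eq_mul, mul_one]
          rw [e3, map_smul, map_smul]
          by_cases hj : m' j = 0
          · rw [hj, Nat.cast_zero, zero_smul, zero_smul]
          · have hle2 : Finsupp.single j 1 ≤ m' := by
              rw [Finsupp.single_le_iff]
              omega
            have hmm2 : Finsupp.single j 1 + (m' - Finsupp.single j 1) = m' :=
              add_tsub_cancel_of_le hle2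
            have hw2 : 2 * j + 1 + uqw (m' - Finsupp.single j 1) = uqw m' := by
              conv_rhs => rw [← hmm2]
              rw [map_add, uqw_single]
            rw [ih (uqw (m' - Finsupp.single j 1)) (by omega) _ rfl]
        rw [hk]
      have hA : ∑ j ∈ range (ν + 1), D.An (ν - j) (L (MvPolynomial.X j * MvPolynomial.monomial m' 1)) =
          ∑ j ∈ range (ν + 1), D.An (ν - j) (L' (MvPolynomial.X j * MvPolynomial.monomial m' 1)) := by
        rw [hB] at e1
        exact add_right_cancel (e1.trans e2.symm)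
      rw [Finset.sum_range_succ, Finset.sum_range_succ] at hA
      have hC : ∑ j ∈ range ν, D.An (ν - j) (L (MvPolynomial.X j * MvPolynomial.monomial m' 1)) =
          ∑ j ∈ range ν, D.An (ν - j) (L' (MvPolynomial.X j * MvPolynomial.monomial m' 1)) := by
        apply Finset.sum_congr rfl
        intro j hj
        rw [Finset.mem_range] at hj
        rw [hX j]
        have hw3 : uqw (Finsupp.single j 1 + m') = 2 * j + 1 + uqw m' := by
          rw [map_add, uqw_single]
        rw [ih (uqw (Finsupp.single j 1 + m')) (by omega) _ rfl]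
      rw [hC] at hA
      have hD := add_left_cancel hA
      rw [Nat.sub_self, D.An_zero, hX ν, hmm] at hD
      exact hD

theorem isSol_unique {F : Type} [Field F] [Algebra ℝ F] {N : ℕ} (D : DF F N)
    (L L' : MvPolynomial ℕ ℝ →ₗ[ℝ] F) (h : D.IsSol L) (h' : D.IsSol L') : L = L' := by
  apply MvPolynomial.linearMap_ext
  intro m
  apply LinearMap.ext_ring
  exact uq_mono D L L' h h' _ m rfl

end Pool.Agent.Helper52.MVD
end

/- Helper90.MVD.CoefA -/
section
/-!
Module MVD-20a (project MV, block D2): coefficients of the Pfaffian with the letter `E`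
(`AhatDef.lean`).

`coeff_Ahat`. Let `L0 = psl N ++ ns.map inr`, `S = ns.sum`. For an integer `R` with `0 ≤ R + S`:
  `coeff (R+S) (pfL Ahat (none :: L0.map some)) = Λ (φ_{2R} (prb (2 ns)))`.
  Left side (`pfL_cons`, `pfL_map`, `pfL_scale`, `pfL_hom` for `C`): `∑_j (-1)^j Ahat E (L0_j) *
  W^(S - w(L0_j)) * C (pfL (AS D) (L0.eraseIdx j))`, where `w ψ_i = 0`, `w e_n = n`
  (`Ahat (some a) (some b) = W^(w a) * W^(w b) * C (AS a b)`; equivalently
  `W^(w(L0_j)) * ∏ over the erased list of W^w = W^S`).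
  * `R > 0`: the `e`-letters do not contribute (`coeff_{R+S}` of `bt n W^{S-n}` is `0`), the letter `ψ_i`
    contributes `(-1)^j (-2 κ_R(i))`. Right side: `Λ (prb (2 (R :: ns))) = pfL AS (psl N ++ inr R :: ..)`
    `= pfL AS (inr R :: L0)` (`pfL_move`, `N` even) and `AS (inr R) (inl i) = - 2 κ_R(i)`,
    `AS (inr R) (inr n) = 0`.
  * `R = 0`: `φ_0 x = cr 0 x + an 0 x`; `cr 0` gives the letters `ψ_i` with `-1` (`coeff_0 (1 - 2k_i) = -1`,
    and again `Λ (prb (0 :: 2 ns)) = pfL AS (inr 0 :: L0)`);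
    `an 0` (`an_prb`, note `2 n = 0 ↔ n = 0`) gives the letters `e_0` with sign `(-1)^j` (position in
    `ns`), and the position in `L0` is `N + j`, `N` even.
  * `R < 0`: `φ_{2R} = 2 an_{2|R|}` (`phi_neg`); letters `e_n`, `n = |R|`: `coeff_{S-n}` of `2 W^{S-n}`;
    letters `ψ_i`: `coeff_{R+S} ((1 - 2k_i) W^S) = 0`.
  (It is convenient to prove first the formula
  `∑_j (-1)^j dR (L0_j) * pfL AS (L0.eraseIdx j)` for both sides, where `dR (inl i)` is the coefficient
  of `W^R` in `1 - 2 k_i` (`0` for `R < 0`) and `dR (inr n) = [R = -n] * (1 or 2)`.)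
-/

namespace Pool.Agent.Helper90.MVD

open Finset Pool.Agent.Helper60.MV Pool.Agent.Helper52.MVD

variable {F : Type} [Field F] [Algebra ℝ F] {N : ℕ} (D : DF F N)

section aux

private theorem pfL_cons2 {α R : Type} [CommRing R] (A : α → α → R) (x : α) (xs : List α) :
    pfL A (x :: xs) =
      ∑ j ∈ range xs.length, (-1) ^ j * (xs[j]?.elim 0 (A x)) * pfL A (xs.eraseIdx j) := by
  rw [pfL_cons, Finset.sum_range]
  refine Finset.sum_congr rfl fun j _ => ?_
  rw [List.getElem?_eq_getElem j.2]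
  rfl

private noncomputable def ts (D : DF F N) (δ : Fin N ⊕ ℕ → F) (L : List (Fin N ⊕ ℕ)) : F :=
  ∑ j ∈ range L.length, (-1) ^ j * (L[j]?.elim 0 δ) * pfL (AS D) (L.eraseIdx j)

private theorem ts_congr (δ δ' : Fin N ⊕ ℕ → F) (L : List (Fin N ⊕ ℕ))
    (h : ∀ a ∈ L, δ a = δ' a) : ts D δ L = ts D δ' L := by
  unfold ts
  refine Finset.sum_congr rfl fun j hj => ?_
  have hj' := Finset.mem_range.1 hj
  rw [List.getElem?_eq_getElem hj']
  simp only [Option.elim_some]
  rw [h _ (List.getElem_mem hj')]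

private theorem ts_add (δ δ' : Fin N ⊕ ℕ → F) (L : List (Fin N ⊕ ℕ)) :
    ts D (fun a => δ a + δ' a) L = ts D δ L + ts D δ' L := by
  unfold ts
  rw [← Finset.sum_add_distrib]
  refine Finset.sum_congr rfl fun j hj => ?_
  have hj' := Finset.mem_range.1 hj
  rw [List.getElem?_eq_getElem hj']
  simp only [Option.elim_some]
  ring

private theorem ts_smul (c : F) (δ : Fin N ⊕ ℕ → F) (L : List (Fin N ⊕ ℕ)) :
    ts D (fun a => c * δ a) L = c * ts D δ L := by
  unfold ts
  rw [Finset.mul_sum]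
  refine Finset.sum_congr rfl fun j hj => ?_
  have hj' := Finset.mem_range.1 hj
  rw [List.getElem?_eq_getElem hj']
  simp only [Option.elim_some]
  ring

private theorem ts_cr (hN : Even N) {Λ : Fk F →ₗ[F] F} (hΛ : IsLam D Λ) (ns : List ℕ) (r : ℕ) :
    Λ (cr F (2 * r) (prb F (ns.map fun n => 2 * n))) =
      ts D (AS D (Sum.inr r)) (psl N ++ ns.map Sum.inr) := by
  have h1 : cr F (2 * r) (prb F (ns.map fun n => 2 * n)) =
      prb F ((r :: ns).map fun n => 2 * n) := by
    rw [List.map_cons, prb_cons]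
  rw [h1, hΛ.even, List.map_cons,
    pfL_move (AS D) (AS_self D) (AS_symm D) _ _ _ (by simpa [psl] using hN), pfL_cons2]
  rfl

private theorem ts_an (hN : Even N) {Λ : Fk F →ₗ[F] F} (hΛ : IsLam D Λ) (ns : List ℕ) (n : ℕ) :
    Λ (an F (2 * n) (prb F (ns.map fun n => 2 * n))) =
      ts D (fun a => if a = Sum.inr n then 1 else 0) (psl N ++ ns.map Sum.inr) := by
  have hlen : (psl N).length = N := by simp [psl]
  unfold ts
  rw [List.length_append, hlen, Finset.sum_range_add]
  have h1 : ∑ x ∈ range N, (-1 : F) ^ x * ((psl N ++ ns.map Sum.inr)[x]?.elim 0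
      (fun a => if a = Sum.inr n then 1 else 0)) *
      pfL (AS D) ((psl N ++ ns.map Sum.inr).eraseIdx x) = 0 := by
    apply Finset.sum_eq_zero
    intro x hx
    have hx' := Finset.mem_range.1 hx
    rw [List.getElem?_append_left (by rw [hlen]; exact hx')]
    have h2 : (psl N)[x]? = some (Sum.inl ⟨x, hx'⟩) := by simp [psl, hx']
    rw [h2]
    simp
  rw [h1, zero_add, an_prb, map_sum, Finset.sum_range]
  refine Fintype.sum_equiv (finCongr (by rw [List.length_map, List.length_map])) _ _ fun j => ?_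
  have hj : (j : ℕ) < ns.length := lt_of_lt_of_eq j.2 (List.length_map _)
  rw [map_smul, List.eraseIdx_map, hΛ.even, finCongr_apply, Fin.val_cast, pow_add, hN.neg_one_pow,
    one_mul, List.getElem?_append_right (by rw [hlen]; omega), hlen, Nat.add_sub_cancel_left,
    List.getElem?_map, List.getElem?_eq_getElem hj,
    List.eraseIdx_append_of_length_le (by rw [hlen]; omega), hlen, Nat.add_sub_cancel_left,
    List.eraseIdx_map, smul_eq_mul]
  simp only [Option.map_some, Option.elim_some, List.get_eq_getElem, List.getElem_map,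
    Sum.inr.injEq, Nat.mul_left_cancel_iff (show 0 < 2 by norm_num)]

private def wt : Fin N ⊕ ℕ → ℕ
  | Sum.inl _ => 0
  | Sum.inr n => n

private theorem Ahat_some (a b : Fin N ⊕ ℕ) : Ahat D (some a) (some b) =
    PowerSeries.X ^ wt a * PowerSeries.X ^ wt b * PowerSeries.C (AS D a b) := by
  cases a <;> cases b <;> simp [Ahat, AS, wt]

private theorem pf_some (L : List (Fin N ⊕ ℕ)) : pfL (Ahat D) (L.map some) =
    PowerSeries.X ^ (L.map wt).sum * PowerSeries.C (pfL (AS D) L) := by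
  rw [pfL_map]
  have h1 : (fun a b => Ahat D (some a) (some b)) = fun a b => PowerSeries.X ^ wt a *
      PowerSeries.X ^ wt b * (fun a b => PowerSeries.C (AS D a b)) a b := by
    funext a b
    exact Ahat_some D a b
  rw [h1, pfL_scale (fun a => PowerSeries.X ^ wt a), pfL_hom]
  congr 1
  clear h1
  induction L with
  | nil => simp
  | cons a L ih => rw [List.map_cons, List.prod_cons, ih, List.map_cons, List.sum_cons, pow_add]

private theorem wt_erase (L : List (Fin N ⊕ ℕ)) (j : ℕ) (hj : j < L.length) :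
    ((L.eraseIdx j).map wt).sum = (L.map wt).sum - wt L[j] := by
  have h1 := ((List.getElem_cons_eraseIdx_perm hj).map wt).sum_eq
  rw [List.map_cons, List.sum_cons] at h1
  omega

private theorem wt_L0 (ns : List ℕ) : ((psl N ++ ns.map Sum.inr).map wt).sum = ns.sum := by
  rw [List.map_append, List.sum_append, List.map_map]
  have h1 : ((psl N).map wt).sum = 0 := by
    rw [psl, List.map_ofFn, List.sum_ofFn]
    exact Finset.sum_eq_zero fun i _ => rfl
  have h2 : (ns.map (wt ∘ (Sum.inr : ℕ → Fin N ⊕ ℕ))) = ns := by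
    have h3 : (wt ∘ (Sum.inr : ℕ → Fin N ⊕ ℕ)) = id := by
      funext n
      rfl
    rw [h3, List.map_id]
  rw [h1, h2, zero_add]

private theorem coeff_pf (ns : List ℕ) (k : ℕ) :
    PowerSeries.coeff k (pfL (Ahat D) (Elist N ns)) =
      ts D (fun a => PowerSeries.coeff k (Ahat D none (some a) *
        PowerSeries.X ^ (ns.sum - wt a))) (psl N ++ ns.map Sum.inr) := by
  unfold Elist ts
  rw [pfL_cons2, map_sum, List.length_map]
  refine Finset.sum_congr rfl fun j hj => ?_
  have hj' := Finset.mem_range.1 hj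
  rw [List.getElem?_map, List.getElem?_eq_getElem hj', List.eraseIdx_map, pf_some, wt_erase _ _ hj',
    wt_L0]
  simp only [Option.map_some, Option.elim_some]
  have h1 : (-1 : PowerSeries F) ^ j = PowerSeries.C ((-1) ^ j) := by
    rw [map_pow, map_neg, map_one]
  rw [h1, mul_assoc, PowerSeries.coeff_C_mul, ← mul_assoc, PowerSeries.coeff_mul_C, mul_assoc]

private theorem coeff_bt (n m : ℕ) : PowerSeries.coeff m (bt F n) =
    if m = 0 then (if n = 0 then 1 else 2) else 0 := by
  unfold bt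
  have h2 : (2 : PowerSeries F) = PowerSeries.C 2 := by
    rw [map_ofNat]
  by_cases h1 : n = 0
  · rw [if_pos h1, if_pos h1, PowerSeries.coeff_one]
  · rw [if_neg h1, if_neg h1, h2, PowerSeries.coeff_C]

private theorem coeff_kk (i : Fin N) (m : ℕ) : PowerSeries.coeff m (1 - 2 * kser D i) =
    - bc D i m := by
  have h2 : (2 : PowerSeries F) = PowerSeries.C 2 := by
    rw [map_ofNat]
  rw [h2, map_sub, PowerSeries.coeff_C_mul, PowerSeries.coeff_one]
  unfold kser bc
  rw [PowerSeries.coeff_mk]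
  split_ifs with h
  · subst h
    have h3 : kap D i 0 = 1 := by
      simp [kap, cc]
    rw [h3]
    norm_num
  · rw [zero_sub]

private theorem wt_le (ns : List ℕ) (n : ℕ) (h : n ∈ ns) : n ≤ ns.sum :=
  List.single_le_sum (by simp) n h

end aux

theorem coeff_Ahat (hN : Even N) {Λ : Fk F →ₗ[F] F} (hΛ : IsLam D Λ) (ns : List ℕ) (R : ℤ)
    (k : ℕ) (hk : (k : ℤ) = R + ns.sum) :
    PowerSeries.coeff k (pfL (Ahat D) (Elist N ns)) =
      Λ (phi F (2 * R) (prb F (ns.map fun n => 2 * n))) := by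
  rw [coeff_pf]
  have hinl : ∀ i : Fin N, PowerSeries.coeff k (Ahat D none (some (Sum.inl i)) *
      PowerSeries.X ^ (ns.sum - wt (Sum.inl i : Fin N ⊕ ℕ))) =
      if ns.sum ≤ k then - bc D i (k - ns.sum) else 0 := by
    intro i
    rw [PowerSeries.coeff_mul_X_pow']
    simp only [Ahat, wt, Nat.sub_zero, coeff_kk]
  have hinr : ∀ n : ℕ, n ≤ ns.sum → PowerSeries.coeff k (Ahat D none (some (Sum.inr n)) *
      PowerSeries.X ^ (ns.sum - wt (Sum.inr n : Fin N ⊕ ℕ))) =
      if (R : ℤ) = -(n : ℤ) then (if n = 0 then 1 else 2) else 0 := by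
    intro n hn
    rw [PowerSeries.coeff_mul_X_pow']
    simp only [Ahat, wt, coeff_bt]
    by_cases h1 : (R : ℤ) = -(n : ℤ)
    · rw [if_pos h1, if_pos (by omega), if_pos (by omega)]
    · rw [if_neg h1]
      by_cases h2 : ns.sum - n ≤ k
      · rw [if_pos h2, if_neg (by omega)]
      · rw [if_neg h2]
  have hmem : ∀ a ∈ psl N ++ ns.map Sum.inr, (∃ i, a = Sum.inl i) ∨
      (∃ n, n ≤ ns.sum ∧ a = Sum.inr n) := by
    intro a ha
    rcases a with i | n
    · exact Or.inl ⟨i, rfl⟩
    · refine Or.inr ⟨n, ?_, rfl⟩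
      rcases List.mem_append.1 ha with h | h
      · simp [psl] at h
      · obtain ⟨m, hm, hmn⟩ := List.mem_map.1 h
        have : m = n := by simpa using hmn
        subst this
        exact wt_le ns m hm
  rcases lt_trichotomy R 0 with hR | hR | hR
  · obtain ⟨n, hn0, rfl⟩ : ∃ n : ℕ, 0 < n ∧ R = -(n : ℤ) := ⟨R.natAbs, by omega, by omega⟩
    have h1 : (2 * -(n : ℤ)) = -((2 * n : ℕ) : ℤ) := by push_cast; ring
    rw [h1, phi_neg F (2 * n) (by omega), map_smul, ts_an D hN hΛ, smul_eq_mul, pow_mul]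
    have h2 : (2 * ((-1) ^ 2) ^ n : F) = 2 := by simp
    rw [h2, ← ts_smul]
    refine ts_congr D _ _ _ fun a ha => ?_
    rcases hmem a ha with ⟨i, rfl⟩ | ⟨m, hm, rfl⟩
    · rw [hinl, if_neg (by omega)]
      simp
    · rw [hinr m hm]
      by_cases hmn : m = n
      · subst hmn
        rw [if_pos rfl, if_neg (by omega), if_pos rfl, mul_one]
      · rw [if_neg (by omega), if_neg (by simpa using hmn), mul_zero]
  · subst hR
    rw [mul_zero, phi_zero, map_add]
    have h1 := ts_cr D hN hΛ ns 0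
    have h2 := ts_an D hN hΛ ns 0
    rw [mul_zero] at h1 h2
    rw [h1, h2, ← ts_add]
    refine ts_congr D _ _ _ fun a ha => ?_
    rcases hmem a ha with ⟨i, rfl⟩ | ⟨m, hm, rfl⟩
    · rw [hinl, if_pos (by omega)]
      have h3 : k - ns.sum = 0 := by omega
      rw [h3]
      simp [AS]
    · rw [hinr m hm]
      by_cases hm0 : m = 0
      · subst hm0
        simp [AS]
      · rw [if_neg (by omega)]
        simp [AS, hm0]
  · obtain ⟨r, hr0, rfl⟩ : ∃ r : ℕ, 0 < r ∧ R = (r : ℤ) := ⟨R.natAbs, by omega, by omega⟩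
    have h1 : (2 * (r : ℤ)) = ((2 * r : ℕ) : ℤ) := by push_cast; ring
    rw [h1, phi_pos F (2 * r) (by omega), ts_cr D hN hΛ]
    refine ts_congr D _ _ _ fun a ha => ?_
    rcases hmem a ha with ⟨i, rfl⟩ | ⟨m, hm, rfl⟩
    · rw [hinl, if_pos (by omega)]
      have h3 : k - ns.sum = r := by omega
      rw [h3]
      rfl
    · rw [hinr m hm, if_neg (by omega)]
      rfl

end Pool.Agent.Helper90.MVD
end

/- Helper34.MVU.WickHf -/
section
/-!
Project MV, block U, module U-H2 (WickHf): bound of `Wick (hfL QQp L)`.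

PROOF. CLAIM (induction on the length of `L`, for all lists `P : List (ℕ × ℝ)` with
`0 ≤ p.2 < 1/2` for all `p ∈ P` and `L` as in the theorem):
`Wick ((P.map (qP p.1)).prod * hfL QQp L) * (P.map (p.2 ^ p.1)).prod`
`  ≤ GG (P.map Prod.snd ++ L.map r) * (mt L.length * (L.map (fun a => (2a+1) * (r a ^ a)⁻¹)).prod)`.
* `L = []`: `Wick_prod_le`. `L = [x]`: `hfL QQp [x] = 0`, `mt 1 = 0`.
* `L = x :: xs`: `hfL QQp L = Σ_j QQp x y_j * hfL QQp (xs.eraseIdx j)`, `y_j = xs[j]`, and `QQp x y` is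
  `qP x * qP y` plus twice the sum over `j < y` of `qP (x+(j+1)) * qP (y-(j+1))`. For one product
  `qP n * qP n'`, `(n,n') = (x,y)` or `(x+(j+1), y-(j+1))`, apply the induction hypothesis to
  `P' = P ++ [(n, r x), (n', r y)]` and `xs.eraseIdx j`:
  `Wick (ΠP qP n qP n' hfL QQp (xs.eraseIdx j)) * ΠP p.2^p.1 * ((r x)^n (r y)^n') ≤ GG (…) * (…)`,
  the list of radii is a permutation of `P.map Prod.snd ++ L.map r`, and `GG` is invariant under
  permutations (`List.Perm.sum_eq`, `List.Perm.map`). Here `(r x)^n (r y)^n' > 0` (if `y ≠ 0` then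
  `0 < r y ≤ r x`; if `y = 0` then `n = x`, `n' = 0`, and `x = 0` or `r x > 0`), and
  `((r x)^n (r y)^n')⁻¹ ≤ ((r x)^x (r y)^y)⁻¹` because
  `(r x)^n (r y)^n' = (r x)^x (r y)^y (r x / r y)^(j+1)` and `r y ≤ r x`.
  There are `1 + 2y ≤ (2x+1)(2y+1)` products (counted with multiplicity), `xs.length` values of `j`,
  and `mt (xs.length + 1) = xs.length * mt (xs.length - 1)`.
The theorem is the case `P = []`.
-/

namespace Pool.Agent.Helper34.MVU

open Finset MvPolynomial Pool.Agent.Helper60.MV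

theorem GG_perm {L L' : List ℝ} (h : L.Perm L') : GG L = GG L' := by
  unfold GG
  congr 2
  have h1 : (fun r : ℝ => (L.map (fun r' => Phi (r + r'))).sum) =
      fun r : ℝ => (L'.map (fun r' => Phi (r + r'))).sum := by
    funext r
    exact (h.map _).sum_eq
  rw [h1]
  exact (h.map _).sum_eq

/-- the weight of an entry -/
noncomputable def whW (r : ℕ → ℝ) (a : ℕ) : ℝ := (2 * (a : ℝ) + 1) * ((r a) ^ a)⁻¹

theorem wh_pow_pos {r : ℕ → ℝ} {a : ℕ} (h : a ≠ 0 → 0 < r a) : 0 < (r a) ^ a := by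
  rcases Nat.eq_zero_or_pos a with h0 | h0
  · subst h0; simp
  · exact pow_pos (h (Nat.pos_iff_ne_zero.1 h0)) _

theorem whW_pos {r : ℕ → ℝ} {a : ℕ} (h : a ≠ 0 → 0 < r a) : 0 < whW r a := by
  unfold whW
  have := wh_pow_pos h
  positivity

theorem wh_pow_le {r : ℕ → ℝ} {x y : ℕ} (hx : 0 ≤ r x) (hy : 0 ≤ r y)
    (hxy : y ≠ 0 → r y ≤ r x) {i : ℕ} (hi : i ≤ y) :
    (r x) ^ x * (r y) ^ y ≤ (r x) ^ (x + i) * (r y) ^ (y - i) := by
  have h1 : (r y) ^ i ≤ (r x) ^ i := by
    rcases Nat.eq_zero_or_pos i with h0 | h0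
    · subst h0; simp
    · exact pow_le_pow_left₀ hy (hxy (by omega)) i
  have h2 : (r y) ^ y = (r y) ^ (y - i) * (r y) ^ i := by
    rw [← pow_add, Nat.sub_add_cancel hi]
  rw [h2, pow_add]
  calc (r x) ^ x * ((r y) ^ (y - i) * (r y) ^ i)
      ≤ (r x) ^ x * ((r y) ^ (y - i) * (r x) ^ i) := by
        refine mul_le_mul_of_nonneg_left ?_ (pow_nonneg hx _)
        exact mul_le_mul_of_nonneg_left h1 (pow_nonneg hy _)
    _ = _ := by ring

theorem Wick_mul_C (c : ℝ) (f : MvPolynomial ℕ ℝ) : Wick (f * C c) = Wick f * c := by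
  rw [mul_comm, Wick_C_mul, mul_comm]

theorem wick_claim (r : ℕ → ℝ) : ∀ (n : ℕ) (L : List ℕ), L.length = n →
    (∀ a ∈ L, 0 ≤ r a ∧ r a < 1 / 2 ∧ (a ≠ 0 → 0 < r a)) →
    L.Pairwise (fun a b => b ≠ 0 → r b ≤ r a) →
    ∀ P : List (ℕ × ℝ), (∀ p ∈ P, 0 ≤ p.2 ∧ p.2 < 1 / 2) →
    Wick ((P.map (fun p => qP p.1)).prod * hfL QQp L) * (P.map (fun p => p.2 ^ p.1)).prod ≤
      GG (P.map Prod.snd ++ L.map r) * (mt L.length * (L.map (whW r)).prod) := by
  intro n
  induction n using Nat.strong_induction_on with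
  | _ n ih =>
  intro L hn hr hL P hP
  cases L with
  | nil =>
    rw [hfL, mul_one, List.map_nil, List.append_nil, List.length_nil, List.map_nil,
      List.prod_nil, mt, Nat.cast_one, mul_one, mul_one]
    exact Wick_prod_le P hP
  | cons x xs =>
    have hx := hr x List.mem_cons_self
    have hxs : ∀ a ∈ xs, 0 ≤ r a ∧ r a < 1 / 2 ∧ (a ≠ 0 → 0 < r a) := fun a ha =>
      hr a (List.mem_cons_of_mem _ ha)
    have hL' := List.pairwise_cons.1 hL
    have hGpos : ∀ M : List ℝ, 0 < GG M := fun M => Real.exp_pos _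
    have hWpos : ∀ M : List ℕ, (∀ a ∈ M, 0 ≤ r a ∧ r a < 1 / 2 ∧ (a ≠ 0 → 0 < r a)) →
        0 ≤ (M.map (whW r)).prod := by
      intro M hM
      refine List.prod_nonneg fun z hz => ?_
      obtain ⟨a, ha, rfl⟩ := List.mem_map.1 hz
      exact (whW_pos (hM a ha).2.2).le
    set G : ℝ := GG (P.map Prod.snd ++ (x :: xs).map r) with hG
    set Pi : MvPolynomial ℕ ℝ := (P.map (fun p => qP p.1)).prod with hPi
    set Pr : ℝ := (P.map (fun p => p.2 ^ p.1)).prod with hPr
    -- one product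
    have hone : ∀ (j : Fin xs.length) (i : ℕ), i ≤ xs.get j →
        Wick (Pi * (qP (x + i) * qP (xs.get j - i)) * hfL QQp (xs.eraseIdx j)) * Pr ≤
        G * ((mt (xs.length - 1) : ℝ) * ((xs.eraseIdx j).map (whW r)).prod) *
          (((r x) ^ x)⁻¹ * ((r (xs.get j)) ^ (xs.get j))⁻¹) := by
      intro j i hi
      have hym : xs.get j ∈ xs := List.get_mem xs j
      have hy := hxs _ hym
      have hsub : List.Sublist (xs.eraseIdx j) xs := List.eraseIdx_sublist xs j
      have hlen : (xs.eraseIdx j).length = xs.length - 1 := by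
        rw [List.length_eraseIdx_of_lt j.2]
      have hjl := j.2
      have h1 := ih (xs.eraseIdx j).length
        (by rw [← hn, List.length_cons, hlen]; omega) (xs.eraseIdx j) rfl
        (fun a ha => hxs a (hsub.subset ha)) (hL'.2.sublist hsub)
        ((x + i, r x) :: (xs.get j - i, r (xs.get j)) :: P) (by
          intro p hp
          rcases List.mem_cons.1 hp with h | h
          · subst h; exact ⟨hx.1, hx.2.1⟩
          · rcases List.mem_cons.1 h with h | h
            · subst h; exact ⟨hy.1, hy.2.1⟩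
            · exact hP p h)
      have hperm : (List.map Prod.snd ((x + i, r x) :: (xs.get j - i, r (xs.get j)) :: P) ++
          (xs.eraseIdx j).map r).Perm (P.map Prod.snd ++ (x :: xs).map r) := by
        have h2 : (xs.map r).Perm (r (xs.get j) :: (xs.eraseIdx j).map r) := by
          have h3 := (List.getElem_cons_eraseIdx_perm (l := xs) (n := (j : ℕ)) j.2).map r
          exact h3.symm
        have h4 : (P.map Prod.snd ++ (x :: xs).map r).Perm
            (P.map Prod.snd ++ (r x :: r (xs.get j) :: (xs.eraseIdx j).map r)) := by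
          rw [List.map_cons]
          exact (h2.cons _).append_left _
        refine List.Perm.trans ?_ h4.symm
        simp only [List.map_cons, List.cons_append]
        have h5 : (P.map Prod.snd ++ (r x :: r (xs.get j) :: (xs.eraseIdx j).map r)).Perm
            (r x :: (P.map Prod.snd ++ (r (xs.get j) :: (xs.eraseIdx j).map r))) :=
          List.perm_middle
        have h6 : (P.map Prod.snd ++ (r (xs.get j) :: (xs.eraseIdx j).map r)).Perm
            (r (xs.get j) :: (P.map Prod.snd ++ (xs.eraseIdx j).map r)) :=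
          List.perm_middle
        exact (h5.trans (h6.cons _)).symm
      rw [GG_perm hperm, hlen] at h1
      simp only [List.map_cons, List.prod_cons] at h1
      have hd : 0 < (r x) ^ x * (r (xs.get j)) ^ (xs.get j) :=
        mul_pos (wh_pow_pos hx.2.2) (wh_pow_pos hy.2.2)
      have hc := wh_pow_le (r := r) (x := x) (y := xs.get j) hx.1 hy.1
        (hL'.1 _ hym) hi
      set B : ℝ := G * ((mt (xs.length - 1) : ℝ) * ((xs.eraseIdx j).map (whW r)).prod) with hB
      have hB0 : 0 ≤ B := by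
        rw [hB]
        refine mul_nonneg (hGpos _).le (mul_nonneg (Nat.cast_nonneg _) ?_)
        exact hWpos _ (fun a ha => hxs a (hsub.subset ha))
      set A : ℝ := Wick (Pi * (qP (x + i) * qP (xs.get j - i)) * hfL QQp (xs.eraseIdx j)) * Pr
        with hA
      have h7 : A * ((r x) ^ (x + i) * (r (xs.get j)) ^ (xs.get j - i)) ≤ B := by
        have h8 : Wick (qP (x + i) * (qP (xs.get j - i) * Pi) * hfL QQp (xs.eraseIdx j)) *
            ((r x) ^ (x + i) * ((r (xs.get j)) ^ (xs.get j - i) * Pr)) ≤ B := by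
          rw [hB, hG]
          simpa only [List.map_cons] using h1
        have h9 : qP (x + i) * (qP (xs.get j - i) * Pi) * hfL QQp (xs.eraseIdx j) =
            Pi * (qP (x + i) * qP (xs.get j - i)) * hfL QQp (xs.eraseIdx j) := by ring
        rw [h9] at h8
        calc A * ((r x) ^ (x + i) * (r (xs.get j)) ^ (xs.get j - i))
            = Wick (Pi * (qP (x + i) * qP (xs.get j - i)) * hfL QQp (xs.eraseIdx j)) *
            ((r x) ^ (x + i) * ((r (xs.get j)) ^ (xs.get j - i) * Pr)) := by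
              rw [hA]; ring
          _ ≤ B := h8
      rw [← mul_inv, ← div_eq_mul_inv, le_div_iff₀ hd]
      by_cases hA0 : 0 ≤ A
      · exact (mul_le_mul_of_nonneg_left hc hA0).trans h7
      · exact (mul_nonpos_of_nonpos_of_nonneg (not_le.1 hA0).le hd.le).trans hB0
    -- one term
    have hterm : ∀ j : Fin xs.length,
        Wick (Pi * (QQp x (xs.get j) * hfL QQp (xs.eraseIdx j))) * Pr ≤
        G * ((mt (xs.length - 1) : ℝ) * ((x :: xs).map (whW r)).prod) := by
      intro j
      have hym : xs.get j ∈ xs := List.get_mem xs j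
      have hy := hxs _ hym
      have hsub : List.Sublist (xs.eraseIdx j) xs := List.eraseIdx_sublist xs j
      set y := xs.get j with hyd
      set Bd : ℝ := G * ((mt (xs.length - 1) : ℝ) * ((xs.eraseIdx j).map (whW r)).prod) *
          (((r x) ^ x)⁻¹ * ((r y) ^ y)⁻¹) with hBd
      have h1 : Pi * (QQp x y * hfL QQp (xs.eraseIdx j)) =
          Pi * (qP (x + 0) * qP (y - 0)) * hfL QQp (xs.eraseIdx j) +
          C 2 * ∑ i ∈ range y, Pi * (qP (x + (i + 1)) * qP (y - (i + 1))) *
            hfL QQp (xs.eraseIdx j) := by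
        rw [QQp, ← Finset.sum_mul, ← Finset.mul_sum]
        have h2 : (C 2 : MvPolynomial ℕ ℝ) = 2 := map_ofNat C 2
        rw [h2, add_zero, Nat.sub_zero]
        ring
      rw [h1, Wick_add, Wick_C_mul, Wick_sum, add_mul]
      rw [mul_assoc (2:ℝ) (∑ i ∈ range y, Wick (Pi * (qP (x + (i + 1)) * qP (y - (i + 1))) *
            hfL QQp (xs.eraseIdx j))) Pr, Finset.sum_mul]
      have h3 : ∑ i ∈ range y, Wick (Pi * (qP (x + (i + 1)) * qP (y - (i + 1))) *
            hfL QQp (xs.eraseIdx j)) * Pr ≤ ∑ _i ∈ range y, Bd := by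
        refine Finset.sum_le_sum fun i hi => ?_
        exact hone j (i + 1) (Nat.succ_le_of_lt (Finset.mem_range.1 hi))
      rw [Finset.sum_const, Finset.card_range, nsmul_eq_mul] at h3
      have h4 := hone j 0 (Nat.zero_le _)
      have hBd0 : 0 ≤ Bd := by
        rw [hBd]
        refine mul_nonneg (mul_nonneg (hGpos _).le (mul_nonneg (Nat.cast_nonneg _) ?_)) ?_
        · exact hWpos _ (fun a ha => hxs a (hsub.subset ha))
        · have h5 := wh_pow_pos hx.2.2
          have h6 := wh_pow_pos hy.2.2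
          positivity
      have h5 : ((x :: xs).map (whW r)).prod =
          (2 * (x : ℝ) + 1) * (2 * (y : ℝ) + 1) * (((r x) ^ x)⁻¹ * ((r y) ^ y)⁻¹) *
            ((xs.eraseIdx j).map (whW r)).prod := by
        have h6 : (xs.map (whW r)).prod = whW r y * ((xs.eraseIdx j).map (whW r)).prod := by
          have h7 := ((List.getElem_cons_eraseIdx_perm (l := xs) (n := (j : ℕ)) j.2).map
            (whW r)).prod_eq
          rw [List.map_cons, List.prod_cons] at h7
          rw [← h7]
          rfl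
        rw [List.map_cons, List.prod_cons, h6, whW, whW]
        ring
      have h8 : G * ((mt (xs.length - 1) : ℝ) * ((x :: xs).map (whW r)).prod) =
          (2 * (x : ℝ) + 1) * (2 * (y : ℝ) + 1) * Bd := by
        rw [h5, hBd]; ring
      rw [h8]
      have hx0 : (0:ℝ) ≤ (x:ℝ) := Nat.cast_nonneg _
      have hy0 : (0:ℝ) ≤ (y:ℝ) := Nat.cast_nonneg _
      have h9 : (1 + 2 * (y : ℝ)) * Bd ≤ (2 * (x : ℝ) + 1) * (2 * (y : ℝ) + 1) * Bd := by
        refine mul_le_mul_of_nonneg_right ?_ hBd0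
        nlinarith [mul_nonneg hx0 hy0]
      linarith [h3, h4, h9]
    -- the sum
    rw [hfL, Finset.mul_sum, Wick_sum, Finset.sum_mul]
    refine (Finset.sum_le_sum fun j _ => hterm j).trans ?_
    rw [Finset.sum_const, Finset.card_univ, Fintype.card_fin, nsmul_eq_mul]
    have hmt : ((xs.length : ℕ) : ℝ) * (mt (xs.length - 1) : ℝ) = (mt (x :: xs).length : ℝ) := by
      rw [List.length_cons]
      cases xs.length with
      | zero => simp [mt]
      | succ m =>
        rw [Nat.add_sub_cancel, mt]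
        push_cast
        ring
    rw [← hmt]
    apply le_of_eq
    ring

theorem Wick_hfL_le (L : List ℕ) (r : ℕ → ℝ)
    (hr : ∀ a ∈ L, 0 ≤ r a ∧ r a < 1 / 2 ∧ (a ≠ 0 → 0 < r a))
    (hL : L.Pairwise (fun a b => b ≠ 0 → r b ≤ r a)) :
    Wick (hfL QQp L) ≤ GG (L.map r) *
      (mt L.length * (L.map (fun a : ℕ => (2 * (a : ℝ) + 1) * ((r a) ^ a)⁻¹)).prod) := by
  have h := wick_claim r L.length L rfl hr hL [] (by simp)
  simp only [List.map_nil, List.prod_nil, one_mul, mul_one, List.nil_append] at h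
  exact h

end Pool.Agent.Helper34.MVU
end
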