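import Pool.Agent.Helper16.LGG.G05

/- Helper52.MVD.Transfer -/
section
/-!
Project MV, block D1, module D1-16: from the generic point to positive real points.

`R = MvPolynomial (Fin N) ℝ`, `F = FractionRing R`, `ev = MvPolynomial.eval s : R → ℝ`. Let `V` be the set of all
`(e, v) : F × ℝ` such that there are `p q : R`, `ev q ≠ 0`, `e * q = p` in `F`, `v * ev q = ev p`. `V` is a subring
(common denominators), contains `(c, c)` for real `c` and `(X i, s i)`, is closed under inverses of elements with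
`v ≠ 0` (then `ev p ≠ 0`; swap `p` and `q`), and is a function: `(e, v), (e, v') ∈ V` imply `v = v'` (`p q' = p' q` in `R`
by injectivity of `R → F`, apply `ev`). Since `s i > 0`: `(1/(X i + X j), 1/(s i + s j)) ∈ V`, `(1/X i, 1/s i) ∈ V`; sums
and products in `F × ℝ` are componentwise, so `(PKF K N X, PK K N s) ∈ V` and
`(aeval (tval X) R, aeval (tval s) R) ∈ V` for every polynomial `R` (induction on `R`, or the composition of algebra
homomorphisms into `F × ℝ`). The first components are equal by hypothesis.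
-/

namespace Pool.Agent.Helper52.MVD

open Finset Pool.Agent.Helper60.MV

private abbrev RN (N : ℕ) : Type := MvPolynomial (Fin N) ℝ
private abbrev FN (N : ℕ) : Type := FractionRing (MvPolynomial (Fin N) ℝ)

/-- `e` is defined at the point `s` and has the value `v` there -/
private def Val {N : ℕ} (s : Fin N → ℝ) (e : FN N) (v : ℝ) : Prop :=
  ∃ p q : RN N, MvPolynomial.eval s q ≠ 0 ∧ e * algebraMap (RN N) (FN N) q =
    algebraMap (RN N) (FN N) p ∧ v * MvPolynomial.eval s q = MvPolynomial.eval s p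

private theorem Val.of {N : ℕ} (s : Fin N → ℝ) (p : RN N) :
    Val s (algebraMap (RN N) (FN N) p) (MvPolynomial.eval s p) :=
  ⟨p, 1, by simp, by simp, by simp⟩

private theorem Val.const {N : ℕ} (s : Fin N → ℝ) (c : ℝ) :
    Val s (algebraMap ℝ (FN N) c) c := by
  have h := Val.of s (MvPolynomial.C c)
  rw [MvPolynomial.eval_C] at h
  have e : algebraMap (RN N) (FN N) (MvPolynomial.C c) = algebraMap ℝ (FN N) c := by
    rw [IsScalarTower.algebraMap_apply ℝ (RN N) (FN N)]
    rfl
  rwa [e] at h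

private theorem Val.add {N : ℕ} {s : Fin N → ℝ} {e e' : FN N} {v v' : ℝ} (h : Val s e v)
    (h' : Val s e' v') : Val s (e + e') (v + v') := by
  obtain ⟨p, q, h1, h2, h3⟩ := h
  obtain ⟨p', q', h1', h2', h3'⟩ := h'
  refine ⟨p * q' + p' * q, q * q', ?_, ?_, ?_⟩
  · rw [map_mul]; exact mul_ne_zero h1 h1'
  · rw [map_mul, map_add, map_mul, map_mul, ← h2, ← h2']; ring
  · rw [map_mul, map_add, map_mul, map_mul, ← h3, ← h3']; ring

private theorem Val.mul {N : ℕ} {s : Fin N → ℝ} {e e' : FN N} {v v' : ℝ} (h : Val s e v)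
    (h' : Val s e' v') : Val s (e * e') (v * v') := by
  obtain ⟨p, q, h1, h2, h3⟩ := h
  obtain ⟨p', q', h1', h2', h3'⟩ := h'
  refine ⟨p * p', q * q', ?_, ?_, ?_⟩
  · rw [map_mul]; exact mul_ne_zero h1 h1'
  · rw [map_mul, map_mul, ← h2, ← h2']; ring
  · rw [map_mul, map_mul, ← h3, ← h3']; ring

private theorem Val.inv {N : ℕ} {s : Fin N → ℝ} {e : FN N} {v : ℝ} (h : Val s e v)
    (hv : v ≠ 0) : Val s (1 / e) (1 / v) := by
  obtain ⟨p, q, h1, h2, h3⟩ := h
  have hp : MvPolynomial.eval s p ≠ 0 := by rw [← h3]; exact mul_ne_zero hv h1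
  have hp0 : p ≠ 0 := by rintro rfl; simp at hp
  have he : e ≠ 0 := by
    rintro rfl
    rw [zero_mul] at h2
    exact hp0 ((IsFractionRing.injective (RN N) (FN N)) (by rw [← h2, map_zero]))
  refine ⟨q, p, hp, ?_, ?_⟩
  · rw [← h2]; field_simp
  · rw [← h3]; field_simp

private theorem Val.pow {N : ℕ} {s : Fin N → ℝ} {e : FN N} {v : ℝ} (h : Val s e v) (n : ℕ) :
    Val s (e ^ n) (v ^ n) := by
  induction n with
  | zero =>
    have := Val.of s (1 : RN N)
    rwa [map_one, map_one] at this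
  | succ n ih => rw [pow_succ, pow_succ]; exact ih.mul h

private theorem Val.sum {N : ℕ} {s : Fin N → ℝ} {κ : Type} (t : Finset κ) {f : κ → FN N}
    {g : κ → ℝ} (h : ∀ i ∈ t, Val s (f i) (g i)) : Val s (∑ i ∈ t, f i) (∑ i ∈ t, g i) := by
  classical
  induction t using Finset.induction_on with
  | empty =>
    have := Val.of s (0 : RN N)
    rwa [map_zero, map_zero] at this
  | insert a t ha ih =>
    rw [sum_insert ha, sum_insert ha]
    exact (h a (mem_insert_self _ _)).add (ih fun i hi => h i (mem_insert_of_mem hi))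

private theorem Val.prod {N : ℕ} {s : Fin N → ℝ} {κ : Type} (t : Finset κ) {f : κ → FN N}
    {g : κ → ℝ} (h : ∀ i ∈ t, Val s (f i) (g i)) : Val s (∏ i ∈ t, f i) (∏ i ∈ t, g i) := by
  classical
  induction t using Finset.induction_on with
  | empty =>
    have := Val.of s (1 : RN N)
    rwa [map_one, map_one] at this
  | insert a t ha ih =>
    rw [prod_insert ha, prod_insert ha]
    exact (h a (mem_insert_self _ _)).mul (ih fun i hi => h i (mem_insert_of_mem hi))

private theorem Val.unique {N : ℕ} {s : Fin N → ℝ} {e : FN N} {v v' : ℝ} (h : Val s e v)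
    (h' : Val s e v') : v = v' := by
  obtain ⟨p, q, h1, h2, h3⟩ := h
  obtain ⟨p', q', h1', h2', h3'⟩ := h'
  have h4 : algebraMap (RN N) (FN N) (p * q') = algebraMap (RN N) (FN N) (p' * q) := by
    rw [map_mul, map_mul, ← h2, ← h2']; ring
  have h5 := congrArg (MvPolynomial.eval s) (IsFractionRing.injective (RN N) (FN N) h4)
  rw [map_mul, map_mul, ← h3, ← h3'] at h5
  have h6 : (v - v') * (MvPolynomial.eval s q * MvPolynomial.eval s q') = 0 := by
    linear_combination h5
  rcases mul_eq_zero.1 h6 with h7 | h7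
  · linarith
  · exact absurd h7 (mul_ne_zero h1 h1')

private theorem Val.X {N : ℕ} (s : Fin N → ℝ) (i : Fin N) :
    Val s (algebraMap (RN N) (FN N) (MvPolynomial.X i)) (s i) := by
  have := Val.of s (MvPolynomial.X i)
  rwa [MvPolynomial.eval_X] at this

theorem transfer {ρ : Type} [Fintype ρ] (K : ρ → ℕ) (N : ℕ) (R : MvPolynomial ℕ ℝ)
    (h : PKF K N (fun i => algebraMap (MvPolynomial (Fin N) ℝ)
        (FractionRing (MvPolynomial (Fin N) ℝ)) (MvPolynomial.X i)) =
      MvPolynomial.aeval (tval (fun i => algebraMap (MvPolynomial (Fin N) ℝ)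
        (FractionRing (MvPolynomial (Fin N) ℝ)) (MvPolynomial.X i))) R)
    (s : Fin N → ℝ) (hs : ∀ i, 0 < s i) : PK K N s = MvPolynomial.aeval (tval s) R := by
  have h1 : Val s (PKF K N (fun i => algebraMap (RN N) (FN N) (MvPolynomial.X i))) (PK K N s) := by
    rw [← PKF_real]
    unfold PKF
    refine Val.sum _ fun τ _ => Val.sum _ fun lab _ => Val.prod _ fun e _ => ?_
    exact ((Val.X s _).add (Val.X s _)).inv (add_pos (hs _) (hs _)).ne'
  have ht : ∀ k, Val s (tval (fun i => algebraMap (RN N) (FN N) (MvPolynomial.X i)) k)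
      (tval s k) := fun k => Val.sum _ fun i _ => ((Val.X s i).inv (hs i).ne').pow _
  have h2 : Val s (MvPolynomial.aeval (tval (fun i => algebraMap (RN N) (FN N)
      (MvPolynomial.X i))) R) (MvPolynomial.aeval (tval s) R) := by
    clear h
    induction R using MvPolynomial.induction_on with
    | C c =>
      rw [MvPolynomial.aeval_C, MvPolynomial.aeval_C]
      exact Val.const s c
    | add p q hp hq => rw [map_add, map_add]; exact hp.add hq
    | mul_X p k hp =>
      rw [map_mul, map_mul, MvPolynomial.aeval_X, MvPolynomial.aeval_X]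
      exact hp.mul (ht k)
  rw [h] at h1
  exact h1.unique h2

end Pool.Agent.Helper52.MVD
end

/- Helper90.MVD.Cur -/
section
/-!
Module MVD-10 (project MV, block D2): the currents `J_j = α_{-(2j+1)} = ½ ∑_r φ_{2j+1-2r} φ_{2r}`.

Let `κ = 2j+1`. Local finiteness: if `φ_n x = 0` for `n ≤ -B` (`phi_fin`), then
`φ_{κ-2r} φ_{2r} x = 0` for `2r ≤ -B`, and, since `(κ-2r) + 2r = κ ≠ 0` so that
`φ_{κ-2r} φ_{2r} x = - φ_{2r} φ_{κ-2r} x` (`phi_phi`), also for `κ - 2r ≤ -B`. So the sums over
`Icc (-B) B` are eventually constant.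
* `exists_cur`: define `J j x` as `½ ∑ᶠ r` (or as the eventual value, or `limUnder`); additivity and
  homogeneity because the sums over `Icc (-B) B` are additive and eventually constant.
* `cur_phi`: for `B` large, `J j (φ_n x) - φ_n (J j x) = ½ ∑_{|r| ≤ B} [φ_{κ-2r} φ_{2r}, φ_n] x`, and
  `[ab, c] = a{b,c} - {a,c}b`, `{φ_m,φ_n} = 2 (-1)^m δ_{m+n,0}`. If `n` is even only
  `{φ_{2r}, φ_n}` can be nonzero (`r = -n/2`): the bracket is `2 φ_{κ+n}`; if `n` is odd only
  `{φ_{κ-2r}, φ_n}` (`2r = κ+n`): `-(2 (-1)^{κ-2r}) φ_{2r} = 2 φ_{κ+n}`. In both cases `½ · 2 φ_{κ+n}`.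
* `vac_cur` (`j ≥ 0`): each term: if `κ - 2r > 0` then `φ_{κ-2r}` is `cr` on the left and `vac = 0`;
  else `r > 0` and `φ_{κ-2r} φ_{2r} x = - φ_{2r} φ_{κ-2r} x` starts with `cr (2r)`.
* `cur_one` (`j < 0`, `κ < 0`): `r < 0`: `φ_{2r} 1 = 0`; `r ≥ 0`: `κ - 2r < 0` and
  `φ_{κ-2r} φ_{2r} 1 = - φ_{2r} φ_{κ-2r} 1 = 0`.
* `cur_fin`: `J j x = 0` for `j ≪ 0`: with `B` as above, `2r ≤ -B` or `κ - 2r ≤ -B` as soon as
  `κ ≤ -2B`.
-/

namespace Pool.Agent.Helper90.MVD

open Finset Pool.Agent.Helper60.MV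

variable (F : Type) [Field F] [CharZero F]

/-- the term of the current -/
noncomputable def curT (j r : ℤ) : Fk F →ₗ[F] Fk F :=
  (phi F (2 * j + 1 - 2 * r)).comp (phi F (2 * r))

/-- the partial sum of the current -/
noncomputable def curS (j : ℤ) (B : ℕ) : Fk F →ₗ[F] Fk F :=
  ∑ r ∈ Icc (-(B : ℤ)) B, curT F j r

theorem curS_apply (j : ℤ) (B : ℕ) (x : Fk F) :
    curS F j B x = ∑ r ∈ Icc (-(B : ℤ)) B, phi F (2 * j + 1 - 2 * r) (phi F (2 * r) x) := by
  unfold curS
  rw [LinearMap.sum_apply]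
  rfl

theorem curT_swap (j r : ℤ) (x : Fk F) :
    curT F j r x = - phi F (2 * r) (phi F (2 * j + 1 - 2 * r) x) := by
  have h := phi_phi F (2 * j + 1 - 2 * r) (2 * r) x
  rw [if_neg (by omega), zero_smul, zero_sub] at h
  exact h

theorem curT_zero (j r : ℤ) (x : Fk F) (B : ℕ) (hx : ∀ n : ℤ, n ≤ -(B : ℤ) → phi F n x = 0)
    (h : 2 * r ≤ -(B : ℤ) ∨ 2 * j + 1 - 2 * r ≤ -(B : ℤ)) : curT F j r x = 0 := by
  rcases h with h | h
  · unfold curT
    rw [LinearMap.comp_apply, hx _ h, map_zero]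
  · rw [curT_swap, hx _ h, map_zero, neg_zero]

theorem curS_stable (j : ℤ) (x : Fk F) (B₁ : ℕ)
    (hx : ∀ n : ℤ, n ≤ -(B₁ : ℤ) → phi F n x = 0) (B B' : ℕ)
    (hB : B₁ + (2 * j + 1).natAbs ≤ B) (hB' : B ≤ B') : curS F j B' x = curS F j B x := by
  unfold curS
  rw [LinearMap.sum_apply, LinearMap.sum_apply]
  symm
  apply Finset.sum_subset
  · intro r hr
    rw [Finset.mem_Icc] at hr ⊢
    omega
  · intro r _ hr
    apply curT_zero F j r x B₁ hx
    rw [Finset.mem_Icc] at hr
    omega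

theorem curS_stable' (j : ℤ) (x : Fk F) :
    ∃ B₀ : ℕ, ∀ B : ℕ, B₀ ≤ B → curS F j B x = curS F j B₀ x := by
  obtain ⟨B₁, h1⟩ := phi_fin F x
  exact ⟨B₁ + (2 * j + 1).natAbs, fun B hB => curS_stable F j x B₁ h1 _ _ le_rfl hB⟩

theorem exists_cur : ∃ J : ℤ → Fk F →ₗ[F] Fk F, IsCur F J := by
  choose B₀ hB₀ using fun (j : ℤ) (x : Fk F) => curS_stable' F j x
  refine ⟨fun j =>
    { toFun := fun x => (1 / 2 : F) • curS F j (B₀ j x) x
      map_add' := fun x y => ?_
      map_smul' := fun c x => ?_ }, fun j x => ?_⟩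
  · set B := B₀ j x + B₀ j y + B₀ j (x + y) with hB
    rw [← hB₀ j x B (by omega), ← hB₀ j y B (by omega), ← hB₀ j (x + y) B (by omega), map_add,
      smul_add]
  · set B := B₀ j x + B₀ j (c • x) with hB
    rw [← hB₀ j x B (by omega), ← hB₀ j (c • x) B (by omega), map_smul, RingHom.id_apply,
      smul_comm]
  · refine ⟨B₀ j x, fun B hB => ?_⟩
    change (1 / 2 : F) • curS F j (B₀ j x) x = _
    rw [← hB₀ j x B hB, curS_apply]

variable {F} {J : ℤ → Fk F →ₗ[F] Fk F}

theorem cur_eq (hJ : IsCur F J) (j : ℤ) (x : Fk F) (B₁ : ℕ)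
    (hx : ∀ n : ℤ, n ≤ -(B₁ : ℤ) → phi F n x = 0) (B : ℕ)
    (hB : B₁ + (2 * j + 1).natAbs ≤ B) : J j x = (1 / 2 : F) • curS F j B x := by
  obtain ⟨B₀, h0⟩ := hJ j x
  rw [h0 (B₀ + B) (by omega), ← curS_apply, curS_stable F j x B₁ hx B (B₀ + B) hB (by omega)]

theorem curT_phi (j r n : ℤ) (x : Fk F) :
    curT F j r (phi F n x) - phi F n (curT F j r x) =
      (if 2 * r + n = 0 then 2 * (-1) ^ (2 * r).natAbs else 0 : F) • phi F (2 * j + 1 - 2 * r) x -
      (if 2 * j + 1 - 2 * r + n = 0 then 2 * (-1) ^ (2 * j + 1 - 2 * r).natAbs else 0 : F) •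
        phi F (2 * r) x := by
  have h1 := phi_phi F (2 * r) n x
  have h2 := phi_phi F (2 * j + 1 - 2 * r) n (phi F (2 * r) x)
  unfold curT
  rw [LinearMap.comp_apply, LinearMap.comp_apply, h1, map_sub, map_smul, h2]
  abel

theorem cur_phi (hJ : IsCur F J) (j n : ℤ) (x : Fk F) :
    J j (phi F n x) = phi F n (J j x) + phi F (n + (2 * j + 1)) x := by
  obtain ⟨B₁, h1⟩ := phi_fin F x
  obtain ⟨B₂, h2⟩ := phi_fin F (phi F n x)
  have h1' : ∀ m : ℤ, m ≤ -((B₁ + B₂ : ℕ) : ℤ) → phi F m x = 0 := fun m hm => h1 m (by omega)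
  have h2' : ∀ m : ℤ, m ≤ -((B₁ + B₂ : ℕ) : ℤ) → phi F m (phi F n x) = 0 :=
    fun m hm => h2 m (by omega)
  set B := B₁ + B₂ + (2 * j + 1).natAbs + n.natAbs with hB
  rw [cur_eq hJ j x (B₁ + B₂) h1' B (by omega), cur_eq hJ j (phi F n x) (B₁ + B₂) h2' B (by omega),
    map_smul]
  have h3 : curS F j B (phi F n x) - phi F n (curS F j B x) =
      (2 : F) • phi F (n + (2 * j + 1)) x := by
    unfold curS
    rw [LinearMap.sum_apply, LinearMap.sum_apply, map_sum, ← Finset.sum_sub_distrib,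
      Finset.sum_congr rfl fun r _ => curT_phi j r n x]
    rcases Int.even_or_odd' n with ⟨k, hk | hk⟩
    · rw [Finset.sum_eq_single (-k)]
      · rw [if_pos (by omega), if_neg (by omega), zero_smul, sub_zero]
        have h4 : (2 * -k).natAbs = 2 * k.natAbs := by omega
        have h5 : 2 * j + 1 - 2 * -k = n + (2 * j + 1) := by omega
        rw [h4, h5, pow_mul, neg_one_sq, one_pow, mul_one]
      · intro r _ hr
        rw [if_neg (by omega), if_neg (by omega), zero_smul, zero_smul, sub_zero]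
      · intro h
        exact absurd (Finset.mem_Icc.2 (by omega)) h
    · rw [Finset.sum_eq_single (j + k + 1)]
      · rw [if_neg (by omega), if_pos (by omega), zero_smul, zero_sub]
        have h4 : Odd (2 * j + 1 - 2 * (j + k + 1)).natAbs := by
          rw [Int.natAbs_odd]
          exact ⟨-k - 1, by ring⟩
        have h5 : 2 * (j + k + 1) = n + (2 * j + 1) := by omega
        rw [h4.neg_one_pow, h5, ← neg_smul]
        congr 1
        ring
      · intro r _ hr
        rw [if_neg (by omega), if_neg (by omega), zero_smul, zero_smul, sub_zero]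
      · intro h
        exact absurd (Finset.mem_Icc.2 (by omega)) h
  have h4 : curS F j B (phi F n x) = phi F n (curS F j B x) + (2 : F) • phi F (n + (2 * j + 1)) x := by
    rw [← h3]
    abel
  rw [h4, smul_add, smul_smul]
  norm_num

theorem vac_cur (hJ : IsCur F J) (j : ℤ) (hj : 0 ≤ j) (x : Fk F) : vac F (J j x) = 0 := by
  obtain ⟨B₁, h1⟩ := phi_fin F x
  rw [cur_eq hJ j x B₁ h1 _ le_rfl, map_smul]
  unfold curS
  rw [LinearMap.sum_apply, map_sum, Finset.sum_eq_zero, smul_zero]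
  intro r _
  have key : ∀ (m : ℤ) (y : Fk F), 0 < m → vac F (phi F m y) = 0 := by
    intro m y hm
    obtain ⟨m', rfl⟩ := Int.eq_ofNat_of_zero_le hm.le
    have := phi_pos F m' (by omega) y
    rw [show ((m' : ℕ) : ℤ) = (m' : ℤ) from rfl] at *
    rw [this, vac_cr]
  by_cases h : 0 < 2 * j + 1 - 2 * r
  · exact key _ _ h
  · rw [curT_swap, map_neg, key _ _ (by omega), neg_zero]

theorem cur_one (hJ : IsCur F J) (j : ℤ) (hj : j < 0) : J j 1 = 0 := by
  obtain ⟨B₁, h1⟩ := phi_fin F (1 : Fk F)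
  rw [cur_eq hJ j 1 B₁ h1 _ le_rfl]
  unfold curS
  rw [LinearMap.sum_apply, Finset.sum_eq_zero, smul_zero]
  intro r _
  by_cases h : r < 0
  · unfold curT
    rw [LinearMap.comp_apply, phi_one_neg F (2 * r) (by omega), map_zero]
  · rw [curT_swap, phi_one_neg F (2 * j + 1 - 2 * r) (by omega), map_zero, neg_zero]

theorem cur_fin (hJ : IsCur F J) (x : Fk F) : ∃ B : ℕ, ∀ j : ℤ, j ≤ -(B : ℤ) → J j x = 0 := by
  obtain ⟨B₁, h1⟩ := phi_fin F x
  refine ⟨B₁ + 1, fun j hj => ?_⟩
  rw [cur_eq hJ j x B₁ h1 _ le_rfl]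
  unfold curS
  rw [LinearMap.sum_apply, Finset.sum_eq_zero, smul_zero]
  intro r _
  exact curT_zero F j r x B₁ h1 (by omega)

end Pool.Agent.Helper90.MVD
end

/- Helper90.MVD.Expand -/
section
/-!
Module MVD-15 (project MV, block D2): coefficients in Fock space.

* `eq_vac_of_an`: if `an n x = 0` for all `n` then `x = vac x • 1`. Proof: put `p n x := an n (cr n x)`
  (`p n x = x - cr n (an n x) = x` by `cr_an_decomp`). The `p n` commute with each other, `p n 1 = 1`
  and `p n (cr n y) = 0`. Claim: for every `y` there is `B₀` with `p_0 p_1 ⋯ p_{B-1} y = vac y • 1`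
  for all `B ≥ B₀` (by `prb_span`: for `y = 1` clear, for `y = cr n y'` it is `0` as soon as `n < B`).
  Apply to `x`, on which all `p n` act as the identity.
* `expand`: for `B₀` with `an n x = 0` for `n ≥ B₀` (`an_fin`). Prove by induction on `B`: if
  `an n x = 0` for all `n ≥ B` then
  `x = ∑_{T ⊆ {0..B-1}} vac (ans (sorted T) x) • prb (sorted T)`, `sorted T` decreasing.
  `B = 0`: `eq_vac_of_an`. Step: `x = cr B x' + y`, `x' = an B x`, `y = an B (cr B x)`; both are
  killed by `an n`, `n ≥ B`. Subsets of `{0..B}` (`Finset.powerset_insert`/`sum_powerset_insert`):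
  those without `B`: `ans T y = ans T x - ans T (cr B x')` and
  `vac (ans T (cr B x')) = ± vac (cr B ..) = 0`, so the coefficients of `x` and `y` agree; those with
  `B`: the decreasing list of `insert B T` is `B :: sorted T` (`Finset.sort_insert`), so the term is
  `vac (ans T x') • cr B (prb T)`.
* `eq_of_vac`: if `vac (str L x) = 0` for all lists `L` then `x = 0`: by `expand`, and for a
  strictly decreasing list `T = [t_1 > ... > t_l]` of naturals `vac (ans T x)` is a nonzero multiple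
  of `vac (str [-t_1, ..., -t_l] x)` (`vac_ans`): for `t > 0`, `an t = (2 (-1)^t)^{-1} φ_{-t}`; only the
  last entry can be `0` and `vac (an 0 y) = vac (φ_0 y)` because `vac (cr 0 y) = 0`.
-/

namespace Pool.Agent.Helper90.MVD

open Finset Pool.Agent.Helper60.MV

variable (F : Type) [Field F]

/-- the projection `p_0 p_1 ⋯ p_{B-1}` -/
private noncomputable def prj : ℕ → Fk F →ₗ[F] Fk F
  | 0 => LinearMap.id
  | B + 1 => (prj B).comp ((an F B).comp (cr F B))

private theorem prj_succ (B : ℕ) (y : Fk F) : prj F (B + 1) y = prj F B (an F B (cr F B y)) := rfl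

private theorem prj_one (B : ℕ) : prj F B 1 = 1 := by
  induction B with
  | zero => rfl
  | succ B ih => rw [prj_succ, an_cr, if_pos rfl, an_one, map_zero, sub_zero, ih]

private theorem prj_cr (B n : ℕ) (h : n < B) (y : Fk F) : prj F B (cr F n y) = 0 := by
  induction B generalizing y with
  | zero => omega
  | succ B ih =>
    rw [prj_succ]
    by_cases hn : n = B
    · subst hn
      rw [cr_cr_self, map_zero, map_zero]
    · rw [cr_cr, map_neg, an_cr, if_neg (Ne.symm hn), zero_sub, neg_neg]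
      exact ih (by omega) _

private theorem prj_vac (y : Fk F) : ∃ B₀ : ℕ, ∀ B, B₀ ≤ B → prj F B y = vac F y • (1 : Fk F) := by
  have hy : y ∈ Submodule.span F (Set.range (prb F)) := by
    rw [prb_span]
    exact Submodule.mem_top
  induction hy using Submodule.span_induction with
  | mem z hz =>
    obtain ⟨L, rfl⟩ := hz
    cases L with
    | nil => exact ⟨0, fun B _ => by rw [prb_nil, prj_one, vac_one, one_smul]⟩
    | cons k L =>
      refine ⟨k + 1, fun B hB => ?_⟩
      rw [prb_cons, prj_cr F B k (by omega), vac_cr, zero_smul]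
  | zero => exact ⟨0, fun B _ => by rw [map_zero, map_zero, zero_smul]⟩
  | add a b _ _ ha hb =>
    obtain ⟨B₁, h₁⟩ := ha
    obtain ⟨B₂, h₂⟩ := hb
    refine ⟨max B₁ B₂, fun B hB => ?_⟩
    rw [map_add, map_add, h₁ B (le_trans (le_max_left _ _) hB),
      h₂ B (le_trans (le_max_right _ _) hB), add_smul]
  | smul c a _ ha =>
    obtain ⟨B₁, h₁⟩ := ha
    refine ⟨B₁, fun B hB => ?_⟩
    rw [map_smul, map_smul, h₁ B hB, smul_eq_mul, mul_smul]

theorem eq_vac_of_an (x : Fk F) (h : ∀ n, an F n x = 0) : x = vac F x • (1 : Fk F) := by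
  have h1 : ∀ B, prj F B x = x := by
    intro B
    induction B with
    | zero => rfl
    | succ B ih => rw [prj_succ, an_cr, if_pos rfl, h, map_zero, sub_zero, ih]
  obtain ⟨B₀, hB⟩ := prj_vac F x
  rw [← hB B₀ le_rfl, h1]

private theorem vac_ans_cr (B : ℕ) (L : List ℕ) (hL : ∀ n ∈ L, n ≠ B) (z : Fk F) :
    vac F (ans F L (cr F B z)) = 0 := by
  induction L generalizing z with
  | nil => exact vac_cr F B z
  | cons n L ih =>
    change vac F (ans F L (an F n (cr F B z))) = 0
    rw [an_cr, if_neg (hL n List.mem_cons_self), zero_sub, map_neg, map_neg,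
      ih (fun m hm => hL m (List.mem_cons_of_mem _ hm)), neg_zero]

private theorem expand_aux (B : ℕ) : ∀ x : Fk F, (∀ n, B ≤ n → an F n x = 0) →
    x = ∑ T ∈ (range B).powerset,
      vac F (ans F (T.sort (· ≥ ·)) x) • prb F (T.sort (· ≥ ·)) := by
  induction B with
  | zero =>
    intro x hx
    have h := eq_vac_of_an F x (fun n => hx n (Nat.zero_le n))
    rw [range_zero, powerset_empty, sum_singleton, sort_empty, prb_nil]
    exact h
  | succ B ih =>
    intro x hx
    obtain ⟨x', hx'⟩ : ∃ x', x' = an F B x := ⟨_, rfl⟩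
    obtain ⟨y, hy⟩ : ∃ y, y = an F B (cr F B x) := ⟨_, rfl⟩
    have hdec : x = cr F B x' + y := by
      rw [hx', hy]
      exact cr_an_decomp F B x
    have h1 : ∀ n, B ≤ n → an F n x' = 0 := by
      intro n hn
      rw [hx']
      rcases Nat.eq_or_lt_of_le hn with h | h
      · rw [← h, an_an_self]
      · rw [an_an, hx n h, map_zero, neg_zero]
    have h2 : ∀ n, B ≤ n → an F n y = 0 := by
      intro n hn
      rw [hy]
      rcases Nat.eq_or_lt_of_le hn with h | h
      · rw [← h, an_an_self]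
      · rw [an_an, an_cr, if_neg (by omega), hx n h, map_zero, sub_zero, map_zero, neg_zero]
    have hlt : ∀ T ∈ (range B).powerset, ∀ n ∈ T, n < B := by
      intro T hT n hn
      exact mem_range.mp (mem_powerset.mp hT hn)
    have hy2 : ∀ T ∈ (range B).powerset,
        vac F (ans F (T.sort (· ≥ ·)) y) = vac F (ans F (T.sort (· ≥ ·)) x) := by
      intro T hT
      have hz := vac_ans_cr F B (T.sort (· ≥ ·)) (fun n hn => by
        have := hlt T hT n ((mem_sort _).mp hn)
        omega) x'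
      rw [hdec, map_add, map_add, hz, zero_add]
    rw [range_add_one, sum_powerset_insert (by simp)]
    have e1 : ∑ T ∈ (range B).powerset,
        vac F (ans F (T.sort (· ≥ ·)) x) • prb F (T.sort (· ≥ ·)) = y := by
      refine Eq.trans (sum_congr rfl (fun T hT => ?_)) (ih y h2).symm
      rw [hy2 T hT]
    have e2 : ∑ T ∈ (range B).powerset,
        vac F (ans F ((insert B T).sort (· ≥ ·)) x) • prb F ((insert B T).sort (· ≥ ·)) =
        cr F B x' := by
      refine Eq.trans ?_ (congrArg (cr F B) (ih x' h1)).symm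
      rw [map_sum]
      refine sum_congr rfl (fun T hT => ?_)
      rw [sort_insert (r := (· ≥ ·)) (fun b hb => (hlt T hT b hb).le)
        (fun hB => lt_irrefl _ (hlt T hT B hB)), prb_cons, map_smul, hx']
      rfl
    rw [e1, e2, add_comm]
    exact hdec

theorem expand (x : Fk F) : ∃ B₀ : ℕ, ∀ B, B₀ ≤ B →
    x = ∑ T ∈ (range B).powerset,
      vac F (ans F (T.sort (· ≥ ·)) x) • prb F (T.sort (· ≥ ·)) := by
  obtain ⟨B₀, hB₀⟩ := an_fin F x
  exact ⟨B₀, fun B hB => expand_aux F B x (fun n hn => hB₀ n (le_trans hB hn))⟩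

private theorem vac_ans_aux [CharZero F] (T : List ℕ) (hT : T.Pairwise (· > ·)) (x : Fk F) :
    vac F (ans F T x) =
      (T.map fun t => if t = 0 then (1 : F) else (1 / 2) * (-1) ^ t).prod *
        vac F (str F (List.map (fun t : ℕ => -(t : ℤ)) T) x) := by
  induction T generalizing x with
  | nil =>
    rw [List.map_nil, List.prod_nil, one_mul]
    rfl
  | cons t T ih =>
    rw [List.pairwise_cons] at hT
    rw [List.map_cons, List.prod_cons, List.map_cons]
    change vac F (ans F T (an F t x)) = _ * vac F (str F _ (phi F (-(t : ℤ)) x))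
    rw [ih hT.2]
    rcases Nat.eq_zero_or_pos t with h | h
    · subst h
      have hnil : T = [] := by
        rcases T with _ | ⟨a, T⟩
        · rfl
        · exact absurd (hT.1 a List.mem_cons_self) (Nat.not_lt_zero a)
      subst hnil
      rw [List.map_nil, List.map_nil, List.prod_nil, if_pos rfl, one_mul]
      change vac F (an F 0 x) = 1 * 1 * vac F (phi F (-((0 : ℕ) : ℤ)) x)
      rw [Nat.cast_zero, neg_zero, phi_zero, map_add, vac_cr, zero_add, one_mul, one_mul]
    · rw [if_neg (by omega), phi_neg F t h, map_smul, map_smul, smul_eq_mul]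
      have h4 : (1 / 2 * (-1) ^ t) * (2 * (-1) ^ t) = (1 : F) := by
        have h5 : ((-1 : F) ^ t) * (-1) ^ t = 1 := by
          rw [← mul_pow]
          norm_num
        calc (1 / 2 * (-1) ^ t) * (2 * (-1) ^ t) = (1 / 2 * 2) * (((-1 : F) ^ t) * (-1) ^ t) := by
              ring
          _ = 1 := by
              rw [h5]
              norm_num
      generalize vac F (str F (List.map (fun t : ℕ => -(t : ℤ)) T) (an F t x)) = v
      generalize (List.map (fun t => if t = 0 then (1 : F) else 1 / 2 * (-1) ^ t) T).prod = c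
      calc c * v = 1 * (c * v) := by ring
        _ = ((1 / 2 * (-1) ^ t) * (2 * (-1) ^ t)) * (c * v) := by rw [h4]
        _ = _ := by ring

private theorem map_neg_aux (T : List ℕ) :
    (T.map fun t => -(t : ℤ)) = List.map (fun t : ℕ => -(t : ℤ)) T := by
  change List.map (fun t : ℤ => -t) (List.flatMap (fun a : ℕ => [(a : ℤ)]) T) = _
  induction T with
  | nil => rfl
  | cons t T ih => rw [List.flatMap_cons, List.map_append, ih, List.map_cons]; rfl

theorem vac_ans [CharZero F] (T : List ℕ) (hT : T.Pairwise (· > ·)) (x : Fk F) :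
    vac F (ans F T x) =
      (T.map fun t => if t = 0 then (1 : F) else (1 / 2) * (-1) ^ t).prod *
        vac F (str F (T.map fun t => -(t : ℤ)) x) := by
  rw [map_neg_aux]
  exact vac_ans_aux F T hT x

theorem eq_of_vac [CharZero F] (x : Fk F) (h : ∀ L : List ℤ, vac F (str F L x) = 0) : x = 0 := by
  obtain ⟨B, hB⟩ := expand F x
  refine (hB B le_rfl).trans (sum_eq_zero (fun T _ => ?_))
  have hp : (T.sort (· ≥ ·)).Pairwise (· > ·) := by
    have h1 : (T.sort (· ≥ ·)).Pairwise (· ≥ ·) := pairwise_sort T (· ≥ ·)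
    have h2 : (T.sort (· ≥ ·)).Nodup := sort_nodup T (· ≥ ·)
    refine (h1.and h2).imp ?_
    intro a b hab
    exact lt_of_le_of_ne hab.1 (Ne.symm hab.2)
  rw [vac_ans F _ hp, h, mul_zero, zero_smul]

end Pool.Agent.Helper90.MVD
end

/- Helper90.MVD.WickJ -/
section
/-!
Module MVD-14 (project MV, block D2): moving the currents to the left.

* `str_cur`: `φ_m J_j x = J_j φ_m x - φ_{m+2j+1} x` (`cur_phi`); induction on `L`
  (`str (n :: L) = str L ∘ φ_n`; `Fin.sum_univ_succ`; `(n :: L).set 0 y = y :: L`,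
  `(n :: L).set (a+1) y = n :: L.set a y`).
* `vac_str_theta`: induction on the number of factors. First for `ρ = Fin r` (`Fin.prod_univ_succ`,
  `Θ (X j * f) = J j (Θ f)`), with `vac (J j y) = 0` (`vac_cur`, `j ≥ 0`):
  `vac (str ms (J_k y)) = - ∑_a vac (str (ms + (2k+1) 1_a) y)`; the functions
  `f : Fin (r+1) → Fin l` are pairs `(f 0, f ∘ succ)` (`Fin.consEquiv`/`Fin.insertNthEquiv`,
  `Fintype.sum_equiv`, `Fintype.sum_prod_type`). Then a general `ρ` by `Fintype.equivFin ρ`
  (or use `Fintype.induction_empty_option`).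
* `vac_bos`: `2 ((K i - 1)/2) + 1 = K i`; `(-1)^|ρ| = 1`; `vac_str`, `pfL_map`
  (`List.ofFn g = (List.finRange l).map g`), `algebraMap_zf`, `pfL_hom`, and the definitions of `XK`,
  `asg`. Note `-(2 S_a) + asg = asg - 2 S_a`.
-/

namespace Pool.Agent.Helper90.MVD

open Finset Pool.Agent.Helper60.MV

variable {F : Type} [Field F] [CharZero F] {J : ℤ → Fk F →ₗ[F] Fk F}

theorem str_cur (hJ : IsCur F J) (j : ℤ) (L : List ℤ) (x : Fk F) :
    str F L (J j x) = J j (str F L x) -
      ∑ a : Fin L.length, str F (L.set a (L.get a + (2 * j + 1))) x := by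
  induction L generalizing x with
  | nil =>
    simp [str]
  | cons n L ih =>
    have h1 : phi F n (J j x) = J j (phi F n x) - phi F (n + (2 * j + 1)) x := by
      rw [cur_phi hJ]
      abel
    have h2 : ∀ (m : ℤ) (L' : List ℤ) (y : Fk F), str F (m :: L') y = str F L' (phi F m y) := by
      intro m L' y
      rfl
    rw [h2, h1, map_sub, ih, h2]
    have h3 : ∑ a : Fin (n :: L).length, str F ((n :: L).set a ((n :: L).get a + (2 * j + 1))) x =
        str F L (phi F (n + (2 * j + 1)) x) +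
          ∑ a : Fin L.length, str F (L.set a (L.get a + (2 * j + 1))) (phi F n x) := by
      show ∑ a : Fin (L.length + 1), str F ((n :: L).set a ((n :: L).get a + (2 * j + 1))) x = _
      rw [Fin.sum_univ_succ]
      rfl
    rw [h3]
    abel

omit [CharZero F] in
private theorem set_ofFn {l : ℕ} (ms : Fin l → ℤ) (a : Fin l) (c : ℤ) :
    (List.ofFn ms).set (a : ℕ) (ms a + c) = List.ofFn fun b => ms b + if a = b then c else 0 := by
  apply List.ext_getElem
  · simp
  · intro i h1 h2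
    rw [List.getElem_set, List.getElem_ofFn, List.getElem_ofFn]
    by_cases h : (a : ℕ) = i
    · subst h
      simp
    · rw [if_neg h, if_neg, add_zero]
      intro hc
      exact h (congrArg Fin.val hc)

/-- the same for lists given by a function -/
theorem str_cur_ofFn (hJ : IsCur F J) (j : ℤ) {l : ℕ} (ms : Fin l → ℤ) (x : Fk F) :
    str F (List.ofFn ms) (J j x) = J j (str F (List.ofFn ms) x) -
      ∑ a : Fin l, str F (List.ofFn fun b => ms b + if a = b then 2 * j + 1 else 0) x := by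
  rw [str_cur hJ]
  congr 1
  refine Fintype.sum_equiv (finCongr List.length_ofFn) _ _ ?_
  intro a
  have h := set_ofFn ms (finCongr List.length_ofFn a) (2 * j + 1)
  rw [← h]
  have h2 : (List.ofFn ms).get a = ms (finCongr List.length_ofFn a) := by
    rw [List.get_eq_getElem, List.getElem_ofFn]
    rfl
  rw [h2]
  rfl

private theorem vac_str_theta_fin (hJ : IsCur F J) {Θ : MvPolynomial ℕ F →ₗ[F] Fk F}
    (hΘ : IsTheta F J Θ) {l : ℕ} (r : ℕ) : ∀ (k : Fin r → ℕ) (ms : Fin l → ℤ),
    vac F (str F (List.ofFn ms) (Θ (∏ i, MvPolynomial.X (k i)))) =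
      (-1) ^ r * ∑ f : Fin r → Fin l,
        vac F (str F (List.ofFn fun a => ms a + ∑ i, if f i = a then 2 * (k i : ℤ) + 1 else 0)
          1) := by
  induction r with
  | zero =>
    intro k ms
    rw [Finset.univ_eq_empty, Finset.prod_empty, hΘ.one, pow_zero, one_mul]
    simp
  | succ r ih =>
    intro k ms
    rw [Fin.prod_univ_succ, hΘ.mul, str_cur_ofFn hJ, map_sub, vac_cur hJ _ (Int.natCast_nonneg _),
      zero_sub, map_sum]
    have h1 : ∀ a : Fin l, vac F (str F (List.ofFn fun b => ms b +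
        if a = b then 2 * ((k 0 : ℕ) : ℤ) + 1 else 0) (Θ (∏ i : Fin r, MvPolynomial.X (k i.succ))))
        = (-1) ^ r * ∑ g : Fin r → Fin l, vac F (str F (List.ofFn fun b => ms b +
          ∑ i : Fin (r + 1), if (Fin.cons a g : Fin (r + 1) → Fin l) i = b then
            2 * (k i : ℤ) + 1 else 0) 1) := by
      intro a
      rw [ih (fun i => k i.succ)]
      congr 1
      refine Finset.sum_congr rfl fun g _ => ?_
      congr 4
      funext b
      rw [Fin.sum_univ_succ, Fin.cons_zero, add_assoc]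
      simp only [Fin.cons_succ]
    rw [Finset.sum_congr rfl fun a _ => h1 a, ← Finset.mul_sum, pow_succ]
    have h2 : ∑ a : Fin l, ∑ g : Fin r → Fin l, vac F (str F (List.ofFn fun b => ms b +
          ∑ i : Fin (r + 1), if (Fin.cons a g : Fin (r + 1) → Fin l) i = b then
            2 * (k i : ℤ) + 1 else 0) 1) = ∑ f : Fin (r + 1) → Fin l,
        vac F (str F (List.ofFn fun a => ms a + ∑ i, if f i = a then 2 * (k i : ℤ) + 1 else 0)
          1) := by
      rw [← (Fin.consEquiv fun _ : Fin (r + 1) => Fin l).sum_comp, Fintype.sum_prod_type]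
      rfl
    rw [h2]
    ring

theorem vac_str_theta (hJ : IsCur F J) {Θ : MvPolynomial ℕ F →ₗ[F] Fk F} (hΘ : IsTheta F J Θ)
    {ρ : Type} [Fintype ρ] [DecidableEq ρ] (k : ρ → ℕ) {l : ℕ} (ms : Fin l → ℤ) :
    vac F (str F (List.ofFn ms) (Θ (∏ i, MvPolynomial.X (k i)))) =
      (-1) ^ (Fintype.card ρ) * ∑ f : ρ → Fin l,
        vac F (str F (List.ofFn fun a => ms a + ∑ i, if f i = a then 2 * (k i : ℤ) + 1 else 0)
          1) := by
  have e := Fintype.equivFin ρ
  have h1 := vac_str_theta_fin hJ hΘ (l := l) (Fintype.card ρ) (fun i => k (e.symm i)) ms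
  have h2 : ∏ i : ρ, (MvPolynomial.X (k i) : MvPolynomial ℕ F) =
      ∏ i : Fin (Fintype.card ρ), MvPolynomial.X (k (e.symm i)) :=
    (e.symm.prod_comp fun i => (MvPolynomial.X (k i) : MvPolynomial ℕ F)).symm
  rw [h2, h1]
  congr 1
  refine Fintype.sum_equiv (e.symm.arrowCongr (Equiv.refl (Fin l))) _ _ ?_
  intro f
  congr 4
  funext a
  congr 1
  rw [← e.symm.sum_comp]
  refine Finset.sum_congr rfl fun i _ => ?_
  simp

theorem vac_bos [Algebra ℝ F] (hJ : IsCur F J) {Θ : MvPolynomial ℕ F →ₗ[F] Fk F}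
    (hΘ : IsTheta F J Θ) {ρ : Type} [Fintype ρ] (K : ρ → ℕ) (hK : ∀ i, Odd (K i))
    (hρ : Even (Fintype.card ρ)) (S : List ℕ) :
    vac F (str F (S.map fun n => -(2 * (n : ℤ))) (Θ (∏ i, MvPolynomial.X ((K i - 1) / 2)))) =
      algebraMap ℝ F (XK K S) := by
  classical
  have h0 : (S.map fun n => -(2 * (n : ℤ))) =
      List.map (fun n : ℕ => -(2 * (n : ℤ))) S := by
    rw [bind_pure_comp, List.map_eq_map, List.map_map]
    rfl
  have h1 : List.map (fun n : ℕ => -(2 * (n : ℤ))) S =
      List.ofFn fun a : Fin S.length => -(2 * ((S.get a : ℕ) : ℤ)) := by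
    conv_lhs => rw [← List.ofFn_get S]
    rw [List.map_ofFn]
    rfl
  rw [h0, h1, vac_str_theta hJ hΘ, hρ.neg_one_pow, one_mul, XK, map_sum]
  refine Finset.sum_congr rfl fun f _ => ?_
  rw [vac_str, List.ofFn_eq_map, pfL_map, pfL_hom]
  congr 1
  funext a b
  rw [algebraMap_zf]
  have h2 : ∀ c : Fin S.length, -(2 * ((S.get c : ℕ) : ℤ)) +
      ∑ i, (if f i = c then 2 * (((K i - 1) / 2 : ℕ) : ℤ) + 1 else 0) =
        (asg K f c : ℤ) - 2 * ((S.get c : ℕ) : ℤ) := by
    intro c
    unfold asg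
    rw [Nat.cast_sum, neg_add_eq_sub]
    congr 1
    refine Finset.sum_congr rfl fun i _ => ?_
    split_ifs
    · obtain ⟨m, hm⟩ := hK i
      omega
    · rfl
  rw [h2, h2]

/-- weight: `XK K S = 0` unless `2 ∑ S = ∑ K` -/
theorem XK_eq_zero {ρ : Type} [Fintype ρ] (K : ρ → ℕ) (S : List ℕ)
    (h : ∑ i, K i ≠ 2 * S.sum) : XK K S = 0 := by
  classical
  rw [XK]
  refine Finset.sum_eq_zero fun f _ => ?_
  refine pfL_weight (fun a => (asg K f a : ℤ) - 2 * (S.get a : ℤ)) _ ?_ _ ?_
  · intro a b hab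
    rw [zf, if_neg hab]
  · rw [← List.ofFn_eq_map, List.sum_ofFn, Finset.sum_sub_distrib, ← Finset.mul_sum]
    have h1 : ∑ a : Fin S.length, ((S.get a : ℕ) : ℤ) = (S.sum : ℤ) := by
      have h2 : ∑ a : Fin S.length, S.get a = S.sum := by
        rw [← List.sum_ofFn, List.ofFn_get]
      rw [← h2, Nat.cast_sum]
    have h3 : ∑ a : Fin S.length, ((asg K f a : ℕ) : ℤ) = ((∑ i, K i : ℕ) : ℤ) := by
      rw [← Nat.cast_sum]
      congr 1
      unfold asg
      rw [Finset.sum_comm]
      refine Finset.sum_congr rfl fun i _ => ?_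
      rw [Finset.sum_ite_eq, if_pos (Finset.mem_univ _)]
    rw [h1, h3]
    intro hc
    apply h
    omega

end Pool.Agent.Helper90.MVD
end

/- Helper90.MVD.D25 -/
section
/-!
Module MVD-8 (project MV, block D2): the values `Λ_s (e_{S_1} ∧ ... ∧ e_{S_l})`.

* `pf_psl`: `pfL (AS D) (psl N) = G` for `N` even: `psl N = (List.ofFn D.s)`-indexed; by `pfL_map`
  (`psl N = (List.ofFn id).map Sum.inl`, `List.ofFn D.s = (List.ofFn id).map D.s`,
  i.e. `List.finRange N`) it equals `pfL (fun x y => (x-y)/(x+y)) (List.ofFn D.s)`; then `schur_pf`,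
  `prs_ofFn`, definition of `D.G`.
* `pf_AS`: `exists_inv` for `A = AS D`, `ψ i = Sum.inl i` gives `Q`; `pfL_schur` with
  `y a k = ∑_j Q k j * AS D (inl j) a` (`∑_k y a k * σ_ik = ∑_j δ_ij AS (inl j) a`): the new array on
  `Sum.inr a, Sum.inr b` is `0 - ∑_k ∑_j Q k j * bc j a * bc k b`, and
  `bc j a = cc_a * bco a (1/s_j)` (`cc 0 = 1`), so it is `cc_a cc_b * M_ab`, `M_ab = QQ a b (t)` for
  `a > b` by `M_eq_QQ`. `pfL_map` (from the letters to numbers), `pfL_congr` (the list is strictly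
  decreasing), `pfL_scale`.
-/

namespace Pool.Agent.Helper90.MVD

open Finset Pool.Agent.Helper60.MV Pool.Agent.Helper52.MVD

theorem pf_psl {F : Type} [Field F] [Algebra ℝ F] {N : ℕ} (D : DF F N) (hN : Even N) :
    pfL (AS D) (psl N) = D.G := by
  have hc : CharZero F := charZero_of_real F
  have h1 : psl N = (List.ofFn (fun i : Fin N => i)).map Sum.inl := by
    rw [List.map_ofFn]
    rfl
  have h2 : List.ofFn D.s = (List.ofFn (fun i : Fin N => i)).map D.s := by
    rw [List.map_ofFn]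
    rfl
  have h3 : pfL (AS D) (psl N) = pfL (fun x y => (x - y) / (x + y)) (List.ofFn D.s) := by
    rw [h1, pfL_map, h2, pfL_map]
    rfl
  rw [h3, schur_pf _ (by rw [List.length_ofFn]; exact hN) (List.nodup_ofFn.2 (s_inj D)), prs_ofFn]
  · rfl
  · intro x hx
    rw [List.mem_ofFn] at hx
    obtain ⟨i, rfl⟩ := hx
    exact s_ne D i
  · intro x hx y hy
    rw [List.mem_ofFn] at hx hy
    obtain ⟨i, rfl⟩ := hx
    obtain ⟨j, rfl⟩ := hy
    exact s_add_ne D i j

/-- the coefficient `c_n` splits off from the pairing -/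
private theorem bc_eq {F : Type} [Field F] [Algebra ℝ F] {N : ℕ} (D : DF F N) (i : Fin N)
    (n : ℕ) : bc D i n = algebraMap ℝ F (cc n) * bco n (1 / D.s i) := by
  unfold bc bco kap
  split_ifs with h
  · subst h
    rw [mul_one, cc, prod_range_zero, map_one]
  · ring

theorem pf_AS {F : Type} [Field F] [Algebra ℝ F] {N : ℕ} (D : DF F N) (hN : Even N)
    (L : List ℕ) (hL : L.Pairwise (· > ·)) :
    pfL (AS D) (psl N ++ L.map Sum.inr) =
      D.G * (L.map fun n => algebraMap ℝ F (cc n)).prod *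
        MvPolynomial.aeval (tval D.s) (pfL QQ L) := by
  have hG : pfL (AS D) (List.ofFn fun i : Fin N => (Sum.inl i : Fin N ⊕ ℕ)) ≠ 0 := by
    have h := pf_psl D hN
    unfold psl at h
    rw [h]
    exact G_ne D
  obtain ⟨Q, hQ⟩ := exists_inv (AS D) (AS_self D) (AS_symm D)
    (fun i : Fin N => (Sum.inl i : Fin N ⊕ ℕ)) hG
  have h1 := pfL_schur (AS D) (AS_self D) (AS_symm D)
    (fun i : Fin N => (Sum.inl i : Fin N ⊕ ℕ)) (fun a k => ∑ j, Q k j * AS D (Sum.inl j) a)
    (L.map Sum.inr) (by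
      intro a _ i
      have h2 : ∀ k, (∑ j, Q k j * AS D (Sum.inl j) a) * AS D (Sum.inl i) (Sum.inl k) =
          ∑ j, (AS D (Sum.inl i) (Sum.inl k) * Q k j) * AS D (Sum.inl j) a := by
        intro k
        rw [sum_mul]
        refine sum_congr rfl fun j _ => ?_
        ring
      rw [sum_congr rfl fun k _ => h2 k, sum_comm]
      have h3 : ∀ j, ∑ k, (AS D (Sum.inl i) (Sum.inl k) * Q k j) * AS D (Sum.inl j) a =
          if i = j then AS D (Sum.inl j) a else 0 := by
        intro j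
        rw [← sum_mul, hQ i j, ite_mul, one_mul, zero_mul]
      rw [sum_congr rfl fun j _ => h3 j, sum_ite_eq, if_pos (mem_univ i)])
  have h4 := pf_psl D hN
  unfold psl at h4 ⊢
  rw [h1, h4, mul_assoc]
  congr 1
  rw [pfL_map]
  have h5 : MvPolynomial.aeval (tval D.s) (pfL QQ L) =
      pfL (fun a b => MvPolynomial.aeval (tval D.s) (QQ a b)) L :=
    pfL_hom ((MvPolynomial.aeval (tval D.s) : MvPolynomial ℕ ℝ →ₐ[ℝ] F) :
      MvPolynomial ℕ ℝ →+* F) QQ L
  rw [h5, ← pfL_scale (fun n => algebraMap ℝ F (cc n))]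
  refine pfL_congr _ _ L (hL.imp ?_)
  intro a b hab
  rw [← M_eq_QQ D hN Q hQ a b hab]
  show 0 - ∑ k, (∑ j, Q k j * bc D j a) * bc D k b = _
  rw [zero_sub, mul_neg, mul_sum]
  congr 1
  refine sum_congr rfl fun k _ => ?_
  rw [sum_mul, mul_sum]
  refine sum_congr rfl fun j _ => ?_
  rw [bc_eq, bc_eq]
  ring

end Pool.Agent.Helper90.MVD
end

/- Helper90.MVD.Heis -/
section
/-!
Module MVD-11 (project MV, block D2): Heisenberg relations of the currents.

Let `C := [J_i, J_j]` (as operators). From `cur_phi`,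
`[C, φ_n] = [J_i, [J_j, φ_n]] - [J_j, [J_i, φ_n]] = φ_{n+κ_i+κ_j} - φ_{n+κ_j+κ_i} = 0`: `C` commutes with
every `φ_n`, hence with every string.
* `cur_comm` (`i, j ≥ 0`): for every `L`, `vac (str L (C x)) = vac (C (str L x)) =
  vac (J_i J_j z) - vac (J_j J_i z) = 0` by `vac_cur`; `eq_of_vac` gives `C x = 0`.
* `cur_heis`: `i = -a-1`, `j = b` (`κ_i = -(2a+1)`, `κ_j = 2b+1`), `c := (2b+1)/2` if `a = b`, else `0`,
  `C' := C - c`. It commutes with all `φ_n`. By `phi_ind` it suffices that `C' 1 = 0`. `J_i 1 = 0`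
  (`cur_one`), so `C' 1 = J_i J_b 1 - c 1 =: y`. By `eq_of_vac` we need `vac (str L y) = 0` for all `L`.
  `str L y = C' (str L 1)`; if `L = n :: L'` with `n < 0` then `str L y = str L' (φ_n y)` and
  `φ_n y = C' (φ_n 1) = 0`. For a general list move the negative modes to the right with `phi_phi`
  (or: use instead `expand`/`eq_vac_of_an`: `an n y = 0` for `n > 0` because `φ_{-n} y = 0`, and
  `y = cr 0 (an 0 y) + an 0 (cr 0 y)`, with `an 0 y` and `an 0 (cr 0 y)` killed by all `an n`, hence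
  multiples of `1`: so `y = p 1 + q φ_0`, `p = vac y`, `q = vac (an 0 y) = vac (φ_0 y)`; it remains
  `vac y = 0` and `vac (φ_0 y) = 0`.)
  Compute: `J_b 1 = ½ ∑_{0≤r≤b} φ_{2b+1-2r} φ_{2r} 1` (the other terms of the sum over `Icc (-B) B`
  vanish on `1`), and with `cur_phi` and `J_i 1 = 0`:
  `J_i J_b 1 = ½ ∑_{0≤r≤b} (φ_{2b-2a-2r} φ_{2r} + φ_{2b+1-2r} φ_{2r-2a-1}) 1`.
  `vac` of a product of two modes is `zfF`: (`vac_str`) `vac (φ_n φ_m 1) = zfF m n`; so
  `vac (J_i J_b 1) = ½ ∑_r (zfF (2r) (2b-2a-2r) + zfF (2r-2a-1) (2b+1-2r))`: zero unless `a = b`; if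
  `a = b` the first sum is `1 + 2b` (`r = 0`: 1, `r > 0`: 2 each), the second is `0` since
  `2r-2a-1 < 0`. So `vac y = 0`. `vac (φ_0 y)`: three modes and one mode: `vac` of an odd string is `0`
  (`vac_str` and `pfL_odd`).
-/

namespace Pool.Agent.Helper90.MVD

open Finset Pool.Agent.Helper60.MV

variable {F : Type} [Field F] [CharZero F] {J : ℤ → Fk F →ₗ[F] Fk F}

private theorem cm_phi (hJ : IsCur F J) (i j n : ℤ) (x : Fk F) :
    J i (J j (phi F n x)) - J j (J i (phi F n x)) = phi F n (J i (J j x) - J j (J i x)) := by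
  have h1 : n + (2 * j + 1) + (2 * i + 1) = n + (2 * i + 1) + (2 * j + 1) := by ring
  rw [cur_phi hJ j n x, cur_phi hJ i n x, map_add, map_add, cur_phi hJ i n (J j x),
    cur_phi hJ j n (J i x), cur_phi hJ i (n + (2 * j + 1)) x, cur_phi hJ j (n + (2 * i + 1)) x,
    map_sub, h1]
  abel

private theorem cm_str (hJ : IsCur F J) (i j : ℤ) (L : List ℤ) (x : Fk F) :
    str F L (J i (J j x) - J j (J i x)) = J i (J j (str F L x)) - J j (J i (str F L x)) := by
  induction L generalizing x with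
  | nil => rfl
  | cons k L ih =>
    change str F L (phi F k (J i (J j x) - J j (J i x))) =
      J i (J j (str F L (phi F k x))) - J j (J i (str F L (phi F k x)))
    rw [← cm_phi hJ, ih]

theorem cur_comm (hJ : IsCur F J) (i j : ℤ) (hi : 0 ≤ i) (hj : 0 ≤ j) (x : Fk F) :
    J i (J j x) = J j (J i x) := by
  rw [← sub_eq_zero]
  apply eq_of_vac
  intro L
  rw [cm_str hJ, map_sub, vac_cur hJ i hi, vac_cur hJ j hj, sub_zero]

private theorem vac_two (m n : ℤ) : vac F (phi F n (phi F m 1)) = zfF F m n := by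
  have h := vac_str F [m, n]
  rw [pfL_pair] at h
  exact h

private theorem vac_three (m n k : ℤ) : vac F (phi F k (phi F n (phi F m 1))) = 0 := by
  have h := vac_str F [m, n, k]
  rw [pfL_odd (zfF F) [m, n, k] ⟨1, rfl⟩] at h
  exact h

private theorem vac_single (m : ℤ) : vac F (phi F m 1) = 0 := by
  have h := vac_str F [m]
  rw [pfL_odd (zfF F) [m] ⟨0, rfl⟩] at h
  exact h

private theorem two_modes (hJ : IsCur F J) (i m n : ℤ) (hi : i < 0) :
    J i (phi F n (phi F m 1)) =
      phi F n (phi F (m + (2 * i + 1)) 1) + phi F (n + (2 * i + 1)) (phi F m 1) := by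
  rw [cur_phi hJ, cur_phi hJ, cur_one hJ i hi, map_zero, zero_add]

private theorem JJ_one (hJ : IsCur F J) (a b : ℕ) : ∃ B₀ : ℕ, ∀ B : ℕ, B₀ ≤ B →
    J (-(a : ℤ) - 1) (J b 1) = (1 / 2 : F) • ∑ r ∈ Icc (-(B : ℤ)) B,
      (phi F (2 * (b : ℤ) + 1 - 2 * r) (phi F (2 * r + (2 * (-(a : ℤ) - 1) + 1)) 1) +
        phi F (2 * (b : ℤ) + 1 - 2 * r + (2 * (-(a : ℤ) - 1) + 1)) (phi F (2 * r) 1)) := by
  obtain ⟨B₀, h0⟩ := hJ b 1
  refine ⟨B₀, fun B hB => ?_⟩
  rw [h0 B hB, map_smul, map_sum]
  congr 1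
  refine Finset.sum_congr rfl fun r _ => ?_
  rw [two_modes hJ _ _ _ (by omega)]

private theorem term_eq (a : ℕ) (r : ℤ) :
    zfF F (2 * r + (2 * (-(a : ℤ) - 1) + 1)) (2 * (a : ℤ) + 1 - 2 * r) +
      zfF F (2 * r) (2 * (a : ℤ) + 1 - 2 * r + (2 * (-(a : ℤ) - 1) + 1)) =
      if 0 ≤ r ∧ r ≤ a then (2 - (if r = 0 then 1 else 0) : F) else 0 := by
  have hodd : (-1 : F) ^ (2 * r + (2 * (-(a : ℤ) - 1) + 1)).natAbs = -1 := by
    have : Odd (2 * r + (2 * (-(a : ℤ) - 1) + 1)).natAbs := by
      rw [Int.natAbs_odd]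
      exact ⟨r - a - 1, by omega⟩
    exact this.neg_one_pow
  have heven : (-1 : F) ^ (2 * r).natAbs = 1 := by
    have : Even (2 * r).natAbs := by
      rw [Int.natAbs_even]
      exact even_two_mul r
    exact this.neg_one_pow
  have e1 : zfF F (2 * r + (2 * (-(a : ℤ) - 1) + 1)) (2 * (a : ℤ) + 1 - 2 * r) =
      if (a : ℤ) < r then -2 else 0 := by
    unfold zfF
    rw [if_pos (by omega), if_neg (by omega), hodd]
    by_cases h : (a : ℤ) < r
    · rw [if_pos (by omega), if_pos h]
      norm_num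
    · rw [if_neg (by omega), if_neg h]
  have e2 : zfF F (2 * r) (2 * (a : ℤ) + 1 - 2 * r + (2 * (-(a : ℤ) - 1) + 1)) =
      if r = 0 then 1 else if 0 < r then 2 else 0 := by
    unfold zfF
    rw [if_pos (by omega), heven]
    rcases lt_trichotomy r 0 with h | h | h
    · rw [if_neg (by omega), if_neg (by omega), if_neg (by omega), if_neg (by omega)]
    · rw [if_pos (by omega), if_pos (by omega)]
    · rw [if_neg (by omega), if_pos (by omega), if_neg (by omega), if_pos (by omega)]
      norm_num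
  rw [e1, e2]
  rcases lt_trichotomy r 0 with h | h | h
  · rw [if_neg (by omega), if_neg (by omega), if_neg (by omega), if_neg (by omega), add_zero]
  · subst h
    rw [if_neg (by omega), if_pos rfl, if_pos ⟨le_rfl, by omega⟩, if_pos rfl]
    norm_num
  · by_cases h2 : r ≤ a
    · rw [if_neg (by omega), if_neg (by omega), if_pos h, if_pos ⟨h.le, h2⟩,
        if_neg (by omega)]
      norm_num
    · rw [if_pos (by omega), if_neg (by omega), if_pos h, if_neg (by omega)]
      norm_num

omit [CharZero F] in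
private theorem sum_term (a B : ℕ) (hB : a ≤ B) :
    ∑ r ∈ Icc (-(B : ℤ)) B, (if 0 ≤ r ∧ r ≤ a then (2 - (if r = 0 then 1 else 0) : F) else 0) =
      2 * (a : F) + 1 := by
  have h1 : ∑ r ∈ Icc (-(B : ℤ)) B,
      (if 0 ≤ r ∧ r ≤ a then (2 - (if r = 0 then 1 else 0) : F) else 0) =
      ∑ r ∈ Icc (0 : ℤ) a, (2 - (if r = 0 then 1 else 0) : F) := by
    rw [← Finset.sum_filter]
    refine Finset.sum_congr ?_ fun _ _ => rfl
    ext r
    rw [Finset.mem_filter, Finset.mem_Icc, Finset.mem_Icc]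
    omega
  rw [h1, Finset.sum_sub_distrib, Finset.sum_const, Finset.sum_ite_eq' (Icc (0 : ℤ) a) 0,
    if_pos (Finset.mem_Icc.2 ⟨le_rfl, by omega⟩), Int.card_Icc]
  have h2 : ((a : ℤ) + 1 - 0).toNat = a + 1 := by omega
  rw [h2, nsmul_eq_mul]
  push_cast
  ring

private theorem vac_JJ (hJ : IsCur F J) (a b : ℕ) :
    vac F (J (-(a : ℤ) - 1) (J b 1)) = if a = b then (2 * (b : F) + 1) / 2 else 0 := by
  obtain ⟨B₀, h0⟩ := JJ_one hJ a b
  rw [h0 (B₀ + a) (by omega), map_smul, map_sum]
  have h1 : ∀ r : ℤ, vac F (phi F (2 * (b : ℤ) + 1 - 2 * r)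
      (phi F (2 * r + (2 * (-(a : ℤ) - 1) + 1)) 1) +
        phi F (2 * (b : ℤ) + 1 - 2 * r + (2 * (-(a : ℤ) - 1) + 1)) (phi F (2 * r) 1)) =
      zfF F (2 * r + (2 * (-(a : ℤ) - 1) + 1)) (2 * (b : ℤ) + 1 - 2 * r) +
      zfF F (2 * r) (2 * (b : ℤ) + 1 - 2 * r + (2 * (-(a : ℤ) - 1) + 1)) := by
    intro r
    rw [map_add, vac_two, vac_two]
  rw [Finset.sum_congr rfl fun r _ => h1 r]
  by_cases hab : a = b
  · subst hab
    rw [if_pos rfl, Finset.sum_congr rfl fun r _ => term_eq a r, sum_term a (B₀ + a) (by omega),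
      smul_eq_mul]
    ring
  · rw [if_neg hab, Finset.sum_eq_zero, smul_zero]
    intro r _
    unfold zfF
    rw [if_neg (by omega), if_neg (by omega), add_zero]

private theorem vac_phiJJ (hJ : IsCur F J) (a b : ℕ) :
    vac F (phi F 0 (J (-(a : ℤ) - 1) (J b 1))) = 0 := by
  obtain ⟨B₀, h0⟩ := JJ_one hJ a b
  rw [h0 B₀ le_rfl, map_smul, map_smul, map_sum, map_sum, Finset.sum_eq_zero, smul_zero]
  intro r _
  rw [map_add, map_add, vac_three, vac_three, add_zero]

theorem cur_heis (hJ : IsCur F J) (a b : ℕ) (x : Fk F) :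
    J (-(a : ℤ) - 1) (J b x) = J b (J (-(a : ℤ) - 1) x) +
      (if a = b then (2 * (b : F) + 1) / 2 else 0) • x := by
  set c : F := if a = b then (2 * (b : F) + 1) / 2 else 0 with hc
  set i : ℤ := -(a : ℤ) - 1 with hi
  have hphi : ∀ (n : ℤ) (x : Fk F),
      J i (J b (phi F n x)) - J b (J i (phi F n x)) - c • phi F n x =
        phi F n (J i (J b x) - J b (J i x) - c • x) := by
    intro n x
    rw [cm_phi hJ, map_sub (phi F n) (J i (J b x) - J b (J i x)), map_smul]
  -- the value at the vacuum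
  set y : Fk F := J i (J b 1) - J b (J i 1) - c • (1 : Fk F) with hy
  have hJi : J i (1 : Fk F) = 0 := cur_one hJ i (by omega)
  have hy' : y = J i (J b 1) - c • (1 : Fk F) := by
    rw [hy, hJi, map_zero, sub_zero]
  have han : ∀ n : ℕ, 0 < n → an F n y = 0 := by
    intro n hn
    have h1 : phi F (-(n : ℤ)) y = 0 := by
      rw [hy, ← hphi, phi_one_neg F _ (by omega)]
      simp only [map_zero, smul_zero, sub_zero]
    rw [phi_neg F n hn] at h1
    rcases smul_eq_zero.1 h1 with h2 | h2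
    · exfalso
      have : (-1 : F) ^ n ≠ 0 := pow_ne_zero _ (by norm_num)
      have h3 : (2 : F) ≠ 0 := two_ne_zero
      exact (mul_ne_zero h3 this) h2
    · exact h2
  have hvac : vac F y = 0 := by
    rw [hy', map_sub, map_smul, vac_one, vac_JJ hJ, smul_eq_mul, mul_one, hc, sub_self]
  have hvac0 : vac F (an F 0 y) = 0 := by
    have h1 : vac F (phi F 0 y) = 0 := by
      rw [hy', map_sub, map_sub, vac_phiJJ hJ, map_smul, map_smul, vac_single, smul_zero, sub_zero]
    rw [phi_zero, map_add, vac_cr, zero_add] at h1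
    exact h1
  have hu : an F 0 y = 0 := by
    have h1 := eq_vac_of_an F (an F 0 y) (fun n => by
      rcases Nat.eq_zero_or_pos n with h | h
      · subst h
        exact an_an_self F 0 y
      · rw [an_an, han n h, map_zero, neg_zero])
    rw [h1, hvac0, zero_smul]
  have hy0 : y = 0 := by
    have h1 := eq_vac_of_an F y (fun n => by
      rcases Nat.eq_zero_or_pos n with h | h
      · subst h
        exact hu
      · exact han n h)
    rw [h1, hvac, zero_smul]
  have key : ∀ x : Fk F, J i (J b x) - J b (J i x) - c • x = 0 := by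
    refine phi_ind F _ ?_ ?_ ?_ ?_
    · exact hy0
    · intro x z hx hz
      have : J i (J b (x + z)) - J b (J i (x + z)) - c • (x + z) =
          (J i (J b x) - J b (J i x) - c • x) + (J i (J b z) - J b (J i z) - c • z) := by
        simp only [map_add, smul_add]
        abel
      rw [this, hx, hz, add_zero]
    · intro d x hx
      have : J i (J b (d • x)) - J b (J i (d • x)) - c • (d • x) =
          d • (J i (J b x) - J b (J i x) - c • x) := by
        simp only [map_smul, smul_sub]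
        rw [smul_comm c d x]
      rw [this, hx, smul_zero]
    · intro n x hx
      rw [hphi, hx, map_zero]
  have h := key x
  rw [sub_eq_zero, sub_eq_iff_eq_add] at h
  rw [h, add_comm]

end Pool.Agent.Helper90.MVD
end
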