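import Pool.Agent.Helper16.LGG.G05
import Pool.Agent.Helper16.LGG.G06
import Pool.Agent.Helper16.LGG.G07

/- Helper52.MVD.DerE -/
section
/-!
Project MV, block D1, module D1-5: the derivative of the Gaussian expectation with respect to `s_i`.

Proof. Put `c_kl = (s_k + s_l)⁻¹`; `d_i c_kl = - c_kl² (δ_ik + δ_il)`. Both sides, as functions of
`g : MvPolynomial (Fin N × Fin N) ℝ`, `Ψ g = d_i (E (map g))` and
`Φ g = - E ((X²)_ii * map g) + ∑_j c_ij E (map g)`, are additive, vanish for `g = C a` (`d_i` of a real constant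
is 0 ; `E ((X²)_ii) = ∑_m E (X_im X_mi) = ∑_m c_im`), and satisfy the same recursion
`Ψ (X_kl g) = - (δ_ik + δ_il) c_kl² E (map ∂_lk g) + c_kl Ψ (∂_lk g)` (`hE.step`, `∂` commutes with `map`);
for `Φ`: `E ((X²)_ii X_kl g) = c_kl E (∂_lk ((X²)_ii) g) + c_kl E ((X²)_ii ∂_lk g)`,
`∂_lk (X²)_ii = δ_li X_ki + δ_ki X_il`, and `E (X_ki ∘) = c_ki E (∂_ik ∘)`, `E (X_il ∘) = c_il E (∂_li ∘)`.
Induct on the total degree (or on monomials, e.g. `MvPolynomial.induction_on'''` with a statement for all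
polynomials of total degree `< n`, since `∂_lk g` has smaller degree than `X_kl g`).
-/

namespace Pool.Agent.Helper52.MVD

open Finset Pool.Agent.Helper60.MV

private theorem derE_pd {F : Type} [Field F] {N : ℕ} (i k l : Fin N) :
    MvPolynomial.pderiv (l, k) ((XM N F ^ 2) i i) =
      (if i = l then MvPolynomial.X (k, i) else 0) +
        (if i = k then MvPolynomial.X (i, l) else (0 : MX N F)) := by
  rw [sq, Matrix.mul_apply, map_sum]
  simp only [XM, MvPolynomial.pderiv_mul, MvPolynomial.pderiv_X, Pi.single_apply,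
    Prod.mk.injEq, Finset.sum_add_distrib]
  congr 1
  · by_cases h : i = l
    · simp [h]
    · simp [h]
  · by_cases h : i = k
    · simp [h]
    · simp [h]

private theorem derE_EP {F : Type} [Field F] {N : ℕ} {s : Fin N → F} {E : MX N F →ₗ[F] F}
    (hE : IsMat s E) (i : Fin N) :
    E ((XM N F ^ 2) i i) = ∑ j, (s i + s j)⁻¹ := by
  rw [sq, Matrix.mul_apply, map_sum]
  refine Finset.sum_congr rfl (fun m _ => ?_)
  show E (MvPolynomial.X (i, m) * MvPolynomial.X (m, i)) = _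
  rw [hE.step, MvPolynomial.pderiv_X_self, hE.one, mul_one]

private theorem derE_dP {F : Type} [Field F] {N : ℕ} {s : Fin N → F} {E : MX N F →ₗ[F] F}
    (hE : IsMat s E) (i k l : Fin N) (h : MX N F) :
    E (MvPolynomial.pderiv (l, k) ((XM N F ^ 2) i i) * h) =
      ((if i = k then 1 else 0) + (if i = l then 1 else 0)) *
        ((s k + s l)⁻¹ * E (MvPolynomial.pderiv (l, k) h)) := by
  rw [derE_pd, add_mul, map_add, add_mul, add_comm]
  congr 1
  · by_cases hk : i = k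
    · subst hk
      rw [if_pos rfl, if_pos rfl, hE.step, one_mul]
    · rw [if_neg hk, if_neg hk, zero_mul, map_zero, zero_mul]
  · by_cases hl : i = l
    · subst hl
      rw [if_pos rfl, if_pos rfl, hE.step, one_mul]
    · rw [if_neg hl, if_neg hl, zero_mul, map_zero, zero_mul]

private theorem derE_dinv {F : Type} [Field F] [Algebra ℝ F] {N : ℕ} (D : DF F N)
    (i k l : Fin N) :
    D.d i ((D.s k + D.s l)⁻¹) =
      -(((if i = k then 1 else 0) + (if i = l then 1 else 0)) *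
        ((D.s k + D.s l)⁻¹ * (D.s k + D.s l)⁻¹)) := by
  rw [Derivation.leibniz_inv, map_add, D.ds, D.ds, smul_eq_mul]
  ring

private theorem derE_step {F : Type} [Field F] [Algebra ℝ F] {N : ℕ} (D : DF F N)
    (E : MX N F →ₗ[F] F) (hE : IsMat D.s E) (i k l : Fin N)
    (g : MvPolynomial (Fin N × Fin N) ℝ)
    (hg : D.d i (E (MvPolynomial.map (algebraMap ℝ F) (MvPolynomial.pderiv (l, k) g))) =
      -E ((XM N F ^ 2) i i *
          MvPolynomial.map (algebraMap ℝ F) (MvPolynomial.pderiv (l, k) g)) +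
        (∑ j, (D.s i + D.s j)⁻¹) *
          E (MvPolynomial.map (algebraMap ℝ F) (MvPolynomial.pderiv (l, k) g))) :
    D.d i (E (MvPolynomial.map (algebraMap ℝ F) (MvPolynomial.X (k, l) * g))) =
      -E ((XM N F ^ 2) i i * MvPolynomial.map (algebraMap ℝ F) (MvPolynomial.X (k, l) * g)) +
        (∑ j, (D.s i + D.s j)⁻¹) *
          E (MvPolynomial.map (algebraMap ℝ F) (MvPolynomial.X (k, l) * g)) := by
  rw [map_mul, MvPolynomial.map_X, hE.step, Derivation.leibniz, MvPolynomial.pderiv_map, hg,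
    mul_left_comm, hE.step, MvPolynomial.pderiv_mul, MvPolynomial.pderiv_map, map_add,
    derE_dP hE, MvPolynomial.pderiv_map, derE_dinv, smul_eq_mul, smul_eq_mul]
  ring

private theorem derE_mon {F : Type} [Field F] [Algebra ℝ F] {N : ℕ} (D : DF F N)
    (E : MX N F →ₗ[F] F) (hE : IsMat D.s E) (i : Fin N) :
    ∀ (n : ℕ) (u : Fin N × Fin N →₀ ℕ), u.degree ≤ n → ∀ a : ℝ,
    D.d i (E (MvPolynomial.map (algebraMap ℝ F) (MvPolynomial.monomial u a))) =
      -E ((XM N F ^ 2) i i *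
          MvPolynomial.map (algebraMap ℝ F) (MvPolynomial.monomial u a)) +
        (∑ j, (D.s i + D.s j)⁻¹) *
          E (MvPolynomial.map (algebraMap ℝ F) (MvPolynomial.monomial u a)) := by
  have hC : ∀ a : ℝ, D.d i (E (MvPolynomial.map (algebraMap ℝ F) (MvPolynomial.C a))) =
      -E ((XM N F ^ 2) i i *
          MvPolynomial.map (algebraMap ℝ F) (MvPolynomial.C a)) +
        (∑ j, (D.s i + D.s j)⁻¹) *
          E (MvPolynomial.map (algebraMap ℝ F) (MvPolynomial.C a)) := by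
    intro a
    rw [MvPolynomial.map_C, mul_comm _ (MvPolynomial.C _), MvPolynomial.C_mul', map_smul,
      derE_EP hE, ← mul_one (MvPolynomial.C _), MvPolynomial.C_mul', map_smul, hE.one,
      smul_eq_mul, smul_eq_mul, mul_one, Derivation.map_algebraMap]
    ring
  intro n
  induction n with
  | zero =>
    intro u hu a
    have h0 : u = 0 := by
      rw [← Finsupp.degree_eq_zero_iff]
      omega
    subst h0
    exact hC a
  | succ n ih =>
    intro u hu a
    by_cases h0 : u = 0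
    · subst h0
      exact hC a
    · obtain ⟨⟨k, l⟩, hkl⟩ : ∃ p, p ∈ u.support := by
        by_contra hcon
        push Not at hcon
        apply h0
        ext p
        have := hcon p
        rw [Finsupp.notMem_support_iff] at this
        simpa using this
      rw [Finsupp.mem_support_iff] at hkl
      have hle : Finsupp.single (k, l) 1 ≤ u := by
        rw [Finsupp.single_le_iff]
        omega
      set w := u - Finsupp.single (k, l) 1 with hw
      have hu2 : u = Finsupp.single (k, l) 1 + w := by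
        rw [hw, add_tsub_cancel_of_le hle]
      have hdeg : w.degree ≤ n := by
        have := congrArg Finsupp.degree hu2
        rw [map_add, Finsupp.degree_single] at this
        omega
      have hmon : (MvPolynomial.monomial u a : MvPolynomial (Fin N × Fin N) ℝ) =
          MvPolynomial.X (k, l) * MvPolynomial.monomial w a := by
        rw [hu2, MvPolynomial.X, MvPolynomial.monomial_mul, one_mul]
      rw [hmon]
      apply derE_step D E hE
      rw [MvPolynomial.pderiv_monomial]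
      apply ih
      refine le_trans ?_ hdeg
      exact Finsupp.degree_mono tsub_le_self

theorem d_E {F : Type} [Field F] [Algebra ℝ F] {N : ℕ} (D : DF F N) (E : MX N F →ₗ[F] F)
    (hE : IsMat D.s E) (i : Fin N) (g : MvPolynomial (Fin N × Fin N) ℝ) :
    D.d i (E (MvPolynomial.map (algebraMap ℝ F) g)) =
      -E ((XM N F ^ 2) i i * MvPolynomial.map (algebraMap ℝ F) g) +
        (∑ j, (D.s i + D.s j)⁻¹) * E (MvPolynomial.map (algebraMap ℝ F) g) := by
  induction g using MvPolynomial.induction_on' with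
  | monomial u a => exact derE_mon D E hE i _ u le_rfl a
  | add p q hp hq =>
    rw [map_add, map_add, map_add, hp, hq, mul_add, map_add]
    ring

private theorem derE_XM {F : Type} [Field F] [Algebra ℝ F] {N : ℕ} (m : ℕ) (i j : Fin N) :
    ∃ g : MvPolynomial (Fin N × Fin N) ℝ,
      MvPolynomial.map (algebraMap ℝ F) g = (XM N F ^ m) i j := by
  induction m generalizing i j with
  | zero =>
    refine ⟨if i = j then 1 else 0, ?_⟩
    rw [pow_zero, Matrix.one_apply]
    split_ifs <;> simp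
  | succ m ih =>
    choose g hg using ih
    refine ⟨∑ k, g i k * MvPolynomial.X (k, j), ?_⟩
    rw [pow_succ, Matrix.mul_apply, map_sum]
    refine Finset.sum_congr rfl (fun k _ => ?_)
    rw [map_mul, hg, MvPolynomial.map_X]
    rfl

private theorem derE_subT {F : Type} [Field F] [Algebra ℝ F] {N : ℕ}
    (f : MvPolynomial ℕ ℝ) : ∃ g : MvPolynomial (Fin N × Fin N) ℝ,
      MvPolynomial.map (algebraMap ℝ F) g = subT N F f := by
  induction f using MvPolynomial.induction_on with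
  | C a =>
    refine ⟨MvPolynomial.C a, ?_⟩
    rw [MvPolynomial.map_C, subT, MvPolynomial.aeval_C]
    rfl
  | add p q hp hq =>
    obtain ⟨g, hg⟩ := hp
    obtain ⟨h, hh⟩ := hq
    exact ⟨g + h, by rw [map_add, map_add, hg, hh]⟩
  | mul_X p j hp =>
    obtain ⟨g, hg⟩ := hp
    choose w hw using fun k : Fin N => derE_XM (F := F) (N := N) (2 * j + 1) k k
    refine ⟨g * ∑ k, w k, ?_⟩
    rw [map_mul, map_mul, hg, map_sum]
    congr 1
    rw [subT, MvPolynomial.aeval_X, pt]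
    exact Finset.sum_congr rfl (fun k _ => hw k)

/-- powers of the generic matrix and the polynomials `subT f` have real coefficients -/
theorem exists_map {F : Type} [Field F] [Algebra ℝ F] {N : ℕ} (m : ℕ) (i j : Fin N)
    (f : MvPolynomial ℕ ℝ) : ∃ g : MvPolynomial (Fin N × Fin N) ℝ,
      MvPolynomial.map (algebraMap ℝ F) g = (XM N F ^ m) i j * subT N F f := by
  obtain ⟨g, hg⟩ := derE_XM (F := F) m i j
  obtain ⟨h, hh⟩ := derE_subT (F := F) (N := N) f
  exact ⟨g * h, by rw [map_mul, hg, hh]⟩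

end Pool.Agent.Helper52.MVD
end

/- Helper52.MVD.Rec -/
section
/-!
Project MV, block D1, module D1-7: the recursion for `b_i^{(m)} = G ⟨(X^{2m})_ii f⟩`.

* `d_G`: `d_i G = G ∑_{j ≠ i} (1/(s_i - s_j) - 1/(s_i + s_j))` (logarithmic derivative of the product; the factor of a
  pair not containing `i` is constant for `d_i`; the factor `(s_k - s_l)/(s_k + s_l)`, `k < l`, contributes for
  `i = k`: `1/(s_i - s_l) - 1/(s_i + s_l)`, for `i = l`: `-1/(s_k - s_i) - 1/(s_k + s_i) =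
  1/(s_i - s_k) - 1/(s_i + s_k)`).
* `b_rec`: let `a_i^{(m)} = E ((X^{2m})_ii subT f)`. `(X^{2m+2})_ii = ∑_j (X²)_ij (X^{2m})_ji`; the term `j = i` is, by `d_E`
  and `exists_map`, `-d_i a_i^{(m)} + ∑_j (s_i + s_j)⁻¹ a_i^{(m)}` (`j = i` included: `(2 s_i)⁻¹`), the others are
  given by `ward2`. So `a_i^{(m+1)} = -d_i a_i^{(m)} + ∑_j (s_i+s_j)⁻¹ a_i^{(m)} - ∑_{j≠i} (a_i^{(m)} - a_j^{(m)})/(s_i - s_j)`.
  Multiply by `G` and use `G d_i a = d_i (G a) - (d_i G) a`, `d_G`: everything cancels except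
  `-d_i b + b/(2 s_i) + ∑_{j≠i} b_j/(s_i - s_j)`, and `DD i b = d_i b - b/(2 s_i)`.
-/

namespace Pool.Agent.Helper52.MVD

open Finset Pool.Agent.Helper60.MV

variable {F : Type} [Field F] [Algebra ℝ F] {N : ℕ}

private theorem rec_dprod (δ : Derivation ℝ F F) {α : Type} (t : Finset α) (x : α → F)
    (hx : ∀ a ∈ t, x a ≠ 0) : δ (∏ a ∈ t, x a) = (∏ a ∈ t, x a) * ∑ a ∈ t, δ (x a) / x a := by
  classical
  induction t using Finset.induction_on with
  | empty => simp
  | insert a t ha ih =>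
    rw [Finset.prod_insert ha, Finset.sum_insert ha, Derivation.leibniz,
      ih (fun b hb => hx b (Finset.mem_insert_of_mem hb)), smul_eq_mul, smul_eq_mul]
    have h := hx a (Finset.mem_insert_self a t)
    field_simp
    ring

private theorem rec_pair (D : DF F N) (i : Fin N) {k l : Fin N} (hkl : k ≠ l) :
    D.d i ((D.s k - D.s l) / (D.s k + D.s l)) / ((D.s k - D.s l) / (D.s k + D.s l)) =
      (if i = k then 1 / (D.s k - D.s l) - 1 / (D.s k + D.s l) else 0) +
      (if i = l then 1 / (D.s l - D.s k) - 1 / (D.s l + D.s k) else 0) := by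
  have h1 := D.sub_ne hkl
  have h1' := D.sub_ne hkl.symm
  have h2 := D.add_ne k l
  have h2' := D.add_ne l k
  rw [div_eq_mul_inv (D.s k - D.s l) (D.s k + D.s l), Derivation.leibniz, Derivation.leibniz_inv,
    map_add, map_sub, D.ds, D.ds, smul_eq_mul, smul_eq_mul, smul_eq_mul]
  have e1 : D.s l - D.s k = -(D.s k - D.s l) := by ring
  have e2 : D.s l + D.s k = D.s k + D.s l := by ring
  rw [e1, e2]
  generalize D.s k - D.s l = u at *
  generalize D.s k + D.s l = v at *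
  by_cases hk : i = k
  · by_cases hl : i = l
    · exact absurd (hk.symm.trans hl) hkl
    · simp only [hk, if_true, if_neg (show ¬ k = l from hkl)]
      field_simp
      ring
  · by_cases hl : i = l
    · simp only [if_neg hk, hl, if_true, if_neg (show ¬ l = k from hkl.symm)]
      field_simp
      ring
    · simp only [if_neg hk, if_neg hl]
      simp

theorem d_G (D : DF F N) (i : Fin N) : D.d i D.G =
    D.G * ∑ j ∈ univ.erase i, (1 / (D.s i - D.s j) - 1 / (D.s i + D.s j)) := by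
  classical
  have hx : ∀ k : Fin N, ∀ l ∈ Ioi k, (D.s k - D.s l) / (D.s k + D.s l) ≠ 0 := by
    intro k l hl
    exact div_ne_zero (D.sub_ne (ne_of_lt (mem_Ioi.mp hl))) (D.add_ne k l)
  unfold DF.G
  rw [rec_dprod (D.d i) univ _ (fun k _ => Finset.prod_ne_zero_iff.mpr (hx k))]
  congr 1
  have hk : ∀ k : Fin N, D.d i (∏ l ∈ Ioi k, (D.s k - D.s l) / (D.s k + D.s l)) /
      (∏ l ∈ Ioi k, (D.s k - D.s l) / (D.s k + D.s l)) =
      ∑ l ∈ Ioi k, ((if i = k then 1 / (D.s k - D.s l) - 1 / (D.s k + D.s l) else 0) +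
      (if i = l then 1 / (D.s l - D.s k) - 1 / (D.s l + D.s k) else 0)) := by
    intro k
    rw [rec_dprod (D.d i) _ _ (hx k), mul_div_cancel_left₀ _ (Finset.prod_ne_zero_iff.mpr (hx k))]
    exact Finset.sum_congr rfl (fun l hl => rec_pair D i (ne_of_lt (mem_Ioi.mp hl)))
  rw [Finset.sum_congr rfl (fun k _ => hk k)]
  simp only [Finset.sum_add_distrib]
  have hA : ∑ k : Fin N, ∑ l ∈ Ioi k, (if i = k then 1 / (D.s k - D.s l) - 1 / (D.s k + D.s l)
      else 0) = ∑ l ∈ Ioi i, (1 / (D.s i - D.s l) - 1 / (D.s i + D.s l)) := by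
    rw [Finset.sum_eq_single i]
    · simp
    · intro k _ hne
      refine Finset.sum_eq_zero (fun l _ => if_neg (Ne.symm hne))
    · simp
  have hB : ∑ k : Fin N, ∑ l ∈ Ioi k, (if i = l then 1 / (D.s l - D.s k) - 1 / (D.s l + D.s k)
      else 0) = ∑ k ∈ Iio i, (1 / (D.s i - D.s k) - 1 / (D.s i + D.s k)) := by
    have : ∀ k : Fin N, ∑ l ∈ Ioi k, (if i = l then 1 / (D.s l - D.s k) - 1 / (D.s l + D.s k)
      else 0) = if k < i then 1 / (D.s i - D.s k) - 1 / (D.s i + D.s k) else 0 := by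
      intro k
      rw [Finset.sum_ite_eq]
      simp only [mem_Ioi]
    rw [Finset.sum_congr rfl (fun k _ => this k), ← Finset.sum_filter]
    refine Finset.sum_congr ?_ (fun _ _ => rfl)
    ext k
    simp
  rw [hA, hB]
  have hU : (univ.erase i : Finset (Fin N)) = Ioi i ∪ Iio i := by
    ext k
    simp only [mem_erase, mem_univ, and_true, mem_union, mem_Ioi, mem_Iio]
    constructor
    · intro h
      rcases lt_or_gt_of_ne h with h | h
      · exact Or.inr h
      · exact Or.inl h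
    · rintro (h | h)
      · exact ne_of_gt h
      · exact ne_of_lt h
  rw [hU, Finset.sum_union]
  rw [Finset.disjoint_left]
  intro k h1 h2
  rw [mem_Ioi] at h1
  rw [mem_Iio] at h2
  exact lt_asymm h1 h2

theorem b_rec (D : DF F N) (E : MX N F →ₗ[F] F) (hE : IsMat D.s E) (f : MvPolynomial ℕ ℝ)
    (i : Fin N) (m : ℕ) :
    D.G * E ((XM N F ^ (2 * (m + 1))) i i * subT N F f) =
      -D.DD i (D.G * E ((XM N F ^ (2 * m)) i i * subT N F f)) +
        ∑ j ∈ univ.erase i, D.G * E ((XM N F ^ (2 * m)) j j * subT N F f) / (D.s i - D.s j) := by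
  classical
  obtain ⟨g, hg⟩ := exists_map (F := F) (N := N) (2 * m) i i f
  have hd := d_E D E hE i g
  rw [hg] at hd
  -- expansion of the square
  have hexp : E ((XM N F ^ (2 * (m + 1))) i i * subT N F f) =
      ∑ j, E ((XM N F ^ 2) i j * ((XM N F ^ (2 * m)) j i * subT N F f)) := by
    have h1 : (XM N F ^ (2 * (m + 1))) i i = ∑ j, (XM N F ^ 2) i j * (XM N F ^ (2 * m)) j i := by
      rw [show 2 * (m + 1) = 2 + 2 * m by ring, pow_add, Matrix.mul_apply]
    rw [h1, Finset.sum_mul, map_sum]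
    exact Finset.sum_congr rfl (fun j _ => by rw [mul_assoc])
  rw [hexp, ← Finset.add_sum_erase univ _ (Finset.mem_univ i)]
  have hw : ∀ j ∈ univ.erase i,
      E ((XM N F ^ 2) i j * ((XM N F ^ (2 * m)) j i * subT N F f)) =
      -(E ((XM N F ^ (2 * m)) i i * subT N F f) - E ((XM N F ^ (2 * m)) j j * subT N F f)) /
        (D.s i - D.s j) := by
    intro j hj
    have hij : i ≠ j := (Finset.mem_erase.mp hj).1.symm
    exact ward2 D.s D.add_ne E hE i j hij (D.sub_ne hij) (2 * m) f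
  rw [Finset.sum_congr rfl hw]
  set a : Fin N → F := fun j => E ((XM N F ^ (2 * m)) j j * subT N F f) with ha
  have hd' : E ((XM N F ^ 2) i i * ((XM N F ^ (2 * m)) i i * subT N F f)) =
      -D.d i (a i) + (∑ j, (D.s i + D.s j)⁻¹) * a i := by
    rw [ha]
    simp only
    rw [hd]
    ring
  rw [hd']
  have hDD : D.DD i (D.G * a i) = D.G * D.d i (a i) + a i * D.d i D.G -
      1 / (2 * D.s i) * (D.G * a i) := by
    unfold DF.DD mu
    rw [LinearMap.sub_apply, LinearMap.mulLeft_apply]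
    show D.d i (D.G * a i) - _ = _
    rw [Derivation.leibniz, smul_eq_mul, smul_eq_mul]
  show _ = -D.DD i (D.G * a i) + ∑ j ∈ univ.erase i, D.G * a j / (D.s i - D.s j)
  rw [hDD, d_G]
  rw [← Finset.add_sum_erase univ (fun j => (D.s i + D.s j)⁻¹) (Finset.mem_univ i)]
  have hs : ∑ j ∈ univ.erase i, -(a i - a j) / (D.s i - D.s j) =
      ∑ j ∈ univ.erase i, a j / (D.s i - D.s j) -
        a i * ∑ j ∈ univ.erase i, 1 / (D.s i - D.s j) := by
    rw [Finset.mul_sum, ← Finset.sum_sub_distrib]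
    exact Finset.sum_congr rfl (fun j _ => by ring)
  show D.G * (-D.d i (a i) + ((D.s i + D.s i)⁻¹ + ∑ j ∈ univ.erase i, (D.s i + D.s j)⁻¹) * a i +
    ∑ j ∈ univ.erase i, -(a i - a j) / (D.s i - D.s j)) = _
  rw [hs, Finset.sum_sub_distrib]
  have hG : ∑ j ∈ univ.erase i, D.G * a j / (D.s i - D.s j) =
      D.G * ∑ j ∈ univ.erase i, a j / (D.s i - D.s j) := by
    rw [Finset.mul_sum]
    exact Finset.sum_congr rfl (fun j _ => by ring)
  rw [hG]
  have h2 : (D.s i + D.s i)⁻¹ = 1 / (2 * D.s i) := by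
    rw [← two_mul, one_div]
  rw [h2]
  simp only [one_div]
  ring

end Pool.Agent.Helper52.MVD
end

/- Helper34.MVU.GGb -/
section
/-!
Project MV, block U, module U-T1a (GGb): the factor `GG` for the radii `rr E a`.

PROOF. `E ≥ 1`, `S ∈ stp E`. The list `(dl S).map (rr E)` consists of `λ = card (lrg E S)` times
`ρ_L = 1/2 (1 - 1/(2E))`, `σ = card (sml E S)` times `1/4` and possibly one `0` (elements of `S` are
`≥ 1`). The exponent of `GG` is `1/2 Σ_r Σ_{r'} Phi (r + r')`, with `Phi z = -2 log (1 - z^2) ≥ 0`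
increasing for `0 ≤ z < 1`. Since only the values matter (`prod_dl`, `sum_dl` of DL), it is equal to
(`δ = card S % 2` is the number of zeros)
`1/2 (λ² Phi(2ρ_L) + 2λσ Phi(ρ_L+1/4) + 2λδ Phi(ρ_L) + σ² Phi(1/2) + 2σδ Phi(1/4) + δ Phi(0))`.
* `exp (1/2 Phi(2ρ_L)) = 1/(1-(1-1/(2E))²) = 4E²/(4E-1) ≤ 2E ≤ 4E`: first term `≤ (4E)^(λ²)`;
* `exp (Phi(ρ_L+1/4)) ≤ exp (Phi(3/4)) = (16/7)² ≤ 6`: second term `≤ 6^(λσ) = Π_{sml} 6^λ`;
* `exp (Phi(ρ_L)) ≤ exp (Phi(1/2)) = (4/3)² ≤ 2 ≤ 4E`: third term `≤ (4E)^λ`;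
* `exp (1/2 Phi(1/2)) = 4/3`, `exp (σ²/2 Phi(1/2)) = (16/9)^(σ(σ-1)/2) (4/3)^σ ≤ 2^(σ(σ-1)/2) (4/3)^σ`,
  and `σ(σ-1)/2 ≤ Σ_{a ∈ sml} a` (`card_sq_le` for `sml E S`): fourth term
  `≤ (4/3)^σ Π_{a ∈ sml} 2^a`;
* `exp (Phi(1/4)) = (16/15)² ≤ 2`: fifth term `≤ 2^σ`, `(4/3) * 2 ≤ 3`; `Phi 0 = 0`.
-/

namespace Pool.Agent.Helper34.MVU

open Finset Pool.Agent.Helper60.MV

private theorem Phi_le (z c : ℝ) (hc : 0 < c) (h : c ≤ 1 - z ^ 2) : Phi z ≤ -(2 * Real.log c) := by
  unfold Phi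
  have := Real.log_le_log hc h
  linarith

private theorem Phi_zero : Phi 0 = 0 := by
  unfold Phi
  norm_num

private theorem sum_rr (E : ℕ) (S : Finset ℕ) (hS : ∀ a ∈ S, 1 ≤ a) (g : ℝ → ℝ) :
    (((dl S).map (rr E)).map g).sum =
      ((lrg E S).card : ℝ) * g (1 / 2 * (1 - 1 / (2 * (E : ℝ)))) + ((sml E S).card : ℝ) * g (1 / 4) +
        (if S.card % 2 = 0 then 0 else 1) * g 0 := by
  have h0 : rr E 0 = 0 := by
    unfold rr
    rw [if_pos rfl]
  rw [List.map_map, sum_dl]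
  have h1 : ∑ a ∈ S, (g ∘ rr E) a =
      ((lrg E S).card : ℝ) * g (1 / 2 * (1 - 1 / (2 * (E : ℝ)))) +
        ((sml E S).card : ℝ) * g (1 / 4) := by
    rw [← Finset.sum_filter_add_sum_filter_not S (fun a => E < 4096 * a)]
    congr 1
    · have h2 : ∀ a ∈ S.filter (fun a => E < 4096 * a), (g ∘ rr E) a =
          g (1 / 2 * (1 - 1 / (2 * (E : ℝ)))) := by
        intro a ha
        rw [Finset.mem_filter] at ha
        have h3 := hS a ha.1
        unfold rr
        simp only [Function.comp_apply]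
        rw [if_neg (by omega), if_pos ha.2]
      rw [Finset.sum_congr rfl h2, Finset.sum_const, nsmul_eq_mul]
      rfl
    · have h2 : ∀ a ∈ S.filter (fun a => ¬ (E < 4096 * a)), (g ∘ rr E) a = g (1 / 4) := by
        intro a ha
        rw [Finset.mem_filter] at ha
        have h3 := hS a ha.1
        unfold rr
        simp only [Function.comp_apply]
        rw [if_neg (by omega), if_neg ha.2]
      rw [Finset.sum_congr rfl h2, Finset.sum_const, nsmul_eq_mul]
      rfl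
  rw [h1]
  congr 1
  rw [Function.comp_apply, h0]
  split_ifs
  · rw [zero_mul]
  · rw [one_mul]

theorem GG_le (E : ℕ) (hE : 1 ≤ E) (S : Finset ℕ) (hS : S ∈ stp E) :
    GG ((dl S).map (rr E)) ≤ (4 * (E : ℝ)) ^ ((lrg E S).card + (lrg E S).card ^ 2) *
      ∏ a ∈ sml E S, (3 * 6 ^ (lrg E S).card * 2 ^ a) := by
  have hS1 : ∀ a ∈ S, 1 ≤ a := ((mem_stp E S).1 hS).1
  have hE' : (1 : ℝ) ≤ E := by exact_mod_cast hE
  have hprod : 0 < (4 * (E : ℝ)) ^ ((lrg E S).card + (lrg E S).card ^ 2) *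
      ∏ a ∈ sml E S, ((3 : ℝ) * 6 ^ (lrg E S).card * 2 ^ a) := by
    have h1 : 0 < ∏ a ∈ sml E S, ((3 : ℝ) * 6 ^ (lrg E S).card * 2 ^ a) :=
      Finset.prod_pos fun a _ => by positivity
    positivity
  have hlog : Real.log ((4 * (E : ℝ)) ^ ((lrg E S).card + (lrg E S).card ^ 2) *
      ∏ a ∈ sml E S, ((3 : ℝ) * 6 ^ (lrg E S).card * 2 ^ a)) =
      (((lrg E S).card : ℝ) + ((lrg E S).card : ℝ) ^ 2) * Real.log (4 * E) +
        (((sml E S).card : ℝ) * (Real.log 3 + ((lrg E S).card : ℝ) * Real.log 6) +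
          ((∑ a ∈ sml E S, a : ℕ) : ℝ) * Real.log 2) := by
    have h1 : ∀ a ∈ sml E S, ((3 : ℝ) * 6 ^ (lrg E S).card * 2 ^ a) ≠ 0 := fun a _ => by positivity
    rw [Real.log_mul (by positivity) (Finset.prod_ne_zero_iff.2 h1), Real.log_pow,
      Real.log_prod h1]
    push_cast
    congr 1
    have h2 : ∀ a ∈ sml E S, Real.log ((3 : ℝ) * 6 ^ (lrg E S).card * 2 ^ a) =
        (Real.log 3 + ((lrg E S).card : ℝ) * Real.log 6) + (a : ℝ) * Real.log 2 := by
      intro a _
      rw [Real.log_mul (by positivity) (by positivity), Real.log_mul (by positivity) (by positivity),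
        Real.log_pow, Real.log_pow]
    rw [Finset.sum_congr rfl h2, Finset.sum_add_distrib, Finset.sum_const, nsmul_eq_mul,
      Finset.sum_mul]
  rw [← Real.exp_log hprod, hlog]
  unfold GG
  rw [Real.exp_le_exp]
  simp only [sum_rr E S hS1]
  have hsq : ((sml E S).card : ℝ) * (((sml E S).card : ℝ) + 1) ≤
      2 * ((∑ a ∈ sml E S, a : ℕ) : ℝ) := by
    exact_mod_cast card_sq_le (sml E S) (fun a ha => hS1 a (Finset.mem_filter.1 ha).1)
  set lam : ℝ := ((lrg E S).card : ℝ) with hlam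
  set sg : ℝ := ((sml E S).card : ℝ) with hsg
  set sa : ℝ := ((∑ a ∈ sml E S, a : ℕ) : ℝ) with hsa
  set dt : ℝ := (if S.card % 2 = 0 then 0 else 1) with hdt
  set ρ : ℝ := 1 / 2 * (1 - 1 / (2 * (E : ℝ))) with hρ
  have hlam0 : 0 ≤ lam := Nat.cast_nonneg _
  have hsg0 : 0 ≤ sg := Nat.cast_nonneg _
  have hdt0 : 0 ≤ dt := by rw [hdt]; split_ifs <;> norm_num
  have hdt1 : dt ≤ 1 := by rw [hdt]; split_ifs <;> norm_num
  have hu0 : 0 < 1 / (2 * (E : ℝ)) := by positivity
  have hu1 : 1 / (2 * (E : ℝ)) ≤ 1 / 2 := by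
    rw [div_le_div_iff₀ (by positivity) (by norm_num)]
    linarith
  set u : ℝ := 1 / (2 * (E : ℝ)) with hu
  have hρ0 : 0 ≤ ρ := by rw [hρ]; nlinarith
  have hρ1 : ρ ≤ 1 / 2 := by rw [hρ]; nlinarith
  have hlE : Real.log (2 * E) ≤ Real.log (4 * E) :=
    Real.log_le_log (by positivity) (by linarith)
  have b1 : Phi (ρ + ρ) ≤ 2 * Real.log (4 * E) := by
    have h1 : Phi (ρ + ρ) ≤ -(2 * Real.log u) := by
      refine Phi_le _ _ hu0 ?_
      have h2 : ρ + ρ = 1 - u := by rw [hρ]; ring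
      rw [h2]
      nlinarith
    have h3 : Real.log u = - Real.log (2 * E) := by
      rw [hu, one_div, Real.log_inv]
    rw [h3] at h1
    linarith
  have b2 : Phi (ρ + 1 / 4) ≤ Real.log 6 := by
    have h1 : Phi (ρ + 1 / 4) ≤ -(2 * Real.log (7 / 16)) := by
      refine Phi_le _ _ (by norm_num) ?_
      nlinarith
    have h2 : -(2 * Real.log (7 / 16)) = Real.log (256 / 49) := by
      have h3 : Real.log (256 / 49) = Real.log (((7 / 16 : ℝ) ^ 2)⁻¹) := by
        norm_num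
      rw [h3, Real.log_inv, Real.log_pow]
      push_cast
      ring
    have h4 : Real.log (256 / 49) ≤ Real.log 6 := Real.log_le_log (by norm_num) (by norm_num)
    linarith
  have b2' : Phi (1 / 4 + ρ) ≤ Real.log 6 := by rw [add_comm]; exact b2
  have h43 : ∀ z : ℝ, 0 ≤ z → z ≤ 1 / 2 → Phi z ≤ 2 * Real.log (4 / 3) := by
    intro z h0 h1
    have h2 : Phi z ≤ -(2 * Real.log (3 / 4)) := by
      refine Phi_le _ _ (by norm_num) ?_
      nlinarith
    have h3 : Real.log (3 / 4 : ℝ) = - Real.log (4 / 3) := by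
      rw [← Real.log_inv]
      norm_num
    rw [h3] at h2
    linarith
  have hl43 : 2 * Real.log (4 / 3) ≤ Real.log 2 := by
    have h1 : 2 * Real.log (4 / 3) = Real.log ((4 / 3 : ℝ) ^ 2) := by
      rw [Real.log_pow]
      push_cast
      ring
    rw [h1]
    exact Real.log_le_log (by norm_num) (by norm_num)
  have hl43p : 0 ≤ Real.log (4 / 3) := Real.log_nonneg (by norm_num)
  have hl2 : Real.log 2 ≤ Real.log (4 * E) := Real.log_le_log (by norm_num) (by linarith)
  have hl2p : 0 ≤ Real.log 2 := Real.log_nonneg (by norm_num)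
  have b3 : Phi (ρ + 0) ≤ Real.log (4 * E) := by
    rw [add_zero]
    have := h43 ρ hρ0 hρ1
    linarith
  have b3' : Phi (0 + ρ) ≤ Real.log (4 * E) := by rw [add_comm]; exact b3
  have b4 : Phi (1 / 4 + 1 / 4) ≤ 2 * Real.log (4 / 3) := h43 _ (by norm_num) (by norm_num)
  have h1615 : ∀ z : ℝ, z = 1 / 4 → Phi z ≤ 2 * Real.log (16 / 15) := by
    intro z hz
    have h2 : Phi z ≤ -(2 * Real.log (15 / 16)) := by
      refine Phi_le _ _ (by norm_num) ?_
      rw [hz]
      norm_num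
    have h3 : Real.log (15 / 16 : ℝ) = - Real.log (16 / 15) := by
      rw [← Real.log_inv]
      norm_num
    rw [h3] at h2
    linarith
  have b5 : Phi (1 / 4 + 0) ≤ 2 * Real.log (16 / 15) := h1615 _ (by norm_num)
  have b5' : Phi (0 + 1 / 4) ≤ 2 * Real.log (16 / 15) := h1615 _ (by norm_num)
  have b6 : Phi (0 + 0) = 0 := by rw [add_zero]; exact Phi_zero
  have hl3 : Real.log (4 / 3) + 2 * Real.log (16 / 15) ≤ Real.log 3 := by
    have h1 : Real.log (4 / 3) + 2 * Real.log (16 / 15) =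
        Real.log ((4 / 3 : ℝ) * (16 / 15) ^ 2) := by
      rw [Real.log_mul (by norm_num) (by norm_num), Real.log_pow]
      push_cast
      ring
    rw [h1]
    exact Real.log_le_log (by norm_num) (by norm_num)
  have hl1615p : 0 ≤ Real.log (16 / 15) := Real.log_nonneg (by norm_num)
  have hlEp : 0 ≤ Real.log (4 * E) := hl2p.trans hl2
  have hsa0 : 0 ≤ sa := Nat.cast_nonneg _
  -- the six products
  have c1 : lam * (lam * Phi (ρ + ρ)) ≤ lam * (lam * (2 * Real.log (4 * E))) :=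
    mul_le_mul_of_nonneg_left (mul_le_mul_of_nonneg_left b1 hlam0) hlam0
  have c2 : lam * (sg * Phi (ρ + 1 / 4)) ≤ lam * (sg * Real.log 6) :=
    mul_le_mul_of_nonneg_left (mul_le_mul_of_nonneg_left b2 hsg0) hlam0
  have c2' : sg * (lam * Phi (1 / 4 + ρ)) ≤ sg * (lam * Real.log 6) :=
    mul_le_mul_of_nonneg_left (mul_le_mul_of_nonneg_left b2' hlam0) hsg0
  have c3 : lam * (dt * Phi (ρ + 0)) ≤ lam * Real.log (4 * E) := by
    refine mul_le_mul_of_nonneg_left ?_ hlam0
    calc dt * Phi (ρ + 0) ≤ dt * Real.log (4 * E) := mul_le_mul_of_nonneg_left b3 hdt0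
      _ ≤ 1 * Real.log (4 * E) := mul_le_mul_of_nonneg_right hdt1 hlEp
      _ = _ := one_mul _
  have c3' : dt * (lam * Phi (0 + ρ)) ≤ lam * Real.log (4 * E) := by
    have h1 : lam * Phi (0 + ρ) ≤ lam * Real.log (4 * E) := mul_le_mul_of_nonneg_left b3' hlam0
    calc dt * (lam * Phi (0 + ρ)) ≤ dt * (lam * Real.log (4 * E)) :=
          mul_le_mul_of_nonneg_left h1 hdt0
      _ ≤ 1 * (lam * Real.log (4 * E)) :=
          mul_le_mul_of_nonneg_right hdt1 (mul_nonneg hlam0 hlEp)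
      _ = _ := one_mul _
  have c4 : sg * (sg * Phi (1 / 4 + 1 / 4)) ≤ sg * (sg * (2 * Real.log (4 / 3))) :=
    mul_le_mul_of_nonneg_left (mul_le_mul_of_nonneg_left b4 hsg0) hsg0
  have c5 : sg * (dt * Phi (1 / 4 + 0)) ≤ sg * (2 * Real.log (16 / 15)) := by
    refine mul_le_mul_of_nonneg_left ?_ hsg0
    calc dt * Phi (1 / 4 + 0) ≤ dt * (2 * Real.log (16 / 15)) := mul_le_mul_of_nonneg_left b5 hdt0
      _ ≤ 1 * (2 * Real.log (16 / 15)) := mul_le_mul_of_nonneg_right hdt1 (by positivity)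
      _ = _ := one_mul _
  have c5' : dt * (sg * Phi (0 + 1 / 4)) ≤ sg * (2 * Real.log (16 / 15)) := by
    have h1 : sg * Phi (0 + 1 / 4) ≤ sg * (2 * Real.log (16 / 15)) :=
      mul_le_mul_of_nonneg_left b5' hsg0
    calc dt * (sg * Phi (0 + 1 / 4)) ≤ dt * (sg * (2 * Real.log (16 / 15))) :=
          mul_le_mul_of_nonneg_left h1 hdt0
      _ ≤ 1 * (sg * (2 * Real.log (16 / 15))) :=
          mul_le_mul_of_nonneg_right hdt1 (mul_nonneg hsg0 (by positivity))
      _ = _ := one_mul _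
  have c6 : sg * (sg * Real.log (4 / 3)) ≤ sa * Real.log 2 + sg * Real.log (4 / 3) := by
    have h1 : sg * (sg - 1) ≤ 2 * sa := by nlinarith
    have h2 : sg * (sg - 1) * Real.log (4 / 3) ≤ 2 * sa * Real.log (4 / 3) :=
      mul_le_mul_of_nonneg_right h1 hl43p
    have h3 : sa * (2 * Real.log (4 / 3)) ≤ sa * Real.log 2 :=
      mul_le_mul_of_nonneg_left hl43 hsa0
    nlinarith
  have c7 : sg * (Real.log (4 / 3) + 2 * Real.log (16 / 15)) ≤ sg * Real.log 3 :=
    mul_le_mul_of_nonneg_left hl3 hsg0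
  rw [b6, mul_zero]
  nlinarith [c1, c2, c2', c3, c3', c4, c5, c5', c6, c7]

end Pool.Agent.Helper34.MVU
end

/- Helper34.MVU.PfQQ -/
section
/-!
Project MV, block U, module U-H1p (PfQQ): the Pfaffian of the polynomials `QQ` is coefficientwise
dominated by the hafnian of the polynomials `QQp`.

PROOF. For polynomials with `∀ m, |coeff m f| ≤ coeff m f'` and `∀ m, |coeff m g| ≤ coeff m g'` one
has `∀ m, |coeff m (f * g)| ≤ coeff m (f' * g')` (`MvPolynomial.coeff_mul`, sum over the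
antidiagonal), the same for sums and for `f ↦ ± f`. `qP n` has nonnegative coefficients
(`coeff_qP_nonneg`), so `|coeff m (QQ a b)| ≤ coeff m (QQp a b)` (the constant polynomial `2` is
`C 2`; `(-1)^(j+1)` is `±1`). Induction on the length of the list for `pfL`/`hfL`.
`abs_Wick_pfL_le`: `abs_Wick_le`.
-/

namespace Pool.Agent.Helper34.MVU

open Finset MvPolynomial Pool.Agent.Helper60.MV

private def Dom (f g : MvPolynomial ℕ ℝ) : Prop := ∀ m, |f.coeff m| ≤ g.coeff m

private theorem Dom.nonneg {f g : MvPolynomial ℕ ℝ} (h : Dom f g) (m : ℕ →₀ ℕ) :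
    0 ≤ g.coeff m := (abs_nonneg _).trans (h m)

private theorem Dom.mul {f g f' g' : MvPolynomial ℕ ℝ} (h : Dom f g) (h' : Dom f' g') :
    Dom (f * f') (g * g') := by
  classical
  intro m
  rw [coeff_mul, coeff_mul]
  refine (Finset.abs_sum_le_sum_abs _ _).trans (Finset.sum_le_sum fun x _ => ?_)
  rw [abs_mul]
  exact mul_le_mul (h _) (h' _) (abs_nonneg _) (h.nonneg _)

private theorem Dom.add {f g f' g' : MvPolynomial ℕ ℝ} (h : Dom f g) (h' : Dom f' g') :
    Dom (f + f') (g + g') := by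
  intro m
  rw [coeff_add, coeff_add]
  exact (abs_add_le _ _).trans (add_le_add (h m) (h' m))

private theorem Dom.sum {ι : Type} (s : Finset ι) {f g : ι → MvPolynomial ℕ ℝ}
    (h : ∀ i ∈ s, Dom (f i) (g i)) : Dom (∑ i ∈ s, f i) (∑ i ∈ s, g i) := by
  intro m
  rw [coeff_sum, coeff_sum]
  exact (Finset.abs_sum_le_sum_abs _ _).trans (Finset.sum_le_sum fun i hi => h i hi m)

private theorem Dom.sign {f g : MvPolynomial ℕ ℝ} (h : Dom f g) (n : ℕ) :
    Dom ((-1) ^ n * f) g := by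
  intro m
  rcases neg_one_pow_eq_or (MvPolynomial ℕ ℝ) n with hn | hn
  · rw [hn, one_mul]; exact h m
  · rw [hn, neg_one_mul, coeff_neg, abs_neg]; exact h m

private theorem Dom.self {f : MvPolynomial ℕ ℝ} (h : ∀ m, 0 ≤ f.coeff m) : Dom f f := by
  intro m
  rw [abs_of_nonneg (h m)]

private theorem dom_qP (n : ℕ) : Dom (qP n) (qP n) := Dom.self (coeff_qP_nonneg n)

private theorem dom_two : Dom (2 : MvPolynomial ℕ ℝ) 2 := by
  refine Dom.self fun m => ?_
  have h : (2 : MvPolynomial ℕ ℝ) = C 2 := (map_ofNat C 2).symm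
  rw [h, coeff_C]
  split <;> norm_num

private theorem dom_one : Dom (1 : MvPolynomial ℕ ℝ) 1 := by
  classical
  refine Dom.self fun m => ?_
  rw [coeff_one]
  split <;> norm_num

private theorem dom_QQ (a b : ℕ) : Dom (QQ a b) (QQp a b) := by
  unfold QQ QQp
  refine ((dom_qP a).mul (dom_qP b)).add (dom_two.mul (Dom.sum _ fun j _ => ?_))
  exact ((dom_qP _).mul (dom_qP _)).sign _

private theorem dom_pfL (n : ℕ) : ∀ L : List ℕ, L.length = n → Dom (pfL QQ L) (hfL QQp L) := by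
  induction n using Nat.strong_induction_on with
  | _ n ih =>
    intro L hL
    cases L with
    | nil => rw [pfL, hfL]; exact dom_one
    | cons x xs =>
      rw [pfL, hfL]
      refine Dom.sum _ fun j _ => ?_
      rw [mul_assoc]
      refine Dom.sign ((dom_QQ _ _).mul (ih (xs.eraseIdx j).length ?_ _ rfl)) _
      rw [List.length_eraseIdx]
      simp only [List.length_cons] at hL
      split <;> omega

theorem abs_coeff_pfL_QQ_le (L : List ℕ) (m : ℕ →₀ ℕ) :
    |(pfL QQ L).coeff m| ≤ (hfL QQp L).coeff m :=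
  dom_pfL _ L rfl m

theorem abs_Wick_pfL_le (L : List ℕ) : |Wick (pfL QQ L)| ≤ Wick (hfL QQp L) :=
  abs_Wick_le _ _ (abs_coeff_pfL_QQ_le L)

end Pool.Agent.Helper34.MVU
end

/- Helper34.MVU.TlWick -/
section
/-!
Project MV, block U, module U-T0a (TlWick): uniform bound of `Wick (pfL QQ (m :: tl S))` for fixed `S`.

PROOF. For one list `L`: `∃ C ≥ 0, ∀ m, |Wick (pfL QQ (m :: L))| ≤ C * 2^m`. By `abs_Wick_pfL_le` it
suffices to bound `Wick (hfL QQp (m :: L)) = Σ_j Wick (QQp m b_j * hfL QQp (L.eraseIdx j))`,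
`b_j = L[j]`, `QQp m b = qP m * qP b + 2 Σ_{i<b} qP (m+(i+1)) * qP (b-(i+1))`. Every product
`qP (m+i) * (qP b' * hfL QQp (L.eraseIdx j))` has a second factor with nonnegative coefficients which
does not depend on `m`, so `Wick_qP_mul_le` gives `≤ C' 2^(m+i) = (C' 2^i) 2^m`; finite sums of such
bounds. (Coefficients of `hfL QQp` are nonnegative: `abs_coeff_pfL_QQ_le` and `abs_nonneg`.)
Then take the sum of the constants over the finite set `(Icc 1 s0).powerset`
(`choose`, `Finset.single_le_sum`).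
-/

namespace Pool.Agent.Helper34.MVU

open Finset MvPolynomial Pool.Agent.Helper60.MV

private def Bn (F : ℕ → MvPolynomial ℕ ℝ) : Prop :=
  ∃ C : ℝ, 0 ≤ C ∧ ∀ m, Wick (F m) ≤ C * 2 ^ m

private theorem Bn_qP (i : ℕ) (g : MvPolynomial ℕ ℝ) (hg : ∀ m, 0 ≤ g.coeff m) :
    Bn (fun m => qP (m + i) * g) := by
  obtain ⟨C, hC, h⟩ := Wick_qP_mul_le g hg
  refine ⟨C * 2 ^ i, by positivity, fun m => ?_⟩
  refine (h (m + i)).trans (le_of_eq ?_)
  rw [pow_add]
  ring

private theorem Bn_add {F G : ℕ → MvPolynomial ℕ ℝ} (hF : Bn F) (hG : Bn G) :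
    Bn (fun m => F m + G m) := by
  obtain ⟨C, hC, h⟩ := hF
  obtain ⟨D, hD, h'⟩ := hG
  refine ⟨C + D, by positivity, fun m => ?_⟩
  rw [Wick_add, add_mul]
  exact add_le_add (h m) (h' m)

private theorem Bn_C {F : ℕ → MvPolynomial ℕ ℝ} (hF : Bn F) (c : ℝ) (hc : 0 ≤ c) :
    Bn (fun m => C c * F m) := by
  obtain ⟨D, hD, h⟩ := hF
  refine ⟨c * D, by positivity, fun m => ?_⟩
  rw [Wick_C_mul, mul_assoc]
  exact mul_le_mul_of_nonneg_left (h m) hc

private theorem Bn_zero : Bn (fun _ => 0) := by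
  refine ⟨0, le_refl _, fun m => ?_⟩
  rw [Wick_zero, zero_mul]

private theorem Bn_sum {ι : Type} (s : Finset ι) (F : ι → ℕ → MvPolynomial ℕ ℝ)
    (h : ∀ i ∈ s, Bn (F i)) : Bn (fun m => ∑ i ∈ s, F i m) := by
  classical
  induction s using Finset.induction_on with
  | empty => simpa using Bn_zero
  | insert a s ha ih =>
    have h1 := Bn_add (h a (Finset.mem_insert_self a s))
      (ih fun i hi => h i (Finset.mem_insert_of_mem hi))
    have h2 : (fun m => ∑ i ∈ insert a s, F i m) = fun m => F a m + ∑ i ∈ s, F i m := by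
      funext m
      rw [Finset.sum_insert ha]
    rw [h2]
    exact h1

private theorem coeff_mul_nonneg (f g : MvPolynomial ℕ ℝ) (hf : ∀ m, 0 ≤ f.coeff m)
    (hg : ∀ m, 0 ≤ g.coeff m) (m : ℕ →₀ ℕ) : 0 ≤ (f * g).coeff m := by
  classical
  rw [coeff_mul]
  exact Finset.sum_nonneg fun x _ => mul_nonneg (hf _) (hg _)

private theorem coeff_hfL_nonneg (L : List ℕ) (m : ℕ →₀ ℕ) : 0 ≤ (hfL QQp L).coeff m :=
  (abs_nonneg _).trans (abs_coeff_pfL_QQ_le L m)

private theorem Bn_QQp (b : ℕ) (g : MvPolynomial ℕ ℝ) (hg : ∀ m, 0 ≤ g.coeff m) :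
    Bn (fun m => QQp m b * g) := by
  have h1 : (fun m => QQp m b * g) = fun m => qP (m + 0) * (qP b * g) +
      C 2 * ∑ j ∈ range b, qP (m + (j + 1)) * (qP (b - (j + 1)) * g) := by
    funext m
    have h2 : (C 2 : MvPolynomial ℕ ℝ) = 2 := map_ofNat C 2
    rw [h2, QQp, add_zero, add_mul, mul_assoc, mul_assoc, Finset.sum_mul]
    congr 2
    refine Finset.sum_congr rfl fun j _ => ?_
    rw [mul_assoc]
  rw [h1]
  refine Bn_add (Bn_qP 0 _ ?_) (Bn_C (Bn_sum _ _ fun j _ => ?_) 2 (by norm_num))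
  · exact coeff_mul_nonneg _ _ (coeff_qP_nonneg b) hg
  · exact Bn_qP (j + 1) _ (coeff_mul_nonneg _ _ (coeff_qP_nonneg _) hg)

private theorem Wick_list_le (L : List ℕ) : ∃ C : ℝ, 0 ≤ C ∧ ∀ m : ℕ,
    |Wick (pfL QQ (m :: L))| ≤ C * 2 ^ m := by
  have h1 : Bn (fun m => hfL QQp (m :: L)) := by
    have h2 : (fun m => hfL QQp (m :: L)) = fun m => ∑ j ∈ (Finset.univ : Finset (Fin L.length)),
        QQp m (L.get j) * hfL QQp (L.eraseIdx j) := by
      funext m
      rw [hfL]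
    rw [h2]
    exact Bn_sum _ _ fun j _ => Bn_QQp _ _ (coeff_hfL_nonneg _)
  obtain ⟨C, hC, h⟩ := h1
  exact ⟨C, hC, fun m => (abs_Wick_pfL_le _).trans (h m)⟩

theorem Wick_tl_le (s0 : ℕ) : ∃ C : ℝ, 0 ≤ C ∧ ∀ S ∈ (Icc 1 s0).powerset, ∀ m : ℕ,
    |Wick (pfL QQ (m :: tl S))| ≤ C * 2 ^ m := by
  choose D hD hDm using fun S : Finset ℕ => Wick_list_le (tl S)
  refine ⟨∑ S ∈ (Icc 1 s0).powerset, D S, Finset.sum_nonneg fun S _ => hD S, ?_⟩
  intro S hS m
  refine (hDm S m).trans (mul_le_mul_of_nonneg_right ?_ (by positivity))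
  exact Finset.single_le_sum (f := D) (fun S _ => hD S) hS

end Pool.Agent.Helper34.MVU
end

/- Helper34.MVU.X2 -/
section
/-!
Project MV, block U, module U-X2 (X2): the bound of `XK` when the first entry is `E - s`, `s` small.

PROOF. `L = m :: rest`, `l = L.length`, `XK K L = Σ_{f : ρ → Fin l} pfL (zf …) (finRange l)`
with `m_a(f) = asg K f a`.
* `|pfL …| ≤ hfL |zf …|` (`abs_pfL_le`), `0 ≤ |zf| ≤ 2 = 2 * (1 * 1)`, so every term is at most
  `mt l * 2^(l/2)` (`hfL_mono`, `hfL_mul` with `u = 1`).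
* If the term of `f` is not zero then `m_0(f) ≥ 2m`: expand `hfL` along the first entry
  (`List.finRange_succ`; every term contains a factor `|zf (m_0 - 2m) …|`, which vanishes if
  `m_0 < 2m`). Then `Σ_{i, f i ≠ 0} K i = 2E - m_0(f) ≤ 2s`.
* Number of such `f`: let `I = {i | f i ≠ 0}`, `I1 = {i ∈ I | K i = 1}`, `I3 = {i ∈ I | K i ≠ 1}` (there
  `K i ≥ 3`). `|I| ≤ 2s`, `|I1| ≤ 2s`, `3 |I3| ≤ 2s`. The map `f ↦ (I1, I3, f)` shows
  `#f ≤ Σ_{(I1,I3)} l^{|I1 ∪ I3|}` (`f` is `0` off `I`), at most `l^(2s)` for each pair. The number of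
  subsets of size `≤ t` of a set with `n` elements is at most `(n+1)^t`
  (inject into maps `Fin t → Option …`, or `Σ_{j ≤ t} (n choose j) ≤ (n+1)^t` by induction). With
  `#{K i = 1} = ones K` and `3 #{K i ≥ 3} ≤ 2E`, hence `#{K i ≥ 3} + 1 ≤ 2E` (`E ≥ 1`), the number of
  pairs is at most `(ones K + 1)^(2s) * (2E)^(2s/3)`.
-/

namespace Pool.Agent.Helper34.MVU

open Finset Pool.Agent.Helper60.MV

private theorem x2_zf_abs (m n : ℤ) : 0 ≤ |zf m n| ∧ |zf m n| ≤ 2 * (1 * 1) := by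
  refine ⟨abs_nonneg _, ?_⟩
  unfold zf
  split_ifs
  · norm_num
  · rw [abs_mul, abs_pow, abs_neg, abs_one, one_pow]
    norm_num
  · norm_num
  · norm_num

private theorem x2_zf_neg {m : ℤ} (hm : m < 0) (n : ℤ) : zf m n = 0 := by
  unfold zf
  split_ifs
  · omega
  · omega
  · rfl
  · rfl

private theorem x2_pf_le {l : ℕ} (g : Fin l → ℤ) :
    |pfL (fun a b => zf (g a) (g b)) (List.finRange l)| ≤ mt l * 2 ^ (l / 2) := by
  refine (abs_pfL_le _ _).trans ?_
  have h1 := (hfL_mono (fun a b => |zf (g a) (g b)|) (fun _ _ : Fin l => (2:ℝ) * (1 * 1))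
    (List.finRange l) (List.pairwise_of_forall (fun a b => x2_zf_abs _ _))).2
  refine h1.trans ?_
  have h2 := hfL_mul (fun _ : Fin l => (1:ℝ)) 2 (List.finRange l)
  rw [h2]
  simp

private theorem x2_pf_zero' {n : ℕ} (g : Fin (n + 1) → ℤ) (h0 : g 0 < 0) :
    pfL (fun a b => zf (g a) (g b)) (List.finRange (n + 1)) = 0 := by
  rw [List.finRange_succ, pfL]
  refine Finset.sum_eq_zero (fun j _ => ?_)
  rw [x2_zf_neg h0]
  ring

private theorem x2_subsets {ρ : Type} (U : Finset ρ) (t : ℕ) :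
    ((U.powerset).filter (fun I => I.card ≤ t)).card ≤ (U.card + 1) ^ t := by
  classical
  have h1 : (U.powerset).filter (fun I => I.card ≤ t) ⊆
      (range (t + 1)).biUnion (fun j => U.powersetCard j) := by
    intro I hI
    rw [mem_filter, mem_powerset] at hI
    rw [mem_biUnion]
    exact ⟨I.card, mem_range.mpr (by omega), mem_powersetCard.mpr ⟨hI.1, rfl⟩⟩
  refine (card_le_card h1).trans (card_biUnion_le.trans ?_)
  rw [add_pow]
  refine Finset.sum_le_sum (fun j hj => ?_)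
  rw [card_powersetCard, one_pow, mul_one]
  have h2 : U.card.choose j ≤ U.card ^ j := Nat.choose_le_pow _ _
  have h3 : 0 < t.choose j := Nat.choose_pos (by rw [mem_range] at hj; omega)
  calc U.card.choose j ≤ U.card ^ j := h2
    _ = U.card ^ j * 1 := (mul_one _).symm
    _ ≤ U.card ^ j * (t.choose j) := Nat.mul_le_mul_left _ h3

private theorem x2_supp {ρ : Type} [Fintype ρ] {n : ℕ} (I : Finset ρ) [DecidableEq ρ]
    [DecidablePred fun f : ρ → Fin (n + 1) => ∀ i, i ∉ I → f i = 0] :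
    (univ.filter (fun f : ρ → Fin (n + 1) => ∀ i, i ∉ I → f i = 0)).card ≤ (n + 1) ^ I.card := by
  have h1 : univ.filter (fun f : ρ → Fin (n + 1) => ∀ i, i ∉ I → f i = 0) ⊆
      Fintype.piFinset (fun i => if i ∈ I then (univ : Finset (Fin (n + 1))) else {0}) := by
    intro f hf
    rw [mem_filter] at hf
    rw [Fintype.mem_piFinset]
    intro i
    by_cases hi : i ∈ I
    · rw [if_pos hi]
      exact mem_univ _
    · rw [if_neg hi, mem_singleton]
      exact hf.2 i hi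
  refine (card_le_card h1).trans ?_
  rw [Fintype.card_piFinset]
  have h2 : ∀ i : ρ, (if i ∈ I then (univ : Finset (Fin (n + 1))) else {0}).card =
      if i ∈ I then n + 1 else 1 := by
    intro i
    split_ifs
    · rw [card_univ, Fintype.card_fin]
    · exact card_singleton _
  rw [Finset.prod_congr rfl (fun i _ => h2 i), Finset.prod_ite, Finset.prod_const,
    Finset.prod_const_one, mul_one, Finset.filter_mem_eq_inter, Finset.univ_inter]

private theorem x2_count {ρ : Type} [Fintype ρ] (K : ρ → ℕ) (hK : ∀ i, Odd (K i)) (E : ℕ)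
    (hE : ∑ i, K i = 2 * E) (h1 : 1 ≤ E) (m s n : ℕ) (hm : m + s = E) [DecidableEq ρ] :
    (univ.filter (fun f : ρ → Fin (n + 1) => 2 * m ≤ asg K f 0)).card ≤
      (n + 1) ^ (2 * s) * (ones K + 1) ^ (2 * s) * (2 * E) ^ (2 * s / 3) := by
  classical
  set U1 : Finset ρ := univ.filter (fun i => K i = 1) with hU1
  set U3 : Finset ρ := univ.filter (fun i => K i ≠ 1) with hU3
  set P1 := (U1.powerset).filter (fun I => I.card ≤ 2 * s) with hP1
  set P3 := (U3.powerset).filter (fun I => I.card ≤ 2 * s / 3) with hP3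
  have hsub : univ.filter (fun f : ρ → Fin (n + 1) => 2 * m ≤ asg K f 0) ⊆
      (P1 ×ˢ P3).biUnion (fun p => if (p.1 ∪ p.2).card ≤ 2 * s then
        univ.filter (fun f : ρ → Fin (n + 1) => ∀ i, i ∉ p.1 ∪ p.2 → f i = 0) else ∅) := by
    intro f hf
    rw [mem_filter] at hf
    have hf2 := hf.2
    have hsum : ∑ i ∈ univ.filter (fun i => f i ≠ 0), K i ≤ 2 * s := by
      have h2 : ∑ i ∈ univ.filter (fun i => f i ≠ 0), K i + asg K f 0 = 2 * E := by
        rw [← hE, asg, ← Finset.sum_filter, add_comm]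
        exact Finset.sum_filter_add_sum_filter_not univ (fun i => f i = 0) K
      omega
    have hcard : (univ.filter (fun i => f i ≠ 0)).card ≤ 2 * s := by
      refine le_trans ?_ hsum
      rw [Finset.card_eq_sum_ones]
      exact Finset.sum_le_sum (fun i _ => (hK i).pos)
    set I1 : Finset ρ := univ.filter (fun i => f i ≠ 0 ∧ K i = 1) with hI1
    set I3 : Finset ρ := univ.filter (fun i => f i ≠ 0 ∧ K i ≠ 1) with hI3
    have hun : I1 ∪ I3 = univ.filter (fun i => f i ≠ 0) := by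
      ext i
      simp only [hI1, hI3, mem_union, mem_filter, mem_univ, true_and]
      tauto
    rw [mem_biUnion]
    refine ⟨(I1, I3), ?_, ?_⟩
    · rw [mem_product]
      constructor
      · rw [hP1, mem_filter, mem_powerset]
        constructor
        · intro i hi
          rw [hI1, mem_filter] at hi
          rw [hU1, mem_filter]
          exact ⟨mem_univ _, hi.2.2⟩
        · refine le_trans (card_le_card ?_) hcard
          rw [← hun]
          exact subset_union_left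
      · rw [hP3, mem_filter, mem_powerset]
        constructor
        · intro i hi
          rw [hI3, mem_filter] at hi
          rw [hU3, mem_filter]
          exact ⟨mem_univ _, hi.2.2⟩
        · have h3 : 3 * I3.card ≤ 2 * s := by
            refine le_trans ?_ hsum
            refine le_trans ?_ (Finset.sum_le_sum_of_subset (f := K) (show I3 ⊆
              univ.filter (fun i => f i ≠ 0) from ?_))
            · rw [mul_comm, ← smul_eq_mul, ← Finset.sum_const]
              refine Finset.sum_le_sum (fun i hi => ?_)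
              rw [hI3, mem_filter] at hi
              obtain ⟨k, hk⟩ := hK i
              have := hi.2.2
              omega
            · rw [← hun]
              exact subset_union_right
          show I3.card ≤ 2 * s / 3
          omega
    · show f ∈ (if (I1 ∪ I3).card ≤ 2 * s then
        univ.filter (fun f : ρ → Fin (n + 1) => ∀ i, i ∉ I1 ∪ I3 → f i = 0) else ∅)
      rw [if_pos (by rw [hun]; exact hcard), mem_filter]
      refine ⟨mem_univ _, ?_⟩
      intro i hi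
      rw [hun, mem_filter] at hi
      by_contra hne
      exact hi ⟨mem_univ _, hne⟩
  refine (card_le_card hsub).trans (card_biUnion_le.trans ?_)
  have hterm : ∀ p ∈ P1 ×ˢ P3, (if (p.1 ∪ p.2).card ≤ 2 * s then
        univ.filter (fun f : ρ → Fin (n + 1) => ∀ i, i ∉ p.1 ∪ p.2 → f i = 0) else ∅).card ≤
        (n + 1) ^ (2 * s) := by
    intro p _
    split_ifs with h
    · exact (x2_supp _).trans (Nat.pow_le_pow_right (by omega) h)
    · rw [card_empty]
      exact Nat.zero_le _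
  refine (Finset.sum_le_sum hterm).trans ?_
  rw [Finset.sum_const, smul_eq_mul, card_product]
  have hc1 : P1.card ≤ (ones K + 1) ^ (2 * s) := x2_subsets U1 (2 * s)
  have hc3 : P3.card ≤ (2 * E) ^ (2 * s / 3) := by
    refine (x2_subsets U3 (2 * s / 3)).trans (Nat.pow_le_pow_left ?_ _)
    have h3 : 3 * U3.card ≤ 2 * E := by
      rw [← hE]
      refine le_trans ?_ (Finset.sum_le_sum_of_subset (f := K) (subset_univ U3))
      rw [mul_comm, ← smul_eq_mul, ← Finset.sum_const]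
      refine Finset.sum_le_sum (fun i hi => ?_)
      rw [hU3, mem_filter] at hi
      obtain ⟨k, hk⟩ := hK i
      have := hi.2
      omega
    omega
  calc P1.card * P3.card * (n + 1) ^ (2 * s)
      ≤ (ones K + 1) ^ (2 * s) * (2 * E) ^ (2 * s / 3) * (n + 1) ^ (2 * s) :=
        Nat.mul_le_mul_right _ (Nat.mul_le_mul hc1 hc3)
    _ = (n + 1) ^ (2 * s) * (ones K + 1) ^ (2 * s) * (2 * E) ^ (2 * s / 3) := by ring

theorem XK_le_near {ρ : Type} [Fintype ρ] (K : ρ → ℕ) (hK : ∀ i, Odd (K i)) (E : ℕ)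
    (hE : ∑ i, K i = 2 * E) (h1 : 1 ≤ E) (m s : ℕ) (hm : m + s = E) (rest : List ℕ) :
    |XK K (m :: rest)| ≤ mt (rest.length + 1) * 2 ^ ((rest.length + 1) / 2) *
      ((rest.length : ℝ) + 1) ^ (2 * s) * ((ones K : ℝ) + 1) ^ (2 * s) *
      (2 * (E : ℝ)) ^ (2 * s / 3) := by
  classical
  set n := rest.length with hn
  have hX : XK K (m :: rest) = ∑ f : ρ → Fin (n + 1),
      pfL (fun a b => zf ((asg K f a : ℤ) - 2 * ((m :: rest).get a : ℤ))
        ((asg K f b : ℤ) - 2 * ((m :: rest).get b : ℤ))) (List.finRange (n + 1)) := by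
    unfold XK
    refine Finset.sum_congr ?_ (fun _ _ => rfl)
    ext f
    exact ⟨fun _ => mem_univ _, fun _ => mem_univ _⟩
  rw [hX]
  refine (Finset.abs_sum_le_sum_abs _ _).trans ?_
  have hstep : ∀ f : ρ → Fin (n + 1),
      |pfL (fun a b => zf ((asg K f a : ℤ) - 2 * ((m :: rest).get a : ℤ))
        ((asg K f b : ℤ) - 2 * ((m :: rest).get b : ℤ))) (List.finRange (n + 1))| ≤
      if 2 * m ≤ asg K f 0 then (mt (n + 1) * 2 ^ ((n + 1) / 2) : ℝ) else 0 := by
    intro f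
    split_ifs with h
    · exact x2_pf_le (fun a => (asg K f a : ℤ) - 2 * ((m :: rest).get a : ℤ))
    · have h0 : ((asg K f 0 : ℤ) - 2 * ((m :: rest).get 0 : ℤ)) < 0 := by
        have : (m :: rest).get 0 = m := rfl
        rw [this]
        omega
      have := x2_pf_zero' (fun a => (asg K f a : ℤ) - 2 * ((m :: rest).get a : ℤ)) h0
      rw [this, abs_zero]
  refine (Finset.sum_le_sum (fun f _ => hstep f)).trans ?_
  rw [← Finset.sum_filter, Finset.sum_const, nsmul_eq_mul]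
  have hc := x2_count K hK E hE h1 m s n hm
  have hc' : (((univ.filter (fun f : ρ → Fin (n + 1) => 2 * m ≤ asg K f 0)).card : ℕ) : ℝ) ≤
      ((n : ℝ) + 1) ^ (2 * s) * ((ones K : ℝ) + 1) ^ (2 * s) * (2 * (E : ℝ)) ^ (2 * s / 3) := by
    exact_mod_cast hc
  have hpos : (0 : ℝ) ≤ mt (n + 1) * 2 ^ ((n + 1) / 2) := by positivity
  refine (mul_le_mul_of_nonneg_right hc' hpos).trans (le_of_eq ?_)
  ring

end Pool.Agent.Helper34.MVU
end

/- Helper34.MVU.Reg0 -/
section
/-!
Project MV, block U, module U-T0 (Reg0): the terms with first part `m = E - s`, `1 ≤ s ≤ s0`.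

PROOF. Let `s = E - m`, `1 ≤ s ≤ s0`, `S' = S.erase m`; its sum is `s ≤ s0`, so `S' ⊆ Icc 1 s0` and
all its elements are `< m` (`m ≥ E - s0 ≥ s0 + 2`). `dl S = m :: tl S'` (`dl_insert`,
`Finset.insert_erase`). Then (`C` = constants depending on `s0` only)
 - `(1/2)^(card S) ≤ 1`;
 - `Π_{S} cc a = cc m Π_{S'} cc a`, `cc m ≤ m!/√m` (`cc_le`), `Π_{S'} cc a ≤ Π a! ≤ (s0!)^s0`
   (`cc_le_fact`; `card S' ≤ s0`), `E! = m! Π_{i=m+1}^E i ≥ m! m^s` (`Nat.factorial_mul_pow_le_factorial`)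
   and `m ≥ E/2` give `m!/√m ≤ E! (2/E)^s √2/√E`;
 - `|XK K (m :: tl S')| ≤ mt(l) 2^(l/2) l^(2s) (ones K+1)^(2s) (2E)^(2s/3)`, `l = (tl S').length + 1 ≤ s0+2`
   (`XK_le_near`, `length_tl`), `≤ C (ones K+1)^(2 s0) E^(2s/3)` (natural number division `2s/3`;
   `mt l ≤ l!` or take the maximum over `l ≤ s0 + 2`);
 - `|Wick …| ≤ C 2^m ≤ C 2^E` (`Wick_tl_le`).
Product: `≤ C (ones K+1)^(2 s0) 2^E E! E^(-1/2) E^(-s) E^(2s/3)`, and `s - (2s/3 : ℕ) ≥ 1` for `s ≥ 1`, so
`E^(-s) E^(2s/3) ≤ 1/E`, `E!/E = (E-1)!`, `2^E (E-1)! = bE E`.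
-/

namespace Pool.Agent.Helper34.MVU

open Finset Pool.Agent.Helper60.MV

private theorem reg0_sub {s : ℕ} (T : Finset ℕ) (h1 : ∀ a ∈ T, 1 ≤ a) (h2 : ∑ a ∈ T, a = s) :
    T ⊆ Icc 1 s := by
  intro a ha
  rw [Finset.mem_Icc]
  refine ⟨h1 a ha, ?_⟩
  rw [← h2]
  exact Finset.single_le_sum (f := fun a => a) (fun _ _ => Nat.zero_le _) ha

private theorem reg0_prod (s0 : ℕ) (T : Finset ℕ) (hT : T ⊆ Icc 1 s0) :
    |∏ a ∈ T, cc a| ≤ ((s0.factorial : ℝ)) ^ s0 := by
  rw [abs_of_nonneg (Finset.prod_nonneg (fun a _ => (cc_pos a).le))]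
  have h1 : (1 : ℝ) ≤ (s0.factorial : ℝ) := by exact_mod_cast Nat.one_le_iff_ne_zero.2 (Nat.factorial_ne_zero s0)
  calc ∏ a ∈ T, cc a ≤ ∏ _a ∈ T, (s0.factorial : ℝ) := by
        refine Finset.prod_le_prod (fun a _ => (cc_pos a).le) (fun a ha => ?_)
        refine (cc_le_fact a).trans ?_
        exact_mod_cast Nat.factorial_le (Finset.mem_Icc.1 (hT ha)).2
    _ = (s0.factorial : ℝ) ^ T.card := by rw [Finset.prod_const]
    _ ≤ (s0.factorial : ℝ) ^ s0 := by
        refine pow_le_pow_right₀ h1 ?_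
        have := Finset.card_le_card hT
        rw [Nat.card_Icc] at this
        omega

private theorem reg0_fact (s0 m s E : ℕ) (hm : m + s = E) (hs1 : 1 ≤ s) (hs0 : s ≤ s0)
    (hE : 2 * s0 + 2 ≤ E) :
    cc m * (2 * (E : ℝ)) ^ (2 * s / 3) ≤
      (2 * 2 ^ s0 * 2 ^ s0) * ((E : ℝ) ^ (-(1 / 2) : ℝ) * ((E - 1).factorial : ℝ)) := by
  have hm1 : 1 ≤ m := by omega
  have hEr : (1 : ℝ) ≤ (E : ℝ) := by exact_mod_cast (by omega : 1 ≤ E)
  have hmr : (0 : ℝ) < (m : ℝ) := by exact_mod_cast hm1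
  have hEp : (0 : ℝ) < (E : ℝ) := by linarith
  -- the square roots
  have hsq : 1 / Real.sqrt m ≤ 2 * (E : ℝ) ^ (-(1 / 2) : ℝ) := by
    rw [Real.rpow_neg hEp.le, ← Real.sqrt_eq_rpow]
    have h4 : (E : ℝ) ≤ 2 ^ 2 * m := by
      have : E ≤ 4 * m := by omega
      have h : (E : ℝ) ≤ 4 * m := by exact_mod_cast this
      linarith
    have h5 : Real.sqrt E ≤ 2 * Real.sqrt m := by
      calc Real.sqrt E ≤ Real.sqrt (2 ^ 2 * m) := Real.sqrt_le_sqrt h4
        _ = 2 * Real.sqrt m := by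
          rw [Real.sqrt_mul (by norm_num), Real.sqrt_sq (by norm_num)]
    have h6 : 0 < Real.sqrt m := Real.sqrt_pos.2 hmr
    have h7 : 0 < Real.sqrt E := Real.sqrt_pos.2 hEp
    rw [div_le_iff₀ h6]
    calc (1 : ℝ) = Real.sqrt E * (Real.sqrt E)⁻¹ := by field_simp
      _ ≤ (2 * Real.sqrt m) * (Real.sqrt E)⁻¹ := by
          exact mul_le_mul_of_nonneg_right h5 (by positivity)
      _ = 2 * (Real.sqrt E)⁻¹ * Real.sqrt m := by ring
  -- the factorials
  have hfac : (m.factorial : ℝ) * (E : ℝ) ^ (s - 1) ≤ 2 ^ s0 * ((E - 1).factorial : ℝ) := by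
    have h1 : m.factorial * (m + 1) ^ (s - 1) ≤ (m + (s - 1)).factorial :=
      Nat.factorial_mul_pow_le_factorial
    have h2 : m + (s - 1) = E - 1 := by omega
    rw [h2] at h1
    have h3 : E ^ (s - 1) ≤ 2 ^ (s - 1) * (m + 1) ^ (s - 1) := by
      rw [← mul_pow]
      exact Nat.pow_le_pow_left (by omega) _
    have h4 : m.factorial * E ^ (s - 1) ≤ 2 ^ s0 * (E - 1).factorial := by
      calc m.factorial * E ^ (s - 1) ≤ m.factorial * (2 ^ (s - 1) * (m + 1) ^ (s - 1)) :=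
            Nat.mul_le_mul_left _ h3
        _ = 2 ^ (s - 1) * (m.factorial * (m + 1) ^ (s - 1)) := by ring
        _ ≤ 2 ^ s0 * (E - 1).factorial :=
            Nat.mul_le_mul (Nat.pow_le_pow_right (by norm_num) (by omega)) h1
    exact_mod_cast h4
  have hpow : (2 * (E : ℝ)) ^ (2 * s / 3) ≤ 2 ^ s0 * (E : ℝ) ^ (s - 1) := by
    rw [mul_pow]
    refine mul_le_mul (pow_le_pow_right₀ (by norm_num) (by omega))
      (pow_le_pow_right₀ hEr (by omega)) (by positivity) (by positivity)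
  have hE0 : (0 : ℝ) ≤ (E : ℝ) ^ (-(1 / 2) : ℝ) := Real.rpow_nonneg hEp.le _
  calc cc m * (2 * (E : ℝ)) ^ (2 * s / 3)
      ≤ ((m.factorial : ℝ) / Real.sqrt m) * (2 ^ s0 * (E : ℝ) ^ (s - 1)) :=
        mul_le_mul (cc_le m hm1) hpow (by positivity) (by positivity)
    _ = (1 / Real.sqrt m) * (2 ^ s0 * ((m.factorial : ℝ) * (E : ℝ) ^ (s - 1))) := by ring
    _ ≤ (2 * (E : ℝ) ^ (-(1 / 2) : ℝ)) * (2 ^ s0 * (2 ^ s0 * ((E - 1).factorial : ℝ))) :=
        mul_le_mul hsq (mul_le_mul_of_nonneg_left hfac (by positivity)) (by positivity)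
          (by positivity)
    _ = (2 * 2 ^ s0 * 2 ^ s0) * ((E : ℝ) ^ (-(1 / 2) : ℝ) * ((E - 1).factorial : ℝ)) := by ring

theorem reg0 (s0 : ℕ) : ∃ C : ℝ, 0 ≤ C ∧ ∀ {ρ : Type} [Fintype ρ] (K : ρ → ℕ)
    (_ : ∀ i, Odd (K i)) (E : ℕ) (_ : ∑ i, K i = 2 * E) (_ : 2 * s0 + 2 ≤ E) (S : Finset ℕ)
    (_ : S ∈ stp E) (m : ℕ) (_ : m ∈ S) (_ : m < E) (_ : E ≤ m + s0),
    |term K S| ≤ C * ((ones K : ℝ) + 1) ^ (2 * s0) * (E : ℝ) ^ (-(1 / 2) : ℝ) * bE E := by
  obtain ⟨CW, hCW0, hCW⟩ := Wick_tl_le s0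
  set D : ℝ := ∑ l ∈ range (s0 + 3), (mt l : ℝ) with hD
  have hD0 : 0 ≤ D := Finset.sum_nonneg (fun _ _ => Nat.cast_nonneg _)
  refine ⟨(2 * 2 ^ s0 * 2 ^ s0) * (s0.factorial : ℝ) ^ s0 *
    (D * 2 ^ (s0 + 2) * ((s0 : ℝ) + 2) ^ (2 * s0)) * CW, by positivity, ?_⟩
  intro ρ _ K hK E hKE hE S hS m hmS hmE hEm
  obtain ⟨s, hs⟩ : ∃ s, m + s = E := ⟨E - m, by omega⟩
  have hs1 : 1 ≤ s := by omega
  have hs0 : s ≤ s0 := by omega
  obtain ⟨hS1, hS2⟩ := (mem_stp E S).1 hS
  set T := S.erase m with hT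
  have hTS : insert m T = S := Finset.insert_erase hmS
  have hmT : m ∉ T := Finset.notMem_erase m S
  have hTsum : ∑ a ∈ T, a = s := by
    have h := Finset.sum_insert (f := fun a => a) hmT
    rw [hTS] at h
    omega
  have hT1 : ∀ a ∈ T, 1 ≤ a := fun a ha => hS1 a (Finset.mem_of_mem_erase ha)
  have hTs : T ⊆ Icc 1 s := reg0_sub T hT1 hTsum
  have hTs0 : T ⊆ Icc 1 s0 := hTs.trans (Finset.Icc_subset_Icc_right hs0)
  have hTm : ∀ a ∈ T, a < m := by
    intro a ha
    have := (Finset.mem_Icc.1 (hTs0 ha)).2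
    omega
  have hdl : dl S = m :: tl T := by rw [← hTS]; exact dl_insert m T hTm
  have hTcard : T.card ≤ s0 := by
    have := Finset.card_le_card hTs0
    rw [Nat.card_Icc] at this
    omega
  have hlen : (tl T).length ≤ s0 + 1 := (length_tl T).trans (by omega)
  -- the four factors
  have hX := XK_le_near K hK E hKE (by omega) m s hs (tl T)
  have hW := hCW T (Finset.mem_powerset.2 hTs0) m
  have hP := reg0_prod s0 T hTs0
  have hF := reg0_fact s0 m s E hs hs1 hs0 hE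
  have hEp : (0 : ℝ) ≤ (E : ℝ) := Nat.cast_nonneg _
  have hmt : (mt ((tl T).length + 1) : ℝ) ≤ D :=
    Finset.single_le_sum (f := fun l => (mt l : ℝ)) (fun _ _ => Nat.cast_nonneg _)
      (Finset.mem_range.2 (by omega))
  have h2p : (2 : ℝ) ^ (((tl T).length + 1) / 2) ≤ 2 ^ (s0 + 2) :=
    pow_le_pow_right₀ (by norm_num) (by omega)
  have hlp : (((tl T).length : ℝ) + 1) ^ (2 * s) ≤ ((s0 : ℝ) + 2) ^ (2 * s0) := by
    have h1 : ((tl T).length : ℝ) + 1 ≤ (s0 : ℝ) + 2 := by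
      have : (((tl T).length : ℕ) : ℝ) ≤ ((s0 + 1 : ℕ) : ℝ) := by exact_mod_cast hlen
      push_cast at this
      linarith
    calc (((tl T).length : ℝ) + 1) ^ (2 * s) ≤ ((s0 : ℝ) + 2) ^ (2 * s) :=
          pow_le_pow_left₀ (by positivity) h1 _
      _ ≤ ((s0 : ℝ) + 2) ^ (2 * s0) := by
          refine pow_le_pow_right₀ ?_ (by omega)
          have : (0 : ℝ) ≤ (s0 : ℝ) := Nat.cast_nonneg _
          linarith
  have hop : ((ones K : ℝ) + 1) ^ (2 * s) ≤ ((ones K : ℝ) + 1) ^ (2 * s0) := by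
    refine pow_le_pow_right₀ ?_ (by omega)
    have : (0 : ℝ) ≤ (ones K : ℝ) := Nat.cast_nonneg _
    linarith
  have hX2 : |XK K (m :: tl T)| ≤ (D * 2 ^ (s0 + 2) * ((s0 : ℝ) + 2) ^ (2 * s0)) *
      ((ones K : ℝ) + 1) ^ (2 * s0) * (2 * (E : ℝ)) ^ (2 * s / 3) := by
    refine hX.trans ?_
    gcongr
  have hhalf : ((1 : ℝ) / 2) ^ S.card ≤ 1 := pow_le_one₀ (by norm_num) (by norm_num)
  have hccm := cc_pos m
  have hW2 : |Wick (pfL QQ (m :: tl T))| ≤ CW * 2 ^ E := by
    refine hW.trans (mul_le_mul_of_nonneg_left ?_ hCW0)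
    exact pow_le_pow_right₀ (by norm_num) (by omega)
  have hprod : ∏ a ∈ S, cc a = cc m * ∏ a ∈ T, cc a := by
    rw [← hTS, Finset.prod_insert hmT]
  unfold term
  rw [hdl, hprod, abs_mul, abs_mul, abs_mul, abs_mul, abs_of_nonneg (by positivity :
    (0 : ℝ) ≤ (1 / 2) ^ S.card), abs_of_pos hccm]
  set A : ℝ := D * 2 ^ (s0 + 2) * ((s0 : ℝ) + 2) ^ (2 * s0) with hA
  have hA0 : 0 ≤ A := by positivity
  calc (1 / 2 : ℝ) ^ S.card * (cc m * |∏ a ∈ T, cc a|) * |XK K (m :: tl T)| *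
        |Wick (pfL QQ (m :: tl T))|
      ≤ 1 * (cc m * (s0.factorial : ℝ) ^ s0) *
        (A * ((ones K : ℝ) + 1) ^ (2 * s0) * (2 * (E : ℝ)) ^ (2 * s / 3)) * (CW * 2 ^ E) := by
        gcongr
    _ = ((s0.factorial : ℝ) ^ s0 * A * CW * ((ones K : ℝ) + 1) ^ (2 * s0) * 2 ^ E) *
        (cc m * (2 * (E : ℝ)) ^ (2 * s / 3)) := by ring
    _ ≤ ((s0.factorial : ℝ) ^ s0 * A * CW * ((ones K : ℝ) + 1) ^ (2 * s0) * 2 ^ E) *
        ((2 * 2 ^ s0 * 2 ^ s0) * ((E : ℝ) ^ (-(1 / 2) : ℝ) * ((E - 1).factorial : ℝ))) :=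
        mul_le_mul_of_nonneg_left hF (by positivity)
    _ = (2 * 2 ^ s0 * 2 ^ s0) * (s0.factorial : ℝ) ^ s0 * A * CW *
        ((ones K : ℝ) + 1) ^ (2 * s0) * (E : ℝ) ^ (-(1 / 2) : ℝ) * bE E := by
        unfold bE
        ring

end Pool.Agent.Helper34.MVU
end
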