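import Pool.Agent.Helper16.LGG.G02
import Pool.Agent.Helper16.LGG.G03
import Pool.Agent.Helper16.LGG.G05
import Pool.Agent.Helper16.LGG.G10

/- Helper60.MV.B.B1 -/
section
/-!
MV-B8. Assembly of block B1.

Proof. `F(x) = Π_c kern ε (pR P c false x) (pR P c true x)` is continuous (`kern_continuous`) and on the orthant
`|F| <= (e^{ε/2}/ε)^{|κ|} e^{-(1/4) ∑_c (p_c + p'_c)} = C e^{-(1/2) ∑ x_e}` (`kern_exp`, `corr_le`, column sums 2). By `riemann_sum`,
`t^|ι| ∑'_l F(t l) -> AM P ε 0` (for `0<ε`). By `group_upper/lower`, `st_compare`, `st_odd` this sum is, for `0<ε<=1`, between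
`e^{∓C'ε} · t^|ι| · St P t 0 · ∑'_{δ, ∑δ even} Π corr ε (t δ_c)` (`corr ε (t δ_c) = 0` unless `|t δ_c| < 2ε`), and
`t^|κ| ∑'_{δ even} Π corr -> 1/2`, `St P t 0 = t^|κ| SM P t`. Put `Y(t) = t^|ι| SM P t >= 0`. So for each `0<ε<=1`
`(1/2) e^{-C'ε} limsup Y <= AM P ε 0 <= (1/2) e^{C'ε} liminf Y`
(in particular `Y` is eventually bounded). Letting `ε -> 0` with `AM P ε 0` finite: `Y` converges (bounded, liminf = limsup since
`limsup Y <= e^{2C'ε} liminf Y` for all small `ε`), to `2a`, and then `e^{-C'ε} a <= AM P ε 0 <= e^{C'ε} a`, so `AM P ε 0 -> a`.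
-/

namespace Pool.Agent.Helper60.MV

open Finset MeasureTheory Filter Topology

theorem b1_bound {ι κ : Type} [Fintype ι] [Fintype κ] (P : κ → Bool → ι → ℕ)
    (hcol : ∀ e, ∑ c, (P c false e + P c true e) = 2) (ε : ℝ) (hε : 0 < ε) (x : ι → ℝ) :
    |∏ c, kern ε (pR P c false x) (pR P c true x)| ≤
      (Real.exp (ε / 2) * ε⁻¹) ^ (Fintype.card κ) * Real.exp (-(1 / 2 * ∑ e, x e)) := by
  have h0 : ∀ c, 0 ≤ kern ε (pR P c false x) (pR P c true x) := fun c => kern_nonneg ε hε _ _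
  rw [abs_of_nonneg (Finset.prod_nonneg (fun c _ => h0 c))]
  have h1 : ∀ c ∈ (univ : Finset κ), kern ε (pR P c false x) (pR P c true x) ≤
      (Real.exp (ε / 2) * ε⁻¹) * Real.exp (-((pR P c false x + pR P c true x) / 4)) := by
    intro c _
    refine (kern_exp ε hε _ _).trans ?_
    have := corr_le ε hε (pR P c false x - pR P c true x)
    have h2 : 0 ≤ Real.exp (ε / 2) * Real.exp (-((pR P c false x + pR P c true x) / 4)) := by
      positivity
    calc _ ≤ Real.exp (ε / 2) * Real.exp (-((pR P c false x + pR P c true x) / 4)) * ε⁻¹ :=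
          mul_le_mul_of_nonneg_left this h2
      _ = _ := by ring
  refine (Finset.prod_le_prod (fun c _ => h0 c) h1).trans (le_of_eq ?_)
  rw [Finset.prod_mul_distrib, Finset.prod_const, ← Real.exp_sum, Finset.card_univ]
  have h3 : ∑ c, (pR P c false x + pR P c true x) = 2 * ∑ e, x e := by
    unfold pR
    simp_rw [← Finset.sum_add_distrib, ← add_mul]
    rw [Finset.sum_comm, Finset.mul_sum]
    apply Finset.sum_congr rfl
    intro e _
    rw [← Finset.sum_mul]
    congr 1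
    have := hcol e
    exact_mod_cast this
  have h4 : ∑ c, -((pR P c false x + pR P c true x) / 4) =
      -((∑ c, (pR P c false x + pR P c true x)) / 4) := by
    rw [Finset.sum_div, Finset.sum_neg_distrib]
  rw [h4, h3]
  congr 2
  ring

theorem b1_sandwich {ι κ : Type} [Fintype ι] [Fintype κ] (P : κ → Bool → ι → ℕ) (hP : Adm P)
    (C : ℝ) (hC : ∀ (ε t : ℝ) (_ : 0 < ε) (_ : ε ≤ 1) (_ : 0 < t) (δ : κ → ℤ)
      (_ : Even (∑ c, δ c)) (_ : ∀ c, |t * (δ c : ℝ)| ≤ 2 * ε),
      Real.exp (-(C * ε)) * St P t 0 ≤ St P t δ ∧ Real.exp (-(C * ε)) * St P t δ ≤ St P t 0)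
    (ε t : ℝ) (hε : 0 < ε) (hε1 : ε ≤ 1) (ht : 0 < t) :
    (∑' δ : κ → ℤ, (∏ c, corr ε (t * (δ c : ℝ))) * St P t δ) ≤
      Real.exp (C * ε) * St P t 0 *
        ∑' δ : κ → ℤ, (if Even (∑ c, δ c) then ∏ c, corr ε (t * (δ c : ℝ)) else 0) ∧
    Real.exp (-(C * ε)) * St P t 0 *
        (∑' δ : κ → ℤ, (if Even (∑ c, δ c) then ∏ c, corr ε (t * (δ c : ℝ)) else 0)) ≤
      ∑' δ : κ → ℤ, (∏ c, corr ε (t * (δ c : ℝ))) * St P t δ := by
  have hfin := corr_sum_finite (κ := κ) ε hε t ht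
  have hs1 : Summable (fun δ : κ → ℤ => (∏ c, corr ε (t * (δ c : ℝ))) * St P t δ) := by
    apply summable_of_hasFiniteSupport
    apply hfin.subset
    intro δ hδ
    simp only [Function.mem_support] at hδ ⊢
    exact left_ne_zero_of_mul hδ
  have hs2 : Summable (fun δ : κ → ℤ =>
      (if Even (∑ c, δ c) then ∏ c, corr ε (t * (δ c : ℝ)) else 0)) := by
    apply summable_of_hasFiniteSupport
    apply hfin.subset
    intro δ hδ
    simp only [Function.mem_support] at hδ ⊢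
    split_ifs at hδ with h
    · exact hδ
    · exact absurd rfl hδ
  have key : ∀ δ : κ → ℤ, (∏ c, corr ε (t * (δ c : ℝ))) * St P t δ ≤
      Real.exp (C * ε) * St P t 0 *
        (if Even (∑ c, δ c) then ∏ c, corr ε (t * (δ c : ℝ)) else 0) ∧
      Real.exp (-(C * ε)) * St P t 0 *
        (if Even (∑ c, δ c) then ∏ c, corr ε (t * (δ c : ℝ)) else 0) ≤
      (∏ c, corr ε (t * (δ c : ℝ))) * St P t δ := by
    intro δ
    by_cases he : Even (∑ c, δ c)
    · rw [if_pos he]
      by_cases hb : ∀ c, |t * (δ c : ℝ)| ≤ 2 * ε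
      · obtain ⟨h1, h2⟩ := hC ε t hε hε1 ht δ he hb
        have hp : 0 ≤ ∏ c, corr ε (t * (δ c : ℝ)) :=
          Finset.prod_nonneg (fun c _ => corr_nonneg ε hε _)
        have h3 : St P t δ ≤ Real.exp (C * ε) * St P t 0 := by
          have := mul_le_mul_of_nonneg_left h2 (Real.exp_pos (C * ε)).le
          rwa [← mul_assoc, ← Real.exp_add, add_neg_cancel, Real.exp_zero, one_mul] at this
        constructor
        · rw [mul_comm]; exact mul_le_mul_of_nonneg_right h3 hp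
        · rw [mul_comm _ (St P t δ)]; exact mul_le_mul_of_nonneg_right h1 hp
      · push Not at hb
        obtain ⟨c, hc⟩ := hb
        have h0 : ∏ c, corr ε (t * (δ c : ℝ)) = 0 :=
          Finset.prod_eq_zero (Finset.mem_univ c) (corr_zero ε hε _ hc.le)
        rw [h0]; simp
    · rw [if_neg he, st_odd P hP t δ he]; simp
  constructor
  · rw [← tsum_mul_left]
    exact hs1.tsum_le_tsum (fun δ => (key δ).1) (hs2.mul_left _)
  · rw [← tsum_mul_left]
    exact (hs2.mul_left _).tsum_le_tsum (fun δ => (key δ).2) hs1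

theorem st_nonneg {ι κ : Type} [Fintype ι] [Fintype κ] (P : κ → Bool → ι → ℕ) (t : ℝ)
    (δ : κ → ℤ) : 0 ≤ St P t δ := by
  unfold St
  apply tsum_nonneg
  intro l
  split_ifs
  · exact Finset.prod_nonneg (fun c _ => (phi_pos _).le)
  · exact le_refl _

theorem blockB1' {ι κ : Type} [Fintype ι] [Fintype κ] [Nonempty κ]
    (P : κ → Bool → ι → ℕ) (hP : Adm P) :
    ∃ a : ℝ, Tendsto (fun t => t ^ (Fintype.card ι) * SM P t) (𝓝[>] (0:ℝ)) (𝓝 (2 * a)) ∧
      Tendsto (fun ε => AM P ε 0) (𝓝[>] (0:ℝ)) (𝓝 a) := by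
  obtain ⟨C, hC0, hC⟩ := st_compare P hP
  set Y : ℝ → ℝ := fun t => t ^ (Fintype.card ι) * SM P t with hY
  set τ : ℝ → ℝ → ℝ := fun ε t => t ^ (Fintype.card κ) *
      ∑' δ : κ → ℤ, (if Even (∑ c, δ c) then ∏ c, corr ε (t * (δ c : ℝ)) else 0) with hτ
  have hτlim : ∀ ε : ℝ, 0 < ε → Tendsto (τ ε) (𝓝[>] (0:ℝ)) (𝓝 (1 / 2)) := fun ε hε =>
    corr_parity_sum ε hε
  set G : ℝ → ℝ → ℝ := fun ε t => t ^ (Fintype.card ι) * ∑' l : ι → ℕ+,
      ∏ c, kern ε (pR P c false (fun e => t * ((l e : ℕ) : ℝ)))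
      (pR P c true (fun e => t * ((l e : ℕ) : ℝ))) with hG
  have hpR : ∀ c b, Continuous (pR P c b) := by
    intro c b
    unfold pR
    fun_prop
  have hGlim : ∀ ε : ℝ, 0 < ε → Tendsto (G ε) (𝓝[>] (0:ℝ)) (𝓝 (AM P ε 0)) := by
    intro ε hε
    have hcont : Continuous (fun x : ι → ℝ => ∏ c, kern ε (pR P c false x) (pR P c true x)) := by
      apply continuous_finsetProd
      intro c _
      exact (kern_continuous ε hε).comp ((hpR c false).prodMk (hpR c true))
    have h1 := riemann_sum (fun x : ι → ℝ => ∏ c, kern ε (pR P c false x) (pR P c true x))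
      hcont.continuousOn ((Real.exp (ε / 2) * ε⁻¹) ^ (Fintype.card κ)) (1 / 2) (by norm_num)
      (fun x _ => b1_bound P hP.col ε hε x)
    have h2 : AM P ε 0 = ∫ x in {x : ι → ℝ | ∀ e, 0 < x e},
        ∏ c, kern ε (pR P c false x) (pR P c true x) := by
      unfold AM pR
      simp
    rw [h2]
    exact h1
  have hAnn : ∀ ε : ℝ, 0 < ε → 0 ≤ AM P ε 0 := by
    intro ε hε
    unfold AM
    apply integral_nonneg
    intro x
    exact Finset.prod_nonneg (fun c _ => kern_nonneg ε hε _ _)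
  have hYnn : ∀ t : ℝ, 0 < t → 0 ≤ Y t := by
    intro t ht
    have h1 := st_zero P hP t ht
    have h2 := st_nonneg P t 0
    have h3 : 0 ≤ SM P t := by
      by_contra h
      push Not at h
      have : t ^ (Fintype.card κ) * SM P t < 0 := mul_neg_of_pos_of_neg (pow_pos ht _) h
      linarith
    exact mul_nonneg (pow_nonneg ht.le _) h3
  set D : ℝ := Fintype.card κ + C with hD
  have hD0 : 0 < D := by positivity
  -- the sandwich
  have hup : ∀ ε t : ℝ, 0 < ε → ε ≤ 1 → 0 < t → G ε t ≤ Real.exp (D * ε) * (Y t * τ ε t) := by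
    intro ε t hε hε1 ht
    have h1 := group_upper P hP ε t hε ht
    have h2 := (b1_sandwich P hP C hC ε t hε hε1 ht).1
    have h3 := st_zero P hP t ht
    have h4 : 0 ≤ t ^ (Fintype.card ι) := pow_nonneg ht.le _
    calc G ε t ≤ t ^ (Fintype.card ι) * (Real.exp (Fintype.card κ * ε) *
          ∑' δ : κ → ℤ, (∏ c, corr ε (t * (δ c : ℝ))) * St P t δ) :=
          mul_le_mul_of_nonneg_left h1 h4
      _ ≤ t ^ (Fintype.card ι) * (Real.exp (Fintype.card κ * ε) *
          (Real.exp (C * ε) * St P t 0 *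
        ∑' δ : κ → ℤ, (if Even (∑ c, δ c) then ∏ c, corr ε (t * (δ c : ℝ)) else 0))) :=
          mul_le_mul_of_nonneg_left (mul_le_mul_of_nonneg_left h2 (Real.exp_pos _).le) h4
      _ = _ := by
        rw [h3, hD, add_mul, Real.exp_add]
        simp only [hY, hτ]
        ring
  have hlo : ∀ ε t : ℝ, 0 < ε → ε ≤ 1 → 0 < t →
      Real.exp (-(D * ε)) * (Y t * τ ε t) ≤ G ε t := by
    intro ε t hε hε1 ht
    have h1 := group_lower P hP ε t hε ht
    have h2 := (b1_sandwich P hP C hC ε t hε hε1 ht).2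
    have h3 := st_zero P hP t ht
    have h4 : 0 ≤ t ^ (Fintype.card ι) := pow_nonneg ht.le _
    calc Real.exp (-(D * ε)) * (Y t * τ ε t) =
          t ^ (Fintype.card ι) * (Real.exp (-(Fintype.card κ * ε)) *
          (Real.exp (-(C * ε)) * St P t 0 *
        ∑' δ : κ → ℤ, (if Even (∑ c, δ c) then ∏ c, corr ε (t * (δ c : ℝ)) else 0))) := by
          rw [h3, hD, add_mul, neg_add, Real.exp_add]
          simp only [hY, hτ]
          ring
      _ ≤ t ^ (Fintype.card ι) * (Real.exp (-(Fintype.card κ * ε)) *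
          ∑' δ : κ → ℤ, (∏ c, corr ε (t * (δ c : ℝ))) * St P t δ) :=
          mul_le_mul_of_nonneg_left (mul_le_mul_of_nonneg_left h2 (Real.exp_pos _).le) h4
      _ ≤ G ε t := mul_le_mul_of_nonneg_left h1 h4
  have hpos : ∀ᶠ t : ℝ in 𝓝[>] (0:ℝ), 0 < t := self_mem_nhdsWithin
  have hτpos : ∀ ε : ℝ, 0 < ε → ∀ᶠ t in 𝓝[>] (0:ℝ), 0 < τ ε t := fun ε hε =>
    (hτlim ε hε).eventually (lt_mem_nhds (by norm_num))
  have hq : ∀ ε : ℝ, 0 < ε → Tendsto (fun t => G ε t / τ ε t) (𝓝[>] (0:ℝ))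
      (𝓝 (2 * AM P ε 0)) := by
    intro ε hε
    have h := (hGlim ε hε).div (hτlim ε hε) (by norm_num)
    have h2 : AM P ε 0 / (1 / 2) = 2 * AM P ε 0 := by ring
    rw [h2] at h
    exact h
  have hYup : ∀ ε : ℝ, 0 < ε → ε ≤ 1 → ∀ᶠ t in 𝓝[>] (0:ℝ),
      Y t ≤ Real.exp (D * ε) * (G ε t / τ ε t) := by
    intro ε hε hε1
    filter_upwards [hpos, hτpos ε hε] with t ht hτt
    have h1 := hlo ε t hε hε1 ht
    rw [← mul_div_assoc, le_div_iff₀ hτt]
    have h2 := mul_le_mul_of_nonneg_left h1 (Real.exp_pos (D * ε)).le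
    rwa [← mul_assoc, ← Real.exp_add, add_neg_cancel, Real.exp_zero, one_mul] at h2
  have hYlo : ∀ ε : ℝ, 0 < ε → ε ≤ 1 → ∀ᶠ t in 𝓝[>] (0:ℝ),
      Real.exp (-(D * ε)) * (G ε t / τ ε t) ≤ Y t := by
    intro ε hε hε1
    filter_upwards [hpos, hτpos ε hε] with t ht hτt
    have h1 := hup ε t hε hε1 ht
    rw [← mul_div_assoc, div_le_iff₀ hτt]
    calc Real.exp (-(D * ε)) * G ε t ≤ Real.exp (-(D * ε)) * (Real.exp (D * ε) *
          (Y t * τ ε t)) := mul_le_mul_of_nonneg_left h1 (Real.exp_pos (-(D * ε))).le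
      _ = Y t * τ ε t := by
        rw [← mul_assoc, ← Real.exp_add, neg_add_cancel, Real.exp_zero, one_mul]
  have hUB : ∀ ε : ℝ, 0 < ε → Tendsto (fun t => Real.exp (D * ε) * (G ε t / τ ε t)) (𝓝[>] (0:ℝ))
      (𝓝 (Real.exp (D * ε) * (2 * AM P ε 0))) := fun ε hε => (hq ε hε).const_mul _
  have hLB : ∀ ε : ℝ, 0 < ε → Tendsto (fun t => Real.exp (-(D * ε)) * (G ε t / τ ε t))
      (𝓝[>] (0:ℝ)) (𝓝 (Real.exp (-(D * ε)) * (2 * AM P ε 0))) := fun ε hε => (hq ε hε).const_mul _
  have hbdd : IsBoundedUnder (· ≤ ·) (𝓝[>] (0:ℝ)) Y :=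
    (hUB 1 one_pos).isBoundedUnder_le.mono_le (hYup 1 one_pos le_rfl)
  have hbdd' : IsBoundedUnder (· ≥ ·) (𝓝[>] (0:ℝ)) Y :=
    isBoundedUnder_of_eventually_ge (a := 0) (by filter_upwards [hpos] with t ht using hYnn t ht)
  set L := limsup Y (𝓝[>] (0:ℝ)) with hL
  set l := liminf Y (𝓝[>] (0:ℝ)) with hl
  have hLle : ∀ ε : ℝ, 0 < ε → ε ≤ 1 → L ≤ Real.exp (D * ε) * (2 * AM P ε 0) := by
    intro ε hε hε1
    rw [← (hUB ε hε).limsup_eq]
    exact limsup_le_limsup (hYup ε hε hε1) hbdd'.isCoboundedUnder_le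
      (hUB ε hε).isBoundedUnder_le
  have hlge : ∀ ε : ℝ, 0 < ε → ε ≤ 1 → Real.exp (-(D * ε)) * (2 * AM P ε 0) ≤ l := by
    intro ε hε hε1
    rw [← (hLB ε hε).liminf_eq]
    exact liminf_le_liminf (hYlo ε hε hε1) (hLB ε hε).isBoundedUnder_ge
      hbdd.isCoboundedUnder_ge
  have hlL : l ≤ L := liminf_le_limsup hbdd hbdd'
  have hε01 : ∀ᶠ ε : ℝ in 𝓝[>] (0:ℝ), 0 < ε ∧ ε ≤ 1 := by
    filter_upwards [Ioc_mem_nhdsGT (zero_lt_one (α := ℝ))] with ε hε using hε
  have hexp : ∀ s : ℝ, Tendsto (fun ε : ℝ => Real.exp (s * ε)) (𝓝[>] (0:ℝ)) (𝓝 1) := by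
    intro s
    have h1 : Continuous (fun ε : ℝ => Real.exp (s * ε)) := by fun_prop
    have h2 := h1.tendsto 0
    simp only [mul_zero, Real.exp_zero] at h2
    exact h2.mono_left nhdsWithin_le_nhds
  have hLl : L ≤ l := by
    have h1 : Tendsto (fun ε : ℝ => Real.exp ((2 * D) * ε) * l) (𝓝[>] (0:ℝ)) (𝓝 (1 * l)) :=
      (hexp (2 * D)).mul_const l
    rw [one_mul] at h1
    apply ge_of_tendsto h1
    filter_upwards [hε01] with ε hε
    have h2 := hLle ε hε.1 hε.2
    have h3 := mul_le_mul_of_nonneg_left (hlge ε hε.1 hε.2) (Real.exp_pos (2 * D * ε)).le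
    rw [← mul_assoc, ← Real.exp_add] at h3
    have h4 : 2 * D * ε + -(D * ε) = D * ε := by ring
    rw [h4] at h3
    exact h2.trans h3
  have hEq : L = l := le_antisymm hLl hlL
  refine ⟨l / 2, ?_, ?_⟩
  · have h1 : Tendsto Y (𝓝[>] (0:ℝ)) (𝓝 l) :=
      tendsto_of_liminf_eq_limsup rfl hEq hbdd hbdd'
    rw [mul_div_cancel₀ l two_ne_zero]
    exact h1
  · have h1 : Tendsto (fun ε : ℝ => Real.exp ((-D) * ε) * (l / 2)) (𝓝[>] (0:ℝ))
        (𝓝 (1 * (l / 2))) := (hexp (-D)).mul_const _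
    have h2 : Tendsto (fun ε : ℝ => Real.exp (D * ε) * (l / 2)) (𝓝[>] (0:ℝ))
        (𝓝 (1 * (l / 2))) := (hexp D).mul_const _
    rw [one_mul] at h1 h2
    refine tendsto_of_tendsto_of_tendsto_of_le_of_le' h1 h2 ?_ ?_
    · filter_upwards [hε01] with ε hε
      have h3 := hLle ε hε.1 hε.2
      rw [hEq] at h3
      have h4 := mul_le_mul_of_nonneg_left h3 (Real.exp_pos (-D * ε)).le
      rw [← mul_assoc, ← Real.exp_add] at h4
      have h5 : -D * ε + D * ε = 0 := by ring
      rw [h5, Real.exp_zero] at h4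
      linarith
    · filter_upwards [hε01] with ε hε
      have h3 := hlge ε hε.1 hε.2
      have h4 := mul_le_mul_of_nonneg_left h3 (Real.exp_pos (D * ε)).le
      rw [← mul_assoc, ← Real.exp_add] at h4
      have h5 : D * ε + -(D * ε) = 0 := by ring
      rw [h5, Real.exp_zero] at h4
      linarith

end Pool.Agent.Helper60.MV
end

/- Helper60.MV.B.KarP -/
section
/-!
MV-B9. Karamata, polynomial test functions.

Proof. For `p = X^m`: `t^E ∑ c_n e^{-tn} e^{-mtn} = t^E F((m+1)t) -> C/(m+1)^E`, and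
`∫_0^∞ u^{E-1} e^{-(m+1)u} du = (E-1)!/(m+1)^E`. Linear combinations.
-/

namespace Pool.Agent.Helper60.MV

open Finset MeasureTheory Filter Topology

theorem kar_poly_int (E : ℕ) (hE : 1 ≤ E) (m : ℕ) :
    ∫ u in Set.Ioi (0:ℝ), u ^ (E - 1) * Real.exp (-((m + 1 : ℝ) * u)) =
      ((E - 1).factorial : ℝ) / ((m : ℝ) + 1) ^ E := by
  obtain ⟨e, rfl⟩ : ∃ e, E = e + 1 := ⟨E - 1, by omega⟩
  have hm : (0:ℝ) < (m : ℝ) + 1 := by positivity
  have h := Real.integral_rpow_mul_exp_neg_mul_Ioi (a := ((e : ℝ) + 1)) (r := (m : ℝ) + 1)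
    (by positivity) hm
  have h2 : ∫ u in Set.Ioi (0:ℝ), u ^ (e + 1 - 1) * Real.exp (-((m + 1 : ℝ) * u)) =
      ∫ t in Set.Ioi (0:ℝ), t ^ ((e : ℝ) + 1 - 1) * Real.exp (-(((m : ℝ) + 1) * t)) := by
    apply setIntegral_congr_fun measurableSet_Ioi
    intro u hu
    simp only [add_sub_cancel_right, Nat.add_sub_cancel, Real.rpow_natCast]
  rw [h2, h, Real.Gamma_nat_eq_factorial]
  rw [show (1 / ((m : ℝ) + 1)) ^ ((e : ℝ) + 1) = (1 / ((m : ℝ) + 1)) ^ (e + 1) by
    rw [← Real.rpow_natCast]; push_cast; rfl]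
  rw [one_div, inv_pow]
  simp only [Nat.add_sub_cancel]
  field_simp

theorem kar_poly (c : ℕ → ℝ) (hc : ∀ n, 0 ≤ c n) (E : ℕ) (hE : 1 ≤ E) (C : ℝ) (F : ℝ → ℝ)
    (hF : ∀ t, 0 < t → HasSum (fun n : ℕ => c n * Real.exp (-(t * n))) (F t))
    (hlim : Tendsto (fun t => t ^ E * F t) (𝓝[>] (0:ℝ)) (𝓝 C)) (p : Polynomial ℝ) :
    Tendsto (fun t : ℝ => t ^ E * ∑' n : ℕ, c n * Real.exp (-(t * n)) *
      p.eval (Real.exp (-(t * n)))) (𝓝[>] (0:ℝ))
      (𝓝 (C / ((E - 1).factorial : ℝ) *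
        ∫ u in Set.Ioi (0:ℝ), u ^ (E - 1) * Real.exp (-u) * p.eval (Real.exp (-u)))) := by
  -- the integral
  have hfac : ((E - 1).factorial : ℝ) ≠ 0 := by positivity
  have hint : ∀ m : ℕ, Integrable (fun u : ℝ => u ^ (E - 1) * Real.exp (-((m + 1 : ℝ) * u)))
      (volume.restrict (Set.Ioi (0:ℝ))) := by
    intro m
    by_contra hcon
    have h := integral_undef hcon
    rw [kar_poly_int E hE m] at h
    have : (0:ℝ) < ((E - 1).factorial : ℝ) / ((m : ℝ) + 1) ^ E := by positivity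
    linarith
  have hI : ∫ u in Set.Ioi (0:ℝ), u ^ (E - 1) * Real.exp (-u) * p.eval (Real.exp (-u)) =
      ∑ m ∈ range (p.natDegree + 1), p.coeff m *
        (((E - 1).factorial : ℝ) / ((m : ℝ) + 1) ^ E) := by
    have h1 : ∀ u : ℝ, u ^ (E - 1) * Real.exp (-u) * p.eval (Real.exp (-u)) =
        ∑ m ∈ range (p.natDegree + 1), p.coeff m *
          (u ^ (E - 1) * Real.exp (-((m + 1 : ℝ) * u))) := by
      intro u
      rw [Polynomial.eval_eq_sum_range, Finset.mul_sum]
      apply Finset.sum_congr rfl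
      intro m _
      rw [← Real.exp_nat_mul, show -((m + 1 : ℝ) * u) = -u + (m : ℝ) * -u by ring, Real.exp_add]
      ring
    simp_rw [h1]
    rw [integral_finset_sum _ (fun m _ => (hint m).const_mul _)]
    apply Finset.sum_congr rfl
    intro m _
    rw [integral_const_mul, kar_poly_int E hE m]
  -- the sum
  have hS : ∀ t : ℝ, 0 < t → ∑' n : ℕ, c n * Real.exp (-(t * n)) *
      p.eval (Real.exp (-(t * n))) =
      ∑ m ∈ range (p.natDegree + 1), p.coeff m * F (((m : ℝ) + 1) * t) := by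
    intro t ht
    apply HasSum.tsum_eq
    have h1 : ∀ n : ℕ, c n * Real.exp (-(t * n)) * p.eval (Real.exp (-(t * n))) =
        ∑ m ∈ range (p.natDegree + 1), p.coeff m *
          (c n * Real.exp (-((((m : ℝ) + 1) * t) * n))) := by
      intro n
      rw [Polynomial.eval_eq_sum_range, Finset.mul_sum]
      apply Finset.sum_congr rfl
      intro m _
      rw [← Real.exp_nat_mul,
        show -((((m : ℝ) + 1) * t) * n) = -(t * n) + (m : ℝ) * -(t * n) by ring, Real.exp_add]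
      ring
    simp_rw [h1]
    apply hasSum_sum
    intro m _
    exact (hF _ (by positivity)).mul_left _
  -- the limit of each term
  have hterm : ∀ m : ℕ, Tendsto (fun t : ℝ => t ^ E * F (((m : ℝ) + 1) * t)) (𝓝[>] (0:ℝ))
      (𝓝 (C / ((m : ℝ) + 1) ^ E)) := by
    intro m
    have hm : (0:ℝ) < (m : ℝ) + 1 := by positivity
    have hsc : Tendsto (fun t : ℝ => ((m : ℝ) + 1) * t) (𝓝[>] (0:ℝ)) (𝓝[>] (0:ℝ)) := by
      apply tendsto_nhdsWithin_iff.2
      constructor
      · have : Tendsto (fun t : ℝ => ((m : ℝ) + 1) * t) (𝓝 0) (𝓝 (((m : ℝ) + 1) * 0)) :=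
          (continuous_const.mul continuous_id).tendsto 0
        rw [mul_zero] at this
        exact this.mono_left nhdsWithin_le_nhds
      · filter_upwards [self_mem_nhdsWithin] with t ht
        exact mul_pos hm ht
    have h := (hlim.comp hsc).div_const (((m : ℝ) + 1) ^ E)
    refine h.congr' ?_
    filter_upwards [self_mem_nhdsWithin] with t ht
    simp only [Function.comp]
    rw [mul_pow]
    field_simp
  have hlimsum : Tendsto (fun t : ℝ => ∑ m ∈ range (p.natDegree + 1), p.coeff m *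
      (t ^ E * F (((m : ℝ) + 1) * t))) (𝓝[>] (0:ℝ))
      (𝓝 (∑ m ∈ range (p.natDegree + 1), p.coeff m * (C / ((m : ℝ) + 1) ^ E))) :=
    tendsto_finset_sum _ (fun m _ => (hterm m).const_mul _)
  have heq : C / ((E - 1).factorial : ℝ) *
      ∫ u in Set.Ioi (0:ℝ), u ^ (E - 1) * Real.exp (-u) * p.eval (Real.exp (-u)) =
      ∑ m ∈ range (p.natDegree + 1), p.coeff m * (C / ((m : ℝ) + 1) ^ E) := by
    rw [hI, Finset.mul_sum]
    apply Finset.sum_congr rfl
    intro m _
    field_simp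
  rw [heq]
  refine hlimsum.congr' ?_
  filter_upwards [self_mem_nhdsWithin] with t ht
  rw [hS t ht, Finset.mul_sum]
  apply Finset.sum_congr rfl
  intro m _
  ring

end Pool.Agent.Helper60.MV
end

/- Helper60.MV.B.Kar -/
section
/-!
MV-B10. Karamata's Tauberian theorem.

Proof. `∑_{n <= X} c_n = ∑ c_n e^{-tn} g(e^{-tn})` with `t = 1/X`, `g(y) = 1/y` for `y >= e^{-1}`, `0` for `y < e^{-1}`.
For `η > 0` choose continuous `g_1 <= g <= g_2` on `[0,1]` with `∫_0^∞ u^{E-1} e^{-u} (g_2 - g_1)(e^{-u}) du < η` (piecewise linear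
interpolation near `e^{-1}`), then polynomials `p_1 <= g_1`, `p_2 >= g_2` on `[0,1]` with the same property up to `2η` (Weierstrass
approximation within `η` and shift by `∓η`; `∫ u^{E-1}e^{-u}=(E-1)!`). By `kar_poly` at `t = 1/X` the limsup/liminf of
`X^{-E} ∑_{n<=X} c_n` are within `const·η` of `C/(E-1)! ∫_0^∞ u^{E-1} e^{-u} g(e^{-u}) du = C/(E-1)! ∫_0^1 u^{E-1} du = C/E!`.
(Here `C >= 0`.)
-/

namespace Pool.Agent.Helper60.MV

open Finset MeasureTheory Filter Topology

namespace KarAux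

/-- base integrability -/
theorem intOn_base (k : ℕ) : IntegrableOn (fun u : ℝ => u ^ k * Real.exp (-u)) (Set.Ioi 0) := by
  have h := Real.GammaIntegral_convergent (s := (k : ℝ) + 1) (by positivity)
  refine h.congr_fun (fun x _ => ?_) measurableSet_Ioi
  have hx : x ^ ((k : ℝ) + 1 - 1) = x ^ k := by
    rw [add_sub_cancel_right, Real.rpow_natCast]
  simp only [hx]
  ring

theorem intOn_poly (k : ℕ) (p : Polynomial ℝ) :
    IntegrableOn (fun u : ℝ => u ^ k * Real.exp (-u) * p.eval (Real.exp (-u))) (Set.Ioi 0) := by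
  obtain ⟨B, hB⟩ := (isCompact_Icc (a := (0:ℝ)) (b := 1)).exists_bound_of_continuousOn
    (f := fun y => p.eval y) p.continuous.continuousOn
  have h := intOn_base k
  refine Integrable.mono' (h.norm.mul_const B) ?_ ?_
  · refine Continuous.aestronglyMeasurable ?_
    have := p.continuous
    fun_prop
  · refine (ae_restrict_mem measurableSet_Ioi).mono fun u hu => ?_
    rw [norm_mul]
    have hu' : (0:ℝ) < u := hu
    exact mul_le_mul_of_nonneg_left
      (hB _ ⟨(Real.exp_pos _).le, Real.exp_le_one_iff.2 (by linarith)⟩) (norm_nonneg _)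

/-- the cut-off -/
noncomputable def G (x z y : ℝ) : ℝ :=
  1 / max y (Real.exp (-1)) * max 0 (min 1 ((y - x) / (z - x)))

theorem G_cont (x z : ℝ) : Continuous (G x z) := by
  unfold G
  refine Continuous.mul ?_ (by fun_prop)
  refine Continuous.div continuous_const (by fun_prop) (fun y => ?_)
  have : 0 < max y (Real.exp (-1)) := lt_max_of_lt_right (Real.exp_pos _)
  exact this.ne'

theorem clamp_nonneg (w : ℝ) : 0 ≤ max 0 (min 1 w) := le_max_left _ _

theorem clamp_le_one (w : ℝ) : max 0 (min 1 w) ≤ 1 := max_le zero_le_one (min_le_left _ _)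

theorem G_nonneg (x z y : ℝ) : 0 ≤ G x z y := by
  unfold G
  have : 0 < max y (Real.exp (-1)) := lt_max_of_lt_right (Real.exp_pos _)
  exact mul_nonneg (by positivity) (clamp_nonneg _)

theorem G_le (x z y : ℝ) : max y (Real.exp (-1)) * G x z y ≤ 1 := by
  unfold G
  have : 0 < max y (Real.exp (-1)) := lt_max_of_lt_right (Real.exp_pos _)
  rw [← mul_assoc, mul_one_div_cancel this.ne', one_mul]
  exact clamp_le_one _

theorem mul_G_le {x z y : ℝ} (hy : 0 ≤ y) : y * G x z y ≤ 1 :=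
  (mul_le_mul_of_nonneg_right (le_max_left _ _) (G_nonneg _ _ _)).trans (G_le x z y)

theorem G_eq_zero {x z y : ℝ} (hxz : x < z) (hy : y ≤ x) : G x z y = 0 := by
  unfold G
  have h1 : (y - x) / (z - x) ≤ 0 := div_nonpos_of_nonpos_of_nonneg (by linarith) (by linarith)
  rw [max_eq_left ((min_le_right _ _).trans h1), mul_zero]

theorem mul_G_eq_one {x z y : ℝ} (hxz : x < z) (hy : z ≤ y) (hy1 : Real.exp (-1) ≤ y) :
    y * G x z y = 1 := by
  unfold G
  have h1 : 1 ≤ (y - x) / (z - x) := by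
    rw [le_div_iff₀ (by linarith)]; linarith
  have hy0 : 0 < y := lt_of_lt_of_le (Real.exp_pos _) hy1
  rw [min_eq_left h1, max_eq_right zero_le_one, max_eq_left hy1, mul_one,
    mul_one_div_cancel hy0.ne']

theorem exists_poly (φ : ℝ → ℝ) (hφ : Continuous φ) {ε : ℝ} (hε : 0 < ε) :
    ∃ p : Polynomial ℝ, ∀ y ∈ Set.Icc (0:ℝ) 1, φ y ≤ p.eval y ∧ p.eval y ≤ φ y + ε := by
  obtain ⟨p, hp⟩ := exists_polynomial_near_of_continuousOn 0 1 (fun y => φ y + ε / 2)
    (by fun_prop) (ε / 2) (by positivity)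
  refine ⟨p, fun y hy => ?_⟩
  have h := abs_lt.1 (hp y hy)
  constructor <;> linarith [h.1, h.2]

theorem poly_upper (k : ℕ) {η : ℝ} (hη : 0 < η) : ∃ p : Polynomial ℝ,
    (∀ y ∈ Set.Icc (0:ℝ) 1, 0 ≤ p.eval y) ∧
    (∀ y, Real.exp (-1) ≤ y → y ≤ 1 → 1 ≤ y * p.eval y) ∧
    ∫ u in Set.Ioi (0:ℝ), u ^ k * Real.exp (-u) * p.eval (Real.exp (-u)) ≤ 1 / ((k : ℝ) + 1) + η := by
  set M := ∫ u in Set.Ioi (0:ℝ), u ^ k * Real.exp (-u) with hM
  have hM0 : 0 ≤ M := setIntegral_nonneg measurableSet_Ioi (fun u hu => by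
    have : (0:ℝ) < u := hu
    positivity)
  obtain ⟨s, hs0, hs1, hs⟩ : ∃ s : ℝ, 0 < s ∧ s ≤ 1 ∧ 2 ^ k * s ≤ η / 2 := by
    refine ⟨min 1 (η / 2 / 2 ^ k), by positivity, min_le_left _ _, ?_⟩
    have := min_le_right (1:ℝ) (η / 2 / 2 ^ k)
    calc (2:ℝ) ^ k * min 1 (η / 2 / 2 ^ k) ≤ 2 ^ k * (η / 2 / 2 ^ k) := by gcongr
      _ = η / 2 := by field_simp
  have hba : Real.exp (-(1 + s)) < Real.exp (-1) := Real.exp_lt_exp.2 (by linarith)
  obtain ⟨p, hp⟩ := exists_poly (G (Real.exp (-(1 + s))) (Real.exp (-1))) (G_cont _ _)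
    (ε := η / (2 * (M + 1))) (by positivity)
  refine ⟨p, fun y hy => (G_nonneg _ _ _).trans (hp y hy).1, fun y hy hy1 => ?_, ?_⟩
  · have hy0 : 0 < y := lt_of_lt_of_le (Real.exp_pos _) hy
    have h1 := mul_G_eq_one hba hy hy
    have h2 := mul_le_mul_of_nonneg_left (hp y ⟨hy0.le, hy1⟩).1 hy0.le
    linarith
  · have hI1 : IntegrableOn (Set.indicator (Set.Ioc (0:ℝ) 1) (fun u => u ^ k)) (Set.Ioi 0) := by
      refine IntegrableOn.mono_set ?_ (Set.subset_univ _)
      rw [integrableOn_univ, integrable_indicator_iff measurableSet_Ioc]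
      exact (Continuous.integrableOn_Icc (by fun_prop)).mono_set Set.Ioc_subset_Icc_self
    have hI2 : IntegrableOn (Set.indicator (Set.Ioc (1:ℝ) (1 + s)) (fun _ => (2:ℝ) ^ k))
        (Set.Ioi 0) := by
      refine IntegrableOn.mono_set ?_ (Set.subset_univ _)
      rw [integrableOn_univ, integrable_indicator_iff measurableSet_Ioc]
      exact (Continuous.integrableOn_Icc (by fun_prop)).mono_set Set.Ioc_subset_Icc_self
    have hI3 : IntegrableOn (fun u : ℝ => η / (2 * (M + 1)) * (u ^ k * Real.exp (-u)))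
        (Set.Ioi 0) := (intOn_base k).const_mul _
    have hle : ∫ u in Set.Ioi (0:ℝ), u ^ k * Real.exp (-u) * p.eval (Real.exp (-u)) ≤
        ∫ u in Set.Ioi (0:ℝ), ((Set.indicator (Set.Ioc (0:ℝ) 1) (fun u => u ^ k) u +
          Set.indicator (Set.Ioc (1:ℝ) (1 + s)) (fun _ => (2:ℝ) ^ k) u) +
          η / (2 * (M + 1)) * (u ^ k * Real.exp (-u))) := by
      refine setIntegral_mono_on (intOn_poly k p) ((hI1.add hI2).add hI3) measurableSet_Ioi ?_
      intro u hu
      have hu0 : (0:ℝ) < u := hu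
      have he0 := Real.exp_pos (-u)
      have hp2 := (hp (Real.exp (-u)) ⟨he0.le, Real.exp_le_one_iff.2 (by linarith)⟩).2
      have h3 : u ^ k * Real.exp (-u) * p.eval (Real.exp (-u)) ≤
          u ^ k * (Real.exp (-u) * G (Real.exp (-(1 + s))) (Real.exp (-1)) (Real.exp (-u))) +
          η / (2 * (M + 1)) * (u ^ k * Real.exp (-u)) := by
        have := mul_le_mul_of_nonneg_left hp2 (by positivity : 0 ≤ u ^ k * Real.exp (-u))
        linarith
      refine h3.trans ?_
      gcongr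
      have hG1 := mul_G_le (x := Real.exp (-(1 + s))) (z := Real.exp (-1)) he0.le
      rcases le_or_gt u 1 with h1 | h1
      · rw [Set.indicator_of_mem (show u ∈ Set.Ioc (0:ℝ) 1 from ⟨hu0, h1⟩),
          Set.indicator_of_notMem (show u ∉ Set.Ioc (1:ℝ) (1 + s) from fun h => absurd h.1 (by linarith)),
          add_zero]
        calc _ ≤ u ^ k * 1 := by gcongr
          _ = u ^ k := mul_one _
      · rw [Set.indicator_of_notMem (show u ∉ Set.Ioc (0:ℝ) 1 from fun h => absurd h.2 (by linarith)),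
          zero_add]
        rcases le_or_gt u (1 + s) with h2 | h2
        · rw [Set.indicator_of_mem (show u ∈ Set.Ioc (1:ℝ) (1 + s) from ⟨h1, h2⟩)]
          calc _ ≤ (2:ℝ) ^ k * 1 := mul_le_mul (pow_le_pow_left₀ hu0.le (by linarith) k) hG1
                (mul_nonneg he0.le (G_nonneg _ _ _)) (by positivity)
            _ = 2 ^ k := mul_one _
        · rw [Set.indicator_of_notMem (show u ∉ Set.Ioc (1:ℝ) (1 + s) from fun h => absurd h.2 (by linarith)),
            G_eq_zero hba (Real.exp_le_exp.2 (by linarith)), mul_zero, mul_zero]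
    refine hle.trans ?_
    have hI12 : IntegrableOn (fun u => Set.indicator (Set.Ioc (0:ℝ) 1) (fun u => u ^ k) u +
        Set.indicator (Set.Ioc (1:ℝ) (1 + s)) (fun _ => (2:ℝ) ^ k) u) (Set.Ioi 0) := hI1.add hI2
    rw [integral_add hI12 hI3, integral_add hI1 hI2, integral_const_mul, ← hM]
    have e1 : ∫ u in Set.Ioi (0:ℝ), Set.indicator (Set.Ioc (0:ℝ) 1) (fun u => u ^ k) u =
        1 / ((k : ℝ) + 1) := by
      rw [setIntegral_indicator measurableSet_Ioc, Set.inter_eq_self_of_subset_right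
        Set.Ioc_subset_Ioi_self, ← intervalIntegral.integral_of_le zero_le_one, integral_pow]
      simp
    have e2 : ∫ u in Set.Ioi (0:ℝ), Set.indicator (Set.Ioc (1:ℝ) (1 + s)) (fun _ => (2:ℝ) ^ k) u =
        2 ^ k * s := by
      have hsub : Set.Ioc (1:ℝ) (1 + s) ⊆ Set.Ioi 0 :=
        fun x hx => lt_trans (zero_lt_one' ℝ) hx.1
      rw [setIntegral_indicator measurableSet_Ioc, Set.inter_eq_self_of_subset_right hsub,
        setIntegral_const]
      simp only [measureReal_def, Real.volume_Ioc, smul_eq_mul]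
      rw [ENNReal.toReal_ofReal (by linarith)]
      ring
    rw [e1, e2]
    have e3 : η / (2 * (M + 1)) * M ≤ η / 2 := by
      rw [div_mul_eq_mul_div, div_le_div_iff₀ (by positivity) (by positivity)]
      nlinarith
    linarith

theorem poly_lower (k : ℕ) {η : ℝ} (hη : 0 < η) : ∃ p : Polynomial ℝ,
    (∀ y, 0 ≤ y → y ≤ Real.exp (-1) → p.eval y ≤ 0) ∧
    (∀ y ∈ Set.Icc (0:ℝ) 1, y * p.eval y ≤ 1) ∧
    1 / ((k : ℝ) + 1) - η ≤ ∫ u in Set.Ioi (0:ℝ), u ^ k * Real.exp (-u) * p.eval (Real.exp (-u)) := by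
  set M := ∫ u in Set.Ioi (0:ℝ), u ^ k * Real.exp (-u) with hM
  have hM0 : 0 ≤ M := setIntegral_nonneg measurableSet_Ioi (fun u hu => by
    have : (0:ℝ) < u := hu
    positivity)
  obtain ⟨s, hs0, hs1, hs⟩ : ∃ s : ℝ, 0 < s ∧ s < 1 ∧ s ≤ η / 2 := by
    refine ⟨min (1 / 2) (η / 2), by positivity, ?_, min_le_right _ _⟩
    exact lt_of_le_of_lt (min_le_left _ _) (by norm_num)
  have hba : Real.exp (-1) < Real.exp (-(1 - s)) := Real.exp_lt_exp.2 (by linarith)
  have hexp1 : Real.exp (-1) ≤ 1 := Real.exp_le_one_iff.2 (by norm_num)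
  obtain ⟨p, hp⟩ := exists_poly (fun y => G (Real.exp (-1)) (Real.exp (-(1 - s))) y -
    η / (2 * (M + 1))) ((G_cont _ _).sub continuous_const)
    (ε := η / (2 * (M + 1))) (by positivity)
  simp only [sub_add_cancel] at hp
  refine ⟨p, fun y hy hy1 => ?_, fun y hy => ?_, ?_⟩
  · have h1 := (hp y ⟨hy, hy1.trans hexp1⟩).2
    rwa [G_eq_zero hba hy1] at h1
  · exact (mul_le_mul_of_nonneg_left (hp y hy).2 hy.1).trans (mul_G_le hy.1)
  · have hI1 : IntegrableOn (Set.indicator (Set.Ioc (0:ℝ) (1 - s)) (fun u => u ^ k))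
        (Set.Ioi 0) := by
      refine IntegrableOn.mono_set ?_ (Set.subset_univ _)
      rw [integrableOn_univ, integrable_indicator_iff measurableSet_Ioc]
      exact (Continuous.integrableOn_Icc (by fun_prop)).mono_set Set.Ioc_subset_Icc_self
    have hI3 : IntegrableOn (fun u : ℝ => η / (2 * (M + 1)) * (u ^ k * Real.exp (-u)))
        (Set.Ioi 0) := (intOn_base k).const_mul _
    have hle : ∫ u in Set.Ioi (0:ℝ), (Set.indicator (Set.Ioc (0:ℝ) (1 - s)) (fun u => u ^ k) u -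
          η / (2 * (M + 1)) * (u ^ k * Real.exp (-u))) ≤
        ∫ u in Set.Ioi (0:ℝ), u ^ k * Real.exp (-u) * p.eval (Real.exp (-u)) := by
      refine setIntegral_mono_on (hI1.sub hI3) (intOn_poly k p) measurableSet_Ioi ?_
      intro u hu
      have hu0 : (0:ℝ) < u := hu
      have he0 := Real.exp_pos (-u)
      have hp2 := (hp (Real.exp (-u)) ⟨he0.le, Real.exp_le_one_iff.2 (by linarith)⟩).1
      have h3 : u ^ k * (Real.exp (-u) * G (Real.exp (-1)) (Real.exp (-(1 - s))) (Real.exp (-u))) -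
          η / (2 * (M + 1)) * (u ^ k * Real.exp (-u)) ≤
          u ^ k * Real.exp (-u) * p.eval (Real.exp (-u)) := by
        have := mul_le_mul_of_nonneg_left hp2 (by positivity : 0 ≤ u ^ k * Real.exp (-u))
        linarith
      refine le_trans ?_ h3
      gcongr
      rcases le_or_gt u (1 - s) with h1 | h1
      · rw [Set.indicator_of_mem (show u ∈ Set.Ioc (0:ℝ) (1 - s) from ⟨hu0, h1⟩),
          mul_G_eq_one hba (Real.exp_le_exp.2 (by linarith)) (Real.exp_le_exp.2 (by linarith)),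
          mul_one]
      · rw [Set.indicator_of_notMem (show u ∉ Set.Ioc (0:ℝ) (1 - s) from
          fun h => absurd h.2 (by linarith))]
        exact mul_nonneg (by positivity) (mul_nonneg he0.le (G_nonneg _ _ _))
    refine le_trans ?_ hle
    rw [integral_sub hI1 hI3, integral_const_mul, ← hM]
    have e1 : ∫ u in Set.Ioi (0:ℝ), Set.indicator (Set.Ioc (0:ℝ) (1 - s)) (fun u => u ^ k) u =
        (1 - s) ^ (k + 1) / ((k : ℝ) + 1) := by
      rw [setIntegral_indicator measurableSet_Ioc, Set.inter_eq_self_of_subset_right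
        Set.Ioc_subset_Ioi_self, ← intervalIntegral.integral_of_le (by linarith), integral_pow]
      simp
    rw [e1]
    have e2 : 1 / ((k : ℝ) + 1) - s ≤ (1 - s) ^ (k + 1) / ((k : ℝ) + 1) := by
      have hb := one_add_mul_le_pow (a := -s) (by linarith) (k + 1)
      rw [le_div_iff₀ (by positivity), sub_mul, one_div_mul_cancel (by positivity)]
      push_cast at hb
      have : (1 + -s) = 1 - s := by ring
      rw [this] at hb
      linarith
    have e3 : η / (2 * (M + 1)) * M ≤ η / 2 := by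
      rw [div_mul_eq_mul_div, div_le_div_iff₀ (by positivity) (by positivity)]
      nlinarith
    linarith

/-- summability with a polynomial weight -/
theorem summable_poly {c : ℕ → ℝ} (hc : ∀ n, 0 ≤ c n) {t : ℝ} (ht : 0 < t)
    (hs : Summable (fun n : ℕ => c n * Real.exp (-(t * n)))) (p : Polynomial ℝ) :
    Summable (fun n : ℕ => c n * Real.exp (-(t * n)) * p.eval (Real.exp (-(t * n)))) := by
  obtain ⟨B, hB⟩ := (isCompact_Icc (a := (0:ℝ)) (b := 1)).exists_bound_of_continuousOn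
    (f := fun y => p.eval y) p.continuous.continuousOn
  refine Summable.of_norm_bounded (hs.mul_right B) (fun n => ?_)
  rw [norm_mul, Real.norm_of_nonneg (mul_nonneg (hc n) (Real.exp_pos _).le)]
  refine mul_le_mul_of_nonneg_left (hB _ ⟨(Real.exp_pos _).le, Real.exp_le_one_iff.2 ?_⟩)
    (mul_nonneg (hc n) (Real.exp_pos _).le)
  have : 0 ≤ t * n := by positivity
  linarith

theorem upper_sum {c : ℕ → ℝ} (hc : ∀ n, 0 ≤ c n) {X : ℕ} (hX : 0 < X)
    (hs : Summable (fun n : ℕ => c n * Real.exp (-((X:ℝ)⁻¹ * n)))) (p : Polynomial ℝ)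
    (h0 : ∀ y ∈ Set.Icc (0:ℝ) 1, 0 ≤ p.eval y)
    (h1 : ∀ y, Real.exp (-1) ≤ y → y ≤ 1 → 1 ≤ y * p.eval y) :
    ∑ n ∈ range (X + 1), c n ≤
      ∑' n : ℕ, c n * Real.exp (-((X:ℝ)⁻¹ * n)) * p.eval (Real.exp (-((X:ℝ)⁻¹ * n))) := by
  have hX' : (0:ℝ) < X := by exact_mod_cast hX
  have hle1 : ∀ n : ℕ, Real.exp (-((X:ℝ)⁻¹ * n)) ≤ 1 := fun n => Real.exp_le_one_iff.2 (by
    have : 0 ≤ (X:ℝ)⁻¹ * n := by positivity
    linarith)
  refine le_trans ?_ ((summable_poly hc (inv_pos.2 hX') hs p).sum_le_tsum (range (X + 1)) ?_)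
  · refine Finset.sum_le_sum fun n hn => ?_
    have hn' : (n:ℝ) ≤ X := by
      have : n ≤ X := by simpa [Nat.lt_succ_iff] using hn
      exact_mod_cast this
    have h2 : Real.exp (-1) ≤ Real.exp (-((X:ℝ)⁻¹ * n)) := by
      refine Real.exp_le_exp.2 ?_
      have : (X:ℝ)⁻¹ * n ≤ 1 := by
        rw [inv_mul_le_iff₀ hX']; linarith
      linarith
    have h3 := h1 _ h2 (hle1 n)
    rw [mul_assoc]
    exact le_mul_of_one_le_right (hc n) h3
  · intro n _
    exact mul_nonneg (mul_nonneg (hc n) (Real.exp_pos _).le)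
      (h0 _ ⟨(Real.exp_pos _).le, hle1 n⟩)

theorem lower_sum {c : ℕ → ℝ} (hc : ∀ n, 0 ≤ c n) {X : ℕ} (hX : 0 < X)
    (hs : Summable (fun n : ℕ => c n * Real.exp (-((X:ℝ)⁻¹ * n)))) (p : Polynomial ℝ)
    (h0 : ∀ y, 0 ≤ y → y ≤ Real.exp (-1) → p.eval y ≤ 0)
    (h1 : ∀ y ∈ Set.Icc (0:ℝ) 1, y * p.eval y ≤ 1) :
    ∑' n : ℕ, c n * Real.exp (-((X:ℝ)⁻¹ * n)) * p.eval (Real.exp (-((X:ℝ)⁻¹ * n))) ≤
      ∑ n ∈ range (X + 1), c n := by
  have hX' : (0:ℝ) < X := by exact_mod_cast hX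
  have hle1 : ∀ n : ℕ, Real.exp (-((X:ℝ)⁻¹ * n)) ≤ 1 := fun n => Real.exp_le_one_iff.2 (by
    have : 0 ≤ (X:ℝ)⁻¹ * n := by positivity
    linarith)
  have hfin : ∀ n ∉ range (X + 1), (if n ∈ range (X + 1) then c n else 0) = 0 :=
    fun n hn => if_neg hn
  have e1 : ∑ n ∈ range (X + 1), c n = ∑' n : ℕ, (if n ∈ range (X + 1) then c n else 0) := by
    rw [tsum_eq_sum hfin]
    exact Finset.sum_congr rfl fun n hn => (if_pos hn).symm
  rw [e1]
  refine Summable.tsum_le_tsum (fun n => ?_) (summable_poly hc (inv_pos.2 hX') hs p)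
    (summable_of_ne_finset_zero hfin)
  split_ifs with hn
  · rw [mul_assoc]
    exact mul_le_of_le_one_right (hc n) (h1 _ ⟨(Real.exp_pos _).le, hle1 n⟩)
  · have hn' : (X:ℝ) ≤ n := by
      have : X ≤ n := by
        simp only [Finset.mem_range, not_lt] at hn
        omega
      exact_mod_cast this
    refine mul_nonpos_of_nonneg_of_nonpos (mul_nonneg (hc n) (Real.exp_pos _).le)
      (h0 _ (Real.exp_pos _).le (Real.exp_le_exp.2 ?_))
    have : 1 ≤ (X:ℝ)⁻¹ * n := by
      rw [le_inv_mul_iff₀ hX']; linarith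
    linarith

end KarAux

open KarAux in
theorem karamata' (c : ℕ → ℝ) (hc : ∀ n, 0 ≤ c n) (E : ℕ) (hE : 1 ≤ E) (C : ℝ) (F : ℝ → ℝ)
    (hF : ∀ t, 0 < t → HasSum (fun n : ℕ => c n * Real.exp (-(t * n))) (F t))
    (hlim : Tendsto (fun t => t ^ E * F t) (𝓝[>] (0:ℝ)) (𝓝 C)) :
    Tendsto (fun X : ℕ => (∑ n ∈ range (X + 1), c n) / (X : ℝ) ^ E) atTop
      (𝓝 (C / (E.factorial : ℝ))) := by
  have hCnn : 0 ≤ C := by
    refine ge_of_tendsto hlim ?_
    filter_upwards [self_mem_nhdsWithin] with t ht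
    have ht' : (0:ℝ) < t := ht
    have hFt : 0 ≤ F t := by
      rw [← (hF t ht').tsum_eq]
      exact tsum_nonneg fun n => mul_nonneg (hc n) (Real.exp_pos _).le
    positivity
  obtain ⟨k, rfl⟩ : ∃ k, E = k + 1 := ⟨E - 1, by omega⟩
  have hinv : Tendsto (fun X : ℕ => (X:ℝ)⁻¹) atTop (𝓝[>] (0:ℝ)) :=
    tendsto_inv_atTop_nhdsGT_zero.comp tendsto_natCast_atTop_atTop
  have hfac : ((k + 1).factorial : ℝ) = (k + 1) * k.factorial := by
    rw [Nat.factorial_succ]; push_cast; ring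
  have hk0 : (0:ℝ) < k.factorial := by exact_mod_cast k.factorial_pos
  have hval : C / ((k + 1).factorial : ℝ) = C / (k.factorial : ℝ) * (1 / ((k : ℝ) + 1)) := by
    rw [hfac]; field_simp
  have hpoly := kar_poly c hc (k + 1) hE C F hF hlim
  simp only [Nat.add_sub_cancel] at hpoly
  have hS : ∀ X : ℕ, (∑ n ∈ range (X + 1), c n) / (X : ℝ) ^ (k + 1) =
      ((X:ℝ)⁻¹) ^ (k + 1) * ∑ n ∈ range (X + 1), c n := fun X => by
    rw [inv_pow, div_eq_inv_mul]
  rw [tendsto_order]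
  constructor
  · intro a ha
    have hη : 0 < (C / ((k + 1).factorial : ℝ) - a) / (C / (k.factorial : ℝ) + 1) := by
      have := sub_pos.2 ha
      positivity
    obtain ⟨p, hp0, hp1, hp2⟩ := poly_lower k hη
    have hlt : a < C / (k.factorial : ℝ) *
        ∫ u in Set.Ioi (0:ℝ), u ^ k * Real.exp (-u) * p.eval (Real.exp (-u)) := by
      have h1 := mul_le_mul_of_nonneg_left hp2 (by positivity : 0 ≤ C / (k.factorial : ℝ))
      refine lt_of_lt_of_le ?_ h1
      rw [mul_sub, ← hval]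
      have h2 : C / (k.factorial : ℝ) * ((C / ((k + 1).factorial : ℝ) - a) /
          (C / (k.factorial : ℝ) + 1)) < C / ((k + 1).factorial : ℝ) - a := by
        rw [← mul_div_assoc, div_lt_iff₀ (by positivity)]
        have := sub_pos.2 ha
        nlinarith
      linarith
    have hev := ((hpoly p).comp hinv).eventually (lt_mem_nhds hlt)
    filter_upwards [hev, eventually_gt_atTop 0] with X hX hX0
    have hX' : (0:ℝ) < X := by exact_mod_cast hX0
    rw [hS]
    refine lt_of_lt_of_le hX ?_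
    exact mul_le_mul_of_nonneg_left (lower_sum hc hX0 (hF _ (inv_pos.2 hX')).summable p hp0 hp1)
      (by positivity)
  · intro a ha
    have hη : 0 < (a - C / ((k + 1).factorial : ℝ)) / (C / (k.factorial : ℝ) + 1) := by
      have := sub_pos.2 ha
      positivity
    obtain ⟨p, hp0, hp1, hp2⟩ := poly_upper k hη
    have hlt : C / (k.factorial : ℝ) *
        ∫ u in Set.Ioi (0:ℝ), u ^ k * Real.exp (-u) * p.eval (Real.exp (-u)) < a := by
      have h1 := mul_le_mul_of_nonneg_left hp2 (by positivity : 0 ≤ C / (k.factorial : ℝ))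
      refine lt_of_le_of_lt h1 ?_
      rw [mul_add, ← hval]
      have h2 : C / (k.factorial : ℝ) * ((a - C / ((k + 1).factorial : ℝ)) /
          (C / (k.factorial : ℝ) + 1)) < a - C / ((k + 1).factorial : ℝ) := by
        rw [← mul_div_assoc, div_lt_iff₀ (by positivity)]
        have := sub_pos.2 ha
        nlinarith
      linarith
    have hev := ((hpoly p).comp hinv).eventually (gt_mem_nhds hlt)
    filter_upwards [hev, eventually_gt_atTop 0] with X hX hX0
    have hX' : (0:ℝ) < X := by exact_mod_cast hX0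
    rw [hS]
    refine lt_of_le_of_lt ?_ hX
    exact mul_le_mul_of_nonneg_left (upper_sum hc hX0 (hF _ (inv_pos.2 hX')).summable p hp0 hp1)
      (by positivity)

end Pool.Agent.Helper60.MV
end

/- Helper60.MV.B.Asm -/
section
/-!
MV-B12. Assembly of block B. (`blockA` is passed as a hypothesis `hA`.)

Proof. `rot K` has all cycles odd (`minimalPeriod (rot K) ⟨i, j⟩ = K i`). Number of edges of `R : Conf (rot K)` is `E`
(`Fintype.card (HK K) = ∑ K = 2E`, edges = 2-element cycles of `τ`). For `R` connected: if `R` is good then by `adm_of_good` and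
`blockB1'` (there is a cylinder: `HK K` is nonempty as `ρ` is and `K i` is odd) `t^E R.S t -> 2 a`, `R.A ε 0 -> a`, so `a = R.limA`
(`Tendsto.limUnder_eq`; `R.A ε 0 = AM R.P ε 0`). If `R` is not good then `R.S t = 0` for all `t` (no `l : Edge → ℕ+` satisfies all the
equations, by `sum_P_nat` and the definition of `Good`; faces are the `cface c b`). So with `F t = ∑_{R conn} R.S t`,
`t^E F t -> 2 Yconn K`. By `hA` and `karamata'`, `(∑_{L<=X} cL K L)/X^E -> 2 Yconn K/E!` and with `X = 2N` the claim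
(`E >= 1` because `ρ` nonempty).
-/

namespace Pool.Agent.Helper60.MV

open Finset MeasureTheory Filter Topology

private theorem finRotate_iter (m : ℕ) (j : Fin (m + 1)) (n : ℕ) :
    (((finRotate (m + 1))^[n] j : Fin (m + 1)) : ℕ) = ((j : ℕ) + n) % (m + 1) := by
  induction n with
  | zero =>
    rw [Function.iterate_zero, id_eq, add_zero, Nat.mod_eq_of_lt j.isLt]
  | succ n ih =>
    rw [Function.iterate_succ_apply', finRotate_apply, Fin.val_add, ih, Fin.val_one',
      ← Nat.add_mod, add_assoc]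

private theorem finRotate_minimalPeriod (k : ℕ) (j : Fin k) :
    Function.minimalPeriod (finRotate k) j = k := by
  cases k with
  | zero => exact j.elim0
  | succ m =>
    have key : ∀ n : ℕ, Function.IsPeriodicPt (finRotate (m + 1)) n j ↔ (m + 1) ∣ n := by
      intro n
      rw [Function.IsPeriodicPt, Function.IsFixedPt, Fin.ext_iff, finRotate_iter]
      have hj := Nat.mod_eq_of_lt j.isLt
      constructor
      · intro h
        have h1 : (j : ℕ) + n ≡ (j : ℕ) + 0 [MOD (m + 1)] := by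
          rw [Nat.ModEq, add_zero, h, hj]
        exact (Nat.modEq_zero_iff_dvd).1 (Nat.ModEq.add_left_cancel' _ h1)
      · rintro ⟨q, rfl⟩
        rw [Nat.add_mul_mod_self_left, hj]
    apply Nat.dvd_antisymm
    · exact ((key (m + 1)).2 dvd_rfl).minimalPeriod_dvd
    · exact (key _).1 (Function.isPeriodicPt_minimalPeriod _ _)

private theorem rot_iter {ρ : Type} (K : ρ → ℕ) (i : ρ) (j : Fin (K i)) (n : ℕ) :
    (rot K)^[n] ⟨i, j⟩ = ⟨i, (finRotate (K i))^[n] j⟩ := by
  induction n with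
  | zero => rfl
  | succ n ih =>
    rw [Function.iterate_succ_apply', ih, Function.iterate_succ_apply']
    rfl

theorem rot_minimalPeriod {ρ : Type} (K : ρ → ℕ) (h : HK K) :
    Function.minimalPeriod (rot K) h = K h.1 := by
  obtain ⟨i, j⟩ := h
  rw [← finRotate_minimalPeriod (K i) j, Function.minimalPeriod_eq_minimalPeriod_iff]
  intro n
  unfold Function.IsPeriodicPt Function.IsFixedPt
  rw [rot_iter]
  constructor
  · intro h
    have := (Sigma.mk.inj_iff.1 h).2
    exact eq_of_heq this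
  · intro h
    rw [h]

theorem rot_allOdd {ρ : Type} (K : ρ → ℕ) (hK : ∀ i, Odd (K i)) : AllOdd (rot K) := by
  intro h
  rw [rot_minimalPeriod]
  exact hK _

private theorem cyc_eq_iff_pv2 {H : Type} {τ : Equiv.Perm H} (hτ : IsPairing τ) (x y : H) :
    cyc τ x = cyc τ y ↔ x = y ∨ x = τ y := by
  have h1 : cyc τ x = cyc τ y ↔ τ.SameCycle x y := Quotient.eq (r := Equiv.Perm.SameCycle.setoid τ)
  rw [h1]
  have hsq : τ ^ 2 = 1 := by
    ext z
    rw [pow_two, Equiv.Perm.mul_apply, hτ.invol, Equiv.Perm.one_apply]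
  constructor
  · rintro ⟨n, hn⟩
    rcases Int.even_or_odd n with ⟨m, rfl⟩ | ⟨m, rfl⟩
    · left
      have h2 : τ ^ (m + m) = 1 := by
        rw [← two_mul, zpow_mul]
        have : τ ^ (2 : ℤ) = 1 := by exact_mod_cast hsq
        rw [this, one_zpow]
      rw [h2, Equiv.Perm.one_apply] at hn
      exact hn
    · right
      have h2 : τ ^ (2 * m + 1) = τ := by
        rw [zpow_add, zpow_mul]
        have : τ ^ (2 : ℤ) = 1 := by exact_mod_cast hsq
        rw [this, one_zpow, one_mul, zpow_one]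
      rw [h2] at hn
      rw [← hn, hτ.invol]
  · rintro (rfl | rfl)
    · exact Equiv.Perm.SameCycle.refl _ _
    · exact ⟨1, by rw [zpow_one, hτ.invol]⟩

theorem card_edge {H : Type} [Fintype H] {σ : Equiv.Perm H} (R : Conf σ) :
    2 * Fintype.card R.Edge = Fintype.card H := by
  classical
  have h1 := Finset.card_eq_sum_card_fiberwise (s := (univ : Finset H))
    (t := (univ : Finset R.Edge)) (f := R.edge) (fun _ _ => mem_coe.2 (mem_univ _))
  rw [card_univ] at h1
  rw [h1]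
  have h2 : ∀ e ∈ (univ : Finset R.Edge), ((univ : Finset H).filter (fun h => R.edge h = e)).card = 2 := by
    intro e _
    induction e using Quotient.inductionOn with
    | _ y =>
    have h3 : (univ : Finset H).filter (fun h => R.edge h = cyc R.τ y) = {y, R.τ y} := by
      ext x
      simp only [mem_filter, mem_univ, true_and, mem_insert, mem_singleton]
      exact cyc_eq_iff_pv2 R.hτ x y
    exact (congrArg Finset.card h3).trans (card_pair (R.hτ.fpf y).symm)
  rw [sum_congr rfl h2, sum_const, card_univ, smul_eq_mul, mul_comm]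

theorem S_of_not_good {H : Type} [Fintype H] {σ : Equiv.Perm H} (R : Conf σ) (h : ¬ R.Good)
    (t : ℝ) : R.S t = 0 := by
  classical
  unfold Conf.S SM
  have key : ∀ l : R.Edge → ℕ+, ¬ ∀ c, ∑ e, R.P c false e * (l e : ℕ) =
      ∑ e, R.P c true e * (l e : ℕ) := by
    intro l hl
    apply h
    refine ⟨fun e => (l e : ℕ), fun e => (l e).pos, fun f => ?_⟩
    have hc : ∀ c, R.per (fun e => (l e : ℕ)) (R.cface c false) =
        R.per (fun e => (l e : ℕ)) (R.cface c true) := fun c => by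
      rw [← sum_P_nat, ← sum_P_nat]
      exact hl c
    obtain ⟨⟨c, b⟩, rfl⟩ := (cface_bij R).2 f
    have e1 : R.β (R.cface c false) = R.cface c true := rfl
    have e2 : R.β (R.cface c true) = R.cface c false := R.hβ.invol _
    cases b
    · show R.per _ (R.cface c false) = R.per _ (R.β (R.cface c false))
      rw [e1]; exact hc c
    · show R.per _ (R.cface c true) = R.per _ (R.β (R.cface c true))
      rw [e2]; exact (hc c).symm
  rw [tsum_congr (fun l => if_neg (key l)), tsum_zero]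

theorem blockB_of_A {ρ : Type} [Fintype ρ] [Nonempty ρ] (K : ρ → ℕ) (hK : ∀ i, Odd (K i)) (E : ℕ)
    (hE : ∑ i, K i = 2 * E)
    (hA : ∀ t : ℝ, 0 < t → HasSum (fun L : ℕ => cL K L * Real.exp (-(t * L)))
      (by classical exact ∑ R ∈ univ.filter (fun R : Conf (rot K) => R.Conn), R.S t)) :
    Tendsto (fun N : ℕ => (∑ L ∈ range (2 * N + 1), cL K L) / (N : ℝ) ^ E) atTop
      (𝓝 (2 ^ E * (2 * Yconn K) / (E.factorial : ℝ))) := by
  classical
  obtain ⟨i0⟩ := ‹Nonempty ρ›
  have hE1 : 1 ≤ E := by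
    have h1 : K i0 ≤ ∑ i, K i := single_le_sum (fun _ _ => Nat.zero_le _) (mem_univ i0)
    have h2 := (hK i0).pos
    omega
  have hcard : Fintype.card (HK K) = 2 * E := by
    rw [Fintype.card_sigma, ← hE]
    exact sum_congr rfl fun i _ => Fintype.card_fin _
  have hEdge : ∀ R : Conf (rot K), Fintype.card R.Edge = E := fun R => by
    have := card_edge R
    omega
  have hlimR : ∀ R : Conf (rot K), R.Conn → Tendsto (fun t : ℝ => t ^ E * R.S t) (𝓝[>] (0:ℝ))
      (𝓝 (if R.Good then 2 * R.limA else 0)) := by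
    intro R hR
    by_cases hg : R.Good
    · rw [if_pos hg]
      have hadm := adm_of_good R (rot_allOdd K hK) hR hg
      have : Nonempty R.Cyl := ⟨cyc R.β (R.face ⟨i0, ⟨0, (hK i0).pos⟩⟩)⟩
      obtain ⟨a, ha1, ha2⟩ := blockB1' R.P hadm
      rw [hEdge R] at ha1
      have h3 : R.limA = a := Tendsto.limUnder_eq ha2
      rw [h3]
      exact ha1
    · rw [if_neg hg]
      simp only [S_of_not_good R hg, mul_zero]
      exact tendsto_const_nhds
  have hlim : Tendsto (fun t : ℝ => t ^ E *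
      ∑ R ∈ univ.filter (fun R : Conf (rot K) => R.Conn), R.S t) (𝓝[>] (0:ℝ))
      (𝓝 (2 * Yconn K)) := by
    have h1 : (2 * Yconn K) = ∑ R ∈ univ.filter (fun R : Conf (rot K) => R.Conn),
        (if R.Good then 2 * R.limA else 0) := by
      unfold Yconn
      rw [← sum_filter, filter_filter, mul_sum]
    rw [h1]
    simp only [mul_sum]
    exact tendsto_finsetSum _ fun R hR => hlimR R (mem_filter.1 hR).2
  have hkar := karamata' (cL K) (fun n => by unfold cL; positivity) E hE1 (2 * Yconn K)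
    (fun t => ∑ R ∈ univ.filter (fun R : Conf (rot K) => R.Conn), R.S t) hA hlim
  have h2N : Tendsto (fun N : ℕ => 2 * N) atTop atTop :=
    tendsto_id.const_mul_atTop' (by norm_num)
  have h3 := (hkar.comp h2N).const_mul ((2 : ℝ) ^ E)
  rw [← mul_div_assoc] at h3
  refine h3.congr' ?_
  filter_upwards [eventually_ge_atTop 1] with N hN
  have hN0 : (N : ℝ) ≠ 0 := by
    have : 0 < N := hN
    positivity
  simp only [Function.comp_apply]
  push_cast
  rw [mul_pow]
  field_simp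

end Pool.Agent.Helper60.MV
end

/- Helper52.MVD.Star -/
section
/-!
Project MV, block D1, module D1-4: derivatives of powers of the generic matrix and the
Schwinger-Dyson identity (star).

`X = XM N F`, `p_k = pt N F k = Tr X^k`, `T_m = TT s m = ∑ s_i⁻¹ (X^m)_ii`, `∂_ab = pderiv (a, b)`.
* `pderiv_pow`: `∂_ab (X^m)_cd = ∑_{r<m} (X^r)_ca (X^(m-1-r))_bd` (induction on `m`, Leibniz).
* `pderiv_pt`: `∂_ab p_k = k (X^(k-1))_ba` (from `pderiv_pow`, sum over `c = d`,
  `∑_c (X^(k-1-r))_bc (X^r)_ca = (X^(k-1))_ba`).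
* `starId`: let `n = 2 ν`, `g : MX N F`, `A = ∑_{j=0}^n (-1)^j X^j Λ⁻¹ X^(n-j)`, `Λ = diag (C (s i))`.
  From `hE.step`: `(s i + s j) E (X_ij h) = E (∂_ji h)`, so
  `E (∑_ij (s i + s j) X_ij A_ji g) = E (∑_ij ∂_ji (A_ji g)) = E ((∑_ij ∂_ji A_ji) g) + E (∑_ij A_ji ∂_ji g)`.
  Left: `∑_ij (s i + s j) X_ij A_ji = Tr ((Λ X + X Λ) A) = ∑_j (-1)^j [Tr (Λ X^(j+1) Λ⁻¹ X^(n-j)) +
  Tr (Λ X^j Λ⁻¹ X^(n-j+1))] = 2 p_(n+1)` (telescoping: only `j = 0` of the second and `j = n` of the
  first kind survive, cyclicity of the trace, `n` even).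
  Right: `∑_ab ∂_ab (X^j Λ⁻¹ X^(n-j))_ab = ∑_{r<j} p_r T_(n-1-r) + ∑_{r<n-j} p_r T_(n-1-r)`
  (`Tr (X^a Λ⁻¹ X^b) = T_(a+b)`), and the sum over `j` with signs `(-1)^j` is
  `2 ∑_{r odd, r ≤ n-1} p_r T_(n-1-r)` (`∑_{j=r+1}^n (-1)^j = ∑_{j=0}^{n-1-r} (-1)^j = [r odd]`).
  For `g = subT f`: `∂_ab (subT f) = ∑_{j ∈ f.vars} subT (∂_j f) (2j+1) (X^(2j))_ba` (chain rule, `pderiv_pt`), and
  `∑_ab A_ab (X^(2j))_ba = Tr (A X^(2j)) = T_(n+2j)` (`∑_{j=0}^n (-1)^j = 1`, cyclicity).
  Divide by 2.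
-/

namespace Pool.Agent.Helper52.MVD

open Finset Pool.Agent.Helper60.MV

variable {N : ℕ} {F : Type} [Field F]

theorem pderiv_pow (a b c d : Fin N) (m : ℕ) :
    MvPolynomial.pderiv (a, b) ((XM N F ^ m) c d) =
      ∑ r ∈ range m, (XM N F ^ r) c a * (XM N F ^ (m - 1 - r)) b d := by
  induction m generalizing d with
  | zero =>
    simp only [pow_zero, range_zero, sum_empty, Matrix.one_apply]
    split_ifs <;> simp
  | succ m ih =>
    rw [pow_succ, Matrix.mul_apply, map_sum, sum_range_succ]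
    have h1 : ∀ e : Fin N, MvPolynomial.pderiv (a, b) ((XM N F ^ m) c e * XM N F e d) =
        (∑ r ∈ range m, (XM N F ^ r) c a * ((XM N F ^ (m - 1 - r)) b e * XM N F e d)) +
          (XM N F ^ m) c e * (if e = a ∧ d = b then 1 else 0) := by
      intro e
      rw [MvPolynomial.pderiv_mul, ih, sum_mul]
      congr 1
      · refine sum_congr rfl fun r _ => by ring
      · congr 1
        rw [XM, MvPolynomial.pderiv_X, Pi.single_apply]
        simp only [Prod.mk.injEq]
    rw [sum_congr rfl fun e _ => h1 e, sum_add_distrib, sum_comm]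
    congr 1
    · refine sum_congr rfl fun r hr => ?_
      have hr' : r < m := mem_range.mp hr
      have e1 : m + 1 - 1 - r = m - 1 - r + 1 := by omega
      rw [← mul_sum, ← Matrix.mul_apply, ← pow_succ, e1]
    · rw [show m + 1 - 1 - m = 0 by omega, pow_zero, Matrix.one_apply]
      rw [sum_eq_single a]
      · by_cases h : d = b
        · simp [h]
        · simp [h, Ne.symm h]
      · intro e _ he
        simp [he]
      · intro h; exact absurd (mem_univ _) h

theorem pderiv_pt (a b : Fin N) (k : ℕ) :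
    MvPolynomial.pderiv (a, b) (pt N F k) = (k : MX N F) * (XM N F ^ (k - 1)) b a := by
  rw [pt, map_sum, sum_congr rfl fun i _ => pderiv_pow a b i i k, sum_comm]
  have h : ∀ r ∈ range k, ∑ i, (XM N F ^ r) i a * (XM N F ^ (k - 1 - r)) b i =
      (XM N F ^ (k - 1)) b a := by
    intro r hr
    have hr' : r < k := mem_range.mp hr
    have e1 : k - 1 - r + r = k - 1 := by omega
    have : (XM N F ^ (k - 1)) b a = (XM N F ^ (k - 1 - r) * XM N F ^ r) b a := by
      rw [← pow_add, e1]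
    rw [this, Matrix.mul_apply]
    exact sum_congr rfl fun i _ => mul_comm _ _
  rw [sum_congr rfl h, sum_const, card_range, nsmul_eq_mul]

/-! ## Auxiliary -/

private noncomputable def Li {N : ℕ} {F : Type} [Field F] (s : Fin N → F) :
    Matrix (Fin N) (Fin N) (MX N F) :=
  Matrix.diagonal fun i => MvPolynomial.C (1 / s i)

private noncomputable def La {N : ℕ} {F : Type} [Field F] (s : Fin N → F) :
    Matrix (Fin N) (Fin N) (MX N F) :=
  Matrix.diagonal fun i => MvPolynomial.C (s i)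

private noncomputable def AMt {N : ℕ} {F : Type} [Field F] (s : Fin N → F) (n : ℕ) :
    Matrix (Fin N) (Fin N) (MX N F) :=
  ∑ j ∈ range (n + 1), (-1 : MX N F) ^ j • (XM N F ^ j * Li s * XM N F ^ (n - j))

private noncomputable def cT {N : ℕ} {F : Type} [Field F] (s : Fin N → F) (n j : ℕ) : MX N F :=
  Matrix.trace (La s * XM N F ^ j * Li s * XM N F ^ (n + 1 - j))

private theorem tr_pow_Li (s : Fin N → F) (a b : ℕ) :
    Matrix.trace (XM N F ^ a * Li s * XM N F ^ b) = TT s (a + b) := by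
  rw [Matrix.trace_mul_comm, ← mul_assoc, ← pow_add, add_comm b a, Matrix.trace, TT]
  refine sum_congr rfl fun i _ => ?_
  rw [Matrix.diag_apply, Li, Matrix.mul_diagonal, mul_comm]

private theorem La_Li (s : Fin N → F) (hs : ∀ i, s i ≠ 0) : La s * Li s = 1 := by
  rw [La, Li, Matrix.diagonal_mul_diagonal]
  ext i j
  rw [Matrix.diagonal_apply, Matrix.one_apply]
  split_ifs
  · rw [← MvPolynomial.C_mul, mul_one_div_cancel (hs i), MvPolynomial.C_1]
  · rfl

private theorem Li_La (s : Fin N → F) (hs : ∀ i, s i ≠ 0) : Li s * La s = 1 := by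
  rw [La, Li, Matrix.diagonal_mul_diagonal]
  ext i j
  rw [Matrix.diagonal_apply, Matrix.one_apply]
  split_ifs
  · rw [← MvPolynomial.C_mul, one_div_mul_cancel (hs i), MvPolynomial.C_1]
  · rfl

private theorem alt_telescope {R : Type} [CommRing R] (c : ℕ → R) (n : ℕ) :
    ∑ j ∈ range (n + 1), (-1 : R) ^ j * (c (j + 1) + c j) = c 0 + (-1) ^ n * c (n + 1) := by
  induction n with
  | zero => simp; ring
  | succ n ih => rw [sum_range_succ, ih]; ring

private theorem alt_one {R : Type} [CommRing R] (ν : ℕ) :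
    ∑ j ∈ range (2 * ν + 1), (-1 : R) ^ j = 1 := by
  induction ν with
  | zero => simp
  | succ n ih =>
    rw [show 2 * (n + 1) + 1 = 2 * n + 1 + 1 + 1 by ring, sum_range_succ, sum_range_succ, ih]
    ring

private theorem altSumA {R : Type} [CommRing R] (u : ℕ → R) (ν : ℕ) :
    ∑ j ∈ range (2 * ν + 1), (-1 : R) ^ j * ∑ r ∈ range j, u r =
      ∑ k ∈ range ν, u (2 * k + 1) := by
  induction ν with
  | zero => simp
  | succ n ih =>
    rw [show 2 * (n + 1) + 1 = 2 * n + 1 + 1 + 1 by ring, sum_range_succ, sum_range_succ, ih,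
      sum_range_succ (f := fun k => u (2 * k + 1)), sum_range_succ (f := u) (n := 2 * n + 1)]
    have h1 : (-1 : R) ^ (2 * n + 1) = -1 := by rw [pow_succ, pow_mul]; simp
    have h2 : (-1 : R) ^ (2 * n + 1 + 1) = 1 := by rw [pow_succ, h1]; ring
    rw [h1, h2]
    ring

private theorem altSumA' {R : Type} [CommRing R] (u : ℕ → R) (ν : ℕ) :
    ∑ j ∈ range (2 * ν + 1), (-1 : R) ^ j * ∑ r ∈ range (2 * ν - j), u r =
      ∑ k ∈ range ν, u (2 * k + 1) := by
  rw [← altSumA u ν, ← sum_range_reflect]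
  refine sum_congr rfl fun j hj => ?_
  have hj' : j < 2 * ν + 1 := mem_range.mp hj
  have e1 : 2 * ν + 1 - 1 - j = 2 * ν - j := by omega
  have e2 : 2 * ν - (2 * ν - j) = j := by omega
  rw [e1, e2]
  congr 1
  have : (-1 : R) ^ (2 * ν - j) * (-1) ^ j = (-1) ^ j * (-1) ^ j := by
    rw [← pow_add, ← pow_add, Nat.sub_add_cancel (by omega), pow_mul, ← two_mul, pow_mul]
    simp
  have h2 : ((-1 : R) ^ j) * (-1) ^ j = 1 := by rw [← pow_add, ← two_mul, pow_mul]; simp
  calc (-1 : R) ^ (2 * ν - j) = (-1 : R) ^ (2 * ν - j) * ((-1) ^ j * (-1) ^ j) := by rw [h2, mul_one]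
    _ = ((-1 : R) ^ (2 * ν - j) * (-1) ^ j) * (-1) ^ j := by ring
    _ = ((-1) ^ j * (-1) ^ j) * (-1) ^ j := by rw [this]
    _ = (-1) ^ j := by rw [h2, one_mul]

private theorem left_side (s : Fin N → F) (hs : ∀ i, s i ≠ 0) (ν : ℕ) :
    ∑ i, ∑ j, MvPolynomial.C (s i + s j) * (XM N F i j * AMt s (2 * ν) j i) =
      2 * pt N F (2 * ν + 1) := by
  have h0 : ∑ i, ∑ j, MvPolynomial.C (s i + s j) * (XM N F i j * AMt s (2 * ν) j i) =
      Matrix.trace ((La s * XM N F + XM N F * La s) * AMt s (2 * ν)) := by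
    rw [Matrix.trace]
    refine sum_congr rfl fun i _ => ?_
    rw [Matrix.diag_apply, Matrix.mul_apply]
    refine sum_congr rfl fun j _ => ?_
    rw [Matrix.add_apply, La, Matrix.diagonal_mul, Matrix.mul_diagonal, MvPolynomial.C_add]
    ring
  have h1 : Matrix.trace ((La s * XM N F + XM N F * La s) * AMt s (2 * ν)) =
      ∑ j ∈ range (2 * ν + 1), (-1 : MX N F) ^ j * (cT s (2 * ν) (j + 1) + cT s (2 * ν) j) := by
    rw [AMt, Matrix.mul_sum, Matrix.trace_sum]
    refine sum_congr rfl fun j hj => ?_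
    have hj' : j < 2 * ν + 1 := mem_range.mp hj
    rw [Matrix.mul_smul, Matrix.trace_smul, smul_eq_mul, add_mul, Matrix.trace_add]
    have e0 : 2 * ν + 1 - (j + 1) = 2 * ν - j := by omega
    have e1 : 2 * ν + 1 - j = 2 * ν - j + 1 := by omega
    have m1 : La s * XM N F * (XM N F ^ j * Li s * XM N F ^ (2 * ν - j)) =
        La s * XM N F ^ (j + 1) * Li s * XM N F ^ (2 * ν + 1 - (j + 1)) := by
      rw [e0, pow_succ']
      simp only [mul_assoc]
    have m2 : XM N F * La s * (XM N F ^ j * Li s * XM N F ^ (2 * ν - j)) =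
        XM N F * (La s * XM N F ^ j * Li s * XM N F ^ (2 * ν - j)) := by
      simp only [mul_assoc]
    have m3 : La s * XM N F ^ j * Li s * XM N F ^ (2 * ν - j) * XM N F =
        La s * XM N F ^ j * Li s * XM N F ^ (2 * ν + 1 - j) := by
      rw [e1, pow_succ]
      simp only [mul_assoc]
    rw [m1, m2, Matrix.trace_mul_comm (XM N F), m3, cT, cT]
  have hc0 : cT s (2 * ν) 0 = pt N F (2 * ν + 1) := by
    rw [cT, pow_zero, mul_one, Nat.sub_zero, La_Li s hs, one_mul, Matrix.trace, pt]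
    rfl
  have hc1 : cT s (2 * ν) (2 * ν + 1) = pt N F (2 * ν + 1) := by
    rw [cT, Nat.sub_self, pow_zero, mul_one, Matrix.trace_mul_comm, ← mul_assoc, Li_La s hs,
      one_mul, Matrix.trace, pt]
    rfl
  rw [h0, h1, alt_telescope, hc0, hc1, pow_mul]
  simp only [even_two, Even.neg_pow, one_pow, one_mul]
  ring

private theorem div_one (s : Fin N → F) (j l : ℕ) :
    ∑ a, ∑ b, MvPolynomial.pderiv (a, b) ((XM N F ^ j * Li s * XM N F ^ l) a b) =
      ∑ r ∈ range j, pt N F r * TT s (j + l - 1 - r) +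
        ∑ r ∈ range l, pt N F r * TT s (j + l - 1 - r) := by
  have h1 : ∀ a b : Fin N, MvPolynomial.pderiv (a, b) ((XM N F ^ j * Li s * XM N F ^ l) a b) =
      (∑ r ∈ range j, (XM N F ^ r) a a *
        ∑ e, (XM N F ^ (j - 1 - r) * Li s) b e * (XM N F ^ l) e b) +
      ∑ r ∈ range l, (∑ e, (XM N F ^ j * Li s) a e * (XM N F ^ r) e a) *
        (XM N F ^ (l - 1 - r)) b b := by
    intro a b
    rw [Matrix.mul_apply, map_sum]
    have h2 : ∀ e, MvPolynomial.pderiv (a, b) ((XM N F ^ j * Li s) a e * (XM N F ^ l) e b) =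
        (∑ r ∈ range j, (XM N F ^ r) a a * ((XM N F ^ (j - 1 - r) * Li s) b e * (XM N F ^ l) e b)) +
        ∑ r ∈ range l, ((XM N F ^ j * Li s) a e * (XM N F ^ r) e a) * (XM N F ^ (l - 1 - r)) b b := by
      intro e
      rw [Li, Matrix.mul_diagonal, MvPolynomial.pderiv_mul, MvPolynomial.pderiv_mul,
        MvPolynomial.pderiv_C, mul_zero, add_zero, pderiv_pow, pderiv_pow, sum_mul, sum_mul, mul_sum]
      congr 1
      · refine sum_congr rfl fun r _ => ?_
        rw [Matrix.mul_diagonal]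
        ring
      · refine sum_congr rfl fun r _ => ?_
        ring
    rw [sum_congr rfl fun e _ => h2 e, sum_add_distrib, sum_comm, sum_comm (s := univ) (t := range l)]
    congr 1
    · refine sum_congr rfl fun r _ => by rw [mul_sum]
    · refine sum_congr rfl fun r _ => by rw [sum_mul]
  simp only [h1, sum_add_distrib]
  congr 1
  · have : ∀ r ∈ range j, ∑ a, ∑ b, (XM N F ^ r) a a *
        ∑ e, (XM N F ^ (j - 1 - r) * Li s) b e * (XM N F ^ l) e b =
        pt N F r * TT s (j + l - 1 - r) := by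
      intro r hr
      have hr' : r < j := mem_range.mp hr
      have e1 : j + l - 1 - r = (j - 1 - r) + l := by omega
      rw [e1, ← tr_pow_Li, pt, sum_mul]
      refine sum_congr rfl fun a _ => ?_
      rw [← mul_sum, Matrix.trace]
      rfl
    rw [← sum_congr rfl this]
    rw [sum_comm (s := range j)]
    refine sum_congr rfl fun a _ => ?_
    rw [sum_comm]
  · have : ∀ r ∈ range l, ∑ a, ∑ b, (∑ e, (XM N F ^ j * Li s) a e * (XM N F ^ r) e a) *
        (XM N F ^ (l - 1 - r)) b b =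
        pt N F (l - 1 - r) * TT s (j + r) := by
      intro r hr
      rw [← tr_pow_Li, pt, mul_comm, Matrix.trace, sum_mul]
      refine sum_congr rfl fun a _ => ?_
      rw [← mul_sum]
      rfl
    have h3 : ∑ r ∈ range l, pt N F r * TT s (j + l - 1 - r) =
        ∑ r ∈ range l, pt N F (l - 1 - r) * TT s (j + r) := by
      rw [← sum_range_reflect]
      refine sum_congr rfl fun r hr => ?_
      have hr' : r < l := mem_range.mp hr
      congr 2
      omega
    rw [h3, ← sum_congr rfl this]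
    rw [sum_comm (s := range l)]
    refine sum_congr rfl fun a _ => ?_
    rw [sum_comm]

private theorem div_side (s : Fin N → F) (ν : ℕ) :
    ∑ a, ∑ b, MvPolynomial.pderiv (a, b) (AMt s (2 * ν) a b) =
      2 * ∑ k ∈ range ν, pt N F (2 * k + 1) * TT s (2 * (ν - 1 - k)) := by
  have h1 : ∀ a b : Fin N, MvPolynomial.pderiv (a, b) (AMt s (2 * ν) a b) =
      ∑ j ∈ range (2 * ν + 1), (-1 : MX N F) ^ j *
        MvPolynomial.pderiv (a, b) ((XM N F ^ j * Li s * XM N F ^ (2 * ν - j)) a b) := by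
    intro a b
    rw [AMt, Matrix.sum_apply, map_sum]
    refine sum_congr rfl fun j _ => ?_
    rw [Matrix.smul_apply, smul_eq_mul, MvPolynomial.pderiv_mul]
    have : MvPolynomial.pderiv (a, b) ((-1 : MX N F) ^ j) = 0 := by
      rw [show ((-1 : MX N F) ^ j) = MvPolynomial.C ((-1 : F) ^ j) by simp, MvPolynomial.pderiv_C]
    rw [this, zero_mul, zero_add]
  have h2 : ∑ a, ∑ b, MvPolynomial.pderiv (a, b) (AMt s (2 * ν) a b) =
      ∑ j ∈ range (2 * ν + 1), (-1 : MX N F) ^ j *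
        (∑ r ∈ range j, pt N F r * TT s (2 * ν - 1 - r) +
          ∑ r ∈ range (2 * ν - j), pt N F r * TT s (2 * ν - 1 - r)) := by
    simp only [h1]
    rw [sum_congr rfl fun a _ => sum_comm, sum_comm]
    refine sum_congr rfl fun j hj => ?_
    have hj' : j < 2 * ν + 1 := mem_range.mp hj
    have e1 : j + (2 * ν - j) = 2 * ν := by omega
    rw [← e1, show j + (2 * ν - j) - j = 2 * ν - j by omega]
    rw [← div_one, mul_sum]
    refine sum_congr rfl fun a _ => ?_
    rw [mul_sum]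
  rw [h2]
  simp only [mul_add, sum_add_distrib]
  rw [altSumA, altSumA', ← two_mul]
  congr 1
  refine sum_congr rfl fun k hk => ?_
  have hk' : k < ν := mem_range.mp hk
  congr 2
  omega

private theorem chain_aux [Algebra ℝ F] (a b : Fin N) (f : MvPolynomial ℕ ℝ) :
    ∃ S₀ : Finset ℕ, ∀ S : Finset ℕ, S₀ ⊆ S →
      MvPolynomial.pderiv (a, b) (subT N F f) =
        ∑ j ∈ S, subT N F (MvPolynomial.pderiv j f) *
          MvPolynomial.pderiv (a, b) (pt N F (2 * j + 1)) := by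
  classical
  induction f using MvPolynomial.induction_on with
  | C r =>
    refine ⟨∅, fun S _ => ?_⟩
    have h1 : subT N F (MvPolynomial.C r) = MvPolynomial.C (algebraMap ℝ F r) := by
      rw [subT, MvPolynomial.aeval_C]
      rfl
    rw [h1, MvPolynomial.pderiv_C]
    refine (sum_eq_zero fun j _ => ?_).symm
    rw [MvPolynomial.pderiv_C, map_zero, zero_mul]
  | add p q hp hq =>
    obtain ⟨S₁, h₁⟩ := hp
    obtain ⟨S₂, h₂⟩ := hq
    refine ⟨S₁ ∪ S₂, fun S hS => ?_⟩
    rw [map_add, map_add, h₁ S (subset_trans subset_union_left hS),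
      h₂ S (subset_trans subset_union_right hS), ← sum_add_distrib]
    refine sum_congr rfl fun j _ => ?_
    rw [map_add, map_add, add_mul]
  | mul_X p i hp =>
    obtain ⟨S₁, h₁⟩ := hp
    refine ⟨insert i S₁, fun S hS => ?_⟩
    have hi : i ∈ S := hS (mem_insert_self _ _)
    have hX : subT N F (MvPolynomial.X i) = pt N F (2 * i + 1) := by
      rw [subT, MvPolynomial.aeval_X]
    rw [map_mul, hX, MvPolynomial.pderiv_mul, h₁ S (subset_trans (subset_insert _ _) hS)]
    have h2 : ∀ j ∈ S, subT N F (MvPolynomial.pderiv j (p * MvPolynomial.X i)) *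
        MvPolynomial.pderiv (a, b) (pt N F (2 * j + 1)) =
        subT N F (MvPolynomial.pderiv j p) * MvPolynomial.pderiv (a, b) (pt N F (2 * j + 1)) *
          pt N F (2 * i + 1) +
        if j = i then subT N F p * MvPolynomial.pderiv (a, b) (pt N F (2 * i + 1)) else 0 := by
      intro j _
      rw [MvPolynomial.pderiv_mul, map_add, map_mul, map_mul, hX, add_mul]
      congr 1
      · ring
      · by_cases hji : j = i
        · subst hji
          rw [if_pos rfl, MvPolynomial.pderiv_X_self, map_one, mul_one]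
        · rw [if_neg hji, MvPolynomial.pderiv_X_of_ne (Ne.symm hji), map_zero, mul_zero, zero_mul]
    rw [sum_congr rfl h2, sum_add_distrib, sum_ite_eq' S i, if_pos hi, sum_mul]

private theorem chain [Algebra ℝ F] (a b : Fin N) (f : MvPolynomial ℕ ℝ) :
    MvPolynomial.pderiv (a, b) (subT N F f) =
      ∑ j ∈ f.vars, subT N F (MvPolynomial.pderiv j f) *
        (((2 * j + 1 : ℕ) : MX N F) * (XM N F ^ (2 * j)) b a) := by
  classical
  obtain ⟨S₀, h⟩ := chain_aux (N := N) (F := F) a b f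
  rw [h (S₀ ∪ f.vars) subset_union_left]
  symm
  have h1 : ∀ j, MvPolynomial.pderiv (a, b) (pt N F (2 * j + 1)) =
      ((2 * j + 1 : ℕ) : MX N F) * (XM N F ^ (2 * j)) b a := by
    intro j
    rw [pderiv_pt]
    rfl
  simp only [h1]
  refine sum_subset subset_union_right fun j _ hj => ?_
  rw [MvPolynomial.pderiv_eq_zero_of_notMem_vars hj, map_zero, zero_mul]

private theorem trA (s : Fin N → F) (ν k : ℕ) :
    ∑ a, ∑ b, AMt s (2 * ν) a b * (XM N F ^ (2 * k)) b a = TT s (2 * (ν + k)) := by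
  have h0 : ∑ a, ∑ b, AMt s (2 * ν) a b * (XM N F ^ (2 * k)) b a =
      Matrix.trace (AMt s (2 * ν) * XM N F ^ (2 * k)) := by
    rw [Matrix.trace]
    refine sum_congr rfl fun a _ => ?_
    rw [Matrix.diag_apply, Matrix.mul_apply]
  rw [h0, AMt, Matrix.sum_mul, Matrix.trace_sum]
  have h1 : ∀ j ∈ range (2 * ν + 1), Matrix.trace
      ((-1 : MX N F) ^ j • (XM N F ^ j * Li s * XM N F ^ (2 * ν - j)) * XM N F ^ (2 * k)) =
      (-1 : MX N F) ^ j * TT s (2 * (ν + k)) := by
    intro j hj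
    have hj' : j < 2 * ν + 1 := mem_range.mp hj
    rw [Matrix.smul_mul, Matrix.trace_smul, smul_eq_mul, mul_assoc, ← pow_add, tr_pow_Li]
    congr 2
    omega
  rw [sum_congr rfl h1, ← sum_mul, alt_one, one_mul]

theorem starId [Algebra ℝ F] (s : Fin N → F) (hs : ∀ i, s i ≠ 0) (hs2 : ∀ i j, s i + s j ≠ 0)
    (E : MX N F →ₗ[F] F) (hE : IsMat s E) (ν : ℕ) (f : MvPolynomial ℕ ℝ) :
    E (pt N F (2 * ν + 1) * subT N F f) =
      ∑ j ∈ range ν, E (TT s (2 * (ν - 1 - j)) * subT N F (MvPolynomial.X j * f)) +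
      ∑ j ∈ f.vars, ((2 * (j : ℝ) + 1) / 2) •
        E (TT s (2 * (ν + j)) * subT N F (MvPolynomial.pderiv j f)) := by
  have hchar : CharZero F := charZero_of_injective_algebraMap (algebraMap ℝ F).injective
  have step : ∀ (i j : Fin N) (h : MX N F),
      E (MvPolynomial.C (s i + s j) * (XM N F i j * h)) = E (MvPolynomial.pderiv (j, i) h) := by
    intro i j h
    rw [← MvPolynomial.smul_eq_C_mul, map_smul, XM, hE.step, smul_eq_mul, ← mul_assoc,
      mul_inv_cancel₀ (hs2 i j), one_mul]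
  have key : E (2 * pt N F (2 * ν + 1) * subT N F f) =
      E ((2 * ∑ k ∈ range ν, pt N F (2 * k + 1) * TT s (2 * (ν - 1 - k))) * subT N F f) +
      ∑ j ∈ f.vars, E (((2 * j + 1 : ℕ) : MX N F) *
        (TT s (2 * (ν + j)) * subT N F (MvPolynomial.pderiv j f))) := by
    rw [← left_side s hs ν, ← div_side s ν]
    have h1 : (∑ i, ∑ j, MvPolynomial.C (s i + s j) * (XM N F i j * AMt s (2 * ν) j i)) *
        subT N F f = ∑ i, ∑ j, MvPolynomial.C (s i + s j) *
          (XM N F i j * (AMt s (2 * ν) j i * subT N F f)) := by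
      rw [sum_mul]
      refine sum_congr rfl fun i _ => ?_
      rw [sum_mul]
      refine sum_congr rfl fun j _ => by ring
    rw [h1, map_sum]
    have h2 : ∀ i, E (∑ j, MvPolynomial.C (s i + s j) *
        (XM N F i j * (AMt s (2 * ν) j i * subT N F f))) =
        ∑ j, E (MvPolynomial.pderiv (j, i) (AMt s (2 * ν) j i * subT N F f)) := by
      intro i
      rw [map_sum]
      exact sum_congr rfl fun j _ => step i j _
    rw [sum_congr rfl fun i _ => h2 i, sum_comm]
    have h3 : ∀ a b : Fin N, E (MvPolynomial.pderiv (a, b) (AMt s (2 * ν) a b * subT N F f)) =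
        E (MvPolynomial.pderiv (a, b) (AMt s (2 * ν) a b) * subT N F f) +
        ∑ j ∈ f.vars, E (((2 * j + 1 : ℕ) : MX N F) * ((AMt s (2 * ν) a b * (XM N F ^ (2 * j)) b a) *
          subT N F (MvPolynomial.pderiv j f))) := by
      intro a b
      rw [MvPolynomial.pderiv_mul, map_add, chain, mul_sum, map_sum]
      congr 1
      refine sum_congr rfl fun j _ => ?_
      congr 1
      ring
    simp only [h3, sum_add_distrib]
    congr 1
    · rw [sum_mul, map_sum]
      refine sum_congr rfl fun a _ => ?_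
      rw [sum_mul, map_sum]
    · rw [sum_congr rfl fun a _ => sum_comm, sum_comm]
      refine sum_congr rfl fun j _ => ?_
      rw [← trA s ν j, sum_mul, mul_sum, map_sum]
      refine sum_congr rfl fun a _ => ?_
      rw [sum_mul, mul_sum, map_sum]
  have h2F : (2 : F) ≠ 0 := two_ne_zero
  have e2 : ∀ g : MX N F, E (2 * g) = 2 * E g := by
    intro g
    have h : (2 : MX N F) * g = (2 : F) • g := by
      rw [MvPolynomial.smul_eq_C_mul, show (MvPolynomial.C (2 : F) : MX N F) = 2 from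
        map_ofNat MvPolynomial.C 2]
    rw [h, map_smul, smul_eq_mul]
  have eN : ∀ (j : ℕ) (g : MX N F), E (((2 * j + 1 : ℕ) : MX N F) * g) =
      ((2 * j + 1 : ℕ) : F) * E g := by
    intro j g
    have h : ((2 * j + 1 : ℕ) : MX N F) * g = ((2 * j + 1 : ℕ) : F) • g := by
      rw [MvPolynomial.smul_eq_C_mul, show (MvPolynomial.C ((2 * j + 1 : ℕ) : F) : MX N F) =
        ((2 * j + 1 : ℕ) : MX N F) from map_natCast MvPolynomial.C (2 * j + 1)]
    rw [h, map_smul, smul_eq_mul]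
  have key2 : 2 * E (pt N F (2 * ν + 1) * subT N F f) =
      2 * ∑ j ∈ range ν, E (TT s (2 * (ν - 1 - j)) * subT N F (MvPolynomial.X j * f)) +
      ∑ j ∈ f.vars, ((2 * j + 1 : ℕ) : F) *
        E (TT s (2 * (ν + j)) * subT N F (MvPolynomial.pderiv j f)) := by
    rw [← e2, ← mul_assoc, key]
    congr 1
    · rw [mul_assoc, e2, sum_mul, map_sum]
      congr 1
      refine sum_congr rfl fun k _ => ?_
      have hX : subT N F (MvPolynomial.X k) = pt N F (2 * k + 1) := by
        rw [subT, MvPolynomial.aeval_X]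
      rw [map_mul (subT N F), hX]
      congr 1
      ring
    · exact sum_congr rfl fun j _ => eN j _
  have key3 : ∀ j ∈ f.vars, ((2 * (j : ℝ) + 1) / 2) •
        E (TT s (2 * (ν + j)) * subT N F (MvPolynomial.pderiv j f)) =
      (1 / 2 : F) * (((2 * j + 1 : ℕ) : F) *
        E (TT s (2 * (ν + j)) * subT N F (MvPolynomial.pderiv j f))) := by
    intro j _
    rw [Algebra.smul_def, ← mul_assoc]
    congr 1
    rw [map_div₀, map_add, map_mul, map_natCast, map_one]
    simp only [map_ofNat]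
    push_cast
    ring
  rw [sum_congr rfl key3, ← mul_sum]
  have : E (pt N F (2 * ν + 1) * subT N F f) = (1 / 2 : F) * (2 * E (pt N F (2 * ν + 1) * subT N F f)) := by
    rw [← mul_assoc, one_div_mul_cancel h2F, one_mul]
  rw [this, key2, mul_add, ← mul_assoc, one_div_mul_cancel h2F, one_mul]

end Pool.Agent.Helper52.MVD
end

/- Helper62.MVC2.SurgA -/
section
/-!
MV-C2-3. The analytic surgery inequality.

Situation: `F = F₁ ⊕ F₂`, `ι = ι₁ ⊕ ι₂`; the only interaction is that the edge `e₀ ∈ ι₁` has one half-edge in the face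
`y ∈ F₁` and one in the face `x ∈ F₂`, while in the system `(F₁, ι₁)` both half-edges are in `y`:
`W(inl f, inl e) + [f = y, e = e₀] = W₁ f e`, `W₁ f e₀ = 2 [f = y]`.

Proof. (0) `exists_first_moment` (file `FirstMom`).
(1) Let `G(x₁)` be the part of the integrand of `F` from the faces of `F₁`; it depends only on `x₁ : ι₁ → ℝ`; it equals
`GI β₁ W₁ ε 0 (x₁')` with `x₁' = x₁` except that the coordinate `e₀` is halved. The part of the faces of `F₂` is
`GI β₂ W₂ ε (ξ₂ + x₁(e₀) 1_x) (x₂)`. By Fubini on `ι₁ ⊕ ι₂ → ℝ` (as in `GA_prod`),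
`GA β W ε ξ = ∫_{x₁ > 0} G(x₁) O(x₁ e₀)`, `O ℓ = GA β₂ W₂ ε (ξ₂ + ℓ 1_x)`.
(For Fubini: `MeasureTheory.setIntegral_prod` needs the integrability of the whole integrand, `GI_integrableOn`: the
columns of `W` have a positive entry because those of `W₁`, `W₂` have: for `e₀` the entry of `y` is `2 - 1 = 1`.)
(2) Scaling one coordinate: `∫_{x₁>0} G = 2 * GA β₁ W₁ ε 0` (`integral_halve`, file `FirstMom`).
(3) Support: if `G(x₁) ≠ 0`, `x₁ > 0`, then `x₁(e₀) ≤ |F₁| ε`: with `μ` as in the hypotheses,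
`x₁(e₀) = ∑_f μ_f p_f = 1/2 ∑_f μ_f (p_f - p_{β₁ f})`, `p_f = ∑_e W(inl f, inl e) x₁ e`, and `|p_f - p_{β₁ f}| < 2 ε`
(`GI_ne_zero`). Indeed `∑_f μ_f W(inl f, inl e) = ∑_f μ_f W₁ f e - [e = e₀] μ_y = [e = e₀]` by `hμW`.
Apply (0) with `L = |F₁| ε`.
-/

namespace Pool.Agent.Helper62.MVC2

open Finset MeasureTheory Filter Topology Pool.Agent.Helper60.MV

/-- a function on `ι₁ ⊕ ι₂`, transported to `ι` -/
theorem exists_glue {ι₁ ι₂ ι : Type} [Fintype ι₁] [Fintype ι₂] [Fintype ι] (b : ι₁ ⊕ ι₂ ≃ ι) :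
    ∃ ψ : ((ι₁ → ℝ) × (ι₂ → ℝ)) → (ι → ℝ), MeasurePreserving ψ volume volume ∧
      MeasurableEmbedding ψ ∧ (∀ q e, ψ q (b (Sum.inl e)) = q.1 e) ∧
      (∀ q e, ψ q (b (Sum.inr e)) = q.2 e) := by
  refine ⟨fun q => (MeasurableEquiv.piCongrLeft (fun _ : ι => ℝ) b)
    ((MeasurableEquiv.sumPiEquivProdPi (fun _ : ι₁ ⊕ ι₂ => ℝ)).symm q), ?_, ?_, ?_, ?_⟩
  · exact (volume_measurePreserving_piCongrLeft (fun _ : ι => ℝ) b).comp
      (volume_measurePreserving_sumPiEquivProdPi_symm (fun _ : ι₁ ⊕ ι₂ => ℝ))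
  · exact (MeasurableEquiv.measurableEmbedding _).comp (MeasurableEquiv.measurableEmbedding _)
  · intro q e
    have h := Equiv.piCongrLeft_apply_apply (P := fun _ : ι => ℝ) b
      ((MeasurableEquiv.sumPiEquivProdPi (fun _ : ι₁ ⊕ ι₂ => ℝ)).symm q) (Sum.inl e)
    exact h
  · intro q e
    have h := Equiv.piCongrLeft_apply_apply (P := fun _ : ι => ℝ) b
      ((MeasurableEquiv.sumPiEquivProdPi (fun _ : ι₁ ⊕ ι₂ => ℝ)).symm q) (Sum.inr e)
    exact h

/-- factorisation of the integrand -/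
theorem GI_split {F₁ F₂ ι₁ ι₂ F ι : Type} [Fintype F₁] [Fintype F₂] [Fintype ι₁] [Fintype ι₂]
    [Fintype F] [Fintype ι] [DecidableEq F₂] [DecidableEq ι₁]
    (β₁ : F₁ → F₁) (β₂ : F₂ → F₂) (β : F → F)
    (W₂ : F₂ → ι₂ → ℕ) (W : F → ι → ℕ) (ε : ℝ) (ξ₂ : F₂ → ℝ) (ξ : F → ℝ)
    (a : F₁ ⊕ F₂ ≃ F) (b : ι₁ ⊕ ι₂ ≃ ι) (x : F₂) (e₀ : ι₁)
    (hβ₁ : ∀ f, β (a (Sum.inl f)) = a (Sum.inl (β₁ f)))
    (hβ₂ : ∀ f, β (a (Sum.inr f)) = a (Sum.inr (β₂ f)))
    (h12 : ∀ f e, W (a (Sum.inl f)) (b (Sum.inr e)) = 0)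
    (h21 : ∀ f e, W (a (Sum.inr f)) (b (Sum.inl e)) = if f = x ∧ e = e₀ then 1 else 0)
    (h22 : ∀ f e, W (a (Sum.inr f)) (b (Sum.inr e)) = W₂ f e)
    (hξa : ∀ f, ξ (a (Sum.inl f)) = 0) (hξb : ∀ f, ξ (a (Sum.inr f)) = ξ₂ f)
    (z : ι₁ → ℝ) (w : ι₂ → ℝ) (u : ι → ℝ) (hu1 : ∀ e, u (b (Sum.inl e)) = z e)
    (hu2 : ∀ e, u (b (Sum.inr e)) = w e) :
    GI β W ε ξ u = GI β₁ (fun f e => W (a (Sum.inl f)) (b (Sum.inl e))) ε 0 z *
      GI β₂ W₂ ε (fun f => ξ₂ f + if f = x then z e₀ else 0) w := by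
  have p1 : ∀ f, ∑ e, (W (a (Sum.inl f)) e : ℝ) * u e + ξ (a (Sum.inl f)) =
      ∑ e, (W (a (Sum.inl f)) (b (Sum.inl e)) : ℝ) * z e + (0 : F₁ → ℝ) f := by
    intro f
    rw [← Equiv.sum_comp b, Fintype.sum_sum_type, hξa]
    simp [h12, hu1]
  have p2 : ∀ f, ∑ e, (W (a (Sum.inr f)) e : ℝ) * u e + ξ (a (Sum.inr f)) =
      ∑ e, (W₂ f e : ℝ) * w e + (ξ₂ f + if f = x then z e₀ else 0) := by
    intro f
    rw [← Equiv.sum_comp b, Fintype.sum_sum_type, hξb]
    simp only [h21, h22, hu1, hu2]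
    have : ∑ e, (((if f = x ∧ e = e₀ then 1 else 0 : ℕ)) : ℝ) * z e = if f = x then z e₀ else 0 := by
      by_cases hf : f = x
      · simp [hf]
      · simp [hf]
    rw [this]
    ring
  unfold GI
  rw [← Equiv.prod_comp a, Fintype.prod_sum_type]
  congr 1
  · refine Finset.prod_congr rfl (fun f _ => ?_)
    rw [hβ₁, p1, p1]
  · refine Finset.prod_congr rfl (fun f _ => ?_)
    rw [hβ₂, p2, p2]

/-- halving the coordinate `e₀` -/
theorem GI_halve {F₁ ι₁ : Type} [Fintype F₁] [Fintype ι₁] [DecidableEq F₁] [DecidableEq ι₁]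
    (β₁ : F₁ → F₁) (W₁ V : F₁ → ι₁ → ℕ) (ε : ℝ) (y : F₁) (e₀ : ι₁)
    (hW₁ : ∀ f, W₁ f e₀ = if f = y then 2 else 0)
    (h11 : ∀ f e, V f e + (if f = y ∧ e = e₀ then 1 else 0) = W₁ f e) (z : ι₁ → ℝ) :
    GI β₁ V ε 0 z = GI β₁ W₁ ε 0 (Function.update z e₀ (z e₀ / 2)) := by
  have p : ∀ f, ∑ e, (V f e : ℝ) * z e =
      ∑ e, (W₁ f e : ℝ) * (Function.update z e₀ (z e₀ / 2)) e := by
    intro f
    refine Finset.sum_congr rfl (fun e _ => ?_)
    by_cases he : e = e₀
    · subst he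
      rw [Function.update_self]
      have h1 := h11 f e
      have h2 := hW₁ f
      by_cases hf : f = y
      · rw [if_pos ⟨hf, rfl⟩, h2, if_pos hf] at h1
        have h3 : V f e = 1 := by omega
        rw [h3, h2, if_pos hf]
        push_cast
        ring
      · rw [if_neg (fun h => hf h.1), h2, if_neg hf] at h1
        have h3 : V f e = 0 := by omega
        rw [h3, h2, if_neg hf]
        simp
    · rw [Function.update_of_ne he]
      have h1 := h11 f e
      rw [if_neg (fun h => he h.2), add_zero] at h1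
      rw [h1]
  unfold GI
  refine Finset.prod_congr rfl (fun f _ => ?_)
  rw [p, p]

/-- the stem is short -/
theorem stem_le {F₁ ι₁ : Type} [Fintype F₁] [Fintype ι₁] [DecidableEq F₁] [DecidableEq ι₁]
    (β₁ : F₁ → F₁) (hβ₁i : ∀ f, β₁ (β₁ f) = f) (W₁ V : F₁ → ι₁ → ℕ) (ε : ℝ) (hε : 0 < ε)
    (y : F₁) (e₀ : ι₁)
    (hW₁ : ∀ f, W₁ f e₀ = if f = y then 2 else 0)
    (h11 : ∀ f e, V f e + (if f = y ∧ e = e₀ then 1 else 0) = W₁ f e)
    (μ : F₁ → ℤ) (hμβ : ∀ f, μ (β₁ f) = - μ f) (hμ1 : ∀ f, |μ f| ≤ 1)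
    (hμW : ∀ e, ∑ f, μ f * (W₁ f e : ℤ) = if e = e₀ then 2 else 0) (z : ι₁ → ℝ)
    (hz : GI β₁ V ε 0 z ≠ 0) : z e₀ ≤ (Fintype.card F₁ : ℝ) * ε := by
  have hy : μ y = 1 := by
    have h := hμW e₀
    simp only [hW₁, if_true] at h
    have h2 : ∑ f, μ f * (((if f = y then 2 else 0 : ℕ)) : ℤ) = μ y * 2 := by
      rw [Finset.sum_eq_single y]
      · simp
      · intro f _ hf
        simp [hf]
      · simp
    rw [h2] at h
    omega
  have hV : ∀ e, ∑ f, μ f * (V f e : ℤ) = if e = e₀ then 1 else 0 := by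
    intro e
    have h1 : ∀ f, (V f e : ℤ) = (W₁ f e : ℤ) - (if f = y ∧ e = e₀ then 1 else 0) := by
      intro f
      rw [← h11 f e]
      push_cast
      ring
    have h2 : ∑ f, μ f * (V f e : ℤ) = ∑ f, μ f * (W₁ f e : ℤ) -
        ∑ f, μ f * (if f = y ∧ e = e₀ then 1 else 0) := by
      rw [← Finset.sum_sub_distrib]
      refine Finset.sum_congr rfl (fun f _ => ?_)
      rw [h1]
      ring
    rw [h2, hμW]
    by_cases he : e = e₀
    · have h3 : ∑ f, μ f * (if f = y ∧ e = e₀ then (1 : ℤ) else 0) = μ y := by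
        rw [Finset.sum_eq_single y]
        · simp [he]
        · intro f _ hf
          simp [hf]
        · simp
      rw [h3, hy]
      simp [he]
    · simp [he]
  set p : F₁ → ℝ := fun f => ∑ e, (V f e : ℝ) * z e with hp
  have hsum : z e₀ = ∑ f, (μ f : ℝ) * p f := by
    have h1 : ∑ f, (μ f : ℝ) * p f = ∑ e, (((∑ f, μ f * (V f e : ℤ) : ℤ)) : ℝ) * z e := by
      simp only [hp, Finset.mul_sum]
      rw [Finset.sum_comm]
      refine Finset.sum_congr rfl (fun e _ => ?_)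
      push_cast
      rw [Finset.sum_mul]
      refine Finset.sum_congr rfl (fun f _ => ?_)
      ring
    rw [h1]
    simp only [hV]
    rw [Finset.sum_eq_single e₀]
    · simp
    · intro e _ he
      simp [he]
    · simp
  have hinv : ∑ f, (μ f : ℝ) * p f = - ∑ f, (μ f : ℝ) * p (β₁ f) := by
    have h1 : ∑ f, (μ f : ℝ) * p f = ∑ f, (μ (β₁ f) : ℝ) * p (β₁ f) :=
      (Equiv.sum_comp (⟨β₁, β₁, hβ₁i, hβ₁i⟩ : F₁ ≃ F₁) (fun f => (μ f : ℝ) * p f)).symm
    rw [h1, ← Finset.sum_neg_distrib]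
    refine Finset.sum_congr rfl (fun f _ => ?_)
    rw [hμβ]
    push_cast
    ring
  have h2 : 2 * z e₀ = ∑ f, (μ f : ℝ) * (p f - p (β₁ f)) := by
    have h3 : ∑ f, (μ f : ℝ) * (p f - p (β₁ f)) =
        ∑ f, (μ f : ℝ) * p f - ∑ f, (μ f : ℝ) * p (β₁ f) := by
      rw [← Finset.sum_sub_distrib]
      refine Finset.sum_congr rfl (fun f _ => ?_)
      ring
    rw [h3]
    linarith
  have h4 : ∑ f, (μ f : ℝ) * (p f - p (β₁ f)) ≤ ∑ _f : F₁, 2 * ε := by
    refine Finset.sum_le_sum (fun f _ => ?_)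
    have h5 := GI_ne_zero β₁ V ε hε 0 z hz f
    simp only [Pi.zero_apply, add_zero] at h5
    have h6 : |(μ f : ℝ)| ≤ 1 := by exact_mod_cast hμ1 f
    calc (μ f : ℝ) * (p f - p (β₁ f)) ≤ |(μ f : ℝ) * (p f - p (β₁ f))| := le_abs_self _
      _ = |(μ f : ℝ)| * |p f - p (β₁ f)| := abs_mul _ _
      _ ≤ 1 * (2 * ε) := mul_le_mul h6 h5.le (abs_nonneg _) zero_le_one
      _ = 2 * ε := one_mul _
  rw [Finset.sum_const, Finset.card_univ, nsmul_eq_mul] at h4
  linarith

theorem GA_surg {F₁ F₂ ι₁ ι₂ F ι : Type} [Fintype F₁] [Fintype F₂] [Fintype ι₁] [Fintype ι₂]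
    [Fintype F] [Fintype ι] [DecidableEq F₁] [DecidableEq F₂] [DecidableEq ι₁]
    (β₁ : F₁ → F₁) (β₂ : F₂ → F₂) (β : F → F)
    (hβ₁i : ∀ f, β₁ (β₁ f) = f) (hβ₂i : ∀ f, β₂ (β₂ f) = f)
    (W₁ : F₁ → ι₁ → ℕ) (W₂ : F₂ → ι₂ → ℕ) (W : F → ι → ℕ)
    (hc₁ : ∀ e, ∃ f, 0 < W₁ f e) (hc₂ : ∀ e, ∃ f, 0 < W₂ f e)
    (ε : ℝ) (hε : 0 < ε) (hε2 : ε ≤ 1 / 2) (ξ₂ : F₂ → ℝ) (hξ₂ : ∀ f, 0 ≤ ξ₂ f) (ξ : F → ℝ)
    (a : F₁ ⊕ F₂ ≃ F) (b : ι₁ ⊕ ι₂ ≃ ι) (y : F₁) (x : F₂) (e₀ : ι₁)
    (hβ₁ : ∀ f, β (a (Sum.inl f)) = a (Sum.inl (β₁ f)))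
    (hβ₂ : ∀ f, β (a (Sum.inr f)) = a (Sum.inr (β₂ f)))
    (hW₁ : ∀ f, W₁ f e₀ = if f = y then 2 else 0)
    (h11 : ∀ f e, W (a (Sum.inl f)) (b (Sum.inl e)) + (if f = y ∧ e = e₀ then 1 else 0) = W₁ f e)
    (h12 : ∀ f e, W (a (Sum.inl f)) (b (Sum.inr e)) = 0)
    (h21 : ∀ f e, W (a (Sum.inr f)) (b (Sum.inl e)) = if f = x ∧ e = e₀ then 1 else 0)
    (h22 : ∀ f e, W (a (Sum.inr f)) (b (Sum.inr e)) = W₂ f e)
    (hξa : ∀ f, ξ (a (Sum.inl f)) = 0) (hξb : ∀ f, ξ (a (Sum.inr f)) = ξ₂ f)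
    (μ : F₁ → ℤ) (hμβ : ∀ f, μ (β₁ f) = - μ f) (hμ1 : ∀ f, |μ f| ≤ 1)
    (hμW : ∀ e, ∑ f, μ f * (W₁ f e : ℤ) = if e = e₀ then 2 else 0) :
    ∃ l : ℝ, 0 ≤ l ∧ l ≤ (Fintype.card F₁ : ℝ) * ε ∧
      GA β W ε ξ ≤ 2 * GA β₁ W₁ ε 0 * GA β₂ W₂ ε (fun f => ξ₂ f + if f = x then l else 0) := by
  classical
  obtain ⟨ψ, hψ, hψe, hψ1, hψ2⟩ := exists_glue b
  set V : F₁ → ι₁ → ℕ := fun f e => W (a (Sum.inl f)) (b (Sum.inl e)) with hV
  set G : (ι₁ → ℝ) → ℝ := GI β₁ V ε 0 with hG
  set O : ℝ → ℝ := fun l => GA β₂ W₂ ε (fun f => ξ₂ f + if f = x then l else 0) with hO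
  set S₁ : Set (ι₁ → ℝ) := {z | ∀ e, 0 < z e} with hS₁
  set S₂ : Set (ι₂ → ℝ) := {w | ∀ e, 0 < w e} with hS₂
  set S : Set (ι → ℝ) := {u | ∀ e, 0 < u e} with hS
  have hmS₁ : MeasurableSet S₁ := by
    have : S₁ = ⋂ e, {z : ι₁ → ℝ | 0 < z e} := by ext z; simp [hS₁]
    rw [this]
    exact MeasurableSet.iInter (fun e => measurableSet_lt measurable_const (measurable_pi_apply e))
  have hmS₂ : MeasurableSet S₂ := by
    have : S₂ = ⋂ e, {z : ι₂ → ℝ | 0 < z e} := by ext z; simp [hS₂]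
    rw [this]
    exact MeasurableSet.iInter (fun e => measurableSet_lt measurable_const (measurable_pi_apply e))
  have hpre : ψ ⁻¹' S = S₁ ×ˢ S₂ := by
    ext q
    simp only [hS, hS₁, hS₂, Set.mem_preimage, Set.mem_setOf_eq, Set.mem_prod]
    constructor
    · intro h
      refine ⟨fun e => ?_, fun e => ?_⟩
      · rw [← hψ1]; exact h _
      · rw [← hψ2]; exact h _
    · rintro ⟨h1, h2⟩ e
      obtain ⟨e', rfl⟩ := b.surjective e
      rcases e' with e' | e'
      · rw [hψ1]; exact h1 _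
      · rw [hψ2]; exact h2 _
  have hfac : ∀ q, GI β W ε ξ (ψ q) =
      G q.1 * GI β₂ W₂ ε (fun f => ξ₂ f + if f = x then q.1 e₀ else 0) q.2 := fun q =>
    GI_split β₁ β₂ β W₂ W ε ξ₂ ξ a b x e₀ hβ₁ hβ₂ h12 h21 h22 hξa hξb q.1 q.2 (ψ q) (hψ1 q) (hψ2 q)
  have hβi : ∀ f, β (β f) = f := by
    intro f
    obtain ⟨f', rfl⟩ := a.surjective f
    rcases f' with f' | f'
    · rw [hβ₁, hβ₁, hβ₁i]
    · rw [hβ₂, hβ₂, hβ₂i]
  have hcV : ∀ e, ∃ f, 0 < V f e := by
    intro e
    by_cases he : e = e₀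
    · refine ⟨y, ?_⟩
      have h1 := h11 y e
      have h2 := hW₁ y
      rw [if_pos ⟨rfl, he⟩, he, h2, if_pos rfl] at h1
      simp only [hV, he]
      omega
    · obtain ⟨f, hf⟩ := hc₁ e
      refine ⟨f, ?_⟩
      have h1 := h11 f e
      rw [if_neg (fun h => he h.2)] at h1
      simp only [hV]
      omega
  have hcW : ∀ e, ∃ f, 0 < W f e := by
    intro e
    obtain ⟨e', rfl⟩ := b.surjective e
    rcases e' with e' | e'
    · obtain ⟨f, hf⟩ := hcV e'
      exact ⟨_, hf⟩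
    · obtain ⟨f, hf⟩ := hc₂ e'
      refine ⟨a (Sum.inr f), ?_⟩
      rw [h22]
      exact hf
  have hξ : ∀ f, 0 ≤ ξ f := by
    intro f
    obtain ⟨f', rfl⟩ := a.surjective f
    rcases f' with f' | f'
    · rw [hξa]
    · rw [hξb]; exact hξ₂ _
  have hint : IntegrableOn (GI β W ε ξ) S := GI_integrableOn β hβi W hcW ε hε hε2 ξ hξ
  have hint2 : IntegrableOn (fun q => GI β W ε ξ (ψ q)) (S₁ ×ˢ S₂) := by
    have := (hψ.integrableOn_comp_preimage hψe (f := GI β W ε ξ) (s := S)).2 hint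
    rw [hpre] at this
    exact this
  have hO2 : ∀ z : ι₁ → ℝ, ∫ w in S₂, GI β W ε ξ (ψ (z, w)) = G z * O (z e₀) := by
    intro z
    simp only [hfac]
    rw [integral_const_mul]
    rfl
  have hval : GA β W ε ξ = ∫ z in S₁, G z * O (z e₀) := by
    have h1 : GA β W ε ξ = ∫ q in S₁ ×ˢ S₂, GI β W ε ξ (ψ q) := by
      rw [← hpre]
      exact (hψ.setIntegral_preimage_emb hψe (GI β W ε ξ) S).symm
    rw [h1, Measure.volume_eq_prod, setIntegral_prod _ hint2]
    exact setIntegral_congr_fun hmS₁ (fun z _ => hO2 z)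
  have hGO : IntegrableOn (fun z => G z * O (z e₀)) S₁ := by
    have h1 : Integrable (fun q => GI β W ε ξ (ψ q))
        ((volume.restrict S₁).prod (volume.restrict S₂)) := by
      rw [Measure.prod_restrict, ← Measure.volume_eq_prod]
      exact hint2
    have h2 := h1.integral_prod_left
    refine h2.congr ?_
    exact Filter.Eventually.of_forall (fun z => hO2 z)
  have hGi : IntegrableOn G S₁ :=
    GI_integrableOn β₁ hβ₁i V hcV ε hε hε2 0 (fun _ => le_refl _)
  obtain ⟨l, hl0, hlL, hl⟩ := exists_first_moment volume S₁ hmS₁ G (fun z => z e₀) O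
    ((Fintype.card F₁ : ℝ) * ε) (mul_nonneg (Nat.cast_nonneg _) hε.le)
    (fun z => GI_nonneg β₁ V ε 0 z) hGi hGO
    (fun z hz hne => ⟨(hz e₀).le, stem_le β₁ hβ₁i W₁ V ε hε y e₀ hW₁ h11 μ hμβ hμ1 hμW z hne⟩)
  refine ⟨l, hl0, hlL, ?_⟩
  rw [hval]
  refine hl.trans (le_of_eq ?_)
  have h3 : ∫ z in S₁, G z = 2 * GA β₁ W₁ ε 0 := by
    have h4 : ∀ z, G z = GI β₁ W₁ ε 0 (Function.update z e₀ (z e₀ / 2)) := fun z =>
      GI_halve β₁ W₁ V ε y e₀ hW₁ h11 z
    simp only [h4]
    exact integral_halve e₀ (GI β₁ W₁ ε 0)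
  rw [h3]

end Pool.Agent.Helper62.MVC2
end

/- Helper62.MVC2.JTR -/
section
/-!
MV-C2-9. The embeddings `jT`, `jR`: injective, disjoint ranges, covering; injectivity of the surgery.

Facts: `(rot K ^ n) x = ⟨x.1, (x.2 + n) mod K x.1⟩` (induction on `n`, `finRotate` adds one modulo `K i`), so for `n, n' < K x.1`:
`(rot K ^ n) x = (rot K ^ n') x ↔ n = n'`, and every element of the fibre over `x.1` is `(rot K ^ n) x` for one `n < K x.1`.
`jT` uses the exponents `0` (the half-edge `(false, 0)`) and `1, ..., 2m+1`; `jR` uses the exponents `2m+2, ..., K x.1 - 1` on the fibre over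
`x.1` (`red K x.1 m x.1 = K x.1 - (2m+2)`) and is the identity on the other fibres.
`surg_inj`: `conf_ext`-style argument (`Pool.Agent.Helper62.MVC2.EmbL` may be imported for `conf_ext`): `R.τ = R'.τ` by `jcover`, `tauT`, `tauR`.
For `β`: every face of `R` is `R.face (jT h)` with `h.1 = true` or `R.face (jR h)` (for `x = jT (legHalf m)` use `facex`), the same for `R'`; note
that `R.face` depends only on `R.τ`, so after substituting `R.τ = R'.τ` both configurations have the same face map. Faces of the two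
kinds are different (`disj`), `betaT`, `betaR` determine `β` within each kind (each face of `T` contains a half-edge `(true, s)` by `faceTx`:
`T.τ (legHalf m)` is different from `legHalf m`, so it is of the form `(true, s)`), and the partner of a face of one kind is of the same kind.
-/

namespace Pool.Agent.Helper62.MVC2

open Finset Pool.Agent.Helper60.MV

private theorem finRotate_val (N : ℕ) (a : Fin N) :
    ((finRotate N a : Fin N) : ℕ) = ((a : ℕ) + 1) % N := by
  cases N with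
  | zero => exact a.elim0
  | succ k =>
    rw [finRotate_apply, Fin.val_add]
    rcases Nat.eq_zero_or_pos k with rfl | hk
    · simp
    · rw [Fin.val_one', Nat.add_mod_mod]

private theorem rot_apply {ρ : Type} (K : ρ → ℕ) (y : HK K) :
    rot K y = ⟨y.1, finRotate (K y.1) y.2⟩ := rfl

private theorem rot_pow_fst {ρ : Type} (K : ρ → ℕ) (x : HK K) (n : ℕ) :
    ((rot K ^ n) x).1 = x.1 := by
  induction n with
  | zero => rfl
  | succ n ih => rw [pow_succ', Equiv.Perm.mul_apply, rot_apply]; exact ih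

private theorem rot_pow_snd {ρ : Type} (K : ρ → ℕ) (x : HK K) (n : ℕ) :
    (((rot K ^ n) x).2 : ℕ) = ((x.2 : ℕ) + n) % K x.1 := by
  induction n with
  | zero => exact (Nat.mod_eq_of_lt x.2.isLt).symm
  | succ n ih =>
    rw [pow_succ', Equiv.Perm.mul_apply, rot_apply]
    show ((finRotate (K ((rot K ^ n) x).1) ((rot K ^ n) x).2 : Fin _) : ℕ) = _
    rw [finRotate_val, ih, rot_pow_fst, Nat.mod_add_mod, Nat.add_assoc]

private theorem hk_ext {ρ : Type} {K : ρ → ℕ} {y z : HK K} (h1 : y.1 = z.1)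
    (h2 : (y.2 : ℕ) = (z.2 : ℕ)) : y = z := by
  obtain ⟨i, a⟩ := y
  obtain ⟨j, b⟩ := z
  simp only at h1
  subst h1
  have : a = b := Fin.ext h2
  rw [this]

private theorem rot_pow_inj {ρ : Type} (K : ρ → ℕ) (x : HK K) {n n' : ℕ} (hn : n < K x.1)
    (hn' : n' < K x.1) (h : (rot K ^ n) x = (rot K ^ n') x) : n = n' := by
  have h1 : (((rot K ^ n) x).2 : ℕ) = (((rot K ^ n') x).2 : ℕ) := by rw [h]
  rw [rot_pow_snd, rot_pow_snd] at h1
  have h2 : n % K x.1 = n' % K x.1 := Nat.ModEq.add_left_cancel' (x.2 : ℕ) h1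
  rwa [Nat.mod_eq_of_lt hn, Nat.mod_eq_of_lt hn'] at h2

private theorem rot_pow_surj {ρ : Type} (K : ρ → ℕ) (x y : HK K) (h : y.1 = x.1) :
    ∃ n, n < K x.1 ∧ (rot K ^ n) x = y := by
  have hN : 0 < K x.1 := lt_of_le_of_lt (Nat.zero_le _) x.2.isLt
  have hy : (y.2 : ℕ) < K x.1 := lt_of_lt_of_eq y.2.isLt (congrArg K h)
  have hx := x.2.isLt
  refine ⟨((y.2 : ℕ) + (K x.1 - (x.2 : ℕ))) % K x.1, Nat.mod_lt _ hN, ?_⟩
  refine hk_ext ((rot_pow_fst K x _).trans h.symm) ?_
  rw [rot_pow_snd, Nat.add_mod_mod]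
  have : (x.2 : ℕ) + ((y.2 : ℕ) + (K x.1 - (x.2 : ℕ))) = (y.2 : ℕ) + K x.1 := by omega
  rw [this, Nat.add_mod_right, Nat.mod_eq_of_lt hy]

/-- the exponent of `jT` -/
private def eT {m : ℕ} (h : HK (leg m)) : ℕ := if h.1 = true then (h.2 : ℕ) + 1 else 0

private theorem jT_eq {ρ : Type} (K : ρ → ℕ) (x : HK K) (m : ℕ) (h : HK (leg m)) :
    jT K x m h = (rot K ^ (eT h)) x := by
  unfold jT eT
  split_ifs <;> rfl

private theorem eT_lt {m : ℕ} (h : HK (leg m)) : eT h < 2 * m + 2 := by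
  unfold eT
  split_ifs with h1
  · have h2 := h.2.isLt
    have h3 : leg m h.1 = 2 * m + 1 := by rw [h1]; rfl
    omega
  · omega

private theorem eT_inj {m : ℕ} {h h' : HK (leg m)} (hh : eT h = eT h') : h = h' := by
  obtain ⟨b, s⟩ := h
  obtain ⟨b', s'⟩ := h'
  cases b <;> cases b'
  · refine hk_ext rfl ?_
    have h1 : (s : ℕ) < 1 := s.isLt
    have h2 : (s' : ℕ) < 1 := s'.isLt
    show (s : ℕ) = (s' : ℕ)
    omega
  · simp [eT] at hh
  · simp [eT] at hh
  · refine hk_ext rfl ?_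
    simpa [eT] using hh

private theorem jR_of_eq {ρ : Type} (K : ρ → ℕ) (x : HK K) (m : ℕ) (h : HK (red K x.1 m))
    (hi : h.1 = x.1) : jR K x m h = (rot K ^ (2 * m + 2 + (h.2 : ℕ))) x := by
  unfold jR
  rw [dif_pos hi]

private theorem jR_fst {ρ : Type} (K : ρ → ℕ) (x : HK K) (m : ℕ) (h : HK (red K x.1 m)) :
    (jR K x m h).1 = h.1 := by
  by_cases hi : h.1 = x.1
  · rw [jR_of_eq K x m h hi, rot_pow_fst, hi]
  · unfold jR
    rw [dif_neg hi]

private theorem jR_snd {ρ : Type} (K : ρ → ℕ) (x : HK K) (m : ℕ) (h : HK (red K x.1 m))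
    (hi : h.1 ≠ x.1) : ((jR K x m h).2 : ℕ) = (h.2 : ℕ) := by
  unfold jR
  rw [dif_neg hi]

private theorem red_self {ρ : Type} (K : ρ → ℕ) (i : ρ) (m : ℕ) :
    red K i m i = K i - (2 * m + 2) := by
  simp [red]

private theorem red_ne {ρ : Type} (K : ρ → ℕ) {i j : ρ} (hij : j ≠ i) (m : ℕ) :
    red K i m j = K j := by
  simp [red, hij]

private theorem eR_lt {ρ : Type} (K : ρ → ℕ) (x : HK K) (m : ℕ)
    (h : HK (red K x.1 m)) (hi : h.1 = x.1) : 2 * m + 2 + (h.2 : ℕ) < K x.1 := by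
  have h1 := h.2.isLt
  have h2 : red K x.1 m h.1 = K x.1 - (2 * m + 2) := by rw [hi, red_self]
  omega

theorem jT_inj {ρ : Type} (K : ρ → ℕ) (x : HK K) (m : ℕ) (hm : 2 * m + 2 < K x.1) :
    Function.Injective (jT K x m) := by
  intro h h' hh
  rw [jT_eq, jT_eq] at hh
  exact eT_inj (rot_pow_inj K x ((eT_lt h).trans hm) ((eT_lt h').trans hm) hh)

theorem jR_inj {ρ : Type} (K : ρ → ℕ) (x : HK K) (m : ℕ) (hm : 2 * m + 2 < K x.1) :
    Function.Injective (jR K x m) := by
  intro h h' hh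
  have h1 : h.1 = h'.1 := by rw [← jR_fst K x m h, ← jR_fst K x m h', hh]
  refine hk_ext h1 ?_
  by_cases hi : h.1 = x.1
  · have hi' : h'.1 = x.1 := h1 ▸ hi
    rw [jR_of_eq K x m h hi, jR_of_eq K x m h' hi'] at hh
    have := rot_pow_inj K x (eR_lt K x m h hi) (eR_lt K x m h' hi') hh
    omega
  · have hi' : h'.1 ≠ x.1 := h1 ▸ hi
    rw [← jR_snd K x m h hi, ← jR_snd K x m h' hi', hh]

theorem jTR_disj {ρ : Type} (K : ρ → ℕ) (x : HK K) (m : ℕ) (hm : 2 * m + 2 < K x.1)
    (h : HK (leg m)) (h' : HK (red K x.1 m)) : jT K x m h ≠ jR K x m h' := by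
  intro hh
  have h1 : h'.1 = x.1 := by
    rw [← jR_fst K x m h', ← hh, jT_eq, rot_pow_fst]
  rw [jT_eq, jR_of_eq K x m h' h1] at hh
  have := rot_pow_inj K x ((eT_lt h).trans hm) (eR_lt K x m h' h1) hh
  have := eT_lt h
  omega

theorem jcover {ρ : Type} (K : ρ → ℕ) (x : HK K) (m : ℕ) (hm : 2 * m + 2 < K x.1) (h : HK K) :
    (∃ h', jT K x m h' = h) ∨ ∃ h', jR K x m h' = h := by
  by_cases hi : h.1 = x.1
  · obtain ⟨n, hn, rfl⟩ := rot_pow_surj K x h hi
    rcases Nat.eq_zero_or_pos n with rfl | hn0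
    · left
      exact ⟨legHalf m, by rw [jT_eq]; rfl⟩
    · by_cases hnm : n < 2 * m + 2
      · left
        refine ⟨⟨true, ⟨n - 1, ?_⟩⟩, ?_⟩
        · show n - 1 < 2 * m + 1
          omega
        · rw [jT_eq]
          have : eT (⟨true, ⟨n - 1, by show n - 1 < 2 * m + 1; omega⟩⟩ : HK (leg m)) = n := by
            simp only [eT, if_true]
            omega
          rw [this]
      · right
        have hlt : n - (2 * m + 2) < red K x.1 m x.1 := by
          rw [red_self]; omega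
        refine ⟨⟨x.1, ⟨n - (2 * m + 2), hlt⟩⟩, ?_⟩
        rw [jR_of_eq K x m _ rfl]
        have : 2 * m + 2 + (n - (2 * m + 2)) = n := by omega
        simp only [this]
  · right
    have hlt : (h.2 : ℕ) < red K x.1 m h.1 := by
      rw [red_ne K hi]
      exact h.2.isLt
    refine ⟨⟨h.1, ⟨(h.2 : ℕ), hlt⟩⟩, ?_⟩
    exact hk_ext (jR_fst K x m _) (jR_snd K x m _ hi)

theorem jT_leg {ρ : Type} (K : ρ → ℕ) (x : HK K) (m : ℕ) : jT K x m (legHalf m) = x := by
  rw [jT_eq]
  rfl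

theorem eq_leg_of_false (m : ℕ) (h : HK (leg m)) (hh : h.1 = false) : h = legHalf m := by
  obtain ⟨b, s⟩ := h
  simp only at hh
  subst hh
  refine hk_ext rfl ?_
  have h1 : (s : ℕ) < 1 := s.isLt
  show (s : ℕ) = 0
  omega

theorem surg_inj {ρ : Type} (K : ρ → ℕ) (x : HK K) (m : ℕ) (hm : 2 * m + 2 < K x.1)
    (T : Conf (rot (leg m))) (R₁ : Conf (rot (red K x.1 m))) (R R' : Conf (rot K))
    (h : Surg R x m T R₁) (h' : Surg R' x m T R₁) : R = R' := by
  have hτ : R.τ = R'.τ := by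
    refine Equiv.ext fun k => ?_
    rcases jcover K x m hm k with ⟨p, rfl⟩ | ⟨q, rfl⟩
    · rw [h.tauT, h'.tauT]
    · rw [h.tauR, h'.tauR]
  obtain ⟨τ, hτ1, β, hβ⟩ := R
  obtain ⟨τ', hτ1', β', hβ'⟩ := R'
  simp only at hτ
  subst hτ
  have hβe : β = β' := by
    refine Equiv.ext fun f => ?_
    obtain ⟨k, rfl⟩ := Quotient.exists_rep f
    have hR : ∀ q, β (cyc (rot K * τ) (jR K x m q)) = β' (cyc (rot K * τ) (jR K x m q)) := by
      intro q
      obtain ⟨q1, hq1⟩ := Quotient.exists_rep (R₁.β (R₁.face q))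
      have e1 := (h.betaR q q1).2 hq1.symm
      have e2 := (h'.betaR q q1).2 hq1.symm
      exact e1.trans e2.symm
    rcases jcover K x m hm k with ⟨p, rfl⟩ | ⟨q, rfl⟩
    · by_cases hp : p.1 = true
      · obtain ⟨p1, hp1⟩ := Quotient.exists_rep (T.β (T.face p))
        obtain ⟨p2, hp2, hp2'⟩ : ∃ p2 : HK (leg m), p2.1 = true ∧
            T.β (T.face p) = T.face p2 := by
          by_cases hb : p1.1 = true
          · exact ⟨p1, hb, hp1.symm⟩
          · have hleg := eq_leg_of_false m p1 (by simpa using hb)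
            refine ⟨T.τ (legHalf m), ?_, ?_⟩
            · by_contra hcon
              exact T.hτ.fpf (legHalf m) (eq_leg_of_false m _ (by simpa using hcon))
            · rw [← h.faceTx, ← hleg]
              exact hp1.symm
        have e1 := (h.betaT p p2 hp hp2).2 hp2'
        have e2 := (h'.betaT p p2 hp hp2).2 hp2'
        exact e1.trans e2.symm
      · have hleg := eq_leg_of_false m p (by simpa using hp)
        rw [hleg, jT_leg]
        obtain ⟨q, hq⟩ := h.facex
        have hq' : cyc (rot K * τ) x = cyc (rot K * τ) (jR K x m q) := hq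
        show β (cyc (rot K * τ) x) = β' (cyc (rot K * τ) x)
        rw [hq']
        exact hR q
    · exact hR q
  subst hβe
  rfl

end Pool.Agent.Helper62.MVC2
end

/- Helper62.MVC2.SurgC -/
section
/-!
MV-C2-10. The surgery inequality for configurations.

Proof. `A_eq_GA` for `R`, `T`, `R₁` and `GA_surg`. Equivalences `a : T.Face ⊕ R₁.Face ≃ R.Face`, `b : T.Edge ⊕ R₁.Edge ≃ R.Edge`:
`b (inl (T.edge h)) = R.edge (jT h)`, `b (inr (R₁.edge h)) = R.edge (jR h)` (`tauT`, `tauR`, `jT_inj`, `jR_inj`, `jTR_disj`, `jcover`; same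
argument as `Emb.edge`); `a (inr (R₁.face h)) = R.face (jR h)` (`faceR`); `a (inl (T.face h)) = R.face (jT h)` for `h.1 = true`
(`faceT`; every face of `T` contains such an `h`: `legHalf m` is in the face of `T.τ (legHalf m)`, which is a `true` half-edge since it differs from
`legHalf m`, `eq_leg_of_false`). Surjective: `jcover`, and `R.face x = R.face (jR h)` (`facex`), `x = jT (legHalf m)`. Injective: `disj`.
`y₁ := T.face (legHalf m)`, `x₂ := ` the face of `R₁` with `R.face x = R.face (jR h)` (`facex`), `e₀ := T.edge (legHalf m)`.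
Weights: the half-edges of `R` are `jT h` (`h.1 = true`), `x`, `jR h`. For `f = T.face`, `e = T.edge`: half-edges of `T` in `f` and `e` are the
`true` ones and possibly `legHalf m` (in `y₁`, `e₀`): `wt R (a inl f) (b inl e) + [f = y₁, e = e₀] = wt T f e` (`x` is not in an inner face: `facex`,
`disj`). `wt T f e₀ = 2 [f = y₁]` (`e₀ = {legHalf m, T.τ (legHalf m)}`, both in `y₁` by `faceTx`). `wt R (a inr f) (b inl e) = [f = x₂, e = e₀]`
(only `x`). `wt R (a inl f) (b inr e) = 0`, `wt R (a inr f) (b inr e) = wt R₁ f e`.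
`β`: `betaT`, `betaR` (with representatives of the partner faces).
`μ₁ : T.Face → ℤ`, `μ₁ (T.face h) = μ (jT h)` for `h.1 = true`: well defined by `faceT` and `hleaf.face`; odd under `T.β`: `betaT`, `hleaf.beta`;
`|μ₁| ≤ 1`. `∑_f μ₁ f wt T f e = ∑_{h : T.edge h = e} μ₁ (T.face h)`: for `e ≠ e₀` it is `μ (jT h) + μ (R.τ (jT h)) = 0`
(`hleaf.tau`, `jT h ≠ x, R.τ x`); for `e = e₀` it is `2 μ₁ y₁ = 2 μ (R.τ x) = 2`.
Columns of `wt T`, `wt R₁` have positive entries (the edge of `h` has the half-edge `h` in its face).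
`ξ` vanishes on the faces `a (inl f)` (`hξ0`). `Fintype.card T.Face ≤ Fintype.card (HK (leg m)) ≤ Fintype.card (HK K)` (`T.face` surjective,
`jT_inj`). `ξ₁ := fun f => ξ (a (inr f)) + if f = x₂ then l else 0`.
-/

namespace Pool.Agent.Helper62.MVC2

open Finset MeasureTheory Filter Topology Pool.Agent.Helper60.MV

private theorem edge_iff {H : Type} {σ : Equiv.Perm H} (R : Conf σ) (h h' : H) :
    R.edge h = R.edge h' ↔ h' = h ∨ h' = R.τ h := by
  have hsq : R.τ ^ (2 : ℤ) = 1 := by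
    ext a
    have : R.τ ^ (2 : ℤ) = R.τ * R.τ := zpow_two R.τ
    rw [this, Equiv.Perm.mul_apply, R.hτ.invol, Equiv.Perm.one_apply]
  have h1 : R.edge h = R.edge h' ↔ R.τ.SameCycle h h' := by
    unfold Conf.edge cyc
    exact Quotient.eq (r := Equiv.Perm.SameCycle.setoid R.τ)
  rw [h1]
  constructor
  · rintro ⟨i, hi⟩
    rcases Int.even_or_odd' i with ⟨k, hk | hk⟩
    · left
      rw [← hi, hk, zpow_mul, hsq, one_zpow, Equiv.Perm.one_apply]
    · right
      rw [← hi, hk, zpow_add, zpow_mul, hsq, one_zpow, one_mul, zpow_one]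
  · rintro (rfl | rfl)
    · exact Equiv.Perm.SameCycle.refl _ _
    · exact ⟨1, by rw [zpow_one]⟩

private theorem edge_emb {H H' : Type} {σ : Equiv.Perm H} {σ' : Equiv.Perm H'} (R : Conf σ)
    (R' : Conf σ') (j : H' → H) (hj : Function.Injective j)
    (ht : ∀ h, R.τ (j h) = j (R'.τ h)) (h h' : H') :
    R.edge (j h) = R.edge (j h') ↔ R'.edge h = R'.edge h' := by
  rw [edge_iff, edge_iff, ht, hj.eq_iff, hj.eq_iff]

private theorem edge_mem {H H' : Type} {σ : Equiv.Perm H} {σ' : Equiv.Perm H'} (R : Conf σ)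
    (R' : Conf σ') (j : H' → H)
    (ht : ∀ h, R.τ (j h) = j (R'.τ h)) (k : H) (h : H') (hk : R.edge k = R.edge (j h)) :
    ∃ h', k = j h' := by
  rcases (edge_iff R (j h) k).mp hk.symm with h1 | h1
  · exact ⟨h, h1⟩
  · exact ⟨R'.τ h, by rw [h1, ht]⟩

private theorem face_surj {H : Type} {σ : Equiv.Perm H} (R : Conf σ) (f : R.Face) :
    ∃ h, R.face h = f := Quotient.exists_rep f

private theorem edge_surj {H : Type} {σ : Equiv.Perm H} (R : Conf σ) (e : R.Edge) :
    ∃ h, R.edge h = e := Quotient.exists_rep e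

private theorem wt_pos {H : Type} [Fintype H] {σ : Equiv.Perm H} (R : Conf σ) (e : R.Edge) :
    ∃ f, 0 < wt R f e := by
  classical
  obtain ⟨h, hh⟩ := edge_surj R e
  refine ⟨R.face h, ?_⟩
  unfold wt
  rw [Finset.card_pos]
  exact ⟨h, by simp [hh]⟩

private theorem wt_eq {H : Type} [Fintype H] [DecidableEq H] {σ : Equiv.Perm H} (R : Conf σ)
    (f : R.Face) (e : R.Edge) (s : Finset H) (hs : ∀ h, h ∈ s ↔ R.face h = f ∧ R.edge h = e) :
    wt R f e = s.card := by
  classical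
  unfold wt
  congr 1
  ext h
  simp [hs h]

private theorem sum_wt {H : Type} [Fintype H] [DecidableEq H] {σ : Equiv.Perm H} (R : Conf σ)
    (μ : R.Face → ℤ) (h : H) :
    ∑ f, μ f * (wt R f (R.edge h) : ℤ) = μ (R.face h) + μ (R.face (R.τ h)) := by
  classical
  have h1 : ∀ f, (wt R f (R.edge h) : ℤ) =
      ∑ k ∈ ({h, R.τ h} : Finset H), if R.face k = f then 1 else 0 := by
    intro f
    have h2 : wt R f (R.edge h) = (({h, R.τ h} : Finset H).filter (fun k => R.face k = f)).card := by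
      apply wt_eq
      intro k
      rw [Finset.mem_filter, Finset.mem_insert, Finset.mem_singleton, eq_comm (a := R.edge k),
        edge_iff, and_comm]
    rw [h2, Finset.card_filter]
    push_cast
    rfl
  simp_rw [h1, Finset.mul_sum]
  rw [Finset.sum_comm]
  have h3 : ∀ k ∈ ({h, R.τ h} : Finset H),
      (∑ f, μ f * (if R.face k = f then 1 else 0 : ℤ)) = μ (R.face k) := by
    intro k _
    simp
  rw [Finset.sum_congr rfl h3, Finset.sum_pair (R.hτ.fpf h).symm]

theorem surg_A {ρ : Type} [Fintype ρ] (K : ρ → ℕ) (R : Conf (rot K)) (x : HK K) (m : ℕ)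
    (hm : 2 * m + 2 < K x.1) (μ : HK K → ℤ) (T : Conf (rot (leg m)))
    (R₁ : Conf (rot (red K x.1 m))) (hleaf : R.IsLeaf x μ) (hμ1 : ∀ h, |μ h| ≤ 1)
    (hS : Surg R x m T R₁) (ε : ℝ) (hε : 0 < ε) (hε2 : ε ≤ 1 / 2) (ξ : R.Face → ℝ)
    (hξ : ∀ f, 0 ≤ ξ f) (hξ0 : ∀ h, h.1 = true → ξ (R.face (jT K x m h)) = 0) :
    ∃ l : ℝ, 0 ≤ l ∧ l ≤ (Fintype.card (HK K) : ℝ) * ε ∧ ∃ ξ₁ : R₁.Face → ℝ,
      (∀ h, ξ₁ (R₁.face h) = ξ (R.face (jR K x m h)) +
        (by classical exact if R.face (jR K x m h) = R.face x then l else 0)) ∧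
      R.A ε ξ ≤ 2 * T.A ε 0 * R₁.A ε ξ₁ := by
  classical
  have hjT := jT_inj K x m hm
  have hjR := jR_inj K x m hm
  have hdis := jTR_disj K x m hm
  have hleg := jT_leg K x m
  have htau_leg : (T.τ (legHalf m)).1 = true := by
    by_contra hcon
    have h1 : (T.τ (legHalf m)).1 = false := by simpa using hcon
    exact T.hτ.fpf _ (eq_leg_of_false m _ h1)
  have htrue : ∀ h : HK (leg m), h ≠ legHalf m → h.1 = true := by
    intro h hh
    by_contra hcon
    have h1 : h.1 = false := by simpa using hcon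
    exact hh (eq_leg_of_false m _ h1)
  have hTex : ∀ f : T.Face, ∃ h : HK (leg m), h.1 = true ∧ T.face h = f := by
    intro f
    obtain ⟨h, hh⟩ := face_surj T f
    by_cases h1 : h = legHalf m
    · refine ⟨T.τ (legHalf m), htau_leg, ?_⟩
      rw [← hS.faceTx, ← h1, hh]
    · exact ⟨h, htrue h h1, hh⟩
  choose rT hrT1 hrT2 using hTex
  choose rR hrR using face_surj R₁
  choose eT heT using edge_surj T
  choose eR heR using edge_surj R₁
  obtain ⟨hx, hhx⟩ := hS.facex
  let aT : T.Face → R.Face := fun f => R.face (jT K x m (rT f))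
  let aR : R₁.Face → R.Face := fun f => R.face (jR K x m (rR f))
  let bT : T.Edge → R.Edge := fun e => R.edge (jT K x m (eT e))
  let bR : R₁.Edge → R.Edge := fun e => R.edge (jR K x m (eR e))
  have haT : ∀ h, h.1 = true → aT (T.face h) = R.face (jT K x m h) := fun h hh =>
    (hS.faceT _ _ (hrT1 _) hh).mpr (hrT2 _)
  have haR : ∀ h, aR (R₁.face h) = R.face (jR K x m h) := fun h =>
    (hS.faceR _ _).mpr (hrR _)
  have hbT : ∀ h, bT (T.edge h) = R.edge (jT K x m h) := fun h =>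
    (edge_emb R T _ hjT hS.tauT _ _).mpr (heT _)
  have hbR : ∀ h, bR (R₁.edge h) = R.edge (jR K x m h) := fun h =>
    (edge_emb R R₁ _ hjR hS.tauR _ _).mpr (heR _)
  have haTinj : Function.Injective aT := by
    intro f f' hff
    have h1 := (hS.faceT _ _ (hrT1 f) (hrT1 f')).mp hff
    rw [hrT2, hrT2] at h1
    exact h1
  have haRinj : Function.Injective aR := by
    intro f f' hff
    have h1 := (hS.faceR _ _).mp hff
    rw [hrR, hrR] at h1
    exact h1
  have haTR : ∀ f f', aT f ≠ aR f' := fun f f' => hS.disj _ _ (hrT1 f)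
  have hxR : R.face x = aR (R₁.face hx) := by rw [haR, hhx]
  have ha : Function.Bijective (Sum.elim aT aR) := by
    refine ⟨haTinj.sumElim haRinj haTR, ?_⟩
    intro f
    obtain ⟨k, rfl⟩ := face_surj R f
    rcases jcover K x m hm k with ⟨h, rfl⟩ | ⟨h, rfl⟩
    · by_cases h1 : h = legHalf m
      · refine ⟨Sum.inr (R₁.face hx), ?_⟩
        rw [h1, hleg, Sum.elim_inr, hxR]
      · exact ⟨Sum.inl (T.face h), by rw [Sum.elim_inl, haT h (htrue h h1)]⟩
    · exact ⟨Sum.inr (R₁.face h), by rw [Sum.elim_inr, haR]⟩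
  have hbTR : ∀ e e', bT e ≠ bR e' := by
    intro e e' hee
    obtain ⟨h', hh'⟩ := edge_mem R R₁ (jR K x m) hS.tauR _ _ hee
    exact hdis _ _ hh'
  have hb : Function.Bijective (Sum.elim bT bR) := by
    refine ⟨Function.Injective.sumElim ?_ ?_ hbTR, ?_⟩
    · intro e e' hee
      have h1 := (edge_emb R T _ hjT hS.tauT _ _).mp hee
      rw [heT, heT] at h1
      exact h1
    · intro e e' hee
      have h1 := (edge_emb R R₁ _ hjR hS.tauR _ _).mp hee
      rw [heR, heR] at h1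
      exact h1
    · intro e
      obtain ⟨k, rfl⟩ := edge_surj R e
      rcases jcover K x m hm k with ⟨h, rfl⟩ | ⟨h, rfl⟩
      · exact ⟨Sum.inl (T.edge h), by rw [Sum.elim_inl, hbT]⟩
      · exact ⟨Sum.inr (R₁.edge h), by rw [Sum.elim_inr, hbR]⟩
  let a : T.Face ⊕ R₁.Face ≃ R.Face := Equiv.ofBijective _ ha
  let b : T.Edge ⊕ R₁.Edge ≃ R.Edge := Equiv.ofBijective _ hb
  -- half-edges over `bT e`, `bR e`
  have hbTmem : ∀ k e, R.edge k = bT e → ∃ h, k = jT K x m h ∧ T.edge h = e := by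
    intro k e hk
    obtain ⟨h, rfl⟩ := edge_mem R T (jT K x m) hS.tauT _ _ hk
    refine ⟨h, rfl, ?_⟩
    have h1 := (edge_emb R T _ hjT hS.tauT _ _).mp hk
    rw [heT] at h1
    exact h1
  have hbRmem : ∀ k e, R.edge k = bR e → ∃ h, k = jR K x m h ∧ R₁.edge h = e := by
    intro k e hk
    obtain ⟨h, rfl⟩ := edge_mem R R₁ (jR K x m) hS.tauR _ _ hk
    refine ⟨h, rfl, ?_⟩
    have h1 := (edge_emb R R₁ _ hjR hS.tauR _ _).mp hk
    rw [heR] at h1
    exact h1
  have hxT : ∀ f, R.face x ≠ aT f := by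
    intro f h1
    rw [hxR] at h1
    exact haTR _ _ h1.symm
  let μ₁ : T.Face → ℤ := fun f => μ (jT K x m (rT f))
  have hμ₁ : ∀ h, h.1 = true → μ₁ (T.face h) = μ (jT K x m h) := fun h hh =>
    hleaf.face _ _ ((hS.faceT _ _ (hrT1 _) hh).mpr (hrT2 _))
  have key := GA_surg (F₁ := T.Face) (F₂ := R₁.Face) (ι₁ := T.Edge) (ι₂ := R₁.Edge)
    (F := R.Face) (ι := R.Edge) T.β R₁.β R.β T.hβ.invol R₁.hβ.invol (wt T) (wt R₁) (wt R)
    (wt_pos T) (wt_pos R₁) ε hε hε2 (fun f => ξ (aR f)) (fun f => hξ _) ξ a b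
    (T.face (legHalf m)) (R₁.face hx) (T.edge (legHalf m)) ?_ ?_ ?_ ?_ ?_ ?_ ?_ ?_ ?_ μ₁ ?_ ?_ ?_
  · obtain ⟨l, hl0, hl1, hl2⟩ := key
    refine ⟨l, hl0, hl1.trans ?_, fun f => ξ (aR f) + if f = R₁.face hx then l else 0, ?_, ?_⟩
    · apply mul_le_mul_of_nonneg_right _ hε.le
      have h1 : Fintype.card T.Face ≤ Fintype.card (HK (leg m)) :=
        Fintype.card_le_of_surjective T.face (face_surj T)
      have h2 : Fintype.card (HK (leg m)) ≤ Fintype.card (HK K) :=
        Fintype.card_le_of_injective _ hjT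
      exact_mod_cast h1.trans h2
    · intro h
      simp only [haR]
      congr 1
      by_cases h1 : R₁.face h = R₁.face hx
      · rw [if_pos h1, if_pos (by rw [hhx]; exact (hS.faceR _ _).mpr h1)]
      · rw [if_neg h1, if_neg (by rw [hhx]; exact fun h2 => h1 ((hS.faceR _ _).mp h2))]
    · rw [A_eq_GA R ε hε, A_eq_GA T ε hε, A_eq_GA R₁ ε hε]
      exact hl2
  · -- hβ₁
    intro f
    change R.β (aT f) = aT (T.β f)
    have h1 := (hS.betaT (rT f) (rT (T.β f)) (hrT1 _) (hrT1 _)).mpr (by rw [hrT2, hrT2])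
    exact h1
  · intro f
    change R.β (aR f) = aR (R₁.β f)
    have h1 := (hS.betaR (rR f) (rR (R₁.β f))).mpr (by rw [hrR, hrR])
    exact h1
  · -- hW₁
    intro f
    by_cases hf : f = T.face (legHalf m)
    · rw [if_pos hf]
      rw [wt_eq T f _ {legHalf m, T.τ (legHalf m)}, Finset.card_pair (T.hτ.fpf _).symm]
      intro h
      rw [Finset.mem_insert, Finset.mem_singleton, eq_comm (a := T.edge h), edge_iff]
      constructor
      · intro h1
        refine ⟨?_, h1⟩
        rcases h1 with h1 | h1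
        · rw [h1, hf]
        · rw [h1, hf, hS.faceTx]
      · exact fun h1 => h1.2
    · rw [if_neg hf]
      rw [wt_eq T f _ ∅, Finset.card_empty]
      intro h
      constructor
      · intro h1
        simp at h1
      · rintro ⟨h1, h2⟩
        exfalso
        rw [eq_comm, edge_iff] at h2
        apply hf
        rcases h2 with h2 | h2
        · rw [← h1, h2]
        · rw [← h1, h2, hS.faceTx]
  · -- h11
    intro f e
    change wt R (aT f) (bT e) + _ = _
    rw [wt_eq R (aT f) (bT e) ((univ.filter (fun h : HK (leg m) => h.1 = true ∧ T.face h = f ∧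
      T.edge h = e)).image (jT K x m))]
    · rw [Finset.card_image_of_injective _ hjT]
      have h1 : wt T f e = (univ.filter (fun h : HK (leg m) => T.face h = f ∧
          T.edge h = e)).card := wt_eq T f e _ (by intro h; simp)
      rw [h1, ← Finset.card_filter_add_card_filter_not
        (s := univ.filter (fun h : HK (leg m) => T.face h = f ∧ T.edge h = e))
        (fun h : HK (leg m) => h.1 = true)]
      congr 1
      · congr 1
        ext h
        simp only [Finset.mem_filter, Finset.mem_univ, true_and]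
        tauto
      · by_cases hf : f = T.face (legHalf m) ∧ e = T.edge (legHalf m)
        · rw [if_pos hf]
          symm
          rw [Finset.card_eq_one]
          refine ⟨legHalf m, ?_⟩
          ext h
          simp only [Finset.mem_filter, Finset.mem_univ, true_and, Finset.mem_singleton]
          constructor
          · rintro ⟨_, h2⟩
            by_contra h3
            exact h2 (htrue h h3)
          · rintro rfl
            exact ⟨⟨hf.1.symm, hf.2.symm⟩, by simp [legHalf]⟩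
        · rw [if_neg hf]
          symm
          rw [Finset.card_eq_zero, Finset.filter_eq_empty_iff]
          intro h hh h2
          rw [Finset.mem_filter] at hh
          have h3 : h = legHalf m := by
            by_contra h3
            exact h2 (htrue h h3)
          rw [h3] at hh
          exact hf ⟨hh.2.1.symm, hh.2.2.symm⟩
    · intro k
      rw [Finset.mem_image]
      constructor
      · rintro ⟨h, hh, rfl⟩
        rw [Finset.mem_filter] at hh
        obtain ⟨_, h1, h2, h3⟩ := hh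
        rw [← h2, ← h3, haT h h1, hbT]
        exact ⟨rfl, rfl⟩
      · rintro ⟨h1, h2⟩
        obtain ⟨h, rfl, h3⟩ := hbTmem k e h2
        have h4 : h ≠ legHalf m := by
          rintro rfl
          rw [hleg] at h1
          exact hxT _ h1
        refine ⟨h, ?_, rfl⟩
        rw [Finset.mem_filter]
        refine ⟨Finset.mem_univ _, htrue h h4, ?_, h3⟩
        apply haTinj
        rw [haT h (htrue h h4), h1]
  · -- h12
    intro f e
    change wt R (aT f) (bR e) = 0
    rw [wt_eq R (aT f) (bR e) ∅, Finset.card_empty]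
    intro k
    constructor
    · intro h1
      simp at h1
    · rintro ⟨h1, h2⟩
      exfalso
      obtain ⟨h, rfl, _⟩ := hbRmem k e h2
      exact hS.disj _ _ (hrT1 f) h1.symm
  · -- h21
    intro f e
    change wt R (aR f) (bT e) = _
    have hk : ∀ k, R.face k = aR f → R.edge k = bT e →
        k = x ∧ f = R₁.face hx ∧ e = T.edge (legHalf m) := by
      intro k h1 h2
      obtain ⟨h, rfl, h3⟩ := hbTmem k e h2
      have h4 : h = legHalf m := by
        by_contra h4
        exact hS.disj _ _ (htrue h h4) h1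
      rw [h4] at h1 h3 ⊢
      rw [hleg] at h1 ⊢
      refine ⟨rfl, ?_, h3.symm⟩
      apply haRinj
      rw [← h1, hxR]
    by_cases hf : f = R₁.face hx ∧ e = T.edge (legHalf m)
    · rw [if_pos hf, wt_eq R (aR f) (bT e) {x}, Finset.card_singleton]
      intro k
      rw [Finset.mem_singleton]
      constructor
      · rintro rfl
        rw [hf.1, hf.2, hxR, hbT, hleg]
        exact ⟨rfl, rfl⟩
      · rintro ⟨h1, h2⟩
        exact (hk k h1 h2).1
    · rw [if_neg hf, wt_eq R (aR f) (bT e) ∅, Finset.card_empty]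
      intro k
      constructor
      · intro h1
        simp at h1
      · rintro ⟨h1, h2⟩
        exact absurd (hk k h1 h2).2 hf
  · -- h22
    intro f e
    change wt R (aR f) (bR e) = _
    rw [wt_eq R (aR f) (bR e) ((univ.filter (fun h : HK (red K x.1 m) => R₁.face h = f ∧
      R₁.edge h = e)).image (jR K x m))]
    · rw [Finset.card_image_of_injective _ hjR]
      exact (wt_eq R₁ f e _ (by intro h; simp)).symm
    · intro k
      rw [Finset.mem_image]
      constructor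
      · rintro ⟨h, hh, rfl⟩
        rw [Finset.mem_filter] at hh
        obtain ⟨_, h2, h3⟩ := hh
        rw [← h2, ← h3, haR, hbR]
        exact ⟨rfl, rfl⟩
      · rintro ⟨h1, h2⟩
        obtain ⟨h, rfl, h3⟩ := hbRmem k e h2
        refine ⟨h, ?_, rfl⟩
        rw [Finset.mem_filter]
        refine ⟨Finset.mem_univ _, ?_, h3⟩
        apply haRinj
        rw [haR, h1]
  · intro f
    exact hξ0 _ (hrT1 f)
  · intro f
    rfl
  · -- hμβ
    intro f
    exact hleaf.beta _ _ ((hS.betaT (rT f) (rT (T.β f)) (hrT1 _) (hrT1 _)).mpr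
      (by rw [hrT2, hrT2]))
  · intro f
    exact hμ1 _
  · -- hμW
    intro e
    by_cases he : e = T.edge (legHalf m)
    · rw [if_pos he, he, sum_wt, hS.faceTx, hμ₁ _ htau_leg, ← hS.tauT, hleg, hleaf.one]
      norm_num
    · rw [if_neg he]
      obtain ⟨h, rfl⟩ := edge_surj T e
      have h1 : h ≠ legHalf m := by
        rintro rfl
        exact he rfl
      have h2 : T.τ h ≠ legHalf m := by
        intro h2
        apply he
        rw [edge_iff]
        exact Or.inr h2.symm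
      rw [sum_wt, hμ₁ _ (htrue _ h1), hμ₁ _ (htrue _ h2), ← hS.tauT, hleaf.tau, add_neg_cancel]
      · intro h3
        rw [← hleg] at h3
        exact h1 (hjT h3)
      · intro h3
        rw [← hleg, hS.tauT] at h3
        apply h2
        rw [hjT h3, T.hτ.invol]

end Pool.Agent.Helper62.MVC2
end

/- Helper62.MVC2.LeafSum -/
section
/-!
MV-C2-14. The sum over the connected configurations with a leaf.

`SurgH K` is the output of block C1 (theorem `surgery`).
Proof of `leaf_bound` (for a fixed `ε`). For each connected `R` with a leaf choose `x, m, μ, T, R₁` by `hsurg`; `D(R) = (x, m, T, R₁)` is injective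
(`surg_inj`). By `surg_A` (`ξ R` vanishes on the faces `R.face (jT h)`, `h.1 = true`: such a face is a leaf face since `μ (jT h) ≠ 0`) there are
`l ∈ [0, 2Eε]` (`2E = card (HK K)`) and `ξ₁` with `R.A ε (ξ R) ≤ 2 * T.A ε 0 * R₁.A ε ξ₁`; `0 ≤ ξ₁ ≤ (C + card (HK K)) ε`, and `ξ₁` vanishes on
the leaf faces of `R₁` (last clause of `SurgH`, the leaf face of `R₁` is `R₁.face h`; the `if` is zero). For fixed `x, m, T` define for `R₁`
`ξ^{x,m,T} R₁ :=` the `ξ₁` of `R` if `D(R) = (x,m,T,R₁)` for some `R`, else `0`. By `hUB` for `red K x.1 m`, the sum over the connected `R₁` of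
`R₁.A ε (ξ^{x,m,T} R₁)` is at most `B' x.1 m`. Since all `A ≥ 0` (`A_nonneg`):
`∑_R R.A ε (ξ R) ≤ ∑_x ∑_m ∑_T 2 T.A ε 0 B' x.1 m = ∑_x ∑_m 2 ZZ (rot (leg m)) ε B' x.1 m` and `∑_x F x.1 = ∑_i K i F i`.
(Organise the sum with `Finset.sum_le_sum_of_injOn`-like steps: `∑_{R ∈ s} f R = ∑_{d ∈ s.image D} g d ≤ ∑_{d}` over the finite sigma type.)
`leaf_eventually`: given `δ`, choose `δ' > 0` with `∑_i ∑_m K i (2 (Ypoly (leg m) + δ')) (B i m + δ') ≤ leafSum K B + δ` (continuity in `δ'`); for small `ε`: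
`ZZ (rot (leg m)) ε ≤ Ypoly (leg m) + δ'` (`hP`) and the hypothesis `hUB` of `leaf_bound` holds with `B' = B i m + δ'` (definition of `UB`), for the
finitely many `(i, m)`. (`UB (red K i m) (B i m)` with constant `C + card (HK K)`.) Note `ZZ ≥ 0`, `B i m ≥ 0`.
-/

namespace Pool.Agent.Helper62.MVC2

open Finset MeasureTheory Filter Topology Pool.Agent.Helper60.MV

/-- the output of block C1 for the type `K` -/
def SurgH {ρ : Type} [Fintype ρ] (K : ρ → ℕ) : Prop :=
  ∀ R : Conf (rot K), R.Conn → (∃ x μ, R.IsLeaf x μ) →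
    ∃ (x : HK K) (m : ℕ) (μ : HK K → ℤ) (T : Conf (rot (leg m))) (R₁ : Conf (rot (red K x.1 m))),
      1 ≤ m ∧ 2 * m + 2 < K x.1 ∧ R.IsLeaf x μ ∧ (∀ h, |μ h| ≤ 1) ∧
      (∀ h, μ h ≠ 0 ↔ ∃ h', h'.1 = true ∧ jT K x m h' = h) ∧ Surg R x m T R₁ ∧ R₁.Conn ∧
      ∀ h, R₁.LeafFace (R₁.face h) →
        R.LeafFace (R.face (jR K x m h)) ∧ R.face (jR K x m h) ≠ R.face x

/-- the bound of the definition of `UBs` at a fixed `ε` -/
def UBat {H : Type} [Fintype H] (σ : Equiv.Perm H) (C ε B : ℝ) : Prop :=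
  ∀ ξ : (R : Conf σ) → R.Face → ℝ,
    (∀ R f, 0 ≤ ξ R f ∧ ξ R f ≤ C * ε) → (∀ R f, R.LeafFace f → ξ R f = 0) →
    (by classical exact ∑ R ∈ univ.filter (fun R : Conf σ => R.Conn), R.A ε (ξ R)) ≤ B

/-- the configurations with a given stem and size of the leaf -/
private theorem fixed_bound {ρ : Type} [Fintype ρ] (K : ρ → ℕ) (ε : ℝ) (hε : 0 < ε)
    (x : HK K) (m : ℕ) (hm : 2 * m + 2 < K x.1) (C' B' : ℝ)
    (hUB : UBat (rot (red K x.1 m)) C' ε B') (hC' : 0 ≤ C')
    (ξ : (R : Conf (rot K)) → R.Face → ℝ) (S' : Finset (Conf (rot K)))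
    (hS : ∀ R ∈ S', ∃ (T : Conf (rot (leg m))) (Q : Conf (rot (red K x.1 m))) (v : Q.Face → ℝ),
      Surg R x m T Q ∧ Q.Conn ∧ (∀ f, 0 ≤ v f ∧ v f ≤ C' * ε) ∧ (∀ f, Q.LeafFace f → v f = 0) ∧
      R.A ε (ξ R) ≤ 2 * T.A ε 0 * Q.A ε v) :
    ∑ R ∈ S', R.A ε (ξ R) ≤ 2 * ZZ (rot (leg m)) ε * B' := by
  classical
  have hS' : ∀ R : {R // R ∈ S'}, ∃ (T : Conf (rot (leg m)))
      (g : Σ Q : Conf (rot (red K x.1 m)), (Q.Face → ℝ)),
      Surg R.1 x m T g.1 ∧ g.1.Conn ∧ (∀ f, 0 ≤ g.2 f ∧ g.2 f ≤ C' * ε) ∧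
      (∀ f, g.1.LeafFace f → g.2 f = 0) ∧ R.1.A ε (ξ R.1) ≤ 2 * T.A ε 0 * g.1.A ε g.2 := by
    intro R
    obtain ⟨T, Q, v, h⟩ := hS R.1 R.2
    exact ⟨T, ⟨Q, v⟩, h⟩
  choose T g h1 h2 h3 h4 h5 using hS'
  -- the shifts
  let F : Conf (rot (leg m)) → Finset {R // R ∈ S'} := fun t => S'.attach.filter (fun R => T R = t)
  have hinj : ∀ t, ∀ R ∈ F t, ∀ R' ∈ F t, (g R).1 = (g R').1 → R = R' := by
    intro t R hR R' hR' hg
    have e1 := (mem_filter.mp hR).2
    have e2 := (mem_filter.mp hR').2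
    have a1 := h1 R
    have a2 := h1 R'
    rw [e1] at a1
    rw [e2, ← hg] at a2
    exact Subtype.ext (surg_inj K x m hm t (g R).1 R.1 R'.1 a1 a2)
  let w : (t : Conf (rot (leg m))) → (Q : Conf (rot (red K x.1 m))) → Q.Face → ℝ := fun t Q =>
    if h : ∃ v : Q.Face → ℝ, ∃ R ∈ F t, g R = ⟨Q, v⟩ then h.choose else 0
  have hw : ∀ t, ∀ R ∈ F t, w t (g R).1 = (g R).2 := by
    intro t R hR
    have hex : ∃ v : (g R).1.Face → ℝ, ∃ R' ∈ F t, g R' = ⟨(g R).1, v⟩ := ⟨(g R).2, R, hR, rfl⟩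
    show (if h : ∃ v : (g R).1.Face → ℝ, ∃ R' ∈ F t, g R' = ⟨(g R).1, v⟩ then h.choose else 0) = _
    rw [dif_pos hex]
    obtain ⟨R', hR', e⟩ := hex.choose_spec
    have e1 : (g R').1 = (g R).1 := by rw [e]
    have e2 : R' = R := hinj t R' hR' R hR e1
    subst e2
    have e3 : g R' = ⟨(g R').1, (g R').2⟩ := rfl
    have e4 := e.symm.trans e3
    exact eq_of_heq (Sigma.mk.inj e4).2
  have hwt : ∀ t, ∑ R ∈ F t, (g R).1.A ε (g R).2 ≤ B' := by
    intro t
    have hb := hUB (w t) (by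
      intro Q f
      by_cases hex : ∃ v : Q.Face → ℝ, ∃ R ∈ F t, g R = ⟨Q, v⟩
      · have e0 : w t Q = hex.choose := dif_pos hex
        obtain ⟨R', hR', e⟩ := hex.choose_spec
        have e1 := h3 R'
        rw [e] at e1
        rw [e0]
        exact e1 f
      · have e0 : w t Q = 0 := dif_neg hex
        rw [e0]
        exact ⟨le_refl _, mul_nonneg hC' hε.le⟩) (by
      intro Q f hf
      by_cases hex : ∃ v : Q.Face → ℝ, ∃ R ∈ F t, g R = ⟨Q, v⟩
      · have e0 : w t Q = hex.choose := dif_pos hex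
        obtain ⟨R', hR', e⟩ := hex.choose_spec
        have e1 := h4 R'
        rw [e] at e1
        rw [e0]
        exact e1 f hf
      · have e0 : w t Q = 0 := dif_neg hex
        rw [e0]
        rfl)
    refine le_trans ?_ hb
    have e1 : ∑ R ∈ F t, (g R).1.A ε (g R).2 = ∑ R ∈ F t, (g R).1.A ε (w t (g R).1) := by
      refine sum_congr rfl (fun R hR => ?_)
      rw [hw t R hR]
    rw [e1, ← sum_image (s := F t) (g := fun R => (g R).1) (f := fun Q => Q.A ε (w t Q))
      (fun R hR R' hR' e => hinj t R hR R' hR' e)]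
    refine sum_le_sum_of_subset_of_nonneg ?_ (fun Q _ _ => A_nonneg Q ε hε _)
    intro Q hQ
    obtain ⟨R, _, rfl⟩ := mem_image.mp hQ
    exact mem_filter.mpr ⟨mem_univ _, h2 R⟩
  calc ∑ R ∈ S', R.A ε (ξ R) = ∑ R ∈ S'.attach, R.1.A ε (ξ R.1) :=
        (sum_attach S' (fun R => R.A ε (ξ R))).symm
    _ ≤ ∑ R ∈ S'.attach, 2 * (T R).A ε 0 * (g R).1.A ε (g R).2 := sum_le_sum (fun R _ => h5 R)
    _ = ∑ t : Conf (rot (leg m)), ∑ R ∈ F t, 2 * (T R).A ε 0 * (g R).1.A ε (g R).2 :=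
        (sum_fiberwise (s := S'.attach) (g := T)
          (f := fun R => 2 * (T R).A ε 0 * (g R).1.A ε (g R).2)).symm
    _ = ∑ t : Conf (rot (leg m)), 2 * t.A ε 0 * ∑ R ∈ F t, (g R).1.A ε (g R).2 := by
        refine sum_congr rfl (fun t _ => ?_)
        rw [mul_sum]
        refine sum_congr rfl (fun R hR => ?_)
        rw [(mem_filter.mp hR).2]
    _ ≤ ∑ t : Conf (rot (leg m)), 2 * t.A ε 0 * B' := by
        refine sum_le_sum (fun t _ => mul_le_mul_of_nonneg_left (hwt t) ?_)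
        exact mul_nonneg (by norm_num) (A_nonneg t ε hε _)
    _ = 2 * ZZ (rot (leg m)) ε * B' := by
        unfold ZZ
        rw [mul_sum, sum_mul]

theorem leaf_bound {ρ : Type} [Fintype ρ] (K : ρ → ℕ) (hsurg : SurgH K) (ε : ℝ) (hε : 0 < ε)
    (hε2 : ε ≤ 1 / 2) (C : ℝ) (hC : 0 ≤ C) (B' : ρ → ℕ → ℝ)
    (hUB : ∀ i m, 1 ≤ m → 2 * m + 2 < K i →
      UBat (rot (red K i m)) (C + Fintype.card (HK K)) ε (B' i m))
    (ξ : (R : Conf (rot K)) → R.Face → ℝ) (hξ : ∀ R f, 0 ≤ ξ R f ∧ ξ R f ≤ C * ε)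
    (hξ0 : ∀ R f, R.LeafFace f → ξ R f = 0) :
    (by
      classical
      exact ∑ R ∈ univ.filter (fun R : Conf (rot K) => R.Conn ∧ ∃ x μ, R.IsLeaf x μ), R.A ε (ξ R)) ≤
    ∑ i, ∑ m ∈ (Finset.range (K i)).filter (fun m => 1 ≤ m ∧ 2 * m + 2 < K i),
      (K i : ℝ) * (2 * ZZ (rot (leg m)) ε) * B' i m := by
  classical
  set C' : ℝ := C + Fintype.card (HK K) with hC'def
  have hC' : 0 ≤ C' := by positivity
  let S : Finset (Conf (rot K)) := univ.filter (fun R => R.Conn ∧ ∃ x μ, R.IsLeaf x μ)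
  let Pr : (x : HK K) → ℕ → Conf (rot K) → Prop := fun x m R =>
    ∃ (T : Conf (rot (leg m))) (Q : Conf (rot (red K x.1 m))) (v : Q.Face → ℝ),
      Surg R x m T Q ∧ Q.Conn ∧ (∀ f, 0 ≤ v f ∧ v f ≤ C' * ε) ∧ (∀ f, Q.LeafFace f → v f = 0) ∧
      R.A ε (ξ R) ≤ 2 * T.A ε 0 * Q.A ε v
  have key : ∀ R ∈ S, ∃ (x : HK K) (m : ℕ), m ∈ (Finset.range (K x.1)).filter
      (fun m => 1 ≤ m ∧ 2 * m + 2 < K x.1) ∧ Pr x m R := by
    intro R hR
    obtain ⟨hc, hl⟩ := (mem_filter.mp hR).2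
    obtain ⟨x, m, μ, T, Q, hm1, hm2, hleaf, hμ1, hsupp, hsg, hQc, hlf⟩ := hsurg R hc hl
    have hz : ∀ h, h.1 = true → ξ R (R.face (jT K x m h)) = 0 := by
      intro h hh
      apply hξ0
      refine ⟨x, μ, hleaf, jT K x m h, rfl, ?_⟩
      exact (hsupp _).mpr ⟨h, hh, rfl⟩
    obtain ⟨l, hl0, hl1, v, hv, hA⟩ := surg_A K R x m hm2 μ T Q hleaf hμ1 hsg ε hε hε2 (ξ R)
      (fun f => (hξ R f).1) hz
    refine ⟨x, m, mem_filter.mpr ⟨mem_range.mpr (by omega), hm1, hm2⟩, T, Q, v, hsg, hQc, ?_, ?_,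
      hA⟩
    · intro f
      obtain ⟨h, rfl⟩ : ∃ h, Q.face h = f := Quotient.exists_rep f
      rw [hv h]
      have a := hξ R (R.face (jR K x m h))
      have hcard : C' * ε = C * ε + (Fintype.card (HK K) : ℝ) * ε := by rw [hC'def]; ring
      have hce : 0 ≤ (Fintype.card (HK K) : ℝ) * ε := by positivity
      split_ifs
      · constructor
        · linarith [a.1]
        · rw [hcard]; linarith [a.2]
      · constructor
        · linarith [a.1]
        · rw [hcard]; linarith [a.2]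
    · intro f hf
      obtain ⟨h, rfl⟩ : ∃ h, Q.face h = f := Quotient.exists_rep f
      obtain ⟨b1, b2⟩ := hlf h hf
      rw [hv h, if_neg b2, hξ0 R _ b1, add_zero]
  have step1 : ∑ R ∈ S, R.A ε (ξ R) ≤ ∑ x : HK K, ∑ m ∈ (Finset.range (K x.1)).filter
      (fun m => 1 ≤ m ∧ 2 * m + 2 < K x.1), ∑ R ∈ S.filter (fun R => Pr x m R), R.A ε (ξ R) := by
    have e1 : ∀ x : HK K, ∀ m : ℕ, ∑ R ∈ S.filter (fun R => Pr x m R), R.A ε (ξ R) =
        ∑ R ∈ S, if Pr x m R then R.A ε (ξ R) else 0 := fun x m => sum_filter _ _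
    simp only [e1]
    have e2 : ∀ x : HK K, ∑ m ∈ (Finset.range (K x.1)).filter
        (fun m => 1 ≤ m ∧ 2 * m + 2 < K x.1), ∑ R ∈ S, (if Pr x m R then R.A ε (ξ R) else 0) =
        ∑ R ∈ S, ∑ m ∈ (Finset.range (K x.1)).filter
        (fun m => 1 ≤ m ∧ 2 * m + 2 < K x.1), (if Pr x m R then R.A ε (ξ R) else 0) :=
      fun x => sum_comm
    simp only [e2]
    rw [sum_comm]
    refine sum_le_sum (fun R hR => ?_)
    obtain ⟨x, m, hm, hPr⟩ := key R hR
    have nn : ∀ (x : HK K) (m : ℕ), 0 ≤ (if Pr x m R then R.A ε (ξ R) else 0) := by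
      intro x m
      split_ifs
      · exact A_nonneg R ε hε _
      · exact le_refl _
    calc R.A ε (ξ R) = (if Pr x m R then R.A ε (ξ R) else 0) := by rw [if_pos hPr]
      _ ≤ ∑ m ∈ (Finset.range (K x.1)).filter (fun m => 1 ≤ m ∧ 2 * m + 2 < K x.1),
          (if Pr x m R then R.A ε (ξ R) else 0) :=
        single_le_sum (f := fun m => (if Pr x m R then R.A ε (ξ R) else 0)) (fun m _ => nn x m) hm
      _ ≤ ∑ x : HK K, ∑ m ∈ (Finset.range (K x.1)).filter
          (fun m => 1 ≤ m ∧ 2 * m + 2 < K x.1), (if Pr x m R then R.A ε (ξ R) else 0) :=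
        single_le_sum (f := fun x : HK K => ∑ m ∈ (Finset.range (K x.1)).filter
          (fun m => 1 ≤ m ∧ 2 * m + 2 < K x.1), (if Pr x m R then R.A ε (ξ R) else 0))
          (fun x _ => sum_nonneg (fun m _ => nn x m)) (mem_univ x)
  have step2 : ∀ x : HK K, ∀ m ∈ (Finset.range (K x.1)).filter
      (fun m => 1 ≤ m ∧ 2 * m + 2 < K x.1), ∑ R ∈ S.filter (fun R => Pr x m R), R.A ε (ξ R) ≤
      2 * ZZ (rot (leg m)) ε * B' x.1 m := by
    intro x m hm
    obtain ⟨_, hm1, hm2⟩ := mem_filter.mp hm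
    exact fixed_bound K ε hε x m hm2 C' (B' x.1 m) (hUB x.1 m hm1 hm2) hC' ξ _
      (fun R hR => (mem_filter.mp hR).2)
  have step3 : ∑ R ∈ S, R.A ε (ξ R) ≤ ∑ x : HK K, ∑ m ∈ (Finset.range (K x.1)).filter
      (fun m => 1 ≤ m ∧ 2 * m + 2 < K x.1), 2 * ZZ (rot (leg m)) ε * B' x.1 m :=
    step1.trans (sum_le_sum (fun x _ => sum_le_sum (fun m hm => step2 x m hm)))
  refine step3.trans (le_of_eq ?_)
  rw [Fintype.sum_sigma]
  refine sum_congr rfl (fun i _ => ?_)
  simp only [sum_const, card_univ, Fintype.card_fin, nsmul_eq_mul]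
  rw [mul_sum]
  refine sum_congr rfl (fun m _ => ?_)
  ring

theorem leaf_eventually {ρ : Type} [Fintype ρ] (K : ρ → ℕ) (hsurg : SurgH K)
    (hP : ∀ m : ℕ, Tendsto (fun ε => ZZ (rot (leg m)) ε) (𝓝[>] (0:ℝ)) (𝓝 (Ypoly (leg m))))
    (B : ρ → ℕ → ℝ) (hB : ∀ i m, 0 ≤ B i m)
    (h : ∀ i m, 1 ≤ m → 2 * m + 2 < K i → UB (red K i m) (B i m))
    (C : ℝ) (hC : 0 ≤ C) (δ : ℝ) (hδ : 0 < δ) :
    ∀ᶠ ε in 𝓝[>] (0:ℝ), ∀ ξ : (R : Conf (rot K)) → R.Face → ℝ,
      (∀ R f, 0 ≤ ξ R f ∧ ξ R f ≤ C * ε) → (∀ R f, R.LeafFace f → ξ R f = 0) →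
      (by
        classical
        exact ∑ R ∈ univ.filter (fun R : Conf (rot K) => R.Conn ∧ ∃ x μ, R.IsLeaf x μ), R.A ε (ξ R)) ≤
      leafSum K B + δ := by
  classical
  -- the auxiliary function
  let G : ℝ → ℝ := fun d => ∑ i, ∑ m ∈ (Finset.range (K i)).filter
    (fun m => 1 ≤ m ∧ 2 * m + 2 < K i), (K i : ℝ) * (2 * (Ypoly (leg m) + d)) * (B i m + d)
  have hG : Continuous G := by
    refine continuous_finsetSum _ (fun i _ => continuous_finsetSum _ (fun m _ => ?_))
    fun_prop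
  have hG0 : G 0 = leafSum K B := by
    simp only [G, leafSum, add_zero]
  obtain ⟨d, hd0, hd⟩ : ∃ d : ℝ, 0 < d ∧ G d ≤ leafSum K B + δ := by
    have h1 : ∀ᶠ d in 𝓝[>] (0:ℝ), G d < leafSum K B + δ := by
      have h2 : Tendsto G (𝓝[>] (0:ℝ)) (𝓝 (G 0)) := (hG.tendsto 0).mono_left nhdsWithin_le_nhds
      rw [hG0] at h2
      exact h2.eventually (gt_mem_nhds (by linarith))
    obtain ⟨d, h3, h4⟩ := (h1.and self_mem_nhdsWithin).exists
    exact ⟨d, h4, h3.le⟩
  have ev1 : ∀ᶠ ε in 𝓝[>] (0:ℝ), ∀ i, ∀ m ∈ Finset.range (K i), 1 ≤ m → 2 * m + 2 < K i →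
      UBat (rot (red K i m)) (C + Fintype.card (HK K)) ε (B i m + d) := by
    refine eventually_all.mpr (fun i => ?_)
    refine (Filter.eventually_all_finset _).mpr (fun m _ => ?_)
    by_cases hm : 1 ≤ m ∧ 2 * m + 2 < K i
    · have := h i m hm.1 hm.2 (C + Fintype.card (HK K)) (by positivity) d hd0
      filter_upwards [this] with ε hε _ _
      exact hε
    · exact Filter.Eventually.of_forall (fun ε a b => absurd ⟨a, b⟩ hm)
  have ev2 : ∀ᶠ ε in 𝓝[>] (0:ℝ), ∀ i, ∀ m ∈ Finset.range (K i),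
      ZZ (rot (leg m)) ε ≤ Ypoly (leg m) + d := by
    refine eventually_all.mpr (fun i => ?_)
    refine (Filter.eventually_all_finset _).mpr (fun m _ => ?_)
    exact ((hP m).eventually (gt_mem_nhds (show Ypoly (leg m) < Ypoly (leg m) + d by
      linarith))).mono (fun ε hε => hε.le)
  have ev3 : ∀ᶠ ε in 𝓝[>] (0:ℝ), ε ≤ 1 / 2 := by
    have : ∀ᶠ ε in 𝓝 (0:ℝ), ε < 1 / 2 := gt_mem_nhds (by norm_num)
    exact (this.filter_mono nhdsWithin_le_nhds).mono (fun ε hε => hε.le)
  filter_upwards [ev1, ev2, ev3, self_mem_nhdsWithin] with ε h1 h2 h3 h4 ξ hξ hξ0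
  have h4' : 0 < ε := h4
  refine (leaf_bound K hsurg ε h4' h3 C hC (fun i m => B i m + d)
    (fun i m a b => h1 i m (mem_range.mpr (by omega)) a b) ξ hξ hξ0).trans (le_trans ?_ hd)
  refine sum_le_sum (fun i _ => sum_le_sum (fun m hm => ?_))
  have hBd : 0 ≤ B i m + d := by linarith [hB i m]
  refine mul_le_mul_of_nonneg_right ?_ hBd
  refine mul_le_mul_of_nonneg_left ?_ (Nat.cast_nonneg _)
  have := h2 i m (mem_filter.mp hm).1
  linarith

end Pool.Agent.Helper62.MVC2
end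

/- Helper62.MVC2.Par -/
section
/-!
MV-C2-12. Parity: there is no configuration if `E` is odd.

Proof. Signs (`Equiv.Perm.sign`): every cycle of `rot K` has odd length `K i`, so `sign (rot K) = 1` (`Equiv.Perm.sign` of a
`sigmaCongrRight` is the product of the signs: `Equiv.Perm.sign_sigmaCongrRight`, `sign (finRotate n) = (-1)^(n-1)`: `sign_finRotate`).
`R.τ` is a fixed point free involution of `2E` points: `sign = (-1)^E`. For a permutation `g` of a finite set with `c` cycles (fixed points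
included; `c = Fintype.card (Cyc g)`), `sign g = (-1)^(n + c)`, `n` the number of points (`Equiv.Perm.sign_of_cycleType`:
`sign g = (-1)^(∑ cycleType + card cycleType)`, `c = card cycleType + number of fixed points`), here a lemma `sign_cyc`. With `g = σ * τ`, `n = 2E`:
`(-1)^E = (-1)^(F)`, `F = number of faces`. The pairing `β` shows that `F` is even (number of points of a set with a fixed point free
involution is even). So `E` is even.
-/

namespace Pool.Agent.Helper62.MVC2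

open Finset MeasureTheory Filter Topology Pool.Agent.Helper60.MV

theorem even_card_of_pairing {F : Type} [Fintype F] (β : Equiv.Perm F) (hβ : IsPairing β) :
    Even (Fintype.card F) := by
  classical
  have h2 : β ^ 2 = 1 := by
    ext x
    rw [pow_two, Equiv.Perm.mul_apply, hβ.invol]
    rfl
  have hs : β.support = Finset.univ := by
    ext x
    simp [Equiv.Perm.mem_support, hβ.fpf x]
  have := Equiv.Perm.two_dvd_card_support h2
  rw [hs, Finset.card_univ] at this
  exact even_iff_two_dvd.mpr this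

private theorem cyc_rep_pv2 {H : Type} {g : Equiv.Perm H} (c : Cyc g) : cyc g c.rep = c :=
  Quotient.out_eq c

private theorem cyc_eq_iff {H : Type} (g : Equiv.Perm H) (a b : H) :
    cyc g a = cyc g b ↔ g.SameCycle a b :=
  ⟨fun h => Quotient.exact h, fun h => Quotient.sound h⟩

private theorem card_cyc {H : Type} [Fintype H] [DecidableEq H] (g : Equiv.Perm H) :
    Fintype.card (Cyc g) = (Finset.univ.filter (fun x => g x = x)).card +
      g.cycleFactorsFinset.card := by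
  classical
  rw [← Finset.card_univ, ← Finset.card_filter_add_card_filter_not (s := (Finset.univ : Finset (Cyc g)))
    (fun c : Cyc g => g c.rep = c.rep)]
  congr 1
  · refine Finset.card_bij (fun c _ => c.rep) ?_ ?_ ?_
    · intro c hc
      rw [Finset.mem_filter] at hc ⊢
      exact ⟨Finset.mem_univ _, hc.2⟩
    · intro c _ c' _ h
      rw [← cyc_rep_pv2 c, ← cyc_rep_pv2 c', h]
    · intro x hx
      rw [Finset.mem_filter] at hx
      have hsc : g.SameCycle (cyc g x).rep x := (cyc_eq_iff g _ _).mp (cyc_rep_pv2 (cyc g x))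
      have hrep : (cyc g x).rep = x := by
        obtain ⟨n, hn⟩ := hsc.symm
        rw [← hn]
        exact Equiv.Perm.zpow_apply_eq_self_of_apply_eq_self hx.2 n
      refine ⟨cyc g x, ?_, hrep⟩
      rw [Finset.mem_filter]
      refine ⟨Finset.mem_univ _, ?_⟩
      rw [hrep]
      exact hx.2
  · refine Finset.card_bij (fun c _ => g.cycleOf c.rep) ?_ ?_ ?_
    · intro c hc
      rw [Finset.mem_filter] at hc
      rw [Equiv.Perm.cycleOf_mem_cycleFactorsFinset_iff, Equiv.Perm.mem_support]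
      exact hc.2
    · intro c hc c' hc' h
      rw [Finset.mem_filter] at hc hc'
      rw [← cyc_rep_pv2 c, ← cyc_rep_pv2 c', cyc_eq_iff]
      exact (Equiv.Perm.sameCycle_iff_cycleOf_eq_of_mem_support
        (Equiv.Perm.mem_support.mpr hc.2) (Equiv.Perm.mem_support.mpr hc'.2)).mpr h
    · intro f hf
      have hfc := (Equiv.Perm.mem_cycleFactorsFinset_iff.mp hf).1
      obtain ⟨x, hx⟩ := hfc.nonempty_support
      have hfx : f = g.cycleOf x := Equiv.Perm.cycle_is_cycleOf hx hf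
      have hxs : x ∈ g.support := by
        rw [← Equiv.Perm.cycleOf_mem_cycleFactorsFinset_iff, ← hfx]
        exact hf
      have hsc : g.SameCycle (cyc g x).rep x := (cyc_eq_iff g _ _).mp (cyc_rep_pv2 (cyc g x))
      refine ⟨cyc g x, ?_, ?_⟩
      · rw [Finset.mem_filter]
        refine ⟨Finset.mem_univ _, ?_⟩
        intro hfix
        have h3 : (cyc g x).rep = x := by
          obtain ⟨n, hn⟩ := hsc
          exact (Equiv.Perm.zpow_apply_eq_self_of_apply_eq_self hfix n).symm.trans hn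
        rw [h3] at hfix
        exact (Equiv.Perm.mem_support.mp hxs) hfix
      · rw [hfx]
        exact hsc.cycleOf_eq

theorem sign_cyc {H : Type} [Fintype H] [DecidableEq H] (g : Equiv.Perm H) :
    Equiv.Perm.sign g = (-1) ^ (Fintype.card H + Fintype.card (Cyc g)) := by
  have h1 : Fintype.card H = g.support.card + (Finset.univ.filter (fun x => g x = x)).card := by
    rw [← Finset.card_univ, ← Finset.card_filter_add_card_filter_not
      (s := (Finset.univ : Finset H)) (fun x => g x ≠ x)]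
    congr 1
    congr 1
    ext x
    simp
  have h2 : Multiset.card g.cycleType = g.cycleFactorsFinset.card := by
    rw [Equiv.Perm.cycleType_def, Multiset.card_map]
    rfl
  rw [Equiv.Perm.sign_of_cycleType, Equiv.Perm.sum_cycleType, h2, card_cyc, h1]
  have h3 : g.support.card + (Finset.univ.filter (fun x => g x = x)).card +
      ((Finset.univ.filter (fun x => g x = x)).card + g.cycleFactorsFinset.card) =
      (g.support.card + g.cycleFactorsFinset.card) +
        2 * (Finset.univ.filter (fun x => g x = x)).card := by ring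
  rw [h3, pow_add (-1 : ℤˣ) (g.support.card + g.cycleFactorsFinset.card), pow_mul]
  simp

private theorem sign_rot {ρ : Type} [Fintype ρ] (K : ρ → ℕ) (hK : ∀ i, Odd (K i))
    [DecidableEq (HK K)] : Equiv.Perm.sign (rot K) = 1 := by
  have h1 : (rot K) ^ (∏ i, K i) = 1 := by
    refine Equiv.ext (fun h => ?_)
    rw [← Equiv.Perm.iterate_eq_pow]
    have hd : Function.minimalPeriod (rot K) h ∣ ∏ i, K i := by
      rw [rot_minimalPeriod]
      exact Finset.dvd_prod_of_mem K (Finset.mem_univ h.1)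
    have := (Function.isPeriodicPt_iff_minimalPeriod_dvd.mpr hd)
    exact this
  have hodd : Odd (∏ i, K i) := by
    refine Finset.prod_induction _ Odd (fun a b ha hb => ha.mul hb) odd_one (fun i _ => hK i)
  have h2 : (Equiv.Perm.sign (rot K)) ^ (∏ i, K i) = 1 := by
    rw [← map_pow, h1, map_one]
  rcases Int.units_eq_one_or (Equiv.Perm.sign (rot K)) with h | h
  · exact h
  · rw [h, hodd.neg_one_pow] at h2
    exact absurd h2 (by decide)

theorem conf_isEmpty_of_odd {ρ : Type} [Fintype ρ] (K : ρ → ℕ) (hK : ∀ i, Odd (K i)) (E : ℕ)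
    (hE : ∑ i, K i = 2 * E) (hodd : Odd E) : IsEmpty (Conf (rot K)) := by
  classical
  refine ⟨fun R => ?_⟩
  have hcard : Fintype.card (HK K) = 2 * E := by
    rw [Fintype.card_sigma]
    simp only [Fintype.card_fin]
    exact hE
  have hedge := card_edge R
  have hE2 : Fintype.card (Cyc R.τ) = E := by
    have : Fintype.card R.Edge = Fintype.card (Cyc R.τ) := rfl
    omega
  have hτ : Equiv.Perm.sign R.τ = -1 := by
    rw [sign_cyc, hcard, hE2, pow_add, pow_mul, hodd.neg_one_pow]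
    simp
  have hF := even_card_of_pairing R.β R.hβ
  have hφ : Equiv.Perm.sign (rot K * R.τ) = 1 := by
    rw [sign_cyc, hcard, pow_add, pow_mul, hF.neg_one_pow]
    simp
  rw [map_mul, sign_rot K hK, hτ] at hφ
  exact absurd hφ (by decide)

theorem UB_odd {ρ : Type} [Fintype ρ] (K : ρ → ℕ) (hK : ∀ i, Odd (K i)) (E : ℕ)
    (hE : ∑ i, K i = 2 * E) (hodd : Odd E) : UB K 0 := by
  classical
  have hemp := conf_isEmpty_of_odd K hK E hE hodd
  intro C _ δ hδ
  refine Filter.Eventually.of_forall (fun ε ξ _ _ => ?_)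
  rw [Finset.sum_eq_zero (fun R _ => (hemp.false R).elim)]
  linarith

end Pool.Agent.Helper62.MVC2
end

/- Helper62.MVC2.Disc2 -/
section
/-!
MV-C2-11b. Disconnected configurations, the limit; odd sums.

Proofs.
* `Ypoly_odd`: `XK K S = 0` for every list `S`: `pfL A L ≠ 0` for `A a b = zf (m a) (m b)` implies `∑_{a ∈ L} m a = 0` (strong induction on the length:
  a nonzero term has `zf (m x) (m (xs.get j)) ≠ 0`, so `m x + m (xs.get j) = 0`, and the rest `xs.eraseIdx j` has sum zero by induction), but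
  `∑_a (asg K f a - 2 S_a) = ∑_i K i - 2 ∑ S` is odd. So `Rpoly K = 0`, `Wick 0 = 0`.
* `ZZ_odd`: no configuration: `R.τ` is a fixed point free involution of `HK K`, which has `∑ K i` elements, an odd number
  (`Function.Involutive.card_fixedPoints...` or `Equiv.Perm.card_fixedPoints_modEq`, or `even_card_of_pairing` of file `Par`).
* `disc_eventually`: for each such `I`, if `∑_{i ∈ I} K i = 2 E'` is even, then so is the sum over `Iᶜ`, and by `hP` both factors converge to the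
  `Ypoly`s. If it is odd there is no configuration at all (`Fintype.card (HK (K|I)) = ∑_{i∈I} K i` is odd, but a fixed point free involution exists
  only on a set of even size: `Equiv.Perm.card_fixedPoints_modEq`/`Function.Involutive.card_fixedPoints...`), so `ZZ (K|I) = 0`, and
  `Ypoly (K|I) = 0` (`Ypoly_odd`), the term tends to the term. So the bound of `disc_bound` tends to `disc K`.
-/

namespace Pool.Agent.Helper62.MVC2

open Finset MeasureTheory Filter Topology Pool.Agent.Helper60.MV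

private theorem pfL_sum_zero {α : Type} (m : α → ℤ) :
    ∀ (n : ℕ) (L : List α), L.length = n →
      pfL (fun a b => zf (m a) (m b)) L ≠ 0 → (L.map m).sum = 0 := by
  intro n
  induction n using Nat.strong_induction_on with
  | _ n ih =>
    intro L hL h
    match L with
    | [] => rfl
    | x :: xs =>
      rw [pfL] at h
      obtain ⟨j, _, hj⟩ := Finset.exists_ne_zero_of_sum_ne_zero h
      have h1 : zf (m x) (m (xs.get j)) ≠ 0 := by
        intro h0
        apply hj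
        rw [h0]
        ring
      have h2 : pfL (fun a b => zf (m a) (m b)) (xs.eraseIdx j) ≠ 0 := by
        intro h0
        apply hj
        rw [h0]
        ring
      have h3 : m x + m (xs.get j) = 0 := by
        by_contra hne
        apply h1
        unfold zf
        rw [if_neg hne]
      have hlen : (xs.eraseIdx j).length < n := by
        rw [List.length_eraseIdx]
        rw [List.length_cons] at hL
        split <;> omega
      have h4 := ih _ hlen (xs.eraseIdx j) rfl h2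
      have h5 := (List.getElem_cons_eraseIdx_perm (l := xs) (n := (j : ℕ)) j.2).map m
      have h6 := h5.sum_eq
      rw [List.map_cons, List.sum_cons] at h6
      rw [List.map_cons, List.sum_cons, ← h6, h4, add_zero]
      exact h3

private theorem XK_odd {ρ : Type} [Fintype ρ] (K : ρ → ℕ) (h : Odd (∑ i, K i)) (S : List ℕ) :
    XK K S = 0 := by
  classical
  unfold XK
  apply Finset.sum_eq_zero
  intro f _
  by_contra hne
  have h1 := pfL_sum_zero (fun a : Fin S.length => (asg K f a : ℤ) - 2 * (S.get a : ℤ))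
    _ (List.finRange S.length) rfl hne
  have h2 : ((List.finRange S.length).map
      (fun a : Fin S.length => (asg K f a : ℤ) - 2 * (S.get a : ℤ))).sum =
      ∑ a : Fin S.length, ((asg K f a : ℤ) - 2 * (S.get a : ℤ)) := by
    rw [← List.ofFn_eq_map, List.sum_ofFn]
  rw [h2, Finset.sum_sub_distrib, ← Finset.mul_sum] at h1
  have h3 : ∑ a : Fin S.length, (asg K f a : ℤ) = ((∑ i, K i : ℕ) : ℤ) := by
    rw [← Nat.cast_sum]
    congr 1
    unfold asg
    rw [Finset.sum_comm]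
    apply Finset.sum_congr rfl
    intro i _
    rw [Finset.sum_ite_eq]
    simp
  rw [h3] at h1
  obtain ⟨k, hk⟩ := h
  rw [hk] at h1
  push_cast at h1
  omega

theorem Ypoly_odd {ρ : Type} [Fintype ρ] (K : ρ → ℕ) (h : Odd (∑ i, K i)) : Ypoly K = 0 := by
  have h1 : Rpoly K = 0 := by
    unfold Rpoly
    apply Finset.sum_eq_zero
    intro S _
    rw [XK_odd K h, mul_zero, MvPolynomial.C_0, zero_mul]
  unfold Ypoly
  rw [h1]
  unfold Wick
  rw [MvPolynomial.support_zero, Finset.sum_empty]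

theorem ZZ_odd {ρ : Type} [Fintype ρ] (K : ρ → ℕ) (h : Odd (∑ i, K i)) (ε : ℝ) :
    ZZ (rot K) ε = 0 := by
  unfold ZZ
  apply Finset.sum_eq_zero
  intro R _
  exfalso
  have h1 := even_card_of_pairing R.τ R.hτ
  have h2 : Fintype.card (HK K) = ∑ i, K i := by
    rw [Fintype.card_sigma]
    simp only [Fintype.card_fin]
  rw [h2] at h1
  exact (Nat.not_even_iff_odd.mpr h) h1

theorem disc_eventually {ρ : Type} [Fintype ρ] (K : ρ → ℕ) (hK : ∀ i, Odd (K i)) (E : ℕ)
    (hE : ∑ i, K i = 2 * E)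
    (hP : ∀ {ρ' : Type} [Fintype ρ'] (K' : ρ' → ℕ), (∀ i, Odd (K' i)) → ∀ E' : ℕ,
      ∑ i, K' i = 2 * E' → Tendsto (fun ε => ZZ (rot K') ε) (𝓝[>] (0:ℝ)) (𝓝 (Ypoly K')))
    (δ : ℝ) (hδ : 0 < δ) :
    ∀ᶠ ε in 𝓝[>] (0:ℝ),
      (by classical exact ∑ R ∈ univ.filter (fun R : Conf (rot K) => ¬ R.Conn), R.A ε 0) ≤
        disc K + δ := by
  classical
  have hlim : Tendsto (fun ε => ∑ I ∈ (univ : Finset ρ).powerset.filter
      (fun I => I.Nonempty ∧ Iᶜ.Nonempty),
      ZZ (rot (fun i : {i // i ∈ I} => K i)) ε * ZZ (rot (fun i : {i // i ∈ Iᶜ} => K i)) ε)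
      (𝓝[>] (0:ℝ)) (𝓝 (disc K)) := by
    unfold disc
    apply tendsto_finsetSum
    intro I _
    have hI : ∑ i : {i // i ∈ I}, K i = ∑ i ∈ I, K i := Finset.sum_coe_sort I K
    have hI' : ∑ i : {i // i ∈ Iᶜ}, K i = ∑ i ∈ Iᶜ, K i := Finset.sum_coe_sort Iᶜ K
    have hsum : ∑ i ∈ I, K i + ∑ i ∈ Iᶜ, K i = 2 * E := by
      rw [Finset.sum_add_sum_compl, hE]
    rcases Nat.even_or_odd' (∑ i ∈ I, K i) with ⟨e, he | he⟩
    · apply Tendsto.mul
      · exact hP (fun i : {i // i ∈ I} => K i) (fun i => hK i) e (by rw [hI, he])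
      · refine hP (fun i : {i // i ∈ Iᶜ} => K i) (fun i => hK i) (E - e) ?_
        rw [hI']
        omega
    · have hodd : Odd (∑ i : {i // i ∈ I}, K i) := by
        rw [hI, he]
        exact ⟨e, rfl⟩
      have h1 : Ypoly (fun i : {i // i ∈ I} => K i) = 0 := Ypoly_odd _ hodd
      have h2 : ∀ ε, ZZ (rot (fun i : {i // i ∈ I} => K i)) ε = 0 := fun ε => ZZ_odd _ hodd ε
      rw [h1, zero_mul]
      simp only [h2, zero_mul]
      exact tendsto_const_nhds
  have h3 := hlim.eventually_lt_const (show disc K < disc K + δ by linarith)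
  filter_upwards [h3, self_mem_nhdsWithin] with ε hε hε0
  exact le_trans (disc_bound K ε hε0) hε.le

end Pool.Agent.Helper62.MVC2
end

/- Helper62.MVC2.LimA -/
section
/-!
MV-C2-13. Limits of the regularised volumes of the good connected configurations, and the upper bound of `Yconn`.

Proofs. `limA_tendsto`: `adm_of_good` and `blockB1'` applied to `R.P` (there is a cylinder because there is a half-edge); `R.A ε 0 = AM R.P ε 0`
(definitional up to `funext`); `Tendsto.limUnder_eq`. If `H` is empty: `Edge`, `Cyl` are empty and `R.A ε 0` is the integral of `1` over a one point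
space, constant in `ε`; the theorem below assumes `Nonempty H`.
`C_up'`: `Yconn K = lim ∑_{R conn, good} R.A ε 0 ≤ lim ∑_R R.A ε 0 = lim ZZ = Ypoly K` (`A_nonneg`, `le_of_tendsto_of_tendsto`, eventually in `ε > 0`).
`HK K` is nonempty since `ρ` is and `K i` is odd.
-/

namespace Pool.Agent.Helper62.MVC2

open Finset MeasureTheory Filter Topology Pool.Agent.Helper60.MV

theorem limA_tendsto {H : Type} [Fintype H] [Nonempty H] {σ : Equiv.Perm H} (hσ : AllOdd σ)
    (R : Conf σ) (hR : R.Conn) (hg : R.Good) :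
    Tendsto (fun ε => R.A ε 0) (𝓝[>] (0:ℝ)) (𝓝 R.limA) := by
  have hadm := adm_of_good R hσ hR hg
  obtain ⟨h⟩ := ‹Nonempty H›
  have : Nonempty R.Cyl := ⟨cyc R.β (R.face h)⟩
  obtain ⟨a, _, ha2⟩ := blockB1' R.P hadm
  have h3 : R.limA = a := Tendsto.limUnder_eq ha2
  rw [h3]
  exact ha2

theorem Yconn_tendsto {ρ : Type} [Fintype ρ] [Nonempty ρ] (K : ρ → ℕ) (hK : ∀ i, Odd (K i)) :
    Tendsto (fun ε => (by
      classical exact ∑ R ∈ univ.filter (fun R : Conf (rot K) => R.Conn ∧ R.Good), R.A ε 0))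
      (𝓝[>] (0:ℝ)) (𝓝 (Yconn K)) := by
  classical
  obtain ⟨i0⟩ := ‹Nonempty ρ›
  have : Nonempty (HK K) := ⟨⟨i0, ⟨0, (hK i0).pos⟩⟩⟩
  unfold Yconn
  exact tendsto_finsetSum _ fun R hR =>
    limA_tendsto (rot_allOdd K hK) R (mem_filter.1 hR).2.1 (mem_filter.1 hR).2.2

theorem C_up' {ρ : Type} [Fintype ρ] [Nonempty ρ] (K : ρ → ℕ) (hK : ∀ i, Odd (K i))
    (hP : Tendsto (fun ε => ZZ (rot K) ε) (𝓝[>] (0:ℝ)) (𝓝 (Ypoly K))) :
    Yconn K ≤ Ypoly K := by
  classical
  refine le_of_tendsto_of_tendsto (Yconn_tendsto K hK) hP ?_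
  filter_upwards [self_mem_nhdsWithin] with ε hε
  unfold ZZ
  exact Finset.sum_le_sum_of_subset_of_nonneg (filter_subset _ _)
    fun R _ _ => A_nonneg R ε hε 0

end Pool.Agent.Helper62.MVC2
end
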