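import Pool.Agent.Helper16.LGG.G03
import Pool.Agent.Helper16.LGG.G04
import Pool.Agent.Helper16.LGG.G05
import Pool.Agent.Helper16.LGG.G10

/- Helper12.MVP.GaussR -/
section
/-!
MV-P11. Gaussian integration of the right side.

Proofs. `mom_tent_bound`: `tentE ε (p - a)` is zero unless `|p - a| < ε`, so `0 ≤ p^{2k} ≤ (|a| + ε)^{2k}` on the support (`p > 0`), and
`∫ tentE ε = 1`. `mom_tent_zero`: if `a ≤ -ε` the support does not meet `p > 0`. `mom_tent_meas`: the function `a ↦ mom k (..)` is
continuous (parameter integral), or measurable by `StronglyMeasurable.integral_prod_right`.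
`ce_integrable`: `|phi a · mom k · mom l| ≤ 1_{a ≥ -ε} e^{-a/2} (|a|+ε)^{2k+2l}`, integrable (polynomial times exponential on a half
line). Product over `c`: `∏_j mom (k j) (.. a_{(π j).1}) = ∏_c ∏_b mom (k (π.symm (c,b))) (.. a_c)` (`Equiv.prod_comp`), so the integrand is
`∏_c h_c(a_c)` with `h_c` integrable: `Integrable.fintype_prod`, `integral_fintype_prod_eq_prod`.
-/

namespace Pool.Agent.Helper12.MVP

open Finset MeasureTheory Filter Topology Pool.Agent.Helper60.MV

theorem mom_tent_nonneg (k : ℕ) (ε : ℝ) (hε : 0 < ε) (a : ℝ) :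
    0 ≤ mom k (fun p => tentE ε (p - a)) := by
  unfold mom
  apply setIntegral_nonneg measurableSet_Ioi
  intro p hp
  have hp' : 0 < p := hp
  exact mul_nonneg (tentE_nonneg ε hε _) (by positivity)

theorem mom_tent_bound (k : ℕ) (ε : ℝ) (hε : 0 < ε) (a : ℝ) :
    mom k (fun p => tentE ε (p - a)) ≤ (|a| + ε) ^ (2 * k) := by
  have hint : Integrable (fun p : ℝ => tentE ε (p - a) * (|a| + ε) ^ (2 * k)) :=
    ((tentE_integrable ε hε).comp_sub_right a).mul_const _
  have h1 : mom k (fun p => tentE ε (p - a)) ≤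
      ∫ p in Set.Ioi (0:ℝ), tentE ε (p - a) * (|a| + ε) ^ (2 * k) := by
    unfold mom
    apply integral_mono_of_nonneg
    · rw [Filter.EventuallyLE, ae_restrict_iff' measurableSet_Ioi]
      refine Filter.Eventually.of_forall fun p hp => ?_
      have hp' : 0 < p := hp
      exact mul_nonneg (tentE_nonneg ε hε _) (by positivity)
    · exact hint.integrableOn
    · rw [Filter.EventuallyLE, ae_restrict_iff' measurableSet_Ioi]
      refine Filter.Eventually.of_forall fun p hp => ?_
      have hp' : 0 < p := hp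
      show tentE ε (p - a) * (p ^ (2 * k) / ((2 * k).factorial : ℝ)) ≤ _
      rcases le_or_gt ε |p - a| with h | h
      · rw [tentE_zero ε hε _ h, zero_mul, zero_mul]
      · apply mul_le_mul_of_nonneg_left _ (tentE_nonneg ε hε _)
        have h2 : p ≤ |a| + ε := by
          have h3 := (abs_lt.mp h).2
          have h4 := le_abs_self a
          linarith
        have h5 : (1 : ℝ) ≤ ((2 * k).factorial : ℝ) := by
          exact_mod_cast Nat.succ_le_of_lt (Nat.factorial_pos _)
        calc p ^ (2 * k) / ((2 * k).factorial : ℝ) ≤ p ^ (2 * k) := div_le_self (by positivity) h5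
          _ ≤ (|a| + ε) ^ (2 * k) := pow_le_pow_left₀ hp'.le h2 _
  have h2 : ∫ p in Set.Ioi (0:ℝ), tentE ε (p - a) * (|a| + ε) ^ (2 * k) ≤
      ∫ p : ℝ, tentE ε (p - a) * (|a| + ε) ^ (2 * k) := by
    apply setIntegral_le_integral hint
    refine Filter.Eventually.of_forall fun p => ?_
    exact mul_nonneg (tentE_nonneg ε hε _) (by positivity)
  have h3 : ∫ p : ℝ, tentE ε (p - a) * (|a| + ε) ^ (2 * k) = (|a| + ε) ^ (2 * k) := by
    rw [integral_mul_const, integral_sub_right_eq_self (tentE ε) a, tentE_integral ε hε,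
      one_mul]
  rw [h3] at h2
  exact h1.trans h2

theorem mom_tent_zero (k : ℕ) (ε : ℝ) (hε : 0 < ε) (a : ℝ) (ha : a ≤ -ε) :
    mom k (fun p => tentE ε (p - a)) = 0 := by
  unfold mom
  apply setIntegral_eq_zero_of_forall_eq_zero
  intro p hp
  have hp' : 0 < p := hp
  have h : ε ≤ |p - a| := by
    rw [abs_of_pos (by linarith)]
    linarith
  show tentE ε (p - a) * (p ^ (2 * k) / ((2 * k).factorial : ℝ)) = 0
  rw [tentE_zero ε hε _ h, zero_mul]

theorem mom_tent_meas (k : ℕ) (ε : ℝ) (hε : 0 < ε) :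
    Measurable (fun a : ℝ => mom k (fun p => tentE ε (p - a))) := by
  unfold mom
  have h : Continuous (Function.uncurry (fun a p : ℝ =>
      tentE ε (p - a) * (p ^ (2 * k) / ((2 * k).factorial : ℝ)))) := by
    have h1 := tentE_continuous ε
    unfold Function.uncurry
    fun_prop
  exact (h.stronglyMeasurable.integral_prod_right).measurable

private theorem gr_exp_int : Integrable (fun a : ℝ => Real.exp (-(|a| / 4))) := by
  have h1 : IntegrableOn (fun a : ℝ => Real.exp (-(|a| / 4))) (Set.Ioi 0) := by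
    refine (integrableOn_exp_mul_Ioi (a := -(1/4)) (by norm_num) 0).congr_fun ?_ measurableSet_Ioi
    intro a ha
    have ha' : 0 < a := ha
    show Real.exp (-(1/4) * a) = Real.exp (-(|a| / 4))
    rw [abs_of_pos ha']
    congr 1
    ring
  have h2 : IntegrableOn (fun a : ℝ => Real.exp (-(|a| / 4))) (Set.Iic 0) := by
    refine (integrableOn_exp_mul_Iic (a := 1/4) (by norm_num) 0).congr_fun ?_ measurableSet_Iic
    intro a ha
    have ha' : a ≤ 0 := ha
    show Real.exp ((1/4) * a) = Real.exp (-(|a| / 4))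
    rw [abs_of_nonpos ha']
    congr 1
    ring
  rw [← integrableOn_univ, ← Set.Iic_union_Ioi (a := (0:ℝ))]
  exact h2.union h1

private theorem gr_bound (k l : ℕ) (ε : ℝ) (hε : 0 < ε) (a : ℝ) :
    phi a * (mom k (fun p => tentE ε (p - a)) * mom l (fun p => tentE ε (p - a))) ≤
      (Real.exp ε * ((4 ^ (2 * k + 2 * l) * ((2 * k + 2 * l).factorial : ℝ)) * Real.exp (ε / 4))) *
        Real.exp (-(|a| / 4)) := by
  rcases le_or_gt a (-ε) with ha | ha
  · rw [mom_tent_zero k ε hε a ha, zero_mul, mul_zero]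
    positivity
  · have h1 : phi a ≤ Real.exp ε * Real.exp (-(|a| / 2)) := by
      refine (phi_le_exp a).trans ?_
      rw [← Real.exp_add]
      apply Real.exp_le_exp.mpr
      rcases le_total 0 a with h | h
      · rw [abs_of_nonneg h]
        linarith
      · rw [abs_of_nonpos h]
        linarith
    set n := 2 * k + 2 * l with hn
    have h2 : mom k (fun p => tentE ε (p - a)) * mom l (fun p => tentE ε (p - a)) ≤
        (|a| + ε) ^ n := by
      calc _ ≤ (|a| + ε) ^ (2 * k) * (|a| + ε) ^ (2 * l) :=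
            mul_le_mul (mom_tent_bound k ε hε a) (mom_tent_bound l ε hε a)
              (mom_tent_nonneg l ε hε a) (by positivity)
        _ = (|a| + ε) ^ n := by rw [← pow_add]
    have h3 : (|a| + ε) ^ n ≤ (4 ^ n * (n.factorial : ℝ)) * Real.exp ((|a| + ε) / 4) := by
      have h4 := Real.pow_div_factorial_le_exp ((|a| + ε) / 4) (by positivity) n
      rw [div_le_iff₀ (by positivity), div_pow, div_le_iff₀ (by positivity)] at h4
      calc (|a| + ε) ^ n ≤ Real.exp ((|a| + ε) / 4) * (n.factorial : ℝ) * 4 ^ n := h4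
        _ = _ := by ring
    calc phi a * (mom k (fun p => tentE ε (p - a)) * mom l (fun p => tentE ε (p - a)))
        ≤ (Real.exp ε * Real.exp (-(|a| / 2))) *
          ((4 ^ n * (n.factorial : ℝ)) * Real.exp ((|a| + ε) / 4)) := by
          apply mul_le_mul h1 (h2.trans h3)
          · exact mul_nonneg (mom_tent_nonneg k ε hε a) (mom_tent_nonneg l ε hε a)
          · positivity
      _ = (Real.exp ε * (4 ^ n * (n.factorial : ℝ))) *
          (Real.exp (-(|a| / 2)) * Real.exp ((|a| + ε) / 4)) := by ring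
      _ = (Real.exp ε * (4 ^ n * (n.factorial : ℝ))) *
          (Real.exp (ε / 4) * Real.exp (-(|a| / 4))) := by
          rw [← Real.exp_add, ← Real.exp_add]
          congr 2
          ring
      _ = _ := by ring

theorem ce_integrable (k l : ℕ) (ε : ℝ) (hε : 0 < ε) :
    Integrable (fun a : ℝ =>
      phi a * (mom k (fun p => tentE ε (p - a)) * mom l (fun p => tentE ε (p - a)))) := by
  refine Integrable.mono' (gr_exp_int.const_mul
    (Real.exp ε * ((4 ^ (2 * k + 2 * l) * ((2 * k + 2 * l).factorial : ℝ)) * Real.exp (ε / 4)))) ?_ ?_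
  · exact (phi_continuous.measurable.mul
      ((mom_tent_meas k ε hε).mul (mom_tent_meas l ε hε))).aestronglyMeasurable
  · refine Filter.Eventually.of_forall fun a => ?_
    rw [Real.norm_of_nonneg (mul_nonneg (phi_pos a).le
      (mul_nonneg (mom_tent_nonneg k ε hε a) (mom_tent_nonneg l ε hε a)))]
    exact gr_bound k l ε hε a

private theorem gr_prod {m n : ℕ} (π : Fin n ≃ Fin m × Bool) (k : Fin n → ℕ) (ε : ℝ)
    (a : Fin m → ℝ) :
    (∏ c, phi (a c)) * ∏ j, mom (k j) (fun p => tentE ε (p - a (π j).1)) =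
      ∏ c : Fin m, phi (a c) * (mom (k (π.symm (c, false))) (fun p => tentE ε (p - a c)) *
        mom (k (π.symm (c, true))) (fun p => tentE ε (p - a c))) := by
  have h1 : ∏ j, mom (k j) (fun p => tentE ε (p - a (π j).1)) =
      ∏ q : Fin m × Bool, mom (k (π.symm q)) (fun p => tentE ε (p - a q.1)) := by
    rw [← Equiv.prod_comp π]
    apply Finset.prod_congr rfl
    intro j _
    rw [Equiv.symm_apply_apply]
  rw [h1, Fintype.prod_prod_type, ← Finset.prod_mul_distrib]
  apply Finset.prod_congr rfl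
  intro c _
  rw [Fintype.prod_bool]
  ring

theorem gaussR_integrable {m n : ℕ} (π : Fin n ≃ Fin m × Bool) (k : Fin n → ℕ) (ε : ℝ)
    (hε : 0 < ε) :
    Integrable (fun a : Fin m → ℝ =>
      (∏ c, phi (a c)) * ∏ j, mom (k j) (fun p => tentE ε (p - a (π j).1))) := by
  simp_rw [gr_prod]
  exact Integrable.fintype_prod (f := fun (c : Fin m) (a : ℝ) =>
    phi a * (mom (k (π.symm (c, false))) (fun p => tentE ε (p - a)) *
        mom (k (π.symm (c, true))) (fun p => tentE ε (p - a))))
    (fun c => ce_integrable _ _ ε hε)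

theorem gaussR {m n : ℕ} (π : Fin n ≃ Fin m × Bool) (k : Fin n → ℕ) (ε : ℝ) (hε : 0 < ε) :
    ∫ a : Fin m → ℝ, (∏ c, phi (a c)) * ∏ j, mom (k j) (fun p => tentE ε (p - a (π j).1)) =
      ∏ c : Fin m, Ce ε (k (π.symm (c, false))) (k (π.symm (c, true))) := by
  simp_rw [gr_prod]
  rw [integral_fintype_prod_volume_eq_prod (fun (c : Fin m) (a : ℝ) =>
    phi a * (mom (k (π.symm (c, false))) (fun p => tentE ε (p - a)) *
        mom (k (π.symm (c, true))) (fun p => tentE ε (p - a))))]
  rfl

end Pool.Agent.Helper12.MVP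
end

/- Helper12.MVP.CeLim -/
section
/-!
MV-P13. The regularised covariance tends to the covariance.

Proof. Pointwise: for `a > 0`, `mom k (tentE ε (· - a)) → a^{2k}/(2k)!` as `ε → 0+` (for `ε < a` the support is inside `p > 0` and
`|p^{2k} - a^{2k}| ≤ sup_{|p-a| ≤ ε}`, total mass 1); for `a < 0` it is `0` for `ε ≤ -a` (`mom_tent_zero`). Dominated convergence for
`ε ≤ 1`: `|phi a · mom k · mom l| ≤ 1_{a ≥ -1} e^{-a/2} (|a|+1)^{2k+2l}` (`phi_le_exp`, `mom_tent_bound`, `mom_tent_zero`). The limit is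
`∫_{a>0} phi a · a^{2k}/(2k)! · a^{2l}/(2l)! da = Cov k l` by `phi_moment (2k+2l)`.
-/

namespace Pool.Agent.Helper12.MVP

open Finset MeasureTheory Filter Topology Pool.Agent.Helper60.MV

theorem tent_mul_integrable (ε : ℝ) (hε : 0 < ε) (a : ℝ) (q : ℝ → ℝ) (hq : Continuous q) :
    Integrable (fun p => tentE ε (p - a) * q p) := by
  have hc : Continuous (fun p => tentE ε (p - a) * q p) :=
    ((tentE_continuous ε).comp (continuous_id.sub continuous_const)).mul hq
  refine hc.integrable_of_hasCompactSupport ?_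
  refine HasCompactSupport.intro (K := Set.Icc (a - ε) (a + ε)) isCompact_Icc ?_
  intro p hp
  have h : ε ≤ |p - a| := by
    by_contra hlt
    push Not at hlt
    rw [abs_lt] at hlt
    exact hp ⟨by linarith [hlt.1], by linarith [hlt.2]⟩
  rw [tentE_zero ε hε _ h, zero_mul]

theorem tent_mass (ε : ℝ) (hε : 0 < ε) (a : ℝ) (ha : ε ≤ a) :
    ∫ p in Set.Ioi (0:ℝ), tentE ε (p - a) = 1 := by
  rw [setIntegral_eq_integral_of_forall_compl_eq_zero]
  · rw [integral_sub_right_eq_self (fun p => tentE ε p) a]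
    exact tentE_integral ε hε
  · intro p hp
    have hp' : p ≤ 0 := not_lt.mp hp
    apply tentE_zero ε hε
    rw [abs_of_nonpos (by linarith)]
    linarith

theorem mom_tent_tendsto (k : ℕ) (a : ℝ) (ha : 0 < a) :
    Tendsto (fun ε => mom k (fun p => tentE ε (p - a))) (𝓝[>] (0:ℝ))
      (𝓝 (a ^ (2 * k) / ((2 * k).factorial : ℝ))) := by
  have hq : Continuous (fun p : ℝ => p ^ (2 * k) / ((2 * k).factorial : ℝ)) := by
    fun_prop
  rw [Metric.tendsto_nhds]
  intro η hη
  have hη2 : 0 < η / 2 := by linarith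
  obtain ⟨δ, hδ, hδ'⟩ := Metric.continuous_iff.mp hq a (η / 2) hη2
  have hmem : Set.Ioo (0:ℝ) (min δ a) ∈ 𝓝[>] (0:ℝ) :=
    Ioo_mem_nhdsGT (lt_min hδ ha)
  filter_upwards [hmem] with ε hε
  have hε0 : 0 < ε := hε.1
  have hεδ : ε < δ := lt_of_lt_of_le hε.2 (min_le_left _ _)
  have hεa : ε < a := lt_of_lt_of_le hε.2 (min_le_right _ _)
  have hint0 := tent_mul_integrable ε hε0 a (fun _ => (1:ℝ)) continuous_const
  simp only [mul_one] at hint0
  have h1 : mom k (fun p => tentE ε (p - a)) - a ^ (2 * k) / ((2 * k).factorial : ℝ) =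
      ∫ p in Set.Ioi (0:ℝ), tentE ε (p - a) *
        (p ^ (2 * k) / ((2 * k).factorial : ℝ) - a ^ (2 * k) / ((2 * k).factorial : ℝ)) := by
    have h2 : a ^ (2 * k) / ((2 * k).factorial : ℝ) = ∫ p in Set.Ioi (0:ℝ),
        tentE ε (p - a) * (a ^ (2 * k) / ((2 * k).factorial : ℝ)) := by
      rw [integral_mul_const, tent_mass ε hε0 a hεa.le, one_mul]
    unfold mom
    conv_lhs => rw [h2]
    rw [← integral_sub]
    · apply integral_congr_ae
      refine Filter.Eventually.of_forall (fun p => ?_)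
      simp only
      ring
    · exact (tent_mul_integrable ε hε0 a _ hq).integrableOn
    · exact (tent_mul_integrable ε hε0 a _ continuous_const).integrableOn
  rw [Real.dist_eq, h1]
  have h3 : |∫ p in Set.Ioi (0:ℝ), tentE ε (p - a) *
        (p ^ (2 * k) / ((2 * k).factorial : ℝ) - a ^ (2 * k) / ((2 * k).factorial : ℝ))| ≤
      ∫ p in Set.Ioi (0:ℝ), tentE ε (p - a) * (η / 2) := by
    rw [← Real.norm_eq_abs]
    refine norm_integral_le_of_norm_le
      (tent_mul_integrable ε hε0 a _ continuous_const).integrableOn ?_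
    refine Filter.Eventually.of_forall (fun p => ?_)
    rw [Real.norm_eq_abs, abs_mul, abs_of_nonneg (tentE_nonneg ε hε0 _)]
    by_cases hp : ε ≤ |p - a|
    · rw [tentE_zero ε hε0 _ hp, zero_mul, zero_mul]
    · push Not at hp
      refine mul_le_mul_of_nonneg_left ?_ (tentE_nonneg ε hε0 _)
      have h4 := hδ' p (by rw [Real.dist_eq]; linarith)
      rw [Real.dist_eq] at h4
      exact h4.le
  rw [integral_mul_const, tent_mass ε hε0 a hεa.le, one_mul] at h3
  linarith

theorem Ce_symm (ε : ℝ) (k l : ℕ) : Ce ε k l = Ce ε l k := by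
  unfold Ce
  congr 1
  funext a
  ring

/-- the dominating function -/
noncomputable def bdF (n : ℕ) (a : ℝ) : ℝ :=
  (Set.Ioi (-2 : ℝ)).indicator
    (fun a => (8 ^ n * (n.factorial : ℝ) * Real.exp 1) * Real.exp (-(1 / 4) * a)) a

theorem bdF_integrable (n : ℕ) : Integrable (bdF n) := by
  unfold bdF
  rw [integrable_indicator_iff measurableSet_Ioi]
  exact (integrableOn_exp_mul_Ioi (by norm_num) (-2)).const_mul _

theorem pow_bd (n : ℕ) (a : ℝ) (ha : -2 < a) :
    Real.exp (-(a / 2)) * (|a| + 1) ^ n ≤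
      (8 ^ n * (n.factorial : ℝ) * Real.exp 1) * Real.exp (-(1 / 4) * a) := by
  have h0 : 0 ≤ |a| := abs_nonneg a
  have h1 := Real.pow_div_factorial_le_exp (x := (|a| + 1) / 8) (by positivity) n
  have hf : (0:ℝ) < (n.factorial : ℝ) := by positivity
  rw [div_le_iff₀ hf, div_pow, div_le_iff₀ (by positivity)] at h1
  have h2 : |a| ≤ a + 4 := by
    rw [abs_le]
    constructor <;> linarith
  have h3 : Real.exp ((|a| + 1) / 8) ≤ Real.exp 1 * Real.exp (a / 4) := by
    rw [← Real.exp_add]
    apply Real.exp_le_exp.mpr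
    linarith
  calc Real.exp (-(a / 2)) * (|a| + 1) ^ n
      ≤ Real.exp (-(a / 2)) * (Real.exp ((|a| + 1) / 8) * (n.factorial : ℝ) * 8 ^ n) := by
        exact mul_le_mul_of_nonneg_left h1 (Real.exp_pos _).le
    _ ≤ Real.exp (-(a / 2)) * ((Real.exp 1 * Real.exp (a / 4)) * (n.factorial : ℝ) * 8 ^ n) := by
        gcongr
    _ = (8 ^ n * (n.factorial : ℝ) * Real.exp 1) * (Real.exp (-(a / 2)) * Real.exp (a / 4)) := by
        ring
    _ = (8 ^ n * (n.factorial : ℝ) * Real.exp 1) * Real.exp (-(1 / 4) * a) := by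
        rw [← Real.exp_add]
        congr 2
        ring

theorem Ce_tendsto (k l : ℕ) :
    Tendsto (fun ε => Ce ε k l) (𝓝[>] (0:ℝ)) (𝓝 (Cov k l)) := by
  have hlim : Cov k l = ∫ a : ℝ, (Set.Ioi (0:ℝ)).indicator (fun a => phi a *
      (a ^ (2 * k) / ((2 * k).factorial : ℝ) * (a ^ (2 * l) / ((2 * l).factorial : ℝ)))) a := by
    rw [integral_indicator measurableSet_Ioi]
    have h1 : ∀ a : ℝ, phi a *
        (a ^ (2 * k) / ((2 * k).factorial : ℝ) * (a ^ (2 * l) / ((2 * l).factorial : ℝ))) =
        (phi a * a ^ (2 * k + 2 * l)) *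
          (1 / (((2 * k).factorial : ℝ) * ((2 * l).factorial : ℝ))) := by
      intro a
      rw [pow_add]
      field_simp
    simp only [h1]
    rw [integral_mul_const, phi_moment]
    unfold Cov
    rw [mul_one_div]
  rw [hlim]
  unfold Ce
  refine tendsto_integral_filter_of_dominated_convergence (bdF (2 * k + 2 * l)) ?_ ?_
    (bdF_integrable _) ?_
  · filter_upwards [self_mem_nhdsWithin] with ε hε
    exact (phi_continuous.measurable.mul ((mom_tent_meas k ε hε).mul
      (mom_tent_meas l ε hε))).aestronglyMeasurable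
  · have hmem : Set.Ioo (0:ℝ) 1 ∈ 𝓝[>] (0:ℝ) := Ioo_mem_nhdsGT one_pos
    filter_upwards [hmem] with ε hε
    refine Filter.Eventually.of_forall (fun a => ?_)
    have hε0 : 0 < ε := hε.1
    rw [Real.norm_eq_abs, abs_of_nonneg (mul_nonneg (phi_pos a).le
      (mul_nonneg (mom_tent_nonneg k ε hε0 a) (mom_tent_nonneg l ε hε0 a)))]
    unfold bdF
    by_cases ha : -2 < a
    · rw [Set.indicator_of_mem (Set.mem_Ioi.mpr ha)]
      refine le_trans ?_ (pow_bd _ a ha)
      have h0 : 0 ≤ |a| := abs_nonneg a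
      have hk : mom k (fun p => tentE ε (p - a)) ≤ (|a| + 1) ^ (2 * k) :=
        (mom_tent_bound k ε hε0 a).trans (pow_le_pow_left₀ (by linarith) (by linarith [hε.2]) _)
      have hl : mom l (fun p => tentE ε (p - a)) ≤ (|a| + 1) ^ (2 * l) :=
        (mom_tent_bound l ε hε0 a).trans (pow_le_pow_left₀ (by linarith) (by linarith [hε.2]) _)
      rw [pow_add]
      exact mul_le_mul (phi_le_exp a) (mul_le_mul hk hl (mom_tent_nonneg l ε hε0 a)
        (by positivity)) (mul_nonneg (mom_tent_nonneg k ε hε0 a) (mom_tent_nonneg l ε hε0 a))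
        (Real.exp_pos _).le
    · rw [Set.indicator_of_notMem (by simpa using ha)]
      rw [mom_tent_zero k ε hε0 a (by linarith [hε.2, not_lt.mp ha])]
      simp
  · have hne : ∀ᵐ a : ℝ, a ≠ 0 := by
      rw [ae_iff]
      simp
    filter_upwards [hne] with a ha
    rcases lt_or_gt_of_ne ha with hneg | hpos
    · rw [Set.indicator_of_notMem (by simpa using hneg.le)]
      have hmem : Set.Ioo (0:ℝ) (-a) ∈ 𝓝[>] (0:ℝ) := Ioo_mem_nhdsGT (by linarith)
      refine tendsto_const_nhds.congr' ?_
      filter_upwards [hmem] with ε hε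
      rw [mom_tent_zero k ε hε.1 a (by linarith [hε.2])]
      simp
    · rw [Set.indicator_of_mem (Set.mem_Ioi.mpr hpos)]
      exact ((mom_tent_tendsto k a hpos).mul (mom_tent_tendsto l a hpos)).const_mul _

end Pool.Agent.Helper12.MVP
end

/- Helper52.MVD.WickP -/
section
/-!
Project MV, block D1, module D1-2: Wick's theorem, with pairings as fixed point free involutions.

Proof. Induction on `Fintype.card H` (over all types `H`). `H` empty: one involution, empty product
over `Cyc τ`, `E 1 = 1`. `H` nonempty: fix `h₀`. `∏_h X (x h) = X (x h₀) * ∏_{h ≠ h₀} X (x h)`, and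
`∂_b ∏_{h ≠ h₀} X (x h) = ∑_{h₁ ≠ h₀} [x h₁ = b] ∏_{h ≠ h₀, h₁} X (x h)` (derivation of a product), so
`E (∏_h X (x h)) = ∑_{h₁ ≠ h₀} C (x h₀) (x h₁) E (∏_{h ∈ H'} X (x h))`, `H' = {h // h ≠ h₀ ∧ h ≠ h₁}`.
Pairings `τ` of `H` with `τ h₀ = h₁` correspond to the pairings `τ'` of `H'` (restriction,
e.g. `Equiv.Perm.subtypePerm`, inverse: `τ'` extended by the transposition of `h₀, h₁`), and the
cycles of `τ` are `{h₀, h₁}` and the cycles of `τ'`. The product `∏_{e : Cyc τ} g e.rep`,
`g h = C (x h) (x (τ h))`, does not depend on the choice of the representatives because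
`g (τ h) = g h` (symmetry of `C`, `τ τ h = h`); so it is `C (x h₀) (x h₁)` times the same product
for `τ'`. (Any other proof is fine, e.g. through `∏_{e : Cyc τ} g e.rep` = product over the
2-element sets `{h, τ h}`.)
-/

namespace Pool.Agent.Helper52.MVD

open Finset Pool.Agent.Helper60.MV

/-- sum over all pairings of `H` of the product over the pairs -/
noncomputable def wsum {F H : Type} [Field F] [Fintype H] (c : H → H → F) : F := by
  classical
  exact ∑ τ ∈ univ.filter (fun τ : Equiv.Perm H => IsPairing τ),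
    ∏ e : Cyc τ, c e.rep (τ e.rep)

theorem wsum_def {F H : Type} [Field F] [Fintype H] [Fintype (Equiv.Perm H)]
    [DecidablePred (fun τ : Equiv.Perm H => IsPairing τ)] (c : H → H → F) :
    wsum c = ∑ τ ∈ (univ : Finset (Equiv.Perm H)).filter (fun τ => IsPairing τ),
      ∏ e : Cyc τ, c e.rep (τ e.rep) := by
  classical
  unfold wsum
  refine Finset.sum_congr ?_ (fun _ _ => rfl)
  ext τ
  simp only [Finset.mem_filter, Finset.mem_univ, true_and]

theorem pairing_sameCycle {H : Type} {τ : Equiv.Perm H} (hτ : IsPairing τ) {a b : H}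
    (h : τ.SameCycle a b) : b = a ∨ b = τ a := by
  obtain ⟨i, rfl⟩ := h
  have key : ∀ n : ℕ, (τ ^ n) a = a ∨ (τ ^ n) a = τ a := by
    intro n
    induction n with
    | zero => left; simp
    | succ n ih =>
      rw [pow_succ', Equiv.Perm.mul_apply]
      rcases ih with h | h
      · right; rw [h]
      · left; rw [h, hτ.invol]
  have hinv : τ⁻¹ = τ := by
    ext x
    rw [Equiv.Perm.inv_eq_iff_eq]
    exact (hτ.invol x).symm
  rcases Int.eq_nat_or_neg i with ⟨n, rfl | rfl⟩
  · simpa using key n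
  · rw [zpow_neg, zpow_natCast, ← inv_pow, hinv]
    exact key n

/-- the value of a pair -/
noncomputable def gval {F H : Type} (c : H → H → F) (hc : ∀ a b, c a b = c b a)
    {τ : Equiv.Perm H} (hτ : IsPairing τ) : Cyc τ → F :=
  Quotient.lift (fun h => c h (τ h)) (by
    intro a b hab
    have h : τ.SameCycle a b := hab
    rcases pairing_sameCycle hτ h with rfl | rfl
    · rfl
    · show c a (τ a) = c (τ a) (τ (τ a))
      rw [hτ.invol]
      exact hc _ _)

theorem gval_cyc {F H : Type} (c : H → H → F) (hc : ∀ a b, c a b = c b a)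
    {τ : Equiv.Perm H} (hτ : IsPairing τ) (h : H) : gval c hc hτ (cyc τ h) = c h (τ h) := rfl

theorem gval_rep {F H : Type} (c : H → H → F) (hc : ∀ a b, c a b = c b a)
    {τ : Equiv.Perm H} (hτ : IsPairing τ) (e : Cyc τ) : c e.rep (τ e.rep) = gval c hc hτ e := by
  conv_rhs => rw [← Quotient.out_eq e]
  rfl

section ext

variable {H : Type} [DecidableEq H]

/-- the rest of `H` -/
abbrev Rest (h₀ h₁ : H) : Type := {h : H // h ≠ h₀ ∧ h ≠ h₁}

/-- extension of a permutation of the rest -/
def extP (h₀ h₁ : H) (τ' : Equiv.Perm (Rest h₀ h₁)) : Equiv.Perm H :=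
  Equiv.swap h₀ h₁ * Equiv.Perm.ofSubtype τ'

theorem extP_left (h₀ h₁ : H) (τ' : Equiv.Perm (Rest h₀ h₁)) : extP h₀ h₁ τ' h₀ = h₁ := by
  unfold extP
  rw [Equiv.Perm.mul_apply, Equiv.Perm.ofSubtype_apply_of_not_mem _ (by simp)]
  simp

theorem extP_right (h₀ h₁ : H) (τ' : Equiv.Perm (Rest h₀ h₁)) : extP h₀ h₁ τ' h₁ = h₀ := by
  unfold extP
  rw [Equiv.Perm.mul_apply, Equiv.Perm.ofSubtype_apply_of_not_mem _ (by simp)]
  simp

theorem extP_coe (h₀ h₁ : H) (τ' : Equiv.Perm (Rest h₀ h₁)) (h : Rest h₀ h₁) :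
    extP h₀ h₁ τ' h = τ' h := by
  unfold extP
  rw [Equiv.Perm.mul_apply, Equiv.Perm.ofSubtype_apply_coe]
  exact Equiv.swap_apply_of_ne_of_ne (τ' h).2.1 (τ' h).2.2

theorem extP_pairing {h₀ h₁ : H} (hne : h₁ ≠ h₀) {τ' : Equiv.Perm (Rest h₀ h₁)}
    (hτ : IsPairing τ') : IsPairing (extP h₀ h₁ τ') := by
  constructor
  · intro h
    by_cases e0 : h = h₀
    · subst e0; rw [extP_left, extP_right]
    by_cases e1 : h = h₁
    · subst e1; rw [extP_right, extP_left]
    have := extP_coe h₀ h₁ τ' ⟨h, e0, e1⟩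
    simp only at this
    rw [this, extP_coe, hτ.invol]
  · intro h
    by_cases e0 : h = h₀
    · subst e0; rw [extP_left]; exact hne
    by_cases e1 : h = h₁
    · subst e1; rw [extP_right]; exact fun h => hne h.symm
    have := extP_coe h₀ h₁ τ' ⟨h, e0, e1⟩
    simp only at this
    rw [this]
    intro h2
    exact hτ.fpf ⟨h, e0, e1⟩ (Subtype.ext h2)

theorem cyc_eq_iff {H : Type} {τ : Equiv.Perm H} {a b : H} :
    cyc τ a = cyc τ b ↔ τ.SameCycle a b := by
  constructor
  · intro h; exact Quotient.exact h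
  · intro h; exact Quotient.sound h

theorem pairing_cyc {H : Type} {τ : Equiv.Perm H} (hτ : IsPairing τ) {a b : H} :
    cyc τ a = cyc τ b ↔ (b = a ∨ b = τ a) := by
  rw [cyc_eq_iff]
  constructor
  · exact pairing_sameCycle hτ
  · rintro (rfl | rfl)
    · exact Equiv.Perm.SameCycle.refl _ _
    · exact ⟨1, by simp⟩

/-- the map from cycles of the rest -/
def cmap (h₀ h₁ : H) {τ' : Equiv.Perm (Rest h₀ h₁)} (hne : h₁ ≠ h₀) (hτ : IsPairing τ') :
    Option (Cyc τ') → Cyc (extP h₀ h₁ τ')
  | none => cyc _ h₀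
  | some e => Quotient.lift (fun h : Rest h₀ h₁ => cyc (extP h₀ h₁ τ') (h : H)) (by
      intro a b hab
      have h : τ'.SameCycle a b := hab
      rw [pairing_cyc (extP_pairing hne hτ)]
      rcases pairing_sameCycle hτ h with rfl | rfl
      · left; rfl
      · right; rw [extP_coe]) e

theorem cmap_bij (h₀ h₁ : H) {τ' : Equiv.Perm (Rest h₀ h₁)} (hne : h₁ ≠ h₀)
    (hτ : IsPairing τ') : Function.Bijective (cmap h₀ h₁ hne hτ) := by
  have hp := extP_pairing hne hτ
  constructor
  · intro e f hef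
    cases e with
    | none =>
      cases f with
      | none => rfl
      | some f =>
        induction f using Quotient.inductionOn with
        | _ b =>
          exfalso
          have h : cyc (extP h₀ h₁ τ') h₀ = cyc (extP h₀ h₁ τ') (b : H) := hef
          rw [pairing_cyc hp, extP_left] at h
          rcases h with h | h
          · exact b.2.1 h
          · exact b.2.2 h
    | some e =>
      induction e using Quotient.inductionOn with
      | _ a =>
        cases f with
        | none =>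
          exfalso
          have h : cyc (extP h₀ h₁ τ') h₀ = cyc (extP h₀ h₁ τ') (a : H) := hef.symm
          rw [pairing_cyc hp, extP_left] at h
          rcases h with h | h
          · exact a.2.1 h
          · exact a.2.2 h
        | some f =>
          induction f using Quotient.inductionOn with
          | _ b =>
            have h : cyc (extP h₀ h₁ τ') (a : H) = cyc (extP h₀ h₁ τ') (b : H) := hef
            rw [pairing_cyc hp, extP_coe] at h
            congr 1
            show cyc τ' a = cyc τ' b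
            rw [pairing_cyc hτ]
            rcases h with h | h
            · left; exact Subtype.ext h
            · right; exact Subtype.ext h
  · intro e
    induction e using Quotient.inductionOn with
    | _ h =>
      by_cases e0 : h = h₀
      · exact ⟨none, by subst e0; rfl⟩
      by_cases e1 : h = h₁
      · refine ⟨none, ?_⟩
        show cyc (extP h₀ h₁ τ') h₀ = cyc (extP h₀ h₁ τ') h
        rw [pairing_cyc hp, extP_left]
        right; exact e1
      · exact ⟨some (cyc τ' ⟨h, e0, e1⟩), rfl⟩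

end ext

theorem prod_ext {F H : Type} [Field F] [Fintype H] [DecidableEq H] (c : H → H → F)
    (hc : ∀ a b, c a b = c b a) {h₀ h₁ : H} (hne : h₁ ≠ h₀) {τ' : Equiv.Perm (Rest h₀ h₁)}
    (hτ : IsPairing τ') :
    (∏ e : Cyc (extP h₀ h₁ τ'), c e.rep (extP h₀ h₁ τ' e.rep)) =
      c h₀ h₁ * ∏ e : Cyc τ', c e.rep (τ' e.rep) := by
  have hp := extP_pairing hne hτ
  have e1 : (∏ e : Cyc (extP h₀ h₁ τ'), c e.rep (extP h₀ h₁ τ' e.rep)) =
      ∏ e : Cyc (extP h₀ h₁ τ'), gval c hc hp e :=
    Finset.prod_congr rfl (fun e _ => gval_rep c hc hp e)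
  rw [e1, ← (Equiv.ofBijective _ (cmap_bij h₀ h₁ hne hτ)).prod_comp, Fintype.prod_option]
  congr 1
  · show c h₀ (extP h₀ h₁ τ' h₀) = _
    rw [extP_left]
  · refine Finset.prod_congr rfl (fun e _ => ?_)
    have hc' : ∀ a b : Rest h₀ h₁, (fun a b : Rest h₀ h₁ => c a b) a b =
        (fun a b : Rest h₀ h₁ => c a b) b a := fun a b => hc _ _
    rw [gval_rep (fun a b : Rest h₀ h₁ => c a b) hc' hτ e]
    induction e using Quotient.inductionOn with
    | _ a =>
      show c a (extP h₀ h₁ τ' a) = c a (τ' a)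
      rw [extP_coe]

theorem wsum_step {F H : Type} [Field F] [Fintype H] [DecidableEq H] (c : H → H → F)
    (hc : ∀ a b, c a b = c b a) (h₀ : H) :
    wsum c = ∑ h₁ ∈ univ.erase h₀, c h₀ h₁ * wsum (fun a b : Rest h₀ h₁ => c a b) := by
  classical
  have e1 : (∑ τ ∈ univ.filter (fun τ : Equiv.Perm H => IsPairing τ),
      ∏ e : Cyc τ, c e.rep (τ e.rep)) = ∑ h₁ ∈ univ.erase h₀,
        ∑ τ ∈ (univ.filter (fun τ : Equiv.Perm H => IsPairing τ)).filter (fun τ => τ h₀ = h₁),
          ∏ e : Cyc τ, c e.rep (τ e.rep) := by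
    rw [Finset.sum_fiberwise_of_maps_to]
    intro τ hτ
    rw [Finset.mem_filter] at hτ
    rw [Finset.mem_erase]
    exact ⟨hτ.2.fpf h₀, Finset.mem_univ _⟩
  have e2 : (∑ τ ∈ univ.filter (fun τ : Equiv.Perm H => IsPairing τ),
      ∏ e : Cyc τ, c e.rep (τ e.rep)) = ∑ h₁ ∈ univ.erase h₀,
        c h₀ h₁ * ∑ τ' ∈ univ.filter (fun τ' : Equiv.Perm (Rest h₀ h₁) => IsPairing τ'),
          ∏ e : Cyc τ', c e.rep (τ' e.rep) := by
    rw [e1]
    refine Finset.sum_congr rfl (fun h₁ hh₁ => ?_)
    have hne : h₁ ≠ h₀ := (Finset.mem_erase.1 hh₁).1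
    rw [Finset.mul_sum]
    symm
    have hpres : ∀ τ : Equiv.Perm H, IsPairing τ → τ h₀ = h₁ →
        ∀ x, (x ≠ h₀ ∧ x ≠ h₁) ↔ (τ x ≠ h₀ ∧ τ x ≠ h₁) := by
      intro τ hτ h x
      have h' : τ h₁ = h₀ := by rw [← h, hτ.invol]
      constructor
      · rintro ⟨a, b⟩
        refine ⟨fun q => b ?_, fun q => a ?_⟩
        · rw [← hτ.invol x, q, h]
        · rw [← hτ.invol x, q, h']
      · rintro ⟨a, b⟩
        refine ⟨fun q => b ?_, fun q => a ?_⟩
        · rw [q, h]
        · rw [q, h']
    refine Finset.sum_bij' (fun τ' _ => extP h₀ h₁ τ')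
      (fun τ hτ => τ.subtypePerm (fun x => (hpres τ (Finset.mem_filter.1
        (Finset.mem_filter.1 hτ).1).2 (Finset.mem_filter.1 hτ).2 x).symm)) ?_ ?_ ?_ ?_ ?_
    · intro τ' hτ'
      rw [Finset.mem_filter] at hτ'
      rw [Finset.mem_filter, Finset.mem_filter]
      exact ⟨⟨Finset.mem_univ _, extP_pairing hne hτ'.2⟩, extP_left _ _ _⟩
    · intro τ hτ
      rw [Finset.mem_filter, Finset.mem_filter] at hτ
      rw [Finset.mem_filter]
      refine ⟨Finset.mem_univ _, ?_, ?_⟩
      · intro x
        apply Subtype.ext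
        simp only [Equiv.Perm.subtypePerm_apply]
        exact hτ.1.2.invol x
      · intro x hx
        have := congrArg Subtype.val hx
        simp only [Equiv.Perm.subtypePerm_apply] at this
        exact hτ.1.2.fpf x this
    · intro τ' hτ'
      ext x
      simp only [Equiv.Perm.subtypePerm_apply]
      exact extP_coe h₀ h₁ τ' x
    · intro τ hτ
      rw [Finset.mem_filter, Finset.mem_filter] at hτ
      ext x
      by_cases e0 : x = h₀
      · subst e0; rw [extP_left]; exact hτ.2.symm
      by_cases e1 : x = h₁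
      · subst e1; rw [extP_right, ← hτ.2, hτ.1.2.invol]
      · have := extP_coe h₀ h₁ (τ.subtypePerm (fun x => (hpres τ hτ.1.2 hτ.2 x).symm)) ⟨x, e0, e1⟩
        simp only [Equiv.Perm.subtypePerm_apply] at this
        exact this
    · intro τ' hτ'
      rw [Finset.mem_filter] at hτ'
      exact (prod_ext c hc hne hτ'.2).symm
  rw [wsum_def, e2]
  refine Finset.sum_congr rfl (fun h₁ _ => ?_)
  rw [wsum_def]

theorem deriv_prod {α F : Type} [Field F] [DecidableEq α] {H : Type} [DecidableEq H]
    (x : H → α) (b : α) (s : Finset H) :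
    MvPolynomial.pderiv b (∏ h ∈ s, (MvPolynomial.X (x h) : MvPolynomial α F)) =
      ∑ h₁ ∈ s, if x h₁ = b then ∏ h ∈ s.erase h₁, MvPolynomial.X (x h) else 0 := by
  induction s using Finset.induction_on with
  | empty => simp
  | insert a s ha ih =>
    rw [Finset.prod_insert ha, Derivation.leibniz, ih, Finset.sum_insert ha,
      Finset.erase_insert ha, MvPolynomial.pderiv_X, add_comm]
    congr 1
    · by_cases h : x a = b
      · subst h
        simp
      · rw [if_neg h, Pi.single_eq_of_ne h]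
        simp
    · rw [Finset.smul_sum]
      refine Finset.sum_congr rfl (fun h₁ hh₁ => ?_)
      have hne : a ≠ h₁ := fun h => ha (h ▸ hh₁)
      rw [Finset.erase_insert_of_ne hne]
      by_cases h : x h₁ = b
      · rw [if_pos h, if_pos h, Finset.prod_insert (fun h' => ha (Finset.mem_of_mem_erase h'))]
        rfl
      · rw [if_neg h, if_neg h, smul_zero]

theorem wick_prod {α F : Type} [Field F] [Fintype α] [DecidableEq α]
    (C : α → α → F) (hC : ∀ a b, C a b = C b a) (E : MvPolynomial α F →ₗ[F] F) (h1 : E 1 = 1)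
    (hE : ∀ a g, E (MvPolynomial.X a * g) = ∑ b, C a b * E (MvPolynomial.pderiv b g))
    {H : Type} [Fintype H] (x : H → α) :
    E (∏ h, MvPolynomial.X (x h)) = wsum (fun h h' => C (x h) (x h')) := by
  classical
  have main : ∀ n : ℕ, ∀ (H : Type) [Fintype H] (x : H → α), Fintype.card H = n →
      E (∏ h, MvPolynomial.X (x h)) = wsum (fun h h' => C (x h) (x h')) := by
    intro n
    induction n using Nat.strong_induction_on with
    | _ n ih =>
      intro H _ x hcard
      rcases isEmpty_or_nonempty H with hH | ⟨⟨h₀⟩⟩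
      · rw [Fintype.prod_empty, h1]
        rw [wsum_def]
        have hall : ∀ τ : Equiv.Perm H, (∏ e : Cyc τ,
            C (x e.rep) (x (τ e.rep))) = 1 := by
          intro τ
          have : IsEmpty (Cyc τ) := ⟨fun e => hH.elim e.rep⟩
          exact Fintype.prod_empty _
        rw [Finset.sum_congr rfl (fun τ _ => hall τ)]
        have huniv : (univ.filter (fun τ : Equiv.Perm H => IsPairing τ)) = {1} := by
          ext τ
          rw [Finset.mem_filter, Finset.mem_singleton]
          constructor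
          · intro _
            exact Subsingleton.elim _ _
          · intro _
            exact ⟨Finset.mem_univ _, fun h => hH.elim h, fun h => hH.elim h⟩
        rw [huniv]
        simp
      · rw [wsum_step (fun h h' => C (x h) (x h')) (fun a b => hC _ _) h₀]
        rw [← Finset.mul_prod_erase univ _ (Finset.mem_univ h₀), hE]
        have e1 : ∀ b, C (x h₀) b * E (MvPolynomial.pderiv b
            (∏ h ∈ univ.erase h₀, (MvPolynomial.X (x h) : MvPolynomial α F))) =
            ∑ h₁ ∈ univ.erase h₀, if x h₁ = b then C (x h₀) (x h₁) *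
              E (∏ h ∈ (univ.erase h₀).erase h₁, MvPolynomial.X (x h)) else 0 := by
          intro b
          rw [deriv_prod, map_sum, Finset.mul_sum]
          refine Finset.sum_congr rfl (fun h₁ _ => ?_)
          by_cases h : x h₁ = b
          · rw [if_pos h, if_pos h, h]
          · rw [if_neg h, if_neg h, map_zero, mul_zero]
        rw [Finset.sum_congr rfl (fun b _ => e1 b), Finset.sum_comm]
        refine Finset.sum_congr rfl (fun h₁ hh₁ => ?_)
        have hne : h₁ ≠ h₀ := (Finset.mem_erase.1 hh₁).1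
        rw [Finset.sum_ite_eq, if_pos (Finset.mem_univ _)]
        congr 1
        have e2 : (∏ h ∈ (univ.erase h₀).erase h₁, (MvPolynomial.X (x h) : MvPolynomial α F)) =
            ∏ h : Rest h₀ h₁, MvPolynomial.X (x h) := by
          refine (Finset.prod_subtype _ ?_ _)
          intro h
          rw [Finset.mem_erase, Finset.mem_erase]
          constructor
          · rintro ⟨a, b, _⟩; exact ⟨b, a⟩
          · rintro ⟨a, b⟩; exact ⟨b, a, Finset.mem_univ _⟩
        rw [e2]
        refine ih (Fintype.card (Rest h₀ h₁)) ?_ (Rest h₀ h₁) (fun h => x h) rfl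
        rw [← hcard]
        exact Fintype.card_subtype_lt (x := h₀) (by simp)
  exact main _ H x rfl

end Pool.Agent.Helper52.MVD
end

/- Helper52.MVD.TrProd -/
section
/-!
Project MV, block D1, module D1-3: `⟨∏ Tr X^{K_i}⟩ = PKF`.

Proof. `(M^k) i i` summed over `i` is `∑_{lab : Fin k → Fin N} ∏_j M (lab j) (lab (finRotate k j))` for
`k ≥ 1` (e.g. from `(M^k) i j = ∑` over paths by induction on `k`). Hence
`∏_i Tr X^{K_i} = ∑_{lab : HK K → Fin N} ∏_h X (lab h, lab (rot K h))` (`Finset.prod_univ_sum`,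
`Fintype.piFinset`, currying `HK K = Σ i, Fin (K i)`). Apply `E` (linear) and `wick_prod` with
`C (a,b) (c,d) = if d = a ∧ c = b then (s a + s b)⁻¹ else 0` (symmetric), `x h = (lab h, lab (rot h))`:
for fixed `τ`, `∏_{e} C (x e.rep) (x (τ e.rep))` is zero unless for all `e`, with `h = e.rep`:
`lab (rot (τ h)) = lab h` and `lab (τ h) = lab (rot h)`, i.e. the condition
`lab ((rot K * τ) h') = lab h'` for `h' = h` and `h' = τ h`, hence for all `h'` (each `h'` is `e.rep` or
`τ e.rep` for `e = cyc τ h'`); and then it is `∏_e 1 / (s (lab h) + s (lab (τ h)))`. Exchange the sums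
over `τ` and `lab`.
-/

namespace Pool.Agent.Helper52.MVD

open Finset Pool.Agent.Helper60.MV

/-- path expansion of the powers of a matrix -/
private theorem pow_path {N : ℕ} {R : Type} [CommRing R] (M : Matrix (Fin N) (Fin N) R) (k : ℕ) :
    ∀ a b : Fin N, (M ^ (k + 1)) a b = ∑ p : Fin k → Fin N,
      ∏ j : Fin (k + 1), M (@Fin.cons k (fun _ => Fin N) a p j)
        (@Fin.snoc k (fun _ => Fin N) p b j) := by
  induction k with
  | zero =>
    intro a b
    simp [Fin.snoc]
  | succ k ih =>
    intro a b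
    rw [pow_succ', Matrix.mul_apply, ← (Fin.consEquiv (fun _ => Fin N)).sum_comp,
      Fintype.sum_prod_type]
    refine Finset.sum_congr rfl fun c _ => ?_
    rw [ih c b, Finset.mul_sum]
    refine Finset.sum_congr rfl fun p _ => ?_
    rw [Fin.prod_univ_succ (n := k + 1)]
    have h1 : @Fin.snoc (k + 1) (fun _ => Fin N) (@Fin.cons k (fun _ => Fin N) c p) b
        = @Fin.cons (k + 1) (fun _ => Fin N) c (@Fin.snoc k (fun _ => Fin N) p b) :=
      (Fin.cons_snoc_eq_snoc_cons c p b).symm
    have h2 : (Fin.consEquiv (fun _ => Fin N)) (c, p) = @Fin.cons k (fun _ => Fin N) c p := rfl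
    rw [h2, h1]
    simp only [Fin.cons_zero, Fin.cons_succ]

/-- trace of a power -/
private theorem trace_path {N : ℕ} {R : Type} [CommRing R] (M : Matrix (Fin N) (Fin N) R) (k : ℕ)
    (hk : 1 ≤ k) : ∑ i, (M ^ k) i i = ∑ lab : Fin k → Fin N,
      ∏ j : Fin k, M (lab j) (lab (finRotate k j)) := by
  obtain ⟨n, rfl⟩ : ∃ n, k = n + 1 := ⟨k - 1, by omega⟩
  rw [← (Fin.consEquiv (fun _ => Fin N)).sum_comp, Fintype.sum_prod_type]
  refine Finset.sum_congr rfl fun a _ => ?_
  rw [pow_path]
  refine Finset.sum_congr rfl fun p _ => ?_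
  refine Finset.prod_congr rfl fun j _ => ?_
  rw [Fin.snoc_eq_cons_rotate]
  rfl

/-- two elements of a cycle of a pairing -/
private theorem rep_or {H : Type} (τ : Equiv.Perm H) (hτ : IsPairing τ) (h : H) :
    h = (cyc τ h).rep ∨ h = τ (cyc τ h).rep := by
  have h1 : τ.SameCycle (cyc τ h).rep h := Quotient.mk_out (s := Equiv.Perm.SameCycle.setoid τ) h
  obtain ⟨i, hi⟩ := h1
  have h2 : τ ^ (2 : ℤ) = 1 := by
    ext x
    rw [zpow_ofNat, pow_two, Equiv.Perm.mul_apply, hτ.invol, Equiv.Perm.one_apply]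
  rcases Int.even_or_odd' i with ⟨m, hm | hm⟩
  · left
    rw [hm, zpow_mul, h2, one_zpow, Equiv.Perm.one_apply] at hi
    exact hi.symm
  · right
    rw [hm, zpow_add, zpow_mul, h2, one_zpow, one_mul, zpow_one] at hi
    exact hi.symm

theorem E_prod_pt {N : ℕ} {F : Type} [Field F] (s : Fin N → F) (E : MX N F →ₗ[F] F)
    (hE : IsMat s E) {ρ : Type} [Fintype ρ] (K : ρ → ℕ) (hK : ∀ i, 1 ≤ K i) :
    E (∏ i, pt N F (K i)) = PKF K N s := by
  classical
  -- the covariance
  let C : Fin N × Fin N → Fin N × Fin N → F := fun p q =>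
    if q.2 = p.1 ∧ q.1 = p.2 then (s p.1 + s p.2)⁻¹ else 0
  have hCdef : ∀ p q, C p q = if q.2 = p.1 ∧ q.1 = p.2 then (s p.1 + s p.2)⁻¹ else 0 :=
    fun p q => rfl
  have hC : ∀ a b, C a b = C b a := by
    rintro ⟨a, b⟩ ⟨c, d⟩
    rw [hCdef, hCdef]
    by_cases h : d = a ∧ c = b
    · obtain ⟨h1, h2⟩ := h
      subst h1 h2
      simp [add_comm]
    · rw [if_neg h, if_neg]
      rintro ⟨h1, h2⟩
      exact h ⟨h2.symm, h1.symm⟩
  have hEC : ∀ a g, E (MvPolynomial.X a * g) = ∑ b, C a b * E (MvPolynomial.pderiv b g) := by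
    rintro ⟨i, j⟩ g
    rw [hE.step i j g, Finset.sum_eq_single (j, i)]
    · rw [hCdef, if_pos ⟨rfl, rfl⟩]
    · rintro ⟨c, d⟩ _ hne
      rw [hCdef, if_neg, zero_mul]
      rintro ⟨h1, h2⟩
      apply hne
      simp only at h1 h2
      rw [h1, h2]
    · intro h
      exact absurd (Finset.mem_univ _) h
  -- expansion of the product of the traces
  have hprod : ∏ i, pt N F (K i) = ∑ lab : HK K → Fin N,
      ∏ h : HK K, (MvPolynomial.X (lab h, lab (rot K h)) : MX N F) := by
    have h1 : ∀ i, pt N F (K i) = ∑ lab : Fin (K i) → Fin N,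
        ∏ j : Fin (K i), (MvPolynomial.X (lab j, lab (finRotate (K i) j)) : MX N F) := by
      intro i
      unfold pt
      rw [trace_path _ _ (hK i)]
      rfl
    simp only [h1]
    rw [Finset.prod_univ_sum, Fintype.piFinset_univ]
    rw [← (Equiv.piCurry (fun (i : ρ) (_ : Fin (K i)) => Fin N)).sum_comp]
    refine Finset.sum_congr rfl fun lab _ => ?_
    rw [Fintype.prod_sigma]
    rfl
  rw [hprod, map_sum]
  -- Wick
  have hw : ∀ lab : HK K → Fin N,
      E (∏ h : HK K, (MvPolynomial.X (lab h, lab (rot K h)) : MX N F)) =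
      ∑ τ : Equiv.Perm (HK K), if IsPairing τ then
        (if (∀ h, lab ((rot K * τ) h) = lab h) then
          ∏ e : Cyc τ, 1 / (s (lab e.rep) + s (lab (τ e.rep))) else 0) else 0 := by
    intro lab
    rw [wick_prod C hC E hE.one hEC (fun h : HK K => (lab h, lab (rot K h)))]
    unfold wsum
    rw [Finset.sum_filter]
    refine Finset.sum_congr (by ext; simp) fun τ _ => ?_
    by_cases hτ : IsPairing τ
    · rw [if_pos hτ, if_pos hτ]
      by_cases hc : ∀ h, lab ((rot K * τ) h) = lab h
      · rw [if_pos hc]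
        refine Finset.prod_congr rfl fun e _ => ?_
        have h1 : lab (rot K (τ e.rep)) = lab e.rep := hc e.rep
        have h2 : lab (rot K e.rep) = lab (τ e.rep) := by
          have := hc (τ e.rep)
          rw [Equiv.Perm.mul_apply, hτ.invol] at this
          exact this
        change C (lab e.rep, lab (rot K e.rep)) (lab (τ e.rep), lab (rot K (τ e.rep))) = _
        rw [hCdef, if_pos ⟨h1, h2.symm⟩, one_div]
        simp only [h2]
      · rw [if_neg hc]
        push Not at hc
        obtain ⟨h', hh'⟩ := hc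
        refine Finset.prod_eq_zero (Finset.mem_univ (cyc τ h')) ?_
        change C (lab (cyc τ h').rep, lab (rot K (cyc τ h').rep))
          (lab (τ (cyc τ h').rep), lab (rot K (τ (cyc τ h').rep))) = 0
        rw [hCdef, if_neg]
        rintro ⟨h1, h2⟩
        simp only at h1 h2
        apply hh'
        rcases rep_or τ hτ h' with h3 | h3
        · rw [← h3] at h1
          exact h1
        · have h4 : τ h' = (cyc τ h').rep := by
            conv_lhs => rw [h3]
            rw [hτ.invol]
          rw [Equiv.Perm.mul_apply, h4, ← h2, ← h3]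
    · rw [if_neg hτ, if_neg hτ]
  rw [Finset.sum_congr rfl (fun lab _ => hw lab), Finset.sum_comm]
  unfold PKF
  rw [Finset.sum_filter]
  refine Finset.sum_congr (by ext; simp) fun τ _ => ?_
  by_cases hτ : IsPairing τ
  · simp only [if_pos hτ]
    rw [Finset.sum_filter]
  · simp only [if_neg hτ, Finset.sum_const_zero]

end Pool.Agent.Helper52.MVD
end
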