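import Pool.Agent.Helper16.LGG.G06
import Pool.Agent.Helper16.LGG.G07
import Pool.Agent.Helper16.LGG.G10
import Pool.Agent.Helper16.LGG.G11

/- Helper91.MVC.Inj -/
section
/-!
MV-C1-13. A configuration is determined by the two pieces.

`R`, `R'` on `(H, σ)` with leaves `μ`, `μ'` of the same support `A` at the same leg `x` and the same `y = R.τ x = R'.τ x`, both cut along the same embeddings
into the same `T` and `R₁`. The ranges of `jT`, `j₁` cover `H` and `R.τ (jT p) = jT (T.τ p) = R'.τ (jT p)`, the same for `j₁`: so `R.τ = R'.τ`. For `conf_ext` we must show that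
`R.β (R.face a) = R.face b ↔ R'.β (R'.face a) = R'.face b`. Replacing `x` by `σ y` (`face_phi`: `R.face (σ (R.τ x)) = R.face x`, the same in `R'`; `σ y ∉ A ∪ {x}`, it is `j₁ (σ₁ z₁)`)
we may assume `a, b ≠ x`. If `a ∈ A`, `b ∉ A` or conversely both sides are false (`IsLeaf.beta`: `μ b = - μ a`). Both in `A`: `a = jT p`, `b = jT q`, `p, q ≠ xT`, both sides are
equivalent to `T.β (T.face p) = T.face q` (`Pull.beta`, `gT_of_ne`). Both outside: `a = j₁ p`, `b = j₁ q`, `Pull.beta` for `R₁`.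
-/

namespace Pool.Agent.Helper91.MVC

open Finset Pool.Agent.Helper60.MV

variable {H HT H₁ : Type} {σ : Equiv.Perm H}

theorem cut_inj {R R' : Conf σ} {x : H} {μ μ' : H → ℤ} {A : H → Prop}
    {σT : Equiv.Perm HT} {jT : HT → H} {xT yT : HT} {σ₁ : Equiv.Perm H₁} {j₁ : H₁ → H} {z₁ : H₁}
    (hC : Cut R x μ A σT jT xT yT σ₁ j₁ z₁) (hC' : Cut R' x μ' A σT jT xT yT σ₁ j₁ z₁)
    {T : Conf σT} {R₁ : Conf σ₁}
    (hT : Pull T R jT (gT R x jT xT)) (h₁ : Pull R₁ R j₁ (fun p => R.face (j₁ p)))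
    (hT' : Pull T R' jT (gT R' x jT xT)) (h₁' : Pull R₁ R' j₁ (fun p => R'.face (j₁ p))) :
    R = R' := by
  have hτ : ∀ h, R.τ h = R'.τ h := by
    intro h
    by_cases hh : h = x ∨ A h
    · obtain ⟨p, rfl⟩ := (hC.eT.range h).2 hh
      rw [← hT.tau p, ← hT'.tau p]
    · obtain ⟨p, rfl⟩ := (hC.e₁.range h).2 hh
      rw [← h₁.tau p, ← h₁'.tau p]
  apply conf_ext hτ
  -- both sides away from `x`
  have main : ∀ a b : H, a ≠ x → b ≠ x →
      (R.β (R.face a) = R.face b ↔ R'.β (R'.face a) = R'.face b) := by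
    intro a b ha hb
    by_cases hAa : A a
    · by_cases hAb : A b
      · obtain ⟨p, rfl⟩ := (hC.eT.range a).2 (Or.inr hAa)
        obtain ⟨q, rfl⟩ := (hC.eT.range b).2 (Or.inr hAb)
        have hp : p ≠ xT := by
          rintro rfl
          exact ha hC.eT.hx
        have hq : q ≠ xT := by
          rintro rfl
          exact hb hC.eT.hx
        have e1 := hT.beta p q
        have e2 := hT'.beta p q
        rw [gT_of_ne R x jT xT p hp, gT_of_ne R x jT xT q hq] at e1
        rw [gT_of_ne R' x jT xT p hp, gT_of_ne R' x jT xT q hq] at e2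
        exact e1.symm.trans e2
      · constructor
        · intro h
          exfalso
          have h3 := hC.leaf.beta a b h
          apply hAb
          rw [hC.hA b, h3]
          exact neg_ne_zero.2 ((hC.hA a).1 hAa)
        · intro h
          exfalso
          have h3 := hC'.leaf.beta a b h
          apply hAb
          rw [hC'.hA b, h3]
          exact neg_ne_zero.2 ((hC'.hA a).1 hAa)
    · by_cases hAb : A b
      · constructor
        · intro h
          exfalso
          have h3 := hC.leaf.beta a b h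
          apply hAa
          rw [hC.hA a]
          intro h0
          rw [h0, neg_zero] at h3
          exact (hC.hA b).1 hAb h3
        · intro h
          exfalso
          have h3 := hC'.leaf.beta a b h
          apply hAa
          rw [hC'.hA a]
          intro h0
          rw [h0, neg_zero] at h3
          exact (hC'.hA b).1 hAb h3
      · have na : ¬ (a = x ∨ A a) := fun h => h.elim ha hAa
        have nb : ¬ (b = x ∨ A b) := fun h => h.elim hb hAb
        obtain ⟨p, rfl⟩ := (hC.e₁.range a).2 na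
        obtain ⟨q, rfl⟩ := (hC.e₁.range b).2 nb
        exact (h₁.beta p q).symm.trans (h₁'.beta p q)
  -- `σ (τ x)` is in the face of `x`
  have hw : σ (R.τ x) ≠ x := by
    have h3 := (hC.e₁.range (σ (R.τ x))).1 ⟨σ₁ z₁, hC.e₁.last⟩
    exact fun h => h3 (Or.inl h)
  have rep : ∀ a : H, ∃ a' : H, a' ≠ x ∧ R.face a' = R.face a ∧ R'.face a' = R'.face a := by
    intro a
    by_cases ha : a = x
    · subst ha
      refine ⟨σ (R.τ a), hw, face_phi R a, ?_⟩
      rw [hτ a]
      exact face_phi R' a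
    · exact ⟨a, ha, rfl, rfl⟩
  intro a b
  obtain ⟨a', ha', h1, h2⟩ := rep a
  obtain ⟨b', hb', h3, h4⟩ := rep b
  rw [← h1, ← h2, ← h3, ← h4]
  exact main a' b' ha' hb'

end Pool.Agent.Helper91.MVC
end

/- Helper91.MVC.Struct -/
section
/-!
MV-C1-1. Structure of leaves.

`alt_zero`: along the `σ`-cycle of `h`, of odd length `n = minimalPeriod σ h`, `μ` changes sign at each step, so
`μ h = μ (σ^n h) = (-1)^n μ h = - μ h`, hence `μ h = 0` (characteristic 0, domain).

`leaf_struct`. Write `y = R.τ x`. From `face` and `face_tau_eq`: `μ (σ h) = μ (R.τ h)` for all `h`. So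
 (1) `μ (σ h) = - μ h` for `h ≠ x, y`;  `μ (σ x) = μ y = 1`;  `μ (σ y) = μ x = 0` (`R.τ y = x`).
Let `n = minimalPeriod σ x` (odd, so positive). Consider the sequence `v k = μ (σ^(k+1) x)`, `v 0 = 1`. Let `a` be the least `k ≥ 1`
with `σ^k x = y` or `σ^k x = x` (exists: `k = n`). For `k < a`, `k ≥ 1`, `σ^k x ≠ x, y`, so by (1) `v k = (-1)^k` for `k < a`.
If `σ^a x = x`: then `v (a-1) = μ x = 0`, but `v (a-1) = (-1)^(a-1) ≠ 0`. So `σ^a x = y`, `a < n` (`y ≠ x`), and
`1 = μ y = v (a-1) = (-1)^(a-1)`, so `a` is odd (`char 0`). After `y`: `v a = μ (σ y) = 0` and by (1) `v k = 0` for `a ≤ k ≤ n-1`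
(the points `σ^k x`, `a < k < n`, are different from `x` and `y` because `k < n`).
So on the cycle of `x` the support is `{σ^(k+1) x : k < a}`. If `h` is not in the cycle of `x` (then it is not in the cycle of `y` either),
all `σ^k h ≠ x, y`, so `μ h = 0` by `alt_zero`.
`a ≠ 1`: otherwise `σ x = y` and the support is `{y}`; take `h'` with `R.β (R.face y) = R.face h'`: `μ h' = -1 ≠ 0`, so `h' = y`, `μ y = 1 = -1`,
false. So `a = 2 m + 1` with `m ≥ 1`. `a < n`, both odd, so `a + 1 = 2 m + 2 < n` (`a + 1` is even and `n` is odd, `a + 1 ≤ n`).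
-/

namespace Pool.Agent.Helper91.MVC

open Finset Pool.Agent.Helper60.MV

variable {H : Type} {σ : Equiv.Perm H}

theorem alt_zero {α : Type} [CommRing α] [IsDomain α] [CharZero α] {h : H}
    (hodd : Odd (Function.minimalPeriod σ h)) (μ : H → α)
    (hμ : ∀ k : ℕ, μ (σ ((σ ^ k) h)) = - μ ((σ ^ k) h)) : μ h = 0 := by
  have h1 : ∀ k : ℕ, μ ((σ ^ k) h) = (-1) ^ k * μ h := by
    intro k
    induction k with
    | zero => simp
    | succ k ih =>
      rw [pow_succ', Equiv.Perm.mul_apply, hμ, ih, pow_succ]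
      ring
  have h2 : (σ ^ (Function.minimalPeriod σ h)) h = h := by
    rw [← Equiv.Perm.iterate_eq_pow]
    exact Function.iterate_minimalPeriod
  have h3 := h1 (Function.minimalPeriod σ h)
  rw [h2, hodd.neg_one_pow] at h3
  have h4 : (2 : α) * μ h = 0 := by linear_combination h3
  rcases mul_eq_zero.1 h4 with h5 | h5
  · exact absurd h5 two_ne_zero
  · exact h5

theorem leaf_struct {α : Type} [CommRing α] [IsDomain α] [CharZero α] (R : Conf σ)
    (hσ : AllOdd σ) {x : H} {μ : H → α} (hl : LeafOn R x μ) :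
    ∃ m : ℕ, 1 ≤ m ∧ 2 * m + 2 < Function.minimalPeriod σ x ∧ (σ ^ (2 * m + 1)) x = R.τ x ∧
      (∀ h, μ h ≠ 0 ↔ ∃ k, k < 2 * m + 1 ∧ h = (σ ^ (k + 1)) x) ∧
      ∀ k, k < 2 * m + 1 → μ ((σ ^ (k + 1)) x) = (-1) ^ k := by
  classical
  have step : ∀ h, μ (σ h) = μ (R.τ h) := fun h => hl.face _ _ (face_tau_eq R h).symm
  have hyx : R.τ x ≠ x := R.hτ.fpf x
  have s1 : ∀ h, h ≠ x → h ≠ R.τ x → μ (σ h) = - μ h := by
    intro h h1 h2
    rw [step, hl.tau h h1 h2]
  have sx : μ (σ x) = 1 := by rw [step, hl.one]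
  have sy : μ (σ (R.τ x)) = 0 := by rw [step, R.hτ.invol, hl.zero]
  set n := Function.minimalPeriod σ x with hn
  have hnodd : Odd n := hσ x
  have hnpos : 0 < n := hnodd.pos
  have hnx : (σ ^ n) x = x := by
    rw [← Equiv.Perm.iterate_eq_pow]
    exact Function.iterate_minimalPeriod
  have succ_ap : ∀ (k : ℕ) (h : H), (σ ^ (k + 1)) h = σ ((σ ^ k) h) := by
    intro k h
    rw [pow_succ', Equiv.Perm.mul_apply]
  have hex : ∃ k, 1 ≤ k ∧ ((σ ^ k) x = R.τ x ∨ (σ ^ k) x = x) := ⟨n, hnpos, Or.inr hnx⟩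
  obtain ⟨a, ha1, ha2, ha3⟩ : ∃ a, 1 ≤ a ∧ ((σ ^ a) x = R.τ x ∨ (σ ^ a) x = x) ∧
      ∀ k, 1 ≤ k → ((σ ^ k) x = R.τ x ∨ (σ ^ k) x = x) → a ≤ k :=
    ⟨Nat.find hex, (Nat.find_spec hex).1, (Nat.find_spec hex).2,
      fun k h1 h2 => Nat.find_min' hex ⟨h1, h2⟩⟩
  have v1 : ∀ k, k < a → μ ((σ ^ (k + 1)) x) = (-1) ^ k := by
    intro k
    induction k with
    | zero =>
      intro _
      rw [succ_ap]
      simpa using sx
    | succ k ih =>
      intro hk
      have h1 := ih (by omega)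
      have h2 : (σ ^ (k + 1)) x ≠ x := fun h3 => by
        have := ha3 (k + 1) (by omega) (Or.inr h3)
        omega
      have h3 : (σ ^ (k + 1)) x ≠ R.τ x := fun h4 => by
        have := ha3 (k + 1) (by omega) (Or.inl h4)
        omega
      rw [succ_ap (k + 1), s1 _ h2 h3, h1, pow_succ]
      ring
  have hneg : ∀ k : ℕ, ((-1 : α)) ^ k ≠ 0 := fun k => pow_ne_zero k (neg_ne_zero.2 one_ne_zero)
  have hay : (σ ^ a) x = R.τ x := by
    rcases ha2 with h1 | h1
    · exact h1
    · exfalso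
      have h2 := v1 (a - 1) (by omega)
      have h3 : a - 1 + 1 = a := by omega
      rw [h3, h1, hl.zero] at h2
      exact hneg _ h2.symm
  have han : a < n := by
    have h1 : a ≤ n := ha3 n hnpos (Or.inr hnx)
    have h2 : a ≠ n := by
      intro h3
      rw [h3, hnx] at hay
      exact hyx hay.symm
    omega
  have haeven : Even (a - 1) := by
    by_contra h1
    rw [Nat.not_even_iff_odd] at h1
    have h2 := v1 (a - 1) (by omega)
    have h3 : a - 1 + 1 = a := by omega
    rw [h3, hay, hl.one, h1.neg_one_pow] at h2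
    have h4 : (2 : α) = 0 := by linear_combination h2
    exact two_ne_zero h4
  have hinj : ∀ i j : ℕ, i < n → j < n → (σ ^ i) x = (σ ^ j) x → i = j := by
    intro i j hi hj hij
    rw [← Equiv.Perm.iterate_eq_pow, ← Equiv.Perm.iterate_eq_pow] at hij
    exact Function.iterate_injOn_Iio_minimalPeriod (Set.mem_Iio.2 hi) (Set.mem_Iio.2 hj) hij
  have v0 : ∀ d, a + d < n → μ ((σ ^ (a + d + 1)) x) = 0 := by
    intro d
    induction d with
    | zero =>
      intro _
      rw [Nat.add_zero, succ_ap, hay, sy]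
    | succ d ih =>
      intro hd
      have h1 := ih (by omega)
      have h2 : (σ ^ (a + d + 1)) x ≠ x := fun h3 => by
        have := hinj (a + d + 1) 0 (by omega) hnpos (by simpa using h3)
        omega
      have h3 : (σ ^ (a + d + 1)) x ≠ R.τ x := fun h4 => by
        rw [← hay] at h4
        have := hinj (a + d + 1) a (by omega) han h4
        omega
      have h4 : a + (d + 1) + 1 = (a + d + 1) + 1 := by ring
      rw [h4, succ_ap (a + d + 1), s1 _ h2 h3, h1, neg_zero]
  have supp : ∀ h, μ h ≠ 0 → ∃ k, k < a ∧ h = (σ ^ (k + 1)) x := by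
    intro h hh
    by_cases hc : σ.SameCycle x h
    · obtain ⟨i, hi⟩ := hc
      have hn' : (n : ℤ) ≠ 0 := by exact_mod_cast hnpos.ne'
      obtain ⟨j, hj⟩ := Int.eq_ofNat_of_zero_le (Int.emod_nonneg i hn')
      have hjn : j < n := by
        have h1 : i % (n : ℤ) < n := Int.emod_lt_of_pos i (by exact_mod_cast hnpos)
        rw [hj] at h1
        exact_mod_cast h1
      have h2 : (σ ^ i) x = (σ ^ j) x := by
        have h3 : i = (j : ℤ) + (n : ℤ) * (i / n) := by
          have := Int.emod_add_mul_ediv i n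
          rw [hj] at this
          linarith
        have h4 : (((σ ^ n) ^ (i / (n : ℤ))) : Equiv.Perm H) x = x :=
          Equiv.Perm.zpow_apply_eq_self_of_apply_eq_self hnx _
        calc (σ ^ i) x = (σ ^ ((j : ℤ) + (n : ℤ) * (i / n))) x := by rw [← h3]
          _ = (σ ^ (j : ℤ)) ((σ ^ ((n : ℤ) * (i / n))) x) := by
            rw [zpow_add, Equiv.Perm.mul_apply]
          _ = (σ ^ (j : ℤ)) x := by
            have h5 : σ ^ ((n : ℤ) * (i / n)) = (σ ^ n) ^ (i / (n : ℤ)) := by
              rw [zpow_mul, zpow_natCast]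
            rw [h5, h4]
          _ = (σ ^ j) x := by rw [zpow_natCast]
      have h3 : h = (σ ^ j) x := by rw [← h2, hi]
      rcases Nat.eq_zero_or_pos j with hj0 | hj0
      · exfalso
        apply hh
        rw [h3, hj0]
        simpa using hl.zero
      · refine ⟨j - 1, ?_, ?_⟩
        · by_contra h4
          apply hh
          have h5 := v0 (j - 1 - a) (by omega)
          have h6 : a + (j - 1 - a) + 1 = j := by omega
          rw [h6] at h5
          rw [h3, h5]
        · rw [h3]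
          congr 2
          omega
    · exfalso
      apply hh
      refine alt_zero (hσ h) μ ?_
      intro k
      apply s1
      · intro h1
        apply hc
        rw [← h1]
        exact (Equiv.Perm.sameCycle_pow_left (n := k)).2 (Equiv.Perm.SameCycle.refl _ _)
      · intro h1
        apply hc
        have h2 : σ.SameCycle ((σ ^ k) h) ((σ ^ a) x) := by
          rw [h1, hay]
        rw [Equiv.Perm.sameCycle_pow_left, Equiv.Perm.sameCycle_pow_right] at h2
        exact h2.symm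
  obtain ⟨m, hm⟩ := haeven
  have ham : a = 2 * m + 1 := by omega
  subst ham
  have hm1 : 1 ≤ m := by
    by_contra h1
    have hm0 : m = 0 := by omega
    subst hm0
    have h1' : R.τ x = σ x := by
      rw [← hay]
      simp
    obtain ⟨h', hh'⟩ := face_surj R (R.β (R.face (R.τ x)))
    have h2 := hl.beta (R.τ x) h' hh'.symm
    rw [hl.one] at h2
    obtain ⟨k, hk, hk2⟩ := supp h' (by rw [h2]; exact neg_ne_zero.2 one_ne_zero)
    have hk0 : k = 0 := by omega
    rw [hk0] at hk2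
    have h3 : h' = R.τ x := by
      rw [hk2, h1']
      simp
    rw [h3, hl.one] at h2
    have h4 : (2 : α) = 0 := by linear_combination h2
    exact two_ne_zero h4
  refine ⟨m, hm1, ?_, hay, ?_, v1⟩
  · obtain ⟨r, hr⟩ := hnodd
    omega
  · intro h
    constructor
    · exact supp h
    · rintro ⟨k, hk, rfl⟩
      rw [v1 k hk]
      exact hneg k

end Pool.Agent.Helper91.MVC
end

/- Helper91.MVC.EmbK -/
section
/-!
MV-C1-9. The embeddings for `rot K`.

`rot_pow`: `(rot K ^ n) ⟨i, k⟩ = ⟨i, (k + n) mod K i⟩` (induction, `finRotate`: `rot K ⟨i, k⟩ = ⟨i, k+1⟩` or `⟨i, 0⟩` if `k + 1 = K i`).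
So with `x = ⟨i, k⟩` the elements `(rot K ^ n) x`, `n < K i`, are distinct and are all the `⟨i, _⟩`; `(rot K ^ (K i)) x = x`.
`embT_rot`: `jTK` sends `⟨false, 0⟩` to `x` and `⟨true, k⟩` to `σ^(k+1) x`, `k < 2 m + 1 < K i - 1`: injective; range `{x} ∪ AK`; `rot (leg m)` fixes `⟨false, 0⟩` (`Fin 1`),
sends `⟨true, 2 m⟩` to `⟨true, 0⟩` and `⟨true, k⟩` to `⟨true, k + 1⟩` for `k < 2 m`.
`emb1_rot`: `j₁K` sends `⟨i', k⟩`, `i' ≠ i`, to itself, and `⟨i, k⟩`, `k < K i - (2 m + 2)`, to `σ^(2 m + 2 + k) x`; the range is the complement of `{σ^n x : n < 2 m + 2}`;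
`z₁ = ⟨i, K i - (2 m + 3)⟩`: `j₁ z₁ = σ^(K i - 1) x`, `σ (j₁ z₁) = x`, `j₁ (rot z₁) = j₁ ⟨i, 0⟩ = σ^(2 m + 2) x = σ y`.
-/

namespace Pool.Agent.Helper91.MVC

open Finset Pool.Agent.Helper60.MV

private theorem frot (n : ℕ) (k : Fin n) : (finRotate n k : ℕ) = ((k : ℕ) + 1) % n := by
  cases n with
  | zero => exact k.elim0
  | succ n =>
    rw [coe_finRotate]
    split_ifs with h
    · subst h
      simp
    · have h1 : (k : ℕ) ≠ n := fun h2 => h (Fin.ext h2)
      have h3 := k.isLt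
      rw [Nat.mod_eq_of_lt (by omega)]

private theorem hk_ext {ρ : Type} {K : ρ → ℕ} {a b : HK K} (h1 : a.1 = b.1)
    (h2 : (a.2 : ℕ) = (b.2 : ℕ)) : a = b := by
  obtain ⟨i, k⟩ := a
  obtain ⟨j, l⟩ := b
  simp only at h1
  subst h1
  simp only at h2
  rw [Fin.ext h2]

private theorem rot_fst {ρ : Type} (K : ρ → ℕ) (a : HK K) : (rot K a).1 = a.1 := rfl

private theorem rot_snd {ρ : Type} (K : ρ → ℕ) (a : HK K) :
    ((rot K a).2 : ℕ) = ((a.2 : ℕ) + 1) % K a.1 := frot (K a.1) a.2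

private theorem rot_snd' {ρ : Type} (K : ρ → ℕ) (a : HK K) (L : ℕ) (hL : K a.1 = L) :
    ((rot K a).2 : ℕ) = ((a.2 : ℕ) + 1) % L := by
  subst hL
  exact rot_snd K a

private theorem rp_fst {ρ : Type} (K : ρ → ℕ) (n : ℕ) (a : HK K) : ((rot K ^ n) a).1 = a.1 := by
  induction n with
  | zero => rfl
  | succ n ih => rw [pow_succ', Equiv.Perm.mul_apply, rot_fst, ih]

private theorem rp_snd {ρ : Type} (K : ρ → ℕ) (n : ℕ) (a : HK K) :
    (((rot K ^ n) a).2 : ℕ) = ((a.2 : ℕ) + n) % K a.1 := by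
  induction n with
  | zero =>
    rw [pow_zero, Equiv.Perm.one_apply, Nat.add_zero, Nat.mod_eq_of_lt a.2.isLt]
  | succ n ih =>
    rw [pow_succ', Equiv.Perm.mul_apply, rot_snd, ih, rp_fst, Nat.mod_add_mod, Nat.add_assoc]

private theorem mod_inj {L k n n' : ℕ} (hn : n < L) (hn' : n' < L)
    (h : (k + n) % L = (k + n') % L) : n = n' := by
  have h1 : n ≡ n' [MOD L] := Nat.ModEq.add_left_cancel' k h
  rw [Nat.ModEq, Nat.mod_eq_of_lt hn, Nat.mod_eq_of_lt hn'] at h1
  exact h1

private theorem rp_inj {ρ : Type} (K : ρ → ℕ) (a : HK K) {n n' : ℕ} (hn : n < K a.1)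
    (hn' : n' < K a.1) (h : (rot K ^ n) a = (rot K ^ n') a) : n = n' := by
  have h1 : (((rot K ^ n) a).2 : ℕ) = (((rot K ^ n') a).2 : ℕ) := by rw [h]
  rw [rp_snd, rp_snd] at h1
  exact mod_inj hn hn' h1

private theorem rp_period {ρ : Type} (K : ρ → ℕ) (a : HK K) : (rot K ^ (K a.1)) a = a := by
  refine hk_ext (rp_fst K _ a) ?_
  rw [rp_snd, Nat.add_mod_right, Nat.mod_eq_of_lt a.2.isLt]

private theorem rp_surj {ρ : Type} (K : ρ → ℕ) (a b : HK K) (h : a.1 = b.1) :
    ∃ n, n < K a.1 ∧ (rot K ^ n) a = b := by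
  have hb : (b.2 : ℕ) < K a.1 := by rw [h]; exact b.2.isLt
  have ha := a.2.isLt
  refine ⟨((b.2 : ℕ) + (K a.1 - (a.2 : ℕ))) % K a.1, Nat.mod_lt _ (by omega), ?_⟩
  refine hk_ext ((rp_fst K _ a).trans h) ?_
  rw [rp_snd, Nat.add_mod_mod,
    show (a.2 : ℕ) + ((b.2 : ℕ) + (K a.1 - (a.2 : ℕ))) = (b.2 : ℕ) + K a.1 by omega,
    Nat.add_mod_right, Nat.mod_eq_of_lt hb]

theorem rot_pow {ρ : Type} (K : ρ → ℕ) (n : ℕ) (i : ρ) (k : Fin (K i)) :
    (rot K ^ n) ⟨i, k⟩ = ⟨i, ⟨((k : ℕ) + n) % K i, Nat.mod_lt _ k.pos⟩⟩ := by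
  exact hk_ext (rp_fst K n ⟨i, k⟩) (rp_snd K n ⟨i, k⟩)

theorem rot_period {ρ : Type} (K : ρ → ℕ) (h : HK K) :
    Function.minimalPeriod (rot K) h = K h.1 := by
  have hp : ∀ n, Function.IsPeriodicPt (rot K) n h ↔ (rot K ^ n) h = h := by
    intro n
    rw [Function.IsPeriodicPt, Function.IsFixedPt, ← Equiv.Perm.coe_pow]
  refine Nat.dvd_antisymm ?_ ?_
  · exact ((hp _).2 (rp_period K h)).minimalPeriod_dvd
  · have h1 := (hp _).1 (Function.isPeriodicPt_minimalPeriod (rot K) h)
    have h2 : (((rot K ^ (Function.minimalPeriod (rot K) h)) h).2 : ℕ) = (h.2 : ℕ) := by rw [h1]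
    rw [rp_snd] at h2
    have h3 : (h.2 : ℕ) + Function.minimalPeriod (rot K) h ≡ (h.2 : ℕ) + 0 [MOD K h.1] := by
      rw [Nat.ModEq, h2, Nat.add_zero, Nat.mod_eq_of_lt h.2.isLt]
    have h4 := Nat.ModEq.add_left_cancel' _ h3
    exact (Nat.modEq_zero_iff_dvd).1 h4

theorem rot_odd {ρ : Type} (K : ρ → ℕ) (hK : ∀ i, Odd (K i)) : AllOdd (rot K) := by
  intro h
  rw [rot_period]
  exact hK _

theorem rot_sameCycle {ρ : Type} (K : ρ → ℕ) (a b : HK K) : (rot K).SameCycle a b ↔ a.1 = b.1 := by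
  constructor
  · rintro ⟨z, hz⟩
    have hinv : ∀ c : HK K, ((rot K)⁻¹ c).1 = c.1 := by
      intro c
      have h0 : rot K ((rot K)⁻¹ c) = c := by
        rw [← Equiv.Perm.mul_apply, mul_inv_cancel, Equiv.Perm.one_apply]
      have h1 := rot_fst K ((rot K)⁻¹ c)
      rw [h0] at h1
      exact h1.symm
    have hall : ∀ (n : ℕ) (c : HK K), (((rot K)⁻¹ ^ n) c).1 = c.1 := by
      intro n
      induction n with
      | zero => intro c; rfl
      | succ n ih => intro c; rw [pow_succ', Equiv.Perm.mul_apply, hinv, ih]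
    rw [← hz]
    obtain ⟨n, rfl | rfl⟩ := z.eq_nat_or_neg
    · rw [zpow_natCast, rp_fst]
    · rw [zpow_neg, zpow_natCast, ← inv_pow, hall]
  · intro h
    obtain ⟨n, -, hn⟩ := rp_surj K a b h
    exact ⟨(n : ℤ), by rw [zpow_natCast, hn]⟩

theorem embT_rot {ρ : Type} (K : ρ → ℕ) (x : HK K) (m : ℕ) (hm : 2 * m + 2 < K x.1) :
    ∃ xT yT, EmbT (rot K) x ((rot K ^ (2 * m + 1)) x) (AK K x m) (rot (leg m)) (jTK K x m) xT yT := by
  have jt : ∀ s : Fin (leg m true), jTK K x m ⟨true, s⟩ = (rot K ^ ((s : ℕ) + 1)) x := by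
    intro s
    simp [jTK]
  have jf : ∀ s : Fin (leg m false), jTK K x m ⟨false, s⟩ = x := by
    intro s
    simp [jTK]
  have lt : leg m true = 2 * m + 1 := rfl
  have lf : leg m false = 1 := rfl
  have bT : ∀ s : Fin (leg m true), (s : ℕ) < 2 * m + 1 := fun s => s.isLt
  have bF : ∀ s : Fin (leg m false), (s : ℕ) < 1 := fun s => s.isLt
  have ne0 : ∀ s : ℕ, s < 2 * m + 1 → (rot K ^ (s + 1)) x ≠ x := by
    intro s hs h
    have h1 : (rot K ^ (s + 1)) x = (rot K ^ 0) x := by rw [h]; rfl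
    have := rp_inj K x (by omega) (by omega) h1
    omega
  refine ⟨⟨false, ⟨0, by rw [lf]; exact Nat.one_pos⟩⟩, ⟨true, ⟨2 * m, by rw [lt]; omega⟩⟩,
    ?_, ?_, ?_, ?_, ?_, ?_, ?_⟩
  · rintro ⟨b, s⟩ ⟨b', s'⟩ h
    cases b <;> cases b'
    · refine hk_ext rfl ?_
      have h1 := bF s
      have h2 := bF s'
      simp only
      omega
    · exfalso
      rw [jt, jf] at h
      exact ne0 _ (bT s') h.symm
    · exfalso
      rw [jt, jf] at h
      exact ne0 _ (bT s) h
    · rw [jt, jt] at h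
      have h1 := bT s
      have h2 := bT s'
      have := rp_inj K x (by omega) (by omega) h
      exact hk_ext rfl (by simp only; omega)
  · intro h
    constructor
    · rintro ⟨⟨b, s⟩, rfl⟩
      cases b
      · left; exact jf s
      · right
        exact ⟨(s : ℕ), bT s, jt s⟩
    · rintro (rfl | ⟨k, hk, rfl⟩)
      · exact ⟨⟨false, ⟨0, by rw [lf]; exact Nat.one_pos⟩⟩, jf _⟩
      · exact ⟨⟨true, ⟨k, by rw [lt]; exact hk⟩⟩, jt _⟩
  · exact jf _
  · exact jt _
  · refine hk_ext rfl ?_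
    rw [rot_snd]
    simp only [lf, Nat.mod_one]
  · have h1 : rot (leg m) ⟨true, ⟨2 * m, by rw [lt]; omega⟩⟩ =
        ⟨true, ⟨0, by rw [lt]; omega⟩⟩ := by
      refine hk_ext rfl ?_
      rw [rot_snd]
      simp only [lt, Nat.mod_self]
    rw [h1, jt]
    rfl
  · rintro ⟨b, s⟩ h1 h2
    cases b
    · exfalso
      apply h1
      refine hk_ext rfl ?_
      have := bF s
      simp only
      omega
    · have hs := bT s
      have hs2 : (s : ℕ) ≠ 2 * m := by
        intro h3
        apply h2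
        exact hk_ext rfl h3
      have hs3 : (s : ℕ) + 1 < 2 * m + 1 := by omega
      have h3 : rot (leg m) ⟨true, s⟩ = ⟨true, ⟨(s : ℕ) + 1, lt_of_lt_of_eq hs3 lt.symm⟩⟩ := by
        refine hk_ext rfl ?_
        rw [rot_snd' (leg m) ⟨true, s⟩ (2 * m + 1) lt]
        exact Nat.mod_eq_of_lt hs3
      rw [h3, jt, jt, pow_succ' (rot K) ((s : ℕ) + 1), Equiv.Perm.mul_apply]

theorem emb1_rot {ρ : Type} (K : ρ → ℕ) (x : HK K) (m : ℕ) (hm : 2 * m + 2 < K x.1) :
    ∃ z₁, Emb1 (rot K) x ((rot K ^ (2 * m + 1)) x) (AK K x m) (rot (red K x.1 m)) (j₁K K x m) z₁ := by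
  have re : red K x.1 m x.1 = K x.1 - (2 * m + 2) := by simp [red]
  have rn : ∀ i, i ≠ x.1 → red K x.1 m i = K i := by
    intro i hi
    simp [red, hi]
  have je : ∀ p : HK (red K x.1 m), p.1 = x.1 →
      j₁K K x m p = (rot K ^ (2 * m + 2 + (p.2 : ℕ))) x := by
    intro p hp
    simp [j₁K, hp]
  have jn1 : ∀ p : HK (red K x.1 m), p.1 ≠ x.1 → (j₁K K x m p).1 = p.1 := by
    intro p hp
    simp [j₁K, hp]
  have jn2 : ∀ p : HK (red K x.1 m), p.1 ≠ x.1 → ((j₁K K x m p).2 : ℕ) = (p.2 : ℕ) := by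
    intro p hp
    have : j₁K K x m p = ⟨p.1, ⟨(p.2 : ℕ), by
        have h1 := p.2.isLt
        have h2 := rn p.1 hp
        omega⟩⟩ := by
      rw [j₁K, dif_neg hp]
    rw [this]
  have pe : ∀ p : HK (red K x.1 m), p.1 = x.1 → (p.2 : ℕ) < K x.1 - (2 * m + 2) := by
    intro p hp
    exact lt_of_lt_of_eq p.2.isLt (by rw [hp, re])
  have jfst : ∀ p : HK (red K x.1 m), (j₁K K x m p).1 = p.1 := by
    intro p
    by_cases hp : p.1 = x.1
    · rw [je p hp, rp_fst, hp]
    · exact jn1 p hp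
  refine ⟨⟨x.1, ⟨K x.1 - (2 * m + 3), by rw [re]; omega⟩⟩, ?_, ?_, ?_, ?_, ?_⟩
  · intro p q h
    have h1 : p.1 = q.1 := by rw [← jfst p, ← jfst q, h]
    refine hk_ext h1 ?_
    by_cases hp : p.1 = x.1
    · have hq : q.1 = x.1 := h1 ▸ hp
      rw [je p hp, je q hq] at h
      have := pe p hp
      have := pe q hq
      have := rp_inj K x (by omega) (by omega) h
      omega
    · have hq : q.1 ≠ x.1 := h1 ▸ hp
      rw [← jn2 p hp, ← jn2 q hq, h]
  · intro h
    constructor
    · rintro ⟨p, rfl⟩ hx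
      have hfst : (j₁K K x m p).1 = x.1 := by
        rcases hx with hx | ⟨k, -, hx⟩
        · rw [hx]
        · rw [hx, rp_fst]
      have hp : p.1 = x.1 := by rw [← jfst p, hfst]
      have hpe := pe p hp
      rw [je p hp] at hx
      rcases hx with hx | ⟨k, hk, hx⟩
      · have h1 : (rot K ^ (2 * m + 2 + (p.2 : ℕ))) x = (rot K ^ 0) x := by rw [hx]; rfl
        have := rp_inj K x (by omega) (by omega) h1
        omega
      · have := rp_inj K x (by omega) (by omega) hx
        omega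
    · intro hx
      by_cases hh : h.1 = x.1
      · obtain ⟨n, hn, rfl⟩ := rp_surj K x h hh.symm
        have hn2 : 2 * m + 2 ≤ n := by
          by_contra hcon
          apply hx
          rcases Nat.eq_zero_or_pos n with h0 | h0
          · left; subst h0; rfl
          · right
            refine ⟨n - 1, by omega, ?_⟩
            rw [Nat.sub_add_cancel h0]
        refine ⟨⟨x.1, ⟨n - (2 * m + 2), by rw [re]; omega⟩⟩, ?_⟩
        rw [je _ rfl]
        simp only
        rw [Nat.add_sub_cancel' hn2]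
      · refine ⟨⟨h.1, ⟨(h.2 : ℕ), by rw [rn h.1 hh]; exact h.2.isLt⟩⟩, ?_⟩
        exact hk_ext (jn1 _ hh) (jn2 _ hh)
  · rw [je _ rfl, ← Equiv.Perm.mul_apply, ← pow_succ']
    simp only
    rw [show 2 * m + 2 + (K x.1 - (2 * m + 3)) + 1 = K x.1 by omega, rp_period]
  · have h1 : rot (red K x.1 m) ⟨x.1, ⟨K x.1 - (2 * m + 3), by rw [re]; omega⟩⟩ =
        ⟨x.1, ⟨0, by rw [re]; omega⟩⟩ := by
      refine hk_ext rfl ?_
      rw [rot_snd]
      simp only [re]
      rw [show K x.1 - (2 * m + 3) + 1 = K x.1 - (2 * m + 2) by omega, Nat.mod_self]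
    rw [h1, je _ rfl, ← Equiv.Perm.mul_apply, ← pow_succ']
    rfl
  · intro p hp
    by_cases hpx : p.1 = x.1
    · have hpe := pe p hpx
      have hne : (p.2 : ℕ) ≠ K x.1 - (2 * m + 3) := by
        intro h3
        exact hp (hk_ext hpx h3)
      have h4 : (rot (red K x.1 m) p).1 = x.1 := hpx
      have h5 : ((rot (red K x.1 m) p).2 : ℕ) = (p.2 : ℕ) + 1 := by
        rw [rot_snd' _ p (K x.1 - (2 * m + 2)) (by rw [hpx, re]), Nat.mod_eq_of_lt (by omega)]
      rw [je _ h4, je _ hpx, h5, ← Equiv.Perm.mul_apply, ← pow_succ']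
      rfl
    · have h4 : (rot (red K x.1 m) p).1 ≠ x.1 := hpx
      refine hk_ext ?_ ?_
      · rw [jn1 _ h4, rot_fst, rot_fst, jn1 _ hpx]
      · rw [jn2 _ h4, rot_snd' _ p (K p.1) (rn _ hpx), rot_snd' _ (j₁K K x m p) (K p.1)
          (by rw [jn1 _ hpx]), jn2 _ hpx]

end Pool.Agent.Helper91.MVC
end

/- Helper91.MVC.MaxL -/
section
/-!
MV-C1-14. Maximal leaves for `rot K`.

`leaf_card`: by `leaf_struct` (`leafOn_int`, `rot_odd`, `rot_period`) the support of a leaf `μ` at `x` is `{σ^(k+1) x : k < 2 m + 1}` with `1 ≤ m`, `2 m + 2 < K x.1`, these elements are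
distinct (`rot_pow`), so its cardinality is `2 m + 1`. The values are `(-1)^k`.
`exists_maxLeaf`: the cardinalities of supports of leaves are bounded by `card (HK K)`; take a leaf with the largest one.
`maxLeaf_data`: if `MaxLeaf R x m` then its leaf has support `AK K x m`, `R.τ x = σ^(2m+1) x` and values `±1`, and it is maximal.
-/

namespace Pool.Agent.Helper91.MVC

open Finset Pool.Agent.Helper60.MV

theorem leaf_card {ρ : Type} [Fintype ρ] (K : ρ → ℕ) (hK : ∀ i, Odd (K i)) (R : Conf (rot K))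
    {x : HK K} {μ : HK K → ℤ} (hl : R.IsLeaf x μ) :
    ∃ m, 1 ≤ m ∧ 2 * m + 2 < K x.1 ∧ Nat.card {h // μ h ≠ 0} = 2 * m + 1 ∧
      (∀ h, AK K x m h ↔ μ h ≠ 0) ∧ R.τ x = (rot K ^ (2 * m + 1)) x ∧
      ∀ h, μ h ≠ 0 → μ h = 1 ∨ μ h = -1 := by
  obtain ⟨m, hm1, hm2, htau, hsupp, hval⟩ := leaf_struct R (rot_odd K hK) (leafOn_int hl)
  have hper := rot_period K x
  rw [hper] at hm2
  refine ⟨m, hm1, hm2, ?_, fun h => (hsupp h).symm, htau.symm, ?_⟩
  · have hinj : ∀ a b : ℕ, a < K x.1 → b < K x.1 → (rot K ^ a) x = (rot K ^ b) x → a = b := by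
      intro a b ha hb hab
      refine Function.iterate_injOn_Iio_minimalPeriod (f := rot K) (x := x) ?_ ?_ ?_
      · rw [hper]; exact ha
      · rw [hper]; exact hb
      · simpa only [Equiv.Perm.iterate_eq_pow] using hab
    have hbij : Function.Bijective
        (fun k : Fin (2 * m + 1) => (⟨(rot K ^ ((k : ℕ) + 1)) x,
          (hsupp _).2 ⟨k, k.2, rfl⟩⟩ : {h // μ h ≠ 0})) := by
      constructor
      · intro a b hab
        have h1 := congrArg Subtype.val hab
        have h2 := hinj _ _ (by have := a.2; omega) (by have := b.2; omega) h1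
        exact Fin.ext (by omega)
      · rintro ⟨h, hh⟩
        obtain ⟨k, hk, rfl⟩ := (hsupp h).1 hh
        exact ⟨⟨k, hk⟩, rfl⟩
    rw [← Nat.card_congr (Equiv.ofBijective _ hbij), Nat.card_fin]
  · intro h hh
    obtain ⟨k, hk, rfl⟩ := (hsupp h).1 hh
    rw [hval k hk]
    exact neg_one_pow_eq_or ℤ k

theorem exists_maxLeaf {ρ : Type} [Fintype ρ] (K : ρ → ℕ) (hK : ∀ i, Odd (K i))
    (R : Conf (rot K)) (h : ∃ x μ, R.IsLeaf x μ) :
    ∃ (x : HK K) (m : ℕ), 1 ≤ m ∧ 2 * m + 2 < K x.1 ∧ MaxLeaf R x m := by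
  classical
  let S : Set ℕ := {n | ∃ (x : HK K) (μ : HK K → ℤ), R.IsLeaf x μ ∧ Nat.card {h // μ h ≠ 0} = n}
  have hne : S.Nonempty := by
    obtain ⟨x, μ, hl⟩ := h
    exact ⟨_, x, μ, hl, rfl⟩
  have hbd : BddAbove S := by
    refine ⟨Nat.card (HK K), ?_⟩
    rintro n ⟨x, μ, _, rfl⟩
    exact Nat.card_le_card_of_injective Subtype.val Subtype.val_injective
  obtain ⟨x, μ, hl, hc⟩ := Nat.sSup_mem hne hbd
  obtain ⟨m, hm1, hm2, hcard, _⟩ := leaf_card K hK R hl
  refine ⟨x, m, hm1, hm2, μ, hl, hcard, fun x' μ' hl' => ?_⟩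
  rw [← hcard, hc]
  exact le_csSup hbd ⟨x', μ', hl', rfl⟩

theorem maxLeaf_data {ρ : Type} [Fintype ρ] (K : ρ → ℕ) (hK : ∀ i, Odd (K i)) (R : Conf (rot K))
    {x : HK K} {m : ℕ} (h : MaxLeaf R x m) :
    ∃ μ : HK K → ℤ, R.IsLeaf x μ ∧ (∀ h, AK K x m h ↔ μ h ≠ 0) ∧
      R.τ x = (rot K ^ (2 * m + 1)) x ∧ (∀ h, μ h ≠ 0 → μ h = 1 ∨ μ h = -1) ∧
      ∀ (x' : HK K) (μ' : HK K → ℤ), R.IsLeaf x' μ' →
        Nat.card {h // μ' h ≠ 0} ≤ Nat.card {h // μ h ≠ 0} := by
  obtain ⟨μ, hl, hc, hmax⟩ := h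
  obtain ⟨m', _, _, hcard, hA, htau, hval⟩ := leaf_card K hK R hl
  have hmm : m' = m := by omega
  subst hmm
  exact ⟨μ, hl, hA, htau, hval, fun x' μ' hl' => by rw [hc]; exact hmax x' μ' hl'⟩

end Pool.Agent.Helper91.MVC
end

/- Helper91.MVC.Dich -/
section
/-!
MV-C1-2. Deletion of an edge: dichotomy.

`y = R.τ x`. As in `Struct`: `μ (σ h) = μ (R.τ h)` for all `h`; so `μ (σ h) = - μ h` for `h ≠ x, y`, `μ (σ x) = μ y`, `μ (σ y) = μ x`.
Case 0: `μ x + μ y = 0`. Then `μ (R.τ h) = - μ h` for all `h`, so `μ (σ h) = - μ h` for all `h`, and `alt_zero` gives `μ = 0`, false.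
Case 1: exactly one of `μ x`, `μ y` is zero. Say `μ x = 0`, `μ y ≠ 0`: `μ / μ y` is a `LeafOn R x` with values in `ℝ`; by `leaf_struct` its
values are `0, 1, -1`, so it is the cast of an integer function `μ'` (`μ' h = if μ h = μ y then 1 else if μ h = - μ y then -1 else 0`) which is a
leaf at `x`. If `μ y = 0`, `μ x ≠ 0`: the same with `x` and `y = R.τ x` exchanged (`R.τ y = x`).
Case 2: both nonzero, `μ x + μ y ≠ 0`. The support of `μ` is closed under `σ` (see the formulas), `R.τ` and under passing from `a` to `b` with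
`R.face b = R.β (R.face a)`; all three relations preserve `μ ≠ 0` in both directions, so by connectedness `μ h ≠ 0` for all `h`. A `σ`-cycle
containing neither `x` nor `y` would alternate, so `μ = 0` on it by `alt_zero`, false. So every `σ`-cycle contains `x` or `y`; by `h2` the
cycles of `x` and `y` are different (if `h`, `h'` are in different cycles, one is in the cycle of `x`, the other in that of `y`, and these differ).
In the cycle of `x`: `μ (σ x) = μ y`, then alternating back to `x = σ^n x`: `μ x = (-1)^(n-1) μ y = μ y` (`n` odd). So `μ x = μ y`, and along every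
cycle, hence everywhere, `μ h = ± μ x`. So `μ / μ x` has values `±1` and is `IsAA` at `x`.
-/

namespace Pool.Agent.Helper91.MVC

open Finset Pool.Agent.Helper60.MV

variable {H : Type} {σ : Equiv.Perm H}

private theorem st_eq (R : Conf σ) (μ : H → ℝ)
    (hface : ∀ h h', R.face h = R.face h' → μ h = μ h') (h : H) : μ (σ h) = μ (R.τ h) :=
  (hface _ _ (face_tau_eq R h)).symm

private theorem leaf_of (R : Conf σ) (hσ : AllOdd σ) (x : H) (μ : H → ℝ)
    (hface : ∀ h h', R.face h = R.face h' → μ h = μ h')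
    (hbeta : ∀ h h', R.β (R.face h) = R.face h' → μ h' = - μ h)
    (htau : ∀ h, h ≠ x → h ≠ R.τ x → μ (R.τ h) = - μ h)
    (h0 : μ x = 0) (h1 : μ (R.τ x) ≠ 0) : ∃ x' μ', R.IsLeaf x' μ' := by
  classical
  set c : ℝ := μ (R.τ x) with hc
  have hl : LeafOn R x (fun h => μ h / c) :=
    { face := fun a b hab => by rw [hface a b hab]
      beta := fun a b hab => by rw [hbeta a b hab, neg_div]
      tau := fun a ha hb => by rw [htau a ha hb, neg_div]
      zero := by rw [h0, zero_div]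
      one := by rw [← hc]; exact div_self h1 }
  obtain ⟨m, -, -, -, hsup, hval⟩ := leaf_struct R hσ hl
  have hvals : ∀ h, μ h / c = 0 ∨ μ h / c = 1 ∨ μ h / c = -1 := by
    intro h
    by_cases hh : μ h / c = 0
    · exact Or.inl hh
    · obtain ⟨k, hk, rfl⟩ := (hsup h).1 hh
      right
      have h3 := hval k hk
      rw [h3]
      exact neg_one_pow_eq_or ℝ k
  set μ' : H → ℤ := fun h => if μ h / c = 1 then 1 else if μ h / c = -1 then -1 else 0 with hμ'
  have hkey : ∀ h, ((μ' h : ℤ) : ℝ) = μ h / c := by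
    intro h
    have e : μ' h = if μ h / c = 1 then 1 else if μ h / c = -1 then -1 else 0 := rfl
    rw [e]
    rcases hvals h with h3 | h3 | h3
    · rw [h3]; norm_num
    · rw [h3]; norm_num
    · rw [h3]; norm_num
  refine ⟨x, μ', ?_, ?_, ?_, ?_, ?_⟩
  · intro a b hab
    have h3 : ((μ' a : ℤ) : ℝ) = ((μ' b : ℤ) : ℝ) := by rw [hkey, hkey, hface a b hab]
    exact_mod_cast h3
  · intro a b hab
    have h3 : ((μ' b : ℤ) : ℝ) = - ((μ' a : ℤ) : ℝ) := by rw [hkey, hkey, hbeta a b hab, neg_div]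
    exact_mod_cast h3
  · intro a ha hb
    have h3 : ((μ' (R.τ a) : ℤ) : ℝ) = - ((μ' a : ℤ) : ℝ) := by
      rw [hkey, hkey, htau a ha hb, neg_div]
    exact_mod_cast h3
  · have h3 : ((μ' x : ℤ) : ℝ) = 0 := by rw [hkey, h0, zero_div]
    exact_mod_cast h3
  · have h3 : ((μ' (R.τ x) : ℤ) : ℝ) = 1 := by rw [hkey, ← hc, div_self h1]
    exact_mod_cast h3

theorem dichotomy (R : Conf σ) (hσ : AllOdd σ) (hR : R.Conn)
    (h2 : ∃ h h' : H, ¬ σ.SameCycle h h') (x : H) (μ : H → ℝ) (hne : ∃ h, μ h ≠ 0)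
    (hface : ∀ h h', R.face h = R.face h' → μ h = μ h')
    (hbeta : ∀ h h', R.β (R.face h) = R.face h' → μ h' = - μ h)
    (htau : ∀ h, h ≠ x → h ≠ R.τ x → μ (R.τ h) = - μ h) :
    (∃ x' μ', R.IsLeaf x' μ') ∨ R.AA := by
  classical
  have hst := st_eq R μ hface
  by_cases hx : μ x = 0
  · by_cases hy : μ (R.τ x) = 0
    · -- case 0
      exfalso
      obtain ⟨h, hh⟩ := hne
      refine hh (alt_zero (hσ h) μ (fun k => ?_))
      generalize (σ ^ k) h = a
      rw [hst]
      by_cases ha : a = x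
      · rw [ha, hx, hy, neg_zero]
      by_cases hb : a = R.τ x
      · rw [hb, R.hτ.invol, hx, hy, neg_zero]
      exact htau a ha hb
    · exact Or.inl (leaf_of R hσ x μ hface hbeta htau hx hy)
  by_cases hy : μ (R.τ x) = 0
  · refine Or.inl (leaf_of R hσ (R.τ x) μ hface hbeta ?_ hy ?_)
    · intro h h3 h4
      rw [R.hτ.invol] at h4
      exact htau h h4 h3
    · rw [R.hτ.invol]; exact hx
  by_cases hxy : μ x + μ (R.τ x) = 0
  · exfalso
    obtain ⟨h, hh⟩ := hne
    refine hh (alt_zero (hσ h) μ (fun k => ?_))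
    generalize (σ ^ k) h = a
    rw [hst]
    by_cases ha : a = x
    · rw [ha]; linarith
    by_cases hb : a = R.τ x
    · rw [hb, R.hτ.invol]; linarith
    exact htau a ha hb
  -- case 2
  right
  have htz : ∀ a, μ a ≠ 0 ↔ μ (R.τ a) ≠ 0 := by
    intro a
    by_cases ha : a = x
    · rw [ha]; exact ⟨fun _ => hy, fun _ => hx⟩
    by_cases hb : a = R.τ x
    · rw [hb, R.hτ.invol]; exact ⟨fun _ => hx, fun _ => hy⟩
    rw [htau a ha hb, neg_ne_zero]
  have hall : ∀ a b : H, Relation.EqvGen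
      (fun a b => b = σ a ∨ b = R.τ a ∨ R.face b = R.β (R.face a)) a b → (μ a ≠ 0 ↔ μ b ≠ 0) := by
    intro a b hab
    induction hab with
    | rel a b h =>
      rcases h with rfl | rfl | h
      · rw [hst]; exact htz a
      · exact htz a
      · rw [hbeta a b h.symm, neg_ne_zero]
    | refl a => exact Iff.rfl
    | symm a b _ ih => exact ih.symm
    | trans a b c _ _ ih1 ih2 => exact ih1.trans ih2
  have hnz : ∀ h, μ h ≠ 0 := fun h => (hall x h (hR x h)).1 hx
  have hcyc : ∀ h, σ.SameCycle x h ∨ σ.SameCycle (R.τ x) h := by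
    intro h
    by_contra hcon
    push Not at hcon
    refine hnz h (alt_zero (hσ h) μ (fun k => ?_))
    have hsc : σ.SameCycle ((σ ^ k) h) h :=
      Equiv.Perm.sameCycle_pow_left.2 (Equiv.Perm.SameCycle.refl _ _)
    rw [hst]
    refine htau _ ?_ ?_
    · intro h3; rw [h3] at hsc; exact hcon.1 hsc
    · intro h3; rw [h3] at hsc; exact hcon.2 hsc
  have hdiff : ¬ σ.SameCycle x (R.τ x) := by
    intro h3
    obtain ⟨a, b, hab⟩ := h2
    have h4 : ∀ h, σ.SameCycle x h := by
      intro h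
      rcases hcyc h with h5 | h5
      · exact h5
      · exact h3.trans h5
    exact hab ((h4 a).symm.trans (h4 b))
  -- along the cycle of x
  have hn : Odd (Function.minimalPeriod σ x) := hσ x
  have halt : ∀ k, k < Function.minimalPeriod σ x →
      μ ((σ ^ (k + 1)) x) = (-1) ^ k * μ (R.τ x) := by
    intro k
    induction k with
    | zero => intro _; rw [zero_add, pow_one, hst, pow_zero, one_mul]
    | succ k ih =>
      intro hk
      rw [pow_succ' σ (k + 1), Equiv.Perm.mul_apply, hst, htau, ih (by omega), pow_succ]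
      · ring
      · intro h3
        refine Function.not_isPeriodicPt_of_pos_of_lt_minimalPeriod (Nat.succ_ne_zero k) hk ?_
        unfold Function.IsPeriodicPt Function.IsFixedPt
        rw [Equiv.Perm.iterate_eq_pow]
        exact h3
      · intro h3
        exact hdiff (h3 ▸ Equiv.Perm.sameCycle_pow_right.2 (Equiv.Perm.SameCycle.refl _ _))
  have hyx : μ (R.τ x) = μ x := by
    obtain ⟨m, hm⟩ := hn
    have h3 := halt (2 * m) (by omega)
    have h4 : (σ ^ (2 * m + 1)) x = x := by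
      rw [← hm, ← Equiv.Perm.iterate_eq_pow]
      exact Function.iterate_minimalPeriod
    rw [h4, pow_mul, neg_one_sq, one_pow, one_mul] at h3
    exact h3.symm
  have habs : ∀ h, |μ (σ h)| = |μ h| := by
    intro h
    rw [hst]
    by_cases ha : h = x
    · rw [ha, hyx]
    by_cases hb : h = R.τ x
    · rw [hb, R.hτ.invol, hyx]
    rw [htau h ha hb, abs_neg]
  have habs' : ∀ h, |μ h| = |μ x| := by
    intro h
    rcases hcyc h with h3 | h3
    · exact (inv_sameCycle (F := fun h => |μ h|) habs h3).symm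
    · have h4 := (inv_sameCycle (F := fun h => |μ h|) habs h3).symm
      rw [h4, hyx]
  have hvals : ∀ h, μ h / μ x = 1 ∨ μ h / μ x = -1 := by
    intro h
    rcases abs_eq_abs.1 (habs' h) with h3 | h3
    · left; rw [h3]; exact div_self hx
    · right; rw [h3, neg_div, div_self hx]
  set μ' : H → ℤ := fun h => if μ h / μ x = 1 then 1 else -1 with hμ'
  have hkey : ∀ h, ((μ' h : ℤ) : ℝ) = μ h / μ x := by
    intro h
    have e : μ' h = if μ h / μ x = 1 then 1 else -1 := rfl
    rw [e]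
    rcases hvals h with h3 | h3
    · rw [h3]; norm_num
    · rw [h3]; norm_num
  refine ⟨x, μ', ?_, ?_, ?_, ?_, ?_, ?_, hdiff⟩
  · intro a b hab
    have h3 : ((μ' a : ℤ) : ℝ) = ((μ' b : ℤ) : ℝ) := by rw [hkey, hkey, hface a b hab]
    exact_mod_cast h3
  · intro a b hab
    have h3 : ((μ' b : ℤ) : ℝ) = - ((μ' a : ℤ) : ℝ) := by rw [hkey, hkey, hbeta a b hab, neg_div]
    exact_mod_cast h3
  · intro a ha hb
    have h3 : ((μ' (R.τ a) : ℤ) : ℝ) = - ((μ' a : ℤ) : ℝ) := by
      rw [hkey, hkey, htau a ha hb, neg_div]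
    exact_mod_cast h3
  · have h3 : ((μ' x : ℤ) : ℝ) = 1 := by rw [hkey, div_self hx]
    exact_mod_cast h3
  · have h3 : ((μ' (R.τ x) : ℤ) : ℝ) = 1 := by rw [hkey, hyx, div_self hx]
    exact_mod_cast h3
  · intro h
    rcases hvals h with h3 | h3
    · left
      have h4 : ((μ' h : ℤ) : ℝ) = 1 := by rw [hkey, h3]
      exact_mod_cast h4
    · right
      have h4 : ((μ' h : ℤ) : ℝ) = -1 := by rw [hkey, h3]
      exact_mod_cast h4

end Pool.Agent.Helper91.MVC
end

/- Helper91.MVC.Del -/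
section
/-!
MV-C1-3. Deletion of an edge, matrix form.

Let `x` be a half-edge of `e` (`edge_surj`). Define `μ h = lam (c)` if `R.face h = R.cface c false` and `- lam c` if `R.face h = R.cface c true`, i.e.
`μ h = if R.face h = c.rep then lam c else - lam c` with `c = cyc R.β (R.face h)` (`cface c false = c.rep`, `cface c true = R.β c.rep`; the cycle
of a face `f` under the pairing `β` is `{f, β f}`, `β f ≠ f`). `μ` depends only on the face; `μ h' = - μ h` if `R.face h' = R.β (R.face h)`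
(same cylinder, the other face). For an edge `e' = {h, τ h} ≠ e`: `∑_c lam c (P c false e' - P c true e') = μ h + μ (τ h)`: by definition
`P c b e' = card {k | R.face k = R.cface c b ∧ R.edge k = e'}`, exchange the sums: `∑_k [R.edge k = e'] μ k`, and `R.edge k = e'` iff `k = h` or `k = τ h`
(`edge_eq_iff`). So `μ (τ h) = - μ h` for `h ≠ x, τ x`. If `lam ≠ 0` then `μ ≠ 0` (faces are surjective) and `dichotomy` gives a leaf or `AA`.
-/

namespace Pool.Agent.Helper91.MVC

open Finset Pool.Agent.Helper60.MV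

variable {H : Type} {σ : Equiv.Perm H}

theorem pair_cases {F : Type} {g : Equiv.Perm F} (hg : IsPairing g) {a b : F}
    (h : cyc g a = cyc g b) : a = b ∨ g a = b := by
  have h1 : g.SameCycle a b := cyc_eq_iff.1 h
  have h2 : ∀ (c : F) (n : ℕ), (g ^ n) c = c ∨ (g ^ n) c = g c := by
    intro c n
    induction n with
    | zero => exact Or.inl rfl
    | succ n ih =>
      rw [pow_succ', Equiv.Perm.mul_apply]
      rcases ih with ih | ih
      · rw [ih]; exact Or.inr rfl
      · rw [ih, hg.invol]; exact Or.inl rfl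
  obtain ⟨n, hn⟩ := h1
  obtain ⟨m, rfl | rfl⟩ := n.eq_nat_or_neg
  · rw [zpow_natCast] at hn
    rcases h2 a m with h3 | h3
    · exact Or.inl (h3.symm.trans hn)
    · exact Or.inr (h3.symm.trans hn)
  · rw [zpow_neg, zpow_natCast, Equiv.Perm.inv_eq_iff_eq] at hn
    rcases h2 b m with h3 | h3
    · exact Or.inl (hn.trans h3)
    · right
      rw [hn, h3, hg.invol]

/-- the function on faces attached to a function on cylinders -/
noncomputable def sgnF (R : Conf σ) (lam : R.Cyl → ℝ) (f : R.Face) : ℝ := by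
  classical
  exact if f = (cyc R.β f).rep then lam (cyc R.β f) else - lam (cyc R.β f)

theorem sgnF_rep (R : Conf σ) (lam : R.Cyl → ℝ) (c : R.Cyl) : sgnF R lam c.rep = lam c := by
  unfold sgnF
  rw [cyc_rep, if_pos rfl]

theorem sgnF_beta_rep (R : Conf σ) (lam : R.Cyl → ℝ) (c : R.Cyl) :
    sgnF R lam (R.β c.rep) = - lam c := by
  unfold sgnF
  rw [cyc_apply, cyc_rep, if_neg (R.hβ.fpf _)]

theorem face_cases (R : Conf σ) (f : R.Face) :
    f = (cyc R.β f).rep ∨ f = R.β (cyc R.β f).rep := by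
  rcases pair_cases R.hβ (a := (cyc R.β f).rep) (b := f) (cyc_rep _) with h | h
  · exact Or.inl h.symm
  · exact Or.inr h.symm

theorem sgnF_beta (R : Conf σ) (lam : R.Cyl → ℝ) (f : R.Face) :
    sgnF R lam (R.β f) = - sgnF R lam f := by
  rcases face_cases R f with h | h
  · rw [h, sgnF_rep, sgnF_beta_rep]
  · rw [h, R.hβ.invol, sgnF_rep, sgnF_beta_rep, neg_neg]

theorem sgnF_sum [Fintype H] (R : Conf σ) (lam : R.Cyl → ℝ) (f : R.Face) :
    ∑ c : R.Cyl, lam c * ((if f = R.cface c false then (1 : ℝ) else 0) -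
      (if f = R.cface c true then (1 : ℝ) else 0)) = sgnF R lam f := by
  classical
  rw [Finset.sum_eq_single (cyc R.β f)]
  · rcases face_cases R f with h | h
    · have h1 : f ≠ R.cface (cyc R.β f) true := by
        intro h2
        have h3 : f = R.β (cyc R.β f).rep := h2
        exact R.hβ.fpf (cyc R.β f).rep (h3.symm.trans h)
      have h0 : f = R.cface (cyc R.β f) false := h
      rw [if_pos h0, if_neg h1]
      have h4 : sgnF R lam f = lam (cyc R.β f) := by
        unfold sgnF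
        rw [if_pos h]
      rw [h4]; ring
    · have h1 : f ≠ R.cface (cyc R.β f) false := by
        intro h2
        have h3 : f = (cyc R.β f).rep := h2
        exact R.hβ.fpf (cyc R.β f).rep (h.symm.trans h3)
      have h0 : f = R.cface (cyc R.β f) true := h
      rw [if_pos h0, if_neg h1]
      have h5 : ¬ f = (cyc R.β f).rep := h1
      have h4 : sgnF R lam f = - lam (cyc R.β f) := by
        unfold sgnF
        rw [if_neg h5]
      rw [h4]; ring
  · intro c _ hc
    have h1 : f ≠ R.cface c false := by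
      intro h2
      apply hc
      have h3 : f = c.rep := h2
      rw [h3, cyc_rep]
    have h2 : f ≠ R.cface c true := by
      intro h2
      apply hc
      have h3 : f = R.β c.rep := h2
      rw [h3, cyc_apply, cyc_rep]
    rw [if_neg h1, if_neg h2]; ring
  · intro h; exact absurd (Finset.mem_univ _) h

theorem P_cast [Fintype H] (R : Conf σ) (c : R.Cyl) (b : Bool) (e : R.Edge) :
    (R.P c b e : ℝ) = ∑ h : H, if R.edge h = e then
      (if R.face h = R.cface c b then (1 : ℝ) else 0) else 0 := by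
  classical
  unfold Conf.P
  rw [Finset.card_filter]
  push_cast
  refine Finset.sum_congr rfl fun h _ => ?_
  by_cases h1 : R.edge h = e
  · by_cases h2 : R.face h = R.cface c b
    · rw [if_pos ⟨h2, h1⟩, if_pos h1, if_pos h2]
    · rw [if_neg (fun h3 => h2 h3.1), if_pos h1, if_neg h2]
  · rw [if_neg (fun h3 => h1 h3.2), if_neg h1]

theorem del_sum [Fintype H] (R : Conf σ) (lam : R.Cyl → ℝ) (e : R.Edge) :
    ∑ c, lam c * ((R.P c false e : ℝ) - (R.P c true e : ℝ)) =
      ∑ h : H, if R.edge h = e then sgnF R lam (R.face h) else 0 := by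
  classical
  have h1 : ∀ c : R.Cyl, lam c * ((R.P c false e : ℝ) - (R.P c true e : ℝ)) =
      ∑ h : H, if R.edge h = e then
        lam c * ((if R.face h = R.cface c false then (1 : ℝ) else 0) -
          (if R.face h = R.cface c true then (1 : ℝ) else 0)) else 0 := by
    intro c
    rw [P_cast, P_cast, ← Finset.sum_sub_distrib, Finset.mul_sum]
    refine Finset.sum_congr rfl fun h _ => ?_
    by_cases h1 : R.edge h = e
    · rw [if_pos h1, if_pos h1, if_pos h1]
    · rw [if_neg h1, if_neg h1, if_neg h1, sub_zero, mul_zero]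
  rw [Finset.sum_congr rfl fun c _ => h1 c, Finset.sum_comm]
  refine Finset.sum_congr rfl fun h _ => ?_
  by_cases h1 : R.edge h = e
  · simp only [if_pos h1]
    exact sgnF_sum R lam (R.face h)
  · simp only [if_neg h1]
    exact Finset.sum_const_zero

theorem edge_sum [Fintype H] (R : Conf σ) (F : H → ℝ) (h : H) :
    (∑ a : H, if R.edge a = R.edge h then F a else 0) = F h + F (R.τ h) := by
  classical
  have hne : h ≠ R.τ h := fun h1 => R.hτ.fpf h h1.symm
  have h1 : ∀ a : H, (if R.edge a = R.edge h then F a else 0) =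
      (if a = h then F a else 0) + (if a = R.τ h then F a else 0) := by
    intro a
    by_cases ha : a = h
    · subst ha
      rw [if_pos rfl, if_pos rfl, if_neg hne, add_zero]
    · by_cases hb : a = R.τ h
      · subst hb
        rw [if_pos (edge_tau R h), if_neg ha, if_pos rfl, zero_add]
      · rw [if_neg ha, if_neg hb, if_neg, add_zero]
        intro h2
        rcases (edge_eq_iff R).1 h2 with h3 | h3
        · exact ha h3
        · apply hb
          rw [← h3, R.hτ.invol]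
  rw [Finset.sum_congr rfl fun a _ => h1 a, Finset.sum_add_distrib, Finset.sum_ite_eq' univ h F,
    Finset.sum_ite_eq' univ (R.τ h) F, if_pos (Finset.mem_univ _), if_pos (Finset.mem_univ _)]

theorem deletion [Fintype H] (R : Conf σ) (hσ : AllOdd σ) (hR : R.Conn)
    (h2 : ∃ h h' : H, ¬ σ.SameCycle h h') (hleaf : ∀ x μ, ¬ R.IsLeaf x μ) (hAA : ¬ R.AA)
    (e : R.Edge) (lam : R.Cyl → ℝ)
    (hlam : ∀ e', e' ≠ e → ∑ c, lam c * ((R.P c false e' : ℝ) - (R.P c true e' : ℝ)) = 0) :
    lam = 0 := by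
  classical
  by_contra hne
  obtain ⟨c, hc⟩ : ∃ c, lam c ≠ 0 := by
    by_contra h1
    apply hne
    funext c
    by_contra h3
    exact h1 ⟨c, h3⟩
  obtain ⟨x, rfl⟩ := edge_surj R e
  obtain ⟨h0, hh0⟩ := face_surj R (Cyc.rep c)
  have key := dichotomy R hσ hR h2 x (fun h => sgnF R lam (R.face h))
    ⟨h0, by
      show sgnF R lam (R.face h0) ≠ 0
      rw [hh0, sgnF_rep]; exact hc⟩
    (fun h h' hh => by
      show sgnF R lam (R.face h) = sgnF R lam (R.face h')
      rw [hh])
    (fun h h' hh => by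
      show sgnF R lam (R.face h') = - sgnF R lam (R.face h)
      rw [← hh, sgnF_beta])
    (fun h hx hy => by
      show sgnF R lam (R.face (R.τ h)) = - sgnF R lam (R.face h)
      have h3 : R.edge h ≠ R.edge x := by
        intro h4
        rcases (edge_eq_iff R).1 h4 with h5 | h5
        · exact hx h5
        · apply hy
          rw [← h5, R.hτ.invol]
      have h4 := hlam _ h3
      rw [del_sum, edge_sum R (fun a => sgnF R lam (R.face a)) h] at h4
      linarith)
  rcases key with ⟨x', μ', h3⟩ | h3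
  · exact hleaf x' μ' h3
  · exact hAA h3

end Pool.Agent.Helper91.MVC
end

/- Helper91.MVC.Cyl -/
section
/-!
MV-C1-5. Products over the cylinders.

`β` is a fixed point free involution of `F`; its cycles are the sets `{f, β f}`. For a symmetric `s` put `S (c) = s c.rep (β c.rep)`; then
`S (cyc β f) = s f (β f)` for every `f` (`c.rep = f` or `c.rep = β f`, `β (β f) = f`, symmetry) (`prod_aux`).
`prod_cyl`: `e` induces a bijection `Cyc β' ≃ Cyc β`, `cyc β' f ↦ cyc β (e f)` (e.g. `Fintype.prod_bijective` with the map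
`c ↦ cyc β (e c.rep)`; injective and surjective because `e` carries the cycles `{f, β' f}` to the cycles `{e f, β (e f)}`), and
`s (cyc β (e f)).rep (β ..) = s (e f) (β (e f)) = s (e f) (e (β' f))`.
`prod_cyl_sum`: the map `Cyc β₁ ⊕ Cyc β₂ → Cyc β`, `inl c ↦ cyc β (e (inl c.rep))`, `inr c ↦ cyc β (e (inr c.rep))` is a bijection;
`Fintype.prod_sum_type`.
-/

namespace Pool.Agent.Helper91.MVC

open Finset Pool.Agent.Helper60.MV

theorem pair_cyc_iff {F : Type} {β : Equiv.Perm F} (hβ : IsPairing β) {a b : F} :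
    cyc β a = cyc β b ↔ a = b ∨ β a = b := by
  constructor
  · intro h
    have h1 : β.SameCycle a b := cyc_eq_iff.1 h
    have h2 : ∀ (x : F) (n : ℕ), (β ^ n) x = x ∨ (β ^ n) x = β x := by
      intro x n
      induction n with
      | zero => exact Or.inl rfl
      | succ n ih =>
        rw [pow_succ', Equiv.Perm.mul_apply]
        rcases ih with ih | ih
        · rw [ih]; exact Or.inr rfl
        · rw [ih, hβ.invol]; exact Or.inl rfl
    obtain ⟨n, hn⟩ := h1
    obtain ⟨m, rfl | rfl⟩ := n.eq_nat_or_neg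
    · rw [zpow_natCast] at hn
      rcases h2 a m with h3 | h3
      · exact Or.inl (h3.symm.trans hn)
      · exact Or.inr (h3.symm.trans hn)
    · rw [zpow_neg, zpow_natCast, Equiv.Perm.inv_eq_iff_eq] at hn
      rcases h2 b m with h3 | h3
      · exact Or.inl (hn.trans h3)
      · right
        rw [hn, h3, hβ.invol]
  · rintro (rfl | rfl)
    · rfl
    · exact (cyc_apply (g := β) a).symm

theorem pair_rep {F : Type} {β : Equiv.Perm F} (hβ : IsPairing β) (f : F) :
    (cyc β f).rep = f ∨ β (cyc β f).rep = f :=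
  (pair_cyc_iff hβ).1 (cyc_rep (cyc β f))

theorem prod_aux {F : Type} {β : Equiv.Perm F} (hβ : IsPairing β) (s : F → F → ℝ)
    (hs : ∀ f f', s f f' = s f' f) (f : F) : s (cyc β f).rep (β (cyc β f).rep) = s f (β f) := by
  rcases pair_rep hβ f with h | h
  · rw [h]
  · have h1 : β f = (cyc β f).rep := by
      conv_lhs => rw [← h]
      exact hβ.invol _
    rw [h1, h, hs]

theorem prod_cyl {F F' : Type} [Fintype F] [Fintype F'] {β : Equiv.Perm F} {β' : Equiv.Perm F'}
    (hβ : IsPairing β) (hβ' : IsPairing β') (e : F' ≃ F) (he : ∀ f, e (β' f) = β (e f))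
    (s : F → F → ℝ) (hs : ∀ f f', s f f' = s f' f) :
    ∏ c : Cyc β, s c.rep (β c.rep) = ∏ c : Cyc β', s (e c.rep) (e (β' c.rep)) := by
  symm
  refine Fintype.prod_bijective (fun c : Cyc β' => cyc β (e c.rep)) ⟨?_, ?_⟩ _ _ ?_
  · intro c c' h
    have h1 := (pair_cyc_iff hβ).1 h
    have h2 : cyc β' c.rep = cyc β' c'.rep := by
      rw [pair_cyc_iff hβ']
      rcases h1 with h1 | h1
      · exact Or.inl (e.injective h1)
      · rw [← he] at h1
        exact Or.inr (e.injective h1)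
    rwa [cyc_rep, cyc_rep] at h2
  · intro c
    refine ⟨cyc β' (e.symm c.rep), ?_⟩
    show cyc β (e (cyc β' (e.symm c.rep)).rep) = c
    rcases pair_rep hβ' (e.symm c.rep) with h | h
    · rw [h, e.apply_symm_apply, cyc_rep]
    · rw [← cyc_apply (g := β), ← he, h, e.apply_symm_apply, cyc_rep]
  · intro c
    show s (e c.rep) (e (β' c.rep)) = s (cyc β (e c.rep)).rep (β (cyc β (e c.rep)).rep)
    rw [prod_aux hβ s hs, he]

theorem prod_cyl_sum {F F₁ F₂ : Type} [Fintype F] [Fintype F₁] [Fintype F₂]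
    {β : Equiv.Perm F} {β₁ : Equiv.Perm F₁} {β₂ : Equiv.Perm F₂}
    (hβ : IsPairing β) (hβ₁ : IsPairing β₁) (hβ₂ : IsPairing β₂) (e : F₁ ⊕ F₂ ≃ F)
    (he : ∀ f, β (e f) = e (Sum.map β₁ β₂ f))
    (s : F → F → ℝ) (hs : ∀ f f', s f f' = s f' f) :
    ∏ c : Cyc β, s c.rep (β c.rep) =
      (∏ c : Cyc β₁, s (e (Sum.inl c.rep)) (e (Sum.inl (β₁ c.rep)))) *
        ∏ c : Cyc β₂, s (e (Sum.inr c.rep)) (e (Sum.inr (β₂ c.rep))) := by
  have hl : ∀ a : F₁, β (e (Sum.inl a)) = e (Sum.inl (β₁ a)) := fun a => he (Sum.inl a)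
  have hr : ∀ a : F₂, β (e (Sum.inr a)) = e (Sum.inr (β₂ a)) := fun a => he (Sum.inr a)
  have key : ∏ c : Cyc β₁ ⊕ Cyc β₂,
      Sum.elim (fun c : Cyc β₁ => s (e (Sum.inl c.rep)) (e (Sum.inl (β₁ c.rep))))
        (fun c : Cyc β₂ => s (e (Sum.inr c.rep)) (e (Sum.inr (β₂ c.rep)))) c =
      ∏ c : Cyc β, s c.rep (β c.rep) := by
    refine Fintype.prod_bijective
      (Sum.elim (fun c : Cyc β₁ => cyc β (e (Sum.inl c.rep)))
        (fun c : Cyc β₂ => cyc β (e (Sum.inr c.rep)))) ⟨?_, ?_⟩ _ _ ?_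
    · rintro (c | c) (c' | c') h
      · have h1 := (pair_cyc_iff hβ).1 h
        have h2 : cyc β₁ c.rep = cyc β₁ c'.rep := by
          rw [pair_cyc_iff hβ₁]
          rcases h1 with h1 | h1
          · exact Or.inl (Sum.inl_injective (e.injective h1))
          · rw [hl] at h1
            exact Or.inr (Sum.inl_injective (e.injective h1))
        rw [cyc_rep, cyc_rep] at h2
        rw [h2]
      · exfalso
        rcases (pair_cyc_iff hβ).1 h with h1 | h1
        · exact Sum.inl_ne_inr (e.injective h1)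
        · rw [hl] at h1
          exact Sum.inl_ne_inr (e.injective h1)
      · exfalso
        rcases (pair_cyc_iff hβ).1 h with h1 | h1
        · exact Sum.inr_ne_inl (e.injective h1)
        · rw [hr] at h1
          exact Sum.inr_ne_inl (e.injective h1)
      · have h1 := (pair_cyc_iff hβ).1 h
        have h2 : cyc β₂ c.rep = cyc β₂ c'.rep := by
          rw [pair_cyc_iff hβ₂]
          rcases h1 with h1 | h1
          · exact Or.inl (Sum.inr_injective (e.injective h1))
          · rw [hr] at h1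
            exact Or.inr (Sum.inr_injective (e.injective h1))
        rw [cyc_rep, cyc_rep] at h2
        rw [h2]
    · intro c
      obtain ⟨a, ha⟩ := e.surjective c.rep
      rcases a with a | a
      · refine ⟨Sum.inl (cyc β₁ a), ?_⟩
        show cyc β (e (Sum.inl (cyc β₁ a).rep)) = c
        rcases pair_rep hβ₁ a with h | h
        · rw [h, ha, cyc_rep]
        · rw [← cyc_apply (g := β), hl, h, ha, cyc_rep]
      · refine ⟨Sum.inr (cyc β₂ a), ?_⟩
        show cyc β (e (Sum.inr (cyc β₂ a).rep)) = c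
        rcases pair_rep hβ₂ a with h | h
        · rw [h, ha, cyc_rep]
        · rw [← cyc_apply (g := β), hr, h, ha, cyc_rep]
    · rintro (c | c)
      · show s (e (Sum.inl c.rep)) (e (Sum.inl (β₁ c.rep))) =
          s (cyc β (e (Sum.inl c.rep))).rep (β (cyc β (e (Sum.inl c.rep))).rep)
        rw [prod_aux hβ s hs, hl]
      · show s (e (Sum.inr c.rep)) (e (Sum.inr (β₂ c.rep))) =
          s (cyc β (e (Sum.inr c.rep))).rep (β (cyc β (e (Sum.inr c.rep))).rep)
        rw [prod_aux hβ s hs, hr]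
  rw [← key, Fintype.prod_sum_type]
  rfl

end Pool.Agent.Helper91.MVC
end

/- Helper91.MVC.Disc -/
section
/-!
MV-C1-15. Disconnected configurations.

`exists_closedIn`: `R` is not connected: there are `h, h'` not in the same class of the equivalence relation `EqvGen` of `Conn`. The class of `h` is a union of `σ`-cycles
(`b = σ a` is one of the relations), i.e. of vertices (`rot_sameCycle`); `I` = the set of `a.1`, `a` in the class of `h`. Then `h.1 ∈ I`, `h'.1 ∉ I` and `ClosedIn R I`.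
`dsplit`: for `I` with `ClosedIn R I` let `j' : HK (K | I) → HK K`, `⟨⟨i, _⟩, k⟩ ↦ ⟨i, k⟩`, the same `j''` for the complement. `j' (rot p) = rot (j' p)`. The range of `j'` (`{h | h.1 ∈ I}`) is
preserved by `σ`, `R.τ` and the face pairing. `pull_exists` with `g p = R.face (j' p)`: `hφ`: `j'` intertwines `σ' * τ'` with `σ * R.τ`, so
`SameCycle` upstairs and downstairs agree for elements of the range (`inv_sameCycle` with `F : HK K → Option (Cyc φ')`, or powers). The pair
`F R = (R', R'')` (choice) is injective: `R.τ` and the relation `β (face a) = face b` are determined on `{h | h.1 ∈ I}` by `R'`, on the complement by `R''`, and no relation holds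
between the two sets (`ClosedIn`; `R.face b = R.β (R.face a)`); `conf_ext`. `DSplit`: `pull_faceMap`, `pull_edgeMap`: the ranges are disjoint (a face contains half-edges of
only one of the two sets, because `φ h = σ (R.τ h)`), `Equiv.ofBijective`; `per`: `∑_{h : HK K} = ∑_{HK (K | I)} + ∑_{HK (K | Iᶜ)}`.
-/

namespace Pool.Agent.Helper91.MVC

open Finset Pool.Agent.Helper60.MV

private def emb {ρ : Type} (K : ρ → ℕ) (J : Finset ρ) (p : HK (fun i : {i // i ∈ J} => K i)) :
    HK K := ⟨p.1.1, p.2⟩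

private theorem emb_inj {ρ : Type} (K : ρ → ℕ) (J : Finset ρ) : Function.Injective (emb K J) := by
  rintro ⟨⟨i, hi⟩, k⟩ ⟨⟨i', hi'⟩, k'⟩ h
  simp only [emb, Sigma.mk.injEq] at h
  obtain ⟨h1, h2⟩ := h
  subst h1
  simp only [heq_eq_eq] at h2
  subst h2
  rfl

private theorem emb_rot {ρ : Type} (K : ρ → ℕ) (J : Finset ρ)
    (p : HK (fun i : {i // i ∈ J} => K i)) :
    emb K J (rot (fun i : {i // i ∈ J} => K i) p) = rot K (emb K J p) := rfl

private theorem emb_mem {ρ : Type} (K : ρ → ℕ) (J : Finset ρ)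
    (p : HK (fun i : {i // i ∈ J} => K i)) : (emb K J p).1 ∈ J := p.1.2

private theorem emb_range {ρ : Type} (K : ρ → ℕ) (J : Finset ρ) (h : HK K) (hh : h.1 ∈ J) :
    ∃ p, emb K J p = h := ⟨⟨⟨h.1, hh⟩, h.2⟩, rfl⟩

private theorem zpow_intertwine {H H' : Type} {φ : Equiv.Perm H} {φ' : Equiv.Perm H'} {j : H' → H}
    (h : ∀ p, j (φ' p) = φ (j p)) (n : ℤ) (p : H') : j ((φ' ^ n) p) = (φ ^ n) (j p) := by
  have h1 : ∀ (m : ℕ) (p : H'), j ((φ' ^ m) p) = (φ ^ m) (j p) := by
    intro m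
    induction m with
    | zero => intro p; rfl
    | succ m ih => intro p; rw [pow_succ', pow_succ', Equiv.Perm.mul_apply, Equiv.Perm.mul_apply, h, ih]
  obtain ⟨m, rfl | rfl⟩ := n.eq_nat_or_neg
  · rw [zpow_natCast, zpow_natCast, h1]
  · rw [zpow_neg, zpow_neg, zpow_natCast, zpow_natCast, Equiv.Perm.eq_inv_iff_eq, ← h1]
    congr 1
    exact Equiv.apply_symm_apply (φ' ^ m) p

private theorem closed_face {ρ : Type} {K : ρ → ℕ} {R : Conf (rot K)} {J : Finset ρ}
    (hJ : ClosedIn R J) {a b : HK K} (h : R.face a = R.face b) : a.1 ∈ J ↔ b.1 ∈ J := by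
  obtain ⟨c, hc⟩ := face_surj R (R.β (R.face a))
  exact (hJ a c (Or.inr (Or.inr hc))).trans (hJ b c (Or.inr (Or.inr (by rw [hc, h])))).symm

private theorem exists_half {ρ : Type} (K : ρ → ℕ) (J : Finset ρ) (R : Conf (rot K))
    (hJ : ClosedIn R J) : ∃ R' : Conf (rot (fun i : {i // i ∈ J} => K i)),
      Pull R' R (emb K J) (fun p => R.face (emb K J p)) := by
  refine pull_exists R _ (emb K J) (emb_inj K J) (fun p => ?_) _ (fun τ' hτ' a b => ?_)
    (fun a => ?_)
  · exact emb_range K J _ ((hJ _ _ (Or.inr (Or.inl rfl))).1 (emb_mem K J p))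
  · have h1 : ∀ p, emb K J ((rot (fun i : {i // i ∈ J} => K i) * τ') p) =
        (rot K * R.τ) (emb K J p) := by
      intro p
      rw [Equiv.Perm.mul_apply, Equiv.Perm.mul_apply, emb_rot, hτ']
    rw [face_eq_iff]
    constructor
    · rintro ⟨n, hn⟩
      exact ⟨n, by rw [← zpow_intertwine h1, hn]⟩
    · rintro ⟨n, hn⟩
      refine ⟨n, emb_inj K J ?_⟩
      rw [zpow_intertwine h1, hn]
  · obtain ⟨h, hh⟩ := face_surj R (R.β (R.face (emb K J a)))
    obtain ⟨b, hb⟩ := emb_range K J h ((hJ (emb K J a) h (Or.inr (Or.inr hh))).1 (emb_mem K J a))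
    exact ⟨b, by rw [hb, hh]⟩

private theorem half_maps {ρ : Type} [Fintype ρ] (K : ρ → ℕ) (J : Finset ρ) (R : Conf (rot K))
    (hJ : ClosedIn R J) (R' : Conf (rot (fun i : {i // i ∈ J} => K i)))
    (hP : Pull R' R (emb K J) (fun p => R.face (emb K J p))) :
    ∃ (iF : R'.Face → R.Face) (iE : R'.Edge → R.Edge), Function.Injective iF ∧
      Function.Injective iE ∧ (∀ a, iF (R'.face a) = R.face (emb K J a)) ∧
      (∀ a, iE (R'.edge a) = R.edge (emb K J a)) ∧ (∀ f, R.β (iF f) = iF (R'.β f)) ∧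
      ∀ (x : R.Edge → ℝ) (f : R'.Face), R.per x (iF f) = R'.per (fun e => x (iE e)) f := by
  obtain ⟨iF, hiF, h1, h2⟩ := pull_faceMap hP
  obtain ⟨iE, hiE, h3⟩ := pull_edgeMap hP
  refine ⟨iF, iE, hiF, hiE, h1, h3, h2, fun x f => ?_⟩
  obtain ⟨a, rfl⟩ := face_surj R' f
  unfold Conf.per
  symm
  refine Fintype.sum_of_injective (emb K J) (emb_inj K J) _ _ (fun h hh => ?_) (fun p => ?_)
  · rw [if_neg]
    intro h4
    rw [h1] at h4
    exact hh (emb_range K J h ((closed_face hJ h4).2 (emb_mem K J a)))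
  · show (if R'.face p = R'.face a then x (iE (R'.edge p)) else 0) = _
    rw [h3]
    by_cases h4 : R'.face p = R'.face a
    · rw [if_pos h4, if_pos]
      rw [h1]
      exact (hP.face p a).1 h4
    · rw [if_neg h4, if_neg]
      rw [h1]
      exact fun h5 => h4 ((hP.face p a).2 h5)

theorem exists_closedIn {ρ : Type} [Fintype ρ] (K : ρ → ℕ) (hK : ∀ i, Odd (K i))
    (R : Conf (rot K)) (h : ¬ R.Conn) :
    ∃ I : Finset ρ, I.Nonempty ∧ (by classical exact (Iᶜ : Finset ρ).Nonempty) ∧ ClosedIn R I := by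
  classical
  unfold Conf.Conn at h
  push Not at h
  obtain ⟨h0, h0', hn⟩ := h
  have hcyc : ∀ a b : HK K, a.1 = b.1 →
      Relation.EqvGen (fun a b => b = rot K a ∨ b = R.τ a ∨ R.face b = R.β (R.face a)) h0 a →
      Relation.EqvGen (fun a b => b = rot K a ∨ b = R.τ a ∨ R.face b = R.β (R.face a)) h0 b := by
    intro a b hab ha
    have h1 := (rot_sameCycle K a b).2 hab
    have h2 := inv_sameCycle (g := rot K) (α := Prop) (F := fun x =>
      Relation.EqvGen (fun a b => b = rot K a ∨ b = R.τ a ∨ R.face b = R.β (R.face a)) h0 x)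
      (fun x => propext ⟨fun h3 => Relation.EqvGen.trans _ _ _ h3
          (Relation.EqvGen.symm _ _ (Relation.EqvGen.rel x (rot K x) (Or.inl rfl))),
        fun h3 => Relation.EqvGen.trans _ _ _ h3
          (Relation.EqvGen.rel x (rot K x) (Or.inl rfl))⟩) h1
    exact h2.mp ha
  have hI : ∀ a : HK K, a.1 ∈ (univ.filter (fun i => ∃ a : HK K, a.1 = i ∧
      Relation.EqvGen (fun a b => b = rot K a ∨ b = R.τ a ∨ R.face b = R.β (R.face a)) h0 a)) ↔
      Relation.EqvGen (fun a b => b = rot K a ∨ b = R.τ a ∨ R.face b = R.β (R.face a)) h0 a := by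
    intro a
    rw [Finset.mem_filter]
    constructor
    · rintro ⟨-, a', ha', h1⟩
      exact hcyc a' a ha' h1
    · intro h1
      exact ⟨mem_univ _, a, rfl, h1⟩
  refine ⟨univ.filter (fun i => ∃ a : HK K, a.1 = i ∧
      Relation.EqvGen (fun a b => b = rot K a ∨ b = R.τ a ∨ R.face b = R.β (R.face a)) h0 a),
    ⟨h0.1, (hI h0).2 (Relation.EqvGen.refl _)⟩, ⟨h0'.1, ?_⟩, ?_⟩
  · rw [Finset.mem_compl, hI]
    exact hn
  · intro a b hab
    rw [hI, hI]
    exact ⟨fun h1 => Relation.EqvGen.trans _ _ _ h1 (Relation.EqvGen.rel a b hab),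
      fun h1 => Relation.EqvGen.trans _ _ _ h1
        (Relation.EqvGen.symm _ _ (Relation.EqvGen.rel a b hab))⟩

theorem dsplit {ρ : Type} [Fintype ρ] [DecidableEq ρ] (K : ρ → ℕ) (I : Finset ρ) :
    ∃ F : {R : Conf (rot K) // ClosedIn R I} →
        Conf (rot (fun i : {i // i ∈ I} => K i)) × Conf (rot (fun i : {i // i ∈ Iᶜ} => K i)),
      Function.Injective F ∧ ∀ R, Nonempty (DSplit R.1 (F R).1 (F R).2) := by
  have hc : ∀ R : Conf (rot K), ClosedIn R I → ClosedIn R Iᶜ := by
    intro R hR a b hab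
    rw [mem_compl, mem_compl, hR a b hab]
  choose F1 hF1 using fun R : {R : Conf (rot K) // ClosedIn R I} => exists_half K I R.1 R.2
  choose F2 hF2 using fun R : {R : Conf (rot K) // ClosedIn R I} =>
    exists_half K Iᶜ R.1 (hc R.1 R.2)
  refine ⟨fun R => (F1 R, F2 R), ?_, ?_⟩
  · intro R S hRS
    have e1 : F1 R = F1 S := congrArg Prod.fst hRS
    have e2 : F2 R = F2 S := congrArg Prod.snd hRS
    have k1 := hF1 R
    have k2 := hF2 R
    have l1 := hF1 S
    have l2 := hF2 S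
    rw [← e1] at l1
    rw [← e2] at l2
    apply Subtype.ext
    refine conf_ext (fun h => ?_) (fun a b => ?_)
    · by_cases hh : h.1 ∈ I
      · obtain ⟨p, rfl⟩ := emb_range K I h hh
        rw [← k1.tau, ← l1.tau]
      · obtain ⟨p, rfl⟩ := emb_range K Iᶜ h (mem_compl.2 hh)
        rw [← k2.tau, ← l2.tau]
    · by_cases ha : a.1 ∈ I
      · by_cases hb : b.1 ∈ I
        · obtain ⟨p, rfl⟩ := emb_range K I a ha
          obtain ⟨q, rfl⟩ := emb_range K I b hb
          exact (k1.beta p q).symm.trans (l1.beta p q)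
        · constructor
          · intro h1
            exact absurd ((R.2 a b (Or.inr (Or.inr h1.symm))).1 ha) hb
          · intro h1
            exact absurd ((S.2 a b (Or.inr (Or.inr h1.symm))).1 ha) hb
      · by_cases hb : b.1 ∈ I
        · constructor
          · intro h1
            exact absurd ((R.2 a b (Or.inr (Or.inr h1.symm))).2 hb) ha
          · intro h1
            exact absurd ((S.2 a b (Or.inr (Or.inr h1.symm))).2 hb) ha
        · obtain ⟨p, rfl⟩ := emb_range K Iᶜ a (mem_compl.2 ha)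
          obtain ⟨q, rfl⟩ := emb_range K Iᶜ b (mem_compl.2 hb)
          exact (k2.beta p q).symm.trans (l2.beta p q)
  · intro R
    obtain ⟨iF, iE, a1, a2, a3, a4, a5, a6⟩ := half_maps K I R.1 R.2 (F1 R) (hF1 R)
    obtain ⟨jF, jE, b1, b2, b3, b4, b5, b6⟩ := half_maps K Iᶜ R.1 (hc R.1 R.2) (F2 R) (hF2 R)
    have hFd : ∀ f g, iF f ≠ jF g := by
      intro f g hfg
      obtain ⟨a, rfl⟩ := face_surj (F1 R) f
      obtain ⟨b, rfl⟩ := face_surj (F2 R) g
      rw [a3, b3] at hfg
      exact (mem_compl.1 (emb_mem K Iᶜ b)) ((closed_face R.2 hfg).1 (emb_mem K I a))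
    have hEd : ∀ f g, iE f ≠ jE g := by
      intro f g hfg
      obtain ⟨a, rfl⟩ := edge_surj (F1 R) f
      obtain ⟨b, rfl⟩ := edge_surj (F2 R) g
      rw [a4, b4, edge_eq_iff] at hfg
      rcases hfg with h1 | h1
      · exact (mem_compl.1 (emb_mem K Iᶜ b)) (h1 ▸ emb_mem K I a)
      · exact (mem_compl.1 (emb_mem K Iᶜ b))
          ((R.2 _ _ (Or.inr (Or.inl h1.symm))).1 (emb_mem K I a))
    have hFb : Function.Bijective (Sum.elim iF jF) := by
      constructor
      · rintro (f | f) (g | g) hfg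
        · exact congrArg Sum.inl (a1 hfg)
        · exact absurd hfg (hFd f g)
        · exact absurd hfg.symm (hFd g f)
        · exact congrArg Sum.inr (b1 hfg)
      · intro f
        obtain ⟨h, rfl⟩ := face_surj R.1 f
        by_cases hh : h.1 ∈ I
        · obtain ⟨p, rfl⟩ := emb_range K I h hh
          exact ⟨Sum.inl ((F1 R).face p), a3 p⟩
        · obtain ⟨p, rfl⟩ := emb_range K Iᶜ h (mem_compl.2 hh)
          exact ⟨Sum.inr ((F2 R).face p), b3 p⟩
    have hEb : Function.Bijective (Sum.elim iE jE) := by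
      constructor
      · rintro (f | f) (g | g) hfg
        · exact congrArg Sum.inl (a2 hfg)
        · exact absurd hfg (hEd f g)
        · exact absurd hfg.symm (hEd g f)
        · exact congrArg Sum.inr (b2 hfg)
      · intro f
        obtain ⟨h, rfl⟩ := edge_surj R.1 f
        by_cases hh : h.1 ∈ I
        · obtain ⟨p, rfl⟩ := emb_range K I h hh
          exact ⟨Sum.inl ((F1 R).edge p), a4 p⟩
        · obtain ⟨p, rfl⟩ := emb_range K Iᶜ h (mem_compl.2 hh)
          exact ⟨Sum.inr ((F2 R).edge p), b4 p⟩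
    refine ⟨{
      ιF := Equiv.ofBijective _ hFb
      ιE := Equiv.ofBijective _ hEb
      beta := ?_
      per' := fun x f => a6 x f
      per'' := fun x f => b6 x f }⟩
    rintro (f | f)
    · exact a5 f
    · exact b5 f

end Pool.Agent.Helper91.MVC
end

/- Helper91.MVC.Par -/
section
/-!
MV-C1-16. Parity.

`sign_cyc`: `sign g = (-1)^(card H + card (Cyc g))` (e.g. `Equiv.Perm.sign_of_cycleType : sign f = (-1)^(f.cycleType.sum + card f.cycleType)`; the number of cycles, fixed points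
included, is `card f.cycleType + (card H - f.cycleType.sum)`. Or by induction on `g` with `Equiv.Perm.swap_induction_on`: multiplication by a swap changes the number of cycles by one.)
`sign_rot`: `rot K` is the sigma-congruence of `finRotate (K i)`, `K i` odd; each has sign `(-1)^(K i - 1) = 1`. Or: `rot K ^ N = 1` with `N = ∏ K i` odd, so `sign ^ N = 1`, `sign = 1`.
`conf_isEmpty`: let `R` be a configuration, `card H = ∑ K = 2 E`. `τ` has `E` cycles (all of length 2), so `sign τ = (-1)^(2E + E) = (-1)^E`. The number of faces is even, because `β` is a fixed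
point free involution of the faces. So `sign (σ τ) = (-1)^(2E + F) = 1`. But `sign (σ τ) = sign σ * sign τ = (-1)^E`. So `E` is even.
-/

namespace Pool.Agent.Helper91.MVC

open Finset Pool.Agent.Helper60.MV

private theorem card_cyc_aux {H : Type} [Fintype H] [DecidableEq H] (g : Equiv.Perm H) :
    Fintype.card (Cyc g) = Multiset.card g.cycleType + (Fintype.card H - g.support.card) := by
  classical
  let f : H → {c // c ∈ g.cycleFactorsFinset} ⊕ {h : H // h ∉ g.support} := fun h =>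
    if hh : h ∈ g.support then
      Sum.inl ⟨g.cycleOf h, Equiv.Perm.cycleOf_mem_cycleFactorsFinset_iff.2 hh⟩
    else Sum.inr ⟨h, hh⟩
  have hf : ∀ a b, f a = f b ↔ g.SameCycle a b := by
    intro a b
    by_cases ha : a ∈ g.support
    · by_cases hb : b ∈ g.support
      · have e1 : f a = Sum.inl ⟨g.cycleOf a,
            Equiv.Perm.cycleOf_mem_cycleFactorsFinset_iff.2 ha⟩ := dif_pos ha
        have e2 : f b = Sum.inl ⟨g.cycleOf b,
            Equiv.Perm.cycleOf_mem_cycleFactorsFinset_iff.2 hb⟩ := dif_pos hb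
        rw [e1, e2, Equiv.Perm.sameCycle_iff_cycleOf_eq_of_mem_support ha hb]
        constructor
        · intro h
          exact congrArg Subtype.val (Sum.inl_injective h)
        · intro h
          exact congrArg Sum.inl (Subtype.ext h)
      · have e1 : f a = Sum.inl ⟨g.cycleOf a,
            Equiv.Perm.cycleOf_mem_cycleFactorsFinset_iff.2 ha⟩ := dif_pos ha
        have e2 : f b = Sum.inr ⟨b, hb⟩ := dif_neg hb
        rw [e1, e2]
        constructor
        · intro h
          exact absurd h (by simp)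
        · intro h
          exfalso
          rw [Equiv.Perm.mem_support] at ha hb
          exact ha (h.apply_eq_self_iff.2 (not_not.1 hb))
    · by_cases hb : b ∈ g.support
      · have e1 : f a = Sum.inr ⟨a, ha⟩ := dif_neg ha
        have e2 : f b = Sum.inl ⟨g.cycleOf b,
            Equiv.Perm.cycleOf_mem_cycleFactorsFinset_iff.2 hb⟩ := dif_pos hb
        rw [e1, e2]
        constructor
        · intro h
          exact absurd h (by simp)
        · intro h
          exfalso
          rw [Equiv.Perm.mem_support] at ha hb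
          exact hb (h.apply_eq_self_iff.1 (not_not.1 ha))
      · have e1 : f a = Sum.inr ⟨a, ha⟩ := dif_neg ha
        have e2 : f b = Sum.inr ⟨b, hb⟩ := dif_neg hb
        rw [e1, e2]
        constructor
        · intro h
          have h1 : a = b := congrArg Subtype.val (Sum.inr_injective h)
          rw [h1]
        · intro h
          rw [Equiv.Perm.mem_support, not_not] at ha
          have h1 : a = b := h.eq_of_left ha
          exact congrArg Sum.inr (Subtype.ext h1)
  have hbij : Function.Bijective (fun c : Cyc g => f c.rep) := by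
    constructor
    · intro c c' h
      have h1 := (hf _ _).1 h
      rw [← cyc_rep c, ← cyc_rep c', cyc_eq_iff]
      exact h1
    · rintro (⟨c, hc⟩ | ⟨h, hh⟩)
      · have hcyc := (Equiv.Perm.mem_cycleFactorsFinset_iff.1 hc).1
        obtain ⟨x, hx⟩ := hcyc.nonempty_support
        have h1 := Equiv.Perm.cycle_is_cycleOf hx hc
        have hxs : x ∈ g.support := Equiv.Perm.mem_cycleFactorsFinset_support_le hc hx
        refine ⟨cyc g x, ?_⟩
        have h2 : f (cyc g x).rep = f x := (hf _ _).2 (cyc_eq_iff.1 (cyc_rep (cyc g x)))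
        show f (cyc g x).rep = _
        rw [h2]
        have e1 : f x = Sum.inl ⟨g.cycleOf x,
            Equiv.Perm.cycleOf_mem_cycleFactorsFinset_iff.2 hxs⟩ := dif_pos hxs
        rw [e1]
        exact congrArg Sum.inl (Subtype.ext h1.symm)
      · refine ⟨cyc g h, ?_⟩
        have h2 : f (cyc g h).rep = f h := (hf _ _).2 (cyc_eq_iff.1 (cyc_rep (cyc g h)))
        show f (cyc g h).rep = _
        rw [h2]
        exact dif_neg hh
  rw [Fintype.card_of_bijective hbij, Fintype.card_sum, Fintype.card_coe,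
    Fintype.card_subtype_compl (fun h => h ∈ g.support), Fintype.card_coe]
  have h3 : g.cycleFactorsFinset.card = Multiset.card g.cycleType := by
    rw [Equiv.Perm.cycleType_def, Multiset.card_map]
    rfl
  rw [h3]

theorem sign_cyc {H : Type} [Fintype H] [DecidableEq H] (g : Equiv.Perm H) :
    Equiv.Perm.sign g = (-1) ^ (Fintype.card H + Fintype.card (Cyc g)) := by
  rw [Equiv.Perm.sign_of_cycleType, card_cyc_aux, Equiv.Perm.sum_cycleType]
  have h1 : g.support.card ≤ Fintype.card H := Finset.card_le_univ _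
  have h2 : Fintype.card H + (Multiset.card g.cycleType + (Fintype.card H - g.support.card))
      = (g.support.card + Multiset.card g.cycleType)
        + 2 * (Fintype.card H - g.support.card) := by omega
  rw [h2, pow_add _ (g.support.card + Multiset.card g.cycleType), pow_mul]
  simp

theorem sign_rot {ρ : Type} [Fintype ρ] [DecidableEq ρ] (K : ρ → ℕ) (hK : ∀ i, Odd (K i)) :
    Equiv.Perm.sign (rot K) = 1 := by
  have hc : Fintype.card (Cyc (rot K)) = Fintype.card ρ := by
    refine Fintype.card_of_bijective (f := fun c : Cyc (rot K) => c.rep.1) ⟨?_, ?_⟩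
    · intro c c' h
      rw [← cyc_rep c, ← cyc_rep c', cyc_eq_iff, rot_sameCycle]
      exact h
    · intro i
      refine ⟨cyc (rot K) ⟨i, ⟨0, (hK i).pos⟩⟩, ?_⟩
      show (cyc (rot K) ⟨i, ⟨0, (hK i).pos⟩⟩).rep.1 = i
      have h1 := cyc_rep (cyc (rot K) (⟨i, ⟨0, (hK i).pos⟩⟩ : HK K))
      rw [cyc_eq_iff, rot_sameCycle] at h1
      exact h1
  rw [sign_cyc, hc]
  have h2 : Fintype.card (HK K) + Fintype.card ρ = ∑ i, (K i + 1) := by
    rw [Finset.sum_add_distrib]
    simp
  rw [h2]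
  have h3 : Even (∑ i, (K i + 1)) := Finset.even_sum _ fun i _ => (hK i).add_one
  exact h3.neg_one_pow

/-- a pairing has an even number of points, and half as many cycles -/
theorem card_pairing {F : Type} [Fintype F] (β : Equiv.Perm F) (hβ : IsPairing β) :
    Fintype.card F = 2 * Fintype.card (Cyc β) := by
  classical
  have hpow : ∀ a b, β.SameCycle a b → b = a ∨ b = β a := by
    rintro a b ⟨i, hi⟩
    have h2 : β * β = 1 := Equiv.ext fun h => hβ.invol h
    have h3 : β ^ (2 : ℤ) = 1 := by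
      rw [zpow_two]
      exact h2
    rcases Int.even_or_odd i with ⟨k, hk⟩ | ⟨k, hk⟩
    · left
      rw [hk, ← two_mul, zpow_mul, h3, one_zpow] at hi
      exact hi.symm
    · right
      rw [hk, zpow_add, zpow_mul, zpow_one, h3, one_zpow, one_mul] at hi
      exact hi.symm
  let E : Cyc β × Bool → F := fun x => if x.2 then β x.1.rep else x.1.rep
  have hE : Function.Bijective E := by
    constructor
    · rintro ⟨c, b⟩ ⟨c', b'⟩ h
      have h1 : ∀ (c : Cyc β) (b : Bool), cyc β (E (c, b)) = c := by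
        intro c b
        cases b
        · show cyc β c.rep = c
          exact cyc_rep c
        · show cyc β (β c.rep) = c
          rw [cyc_apply]
          exact cyc_rep c
      have h2 : c = c' := by
        rw [← h1 c b, h, h1 c' b']
      subst h2
      cases b
      · cases b'
        · rfl
        · exact absurd (h.symm : β c.rep = c.rep) (hβ.fpf _)
      · cases b'
        · exact absurd (h : β c.rep = c.rep) (hβ.fpf _)
        · rfl
    · intro f
      have h1 := hpow (cyc β f).rep f (cyc_eq_iff.1 (cyc_rep (cyc β f)))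
      rcases h1 with h1 | h1
      · exact ⟨(cyc β f, false), h1.symm⟩
      · exact ⟨(cyc β f, true), h1.symm⟩
  rw [← Fintype.card_of_bijective hE, Fintype.card_prod, Fintype.card_bool, mul_comm]

theorem conf_isEmpty {ρ : Type} [Fintype ρ] (K : ρ → ℕ) (hK : ∀ i, Odd (K i)) (E : ℕ)
    (hE : ∑ i, K i = 2 * E) (hodd : Odd E) : IsEmpty (Conf (rot K)) := by
  classical
  refine ⟨fun R => ?_⟩
  have hH : Fintype.card (HK K) = 2 * E := by
    rw [← hE]
    simp
  have h1 := card_pairing R.τ R.hτ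
  have h2 := card_pairing R.β R.hβ
  have hE1 : Fintype.card (Cyc R.τ) = E := by omega
  have s1 := sign_cyc R.τ
  rw [hH, hE1] at s1
  have s2 := sign_cyc (rot K * R.τ)
  rw [Equiv.Perm.sign_mul, sign_rot K hK, one_mul, s1, hH, h2, ← mul_add] at s2
  rw [pow_mul (-1 : ℤˣ) 2 (E + Fintype.card (Cyc R.β))] at s2
  have h3 : Odd (2 * E + E) := by
    have h4 : 2 * E + E = E + 2 * E := by ring
    rw [h4]
    exact hodd.add_even (even_two_mul E)
  rw [h3.neg_one_pow] at s2
  simp at s2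

end Pool.Agent.Helper91.MVC
end

/- Helper91.MVC.Main -/
section
/-!
Project MV, block C1: cutting along a maximal leaf; the statements of `Spec.lean` are
`good_no_leaf`, `good_not_AA` (Good), `deletion` (Del), `exists_maxLeaf` (MaxL), `split` (here),
`exists_closedIn`, `dsplit` (Disc), `prod_cyl`, `prod_cyl_sum` (Cyl), `conf_isEmpty` (Par).
-/

namespace Pool.Agent.Helper91.MVC

open Finset Pool.Agent.Helper60.MV

theorem split_of_cut {H HT H₁ : Type} [Fintype H] [Fintype HT] [Fintype H₁] {σ : Equiv.Perm H}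
    {R : Conf σ} {x : H} {μ : H → ℤ} {A : H → Prop}
    {σT : Equiv.Perm HT} {jT : HT → H} {xT yT : HT} {σ₁ : Equiv.Perm H₁} {j₁ : H₁ → H} {z₁ : H₁}
    (hC : Cut R x μ A σT jT xT yT σ₁ j₁ z₁) (T : Conf σT) (R₁ : Conf σ₁)
    (hT : Pull T R jT (gT R x jT xT)) (h₁ : Pull R₁ R j₁ (fun p => R.face (j₁ p)))
    (hmax : ∀ (x' : H) (μ' : H → ℤ), R.IsLeaf x' μ' →
      Nat.card {h // μ' h ≠ 0} ≤ Nat.card {h // μ h ≠ 0}) : Nonempty (Split R T R₁) := by
  obtain ⟨iF, iE, hM⟩ := cut_maps hC T R₁ hT h₁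
  obtain ⟨ν, hν1, hν2, hν3⟩ := cut_nu hC hM
  exact ⟨{
    ιF := iF
    ιE := iE
    e₀ := T.edge xT
    fy := T.face xT
    fx := R₁.face (σ₁ z₁)
    ν := ν
    beta := hM.beta
    perT := cut_perT hC hM
    per₁ := cut_per₁ hC hM
    leafT := cut_leafT hC hM
    leaf₁ := cut_leaf₁ hC hM h₁ hmax
    nu := hν1
    nubeta := hν2
    nuper := hν3 }⟩

theorem split {ρ : Type} [Fintype ρ] (K : ρ → ℕ) (hK : ∀ i, Odd (K i)) (x : HK K) (m : ℕ)
    (_hm : 1 ≤ m) (hm2 : 2 * m + 2 < K x.1) :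
    ∃ F : {R : Conf (rot K) // R.Conn ∧ MaxLeaf R x m} →
        Conf (rot (leg m)) × Conf (rot (red K x.1 m)),
      Function.Injective F ∧ ∀ R, (F R).2.Conn ∧ Nonempty (Split R.1 (F R).1 (F R).2) := by
  obtain ⟨xT, yT, hET⟩ := embT_rot K x m hm2
  obtain ⟨z₁, hE1⟩ := emb1_rot K x m hm2
  have key : ∀ R : {R : Conf (rot K) // R.Conn ∧ MaxLeaf R x m},
      ∃ (T : Conf (rot (leg m))) (R₁ : Conf (rot (red K x.1 m))) (μ : HK K → ℤ),
        Cut R.1 x μ (AK K x m) (rot (leg m)) (jTK K x m) xT yT (rot (red K x.1 m))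
          (j₁K K x m) z₁ ∧
        (∀ (x' : HK K) (μ' : HK K → ℤ), R.1.IsLeaf x' μ' →
          Nat.card {h // μ' h ≠ 0} ≤ Nat.card {h // μ h ≠ 0}) ∧
        Pull T R.1 (jTK K x m) (gT R.1 x (jTK K x m) xT) ∧
        Pull R₁ R.1 (j₁K K x m) (fun p => R.1.face (j₁K K x m p)) := by
    intro R
    obtain ⟨μ, hl, hA, hy, hv, hmax⟩ := maxLeaf_data K hK R.1 R.2.2
    have eT : EmbT (rot K) x (R.1.τ x) (AK K x m) (rot (leg m)) (jTK K x m) xT yT := by
      rw [hy]; exact hET
    have e1 : Emb1 (rot K) x (R.1.τ x) (AK K x m) (rot (red K x.1 m)) (j₁K K x m) z₁ := by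
      rw [hy]; exact hE1
    obtain ⟨T, hT⟩ := cutT R.1 hl hA eT
    obtain ⟨R₁, h₁⟩ := cut1 R.1 hl hA e1
    exact ⟨T, R₁, μ, ⟨hl, hA, hv, eT, e1⟩, hmax, hT, h₁⟩
  choose T R₁ μ hC hmax hT h₁ using key
  refine ⟨fun R => (T R, R₁ R), ?_, ?_⟩
  · intro R R' h
    have e1 : T R = T R' := congrArg Prod.fst h
    have e2 : R₁ R = R₁ R' := congrArg Prod.snd h
    have hT' := hT R'
    have h₁' := h₁ R'
    rw [← e1] at hT'
    rw [← e2] at h₁'
    exact Subtype.ext (cut_inj (hC R) (hC R') (hT R) (h₁ R) hT' h₁')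
  · intro R
    exact ⟨conn1 R.1 (hC R).leaf (hC R).hA (hC R).e₁ (R₁ R) (h₁ R) R.2.1,
      split_of_cut (hC R) (T R) (R₁ R) (hT R) (h₁ R) (hmax R)⟩

end Pool.Agent.Helper91.MVC
end

/- Helper91.MVC.Half -/
section
/-!
Project MV, block C1: half-edge form of the results (interface of helper62).
-/

namespace Pool.Agent.Helper91.MVC

open Finset Pool.Agent.Helper60.MV Pool.Agent.Helper62.MVC2

theorem jTK_eq {ρ : Type} (K : ρ → ℕ) (x : HK K) (m : ℕ) : jTK K x m = jT K x m := rfl

theorem j₁K_eq {ρ : Type} (K : ρ → ℕ) (x : HK K) (m : ℕ) : j₁K K x m = jR K x m := rfl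

theorem surgery {ρ : Type} [Fintype ρ] (K : ρ → ℕ) (hK : ∀ i, Odd (K i))
    (R : Conf (rot K)) (hc : R.Conn) (hl : ∃ x μ, R.IsLeaf x μ) :
    ∃ (x : HK K) (m : ℕ) (μ : HK K → ℤ) (T : Conf (rot (leg m)))
      (R₁ : Conf (rot (red K x.1 m))), 1 ≤ m ∧ 2 * m + 2 < K x.1 ∧ R.IsLeaf x μ ∧
      (∀ h, |μ h| ≤ 1) ∧ (∀ h, μ h ≠ 0 ↔ ∃ h', h'.1 = true ∧ jT K x m h' = h) ∧
      Surg R x m T R₁ ∧ R₁.Conn ∧
      ∀ h, R₁.LeafFace (R₁.face h) → R.LeafFace (R.face (jR K x m h)) ∧
        R.face (jR K x m h) ≠ R.face x := by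
  obtain ⟨x, m, hm, hm2, hmax0⟩ := exists_maxLeaf K hK R hl
  obtain ⟨μ, hl, hA, hy, hv, hmax⟩ := maxLeaf_data K hK R hmax0
  obtain ⟨xT, yT, hET⟩ := embT_rot K x m hm2
  obtain ⟨z₁, hE1⟩ := emb1_rot K x m hm2
  have eT : EmbT (rot K) x (R.τ x) (AK K x m) (rot (leg m)) (jTK K x m) xT yT := by
    rw [hy]; exact hET
  have e1 : Emb1 (rot K) x (R.τ x) (AK K x m) (rot (red K x.1 m)) (j₁K K x m) z₁ := by
    rw [hy]; exact hE1
  obtain ⟨T, hT⟩ := cutT R hl hA eT
  obtain ⟨R₁, h₁⟩ := cut1 R hl hA e1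
  have hC : Cut R x μ (AK K x m) (rot (leg m)) (jTK K x m) xT yT (rot (red K x.1 m))
    (j₁K K x m) z₁ := ⟨hl, hA, hv, eT, e1⟩
  obtain ⟨iF, iE, hM⟩ := cut_maps hC T R₁ hT h₁
  have hx : xT = legHalf m := by
    apply eT.inj
    rw [eT.hx]
    show x = jT K x m (legHalf m)
    simp [jT, legHalf]
  have hne : ∀ h : HK (leg m), h.1 = true → h ≠ xT := by
    intro h h1 h2
    rw [h2, hx] at h1
    simp [legHalf] at h1
  have hxA : ¬ AK K x m x := by rw [hA]; simp [hl.zero]
  have hfx : R.face x = R.face (j₁K K x m ((rot (red K x.1 m)) z₁)) := by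
    rw [e1.last]; exact (face_phi R x).symm
  have hTA : ∀ h : HK (leg m), h.1 = true → AK K x m (jTK K x m h) := by
    intro h h1
    rcases (eT.range (jTK K x m h)).1 ⟨h, rfl⟩ with h2 | h2
    · exact absurd (eT.inj (h2.trans eT.hx.symm)) (hne h h1)
    · exact h2
  refine ⟨x, m, μ, T, R₁, hm, hm2, hl, ?_, ?_, ?_, conn1 R hl hA e1 R₁ h₁ hc, ?_⟩
  · intro h
    by_cases h0 : μ h = 0
    · rw [h0]; simp
    · rcases hv h h0 with h1 | h1 <;> rw [h1] <;> simp
  · intro h
    rw [← hA]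
    constructor
    · intro h1
      obtain ⟨p, hp⟩ := (eT.range h).2 (Or.inr h1)
      refine ⟨p, ?_, hp⟩
      by_contra h2
      have h3 : jTK K x m p = x := by simp [jTK, h2]
      rw [hp] at h3
      rw [h3] at h1
      exact hxA h1
    · rintro ⟨p, h1, rfl⟩
      exact hTA p h1
  · refine ⟨fun h => (hT.tau h).symm, fun h => (h₁.tau h).symm, ?_, ?_, fun a b => (h₁.face a b).symm,
      ⟨_, hfx⟩, ?_, ?_, fun a b => (h₁.beta a b).symm⟩
    · intro a b ha hb
      rw [hT.face, gT_of_ne R x _ xT a (hne a ha), gT_of_ne R x _ xT b (hne b hb)]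
      exact Iff.rfl
    · rw [← hx, hT.face, gT_x, gT_of_ne R x _ xT _ (T.hτ.fpf xT), hT.tau, eT.hx]
    · intro a b ha h
      have h2 := hl.face _ _ h
      have h3 : AK K x m (jTK K x m a) := hTA a ha
      rw [hA] at h3
      have h4 : ¬ (j₁K K x m b = x ∨ AK K x m (j₁K K x m b)) := (e1.range _).1 ⟨b, rfl⟩
      have h5 : μ (j₁K K x m b) = 0 := by
        by_contra h6
        exact h4 (Or.inr ((hA _).2 h6))
      apply h3
      exact h2.trans h5
    · intro a b ha hb
      rw [hT.beta, gT_of_ne R x _ xT a (hne a ha), gT_of_ne R x _ xT b (hne b hb)]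
      exact Iff.rfl
  · intro h hf
    obtain ⟨h2, h3⟩ := cut_leaf₁ hC hM h₁ hmax (R₁.face h) hf
    rw [hM.f₁] at h2
    refine ⟨h2, fun h4 => h3 ?_⟩
    rw [h₁.face]
    exact h4.trans hfx

theorem deletion' {H : Type} {σ : Equiv.Perm H} (hs : AllOdd σ)
    (h2 : ∃ a b, ¬ (σ.SameCycle a b)) (R : Conf σ) (hc : R.Conn)
    (hl : ¬ ∃ x μ, R.IsLeaf x μ) (haa : ¬ R.AA) (x : H) (μ : H → ℝ)
    (face : ∀ h h', R.face h = R.face h' → μ h = μ h')
    (beta : ∀ h h', R.β (R.face h) = R.face h' → μ h' = - μ h)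
    (tau : ∀ h, h ≠ x → h ≠ R.τ x → μ (R.τ h) = - μ h) : ∀ h, μ h = 0 := by
  by_contra h
  push Not at h
  rcases dichotomy R hs hc h2 x μ h face beta tau with h1 | h1
  · exact hl h1
  · exact haa h1

end Pool.Agent.Helper91.MVC
end

/- Helper72.MVAA.Final -/
section
/-!
Project MV, block AA: assembly.
-/

namespace Pool.Agent.Helper72.MVAA

open Finset Pool.Agent.Helper60.MV

/-- the weight of `F` faces -/
noncomputable def VV (F : ℕ) : ℝ := 7 ^ F * (F : ℝ) ^ (F / 2)

theorem two_ten (F : ℕ) : (2 : ℝ) ^ F * 10 ^ (F / 2) ≤ 7 ^ F := by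
  obtain ⟨m, hm | hm⟩ := Nat.even_or_odd' F
  · subst hm
    have h1 : 2 * m / 2 = m := by omega
    rw [h1, pow_mul, pow_mul, ← mul_pow]
    exact pow_le_pow_left₀ (by norm_num) (by norm_num) m
  · subst hm
    have h1 : (2 * m + 1) / 2 = m := by omega
    rw [h1, pow_succ, pow_succ, pow_mul, pow_mul]
    have h2 : ((2 : ℝ) ^ 2) ^ m * 10 ^ m ≤ (7 ^ 2) ^ m := by
      rw [← mul_pow]
      exact pow_le_pow_left₀ (by norm_num) (by norm_num) m
    have h3 : (0 : ℝ) ≤ (7 ^ 2) ^ m := by positivity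
    nlinarith

/-- sum over the pairings of the faces -/
theorem sum_beta_le {H : Type} [Fintype H] (g : Equiv.Perm H) :
    ∑ β ∈ PR (Cyc g), (10 : ℝ) ^ (nf β) ≤ VV (nf g) := by
  have h1 : ∀ β ∈ PR (Cyc g), (10 : ℝ) ^ (nf β) = 10 ^ (nf g / 2) := by
    intro β hβ
    have h2 := nf_pairing β ((mem_PR β).1 hβ)
    have h3 : nf β = nf g / 2 := by
      unfold nf at *
      omega
    rw [h3]
  rw [sum_congr rfl h1, sum_const, nsmul_eq_mul]
  have h4 : ((PR (Cyc g)).card : ℝ) ≤ 2 ^ (nf g) * (nf g : ℝ) ^ (nf g / 2) := by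
    have := card_PR_le (Cyc g)
    unfold nf
    exact_mod_cast this
  have h5 : ((PR (Cyc g)).card : ℝ) * 10 ^ (nf g / 2) ≤
      (2 ^ (nf g) * (nf g : ℝ) ^ (nf g / 2)) * 10 ^ (nf g / 2) :=
    mul_le_mul_of_nonneg_right h4 (by positivity)
  refine h5.trans ?_
  have h6 := two_ten (nf g)
  unfold VV
  have h7 : (0 : ℝ) ≤ (nf g : ℝ) ^ (nf g / 2) := by positivity
  nlinarith

/-- the sum over the configurations with `τ ∈ T` -/
theorem sum_conf_le {H : Type} [Fintype H] (σ : Equiv.Perm H) (E : ℕ)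
    (hE : Fintype.card H = 2 * E) (T : Finset (Equiv.Perm H)) (_hT : T ⊆ PR H)
    (S : Finset (Conf σ)) (hS : ∀ R ∈ S, R.τ ∈ T) :
    ∑ R ∈ S, R.crude ≤ (10 / 9) ^ E * ∑ τ ∈ T, VV (nf (σ * τ)) := by
  classical
  have h1 : ∀ R : Conf σ, R.crude = (10 / 9) ^ E * 10 ^ (nf R.β) := by
    intro R
    have h2 := nf_pairing R.τ R.hτ
    have h3 : Fintype.card R.Edge = E := by
      have h4 : nf R.τ = E := by omega
      exact h4
    unfold Conf.crude
    rw [h3, mul_comm]
    rfl
  have h5 : ∑ R ∈ S, R.crude = (10 / 9) ^ E * ∑ R ∈ S, (10 : ℝ) ^ (nf R.β) := by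
    rw [mul_sum]
    exact sum_congr rfl (fun R _ => h1 R)
  rw [h5]
  refine mul_le_mul_of_nonneg_left ?_ (by positivity)
  have h6 : ∑ τ ∈ T, ∑ β ∈ PR (Cyc (σ * τ)), (10 : ℝ) ^ (nf β) ≤ ∑ τ ∈ T, VV (nf (σ * τ)) :=
    sum_le_sum (fun τ _ => sum_beta_le (σ * τ))
  refine le_trans ?_ h6
  rw [sum_sigma']
  have h7 : ∑ R ∈ S, (10 : ℝ) ^ (nf R.β) =
      ∑ q ∈ S.image (fun R : Conf σ => (⟨R.τ, R.β⟩ : Σ τ : Equiv.Perm H, Equiv.Perm (Cyc (σ * τ)))),
        (10 : ℝ) ^ (nf q.2) := by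
    rw [sum_image]
    rintro ⟨τ, hτ, β, hβ⟩ _ ⟨τ', hτ', β', hβ'⟩ _ h
    simp only [Sigma.mk.injEq] at h
    obtain ⟨h1, h2⟩ := h
    subst h1
    simp only [heq_eq_eq] at h2
    subst h2
    rfl
  rw [h7]
  refine sum_le_sum_of_subset_of_nonneg ?_ (fun _ _ _ => by positivity)
  intro q hq
  rw [mem_image] at hq
  obtain ⟨R, hR, rfl⟩ := hq
  rw [mem_sigma]
  exact ⟨hS R hR, (mem_PR _).2 R.hβ⟩

/-- few faces -/
theorem small_le {H : Type} [Fintype H] {σ : Equiv.Perm H} (hσ : AllOdd σ) (E : ℕ)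
    (hE : Fintype.card H = 2 * E) {x y : H} {μ : H → ℤ} (hμ : IsSgn σ x y μ)
    (T : Finset (Equiv.Perm H)) (hT : T ⊆ TT (MM μ) x y)
    (hTs : ∀ τ ∈ T, 50 * nf (σ * τ) ≤ E) :
    ∑ τ ∈ T, VV (nf (σ * τ)) ≤ (((E / 50 : ℕ) : ℝ) + 1) * ((70000 : ℝ) ^ (E / 50)
      * (((E - 1).factorial : ℝ) * (10 / 9 : ℝ) ^ E)) := by
  classical
  haveI : Nonempty H := ⟨x⟩
  rcases Nat.lt_or_ge E 2 with hE2 | hE2
  · have h0 : T = ∅ := by
      by_contra hne
      obtain ⟨τ, hτ⟩ := nonempty_iff_ne_empty.2 hne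
      have h1 := hTs τ hτ
      have h2 := nf_pos (σ * τ)
      omega
    rw [h0, sum_empty]
    positivity
  have hcard := hμ.card E hE
  have hx : x ∉ MM μ := by
    rw [mem_MM, hμ.one]
    norm_num
  have hy : y ∉ MM μ := by
    rw [mem_MM, hμ.one']
    norm_num
  have key : ∀ F : ℕ, 1 ≤ F → 50 * F ≤ E →
      ∑ τ ∈ T.filter (fun τ => nf (σ * τ) = F), VV (nf (σ * τ)) ≤
        (70000 : ℝ) ^ (E / 50) * (((E - 1).factorial : ℝ) * (10 / 9 : ℝ) ^ E) := by
    intro F hF1 hF
    set z := Nat.sqrt F + 1 with hz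
    have hz1 : F ≤ z * z := by
      have := Nat.lt_succ_sqrt F
      simpa [hz] using this.le
    have hz2 : z * z ≤ 4 * F := by
      have h1 := Nat.sqrt_le F
      have h2 : Nat.sqrt F ≤ F := Nat.sqrt_le_self F
      rw [hz]
      nlinarith
    have hV : VV F ≤ 7 ^ F * (z : ℝ) ^ F := by
      unfold VV
      refine mul_le_mul_of_nonneg_left ?_ (by positivity)
      have h1 : (F : ℝ) ^ (F / 2) ≤ ((z : ℝ) * z) ^ (F / 2) := by
        refine pow_le_pow_left₀ (by positivity) ?_ _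
        exact_mod_cast hz1
      refine h1.trans ?_
      rw [← pow_two, ← pow_mul]
      refine pow_le_pow_right₀ ?_ (by omega)
      rw [hz]
      push_cast
      linarith [(Nat.cast_nonneg (Nat.sqrt F) : (0 : ℝ) ≤ _)]
    have h1 : ∑ τ ∈ T.filter (fun τ => nf (σ * τ) = F), VV (nf (σ * τ)) ≤
        ∑ τ ∈ TT (MM μ) x y, 7 ^ F * (z : ℝ) ^ (nf (σ * τ)) := by
      refine le_trans (sum_le_sum (g := fun τ => 7 ^ F * (z : ℝ) ^ (nf (σ * τ))) ?_) ?_
      · intro τ hτ
        rw [mem_filter] at hτ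
        rw [hτ.2]
        exact hV
      · refine sum_le_sum_of_subset_of_nonneg ?_ (fun _ _ _ => by positivity)
        exact (filter_subset _ _).trans hT
    refine h1.trans ?_
    rw [← mul_sum]
    have h2 := sum_one σ (MM μ) x y hx hy z
      (fun lab lab' a1 a2 a3 a4 a5 => hμ.det hσ (by omega) z lab lab' a1 a2 a3 a4 a5)
    have h3 : ∑ τ ∈ TT (MM μ) x y, (z : ℝ) ^ (nf (σ * τ)) ≤
        (((z * z).ascFactorial (MM μ).card : ℕ) : ℝ) := by
      exact_mod_cast h2
    have h4 : (MM μ).card = E - 1 := by omega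
    rw [h4] at h3
    have h5 := asc_le (z * z) (E - 1)
    have h6 : (10 : ℝ) ^ (z * z) ≤ 10 ^ (4 * F) := pow_le_pow_right₀ (by norm_num) hz2
    have h7 : (10 / 9 : ℝ) ^ (E - 1) ≤ (10 / 9) ^ E :=
      pow_le_pow_right₀ (by norm_num) (by omega)
    have h8 : ((E - 1).factorial : ℝ) * (10 / 9) ^ (E - 1) * 10 ^ (z * z) ≤
        ((E - 1).factorial : ℝ) * (10 / 9) ^ E * 10 ^ (4 * F) := by
      have h9 : ((E - 1).factorial : ℝ) * (10 / 9) ^ (E - 1) ≤
          ((E - 1).factorial : ℝ) * (10 / 9) ^ E := mul_le_mul_of_nonneg_left h7 (by positivity)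
      exact mul_le_mul h9 h6 (by positivity) (by positivity)
    have h10 : (7 : ℝ) ^ F * 10 ^ (4 * F) ≤ 70000 ^ (E / 50) := by
      rw [pow_mul, ← mul_pow]
      have : (7 : ℝ) * 10 ^ 4 = 70000 := by norm_num
      rw [this]
      exact pow_le_pow_right₀ (by norm_num) (by omega)
    calc (7 : ℝ) ^ F * ∑ τ ∈ TT (MM μ) x y, (z : ℝ) ^ (nf (σ * τ))
        ≤ 7 ^ F * (((E - 1).factorial : ℝ) * (10 / 9) ^ E * 10 ^ (4 * F)) :=
          mul_le_mul_of_nonneg_left ((h3.trans h5).trans h8) (by positivity)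
      _ = (7 ^ F * 10 ^ (4 * F)) * (((E - 1).factorial : ℝ) * (10 / 9) ^ E) := by ring
      _ ≤ 70000 ^ (E / 50) * (((E - 1).factorial : ℝ) * (10 / 9) ^ E) :=
          mul_le_mul_of_nonneg_right h10 (by positivity)
  have hmaps : ∀ τ ∈ T, nf (σ * τ) ∈ Icc 1 (E / 50) := by
    intro τ hτ
    rw [mem_Icc]
    have h1 := hTs τ hτ
    have h2 := nf_pos (σ * τ)
    omega
  rw [← sum_fiberwise_of_maps_to hmaps]
  have h11 : ∑ F ∈ Icc 1 (E / 50), ∑ τ ∈ T.filter (fun τ => nf (σ * τ) = F), VV (nf (σ * τ)) ≤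
      ∑ _F ∈ Icc 1 (E / 50),
        (70000 : ℝ) ^ (E / 50) * (((E - 1).factorial : ℝ) * (10 / 9 : ℝ) ^ E) := by
    refine sum_le_sum (fun F hF => ?_)
    rw [mem_Icc] at hF
    exact key F hF.1 (by omega)
  refine h11.trans ?_
  rw [sum_const, nsmul_eq_mul, Nat.card_Icc]
  refine mul_le_mul_of_nonneg_right ?_ (by positivity)
  have : E / 50 + 1 - 1 = E / 50 := by omega
  rw [this]
  linarith

/-- many faces -/
theorem large_le {ρ : Type} [Fintype ρ] (K : ρ → ℕ) (hK : ∀ i, 0 < K i) (E : ℕ)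
    (hE : ∑ i, K i = 2 * E) (hE1 : 1 ≤ E) (hρ : Fintype.card ρ = 2)
    (T : Finset (Equiv.Perm (HK K))) (hT : T ⊆ PR (HK K))
    (hTl : ∀ τ ∈ T, E < 50 * nf (rot K * τ)) :
    ∑ τ ∈ T, VV (nf (rot K * τ)) ≤ (98 : ℝ) ^ E * (E : ℝ) ^ (-(E : ℝ) / 100) *
      ((2 : ℝ) ^ (2 * E) * (E : ℝ) ^ 2 * (2 * E : ℝ) ^ E) := by
  classical
  have hcard : Fintype.card (HK K) = 2 * E := by
    simp [HK, hE]
  have hE0 : (1 : ℝ) ≤ (E : ℝ) := by exact_mod_cast hE1
  have hEpos : (0 : ℝ) < (E : ℝ) := by linarith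
  have h1 : ∀ τ ∈ T, VV (nf (rot K * τ)) ≤
      (98 : ℝ) ^ E * (E : ℝ) ^ (-(E : ℝ) / 100) * (E : ℝ) ^ (nf (rot K * τ)) := by
    intro τ hτ
    set F := nf (rot K * τ) with hF
    have hF1 : F ≤ 2 * E := by
      have := nf_le (rot K * τ)
      rw [hcard] at this
      exact this
    have hF2 : E < 50 * F := hTl τ hτ
    have hFpos : 1 ≤ F := by omega
    unfold VV
    have h2 : (7 : ℝ) ^ F ≤ 49 ^ E := by
      have h3 : (49 : ℝ) ^ E = 7 ^ (2 * E) := by
        rw [pow_mul]
        norm_num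
      rw [h3]
      exact pow_le_pow_right₀ (by norm_num) hF1
    have h4 : (F : ℝ) ^ (F / 2) ≤ 2 ^ E * ((E : ℝ) ^ F * (E : ℝ) ^ (-(E : ℝ) / 100)) := by
      have h5 : (F : ℝ) ^ (F / 2) ≤ (2 * E : ℝ) ^ (F / 2) := by
        refine pow_le_pow_left₀ (by positivity) ?_ _
        exact_mod_cast hF1
      refine h5.trans ?_
      rw [mul_pow]
      have h6 : (2 : ℝ) ^ (F / 2) ≤ 2 ^ E := pow_le_pow_right₀ (by norm_num) (by omega)
      have h7 : (E : ℝ) ^ (F / 2) ≤ (E : ℝ) ^ F * (E : ℝ) ^ (-(E : ℝ) / 100) := by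
        rw [← Real.rpow_natCast, ← Real.rpow_natCast, ← Real.rpow_add hEpos]
        refine Real.rpow_le_rpow_of_exponent_le hE0 ?_
        have h8 : ((F / 2 : ℕ) : ℝ) ≤ (F : ℝ) / 2 := Nat.cast_div_le
        have h9 : (E : ℝ) < 50 * F := by exact_mod_cast hF2
        linarith
      exact mul_le_mul h6 h7 (by positivity) (by positivity)
    calc (7 : ℝ) ^ F * (F : ℝ) ^ (F / 2)
        ≤ 49 ^ E * (2 ^ E * ((E : ℝ) ^ F * (E : ℝ) ^ (-(E : ℝ) / 100))) :=
          mul_le_mul h2 h4 (by positivity) (by positivity)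
      _ = (98 : ℝ) ^ E * (E : ℝ) ^ (-(E : ℝ) / 100) * (E : ℝ) ^ F := by
          have : (98 : ℝ) = 49 * 2 := by norm_num
          rw [this, mul_pow]
          ring
  refine (sum_le_sum h1).trans ?_
  rw [← mul_sum]
  refine mul_le_mul_of_nonneg_left ?_ (by positivity)
  have h2 : ∑ τ ∈ T, (E : ℝ) ^ (nf (rot K * τ)) ≤ ∑ τ ∈ PR (HK K), (E : ℝ) ^ (nf (rot K * τ)) :=
    sum_le_sum_of_subset_of_nonneg hT (fun _ _ _ => by positivity)
  refine h2.trans ?_
  have h3 := sum_rot K hK E hE E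
  rw [hρ] at h3
  have h4 : ∑ τ ∈ PR (HK K), (E : ℝ) ^ (nf (rot K * τ)) ≤
      2 ^ (2 * E) * (E : ℝ) ^ 2 * ((E.ascFactorial E : ℕ) : ℝ) := by
    exact_mod_cast h3
  refine h4.trans ?_
  refine mul_le_mul_of_nonneg_left ?_ (by positivity)
  have h5 : E.ascFactorial E ≤ (2 * E) ^ E := by
    obtain ⟨e, rfl⟩ : ∃ e, E = e + 1 := ⟨E - 1, by omega⟩
    refine (Nat.ascFactorial_le_pow_add e (e + 1)).trans ?_
    exact Nat.pow_le_pow_left (by omega) _
  exact_mod_cast h5

/-- BLOCK AA, second theorem -/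
theorem AAc_le : ∃ C : ℝ, 0 < C ∧ ∀ {ρ : Type} [Fintype ρ] (K : ρ → ℕ) (_ : ∀ i, Odd (K i))
    (E : ℕ) (_ : ∑ i, K i = 2 * E) (_ : 1 ≤ E), AAc K ≤ C * (19 / 10) ^ E * (E.factorial : ℝ) := by
  obtain ⟨C₁, hC₁, h₁⟩ := num_small
  obtain ⟨C₂, hC₂, h₂⟩ := num_large
  refine ⟨C₁ + C₂, by positivity, ?_⟩
  intro ρ _ K hK E hE hE1
  classical
  rcases Nat.lt_or_ge 2 (Fintype.card ρ) with h3 | h3
  · rw [AAc_eq_zero K hK h3]
    positivity
  have hρ : Fintype.card ρ = 2 := by
    have h4 : Fintype.card ρ ≠ 0 := by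
      intro h
      haveI := Fintype.card_eq_zero_iff.1 h
      rw [univ_eq_empty, sum_empty] at hE
      omega
    have h5 : Fintype.card ρ ≠ 1 := by
      intro h
      obtain ⟨i, hi⟩ := Fintype.card_eq_one_iff.1 h
      have h6 : ∑ j, K j = K i := by
        rw [Fintype.sum_eq_single i]
        intro j hj
        exact absurd (hi j) hj
      have h7 := hK i
      rw [← h6, hE] at h7
      exact (Nat.not_odd_iff_even.2 (even_two_mul E)) h7
    omega
  have hcard : Fintype.card (HK K) = 2 * E := by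
    simp [HK, hE]
  have hσ := allOdd_rot K hK
  have hKpos : ∀ i, 0 < K i := fun i => (hK i).pos
  set σ := rot K with hσdef
  -- the AA configurations
  set S : Finset (Conf σ) := univ.filter (fun R : Conf σ => R.Conn ∧ R.AA) with hS
  have hAAc : AAc K = ∑ R ∈ S, R.crude := rfl
  set Ss := S.filter (fun R => 50 * nf (σ * R.τ) ≤ E) with hSs
  set Sl := S.filter (fun R => ¬ 50 * nf (σ * R.τ) ≤ E) with hSl
  have hsplit : ∑ R ∈ S, R.crude = ∑ R ∈ Ss, R.crude + ∑ R ∈ Sl, R.crude :=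
    (sum_filter_add_sum_filter_not S _ _).symm
  have hlarge : ∑ R ∈ Sl, R.crude ≤ C₂ * (19 / 10) ^ E * (E.factorial : ℝ) := by
    refine le_trans ?_ (h₂ E hE1)
    refine (sum_conf_le σ E hcard ((PR (HK K)).filter (fun τ => ¬ 50 * nf (σ * τ) ≤ E))
      (filter_subset _ _) Sl ?_).trans ?_
    · intro R hR
      rw [hSl, mem_filter] at hR
      rw [mem_filter]
      exact ⟨(mem_PR _).2 R.hτ, hR.2⟩
    · refine mul_le_mul_of_nonneg_left ?_ (by positivity)
      refine large_le K hKpos E hE hE1 hρ _ (filter_subset _ _) ?_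
      intro τ hτ
      rw [mem_filter] at hτ
      exact not_le.1 hτ.2
  have hsmall : ∑ R ∈ Ss, R.crude ≤ C₁ * (19 / 10) ^ E * (E.factorial : ℝ) := by
    refine le_trans ?_ (h₁ E hE1)
    set B : ℝ := (((E / 50 : ℕ) : ℝ) + 1) * ((70000 : ℝ) ^ (E / 50)
      * (((E - 1).factorial : ℝ) * (10 / 9 : ℝ) ^ E)) with hB
    have hB0 : 0 ≤ B := by positivity
    -- for every pair `(x, y)`
    have hxy : ∀ q : HK K × HK K, ∑ R ∈ Ss.filter (fun R => ∃ μ, R.IsAA q.1 μ ∧ R.τ q.1 = q.2),
        R.crude ≤ (10 / 9) ^ E * B := by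
      rintro ⟨x, y⟩
      by_cases hne : (Ss.filter (fun R => ∃ μ, R.IsAA x μ ∧ R.τ x = y)).Nonempty
      · obtain ⟨R₀, hR₀⟩ := hne
        rw [mem_filter] at hR₀
        obtain ⟨μ₀, hμ₀, hy₀⟩ := hR₀.2
        have hs₀ : IsSgn σ x y μ₀ := by
          have := isSgn_of_isAA R₀ x μ₀ hμ₀
          rwa [hy₀] at this
        refine (sum_conf_le σ E hcard
          ((TT (MM μ₀) x y).filter (fun τ => 50 * nf (σ * τ) ≤ E)) ?_ _ ?_).trans ?_
        · intro τ hτ
          rw [mem_filter, mem_TT] at hτ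
          exact (mem_PR _).2 hτ.1.1
        · intro R hR
          rw [mem_filter] at hR
          obtain ⟨μ, hμ, hy⟩ := hR.2
          have hs : IsSgn σ x y μ := by
            have := isSgn_of_isAA R x μ hμ
            rwa [hy] at this
          have hu : μ = μ₀ := hs.uniq hσ hs₀
          have hm := mem_TT_of_isAA R x μ hμ
          rw [hy, hu] at hm
          rw [mem_filter]
          have h5 := hR.1
          rw [hSs, mem_filter] at h5
          exact ⟨hm, h5.2⟩
        · refine mul_le_mul_of_nonneg_left ?_ (by positivity)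
          refine small_le hσ E hcard hs₀ _ (filter_subset _ _) ?_
          intro τ hτ
          rw [mem_filter] at hτ
          exact hτ.2
      · rw [not_nonempty_iff_eq_empty] at hne
        rw [hne, sum_empty]
        positivity
    have hcov : ∑ R ∈ Ss, R.crude ≤ ∑ q : HK K × HK K,
        ∑ R ∈ Ss.filter (fun R => ∃ μ, R.IsAA q.1 μ ∧ R.τ q.1 = q.2), R.crude := by
      have h5 : ∀ R ∈ Ss, R.crude ≤ ∑ q : HK K × HK K,
          (if (∃ μ, R.IsAA q.1 μ ∧ R.τ q.1 = q.2) then R.crude else 0) := by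
        intro R hR
        rw [hSs, mem_filter, hS, mem_filter] at hR
        obtain ⟨x, μ, hμ⟩ := hR.1.2.2
        have hcr : 0 ≤ R.crude := by
          unfold Conf.crude
          positivity
        have h6 : (if (∃ μ, R.IsAA (x, R.τ x).1 μ ∧ R.τ (x, R.τ x).1 = (x, R.τ x).2)
            then R.crude else 0) ≤ ∑ q : HK K × HK K,
          (if (∃ μ, R.IsAA q.1 μ ∧ R.τ q.1 = q.2) then R.crude else 0) :=
          single_le_sum (f := fun q : HK K × HK K =>
            (if (∃ μ, R.IsAA q.1 μ ∧ R.τ q.1 = q.2) then R.crude else 0))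
            (fun q _ => by
              split_ifs
              · exact hcr
              · exact le_refl _) (mem_univ (x, R.τ x))
        rw [if_pos ⟨μ, hμ, rfl⟩] at h6
        exact h6
      refine (sum_le_sum h5).trans ?_
      rw [sum_comm]
      refine sum_le_sum (fun q _ => ?_)
      exact le_of_eq (sum_filter _ _).symm
    refine hcov.trans ?_
    refine (sum_le_sum (fun q _ => hxy q)).trans ?_
    rw [sum_const, nsmul_eq_mul, card_univ, Fintype.card_prod, hcard]
    push_cast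
    have : (2 * (E : ℝ)) * (2 * E) * ((10 / 9) ^ E * B) =
      (10 / 9) ^ E * ((2 * E : ℝ) ^ 2 * B) := by ring
    rw [this, hB]
    refine le_of_eq ?_
    ring
  rw [hAAc, hsplit]
  have : (C₁ + C₂) * (19 / 10) ^ E * (E.factorial : ℝ) =
    C₁ * (19 / 10) ^ E * (E.factorial : ℝ) + C₂ * (19 / 10) ^ E * (E.factorial : ℝ) := by ring
  rw [this]
  linarith

end Pool.Agent.Helper72.MVAA
end
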