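import Pool.Agent.Helper16.LGG.G05
import Pool.Agent.Helper16.LGG.G12
import Pool.Agent.Helper16.LGG.G13

/- Helper90.MVD.OpA -/
section
/-!
Module MVD-17 (project MV, block D2): action of power series of operators on power series.

`act a g` has coefficients `∑_{(p,q) ∈ antidiagonal n} a_p (g_q)`.
* `act_one`, `act_mul`: associativity of the Cauchy product (`Finset.sum_antidiagonal_...`:
  `Finset.sum_nat_antidiagonal_triple...`, cf. the proof of associativity of `PowerSeries` /
  `Finset.sum_sigma'`, `Finset.Nat.sum_antidiagonal_...`; e.g. `Finset.sum_antidiagonal_fst...`).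
* `act_X_mul`: coefficients `n+1`: `PowerSeries.coeff_succ_X_mul`, the term `(n+1, 0)` vanishes.
* `act_KK_iff`: `KK i = ∑ X^n (-DD)^n` is a two-sided inverse of `1 + X * C (DD)` in
  `PowerSeries (Module.End ℝ F)` and `act (1 + X * C DD) h = h + X * dD h`. (Or coefficientwise:
  `(KK g)_n = ∑_{p+q=n} (-DD)^p g_q` satisfies `(KK g)_{n+1} = g_{n+1} - DD (KK g)_n`.)
* `act_AA_eq`: definition of `AA`.
* `act_AA_cst`: if all coefficients of `g` are killed by `d i`, then `DD i (c x) = c (DD i x)` for each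
  coefficient `c` of `g` (Leibniz), so `dD (g h) = g dD h`; with `act_KK_iff`,
  `act KK (g h) = g act KK h`; then `act_AA_eq`.
* `act_AA_comm`: `DD i`, `DD j` commute (`d i`, `d j` commute and `d i (1/(2 s j)) = 0` for `i ≠ j`),
  `DD i` commutes with the multiplication by `1/s j` (`i ≠ j`): prove
  `AA i * AA j = AA j * AA i` in the ring, coefficientwise, or directly for `act`.
* `cst_act`: for `k ≠ i`, `d k` commutes with `DD i` and with multiplication by `1/s i`; so the
  coefficients of `act (KK i) g`, `∑ (-DD)^p g_q`, are killed by `d k`.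
* `act_AN`: `List.prod` of `List.ofFn` and `act_mul`, `act_one`.
(`d k (1/s i) = 0` for `k ≠ i`: `Derivation.leibniz_inv`-like, or from `d k (s i * (1/s i)) = d k 1 = 0`.)
-/

namespace Pool.Agent.Helper90.MVD

open Finset Pool.Agent.Helper60.MV Pool.Agent.Helper52.MVD

section

variable {F : Type} [Field F] [Algebra ℝ F]

private theorem coeff_act_pv1 (a : PowerSeries (Module.End ℝ F)) (g : PowerSeries F) (n : ℕ) :
    PowerSeries.coeff n (act a g) = ∑ p ∈ antidiagonal n,
      (PowerSeries.coeff p.1 a : Module.End ℝ F) (PowerSeries.coeff p.2 g) :=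
  PowerSeries.coeff_mk _ _

theorem act_one (g : PowerSeries F) : act (1 : PowerSeries (Module.End ℝ F)) g = g := by
  ext n
  rw [coeff_act_pv1, Finset.sum_eq_single (0, n)]
  · rw [PowerSeries.coeff_one, if_pos rfl]
    rfl
  · rintro ⟨p, q⟩ hp hne
    rw [HasAntidiagonal.mem_antidiagonal] at hp
    simp only at hp ⊢
    rw [PowerSeries.coeff_one, if_neg, LinearMap.zero_apply]
    rintro rfl
    apply hne
    rw [zero_add] at hp
    rw [hp]
  · intro h
    exact absurd (HasAntidiagonal.mem_antidiagonal.2 (zero_add n)) h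

theorem act_mul (a b : PowerSeries (Module.End ℝ F)) (g : PowerSeries F) :
    act (a * b) g = act a (act b g) := by
  ext n
  simp only [coeff_act_pv1, PowerSeries.coeff_mul, map_sum, LinearMap.sum_apply, Module.End.mul_apply,
    Finset.sum_sigma']
  apply Finset.sum_nbij' (fun ⟨⟨_i, j⟩, ⟨k, l⟩⟩ ↦ ⟨(k, l + j), (l, j)⟩)
    (fun ⟨⟨i, _j⟩, ⟨k, l⟩⟩ ↦ ⟨(i + k, l), (i, k)⟩) <;> aesop (add simp [add_assoc])

theorem act_add (a : PowerSeries (Module.End ℝ F)) (g h : PowerSeries F) :
    act a (g + h) = act a g + act a h := by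
  ext n
  simp only [coeff_act_pv1, map_add, Finset.sum_add_distrib]

theorem act_sub (a : PowerSeries (Module.End ℝ F)) (g h : PowerSeries F) :
    act a (g - h) = act a g - act a h := by
  ext n
  simp only [coeff_act_pv1, map_sub, Finset.sum_sub_distrib]

theorem act_neg (a : PowerSeries (Module.End ℝ F)) (g : PowerSeries F) :
    act a (-g) = - act a g := by
  ext n
  simp only [coeff_act_pv1, map_neg, Finset.sum_neg_distrib]

theorem act_zero (a : PowerSeries (Module.End ℝ F)) : act a (0 : PowerSeries F) = 0 := by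
  ext n
  simp only [coeff_act_pv1, map_zero, Finset.sum_const_zero]

theorem act_add_left (a b : PowerSeries (Module.End ℝ F)) (g : PowerSeries F) :
    act (a + b) g = act a g + act b g := by
  ext n
  simp only [coeff_act_pv1, map_add, LinearMap.add_apply, Finset.sum_add_distrib]

private theorem act_sub_left (a b : PowerSeries (Module.End ℝ F)) (g : PowerSeries F) :
    act (a - b) g = act a g - act b g := by
  ext n
  simp only [coeff_act_pv1, map_sub, LinearMap.sub_apply, Finset.sum_sub_distrib]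

theorem act_X_mul (a : PowerSeries (Module.End ℝ F)) (g : PowerSeries F) :
    act a (PowerSeries.X * g) = PowerSeries.X * act a g := by
  ext n
  cases n with
  | zero =>
    rw [coeff_act_pv1, PowerSeries.coeff_zero_X_mul, Finset.Nat.antidiagonal_zero,
      Finset.sum_singleton]
    simp only
    rw [PowerSeries.coeff_zero_X_mul, map_zero]
  | succ n =>
    rw [coeff_act_pv1, PowerSeries.coeff_succ_X_mul, Finset.Nat.sum_antidiagonal_succ', coeff_act_pv1]
    simp only [PowerSeries.coeff_zero_X_mul, map_zero, zero_add, PowerSeries.coeff_succ_X_mul]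

theorem act_X_pow_mul (a : PowerSeries (Module.End ℝ F)) (n : ℕ) (g : PowerSeries F) :
    act a (PowerSeries.X ^ n * g) = PowerSeries.X ^ n * act a g := by
  induction n with
  | zero => rw [pow_zero, one_mul, one_mul]
  | succ n ih => rw [pow_succ', mul_assoc, act_X_mul, ih, mul_assoc]

private theorem act_X (g : PowerSeries F) :
    act (PowerSeries.X : PowerSeries (Module.End ℝ F)) g = PowerSeries.X * g := by
  ext n
  cases n with
  | zero =>
    rw [coeff_act_pv1, PowerSeries.coeff_zero_X_mul, Finset.Nat.antidiagonal_zero,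
      Finset.sum_singleton]
    simp only
    rw [PowerSeries.coeff_zero_X, LinearMap.zero_apply]
  | succ n =>
    rw [coeff_act_pv1, PowerSeries.coeff_succ_X_mul, Finset.Nat.sum_antidiagonal_succ]
    simp only
    rw [PowerSeries.coeff_zero_X, LinearMap.zero_apply, zero_add, Finset.sum_eq_single (0, n)]
    · simp only
      rw [zero_add, PowerSeries.coeff_one_X]
      rfl
    · rintro ⟨p, q⟩ hp hne
      rw [HasAntidiagonal.mem_antidiagonal] at hp
      simp only at hp ⊢
      rw [PowerSeries.coeff_X, if_neg, LinearMap.zero_apply]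
      intro h
      apply hne
      have hp0 : p = 0 := by omega
      rw [hp0, zero_add] at hp
      rw [hp0, hp]
    · intro h
      exact absurd (HasAntidiagonal.mem_antidiagonal.2 (zero_add n)) h

private theorem act_C_mu (c : F) (g : PowerSeries F) :
    act (PowerSeries.C (mu c)) g = PowerSeries.C c * g := by
  ext n
  rw [coeff_act_pv1, PowerSeries.coeff_C_mul, Finset.sum_eq_single (0, n)]
  · rw [PowerSeries.coeff_C, if_pos rfl]
    rfl
  · rintro ⟨p, q⟩ hp hne
    rw [HasAntidiagonal.mem_antidiagonal] at hp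
    simp only at hp ⊢
    rw [PowerSeries.coeff_C, if_neg, LinearMap.zero_apply]
    rintro rfl
    apply hne
    rw [zero_add] at hp
    rw [hp]
  · intro h
    exact absurd (HasAntidiagonal.mem_antidiagonal.2 (zero_add n)) h

variable {N : ℕ} (D : DF F N)

/-- `DD i` applied coefficientwise -/
noncomputable def dD (i : Fin N) (g : PowerSeries F) : PowerSeries F :=
  PowerSeries.mk fun n => D.DD i (PowerSeries.coeff n g)

private theorem coeff_dD (i : Fin N) (g : PowerSeries F) (n : ℕ) :
    PowerSeries.coeff n (dD D i g) = D.DD i (PowerSeries.coeff n g) := PowerSeries.coeff_mk _ _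

private theorem coeff_KK (i : Fin N) (n : ℕ) :
    PowerSeries.coeff n (D.KK i) = (-(D.DD i)) ^ n := PowerSeries.coeff_mk _ _

private theorem KK_zero (i : Fin N) (g : PowerSeries F) :
    PowerSeries.coeff 0 (act (D.KK i) g) = PowerSeries.coeff 0 g := by
  rw [coeff_act_pv1, Finset.Nat.antidiagonal_zero, Finset.sum_singleton]
  simp only
  rw [coeff_KK, pow_zero]
  rfl

private theorem KK_succ (i : Fin N) (g : PowerSeries F) (n : ℕ) :
    PowerSeries.coeff (n + 1) (act (D.KK i) g) =
      PowerSeries.coeff (n + 1) g - D.DD i (PowerSeries.coeff n (act (D.KK i) g)) := by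
  rw [coeff_act_pv1, Finset.Nat.sum_antidiagonal_succ]
  simp only
  rw [coeff_KK, pow_zero, coeff_act_pv1, map_sum, sub_eq_add_neg, ← Finset.sum_neg_distrib]
  congr 1
  refine Finset.sum_congr rfl fun p _ => ?_
  rw [coeff_KK, coeff_KK, pow_succ', Module.End.mul_apply, LinearMap.neg_apply]

theorem act_KK_iff (i : Fin N) (g h : PowerSeries F) :
    act (D.KK i) g = h ↔ h + PowerSeries.X * dD D i h = g := by
  constructor
  · rintro rfl
    ext n
    cases n with
    | zero => rw [map_add, PowerSeries.coeff_zero_X_mul, add_zero, KK_zero]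
    | succ n =>
      rw [map_add, PowerSeries.coeff_succ_X_mul, coeff_dD, KK_succ, sub_add_cancel]
  · intro hh
    ext n
    induction n with
    | zero =>
      rw [KK_zero, ← hh, map_add, PowerSeries.coeff_zero_X_mul, add_zero]
    | succ n ih =>
      rw [KK_succ, ih, ← hh, map_add, PowerSeries.coeff_succ_X_mul, coeff_dD,
        add_sub_cancel_right]

theorem act_AA_eq (i : Fin N) (g : PowerSeries F) :
    act (D.AA i) g =
      g - PowerSeries.X * (PowerSeries.C (1 / D.s i) * act (D.KK i) g) := by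
  unfold DF.AA
  rw [act_sub_left, act_one, act_mul, act_X, act_mul, act_C_mu]

private theorem DD_apply (i : Fin N) (x : F) :
    D.DD i x = D.d i x - 1 / (2 * D.s i) * x := rfl

private theorem d_s (i k : Fin N) (hik : i ≠ k) : D.d k (D.s i) = 0 := by
  rw [D.ds, if_neg (Ne.symm hik)]

private theorem d_div (k : Fin N) (a b : F) (ha : D.d k a = 0) (hb : D.d k b = 0) :
    D.d k (a / b) = 0 := by
  rw [Derivation.leibniz_div, ha, hb, smul_zero, smul_zero, sub_zero, smul_zero]

private theorem d_mul (k : Fin N) (a b : F) (ha : D.d k a = 0) (hb : D.d k b = 0) :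
    D.d k (a * b) = 0 := by
  rw [Derivation.leibniz, ha, hb, smul_zero, smul_zero, add_zero]

private theorem d_inv_pv1 (i k : Fin N) (hik : i ≠ k) : D.d k (1 / D.s i) = 0 :=
  d_div D k _ _ (Derivation.map_one_eq_zero _) (d_s D i k hik)

private theorem d_two (k : Fin N) : D.d k (2 : F) = 0 := by
  have h1 : (2 : F) = 1 + 1 := by norm_num
  rw [h1, map_add, Derivation.map_one_eq_zero, add_zero]

private theorem d_inv2 (i k : Fin N) (hik : i ≠ k) : D.d k (1 / (2 * D.s i)) = 0 :=
  d_div D k _ _ (Derivation.map_one_eq_zero _) (d_mul D k _ _ (d_two D k) (d_s D i k hik))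

private theorem DD_mul_cst (i : Fin N) (c x : F) (hc : D.d i c = 0) :
    D.DD i (c * x) = c * D.DD i x := by
  rw [DD_apply, DD_apply, Derivation.leibniz, hc, smul_zero, add_zero, smul_eq_mul]
  ring

private theorem dD_mul_cst (i : Fin N) (g h : PowerSeries F) (hg : Cst D i g) :
    dD D i (g * h) = g * dD D i h := by
  ext n
  rw [coeff_dD, PowerSeries.coeff_mul, PowerSeries.coeff_mul, map_sum]
  refine Finset.sum_congr rfl fun p _ => ?_
  rw [DD_mul_cst D i _ _ (hg _), coeff_dD]

private theorem dD_add_pv1 (i : Fin N) (g h : PowerSeries F) :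
    dD D i (g + h) = dD D i g + dD D i h := by
  ext n
  rw [coeff_dD, map_add, map_add, map_add, coeff_dD, coeff_dD]

private theorem dD_X_mul_pv1 (i : Fin N) (g : PowerSeries F) :
    dD D i (PowerSeries.X * g) = PowerSeries.X * dD D i g := by
  ext n
  cases n with
  | zero => rw [coeff_dD, PowerSeries.coeff_zero_X_mul, PowerSeries.coeff_zero_X_mul, map_zero]
  | succ n => rw [coeff_dD, PowerSeries.coeff_succ_X_mul, PowerSeries.coeff_succ_X_mul, coeff_dD]

private theorem DD_comm (i j : Fin N) (x : F) : D.DD i (D.DD j x) = D.DD j (D.DD i x) := by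
  by_cases hij : i = j
  · rw [hij]
  · rw [DD_apply, DD_apply, DD_apply, DD_apply, map_sub, map_sub, Derivation.leibniz,
      Derivation.leibniz, d_inv2 D j i (Ne.symm hij), d_inv2 D i j hij, D.comm i j, smul_zero,
      add_zero, add_zero, smul_eq_mul, smul_eq_mul]
    ring

private theorem dD_comm (i j : Fin N) (g : PowerSeries F) :
    dD D i (dD D j g) = dD D j (dD D i g) := by
  ext n
  rw [coeff_dD, coeff_dD, coeff_dD, coeff_dD, DD_comm]

theorem act_KK_cst (i : Fin N) (g h : PowerSeries F) (hg : Cst D i g) :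
    act (D.KK i) (g * h) = g * act (D.KK i) h := by
  rw [act_KK_iff]
  have h1 := (act_KK_iff D i h (act (D.KK i) h)).1 rfl
  rw [dD_mul_cst D i _ _ hg]
  conv_rhs => rw [← h1]
  ring

theorem act_AA_cst (i : Fin N) (g h : PowerSeries F) (hg : Cst D i g) :
    act (D.AA i) (g * h) = g * act (D.AA i) h := by
  rw [act_AA_eq, act_AA_eq, act_KK_cst D i g h hg]
  ring

theorem act_KK_comm (i j : Fin N) (g : PowerSeries F) :
    act (D.KK i) (act (D.KK j) g) = act (D.KK j) (act (D.KK i) g) := by
  have h1 := (act_KK_iff D i g (act (D.KK i) g)).1 rfl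
  have h2 := (act_KK_iff D j (act (D.KK i) g) (act (D.KK j) (act (D.KK i) g))).1 rfl
  rw [act_KK_iff]
  symm
  rw [act_KK_iff]
  rw [← h2] at h1
  rw [dD_add_pv1, dD_X_mul_pv1] at h1
  rw [dD_add_pv1, dD_X_mul_pv1, dD_comm D j i]
  conv_rhs => rw [← h1]
  ring

theorem act_AA_comm (i j : Fin N) (g : PowerSeries F) :
    act (D.AA i) (act (D.AA j) g) = act (D.AA j) (act (D.AA i) g) := by
  by_cases hij : i = j
  · rw [hij]
  have hc1 : ∀ i k : Fin N, i ≠ k → Cst D k (PowerSeries.C (1 / D.s i)) := by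
    intro i k hik n
    rw [PowerSeries.coeff_C]
    by_cases hn : n = 0
    · rw [if_pos hn]; exact d_inv_pv1 D i k hik
    · rw [if_neg hn, map_zero]
  rw [act_AA_eq D i, act_AA_eq D j, act_AA_eq D j, act_AA_eq D i, act_sub, act_sub, act_X_mul,
    act_X_mul, act_KK_cst D i _ _ (hc1 j i (Ne.symm hij)), act_KK_cst D j _ _ (hc1 i j hij),
    act_KK_comm D i j]
  ring

/-- constants form a ring -/
theorem Cst.mul {i : Fin N} {g h : PowerSeries F} (hg : Cst D i g) (hh : Cst D i h) :
    Cst D i (g * h) := by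
  intro n
  rw [PowerSeries.coeff_mul, map_sum]
  refine Finset.sum_eq_zero fun p _ => ?_
  exact d_mul D i _ _ (hg _) (hh _)

theorem Cst.add {i : Fin N} {g h : PowerSeries F} (hg : Cst D i g) (hh : Cst D i h) :
    Cst D i (g + h) := by
  intro n
  rw [map_add, map_add, hg, hh, add_zero]

theorem Cst.neg {i : Fin N} {g : PowerSeries F} (hg : Cst D i g) : Cst D i (-g) := by
  intro n
  rw [map_neg, map_neg, hg, neg_zero]

theorem Cst.sum {i : Fin N} {β : Type} (s : Finset β) (g : β → PowerSeries F)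
    (hg : ∀ b ∈ s, Cst D i (g b)) : Cst D i (∑ b ∈ s, g b) := by
  intro n
  rw [map_sum, map_sum]
  exact Finset.sum_eq_zero fun b hb => hg b hb n

private theorem Cst_C (k : Fin N) (c : F) (hc : D.d k c = 0) : Cst D k (PowerSeries.C c) := by
  intro n
  rw [PowerSeries.coeff_C]
  by_cases hn : n = 0
  · rw [if_pos hn]; exact hc
  · rw [if_neg hn, map_zero]

theorem Cst.C_real (i : Fin N) (a : ℝ) : Cst D i (PowerSeries.C (algebraMap ℝ F a)) :=
  Cst_C D i _ (Derivation.map_algebraMap _ _)

theorem Cst.C_s (i k : Fin N) (hik : i ≠ k) : Cst D k (PowerSeries.C (D.s i)) :=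
  Cst_C D k _ (d_s D i k hik)

theorem Cst.C_inv (i k : Fin N) (hik : i ≠ k) : Cst D k (PowerSeries.C (1 / D.s i)) :=
  Cst_C D k _ (d_inv_pv1 D i k hik)

theorem Cst.X_pow (i : Fin N) (n : ℕ) : Cst D i (PowerSeries.X ^ n : PowerSeries F) := by
  intro m
  rw [PowerSeries.coeff_X_pow]
  by_cases hn : m = n
  · rw [if_pos hn]; exact Derivation.map_one_eq_zero _
  · rw [if_neg hn, map_zero]

theorem Cst.C_sig (i j k : Fin N) (hik : i ≠ k) (hjk : j ≠ k) :
    Cst D k (PowerSeries.C (sig D i j)) := by
  refine Cst_C D k _ ?_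
  unfold sig
  refine d_div D k _ _ ?_ ?_
  · rw [map_sub, d_s D i k hik, d_s D j k hjk, sub_zero]
  · rw [map_add, d_s D i k hik, d_s D j k hjk, add_zero]

private theorem d_kap (i k : Fin N) (hik : i ≠ k) (n : ℕ) : D.d k (kap D i n) = 0 := by
  unfold kap
  refine d_mul D k _ _ (Derivation.map_algebraMap _ _) ?_
  rw [Derivation.leibniz_pow, d_inv_pv1 D i k hik, smul_zero, smul_zero]

theorem Cst.C_kap (i k : Fin N) (hik : i ≠ k) (n : ℕ) :
    Cst D k (PowerSeries.C (kap D i n)) := Cst_C D k _ (d_kap D i k hik n)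

theorem Cst.kser (i k : Fin N) (hik : i ≠ k) : Cst D k (kser D i) := by
  intro n
  unfold MVD.kser
  rw [PowerSeries.coeff_mk]
  exact d_kap D i k hik n

private theorem cst_KK (i k : Fin N) (hik : i ≠ k) (g : PowerSeries F) (hg : Cst D k g) :
    Cst D k (act (D.KK i) g) := by
  intro n
  induction n with
  | zero => rw [KK_zero]; exact hg 0
  | succ n ih =>
    rw [KK_succ, map_sub, hg, DD_apply, map_sub, D.comm k i, ih, map_zero,
      d_mul D k _ _ (d_inv2 D i k hik) ih, sub_zero, sub_zero]

theorem cst_act (i k : Fin N) (hik : i ≠ k) (g : PowerSeries F) (hg : Cst D k g) :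
    Cst D k (act (D.AA i) g) := by
  rw [act_AA_eq, sub_eq_add_neg]
  refine Cst.add D hg (Cst.neg D (Cst.mul D ?_ (Cst.mul D (Cst.C_inv D i k hik)
    (cst_KK D i k hik g hg))))
  have h1 := Cst.X_pow D k 1
  rw [pow_one] at h1
  exact h1

theorem act_AN (g : PowerSeries F) :
    act D.AN g = (List.finRange N).foldr (fun i g => act (D.AA i) g) g := by
  unfold DF.AN
  rw [List.ofFn_eq_map]
  induction List.finRange N with
  | nil => exact act_one g
  | cons i l ih => rw [List.map_cons, List.prod_cons, act_mul, ih, List.foldr_cons]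

end

end Pool.Agent.Helper90.MVD
end

/- Helper90.MVD.OpB -/
section
/-!
Module MVD-18 (project MV, block D2): the operator `𝒜_i` on the entries of the Pfaffians (D2.1).

Notation: `W = PowerSeries.X`, `κ_n = kap D i n = c_n s^{-n}`, `k = kser D i = ∑ W^n κ_n`,
`𝒟 = dD D i` (coefficientwise `D_i = ∂_i - 1/(2 s_i)`), `K = act (KK i)`, so `K g = h ↔ h + W 𝒟h = g`.
* `D_i κ_n = - κ_{n+1}` (`c_{n+1} = (n + 1/2) c_n`, `∂_i s^{-n} = -n s^{-n-1}`).
* Hence `k + W 𝒟k = ∑ W^n κ_n - ∑ W^{n+1} κ_{n+1} = 1`: `K 1 = k`.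
* `act_E`: `K k = h` where `W h = (1/2) W k + s (k - 1)`, i.e. `h = k/2 + s (k-1)/W`
  (`h_n = κ_n/2 + s κ_{n+1} = (n+1) κ_n`). Check of `h + W 𝒟h = k` coefficientwise:
  `h_{n+1} + D_i h_n = (n+2) κ_{n+1} - [(n+1) κ_{n+1}] = κ_{n+1}` (`h_n = (n+1) κ_n` since
  `s κ_{n+1} = (n+1/2) κ_n`), `h_0 = κ_0 = 1 = k_0`.
  Then `𝒜(2k-1) = 2k - 1 - W s^{-1} (2 K k - K 1) = 2k - 1 - W s^{-1} (2h - k)`, and coefficient
  `n+1`: `2 κ_{n+1} - s^{-1} (2(n+1) - 1) κ_n = 2 κ_{n+1} - 2 s^{-1} (n+1/2) κ_n = 0`; coefficient `0`: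
  `2 - 1 = 1`. So `𝒜(2k-1) = 1`.
* `act_kap`: `K (C κ_n) = ∑_m W^m κ_{n+m}` (check `+ W 𝒟`), so `W^n K (C κ_n) = k - ∑_{m<n} W^m κ_m`, and
  `W^n 𝒜 (C κ_n) = W^n κ_n - W s^{-1} (k - ∑_{m<n} W^m κ_m) = (1 - W s^{-1} k) + rem`,
  `rem = W^n κ_n - 1 + ∑_{m<n} W^{m+1} s^{-1} κ_m`.
* `act_sig`: `K_1 K_2 σ =: x`, `K_1 σ = x + W 𝒟_2 x`, `K_2 σ = x + W 𝒟_1 x`. Claim (multiply by
  `s_1 s_2 / W`): `-s_2 K_1 σ - s_1 K_2 σ + W x = s_2 k_1 - s_1 k_2`. Apply the injective operator
  `(1+W𝒟_1)(1+W𝒟_2)` (injective by `act_KK_iff`): left side: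
  `-(1+W𝒟_2)(s_2 σ) - (1+W𝒟_1)(s_1 σ) + W σ = -(s_1+s_2) σ - W (s_1 D_1 σ + s_2 D_2 σ) - 2 W σ + W σ`,
  and `s_1 D_1 σ + s_2 D_2 σ = (s_1 ∂_1 + s_2 ∂_2) σ - σ = -σ` (homogeneous of degree 0), so it is
  `-(s_1+s_2) σ = -(s_1 - s_2)`; right side: `(1+W𝒟_2) s_2 - (1+W𝒟_1) s_1 = s_2 + W/2 - s_1 - W/2`
  (`(1+W𝒟_i) k_i = 1`, and `𝒟_i` commutes with functions of the other variable, `D_i s_i = 1/2`).
  Then `𝒜_1 𝒜_2 σ = σ - W s_1^{-1} K_1 σ - W s_2^{-1} K_2 σ + W² s_1^{-1} s_2^{-1} x
  = σ + W s_1^{-1} k_1 - W s_2^{-1} k_2 = σ - U_1 + U_2`.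
  Coefficientwise alternative (helper14): `(s_1+s_2) x_n = (n+1) x_{n-1} + c_n (s_1 s_2^{-n} - s_2 s_1^{-n})`.
-/

namespace Pool.Agent.Helper90.MVD

open Finset Pool.Agent.Helper60.MV Pool.Agent.Helper52.MVD

variable {F : Type} [Field F] [Algebra ℝ F] {N : ℕ} (D : DF F N)

/-- the polynomial part of `W^n 𝒜_i κ_n` -/
noncomputable def rem (i : Fin N) (n : ℕ) : PowerSeries F :=
  PowerSeries.X ^ n * PowerSeries.C (kap D i n) - 1 +
    ∑ m ∈ range n, PowerSeries.X ^ (m + 1) * PowerSeries.C (kap D i m * (1 / D.s i))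

theorem rem_deg (i : Fin N) (n k : ℕ) (hk : n < k) : PowerSeries.coeff k (rem D i n) = 0 := by
  unfold rem
  have h1 : PowerSeries.coeff k (PowerSeries.X ^ n * PowerSeries.C (kap D i n)) = (0 : F) := by
    rw [mul_comm, PowerSeries.coeff_C_mul, PowerSeries.coeff_X_pow, if_neg (by omega), mul_zero]
  have h2 : ∀ m ∈ range n, PowerSeries.coeff k
      (PowerSeries.X ^ (m + 1) * PowerSeries.C (kap D i m * (1 / D.s i))) = (0 : F) := by
    intro m hm
    have := Finset.mem_range.1 hm
    rw [mul_comm, PowerSeries.coeff_C_mul, PowerSeries.coeff_X_pow, if_neg (by omega), mul_zero]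
  rw [map_add, map_sub, h1, map_sum, Finset.sum_eq_zero h2, PowerSeries.coeff_one,
    if_neg (by omega)]
  ring

theorem cc_succ' (n : ℕ) : cc (n + 1) = cc n * ((n : ℝ) + 1 / 2) := by
  unfold cc
  rw [Finset.prod_range_succ]

theorem kap_zero (i : Fin N) : kap D i 0 = 1 := by
  simp [kap, cc]

theorem kap_succ (i : Fin N) (n : ℕ) :
    kap D i (n + 1) = ((n : F) + 1 / 2) * (1 / D.s i) * kap D i n := by
  have := charZero_of_real F
  unfold kap
  rw [cc_succ', map_mul, map_add, map_natCast, map_div₀, map_one, map_ofNat]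
  ring

theorem rem_zero (i : Fin N) : rem D i 0 = 0 := by
  unfold rem
  rw [kap_zero]
  simp

/-! ### the operator `DD` on elements -/

theorem DD_apply' (i : Fin N) (x : F) : D.DD i x = D.d i x - 1 / (2 * D.s i) * x := rfl

theorem half_inv (i : Fin N) : 1 / (2 * D.s i) = (1 / 2 : F) * (1 / D.s i) := by
  rw [one_div_mul_one_div]

theorem d_inv (i j : Fin N) (hij : i ≠ j) : D.d i (1 / D.s j) = 0 := by
  rw [one_div, Derivation.leibniz_inv, D.ds, if_neg hij, smul_zero]

theorem d_inv_self (i : Fin N) : D.d i (1 / D.s i) = -(1 / D.s i) ^ 2 := by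
  rw [one_div, Derivation.leibniz_inv, D.ds, if_pos rfl, smul_eq_mul, mul_one]

theorem d_real (i : Fin N) (a : ℝ) : D.d i (algebraMap ℝ F a) = 0 := Derivation.map_algebraMap _ _

theorem d_half (i : Fin N) : D.d i (1 / 2 : F) = 0 := by
  have h := d_real D i (1 / 2 : ℝ)
  rw [map_div₀, map_one, map_ofNat] at h
  exact h

theorem d_inv_pow (i : Fin N) (n : ℕ) :
    D.d i ((1 / D.s i) ^ n) = -((n : F) * (1 / D.s i) ^ (n + 1)) := by
  induction n with
  | zero => simp
  | succ n ih =>
    rw [pow_succ, Derivation.leibniz, ih, d_inv_self]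
    simp only [smul_eq_mul]
    push_cast
    ring

theorem DD_kap (i : Fin N) (n : ℕ) : D.DD i (kap D i n) = - kap D i (n + 1) := by
  rw [DD_apply', kap_succ]
  unfold kap
  rw [Derivation.leibniz, d_inv_pow, d_real, half_inv]
  simp only [smul_eq_mul]
  ring

theorem DD_kap_ne (i j : Fin N) (hij : i ≠ j) (n : ℕ) :
    D.DD i (kap D j n) = - (1 / (2 * D.s i)) * kap D j n := by
  rw [DD_apply']
  have h : D.d i (kap D j n) = 0 := by
    unfold kap
    rw [Derivation.leibniz, Derivation.leibniz_pow, d_inv D i j hij, d_real]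
    simp
  rw [h]
  ring

theorem DD_comm' (i j : Fin N) (hij : i ≠ j) (x : F) :
    D.DD i (D.DD j x) = D.DD j (D.DD i x) := by
  have h1 : ∀ (a b : Fin N), a ≠ b → D.d a (1 / (2 * D.s b)) = 0 := by
    intro a b hab
    rw [half_inv, Derivation.leibniz, d_inv D a b hab, d_half]
    simp
  rw [DD_apply', DD_apply', DD_apply', DD_apply', map_sub, map_sub, Derivation.leibniz,
    Derivation.leibniz, h1 i j hij, h1 j i (Ne.symm hij), D.comm i j x]
  simp only [smul_eq_mul]
  ring

/-! ### coefficientwise -/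

theorem dD_add (i : Fin N) (g h : PowerSeries F) : dD D i (g + h) = dD D i g + dD D i h := by
  ext n
  simp only [dD, PowerSeries.coeff_mk, map_add]

theorem dD_sub (i : Fin N) (g h : PowerSeries F) : dD D i (g - h) = dD D i g - dD D i h := by
  ext n
  simp only [dD, PowerSeries.coeff_mk, map_sub]

theorem dD_neg (i : Fin N) (g : PowerSeries F) : dD D i (-g) = - dD D i g := by
  ext n
  simp only [dD, PowerSeries.coeff_mk, map_neg]

theorem dD_C (i : Fin N) (c : F) : dD D i (PowerSeries.C c) = PowerSeries.C (D.DD i c) := by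
  ext n
  simp only [dD, PowerSeries.coeff_mk, PowerSeries.coeff_C]
  split
  · rfl
  · exact map_zero _

theorem dD_X_mul (i : Fin N) (g : PowerSeries F) :
    dD D i (PowerSeries.X * g) = PowerSeries.X * dD D i g := by
  ext n
  cases n with
  | zero =>
    simp only [dD, PowerSeries.coeff_mk, PowerSeries.coeff_zero_X_mul, map_zero]
  | succ n =>
    simp only [dD, PowerSeries.coeff_mk, PowerSeries.coeff_succ_X_mul]

theorem dD_C_mul (i : Fin N) (c : F) (g : PowerSeries F) :
    dD D i (PowerSeries.C c * g) = PowerSeries.C (D.d i c) * g + PowerSeries.C c * dD D i g := by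
  ext n
  simp only [dD, PowerSeries.coeff_mk, PowerSeries.coeff_C_mul, map_add, DD_apply',
    Derivation.leibniz, smul_eq_mul]
  ring

theorem dD_comm' (i j : Fin N) (hij : i ≠ j) (g : PowerSeries F) :
    dD D i (dD D j g) = dD D j (dD D i g) := by
  ext n
  simp only [dD, PowerSeries.coeff_mk]
  exact DD_comm' D i j hij _

/-- injectivity of `1 + X dD` -/
theorem L_inj (i : Fin N) (y : PowerSeries F) (h : y + PowerSeries.X * dD D i y = 0) : y = 0 := by
  rw [← (act_KK_iff D i 0 y).2 h, act_zero]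

theorem L_kser (i : Fin N) : kser D i + PowerSeries.X * dD D i (kser D i) = 1 := by
  ext n
  cases n with
  | zero =>
    simp only [map_add, PowerSeries.coeff_zero_X_mul, kser, PowerSeries.coeff_mk, kap_zero,
      PowerSeries.coeff_one, add_zero, if_true]
  | succ n =>
    simp only [map_add, PowerSeries.coeff_succ_X_mul, kser, dD, PowerSeries.coeff_mk, DD_kap,
      PowerSeries.coeff_one]
    simp

theorem dD_kser_ne (i j : Fin N) (hij : i ≠ j) :
    dD D i (kser D j) = - (PowerSeries.C (1 / (2 * D.s i)) * kser D j) := by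
  ext n
  simp only [dD, kser, PowerSeries.coeff_mk, map_neg, PowerSeries.coeff_C_mul,
    DD_kap_ne D i j hij]
  ring

theorem act_KK_E (i : Fin N) : act (D.KK i) (2 * kser D i - 1) =
    PowerSeries.mk fun n => ((2 * (n : F) + 1) * kap D i n) := by
  rw [act_KK_iff]
  have h2 : (2 : PowerSeries F) = PowerSeries.C (2 : F) := (map_ofNat PowerSeries.C 2).symm
  ext n
  cases n with
  | zero =>
    rw [h2]
    simp only [map_add, map_sub, PowerSeries.coeff_zero_X_mul, kser, PowerSeries.coeff_mk,
      kap_zero, PowerSeries.coeff_one, PowerSeries.coeff_C_mul, if_true]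
    push_cast
    ring
  | succ n =>
    have h3 : D.DD i ((2 * (n : F) + 1) * kap D i n) = -((2 * (n : F) + 1) * kap D i (n + 1)) := by
      have h4 : (2 * (n : F) + 1) * kap D i n = (2 * (n : ℝ) + 1) • kap D i n := by
        rw [Algebra.smul_def, map_add, map_mul, map_natCast, map_ofNat, map_one]
      have h5 : (2 * (n : F) + 1) * kap D i (n + 1) = (2 * (n : ℝ) + 1) • kap D i (n + 1) := by
        rw [Algebra.smul_def, map_add, map_mul, map_natCast, map_ofNat, map_one]
      rw [h4, map_smul, DD_kap, smul_neg, h5]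
    rw [h2]
    simp only [map_add, map_sub, PowerSeries.coeff_succ_X_mul, kser, dD, PowerSeries.coeff_mk,
      PowerSeries.coeff_one, PowerSeries.coeff_C_mul, h3]
    rw [if_neg (Nat.succ_ne_zero n)]
    push_cast
    ring

theorem act_E (i : Fin N) : act (D.AA i) (2 * kser D i - 1) = 1 := by
  have := charZero_of_real F
  rw [act_AA_eq, act_KK_E]
  have h2 : (2 : PowerSeries F) = PowerSeries.C (2 : F) := (map_ofNat PowerSeries.C 2).symm
  rw [h2]
  ext n
  cases n with
  | zero =>
    simp only [map_sub, PowerSeries.coeff_zero_X_mul, kser, PowerSeries.coeff_mk,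
      kap_zero, PowerSeries.coeff_one, PowerSeries.coeff_C_mul, if_true]
    ring
  | succ n =>
    simp only [map_sub, PowerSeries.coeff_succ_X_mul, kser, PowerSeries.coeff_mk,
      PowerSeries.coeff_one, PowerSeries.coeff_C_mul]
    rw [if_neg (Nat.succ_ne_zero n), kap_succ]
    ring

theorem shift_kser (i : Fin N) (n : ℕ) :
    PowerSeries.X ^ n * (PowerSeries.mk fun m => kap D i (n + m)) +
      ∑ m ∈ range n, PowerSeries.X ^ m * PowerSeries.C (kap D i m) = kser D i := by
  induction n with
  | zero => simp [kser]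
  | succ n ih =>
    rw [← ih, Finset.sum_range_succ]
    have h1 : (PowerSeries.mk fun m => kap D i (n + m)) =
        PowerSeries.X * (PowerSeries.mk fun m => kap D i (n + 1 + m)) +
          PowerSeries.C (kap D i n) := by
      ext m
      cases m with
      | zero =>
        simp only [map_add, PowerSeries.coeff_zero_X_mul, PowerSeries.coeff_mk,
          PowerSeries.coeff_C, if_true, add_zero, zero_add]
      | succ m =>
        simp only [map_add, PowerSeries.coeff_succ_X_mul, PowerSeries.coeff_mk,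
          PowerSeries.coeff_C]
        rw [if_neg (Nat.succ_ne_zero m), add_zero]
        congr 1
        ring
    rw [h1]
    ring

theorem act_KK_kap (i : Fin N) (n : ℕ) : act (D.KK i) (PowerSeries.C (kap D i n)) =
    PowerSeries.mk fun m => kap D i (n + m) := by
  rw [act_KK_iff]
  ext m
  cases m with
  | zero =>
    simp only [map_add, PowerSeries.coeff_zero_X_mul, PowerSeries.coeff_mk,
      PowerSeries.coeff_C, if_true, add_zero]
  | succ m =>
    simp only [map_add, PowerSeries.coeff_succ_X_mul, PowerSeries.coeff_mk, dD,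
      PowerSeries.coeff_C, DD_kap]
    rw [if_neg (Nat.succ_ne_zero m)]
    have : n + (m + 1) = n + m + 1 := by ring
    rw [this]
    ring

theorem act_kap (i : Fin N) (n : ℕ) :
    PowerSeries.X ^ n * act (D.AA i) (PowerSeries.C (kap D i n)) = Us D i + rem D i n := by
  rw [act_AA_eq, act_KK_kap]
  have h := shift_kser D i n
  have h1 : ∑ m ∈ range n, (PowerSeries.X : PowerSeries F) ^ (m + 1) *
      PowerSeries.C (kap D i m * (1 / D.s i)) =
      PowerSeries.X * (PowerSeries.C (1 / D.s i) *
        ∑ m ∈ range n, PowerSeries.X ^ m * PowerSeries.C (kap D i m)) := by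
    rw [Finset.mul_sum, Finset.mul_sum]
    refine Finset.sum_congr rfl fun m _ => ?_
    rw [map_mul]
    ring
  unfold Us rem
  rw [h1, ← h]
  ring

theorem sig_eq (i j : Fin N) : (D.s i + D.s j) * sig D i j = D.s i - D.s j := by
  unfold sig
  rw [mul_div_cancel₀ _ (s_add_ne D i j)]

theorem sig_hom (i j : Fin N) (hij : i ≠ j) :
    D.s i * D.d i (sig D i j) + D.s j * D.d j (sig D i j) = 0 := by
  have h1 := congrArg (D.d i) (sig_eq D i j)
  have h2 := congrArg (D.d j) (sig_eq D i j)
  simp only [Derivation.leibniz, map_add, map_sub, D.ds, if_neg hij, if_neg (Ne.symm hij),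
    if_true, smul_eq_mul] at h1 h2
  have h3 := sig_eq D i j
  have h4 := s_add_ne D i j
  apply mul_left_cancel₀ h4
  linear_combination (D.s i) * h1 + (D.s j) * h2 - h3

theorem DD_s_sig (i j : Fin N) (hij : i ≠ j) :
    D.DD j (D.s j * sig D i j) + D.s i * D.DD i (sig D i j) = 0 := by
  have := charZero_of_real F
  rw [DD_apply', DD_apply', Derivation.leibniz, D.ds, if_pos rfl]
  simp only [smul_eq_mul]
  have h := sig_hom D i j hij
  have hi := s_ne D i
  have hj := s_ne D j
  have h1 : 1 / (2 * D.s j) * (D.s j * sig D i j) = 1 / 2 * sig D i j := by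
    field_simp
  have h2 : D.s i * (1 / (2 * D.s i) * sig D i j) = 1 / 2 * sig D i j := by
    field_simp
  rw [h1, mul_sub, h2]
  linear_combination h

theorem DD_s (j : Fin N) : D.DD j (D.s j) = 1 / 2 := by
  have := charZero_of_real F
  rw [DD_apply', D.ds, if_pos rfl]
  have hj := s_ne D j
  field_simp
  norm_num

theorem act_sig (i j : Fin N) (hij : i ≠ j) :
    act (D.AA i) (act (D.AA j) (PowerSeries.C (sig D i j))) =
      PowerSeries.C (sig D i j) - Us D i + Us D j := by
  have := charZero_of_real F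
  set σ : F := sig D i j with hσ
  set A := act (D.KK i) (PowerSeries.C σ) with hA
  set B := act (D.KK j) (PowerSeries.C σ) with hB
  set x := act (D.KK i) B with hx
  have f1 : A + PowerSeries.X * dD D i A = PowerSeries.C σ := (act_KK_iff D i _ _).1 hA.symm
  have f2 : B + PowerSeries.X * dD D j B = PowerSeries.C σ := (act_KK_iff D j _ _).1 hB.symm
  have f3 : x + PowerSeries.X * dD D i x = B := (act_KK_iff D i _ _).1 hx.symm
  have f4 := L_kser D i
  have f5 := L_kser D j
  have f6 := dD_kser_ne D i j hij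
  have f7 : dD D i B + PowerSeries.X * dD D j (dD D i B) = PowerSeries.C (D.DD i σ) := by
    have := congrArg (dD D i) f2
    rw [dD_add, dD_X_mul, dD_comm' D i j hij, dD_C] at this
    exact this
  have hsi := s_ne D i
  have hsj := s_ne D j
  have hhalf : PowerSeries.C (D.s i) * PowerSeries.C (1 / (2 * D.s i)) =
      (PowerSeries.C (1 / 2) : PowerSeries F) := by
    rw [← map_mul]
    congr 1
    field_simp
  have hC2 : (PowerSeries.C (1 / 2) : PowerSeries F) + PowerSeries.C (1 / 2) = 1 := by
    rw [← map_add]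
    norm_num
  -- the main identity
  set z : PowerSeries F := -(PowerSeries.C (D.s j * σ)) -
      PowerSeries.C (D.s i) * (B + PowerSeries.X * dD D i B) - PowerSeries.C (D.s j) +
      PowerSeries.C (D.s i) * kser D j + PowerSeries.X * (PowerSeries.C (1 / 2) * kser D j) with hz
  have hz0 : z = 0 := by
    apply L_inj D j
    have hdz : dD D j z = -(PowerSeries.C (D.DD j (D.s j * σ))) -
        PowerSeries.C (D.s i) * (dD D j B + PowerSeries.X * dD D j (dD D i B)) -
        PowerSeries.C (1 / 2) + PowerSeries.C (D.s i) * dD D j (kser D j) +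
        PowerSeries.X * (PowerSeries.C (1 / 2) * dD D j (kser D j)) := by
      rw [hz]
      simp only [dD_add, dD_sub, dD_neg, dD_X_mul, dD_C_mul, dD_C, D.ds, if_neg (Ne.symm hij),
        map_zero, zero_mul, zero_add, d_half, DD_s]
    rw [hdz, hz]
    have e1 : (PowerSeries.C (D.s j * σ) : PowerSeries F) + PowerSeries.C (D.s i) *
        PowerSeries.C σ + PowerSeries.C (D.s j) - PowerSeries.C (D.s i) = 0 := by
      rw [← map_mul, ← map_add, ← map_add, ← map_sub]
      rw [show D.s j * σ + D.s i * σ + D.s j - D.s i = 0 by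
        have := sig_eq D i j
        rw [← hσ] at this
        linear_combination this]
      exact map_zero _
    have e2 : (PowerSeries.C (D.DD j (D.s j * σ)) : PowerSeries F) +
        PowerSeries.C (D.s i) * PowerSeries.C (D.DD i σ) = 0 := by
      rw [← map_mul, ← map_add, hσ, DD_s_sig D i j hij]
      exact map_zero _
    linear_combination (-(PowerSeries.C (D.s i))) * f2 -
      (PowerSeries.C (D.s i)) * PowerSeries.X * f7 + (PowerSeries.C (D.s i)) * f5 +
      PowerSeries.X * PowerSeries.C (1 / 2) * f5 - e1 - PowerSeries.X * e2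
  have hy0 : -(PowerSeries.C (D.s j) * A) - PowerSeries.C (D.s i) * B + PowerSeries.X * x -
      PowerSeries.C (D.s j) * kser D i + PowerSeries.C (D.s i) * kser D j = 0 := by
    apply L_inj D i
    simp only [dD_add, dD_sub, dD_neg, dD_X_mul, dD_C_mul, D.ds, if_neg hij, if_true,
      map_zero, zero_mul, zero_add, map_one, one_mul, f6]
    have hmul : (PowerSeries.C (D.s j * σ) : PowerSeries F) =
      PowerSeries.C (D.s j) * PowerSeries.C σ := map_mul _ _ _
    rw [hz, hmul] at hz0
    linear_combination hz0 - (PowerSeries.C (D.s j)) * f1 + PowerSeries.X * f3 -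
      (PowerSeries.C (D.s j)) * f4 - PowerSeries.X * kser D j * hhalf +
      PowerSeries.X * kser D j * (1 - hC2)
  have hAA : act (D.AA i) (act (D.AA j) (PowerSeries.C σ)) =
      PowerSeries.C σ - PowerSeries.X * (PowerSeries.C (1 / D.s i) * A) -
      PowerSeries.X * (PowerSeries.C (1 / D.s j) *
        (B - PowerSeries.X * (PowerSeries.C (1 / D.s i) * x))) := by
    rw [act_AA_eq D j, act_sub, act_X_mul, act_AA_cst D i _ _ (Cst.C_inv D j i (Ne.symm hij)),
      act_AA_eq D i (PowerSeries.C σ), act_AA_eq D i (act (D.KK j) (PowerSeries.C σ))]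
  rw [hAA]
  unfold Us
  have hti : (PowerSeries.C (D.s i) : PowerSeries F) * PowerSeries.C (1 / D.s i) = 1 := by
    rw [← map_mul, mul_one_div, div_self hsi, map_one]
  have htj : (PowerSeries.C (D.s j) : PowerSeries F) * PowerSeries.C (1 / D.s j) = 1 := by
    rw [← map_mul, mul_one_div, div_self hsj, map_one]
  linear_combination PowerSeries.X * PowerSeries.C (1 / D.s i) * PowerSeries.C (1 / D.s j) * hy0 +
    PowerSeries.X * PowerSeries.C (1 / D.s i) * (A + kser D i) * htj +
    PowerSeries.X * PowerSeries.C (1 / D.s j) * (B - kser D j) * hti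

end Pool.Agent.Helper90.MVD
end

/- Helper90.MVD.ActPf -/
section
/-!
Module MVD-19 (project MV, block D2): the operators act on the entries of a Pfaffian.

Every letter `a` has a variable `v a : Option (Fin N)`; the entry `A a b` only depends on the
variables of `a` and `b` (hypothesis `hc`), the variables of the list are distinct. Then applying all
`𝒜_i` (`i` in the list) to `pfL A L` gives `pfL A' L`, `A' a b = op a (op b (A a b))`.

Proof by strong induction on the length. `L = x :: xs`: `pfL A L = ∑_j ± A x x_j * P_j`,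
`P_j = pfL A (xs.eraseIdx j)`. Write `opsL L` for the iterated operator of a list. It only depends on
the list up to permutation (`act_AA_comm`; `List.Perm.foldr_eq` or an own induction), and it is
additive (`act_add`), and commutes with signs, so
`opsL L (A x x_j * P_j) = op x (op x_j (opsL rest (A x x_j * P_j)))`, `rest = xs.eraseIdx j`.
`A x x_j` is constant for the variables of `rest` (`hc` and distinctness), so (`act_AA_cst`)
`opsL rest (A x x_j * P_j) = A x x_j * opsL rest P_j = A x x_j * pfL A' rest` by induction. And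
`pfL A' rest` is constant for the variables of `x` and `x_j`: every entry `A' a b`, `a, b ∈ rest`, is
(`cst_act`: `d k` commutes with the operators of the other variables; `Cst.mul`, `Cst.sum`). So
`op x (op x_j (A x x_j * Q)) = A' x x_j * Q` (commutativity of the product).
-/

namespace Pool.Agent.Helper90.MVD

open Finset Pool.Agent.Helper60.MV Pool.Agent.Helper52.MVD

variable {F : Type} [Field F] [Algebra ℝ F] {N : ℕ} (D : DF F N)

/-- operator of a variable -/
noncomputable def opv (v : Option (Fin N)) (g : PowerSeries F) : PowerSeries F :=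
  match v with
  | some i => act (D.AA i) g
  | none => g

private theorem opv_add (v : Option (Fin N)) (g h : PowerSeries F) :
    opv D v (g + h) = opv D v g + opv D v h := by
  cases v with
  | none => rfl
  | some i => exact act_add _ g h

private theorem opv_zero (v : Option (Fin N)) : opv D v 0 = 0 := by
  cases v with
  | none => rfl
  | some i => exact act_zero _

private theorem opv_comm (v w : Option (Fin N)) (g : PowerSeries F) :
    opv D v (opv D w g) = opv D w (opv D v g) := by
  cases v with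
  | none => rfl
  | some i =>
    cases w with
    | none => rfl
    | some j => exact act_AA_comm D i j g

private theorem opv_cst (v : Option (Fin N)) (g h : PowerSeries F)
    (hg : ∀ k, v = some k → Cst D k g) : opv D v (g * h) = g * opv D v h := by
  cases v with
  | none => rfl
  | some i => exact act_AA_cst D i g h (hg i rfl)

private theorem cst_opv (v : Option (Fin N)) (k : Fin N) (hv : v ≠ some k) (g : PowerSeries F)
    (hg : Cst D k g) : Cst D k (opv D v g) := by
  cases v with
  | none => exact hg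
  | some i => exact cst_act D i k (fun h => hv (by rw [h])) g hg

/-- iterated operator of a list of letters -/
private noncomputable def ops {α : Type} (v : α → Option (Fin N)) (L : List α)
    (g : PowerSeries F) : PowerSeries F :=
  L.foldr (fun a g => opv D (v a) g) g

private theorem ops_eq {α : Type} (v : α → Option (Fin N)) (L : List α) (g : PowerSeries F) :
    (L.filterMap v).foldr (fun i g => act (D.AA i) g) g = ops D v L g := by
  induction L with
  | nil => rfl
  | cons a L ih =>
    unfold ops at ih ⊢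
    rw [List.foldr_cons, ← ih]
    cases h : v a with
    | none => rw [List.filterMap_cons_none h]; rfl
    | some i => rw [List.filterMap_cons_some h]; rfl

private theorem ops_add {α : Type} (v : α → Option (Fin N)) (L : List α) (g h : PowerSeries F) :
    ops D v L (g + h) = ops D v L g + ops D v L h := by
  induction L with
  | nil => rfl
  | cons a L ih =>
    have e : ∀ x, ops D v (a :: L) x = opv D (v a) (ops D v L x) := fun x => rfl
    rw [e, e, e, ih, opv_add]

private theorem ops_zero {α : Type} (v : α → Option (Fin N)) (L : List α) :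
    ops D v L 0 = 0 := by
  induction L with
  | nil => rfl
  | cons a L ih =>
    have e : ∀ x, ops D v (a :: L) x = opv D (v a) (ops D v L x) := fun x => rfl
    rw [e, ih, opv_zero]

private theorem ops_sum {α β : Type} (v : α → Option (Fin N)) (L : List α) (s : Finset β)
    (g : β → PowerSeries F) : ops D v L (∑ b ∈ s, g b) = ∑ b ∈ s, ops D v L (g b) := by
  classical
  induction s using Finset.induction_on with
  | empty => rw [Finset.sum_empty, Finset.sum_empty, ops_zero]
  | insert b s hb ih => rw [Finset.sum_insert hb, Finset.sum_insert hb, ops_add, ih]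

private theorem ops_perm {α : Type} (v : α → Option (Fin N)) {L L' : List α} (h : L.Perm L')
    (g : PowerSeries F) : ops D v L g = ops D v L' g := by
  unfold ops
  have : LeftCommutative (fun (a : α) (g : PowerSeries F) => opv D (v a) g) :=
    ⟨fun a b g => opv_comm D (v a) (v b) g⟩
  exact h.foldr_eq g

private theorem ops_cst {α : Type} (v : α → Option (Fin N)) (L : List α) (g h : PowerSeries F)
    (hg : ∀ a ∈ L, ∀ k, v a = some k → Cst D k g) : ops D v L (g * h) = g * ops D v L h := by
  induction L with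
  | nil => rfl
  | cons a L ih =>
    have e : ∀ x, ops D v (a :: L) x = opv D (v a) (ops D v L x) := fun x => rfl
    rw [e, e, ih (fun b hb => hg b (List.mem_cons_of_mem _ hb)),
      opv_cst D (v a) _ _ (hg a List.mem_cons_self)]

private theorem cst_one_pv1 (k : Fin N) : Cst D k (1 : PowerSeries F) := by
  have := Cst.X_pow (F := F) D k 0
  rwa [pow_zero] at this

private theorem cst_sign (k : Fin N) (j : ℕ) : Cst D k ((-1) ^ j : PowerSeries F) := by
  induction j with
  | zero => rw [pow_zero]; exact cst_one_pv1 D k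
  | succ j ih => rw [pow_succ]; exact Cst.mul D ih (Cst.neg D (cst_one_pv1 D k))

private theorem cst_pfL {α : Type} (A : α → α → PowerSeries F) (k : Fin N) (L : List α)
    (h : L.Pairwise fun a b => Cst D k (A a b)) : Cst D k (pfL A L) := by
  induction hn : L.length using Nat.strong_induction_on generalizing L with
  | _ n ih =>
    cases L with
    | nil => rw [pfL_nil]; exact cst_one_pv1 D k
    | cons x xs =>
      rw [pfL_cons]
      rw [List.pairwise_cons] at h
      refine Cst.sum D _ _ fun j _ => ?_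
      refine Cst.mul D (Cst.mul D (cst_sign D k j) (h.1 _ (List.get_mem xs j))) ?_
      refine ih _ ?_ _ (h.2.sublist (List.eraseIdx_sublist xs j)) rfl
      rw [List.length_eraseIdx_of_lt j.2, ← hn, List.length_cons]
      omega

private theorem ne_of_nodup {α : Type} (v : α → Option (Fin N)) {a b : α} {l : List α}
    (h : ((a :: l).filterMap v).Nodup) (hb : b ∈ l) {k : Fin N} (hk : v b = some k) :
    v a ≠ some k := by
  intro ha
  rw [List.filterMap_cons_some ha, List.nodup_cons] at h
  exact h.1 (List.mem_filterMap.2 ⟨b, hb, hk⟩)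

theorem act_pfL {α : Type} (v : α → Option (Fin N)) (A A' : α → α → PowerSeries F)
    (hc : ∀ a b k, v a ≠ some k → v b ≠ some k → Cst D k (A a b))
    (L : List α) (hnd : (L.filterMap v).Nodup)
    (hA : L.Pairwise fun a b => A' a b = opv D (v a) (opv D (v b) (A a b))) :
    (L.filterMap v).foldr (fun i g => act (D.AA i) g) (pfL A L) = pfL A' L := by
  rw [ops_eq]
  induction hn : L.length using Nat.strong_induction_on generalizing L with
  | _ n ih =>
    cases L with
    | nil => rw [pfL_nil, pfL_nil]; rfl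
    | cons x xs =>
      rw [pfL_cons, pfL_cons, ops_sum]
      refine Finset.sum_congr rfl fun j _ => ?_
      have hperm : (x :: xs).Perm (x :: xs.get j :: xs.eraseIdx j) := by
        refine List.Perm.cons x ?_
        have := List.getElem_cons_eraseIdx_perm (l := xs) (n := (j : ℕ)) j.2
        exact this.symm
      have hnd2 : ((x :: xs.get j :: xs.eraseIdx j).filterMap v).Nodup :=
        (hperm.filterMap v).nodup_iff.1 hnd
      have hnd3 : ((xs.get j :: xs.eraseIdx j).filterMap v).Nodup :=
        hnd2.sublist ((List.sublist_cons_self x _).filterMap v)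
      have hnd4 : ((xs.eraseIdx j).filterMap v).Nodup :=
        hnd3.sublist ((List.sublist_cons_self _ _).filterMap v)
      rw [List.pairwise_cons] at hA
      have hA2 := hA.2.sublist (List.eraseIdx_sublist xs j)
      have hlen : (xs.eraseIdx (j : ℕ)).length < n := by
        rw [List.length_eraseIdx_of_lt j.2, ← hn, List.length_cons]
        omega
      have hih := ih _ hlen (xs.eraseIdx j) hnd4 hA2 rfl
      rw [ops_perm D v hperm]
      have e : ∀ g, ops D v (x :: xs.get j :: xs.eraseIdx j) g =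
        opv D (v x) (opv D (v (xs.get j)) (ops D v (xs.eraseIdx j) g)) := fun g => rfl
      rw [e, ops_cst D v (xs.eraseIdx j) ((-1) ^ (j : ℕ) * A x (xs.get j)) (pfL A (xs.eraseIdx j))
        ?_, hih]
      · -- the remaining pfaffian is constant for the two variables
        have hQ : ∀ k, (v x = some k ∨ v (xs.get j) = some k) →
            Cst D k (pfL A' (xs.eraseIdx j)) := by
          intro k hk
          have hne : ∀ a ∈ xs.eraseIdx j, v a ≠ some k := by
            intro a ha hak
            rcases hk with hk | hk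
            · exact ne_of_nodup v hnd2 (List.mem_cons_of_mem _ ha) hak hk
            · exact ne_of_nodup v hnd3 ha hak hk
          refine cst_pfL D A' k _ ?_
          refine hA2.imp_of_mem ?_
          intro a b ha hb hab
          rw [hab]
          exact cst_opv D _ k (hne a ha) _ (cst_opv D _ k (hne b hb) _
            (hc a b k (hne a ha) (hne b hb)))
        rw [mul_comm ((-1) ^ (j : ℕ) * A x (xs.get j)) (pfL A' (xs.eraseIdx j)),
          opv_cst D (v (xs.get j)) _ _ (fun k hk => hQ k (Or.inr hk)),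
          opv_cst D (v x) _ _ (fun k hk => hQ k (Or.inl hk)),
          opv_cst D (v (xs.get j)) _ _ (fun k _ => cst_sign D k j),
          opv_cst D (v x) _ _ (fun k _ => cst_sign D k j),
          ← hA.1 _ (List.get_mem xs j)]
        ring
      · intro a ha k hk
        exact Cst.mul D (cst_sign D k j) (hc _ _ k
          (ne_of_nodup v hnd2 (List.mem_cons_of_mem _ ha) hk) (ne_of_nodup v hnd3 ha hk))

end Pool.Agent.Helper90.MVD
end

/- Helper90.MVD.DegA -/
section
/-!
Module MVD-20b (project MV, block D2): degree of `𝒜^{⊗N}` of the Pfaffian with the letter `E`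
(`AhatDef.lean`).

`deg_act`: `coeff k (act AN (pfL Ahat (none :: L0.map some))) = 0` for `k > S = ns.sum`,
`L0 = psl N ++ ns.map inr`.
  `act_AN` and `act_pfL` with `v (some (inl i)) = some i`, otherwise `none` (`filterMap v` of the list is
  `List.finRange N`; the constants: `Cst.C_sig`, `Cst.kser`, `Cst.C_kap`, `Cst.X_pow`, `bc`, ...)
  give `pfL A' (none :: ..)` with (use `act_sig`, `act_E`, `act_kap`, `act_AA_cst`, `act_neg`;
  `act (AA i) (1 - 2k_i) = -1`; `bc i n = (1 or 2) κ_n`, a factor 2 is a constant)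
  `A' ψ_i ψ_j = σ_ij - U_i + U_j`, `A' E ψ_i = -1`, `A' ψ_i e_n = bt n (U_i + rem_i n)`,
  `A' E e_n = bt n`, `A' e e = 0`.
  Row operation `pfL_rowop` with `c ψ_i = U_i`, `c = 0` otherwise, and the array
  `Bf ψ_i ψ_j = C σ_ij`, `Bf ψ_i E = 1`, `Bf E ψ_i = -1`, `Bf ψ_i e_n = bt n rem_i n`, `Bf E e_n = bt n`
  (antisymmetric, zero on the diagonal): `A' a b = Bf a b + c b Bf a E + c a Bf E b`
  (needed for `a` before `b` in the list only: `pfL_congr`). So it is `pfL Bf (none :: ..)`, and
  `pfL_deg` with `wt e_n = n`, `0` otherwise (`rem_deg`) gives the claim (`∑ wt = S`).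
-/

namespace Pool.Agent.Helper90.MVD

open Finset Pool.Agent.Helper60.MV Pool.Agent.Helper52.MVD

variable {F : Type} [Field F] [Algebra ℝ F] {N : ℕ} (D : DF F N)

/-- the variable of a letter -/
private def vv_pv1 {N : ℕ} : Option (Fin N ⊕ ℕ) → Option (Fin N)
  | some (Sum.inl i) => some i
  | _ => none

private theorem cst_one_pv2 (k : Fin N) : Cst D k (1 : PowerSeries F) := by
  have h := Cst.C_real D k 1
  rwa [map_one, map_one] at h

private theorem cst_zero (k : Fin N) : Cst D k (0 : PowerSeries F) := by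
  have h := Cst.C_real D k 0
  rwa [map_zero, map_zero] at h

private theorem cst_two (k : Fin N) : Cst D k (2 : PowerSeries F) := by
  have h := Cst.add D (cst_one_pv2 D k) (cst_one_pv2 D k)
  rwa [one_add_one_eq_two] at h

private theorem cst_bt (k : Fin N) (n : ℕ) : Cst D k (bt F n) := by
  unfold bt
  split_ifs
  · exact cst_one_pv2 D k
  · exact cst_two D k

private theorem C_bc (i : Fin N) (n : ℕ) :
    PowerSeries.C (bc D i n) = bt F n * PowerSeries.C (kap D i n) := by
  unfold bc bt
  split_ifs with h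
  · rw [h, kap_zero, map_one, mul_one]
  · rw [map_mul, map_ofNat]

private theorem cst_bc (i k : Fin N) (hik : i ≠ k) (n : ℕ) :
    Cst D k (PowerSeries.X ^ n * PowerSeries.C (bc D i n)) := by
  rw [C_bc]
  exact Cst.mul D (Cst.X_pow D k n) (Cst.mul D (cst_bt D k n) (Cst.C_kap D i k hik n))

private theorem cst_Ahat (a b : Option (Fin N ⊕ ℕ)) (k : Fin N) (ha : vv_pv1 a ≠ some k)
    (hb : vv_pv1 b ≠ some k) : Cst D k (Ahat D a b) := by
  match a, b, ha, hb with
  | some (Sum.inl i), some (Sum.inl j), ha, hb =>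
    exact Cst.C_sig D i j k (fun h => ha (by rw [vv_pv1, h])) (fun h => hb (by rw [vv_pv1, h]))
  | some (Sum.inl i), some (Sum.inr n), ha, _ =>
    exact cst_bc D i k (fun h => ha (by rw [vv_pv1, h])) n
  | some (Sum.inr n), some (Sum.inl i), _, hb =>
    exact Cst.neg D (cst_bc D i k (fun h => hb (by rw [vv_pv1, h])) n)
  | some (Sum.inr _), some (Sum.inr _), _, _ => exact cst_zero D k
  | none, some (Sum.inl i), _, hb =>
    have h1 := Cst.mul D (cst_two D k) (Cst.kser D i k (fun h => hb (by rw [vv_pv1, h])))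
    have h2 := Cst.add D (cst_one_pv2 D k) (Cst.neg D h1)
    rw [← sub_eq_add_neg] at h2
    exact h2
  | some (Sum.inl i), none, ha, _ =>
    have h1 := Cst.mul D (cst_two D k) (Cst.kser D i k (fun h => ha (by rw [vv_pv1, h])))
    have h2 := Cst.add D h1 (Cst.neg D (cst_one_pv2 D k))
    rw [← sub_eq_add_neg] at h2
    exact h2
  | none, some (Sum.inr n), _, _ => exact cst_bt D k n
  | some (Sum.inr n), none, _, _ => exact Cst.neg D (cst_bt D k n)
  | none, none, _, _ => exact cst_zero D k

/-- the array after the row operation -/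
private noncomputable def Bf : Option (Fin N ⊕ ℕ) → Option (Fin N ⊕ ℕ) → PowerSeries F
  | some (Sum.inl i), some (Sum.inl j) => PowerSeries.C (sig D i j)
  | some (Sum.inl i), some (Sum.inr n) => bt F n * rem D i n
  | some (Sum.inr n), some (Sum.inl i) => - (bt F n * rem D i n)
  | some (Sum.inr _), some (Sum.inr _) => 0
  | none, some (Sum.inl _) => -1
  | some (Sum.inl _), none => 1
  | none, some (Sum.inr n) => bt F n
  | some (Sum.inr n), none => - bt F n
  | none, none => 0

private noncomputable def cf : Option (Fin N ⊕ ℕ) → PowerSeries F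
  | some (Sum.inl i) => Us D i
  | _ => 0

private def wtf {N : ℕ} : Option (Fin N ⊕ ℕ) → ℕ
  | some (Sum.inr n) => n
  | _ => 0

private theorem sigd_neg (i j : Fin N) : sig D i j = - sig D j i := by
  unfold sig
  rw [← neg_div, neg_sub, add_comm (D.s j)]

private theorem sigd_self (i : Fin N) : sig D i i = 0 := by
  unfold sig
  rw [sub_self, zero_div]

private theorem Bf_diag (a : Option (Fin N ⊕ ℕ)) : Bf D a a = 0 := by
  match a with
  | some (Sum.inl i) =>
    show PowerSeries.C (sig D i i) = 0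
    rw [sigd_self, map_zero]
  | some (Sum.inr _) => rfl
  | none => rfl

private theorem Bf_anti (a b : Option (Fin N ⊕ ℕ)) : Bf D a b = - Bf D b a := by
  match a, b with
  | some (Sum.inl i), some (Sum.inl j) =>
    show PowerSeries.C (sig D i j) = - PowerSeries.C (sig D j i)
    rw [sigd_neg, map_neg]
  | some (Sum.inl i), some (Sum.inr n) => exact (neg_neg _).symm
  | some (Sum.inr n), some (Sum.inl i) => rfl
  | some (Sum.inr _), some (Sum.inr _) => exact neg_zero.symm
  | none, some (Sum.inl i) => rfl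
  | some (Sum.inl i), none => exact (neg_neg _).symm
  | none, some (Sum.inr n) => exact (neg_neg _).symm
  | some (Sum.inr n), none => rfl
  | none, none => exact neg_zero.symm

omit [Algebra ℝ F] in
private theorem coeff_one_pos (k : ℕ) (hk : 0 < k) :
    PowerSeries.coeff k (1 : PowerSeries F) = 0 := by
  rw [PowerSeries.coeff_one, if_neg hk.ne']

omit [Algebra ℝ F] in
private theorem coeff_bt_mul (n k : ℕ) (g : PowerSeries F) (hg : PowerSeries.coeff k g = 0) :
    PowerSeries.coeff k (bt F n * g) = 0 := by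
  unfold bt
  split_ifs
  · rw [one_mul, hg]
  · rw [two_mul, map_add, hg, add_zero]

private theorem Bf_deg (a b : Option (Fin N ⊕ ℕ)) (k : ℕ) (hk : wtf a + wtf b < k) :
    PowerSeries.coeff k (Bf D a b) = 0 := by
  have hk0 : 0 < k := lt_of_le_of_lt (Nat.zero_le _) hk
  match a, b, hk with
  | some (Sum.inl i), some (Sum.inl j), _ =>
    show PowerSeries.coeff k (PowerSeries.C (sig D i j)) = 0
    rw [PowerSeries.coeff_C, if_neg hk0.ne']
  | some (Sum.inl i), some (Sum.inr n), hk =>
    show PowerSeries.coeff k (bt F n * rem D i n) = 0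
    apply coeff_bt_mul
    apply rem_deg
    have : wtf (some (Sum.inl i) : Option (Fin N ⊕ ℕ)) + wtf (some (Sum.inr n) :
      Option (Fin N ⊕ ℕ)) = n := by simp [wtf]
    omega
  | some (Sum.inr n), some (Sum.inl i), hk =>
    show PowerSeries.coeff k (-(bt F n * rem D i n)) = 0
    rw [map_neg, neg_eq_zero]
    apply coeff_bt_mul
    apply rem_deg
    have : wtf (some (Sum.inr n) : Option (Fin N ⊕ ℕ)) + wtf (some (Sum.inl i) :
      Option (Fin N ⊕ ℕ)) = n := by simp [wtf]
    omega
  | some (Sum.inr _), some (Sum.inr _), _ => exact map_zero _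
  | none, some (Sum.inl i), _ =>
    show PowerSeries.coeff k (-1 : PowerSeries F) = 0
    rw [map_neg, coeff_one_pos k hk0, neg_zero]
  | some (Sum.inl i), none, _ => exact coeff_one_pos k hk0
  | none, some (Sum.inr n), _ =>
    show PowerSeries.coeff k (bt F n) = 0
    rw [← mul_one (bt F n)]
    exact coeff_bt_mul n k 1 (coeff_one_pos k hk0)
  | some (Sum.inr n), none, _ =>
    show PowerSeries.coeff k (- bt F n) = 0
    rw [map_neg, neg_eq_zero, ← mul_one (bt F n)]
    exact coeff_bt_mul n k 1 (coeff_one_pos k hk0)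
  | none, none, _ => exact map_zero _

private theorem act_E' (i : Fin N) : act (D.AA i) (1 - 2 * kser D i) = -1 := by
  rw [← neg_sub, act_neg, act_E]

private theorem act_bc (i : Fin N) (n : ℕ) :
    act (D.AA i) (PowerSeries.X ^ n * PowerSeries.C (bc D i n)) =
      bt F n * (Us D i + rem D i n) := by
  rw [act_X_pow_mul, C_bc, act_AA_cst D i _ _ (cst_bt D i n), ← act_kap]
  ring

private theorem pair_ok (ns : List ℕ) : (Elist N ns).Pairwise (fun a b =>
    opv D (vv_pv1 a) (opv D (vv_pv1 b) (Ahat D a b)) =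
      Bf D a b + cf D b * Bf D a none + cf D a * Bf D none b) := by
  have hee : ∀ n m : ℕ, opv D (vv_pv1 (some (Sum.inr n) : Option (Fin N ⊕ ℕ)))
      (opv D (vv_pv1 (some (Sum.inr m) : Option (Fin N ⊕ ℕ)))
        (Ahat D (some (Sum.inr n)) (some (Sum.inr m)))) =
      Bf D (some (Sum.inr n)) (some (Sum.inr m)) +
        cf D (some (Sum.inr m)) * Bf D (some (Sum.inr n)) none +
        cf D (some (Sum.inr n)) * Bf D none (some (Sum.inr m)) := by
    intro n m
    show (0 : PowerSeries F) = 0 + 0 * _ + 0 * _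
    ring
  have hpe : ∀ (i : Fin N) (n : ℕ), opv D (vv_pv1 (some (Sum.inl i) : Option (Fin N ⊕ ℕ)))
      (opv D (vv_pv1 (some (Sum.inr n) : Option (Fin N ⊕ ℕ)))
        (Ahat D (some (Sum.inl i)) (some (Sum.inr n)))) =
      Bf D (some (Sum.inl i)) (some (Sum.inr n)) +
        cf D (some (Sum.inr n)) * Bf D (some (Sum.inl i)) none +
        cf D (some (Sum.inl i)) * Bf D none (some (Sum.inr n)) := by
    intro i n
    show act (D.AA i) (PowerSeries.X ^ n * PowerSeries.C (bc D i n)) =
      bt F n * rem D i n + 0 * 1 + Us D i * bt F n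
    rw [act_bc]
    ring
  have hpp : ∀ (i j : Fin N), i ≠ j → opv D (vv_pv1 (some (Sum.inl i) : Option (Fin N ⊕ ℕ)))
      (opv D (vv_pv1 (some (Sum.inl j) : Option (Fin N ⊕ ℕ)))
        (Ahat D (some (Sum.inl i)) (some (Sum.inl j)))) =
      Bf D (some (Sum.inl i)) (some (Sum.inl j)) +
        cf D (some (Sum.inl j)) * Bf D (some (Sum.inl i)) none +
        cf D (some (Sum.inl i)) * Bf D none (some (Sum.inl j)) := by
    intro i j hij
    show act (D.AA i) (act (D.AA j) (PowerSeries.C (sig D i j))) =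
      PowerSeries.C (sig D i j) + Us D j * 1 + Us D i * (-1)
    rw [act_sig D i j hij]
    ring
  have hEp : ∀ (i : Fin N), opv D (vv_pv1 (none : Option (Fin N ⊕ ℕ)))
      (opv D (vv_pv1 (some (Sum.inl i) : Option (Fin N ⊕ ℕ)))
        (Ahat D none (some (Sum.inl i)))) =
      Bf D none (some (Sum.inl i)) +
        cf D (some (Sum.inl i)) * Bf D none none +
        cf D none * Bf D none (some (Sum.inl i)) := by
    intro i
    show act (D.AA i) (1 - 2 * kser D i) = -1 + Us D i * 0 + 0 * (-1)
    rw [act_E']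
    ring
  have hEe : ∀ (n : ℕ), opv D (vv_pv1 (none : Option (Fin N ⊕ ℕ)))
      (opv D (vv_pv1 (some (Sum.inr n) : Option (Fin N ⊕ ℕ)))
        (Ahat D none (some (Sum.inr n)))) =
      Bf D none (some (Sum.inr n)) +
        cf D (some (Sum.inr n)) * Bf D none none +
        cf D none * Bf D none (some (Sum.inr n)) := by
    intro n
    show bt F n = bt F n + 0 * 0 + 0 * bt F n
    ring
  unfold Elist psl
  rw [List.map_append, List.pairwise_cons]
  constructor
  · intro b hb
    rw [List.mem_append, List.mem_map, List.mem_map] at hb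
    rcases hb with ⟨x, hx, rfl⟩ | ⟨x, hx, rfl⟩
    · obtain ⟨i, rfl⟩ := List.mem_ofFn.mp hx
      exact hEp i
    · obtain ⟨n, _, rfl⟩ := List.mem_map.mp hx
      exact hEe n
  · rw [List.pairwise_append]
    refine ⟨?_, ?_, ?_⟩
    · rw [List.pairwise_map, List.pairwise_ofFn]
      intro i j hij
      exact hpp i j hij.ne
    · apply List.pairwise_of_forall_mem_list
      intro a ha b hb
      obtain ⟨x, hx, rfl⟩ := List.mem_map.mp ha
      obtain ⟨n, _, rfl⟩ := List.mem_map.mp hx
      obtain ⟨y, hy, rfl⟩ := List.mem_map.mp hb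
      obtain ⟨m, _, rfl⟩ := List.mem_map.mp hy
      exact hee n m
    · intro a ha b hb
      obtain ⟨x, hx, rfl⟩ := List.mem_map.mp ha
      obtain ⟨i, rfl⟩ := List.mem_ofFn.mp hx
      obtain ⟨y, hy, rfl⟩ := List.mem_map.mp hb
      obtain ⟨n, _, rfl⟩ := List.mem_map.mp hy
      exact hpe i n

private theorem filterMap_Elist (ns : List ℕ) :
    (Elist N ns).filterMap vv_pv1 = List.finRange N := by
  unfold Elist psl
  rw [List.filterMap_cons, List.map_append, List.filterMap_append, List.filterMap_map,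
    List.filterMap_map]
  have h1 : List.filterMap (vv_pv1 ∘ some) (List.ofFn (fun i : Fin N => (Sum.inl i : Fin N ⊕ ℕ)))
      = List.finRange N := by
    rw [List.ofFn_eq_map, List.filterMap_map]
    exact List.filterMap_some
  have h2 : List.filterMap (vv_pv1 ∘ some) (List.map Sum.inr ns : List (Fin N ⊕ ℕ)) = [] := by
    rw [List.filterMap_map]
    apply List.filterMap_eq_nil_iff.mpr
    intro n _
    rfl
  rw [h1, h2, List.append_nil]
  rfl

theorem deg_act (ns : List ℕ) (k : ℕ) (hk : ns.sum < k) :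
    PowerSeries.coeff k (act D.AN (pfL (Ahat D) (Elist N ns))) = 0 := by
  have h1 : act D.AN (pfL (Ahat D) (Elist N ns)) = pfL (Bf D) (Elist N ns) := by
    rw [act_AN]
    have h2 := act_pfL D vv_pv1 (Ahat D) (fun a b => opv D (vv_pv1 a) (opv D (vv_pv1 b) (Ahat D a b)))
      (fun a b k ha hb => cst_Ahat D a b k ha hb) (Elist N ns)
      (by rw [filterMap_Elist]; exact List.nodup_finRange N)
      (List.pairwise_of_forall (fun _ _ => rfl))
    rw [filterMap_Elist] at h2
    rw [h2, pfL_congr _ _ _ (pair_ok D ns)]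
    exact pfL_rowop (Bf D) (Bf_diag D) (Bf_anti D) none (cf D) rfl _
  rw [h1]
  apply pfL_deg wtf (Bf D) (fun a b k h => Bf_deg D a b k h)
  have h3 : ((Elist N ns).map wtf).sum = ns.sum := by
    unfold Elist psl
    rw [List.map_cons, List.map_append, List.map_append, List.sum_cons, List.sum_append,
      List.map_map, List.map_map, List.map_map]
    have h4 : (List.map (wtf ∘ some) (List.ofFn fun i : Fin N => (Sum.inl i : Fin N ⊕ ℕ))).sum
        = 0 := by
      apply List.sum_eq_zero
      intro x hx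
      obtain ⟨y, hy, rfl⟩ := List.mem_map.mp hx
      obtain ⟨i, rfl⟩ := List.mem_ofFn.mp hy
      rfl
    have h5 : (wtf ∘ some) ∘ (Sum.inr : ℕ → Fin N ⊕ ℕ) = id := by
      funext n
      rfl
    rw [h4, h5, List.map_id]
    simp [wtf]
  rw [h3]
  exact hk

end Pool.Agent.Helper90.MVD
end

/- Helper90.MVD.RealV -/
section
/-!
Module MVD-24 (project MV, block D2): vectors of Fock space with real coefficients.

The operators `An m` are only `ℝ`-linear, so D2.2 is stated for the vectors of `Fk F` which are real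
linear combinations of products of basis vectors.

Closure properties, by induction on the predicate: `cr n (prb L) = prb (n :: L)` (`prb_cons`);
`an n (prb L)` is a combination with coefficients `0, ±1` (`an_prb`); `phi`: real combination of `cr`
and `an` (`2 (-1)^n` is real); `J j x = ½ ∑ ...` (finite sum, `½` real); `Θ (map f)`:
`MvPolynomial.induction_on` (`Θ 1 = 1`, `Θ (C a) = a • Θ 1`, `Θ (f * X j) = J j (Θ f)`).
-/

namespace Pool.Agent.Helper90.MVD

open Finset Pool.Agent.Helper60.MV Pool.Agent.Helper52.MVD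

/-- real linear combinations of products of basis vectors -/
inductive Rl (F : Type) [Field F] [Algebra ℝ F] : Fk F → Prop
  | prb (L : List ℕ) : Rl F (prb F L)
  | add (x y : Fk F) : Rl F x → Rl F y → Rl F (x + y)
  | smul (a : ℝ) (x : Fk F) : Rl F x → Rl F ((algebraMap ℝ F a) • x)

section

variable {F : Type} [Field F] [Algebra ℝ F]

theorem Rl.one : Rl F (1 : Fk F) := by
  rw [← prb_nil F]
  exact Rl.prb []

theorem Rl.zero : Rl F (0 : Fk F) := by
  have h := Rl.smul (F := F) 0 1 Rl.one
  rwa [map_zero, zero_smul] at h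

theorem Rl.neg {x : Fk F} (hx : Rl F x) : Rl F (-x) := by
  have h := Rl.smul (F := F) (-1) x hx
  rwa [map_neg, map_one, neg_smul, one_smul] at h

theorem Rl.sum {β : Type} (s : Finset β) (g : β → Fk F) (hg : ∀ b ∈ s, Rl F (g b)) :
    Rl F (∑ b ∈ s, g b) := by
  classical
  induction s using Finset.induction_on with
  | empty => exact Rl.zero
  | insert a s ha ih =>
    rw [Finset.sum_insert ha]
    exact Rl.add _ _ (hg a (Finset.mem_insert_self _ _))
      (ih (fun b hb => hg b (Finset.mem_insert_of_mem hb)))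

theorem Rl.cr {x : Fk F} (hx : Rl F x) (n : ℕ) : Rl F (cr F n x) := by
  induction hx with
  | prb L =>
    have h : MVD.cr F n (MVD.prb F L) = MVD.prb F (n :: L) := by
      simp [MVD.cr, MVD.prb, wdg]
    rw [h]
    exact Rl.prb _
  | add x y _ _ hx hy =>
    rw [map_add]
    exact Rl.add _ _ hx hy
  | smul a x _ hx =>
    rw [map_smul]
    exact Rl.smul _ _ hx

theorem Rl.an {x : Fk F} (hx : Rl F x) (n : ℕ) : Rl F (an F n x) := by
  induction hx with
  | prb L =>
    rw [an_prb]
    refine Rl.sum _ _ (fun j _ => ?_)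
    have h : ((-1) ^ (j : ℕ) * (if L.get j = n then 1 else 0) : F) =
        algebraMap ℝ F ((-1) ^ (j : ℕ) * (if L.get j = n then 1 else 0)) := by
      split_ifs <;> simp
    rw [h]
    exact Rl.smul _ _ (Rl.prb _)
  | add x y _ _ hx hy =>
    rw [map_add]
    exact Rl.add _ _ hx hy
  | smul a x _ hx =>
    rw [map_smul]
    exact Rl.smul _ _ hx

theorem Rl.phi {x : Fk F} (hx : Rl F x) (n : ℤ) : Rl F (phi F n x) := by
  unfold MVD.phi
  split_ifs with h1 h2
  · exact hx.cr _
  · rw [LinearMap.add_apply]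
    exact Rl.add _ _ (hx.cr _) (hx.an _)
  · rw [LinearMap.smul_apply]
    have h : (2 * (-1) ^ n.natAbs : F) = algebraMap ℝ F (2 * (-1) ^ n.natAbs) := by
      rw [map_mul, map_pow, map_neg, map_one]
      congr 1
      exact (map_ofNat _ 2).symm
    rw [h]
    exact Rl.smul _ _ (hx.an _)

theorem Rl.cur [CharZero F] {J : ℤ → Fk F →ₗ[F] Fk F} (hJ : IsCur F J) {x : Fk F}
    (hx : Rl F x) (j : ℤ) : Rl F (J j x) := by
  obtain ⟨B₀, hB⟩ := hJ j x
  rw [hB B₀ le_rfl]
  have h : (1 / 2 : F) = algebraMap ℝ F (1 / 2) := by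
    rw [map_div₀, map_one]
    congr 1
    exact (map_ofNat _ 2).symm
  rw [h]
  exact Rl.smul _ _ (Rl.sum _ _ (fun r _ => (hx.phi _).phi _))

theorem Rl.theta [CharZero F] {J : ℤ → Fk F →ₗ[F] Fk F} (hJ : IsCur F J)
    {Θ : MvPolynomial ℕ F →ₗ[F] Fk F} (hΘ : IsTheta F J Θ) (f : MvPolynomial ℕ ℝ) :
    Rl F (Θ (MvPolynomial.map (algebraMap ℝ F) f)) := by
  induction f using MvPolynomial.induction_on with
  | C a =>
    rw [MvPolynomial.map_C]
    have h : (MvPolynomial.C (algebraMap ℝ F a) : MvPolynomial ℕ F) = (algebraMap ℝ F a) • 1 := by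
      rw [MvPolynomial.smul_eq_C_mul, mul_one]
    rw [h, map_smul, hΘ.one]
    exact Rl.smul _ _ Rl.one
  | add p q hp hq =>
    rw [map_add, map_add]
    exact Rl.add _ _ hp hq
  | mul_X p n hp =>
    rw [map_mul, MvPolynomial.map_X, mul_comm, hΘ.mul]
    exact hp.cur hJ _

end

end Pool.Agent.Helper90.MVD
end

/- Helper90.MVD.D22 -/
section
/-!
Module MVD-20 (project MV, block D2): D2.2, `𝒜^{⊗N} Λ_s(e(w) x)` has only nonpositive powers of `w`,
for `x` with real coefficients (`Rl`; the operators `An m` are only `ℝ`-linear).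

Induction on `Rl F x` (the statement is additive and `ℝ`-homogeneous in `x`; take the maximum of the
bounds `B₀`; `algebraMap ℝ F a • y = a • y` in `F`). Case `x = prb L`:
* `L` with an odd entry: all terms vanish: `Λ (φ_{2k} (prb L)) = 0` for all `k ∈ ℤ` (`cr (2k)` keeps
  the odd entry; `an (2n)` removes an even entry only, `an_prb`; `IsLam.odd`).
* Otherwise `L = ns.map (2 * ·)`, `S = ns.sum`: for `m > R + S`, `φ_{2(R-m)} x = 0`
  (`phi_neg`, `an_prb`, `2(m-R) > 2S ≥` all entries), and by `coeff_Ahat`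
  `∑_{m ≤ R+S} An m (coeff (R+S-m) (pfL Ahat ..)) = coeff (R+S) (act AN (pfL Ahat ..)) = 0` by `deg_act`
  (definition of `act`, `D.An m = coeff m D.AN`; `Finset.Nat.sum_antidiagonal_eq_sum_range_succ`).
-/

namespace Pool.Agent.Helper90.MVD

open Finset Pool.Agent.Helper60.MV Pool.Agent.Helper52.MVD

variable {F : Type} [Field F] [Algebra ℝ F] {N : ℕ} (D : DF F N)

private theorem lam_an_odd {Λ : Fk F →ₗ[F] F} (hΛ : IsLam D Λ) (L : List ℕ)
    (hL : ∃ n ∈ L, Odd n) (k : ℕ) (hk : Even k) : Λ (an F k (prb F L)) = 0 := by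
  rw [an_prb, map_sum]
  refine Finset.sum_eq_zero fun j _ => ?_
  rw [map_smul]
  by_cases hj : L.get j = k
  · rw [hΛ.odd, smul_zero]
    obtain ⟨n, hn, hodd⟩ := hL
    refine ⟨n, ?_, hodd⟩
    have hne : n ≠ L.get j := by
      intro h
      rw [h, hj] at hodd
      exact (Nat.not_odd_iff_even.2 hk) hodd
    have hp := List.getElem_cons_eraseIdx_perm j.2
    have h2 := hp.symm.subset hn
    rcases List.mem_cons.1 h2 with h3 | h3
    · exact absurd h3 hne
    · exact h3
  · rw [if_neg hj, mul_zero, zero_smul]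

private theorem lam_phi_odd {Λ : Fk F →ₗ[F] F} (hΛ : IsLam D Λ) (L : List ℕ)
    (hL : ∃ n ∈ L, Odd n) (k : ℤ) : Λ (phi F (2 * k) (prb F L)) = 0 := by
  have hcr : ∀ n, Λ (cr F n (prb F L)) = 0 := by
    intro n
    rw [← prb_cons]
    obtain ⟨a, ha, hodd⟩ := hL
    exact hΛ.odd _ ⟨a, List.mem_cons_of_mem _ ha, hodd⟩
  rcases lt_trichotomy k 0 with h | h | h
  · obtain ⟨n, hn, rfl⟩ : ∃ n : ℕ, 0 < n ∧ k = -(n : ℤ) := ⟨k.natAbs, by omega, by omega⟩
    have h1 : (2 * -(n : ℤ)) = -((2 * n : ℕ) : ℤ) := by push_cast; ring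
    rw [h1, phi_neg F (2 * n) (by omega), map_smul, lam_an_odd D hΛ L hL _ (even_two_mul n),
      smul_zero]
  · subst h
    rw [mul_zero, phi_zero, map_add, hcr, lam_an_odd D hΛ L hL 0 Even.zero, add_zero]
  · obtain ⟨n, hn, rfl⟩ : ∃ n : ℕ, 0 < n ∧ k = (n : ℤ) := ⟨k.natAbs, by omega, by omega⟩
    have h1 : (2 * (n : ℤ)) = ((2 * n : ℕ) : ℤ) := by push_cast; ring
    rw [h1, phi_pos F (2 * n) (by omega), hcr]

private theorem coeff_act_pv2 (a : PowerSeries (Module.End ℝ F)) (g : PowerSeries F) (n : ℕ) :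
    PowerSeries.coeff n (act a g) = ∑ m ∈ range (n + 1),
      (PowerSeries.coeff m a : Module.End ℝ F) (PowerSeries.coeff (n - m) g) := by
  unfold act
  rw [PowerSeries.coeff_mk]
  exact Finset.Nat.sum_antidiagonal_eq_sum_range_succ
    (fun i j => (PowerSeries.coeff i a : Module.End ℝ F) (PowerSeries.coeff j g)) n

theorem D22 (hN : Even N) {Λ : Fk F →ₗ[F] F} (hΛ : IsLam D Λ) (R : ℕ) (hR : 0 < R) (x : Fk F)
    (hx : Rl F x) :
    ∃ B₀ : ℕ, ∀ B, B₀ ≤ B →
      ∑ m ∈ range B, D.An m (Λ (phi F (2 * ((R : ℤ) - m)) x)) = 0 := by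
  induction hx with
  | prb L =>
    by_cases hL : ∃ n ∈ L, Odd n
    · refine ⟨0, fun B _ => Finset.sum_eq_zero fun m _ => ?_⟩
      rw [lam_phi_odd D hΛ L hL, map_zero]
    · obtain ⟨ns, rfl⟩ : ∃ ns : List ℕ, L = ns.map fun n => 2 * n := by
        refine ⟨L.map fun n => n / 2, ?_⟩
        rw [List.map_map]
        conv_lhs => rw [← List.map_id L]
        refine List.map_congr_left fun n hn => ?_
        have h1 : Even n := by
          by_contra h2
          exact hL ⟨n, hn, Nat.not_even_iff_odd.1 h2⟩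
        obtain ⟨r, rfl⟩ := h1
        simp only [id_eq, Function.comp_apply]
        omega
      refine ⟨R + ns.sum + 1, fun B hB => ?_⟩
      have hz : ∀ m ∈ range B, m ∉ range (R + ns.sum + 1) →
          D.An m (Λ (phi F (2 * ((R : ℤ) - m)) (prb F (ns.map fun n => 2 * n)))) = 0 := by
        intro m _ hm
        simp only [mem_range, not_lt] at hm
        have h1 : (2 * ((R : ℤ) - m)) = -((2 * (m - R) : ℕ) : ℤ) := by
          push_cast [show R ≤ m by omega]
          ring
        have h2 : an F (2 * (m - R)) (prb F (ns.map fun n => 2 * n)) = 0 := by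
          rw [an_prb]
          refine Finset.sum_eq_zero fun j _ => ?_
          rw [if_neg, mul_zero, zero_smul]
          intro h3
          have h4 : (ns.map fun n => 2 * n).get j ∈ ns.map fun n => 2 * n := List.get_mem _ _
          rw [h3] at h4
          obtain ⟨n, hn, hn2⟩ := List.mem_map.1 h4
          have h5 : n ≤ ns.sum := List.single_le_sum (by simp) n hn
          have h6 : 2 * n = 2 * (m - R) := hn2
          omega
        rw [h1, phi_neg F _ (by omega), h2, smul_zero, map_zero, map_zero]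
      rw [← Finset.sum_subset (range_subset_range.2 hB) hz]
      have hdeg := deg_act D ns (R + ns.sum) (by omega)
      rw [coeff_act_pv2] at hdeg
      rw [← hdeg]
      refine Finset.sum_congr rfl fun m hm => ?_
      have hm' := Finset.mem_range.1 hm
      rw [coeff_Ahat D hN hΛ ns ((R : ℤ) - m) (R + ns.sum - m) (by
        push_cast [show m ≤ R + ns.sum by omega]
        ring)]
      rfl
  | add x y _ _ hx hy =>
    obtain ⟨B1, h1⟩ := hx
    obtain ⟨B2, h2⟩ := hy
    refine ⟨max B1 B2, fun B hB => ?_⟩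
    have h3 := h1 B (le_trans (le_max_left _ _) hB)
    have h4 := h2 B (le_trans (le_max_right _ _) hB)
    rw [← add_zero (0 : F)]
    nth_rewrite 1 [← h3]
    rw [← h4, ← Finset.sum_add_distrib]
    refine Finset.sum_congr rfl fun m _ => ?_
    rw [map_add, map_add, map_add]
  | smul a x _ hx =>
    obtain ⟨B1, h1⟩ := hx
    refine ⟨B1, fun B hB => ?_⟩
    have h3 := h1 B hB
    have h4 : ∑ m ∈ range B, D.An m (Λ (phi F (2 * ((R : ℤ) - m)) ((algebraMap ℝ F a) • x))) =
        a • ∑ m ∈ range B, D.An m (Λ (phi F (2 * ((R : ℤ) - m)) x)) := by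
      rw [Finset.smul_sum]
      refine Finset.sum_congr rfl fun m _ => ?_
      rw [map_smul, map_smul, algebraMap_smul, map_smul]
    rw [h4, h3, smul_zero]

end Pool.Agent.Helper90.MVD
end

/- Helper90.MVD.D23 -/
section
/-!
Module MVD-22 (project MV, block D2): D2.3, `𝒜^{⊗N} Λ_s(α(w) x)` has only negative powers of `w`.

* `lam_cur`: `Λ (J_j x) = ∑_{i < I} Λ (φ_{2(j+i+1)} (an_{2i+1} x))`. Proof: `κ = 2j+1`,
  `J_j x = ½ ∑_{|r| ≤ B'} φ_{κ-2r} φ_{2r} x`. If `κ - 2r > 0` then `φ_{κ-2r}` is `cr` of an odd mode and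
  `Λ = 0` (`lam_cr_odd`). If `κ - 2r < 0`, `κ - 2r = -(2i+1)`, `r = j + i + 1`, `i ≥ 0`:
  `φ_{-(2i+1)} φ_{2r} x = - φ_{2r} φ_{-(2i+1)} x` (`phi_phi`, the sum of the indices is odd) and
  `φ_{-(2i+1)} = -2 an_{2i+1}`: the term is `2 φ_{2r} an_{2i+1} x`, times `½`. `an_{2i+1} x = 0` for
  `i ≥ I`; compare for `B'` large (the range `r ∈ Icc (-B') B'` contains all `r = j + i + 1`, `i < I`).
* `D23`: take `I` with `an_{2i+1} x = 0` for `i ≥ I` (`an_fin`). Exchange the finite sums:
  `∑_{m<B} An m (Λ (J_{ν-m} x)) = ∑_{i<I} ∑_{m<B} An m (Λ (φ_{2(ν+i+1-m)} (an_{2i+1} x)))`,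
  and each inner sum is `0` for `B` large by `D22` with `R = ν + i + 1` and the real vector
  `an_{2i+1} x` (`Rl.an`).
-/

namespace Pool.Agent.Helper90.MVD

open Finset Pool.Agent.Helper60.MV Pool.Agent.Helper52.MVD

variable {F : Type} [Field F] [CharZero F] [Algebra ℝ F] {N : ℕ} {D : DF F N}

private theorem lam_term_le {Λ : Fk F →ₗ[F] F} (hΛ : IsLam D Λ) (x : Fk F) (j r : ℤ) (h : r ≤ j) :
    Λ (phi F (2 * j + 1 - 2 * r) x) = 0 := by
  obtain ⟨n, hn⟩ : ∃ n : ℕ, 2 * j + 1 - 2 * r = (n : ℤ) := ⟨(2 * j + 1 - 2 * r).toNat, by omega⟩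
  have hn0 : 0 < n := by omega
  have hodd : Odd n := by
    rw [Nat.odd_iff]
    omega
  rw [hn, phi_pos F n hn0]
  exact lam_cr_odd hΛ n hodd x

private theorem lam_term_gt {Λ : Fk F →ₗ[F] F} (x : Fk F) (j : ℤ) (i : ℕ) :
    Λ (phi F (2 * j + 1 - 2 * (j + i + 1)) (phi F (2 * (j + i + 1)) x)) =
      2 * Λ (phi F (2 * (j + i + 1)) (an F (2 * i + 1) x)) := by
  have h1 : 2 * j + 1 - 2 * (j + i + 1) = -((2 * i + 1 : ℕ) : ℤ) := by
    push_cast
    ring
  rw [h1, phi_phi, if_neg (by push_cast; omega), zero_smul, zero_sub, phi_neg F (2 * i + 1) (by omega),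
    map_smul, map_neg, map_smul, smul_eq_mul]
  have h2 : ((-1 : F)) ^ (2 * i + 1) = -1 := by
    rw [pow_succ, pow_mul]
    norm_num
  rw [h2]
  ring

theorem lam_cur {Λ : Fk F →ₗ[F] F} (hΛ : IsLam D Λ) {J : ℤ → Fk F →ₗ[F] Fk F}
    (hJ : IsCur F J) (x : Fk F) (I : ℕ) (hI : ∀ i, I ≤ i → an F (2 * i + 1) x = 0) (j : ℤ) :
    Λ (J j x) = ∑ i ∈ range I, Λ (phi F (2 * (j + i + 1)) (an F (2 * i + 1) x)) := by
  obtain ⟨B₀, hB₀⟩ := hJ j x
  set B : ℕ := B₀ + j.natAbs + I + 1 with hB
  rw [hB₀ B (by omega), map_smul, map_sum, smul_eq_mul]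
  set g : ℤ → F := fun r => Λ (phi F (2 * j + 1 - 2 * r) (phi F (2 * r) x)) with hg
  have himg : ∑ r ∈ (range I).image (fun i : ℕ => j + i + 1), g r = ∑ r ∈ Icc (-(B : ℤ)) B, g r := by
    refine Finset.sum_subset ?_ ?_
    · intro r hr
      rw [Finset.mem_image] at hr
      obtain ⟨i, hi, rfl⟩ := hr
      rw [Finset.mem_range] at hi
      rw [Finset.mem_Icc]
      constructor <;> omega
    · intro r _ hr
      by_cases hrj : r ≤ j
      · exact lam_term_le hΛ _ j r hrj
      · obtain ⟨i, hi⟩ : ∃ i : ℕ, r = j + i + 1 := ⟨(r - j - 1).toNat, by omega⟩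
        have hiI : I ≤ i := by
          by_contra hcon
          apply hr
          rw [Finset.mem_image]
          exact ⟨i, Finset.mem_range.2 (by omega), hi.symm⟩
        rw [hi]
        show Λ (phi F (2 * j + 1 - 2 * (j + i + 1)) (phi F (2 * (j + i + 1)) x)) = 0
        rw [lam_term_gt, hI i hiI, map_zero, map_zero, mul_zero]
  show (1 / 2 : F) * ∑ r ∈ Icc (-(B : ℤ)) B, g r = _
  rw [← himg, Finset.sum_image (fun a _ b _ h => by
    have h' : j + (a : ℤ) + 1 = j + (b : ℤ) + 1 := h
    omega), Finset.mul_sum]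
  refine Finset.sum_congr rfl (fun i _ => ?_)
  show (1 / 2 : F) * Λ (phi F (2 * j + 1 - 2 * (j + i + 1)) (phi F (2 * (j + i + 1)) x)) = _
  rw [lam_term_gt, ← mul_assoc]
  norm_num

theorem D23 (hN : Even N) {Λ : Fk F →ₗ[F] F} (hΛ : IsLam D Λ) {J : ℤ → Fk F →ₗ[F] Fk F}
    (hJ : IsCur F J) (ν : ℕ) (x : Fk F) (hx : Rl F x) :
    ∃ B₀ : ℕ, ∀ B, B₀ ≤ B → ∑ m ∈ range B, D.An m (Λ (J ((ν : ℤ) - m) x)) = 0 := by
  obtain ⟨I, hI⟩ := an_fin F x
  have hI' : ∀ i, I ≤ i → an F (2 * i + 1) x = 0 := fun i hi => hI (2 * i + 1) (by omega)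
  have h1 : ∀ i : ℕ, ∃ B₀ : ℕ, ∀ B, B₀ ≤ B →
      ∑ m ∈ range B, D.An m (Λ (phi F (2 * (((ν + i + 1 : ℕ) : ℤ) - m)) (an F (2 * i + 1) x))) = 0 :=
    fun i => D22 D hN hΛ (ν + i + 1) (by omega) (an F (2 * i + 1) x) (hx.an (2 * i + 1))
  choose Bi hBi using h1
  refine ⟨(range I).sup Bi, fun B hB => ?_⟩
  have h2 : ∀ m ∈ range B, D.An m (Λ (J ((ν : ℤ) - m) x)) =
      ∑ i ∈ range I, D.An m (Λ (phi F (2 * (((ν + i + 1 : ℕ) : ℤ) - m)) (an F (2 * i + 1) x))) := by
    intro m _
    rw [lam_cur hΛ hJ x I hI' ((ν : ℤ) - m), map_sum]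
    refine Finset.sum_congr rfl (fun i _ => ?_)
    have h3 : (2 : ℤ) * ((ν : ℤ) - m + i + 1) = 2 * (((ν + i + 1 : ℕ) : ℤ) - m) := by
      push_cast
      ring
    rw [h3]
  rw [Finset.sum_congr rfl h2, Finset.sum_comm]
  refine Finset.sum_eq_zero (fun i hi => ?_)
  exact hBi i B ((Finset.le_sup hi).trans hB)

end Pool.Agent.Helper90.MVD
end

/- Helper90.MVD.ExpK -/
section
/-!
Module MVD-16 (project MV, block D2): the value of `Λ_s ∘ Θ` on `∏ p_{K_i}`.

Let `x = Θ (∏_i X ((K i - 1)/2))`. The number `|ρ|` is even (`∑ K = 2E`, `K` odd). By `expand` (with a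
large `B = 2 B'`, `B' > E`) `Λ x = ∑_{T ⊆ range B} vac (ans (sorted T) x) * Λ (prb (sorted T))`.
* If `T` contains an odd number: `Λ (prb _) = 0` (`IsLam.odd`).
* Otherwise `T = {2 n : n ∈ S'}`, `S' ⊆ range B'`; the decreasing list of `T` is the decreasing list
  of `S'` times 2 (`Finset.sort` of an image under a strictly monotone map; e.g. both are the unique
  strictly decreasing list with these members: `List.eq_of_perm_of_sorted`), and
  `Λ (prb _) = pfL (AS D) (psl N ++ (sorted S').map inr)` (`IsLam.even`), which vanishes for `|S'|`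
  odd (`pfL_odd`, `N` even) and is `G * (∏ cc) * aeval (pfL QQ (sorted S'))` (`pf_AS`) in general.
* For `|S'|` even let `S = S'.erase 0`. Then `sorted S' = dl S` (if `0 ∈ S'` then `|S|` is odd and `0`
  is the last entry; otherwise `S = S'` has even cardinality). The map `S' ↦ S` is a bijection from
  the subsets of `range B'` of even cardinality to the subsets of `Icc 1 (B'-1)` (inverse: add `0`
  when `|S|` is odd). `∏ over dl S of cc = ∏_{a ∈ S} cc a` (`cc 0 = 1`).
* Coefficient: `vac_ans` (the list is strictly decreasing) and `(-1)^{2n} = 1`: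
  `vac (ans (sorted T) x) = (1/2)^{|S|} vac (str (...-2n...) x) = (1/2)^{|S|} XK K (dl S)` (`vac_bos`).
* `XK K (dl S) = 0` unless `∑ S = E` (`XK_eq_zero`), and the subsets `S` of `Icc 1 (B'-1)` with sum `E`
  are exactly the members of `stp E` (`S ⊆ Icc 1 E`).
Sum up and compare with the definition of `Rpoly` (`∑ K / 2 = E`; `aeval` of `C`: `algebraMap`).
-/

namespace Pool.Agent.Helper90.MVD

open Finset Pool.Agent.Helper60.MV Pool.Agent.Helper52.MVD

/-- decreasing list of the doubled set -/
theorem sort_double (S : Finset ℕ) :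
    ((S.image fun n => 2 * n).sort (· ≥ ·)) = (S.sort (· ≥ ·)).map fun n => 2 * n := by
  have hinj : Function.Injective (fun n : ℕ => 2 * n) := fun a b h => by
    simp only at h
    omega
  have h1 := Finset.map_sort (⟨fun n => 2 * n, hinj⟩ : ℕ ↪ ℕ) S (· ≥ ·) (· ≥ ·)
    (fun a _ b _ => by
      simp only [Function.Embedding.coeFn_mk, ge_iff_le]
      constructor <;> intro h <;> omega)
  rw [Finset.map_eq_image] at h1
  exact h1.symm

/-- `dl S` is the decreasing list of `S` (even) or `insert 0 S` (odd) -/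
theorem dl_eq_sort (S : Finset ℕ) (h0 : 0 ∉ S) :
    dl S = ((if S.card % 2 = 0 then S else insert 0 S).sort (· ≥ ·)) := by
  unfold dl
  split_ifs with h
  · rw [List.append_nil]
  · have hnd : (S.sort (· ≥ ·) ++ [0]).Nodup := by
      rw [List.nodup_append]
      refine ⟨Finset.sort_nodup _ _, List.nodup_singleton _, ?_⟩
      intro a ha b hb
      rw [Finset.mem_sort] at ha
      rw [List.mem_singleton] at hb
      subst hb
      intro hab
      subst hab
      exact h0 ha
    have hp : (S.sort (· ≥ ·) ++ [0]).Pairwise (· ≥ ·) := by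
      rw [List.pairwise_append]
      refine ⟨Finset.pairwise_sort _ _, List.pairwise_singleton _ _, ?_⟩
      intro a _ b hb
      rw [List.mem_singleton] at hb
      subst hb
      exact Nat.zero_le a
    have h1 := (List.toFinset_sort (· ≥ ·) hnd).2 hp
    have h2 : (S.sort (· ≥ ·) ++ [0]).toFinset = insert 0 S := by
      ext a
      simp only [List.mem_toFinset, List.mem_append, Finset.mem_sort, List.mem_singleton,
        Finset.mem_insert]
      tauto
    rw [h2] at h1
    exact h1.symm

private theorem prod_sort {M : Type} [CommMonoid M] (S : Finset ℕ) (f : ℕ → M) :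
    ((S.sort (· ≥ ·)).map f).prod = ∏ a ∈ S, f a := by
  rw [← Multiset.prod_coe, ← Multiset.map_coe, Finset.sort_eq]
  rfl

private theorem sum_sort (S : Finset ℕ) : (S.sort (· ≥ ·)).sum = ∑ a ∈ S, a := by
  rw [← Multiset.sum_coe, Finset.sort_eq]
  simp

private theorem prod_dl {M : Type} [CommMonoid M] (S : Finset ℕ) (f : ℕ → M) (h0 : f 0 = 1) :
    ((dl S).map f).prod = ∏ a ∈ S, f a := by
  unfold dl
  rw [List.map_append, List.prod_append, prod_sort]
  split_ifs <;> simp [h0]

private theorem sum_dl (S : Finset ℕ) : (dl S).sum = ∑ a ∈ S, a := by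
  unfold dl
  rw [List.sum_append, sum_sort]
  split_ifs <;> simp

private def ins (S : Finset ℕ) : Finset ℕ := if S.card % 2 = 0 then S else insert 0 S

private theorem ins_erase {S : Finset ℕ} (h0 : 0 ∉ S) : (ins S).erase 0 = S := by
  unfold ins
  split_ifs
  · exact Finset.erase_eq_of_notMem h0
  · exact Finset.erase_insert h0

private theorem erase_ins {S : Finset ℕ} (hS : S.card % 2 = 0) : ins (S.erase 0) = S := by
  unfold ins
  by_cases h : 0 ∈ S
  · have h1 := Finset.card_erase_of_mem h
    have h2 := Finset.card_pos.2 ⟨0, h⟩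
    rw [if_neg (by omega)]
    exact Finset.insert_erase h
  · rw [Finset.erase_eq_of_notMem h, if_pos hS]

private theorem card_ins {S : Finset ℕ} (h0 : 0 ∉ S) : (ins S).card % 2 = 0 := by
  unfold ins
  split_ifs with h
  · exact h
  · rw [Finset.card_insert_of_notMem h0]
    omega

private theorem sort_gt (S : Finset ℕ) : (S.sort (· ≥ ·)).Pairwise (· > ·) := by
  have h1 : (S.sort (· ≥ ·)).Pairwise (· ≥ ·) := Finset.pairwise_sort _ _
  have h2 : (S.sort (· ≥ ·)).Pairwise (· ≠ ·) := Finset.sort_nodup _ _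
  exact (h1.and h2).imp (fun {a b} h => lt_of_le_of_ne h.1 (Ne.symm h.2))

theorem lam_bos {F : Type} [Field F] [CharZero F] [Algebra ℝ F] {N : ℕ} (D : DF F N)
    (hN : Even N) {J : ℤ → Fk F →ₗ[F] Fk F} (hJ : IsCur F J)
    {Θ : MvPolynomial ℕ F →ₗ[F] Fk F} (hΘ : IsTheta F J Θ)
    {Λ : Fk F →ₗ[F] F} (hΛ : IsLam D Λ)
    {ρ : Type} [Fintype ρ] (K : ρ → ℕ) (hK : ∀ i, Odd (K i)) (E : ℕ) (hE : ∑ i, K i = 2 * E) :
    Λ (Θ (∏ i, MvPolynomial.X ((K i - 1) / 2))) =
      D.G * MvPolynomial.aeval (tval D.s) (Rpoly K) := by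
  classical
  have hρ : Even (Fintype.card ρ) := by
    have h1 : ∀ i, ∃ k, K i = 2 * k + 1 := fun i => hK i
    choose k hk using h1
    have h2 : ∑ i, K i = 2 * ∑ i, k i + Fintype.card ρ := by
      rw [Finset.sum_congr rfl fun i _ => hk i, Finset.sum_add_distrib, Finset.mul_sum]
      simp
    exact ⟨E - ∑ i, k i, by omega⟩
  set x : Fk F := Θ (∏ i, MvPolynomial.X ((K i - 1) / 2)) with hxdef
  obtain ⟨B₀, hB₀⟩ := expand F x
  set B' : ℕ := B₀ + E + 1 with hB'
  have hx := hB₀ (2 * B') (by omega)
  set t : Finset ℕ → F := fun T =>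
    vac F (ans F (T.sort (· ≥ ·)) x) * Λ (prb F (T.sort (· ≥ ·))) with ht
  have h1 : Λ x = ∑ T ∈ (range (2 * B')).powerset, t T := by
    have h2 := congrArg Λ hx
    rw [h2, map_sum]
    refine Finset.sum_congr rfl fun T _ => ?_
    rw [map_smul, smul_eq_mul]
  -- step 1
  have hdbl : Function.Injective (fun n : ℕ => 2 * n) := fun a b h => by
    simp only at h
    omega
  have hinj1 : Function.Injective (fun S' : Finset ℕ => S'.image fun n => 2 * n) :=
    Finset.image_injective hdbl
  have h3 : ∑ T ∈ (range (2 * B')).powerset, t T =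
      ∑ S' ∈ (range B').powerset, t (S'.image fun n => 2 * n) := by
    rw [← Finset.sum_image (f := t) (g := fun S' : Finset ℕ => S'.image fun n => 2 * n)
      (s := (range B').powerset) (fun a _ b _ hab => hinj1 hab)]
    symm
    refine Finset.sum_subset ?_ ?_
    · intro T hT
      obtain ⟨S', hS', rfl⟩ := Finset.mem_image.1 hT
      rw [Finset.mem_powerset] at hS' ⊢
      intro a ha
      obtain ⟨b, hb, rfl⟩ := Finset.mem_image.1 ha
      have := Finset.mem_range.1 (hS' hb)
      rw [Finset.mem_range]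
      omega
    · intro T hT hT2
      have h4 : ∃ n ∈ T, Odd n := by
        by_contra hcon
        push Not at hcon
        apply hT2
        rw [Finset.mem_image]
        refine ⟨T.image (fun n => n / 2), ?_, ?_⟩
        · rw [Finset.mem_powerset] at hT ⊢
          intro a ha
          obtain ⟨b, hb, rfl⟩ := Finset.mem_image.1 ha
          have := Finset.mem_range.1 (hT hb)
          rw [Finset.mem_range]
          omega
        · rw [Finset.image_image]
          refine (Finset.image_congr (g := id) ?_).trans Finset.image_id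
          intro n hn
          have h5 := hcon n hn
          rw [Nat.not_odd_iff_even] at h5
          obtain ⟨k, hk⟩ := h5
          simp only [Function.comp_apply, id_eq]
          omega
      obtain ⟨n, hn, hno⟩ := h4
      rw [ht]
      simp only
      rw [hΛ.odd _ ⟨n, by rw [Finset.mem_sort]; exact hn, hno⟩, mul_zero]
  -- values of `Λ`
  have hval : ∀ S' : Finset ℕ, Λ (prb F ((S'.image fun n => 2 * n).sort (· ≥ ·))) =
      pfL (AS D) (psl N ++ (S'.sort (· ≥ ·)).map Sum.inr) := by
    intro S'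
    rw [sort_double, hΛ.even]
  have hodd : ∀ S' : Finset ℕ, S'.card % 2 ≠ 0 → t (S'.image fun n => 2 * n) = 0 := by
    intro S' hS'
    rw [ht]
    simp only
    rw [hval, pfL_odd, mul_zero]
    rw [List.length_append, List.length_map, Finset.length_sort]
    unfold psl
    rw [List.length_ofFn]
    rw [Nat.odd_iff]
    rw [Nat.even_iff] at hN
    omega
  -- step 2
  have hno0 : ∀ S ∈ (Icc 1 (B' - 1)).powerset, 0 ∉ S := by
    intro S hS h0
    rw [Finset.mem_powerset] at hS
    have := Finset.mem_Icc.1 (hS h0)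
    omega
  have h6 : ∑ S' ∈ (range B').powerset, t (S'.image fun n => 2 * n) =
      ∑ S ∈ (Icc 1 (B' - 1)).powerset, t ((ins S).image fun n => 2 * n) := by
    rw [← Finset.sum_image (f := fun S' : Finset ℕ => t (S'.image fun n => 2 * n)) (g := ins)
      (s := (Icc 1 (B' - 1)).powerset) (fun a ha b hb hab => by
        rw [← ins_erase (hno0 a ha), ← ins_erase (hno0 b hb), hab])]
    symm
    refine Finset.sum_subset ?_ ?_
    · intro T hT
      obtain ⟨S, hS, rfl⟩ := Finset.mem_image.1 hT
      rw [Finset.mem_powerset] at hS ⊢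
      intro a ha
      unfold ins at ha
      rw [Finset.mem_range]
      split_ifs at ha with hc
      · have := Finset.mem_Icc.1 (hS ha)
        omega
      · rcases Finset.mem_insert.1 ha with ha | ha
        · omega
        · have := Finset.mem_Icc.1 (hS ha)
          omega
    · intro T hT hT2
      refine hodd T fun hcard => hT2 ?_
      rw [Finset.mem_image]
      refine ⟨T.erase 0, ?_, erase_ins hcard⟩
      rw [Finset.mem_powerset] at hT ⊢
      intro a ha
      rw [Finset.mem_erase] at ha
      have := Finset.mem_range.1 (hT ha.2)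
      rw [Finset.mem_Icc]
      omega
  -- the terms
  have hterm : ∀ S ∈ (Icc 1 (B' - 1)).powerset, t ((ins S).image fun n => 2 * n) =
      ((1 / 2 : F) ^ S.card * algebraMap ℝ F (XK K (dl S))) *
        (D.G * (∏ a ∈ S, algebraMap ℝ F (cc a)) *
          MvPolynomial.aeval (tval D.s) (pfL QQ (dl S))) := by
    intro S hS
    have h0 := hno0 S hS
    have hdl : dl S = (ins S).sort (· ≥ ·) := dl_eq_sort S h0
    have hdgt : (dl S).Pairwise (· > ·) := by
      rw [hdl]
      exact sort_gt _
    rw [ht]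
    simp only
    rw [hval, ← hdl, pf_AS D hN _ hdgt, sort_double, ← hdl, vac_ans]
    · rw [prod_dl S _ (by rw [cc, Finset.prod_range_zero, map_one])]
      congr 1
      have hco : ∀ L : List ℕ, ((do
          let a ← L
          pure ((a : ℕ) : ℤ)) : List ℤ) = L.map (fun a : ℕ => (a : ℤ)) := fun L =>
        (List.map_eq_flatMap).symm
      have h13 := vac_bos hJ hΘ K hK hρ (dl S)
      rw [hco, List.map_map] at h13
      have h7 : (List.map (fun t : ℤ => -t) (((dl S).map fun n => 2 * n).map
          (fun a : ℕ => (a : ℤ)))) =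
          (dl S).map ((fun n : ℤ => -(2 * n)) ∘ (fun a : ℕ => (a : ℤ))) := by
        rw [List.map_map, List.map_map]
        refine List.map_congr_left fun n _ => ?_
        simp only [Function.comp_apply]
        push_cast
        ring
      rw [hco, h7, hxdef, h13, List.map_map,
        prod_dl S _ (by simp)]
      congr 1
      have h8 : ∀ a ∈ S, ((fun t : ℕ => if t = 0 then (1 : F) else (1 / 2) * (-1) ^ t) ∘
          fun n => 2 * n) a = 1 / 2 := by
        intro a ha
        have ha0 : a ≠ 0 := fun h => h0 (h ▸ ha)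
        simp only [Function.comp_apply]
        rw [if_neg (by omega), pow_mul, neg_one_sq, one_pow, mul_one]
      rw [Finset.prod_congr rfl h8, Finset.prod_const]
    · rw [List.pairwise_map]
      refine hdgt.imp ?_
      intro a b hab
      omega
  -- step 3
  have hE2 : (∑ i, K i) / 2 = E := by omega
  have h9 : ∑ S ∈ (Icc 1 (B' - 1)).powerset, t ((ins S).image fun n => 2 * n) =
      ∑ S ∈ stp E, t ((ins S).image fun n => 2 * n) := by
    symm
    have hsub : stp E ⊆ (Icc 1 (B' - 1)).powerset := by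
      intro S hS
      unfold stp at hS
      rw [Finset.mem_filter, Finset.mem_powerset] at hS
      rw [Finset.mem_powerset]
      intro a ha
      have := Finset.mem_Icc.1 (hS.1 ha)
      rw [Finset.mem_Icc]
      omega
    refine Finset.sum_subset hsub ?_
    intro S hS hS2
    rw [hterm S hS, XK_eq_zero, map_zero, mul_zero, zero_mul]
    intro hsum
    rw [sum_dl, hE] at hsum
    apply hS2
    unfold stp
    rw [Finset.mem_filter, Finset.mem_powerset]
    have hsE : ∑ a ∈ S, a = E := by omega
    refine ⟨?_, hsE⟩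
    intro a ha
    rw [Finset.mem_powerset] at hS
    have h10 := Finset.mem_Icc.1 (hS ha)
    have h11 : a ≤ ∑ a ∈ S, a := Finset.single_le_sum (f := fun a => a)
      (fun _ _ => Nat.zero_le _) ha
    rw [Finset.mem_Icc]
    omega
  rw [h1, h3, h6, h9]
  unfold Rpoly
  rw [hE2, map_sum, Finset.mul_sum]
  refine Finset.sum_congr rfl fun S hS => ?_
  have hsub : S ∈ (Icc 1 (B' - 1)).powerset := by
    unfold stp at hS
    rw [Finset.mem_filter, Finset.mem_powerset] at hS
    rw [Finset.mem_powerset]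
    intro a ha
    have := Finset.mem_Icc.1 (hS.1 ha)
    rw [Finset.mem_Icc]
    omega
  rw [hterm S hsub, map_mul, MvPolynomial.aeval_C, map_mul, map_mul, map_pow, map_prod]
  have h12 : algebraMap ℝ F (1 / 2) = 1 / 2 := by
    rw [map_div₀, map_one, map_ofNat]
  rw [h12]
  ring

end Pool.Agent.Helper90.MVD
end

/- Helper90.MVD.Theta -/
section
/-!
Module MVD-12 (project MV, block D2): bosonisation `Θ`.

`Θ (∏ X_j) = ∏ J_j 1`. The operators `J_j` (`j ≥ 0`) commute (`cur_comm`). Construction of the linear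
map with `Θ 1 = 1`, `Θ (X j * f) = J j (Θ f)`: the subalgebra `Algebra.adjoin F {J j}` of
`Module.End F (Fk F)` is commutative (`Algebra.adjoinCommRingOfComm`), `MvPolynomial.aeval` into it,
then apply to the vector `1`. (Or on the basis of monomials with `Finset.noncommProd` / lists.)
`der`: `((2j+1)/2) Θ (∂_j f) = J_{-j-1} (Θ f)` by `MvPolynomial.induction_on`: constants: `cur_one`;
sums; `f * X i` (`= X i * f`): `∂_j (X i f) = δ_ij f + X i ∂_j f` and `cur_heis`:
`J_{-j-1} J_i Θ f = J_i J_{-j-1} Θ f + δ_ij (2i+1)/2 Θ f`.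
-/

namespace Pool.Agent.Helper90.MVD

open Finset Pool.Agent.Helper60.MV

variable {F : Type} [Field F] [CharZero F] {J : ℤ → Fk F →ₗ[F] Fk F}

private theorem exists_alg (hJ : IsCur F J) :
    ∃ φ : MvPolynomial ℕ F →ₗ[F] Module.End F (Fk F), φ 1 = 1 ∧
      ∀ (j : ℕ) f, φ (MvPolynomial.X j * f) = (J j : Module.End F (Fk F)) * φ f := by
  have hcomm : ∀ a ∈ Set.range (fun j : ℕ => (J j : Module.End F (Fk F))),
      ∀ b ∈ Set.range (fun j : ℕ => (J j : Module.End F (Fk F))), a * b = b * a := by
    rintro _ ⟨i, rfl⟩ _ ⟨j, rfl⟩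
    apply LinearMap.ext
    intro x
    exact cur_comm hJ i j (Int.natCast_nonneg _) (Int.natCast_nonneg _) x
  let _ : CommRing (Algebra.adjoin F (Set.range (fun j : ℕ => (J j : Module.End F (Fk F))))) :=
    Algebra.adjoinCommRingOfComm F hcomm
  let ψ : MvPolynomial ℕ F →ₐ[F]
      (Algebra.adjoin F (Set.range (fun j : ℕ => (J j : Module.End F (Fk F))))) :=
    MvPolynomial.aeval (fun j : ℕ => ⟨(J j : Module.End F (Fk F)),
      Algebra.subset_adjoin ⟨j, rfl⟩⟩)
  refine ⟨((Algebra.adjoin F (Set.range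
    (fun j : ℕ => (J j : Module.End F (Fk F))))).val.toLinearMap).comp ψ.toLinearMap, ?_, ?_⟩
  · simp
  · intro j f
    simp only [LinearMap.comp_apply, AlgHom.toLinearMap_apply, map_mul]
    congr 1
    simp [ψ]

theorem exists_theta (hJ : IsCur F J) : ∃ Θ : MvPolynomial ℕ F →ₗ[F] Fk F, IsTheta F J Θ := by
  obtain ⟨φ, h1, h2⟩ := exists_alg hJ
  let Θ : MvPolynomial ℕ F →ₗ[F] Fk F := (LinearMap.applyₗ (1 : Fk F)).comp φ
  have hΘ : ∀ f, Θ f = φ f 1 := fun f => rfl
  have hone : Θ 1 = 1 := by rw [hΘ, h1]; rfl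
  have hmul : ∀ (j : ℕ) f, Θ (MvPolynomial.X j * f) = J j (Θ f) := by
    intro j f
    rw [hΘ, h2, hΘ]
    rfl
  refine ⟨Θ, hone, hmul, ?_⟩
  intro j f
  induction f using MvPolynomial.induction_on with
  | C a =>
    have hC : Θ (MvPolynomial.C a) = a • (1 : Fk F) := by
      rw [← mul_one (MvPolynomial.C a), ← MvPolynomial.smul_eq_C_mul, map_smul, hone]
    rw [MvPolynomial.pderiv_C, map_zero, smul_zero, hC, map_smul, cur_one hJ _ (by omega),
      smul_zero]
  | add p q hp hq => rw [map_add, map_add, map_add, map_add, smul_add, hp, hq]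
  | mul_X p i hp =>
    rw [mul_comm p, MvPolynomial.pderiv_mul, map_add, hmul, hmul, cur_heis hJ, smul_add, ← hp,
      MvPolynomial.pderiv_X, map_smul, add_comm]
    congr 1
    by_cases hij : j = i
    · subst hij
      simp
    · rw [if_neg hij, Pi.single_eq_of_ne (Ne.symm hij), zero_mul, map_zero, smul_zero, zero_smul]

end Pool.Agent.Helper90.MVD
end

/- Helper90.MVD.Final -/
section
/-!
Module MVD-23 (project MV, block D2): the block theorem.

`L f := Λ (Θ (MvPolynomial.map (algebraMap ℝ F) f))`.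
* `IsSol.one`: `lam_one`, `pf_psl`.
* `IsSol.eq`: `x := Θ (map f)` (a real vector, `Rl.theta`). `L (X j * f) = Λ (J_j x)` (`IsTheta.mul`),
  `((2j+1)/2) • An _ (L (∂_j f)) = An _ (Λ (J_{-j-1} x))` (`IsTheta.der`, `MvPolynomial.pderiv_map`,
  `ℝ`-linearity of `An` and the scalar `(2j+1)/2 ∈ ℝ`). In `D23`, `m = ν - j` for `j ≤ ν` and
  `m = ν + j + 1` for `j ≥ 0` (`J_{ν-m} = J_{-j-1}`); the terms with `j ∉ f.vars` vanish since
  `∂_j f = 0` (`MvPolynomial.pderiv_eq_zero_of_notMem_vars`).
* values: `map (bos K) = ∏ X ((K i - 1)/2)` and `lam_bos`.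
-/

namespace Pool.Agent.Helper90.MVD

open Finset Pool.Agent.Helper60.MV Pool.Agent.Helper52.MVD

theorem D2main {F : Type} [Field F] [Algebra ℝ F] {N : ℕ} (D : DF F N) (hN : Even N) :
    ∃ L : MvPolynomial ℕ ℝ →ₗ[ℝ] F, D.IsSol L ∧
    ∀ {ρ : Type} [Fintype ρ] (K : ρ → ℕ) (_ : ∀ i, Odd (K i)) (E : ℕ) (_ : ∑ i, K i = 2 * E),
      L (bos K) = D.G * MvPolynomial.aeval (tval D.s) (Rpoly K) := by
  have : CharZero F := charZero_of_real F
  obtain ⟨J, hJ⟩ := exists_cur F
  obtain ⟨Θ, hΘ⟩ := exists_theta hJ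
  obtain ⟨Λ, hΛ⟩ := exists_lam D
  let L : MvPolynomial ℕ ℝ →ₗ[ℝ] F :=
    { toFun := fun f => Λ (Θ (MvPolynomial.map (algebraMap ℝ F) f))
      map_add' := fun f g => by simp only [map_add]
      map_smul' := fun a f => by
        rw [MvPolynomial.smul_eq_C_mul, map_mul, MvPolynomial.map_C, ← MvPolynomial.smul_eq_C_mul,
          map_smul, map_smul, smul_eq_mul, RingHom.id_apply, Algebra.smul_def] }
  have hL : ∀ f, L f = Λ (Θ (MvPolynomial.map (algebraMap ℝ F) f)) := fun f => rfl
  refine ⟨L, ⟨?_, ?_⟩, ?_⟩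
  · rw [hL, map_one, hΘ.one, lam_one hΛ, pf_psl D hN]
  · intro ν f
    set x : Fk F := Θ (MvPolynomial.map (algebraMap ℝ F) f) with hx
    obtain ⟨B₀, hB₀⟩ := D23 hN hΛ hJ ν x (Rl.theta hJ hΘ f)
    have h1 : ∀ j : ℕ, L (MvPolynomial.X j * f) = Λ (J j x) := fun j => by
      rw [hL, map_mul, MvPolynomial.map_X, hΘ.mul]
    have h2 : ∀ j : ℕ, ((2 * (j : ℝ) + 1) / 2) • L (MvPolynomial.pderiv j f) =
        Λ (J (-(j : ℤ) - 1) x) := fun j => by
      rw [← hΘ.der, map_smul, MvPolynomial.pderiv_map, ← hL, Algebra.smul_def, smul_eq_mul]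
      congr 1
      simp [map_ofNat]
    have h2' : ∀ (j m : ℕ), ((2 * (j : ℝ) + 1) / 2) • D.An m (L (MvPolynomial.pderiv j f)) =
        D.An m (Λ (J (-(j : ℤ) - 1) x)) := fun j m => by
      rw [← h2, map_smul]
    have h3 : ∀ j : ℕ, j ∉ f.vars → Λ (J (-(j : ℤ) - 1) x) = 0 := fun j hj => by
      rw [← h2, MvPolynomial.pderiv_eq_zero_of_notMem_vars hj, map_zero, smul_zero]
    -- choose a large bound
    obtain ⟨V, hV⟩ : ∃ V : ℕ, ∀ j ∈ f.vars, j < V := by
      refine ⟨f.vars.sup id + 1, fun j hj => ?_⟩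
      have := Finset.le_sup (f := id) hj
      simp only [id] at this
      omega
    have hB := hB₀ (ν + 1 + (V + B₀)) (by omega)
    rw [Finset.sum_range_add] at hB
    rw [← hB]
    congr 1
    · rw [← Finset.sum_range_reflect]
      refine Finset.sum_congr rfl fun j hj => ?_
      rw [Finset.mem_range] at hj
      rw [h1]
      have e1 : ν + 1 - 1 - j = ν - j := by omega
      have e2 : ν - (ν + 1 - 1 - j) = j := by omega
      have e3 : ((ν - j : ℕ) : ℤ) = (ν : ℤ) - j := by omega
      rw [e2, e1, e3]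
    · have e3 : ∑ j ∈ f.vars, ((2 * (j : ℝ) + 1) / 2) • D.An (ν + j + 1)
          (L (MvPolynomial.pderiv j f)) =
          ∑ j ∈ f.vars, D.An (ν + j + 1) (Λ (J (-(j : ℤ) - 1) x)) :=
        Finset.sum_congr rfl fun j _ => h2' j _
      rw [e3]
      have e4 : f.vars ⊆ range (V + B₀) := fun j hj => by
        rw [Finset.mem_range]
        have := hV j hj
        omega
      rw [Finset.sum_subset e4 (fun j _ hj => by rw [h3 j hj, map_zero])]
      refine Finset.sum_congr rfl fun j _ => ?_
      have e5 : ν + j + 1 = ν + 1 + j := by omega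
      rw [e5]
      congr 4
      push_cast
      ring
  · intro ρ _ K hK E hE
    have e1 : MvPolynomial.map (algebraMap ℝ F) (bos K) =
        ∏ i, MvPolynomial.X ((K i - 1) / 2) := by
      rw [bos, map_prod]
      refine Finset.prod_congr rfl fun i _ => ?_
      rw [MvPolynomial.map_X]
    rw [hL, e1]
    exact lam_bos D hN hJ hΘ hΛ K hK E hE

end Pool.Agent.Helper90.MVD
end
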