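import Mathlib
import Pool.Agent.Helper16.LGG.G03
import Pool.Agent.Helper16.LGG.G08
import Pool.Agent.Helper16.LGG.G09

/- Helper84.MVA.Transp -/
section
/-!
MV-A15 (the sum over second towers, on the faces of the first tower).

PROOF.  `glue_sum` for `l = lY D1` and `F' g = F (cj D1 g)`; then the bijection
`g ↦ cj D1 g = faceEq⁻¹ g faceEq` between pairings `g` of `Cyc (lY D1)` and pairings `β` of
`Cyc (rot K * D1.τ)` (`Equiv.tsum_eq`); `csz (lY D1) (faceEq f) = pr D1 f` (`csz_faceEq`), so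
`csz (g f') = csz f'` for all `f'` iff `pr (β f) = pr f` for all `f`; a sum over the subtype with a
further condition is the sum of an `ite` (`tsum_subtype`, `Set.indicator`).  The product: `faceEq`
induces a bijection of `Cyc β` with `Cyc g` (`Fintype.prod_equiv`/`Quotient.congr`), and the
size is constant on a cycle of `g` (two representatives of the same cycle have the same size: they are
equal or exchanged by `g`; or: `csz` is invariant under `g` so it is constant on `SameCycle g`).
-/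

namespace Pool.Agent.Helper84.MVA

open Pool.Agent.Helper60.MV Finset

/-- perimeter of a face in the first tower -/
noncomputable def pr {ρ : Type} [Fintype ρ] {K : ρ → ℕ} (D1 : TD (HK K))
    (f : Cyc (rot K * D1.τ)) : ℕ := ∑ h : HK K, if cyc (rot K * D1.τ) h = f then D1.ℓ h else 0

/-- conjugation by `faceEq` -/
noncomputable def cj {ρ : Type} {K : ρ → ℕ} (D1 : TD (HK K)) (g : Equiv.Perm (Cyc (lY D1))) :
    Equiv.Perm (Cyc (rot K * D1.τ)) := ((faceEq D1).trans g).trans (faceEq D1).symm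

private theorem tsum_cond {α : Type} (p q : α → Prop) [DecidablePred q] (G : α → ENNReal) :
    ∑' x : {x // p x}, (if q x.1 then G x.1 else 0) = ∑' x : {x // p x ∧ q x}, G x.1 := by
  classical
  have h1 : ∑' x : {x // p x}, (if q x.1 then G x.1 else 0) =
      ∑' x, ({x | p x} : Set α).indicator (fun x => if q x then G x else 0) x :=
    tsum_subtype ({x | p x} : Set α) (fun x => if q x then G x else 0)
  have h2 : ∑' x : {x // p x ∧ q x}, G x.1 =
      ∑' x, ({x | p x ∧ q x} : Set α).indicator G x :=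
    tsum_subtype ({x | p x ∧ q x} : Set α) G
  rw [h1, h2]
  refine tsum_congr fun x => ?_
  by_cases hp : p x <;> by_cases hq : q x <;> simp [Set.indicator, hp, hq]

private theorem cj_zpow {A B : Type} (e : A ≃ B) (g : Equiv.Perm B) (k : ℤ) (a : A) :
    e ((((e.trans g).trans e.symm : Equiv.Perm A) ^ k) a) = (g ^ k) (e a) := by
  have h : (((e.trans g).trans e.symm : Equiv.Perm A) ^ k) =
      (e.trans (g ^ k)).trans e.symm := by
    have h1 : ∀ f : Equiv.Perm B, (e.trans f).trans e.symm = e.symm.permCongrHom f := by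
      intro f
      rfl
    rw [h1, h1, map_zpow]
  rw [h]
  simp

private theorem cj_sameCycle {A B : Type} (e : A ≃ B) (g : Equiv.Perm B) (a b : A) :
    Equiv.Perm.SameCycle ((e.trans g).trans e.symm : Equiv.Perm A) a b ↔
      g.SameCycle (e a) (e b) := by
  constructor
  · rintro ⟨k, rfl⟩
    exact ⟨k, (cj_zpow e g k a).symm⟩
  · rintro ⟨k, hk⟩
    exact ⟨k, e.injective ((cj_zpow e g k a).trans hk)⟩

private theorem inv_sameCycle {B : Type} {g : Equiv.Perm B} {w : B → ℕ} (hw : ∀ b, w (g b) = w b)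
    {a b : B} (h : g.SameCycle a b) : w a = w b := by
  obtain ⟨k, rfl⟩ := h
  have h1 : ∀ k : ℤ, ∀ x, w ((g ^ k) x) = w x := by
    intro k
    induction k with
    | zero => intro x; simp
    | succ k ih =>
      intro x
      rw [zpow_add_one, Equiv.Perm.mul_apply, ih, hw]
    | pred k ih =>
      intro x
      rw [zpow_sub_one, Equiv.Perm.mul_apply, ih, ← hw (g⁻¹ x)]
      congr 1
      exact g.apply_symm_apply x
  exact (h1 k a).symm

theorem glue_face {ρ : Type} [Fintype ρ] {K : ρ → ℕ} (D1 : TD (HK K)) (t : ℝ) (ht : 0 < t)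
    (F : Equiv.Perm (Cyc (rot K * D1.τ)) → ENNReal) :
    ∑' D2 : {D2 : TD D1.T // IsGl (lY D1) D2}, F (cj D1 (glBeta D2.2)) *
      ENNReal.ofReal (Real.exp (-(t * ((Nat.card D2.1.T : ℝ) / 2)))) =
    ∑' β : {β : Equiv.Perm (Cyc (rot K * D1.τ)) // IsPairing β}, (by
      classical
      exact if ∀ f, pr D1 (β.1 f) = pr D1 f then
        F β.1 * ∏ c : Cyc β.1, ENNReal.ofReal (wt t (pr D1 c.rep)) else 0) := by
  classical
  have : Fintype D1.T := Fintype.ofFinite _
  rw [glue_sum (lY D1) t ht (fun g => F (cj D1 g))]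
  have hR := tsum_cond (fun β : Equiv.Perm (Cyc (rot K * D1.τ)) => IsPairing β)
    (fun β => ∀ f, pr D1 (β f) = pr D1 f)
    (fun β => F β * ∏ c : Cyc β, ENNReal.ofReal (wt t (pr D1 c.rep)))
  refine Eq.trans ?_ (Eq.trans hR.symm ?_)
  swap
  · refine tsum_congr fun β => ?_
    split_ifs <;> rfl
  have hcz : ∀ f, csz (lY D1) (faceEq D1 f) = pr D1 f := fun f => csz_faceEq D1 f
  have hcj : ∀ (g : Equiv.Perm (Cyc (lY D1))) f, faceEq D1 (cj D1 g f) = g (faceEq D1 f) := by
    intro g f
    simp [cj]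
  let E : Equiv.Perm (Cyc (lY D1)) ≃ Equiv.Perm (Cyc (rot K * D1.τ)) :=
    (faceEq D1).symm.permCongr
  have hE : ∀ g, E g = cj D1 g := fun g => rfl
  let E' : {β : Equiv.Perm (Cyc (lY D1)) // IsPairing β ∧
        ∀ f, csz (lY D1) (β f) = csz (lY D1) f} ≃
      {β : Equiv.Perm (Cyc (rot K * D1.τ)) // IsPairing β ∧ ∀ f, pr D1 (β f) = pr D1 f} :=
    E.subtypeEquiv (by
      intro g
      rw [hE]
      constructor
      · rintro ⟨h1, h2⟩
        refine ⟨⟨fun h => ?_, fun h hh => ?_⟩, fun f => ?_⟩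
        · apply (faceEq D1).injective
          rw [hcj, hcj, h1.invol]
        · apply h1.fpf (faceEq D1 h)
          rw [← hcj, hh]
        · rw [← hcz, ← hcz, hcj, h2]
      · rintro ⟨h1, h2⟩
        refine ⟨⟨fun h => ?_, fun h hh => ?_⟩, fun f => ?_⟩
        · obtain ⟨h, rfl⟩ := (faceEq D1).surjective h
          rw [← hcj, ← hcj, h1.invol]
        · obtain ⟨h, rfl⟩ := (faceEq D1).surjective h
          apply h1.fpf h
          apply (faceEq D1).injective
          rw [hcj, hh]
        · obtain ⟨f, rfl⟩ := (faceEq D1).surjective f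
          rw [← hcj, hcz, hcz, h2])
  rw [← E'.tsum_eq]
  refine tsum_congr fun β => ?_
  have hE' : (E' β).1 = cj D1 β.1 := rfl
  rw [hE']
  congr 1
  symm
  let ψ : Cyc (cj D1 β.1) ≃ Cyc β.1 :=
    Quotient.congr (faceEq D1) (fun a b => cj_sameCycle (faceEq D1) β.1 a b)
  refine Fintype.prod_equiv ψ _ _ fun c => ?_
  congr 2
  rw [← hcz]
  refine inv_sameCycle (g := β.1) (w := csz (lY D1)) β.2.2 ?_
  rw [← cyc_eq_iff, cyc_rep]
  have h3 : ψ (cyc (cj D1 β.1) c.rep) = cyc β.1 (faceEq D1 c.rep) := rfl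
  rw [← h3, cyc_rep]

end Pool.Agent.Helper84.MVA
end

/- Helper84.MVA.Final -/
section
/-!
MV-A16: assembly of block A.
-/

namespace Pool.Agent.Helper84.MVA

open Pool.Agent.Helper60.MV Finset

theorem hasSum_of_ofReal {ι : Type} (c : ι → ℝ) (hc : ∀ n, 0 ≤ c n) (S : ℝ) (hS : 0 ≤ S)
    (h : ∑' n, ENNReal.ofReal (c n) = ENNReal.ofReal S) : HasSum c S := by
  have h1 : ∑' n, ENNReal.ofReal (c n) ≠ ⊤ := by rw [h]; exact ENNReal.ofReal_ne_top
  have h2 := ENNReal.summable_toReal h1
  simp only [ENNReal.toReal_ofReal (hc _)] at h2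
  have h3 : ∑' n, c n = S := by
    rw [← ENNReal.ofReal_tsum_of_nonneg hc h2] at h
    exact (ENNReal.ofReal_eq_ofReal_iff (tsum_nonneg hc) hS).1 h
  rw [← h3]
  exact h2.hasSum

theorem even_card {X : Type} [Finite X] (t : Equiv.Perm X) (ht : IsPairing t) :
    Even (Nat.card X) := by
  classical
  have : Fintype X := Fintype.ofFinite X
  rw [Nat.card_eq_fintype_card]
  have h1 : (Finset.univ.filter (fun x => t x ≠ x)) = Finset.univ := by
    ext x
    simp [ht.fpf x]
  have h2 := Equiv.Perm.two_dvd_card_support (σ := t) (by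
    ext x
    simp [pow_two, ht.invol x])
  have h3 : t.support = Finset.univ := by
    ext x
    simp [ht.fpf x]
  rw [h3, Finset.card_univ] at h2
  exact even_iff_two_dvd.2 h2

/-- double towers = pairs of towers -/
def ddEquiv {ρ : Type} (K : ρ → ℕ) : DD K ≃
    Σ D1 : {D1 : TD (HK K) // ∀ h, D1.τ h ≠ h}, {D2 : TD D1.1.T // IsGl (lY D1.1) D2} where
  toFun D := ⟨⟨D.D1, D.f1⟩, ⟨D.D2, D.f2⟩⟩
  invFun q := ⟨q.1.1, q.1.2, q.2.1, q.2.2⟩
  left_inv _ := rfl
  right_inv _ := rfl

/-- step 1: sum over the number of squares = sum over connected double towers -/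
theorem sum_L {ρ : Type} [Fintype ρ] [Nonempty ρ] (K : ρ → ℕ) (hK : ∀ i, 0 < K i) (t : ℝ) :
    ∑' L : ℕ, ENNReal.ofReal (cL K L * Real.exp (-(t * L))) =
      ∑' D : {D : DD K // D.Cn}, ENNReal.ofReal (Real.exp (-(t * ((Nat.card D.1.X : ℝ) / 2)))) := by
  classical
  have h1 : ∀ L : ℕ, ENNReal.ofReal (cL K L * Real.exp (-(t * L))) =
      ∑' _D : {D : DD K // D.Cn ∧ Nat.card D.X = 2 * L}, ENNReal.ofReal (Real.exp (-(t * L))) := by
    intro L
    obtain ⟨hf, hc⟩ := card_DD K hK L
    have : Fintype {D : DD K // D.Cn ∧ Nat.card D.X = 2 * L} := Fintype.ofFinite _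
    rw [tsum_fintype, Finset.sum_const, hc, Nat.card_eq_fintype_card, Finset.card_univ,
      ENNReal.ofReal_mul (by positivity), nsmul_eq_mul, ENNReal.ofReal_natCast]
  rw [tsum_congr h1]
  let f : {D : DD K // D.Cn} → ℕ := fun D => Nat.card D.1.X / 2
  rw [← (Equiv.sigmaFiberEquiv f).tsum_eq, ENNReal.tsum_sigma']
  refine tsum_congr fun L => ?_
  have h2 : ∀ D : {D : DD K // D.Cn}, Nat.card D.1.X = 2 * (Nat.card D.1.X / 2) := by
    intro D
    have := even_card D.1.io ⟨D.1.D2.al_al, D.1.D2.al_fpf D.1.f2.fpf⟩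
    exact (Nat.two_mul_div_two_of_even this).symm
  let e : {D : DD K // D.Cn ∧ Nat.card D.X = 2 * L} ≃ {D : {D : DD K // D.Cn} // f D = L} :=
    { toFun := fun D => ⟨⟨D.1, D.2.1⟩, by
        show Nat.card D.1.X / 2 = L
        rw [D.2.2]; omega⟩
      invFun := fun D => ⟨D.1.1, D.1.2, by rw [h2 D.1]; rw [show Nat.card D.1.1.X / 2 = L from D.2]⟩
      left_inv := fun _ => rfl
      right_inv := fun _ => rfl }
  rw [← e.tsum_eq]
  refine tsum_congr fun D => ?_
  have h3 : Nat.card D.1.X = 2 * L := D.2.2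
  show ENNReal.ofReal (Real.exp (-(t * L))) =
    ENNReal.ofReal (Real.exp (-(t * ((Nat.card D.1.X : ℝ) / 2))))
  rw [h3]
  congr 3
  push_cast
  ring

/-- the indicator of connectedness -/
noncomputable def cind {ρ : Type} {K : ρ → ℕ} (τ : Equiv.Perm (HK K)) (hτ : IsPairing τ)
    (β : Equiv.Perm (Cyc (rot K * τ))) : ENNReal := by
  classical
  exact if h : IsPairing β then (if (⟨τ, hτ, β, h⟩ : Conf (rot K)).Conn then 1 else 0) else 0

theorem cind_toConf {ρ : Type} [Finite ρ] {K : ρ → ℕ} (D : DD K) [Decidable D.Cn] :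
    cind D.D1.τ ⟨D.D1.inv, D.f1⟩ (cj D.D1 (glBeta D.f2)) = if D.Cn then 1 else 0 := by
  classical
  unfold cind
  have h : IsPairing (cj D.D1 (glBeta D.f2)) := D.toConf.hβ
  rw [dif_pos h]
  have h2 : (⟨D.D1.τ, ⟨D.D1.inv, D.f1⟩, cj D.D1 (glBeta D.f2), h⟩ : Conf (rot K)) = D.toConf := rfl
  rw [h2]
  have h3 := Cn_iff D
  by_cases hc : D.Cn
  · rw [if_pos (h3.1 hc), if_pos hc]
  · rw [if_neg (fun h => hc (h3.2 h)), if_neg hc]

/-- step 2 -/
theorem sum_DD {ρ : Type} [Fintype ρ] (K : ρ → ℕ) (t : ℝ) (ht : 0 < t) :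
    ∑' D : {D : DD K // D.Cn}, ENNReal.ofReal (Real.exp (-(t * ((Nat.card D.1.X : ℝ) / 2)))) =
    ∑' D1 : {D1 : TD (HK K) // ∀ h, D1.τ h ≠ h},
      ∑' β : {β : Equiv.Perm (Cyc (rot K * D1.1.τ)) // IsPairing β}, (by
      classical
      exact if ∀ f, pr D1.1 (β.1 f) = pr D1.1 f then
        cind D1.1.τ ⟨D1.1.inv, D1.2⟩ β.1 * ∏ c : Cyc β.1, ENNReal.ofReal (wt t (pr D1.1 c.rep))
        else 0) := by
  classical
  have h1 : ∑' D : {D : DD K // D.Cn}, ENNReal.ofReal (Real.exp (-(t * ((Nat.card D.1.X : ℝ) / 2))))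
      = ∑' D : DD K, (if D.Cn then 1 else 0) *
        ENNReal.ofReal (Real.exp (-(t * ((Nat.card D.X : ℝ) / 2)))) := by
    rw [show (∑' D : {D : DD K // D.Cn},
      ENNReal.ofReal (Real.exp (-(t * ((Nat.card D.1.X : ℝ) / 2))))) =
      ∑' D : ({D : DD K | D.Cn} : Set (DD K)),
        ENNReal.ofReal (Real.exp (-(t * ((Nat.card D.1.X : ℝ) / 2)))) from rfl]
    rw [tsum_subtype {D : DD K | D.Cn}
      (fun D => ENNReal.ofReal (Real.exp (-(t * ((Nat.card D.X : ℝ) / 2)))))]
    refine tsum_congr fun D => ?_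
    by_cases hc : D.Cn
    · rw [Set.indicator_of_mem (show D ∈ {D : DD K | D.Cn} from hc), if_pos hc, one_mul]
    · rw [Set.indicator_of_notMem (show D ∉ {D : DD K | D.Cn} from hc), if_neg hc, zero_mul]
  rw [h1, ← (ddEquiv K).symm.tsum_eq, ENNReal.tsum_sigma']
  refine tsum_congr fun D1 => ?_
  have h2 := glue_face D1.1 t ht (cind D1.1.τ ⟨D1.1.inv, D1.2⟩)
  rw [← h2]
  refine tsum_congr fun D2 => ?_
  have h3 := cind_toConf (⟨D1.1, D1.2, D2.1, D2.2⟩ : DD K)
  rw [h3]
  rfl

/-- cycles of an involution -/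
theorem sameCycle_invol {F : Type} {β : Equiv.Perm F} (h : ∀ f, β (β f) = f) {f g : F}
    (hs : β.SameCycle f g) : g = f ∨ g = β f := by
  obtain ⟨k, rfl⟩ := hs
  have h2 : β ^ (2 : ℤ) = 1 := by
    ext f
    rw [zpow_two]
    exact h f
  rcases Int.even_or_odd' k with ⟨j, hj | hj⟩
  · left
    rw [hj, zpow_mul, h2, one_zpow]
    rfl
  · right
    rw [hj, zpow_add, zpow_mul, h2, one_zpow, one_mul, zpow_one]

theorem rep_or {F : Type} {β : Equiv.Perm F} (h : ∀ f, β (β f) = f) (f : F) :
    f = (cyc β f).rep ∨ f = β (cyc β f).rep :=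
  sameCycle_invol h (cyc_eq_iff.1 (cyc_rep (cyc β f)))

/-- perimeter of a length function on the half-edges -/
noncomputable def prH {ρ : Type} [Fintype ρ] {K : ρ → ℕ} (τ : Equiv.Perm (HK K)) (ℓ : HK K → ℕ)
    (f : Cyc (rot K * τ)) : ℕ := ∑ h : HK K, if cyc (rot K * τ) h = f then ℓ h else 0

/-- the summand -/
noncomputable def GG {ρ : Type} [Fintype ρ] {K : ρ → ℕ} (t : ℝ) (τ : Equiv.Perm (HK K))
    (hτ : IsPairing τ) (β : Equiv.Perm (Cyc (rot K * τ))) (_ : IsPairing β) (ℓ : HK K → ℕ) :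
    ENNReal := by
  classical
  exact if ∀ f, prH τ ℓ (β f) = prH τ ℓ f then
    cind τ hτ β * ∏ c : Cyc β, ENNReal.ofReal (wt t (prH τ ℓ c.rep)) else 0

theorem GG_conf {ρ : Type} [Fintype ρ] {K : ρ → ℕ} (t : ℝ) (ht : 0 < t) (R : Conf (rot K)) 
    [Decidable R.Conn] :
    ∑' l : R.Edge → ℕ+, GG t R.τ R.hτ R.β R.hβ (fun h => (l (R.edge h) : ℕ)) =
      (if R.Conn then 1 else 0) * ENNReal.ofReal (R.S t) := by
  classical
  have hc : cind R.τ R.hτ R.β = if R.Conn then 1 else 0 := by
    unfold cind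
    rw [dif_pos R.hβ]
    by_cases hc : R.Conn
    · rw [if_pos hc, if_pos (show (⟨R.τ, R.hτ, R.β, R.hβ⟩ : Conf (rot K)).Conn from hc)]
    · rw [if_neg hc, if_neg (show ¬ (⟨R.τ, R.hτ, R.β, R.hβ⟩ : Conf (rot K)).Conn from hc)]
  have hS := (ofReal_SM R.P (P_col R) t ht).2
  rw [show R.S t = SM R.P t from rfl, hS, ← ENNReal.tsum_mul_left]
  refine tsum_congr fun l => ?_
  have hp : ∀ c b, ∑ e, R.P c b e * (l e : ℕ) =
      prH R.τ (fun h => (l (R.edge h) : ℕ)) (R.cface c b) := by
    intro c b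
    rw [P_mul R c b (fun e => (l e : ℕ))]
    rfl
  unfold GG
  rw [hc]
  have hiff : (∀ f, prH R.τ (fun h => (l (R.edge h) : ℕ)) (R.β f) =
      prH R.τ (fun h => (l (R.edge h) : ℕ)) f) ↔
      ∀ c, ∑ e, R.P c false e * (l e : ℕ) = ∑ e, R.P c true e * (l e : ℕ) := by
    constructor
    · intro h c
      rw [hp, hp]
      exact (h c.rep).symm
    · intro h f
      have h1 := h (cyc R.β f)
      rw [hp, hp] at h1
      have h1' : prH R.τ (fun h => (l (R.edge h) : ℕ)) (cyc R.β f).rep =
        prH R.τ (fun h => (l (R.edge h) : ℕ)) (R.β (cyc R.β f).rep) := h1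
      rcases rep_or R.hβ.invol f with h2 | h2
      · rw [← h2] at h1'
        exact h1'.symm
      · have h3 : R.β f = (cyc R.β f).rep := by
          conv_lhs => rw [h2]
          exact R.hβ.invol _
        rw [h3, h1', ← h2]
  by_cases h : ∀ f, prH R.τ (fun h => (l (R.edge h) : ℕ)) (R.β f) =
      prH R.τ (fun h => (l (R.edge h) : ℕ)) f
  · rw [if_pos h, if_pos (hiff.1 h)]
    congr 1
    refine Finset.prod_congr rfl fun c _ => ?_
    rw [hp]
    rfl
  · rw [if_neg h, if_neg (fun h' => h (hiff.2 h')), mul_zero]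

theorem blockA {ρ : Type} [Fintype ρ] [Nonempty ρ] (K : ρ → ℕ) (hK : ∀ i, Odd (K i))
    (t : ℝ) (ht : 0 < t) :
    HasSum (fun L : ℕ => cL K L * Real.exp (-(t * L)))
      (by classical exact ∑ R ∈ univ.filter (fun R : Conf (rot K) => R.Conn), R.S t) := by
  classical
  have hK' : ∀ i, 0 < K i := fun i => (hK i).pos
  refine hasSum_of_ofReal _ (fun L => ?_) _ (Finset.sum_nonneg fun R _ => ?_) ?_
  · exact mul_nonneg (div_nonneg (Nat.cast_nonneg _) (Nat.cast_nonneg _)) (Real.exp_pos _).le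
  · exact (ofReal_SM R.P (P_col R) t ht).1
  · rw [sum_L K hK' t, sum_DD K t ht]
    have h0 : ENNReal.ofReal (∑ R ∈ univ.filter (fun R : Conf (rot K) => R.Conn), R.S t) =
        ∑ R ∈ univ.filter (fun R : Conf (rot K) => R.Conn), ENNReal.ofReal (R.S t) :=
      ENNReal.ofReal_sum_of_nonneg (fun R _ => (ofReal_SM R.P (P_col R) t ht).1)
    rw [h0]
    have h1 := conf_sum (K := K) (GG t)
    have h2 : (∑' D1 : {D1 : TD (HK K) // ∀ h, D1.τ h ≠ h},
      ∑' β : {β : Equiv.Perm (Cyc (rot K * D1.1.τ)) // IsPairing β},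
        GG t D1.1.τ ⟨D1.1.inv, D1.2⟩ β.1 β.2 D1.1.ℓ) = ∑' D1 : {D1 : TD (HK K) // ∀ h, D1.τ h ≠ h},
      ∑' β : {β : Equiv.Perm (Cyc (rot K * D1.1.τ)) // IsPairing β},
        (if ∀ f, pr D1.1 (β.1 f) = pr D1.1 f then
        cind D1.1.τ ⟨D1.1.inv, D1.2⟩ β.1 * ∏ c : Cyc β.1, ENNReal.ofReal (wt t (pr D1.1 c.rep))
        else 0) := rfl
    rw [h2] at h1
    refine h1.trans ?_
    rw [Finset.sum_filter]
    refine Finset.sum_congr rfl fun R _ => ?_
    rw [GG_conf t ht R]
    by_cases hc : R.Conn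
    · rw [if_pos hc, if_pos hc, one_mul]
    · rw [if_neg hc, if_neg hc, zero_mul]

end Pool.Agent.Helper84.MVA
end

/- Helper62.MVC2.Minor -/
section
/-!
MV-C2-4. Bounds of the regularised volumes by an invertible minor.

Proofs.
* `AM_le_of_minor`: put `p_c = ∑ P c false e x_e + ξ c false`, `p'_c` similarly, both `≥ 0` on the orthant. By `kern_exp9`,
  `∏_c kern ≤ 10^|κ| exp (-(9/20) ∑_c (p_c + p'_c)) ∏_c corr ε (p_c - p'_c)` and `∑_c (p_c + p'_c) ≥ 2 ∑_e x_e` (`hcol`,
  `ξ ≥ 0`), so `≤ 10^|κ| exp (-(9/10) ∑_{e ∉ range J} x_e) ∏_c corr ε ((B x)_c + d_c)`, `d_c = ξ c false - ξ c true`,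
  `B c e = P c false e - P c true e`. Integrate over the coordinates `x_J` first, over all of `ℝ^J` (use `lintegral`s of
  `ENNReal.ofReal`; split `ι → ℝ` by `MeasurableEquiv.piEquivPiSubtypeProd`, `volume_preserving_piEquivPiSubtypeProd`; the
  coordinates in `range J` are relabelled by `κ`, `Equiv.ofInjective`): for fixed other coordinates the substitution
  `z = B_J x_J + const` gives `∏_c ∫ corr ε = 1` divided by `|det B_J| ≥ 1` (`det` is a nonzero integer;
  `Real.map_matrix_volume_pi_eq_smul_volume_pi`, `corr_integral`). The remaining integral is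
  `∏_{e ∉ range J} ∫_0^∞ exp (-(9/10) x) = (10/9)^{|ι| - |κ|} ≤ (10/9)^|ι|`; in the second statement the coordinate `e₀`
  is restricted to `(0, η]`, its factor is `≤ η`.
-/

namespace Pool.Agent.Helper62.MVC2

open Finset MeasureTheory Filter Topology Pool.Agent.Helper60.MV

private theorem lint_prod {α : Type} [Fintype α] (f : α → ℝ → ℝ) (hf : ∀ i, Integrable (f i))
    (h0 : ∀ i t, 0 ≤ f i t) :
    ∫⁻ x : α → ℝ, ENNReal.ofReal (∏ i, f i (x i)) = ENNReal.ofReal (∏ i, ∫ t, f i t) := by
  have h1 : Integrable (fun x : α → ℝ => ∏ i, f i (x i)) :=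
    Integrable.fintype_prod (μ := fun _ : α => (volume : Measure ℝ)) hf
  rw [← ofReal_integral_eq_lintegral_ofReal h1
    (Filter.Eventually.of_forall fun x => Finset.prod_nonneg fun i _ => h0 i _),
    integral_fintype_prod_volume_eq_prod]

private theorem minor_lint {ι κ : Type} [Fintype ι] [Fintype κ] [DecidableEq κ]
    (B : κ → ι → ℝ) (J : κ → ι) (hJ : Function.Injective J) [Fintype ↥(Set.range J)ᶜ]
    (hdet : 1 ≤ |(Matrix.of fun c c' : κ => B c (J c')).det|)
    (g : ℝ → ℝ) (hgc : Continuous g) (hgi : Integrable g) (hg0 : ∀ t, 0 ≤ g t)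
    (hg1 : ∫ t, g t = 1) (d : κ → ℝ) (w : ι → ℝ → ℝ) (hw : ∀ e, Integrable (w e))
    (hwm : ∀ e, Measurable (w e)) (hw0 : ∀ e t, 0 ≤ w e t) :
    ∫⁻ x : ι → ℝ, ENNReal.ofReal ((∏ e : ↥(Set.range J)ᶜ, w e (x e)) *
      ∏ c, g (∑ e, B c e * x e + d c)) ≤
      ENNReal.ofReal (∏ e : ↥(Set.range J)ᶜ, ∫ t, w e t) := by
  classical
  let eq : κ ⊕ ↥(Set.range J)ᶜ ≃ ι :=
    ((Equiv.ofInjective J hJ).sumCongr (Equiv.refl _)).trans (Equiv.Set.sumCompl (Set.range J))
  have eql : ∀ c, eq (Sum.inl c) = J c := fun _ => rfl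
  have eqr : ∀ e : ↥(Set.range J)ᶜ, eq (Sum.inr e) = e := fun _ => rfl
  let T : ((κ → ℝ) × (↥(Set.range J)ᶜ → ℝ)) ≃ᵐ (ι → ℝ) :=
    (MeasurableEquiv.sumPiEquivProdPi (fun _ : κ ⊕ ↥(Set.range J)ᶜ => ℝ)).symm.trans
      (MeasurableEquiv.piCongrLeft (fun _ => ℝ) eq)
  have hT : MeasurePreserving T volume volume :=
    (volume_measurePreserving_sumPiEquivProdPi_symm (fun _ : κ ⊕ ↥(Set.range J)ᶜ => ℝ)).trans
      (volume_measurePreserving_piCongrLeft (fun _ => ℝ) eq)
  have T1 : ∀ (z : (κ → ℝ) × (↥(Set.range J)ᶜ → ℝ)) (c : κ), T z (J c) = z.1 c := by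
    intro z c
    have h := Equiv.piCongrLeft_apply_apply (fun _ : ι => ℝ) eq
      ((Equiv.sumPiEquivProdPi (fun _ : κ ⊕ ↥(Set.range J)ᶜ => ℝ)).symm z) (Sum.inl c)
    exact h
  have T2 : ∀ (z : (κ → ℝ) × (↥(Set.range J)ᶜ → ℝ)) (e : ↥(Set.range J)ᶜ),
      T z e = z.2 e := by
    intro z e
    have h := Equiv.piCongrLeft_apply_apply (fun _ : ι => ℝ) eq
      ((Equiv.sumPiEquivProdPi (fun _ : κ ⊕ ↥(Set.range J)ᶜ => ℝ)).symm z) (Sum.inr e)
    exact h
  have hsum : ∀ (c : κ) (z : (κ → ℝ) × (↥(Set.range J)ᶜ → ℝ)), ∑ e, B c e * T z e =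
      ∑ c', B c (J c') * z.1 c' + ∑ e : ↥(Set.range J)ᶜ, B c e * z.2 e := by
    intro c z
    rw [← eq.sum_comp, Fintype.sum_sum_type]
    simp only [eql, eqr, T1, T2]
  set M : Matrix κ κ ℝ := Matrix.of fun c c' : κ => B c (J c') with hMdef
  have hM : M.det ≠ 0 := by
    intro h
    rw [h, abs_zero] at hdet
    linarith
  have hFmeas : Measurable (fun x : ι → ℝ =>
      ENNReal.ofReal ((∏ e : ↥(Set.range J)ᶜ, w e (x e)) *
      ∏ c, g (∑ e, B c e * x e + d c))) := by
    apply ENNReal.measurable_ofReal.comp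
    apply Measurable.mul
    · exact Finset.measurable_prod _ fun e _ => (hwm e).comp (measurable_pi_apply _)
    · refine Finset.measurable_prod _ fun c _ => hgc.measurable.comp ?_
      fun_prop
  have hFT := hFmeas.comp T.measurable
  rw [← hT.lintegral_comp_emb T.measurableEmbedding, Measure.volume_eq_prod]
  have hprod := lintegral_prod_symm' (μ := (volume : Measure (κ → ℝ)))
    (ν := (volume : Measure (↥(Set.range J)ᶜ → ℝ))) _ hFT
  simp only [Function.comp_def] at hprod
  rw [hprod]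
  -- inner integral
  have hinner : ∀ v : ↥(Set.range J)ᶜ → ℝ,
      ∫⁻ y : κ → ℝ, ENNReal.ofReal ((∏ e : ↥(Set.range J)ᶜ, w e (T (y, v) e)) *
        ∏ c, g (∑ e, B c e * T (y, v) e + d c)) ≤
      ENNReal.ofReal (∏ e : ↥(Set.range J)ᶜ, w e (v e)) := by
    intro v
    set q : κ → ℝ := fun c => ∑ e : ↥(Set.range J)ᶜ, B c e * v e + d c with hq
    have h1 : ∀ y : κ → ℝ, ENNReal.ofReal ((∏ e : ↥(Set.range J)ᶜ, w e (T (y, v) e)) *
        ∏ c, g (∑ e, B c e * T (y, v) e + d c)) =
        ENNReal.ofReal (∏ e : ↥(Set.range J)ᶜ, w e (v e)) *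
        (fun z : κ → ℝ => ENNReal.ofReal (∏ c, g (z c + q c))) (Matrix.toLin' M y) := by
      intro y
      rw [ENNReal.ofReal_mul (Finset.prod_nonneg fun e _ => hw0 _ _)]
      congr 1
      · congr 1
        exact Finset.prod_congr rfl fun e _ => by rw [T2]
      · show _ = ENNReal.ofReal (∏ c, g (Matrix.toLin' M y c + q c))
        congr 1
        refine Finset.prod_congr rfl fun c _ => ?_
        rw [hsum, hq, Matrix.toLin'_apply]
        simp only [hMdef, Matrix.mulVec, dotProduct, Matrix.of_apply]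
        rw [add_assoc]
    have hΦ : Measurable (fun z : κ → ℝ => ENNReal.ofReal (∏ c, g (z c + q c))) := by
      apply ENNReal.measurable_ofReal.comp
      refine Finset.measurable_prod _ fun c _ => hgc.measurable.comp ?_
      fun_prop
    have hLin : Measurable (Matrix.toLin' M) := by
      apply Continuous.measurable
      apply LinearMap.continuous_on_pi
    have hmap : ∫⁻ y : κ → ℝ, ENNReal.ofReal (∏ c, g (Matrix.toLin' M y c + q c)) =
        ENNReal.ofReal |M.det⁻¹| • ∫⁻ z : κ → ℝ, ENNReal.ofReal (∏ c, g (z c + q c)) := by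
      rw [← lintegral_map hΦ hLin,
        Real.map_matrix_volume_pi_eq_smul_volume_pi hM, lintegral_smul_measure]
    simp only [h1]
    rw [lintegral_const_mul' _ _ ENNReal.ofReal_ne_top, hmap]
    have h2 : ∫⁻ z : κ → ℝ, ENNReal.ofReal (∏ c, g (z c + q c)) = 1 := by
      rw [lint_prod (fun c t => g (t + q c)) (fun c => hgi.comp_add_right (q c))
        (fun c t => hg0 _)]
      have h3 : ∀ c, ∫ t, g (t + q c) = 1 := by
        intro c
        rw [integral_add_right_eq_self g (q c)]
        exact hg1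
      simp only [h3, Finset.prod_const_one, ENNReal.ofReal_one]
    rw [h2]
    have h4 : ENNReal.ofReal |M.det⁻¹| ≤ 1 := by
      rw [ENNReal.ofReal_le_one, abs_inv]
      exact inv_le_one_of_one_le₀ hdet
    calc ENNReal.ofReal (∏ e : ↥(Set.range J)ᶜ, w e (v e)) * (ENNReal.ofReal |M.det⁻¹| • 1)
        ≤ ENNReal.ofReal (∏ e : ↥(Set.range J)ᶜ, w e (v e)) * 1 := by
          apply mul_le_mul_right
          rw [smul_eq_mul, mul_one]
          exact h4
      _ = _ := mul_one _
  calc _ ≤ ∫⁻ v : ↥(Set.range J)ᶜ → ℝ, ENNReal.ofReal (∏ e : ↥(Set.range J)ᶜ, w e (v e)) :=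
        lintegral_mono hinner
    _ = _ := lint_prod (fun e : ↥(Set.range J)ᶜ => w e) (fun e => hw e) (fun e => hw0 e)

private theorem orthant_meas (ι : Type) [Fintype ι] :
    MeasurableSet {x : ι → ℝ | ∀ e, 0 < x e} := by
  have : {x : ι → ℝ | ∀ e, 0 < x e} = Set.pi Set.univ (fun _ => Set.Ioi (0:ℝ)) := by
    ext x
    simp
  rw [this]
  exact MeasurableSet.univ_pi fun _ => measurableSet_Ioi

private theorem AM_le_gen {ι κ : Type} [Fintype ι] [Fintype κ] [DecidableEq κ]
    (P : κ → Bool → ι → ℕ) (hcol : ∀ e, ∑ c, (P c false e + P c true e) = 2) (J : κ → ι)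
    (hJ : Function.Injective J) [Fintype ↥(Set.range J)ᶜ]
    (hdet : (Matrix.of fun c c' : κ => ((P c false (J c') : ℝ) - (P c true (J c') : ℝ))).det ≠ 0)
    (ε : ℝ) (hε : 0 < ε) (hε2 : ε ≤ 1 / 2) (ξ : κ → Bool → ℝ) (hξ : ∀ c b, 0 ≤ ξ c b)
    (w : ι → ℝ → ℝ) (hw : ∀ e, Integrable (w e))
    (hwm : ∀ e, Measurable (w e)) (hw0 : ∀ e t, 0 ≤ w e t)
    (hdom : ∀ x : ι → ℝ, (∀ e, 0 < x e) →
      (∏ c : κ, kern ε (∑ e, (P c false e : ℝ) * x e + ξ c false)
        (∑ e, (P c true e : ℝ) * x e + ξ c true)) ≠ 0 →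
      ∀ e : ↥(Set.range J)ᶜ, Real.exp (-(9 / 10 * x e)) ≤ w e (x e)) :
    AM P ε ξ ≤ 10 ^ (Fintype.card κ) * ∏ e : ↥(Set.range J)ᶜ, ∫ t, w e t := by
  classical
  have hbound0 : 0 ≤ 10 ^ (Fintype.card κ) * ∏ e : ↥(Set.range J)ᶜ, ∫ t, w e t := by
    apply mul_nonneg (by positivity)
    exact Finset.prod_nonneg fun e _ => integral_nonneg fun t => hw0 e t
  -- determinant
  have hdet1 : 1 ≤ |(Matrix.of fun c c' : κ =>
      ((P c false (J c') : ℝ) - (P c true (J c') : ℝ))).det| := by
    have h1 : (Matrix.of fun c c' : κ => ((P c false (J c') : ℝ) - (P c true (J c') : ℝ))) =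
        (Int.castRingHom ℝ).mapMatrix
          (Matrix.of fun c c' : κ => ((P c false (J c') : ℤ) - (P c true (J c') : ℤ))) := by
      ext c c'
      simp
    rw [h1, ← RingHom.map_det] at hdet ⊢
    rw [eq_intCast] at hdet ⊢
    rw [← Int.cast_abs]
    have h2 : (Matrix.of fun c c' : κ =>
        ((P c false (J c') : ℤ) - (P c true (J c') : ℤ))).det ≠ 0 := by
      intro h
      apply hdet
      rw [h]
      simp
    have h3 := Int.one_le_abs h2
    exact_mod_cast h3
  -- pointwise bound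
  have hpt : ∀ x : ι → ℝ, (∀ e, 0 < x e) →
      ∏ c : κ, kern ε (∑ e, (P c false e : ℝ) * x e + ξ c false)
        (∑ e, (P c true e : ℝ) * x e + ξ c true) ≤
      10 ^ (Fintype.card κ) * ((∏ e : ↥(Set.range J)ᶜ, w e (x e)) *
        ∏ c, corr ε (∑ e, ((P c false e : ℝ) - (P c true e : ℝ)) * x e +
          (ξ c false - ξ c true))) := by
    intro x hx
    by_cases h0 : ∏ c : κ, kern ε (∑ e, (P c false e : ℝ) * x e + ξ c false)
        (∑ e, (P c true e : ℝ) * x e + ξ c true) = 0
    · rw [h0]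
      apply mul_nonneg (by positivity)
      apply mul_nonneg
      · exact Finset.prod_nonneg fun e _ => hw0 _ _
      · exact Finset.prod_nonneg fun e _ => corr_nonneg ε hε _
    · have hp : ∀ c b, 0 ≤ ∑ e, (P c b e : ℝ) * x e + ξ c b := by
        intro c b
        apply add_nonneg _ (hξ c b)
        exact Finset.sum_nonneg fun e _ => mul_nonneg (Nat.cast_nonneg _) (hx e).le
      have h1 : ∏ c : κ, kern ε (∑ e, (P c false e : ℝ) * x e + ξ c false)
          (∑ e, (P c true e : ℝ) * x e + ξ c true) ≤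
          ∏ c : κ, (10 * Real.exp (-(9 / 20 * ((∑ e, (P c false e : ℝ) * x e + ξ c false) +
            (∑ e, (P c true e : ℝ) * x e + ξ c true)))) *
            corr ε ((∑ e, (P c false e : ℝ) * x e + ξ c false) -
              (∑ e, (P c true e : ℝ) * x e + ξ c true))) := by
        apply Finset.prod_le_prod
        · intro c _
          exact kern_nonneg ε hε _ _
        · intro c _
          exact kern_exp9 ε hε hε2 _ _ (hp c false) (hp c true)
      refine le_trans h1 ?_
      rw [Finset.prod_mul_distrib, Finset.prod_mul_distrib, Finset.prod_const, Finset.card_univ,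
        mul_assoc]
      apply mul_le_mul_of_nonneg_left _ (by positivity)
      have h2 : ∏ c : κ, corr ε ((∑ e, (P c false e : ℝ) * x e + ξ c false) -
              (∑ e, (P c true e : ℝ) * x e + ξ c true)) =
          ∏ c, corr ε (∑ e, ((P c false e : ℝ) - (P c true e : ℝ)) * x e +
          (ξ c false - ξ c true)) := by
        refine Finset.prod_congr rfl fun c _ => ?_
        congr 1
        simp only [sub_mul, Finset.sum_sub_distrib]
        ring
      rw [h2]
      apply mul_le_mul_of_nonneg_right _ (Finset.prod_nonneg fun c _ => corr_nonneg ε hε _)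
      rw [← Real.exp_sum]
      have h3 : ∏ e : ↥(Set.range J)ᶜ, Real.exp (-(9 / 10 * x e)) ≤
          ∏ e : ↥(Set.range J)ᶜ, w e (x e) := by
        apply Finset.prod_le_prod
        · intro e _
          exact (Real.exp_pos _).le
        · intro e _
          exact hdom x hx h0 e
      refine le_trans ?_ h3
      rw [← Real.exp_sum]
      apply Real.exp_le_exp.mpr
      rw [Finset.sum_neg_distrib, Finset.sum_neg_distrib, ← Finset.mul_sum, ← Finset.mul_sum]
      have h4 : ∑ e : ↥(Set.range J)ᶜ, x e ≤ ∑ e, x e := by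
        have h5 : ∑ e : ↥(Set.range J)ᶜ, x e = ∑ e ∈ (univ : Finset ↥(Set.range J)ᶜ).map
            (Function.Embedding.subtype _), x e := by
          rw [Finset.sum_map]
          rfl
        rw [h5]
        apply Finset.sum_le_sum_of_subset_of_nonneg (Finset.subset_univ _)
        intro e _ _
        exact (hx e).le
      have h6 : 2 * ∑ e, x e ≤ ∑ c : κ, ((∑ e, (P c false e : ℝ) * x e + ξ c false) +
            (∑ e, (P c true e : ℝ) * x e + ξ c true)) := by
        have h7 : ∑ c : κ, (∑ e, (P c false e : ℝ) * x e + ∑ e, (P c true e : ℝ) * x e) =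
            2 * ∑ e, x e := by
          have h8 : ∀ c : κ, (∑ e, (P c false e : ℝ) * x e + ∑ e, (P c true e : ℝ) * x e) =
              ∑ e, ((P c false e : ℝ) + (P c true e : ℝ)) * x e := by
            intro c
            rw [← Finset.sum_add_distrib]
            exact Finset.sum_congr rfl fun e _ => by ring
          simp only [h8]
          rw [Finset.sum_comm, Finset.mul_sum]
          refine Finset.sum_congr rfl fun e _ => ?_
          rw [← Finset.sum_mul]
          congr 1
          have := hcol e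
          exact_mod_cast this
        rw [← h7]
        apply Finset.sum_le_sum
        intro c _
        have := hξ c false
        have := hξ c true
        linarith
      linarith
  -- integral
  have hkc : Continuous (fun x : ι → ℝ =>
      ∏ c : κ, kern ε (∑ e, (P c false e : ℝ) * x e + ξ c false)
        (∑ e, (P c true e : ℝ) * x e + ξ c true)) := by
    apply continuous_finsetProd
    intro c _
    have h9 : Continuous (fun x : ι → ℝ => ((∑ e, (P c false e : ℝ) * x e + ξ c false),
        (∑ e, (P c true e : ℝ) * x e + ξ c true))) := by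
      fun_prop
    exact (kern_continuous ε hε).comp h9
  unfold AM
  rw [integral_eq_lintegral_of_nonneg_ae
    (Filter.Eventually.of_forall fun x => Finset.prod_nonneg fun c _ => kern_nonneg ε hε _ _)
    hkc.aestronglyMeasurable]
  apply ENNReal.toReal_le_of_le_ofReal hbound0
  calc ∫⁻ x in {x : ι → ℝ | ∀ e, 0 < x e}, ENNReal.ofReal (∏ c : κ,
        kern ε (∑ e, (P c false e : ℝ) * x e + ξ c false)
        (∑ e, (P c true e : ℝ) * x e + ξ c true))
      ≤ ∫⁻ x in {x : ι → ℝ | ∀ e, 0 < x e}, ENNReal.ofReal (10 ^ (Fintype.card κ)) *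
        ENNReal.ofReal ((∏ e : ↥(Set.range J)ᶜ, w e (x e)) *
        ∏ c, corr ε (∑ e, ((P c false e : ℝ) - (P c true e : ℝ)) * x e +
          (ξ c false - ξ c true))) := by
        apply setLIntegral_mono' (orthant_meas ι)
        intro x hx
        rw [← ENNReal.ofReal_mul (by positivity)]
        exact ENNReal.ofReal_le_ofReal (hpt x hx)
    _ ≤ ∫⁻ x : ι → ℝ, ENNReal.ofReal (10 ^ (Fintype.card κ)) *
        ENNReal.ofReal ((∏ e : ↥(Set.range J)ᶜ, w e (x e)) *
        ∏ c, corr ε (∑ e, ((P c false e : ℝ) - (P c true e : ℝ)) * x e +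
          (ξ c false - ξ c true))) := setLIntegral_le_lintegral _ _
    _ = ENNReal.ofReal (10 ^ (Fintype.card κ)) * ∫⁻ x : ι → ℝ,
        ENNReal.ofReal ((∏ e : ↥(Set.range J)ᶜ, w e (x e)) *
        ∏ c, corr ε (∑ e, ((P c false e : ℝ) - (P c true e : ℝ)) * x e +
          (ξ c false - ξ c true))) := by
        rw [lintegral_const_mul' _ _ ENNReal.ofReal_ne_top]
    _ ≤ ENNReal.ofReal (10 ^ (Fintype.card κ)) *
        ENNReal.ofReal (∏ e : ↥(Set.range J)ᶜ, ∫ t, w e t) := by
        apply mul_le_mul_right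
        exact minor_lint (fun c e => (P c false e : ℝ) - (P c true e : ℝ)) J hJ hdet1 (corr ε)
          (corr_continuous ε hε) (corr_integrable ε hε) (corr_nonneg ε hε) (corr_integral ε hε)
          (fun c => ξ c false - ξ c true) w hw hwm hw0
    _ = _ := by
        rw [← ENNReal.ofReal_mul (by positivity)]

private theorem exp_int : ∫ t in Set.Ioi (0:ℝ), Real.exp (-(9 / 10 * t)) = 10 / 9 := by
  have h := integral_exp_mul_Ioi (a := -(9 / 10 : ℝ)) (by norm_num) 0
  have h1 : (fun t : ℝ => Real.exp (-(9 / 10 * t))) = fun t => Real.exp (-(9 / 10) * t) := by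
    funext t
    congr 1
    ring
  rw [h1, h]
  norm_num

private theorem exp_int_on : IntegrableOn (fun t : ℝ => Real.exp (-(9 / 10 * t)))
    (Set.Ioi (0:ℝ)) := by
  have h := integrableOn_exp_mul_Ioi (a := -(9 / 10 : ℝ)) (by norm_num) 0
  have h1 : (fun t : ℝ => Real.exp (-(9 / 10 * t))) = fun t => Real.exp (-(9 / 10) * t) := by
    funext t
    congr 1
    ring
  rw [h1]
  exact h

theorem AM_le_of_minor {ι κ : Type} [Fintype ι] [Fintype κ] [DecidableEq κ]
    (P : κ → Bool → ι → ℕ) (hcol : ∀ e, ∑ c, (P c false e + P c true e) = 2) (J : κ → ι)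
    (hJ : Function.Injective J)
    (hdet : (Matrix.of fun c c' : κ => ((P c false (J c') : ℝ) - (P c true (J c') : ℝ))).det ≠ 0)
    (ε : ℝ) (hε : 0 < ε) (hε2 : ε ≤ 1 / 2) (ξ : κ → Bool → ℝ) (hξ : ∀ c b, 0 ≤ ξ c b) :
    AM P ε ξ ≤ 10 ^ (Fintype.card κ) * (10 / 9) ^ (Fintype.card ι) := by
  classical
  haveI : Fintype ↥(Set.range J)ᶜ := Fintype.ofFinite _
  refine le_trans (AM_le_gen P hcol J hJ hdet ε hε hε2 ξ hξ
    (fun _ => (Set.Ioi (0:ℝ)).indicator (fun t => Real.exp (-(9 / 10 * t)))) ?_ ?_ ?_ ?_) ?_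
  · intro e
    rw [integrable_indicator_iff measurableSet_Ioi]
    exact exp_int_on
  · intro e
    exact Measurable.indicator (by fun_prop) measurableSet_Ioi
  · intro e t
    exact Set.indicator_nonneg (fun t _ => (Real.exp_pos _).le) t
  · intro x hx _ e
    rw [Set.indicator_of_mem (show x e ∈ Set.Ioi (0:ℝ) from hx e)]
  · apply mul_le_mul_of_nonneg_left _ (by positivity)
    have h1 : ∫ t : ℝ, (Set.Ioi (0:ℝ)).indicator (fun t => Real.exp (-(9 / 10 * t))) t =
        10 / 9 := by
      rw [integral_indicator measurableSet_Ioi, exp_int]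
    simp only [h1, Finset.prod_const, Finset.card_univ]
    apply pow_le_pow_right₀ (by norm_num)
    exact Fintype.card_le_of_injective (fun e : ↥(Set.range J)ᶜ => (e : ι)) Subtype.val_injective

theorem AM_le_of_minor' {ι κ : Type} [Fintype ι] [Fintype κ] [DecidableEq κ]
    (P : κ → Bool → ι → ℕ) (hcol : ∀ e, ∑ c, (P c false e + P c true e) = 2) (J : κ → ι)
    (hJ : Function.Injective J)
    (hdet : (Matrix.of fun c c' : κ => ((P c false (J c') : ℝ) - (P c true (J c') : ℝ))).det ≠ 0)
    (ε : ℝ) (hε : 0 < ε) (hε2 : ε ≤ 1 / 2) (ξ : κ → Bool → ℝ) (hξ : ∀ c b, 0 ≤ ξ c b)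
    (e₀ : ι) (he : ∀ c, J c ≠ e₀) (η : ℝ) (hη : 0 ≤ η)
    (hsupp : ∀ x : ι → ℝ, (∀ e, 0 < x e) →
      (∏ c : κ, kern ε (∑ e, (P c false e : ℝ) * x e + ξ c false)
        (∑ e, (P c true e : ℝ) * x e + ξ c true)) ≠ 0 → x e₀ ≤ η) :
    AM P ε ξ ≤ 10 ^ (Fintype.card κ) * (10 / 9) ^ (Fintype.card ι) * η := by
  classical
  haveI : Fintype ↥(Set.range J)ᶜ := Fintype.ofFinite _
  refine le_trans (AM_le_gen P hcol J hJ hdet ε hε hε2 ξ hξ
    (fun e => if e = e₀ then (Set.Ioc (0:ℝ) η).indicator (fun _ => 1)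
      else (Set.Ioi (0:ℝ)).indicator (fun t => Real.exp (-(9 / 10 * t)))) ?_ ?_ ?_ ?_) ?_
  · intro e
    split_ifs
    · rw [integrable_indicator_iff measurableSet_Ioc]
      exact integrableOn_const measure_Ioc_lt_top.ne
    · rw [integrable_indicator_iff measurableSet_Ioi]
      exact exp_int_on
  · intro e
    split_ifs
    · exact Measurable.indicator (by fun_prop) measurableSet_Ioc
    · exact Measurable.indicator (by fun_prop) measurableSet_Ioi
  · intro e t
    split_ifs
    · exact Set.indicator_nonneg (fun t _ => zero_le_one) t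
    · exact Set.indicator_nonneg (fun t _ => (Real.exp_pos _).le) t
  · intro x hx h0 e
    by_cases h : (e : ι) = e₀
    · rw [if_pos h]
      have h1 : x e ∈ Set.Ioc (0:ℝ) η := ⟨hx e, by rw [h]; exact hsupp x hx h0⟩
      rw [Set.indicator_of_mem h1]
      rw [Real.exp_le_one_iff]
      have := hx e
      linarith
    · rw [if_neg h, Set.indicator_of_mem (show x e ∈ Set.Ioi (0:ℝ) from hx e)]
  · rw [mul_assoc]
    apply mul_le_mul_of_nonneg_left _ (by positivity)
    have h1 : ∫ t : ℝ, (Set.Ioi (0:ℝ)).indicator (fun t => Real.exp (-(9 / 10 * t))) t =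
        10 / 9 := by
      rw [integral_indicator measurableSet_Ioi, exp_int]
    have h2 : ∫ t : ℝ, (Set.Ioc (0:ℝ) η).indicator (fun _ => (1:ℝ)) t = η := by
      rw [integral_indicator measurableSet_Ioc]
      simp [hη]
    have h3 : ∀ e : ↥(Set.range J)ᶜ, ∫ t : ℝ, (if (e : ι) = e₀ then
        (Set.Ioc (0:ℝ) η).indicator (fun _ => 1)
        else (Set.Ioi (0:ℝ)).indicator (fun t => Real.exp (-(9 / 10 * t)))) t =
        (if e = ⟨e₀, by simpa using he⟩ then η else 1) *
          (if e = ⟨e₀, by simpa using he⟩ then 1 else 10 / 9) := by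
      intro e
      by_cases h : (e : ι) = e₀
      · have h' : e = ⟨e₀, by simpa using he⟩ := Subtype.ext h
        rw [if_pos h, if_pos h', if_pos h', h2, mul_one]
      · have h' : ¬ e = ⟨e₀, by simpa using he⟩ := fun h'' => h (by rw [h''])
        rw [if_neg h, if_neg h', if_neg h', h1, one_mul]
    simp only [h3]
    rw [Finset.prod_mul_distrib, Finset.prod_ite_eq', if_pos (Finset.mem_univ _), mul_comm]
    apply mul_le_mul_of_nonneg_right _ hη
    have h4 : ∏ e : ↥(Set.range J)ᶜ, (if e = ⟨e₀, by simpa using he⟩ then (1:ℝ) else 10 / 9) ≤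
        ∏ _e : ↥(Set.range J)ᶜ, (10 / 9 : ℝ) := by
      apply Finset.prod_le_prod
      · intro e _
        split_ifs <;> norm_num
      · intro e _
        split_ifs <;> norm_num
    refine le_trans h4 ?_
    rw [Finset.prod_const, Finset.card_univ]
    apply pow_le_pow_right₀ (by norm_num)
    exact Fintype.card_le_of_injective (fun e : ↥(Set.range J)ᶜ => (e : ι)) Subtype.val_injective

end Pool.Agent.Helper62.MVC2
end

/- Helper54.Stiemke -/
section
set_option autoImplicit false

/-!
Stiemke's alternative over `ℚ`, and its consequence for finitely generated commutative monoids: a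
finitely generated commutative monoid whose only idempotent is `1` is a group or has a nonzero
homomorphism to `(ℕ, +)`.
-/

namespace Pool.Agent.Helper54.EndCanc

theorem stiemke (k : ℕ) : ∀ (W : Type) [AddCommGroup W] [Module ℚ W] (v : Fin k → W),
    (∃ l : W →ₗ[ℚ] ℚ, (∀ i, 0 ≤ l (v i)) ∧ ∃ i, 0 < l (v i)) ∨
      ∃ n : Fin k → ℚ, (∀ i, 0 < n i) ∧ ∑ i, n i • v i = 0 := by
  induction k with
  | zero =>
    intro W _ _ v
    exact Or.inr ⟨fun _ => 1, fun i => i.elim0, by simp⟩
  | succ k ih =>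
    intro W _ _ v
    rcases ih W (fun i => v i.succ) with ⟨l, hl, j, hj⟩ | ⟨m, hm, hm'⟩
    · rcases ih (W ⧸ Submodule.span ℚ {v 0}) (fun i => Submodule.Quotient.mk (v i.succ)) with
        ⟨l', hl', j', hj'⟩ | ⟨n, hn, hn'⟩
      · left
        refine ⟨l'.comp (Submodule.span ℚ {v 0}).mkQ, fun i => ?_, j'.succ, hj'⟩
        refine Fin.cases ?_ (fun i => hl' i) i
        have : (Submodule.span ℚ {v 0}).mkQ (v 0) = 0 := by
          rw [Submodule.mkQ_apply, Submodule.Quotient.mk_eq_zero]
          exact Submodule.mem_span_singleton_self _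
        simp only [LinearMap.comp_apply, this, map_zero, le_refl]
      · have h1 : ∑ i, n i • v i.succ ∈ Submodule.span ℚ {v 0} := by
          rw [← Submodule.Quotient.mk_eq_zero, ← Submodule.mkQ_apply, map_sum]
          simpa using hn'
        obtain ⟨c, hc⟩ := Submodule.mem_span_singleton.1 h1
        rcases lt_trichotomy c 0 with hc0 | hc0 | hc0
        · right
          refine ⟨Fin.cons (-c) n, fun i => ?_, ?_⟩
          · refine Fin.cases ?_ (fun i => ?_) i
            · simpa using hc0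
            · simpa using hn i
          · rw [Fin.sum_univ_succ]
            simp [← hc]
        · exfalso
          have h2 : l (∑ i, n i • v i.succ) = 0 := by rw [← hc, hc0, zero_smul, map_zero]
          rw [map_sum] at h2
          have h3 : 0 < ∑ i, l (n i • v i.succ) := by
            refine Finset.sum_pos' (fun i _ => ?_) ⟨j, Finset.mem_univ _, ?_⟩
            · rw [map_smul, smul_eq_mul]; exact mul_nonneg (hn i).le (hl i)
            · rw [map_smul, smul_eq_mul]; exact mul_pos (hn j) hj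
          rw [h2] at h3
          exact lt_irrefl _ h3
        · left
          refine ⟨l, fun i => ?_, j.succ, hj⟩
          refine Fin.cases ?_ (fun i => hl i) i
          have h2 : c * l (v 0) = ∑ i, n i * l (v i.succ) := by
            have := congrArg l hc
            rw [map_smul, map_sum, smul_eq_mul] at this
            rw [this]
            exact Finset.sum_congr rfl fun i _ => by rw [map_smul, smul_eq_mul]
          have h3 : 0 ≤ c * l (v 0) := by
            rw [h2]
            exact Finset.sum_nonneg fun i _ => mul_nonneg (hn i).le (hl i)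
          exact nonneg_of_mul_nonneg_right h3 hc0
    · by_cases hv : v 0 ∈ Submodule.span ℚ (Set.range fun i : Fin k => v i.succ)
      · right
        obtain ⟨c, hc⟩ := (Submodule.mem_span_range_iff_exists_fun ℚ).1 hv
        obtain ⟨t, ht⟩ : ∃ t : ℚ, ∀ i, c i < t * m i := by
          refine ⟨1 + ∑ i, |c i| / m i, fun i => ?_⟩
          have h1 : |c i| / m i ≤ ∑ i, |c i| / m i :=
            Finset.single_le_sum (f := fun i => |c i| / m i)
              (fun i _ => div_nonneg (abs_nonneg _) (hm i).le) (Finset.mem_univ i)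
          have h2 : c i / m i < 1 + ∑ i, |c i| / m i := by
            have h3 : c i / m i ≤ |c i| / m i := by
              gcongr
              · exact (hm i).le
              · exact le_abs_self _
            linarith
          rwa [div_lt_iff₀ (hm i)] at h2
        refine ⟨Fin.cons 1 (fun i => t * m i - c i), fun i => ?_, ?_⟩
        · refine Fin.cases ?_ (fun i => ?_) i
          · simp
          · simpa using ht i
        · rw [Fin.sum_univ_succ]
          simp only [Fin.cons_zero, Fin.cons_succ, one_smul, sub_smul, Finset.sum_sub_distrib, hc]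
          have : ∑ i, (t * m i) • v i.succ = t • ∑ i, m i • v i.succ := by
            rw [Finset.smul_sum]
            exact Finset.sum_congr rfl fun i _ => by rw [mul_smul]
          rw [this, hm', smul_zero]
          abel
      · left
        obtain ⟨f, hf, hf'⟩ := Submodule.exists_le_ker_of_notMem hv
        have hfs : ∀ i : Fin k, f (v i.succ) = 0 := fun i =>
          hf' (Submodule.subset_span ⟨i, rfl⟩)
        refine ⟨(f (v 0)) • f, fun i => ?_, 0, ?_⟩
        · refine Fin.cases ?_ (fun i => ?_) i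
          · rw [LinearMap.smul_apply, smul_eq_mul]; exact mul_self_nonneg _
          · rw [LinearMap.smul_apply, hfs i, smul_zero]
        · rw [LinearMap.smul_apply, smul_eq_mul]
          exact mul_self_pos.2 hf

section monoid

variable {S : Type*} [CommMonoid S] {k : ℕ}

/-- Monomials in `a`. -/
def mono (a : Fin k → S) (u : Fin k → ℕ) : S := ∏ i, a i ^ u i

theorem mono_add (a : Fin k → S) (u v : Fin k → ℕ) : mono a (u + v) = mono a u * mono a v := by
  unfold mono
  rw [← Finset.prod_mul_distrib]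
  exact Finset.prod_congr rfl fun i _ => pow_add _ _ _

theorem mono_smul (a : Fin k → S) (n : ℕ) (u : Fin k → ℕ) : mono a (n • u) = mono a u ^ n := by
  unfold mono
  rw [← Finset.prod_pow]
  refine Finset.prod_congr rfl fun i _ => ?_
  rw [Pi.smul_apply, smul_eq_mul, mul_comm, pow_mul]

/-- The rational relation module. -/
def relMod (a : Fin k → S) : Submodule ℚ (Fin k → ℚ) where
  carrier := {w | ∃ N : ℕ, 0 < N ∧ ∃ u v : Fin k → ℕ, mono a u = mono a v ∧
    ∀ i, (N : ℚ) * w i = (u i : ℚ) - v i}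
  zero_mem' := ⟨1, one_pos, 0, 0, rfl, fun i => by simp⟩
  add_mem' := by
    rintro w1 w2 ⟨N1, hN1, u1, v1, h1, h1'⟩ ⟨N2, hN2, u2, v2, h2, h2'⟩
    refine ⟨N1 * N2, Nat.mul_pos hN1 hN2, N2 • u1 + N1 • u2, N2 • v1 + N1 • v2, ?_, fun i => ?_⟩
    · rw [mono_add, mono_add, mono_smul, mono_smul, mono_smul, mono_smul, h1, h2]
    · have e1 := h1' i
      have e2 := h2' i
      simp only [Pi.add_apply, Pi.smul_apply, smul_eq_mul]
      push_cast
      linear_combination (N2 : ℚ) * e1 + (N1 : ℚ) * e2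
  smul_mem' := by
    rintro q w ⟨N, hN, u, v, h, h'⟩
    rcases le_total 0 q.num with hq | hq
    · refine ⟨N * q.den, Nat.mul_pos hN q.den_pos, q.num.toNat • u, q.num.toNat • v, ?_, fun i => ?_⟩
      · rw [mono_smul, mono_smul, h]
      · have e1 := h' i
        have e2 : ((q.num.toNat : ℕ) : ℚ) = q * q.den := by
          have : ((q.num.toNat : ℕ) : ℤ) = q.num := Int.toNat_of_nonneg hq
          have h3 : ((q.num.toNat : ℕ) : ℚ) = (q.num : ℚ) := by exact_mod_cast this
          rw [h3, Rat.mul_den_eq_num]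
        simp only [Pi.smul_apply, smul_eq_mul]
        push_cast
        rw [e2]
        linear_combination (q * q.den) * e1
    · refine ⟨N * q.den, Nat.mul_pos hN q.den_pos, (-q.num).toNat • v, (-q.num).toNat • u, ?_,
        fun i => ?_⟩
      · rw [mono_smul, mono_smul, h]
      · have e1 := h' i
        have e2 : (((-q.num).toNat : ℕ) : ℚ) = -(q * q.den) := by
          have : (((-q.num).toNat : ℕ) : ℤ) = -q.num := Int.toNat_of_nonneg (by omega)
          have h3 : (((-q.num).toNat : ℕ) : ℚ) = ((-q.num : ℤ) : ℚ) := by exact_mod_cast this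
          rw [h3]
          push_cast
          rw [Rat.mul_den_eq_num]
        simp only [Pi.smul_apply, smul_eq_mul]
        push_cast
        rw [e2]
        linear_combination (q * q.den) * e1

theorem exists_hom [Monoid.FG S] (hid : ∀ e : S, e * e = e → e = 1) (hng : ∃ x : S, ¬ IsUnit x) :
    ∃ l : S → ℕ, (∀ x y, l (x * y) = l x + l y) ∧ ∃ x, 0 < l x := by
  classical
  obtain ⟨T, hT, hTfin⟩ := Monoid.fg_iff.1 (inferInstance : Monoid.FG S)
  have : Finite T := hTfin
  obtain ⟨k, ⟨e⟩⟩ := Finite.exists_equiv_fin T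
  let a : Fin k → S := fun i => (e.symm i : S)
  have hrange : Set.range a = T := by
    ext x
    constructor
    · rintro ⟨i, rfl⟩
      exact (e.symm i).2
    · intro hx
      exact ⟨e ⟨x, hx⟩, by simp [a]⟩
  have hsurj : ∀ x : S, ∃ u, mono a u = x := by
    intro x
    have hx : x ∈ Submonoid.closure (Set.range a) := by rw [hrange, hT]; trivial
    obtain ⟨u, hu⟩ := Submonoid.exists_of_mem_closure_range _ _ hx
    exact ⟨u, hu.symm⟩
  rcases stiemke k ((Fin k → ℚ) ⧸ relMod a)
    (fun i => Submodule.Quotient.mk (Pi.single i (1 : ℚ))) with ⟨l, hl, j, hj⟩ | ⟨n, hn, hn'⟩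
  · -- a nonzero homomorphism to `ℕ`
    let f : (Fin k → ℚ) →ₗ[ℚ] ℚ := l.comp (relMod a).mkQ
    have hf : ∀ w : Fin k → ℚ, f w = ∑ i, w i * f (Pi.single i 1) := by
      intro w
      conv_lhs => rw [pi_eq_sum_univ' w]
      rw [map_sum]
      refine Finset.sum_congr rfl fun i _ => ?_
      rw [map_smul, smul_eq_mul]
    have hf0 : ∀ u v : Fin k → ℕ, mono a u = mono a v →
        f (fun i => (u i : ℚ)) = f (fun i => (v i : ℚ)) := by
      intro u v huv
      rw [← sub_eq_zero, ← map_sub]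
      have : ((fun i => (u i : ℚ)) - fun i => (v i : ℚ)) ∈ relMod a :=
        ⟨1, one_pos, u, v, huv, fun i => by simp⟩
      change l ((relMod a).mkQ _) = 0
      rw [Submodule.mkQ_apply, (Submodule.Quotient.mk_eq_zero _).2 this, map_zero]
    let D : ℕ := ∏ i, (f (Pi.single i 1)).den
    have hD : 0 < D := Finset.prod_pos fun i _ => Rat.den_pos _
    have hμ : ∀ i, ∃ m : ℕ, (m : ℚ) = D * f (Pi.single i 1) := by
      intro i
      obtain ⟨d, hd⟩ : (f (Pi.single i 1)).den ∣ D := Finset.dvd_prod_of_mem _ (Finset.mem_univ i)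
      have h0 : 0 ≤ f (Pi.single i 1) := hl i
      refine ⟨d * (f (Pi.single i 1)).num.toNat, ?_⟩
      have h1 : (((f (Pi.single i 1)).num.toNat : ℕ) : ℚ) = ((f (Pi.single i 1)).num : ℚ) := by
        have : (((f (Pi.single i 1)).num.toNat : ℕ) : ℤ) = (f (Pi.single i 1)).num :=
          Int.toNat_of_nonneg (Rat.num_nonneg.2 h0)
        exact_mod_cast this
      push_cast
      rw [h1, hd, ← Rat.mul_den_eq_num]
      push_cast
      ring
    choose μ hμ' using hμ
    choose u hu using hsurj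
    have key : ∀ (x : S) (v : Fin k → ℕ), mono a v = x → ∑ i, u x i * μ i = ∑ i, v i * μ i := by
      intro x v hv
      have h1 := hf0 (u x) v (by rw [hu, hv])
      rw [hf, hf (fun i => (v i : ℚ))] at h1
      have h2 : ((∑ i, u x i * μ i : ℕ) : ℚ) = ((∑ i, v i * μ i : ℕ) : ℚ) := by
        push_cast
        simp only [hμ']
        have e1 : ∀ w : Fin k → ℕ, ∑ i, (w i : ℚ) * (D * f (Pi.single i 1)) =
            D * ∑ i, (w i : ℚ) * f (Pi.single i 1) := by
          intro w
          rw [Finset.mul_sum]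
          exact Finset.sum_congr rfl fun i _ => by ring
        rw [e1, e1, h1]
      exact_mod_cast h2
    refine ⟨fun x => ∑ i, u x i * μ i, fun x y => ?_, a j, ?_⟩
    · simp only
      rw [key (x * y) (u x + u y) (by rw [mono_add, hu, hu]), ← Finset.sum_add_distrib]
      exact Finset.sum_congr rfl fun i _ => by rw [Pi.add_apply, add_mul]
    · simp only
      rw [key (a j) (Pi.single j 1) (by
        unfold mono
        rw [Finset.prod_eq_single j]
        · simp
        · intro i _ hi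
          simp [hi]
        · simp)]
      have h1 : 0 < μ j := by
        have : (0 : ℚ) < μ j := by
          rw [hμ']
          exact mul_pos (by exact_mod_cast hD) hj
        exact_mod_cast this
      have h2 : (Pi.single j 1 : Fin k → ℕ) j * μ j ≤ ∑ i, (Pi.single j 1 : Fin k → ℕ) i * μ i :=
        Finset.single_le_sum (f := fun i => (Pi.single j 1 : Fin k → ℕ) i * μ i)
          (fun _ _ => Nat.zero_le _) (Finset.mem_univ j)
      simp only [Pi.single_eq_same, one_mul] at h2
      omega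
  · -- otherwise all elements are units
    exfalso
    have h1 : n ∈ relMod a := by
      rw [← Submodule.Quotient.mk_eq_zero, ← hn', ← Submodule.mkQ_apply]
      conv_lhs => rw [pi_eq_sum_univ' n]
      rw [map_sum]
      refine Finset.sum_congr rfl fun i _ => ?_
      rw [map_smul]
      rfl
    obtain ⟨N, hN, u, v, huv, hi⟩ := h1
    have hlt : ∀ i, v i < u i := by
      intro i
      have h2 : (0 : ℚ) < (u i : ℚ) - v i := by
        rw [← hi i]
        exact mul_pos (by exact_mod_cast hN) (hn i)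
      have h3 : (v i : ℚ) < u i := by linarith
      exact_mod_cast h3
    let m : Fin k → ℕ := fun i => u i - v i
    have hm : u = v + m := by
      funext i
      have := hlt i
      simp only [m, Pi.add_apply]
      omega
    have hm1 : ∀ i, 1 ≤ m i := by
      intro i
      have := hlt i
      simp only [m]
      omega
    have hw : mono a v * mono a m = mono a v := by rw [← mono_add, ← hm, huv]
    let M : ℕ := 1 + ∑ i, v i
    have hM : ∀ i, v i ≤ M * m i := by
      intro i
      have h2 : v i ≤ ∑ i, v i := Finset.single_le_sum (fun _ _ => Nat.zero_le _) (Finset.mem_univ i)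
      calc v i ≤ M := by simp only [M]; omega
        _ = M * 1 := (mul_one _).symm
        _ ≤ M * m i := Nat.mul_le_mul_left _ (hm1 i)
    have hfac : mono a m ^ M = mono a v * mono a (M • m - v) := by
      rw [← mono_smul, ← mono_add]
      congr 1
      funext i
      have := hM i
      simp only [Pi.add_apply, Pi.sub_apply, Pi.smul_apply, smul_eq_mul]
      omega
    have hstep : mono a m ^ M * mono a m = mono a m ^ M := by
      rw [hfac, mul_right_comm, hw]
    have hpow : ∀ r, mono a m ^ M * mono a m ^ r = mono a m ^ M := by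
      intro r
      induction r with
      | zero => simp
      | succ r ih => rw [pow_succ, ← mul_assoc, ih, hstep]
    have hone : mono a m ^ M = 1 := hid _ (hpow M)
    have hunit : IsUnit (mono a m) := by
      have : IsUnit (mono a m ^ M) := by rw [hone]; exact isUnit_one
      exact (isUnit_pow_iff (by simp only [M]; omega)).1 this
    obtain ⟨x, hx⟩ := hng
    apply hx
    obtain ⟨w, hw'⟩ := hsurj x
    rw [← hw']
    have hai : ∀ i, IsUnit (a i) := by
      intro i
      refine isUnit_of_dvd_unit ?_ hunit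
      have h2 : a i ∣ a i ^ m i := dvd_pow_self _ (by have := hm1 i; omega)
      exact h2.trans (Finset.dvd_prod_of_mem (fun i => a i ^ m i) (Finset.mem_univ i))
    unfold mono
    exact (Submonoid.prod_mem (IsUnit.submonoid S) fun i _ => (hai i).pow _)

end monoid

end Pool.Agent.Helper54.EndCanc
end

/- Helper62.MVC2.Stiemke -/
section
/-!
MV-C2-5. Stiemke's lemma (integral solution or real separating form).

Proof. If the open orthant `O = {x | ∀ e, 0 < x e}` of `ι → ℝ` meets `N = {x | ∀ c, ∑ e, B c e x e = 0}`: let `x` be in both. The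
`ℚ`-span of the reals `x e` has a finite basis `w_1, ..., w_m` (`ℚ`-linearly independent reals), `x e = ∑_j q e j w_j` with
`q e j : ℚ`; `∑_e B c e x e = 0` and linear independence give `∑_e B c e q e j = 0` for all `c, j`. So for all rational
`r_1..r_m` the vector `y e = ∑_j q e j r_j` is in the rational kernel; if `r_j` is close enough to `w_j`, `y e > 0` for all `e`
(density of `ℚ`, continuity of `r ↦ ∑_j q e j r_j`, finitely many `e`). Multiply by a common denominator.
(Another proof: Gaussian elimination/`Matrix` over `ℚ`; any proof is fine.)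
Otherwise `O` (open, convex; nonempty: it contains the constant 1) and the subspace `N` (convex) are disjoint:
`geometric_hahn_banach_open` gives a continuous linear `f` and `s` with `f a < s` on `O` and `s ≤ f b` on `N`. `f = 0` on `N`
(subspace, bounded below), so `s ≤ 0`, and `f < 0` on `O`, so `f (Pi.single e 1) ≤ 0` for each `e` (limit of points of `O`), and
not all of them are zero (as `f ≠ 0`: `f 1 < 0`). A linear form vanishing on the kernel `N` of `x ↦ (∑ e, B c e x e)_c`
is `∑_c lam_c ∑_e B c e x e` (`LinearMap.range_dualMap_eq_dualAnnihilator_ker`, or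
`mem_span_of_iInf_ker_le_ker`). Take `-f`.
-/

namespace Pool.Agent.Helper62.MVC2

open Finset

/-- clearing denominators of a positive rational vector -/
private theorem clear_den {ι : Type} [Fintype ι] (n : ι → ℚ) (hn : ∀ i, 0 < n i) :
    ∃ (D : ℕ) (u : ι → ℕ), 0 < D ∧ (∀ i, 0 < u i) ∧ ∀ i, (u i : ℚ) = D * n i := by
  classical
  have hD : 0 < ∏ i, (n i).den := Finset.prod_pos fun i _ => Rat.den_pos _
  have hu : ∀ i, ∃ m : ℕ, (m : ℚ) = ((∏ i, (n i).den : ℕ) : ℚ) * n i := by
    intro i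
    obtain ⟨d, hd⟩ : (n i).den ∣ ∏ i, (n i).den :=
      Finset.dvd_prod_of_mem (fun i => (n i).den) (Finset.mem_univ i)
    refine ⟨d * (n i).num.toNat, ?_⟩
    have h1 : (((n i).num.toNat : ℕ) : ℚ) = ((n i).num : ℚ) := by
      have : (((n i).num.toNat : ℕ) : ℤ) = (n i).num :=
        Int.toNat_of_nonneg (Rat.num_nonneg.2 (hn i).le)
      exact_mod_cast this
    rw [hd]
    push_cast
    rw [h1]
    have h2 : (n i) * ((n i).den : ℚ) = ((n i).num : ℚ) := Rat.mul_den_eq_num _
    rw [← h2]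
    ring
  choose u hu using hu
  refine ⟨_, u, hD, fun i => ?_, hu⟩
  have h1 : (0 : ℚ) < u i := by
    rw [hu i]
    exact mul_pos (by exact_mod_cast hD) (hn i)
  exact_mod_cast h1

theorem stiemke {ι κ : Type} [Fintype ι] [Fintype κ] (B : κ → ι → ℤ) :
    (∃ u : ι → ℕ, (∀ e, 0 < u e) ∧ ∀ c, ∑ e, B c e * (u e : ℤ) = 0) ∨
    ∃ lam : κ → ℝ, (∀ e, 0 ≤ ∑ c, lam c * (B c e : ℝ)) ∧ ∃ e, 0 < ∑ c, lam c * (B c e : ℝ) := by
  classical
  let eqv := Fintype.equivFin ι
  rcases Pool.Agent.Helper54.EndCanc.stiemke (Fintype.card ι) (κ → ℚ)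
    (fun i c => (B c (eqv.symm i) : ℚ)) with ⟨l, hl, j, hj⟩ | ⟨n, hn, hn'⟩
  · right
    have hf : ∀ w : κ → ℚ, l w = ∑ c, l (Pi.single c 1) * w c := by
      intro w
      conv_lhs => rw [pi_eq_sum_univ' w]
      rw [map_sum]
      refine Finset.sum_congr rfl fun i _ => ?_
      rw [map_smul, smul_eq_mul, mul_comm]
    have hval : ∀ e, ∑ c, ((l (Pi.single c 1) : ℚ) : ℝ) * (B c e : ℝ) =
        ((l (fun c => (B c e : ℚ)) : ℚ) : ℝ) := by
      intro e
      rw [hf (fun c => (B c e : ℚ))]
      push_cast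
      rfl
    refine ⟨fun c => ((l (Pi.single c 1) : ℚ) : ℝ), fun e => ?_, eqv.symm j, ?_⟩
    · rw [hval]
      have h1 := hl (eqv e)
      rw [Equiv.symm_apply_apply] at h1
      exact_mod_cast h1
    · rw [hval]
      exact_mod_cast hj
  · left
    obtain ⟨D, u, hD, hu, hun⟩ := clear_den (fun e : ι => n (eqv e)) (fun e => hn _)
    refine ⟨u, hu, fun c => ?_⟩
    have h1 := congrFun hn' c
    rw [Finset.sum_apply] at h1
    have h2 : ∑ e : ι, n (eqv e) * (B c e : ℚ) = 0 := by
      refine Eq.trans ?_ h1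
      refine (Fintype.sum_equiv eqv _ _ fun e => ?_)
      change n (eqv e) * (B c e : ℚ) = n (eqv e) • (B c (eqv.symm (eqv e)) : ℚ)
      rw [Equiv.symm_apply_apply, smul_eq_mul]
    have h3 : (∑ e : ι, (B c e : ℚ) * (u e : ℚ)) = 0 := by
      have h4 : (∑ e : ι, (B c e : ℚ) * (u e : ℚ)) = D * ∑ e : ι, n (eqv e) * (B c e : ℚ) := by
        rw [Finset.mul_sum]
        refine Finset.sum_congr rfl fun e _ => ?_
        rw [hun e]
        ring
      rw [h4, h2, mul_zero]
    exact_mod_cast h3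

end Pool.Agent.Helper62.MVC2
end

/- Helper62.MVC2.Bad -/
section
/-!
MV-C2-7. Crude bound of all connected configurations; bad configurations without leaf (and not AA) have small regularised volume;
good configurations have no leaf.

Notation: `H` half-edges, for `lam : R.Cyl → ℝ` define `μ_lam : H → ℝ` by `μ(h) = lam c` if `R.face h = R.cface c false`, `μ(h) = - lam c` if
`R.face h = R.cface c true` (`cface_bij`: each face is `cface c b` for exactly one `(c, b)`). Then `μ` depends on the face only, and is odd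
under `R.β` (`R.β` exchanges `cface c false`, `cface c true`). For an edge `e` of a half-edge `h`:
`∑_c lam c (P c false e - P c true e) = ∑_{h' : edge h' = e} μ(h') = μ(h) + μ(τ h)` (`R.P` counts the half-edges of `e` in a face; the half-edges
of the edge of `h` are `h, τ h`, distinct).
* `edge_inj`: so if `∑_c lam c (P c false e - P c true e) = 0` for all edges `e ≠ e₀`, `e₀ = R.edge x`, then `hdel` gives `μ = 0`, so `lam = 0`.
* `edge_inj_all`: if it is `0` for all edges, then `μ(τ h) = - μ(h)` for all `h`, and `μ(σ h) = μ(τ h)` (`face_tau`: `face (τ h) = face (σ h)`),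
  so `μ` alternates along the `σ`-cycles, which are odd: `μ = 0`.
* `A_le_crude`: `exists_minor` (with `s = univ`, `edge_inj_all`) and `AM_le_of_minor` (`P_col`); `R.crude` is the bound.
* `bad_small`: let `B c e = P c false e - P c true e` (integers). `R` is not good, so by `sum_P_nat` (and `cface_bij`) there is no
  `u : Edge → ℕ`, `u > 0`, with `∑_e B c e u e = 0` for all `c`; by `stiemke` there is `lam` with `a_e := ∑_c lam_c B c e ≥ 0`, `a_{e₀} > 0` for some
  `e₀`. For `x > 0` with nonzero integrand: `|∑_e B c e x_e + ξ_{c0} - ξ_{c1}| < 2 ε` (`kern_zero`), so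
  `a_{e₀} x_{e₀} ≤ ∑_e a_e x_e = ∑_c lam_c (B x)_c ≤ (∑_c |lam_c|) (2 + C) ε`, that is `x_{e₀} ≤ C' ε`. By `edge_inj` and `exists_minor` with
  `s = {e ≠ e₀}` there is a minor avoiding `e₀`; `AM_le_of_minor'` with `η = C' ε` gives `R.A ε ξ ≤ const · C' ε ≤ δ` for small `ε`.
* `good_no_leaf`: for a leaf `(x, μ)` and `u` as in `Good`: `∑_h μ(h) u(edge h)`, summed over faces, is `∑_f μ_f per_f(u) = 0` (`β` exchanges `f`
  and `β f`, `per u f = per u (β f)`, `μ` odd), and summed over edges is `u(edge x) (μ(x) + μ(τ x)) = u(edge x) > 0`. (For the second sum use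
  the involution `τ`: `2 ∑_h μ(h) u(edge h) = ∑_h (μ(h) + μ(τ h)) u(edge h)`, only `h = x, τ x` contribute.)
-/

namespace Pool.Agent.Helper62.MVC2

open Finset MeasureTheory Filter Topology Pool.Agent.Helper60.MV

private theorem bcyc_apply {A : Type} {g : Equiv.Perm A} (x : A) : cyc g (g x) = cyc g x := by
  unfold cyc
  refine Quotient.sound ?_
  change Equiv.Perm.SameCycle g (g x) x
  exact ⟨-1, by simp⟩

private theorem bcyc_surj {A : Type} {g : Equiv.Perm A} (c : Cyc g) : ∃ x, cyc g x = c :=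
  ⟨c.rep, Quotient.out_eq c⟩

private theorem bedge_eq {H : Type} {σ : Equiv.Perm H} (R : Conf σ) {h x : H}
    (he : R.edge h = R.edge x) : h = x ∨ h = R.τ x := by
  have h1 : R.τ.SameCycle x h := Quotient.exact he.symm
  obtain ⟨i, hi⟩ := h1
  have h2 : R.τ ^ (2 : ℤ) = 1 := by
    ext z
    rw [zpow_two, Equiv.Perm.mul_apply, R.hτ.invol, Equiv.Perm.one_apply]
  rcases Int.even_or_odd' i with ⟨k, hk | hk⟩
  · left
    rw [← hi, hk, zpow_mul, h2, one_zpow, Equiv.Perm.one_apply]
  · right
    rw [← hi, hk, zpow_add, zpow_mul, h2, one_zpow, one_mul, zpow_one]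

private theorem bedge_tau {H : Type} {σ : Equiv.Perm H} (R : Conf σ) (h : H) :
    R.edge (R.τ h) = R.edge h := bcyc_apply h

private theorem bbeta_true {H : Type} {σ : Equiv.Perm H} (R : Conf σ) (c : R.Cyl) :
    R.β (R.cface c true) = R.cface c false := R.hβ.invol _

private theorem bbeta_false {H : Type} {σ : Equiv.Perm H} (R : Conf σ) (c : R.Cyl) :
    R.β (R.cface c false) = R.cface c true := rfl

/-- the face function of `lam` -/
private noncomputable def mF {H : Type} [Fintype H] {σ : Equiv.Perm H} (R : Conf σ)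
    (lam : R.Cyl → ℝ) (f : R.Face) : ℝ :=
  ∑ c, lam c * ((if f = R.cface c false then (1 : ℝ) else 0) -
    (if f = R.cface c true then (1 : ℝ) else 0))

private theorem cface_inj {H : Type} [Fintype H] {σ : Equiv.Perm H} (R : Conf σ)
    (c c' : R.Cyl) (b b' : Bool) : R.cface c b = R.cface c' b' ↔ c = c' ∧ b = b' := by
  constructor
  · intro h
    have h1 := (cface_bij R).1 (a₁ := (c, b)) (a₂ := (c', b')) h
    simpa using h1
  · rintro ⟨rfl, rfl⟩
    rfl

private theorem mF_false {H : Type} [Fintype H] {σ : Equiv.Perm H} (R : Conf σ)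
    (lam : R.Cyl → ℝ) (c : R.Cyl) : mF R lam (R.cface c false) = lam c := by
  unfold mF
  rw [Finset.sum_eq_single c]
  · simp [cface_inj]
  · intro c' _ hc
    simp [cface_inj, Ne.symm hc]
  · intro h
    exact absurd (Finset.mem_univ c) h

private theorem mF_true {H : Type} [Fintype H] {σ : Equiv.Perm H} (R : Conf σ)
    (lam : R.Cyl → ℝ) (c : R.Cyl) : mF R lam (R.cface c true) = - lam c := by
  unfold mF
  rw [Finset.sum_eq_single c]
  · simp [cface_inj]
  · intro c' _ hc
    simp [cface_inj, Ne.symm hc]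
  · intro h
    exact absurd (Finset.mem_univ c) h

private theorem mF_beta {H : Type} [Fintype H] {σ : Equiv.Perm H} (R : Conf σ)
    (lam : R.Cyl → ℝ) (f : R.Face) : mF R lam (R.β f) = - mF R lam f := by
  obtain ⟨⟨c, b⟩, hq⟩ := (cface_bij R).2 f
  simp only at hq
  subst hq
  cases b
  · rw [bbeta_false, mF_true, mF_false]
  · rw [bbeta_true, mF_true, mF_false, neg_neg]

private theorem sum_edge {H : Type} [Fintype H] {σ : Equiv.Perm H} (R : Conf σ) (x : H)
    (F : H → ℝ) : (∑ h : H, if R.edge h = R.edge x then F h else 0) = F x + F (R.τ x) := by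
  classical
  have h5 : (univ.filter (fun h : H => R.edge h = R.edge x)) = {x, R.τ x} := by
    ext h
    simp only [mem_filter, mem_univ, true_and, mem_insert, mem_singleton]
    constructor
    · intro hh
      exact bedge_eq R hh
    · rintro (hh | hh)
      · rw [hh]
      · rw [hh]
        exact bedge_tau R x
  rw [← Finset.sum_filter, h5, Finset.sum_pair (Ne.symm (R.hτ.fpf x))]

private theorem sum_lam {H : Type} [Fintype H] {σ : Equiv.Perm H} (R : Conf σ)
    (lam : R.Cyl → ℝ) (e : R.Edge) :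
    ∑ c, lam c * ((R.P c false e : ℝ) - (R.P c true e : ℝ)) =
      ∑ h : H, if R.edge h = e then mF R lam (R.face h) else 0 := by
  classical
  have h1 : ∀ c b, (R.P c b e : ℝ) =
      ∑ h : H, if R.edge h = e then (if R.face h = R.cface c b then (1 : ℝ) else 0) else 0 := by
    intro c b
    have h2 : R.P c b e =
        (univ.filter (fun h : H => R.face h = R.cface c b ∧ R.edge h = e)).card := by
      unfold Conf.P
      congr
    rw [h2, Finset.card_filter, Nat.cast_sum]
    refine Finset.sum_congr rfl fun h _ => ?_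
    by_cases h3 : R.face h = R.cface c b <;> by_cases h4 : R.edge h = e <;> simp [h3, h4]
  have h3 : ∀ c, lam c * ((R.P c false e : ℝ) - (R.P c true e : ℝ)) =
      ∑ h : H, if R.edge h = e then lam c * ((if R.face h = R.cface c false then (1 : ℝ) else 0) -
        (if R.face h = R.cface c true then (1 : ℝ) else 0)) else 0 := by
    intro c
    rw [h1 c false, h1 c true, ← Finset.sum_sub_distrib, Finset.mul_sum]
    refine Finset.sum_congr rfl fun h _ => ?_
    by_cases h4 : R.edge h = e <;> simp [h4]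
  rw [Finset.sum_congr rfl fun c _ => h3 c, Finset.sum_comm]
  refine Finset.sum_congr rfl fun h _ => ?_
  by_cases h4 : R.edge h = e
  · simp only [h4, if_true]
    rfl
  · simp only [h4, if_false, Finset.sum_const_zero]

private theorem sum_lam' {H : Type} [Fintype H] {σ : Equiv.Perm H} (R : Conf σ)
    (lam : R.Cyl → ℝ) (x : H) :
    ∑ c, lam c * ((R.P c false (R.edge x) : ℝ) - (R.P c true (R.edge x) : ℝ)) =
      mF R lam (R.face x) + mF R lam (R.face (R.τ x)) := by
  rw [sum_lam]
  exact sum_edge R x (fun h => mF R lam (R.face h))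

private theorem lam_zero {H : Type} [Fintype H] {σ : Equiv.Perm H} (R : Conf σ)
    (lam : R.Cyl → ℝ) (h : ∀ h, mF R lam (R.face h) = 0) : lam = 0 := by
  funext c
  obtain ⟨x, hx⟩ : ∃ x, R.face x = R.cface c false := bcyc_surj _
  have h1 := h x
  rw [hx, mF_false] at h1
  exact h1

theorem edge_inj_all {H : Type} [Fintype H] {σ : Equiv.Perm H} (hσ : AllOdd σ) (R : Conf σ)
    (lam : R.Cyl → ℝ)
    (h : ∀ e, ∑ c, lam c * ((R.P c false e : ℝ) - (R.P c true e : ℝ)) = 0) : lam = 0 := by
  refine lam_zero R lam (fun x => ?_)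
  have h1 : ∀ y, mF R lam (R.face (σ y)) = - mF R lam (R.face y) := by
    intro y
    have h2 := h (R.edge y)
    rw [sum_lam', face_tau] at h2
    linarith
  have h2 : ∀ n : ℕ, ∀ y, mF R lam (R.face ((σ^[n]) y)) = (-1) ^ n * mF R lam (R.face y) := by
    intro n
    induction n with
    | zero =>
      intro y
      simp
    | succ n ih =>
      intro y
      rw [Function.iterate_succ_apply', h1, ih, pow_succ]
      ring
  have h3 := h2 (Function.minimalPeriod σ x) x
  rw [Function.iterate_minimalPeriod, (hσ x).neg_one_pow] at h3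
  linarith

theorem edge_inj {H : Type} [Fintype H] {σ : Equiv.Perm H} (R : Conf σ) (x : H)
    (hdel : ∀ μ : H → ℝ, (∀ h h', R.face h = R.face h' → μ h = μ h') →
      (∀ h h', R.β (R.face h) = R.face h' → μ h' = - μ h) →
      (∀ h, h ≠ x → h ≠ R.τ x → μ (R.τ h) = - μ h) → ∀ h, μ h = 0)
    (lam : R.Cyl → ℝ)
    (h : ∀ e, e ≠ R.edge x → ∑ c, lam c * ((R.P c false e : ℝ) - (R.P c true e : ℝ)) = 0) :
    lam = 0 := by
  refine lam_zero R lam (hdel (fun y => mF R lam (R.face y)) ?_ ?_ ?_)
  · intro y y' hy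
    simp only [hy]
  · intro y y' hy
    simp only [← hy]
    exact mF_beta R lam _
  · intro y hy1 hy2
    have h1 : R.edge y ≠ R.edge x := by
      intro hh
      rcases bedge_eq R hh with h2 | h2
      · exact hy1 h2
      · exact hy2 h2
    have h2 := h (R.edge y) h1
    rw [sum_lam'] at h2
    linarith

theorem A_le_crude {H : Type} [Fintype H] {σ : Equiv.Perm H} (hσ : AllOdd σ) (R : Conf σ)
    (ε : ℝ) (hε : 0 < ε) (hε2 : ε ≤ 1 / 2) (ξ : R.Face → ℝ) (hξ : ∀ f, 0 ≤ ξ f) :
    R.A ε ξ ≤ R.crude := by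
  obtain ⟨J, hJ, -, hdet⟩ := exists_minor
    (fun (c : R.Cyl) (e : R.Edge) => (R.P c false e : ℝ) - (R.P c true e : ℝ)) Set.univ
    (fun lam h => edge_inj_all hσ R lam (fun e => h e (Set.mem_univ e)))
  exact AM_le_of_minor R.P (P_col R) J hJ hdet ε hε hε2 (fun c b => ξ (R.cface c b))
    (fun c b => hξ _)

theorem bad_small {H : Type} [Fintype H] {σ : Equiv.Perm H} (R : Conf σ) (hg : ¬ R.Good)
    (hdel : ∀ (x : H) (μ : H → ℝ), (∀ h h', R.face h = R.face h' → μ h = μ h') →
      (∀ h h', R.β (R.face h) = R.face h' → μ h' = - μ h) →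
      (∀ h, h ≠ x → h ≠ R.τ x → μ (R.τ h) = - μ h) → ∀ h, μ h = 0)
    (C : ℝ) (hC : 0 ≤ C) (δ : ℝ) (hδ : 0 < δ) :
    ∀ᶠ ε in 𝓝[>] (0:ℝ), ∀ ξ : R.Face → ℝ, (∀ f, 0 ≤ ξ f ∧ ξ f ≤ C * ε) → R.A ε ξ ≤ δ := by
  rcases stiemke (fun (c : R.Cyl) (e : R.Edge) => (R.P c false e : ℤ) - (R.P c true e : ℤ)) with
    ⟨u, hu, hu2⟩ | ⟨lam, hlam, e₀, he₀⟩
  · exfalso
    apply hg
    have h1 : ∀ c, R.per u (R.cface c false) = R.per u (R.cface c true) := by
      intro c
      rw [← sum_P_nat, ← sum_P_nat]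
      have h2 := hu2 c
      have h3 : ∑ e, ((R.P c false e : ℤ) - (R.P c true e : ℤ)) * (u e : ℤ) =
          ((∑ e, R.P c false e * u e : ℕ) : ℤ) - ((∑ e, R.P c true e * u e : ℕ) : ℤ) := by
        push_cast
        rw [← Finset.sum_sub_distrib]
        exact Finset.sum_congr rfl fun e _ => by ring
      rw [h3] at h2
      have h4 : ((∑ e, R.P c false e * u e : ℕ) : ℤ) = ((∑ e, R.P c true e * u e : ℕ) : ℤ) := by
        linarith
      exact_mod_cast h4
    refine ⟨u, hu, fun f => ?_⟩
    obtain ⟨⟨c, b⟩, hq⟩ := (cface_bij R).2 f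
    simp only at hq
    subst hq
    cases b
    · rw [bbeta_false]
      exact h1 c
    · rw [bbeta_true]
      exact (h1 c).symm
  · obtain ⟨x, hx⟩ : ∃ x, R.edge x = e₀ := bcyc_surj e₀
    obtain ⟨J, hJ, hJs, hdet⟩ := exists_minor
      (fun (c : R.Cyl) (e : R.Edge) => (R.P c false e : ℝ) - (R.P c true e : ℝ)) {e | e ≠ e₀}
      (fun lam h => edge_inj R x (hdel x) lam (fun e he => h e (by rw [hx] at he; exact he)))
    push_cast at hlam he₀
    set a : R.Edge → ℝ := fun e => ∑ c, lam c * ((R.P c false e : ℝ) - (R.P c true e : ℝ)) with ha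
    have ha0 : 0 < a e₀ := he₀
    have haN : ∀ e, 0 ≤ a e := hlam
    set L : ℝ := ∑ c, |lam c| with hL
    have hL0 : 0 ≤ L := Finset.sum_nonneg (fun c _ => abs_nonneg _)
    set D : ℝ := L * (2 + C) / a e₀ with hD
    have hD0 : 0 ≤ D := by positivity
    set K : ℝ := 10 ^ (Fintype.card R.Cyl) * (10 / 9) ^ (Fintype.card R.Edge) with hK
    have hK0 : 0 < K := by positivity
    have hlim : Tendsto (fun ε : ℝ => K * (D * ε)) (𝓝[>] (0:ℝ)) (𝓝 0) := by
      have h1 : Tendsto (fun ε : ℝ => K * (D * ε)) (𝓝 (0:ℝ)) (𝓝 (K * (D * 0))) := by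
        exact (continuous_const.mul (continuous_const.mul continuous_id)).tendsto 0
      rw [mul_zero, mul_zero] at h1
      exact h1.mono_left nhdsWithin_le_nhds
    have h2 : ∀ᶠ ε in 𝓝[>] (0:ℝ), K * (D * ε) ≤ δ :=
      hlim.eventually_le_const hδ
    have h3 : ∀ᶠ ε : ℝ in 𝓝[>] (0:ℝ), ε ≤ 1 / 2 :=
      (tendsto_id.mono_left nhdsWithin_le_nhds : Tendsto (fun ε : ℝ => ε) (𝓝[>] (0:ℝ)) (𝓝 0)).eventually_le_const
        (by norm_num)
    filter_upwards [h2, h3, self_mem_nhdsWithin] with ε hε1 hε2 hε0 ξ hξ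
    have hε : 0 < ε := hε0
    refine le_trans ?_ hε1
    refine AM_le_of_minor' R.P (P_col R) J hJ hdet ε hε hε2 (fun c b => ξ (R.cface c b))
      (fun c b => (hξ _).1) e₀ (fun c => hJs c) (D * ε) (by positivity) ?_
    intro y hy hne
    have h5 : ∀ c, |∑ e, ((R.P c false e : ℝ) - (R.P c true e : ℝ)) * y e| ≤ (2 + C) * ε := by
      intro c
      have h6 : kern ε (∑ e, (R.P c false e : ℝ) * y e + ξ (R.cface c false))
        (∑ e, (R.P c true e : ℝ) * y e + ξ (R.cface c true)) ≠ 0 :=
        fun h => hne (Finset.prod_eq_zero (Finset.mem_univ c) h)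
      have h7 : |(∑ e, (R.P c false e : ℝ) * y e + ξ (R.cface c false)) -
        (∑ e, (R.P c true e : ℝ) * y e + ξ (R.cface c true))| < 2 * ε := by
        by_contra hcon
        rw [not_lt] at hcon
        exact h6 (kern_zero ε hε _ _ hcon)
      have h8 : ∑ e, ((R.P c false e : ℝ) - (R.P c true e : ℝ)) * y e =
          ∑ e, (R.P c false e : ℝ) * y e - ∑ e, (R.P c true e : ℝ) * y e := by
        rw [← Finset.sum_sub_distrib]
        exact Finset.sum_congr rfl fun e _ => by ring
      rw [h8]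
      have h9 := hξ (R.cface c false)
      have h10 := hξ (R.cface c true)
      rw [abs_lt] at h7
      rw [abs_le]
      constructor <;> nlinarith [h7.1, h7.2, h9.1, h9.2, h10.1, h10.2]
    have h11 : a e₀ * y e₀ ≤ ∑ e, a e * y e :=
      Finset.single_le_sum (f := fun e => a e * y e)
        (fun e _ => mul_nonneg (haN e) (hy e).le) (Finset.mem_univ e₀)
    have h12 : ∑ e, a e * y e =
        ∑ c, lam c * ∑ e, ((R.P c false e : ℝ) - (R.P c true e : ℝ)) * y e := by
      simp only [ha, Finset.sum_mul, Finset.mul_sum]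
      rw [Finset.sum_comm]
      exact Finset.sum_congr rfl fun c _ => Finset.sum_congr rfl fun e _ => by ring
    have h13 : ∑ c, lam c * ∑ e, ((R.P c false e : ℝ) - (R.P c true e : ℝ)) * y e ≤
        ∑ c, |lam c| * ((2 + C) * ε) := by
      refine Finset.sum_le_sum (fun c _ => ?_)
      refine le_trans (le_abs_self _) ?_
      rw [abs_mul]
      exact mul_le_mul_of_nonneg_left (h5 c) (abs_nonneg _)
    rw [← Finset.sum_mul, ← hL] at h13
    have h14 : a e₀ * y e₀ ≤ L * ((2 + C) * ε) := by linarith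
    rw [hD, div_mul_eq_mul_div, le_div_iff₀ ha0]
    linarith

theorem good_no_leaf {H : Type} [Fintype H] {σ : Equiv.Perm H} (R : Conf σ) (hg : R.Good) :
    ¬ ∃ x μ, R.IsLeaf x μ := by
  rintro ⟨x, μ, hμ⟩
  obtain ⟨u, hu, hu2⟩ := hg
  classical
  have hrep : ∀ f : R.Face, R.face f.rep = f := fun f => Quotient.out_eq f
  set m : R.Face → ℤ := fun f => μ f.rep with hm
  have hmf : ∀ h, m (R.face h) = μ h := by
    intro h
    exact hμ.face _ _ (hrep _)
  have hmb : ∀ f, m (R.β f) = - m f := by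
    intro f
    apply hμ.beta
    rw [hrep, hrep]
  set S : ℤ := ∑ h, μ h * (u (R.edge h) : ℤ) with hS
  have h1 : S = ∑ f, m f * ((R.per u f : ℕ) : ℤ) := by
    have h2 : ∀ f, m f * ((R.per u f : ℕ) : ℤ) =
        ∑ h : H, if R.face h = f then m f * (u (R.edge h) : ℤ) else 0 := by
      intro f
      unfold Conf.per
      rw [Nat.cast_sum, Finset.mul_sum]
      refine Finset.sum_congr rfl fun h _ => ?_
      by_cases h3 : R.face h = f <;> simp [h3]
    rw [Finset.sum_congr rfl fun f _ => h2 f, Finset.sum_comm, hS]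
    refine Finset.sum_congr rfl fun h _ => ?_
    rw [Finset.sum_ite_eq]
    simp only [Finset.mem_univ, if_true, hmf]
  have h2 : S = 0 := by
    have h3 : ∑ f, m (R.β f) * ((R.per u (R.β f) : ℕ) : ℤ) = ∑ f, m f * ((R.per u f : ℕ) : ℤ) :=
      Equiv.sum_comp R.β (fun f => m f * ((R.per u f : ℕ) : ℤ))
    have h4 : ∑ f, m (R.β f) * ((R.per u (R.β f) : ℕ) : ℤ) = - ∑ f, m f * ((R.per u f : ℕ) : ℤ) := by
      rw [← Finset.sum_neg_distrib]
      refine Finset.sum_congr rfl fun f _ => ?_
      rw [hmb, ← hu2 f]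
      ring
    rw [h1]
    linarith
  have h3 : S = ∑ h, μ (R.τ h) * (u (R.edge h) : ℤ) := by
    have h4 : ∑ h, μ (R.τ h) * (u (R.edge (R.τ h)) : ℤ) = ∑ h, μ h * (u (R.edge h) : ℤ) :=
      Equiv.sum_comp R.τ (fun h => μ h * (u (R.edge h) : ℤ))
    rw [hS, ← h4]
    refine Finset.sum_congr rfl fun h _ => ?_
    rw [bedge_tau]
  have h4 : S + S = ∑ h, (μ h + μ (R.τ h)) * (u (R.edge h) : ℤ) := by
    nth_rw 2 [h3]
    rw [hS, ← Finset.sum_add_distrib]
    exact Finset.sum_congr rfl fun h _ => by ring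
  have h5 : ∑ h, (μ h + μ (R.τ h)) * (u (R.edge h) : ℤ) =
      ∑ h ∈ ({x, R.τ x} : Finset H), (μ h + μ (R.τ h)) * (u (R.edge h) : ℤ) := by
    symm
    apply Finset.sum_subset (Finset.subset_univ _)
    intro h _ hh
    simp only [mem_insert, mem_singleton, not_or] at hh
    rw [hμ.tau h hh.1 hh.2]
    ring
  rw [h5, Finset.sum_pair (Ne.symm (R.hτ.fpf x)), R.hτ.invol, bedge_tau, hμ.zero, hμ.one, h2] at h4
  have h6 : (0 : ℤ) < (u (R.edge x) : ℤ) := by exact_mod_cast hu _
  linarith

end Pool.Agent.Helper62.MVC2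
end
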