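import Pool.Agent.Helper16.LGG.G03
import Pool.Agent.Helper16.LGG.G04
import Pool.Agent.Helper16.LGG.G08
import Pool.Agent.Helper16.LGG.G09
import Pool.Agent.Helper16.LGG.G16

/- Helper12.MVP.PolyId -/
section
/-!
MV-P7. The polynomial identity in the multiplicities.

Proofs. `sum_lab_mult`: group the `lab : F → Fin N` by `f ↦ (π (lab f)).1`; the fibre over `lab' : F → α` is `∏_f Fin (m (lab' f))`
(e.g. `Fintype.sum_equiv` with `(F → Σ i, Fin (m i)) ≃ Σ lab' : F → α, (∀ f, Fin (m (lab' f)))`, `Equiv.piSigma`-like; or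
`Finset.sum_fiberwise` and `Fintype.card_pi`; or: both sides are equal for `G` replaced by products of indicator functions...).
`poly_id`: both sides are polynomials over `ℝ` in the variables `α`. Evaluate at `x i = m i` with `m : α → ℕ` even: put
`N = ∑ m i` (even), `π : Fin N ≃ Σ i, Fin (m i)` (both have the cardinality `∑ m i`: `Fintype.equivOfCardEq`), `s' j = s (π j).1`. By `hR`
and `PKs_eq`, `∑_τ ∑_{lab : Face → Fin N} JM(e^{-s' (lab f) p}) = R(t_k = ∑_j (1/s'_j)^{2k+1})`; the left side is
`∑_τ ∑_{lab : Face → α} ∏_f m(lab f) · JM(e^{-s(lab f) p})` by `sum_lab_mult`, which is the value at `m` of the left polynomial, and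
`∑_j (1/s'_j)^{2k+1} = ∑_i m_i (1/s_i)^{2k+1}`, so the right side is the value of the right polynomial. Since the set of even natural
numbers is infinite in `ℝ`, the polynomials are equal (`MvPolynomial.funext_set`, or `MvPolynomial.funext` after the substitution, or a
similar lemma).
-/

namespace Pool.Agent.Helper12.MVP

open Finset MeasureTheory Filter Topology Pool.Agent.Helper60.MV

private theorem pid_card {α : Type} [Fintype α] [DecidableEq α] (m : α → ℕ) (N : ℕ)
    (π : Fin N ≃ Σ i : α, Fin (m i)) (i : α) :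
    (univ.filter (fun x : Fin N => (π x).1 = i)).card = m i := by
  classical
  have h1 : (univ.filter (fun x : Fin N => (π x).1 = i)).card =
      (univ.filter (fun y : (Σ i : α, Fin (m i)) => y.1 = i)).card := by
    refine Finset.card_equiv π ?_
    intro x
    simp
  have h2 : (univ.filter (fun y : (Σ i : α, Fin (m i)) => y.1 = i)).card =
      (univ : Finset (Fin (m i))).card := by
    symm
    refine Finset.card_bij (fun a _ => (⟨i, a⟩ : Σ i : α, Fin (m i))) ?_ ?_ ?_
    · intro a _
      simp
    · intro a _ b _ h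
      simpa using h
    · rintro ⟨j, b⟩ hb
      have hj : j = i := by simpa using hb
      subst hj
      exact ⟨b, mem_univ _, rfl⟩
  rw [h1, h2, Finset.card_univ, Fintype.card_fin]

theorem sum_lab_mult {F α : Type} [Fintype F] [DecidableEq F] [Fintype α] [DecidableEq α]
    (m : α → ℕ) (N : ℕ) (π : Fin N ≃ Σ i : α, Fin (m i)) (G : (F → α) → ℝ) :
    ∑ lab : F → Fin N, G (fun f => (π (lab f)).1) =
      ∑ lab : F → α, (∏ f, (m (lab f) : ℝ)) * G lab := by
  classical
  rw [← Finset.sum_fiberwise univ (fun (lab : F → Fin N) (f : F) => (π (lab f)).1)]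
  refine Finset.sum_congr rfl ?_
  intro lab' _
  have h1 : ∀ lab ∈ univ.filter (fun lab : F → Fin N => (fun f => (π (lab f)).1) = lab'),
      G (fun f => (π (lab f)).1) = G lab' := by
    intro lab hl
    rw [(Finset.mem_filter.1 hl).2]
  rw [Finset.sum_congr rfl h1, Finset.sum_const, nsmul_eq_mul]
  congr 1
  have h2 : univ.filter (fun lab : F → Fin N => (fun f => (π (lab f)).1) = lab') =
      Fintype.piFinset (fun f => univ.filter (fun x : Fin N => (π x).1 = lab' f)) := by
    ext lab
    simp only [Finset.mem_filter, Finset.mem_univ, true_and, Fintype.mem_piFinset]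
    exact funext_iff
  rw [h2, Fintype.card_piFinset, Nat.cast_prod]
  refine Finset.prod_congr rfl ?_
  intro f _
  rw [pid_card]

theorem poly_id {H : Type} [Fintype H] (σ : Equiv.Perm H) (R : MvPolynomial ℕ ℝ)
    (hR : DProp σ R) {α : Type} [Fintype α] [DecidableEq α] (s : α → ℝ) (hs : ∀ i, 0 < s i) :
    (∑ τ : Prg H, ∑ lab : Cyc (σ * τ.1) → α,
      MvPolynomial.C (JM (MT σ τ.1) (fun f p => Real.exp (-(s (lab f) * p)))) *
        ∏ f, (MvPolynomial.X (lab f) : MvPolynomial α ℝ)) =
      MvPolynomial.aeval (fun k : ℕ => ∑ i : α, MvPolynomial.C ((1 / s i) ^ (2 * k + 1)) *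
        (MvPolynomial.X i : MvPolynomial α ℝ)) R := by
  classical
  refine MvPolynomial.funext_set (fun _ : α => Set.range (fun n : ℕ => ((2 * n : ℕ) : ℝ)))
    (fun _ => Set.infinite_range_of_injective ?_) ?_
  · intro a b hab
    have h0 : ((2 * a : ℕ) : ℝ) = ((2 * b : ℕ) : ℝ) := hab
    have : (2 * a : ℕ) = 2 * b := by exact_mod_cast h0
    omega
  · intro x hx
    have hx' : ∀ i, ∃ n : ℕ, ((2 * n : ℕ) : ℝ) = x i := fun i => hx i (Set.mem_univ i)
    choose n hn using hx'
    let m : α → ℕ := fun i => 2 * n i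
    have hm : ∀ i, (m i : ℝ) = x i := hn
    let N : ℕ := ∑ i, m i
    have hN : Even N := by
      refine Finset.even_sum _ ?_
      intro i _
      exact even_two_mul _
    let π : Fin N ≃ Σ i : α, Fin (m i) := Fintype.equivOfCardEq (by simp [N])
    let s' : Fin N → ℝ := fun j => s (π j).1
    have h1 := hR N hN s' (fun j => hs _)
    rw [PKs_eq σ N s' (fun j => hs _)] at h1
    have hL : ∀ τ : Prg H, ∑ lab : Cyc (σ * τ.1) → Fin N,
        JM (MT σ τ.1) (fun f p => Real.exp (-(s' (lab f) * p))) =
        ∑ lab : Cyc (σ * τ.1) → α, (∏ f, (m (lab f) : ℝ)) *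
          JM (MT σ τ.1) (fun f p => Real.exp (-(s (lab f) * p))) := fun τ =>
      sum_lab_mult m N π
        (fun lab : Cyc (σ * τ.1) → α => JM (MT σ τ.1) (fun f p => Real.exp (-(s (lab f) * p))))
    have hK : ∀ k : ℕ, ∑ j : Fin N, (1 / s' j) ^ (2 * k + 1) =
        ∑ i, (1 / s i) ^ (2 * k + 1) * x i := by
      intro k
      have e1 : ∑ j : Fin N, (1 / s' j) ^ (2 * k + 1) =
          ∑ y : (Σ i : α, Fin (m i)), (1 / s y.1) ^ (2 * k + 1) :=
        Equiv.sum_comp π (fun y : (Σ i : α, Fin (m i)) => (1 / s y.1) ^ (2 * k + 1))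
      rw [e1, Fintype.sum_sigma]
      refine Finset.sum_congr rfl ?_
      intro i _
      change ∑ _y : Fin (m i), (1 / s i) ^ (2 * k + 1) = _
      rw [Finset.sum_const, Finset.card_univ, Fintype.card_fin, nsmul_eq_mul, hm, mul_comm]
    rw [Finset.sum_congr rfl (fun τ _ => hL τ)] at h1
    have hR2 : MvPolynomial.eval x (MvPolynomial.aeval (fun k : ℕ => ∑ i : α,
        MvPolynomial.C ((1 / s i) ^ (2 * k + 1)) * (MvPolynomial.X i : MvPolynomial α ℝ)) R) =
        MvPolynomial.eval (fun k => ∑ j : Fin N, (1 / s' j) ^ (2 * k + 1)) R := by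
      rw [← MvPolynomial.coe_aeval_eq_eval, ← MvPolynomial.coe_aeval_eq_eval]
      rw [RingHom.coe_coe, RingHom.coe_coe, ← AlgHom.comp_apply, MvPolynomial.comp_aeval]
      congr 2
      funext k
      rw [hK]
      simp
    rw [hR2, ← h1]
    simp only [map_sum, map_mul, MvPolynomial.eval_C, map_prod, MvPolynomial.eval_X]
    refine Finset.sum_congr rfl ?_
    intro τ _
    refine Finset.sum_congr rfl ?_
    intro lab _
    rw [mul_comm]
    congr 1
    refine Finset.prod_congr rfl ?_
    intro f _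
    rw [hm]

end Pool.Agent.Helper12.MVP
end

/- Helper12.MVP.Mom -/
section
/-!
MV-P3. The moment functional `mom k` on the class `Gc c`, `c > 0`.

Proofs. `∫_0^∞ e^{-s p} p^n dp = n!/s^{n+1}` (`integral_rpow_mul_exp_neg_mul_Ioi` and `Real.Gamma_nat_eq_factorial`, or
`Real.integral_pow_mul_exp_neg...`), integrable. So `mom_exp` with `n = 2k`, and `|mom k g| ≤ ∫ N e^{-c p} p^{2k}/(2k)!
= N c^{-(2k+1)}`. Integrability: continuous (so measurable) and dominated.
-/

namespace Pool.Agent.Helper12.MVP

open Finset MeasureTheory Filter Topology Pool.Agent.Helper60.MV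

private theorem t_int (M : ℕ) (b : ℝ) (hb : 0 < b) :
    IntegrableOn (fun a : ℝ => a ^ M * Real.exp (-(b * a))) (Set.Ioi 0) := by
  have h := integrableOn_rpow_mul_exp_neg_mul_rpow (p := 1) (s := (M : ℝ)) (b := b)
    (lt_of_lt_of_le (by norm_num) (Nat.cast_nonneg M)) one_pos hb
  refine h.congr_fun (fun x hx => ?_) measurableSet_Ioi
  simp only [Real.rpow_natCast, Real.rpow_one, neg_mul]

private theorem t_val (M : ℕ) (b : ℝ) (hb : 0 < b) :
    ∫ a in Set.Ioi (0:ℝ), a ^ M * Real.exp (-(b * a))
      = (M.factorial : ℝ) * (1 / b) ^ (M + 1) := by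
  have h := Real.integral_rpow_mul_exp_neg_mul_Ioi (a := (M : ℝ) + 1) (r := b)
    (by positivity) hb
  rw [Real.Gamma_nat_eq_factorial] at h
  rw [mul_comm]
  have h2 : (1 / b) ^ ((M : ℝ) + 1) = (1 / b) ^ (M + 1) := by
    rw [show (M : ℝ) + 1 = ((M + 1 : ℕ) : ℝ) by push_cast; ring, Real.rpow_natCast]
  rw [h2] at h
  rw [← h]
  refine setIntegral_congr_fun measurableSet_Ioi (fun x hx => ?_)
  simp only [add_sub_cancel_right, Real.rpow_natCast]

theorem mom_exp_integrable (k : ℕ) (s : ℝ) (hs : 0 < s) :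
    IntegrableOn (fun p : ℝ => Real.exp (-(s * p)) * (p ^ (2 * k) / ((2 * k).factorial : ℝ)))
      (Set.Ioi 0) := by
  have h := (t_int (2 * k) s hs).div_const ((2 * k).factorial : ℝ)
  refine (integrable_congr ?_).mp h
  refine Filter.Eventually.of_forall (fun p => ?_)
  simp only
  ring

theorem mom_exp (k : ℕ) (s : ℝ) (hs : 0 < s) :
    mom k (fun p => Real.exp (-(s * p))) = (1 / s) ^ (2 * k + 1) := by
  unfold mom
  have h1 : ∀ p : ℝ, Real.exp (-(s * p)) * (p ^ (2 * k) / ((2 * k).factorial : ℝ)) =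
      (p ^ (2 * k) * Real.exp (-(s * p))) / ((2 * k).factorial : ℝ) := by
    intro p
    ring
  simp only [h1]
  rw [integral_div, t_val (2 * k) s hs]
  have hf : ((2 * k).factorial : ℝ) ≠ 0 := by positivity
  field_simp

theorem mom_integrable (k : ℕ) (c : ℝ) (hc : 0 < c) (g : ℝ → ℝ) (hg : Gc c g) :
    IntegrableOn (fun p : ℝ => g p * (p ^ (2 * k) / ((2 * k).factorial : ℝ))) (Set.Ioi 0) := by
  obtain ⟨B, hB⟩ := hg.bd
  have h := (mom_exp_integrable k c hc).const_mul B
  refine h.mono' ?_ ?_
  · have hcont : Continuous (fun p : ℝ => g p * (p ^ (2 * k) / ((2 * k).factorial : ℝ))) :=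
      hg.cont.mul ((continuous_pow (2 * k)).div_const _)
    exact hcont.aestronglyMeasurable
  · refine (ae_restrict_mem measurableSet_Ioi).mono (fun p hp => ?_)
    have hp0 : (0:ℝ) ≤ p := le_of_lt hp
    have h3 : 0 ≤ p ^ (2 * k) / ((2 * k).factorial : ℝ) := by positivity
    rw [Real.norm_eq_abs, abs_mul, abs_of_nonneg h3, ← mul_assoc]
    exact mul_le_mul_of_nonneg_right (hB p hp0) h3

theorem mom_bound (k : ℕ) (c : ℝ) (hc : 0 < c) (g : ℝ → ℝ) (hg : Gc c g) (N : ℝ)
    (hN : ∀ p, 0 ≤ p → |g p| ≤ N * Real.exp (-(c * p))) :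
    |mom k g| ≤ (1 / c) ^ (2 * k + 1) * N := by
  have h0 : (1 / c) ^ (2 * k + 1) * N = ∫ p in Set.Ioi (0:ℝ),
      N * (Real.exp (-(c * p)) * (p ^ (2 * k) / ((2 * k).factorial : ℝ))) := by
    rw [integral_const_mul]
    have h1 := mom_exp k c hc
    unfold mom at h1
    rw [h1, mul_comm]
  rw [h0]
  unfold mom
  rw [← Real.norm_eq_abs]
  refine norm_integral_le_of_norm_le ((mom_exp_integrable k c hc).const_mul N) ?_
  refine (ae_restrict_mem measurableSet_Ioi).mono (fun p hp => ?_)
  have hp0 : (0:ℝ) ≤ p := le_of_lt hp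
  have h3 : 0 ≤ p ^ (2 * k) / ((2 * k).factorial : ℝ) := by positivity
  rw [Real.norm_eq_abs, abs_mul, abs_of_nonneg h3, ← mul_assoc]
  exact mul_le_mul_of_nonneg_right (hN p hp0) h3

theorem mom_add (k : ℕ) (c : ℝ) (hc : 0 < c) (u v : ℝ → ℝ) (hu : Gc c u) (hv : Gc c v) :
    mom k (u + v) = mom k u + mom k v := by
  unfold mom
  rw [← integral_add (mom_integrable k c hc u hu) (mom_integrable k c hc v hv)]
  refine setIntegral_congr_fun measurableSet_Ioi (fun p _ => ?_)
  simp only [Pi.add_apply]
  ring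

theorem mom_smul (k : ℕ) (a : ℝ) (u : ℝ → ℝ) : mom k (a • u) = a * mom k u := by
  unfold mom
  rw [← integral_const_mul]
  refine setIntegral_congr_fun measurableSet_Ioi (fun p _ => ?_)
  simp only [Pi.smul_apply, smul_eq_mul]
  ring

end Pool.Agent.Helper12.MVP
end

/- Helper12.MVP.Multi -/
section
/-!
MV-P5. A bounded multilinear functional vanishing on exponentials vanishes on all continuous functions vanishing for large `p`.

Proof. Claim for every `T : Finset α` (`Finset.induction_on`): `D g = 0` whenever for `i ∈ T` `g i` is continuous and zero for `p ≥ R`, and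
for `i ∉ T` `g i` is an exponential `p ↦ e^{-s p}` with `c ≤ s`. `T = ∅` is `hexp`. Step `insert i0 T`: apply `dens` to
`D' u = D (update g i0 u)`; additivity and homogeneity from `hadd`, `hsmul` (all `g j` are in `Gc c` by `Gc_exp`, `Gc_of_vanish`);
boundedness: with `N_j` a bound of `g j` for `j ≠ i0` (`Gc.bd`), `|D' u| ≤ B · N · ∏_{j ≠ i0} N_j` (take the constant
`B · ∏_{j ≠ i0} N_j`; `Finset.prod_update_of_mem`); on exponentials `D'` is zero by the induction hypothesis for `T`
(the family `update g i0 (e^{-s·})`). `T = univ` is the statement.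
-/

namespace Pool.Agent.Helper12.MVP

open Finset MeasureTheory Filter Topology Pool.Agent.Helper60.MV

theorem multi_zero {α : Type} [Fintype α] [DecidableEq α] (c : ℝ) (D : (α → ℝ → ℝ) → ℝ)
    (hadd : ∀ g i u v, (∀ j, Gc c (g j)) → Gc c u → Gc c v →
      D (Function.update g i (u + v)) = D (Function.update g i u) + D (Function.update g i v))
    (hsmul : ∀ g i (a : ℝ) u, (∀ j, Gc c (g j)) → Gc c u →
      D (Function.update g i (a • u)) = a * D (Function.update g i u))
    (B : ℝ) (hB : ∀ (g : α → ℝ → ℝ) (N : α → ℝ), (∀ i, Gc c (g i)) →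
      (∀ i p, 0 ≤ p → |g i p| ≤ N i * Real.exp (-(c * p))) → |D g| ≤ B * ∏ i, N i)
    (hexp : ∀ s : α → ℝ, (∀ i, c ≤ s i) → D (fun i p => Real.exp (-(s i * p))) = 0)
    (g : α → ℝ → ℝ) (hg : ∀ i, Continuous (g i)) (R : ℝ) (hR : ∀ i p, R ≤ p → g i p = 0) :
    D g = 0 := by
  have key : ∀ T : Finset α, ∀ g : α → ℝ → ℝ,
      (∀ i ∈ T, Continuous (g i) ∧ ∀ p, R ≤ p → g i p = 0) →
      (∀ i, i ∉ T → ∃ s : ℝ, c ≤ s ∧ g i = fun p => Real.exp (-(s * p))) → D g = 0 := by
    intro T
    induction T using Finset.induction_on with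
    | empty =>
      intro g _ h2
      choose s hs1 hs2 using fun i => h2 i (Finset.notMem_empty i)
      have hgs : g = fun i p => Real.exp (-(s i * p)) := by
        funext i
        exact hs2 i
      rw [hgs]
      exact hexp s hs1
    | insert i0 T hi0 ih =>
      intro g h1 h2
      have hG : ∀ j, Gc c (g j) := by
        intro j
        by_cases hj : j ∈ insert i0 T
        · exact Gc_of_vanish c (g j) (h1 j hj).1 R (h1 j hj).2
        · obtain ⟨s, hs1, hs2⟩ := h2 j hj
          rw [hs2]
          exact Gc_exp c s hs1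
      choose Nf hNf using fun j => (hG j).bd
      have hup : Function.update g i0 (g i0) = g := Function.update_eq_self i0 g
      have hd := dens c (fun u => D (Function.update g i0 u))
        (fun u v hu hv => hadd g i0 u v hG hu hv)
        (fun a u hu => hsmul g i0 a u hG hu)
        (B * ∏ j ∈ Finset.univ \ {i0}, Nf j)
        (by
          intro u N hu hN
          have h3 := hB (Function.update g i0 u) (Function.update Nf i0 N)
            (by
              intro i
              by_cases hi : i = i0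
              · subst hi
                rw [Function.update_self]
                exact hu
              · rw [Function.update_of_ne hi]
                exact hG i)
            (by
              intro i p hp
              by_cases hi : i = i0
              · subst hi
                rw [Function.update_self, Function.update_self]
                exact hN p hp
              · rw [Function.update_of_ne hi, Function.update_of_ne hi]
                exact hNf i p hp)
          rw [Finset.prod_update_of_mem (Finset.mem_univ i0)] at h3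
          calc |D (Function.update g i0 u)| ≤ B * (N * ∏ j ∈ Finset.univ \ {i0}, Nf j) := h3
            _ = B * (∏ j ∈ Finset.univ \ {i0}, Nf j) * N := by ring)
        (by
          intro s hs
          apply ih
          · intro i hi
            have hne : i ≠ i0 := by
              rintro rfl
              exact hi0 hi
            rw [Function.update_of_ne hne]
            exact h1 i (Finset.mem_insert_of_mem hi)
          · intro i hi
            by_cases hi' : i = i0
            · subst hi'
              exact ⟨s, hs, Function.update_self _ _ _⟩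
            · rw [Function.update_of_ne hi']
              exact h2 i (fun hc => (Finset.mem_insert.1 hc).elim hi' hi))
        (g i0) (h1 i0 (Finset.mem_insert_self _ _)).1 R (h1 i0 (Finset.mem_insert_self _ _)).2
      simp only [hup] at hd
      exact hd
  exact key Finset.univ g (fun i _ => ⟨hg i, hR i⟩) (fun i hi => absurd (Finset.mem_univ i) hi)

end Pool.Agent.Helper12.MVP
end

/- Helper12.MVP.Bij -/
section
/-!
MV-P9. The identity for bijective labels.

Proofs. `bij_exp`: compare in `poly_id` the coefficients of `∏_i X_i` (`coeff_left` for each `τ`, `coeff_right`).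
`bij_all`: apply `multi_zero` with `c = 1` to `D g = (left side) - perR (fun i k => mom k (g i)) R`. Each term of the left side is
additive, homogeneous and bounded in each `g i`: for `lab : Face ≃ α`, `(fun f => update g i u (lab f)) = update (fun f => g (lab f))
(lab.symm i) u`, so use `JM_add`, `JM_smul`, `JM_bound` with `N ∘ lab` (`∏_f N (lab f) = ∏_i N i`), `MT_col`. Each term of the right side
is a constant times `∏_j mom (L.get j) (g (π j))` with `π` a bijection, so each `g i` occurs in exactly one factor: additive and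
homogeneous by `mom_add`, `mom_smul` and `Finset.prod_update_of_mem`-like arguments (or rewrite the product as `∏_i mom (L.get (π.symm i)) (g i)`
by `Equiv.prod_comp`), bounded by `mom_bound` with `c = 1`: `≤ ∏_i N i`. On exponentials `D = 0` by `bij_exp` and `mom_exp`
(`s i ≥ 1 > 0`).
-/

namespace Pool.Agent.Helper12.MVP

open Finset MeasureTheory Filter Topology Pool.Agent.Helper60.MV

/-- bounded multilinear functionals -/
structure ML {α : Type} [Fintype α] [DecidableEq α] (D : (α → ℝ → ℝ) → ℝ) : Prop where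
  add : ∀ (g : α → ℝ → ℝ) (i : α) (u v : ℝ → ℝ), (∀ j, Gc 1 (g j)) → Gc 1 u → Gc 1 v →
    D (Function.update g i (u + v)) = D (Function.update g i u) + D (Function.update g i v)
  smul : ∀ (g : α → ℝ → ℝ) (i : α) (a : ℝ) (u : ℝ → ℝ), (∀ j, Gc 1 (g j)) → Gc 1 u →
    D (Function.update g i (a • u)) = a * D (Function.update g i u)
  bd : ∃ B : ℝ, ∀ (g : α → ℝ → ℝ) (N : α → ℝ), (∀ i, Gc 1 (g i)) →
    (∀ i p, 0 ≤ p → |g i p| ≤ N i * Real.exp (-(1 * p))) → |D g| ≤ B * ∏ i, N i

section

variable {α : Type} [Fintype α] [DecidableEq α]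

theorem ML.sum {X : Type} (s : Finset X) (D : X → (α → ℝ → ℝ) → ℝ)
    (h : ∀ x ∈ s, ML (D x)) : ML (fun g => ∑ x ∈ s, D x g) where
  add := by
    intro g i u v hg hu hv
    rw [← Finset.sum_add_distrib]
    exact Finset.sum_congr rfl (fun x hx => (h x hx).add g i u v hg hu hv)
  smul := by
    intro g i a u hg hu
    rw [Finset.mul_sum]
    exact Finset.sum_congr rfl (fun x hx => (h x hx).smul g i a u hg hu)
  bd := by
    classical
    have h' : ∀ x ∈ s, ∃ B : ℝ, ∀ (g : α → ℝ → ℝ) (N : α → ℝ), (∀ i, Gc 1 (g i)) →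
      (∀ i p, 0 ≤ p → |g i p| ≤ N i * Real.exp (-(1 * p))) → |D x g| ≤ B * ∏ i, N i :=
      fun x hx => (h x hx).bd
    choose! B hB using h'
    refine ⟨∑ x ∈ s, B x, ?_⟩
    intro g N hg hN
    rw [Finset.sum_mul]
    refine (Finset.abs_sum_le_sum_abs _ _).trans ?_
    exact Finset.sum_le_sum (fun x hx => hB x hx g N hg hN)

theorem ML.const_mul (a : ℝ) (D : (α → ℝ → ℝ) → ℝ) (h : ML D) : ML (fun g => a * D g) where
  add := by
    intro g i u v hg hu hv
    rw [h.add g i u v hg hu hv, mul_add]
  smul := by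
    intro g i b u hg hu
    rw [h.smul g i b u hg hu]
    ring
  bd := by
    obtain ⟨B, hB⟩ := h.bd
    refine ⟨|a| * B, ?_⟩
    intro g N hg hN
    rw [abs_mul, mul_assoc]
    exact mul_le_mul_of_nonneg_left (hB g N hg hN) (abs_nonneg a)

theorem ML.sub (D D' : (α → ℝ → ℝ) → ℝ) (h : ML D) (h' : ML D') :
    ML (fun g => D g - D' g) where
  add := by
    intro g i u v hg hu hv
    rw [h.add g i u v hg hu hv, h'.add g i u v hg hu hv]
    ring
  smul := by
    intro g i b u hg hu
    rw [h.smul g i b u hg hu, h'.smul g i b u hg hu]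
    ring
  bd := by
    obtain ⟨B, hB⟩ := h.bd
    obtain ⟨B', hB'⟩ := h'.bd
    refine ⟨B + B', ?_⟩
    intro g N hg hN
    rw [add_mul]
    exact (abs_sub _ _).trans (add_le_add (hB g N hg hN) (hB' g N hg hN))

omit [Fintype α] in
theorem update_lab {F : Type} [DecidableEq F] (lab : F ≃ α) (g : α → ℝ → ℝ) (i : α)
    (u : ℝ → ℝ) :
    (fun f => Function.update g i u (lab f)) =
      Function.update (fun f => g (lab f)) (lab.symm i) u := by
  funext f
  by_cases hf : lab f = i
  · subst hf
    simp
  · have hf' : f ≠ lab.symm i := by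
      intro h
      apply hf
      rw [h]
      simp
    rw [Function.update_of_ne hf, Function.update_of_ne hf']

theorem ML.jm {F ι : Type} [Fintype F] [DecidableEq F] [Fintype ι] (M : F → ι → ℕ)
    (hM : ∀ e, ∑ f, M f e = 2) (lab : F ≃ α) : ML (fun g => JM M (fun f => g (lab f))) where
  add := by
    intro g i u v hg hu hv
    rw [update_lab, update_lab, update_lab]
    exact JM_add M hM 1 one_pos (fun f => g (lab f)) (fun f => hg (lab f)) (lab.symm i) u v hu hv
  smul := by
    intro g i a u hg hu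
    rw [update_lab, update_lab]
    exact JM_smul M (fun f => g (lab f)) (lab.symm i) a u
  bd := by
    refine ⟨(1 / (2 * 1)) ^ (Fintype.card ι), ?_⟩
    intro g N hg hN
    have h := JM_bound M hM 1 one_pos (fun f => g (lab f)) (fun f => hg (lab f))
      (fun f => N (lab f)) (fun f p hp => hN (lab f) p hp)
    rw [Equiv.prod_comp lab N] at h
    exact h

theorem ML.mo (k : α → ℕ) : ML (fun g : α → ℝ → ℝ => ∏ i, mom (k i) (g i)) := by
  have hup : ∀ (g : α → ℝ → ℝ) (i0 : α) (w : ℝ → ℝ),
      ∏ i, mom (k i) (Function.update g i0 w i) =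
        mom (k i0) w * ∏ i ∈ univ \ {i0}, mom (k i) (g i) := by
    intro g i0 w
    have h1 : ∀ i, mom (k i) (Function.update g i0 w i) =
        Function.update (fun i => mom (k i) (g i)) i0 (mom (k i0) w) i := by
      intro i
      by_cases hi : i = i0
      · subst hi
        simp
      · rw [Function.update_of_ne hi, Function.update_of_ne hi]
    rw [Finset.prod_congr rfl (fun i _ => h1 i), Finset.prod_update_of_mem (Finset.mem_univ i0)]
  refine ⟨?_, ?_, ?_⟩
  · intro g i u v hg hu hv
    rw [hup, hup, hup, mom_add (k i) 1 one_pos u v hu hv]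
    ring
  · intro g i a u hg hu
    rw [hup, hup, mom_smul]
    ring
  · refine ⟨1, ?_⟩
    intro g N hg hN
    rw [one_mul, Finset.abs_prod]
    refine Finset.prod_le_prod (fun i _ => abs_nonneg _) (fun i _ => ?_)
    have h := mom_bound (k i) 1 one_pos (g i) (hg i) (N i) (fun p hp => hN i p hp)
    simpa using h

theorem ML.perR (R : MvPolynomial ℕ ℝ) :
    ML (fun g : α → ℝ → ℝ => perR (fun i k => mom k (g i)) R) := by
  unfold MVP.perR perL
  refine ML.sum _ _ (fun μ _ => ML.const_mul _ _ (ML.sum _ _ (fun π _ => ?_)))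
  have h : (fun g : α → ℝ → ℝ => ∏ j, mom (μ.toMultiset.toList.get j) (g (π j))) =
      (fun g : α → ℝ → ℝ => ∏ i, mom (μ.toMultiset.toList.get (π.symm i)) (g i)) := by
    funext g
    rw [← Equiv.prod_comp π]
    simp
  rw [h]
  exact ML.mo _

end

theorem bij_exp {H : Type} [Fintype H] (σ : Equiv.Perm H) (R : MvPolynomial ℕ ℝ)
    (hR : DProp σ R) {α : Type} [Fintype α] [DecidableEq α] (s : α → ℝ) (hs : ∀ i, 0 < s i) :
    ∑ τ : Prg H, ∑ lab : Cyc (σ * τ.1) ≃ α,
      JM (MT σ τ.1) (fun f p => Real.exp (-(s (lab f) * p))) =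
      perR (fun i k => (1 / s i) ^ (2 * k + 1)) R := by
  have h := congrArg (MvPolynomial.coeff (∑ i : α, Finsupp.single i 1)) (poly_id σ R hR s hs)
  rw [coeff_right (fun i k => (1 / s i) ^ (2 * k + 1)) R, MvPolynomial.coeff_sum] at h
  rw [← h]
  refine Finset.sum_congr rfl (fun τ _ => ?_)
  exact (coeff_left (fun lab : Cyc (σ * τ.1) → α =>
    JM (MT σ τ.1) (fun f p => Real.exp (-(s (lab f) * p))))).symm

theorem bij_all {H : Type} [Fintype H] (σ : Equiv.Perm H) (R : MvPolynomial ℕ ℝ)
    (hR : DProp σ R) {α : Type} [Fintype α] [DecidableEq α] (g : α → ℝ → ℝ)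
    (hg : ∀ i, Continuous (g i)) (r : ℝ) (hr : ∀ i p, r ≤ p → g i p = 0) :
    ∑ τ : Prg H, ∑ lab : Cyc (σ * τ.1) ≃ α, JM (MT σ τ.1) (fun f => g (lab f)) =
      perR (fun i k => mom k (g i)) R := by
  have hML : ML (fun g : α → ℝ → ℝ =>
      (∑ τ : Prg H, ∑ lab : Cyc (σ * τ.1) ≃ α, JM (MT σ τ.1) (fun f => g (lab f))) -
      perR (fun i k => mom k (g i)) R) := by
    refine ML.sub _ _ (ML.sum _ _ (fun τ _ => ML.sum _ _ (fun lab _ => ?_))) (ML.perR R)
    exact ML.jm (MT σ τ.1) (MT_col σ τ.1 τ.2) lab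
  obtain ⟨B, hB⟩ := hML.bd
  have h := multi_zero 1 _ hML.add hML.smul B hB ?_ g hg r hr
  · exact sub_eq_zero.mp h
  · intro s hs
    have hs' : ∀ i, 0 < s i := fun i => lt_of_lt_of_le one_pos (hs i)
    rw [sub_eq_zero, bij_exp σ R hR s hs']
    have h1 : (fun (i : α) (k : ℕ) => (1 / s i) ^ (2 * k + 1)) =
        (fun (i : α) (k : ℕ) => mom k (fun p => Real.exp (-(s i * p)))) := by
      funext i k
      rw [mom_exp k (s i) (hs' i)]
    rw [h1]

end Pool.Agent.Helper12.MVP
end

/- Helper12.MVP.GaussL -/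
section
/-!
MV-P10. Gaussian integration of the left side.

Proof. For `a : Fin m → ℝ`, `x` in the orthant put
`Ψ(a,x) = ∏_c phi (a_c) · ∏_f tentE ε (row M f x - a_{(lab f).1}) = ∏_c [phi (a_c) tentE ε (p_{c,0} - a_c) tentE ε (p_{c,1} - a_c)]`
with `p_{c,b} = row M (lab.symm (c,b)) x ≥ 0` (`Equiv.prod_comp`, `Fintype.prod_prod_type`, `Fintype.prod_bool`). It is continuous and
nonnegative. On the support `a_c ≥ p_{c,b} - ε` for both `b`, so `a_c ≥ -ε`, `phi (a_c) ≤ e^{-a_c/2} = e^{-a_c/4} e^{-a_c/4}`,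
`e^{-a_c/4} ≤ e^{ε/2} e^{-|a_c|/4}` and `e^{-a_c/4} ≤ e^{ε/4} e^{-(p_{c,0} + p_{c,1})/8}`. So
`Ψ(a,x) ≤ C ∏_c e^{-|a_c|/4} · e^{-(1/8) ∑_f row M f x} = C ∏_c e^{-|a_c|/4} · e^{-(1/4) ∑_e x_e}` (`sum_row`), integrable on
`(Fin m → ℝ) × orthant` (`Integrable.mul_prod`-like, `Integrable.fintype_prod`, `exp_orthant_integrable`). Hence `Ψ` is integrable on the
product; `a ↦ ∫_x Ψ` is integrable (`Integrable.integral_prod_left`) and Fubini (`integral_integral_swap`) gives
`∫_a ∫_x Ψ = ∫_x ∫_a Ψ`, and `∫_a Ψ = ∏_c kern ε p_{c,0} p_{c,1}` (`integral_fintype_prod_eq_prod`).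
-/

namespace Pool.Agent.Helper12.MVP

open Finset MeasureTheory Filter Topology Pool.Agent.Helper60.MV

private theorem gl_meas (ι : Type) [Fintype ι] :
    MeasurableSet {x : ι → ℝ | ∀ e, 0 < x e} := by
  have : {x : ι → ℝ | ∀ e, 0 < x e} = Set.pi Set.univ (fun _ => Set.Ioi 0) := by
    ext x
    simp
  rw [this]
  exact MeasurableSet.univ_pi fun _ => measurableSet_Ioi

private theorem gl_exp_int : Integrable (fun a : ℝ => Real.exp (-(|a| / 4))) := by
  have h1 : IntegrableOn (fun a : ℝ => Real.exp (-(|a| / 4))) (Set.Ioi 0) := by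
    refine (integrableOn_exp_mul_Ioi (a := -(1/4)) (by norm_num) 0).congr_fun ?_ measurableSet_Ioi
    intro a ha
    have ha' : 0 < a := ha
    show Real.exp (-(1/4) * a) = Real.exp (-(|a| / 4))
    rw [abs_of_pos ha']
    congr 1
    ring
  have h2 : IntegrableOn (fun a : ℝ => Real.exp (-(|a| / 4))) (Set.Iic 0) := by
    refine (integrableOn_exp_mul_Iic (a := 1/4) (by norm_num) 0).congr_fun ?_ measurableSet_Iic
    intro a ha
    have ha' : a ≤ 0 := ha
    show Real.exp ((1/4) * a) = Real.exp (-(|a| / 4))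
    rw [abs_of_nonpos ha']
    congr 1
    ring
  rw [← integrableOn_univ, ← Set.Iic_union_Ioi (a := (0:ℝ))]
  exact h2.union h1

private theorem gl_one (ε : ℝ) (hε : 0 < ε) (a p p' : ℝ) (hp : 0 ≤ p) (hp' : 0 ≤ p') :
    phi a * (tentE ε (p - a) * tentE ε (p' - a)) ≤
      (ε⁻¹ * ε⁻¹ * Real.exp (3 * ε / 4)) *
        (Real.exp (-(|a| / 4)) * Real.exp (-((p + p') / 8))) := by
  rcases le_or_gt ε |p - a| with h | h
  · rw [tentE_zero ε hε _ h, zero_mul, mul_zero]
    positivity
  rcases le_or_gt ε |p' - a| with h' | h'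
  · rw [tentE_zero ε hε _ h', mul_zero, mul_zero]
    positivity
  have h1 := (abs_lt.mp h).2
  have h2 := (abs_lt.mp h').2
  have h3 : phi a ≤ Real.exp (3 * ε / 4) *
      (Real.exp (-(|a| / 4)) * Real.exp (-((p + p') / 8))) := by
    refine (phi_le_exp a).trans ?_
    rw [← Real.exp_add, ← Real.exp_add]
    apply Real.exp_le_exp.mpr
    rcases le_total 0 a with h4 | h4
    · rw [abs_of_nonneg h4]
      linarith
    · rw [abs_of_nonpos h4]
      linarith
  calc phi a * (tentE ε (p - a) * tentE ε (p' - a))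
      ≤ (Real.exp (3 * ε / 4) * (Real.exp (-(|a| / 4)) * Real.exp (-((p + p') / 8)))) *
        (ε⁻¹ * ε⁻¹) := by
        apply mul_le_mul h3
        · exact mul_le_mul (tentE_le ε hε _) (tentE_le ε hε _) (tentE_nonneg ε hε _)
            (inv_nonneg.mpr hε.le)
        · exact mul_nonneg (tentE_nonneg ε hε _) (tentE_nonneg ε hε _)
        · positivity
    _ = _ := by ring

private theorem gl_prod {F ι : Type} [Fintype F] [Fintype ι] (M : F → ι → ℕ)
    {m : ℕ} (lab : F ≃ Fin m × Bool) (ε : ℝ) (a : Fin m → ℝ) (x : ι → ℝ) :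
    (∏ c, phi (a c)) * ∏ f, tentE ε (row M f x - a (lab f).1) =
      ∏ c : Fin m, phi (a c) * (tentE ε (row M (lab.symm (c, false)) x - a c) *
        tentE ε (row M (lab.symm (c, true)) x - a c)) := by
  have h1 : ∏ f, tentE ε (row M f x - a (lab f).1) =
      ∏ q : Fin m × Bool, tentE ε (row M (lab.symm q) x - a q.1) := by
    rw [← Equiv.prod_comp lab]
    apply Finset.prod_congr rfl
    intro j _
    rw [Equiv.symm_apply_apply]
  rw [h1, Fintype.prod_prod_type, ← Finset.prod_mul_distrib]
  apply Finset.prod_congr rfl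
  intro c _
  rw [Fintype.prod_bool]
  ring

private theorem gl_sum {F ι : Type} [Fintype F] [Fintype ι] (M : F → ι → ℕ)
    (hM : ∀ e, ∑ f, M f e = 2) {m : ℕ} (lab : F ≃ Fin m × Bool) (x : ι → ℝ) :
    ∑ c : Fin m, (row M (lab.symm (c, false)) x + row M (lab.symm (c, true)) x) =
      2 * ∑ e, x e := by
  rw [← sum_row M hM x]
  have h1 : ∑ f, row M f x = ∑ q : Fin m × Bool, row M (lab.symm q) x := by
    rw [← Equiv.sum_comp lab]
    apply Finset.sum_congr rfl
    intro j _
    rw [Equiv.symm_apply_apply]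
  rw [h1, Fintype.sum_prod_type]
  apply Finset.sum_congr rfl
  intro c _
  rw [Fintype.sum_bool]
  ring

private theorem gl_int {F ι : Type} [Fintype F] [Fintype ι] (M : F → ι → ℕ)
    (hM : ∀ e, ∑ f, M f e = 2) {m : ℕ} (lab : F ≃ Fin m × Bool) (ε : ℝ) (hε : 0 < ε) :
    Integrable (Function.uncurry (fun (a : Fin m → ℝ) (x : ι → ℝ) =>
      (∏ c, phi (a c)) * ∏ f, tentE ε (row M f x - a (lab f).1)))
      ((volume : Measure (Fin m → ℝ)).prod
        ((volume : Measure (ι → ℝ)).restrict {x : ι → ℝ | ∀ e, 0 < x e})) := by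
  set C : ℝ := (ε⁻¹ * ε⁻¹ * Real.exp (3 * ε / 4)) ^ m with hC
  have hf : Integrable (fun a : Fin m → ℝ => C * ∏ c, Real.exp (-(|a c| / 4))) := by
    apply Integrable.const_mul
    exact Integrable.fintype_prod (f := fun (_ : Fin m) (a : ℝ) => Real.exp (-(|a| / 4)))
      (fun _ => gl_exp_int)
  have hg : IntegrableOn (fun x : ι → ℝ => Real.exp (-(∑ e, (1 / 4 : ℝ) * x e)))
      {x : ι → ℝ | ∀ e, 0 < x e} :=
    exp_orthant_integrable (fun _ => (1 / 4 : ℝ)) (fun _ => by norm_num)
  have hfg := hf.mul_prod hg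
  refine Integrable.mono' hfg ?_ ?_
  · apply Continuous.aestronglyMeasurable
    have h1 := tentE_continuous ε
    have h2 := phi_continuous
    have h3 : ∀ f, Continuous (row M f) := row_continuous M
    unfold Function.uncurry
    apply Continuous.mul
    · apply continuous_finsetProd
      intro c _
      exact h2.comp ((continuous_apply c).comp continuous_fst)
    · apply continuous_finsetProd
      intro f _
      exact h1.comp (((h3 f).comp continuous_snd).sub
        ((continuous_apply (lab f).1).comp continuous_fst))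
  · have hmeas : (volume : Measure (Fin m → ℝ)).prod
        ((volume : Measure (ι → ℝ)).restrict {x : ι → ℝ | ∀ e, 0 < x e}) =
        ((volume : Measure (Fin m → ℝ)).prod (volume : Measure (ι → ℝ))).restrict
          (Set.univ ×ˢ {x : ι → ℝ | ∀ e, 0 < x e}) := by
      rw [← Measure.prod_restrict, Measure.restrict_univ]
    rw [hmeas, ae_restrict_iff' (MeasurableSet.univ.prod (gl_meas ι))]
    refine Filter.Eventually.of_forall ?_
    rintro ⟨a, x⟩ hx
    have hx' : ∀ e, 0 < x e := hx.2
    have hrow : ∀ f, 0 ≤ row M f x := fun f => row_nonneg M f x fun e => (hx' e).le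
    show ‖(∏ c, phi (a c)) * ∏ f, tentE ε (row M f x - a (lab f).1)‖ ≤
      (C * ∏ c, Real.exp (-(|a c| / 4))) * Real.exp (-(∑ e, (1 / 4 : ℝ) * x e))
    rw [gl_prod, Real.norm_of_nonneg (Finset.prod_nonneg fun c _ => mul_nonneg (phi_pos _).le
      (mul_nonneg (tentE_nonneg ε hε _) (tentE_nonneg ε hε _)))]
    calc ∏ c : Fin m, phi (a c) * (tentE ε (row M (lab.symm (c, false)) x - a c) *
        tentE ε (row M (lab.symm (c, true)) x - a c))
        ≤ ∏ c : Fin m, (ε⁻¹ * ε⁻¹ * Real.exp (3 * ε / 4)) *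
          (Real.exp (-(|a c| / 4)) * Real.exp (-((row M (lab.symm (c, false)) x +
            row M (lab.symm (c, true)) x) / 8))) := by
          apply Finset.prod_le_prod
          · intro c _
            exact mul_nonneg (phi_pos _).le
              (mul_nonneg (tentE_nonneg ε hε _) (tentE_nonneg ε hε _))
          · intro c _
            exact gl_one ε hε _ _ _ (hrow _) (hrow _)
      _ = (C * ∏ c, Real.exp (-(|a c| / 4))) * Real.exp (-(∑ e, (1 / 4 : ℝ) * x e)) := by
          rw [Finset.prod_mul_distrib (f := fun _ : Fin m => ε⁻¹ * ε⁻¹ * Real.exp (3 * ε / 4)),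
            Finset.prod_const, Finset.card_univ, Fintype.card_fin, ← hC,
            Finset.prod_mul_distrib, ← Real.exp_sum (f := fun c : Fin m =>
              -((row M (lab.symm (c, false)) x + row M (lab.symm (c, true)) x) / 8)), mul_assoc]
          congr 3
          rw [Finset.sum_neg_distrib, ← Finset.sum_div, gl_sum M hM lab x, ← Finset.mul_sum]
          ring

private theorem gl_JM {F ι : Type} [Fintype F] [Fintype ι] (M : F → ι → ℕ)
    {m : ℕ} (lab : F ≃ Fin m × Bool) (ε : ℝ) (a : Fin m → ℝ) :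
    (∏ c, phi (a c)) * JM M (fun f p => tentE ε (p - a (lab f).1)) =
      ∫ x in {x : ι → ℝ | ∀ e, 0 < x e},
        (∏ c, phi (a c)) * ∏ f, tentE ε (row M f x - a (lab f).1) := by
  unfold JM
  rw [integral_const_mul]

theorem gaussL_integrable {F ι : Type} [Fintype F] [Fintype ι] (M : F → ι → ℕ)
    (hM : ∀ e, ∑ f, M f e = 2) {m : ℕ} (lab : F ≃ Fin m × Bool) (ε : ℝ) (hε : 0 < ε) :
    Integrable (fun a : Fin m → ℝ =>
      (∏ c, phi (a c)) * JM M (fun f p => tentE ε (p - a (lab f).1))) := by
  simp_rw [gl_JM]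
  exact (gl_int M hM lab ε hε).integral_prod_left

theorem gaussL {F ι : Type} [Fintype F] [Fintype ι] (M : F → ι → ℕ)
    (hM : ∀ e, ∑ f, M f e = 2) {m : ℕ} (lab : F ≃ Fin m × Bool) (ε : ℝ) (hε : 0 < ε) :
    ∫ a : Fin m → ℝ, (∏ c, phi (a c)) * JM M (fun f p => tentE ε (p - a (lab f).1)) =
      ∫ x in {x : ι → ℝ | ∀ e, 0 < x e},
        ∏ c : Fin m, kern ε (row M (lab.symm (c, false)) x) (row M (lab.symm (c, true)) x) := by
  simp_rw [gl_JM]
  rw [integral_integral_swap (gl_int M hM lab ε hε)]
  congr 1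
  funext x
  simp_rw [gl_prod]
  rw [integral_fintype_prod_volume_eq_prod (fun (c : Fin m) (a : ℝ) =>
    phi a * (tentE ε (row M (lab.symm (c, false)) x - a) *
        tentE ε (row M (lab.symm (c, true)) x - a)))]
  apply Finset.prod_congr rfl
  intro c _
  unfold kern
  congr 1
  funext b
  ring

end Pool.Agent.Helper12.MVP
end

/- Helper12.MVP.Sym -/
section
/-!
MV-P14. Pairings of a finite set `F` and bijections `F ≃ Fin m × Bool`.

Proofs. `prOf e f = e.symm (flip (e f))` is an involution without fixed points. For a pairing `β` of `F`, `|F| = 2m`, the set of `e` with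
`prOf e = β` has `2^m m!` elements: such `e` correspond to pairs (bijection `c : Fin m ≃ Cyc β` [there are `m` cycles, all of size 2],
choice of an element `e.symm (i, false)` of the cycle `c i` for every `i`): the number is `m! · 2^m`. (Alternatively: the group
`Perm (Fin m) × (Fin m → Bool)` acts simply transitively on the set.) If `|F| ≠ 2m` there is no bijection. `pairing_even`: a fixed point
free involution (e.g. from the count of cycles, or `Equiv.Perm` cycle type, or `Finset.card_involution`-like lemma,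
`Function.Involutive.card_fixedPoints`...).
`prod_prOf`: the cycles of `prOf e` correspond to `Fin m` (`c ↦ (e c.rep).1`, inverse `i ↦ cyc (e.symm (i,false))`), and for
`i = (e c.rep).1` the unordered pair `{c.rep, prOf e c.rep}` is `{e.symm (i,false), e.symm (i,true)}`; use the symmetry of `Φ`.
-/

namespace Pool.Agent.Helper12.MVP

open Finset Pool.Agent.Helper60.MV

theorem prOf_pairing {F : Type} {m : ℕ} (e : F ≃ Fin m × Bool) : IsPairing (prOf e) := by
  refine ⟨fun h => ?_, fun h hh => ?_⟩
  · show e.symm ((e (e.symm ((e h).1, !(e h).2))).1, !(e (e.symm ((e h).1, !(e h).2))).2) = h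
    simp
  · have h1 : e.symm ((e h).1, !(e h).2) = h := hh
    rw [Equiv.symm_apply_eq] at h1
    have h2 := congrArg Prod.snd h1
    simp only at h2
    cases h3 : (e h).2 <;> rw [h3] at h2 <;> simp at h2

theorem pairing_even {F : Type} [Fintype F] (β : Equiv.Perm F) (hβ : IsPairing β) :
    Even (Fintype.card F) := by
  have h : ∑ x ∈ (univ : Finset F), (1 : ZMod 2) = 0 := by
    refine Finset.sum_involution (fun a _ => β a) ?_ ?_ ?_ ?_
    · intro a _
      decide
    · intro a _ _
      exact hβ.fpf a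
    · intro a _
      exact mem_univ _
    · intro a _
      exact hβ.invol a
  rw [Finset.sum_const, Finset.card_univ, nsmul_eq_mul, mul_one] at h
  rw [ZMod.natCast_eq_zero_iff] at h
  exact even_iff_two_dvd.mpr h

private theorem cyc_rep_pv1 {H : Type} {g : Equiv.Perm H} (c : Cyc g) : cyc g c.rep = c :=
  Quotient.out_eq c

private theorem cyc_eq {H : Type} (g : Equiv.Perm H) (a b : H) :
    cyc g a = cyc g b ↔ g.SameCycle a b := by
  constructor
  · intro h
    exact Quotient.exact h
  · intro h
    exact Quotient.sound h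

private theorem cyc_pairing {H : Type} {β : Equiv.Perm H} (hβ : IsPairing β) (a b : H) :
    cyc β a = cyc β b ↔ b = a ∨ b = β a := by
  rw [cyc_eq]
  constructor
  · rintro ⟨i, hi⟩
    have h2 : β * β = 1 := Equiv.ext fun h => hβ.invol h
    rcases Int.even_or_odd i with ⟨k, hk⟩ | ⟨k, hk⟩
    · left
      rw [hk, ← two_mul, zpow_mul] at hi
      have h3 : β ^ (2 : ℤ) = 1 := by
        rw [zpow_two]
        exact h2
      rw [h3, one_zpow] at hi
      exact hi.symm
    · right
      rw [hk, zpow_add, zpow_mul, zpow_one] at hi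
      have h3 : β ^ (2 : ℤ) = 1 := by
        rw [zpow_two]
        exact h2
      rw [h3, one_zpow, one_mul] at hi
      exact hi.symm
  · rintro (h | h)
    · rw [h]
    · exact ⟨1, by rw [zpow_one]; exact h.symm⟩

/-- a set with a pairing is a product with `Bool` -/
private noncomputable def baseE {F : Type} [DecidableEq F] {β : Equiv.Perm F}
    (hβ : IsPairing β) : F ≃ Cyc β × Bool where
  toFun f := (cyc β f, if f = (cyc β f).rep then false else true)
  invFun x := if x.2 then β x.1.rep else x.1.rep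
  left_inv f := by
    by_cases h : f = (cyc β f).rep
    · simp only [if_pos h]
      exact h.symm
    · simp only [if_neg h, if_true]
      have h1 := (cyc_pairing hβ (cyc β f).rep f).1 (cyc_rep_pv1 _)
      rcases h1 with h1 | h1
      · exact absurd h1 h
      · exact h1.symm
  right_inv x := by
    obtain ⟨c, b⟩ := x
    cases b
    · have h1 : cyc β c.rep = c := cyc_rep_pv1 c
      simp [h1]
    · have h1 : cyc β (β c.rep) = c := by
        have := (cyc_pairing hβ c.rep (β c.rep)).2 (Or.inr rfl)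
        rw [← this]
        exact cyc_rep_pv1 c
      have h2 : β c.rep ≠ c.rep := hβ.fpf _
      simp [h1, h2]

private theorem baseE_apply {F : Type} [DecidableEq F] {β : Equiv.Perm F}
    (hβ : IsPairing β) (f : F) :
    baseE hβ (β f) = ((baseE hβ f).1, !(baseE hβ f).2) := by
  have h0 : cyc β (β f) = cyc β f := ((cyc_pairing hβ f (β f)).2 (Or.inr rfl)).symm
  have h1 := (cyc_pairing hβ (cyc β f).rep f).1 (cyc_rep_pv1 _)
  show (cyc β (β f), if β f = (cyc β (β f)).rep then false else true)
    = (cyc β f, !(if f = (cyc β f).rep then false else true))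
  rw [h0]
  rcases h1 with h1 | h1
  · have h2 : β f ≠ (cyc β f).rep := by
      rw [← h1]
      exact hβ.fpf f
    rw [if_neg h2, if_pos h1]
    rfl
  · have h2 : f ≠ (cyc β f).rep := by
      intro h3
      have h4 := h1
      rw [← h3] at h4
      exact hβ.fpf f h4.symm
    have h3 : β f = (cyc β f).rep := by
      have := congrArg β h1
      rw [hβ.invol] at this
      exact this
    rw [if_pos h3, if_neg h2]
    rfl

/-- the equivalences commuting with the flips -/
private def flipE {Q : Type} {m : ℕ} :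
    {g : Q × Bool ≃ Fin m × Bool // ∀ x, g (x.1, !x.2) = ((g x).1, !(g x).2)} ≃
      (Q ≃ Fin m) × (Q → Bool) where
  toFun g := ({ toFun := fun q => (g.1 (q, false)).1
                invFun := fun i => (g.1.symm (i, false)).1
                left_inv := fun q => by
                  show (g.1.symm ((g.1 (q, false)).1, false)).1 = q
                  cases h : (g.1 (q, false)).2
                  · have h1 : g.1.symm ((g.1 (q, false)).1, false) = (q, false) := by
                      rw [Equiv.symm_apply_eq]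
                      exact Prod.ext rfl h.symm
                    rw [h1]
                  · have h1 : g.1.symm ((g.1 (q, false)).1, false) = (q, true) := by
                      rw [Equiv.symm_apply_eq]
                      have h2 := g.2 (q, false)
                      simp only [Bool.not_false, h, Bool.not_true] at h2
                      exact h2.symm
                    rw [h1]
                right_inv := fun i => by
                  show (g.1 ((g.1.symm (i, false)).1, false)).1 = i
                  cases h : (g.1.symm (i, false)).2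
                  · have h1 : ((g.1.symm (i, false)).1, false) = g.1.symm (i, false) :=
                      Prod.ext rfl h.symm
                    rw [h1, Equiv.apply_symm_apply]
                  · have h2 := g.2 (g.1.symm (i, false))
                    rw [h, Equiv.apply_symm_apply] at h2
                    simp only [Bool.not_true] at h2
                    rw [h2] },
              fun q => (g.1 (q, false)).2)
  invFun p := ⟨{ toFun := fun x => (p.1 x.1, xor x.2 (p.2 x.1))
                 invFun := fun y => (p.1.symm y.1, xor y.2 (p.2 (p.1.symm y.1)))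
                 left_inv := fun x => by
                   refine Prod.ext ?_ ?_
                   · simp
                   · simp
                 right_inv := fun y => by
                   refine Prod.ext ?_ ?_
                   · simp
                   · simp }, fun x => by
                refine Prod.ext rfl ?_
                show xor (!x.2) (p.2 x.1) = !(xor x.2 (p.2 x.1))
                cases x.2 <;> cases p.2 x.1 <;> rfl⟩
  left_inv g := by
    apply Subtype.ext
    apply Equiv.ext
    rintro ⟨q, b⟩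
    cases b
    · show ((g.1 (q, false)).1, xor false (g.1 (q, false)).2) = g.1 (q, false)
      simp
    · show ((g.1 (q, false)).1, xor true (g.1 (q, false)).2) = g.1 (q, true)
      have h2 := g.2 (q, false)
      simp only [Bool.not_false] at h2
      rw [h2]
      simp
  right_inv p := by
    refine Prod.ext ?_ ?_
    · apply Equiv.ext
      intro q
      rfl
    · funext q
      show xor false (p.2 q) = p.2 q
      simp

private theorem prOf_eq_iff {F : Type} [DecidableEq F] {m : ℕ} {β : Equiv.Perm F}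
    (hβ : IsPairing β) (e : F ≃ Fin m × Bool) :
    prOf e = β ↔ ∀ x : Cyc β × Bool, ((baseE hβ).symm.trans e) (x.1, !x.2)
      = ((((baseE hβ).symm.trans e) x).1, !(((baseE hβ).symm.trans e) x).2) := by
  have hb : ∀ x : Cyc β × Bool, (baseE hβ).symm (x.1, !x.2) = β ((baseE hβ).symm x) := by
    intro x
    rw [Equiv.symm_apply_eq, baseE_apply, Equiv.apply_symm_apply]
  constructor
  · intro h x
    rw [Equiv.trans_apply, Equiv.trans_apply, hb]
    have h1 := Equiv.congr_fun h ((baseE hβ).symm x)
    rw [← h1]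
    show e (e.symm _) = _
    rw [Equiv.apply_symm_apply]
  · intro h
    apply Equiv.ext
    intro f
    have h1 := h (baseE hβ f)
    rw [Equiv.trans_apply, Equiv.trans_apply, hb, Equiv.symm_apply_apply] at h1
    show e.symm ((e f).1, !(e f).2) = β f
    rw [Equiv.symm_apply_eq, h1]

theorem prOf_count {F : Type} [Fintype F] [DecidableEq F] {m : ℕ} (hm : Fintype.card F = 2 * m)
    (β : Equiv.Perm F) (hβ : IsPairing β) :
    (univ.filter (fun e : F ≃ Fin m × Bool => prOf e = β)).card = 2 ^ m * m.factorial := by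
  classical
  have hQ : Fintype.card (Cyc β) = m := by
    have h1 := Fintype.card_congr (baseE hβ)
    rw [Fintype.card_prod, Fintype.card_bool] at h1
    omega
  have h1 : (univ.filter (fun e : F ≃ Fin m × Bool => prOf e = β)).card
      = Nat.card {e : F ≃ Fin m × Bool // prOf e = β} := by
    rw [Nat.card_eq_fintype_card, Fintype.card_subtype]
  rw [h1]
  let Ψ : {e : F ≃ Fin m × Bool // prOf e = β} ≃
      {g : Cyc β × Bool ≃ Fin m × Bool // ∀ x, g (x.1, !x.2) = ((g x).1, !(g x).2)} :=
    { toFun := fun e => ⟨(baseE hβ).symm.trans e.1, (prOf_eq_iff hβ e.1).1 e.2⟩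
      invFun := fun g => ⟨(baseE hβ).trans g.1, (prOf_eq_iff hβ _).2 (by
        have h2 : (baseE hβ).symm.trans ((baseE hβ).trans g.1) = g.1 := by
          apply Equiv.ext
          intro x
          simp
        rw [h2]
        exact g.2)⟩
      left_inv := fun e => by
        apply Subtype.ext
        apply Equiv.ext
        intro x
        simp
      right_inv := fun g => by
        apply Subtype.ext
        apply Equiv.ext
        intro x
        simp }
  rw [Nat.card_congr (Ψ.trans flipE), Nat.card_prod, Nat.card_eq_fintype_card,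
    Nat.card_eq_fintype_card, Fintype.card_fun, Fintype.card_bool, hQ]
  have h3 : Fintype.card (Cyc β ≃ Fin m) = m.factorial := by
    rw [Fintype.card_equiv (Fintype.equivFinOfCardEq hQ), hQ]
  rw [h3, mul_comm]

theorem sum_prOf {F : Type} [Fintype F] [DecidableEq F] (m : ℕ) (T : Prg F → ℝ) :
    ∑ e : F ≃ Fin m × Bool, T ⟨prOf e, prOf_pairing e⟩ =
      if Fintype.card F = 2 * m then (2 ^ m * m.factorial : ℝ) * ∑ β : Prg F, T β else 0 := by
  classical
  split_ifs with h
  · rw [← Finset.sum_fiberwise (univ : Finset (F ≃ Fin m × Bool))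
      (fun e => (⟨prOf e, prOf_pairing e⟩ : Prg F)), Finset.mul_sum]
    refine Finset.sum_congr rfl fun β _ => ?_
    have h1 : ∀ e ∈ univ.filter (fun e : F ≃ Fin m × Bool =>
        (⟨prOf e, prOf_pairing e⟩ : Prg F) = β), T ⟨prOf e, prOf_pairing e⟩ = T β := by
      intro e he
      rw [(Finset.mem_filter.1 he).2]
    rw [Finset.sum_congr rfl h1, Finset.sum_const, nsmul_eq_mul]
    have h2 : univ.filter (fun e : F ≃ Fin m × Bool =>
        (⟨prOf e, prOf_pairing e⟩ : Prg F) = β)
        = univ.filter (fun e : F ≃ Fin m × Bool => prOf e = β.1) := by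
      refine Finset.filter_congr fun e _ => ?_
      constructor
      · intro h3
        exact congrArg Subtype.val h3
      · intro h3
        exact Subtype.ext h3
    rw [h2, prOf_count h β.1 β.2]
    push_cast
    ring
  · haveI : IsEmpty (F ≃ Fin m × Bool) := by
      refine ⟨fun e => h ?_⟩
      have h1 := Fintype.card_congr e
      rw [Fintype.card_prod, Fintype.card_bool, Fintype.card_fin] at h1
      omega
    rw [Fintype.sum_empty]

theorem prod_prOf {F : Type} [Fintype F] [DecidableEq F] {m : ℕ} (e : F ≃ Fin m × Bool)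
    (Φ : F → F → ℝ) (hs : ∀ a b, Φ a b = Φ b a) :
    ∏ c : Cyc (prOf e), Φ c.rep (prOf e c.rep) =
      ∏ c : Fin m, Φ (e.symm (c, false)) (e.symm (c, true)) := by
  classical
  have hp := prOf_pairing e
  have h1 : ∀ f, (e (prOf e f)).1 = (e f).1 := by
    intro f
    show (e (e.symm ((e f).1, !(e f).2))).1 = (e f).1
    rw [Equiv.apply_symm_apply]
  refine Fintype.prod_bijective (fun c : Cyc (prOf e) => (e c.rep).1) ⟨?_, ?_⟩ _ _ ?_
  · intro c c' hcc
    have hcc' : (e c.rep).1 = (e c'.rep).1 := hcc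
    rw [← cyc_rep_pv1 c, ← cyc_rep_pv1 c', cyc_pairing hp]
    by_cases h2 : (e c.rep).2 = (e c'.rep).2
    · left
      exact (e.injective (Prod.ext hcc' h2)).symm
    · right
      show c'.rep = e.symm ((e c.rep).1, !(e c.rep).2)
      rw [Equiv.eq_symm_apply]
      refine Prod.ext hcc'.symm ?_
      show (e c'.rep).2 = !(e c.rep).2
      revert h2
      cases (e c.rep).2 <;> cases (e c'.rep).2 <;> simp
  · intro i
    refine ⟨cyc (prOf e) (e.symm (i, false)), ?_⟩
    show (e (cyc (prOf e) (e.symm (i, false))).rep).1 = i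
    have h2 := cyc_rep_pv1 (cyc (prOf e) (e.symm (i, false)))
    rw [cyc_pairing hp] at h2
    rcases h2 with h2 | h2
    · rw [← h2, Equiv.apply_symm_apply]
    · have h3 := h1 (cyc (prOf e) (e.symm (i, false))).rep
      rw [← h2, Equiv.apply_symm_apply] at h3
      exact h3.symm
  · intro c
    show Φ c.rep (prOf e c.rep) = Φ (e.symm ((e c.rep).1, false)) (e.symm ((e c.rep).1, true))
    have h2 : prOf e c.rep = e.symm ((e c.rep).1, !(e c.rep).2) := rfl
    have h3 : c.rep = e.symm ((e c.rep).1, (e c.rep).2) := by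
      rw [Prod.mk.eta, Equiv.symm_apply_apply]
    cases h4 : (e c.rep).2
    · rw [h4] at h2 h3
      rw [h2]
      nth_rewrite 1 [h3]
      rfl
    · rw [h4] at h2 h3
      rw [h2, hs]
      nth_rewrite 2 [h3]
      rfl

end Pool.Agent.Helper12.MVP
end

/- Helper12.MVP.Haf -/
section
/-!
MV-P15. The Hafnian as a sum over bijections with `Fin m × Bool`.

Proofs. `hfL_odd`, `hfL_tendsto`: strong induction on the length through the recursion of `hfL` (unfold with `hfL`/`rw [hfL]`; the list
`xs.eraseIdx j` has length `xs.length - 1`).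
`hfL_sum`, `A` symmetric: write `S(F, Φ) = ∑_{e : F ≃ Fin m × Bool} ∏_c Φ (e.symm (c,false)) (e.symm (c,true))` for a finite type `F`.
Recursion: if `|F| = 2(m+1)` and `f0 ∈ F` then `S(F, Φ) = 2 (m+1) ∑_{f ≠ f0} Φ f0 f · S({x // x ≠ f0 ∧ x ≠ f}, Φ)`: split by
`e f0 = (c0,b0)` (`2(m+1)` choices, all with the same sum by symmetry: compose `e` with a permutation of `Fin (m+1)` and a flip) and
`f = e.symm (c0, !b0)`; the rest is a bijection `F∖{f0,f} ≃ (Fin (m+1)∖{c0}) × Bool ≃ Fin m × Bool`. For `F = Fin (x :: xs).length`,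
`f0 = 0`, `f = j+1`: the remaining positions correspond to the positions of `xs.eraseIdx j` compatibly with `get`
(`List.get_eraseIdx`/`List.getElem_eraseIdx`), and `hfL A (x::xs) = ∑_j A x (xs.get j) hfL A (xs.eraseIdx j)`. By induction
`S = 2 (m+1) ∑_j A x (xs.get j) · 2^m m! hfL A (xs.eraseIdx j) = 2^{m+1} (m+1)! hfL A (x::xs)`. It may be convenient to prove
first a general invariance lemma: `S` for `F` and `S` for `F'` agree along an equivalence `F ≃ F'` compatible with `Φ`. If
`L.length ≠ 2 m` there is no equivalence.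
-/

namespace Pool.Agent.Helper12.MVP

open Finset Filter Topology Pool.Agent.Helper60.MV

theorem hfL_odd (A : ℕ → ℕ → ℝ) (L : List ℕ) (h : Odd L.length) : hfL A L = 0 := by
  induction hn : L.length using Nat.strong_induction_on generalizing L with
  | _ n ih =>
    match L, h, hn with
    | [], h, _ => simp at h
    | x :: xs, h, hn =>
      rw [hfL]
      apply Finset.sum_eq_zero
      intro j _
      have hj := j.2
      have h1 : (xs.eraseIdx j).length = xs.length - 1 := List.length_eraseIdx_of_lt hj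
      simp only [List.length_cons] at h hn
      rw [ih (xs.eraseIdx j).length (by omega) (xs.eraseIdx j) (by
        rw [h1]
        obtain ⟨k, hk⟩ := h
        refine ⟨k - 1, ?_⟩
        omega) rfl, mul_zero]

theorem hfL_tendsto {X : Type} (l : Filter X) (A : X → ℕ → ℕ → ℝ) (B : ℕ → ℕ → ℝ)
    (h : ∀ i j, Tendsto (fun x => A x i j) l (𝓝 (B i j))) (L : List ℕ) :
    Tendsto (fun x => hfL (A x) L) l (𝓝 (hfL B L)) := by
  induction hn : L.length using Nat.strong_induction_on generalizing L with
  | _ n ih =>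
    match L, hn with
    | [], _ =>
      simp only [hfL]
      exact tendsto_const_nhds
    | y :: ys, hn =>
      simp only [hfL]
      apply tendsto_finsetSum
      intro j _
      have hj := j.2
      have h1 : (ys.eraseIdx j).length = ys.length - 1 := List.length_eraseIdx_of_lt hj
      simp only [List.length_cons] at hn
      exact (h _ _).mul (ih (ys.eraseIdx j).length (by omega) (ys.eraseIdx j) rfl)

namespace Haf

/-- summand -/
noncomputable def w {n : ℕ} (A : ℕ → ℕ → ℝ) (m : ℕ) (g : Fin n → ℕ) (e : Fin n ≃ Fin m × Bool) : ℝ :=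
  ∏ c : Fin m, A (g (e.symm (c, false))) (g (e.symm (c, true)))

/-- permutation of the target moving `(0, false)` to `(c0, b0)` -/
def pi {m : ℕ} (p : Fin (m + 1) × Bool) : Equiv.Perm (Fin (m + 1) × Bool) where
  toFun q := (Equiv.swap 0 p.1 q.1, if q.1 = 0 then xor q.2 p.2 else q.2)
  invFun q := (Equiv.swap 0 p.1 q.1, if Equiv.swap 0 p.1 q.1 = 0 then xor q.2 p.2 else q.2)
  left_inv q := by
    obtain ⟨c, b⟩ := q
    by_cases h : c = 0 <;> simp [h]
  right_inv q := by
    obtain ⟨c, b⟩ := q
    by_cases h : Equiv.swap 0 p.1 c = 0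
    · have h2 : c = p.1 := by
        have h3 := (Equiv.swap_apply_eq_iff).1 h
        rw [h3, Equiv.swap_apply_left]
      simp [h2]
    · simp [h]

lemma w_pi {n m : ℕ} (A : ℕ → ℕ → ℝ) (hs : ∀ i j, A i j = A j i) (g : Fin n → ℕ)
    (e : Fin n ≃ Fin (m + 1) × Bool) (p : Fin (m + 1) × Bool) :
    w A (m + 1) g (e.trans (pi p)) = w A (m + 1) g e := by
  unfold w
  refine Fintype.prod_equiv (Equiv.swap 0 p.1) _ _ fun c => ?_
  have h1 : ∀ b, (e.trans (pi p)).symm (c, b) =
      e.symm (Equiv.swap 0 p.1 c, if Equiv.swap 0 p.1 c = 0 then xor b p.2 else b) := fun b => rfl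
  rw [h1, h1]
  by_cases h : Equiv.swap 0 p.1 c = 0
  · rw [if_pos h, if_pos h]
    cases p.2
    · simp
    · simp only [Bool.xor_true, Bool.not_false, Bool.not_true]
      rw [hs]
  · rw [if_neg h, if_neg h]

/-- `Option (Option (Fin m × Bool)) ≃ Fin (m+1) × Bool` -/
def T (m : ℕ) : Option (Option (Fin m × Bool)) ≃ Fin (m + 1) × Bool where
  toFun
    | none => (0, false)
    | some none => (0, true)
    | some (some (c, b)) => (c.succ, b)
  invFun q := Fin.cases (if q.2 then some none else none) (fun c => some (some (c, q.2))) q.1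
  left_inv q := by
    rcases q with _ | _ | ⟨c, b⟩ <;> simp
  right_inv q := by
    obtain ⟨c, b⟩ := q
    refine Fin.cases ?_ (fun c => ?_) c
    · cases b <;> simp
    · simp

/-- decomposition of the source -/
def D (n : ℕ) (j : Fin (n + 1)) : Fin (n + 2) ≃ Option (Option (Fin n)) :=
  (finSuccEquiv' 0).trans (Equiv.optionCongr (finSuccEquiv' j))

def base {n m : ℕ} (j : Fin (n + 1)) (e : Fin n ≃ Fin m × Bool) : Fin (n + 2) ≃ Fin (m + 1) × Bool :=
  (D n j).trans ((Equiv.optionCongr (Equiv.optionCongr e)).trans (T m))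

lemma base_symm {n m : ℕ} (j : Fin (n + 1)) (e : Fin n ≃ Fin m × Bool) (q : Fin (m + 1) × Bool) :
    (base j e).symm q = (finSuccEquiv' (0 : Fin (n + 2))).symm
      (((T m).symm q).map (fun r => (finSuccEquiv' j).symm (r.map e.symm))) := by
  have h1 : (base j e).symm q = (finSuccEquiv' (0 : Fin (n + 2))).symm
      ((((T m).symm q).map (Option.map e.symm)).map ((finSuccEquiv' j).symm)) := rfl
  rw [h1, Option.map_map]
  rfl

lemma base_symm_zero_false {n m : ℕ} (j : Fin (n + 1)) (e : Fin n ≃ Fin m × Bool) :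
    (base j e).symm (0, false) = 0 := by
  simp [base_symm, T]

lemma base_symm_zero_true {n m : ℕ} (j : Fin (n + 1)) (e : Fin n ≃ Fin m × Bool) :
    (base j e).symm (0, true) = j.succ := by
  simp [base_symm, T]

lemma base_symm_succ {n m : ℕ} (j : Fin (n + 1)) (e : Fin n ≃ Fin m × Bool) (c : Fin m) (b : Bool) :
    (base j e).symm (c.succ, b) = (j.succAbove (e.symm (c, b))).succ := by
  simp [base_symm, T]

lemma w_base {n m : ℕ} (A : ℕ → ℕ → ℝ) (g : Fin (n + 2) → ℕ) (j : Fin (n + 1))
    (e : Fin n ≃ Fin m × Bool) :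
    w A (m + 1) g (base j e) = A (g 0) (g j.succ) * w A m (fun k => g (j.succAbove k).succ) e := by
  unfold w
  rw [Fin.prod_univ_succ, base_symm_zero_false, base_symm_zero_true]
  simp only [base_symm_succ]

/-- the parametrisation -/
def Psi {n m : ℕ} (q : (Fin (m + 1) × Bool) × Fin (n + 1) × (Fin n ≃ Fin m × Bool)) :
    Fin (n + 2) ≃ Fin (m + 1) × Bool := (base q.2.1 q.2.2).trans (pi q.1)

lemma Psi_inj {n m : ℕ} : Function.Injective (Psi (n := n) (m := m)) := by
  rintro ⟨p, j, e⟩ ⟨p', j', e'⟩ h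
  have h0 : p = p' := by
    have h1 := congrArg (fun f => f 0) h
    have h2 : ∀ (p : Fin (m + 1) × Bool) (j : Fin (n + 1)) (e : Fin n ≃ Fin m × Bool),
        (Psi (p, j, e)) 0 = p := by
      intro p j e
      have h3 : (base j e) 0 = (0, false) := by
        rw [← base_symm_zero_false j e, Equiv.apply_symm_apply]
      simp [Psi, h3, pi]
    simpa only [h2] using h1
  subst h0
  have h1 : base j e = base j' e' := by
    have h2 := congrArg (fun f => f.trans (pi p).symm) h
    simpa [Psi, Equiv.trans_assoc] using h2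
  have h2 : j = j' := by
    have h3 := congrArg (fun f => f.symm (0, true)) h1
    simp only [base_symm_zero_true] at h3
    exact Fin.succ_injective _ h3
  subst h2
  have h3 : e = e' := by
    apply Equiv.symm_bijective.injective
    ext1 ⟨c, b⟩
    have h4 := congrArg (fun f => f.symm (c.succ, b)) h1
    simp only [base_symm_succ] at h4
    exact Fin.succAbove_right_injective (Fin.succ_injective _ h4)
  rw [h3]

lemma Psi_bij {n m : ℕ} (hn : n = 2 * m) : Function.Bijective (Psi (n := n) (m := m)) := by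
  rw [Fintype.bijective_iff_injective_and_card]
  refine ⟨Psi_inj, ?_⟩
  have e1 : Fin n ≃ Fin m × Bool := Fintype.equivOfCardEq (by simp [hn]; ring)
  have e2 : Fin (n + 2) ≃ Fin (m + 1) × Bool := Fintype.equivOfCardEq (by simp [hn]; ring)
  have c1 : Fintype.card (Fin n ≃ Fin m × Bool) = n.factorial := by
    rw [Fintype.card_equiv e1, Fintype.card_fin]
  have c2 : Fintype.card (Fin (n + 2) ≃ Fin (m + 1) × Bool) = (n + 2).factorial := by
    rw [Fintype.card_equiv e2, Fintype.card_fin]
  simp only [Fintype.card_prod, c1, c2, Fintype.card_fin, Fintype.card_bool, Nat.factorial_succ]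
  subst hn
  ring

lemma rec_S {n m : ℕ} (hn : n = 2 * m) (A : ℕ → ℕ → ℝ) (hs : ∀ i j, A i j = A j i)
    (g : Fin (n + 2) → ℕ) :
    ∑ e : Fin (n + 2) ≃ Fin (m + 1) × Bool, w A (m + 1) g e =
      2 * (m + 1) * ∑ j : Fin (n + 1), A (g 0) (g j.succ) *
        ∑ e : Fin n ≃ Fin m × Bool, w A m (fun k => g (j.succAbove k).succ) e := by
  have h1 : ∑ e : Fin (n + 2) ≃ Fin (m + 1) × Bool, w A (m + 1) g e =
      ∑ q : (Fin (m + 1) × Bool) × Fin (n + 1) × (Fin n ≃ Fin m × Bool), w A (m + 1) g (Psi q) :=
    ((Psi_bij hn).sum_comp (fun e => w A (m + 1) g e)).symm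
  rw [h1, Fintype.sum_prod_type]
  have h2 : ∀ p : Fin (m + 1) × Bool, ∑ q : Fin (n + 1) × (Fin n ≃ Fin m × Bool),
      w A (m + 1) g (Psi (p, q)) = ∑ j : Fin (n + 1), A (g 0) (g j.succ) *
        ∑ e : Fin n ≃ Fin m × Bool, w A m (fun k => g (j.succAbove k).succ) e := by
    intro p
    rw [Fintype.sum_prod_type]
    refine Finset.sum_congr rfl fun j _ => ?_
    rw [Finset.mul_sum]
    refine Finset.sum_congr rfl fun e _ => ?_
    rw [Psi, w_pi A hs, w_base]
  simp only [h2, Finset.sum_const, Finset.card_univ, Fintype.card_prod, Fintype.card_fin,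
    Fintype.card_bool, nsmul_eq_mul]
  push_cast
  ring

/-- the statement for a list `L` of length `n = 2 m` and `g : Fin n → ℕ` listing it -/
lemma main (A : ℕ → ℕ → ℝ) (hs : ∀ i j, A i j = A j i) (m : ℕ) :
    ∀ (L : List ℕ) (n : ℕ) (_ : n = 2 * m) (hL : L.length = n) (g : Fin n → ℕ)
      (_ : ∀ k : Fin n, g k = L.get (k.cast hL.symm)),
      ∑ e : Fin n ≃ Fin m × Bool, w A m g e = (2 ^ m * m.factorial : ℝ) * hfL A L := by
  induction m with
  | zero =>
    intro L n hn hL g hg
    subst hn
    have h0 : L = [] := List.eq_nil_of_length_eq_zero hL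
    subst h0
    have h1 : Fintype.card (Fin (2 * 0) ≃ Fin 0 × Bool) = 1 := by
      rw [Fintype.card_equiv (Fintype.equivOfCardEq (by simp))]
      simp
    simp only [w, Finset.univ_eq_empty, Finset.prod_empty, Finset.sum_const, Finset.card_univ, h1]
    simp [hfL]
  | succ m ih =>
    intro L n hn hL g hg
    obtain ⟨n', rfl⟩ : ∃ n', n = n' + 2 := ⟨2 * m, by omega⟩
    have hn' : n' = 2 * m := by omega
    match L, hL, hg with
    | [], hL, _ => simp at hL
    | x :: xs, hL, hg =>
      have hxs : xs.length = n' + 1 := by simpa using hL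
      rw [rec_S hn' A hs g, hfL]
      have hg0 : g 0 = x := by rw [hg]; rfl
      have hgs : ∀ j : Fin (n' + 1), g j.succ = xs.get (j.cast hxs.symm) := by
        intro j
        rw [hg]
        rfl
      have key : ∀ j : Fin (n' + 1),
          ∑ e : Fin n' ≃ Fin m × Bool, w A m (fun k => g (j.succAbove k).succ) e =
            (2 ^ m * m.factorial : ℝ) * hfL A (xs.eraseIdx j) := by
        intro j
        have hl : (xs.eraseIdx j).length = n' := by
          rw [List.length_eraseIdx_of_lt (by omega), hxs]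
          rfl
        refine ih (xs.eraseIdx j) n' hn' hl _ fun k => ?_
        rw [hgs]
        simp only [List.get_eq_getElem, Fin.val_cast, List.getElem_eraseIdx, Fin.succAbove,
          Fin.lt_def, Fin.val_castSucc]
        by_cases h : (k : ℕ) < j
        · simp [h]
        · simp [h]
      rw [← Equiv.sum_comp (finCongr hxs.symm)]
      simp only [key]
      simp only [hg0, hgs]
      rw [Finset.mul_sum, Finset.mul_sum]
      refine Finset.sum_congr rfl fun j _ => ?_
      simp only [finCongr_apply, Fin.val_cast]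
      rw [Nat.factorial_succ]
      push_cast
      ring

end Haf

theorem hfL_sum (A : ℕ → ℕ → ℝ) (hs : ∀ i j, A i j = A j i) (L : List ℕ) (m : ℕ) :
    ∑ e : Fin L.length ≃ Fin m × Bool,
      ∏ c : Fin m, A (L.get (e.symm (c, false))) (L.get (e.symm (c, true))) =
      if L.length = 2 * m then (2 ^ m * m.factorial : ℝ) * hfL A L else 0 := by
  split_ifs with h
  · exact Haf.main A hs m L L.length h rfl L.get fun k => rfl
  · have : IsEmpty (Fin L.length ≃ Fin m × Bool) := by
      constructor
      intro e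
      apply h
      have := Fintype.card_congr e
      simp at this
      omega
    rw [Finset.univ_eq_empty, Finset.sum_empty]

end Pool.Agent.Helper12.MVP
end

/- Helper12.MVP.Main -/
section
/-!
MV-P16. Assembly of block P.

`level`: for each `m`, multiply `bij_all` (`α = Fin m × Bool`, `g (c,b) = tentE ε (· - a_c)`, `r = ε + ∑ |a_c|`) by `∏ phi (a_c)` and
integrate over `a`: left `∑_τ ∑_{lab : Face ≃ Fin m × Bool} ∫_x ∏_c kern ..` (`gaussL`), by `prod_prOf`, `sum_prOf` it is `2^m m!` times the
sum over the configurations with `2m` faces; right by `gaussR` and `hfL_sum` `2^m m!` times the sum over the monomials of degree `2m` of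
`coeff · hfL (Ce ε)`. `ZZ_formula`: sum over `m`.
-/

namespace Pool.Agent.Helper12.MVP

open Finset MeasureTheory Filter Topology Pool.Agent.Helper60.MV

theorem A_eq {H : Type} [Fintype H] {σ : Equiv.Perm H} (R : Conf σ) (ε : ℝ) :
    R.A ε 0 = ∫ x in {x : Cyc R.τ → ℝ | ∀ e, 0 < x e},
      ∏ c : Cyc R.β, kern ε (row (MT σ R.τ) c.rep x) (row (MT σ R.τ) (R.β c.rep) x) := by
  unfold Conf.A AM
  apply integral_congr_ae
  refine Filter.Eventually.of_forall (fun x => ?_)
  refine Finset.prod_congr rfl (fun c _ => ?_)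
  have h0 : ∀ b, (∑ e, (R.P c b e : ℝ) * x e + (0 : R.Face → ℝ) (R.cface c b)) =
      row (MT σ R.τ) (R.cface c b) x := by
    intro b
    simp only [Pi.zero_apply, add_zero]
    rfl
  simp only [h0]
  rfl

/-- configurations as pairs -/
def confEquiv {H : Type} (σ : Equiv.Perm H) :
    Conf σ ≃ Σ τ : Prg H, Prg (Cyc (σ * τ.1)) where
  toFun R := ⟨⟨R.τ, R.hτ⟩, ⟨R.β, R.hβ⟩⟩
  invFun p := ⟨p.1.1, p.1.2, p.2.1, p.2.2⟩
  left_inv _ := rfl
  right_inv _ := rfl

/-- the volume of a pairing `β` of the faces of `τ` -/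
noncomputable def vol {H : Type} [Fintype H] (σ : Equiv.Perm H) (ε : ℝ) (τ : Prg H)
    (β : Prg (Cyc (σ * τ.1))) : ℝ :=
  ∫ x in {x : Cyc τ.1 → ℝ | ∀ e, 0 < x e},
    ∏ c : Cyc β.1, kern ε (row (MT σ τ.1) c.rep x) (row (MT σ τ.1) (β.1 c.rep) x)

theorem ZZ_eq {H : Type} [Fintype H] (σ : Equiv.Perm H) (ε : ℝ) :
    ZZ σ ε = ∑ τ : Prg H, ∑ β : Prg (Cyc (σ * τ.1)),
      ∫ x in {x : Cyc τ.1 → ℝ | ∀ e, 0 < x e},
        ∏ c : Cyc β.1, kern ε (row (MT σ τ.1) c.rep x) (row (MT σ τ.1) (β.1 c.rep) x) := by
  unfold ZZ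
  rw [← Fintype.sum_sigma']
  refine Fintype.sum_equiv (confEquiv σ) _ _ (fun R => ?_)
  exact A_eq R ε

theorem level_left {H : Type} [Fintype H] (σ : Equiv.Perm H) (ε : ℝ) (hε : 0 < ε) (m : ℕ) :
    ∫ a : Fin m → ℝ, (∏ c, phi (a c)) * (∑ τ : Prg H, ∑ lab : Cyc (σ * τ.1) ≃ Fin m × Bool,
      JM (MT σ τ.1) (fun f p => tentE ε (p - a (lab f).1))) =
    (2 ^ m * m.factorial : ℝ) * ∑ τ : Prg H, if Fintype.card (Cyc (σ * τ.1)) = 2 * m then
      ∑ β : Prg (Cyc (σ * τ.1)), vol σ ε τ β else 0 := by
  have h1 : ∀ a : Fin m → ℝ, (∏ c, phi (a c)) * (∑ τ : Prg H,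
      ∑ lab : Cyc (σ * τ.1) ≃ Fin m × Bool,
        JM (MT σ τ.1) (fun f p => tentE ε (p - a (lab f).1))) =
      ∑ τ : Prg H, ∑ lab : Cyc (σ * τ.1) ≃ Fin m × Bool,
        (∏ c, phi (a c)) * JM (MT σ τ.1) (fun f p => tentE ε (p - a (lab f).1)) := by
    intro a
    rw [Finset.mul_sum]
    refine Finset.sum_congr rfl (fun τ _ => ?_)
    rw [Finset.mul_sum]
  simp only [h1]
  rw [integral_finsetSum _ (fun τ _ => integrable_finsetSum _ (fun lab _ =>
    gaussL_integrable (MT σ τ.1) (MT_col σ τ.1 τ.2) lab ε hε)), Finset.mul_sum]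
  refine Finset.sum_congr rfl (fun τ _ => ?_)
  rw [integral_finsetSum _ (fun lab _ =>
    gaussL_integrable (MT σ τ.1) (MT_col σ τ.1 τ.2) lab ε hε)]
  have h2 : ∀ lab : Cyc (σ * τ.1) ≃ Fin m × Bool,
      ∫ a : Fin m → ℝ, (∏ c, phi (a c)) *
        JM (MT σ τ.1) (fun f p => tentE ε (p - a (lab f).1)) =
      vol σ ε τ ⟨prOf lab, prOf_pairing lab⟩ := by
    intro lab
    rw [gaussL (MT σ τ.1) (MT_col σ τ.1 τ.2) lab ε hε]
    unfold vol
    apply integral_congr_ae
    refine Filter.Eventually.of_forall (fun x => ?_)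
    exact (prod_prOf lab (fun f f' => kern ε (row (MT σ τ.1) f x) (row (MT σ τ.1) f' x))
      (fun f f' => kern_symm ε _ _)).symm
  simp only [h2]
  rw [sum_prOf m (fun β => vol σ ε τ β)]
  split_ifs <;> simp

theorem level_right (R : MvPolynomial ℕ ℝ) (ε : ℝ) (hε : 0 < ε) (m : ℕ) :
    ∫ a : Fin m → ℝ, (∏ c, phi (a c)) *
      perR (fun (i : Fin m × Bool) k => mom k (fun p => tentE ε (p - a i.1))) R =
    (2 ^ m * m.factorial : ℝ) * ∑ μ ∈ R.support, if μ.toMultiset.toList.length = 2 * m then
        R.coeff μ * hfL (Ce ε) μ.toMultiset.toList else 0 := by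
  have h1 : ∀ a : Fin m → ℝ, (∏ c, phi (a c)) *
      perR (fun (i : Fin m × Bool) k => mom k (fun p => tentE ε (p - a i.1))) R =
      ∑ μ ∈ R.support, ∑ π : Fin μ.toMultiset.toList.length ≃ Fin m × Bool,
        R.coeff μ * ((∏ c, phi (a c)) *
          ∏ j, mom (μ.toMultiset.toList.get j) (fun p => tentE ε (p - a (π j).1))) := by
    intro a
    unfold perR perL
    rw [Finset.mul_sum]
    refine Finset.sum_congr rfl (fun μ _ => ?_)
    rw [Finset.mul_sum, Finset.mul_sum]
    refine Finset.sum_congr rfl (fun π _ => ?_)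
    ring
  simp only [h1]
  rw [integral_finsetSum _ (fun μ _ => integrable_finsetSum _ (fun π _ =>
    (gaussR_integrable π (fun j => μ.toMultiset.toList.get j) ε hε).const_mul _)),
    Finset.mul_sum]
  refine Finset.sum_congr rfl (fun μ _ => ?_)
  rw [integral_finsetSum _ (fun π _ =>
    (gaussR_integrable π (fun j => μ.toMultiset.toList.get j) ε hε).const_mul _)]
  have h2 : ∀ π : Fin μ.toMultiset.toList.length ≃ Fin m × Bool,
      ∫ a : Fin m → ℝ, R.coeff μ * ((∏ c, phi (a c)) *
          ∏ j, mom (μ.toMultiset.toList.get j) (fun p => tentE ε (p - a (π j).1))) =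
      R.coeff μ * ∏ c : Fin m, Ce ε (μ.toMultiset.toList.get (π.symm (c, false)))
        (μ.toMultiset.toList.get (π.symm (c, true))) := by
    intro π
    rw [integral_const_mul, gaussR π (fun j => μ.toMultiset.toList.get j) ε hε]
  simp only [h2]
  rw [← Finset.mul_sum, hfL_sum (Ce ε) (Ce_symm ε)]
  split_ifs
  · ring
  · simp

theorem level {H : Type} [Fintype H] (σ : Equiv.Perm H) (R : MvPolynomial ℕ ℝ)
    (hR : DProp σ R) (ε : ℝ) (hε : 0 < ε) (m : ℕ) :
    (∑ τ : Prg H, if Fintype.card (Cyc (σ * τ.1)) = 2 * m then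
      ∑ β : Prg (Cyc (σ * τ.1)), ∫ x in {x : Cyc τ.1 → ℝ | ∀ e, 0 < x e},
        ∏ c : Cyc β.1, kern ε (row (MT σ τ.1) c.rep x) (row (MT σ τ.1) (β.1 c.rep) x) else 0) =
      ∑ μ ∈ R.support, if μ.toMultiset.toList.length = 2 * m then
        R.coeff μ * hfL (Ce ε) μ.toMultiset.toList else 0 := by
  have hpos : (2 ^ m * m.factorial : ℝ) ≠ 0 := by positivity
  apply mul_left_cancel₀ hpos
  rw [← level_right R ε hε m]
  have h := level_left σ ε hε m
  unfold vol at h
  rw [← h]
  apply integral_congr_ae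
  refine Filter.Eventually.of_forall (fun a => ?_)
  show _ * _ = _ * _
  congr 1
  refine bij_all σ R hR (fun (i : Fin m × Bool) p => tentE ε (p - a i.1)) ?_
    (ε + ∑ c, |a c|) ?_
  · intro i
    exact (tentE_continuous ε).comp (continuous_id.sub continuous_const)
  · intro i p hp
    apply tentE_zero ε hε
    have h1 : |a i.1| ≤ ∑ c, |a c| :=
      Finset.single_le_sum (f := fun c => |a c|) (fun c _ => abs_nonneg _) (Finset.mem_univ i.1)
    have h2 := le_abs_self (a i.1)
    refine le_trans ?_ (le_abs_self _)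
    linarith

theorem ZZ_formula {H : Type} [Fintype H] (σ : Equiv.Perm H) (R : MvPolynomial ℕ ℝ)
    (hR : DProp σ R) (ε : ℝ) (hε : 0 < ε) :
    ZZ σ ε = ∑ μ ∈ R.support, R.coeff μ * hfL (Ce ε) μ.toMultiset.toList := by
  classical
  rw [ZZ_eq]
  obtain ⟨n, hn1, hn2⟩ : ∃ n : ℕ, (∀ τ : Prg H, Fintype.card (Cyc (σ * τ.1)) < 2 * n) ∧
      (∀ μ ∈ R.support, μ.toMultiset.toList.length < 2 * n) := by
    refine ⟨(∑ τ : Prg H, Fintype.card (Cyc (σ * τ.1))) +
      (∑ μ ∈ R.support, μ.toMultiset.toList.length) + 1, ?_, ?_⟩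
    · intro τ
      have h := Finset.single_le_sum (f := fun τ : Prg H => Fintype.card (Cyc (σ * τ.1)))
        (fun _ _ => Nat.zero_le _) (Finset.mem_univ τ)
      omega
    · intro μ hμ
      have h := Finset.single_le_sum
        (f := fun μ : ℕ →₀ ℕ => μ.toMultiset.toList.length)
        (fun _ _ => Nat.zero_le _) hμ
      omega
  have h := Finset.sum_congr (rfl : range n = range n) (fun m _ => level σ R hR ε hε m)
  rw [Finset.sum_comm, Finset.sum_comm (s := range n) (t := R.support)] at h
  have key : ∀ (c : ℕ) (x : ℝ), (Odd c → x = 0) → c < 2 * n →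
      (∑ m ∈ range n, if c = 2 * m then x else 0) = x := by
    intro c x hodd hc
    rcases Nat.even_or_odd c with he | ho
    · obtain ⟨d, hd⟩ := he
      rw [Finset.sum_eq_single d]
      · rw [if_pos (by omega)]
      · intro b _ hb
        rw [if_neg (by omega)]
      · intro hd'
        exact absurd (Finset.mem_range.mpr (by omega)) hd'
    · rw [hodd ho]
      simp
  have hL : ∀ τ : Prg H, (∑ m ∈ range n, if Fintype.card (Cyc (σ * τ.1)) = 2 * m then
      ∑ β : Prg (Cyc (σ * τ.1)), ∫ x in {x : Cyc τ.1 → ℝ | ∀ e, 0 < x e},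
        ∏ c : Cyc β.1, kern ε (row (MT σ τ.1) c.rep x) (row (MT σ τ.1) (β.1 c.rep) x) else 0) =
      ∑ β : Prg (Cyc (σ * τ.1)), ∫ x in {x : Cyc τ.1 → ℝ | ∀ e, 0 < x e},
        ∏ c : Cyc β.1, kern ε (row (MT σ τ.1) c.rep x) (row (MT σ τ.1) (β.1 c.rep) x) := by
    intro τ
    refine key _ _ ?_ (hn1 τ)
    intro ho
    have : IsEmpty (Prg (Cyc (σ * τ.1))) := by
      constructor
      intro β
      exact (Nat.not_even_iff_odd.mpr ho) (pairing_even β.1 β.2)
    simp
  have hRr : ∀ μ ∈ R.support, (∑ m ∈ range n, if μ.toMultiset.toList.length = 2 * m then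
        R.coeff μ * hfL (Ce ε) μ.toMultiset.toList else 0) =
      R.coeff μ * hfL (Ce ε) μ.toMultiset.toList := by
    intro μ hμ
    refine key _ _ ?_ (hn2 μ hμ)
    intro ho
    rw [hfL_odd _ _ ho, mul_zero]
  rw [Finset.sum_congr rfl (fun τ _ => hL τ), Finset.sum_congr rfl hRr] at h
  exact h

theorem blockP_gen {H : Type} [Fintype H] (σ : Equiv.Perm H) (R : MvPolynomial ℕ ℝ)
    (hR : DProp σ R) : Tendsto (fun ε => ZZ σ ε) (𝓝[>] (0:ℝ)) (𝓝 (Wick R)) := by
  have h1 : Tendsto (fun ε => ∑ μ ∈ R.support, R.coeff μ * hfL (Ce ε) μ.toMultiset.toList)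
      (𝓝[>] (0:ℝ)) (𝓝 (Wick R)) := by
    unfold Wick
    refine tendsto_finsetSum _ (fun μ _ => ?_)
    exact (hfL_tendsto (𝓝[>] (0:ℝ)) Ce Cov Ce_tendsto _).const_mul _
  refine h1.congr' ?_
  filter_upwards [self_mem_nhdsWithin] with ε hε
  exact (ZZ_formula σ R hR ε hε).symm

theorem blockP_of_D {ρ : Type} [Fintype ρ] (K : ρ → ℕ)
    (hD : ∀ (N : ℕ) (_ : Even N) (s : Fin N → ℝ) (_ : ∀ i, 0 < s i),
      PK K N s = MvPolynomial.eval (fun k => ∑ i, (1 / s i) ^ (2 * k + 1)) (Rpoly K)) :
    Tendsto (fun ε => ZZ (rot K) ε) (𝓝[>] (0:ℝ)) (𝓝 (Ypoly K)) := by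
  unfold Ypoly
  apply blockP_gen
  intro N hN s hs
  rw [← hD N hN s hs]
  unfold PKs PK
  congr! 2
  · ext
    simp
  · classical
    ext
    rw [Finset.mem_filter, Finset.mem_filter]
    exact ⟨fun h => ⟨@Finset.mem_univ _ (_) _, h.2⟩, fun h => ⟨@Finset.mem_univ _ (_) _, h.2⟩⟩

end Pool.Agent.Helper12.MVP
end
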