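import Pool.Agent.Helper16.LGG.G06
import Pool.Agent.Helper16.LGG.G07
import Pool.Agent.Helper16.LGG.G12
import Pool.Agent.Helper16.LGG.G14

/- Helper34.MVU.XMain -/
section
/-!
Project MV, block U, module U-XM (XMain): `Ypoly` as a sum of terms, and the main term.

PROOFS.
* `Ypoly_eq`: `Ypoly K = Wick (Rpoly K)`, `(Σ i, K i)/2 = E`, `Wick_sum`, `Wick_C_mul`.
* `term_main`: `dl {E} = [E, 0]` (card one). `pfL QQ [E, 0] = QQ E 0 * 1 = qP E * qP 0 = qP E`
  (`QQ E 0`: the sum over `range 0` is empty, `qP 0 = 1`). `XK K [E, 0]`: sum over `f : ρ → Fin 2` of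
  `zf (m_0 - 2E) (m_1 - 0)` with `m_0 + m_1 = 2E`; if `f` is constant `0` then `m_0 = 2E`, `m_1 = 0`,
  value `zf 0 0 = 1`; otherwise `m_1 > 0` (`K i ≥ 1`), `m_0 - 2E = -m_1 < 0`, value `0`
  (`Finset.sum_eq_single (fun _ => 0)`). So `term K {E} = 1/2 cc E Wick (qP E) = mainE E`.
-/

namespace Pool.Agent.Helper34.MVU

open Finset MvPolynomial Pool.Agent.Helper60.MV

theorem Ypoly_eq {ρ : Type} [Fintype ρ] (K : ρ → ℕ) (E : ℕ) (hE : ∑ i, K i = 2 * E) :
    Ypoly K = ∑ S ∈ stp E, term K S := by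
  unfold Ypoly Rpoly
  have h : (∑ i, K i) / 2 = E := by
    rw [hE]
    omega
  rw [h, Wick_sum]
  apply Finset.sum_congr rfl
  intro S _
  rw [Wick_C_mul]
  rfl

private theorem pfL_two {α R : Type} [CommRing R] (A : α → α → R) (x y : α) :
    pfL A [x, y] = A x y := by
  simp [pfL]

theorem XK_main {ρ : Type} [Fintype ρ] (K : ρ → ℕ) (hK : ∀ i, 1 ≤ K i) (E : ℕ)
    (hE : ∑ i, K i = 2 * E) : XK K [E, 0] = 1 := by
  classical
  have hsum : ∀ f : ρ → Fin 2, asg K f 0 + asg K f 1 = 2 * E := by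
    intro f
    unfold asg
    rw [← hE, ← Finset.sum_add_distrib]
    apply Finset.sum_congr rfl
    intro i _
    have : f i = 0 ∨ f i = 1 := by
      have := (f i).2
      rcases Nat.lt_or_ge (f i).val 1 with h | h
      · left
        apply Fin.ext
        simp
        omega
      · right
        apply Fin.ext
        simp
        omega
    rcases this with h | h <;> simp [h]
  have hval : ∀ f : ρ → Fin 2,
      pfL (fun a b : Fin 2 => zf ((asg K f a : ℤ) - 2 * (([E, 0] : List ℕ).get a : ℤ))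
        ((asg K f b : ℤ) - 2 * (([E, 0] : List ℕ).get b : ℤ))) (List.finRange 2) =
      if f = (fun _ => 0) then 1 else 0 := by
    intro f
    have hl : List.finRange 2 = [0, 1] := by decide
    rw [hl, pfL_two]
    have h := hsum f
    have e0 : (([E, 0] : List ℕ).get (0 : Fin 2) : ℤ) = E := rfl
    have e1 : (([E, 0] : List ℕ).get (1 : Fin 2) : ℤ) = 0 := rfl
    rw [e0, e1]
    by_cases hf : f = (fun _ => 0)
    · rw [if_pos hf]
      have h1 : asg K f 1 = 0 := by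
        unfold asg
        apply Finset.sum_eq_zero
        intro i _
        rw [hf]
        simp
      have h0 : asg K f 0 = 2 * E := by omega
      rw [h0, h1]
      simp [zf]
    · rw [if_neg hf]
      obtain ⟨i, hi⟩ : ∃ i, f i ≠ 0 := by
        by_contra hcon
        push Not at hcon
        exact hf (funext hcon)
      have hi1 : f i = 1 := by
        have h2 := (f i).2
        have h3 : (f i).val ≠ 0 := by
          intro h4
          exact hi (Fin.ext h4)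
        apply Fin.ext
        simp
        omega
      have h1 : 1 ≤ asg K f 1 := by
        unfold asg
        calc 1 ≤ K i := hK i
          _ = (if f i = 1 then K i else 0) := by rw [if_pos hi1]
          _ ≤ ∑ i, (if f i = 1 then K i else 0) :=
            Finset.single_le_sum (f := fun i => if f i = 1 then K i else 0)
              (fun _ _ => Nat.zero_le _) (Finset.mem_univ i)
      unfold zf
      have a1 : (asg K f 0 : ℤ) - 2 * (E : ℤ) + ((asg K f 1 : ℤ) - 2 * 0) = 0 := by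
        have : (asg K f 0 : ℤ) + (asg K f 1 : ℤ) = 2 * E := by exact_mod_cast h
        linarith
      have a2 : ¬ ((asg K f 0 : ℤ) - 2 * (E : ℤ) = 0) := by
        have : (asg K f 0 : ℤ) + (asg K f 1 : ℤ) = 2 * E := by exact_mod_cast h
        have h4 : (1 : ℤ) ≤ asg K f 1 := by exact_mod_cast h1
        intro h5
        linarith
      have a3 : ¬ (0 < (asg K f 0 : ℤ) - 2 * (E : ℤ)) := by
        have : (asg K f 0 : ℤ) + (asg K f 1 : ℤ) = 2 * E := by exact_mod_cast h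
        have h4 : (1 : ℤ) ≤ asg K f 1 := by exact_mod_cast h1
        intro h5
        linarith
      rw [if_pos a1, if_neg a2, if_neg a3]
  unfold XK
  have h2 : ∀ f : ρ → Fin ([E, 0] : List ℕ).length,
      pfL (fun a b => zf ((asg K f a : ℤ) - 2 * (([E, 0] : List ℕ).get a : ℤ))
        ((asg K f b : ℤ) - 2 * (([E, 0] : List ℕ).get b : ℤ)))
        (List.finRange ([E, 0] : List ℕ).length) =
      if f = (fun _ => (0 : Fin 2)) then 1 else 0 := fun f => hval f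
  have hz : ∀ f : ρ → Fin ([E, 0] : List ℕ).length,
      f ∈ (Finset.univ : Finset (ρ → Fin ([E, 0] : List ℕ).length)) → f ≠ (fun _ => (0 : Fin 2)) →
      pfL (fun a b => zf ((asg K f a : ℤ) - 2 * (([E, 0] : List ℕ).get a : ℤ))
        ((asg K f b : ℤ) - 2 * (([E, 0] : List ℕ).get b : ℤ)))
        (List.finRange ([E, 0] : List ℕ).length) = 0 := by
    intro f _ hf
    rw [h2]
    exact if_neg hf
  refine (Finset.sum_eq_single (fun _ => (0 : Fin 2)) hz ?_).trans ?_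
  · intro h
    exact absurd (Finset.mem_univ _) h
  · rw [h2]
    exact if_pos rfl

theorem term_main {ρ : Type} [Fintype ρ] (K : ρ → ℕ) (hK : ∀ i, 1 ≤ K i) (E : ℕ)
    (hE : ∑ i, K i = 2 * E) : term K {E} = mainE E := by
  have hdl : dl {E} = [E, 0] := by
    unfold dl
    simp
  unfold term mainE
  rw [hdl, XK_main K hK E hE, pfL_two]
  have hq : QQ E 0 = qP E := by
    unfold QQ
    rw [qP]
    simp
  rw [hq]
  simp

end Pool.Agent.Helper34.MVU
end

/- Helper34.MVU.Stir -/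
section
/-!
Project MV, block U, module U-T1c (Stir): the product of the factorials and of the weights
`xx E a = (a/E)^(1/3)`.

PROOFS.
* `fact_le`: `n! ≤ 3 n (n/e)^n` for `n ≥ 1`: from `Stirling.stirlingSeq` antitone:
  `n!/(√(2n) (n/e)^n) ≤ stirlingSeq 1 = e/√2`, so `n! ≤ e √n (n/e)^n ≤ 3 n (n/e)^n`
  (or by induction: `(n+1)!/n! = n+1` and `((n+1)/n)^(n+1) ≥ e`, i.e. `(n+1) log(1+1/n) ≥ 1`).
* `le_fact`: `(E/e)^E ≤ E!`: `E^E/E! ≤ exp E` (`Real.pow_div_factorial_le_exp`).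
* `fact_prod_le`: all `a ∈ S` are `≥ 1`, `Σ a = E`. `Π a! ≤ Π 3a * Π (a/e)^a`, and
  `Π (a/e)^a = Π (a/E)^a * (E/e)^(Σ a) ≤ E! Π (a/E)^a`. Finally
  `(a/E)^a * (xx E a ^ (2a))⁻¹ = (a/E)^(a - 2a/3) = (a/E)^(a/3)` (real powers of `a/E > 0`).
* `xx_prop`: `xx E 0 = 0`, `xx E a > 0` for `a ≥ 1`, monotone in `a`.
-/

namespace Pool.Agent.Helper34.MVU

open Finset Pool.Agent.Helper60.MV

theorem xx_zero (E : ℕ) : xx E 0 = 0 := by
  unfold xx
  rw [Nat.cast_zero, zero_div, Real.zero_rpow (by norm_num)]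

theorem xx_pos (E : ℕ) (hE : 1 ≤ E) (a : ℕ) (ha : a ≠ 0) : 0 < xx E a := by
  unfold xx
  have h1 : (0:ℝ) < a := by exact_mod_cast Nat.pos_of_ne_zero ha
  have h2 : (0:ℝ) < E := by exact_mod_cast hE
  positivity

theorem xx_mono (E : ℕ) (a b : ℕ) (hab : b ≤ a) : xx E b ≤ xx E a := by
  unfold xx
  have h1 : (b:ℝ) ≤ a := by exact_mod_cast hab
  refine Real.rpow_le_rpow (by positivity) ?_ (by norm_num)
  exact div_le_div_of_nonneg_right h1 (Nat.cast_nonneg _)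

theorem fact_le (n : ℕ) (hn : 1 ≤ n) :
    (n.factorial : ℝ) ≤ 3 * n * ((n : ℝ) / Real.exp 1) ^ n := by
  have he : (0:ℝ) < Real.exp 1 := Real.exp_pos 1
  induction n, hn using Nat.le_induction with
  | base =>
    have h3 : Real.exp 1 ≤ 3 := by
      have := Real.exp_one_lt_d9
      linarith
    rw [Nat.factorial_one, Nat.cast_one, pow_one, mul_one, mul_one_div, le_div_iff₀ he, one_mul]
    exact h3
  | succ n hn ih =>
    have hn0 : (0:ℝ) < n := by exact_mod_cast hn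
    have hn1 : (0:ℝ) < (n:ℝ) + 1 := by linarith
    have h1 : Real.exp (1 / ((n:ℝ) + 1)) ≤ ((n:ℝ) + 1) / n := by
      have h2 := Real.add_one_le_exp (-(1 / ((n:ℝ) + 1)))
      rw [Real.exp_neg] at h2
      have h3 : -(1 / ((n:ℝ) + 1)) + 1 = (n:ℝ) / ((n:ℝ) + 1) := by field_simp; ring
      rw [h3] at h2
      have h4 : 0 < (n:ℝ) / ((n:ℝ) + 1) := by positivity
      have h5 := inv_anti₀ h4 h2
      rw [inv_inv, inv_div] at h5
      exact h5
    have h6 : Real.exp 1 ≤ (((n:ℝ) + 1) / n) ^ (n + 1) := by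
      have h7 : Real.exp 1 = Real.exp (1 / ((n:ℝ) + 1)) ^ (n + 1) := by
        rw [← Real.exp_nat_mul]
        congr 1
        push_cast
        field_simp
      rw [h7]
      exact pow_le_pow_left₀ (Real.exp_pos _).le h1 _
    have h8 : (n:ℝ) * ((n:ℝ) / Real.exp 1) ^ n ≤ (((n:ℝ) + 1) / Real.exp 1) ^ (n + 1) := by
      have h9 : (((n:ℝ) + 1) / Real.exp 1) ^ (n + 1) =
          ((((n:ℝ) + 1) / n) ^ (n + 1) / Real.exp 1) * ((n:ℝ) * ((n:ℝ) / Real.exp 1) ^ n) := by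
        rw [div_pow, div_pow, div_pow, pow_succ (Real.exp 1) n, pow_succ (n:ℝ) n]
        field_simp
      rw [h9]
      have h10 : 1 ≤ (((n:ℝ) + 1) / n) ^ (n + 1) / Real.exp 1 := by
        rw [le_div_iff₀ he, one_mul]; exact h6
      have h11 : 0 ≤ (n:ℝ) * ((n:ℝ) / Real.exp 1) ^ n := by positivity
      nlinarith [mul_le_mul_of_nonneg_right h10 h11]
    rw [Nat.factorial_succ]
    push_cast
    calc ((n:ℝ) + 1) * (n.factorial : ℝ) ≤ ((n:ℝ) + 1) * (3 * n * ((n : ℝ) / Real.exp 1) ^ n) :=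
          mul_le_mul_of_nonneg_left ih hn1.le
      _ = 3 * ((n:ℝ) + 1) * ((n:ℝ) * ((n : ℝ) / Real.exp 1) ^ n) := by ring
      _ ≤ 3 * ((n:ℝ) + 1) * (((n:ℝ) + 1) / Real.exp 1) ^ (n + 1) :=
          mul_le_mul_of_nonneg_left h8 (by positivity)

theorem le_fact (E : ℕ) : ((E : ℝ) / Real.exp 1) ^ E ≤ (E.factorial : ℝ) := by
  have h1 := Real.pow_div_factorial_le_exp (E : ℝ) (Nat.cast_nonneg _) E
  have h2 : Real.exp (E : ℝ) = Real.exp 1 ^ E := by
    rw [← Real.exp_nat_mul, mul_one]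
  rw [h2, div_le_iff₀ (by positivity)] at h1
  rw [div_pow, div_le_iff₀ (by positivity), mul_comm]
  exact h1

theorem fact_prod_le (E : ℕ) (hE : 1 ≤ E) (S : Finset ℕ) (hS : S ∈ stp E) :
    (∏ a ∈ S, ((a.factorial : ℝ) * ((xx E a) ^ (2 * a))⁻¹)) ≤
      (E.factorial : ℝ) * ∏ a ∈ S, (3 * (a : ℝ) * ((a : ℝ) / (E : ℝ)) ^ ((a : ℝ) / 3)) := by
  have hE0 : (0:ℝ) < E := by exact_mod_cast hE
  have he : (0:ℝ) < Real.exp 1 := Real.exp_pos 1
  unfold stp at hS
  rw [Finset.mem_filter, Finset.mem_powerset] at hS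
  obtain ⟨hsub, hsum⟩ := hS
  have hpos : ∀ a ∈ S, 1 ≤ a := fun a ha => (Finset.mem_Icc.1 (hsub ha)).1
  have h1 : ∀ a ∈ S, (a.factorial : ℝ) * ((xx E a) ^ (2 * a))⁻¹ ≤
      ((E:ℝ) / Real.exp 1) ^ a * (3 * (a : ℝ) * ((a : ℝ) / (E : ℝ)) ^ ((a : ℝ) / 3)) := by
    intro a ha
    have ha1 := hpos a ha
    have ha0 : (0:ℝ) < a := by exact_mod_cast ha1
    have hr : (0:ℝ) < (a:ℝ) / E := by positivity
    have hx : ((xx E a) ^ (2 * a))⁻¹ = ((a:ℝ) / E) ^ (-(2 * (a:ℝ) / 3)) := by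
      unfold xx
      rw [← Real.rpow_natCast, ← Real.rpow_mul hr.le, ← Real.rpow_neg hr.le]
      congr 1
      push_cast
      ring
    have hy : ((a:ℝ) / Real.exp 1) ^ a = ((E:ℝ) / Real.exp 1) ^ a * ((a:ℝ) / E) ^ (a:ℝ) := by
      rw [Real.rpow_natCast, ← mul_pow]
      congr 1
      field_simp
    calc (a.factorial : ℝ) * ((xx E a) ^ (2 * a))⁻¹ ≤
        (3 * a * ((a : ℝ) / Real.exp 1) ^ a) * ((xx E a) ^ (2 * a))⁻¹ := by
          refine mul_le_mul_of_nonneg_right (fact_le a ha1) ?_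
          rw [hx]; positivity
      _ = ((E:ℝ) / Real.exp 1) ^ a * (3 * (a : ℝ) *
            (((a:ℝ) / E) ^ (a:ℝ) * ((a:ℝ) / E) ^ (-(2 * (a:ℝ) / 3)))) := by
          rw [hx, hy]; ring
      _ = _ := by
          rw [← Real.rpow_add hr]
          congr 3
          ring
  calc (∏ a ∈ S, ((a.factorial : ℝ) * ((xx E a) ^ (2 * a))⁻¹)) ≤
      ∏ a ∈ S, (((E:ℝ) / Real.exp 1) ^ a *
        (3 * (a : ℝ) * ((a : ℝ) / (E : ℝ)) ^ ((a : ℝ) / 3))) := by
        refine Finset.prod_le_prod (fun a _ => ?_) h1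
        have : 0 ≤ xx E a := by unfold xx; positivity
        positivity
    _ = (∏ a ∈ S, ((E:ℝ) / Real.exp 1) ^ a) *
        ∏ a ∈ S, (3 * (a : ℝ) * ((a : ℝ) / (E : ℝ)) ^ ((a : ℝ) / 3)) :=
        Finset.prod_mul_distrib
    _ ≤ _ := by
        refine mul_le_mul_of_nonneg_right ?_ (Finset.prod_nonneg fun a _ => by positivity)
        rw [Finset.prod_pow_eq_pow_sum, hsum]
        exact le_fact E

end Pool.Agent.Helper34.MVU
end

/- Helper34.MVU.TermLe -/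
section
/-!
Project MV, block U, module U-T1 (TermLe): the general bound of a term.

PROOF. `E ≥ 1`, `S ∈ stp E` (so `S` is not empty), `L = dl S`, `l = card S`, `l' = L.length`.
`|term K S| = (1/2)^l Π cc a |XK K L| |Wick (pfL QQ L)|` and
 - `Π cc a ≤ Π a!` (`cc_le_fact`, `cc_pos`);
 - `|XK K L| ≤ mt l' 2^(l'/2) (Π_i Σ_{a ∈ L} xx^(K i)) Π_{a ∈ L} (xx^(2a))⁻¹` (`XK_le` with
   `x = xx E`; `dl_pairwise`, `xx_mono`, `xx_pos`), the last product over `L` is the product over `S`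
   (`prod_dl`, `(0^0)⁻¹ = 1`);
 - `|Wick (pfL QQ L)| ≤ Wick (hfL QQp L) ≤ GG (L.map (rr E)) (mt l' Π_{a ∈ L} (2a+1)(rr^a)⁻¹)`
   (`abs_Wick_pfL_le`, `Wick_hfL_le` with `rr_prop`, `rr_mono`).
Collect: `(1/2)^l 2^(l'/2) ≤ 1` (`card_dl`: `l'/2 ≤ l`), `mt l' ^2 ≤ l'! ≤ (l+1)! ≤ Π_{a ∈ S} (a+1)`
(`mt_sq_le`, `prod_succ_ge`), `fact_prod_le`, `xsum_le`, `GG_le`, `rprod_le`, and for every `a ≥ 1`
`3a (a+1) (2a+1) ≤ 18 a^3`; for small `a`: `(3 * 6^λ * 2^a) * 2^a = 3 * 6^λ * 4^a`.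
All factors are nonnegative.
-/

namespace Pool.Agent.Helper34.MVU

open Finset Pool.Agent.Helper60.MV

theorem maj_nonneg (E : ℕ) (S : Finset ℕ) : 0 ≤ maj E S := by
  unfold maj
  refine mul_nonneg (mul_nonneg (by positivity) (Finset.prod_nonneg fun a _ => ?_))
    (Finset.prod_nonneg fun a _ => by positivity)
  positivity

private theorem combine {h c X Y G m x y r P1 P2 P3 P4 : ℝ}
    (hh0 : 0 ≤ h) (hc0 : 0 ≤ c) (hX0 : 0 ≤ X) (hY0 : 0 ≤ Y) (hG0 : 0 ≤ G) (hr0 : 0 ≤ r)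
    (h1 : h ≤ 1) (h2 : m ≤ P1) (hm0 : 0 ≤ m) (h3 : X ≤ x) (h4 : c * Y ≤ P2)
    (h5 : G ≤ P3) (h6 : r ≤ P4) (hP : x * P1 * P2 * P3 * P4 ≤ y) :
    h * m * X * (c * Y) * G * r ≤ y := by
  have hP1 : 0 ≤ P1 := hm0.trans h2
  have hx : 0 ≤ x := hX0.trans h3
  have hP2 : 0 ≤ P2 := (mul_nonneg hc0 hY0).trans h4
  have hP3 : 0 ≤ P3 := hG0.trans h5
  calc h * m * X * (c * Y) * G * r ≤ 1 * P1 * x * P2 * P3 * P4 := by
        gcongr
    _ = x * P1 * P2 * P3 * P4 := by ring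
    _ ≤ y := hP

theorem term_le {ρ : Type} [Fintype ρ] (K : ρ → ℕ) (hK : ∀ i, Odd (K i)) (E : ℕ) (hE : 1 ≤ E)
    (S : Finset ℕ) (hS : S ∈ stp E) :
    |term K S| ≤ 2 ^ (E + 1) * (E.factorial : ℝ) * (3 * (E : ℝ) ^ (1 / 3 : ℝ)) ^ ones K *
      maj E S := by
  obtain ⟨hS1, hSE⟩ := (mem_stp E S).1 hS
  have hne : 1 ≤ S.card := by
    rcases Nat.eq_zero_or_pos S.card with h0 | h0
    · rw [Finset.card_eq_zero.1 h0] at hSE
      simp at hSE
      omega
    · exact h0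
  have hlen := card_dl S
  -- XK
  have hpw := dl_pairwise S hS1
  have hXK := XK_le K (dl S) (xx E) (fun a _ ha => xx_pos E hE a ha) (xx_zero E).ge
    (hpw.imp fun {a b} hab => ⟨hab.le, fun _ => xx_mono E a b hab.le⟩)
  have hW := (abs_Wick_pfL_le (dl S)).trans (Wick_hfL_le (dl S) (rr E)
    (fun a _ => rr_prop E hE a)
    (hpw.imp fun {a b} hab hb => rr_mono E hE a b hb hab.le))
  have hY : ((dl S).map (fun a => (xx E a ^ (2 * a))⁻¹)).prod = ∏ a ∈ S, (xx E a ^ (2 * a))⁻¹ := by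
    rw [prod_dl]
    simp
  rw [hY] at hXK
  set X : ℝ := ∏ i, ((dl S).map (fun a : ℕ => (xx E a) ^ K i)).sum with hXdef
  set Y : ℝ := ∏ a ∈ S, (xx E a ^ (2 * a))⁻¹ with hYdef
  set G : ℝ := GG ((dl S).map (rr E)) with hGdef
  set r : ℝ := ((dl S).map (fun a : ℕ => (2 * (a : ℝ) + 1) * ((rr E a) ^ a)⁻¹)).prod with hrdef
  have hxx0 : ∀ a, 0 ≤ xx E a := fun a => by
    rcases Nat.eq_zero_or_pos a with h | h
    · rw [h, xx_zero]
    · exact (xx_pos E hE a (by omega)).le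
  have hX0 : 0 ≤ X := by
    refine Finset.prod_nonneg fun i _ => List.sum_nonneg fun z hz => ?_
    obtain ⟨a, _, rfl⟩ := List.mem_map.1 hz
    exact pow_nonneg (hxx0 a) _
  have hY0 : 0 ≤ Y := Finset.prod_nonneg fun a _ => inv_nonneg.2 (pow_nonneg (hxx0 a) _)
  have hG0 : 0 ≤ G := (Real.exp_pos _).le
  have hr0 : 0 ≤ r := by
    refine List.prod_nonneg fun z hz => ?_
    obtain ⟨a, _, rfl⟩ := List.mem_map.1 hz
    exact mul_nonneg (by positivity) (inv_nonneg.2 (pow_nonneg (rr_prop E hE a).1 _))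
  have hc0 : (0 : ℝ) ≤ ∏ a ∈ S, cc a := Finset.prod_nonneg fun a _ => (cc_pos a).le
  have hc1 : ∏ a ∈ S, cc a ≤ ∏ a ∈ S, (a.factorial : ℝ) :=
    Finset.prod_le_prod (fun a _ => (cc_pos a).le) fun a _ => cc_le_fact a
  have hCf0 : (0 : ℝ) ≤ ∏ a ∈ S, (a.factorial : ℝ) := by positivity
  have hterm : |term K S| ≤ ((1 / 2 : ℝ) ^ S.card * 2 ^ ((dl S).length / 2)) *
      ((mt (dl S).length : ℝ) ^ 2) * X * ((∏ a ∈ S, (a.factorial : ℝ)) * Y) * G * r := by
    unfold term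
    rw [abs_mul, abs_mul, abs_mul, abs_of_nonneg hc0, abs_of_nonneg (by positivity : (0 : ℝ) ≤ (1 / 2) ^ S.card)]
    calc (1 / 2 : ℝ) ^ S.card * (∏ a ∈ S, cc a) * |XK K (dl S)| * |Wick (pfL QQ (dl S))|
        ≤ (1 / 2 : ℝ) ^ S.card * (∏ a ∈ S, (a.factorial : ℝ)) *
          (mt (dl S).length * 2 ^ ((dl S).length / 2) * X * Y) *
          (G * (mt (dl S).length * r)) := by
          gcongr
      _ = _ := by ring
  refine hterm.trans ?_
  have e1 : (1 / 2 : ℝ) ^ S.card * 2 ^ ((dl S).length / 2) ≤ 1 := by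
    rw [one_div, inv_pow, inv_mul_le_iff₀ (by positivity), mul_one]
    exact pow_le_pow_right₀ (by norm_num) (by omega)
  have e2 : ((mt (dl S).length : ℝ) ^ 2) ≤ ∏ a ∈ S, ((a : ℝ) + 1) := by
    have h1 := mt_sq_le (dl S).length
    have h2 : (dl S).length.factorial ≤ (S.card + 1).factorial :=
      Nat.factorial_le (by omega)
    have h3 := h1.trans (h2.trans (prod_succ_ge S hS1))
    exact_mod_cast h3
  have e3 := xsum_le K hK E hE S hS
  have e4 : (∏ a ∈ S, (a.factorial : ℝ)) * Y ≤ (E.factorial : ℝ) *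
      ∏ a ∈ S, (3 * (a : ℝ) * ((a : ℝ) / (E : ℝ)) ^ ((a : ℝ) / 3)) := by
    rw [hYdef, ← Finset.prod_mul_distrib]
    exact fact_prod_le E hE S hS
  have e5 := GG_le E hE S hS
  have e6 := rprod_le E hE S hS
  refine combine (by positivity) hCf0 hX0 hY0 hG0 hr0 e1 e2 (by positivity) e3 e4 e5 e6 ?_
  -- final comparison
  have f1 : (∏ a ∈ S, ((a : ℝ) + 1)) *
      (∏ a ∈ S, (3 * (a : ℝ) * ((a : ℝ) / (E : ℝ)) ^ ((a : ℝ) / 3))) *
      (∏ a ∈ S, (2 * (a : ℝ) + 1)) ≤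
      ∏ a ∈ S, (18 * (a : ℝ) ^ 3 * ((a : ℝ) / (E : ℝ)) ^ ((a : ℝ) / 3)) := by
    rw [← Finset.prod_mul_distrib, ← Finset.prod_mul_distrib]
    refine Finset.prod_le_prod (fun a _ => by positivity) fun a ha => ?_
    have ha1 : (1 : ℝ) ≤ a := by exact_mod_cast hS1 a ha
    have hp : (0 : ℝ) ≤ ((a : ℝ) / (E : ℝ)) ^ ((a : ℝ) / 3) := by positivity
    have h7 : ((a : ℝ) + 1) * (3 * a) * (2 * a + 1) ≤ 18 * (a : ℝ) ^ 3 := by
      nlinarith [mul_nonneg (sub_nonneg.2 ha1) (by linarith : (0 : ℝ) ≤ a),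
        mul_nonneg (mul_nonneg (sub_nonneg.2 ha1) (by linarith : (0 : ℝ) ≤ a))
          (by linarith : (0 : ℝ) ≤ a)]
    calc ((a : ℝ) + 1) * (3 * (a : ℝ) * ((a : ℝ) / (E : ℝ)) ^ ((a : ℝ) / 3)) * (2 * (a : ℝ) + 1)
        = (((a : ℝ) + 1) * (3 * a) * (2 * a + 1)) * ((a : ℝ) / (E : ℝ)) ^ ((a : ℝ) / 3) := by ring
      _ ≤ _ := mul_le_mul_of_nonneg_right h7 hp
  have f2 : (∏ a ∈ sml E S, (3 * 6 ^ (lrg E S).card * (2 : ℝ) ^ a)) * (∏ a ∈ sml E S, (2 : ℝ) ^ a) =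
      ∏ a ∈ sml E S, (3 * 6 ^ (lrg E S).card * (4 : ℝ) ^ a) := by
    rw [← Finset.prod_mul_distrib]
    refine Finset.prod_congr rfl fun a _ => ?_
    rw [show (4 : ℝ) = 2 * 2 by norm_num, mul_pow]
    ring
  unfold maj
  rw [← f2]
  have g0 : (0 : ℝ) ≤ 2 ^ (E + 1) * (E.factorial : ℝ) * (3 * (E : ℝ) ^ (1 / 3 : ℝ)) ^ ones K *
      (4 * (E : ℝ)) ^ ((lrg E S).card + (lrg E S).card ^ 2) *
      ((∏ a ∈ sml E S, (3 * 6 ^ (lrg E S).card * (2 : ℝ) ^ a)) *
        (∏ a ∈ sml E S, (2 : ℝ) ^ a)) := by positivity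
  have g1 := mul_le_mul_of_nonneg_left f1 g0
  refine le_trans (le_of_eq ?_) (g1.trans (le_of_eq ?_))
  · ring
  · ring

end Pool.Agent.Helper34.MVU
end

/- Helper34.MVU.SumB -/
section
/-!
Project MV, block U, module U-SB (SumB): the sum of the majorants over the sets with exactly one
large element, all of whose elements are `< E - s0`.

PROOF. Let `S ∈ stp E`, `lrg E S = {m}`, `S' = S.erase m = sml E S`; all `a ∈ S'` satisfy `1 ≤ a`,
`4096 a ≤ E`, and `Σ_{a ∈ S'} a = E - m > s0`. As `(m/E)^(m/3) ≤ 1` and `m ≤ E`,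
`maj E S ≤ (4E)^2 * 18 E^3 * Π_{a ∈ S'} g a`, `g a = 324 a^3 4^a (a/E)^(a/3) = 324 a^3 (64 a/E)^(a/3)`
(`18 * 3 * 6 = 324`).
Let `t ≥ 1` and `s0 = 6 t`. CLAIM: for `1 ≤ a`, `4096 a ≤ E`:
`g a * E^(min a s0 / 6) ≤ w a := C_t a^(3+t) 2^(-a)` (real power of `E`), with `C_t` independent of `E`:
 - `a ≤ s0`: `(64a/E)^(a/3) = (64a/E)^(a/6) (64a/E)^(a/6) ≤ (64a)^(a/6) E^(-a/6) (1/64)^(a/6)`
   `≤ (64 s0)^(s0/6) E^(-a/6) 2^(-a)`;
 - `a > s0`: `(64a/E)^(a/3) = (64a/E)^t (64a/E)^(a/3-t) ≤ (64a)^t E^(-t) (1/64)^(a/3-t)`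
   `= (64a)^t E^(-t) 4^(-a) 64^t` (`a/3 ≥ t`).
Since `Σ_{a ∈ S'} min a s0 ≥ s0` (as `Σ a ≥ s0`: either one `a ≥ s0`, or all `min a s0 = a`), and `E ≥ 1`,
`Π_{S'} g a ≤ E^(-t) Π_{S'} w a`. `S` is determined by `S'` (`m = E - Σ S'`), so the whole sum is at most
`(4E)^2 * 18 E^3 * E^(-t) * Σ_{S' ⊆ Icc 1 E} Π w a ≤ C E^5 E^(-t) exp (Σ_a w a)`; take `t = T + 5`.
-/

namespace Pool.Agent.Helper34.MVU

open Finset Pool.Agent.Helper60.MV

private theorem rpow_64 (a : ℕ) : (64 : ℝ) ^ ((a : ℝ) / 3) = 4 ^ a := by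
  have h : (64 : ℝ) = 4 ^ (3 : ℝ) := by norm_num
  rw [h, ← Real.rpow_mul (by norm_num), ← Real.rpow_natCast]
  congr 1
  ring

private theorem rpow_64' (a : ℕ) : (1 / 64 : ℝ) ^ ((a : ℝ) / 6) = (1 / 2) ^ a := by
  have h : (1 / 64 : ℝ) = (1 / 2) ^ (6 : ℝ) := by norm_num
  rw [h, ← Real.rpow_mul (by norm_num), ← Real.rpow_natCast]
  congr 1
  ring

private theorem rpow_64'' (a t : ℕ) :
    (1 / 64 : ℝ) ^ ((a : ℝ) / 3 - t) = (1 / 4) ^ a * 64 ^ t := by
  have h : (1 / 64 : ℝ) = (1 / 4) ^ (3 : ℝ) := by norm_num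
  have h2 : ((1 / 4 : ℝ)) ^ (3 * ((a : ℝ) / 3 - t)) = (1 / 4) ^ a / (1 / 4) ^ (3 * t) := by
    rw [← Real.rpow_natCast, ← Real.rpow_natCast, ← Real.rpow_sub (by norm_num)]
    congr 1
    push_cast
    ring
  rw [h, ← Real.rpow_mul (by norm_num), h2, div_eq_mul_inv]
  congr 1
  rw [pow_mul, ← inv_pow]
  norm_num

/-- the local estimate -/
private theorem claim_pv2 (t E a : ℕ) (ht : 1 ≤ t) (ha : 1 ≤ a) (hE : 4096 * a ≤ E) :
    4 ^ a * ((a : ℝ) / (E : ℝ)) ^ ((a : ℝ) / 3) * (E : ℝ) ^ (((min a (6 * t) : ℕ) : ℝ) / 6) ≤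
      (384 * (t : ℝ)) ^ t * 4096 ^ t * (a : ℝ) ^ t * (1 / 2) ^ a := by
  have ha' : (1 : ℝ) ≤ a := by exact_mod_cast ha
  have ht' : (1 : ℝ) ≤ t := by exact_mod_cast ht
  have hE' : 4096 * (a : ℝ) ≤ E := by exact_mod_cast hE
  have hE0 : (0 : ℝ) < E := by linarith
  have hu0 : 0 < (a : ℝ) / E := by positivity
  set x : ℝ := 64 * ((a : ℝ) / E) with hx
  have hx0 : 0 < x := by positivity
  have hx1 : x ≤ 1 / 64 := by
    rw [hx, ← mul_div_assoc, div_le_iff₀ hE0]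
    linarith
  have hxE : x * E = 64 * a := by
    rw [hx]
    field_simp
  have h1 : 4 ^ a * ((a : ℝ) / (E : ℝ)) ^ ((a : ℝ) / 3) = x ^ ((a : ℝ) / 3) := by
    rw [hx, Real.mul_rpow (by norm_num) hu0.le, rpow_64]
  rw [h1]
  have hat : (1 : ℝ) ≤ (a : ℝ) ^ t := one_le_pow₀ ha'
  rcases Nat.lt_or_ge (6 * t) a with hlt | hle
  · -- a large
    have hmin : min a (6 * t) = 6 * t := min_eq_right hlt.le
    have hlt' : 6 * (t : ℝ) < a := by exact_mod_cast hlt
    have h2 : (E : ℝ) ^ (((min a (6 * t) : ℕ) : ℝ) / 6) = (E : ℝ) ^ t := by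
      rw [hmin, ← Real.rpow_natCast]
      congr 1
      push_cast
      ring
    have h3 : x ^ ((a : ℝ) / 3) = x ^ t * x ^ ((a : ℝ) / 3 - t) := by
      rw [← Real.rpow_natCast, ← Real.rpow_add hx0]
      congr 1
      ring
    have h4 : x ^ ((a : ℝ) / 3 - t) ≤ (1 / 4) ^ a * 64 ^ t := by
      rw [← rpow_64'']
      exact Real.rpow_le_rpow hx0.le hx1 (by linarith)
    have h5 : (1 / 4 : ℝ) ^ a ≤ (1 / 2) ^ a := pow_le_pow_left₀ (by norm_num) (by norm_num) a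
    calc x ^ ((a : ℝ) / 3) * (E : ℝ) ^ (((min a (6 * t) : ℕ) : ℝ) / 6)
        = (x * E) ^ t * x ^ ((a : ℝ) / 3 - t) := by rw [h2, h3, mul_pow]; ring
      _ ≤ (x * E) ^ t * ((1 / 4) ^ a * 64 ^ t) := by
          apply mul_le_mul_of_nonneg_left h4
          positivity
      _ = 4096 ^ t * (a : ℝ) ^ t * (1 / 4) ^ a := by
          rw [hxE, mul_pow]
          have : (4096 : ℝ) ^ t = 64 ^ t * 64 ^ t := by rw [← mul_pow]; norm_num
          rw [this]
          ring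
      _ ≤ 4096 ^ t * (a : ℝ) ^ t * (1 / 2) ^ a := by
          apply mul_le_mul_of_nonneg_left h5
          positivity
      _ = 1 * (4096 ^ t * (a : ℝ) ^ t * (1 / 2) ^ a) := by rw [one_mul]
      _ ≤ (384 * (t : ℝ)) ^ t * (4096 ^ t * (a : ℝ) ^ t * (1 / 2) ^ a) := by
          apply mul_le_mul_of_nonneg_right _ (by positivity)
          apply one_le_pow₀
          linarith
      _ = (384 * (t : ℝ)) ^ t * 4096 ^ t * (a : ℝ) ^ t * (1 / 2) ^ a := by ring
  · -- a small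
    have hmin : min a (6 * t) = a := min_eq_left hle
    have hle' : (a : ℝ) ≤ 6 * t := by exact_mod_cast hle
    have h3 : x ^ ((a : ℝ) / 3) = x ^ ((a : ℝ) / 6) * x ^ ((a : ℝ) / 6) := by
      rw [← Real.rpow_add hx0]
      congr 1
      ring
    have h4 : x ^ ((a : ℝ) / 6) * (E : ℝ) ^ ((a : ℝ) / 6) = (64 * a) ^ ((a : ℝ) / 6) := by
      rw [← Real.mul_rpow hx0.le hE0.le, hxE]
    have h5 : (64 * (a : ℝ)) ^ ((a : ℝ) / 6) ≤ (384 * (t : ℝ)) ^ t := by
      calc (64 * (a : ℝ)) ^ ((a : ℝ) / 6) ≤ (384 * (t : ℝ)) ^ ((a : ℝ) / 6) :=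
            Real.rpow_le_rpow (by positivity) (by linarith) (by positivity)
        _ ≤ (384 * (t : ℝ)) ^ (t : ℝ) :=
            Real.rpow_le_rpow_of_exponent_le (by linarith) (by linarith)
        _ = (384 * (t : ℝ)) ^ t := Real.rpow_natCast _ _
    have h6 : x ^ ((a : ℝ) / 6) ≤ (1 / 2) ^ a := by
      rw [← rpow_64']
      exact Real.rpow_le_rpow hx0.le hx1 (by positivity)
    calc x ^ ((a : ℝ) / 3) * (E : ℝ) ^ (((min a (6 * t) : ℕ) : ℝ) / 6)
        = x ^ ((a : ℝ) / 6) * (64 * a) ^ ((a : ℝ) / 6) := by rw [hmin, h3, mul_assoc, h4]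
      _ ≤ (1 / 2) ^ a * (384 * (t : ℝ)) ^ t :=
          mul_le_mul h6 h5 (by positivity) (by positivity)
      _ = (384 * (t : ℝ)) ^ t * 1 * 1 * (1 / 2) ^ a := by ring
      _ ≤ (384 * (t : ℝ)) ^ t * 4096 ^ t * (a : ℝ) ^ t * (1 / 2) ^ a := by
          apply mul_le_mul_of_nonneg_right _ (by positivity)
          apply mul_le_mul _ hat (by norm_num) (by positivity)
          apply mul_le_mul_of_nonneg_left _ (by positivity)
          exact one_le_pow₀ (by norm_num)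

/-- the majorant of the factors -/
private noncomputable def ww_pv1 (t a : ℕ) : ℝ :=
  324 * ((384 * (t : ℝ)) ^ t * 4096 ^ t) * ((a : ℝ) ^ (3 + t) * (1 / 2) ^ a)

private theorem ww_nonneg (t a : ℕ) : 0 ≤ ww_pv1 t a := by
  unfold ww_pv1
  positivity

private theorem sum_aux (k : ℕ) (C : ℝ) :
    Summable (fun a : ℕ => C * ((a : ℝ) ^ k * (1 / 2) ^ a)) := by
  have h : Summable (fun a : ℕ => (a : ℝ) ^ k * (1 / 2 : ℝ) ^ a) :=
    summable_pow_mul_geometric_of_norm_lt_one (R := ℝ) k (r := 1 / 2)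
      (by rw [Real.norm_eq_abs, abs_of_pos] <;> norm_num)
  exact h.mul_left C

private theorem ww_summable (t : ℕ) : Summable (ww_pv1 t) := by
  have h := sum_aux (3 + t) (324 * ((384 * (t : ℝ)) ^ t * 4096 ^ t))
  have e : ww_pv1 t = fun a : ℕ =>
      324 * ((384 * (t : ℝ)) ^ t * 4096 ^ t) * ((a : ℝ) ^ (3 + t) * (1 / 2) ^ a) := rfl
  rw [e]
  exact h

/-- the factors -/
private noncomputable def gg (E a : ℕ) : ℝ :=
  (18 * (a : ℝ) ^ 3 * ((a : ℝ) / (E : ℝ)) ^ ((a : ℝ) / 3)) * (3 * 6 ^ 1 * 4 ^ a)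

private theorem gg_le (t E a : ℕ) (ht : 1 ≤ t) (ha : 1 ≤ a) (hE : 4096 * a ≤ E) :
    gg E a * (E : ℝ) ^ (((min a (6 * t) : ℕ) : ℝ) / 6) ≤ ww_pv1 t a := by
  have h := claim_pv2 t E a ht ha hE
  unfold gg ww_pv1
  have h0 : (0 : ℝ) ≤ 324 * (a : ℝ) ^ 3 := by positivity
  have h1 := mul_le_mul_of_nonneg_left h h0
  generalize ((a : ℝ) / (E : ℝ)) ^ ((a : ℝ) / 3) = X at h1 ⊢
  generalize (E : ℝ) ^ (((min a (6 * t) : ℕ) : ℝ) / 6) = Y at h1 ⊢
  rw [pow_add]
  generalize (384 * (t : ℝ)) ^ t = U at h1 ⊢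
  generalize (4096 : ℝ) ^ t = V at h1 ⊢
  generalize (a : ℝ) ^ t = W at h1 ⊢
  generalize (1 / 2 : ℝ) ^ a = Z at h1 ⊢
  generalize (4 : ℝ) ^ a = Q at h1 ⊢
  have e1 : 18 * (a : ℝ) ^ 3 * X * (3 * 6 ^ 1 * Q) * Y = 324 * (a : ℝ) ^ 3 * (Q * X * Y) := by
    ring
  have e2 : 324 * (U * V) * ((a : ℝ) ^ 3 * W * Z) = 324 * (a : ℝ) ^ 3 * (U * V * W * Z) := by
    ring
  rw [e1, e2]
  exact h1

private theorem sum_min (s0 : ℕ) (S : Finset ℕ) (h : s0 ≤ ∑ a ∈ S, a) :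
    s0 ≤ ∑ a ∈ S, min a s0 := by
  by_cases hex : ∃ a ∈ S, s0 ≤ a
  · obtain ⟨a, ha, h1⟩ := hex
    have h2 := Finset.single_le_sum (f := fun a => min a s0) (fun _ _ => Nat.zero_le _) ha
    have h3 : min a s0 = s0 := min_eq_right h1
    rw [← h3]
    refine h2.trans ?_
    rw [h3]
  · push Not at hex
    have h2 : ∑ a ∈ S, min a s0 = ∑ a ∈ S, a :=
      Finset.sum_congr rfl fun a ha => min_eq_left (hex a ha).le
    rw [h2]
    exact h

/-- the product over the small elements -/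
private theorem prod_gg_le (t E : ℕ) (ht : 1 ≤ t) (hE : 1 ≤ E) (S : Finset ℕ)
    (h1 : ∀ a ∈ S, 1 ≤ a ∧ 4096 * a ≤ E) (hs : 6 * t ≤ ∑ a ∈ S, a) :
    (∏ a ∈ S, gg E a) * (E : ℝ) ^ t ≤ ∏ a ∈ S, ww_pv1 t a := by
  have hE1 : (1 : ℝ) ≤ E := by exact_mod_cast hE
  have hE0 : (0 : ℝ) < E := by linarith
  have hg0 : ∀ a, 0 ≤ gg E a := by
    intro a
    unfold gg
    positivity
  have h2 : (E : ℝ) ^ t ≤ ∏ a ∈ S, (E : ℝ) ^ (((min a (6 * t) : ℕ) : ℝ) / 6) := by
    rw [← Real.rpow_sum_of_pos hE0, ← Real.rpow_natCast]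
    apply Real.rpow_le_rpow_of_exponent_le hE1
    have h3 := sum_min (6 * t) S hs
    have h4 : ((6 * t : ℕ) : ℝ) ≤ ((∑ a ∈ S, min a (6 * t) : ℕ) : ℝ) := by exact_mod_cast h3
    rw [← Finset.sum_div, ← Nat.cast_sum]
    push_cast at h4 ⊢
    linarith
  calc (∏ a ∈ S, gg E a) * (E : ℝ) ^ t
      ≤ (∏ a ∈ S, gg E a) * ∏ a ∈ S, (E : ℝ) ^ (((min a (6 * t) : ℕ) : ℝ) / 6) :=
        mul_le_mul_of_nonneg_left h2 (Finset.prod_nonneg fun a _ => hg0 a)
    _ = ∏ a ∈ S, (gg E a * (E : ℝ) ^ (((min a (6 * t) : ℕ) : ℝ) / 6)) :=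
        Finset.prod_mul_distrib.symm
    _ ≤ ∏ a ∈ S, ww_pv1 t a := by
        apply Finset.prod_le_prod
        · intro a _
          exact mul_nonneg (hg0 a) (by positivity)
        · intro a ha
          exact gg_le t E a ht (h1 a ha).1 (h1 a ha).2

private theorem maj_le (E : ℕ) (hE : 1 ≤ E) (S : Finset ℕ) (hS : S ∈ stp E)
    (hc : (lrg E S).card = 1) :
    maj E S ≤ 288 * (E : ℝ) ^ 5 * ∏ a ∈ sml E S, gg E a := by
  obtain ⟨hS1, hS2⟩ := (mem_stp E S).1 hS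
  obtain ⟨m, hm⟩ := Finset.card_eq_one.1 hc
  have hmS : m ∈ S := by
    have : m ∈ lrg E S := by rw [hm]; exact Finset.mem_singleton_self m
    exact (Finset.mem_filter.1 this).1
  have hmE : m ≤ E := by
    rw [← hS2]
    exact Finset.single_le_sum (f := fun a => a) (fun _ _ => Nat.zero_le _) hmS
  have hmE' : (m : ℝ) ≤ E := by exact_mod_cast hmE
  have hE1 : (1 : ℝ) ≤ E := by exact_mod_cast hE
  have hE0 : (0 : ℝ) < E := by linarith
  have hsplit : ∏ a ∈ S, (18 * (a : ℝ) ^ 3 * ((a : ℝ) / (E : ℝ)) ^ ((a : ℝ) / 3)) =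
      (18 * (m : ℝ) ^ 3 * ((m : ℝ) / (E : ℝ)) ^ ((m : ℝ) / 3)) *
      ∏ a ∈ sml E S, (18 * (a : ℝ) ^ 3 * ((a : ℝ) / (E : ℝ)) ^ ((a : ℝ) / 3)) := by
    rw [← Finset.prod_filter_mul_prod_filter_not S (fun a => E < 4096 * a)]
    have e1 : S.filter (fun a => E < 4096 * a) = {m} := hm
    rw [e1, Finset.prod_singleton]
    rfl
  have h1 : 18 * (m : ℝ) ^ 3 * ((m : ℝ) / (E : ℝ)) ^ ((m : ℝ) / 3) ≤ 18 * (E : ℝ) ^ 3 := by
    have h2 : ((m : ℝ) / (E : ℝ)) ^ ((m : ℝ) / 3) ≤ 1 := by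
      apply Real.rpow_le_one (by positivity) _ (by positivity)
      rw [div_le_one hE0]
      exact hmE'
    have h3 : (m : ℝ) ^ 3 ≤ (E : ℝ) ^ 3 := pow_le_pow_left₀ (by positivity) hmE' 3
    calc 18 * (m : ℝ) ^ 3 * ((m : ℝ) / (E : ℝ)) ^ ((m : ℝ) / 3) ≤ 18 * (m : ℝ) ^ 3 * 1 :=
          mul_le_mul_of_nonneg_left h2 (by positivity)
      _ ≤ 18 * (E : ℝ) ^ 3 := by linarith
  unfold maj
  rw [hc, hsplit]
  have h4 : 0 ≤ ∏ a ∈ sml E S, gg E a := by
    apply Finset.prod_nonneg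
    intro a _
    unfold gg
    positivity
  have h5 : (∏ a ∈ sml E S, (18 * (a : ℝ) ^ 3 * ((a : ℝ) / (E : ℝ)) ^ ((a : ℝ) / 3))) *
      ∏ a ∈ sml E S, (3 * 6 ^ 1 * 4 ^ a : ℝ) = ∏ a ∈ sml E S, gg E a := by
    rw [← Finset.prod_mul_distrib]
    rfl
  calc (4 * (E : ℝ)) ^ (1 + 1 ^ 2) *
        ((18 * (m : ℝ) ^ 3 * ((m : ℝ) / (E : ℝ)) ^ ((m : ℝ) / 3)) *
          ∏ a ∈ sml E S, (18 * (a : ℝ) ^ 3 * ((a : ℝ) / (E : ℝ)) ^ ((a : ℝ) / 3))) *
        ∏ a ∈ sml E S, (3 * 6 ^ 1 * 4 ^ a : ℝ)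
      = (4 * (E : ℝ)) ^ 2 * (18 * (m : ℝ) ^ 3 * ((m : ℝ) / (E : ℝ)) ^ ((m : ℝ) / 3)) *
          ((∏ a ∈ sml E S, (18 * (a : ℝ) ^ 3 * ((a : ℝ) / (E : ℝ)) ^ ((a : ℝ) / 3))) *
            ∏ a ∈ sml E S, (3 * 6 ^ 1 * 4 ^ a : ℝ)) := by norm_num; ring
    _ = (4 * (E : ℝ)) ^ 2 * (18 * (m : ℝ) ^ 3 * ((m : ℝ) / (E : ℝ)) ^ ((m : ℝ) / 3)) *
          ∏ a ∈ sml E S, gg E a := by rw [h5]
    _ ≤ (4 * (E : ℝ)) ^ 2 * (18 * (E : ℝ) ^ 3) * ∏ a ∈ sml E S, gg E a := by
        apply mul_le_mul_of_nonneg_right _ h4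
        exact mul_le_mul_of_nonneg_left h1 (by positivity)
    _ = 288 * (E : ℝ) ^ 5 * ∏ a ∈ sml E S, gg E a := by ring

private theorem sml_inj (E : ℕ) (S S' : Finset ℕ) (hS : S ∈ stp E) (hS' : S' ∈ stp E)
    (hc : (lrg E S).card = 1) (hc' : (lrg E S').card = 1) (h : sml E S = sml E S') : S = S' := by
  obtain ⟨-, h2⟩ := (mem_stp E S).1 hS
  obtain ⟨-, h2'⟩ := (mem_stp E S').1 hS'
  obtain ⟨m, hm⟩ := Finset.card_eq_one.1 hc
  obtain ⟨m', hm'⟩ := Finset.card_eq_one.1 hc'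
  have e : ∀ U : Finset ℕ, U = lrg E U ∪ sml E U := fun U =>
    (Finset.filter_union_filter_not_eq (fun a => E < 4096 * a) U).symm
  have f : ∀ U : Finset ℕ, ∑ a ∈ U, a = ∑ a ∈ lrg E U, a + ∑ a ∈ sml E U, a := fun U =>
    (Finset.sum_filter_add_sum_filter_not U (fun a => E < 4096 * a) _).symm
  rw [f S, hm, Finset.sum_singleton] at h2
  rw [f S', hm', Finset.sum_singleton, ← h] at h2'
  have hmm : m = m' := by omega
  rw [e S, e S', hm, hm', h, hmm]

theorem sumB_le (T : ℕ) : ∃ (s0 : ℕ) (C : ℝ), 0 ≤ C ∧ ∀ E : ℕ, 1 ≤ E →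
    ∑ S ∈ (stp E).filter (fun S => (lrg E S).card = 1 ∧ ∀ a ∈ S, a + s0 < E), maj E S ≤
      C / (E : ℝ) ^ T := by
  classical
  set t : ℕ := T + 5 with ht
  refine ⟨6 * t, 288 * Real.exp (∑' a, ww_pv1 t a), by positivity, ?_⟩
  intro E hE
  have hE1 : (1 : ℝ) ≤ E := by exact_mod_cast hE
  have hE0 : (0 : ℝ) < E := by linarith
  set F : Finset (Finset ℕ) :=
    (stp E).filter (fun S => (lrg E S).card = 1 ∧ ∀ a ∈ S, a + 6 * t < E) with hF
  have hstep : ∀ S ∈ F, maj E S ≤ 288 / (E : ℝ) ^ T * ∏ a ∈ sml E S, ww_pv1 t a := by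
    intro S hS
    rw [hF, Finset.mem_filter] at hS
    obtain ⟨hS, hc, hsm⟩ := hS
    obtain ⟨hS1, hS2⟩ := (mem_stp E S).1 hS
    obtain ⟨m, hm⟩ := Finset.card_eq_one.1 hc
    have hmS : m ∈ S := by
      have : m ∈ lrg E S := by rw [hm]; exact Finset.mem_singleton_self m
      exact (Finset.mem_filter.1 this).1
    have hsum : m + ∑ a ∈ sml E S, a = E := by
      have h := Finset.sum_filter_add_sum_filter_not S (fun a => E < 4096 * a) (fun a => a)
      have e1 : S.filter (fun a => E < 4096 * a) = {m} := hm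
      rw [e1, Finset.sum_singleton, hS2] at h
      exact h
    have h6 : 6 * t ≤ ∑ a ∈ sml E S, a := by
      have := hsm m hmS
      omega
    have hsml : ∀ a ∈ sml E S, 1 ≤ a ∧ 4096 * a ≤ E := by
      intro a ha
      have h7 := Finset.mem_filter.1 ha
      exact ⟨hS1 a h7.1, not_lt.1 h7.2⟩
    have h8 := prod_gg_le t E (by omega) hE (sml E S) hsml h6
    have h9 := maj_le E hE S hS hc
    refine h9.trans ?_
    have h10 : (∏ a ∈ sml E S, gg E a) ≤ (∏ a ∈ sml E S, ww_pv1 t a) / (E : ℝ) ^ t := by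
      rw [le_div_iff₀ (by positivity)]
      exact h8
    calc 288 * (E : ℝ) ^ 5 * ∏ a ∈ sml E S, gg E a
        ≤ 288 * (E : ℝ) ^ 5 * ((∏ a ∈ sml E S, ww_pv1 t a) / (E : ℝ) ^ t) :=
          mul_le_mul_of_nonneg_left h10 (by positivity)
      _ = 288 / (E : ℝ) ^ T * ∏ a ∈ sml E S, ww_pv1 t a := by
          rw [ht, pow_add]
          field_simp
  have hsum2 : ∑ S ∈ F, ∏ a ∈ sml E S, ww_pv1 t a ≤ Real.exp (∑' a, ww_pv1 t a) := by
    have h1 : ∑ S ∈ F, ∏ a ∈ sml E S, ww_pv1 t a = ∑ U ∈ F.image (sml E), ∏ a ∈ U, ww_pv1 t a := by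
      rw [Finset.sum_image]
      intro S hS S' hS' h
      rw [hF, Finset.mem_coe, Finset.mem_filter] at hS hS'
      exact sml_inj E S S' hS.1 hS'.1 hS.2.1 hS'.2.1 h
    have h2 : F.image (sml E) ⊆ (Finset.Icc 1 E).powerset := by
      intro U hU
      obtain ⟨S, hS, rfl⟩ := Finset.mem_image.1 hU
      rw [hF, Finset.mem_filter] at hS
      have h3 : S ∈ (Finset.Icc 1 E).powerset := by
        have := hS.1
        unfold stp at this
        exact (Finset.mem_filter.1 this).1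
      rw [Finset.mem_powerset] at h3 ⊢
      exact (Finset.filter_subset _ _).trans h3
    rw [h1]
    calc ∑ U ∈ F.image (sml E), ∏ a ∈ U, ww_pv1 t a
        ≤ ∑ U ∈ (Finset.Icc 1 E).powerset, ∏ a ∈ U, ww_pv1 t a :=
          Finset.sum_le_sum_of_subset_of_nonneg h2
            (fun U _ _ => Finset.prod_nonneg fun a _ => ww_nonneg t a)
      _ = ∏ a ∈ Finset.Icc 1 E, (1 + ww_pv1 t a) := by
          rw [Finset.prod_one_add]
      _ ≤ ∏ a ∈ Finset.Icc 1 E, Real.exp (ww_pv1 t a) := by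
          apply Finset.prod_le_prod
          · intro a _
            have := ww_nonneg t a
            linarith
          · intro a _
            rw [add_comm]
            exact Real.add_one_le_exp _
      _ = Real.exp (∑ a ∈ Finset.Icc 1 E, ww_pv1 t a) := (Real.exp_sum _ _).symm
      _ ≤ Real.exp (∑' a, ww_pv1 t a) := by
          apply Real.exp_le_exp.2
          exact (ww_summable t).sum_le_tsum _ (fun a _ => ww_nonneg t a)
  calc ∑ S ∈ F, maj E S ≤ ∑ S ∈ F, (288 / (E : ℝ) ^ T * ∏ a ∈ sml E S, ww_pv1 t a) :=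
        Finset.sum_le_sum hstep
    _ = 288 / (E : ℝ) ^ T * ∑ S ∈ F, ∏ a ∈ sml E S, ww_pv1 t a := by rw [Finset.mul_sum]
    _ ≤ 288 / (E : ℝ) ^ T * Real.exp (∑' a, ww_pv1 t a) :=
        mul_le_mul_of_nonneg_left hsum2 (by positivity)
    _ = 288 * Real.exp (∑' a, ww_pv1 t a) / (E : ℝ) ^ T := by ring

end Pool.Agent.Helper34.MVU
end

/- Helper34.MVU.Fin -/
section
/-!
Project MV, block U: the final assembly.
-/

namespace Pool.Agent.Helper34.MVU

open Finset Filter Topology Pool.Agent.Helper60.MV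

theorem pow_le_two_pow (M p : ℕ) : ∃ C : ℝ, 0 ≤ C ∧ ∀ k : ℕ, ((M : ℝ) + k + 1) ^ p ≤ C * 2 ^ k := by
  have h := (tendsto_pow_const_div_const_pow_of_one_lt p (r := (2:ℝ)) (by norm_num)).bddAbove_range
  obtain ⟨B, hB⟩ := h
  refine ⟨max B 0 * 2 ^ (M + 1), by positivity, ?_⟩
  intro k
  have h1 : ((M + k + 1 : ℕ) : ℝ) ^ p / 2 ^ (M + k + 1) ≤ B := hB ⟨M + k + 1, rfl⟩
  have h2 : ((M + k + 1 : ℕ) : ℝ) ^ p ≤ max B 0 * 2 ^ (M + k + 1) := by
    rw [div_le_iff₀ (by positivity)] at h1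
    exact h1.trans (mul_le_mul_of_nonneg_right (le_max_left _ _) (by positivity))
  calc ((M : ℝ) + k + 1) ^ p = ((M + k + 1 : ℕ) : ℝ) ^ p := by push_cast; ring
    _ ≤ max B 0 * 2 ^ (M + k + 1) := h2
    _ = max B 0 * 2 ^ (M + 1) * 2 ^ k := by ring

/-- sets with a part `≥ E - s0` -/
noncomputable def nearS (E s0 : ℕ) : Finset (Finset ℕ) :=
  (stp E).filter (fun S => ∃ m ∈ S, m < E ∧ E ≤ m + s0)

theorem nearS_card (E s0 : ℕ) (hE : 2 * s0 + 2 ≤ E) : (nearS E s0).card ≤ 2 ^ s0 := by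
  classical
  have h1 : (nearS E s0).card ≤ ((Icc 1 s0).powerset).card := by
    apply Finset.card_le_card_of_injOn (fun S => S.filter (fun a => a ≤ s0))
    · intro S hS
      simp only [nearS, coe_filter, Set.mem_setOf_eq] at hS
      obtain ⟨hS, -⟩ := hS
      rw [mem_stp] at hS
      simp only [coe_powerset, Set.mem_preimage, Set.mem_powerset_iff, coe_filter]
      intro a ha
      simp only [Set.mem_setOf_eq] at ha
      simp only [coe_Icc, Set.mem_Icc]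
      exact ⟨hS.1 a ha.1, ha.2⟩
    · intro S hS S' hS' heq
      simp only [nearS, coe_filter, Set.mem_setOf_eq] at hS hS'
      have key : ∀ S : Finset ℕ, (S ∈ stp E ∧ ∃ m ∈ S, m < E ∧ E ≤ m + s0) →
          S = insert (E - ∑ a ∈ S.filter (fun a => a ≤ s0), a) (S.filter (fun a => a ≤ s0)) := by
        intro S hS
        obtain ⟨hS, m, hm, hmE, hm2⟩ := hS
        rw [mem_stp] at hS
        have hsum : m + ∑ a ∈ S.erase m, a = E := by
          rw [← hS.2]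
          exact Finset.add_sum_erase S (fun a => a) hm
        have hf : S.filter (fun a => a ≤ s0) = S.erase m := by
          ext a
          simp only [mem_filter, mem_erase]
          constructor
          · rintro ⟨ha, ha2⟩
            exact ⟨by omega, ha⟩
          · rintro ⟨ha, ha2⟩
            refine ⟨ha2, ?_⟩
            have : a ≤ ∑ a ∈ S.erase m, a :=
              Finset.single_le_sum (f := fun a => a) (fun _ _ => Nat.zero_le _)
                (Finset.mem_erase.mpr ⟨ha, ha2⟩)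
            omega
        rw [hf]
        have hmm : E - ∑ a ∈ S.erase m, a = m := by omega
        rw [hmm, Finset.insert_erase hm]
      rw [key S hS, key S' hS']
      simp only at heq
      rw [heq]
  rw [Finset.card_powerset, Nat.card_Icc] at h1
  simpa using h1

theorem blockU (M : ℕ) : ∃ C : ℝ, 0 < C ∧ ∀ (k : ℕ) {ρ : Type} [Fintype ρ] (K : ρ → ℕ)
    (_ : ∀ i, Odd (K i)) (E : ℕ) (_ : ∑ i, K i = 2 * E) (_ : 1 ≤ E) (_ : ones K ≤ M + k),
    |Ypoly K - mainE E| ≤ C * (C * (E : ℝ) ^ (1 / 3 : ℝ)) ^ k * (E : ℝ) ^ (-(1 / 2) : ℝ) * bE E := by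
  classical
  obtain ⟨CA, hCA0, hCA⟩ := sumA_le (M + 2)
  obtain ⟨s0, CB, hCB0, hCB⟩ := sumB_le (M + 2)
  obtain ⟨CC, hCC0, hCC⟩ := sumC_le (M + 2)
  obtain ⟨C0, hC00, hC0⟩ := reg0 s0
  obtain ⟨C2, hC20, hC2⟩ := pow_le_two_pow M (2 * s0)
  set E0 := 2 * s0 + 2 with hE0
  set C3 : ℝ := ∑ E ∈ range E0, ∑ S ∈ stp E, maj E S with hC3
  have hC30 : 0 ≤ C3 := Finset.sum_nonneg (fun E _ => Finset.sum_nonneg (fun S _ => maj_nonneg E S))
  set Ct : ℝ := 2 * 3 ^ M * (CA + CB + CC) + 2 ^ s0 * C0 * C2 + 2 * (E0 : ℝ) ^ (M + 2) * 3 ^ M * C3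
    with hCt
  have hCt0 : 0 ≤ Ct := by positivity
  refine ⟨Ct + 3, by positivity, ?_⟩
  intro k ρ _ K hK E hE hE1 hones
  have hE1' : (1 : ℝ) ≤ E := by exact_mod_cast hE1
  have hEpos : (0 : ℝ) < E := by linarith
  set y : ℝ := (E : ℝ) ^ (1 / 3 : ℝ) with hy
  have hy1 : 1 ≤ y := Real.one_le_rpow hE1' (by norm_num)
  have hyE : y ≤ E := by
    calc y ≤ (E : ℝ) ^ (1 : ℝ) := Real.rpow_le_rpow_of_exponent_le hE1' (by norm_num)
      _ = E := Real.rpow_one _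
  set z : ℝ := (E : ℝ) ^ (-(1 / 2) : ℝ) with hz
  have hz0 : 0 < z := Real.rpow_pos_of_pos hEpos _
  have hbE : 0 < bE E := by unfold bE; positivity
  have hbE2 : 2 ^ (E + 1) * (E.factorial : ℝ) = 2 * E * bE E := by
    unfold bE
    obtain ⟨n, rfl⟩ : ∃ n, E = n + 1 := ⟨E - 1, by omega⟩
    rw [Nat.factorial_succ]
    push_cast
    ring
  have hEz : 1 / (E : ℝ) ≤ z := by
    have : (1 : ℝ) / E = (E : ℝ) ^ (-1 : ℝ) := by rw [Real.rpow_neg_one]; simp
    rw [this]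
    exact Real.rpow_le_rpow_of_exponent_le hE1' (by norm_num)
  -- the target
  suffices hmain : |Ypoly K - mainE E| ≤ Ct * (3 * y) ^ k * z * bE E by
    refine hmain.trans ?_
    apply mul_le_mul_of_nonneg_right _ hbE.le
    apply mul_le_mul_of_nonneg_right _ hz0.le
    apply mul_le_mul (by linarith) _ (by positivity) (by positivity)
    apply pow_le_pow_left₀ (by positivity)
    apply mul_le_mul_of_nonneg_right (by linarith) (by positivity)
  have hones' : (3 * y) ^ ones K ≤ 3 ^ M * (E : ℝ) ^ M * (3 * y) ^ k := by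
    calc (3 * y) ^ ones K ≤ (3 * y) ^ (M + k) := pow_le_pow_right₀ (by linarith) hones
      _ = (3 * y) ^ M * (3 * y) ^ k := pow_add _ _ _
      _ ≤ (3 * E) ^ M * (3 * y) ^ k := by
          apply mul_le_mul_of_nonneg_right _ (by positivity)
          apply pow_le_pow_left₀ (by positivity)
          linarith
      _ = 3 ^ M * (E : ℝ) ^ M * (3 * y) ^ k := by rw [mul_pow]
  have hmem : ({E} : Finset ℕ) ∈ stp E := by
    rw [mem_stp]
    simp [hE1]
  have hdiff : Ypoly K - mainE E = ∑ S ∈ (stp E).erase {E}, term K S := by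
    rw [Ypoly_eq K E hE, ← Finset.add_sum_erase (stp E) (term K) hmem,
      term_main K (fun i => (hK i).pos) E hE]
    ring
  rw [hdiff]
  refine (Finset.abs_sum_le_sum_abs _ _).trans ?_
  have hterm : ∀ S ∈ stp E, |term K S| ≤ 2 * E * bE E * (3 * y) ^ ones K * maj E S := by
    intro S hS
    have := term_le K hK E hE1 S hS
    rwa [hbE2] at this
  have hX0 : 0 ≤ 2 * (E : ℝ) * bE E * (3 * y) ^ ones K := by positivity
  rcases lt_or_ge E E0 with hlt | hge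
  · -- small `E`
    have h1 : ∑ S ∈ (stp E).erase {E}, |term K S| ≤
        2 * E * bE E * (3 * y) ^ ones K * ∑ S ∈ stp E, maj E S := by
      calc ∑ S ∈ (stp E).erase {E}, |term K S| ≤ ∑ S ∈ stp E, |term K S| :=
            Finset.sum_le_sum_of_subset_of_nonneg (Finset.erase_subset _ _)
              (fun _ _ _ => abs_nonneg _)
        _ ≤ ∑ S ∈ stp E, 2 * E * bE E * (3 * y) ^ ones K * maj E S :=
            Finset.sum_le_sum hterm
        _ = _ := by rw [Finset.mul_sum]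
    have h2 : ∑ S ∈ stp E, maj E S ≤ C3 :=
      Finset.single_le_sum (f := fun E => ∑ S ∈ stp E, maj E S)
        (fun E _ => Finset.sum_nonneg (fun S _ => maj_nonneg E S)) (Finset.mem_range.mpr hlt)
    have hE0' : (E : ℝ) ≤ E0 := by exact_mod_cast hlt.le
    calc ∑ S ∈ (stp E).erase {E}, |term K S|
        ≤ 2 * E * bE E * (3 * y) ^ ones K * C3 :=
          h1.trans (mul_le_mul_of_nonneg_left h2 hX0)
      _ ≤ 2 * E * bE E * (3 ^ M * (E : ℝ) ^ M * (3 * y) ^ k) * C3 := by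
          apply mul_le_mul_of_nonneg_right _ hC30
          apply mul_le_mul_of_nonneg_left hones' (by positivity)
      _ = 2 * (E : ℝ) ^ (M + 2) * 3 ^ M * C3 * (3 * y) ^ k * (1 / E) * bE E := by
          field_simp
          ring
      _ ≤ 2 * (E0 : ℝ) ^ (M + 2) * 3 ^ M * C3 * (3 * y) ^ k * z * bE E := by
          apply mul_le_mul_of_nonneg_right _ hbE.le
          apply mul_le_mul _ hEz (by positivity) (by positivity)
          apply mul_le_mul_of_nonneg_right _ (by positivity)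
          apply mul_le_mul_of_nonneg_right _ hC30
          apply mul_le_mul_of_nonneg_right _ (by positivity)
          apply mul_le_mul_of_nonneg_left _ (by norm_num)
          exact pow_le_pow_left₀ hEpos.le hE0' _
      _ ≤ Ct * (3 * y) ^ k * z * bE E := by
          apply mul_le_mul_of_nonneg_right _ hbE.le
          apply mul_le_mul_of_nonneg_right _ hz0.le
          apply mul_le_mul_of_nonneg_right _ (by positivity)
          rw [hCt]
          have : 0 ≤ 2 * 3 ^ M * (CA + CB + CC) + 2 ^ s0 * C0 * C2 := by positivity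
          linarith
  · -- large `E`
    set fA := (stp E).filter (fun S => (lrg E S).card = 0) with hfA
    set fB := (stp E).filter (fun S => (lrg E S).card = 1 ∧ ∀ a ∈ S, a + s0 < E) with hfB
    set fC := (stp E).filter (fun S => 2 ≤ (lrg E S).card) with hfC
    have hcover : (stp E).erase {E} ⊆ fA ∪ fB ∪ fC ∪ nearS E s0 := by
      intro S hS
      rw [Finset.mem_erase] at hS
      obtain ⟨hne, hS⟩ := hS
      simp only [Finset.mem_union, hfA, hfB, hfC, nearS, Finset.mem_filter]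
      rcases Nat.lt_trichotomy (lrg E S).card 1 with h | h | h
      · exact Or.inl (Or.inl (Or.inl ⟨hS, by omega⟩))
      · by_cases hall : ∀ a ∈ S, a + s0 < E
        · exact Or.inl (Or.inl (Or.inr ⟨hS, h, hall⟩))
        · push Not at hall
          obtain ⟨m, hm, hm2⟩ := hall
          refine Or.inr ⟨hS, m, hm, ?_, hm2⟩
          by_contra hcon
          push Not at hcon
          apply hne
          rw [mem_stp] at hS
          have hsum : m + ∑ a ∈ S.erase m, a = E := by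
            rw [← hS.2]
            exact Finset.add_sum_erase S (fun a => a) hm
          have hz : ∑ a ∈ S.erase m, a = 0 := by omega
          have hemp : S.erase m = ∅ := by
            rw [Finset.eq_empty_iff_forall_notMem]
            intro a ha
            have h3 : a ≤ ∑ a ∈ S.erase m, a :=
              Finset.single_le_sum (f := fun a => a) (fun _ _ => Nat.zero_le _) ha
            have h4 := hS.1 a (Finset.mem_of_mem_erase ha)
            omega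
          have hmE : m = E := by omega
          rw [← Finset.insert_erase hm, hemp, hmE]
          rfl
      · exact Or.inl (Or.inr ⟨hS, by omega⟩)
    have hsplit : ∑ S ∈ (stp E).erase {E}, |term K S| ≤
        ∑ S ∈ fA, |term K S| + ∑ S ∈ fB, |term K S| + ∑ S ∈ fC, |term K S| +
          ∑ S ∈ nearS E s0, |term K S| := by
      have hu : ∀ s t : Finset (Finset ℕ), ∑ S ∈ s ∪ t, |term K S| ≤
          ∑ S ∈ s, |term K S| + ∑ S ∈ t, |term K S| := by
        intro s t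
        have := Finset.sum_union_inter (s₁ := s) (s₂ := t) (f := fun S => |term K S|)
        have h0 : 0 ≤ ∑ S ∈ s ∩ t, |term K S| := Finset.sum_nonneg (fun _ _ => abs_nonneg _)
        linarith
      refine (Finset.sum_le_sum_of_subset_of_nonneg hcover (fun _ _ _ => abs_nonneg _)).trans ?_
      refine (hu _ _).trans ?_
      have h1 := hu (fA ∪ fB) fC
      have h2 := hu fA fB
      linarith
    have hpart : ∀ (f : Finset (Finset ℕ)) (D : ℝ), f ⊆ stp E → 0 ≤ D →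
        ∑ S ∈ f, maj E S ≤ D / (E : ℝ) ^ (M + 2) →
        ∑ S ∈ f, |term K S| ≤ 2 * 3 ^ M * D * (3 * y) ^ k * z * bE E := by
      intro f D hf hD hs
      calc ∑ S ∈ f, |term K S| ≤ ∑ S ∈ f, 2 * E * bE E * (3 * y) ^ ones K * maj E S :=
            Finset.sum_le_sum (fun S hS => hterm S (hf hS))
        _ = 2 * E * bE E * (3 * y) ^ ones K * ∑ S ∈ f, maj E S := by rw [Finset.mul_sum]
        _ ≤ 2 * E * bE E * (3 * y) ^ ones K * (D / (E : ℝ) ^ (M + 2)) :=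
            mul_le_mul_of_nonneg_left hs hX0
        _ ≤ 2 * E * bE E * (3 ^ M * (E : ℝ) ^ M * (3 * y) ^ k) * (D / (E : ℝ) ^ (M + 2)) := by
            apply mul_le_mul_of_nonneg_right _ (by positivity)
            apply mul_le_mul_of_nonneg_left hones' (by positivity)
        _ = 2 * 3 ^ M * D * (3 * y) ^ k * (1 / E) * bE E := by
            field_simp
            ring
        _ ≤ 2 * 3 ^ M * D * (3 * y) ^ k * z * bE E := by
            apply mul_le_mul_of_nonneg_right _ hbE.le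
            apply mul_le_mul_of_nonneg_left hEz (by positivity)
    have hA := hpart fA CA (Finset.filter_subset _ _) hCA0 (hCA E hE1)
    have hB := hpart fB CB (Finset.filter_subset _ _) hCB0 (hCB E hE1)
    have hC := hpart fC CC (Finset.filter_subset _ _) hCC0 (hCC E hE1)
    have hD : ∑ S ∈ nearS E s0, |term K S| ≤ 2 ^ s0 * C0 * C2 * (3 * y) ^ k * z * bE E := by
      have h1 : ∀ S ∈ nearS E s0, |term K S| ≤ C0 * (C2 * (3 * y) ^ k) * z * bE E := by
        intro S hS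
        simp only [nearS, Finset.mem_filter] at hS
        obtain ⟨hS, m, hm, hmE, hm2⟩ := hS
        refine (hC0 K hK E hE hge S hS m hm hmE hm2).trans ?_
        apply mul_le_mul_of_nonneg_right _ hbE.le
        apply mul_le_mul_of_nonneg_right _ hz0.le
        apply mul_le_mul_of_nonneg_left _ hC00
        calc ((ones K : ℝ) + 1) ^ (2 * s0) ≤ ((M : ℝ) + k + 1) ^ (2 * s0) := by
              apply pow_le_pow_left₀ (by positivity)
              have : (ones K : ℝ) ≤ M + k := by exact_mod_cast hones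
              linarith
          _ ≤ C2 * 2 ^ k := hC2 k
          _ ≤ C2 * (3 * y) ^ k := by
              apply mul_le_mul_of_nonneg_left _ hC20
              exact pow_le_pow_left₀ (by norm_num) (by linarith) _
      calc ∑ S ∈ nearS E s0, |term K S| ≤ ∑ S ∈ nearS E s0, C0 * (C2 * (3 * y) ^ k) * z * bE E :=
            Finset.sum_le_sum h1
        _ = (nearS E s0).card * (C0 * (C2 * (3 * y) ^ k) * z * bE E) := by
            rw [Finset.sum_const, nsmul_eq_mul]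
        _ ≤ 2 ^ s0 * (C0 * (C2 * (3 * y) ^ k) * z * bE E) := by
            apply mul_le_mul_of_nonneg_right _ (by positivity)
            exact_mod_cast nearS_card E s0 hge
        _ = _ := by ring
    have hfin : 2 * 3 ^ M * CA * (3 * y) ^ k * z * bE E + 2 * 3 ^ M * CB * (3 * y) ^ k * z * bE E +
        2 * 3 ^ M * CC * (3 * y) ^ k * z * bE E + 2 ^ s0 * C0 * C2 * (3 * y) ^ k * z * bE E ≤
        Ct * (3 * y) ^ k * z * bE E := by
      have : 0 ≤ 2 * (E0 : ℝ) ^ (M + 2) * 3 ^ M * C3 * ((3 * y) ^ k * z * bE E) := by positivity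
      rw [hCt]
      nlinarith [this]
    linarith

end Pool.Agent.Helper34.MVU
end
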