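import Pool.Agent.Helper16.LGG.G03
import Pool.Agent.Helper16.LGG.G05
import Pool.Agent.Helper16.LGG.G06
import Pool.Agent.Helper16.LGG.G08
import Pool.Agent.Helper16.LGG.G09
import Pool.Agent.Helper16.LGG.G12
import Pool.Agent.Helper16.LGG.G13
import Pool.Agent.Helper16.LGG.G14
import Pool.Agent.Helper16.LGG.G15
import Pool.Agent.Helper16.LGG.G16
import Pool.Agent.Helper16.LGG.G17
import Pool.Agent.Helper16.LGG.G18
import Pool.Agent.Helper16.LGG.G19
import Pool.Agent.Helper16.LGG.G20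
import Pool.Agent.Helper16.LGG.G21

/- Helper52.MVD.Sol -/
section
/-!
Project MV, block D1, module D1-13: the matrix model satisfies `IsSol`.

`L f = G * E (subT f)` (an `ℝ`-linear map: `E` is `F`-linear, `subT` is `ℝ`-linear; `MX N F` is an `ℝ`-module through
`F`). `L 1 = G`. For every `f`, `heart` with `b i m = G * E ((X^(2m))_ii * subT f)`, `Ψ = L f` (`b_rec`, and
`b i 0 = Ψ` since `X^0 = 1`) gives `An (m+1) (L f) = - ∑ (1/s_i) b i m = - G * E (TT (2m) * subT f)`; and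
`An 0 = 1`. The sum in `IsSol.eq`: the term `j = ν` is `G * E (p_(2ν+1) * subT f)`, the terms `j < ν` are
`- G E (TT (2 (ν-j-1)) * subT (X j * f))`, the second sum is `- ∑_j ((2j+1)/2) • G E (TT (2 (ν+j)) * subT (∂_j f))`;
the total is `G` times the difference of the two sides of `starId`.
-/

namespace Pool.Agent.Helper52.MVD

open Finset Pool.Agent.Helper60.MV

private theorem sol_TT {F : Type} [Field F] {N : ℕ} (s : Fin N → F) (E : MX N F →ₗ[F] F)
    (m : ℕ) (g : MX N F) :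
    E (TT s m * g) = ∑ i, 1 / s i * E ((XM N F ^ m) i i * g) := by
  unfold TT
  rw [Finset.sum_mul, map_sum]
  refine Finset.sum_congr rfl fun i _ => ?_
  rw [mul_assoc, MvPolynomial.C_mul', map_smul, smul_eq_mul]

theorem isSol_E {F : Type} [Field F] [Algebra ℝ F] {N : ℕ} (D : DF F N) (E : MX N F →ₗ[F] F)
    (hE : IsMat D.s E) : ∃ L : MvPolynomial ℕ ℝ →ₗ[ℝ] F, D.IsSol L ∧
      ∀ f, L f = D.G * E (subT N F f) := by
  let L : MvPolynomial ℕ ℝ →ₗ[ℝ] F :=
    { toFun := fun f => D.G * E (subT N F f)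
      map_add' := by
        intro f g
        rw [map_add, map_add, mul_add]
      map_smul' := by
        intro c f
        rw [map_smul, LinearMap.map_smul_of_tower, mul_smul_comm, RingHom.id_apply] }
  have hL : ∀ f, L f = D.G * E (subT N F f) := fun f => rfl
  refine ⟨L, ?_, hL⟩
  have key : ∀ (m : ℕ) (f : MvPolynomial ℕ ℝ),
      D.An (m + 1) (L f) = -(D.G * E (TT D.s (2 * m) * subT N F f)) := by
    intro m f
    have h := D.heart (fun i m => D.G * E ((XM N F ^ (2 * m)) i i * subT N F f)) (L f)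
      (by
        intro i
        simp [hL])
      (fun i m => b_rec D E hE f i m) m
    rw [h, sol_TT, Finset.mul_sum]
    congr 1
    refine Finset.sum_congr rfl fun i _ => ?_
    ring
  constructor
  · rw [hL, map_one, hE.one, mul_one]
  · intro ν f
    have hst := starId D.s D.s_ne D.add_ne E hE ν f
    rw [Finset.sum_range_succ]
    have h1 : ∑ j ∈ range ν, D.An (ν - j) (L (MvPolynomial.X j * f)) =
        -(D.G * ∑ j ∈ range ν, E (TT D.s (2 * (ν - 1 - j)) * subT N F (MvPolynomial.X j * f))) := by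
      rw [Finset.mul_sum, ← Finset.sum_neg_distrib]
      refine Finset.sum_congr rfl fun j hj => ?_
      have hj' := Finset.mem_range.1 hj
      have h2 : ν - j = (ν - 1 - j) + 1 := by omega
      rw [h2, key]
    have h2 : ∑ j ∈ f.vars, ((2 * (j : ℝ) + 1) / 2) •
          D.An (ν + j + 1) (L (MvPolynomial.pderiv j f)) =
        -(D.G * ∑ j ∈ f.vars, ((2 * (j : ℝ) + 1) / 2) •
          E (TT D.s (2 * (ν + j)) * subT N F (MvPolynomial.pderiv j f))) := by
      rw [Finset.mul_sum, ← Finset.sum_neg_distrib]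
      refine Finset.sum_congr rfl fun j _ => ?_
      rw [key, smul_neg, mul_smul_comm]
    have h3 : D.An (ν - ν) (L (MvPolynomial.X ν * f)) =
        D.G * E (pt N F (2 * ν + 1) * subT N F f) := by
      rw [Nat.sub_self, D.An_zero, Module.End.one_apply, hL, map_mul]
      congr 3
      unfold subT
      rw [MvPolynomial.aeval_X]
    rw [h1, h2, h3, hst]
    ring

end Pool.Agent.Helper52.MVD
end

/- Helper52.MVD.Main -/
section
/-!
Project MV, block D1: assembly.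
-/

namespace Pool.Agent.Helper52.MVD

open Finset Pool.Agent.Helper60.MV

/-- BLOCK D1: the condition `IsSol` determines `L`, and the values are those of the matrix
model. -/
theorem D1main {F : Type} [Field F] [Algebra ℝ F] {N : ℕ} (D : DF F N)
    (L : MvPolynomial ℕ ℝ →ₗ[ℝ] F) (hL : D.IsSol L) {ρ : Type}
    [Fintype ρ] (K : ρ → ℕ) (hK : ∀ i, Odd (K i)) : L (bos K) = D.G * PKF K N D.s := by
  have hc : CharZero F := D.charZero
  obtain ⟨E, hE⟩ := exists_mat D.s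
  obtain ⟨L', hL', hL'E⟩ := isSol_E D E hE
  rw [isSol_unique D L L' hL hL', hL'E, ← E_prod_pt D.s E hE K (fun i => (hK i).pos)]
  congr 2
  unfold bos subT
  rw [map_prod]
  refine Finset.prod_congr rfl fun i _ => ?_
  rw [MvPolynomial.aeval_X]
  congr 1
  obtain ⟨k, hk⟩ := hK i
  omega

end Pool.Agent.Helper52.MVD
end

/- Helper52.MVD.BlockD -/
section
/-!
Project MV, block D: assembly of D1 and D2.
-/

namespace Pool.Agent.Helper52.MVD

open Finset Pool.Agent.Helper60.MV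

theorem DF.G_ne {F : Type} [Field F] [Algebra ℝ F] {N : ℕ} (D : DF F N) : D.G ≠ 0 := by
  unfold DF.G
  refine Finset.prod_ne_zero_iff.mpr fun i _ => Finset.prod_ne_zero_iff.mpr fun j hj => ?_
  have hij : i ≠ j := (Finset.mem_Ioi.mp hj).ne
  exact div_ne_zero (D.sub_ne hij) (D.add_ne i j)

/-- BLOCK D, given the theorem of block D2 -/
theorem blockD_of_D2
    (hD2 : ∀ (N : ℕ) (_ : Even N) (D : DF (FractionRing (MvPolynomial (Fin N) ℝ)) N),
      ∃ L : MvPolynomial ℕ ℝ →ₗ[ℝ] FractionRing (MvPolynomial (Fin N) ℝ), D.IsSol L ∧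
      ∀ {ρ : Type} [Fintype ρ] (K : ρ → ℕ) (_ : ∀ i, Odd (K i)) (E : ℕ) (_ : ∑ i, K i = 2 * E),
        L (bos K) = D.G * MvPolynomial.aeval (tval D.s) (Rpoly K))
    {ρ : Type} [Fintype ρ] (K : ρ → ℕ) (hK : ∀ i, Odd (K i)) (E : ℕ)
    (hE : ∑ i, K i = 2 * E) (N : ℕ) (hN : Even N) (s : Fin N → ℝ) (hs : ∀ i, 0 < s i) :
    PK K N s = MvPolynomial.eval (fun k => ∑ i, (1 / s i) ^ (2 * k + 1)) (Rpoly K) := by
  obtain ⟨D, hD⟩ := exists_DF N
  obtain ⟨L, hL, hLK⟩ := hD2 N hN D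
  have h1 := D1main D L hL K hK
  have h2 := hLK K hK E hE
  have h3 : PKF K N D.s = MvPolynomial.aeval (tval D.s) (Rpoly K) :=
    mul_left_cancel₀ D.G_ne (h1.symm.trans h2)
  have hs' : D.s = fun i => algebraMap (MvPolynomial (Fin N) ℝ)
      (FractionRing (MvPolynomial (Fin N) ℝ)) (MvPolynomial.X i) := funext hD
  rw [hs'] at h3
  rw [transfer K N (Rpoly K) h3 s hs]
  rfl

end Pool.Agent.Helper52.MVD
end

/- Helper52.MVD.Final -/
section
/-!
Project MV: BLOCK D.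
-/

namespace Pool.Agent.Helper52.MVD

open Finset Pool.Agent.Helper60.MV

/-- BLOCK D -/
theorem blockD {ρ : Type} [Fintype ρ] (K : ρ → ℕ) (hK : ∀ i, Odd (K i)) (E : ℕ)
    (hE : ∑ i, K i = 2 * E) (N : ℕ) (hN : Even N) (s : Fin N → ℝ) (hs : ∀ i, 0 < s i) :
    PK K N s = MvPolynomial.eval (fun k => ∑ i, (1 / s i) ^ (2 * k + 1)) (Rpoly K) :=
  blockD_of_D2 (fun _ hN D => Pool.Agent.Helper90.MVD.D2main D hN) K hK E hE N hN s hs

end Pool.Agent.Helper52.MVD
end

/- Helper62.MVC2.Main -/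
section
/-!
MV-C2-15. Assembly: `C_rec`, `C_low`, `C_up`.

The outputs of block C1 (`surgery`: `SurgH K`; `deletion`: `DelH K`) and of block P (`PH`) are hypotheses.
`rest_bound`: the connected configurations without leaf. Split them into good ones, bad AA ones, and bad not AA ones. Good (`A_good`, finitely many `R`,
common constant `C1`): `R.A ε (ξ R) ≤ exp (C1 * (C ε)) R.A ε 0`. Bad AA: `A_le_crude`, the sum is at most `AAc K`. Bad not AA: `bad_small` (with `DelH`),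
each at most `δ / (2 (N + 1))`, `N` the number of configurations.
`C_rec'`: `UB`: `∑_{conn} = ∑_{conn, leaf} + ∑_{conn, no leaf}`; the first by `leaf_eventually`, the second by `rest_bound` with
`∑_{conn, good} R.A ε 0 ≤ ZZ (rot K) ε → Ypoly K` (bounded, so `exp (C1 C ε) ZZ → Ypoly K`).
`C_low'`: `ZZ (rot K) ε = ∑_{conn good} + ∑_{conn bad} + ∑_{not conn}` at `ξ = 0`; bad connected: with a leaf (`leaf_eventually`, `ξ = 0`) or
without leaf (AA: crude, else small); the limits: `Ypoly K ≤ Yconn K + leafSum K B + AAc K + disc K` (`Yconn_tendsto`, `hP`, `disc_eventually`; every `δ`).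
-/

namespace Pool.Agent.Helper62.MVC2

open Finset MeasureTheory Filter Topology Pool.Agent.Helper60.MV

/-- output of block P -/
def PH : Prop := ∀ {ρ : Type} [Fintype ρ] (K : ρ → ℕ), (∀ i, Odd (K i)) → ∀ E : ℕ,
  ∑ i, K i = 2 * E → Tendsto (fun ε => ZZ (rot K) ε) (𝓝[>] (0:ℝ)) (𝓝 (Ypoly K))

/-- output of block C1 (deletion of an edge) for the type `K` -/
def DelH {ρ : Type} [Fintype ρ] (K : ρ → ℕ) : Prop :=
  ∀ R : Conf (rot K), R.Conn → (¬ ∃ x μ, R.IsLeaf x μ) → ¬ R.AA → ∀ (x : HK K) (μ : HK K → ℝ),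
    (∀ h h', R.face h = R.face h' → μ h = μ h') →
    (∀ h h', R.β (R.face h) = R.face h' → μ h' = - μ h) →
    (∀ h, h ≠ x → h ≠ R.τ x → μ (R.τ h) = - μ h) → ∀ h, μ h = 0

/-- the bad connected configurations without leaf -/
theorem bad_bound {ρ : Type} [Fintype ρ] (K : ρ → ℕ) (hK : ∀ i, Odd (K i)) (hdel : DelH K)
    (C : ℝ) (hC : 0 ≤ C) (δ : ℝ) (hδ : 0 < δ) :
    ∀ᶠ ε in 𝓝[>] (0:ℝ), ∀ ξ : (R : Conf (rot K)) → R.Face → ℝ,
      (∀ R f, 0 ≤ ξ R f ∧ ξ R f ≤ C * ε) →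
      (by
        classical
        exact ∑ R ∈ univ.filter (fun R : Conf (rot K) => R.Conn ∧ ¬ R.Good ∧
          ¬ ∃ x μ, R.IsLeaf x μ), R.A ε (ξ R)) ≤ AAc K + δ := by
  classical
  set N : ℕ := Fintype.card (Conf (rot K)) with hN
  have hd : 0 < δ / (N + 1) := by positivity
  have ev1 : ∀ᶠ ε in 𝓝[>] (0:ℝ), ∀ R : Conf (rot K), R.Conn → ¬ R.Good →
      (¬ ∃ x μ, R.IsLeaf x μ) → ¬ R.AA → ∀ ξ : R.Face → ℝ, (∀ f, 0 ≤ ξ f ∧ ξ f ≤ C * ε) →
      R.A ε ξ ≤ δ / (N + 1) := by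
    refine eventually_all.mpr (fun R => ?_)
    by_cases h : R.Conn ∧ ¬ R.Good ∧ (¬ ∃ x μ, R.IsLeaf x μ) ∧ ¬ R.AA
    · have := bad_small R h.2.1 (hdel R h.1 h.2.2.1 h.2.2.2) C hC (δ / (N + 1)) hd
      filter_upwards [this] with ε hε _ _ _ _
      exact hε
    · exact Filter.Eventually.of_forall (fun ε a b c d => absurd ⟨a, b, c, d⟩ h)
  have ev3 : ∀ᶠ ε in 𝓝[>] (0:ℝ), ε ≤ 1 / 2 := by
    have : ∀ᶠ ε in 𝓝 (0:ℝ), ε < 1 / 2 := gt_mem_nhds (by norm_num)
    exact (this.filter_mono nhdsWithin_le_nhds).mono (fun ε hε => hε.le)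
  filter_upwards [ev1, ev3, self_mem_nhdsWithin] with ε h1 h3 h4 ξ hξ
  have h4' : 0 < ε := h4
  have hσ : AllOdd (rot K) := rot_allOdd K hK
  have step : ∀ R ∈ univ.filter (fun R : Conf (rot K) => R.Conn ∧ ¬ R.Good ∧
      ¬ ∃ x μ, R.IsLeaf x μ), R.A ε (ξ R) ≤
      (if R.Conn ∧ R.AA then R.crude else 0) + δ / (N + 1) := by
    intro R hR
    obtain ⟨a, b, c⟩ := (mem_filter.mp hR).2
    by_cases hAA : R.AA
    · rw [if_pos ⟨a, hAA⟩]
      have := A_le_crude hσ R ε h4' h3 (ξ R) (fun f => (hξ R f).1)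
      linarith
    · rw [if_neg (fun h => hAA h.2)]
      have := h1 R a b c hAA (ξ R) (hξ R)
      linarith
  have hcr : ∀ R : Conf (rot K), 0 ≤ (if R.Conn ∧ R.AA then R.crude else 0) := by
    intro R
    split_ifs
    · unfold Conf.crude; positivity
    · exact le_refl _
  calc _ ≤ ∑ R ∈ univ.filter (fun R : Conf (rot K) => R.Conn ∧ ¬ R.Good ∧
        ¬ ∃ x μ, R.IsLeaf x μ), ((if R.Conn ∧ R.AA then R.crude else 0) + δ / (N + 1)) :=
        sum_le_sum step
    _ ≤ ∑ R : Conf (rot K), ((if R.Conn ∧ R.AA then R.crude else 0) + δ / (N + 1)) :=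
        sum_le_sum_of_subset_of_nonneg (filter_subset _ _)
          (fun R _ _ => add_nonneg (hcr R) hd.le)
    _ = AAc K + N * (δ / (N + 1)) := by
        rw [sum_add_distrib, sum_const, card_univ, nsmul_eq_mul, ← hN]
        congr 1
        unfold AAc
        rw [sum_filter]
    _ ≤ AAc K + δ := by
        have : (N : ℝ) * (δ / (N + 1)) ≤ δ := by
          rw [mul_div_assoc', div_le_iff₀ (by positivity)]
          nlinarith
        linarith

/-- the good connected configurations -/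
theorem good_bound {ρ : Type} [Fintype ρ] (K : ρ → ℕ) (hK : ∀ i, Odd (K i))
    (hP : Tendsto (fun ε => ZZ (rot K) ε) (𝓝[>] (0:ℝ)) (𝓝 (Ypoly K)))
    (C : ℝ) (hC : 0 ≤ C) (δ : ℝ) (hδ : 0 < δ) :
    ∀ᶠ ε in 𝓝[>] (0:ℝ), ∀ ξ : (R : Conf (rot K)) → R.Face → ℝ,
      (∀ R f, 0 ≤ ξ R f ∧ ξ R f ≤ C * ε) →
      (by
        classical
        exact ∑ R ∈ univ.filter (fun R : Conf (rot K) => R.Conn ∧ R.Good), R.A ε (ξ R)) ≤
        Ypoly K + δ := by
  classical
  have hσ : AllOdd (rot K) := rot_allOdd K hK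
  have hex : ∀ R : Conf (rot K), ∃ c : ℝ, 0 ≤ c ∧ (R.Good → ∀ ε : ℝ, 0 < ε → ε ≤ 1 / 2 →
      ∀ (ξ : R.Face → ℝ) (M : ℝ), (∀ f, 0 ≤ ξ f ∧ ξ f ≤ M) →
      R.A ε ξ ≤ Real.exp (c * M) * R.A ε 0) := by
    intro R
    by_cases hg : R.Good
    · obtain ⟨c, hc, h⟩ := A_good hσ R hg
      exact ⟨c, hc, fun _ => h⟩
    · exact ⟨0, le_refl _, fun h => absurd h hg⟩
  choose c hc0 hc using hex
  set D : ℝ := ∑ R : Conf (rot K), c R with hD
  have hD0 : 0 ≤ D := sum_nonneg (fun R _ => hc0 R)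
  have hcD : ∀ R, c R ≤ D := fun R => single_le_sum (fun R _ => hc0 R) (mem_univ R)
  have ht : Tendsto (fun ε => Real.exp (D * (C * ε)) * ZZ (rot K) ε) (𝓝[>] (0:ℝ))
      (𝓝 (Ypoly K)) := by
    have h1 : Tendsto (fun ε : ℝ => Real.exp (D * (C * ε))) (𝓝[>] (0:ℝ)) (𝓝 1) := by
      have h2 : Continuous (fun ε : ℝ => Real.exp (D * (C * ε))) := by fun_prop
      have h3 := (h2.tendsto 0).mono_left (nhdsWithin_le_nhds (s := Set.Ioi (0:ℝ)))
      simpa using h3
    have h4 := h1.mul hP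
    rwa [one_mul] at h4
  have ev1 : ∀ᶠ ε in 𝓝[>] (0:ℝ), Real.exp (D * (C * ε)) * ZZ (rot K) ε < Ypoly K + δ :=
    ht.eventually (gt_mem_nhds (by linarith))
  have ev3 : ∀ᶠ ε in 𝓝[>] (0:ℝ), ε ≤ 1 / 2 := by
    have : ∀ᶠ ε in 𝓝 (0:ℝ), ε < 1 / 2 := gt_mem_nhds (by norm_num)
    exact (this.filter_mono nhdsWithin_le_nhds).mono (fun ε hε => hε.le)
  filter_upwards [ev1, ev3, self_mem_nhdsWithin] with ε h1 h3 h4 ξ hξ
  have h4' : 0 < ε := h4
  refine le_trans ?_ h1.le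
  calc _ ≤ ∑ R ∈ univ.filter (fun R : Conf (rot K) => R.Conn ∧ R.Good),
        Real.exp (D * (C * ε)) * R.A ε 0 := by
        refine sum_le_sum (fun R hR => ?_)
        refine (hc R (mem_filter.mp hR).2.2 ε h4' h3 (ξ R) (C * ε) (hξ R)).trans ?_
        refine mul_le_mul_of_nonneg_right (Real.exp_le_exp.mpr ?_) (A_nonneg R ε h4' _)
        exact mul_le_mul_of_nonneg_right (hcD R) (mul_nonneg hC h4'.le)
    _ ≤ ∑ R : Conf (rot K), Real.exp (D * (C * ε)) * R.A ε 0 :=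
        sum_le_sum_of_subset_of_nonneg (filter_subset _ _)
          (fun R _ _ => mul_nonneg (Real.exp_pos _).le (A_nonneg R ε h4' _))
    _ = Real.exp (D * (C * ε)) * ZZ (rot K) ε := by
        unfold ZZ
        rw [mul_sum]

theorem leg_odd (m : ℕ) : ∀ i, Odd (leg m i) := by
  intro i
  unfold leg
  split_ifs
  · exact ⟨m, rfl⟩
  · exact odd_one

theorem leg_lim (hP : PH) (m : ℕ) :
    Tendsto (fun ε => ZZ (rot (leg m)) ε) (𝓝[>] (0:ℝ)) (𝓝 (Ypoly (leg m))) := by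
  refine hP (leg m) (leg_odd m) (m + 1) ?_
  rw [Fintype.sum_bool]
  simp only [leg]
  simp only [if_true, Bool.false_eq_true, if_false]
  ring

/-- the connected configurations are split in three families -/
theorem conn_split {ρ : Type} [Fintype ρ] (K : ρ → ℕ) (f : Conf (rot K) → ℝ)
    (hf : ∀ R, 0 ≤ f R) :
    (by
      classical
      exact ∑ R ∈ univ.filter (fun R : Conf (rot K) => R.Conn), f R) ≤
    (by
      classical
      exact ∑ R ∈ univ.filter (fun R : Conf (rot K) => R.Conn ∧ ∃ x μ, R.IsLeaf x μ), f R) +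
    (by
      classical
      exact ∑ R ∈ univ.filter (fun R : Conf (rot K) => R.Conn ∧ R.Good), f R) +
    (by
      classical
      exact ∑ R ∈ univ.filter (fun R : Conf (rot K) => R.Conn ∧ ¬ R.Good ∧
        ¬ ∃ x μ, R.IsLeaf x μ), f R) := by
  classical
  simp only [sum_filter]
  rw [← sum_add_distrib, ← sum_add_distrib]
  refine sum_le_sum (fun R _ => ?_)
  have h0 := hf R
  by_cases hc : R.Conn
  · by_cases hl : ∃ x μ, R.IsLeaf x μ
    · rw [if_pos hc, if_pos ⟨hc, hl⟩]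
      have e1 : 0 ≤ (if R.Conn ∧ R.Good then f R else 0) := by split_ifs <;> simp [h0]
      have e2 : 0 ≤ (if R.Conn ∧ ¬ R.Good ∧ ¬ ∃ x μ, R.IsLeaf x μ then f R else 0) := by
        split_ifs <;> simp [h0]
      linarith
    · by_cases hg : R.Good
      · rw [if_pos hc, if_neg (fun h => hl h.2), if_pos ⟨hc, hg⟩,
          if_neg (fun h => h.2.1 hg)]
        linarith
      · rw [if_pos hc, if_neg (fun h => hl h.2), if_neg (fun h => hg h.2),
          if_pos ⟨hc, hg, hl⟩]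
        linarith
  · rw [if_neg hc, if_neg (fun h => hc h.1), if_neg (fun h => hc h.1), if_neg (fun h => hc h.1)]
    simp

theorem C_rec' {ρ : Type} [Fintype ρ] (K : ρ → ℕ) (hK : ∀ i, Odd (K i)) (E : ℕ)
    (hE : ∑ i, K i = 2 * E) (hρ : 2 ≤ Fintype.card ρ) (hP : PH) (hsurg : SurgH K)
    (hdel : DelH K) (B : ρ → ℕ → ℝ) (hB : ∀ i m, 0 ≤ B i m)
    (h : ∀ i m, 1 ≤ m → 2 * m + 2 < K i → UB (red K i m) (B i m)) :
    UB K (Ypoly K + AAc K + leafSum K B) := by
  intro C hC δ hδ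
  have h3 : 0 < δ / 3 := by linarith
  have e1 := leaf_eventually K hsurg (leg_lim hP) B hB h C hC (δ / 3) h3
  have e2 := good_bound K hK (hP K hK E hE) C hC (δ / 3) h3
  have e3 := bad_bound K hK hdel C hC (δ / 3) h3
  filter_upwards [e1, e2, e3, self_mem_nhdsWithin] with ε a1 a2 a3 a4 ξ hξ hξ0
  have a4' : 0 < ε := a4
  have b1 := a1 ξ hξ hξ0
  have b2 := a2 ξ hξ
  have b3 := a3 ξ hξ
  have b4 := conn_split K (fun R => R.A ε (ξ R)) (fun R => A_nonneg R ε a4' _)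
  linarith

theorem C_low' {ρ : Type} [Fintype ρ] (K : ρ → ℕ) (hK : ∀ i, Odd (K i)) (E : ℕ)
    (hE : ∑ i, K i = 2 * E) (hρ : 2 ≤ Fintype.card ρ) (hP : PH) (hsurg : SurgH K)
    (hdel : DelH K) (B : ρ → ℕ → ℝ) (hB : ∀ i m, 0 ≤ B i m)
    (h : ∀ i m, 1 ≤ m → 2 * m + 2 < K i → UB (red K i m) (B i m)) :
    Ypoly K - disc K - AAc K - leafSum K B ≤ Yconn K := by
  classical
  haveI : Nonempty ρ := Fintype.card_pos_iff.mp (by omega)
  -- it is enough to bound with an error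
  suffices H : ∀ δ : ℝ, 0 < δ → Ypoly K ≤ Yconn K + leafSum K B + AAc K + disc K + 5 * δ by
    have : Ypoly K ≤ Yconn K + leafSum K B + AAc K + disc K := by
      refine le_of_forall_pos_le_add (fun δ hδ => ?_)
      have := H (δ / 5) (by linarith)
      linarith
    linarith
  intro δ hδ
  have e1 := leaf_eventually K hsurg (leg_lim hP) B hB h 0 (le_refl _) δ hδ
  have e3 := bad_bound K hK hdel 0 (le_refl _) δ hδ
  have e4 := disc_eventually K hK E hE (fun {ρ'} _ K' => hP K') δ hδ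
  have e5 : ∀ᶠ ε in 𝓝[>] (0:ℝ), (by
      classical exact ∑ R ∈ univ.filter (fun R : Conf (rot K) => R.Conn ∧ R.Good), R.A ε 0) <
      Yconn K + δ :=
    (Yconn_tendsto K hK).eventually (gt_mem_nhds (by linarith))
  have e6 : ∀ᶠ ε in 𝓝[>] (0:ℝ), Ypoly K - δ < ZZ (rot K) ε :=
    (hP K hK E hE).eventually (lt_mem_nhds (by linarith))
  obtain ⟨ε, a1, a3, a4, a5, a6, a7⟩ :=
    (e1.and (e3.and (e4.and (e5.and (e6.and self_mem_nhdsWithin))))).exists
  have a7' : 0 < ε := a7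
  have b1 := a1 (fun R => 0) (fun R f => by simp) (fun R f _ => rfl)
  have b3 := a3 (fun R => 0) (fun R f => by simp)
  have b4 := conn_split K (fun R => R.A ε 0) (fun R => A_nonneg R ε a7' _)
  have b5 : ZZ (rot K) ε = (∑ R ∈ univ.filter (fun R : Conf (rot K) => R.Conn), R.A ε 0) +
      ∑ R ∈ univ.filter (fun R : Conf (rot K) => ¬ R.Conn), R.A ε 0 := by
    unfold ZZ
    rw [sum_filter_add_sum_filter_not]
  linarith

end Pool.Agent.Helper62.MVC2
end

/- Helper62.MVC2.Fin -/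
section
/-!
MV block C, final form: `C_up`, `C_rec`, `C_low`, `UB_odd` from the limit theorem `PH` (block P).
-/

namespace Pool.Agent.Helper62.MVC2

open Finset MeasureTheory Filter Topology Pool.Agent.Helper60.MV

theorem surgH {ρ : Type} [Fintype ρ] (K : ρ → ℕ) (hK : ∀ i, Odd (K i)) : SurgH K :=
  fun R hc hl => Pool.Agent.Helper91.MVC.surgery K hK R hc hl

theorem two_cycles {ρ : Type} [Fintype ρ] (K : ρ → ℕ) (hK : ∀ i, Odd (K i))
    (hρ : 2 ≤ Fintype.card ρ) : ∃ a b : HK K, ¬ (rot K).SameCycle a b := by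
  obtain ⟨i, i', hi⟩ := Fintype.exists_pair_of_one_lt_card (α := ρ) (by omega)
  refine ⟨⟨i, ⟨0, (hK i).pos⟩⟩, ⟨i', ⟨0, (hK i').pos⟩⟩, ?_⟩
  rintro ⟨k, hk⟩
  have key : ∀ (k : ℤ) (h : HK K), ((rot K ^ k) h).1 = h.1 := by
    intro k
    induction k using Int.induction_on with
    | zero => intro h; simp
    | succ n ih =>
      intro h
      rw [zpow_add, Equiv.Perm.mul_apply, ih]
      rfl
    | pred n ih =>
      intro h
      rw [zpow_sub, Equiv.Perm.mul_apply, ih, zpow_one]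
      rfl
  exact hi ((key k _).symm.trans (congrArg Sigma.fst hk))

theorem delH {ρ : Type} [Fintype ρ] (K : ρ → ℕ) (hK : ∀ i, Odd (K i))
    (hρ : 2 ≤ Fintype.card ρ) : DelH K :=
  fun R hc hl haa x μ h1 h2 h3 =>
    Pool.Agent.Helper91.MVC.deletion' (rot_allOdd K hK) (two_cycles K hK hρ) R hc hl haa x μ h1 h2 h3

theorem C_up_of {ρ : Type} [Fintype ρ] (hP : PH) (K : ρ → ℕ) (hK : ∀ i, Odd (K i)) (E : ℕ)
    (hE : ∑ i, K i = 2 * E) (hρ : 2 ≤ Fintype.card ρ) : Yconn K ≤ Ypoly K := by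
  have : Nonempty ρ := Fintype.card_pos_iff.mp (by omega)
  exact C_up' K hK (hP K hK E hE)

theorem C_rec_of {ρ : Type} [Fintype ρ] (hP : PH) (K : ρ → ℕ) (hK : ∀ i, Odd (K i)) (E : ℕ)
    (hE : ∑ i, K i = 2 * E) (hρ : 2 ≤ Fintype.card ρ) (B : ρ → ℕ → ℝ) (hB : ∀ i m, 0 ≤ B i m)
    (h : ∀ i m, 1 ≤ m → 2 * m + 2 < K i → UB (red K i m) (B i m)) :
    UB K (Ypoly K + AAc K + leafSum K B) :=
  C_rec' K hK E hE hρ hP (surgH K hK) (delH K hK hρ) B hB h

theorem C_low_of {ρ : Type} [Fintype ρ] (hP : PH) (K : ρ → ℕ) (hK : ∀ i, Odd (K i)) (E : ℕ)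
    (hE : ∑ i, K i = 2 * E) (hρ : 2 ≤ Fintype.card ρ) (B : ρ → ℕ → ℝ) (hB : ∀ i m, 0 ≤ B i m)
    (h : ∀ i m, 1 ≤ m → 2 * m + 2 < K i → UB (red K i m) (B i m)) :
    Ypoly K - disc K - AAc K - leafSum K B ≤ Yconn K :=
  C_low' K hK E hE hρ hP (surgH K hK) (delH K hK hρ) B hB h

end Pool.Agent.Helper62.MVC2
end

/- Helper71.MVN.Asm -/
section
/-!
Project MV: the blocks together.
-/

namespace Pool.Agent.Helper71.MVN

open Finset Filter Topology Pool.Agent.Helper60.MV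

/-- block P (with block D) -/
theorem blockP : Pool.Agent.Helper62.MVC2.PH := fun K hK E hE =>
  Pool.Agent.Helper12.MVP.blockP_of_D K
    (fun N hN s hs => Pool.Agent.Helper52.MVD.blockD K hK E hE N hN s hs)

/-- everything that block N needs -/
theorem hyp : Pool.Agent.Helper29.MVN.Hyp where
  blockU := Pool.Agent.Helper34.MVU.blockU
  mainE_even := Pool.Agent.Helper34.MVU.mainE_even
  mainE_odd := Pool.Agent.Helper34.MVU.mainE_odd
  C_up := fun K hK E hE hρ => Pool.Agent.Helper62.MVC2.C_up_of blockP K hK E hE hρ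
  C_rec := fun K hK E hE hρ B hB h => Pool.Agent.Helper62.MVC2.C_rec_of blockP K hK E hE hρ B hB h
  C_low := fun K hK E hE hρ B hB h => Pool.Agent.Helper62.MVC2.C_low_of blockP K hK E hE hρ B hB h
  UB_odd := fun K hK E hE hodd => Pool.Agent.Helper62.MVC2.UB_odd K hK E hE hodd
  AAc_le := Pool.Agent.Helper72.MVAA.AAc_le

/-- block B -/
theorem blockB : BlockB := fun K hK E hE =>
  blockB_of_A K hK E hE (Pool.Agent.Helper84.MVA.blockA K hK)

/-- block N -/
theorem blockN : BlockN := fun M δ hδ => Pool.Agent.Helper29.MVN.blockN hyp M δ hδ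

end Pool.Agent.Helper71.MVN
end
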